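import Pool.Agent.Lib.MP_dde81e_full.Defs

/-!
Module A1 (text 1.1, RECT). Proof: A = max A1 A2, G(s) = g(s) * exp(L(s) - √2 A sin(π(s+W/2)/(2W)) / cosh(πT/(2W))),
L(s) = A1 + (A2-A1) s/W.  Re sin(π(s+W/2)/(2W)) = sin(π(X+W/2)/(2W)) cosh(πY/(2W)) (s = X+iY) and
sin(π(X+W/2)/(2W)) ≥ 1/√2 for 0 ≤ X ≤ W.  On the vertical sides Re(exponent) ≤ A_i; for |Y| = T it is
≤ L(X) - A ≤ 0.  So |G| ≤ 1 on the frontier, maximum principle (Complex.norm_le_of_forall_mem_frontier_norm_le).
At real X: exponent ≥ L(X) - √2 A / cosh(πT/(2W)) ≥ L(X) - 3 A exp(-πT/(2W)).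
-/

namespace MuntzF
open Set Metric

/-- maximum principle on the rectangle -/
theorem A1_max {W T : ℝ} (hW : 0 < W) (hT : 0 < T) {G : ℂ → ℂ} (hG : AnalyticOnNhd ℂ G (Rc W T))
    (h : ∀ s ∈ Rc W T, (s.re = 0 ∨ s.re = W ∨ |s.im| = T) → ‖G s‖ ≤ 1) {s : ℂ}
    (hs : s ∈ Rc W T) : ‖G s‖ ≤ 1 := by
  have hT' : -T ≠ T := by linarith
  have hcl : closure (Ioo 0 W ×ℂ Ioo (-T) T) = Rc W T := by
    rw [Complex.closure_reProdIm, closure_Ioo hW.ne, closure_Ioo hT']
    ext z
    simp only [Complex.mem_reProdIm, mem_Icc, Rc, mem_setOf_eq, abs_le]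
    tauto
  have hb : Bornology.IsBounded (Ioo 0 W ×ℂ Ioo (-T) T) := by
    exact (Metric.isBounded_Ioo 0 W).reProdIm (Metric.isBounded_Ioo (-T) T)
  have hd : DiffContOnCl ℂ G (Ioo 0 W ×ℂ Ioo (-T) T) := by
    apply DifferentiableOn.diffContOnCl
    rw [hcl]
    exact hG.differentiableOn
  refine Complex.norm_le_of_forall_mem_frontier_norm_le hb hd ?_ (hcl.symm ▸ hs)
  intro z hz
  have hz1 : z ∈ Rc W T := by rw [← hcl]; exact frontier_subset_closure hz
  refine h z hz1 ?_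
  rw [Complex.frontier_reProdIm, frontier_Ioo hW, frontier_Ioo (by linarith)] at hz
  rcases hz with hz | hz
  · rw [Complex.mem_reProdIm] at hz
    rcases hz.2 with h1 | h1
    · right; right; rw [h1, abs_neg, abs_of_pos hT]
    · right; right; rw [h1, abs_of_pos hT]
  · rw [Complex.mem_reProdIm] at hz
    rcases hz.1 with h1 | h1
    · left; exact h1
    · right; left; exact h1

theorem A1_sin_re (z : ℂ) : (Complex.sin z).re = Real.sin z.re * Real.cosh z.im := by
  rw [Complex.sin_eq]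
  simp only [← Complex.ofReal_sin, ← Complex.ofReal_cosh, ← Complex.ofReal_cos,
    ← Complex.ofReal_sinh, ← Complex.ofReal_mul, Complex.add_re, Complex.ofReal_re,
    Complex.mul_re, Complex.I_re, Complex.I_im, Complex.ofReal_im]
  ring

/-- the barrier argument -/
theorem A1_bar {W T : ℝ} (hW : 0 < W) (hT : 0 < T) {g E : ℂ → ℂ} (hg : AnalyticOnNhd ℂ g (Rc W T))
    (hE : Differentiable ℂ E)
    (h : ∀ s ∈ Rc W T, (s.re = 0 ∨ s.re = W ∨ |s.im| = T) → ‖g s‖ * Real.exp (E s).re ≤ 1) {s : ℂ}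
    (hs : s ∈ Rc W T) : ‖g s‖ ≤ Real.exp (-(E s).re) := by
  have h1 : ‖g s * Complex.exp (E s)‖ ≤ 1 := by
    refine A1_max (G := fun s => g s * Complex.exp (E s)) hW hT ?_ ?_ hs
    · exact hg.mul fun z _ => (hE.cexp).analyticAt z
    · intro z hz1 hz2
      rw [norm_mul, Complex.norm_exp]
      exact h z hz1 hz2
  rw [norm_mul, Complex.norm_exp] at h1
  rw [Real.exp_neg]
  rw [← one_div, le_div_iff₀ (Real.exp_pos _)]
  exact h1

theorem rect_two {W T A1 A2 : ℝ} (hW : 0 < W) (hT : 0 < T) (hA1 : 0 ≤ A1) (hA2 : 0 ≤ A2)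
    {g : ℂ → ℂ} (hg : AnalyticOnNhd ℂ g (Rc W T)) (h1 : ∀ s ∈ Rc W T, ‖g s‖ ≤ 1)
    (hl : ∀ s ∈ Rc W T, s.re = 0 → ‖g s‖ ≤ Real.exp (-A1))
    (hr : ∀ s ∈ Rc W T, s.re = W → ‖g s‖ ≤ Real.exp (-A2)) {X : ℝ} (hX : X ∈ Icc 0 W) :
    ‖g X‖ ≤ Real.exp (-((1 - X / W) * A1 + X / W * A2
      - 3 * max A1 A2 * Real.exp (-(Real.pi * T / (2 * W))))) := by
  set A := max A1 A2 with hAdef
  have hA : 0 ≤ A := le_trans hA1 (le_max_left _ _)
  set r : ℝ := Real.pi / (2 * W) with hr0
  have hrp : 0 < r := by positivity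
  set c : ℝ := Real.sqrt 2 * A / Real.cosh (r * T) with hc0
  have hch : 0 < Real.cosh (r * T) := Real.cosh_pos _
  have hc : 0 ≤ c := by positivity
  set E : ℂ → ℂ := fun s => (A1 : ℂ) + ((A2 - A1 : ℝ) : ℂ) * (s / (W : ℂ)) -
    (c : ℂ) * Complex.sin ((r : ℂ) * (s + ((W / 2 : ℝ) : ℂ))) with hE0
  have hE : Differentiable ℂ E := by
    intro z
    simp only [hE0]
    fun_prop
  have hEre : ∀ s : ℂ, (E s).re = (1 - s.re / W) * A1 + s.re / W * A2 -
      c * (Real.sin (r * (s.re + W / 2)) * Real.cosh (r * s.im)) := by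
    intro s
    have e1 : ((A1 : ℂ) + ((A2 - A1 : ℝ) : ℂ) * (s / (W : ℂ))).re =
        (1 - s.re / W) * A1 + s.re / W * A2 := by
      rw [Complex.add_re, Complex.re_ofReal_mul, Complex.div_ofReal_re, Complex.ofReal_re]
      ring
    have e2 : ((c : ℂ) * Complex.sin ((r : ℂ) * (s + ((W / 2 : ℝ) : ℂ)))).re =
        c * (Real.sin (r * (s.re + W / 2)) * Real.cosh (r * s.im)) := by
      rw [Complex.re_ofReal_mul, A1_sin_re, Complex.re_ofReal_mul, Complex.im_ofReal_mul,
        Complex.add_re, Complex.add_im, Complex.ofReal_re, Complex.ofReal_im, add_zero]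
    simp only [hE0]
    rw [Complex.sub_re, e1, e2]
  have hsin : ∀ x : ℝ, 0 ≤ x → x ≤ W → Real.sqrt 2 / 2 ≤ Real.sin (r * (x + W / 2)) := by
    intro x hx0 hx1
    have h2 : r * (x + W / 2) = Real.pi / 2 - (r * (W / 2 - x)) := by
      have : r * W = Real.pi / 2 := by
        rw [hr0]; field_simp
      linear_combination this
    rw [h2, Real.sin_pi_div_two_sub, ← Real.cos_abs, ← Real.cos_pi_div_four]
    refine Real.cos_le_cos_of_nonneg_of_le_pi (abs_nonneg _) (by linarith [Real.pi_pos]) ?_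
    rw [abs_mul, abs_of_pos hrp]
    have h3 : |W / 2 - x| ≤ W / 2 := by
      rw [abs_le]; constructor <;> linarith
    calc r * |W / 2 - x| ≤ r * (W / 2) := mul_le_mul_of_nonneg_left h3 hrp.le
      _ = Real.pi / 4 := by rw [hr0]; field_simp; norm_num
  have hsq : (0 : ℝ) < Real.sqrt 2 := by positivity
  have hsin0 : ∀ x : ℝ, 0 ≤ x → x ≤ W → 0 ≤ Real.sin (r * (x + W / 2)) := fun x hx0 hx1 =>
    le_trans (by positivity) (hsin x hx0 hx1)
  have key : ∀ s ∈ Rc W T, (s.re = 0 ∨ s.re = W ∨ |s.im| = T) →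
      ‖g s‖ * Real.exp (E s).re ≤ 1 := by
    intro s hs hcase
    have hs' := hs
    obtain ⟨hs1, hs2, hs3⟩ := hs'
    have hpos : 0 ≤ c * (Real.sin (r * (s.re + W / 2)) * Real.cosh (r * s.im)) :=
      mul_nonneg hc (mul_nonneg (hsin0 _ hs1 hs2) (Real.cosh_pos _).le)
    rcases hcase with h2 | h2 | h2
    · have h3 : (E s).re ≤ A1 := by
        have h5 := hEre s
        rw [h2] at h5 hpos
        simp only [zero_div, sub_zero, one_mul, zero_mul, add_zero, zero_add] at h5 hpos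
        rw [h5]
        linarith
      calc ‖g s‖ * Real.exp (E s).re ≤ Real.exp (-A1) * Real.exp A1 :=
            mul_le_mul (hl s hs h2) (Real.exp_le_exp.2 h3) (Real.exp_pos _).le (Real.exp_pos _).le
        _ = 1 := by rw [← Real.exp_add]; simp
    · have h3 : (E s).re ≤ A2 := by
        have h5 := hEre s
        rw [h2] at h5 hpos
        rw [div_self hW.ne'] at h5
        linarith
      calc ‖g s‖ * Real.exp (E s).re ≤ Real.exp (-A2) * Real.exp A2 :=
            mul_le_mul (hr s hs h2) (Real.exp_le_exp.2 h3) (Real.exp_pos _).le (Real.exp_pos _).le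
        _ = 1 := by rw [← Real.exp_add]; simp
    · have h3 : (E s).re ≤ 0 := by
        rw [hEre]
        have h4 : Real.cosh (r * s.im) = Real.cosh (r * T) := by
          rw [← Real.cosh_abs, abs_mul, abs_of_pos hrp, h2]
        have h5 : A ≤ c * (Real.sin (r * (s.re + W / 2)) * Real.cosh (r * s.im)) := by
          rw [h4, hc0]
          have h6 : Real.sqrt 2 * A / Real.cosh (r * T) *
              (Real.sin (r * (s.re + W / 2)) * Real.cosh (r * T)) =
              A * (Real.sqrt 2 * Real.sin (r * (s.re + W / 2))) := by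
            field_simp
          rw [h6]
          have h7 : 1 ≤ Real.sqrt 2 * Real.sin (r * (s.re + W / 2)) := by
            calc (1 : ℝ) = Real.sqrt 2 * (Real.sqrt 2 / 2) := by
                  rw [← mul_div_assoc, Real.mul_self_sqrt (by norm_num)]; norm_num
              _ ≤ _ := mul_le_mul_of_nonneg_left (hsin _ hs1 hs2) hsq.le
          nlinarith
        have h8 : 0 ≤ s.re / W := div_nonneg hs1 hW.le
        have h9 : s.re / W ≤ 1 := (div_le_one hW).2 hs2
        have h10 : (1 - s.re / W) * A1 ≤ (1 - s.re / W) * A :=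
          mul_le_mul_of_nonneg_left (le_max_left _ _) (by linarith)
        have h11 : s.re / W * A2 ≤ s.re / W * A :=
          mul_le_mul_of_nonneg_left (le_max_right _ _) h8
        nlinarith
      calc ‖g s‖ * Real.exp (E s).re ≤ 1 * 1 :=
            mul_le_mul (h1 s hs) (Real.exp_le_one_iff.2 h3) (Real.exp_pos _).le zero_le_one
        _ = 1 := one_mul 1
  have hXm : (X : ℂ) ∈ Rc W T := by
    refine ⟨?_, ?_, ?_⟩
    · rw [Complex.ofReal_re]; exact hX.1
    · rw [Complex.ofReal_re]; exact hX.2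
    · rw [Complex.ofReal_im, abs_zero]; exact hT.le
  refine (A1_bar hW hT hg hE key hXm).trans (Real.exp_le_exp.2 ?_)
  rw [hEre, Complex.ofReal_re, Complex.ofReal_im, mul_zero, Real.cosh_zero, mul_one]
  have h12 : c * Real.sin (r * (X + W / 2)) ≤ c :=
    mul_le_of_le_one_right hc (Real.sin_le_one _)
  have h13 : c ≤ 3 * A * Real.exp (-(Real.pi * T / (2 * W))) := by
    have e1 : Real.pi * T / (2 * W) = r * T := by rw [hr0]; ring
    rw [e1, hc0, div_le_iff₀ hch]
    have h14 : Real.exp (r * T) ≤ 2 * Real.cosh (r * T) := by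
      rw [Real.cosh_eq]
      have := Real.exp_pos (-(r * T))
      linarith
    have h15 : Real.exp (-(r * T)) * Real.exp (r * T) = 1 := by rw [← Real.exp_add]; simp
    have h16 : 1 ≤ 2 * (Real.exp (-(r * T)) * Real.cosh (r * T)) := by
      have := mul_le_mul_of_nonneg_left h14 (Real.exp_pos (-(r * T))).le
      nlinarith
    have h17 : Real.sqrt 2 ≤ 3 / 2 := by
      rw [Real.sqrt_le_left (by norm_num)]
      norm_num
    calc Real.sqrt 2 * A ≤ 3 / 2 * A := mul_le_mul_of_nonneg_right h17 hA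
      _ = 3 / 2 * A * 1 := (mul_one _).symm
      _ ≤ 3 / 2 * A * (2 * (Real.exp (-(r * T)) * Real.cosh (r * T))) :=
          mul_le_mul_of_nonneg_left h16 (by positivity)
      _ = 3 * A * Real.exp (-(r * T)) * Real.cosh (r * T) := by ring
  linarith

end MuntzF
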