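import Pool.Agent.Lib.MP_dde81e_full.Defs
import Pool.Agent.Lib.MP_dde81e_full.A1

/-!
Module A2 (text 1.2, RECT1). Proof: G(s) = g(s) * exp(A [s/W - sin(πs/(2W)) / cosh(πT/(2W))]).
Re sin(πs/(2W)) = sin(πX/(2W)) cosh(πY/(2W)).  Left side: exponent has real part 0. Right side: ≤ A.
|Y| = T: A [X/W - sin(πX/(2W))] ≤ 0 (Jordan: Real.mul_le_sin).  Maximum principle.
At real X: sin(πX/(2W)) ≤ (π/2) X/W and (π/2)/cosh y ≤ 4 exp(-y).
-/

namespace MuntzF
open Set Metric

theorem rect_one {W T A : ℝ} (hW : 0 < W) (hT : 0 < T) (hA : 0 ≤ A)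
    {g : ℂ → ℂ} (hg : AnalyticOnNhd ℂ g (Rc W T)) (h1 : ∀ s ∈ Rc W T, ‖g s‖ ≤ 1)
    (hr : ∀ s ∈ Rc W T, s.re = W → ‖g s‖ ≤ Real.exp (-A)) {X : ℝ} (hX : X ∈ Icc 0 W) :
    ‖g X‖ ≤ Real.exp (-(A * (X / W) * (1 - 4 * Real.exp (-(Real.pi * T / (2 * W)))))) := by
  set r : ℝ := Real.pi / (2 * W) with hr0
  have hrp : 0 < r := by positivity
  have hrW : r * W = Real.pi / 2 := by rw [hr0]; field_simp
  have hch : 0 < Real.cosh (r * T) := Real.cosh_pos _
  set c : ℝ := A / Real.cosh (r * T) with hc0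
  have hc : 0 ≤ c := by positivity
  set E : ℂ → ℂ := fun s => (A : ℂ) * (s / (W : ℂ)) - (c : ℂ) * Complex.sin ((r : ℂ) * s) with hE0
  have hE : Differentiable ℂ E := by
    intro z
    simp only [hE0]
    fun_prop
  have hEre : ∀ s : ℂ, (E s).re = A * (s.re / W) -
      c * (Real.sin (r * s.re) * Real.cosh (r * s.im)) := by
    intro s
    simp only [hE0]
    rw [Complex.sub_re, Complex.re_ofReal_mul, Complex.div_ofReal_re, Complex.re_ofReal_mul,
      A1_sin_re, Complex.re_ofReal_mul, Complex.im_ofReal_mul]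
  have hrx : ∀ x : ℝ, x ≤ W → r * x ≤ Real.pi / 2 := fun x hx => by
    rw [← hrW]; exact mul_le_mul_of_nonneg_left hx hrp.le
  have hjor : ∀ x : ℝ, 0 ≤ x → x ≤ W → x / W ≤ Real.sin (r * x) := by
    intro x hx0 hx1
    have h2 := Real.mul_le_sin (x := r * x) (by positivity) (hrx x hx1)
    refine le_trans (le_of_eq ?_) h2
    rw [hr0]; field_simp
  have key : ∀ s ∈ Rc W T, (s.re = 0 ∨ s.re = W ∨ |s.im| = T) →
      ‖g s‖ * Real.exp (E s).re ≤ 1 := by
    intro s hs hcase
    have hs' := hs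
    obtain ⟨hs1, hs2, hs3⟩ := hs'
    have hpos : 0 ≤ c * (Real.sin (r * s.re) * Real.cosh (r * s.im)) :=
      mul_nonneg hc (mul_nonneg (le_trans (div_nonneg hs1 hW.le) (hjor _ hs1 hs2))
        (Real.cosh_pos _).le)
    rcases hcase with h2 | h2 | h2
    · have h3 : (E s).re ≤ 0 := by
        have h5 := hEre s
        rw [h2] at h5
        simp at h5
        exact h5.le
      calc ‖g s‖ * Real.exp (E s).re ≤ 1 * 1 :=
            mul_le_mul (h1 s hs) (Real.exp_le_one_iff.2 h3) (Real.exp_pos _).le zero_le_one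
        _ = 1 := one_mul 1
    · have h3 : (E s).re ≤ A := by
        have h5 := hEre s
        rw [h2] at h5 hpos
        rw [div_self hW.ne'] at h5
        linarith
      calc ‖g s‖ * Real.exp (E s).re ≤ Real.exp (-A) * Real.exp A :=
            mul_le_mul (hr s hs h2) (Real.exp_le_exp.2 h3) (Real.exp_pos _).le (Real.exp_pos _).le
        _ = 1 := by rw [← Real.exp_add]; simp
    · have h3 : (E s).re ≤ 0 := by
        rw [hEre]
        have h4 : Real.cosh (r * s.im) = Real.cosh (r * T) := by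
          rw [← Real.cosh_abs, abs_mul, abs_of_pos hrp, h2]
        have h5 : c * (Real.sin (r * s.re) * Real.cosh (r * s.im)) =
            A * Real.sin (r * s.re) := by
          rw [h4, hc0]
          field_simp
        rw [h5]
        have := mul_le_mul_of_nonneg_left (hjor _ hs1 hs2) hA
        linarith
      calc ‖g s‖ * Real.exp (E s).re ≤ 1 * 1 :=
            mul_le_mul (h1 s hs) (Real.exp_le_one_iff.2 h3) (Real.exp_pos _).le zero_le_one
        _ = 1 := one_mul 1
  have hXm : (X : ℂ) ∈ Rc W T := by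
    refine ⟨?_, ?_, ?_⟩
    · rw [Complex.ofReal_re]; exact hX.1
    · rw [Complex.ofReal_re]; exact hX.2
    · rw [Complex.ofReal_im, abs_zero]; exact hT.le
  refine (A1_bar hW hT hg hE key hXm).trans (Real.exp_le_exp.2 ?_)
  rw [hEre, Complex.ofReal_re, Complex.ofReal_im, mul_zero, Real.cosh_zero, mul_one]
  have e1 : Real.pi * T / (2 * W) = r * T := by rw [hr0]; ring
  rw [e1]
  have h14 : Real.exp (r * T) ≤ 2 * Real.cosh (r * T) := by
    rw [Real.cosh_eq]
    have := Real.exp_pos (-(r * T))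
    linarith
  have h15 : Real.exp (-(r * T)) * Real.exp (r * T) = 1 := by rw [← Real.exp_add]; simp
  have h16 : 1 ≤ 2 * (Real.exp (-(r * T)) * Real.cosh (r * T)) := by
    have := mul_le_mul_of_nonneg_left h14 (Real.exp_pos (-(r * T))).le
    nlinarith
  have h17 : c ≤ A * (2 * Real.exp (-(r * T))) := by
    rw [hc0, div_le_iff₀ hch]
    have := mul_le_mul_of_nonneg_left h16 hA
    nlinarith
  have h18 : Real.sin (r * X) ≤ 2 * (X / W) := by
    refine (Real.sin_le (by have := hX.1; positivity)).trans ?_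
    have h19 : r * X = Real.pi / 2 * (X / W) := by rw [hr0]; field_simp
    rw [h19]
    have h20 : Real.pi / 2 ≤ 2 := by linarith [Real.pi_le_four]
    exact mul_le_mul_of_nonneg_right h20 (div_nonneg hX.1 hW.le)
  have h21 : c * Real.sin (r * X) ≤ A * (2 * Real.exp (-(r * T))) * (2 * (X / W)) :=
    mul_le_mul h17 h18 (le_trans (div_nonneg hX.1 hW.le) (hjor X hX.1 hX.2))
      (by positivity)
  linarith

end MuntzF
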