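import Pool.Agent.Lib.MP_dde81e_full.Defs
import Pool.Agent.Lib.MP_dde81e_an.BAR

/-!
Module A3 (text 1.3, BAR).  `Muntz.barrier` (file BAR of Lib/MP_dde81e_an) gives the bound for |z| = R/8 (in terms of
`nl`); for |z| ≤ R/8 use the maximum principle on the half disc {Re > 0, |z| < R/8} for
g(z) exp(c m z / R) (norm ≤ 1 on Re z = 0 and on the arc).
-/

namespace MuntzF
open Set Metric

theorem A3_le_nl {x : ℂ} {A : ℝ} (h : ‖x‖ ≤ Real.exp (-A)) : ENNReal.ofReal A ≤ Muntz.nl x := by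
  unfold Muntz.nl
  split_ifs with h0
  · exact le_top
  · apply ENNReal.ofReal_le_ofReal
    have h1 := Real.log_le_log (norm_pos_iff.2 h0) h
    rw [Real.log_exp] at h1
    linarith

theorem A3_of_le_nl {x : ℂ} {A : ℝ} (hx : ‖x‖ ≤ 1) (h : ENNReal.ofReal A ≤ Muntz.nl x) :
    ‖x‖ ≤ Real.exp (-A) := by
  by_cases h0 : x = 0
  · rw [h0, norm_zero]
    exact (Real.exp_pos _).le
  · unfold Muntz.nl at h
    rw [if_neg h0] at h
    have hlog : 0 ≤ -Real.log ‖x‖ := by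
      have := Real.log_nonpos (norm_nonneg x) hx
      linarith
    have h1 : A ≤ -Real.log ‖x‖ := (ENNReal.ofReal_le_ofReal_iff hlog).1 h
    calc ‖x‖ = Real.exp (Real.log ‖x‖) := (Real.exp_log (norm_pos_iff.2 h0)).symm
      _ ≤ Real.exp (-A) := Real.exp_le_exp.2 (by linarith)

theorem bar : ∃ c1 : ℝ, 0 < c1 ∧ ∀ (g : ℂ → ℂ) (R m : ℝ), 0 < R → 0 ≤ m →
    AnalyticOnNhd ℂ g Muntz.RH → (∀ z ∈ Muntz.RH, ‖z‖ ≤ 64 * R → ‖g z‖ ≤ 1) →
    (∀ z ∈ closedBall (R : ℂ) (R / 4), ‖g z‖ ≤ Real.exp (-m)) →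
    ∀ z : ℂ, 0 < z.re → ‖z‖ ≤ R / 8 → ‖g z‖ ≤ Real.exp (-(c1 * m * (z.re / R))) := by
  obtain ⟨c, hc, hbar⟩ := Muntz.barrier
  refine ⟨c, hc, ?_⟩
  intro g R m hR hm hg hb hmb z hz0 hz1
  have arc : ∀ w : ℂ, 0 < w.re → ‖w‖ = R / 8 → ‖g w‖ ≤ Real.exp (-(c * m * (w.re / R))) := by
    intro w hw0 hw1
    have h1 := hbar g R (ENNReal.ofReal m) hR hg hb (fun y hy => A3_le_nl (hmb y hy)) w hw0 hw1
    rw [← ENNReal.ofReal_mul (by positivity)] at h1
    have h2 : ‖g w‖ ≤ 1 := hb w hw0.le (by rw [hw1]; linarith)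
    have h3 := A3_of_le_nl h2 h1
    have e : c * (w.re / R) * m = c * m * (w.re / R) := by ring
    rwa [e] at h3
  set Ω : Set ℂ := {w | 0 < w.re ∧ ‖w‖ < R / 8} with hΩdef
  have hΩo : IsOpen Ω := by
    have i1 : IsOpen {w : ℂ | 0 < w.re} := isOpen_lt continuous_const Complex.continuous_re
    have i2 : IsOpen {w : ℂ | ‖w‖ < R / 8} := isOpen_lt continuous_norm continuous_const
    exact i1.inter i2
  have hΩb : Bornology.IsBounded Ω := by
    refine (Metric.isBounded_closedBall (x := (0 : ℂ)) (r := R / 8)).subset ?_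
    intro w hw
    rw [mem_closedBall_zero_iff]
    exact hw.2.le
  have hΩc : closure Ω ⊆ {w | 0 ≤ w.re ∧ ‖w‖ ≤ R / 8} := by
    refine closure_minimal ?_ ?_
    · intro w hw
      exact ⟨hw.1.le, hw.2.le⟩
    · have i1 : IsClosed {w : ℂ | 0 ≤ w.re} := isClosed_le continuous_const Complex.continuous_re
      have i2 : IsClosed {w : ℂ | ‖w‖ ≤ R / 8} := isClosed_le continuous_norm continuous_const
      exact i1.inter i2
  have hRH : closure Ω ⊆ Muntz.RH := fun w hw => (hΩc hw).1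
  set F : ℂ → ℂ := fun w => g w * Complex.exp (((c * m / R : ℝ) : ℂ) * w) with hF
  have hFn : ∀ w, ‖F w‖ = ‖g w‖ * Real.exp (c * m * (w.re / R)) := by
    intro w
    simp only [hF]
    rw [norm_mul, Complex.norm_exp]
    congr 2
    rw [Complex.re_ofReal_mul]
    ring
  have hFd : DiffContOnCl ℂ F Ω := by
    apply DifferentiableOn.diffContOnCl
    have h1 : DifferentiableOn ℂ g (closure Ω) := hg.differentiableOn.mono hRH
    refine h1.mul ?_
    fun_prop
  have hfr : ∀ w ∈ frontier Ω, ‖F w‖ ≤ 1 := by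
    intro w hw
    have hwc : w ∈ closure Ω := hw.1
    have hwn : w ∉ Ω := by
      have := hw.2
      rwa [hΩo.interior_eq] at this
    obtain ⟨c1, c2⟩ := hΩc hwc
    rw [hFn]
    by_cases d1 : w.re = 0
    · rw [d1]
      simp only [zero_div, mul_zero, Real.exp_zero, mul_one]
      exact hb w c1 (by linarith)
    · have hw0 : 0 < w.re := lt_of_le_of_ne c1 (Ne.symm d1)
      have hw1 : ‖w‖ = R / 8 := by
        by_contra hcon
        exact hwn ⟨hw0, lt_of_le_of_ne c2 hcon⟩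
      calc ‖g w‖ * Real.exp (c * m * (w.re / R))
          ≤ Real.exp (-(c * m * (w.re / R))) * Real.exp (c * m * (w.re / R)) :=
            mul_le_mul_of_nonneg_right (arc w hw0 hw1) (Real.exp_pos _).le
        _ = 1 := by rw [← Real.exp_add]; simp
  by_cases hz2 : ‖z‖ = R / 8
  · exact arc z hz0 hz2
  · have hzΩ : z ∈ Ω := ⟨hz0, lt_of_le_of_ne hz1 hz2⟩
    have h1 := Complex.norm_le_of_forall_mem_frontier_norm_le hΩb hFd hfr (subset_closure hzΩ)
    rw [hFn] at h1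
    rw [Real.exp_neg]
    rw [← one_div, le_div_iff₀ (Real.exp_pos _)]
    exact h1

end MuntzF
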