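import Pool.Agent.Lib.MP_dde81e_full.Defs

/-!
Module A4 (text 1.4, REC and the extension lemma).
`rec_zeros`: G(z) = exp(Az) k(z) ∏(z + conj a) exp(-n z/(15000ρ)) is analytic, at most 1 on
 the boundary of the half disc {Re > 0, |z| < 512ρ}, so inside.
`div_extend`: K z = if z ∈ ball c r then k z else g z / pz s z.
`div_distinct`: distinct zeros can be divided out one after the other (dslope).
-/

namespace MuntzF
open Set Metric

noncomputable def A4_P (s : Multiset ℂ) (z : ℂ) : ℂ := (s.map (fun a => z + (starRingEnd ℂ) a)).prod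

theorem A4_normSq (z a : ℂ) :
    ‖z + (starRingEnd ℂ) a‖ ^ 2 = ‖z - a‖ ^ 2 + 4 * a.re * z.re := by
  rw [← Complex.normSq_eq_norm_sq, ← Complex.normSq_eq_norm_sq, Complex.normSq_apply,
    Complex.normSq_apply]
  simp
  ring

theorem A4_arc {ρ : ℝ} (hρ : 0 < ρ) {z a : ℂ} (hz : 0 ≤ z.re) (hzn : ‖z‖ = 512 * ρ)
    (ha : ‖a‖ ≤ 8 * ρ) (_ha0 : 0 ≤ a.re) :
    ‖z + (starRingEnd ℂ) a‖ ≤ ‖z - a‖ * Real.exp (z.re / (15000 * ρ)) := by
  have h1 : 504 * ρ ≤ ‖z - a‖ := by
    have := norm_sub_norm_le z a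
    rw [hzn] at this
    linarith
  have h2 : a.re ≤ 8 * ρ := (Complex.re_le_norm a).trans ha
  have h3 := A4_normSq z a
  have h4 : 1 + 2 * (z.re / (15000 * ρ)) ≤ Real.exp (z.re / (15000 * ρ)) ^ 2 := by
    rw [← Real.exp_nat_mul]
    push_cast
    have := Real.add_one_le_exp (2 * (z.re / (15000 * ρ)))
    linarith
  have h5 : 4 * a.re * z.re ≤ ‖z - a‖ ^ 2 * (2 * (z.re / (15000 * ρ))) := by
    have h6 : (504 * ρ) ^ 2 ≤ ‖z - a‖ ^ 2 := pow_le_pow_left₀ (by positivity) h1 2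
    have h7 : 0 ≤ 2 * (z.re / (15000 * ρ)) := by positivity
    have h8 : (504 * ρ) ^ 2 * (2 * (z.re / (15000 * ρ))) ≤ ‖z - a‖ ^ 2 * (2 * (z.re / (15000 * ρ))) :=
      mul_le_mul_of_nonneg_right h6 h7
    refine le_trans ?_ h8
    have h9 : (504 * ρ) ^ 2 * (2 * (z.re / (15000 * ρ))) = 508032 / 15000 * ρ * z.re := by
      field_simp
      ring
    rw [h9]
    nlinarith [mul_nonneg hρ.le hz, mul_le_mul_of_nonneg_right h2 hz]
  have h6 : ‖z + (starRingEnd ℂ) a‖ ^ 2 ≤ (‖z - a‖ * Real.exp (z.re / (15000 * ρ))) ^ 2 := by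
    rw [h3, mul_pow]
    nlinarith [sq_nonneg ‖z - a‖]
  exact (pow_le_pow_iff_left₀ (norm_nonneg _) (by positivity) two_ne_zero).1 h6

theorem A4_in {ρ : ℝ} (hρ : 0 < ρ) {z a : ℂ} (hz : 0 ≤ z.re) (hzn : ‖z‖ ≤ ρ)
    (ha : ‖a‖ ≤ 8 * ρ) (ha0 : ρ / 8 ≤ a.re) :
    ‖z - a‖ ≤ ‖z + (starRingEnd ℂ) a‖ * Real.exp (-(z.re / (324 * ρ))) := by
  have h3 := A4_normSq z a
  have h1 : ‖z + (starRingEnd ℂ) a‖ ≤ 9 * ρ := by
    have := norm_add_le z ((starRingEnd ℂ) a)
    rw [RCLike.norm_conj] at this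
    linarith
  set N := ‖z + (starRingEnd ℂ) a‖ with hN
  have hN0 : 0 ≤ N := norm_nonneg _
  have h4 : 1 - 2 * (z.re / (324 * ρ)) ≤ Real.exp (-(z.re / (324 * ρ))) ^ 2 := by
    rw [← Real.exp_nat_mul]
    push_cast
    have := Real.add_one_le_exp (2 * -(z.re / (324 * ρ)))
    linarith
  have h5 : N ^ 2 * (2 * (z.re / (324 * ρ))) ≤ 4 * a.re * z.re := by
    have h6 : N ^ 2 ≤ (9 * ρ) ^ 2 := pow_le_pow_left₀ hN0 h1 2
    have h7 : 0 ≤ 2 * (z.re / (324 * ρ)) := by positivity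
    refine (mul_le_mul_of_nonneg_right h6 h7).trans ?_
    have h9 : (9 * ρ) ^ 2 * (2 * (z.re / (324 * ρ))) = ρ / 2 * z.re := by
      field_simp
      ring
    rw [h9]
    nlinarith
  have h6 : ‖z - a‖ ^ 2 ≤ (N * Real.exp (-(z.re / (324 * ρ)))) ^ 2 := by
    rw [mul_pow]
    nlinarith [sq_nonneg N]
  exact (pow_le_pow_iff_left₀ (norm_nonneg _) (by positivity) two_ne_zero).1 h6

theorem A4_prod_le (s : Multiset ℂ) (u v : ℂ → ℂ) (q : ℝ)
    (h : ∀ a ∈ s, ‖u a‖ ≤ ‖v a‖ * Real.exp q) :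
    ‖(s.map u).prod‖ ≤ ‖(s.map v).prod‖ * Real.exp (s.card * q) := by
  induction s using Multiset.induction_on with
  | empty => simp
  | cons a s ih =>
    have h1 := ih (fun b hb => h b (Multiset.mem_cons_of_mem hb))
    have h2 := h a (Multiset.mem_cons_self a s)
    simp only [Multiset.map_cons, Multiset.prod_cons, Multiset.card_cons, norm_mul]
    push_cast
    rw [add_mul, one_mul, Real.exp_add]
    calc ‖u a‖ * ‖(s.map u).prod‖
        ≤ (‖v a‖ * Real.exp q) * (‖(s.map v).prod‖ * Real.exp (s.card * q)) :=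
          mul_le_mul h2 h1 (norm_nonneg _) (by positivity)
      _ = _ := by ring

theorem A4_an (s : Multiset ℂ) (u : ℂ → ℂ → ℂ) (z : ℂ) (h : ∀ a, AnalyticAt ℂ (u a) z) :
    AnalyticAt ℂ (fun z => (s.map (fun a => u a z)).prod) z := by
  induction s using Multiset.induction_on with
  | empty =>
    simp only [Multiset.map_zero, Multiset.prod_zero]
    exact analyticAt_const
  | cons a s ih =>
    simp only [Multiset.map_cons, Multiset.prod_cons]
    exact (h a).mul ih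

theorem A4_pz_an (s : Multiset ℂ) (z : ℂ) : AnalyticAt ℂ (pz s) z :=
  A4_an s (fun a z => z - a) z (fun a => by fun_prop)

theorem A4_pz_ne {s : Multiset ℂ} {z : ℂ} (h : z ∉ s) : pz s z ≠ 0 := by
  intro h0
  rw [pz, Multiset.prod_eq_zero_iff, Multiset.mem_map] at h0
  obtain ⟨a, ha, ha0⟩ := h0
  rw [sub_eq_zero] at ha0
  exact h (ha0 ▸ ha)

theorem rec_zeros {g k : ℂ → ℂ} {ρ A : ℝ} {s : Multiset ℂ} (hρ : 0 < ρ) (hA : 0 ≤ A)
    (hg : AnalyticOnNhd ℂ g Muntz.RH) (hk : AnalyticOnNhd ℂ k Muntz.RH)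
    (hb : ∀ z ∈ Muntz.RH, ‖g z‖ ≤ 1) (hs : ∀ a ∈ s, ‖a‖ ≤ 8 * ρ ∧ ρ / 8 ≤ a.re)
    (hf : ∀ z ∈ Muntz.RH, g z = pz s z * k z)
    (harc : ∀ z : ℂ, 0 < z.re → ‖z‖ = 512 * ρ → ‖g z‖ ≤ Real.exp (-(A * z.re))) :
    ∀ z : ℂ, 0 < z.re → ‖z‖ ≤ ρ → ‖g z‖ ≤ Real.exp (-((A + s.card / (500 * ρ)) * z.re)) := by
  set n : ℝ := (s.card : ℝ) with hn
  have hn0 : 0 ≤ n := by rw [hn]; positivity
  set G : ℂ → ℂ := fun z => Complex.exp (A * z) * (k z * A4_P s z) *
    Complex.exp (-((n / (15000 * ρ) : ℝ) * z)) with hG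
  have hGn : ∀ z : ℂ, ‖G z‖ = Real.exp (A * z.re) * (‖k z‖ * ‖A4_P s z‖) *
      Real.exp (-(n / (15000 * ρ) * z.re)) := by
    intro z
    simp only [hG]
    rw [norm_mul, norm_mul, norm_mul, Complex.norm_exp, Complex.norm_exp]
    congr 2
    · congr 1
      simp
    · rw [Complex.neg_re, Complex.re_ofReal_mul]
  have hGa : ∀ z ∈ Muntz.RH, AnalyticAt ℂ G z := by
    intro z hz
    have h1 := hk z hz
    have h2 : AnalyticAt ℂ (A4_P s) z := A4_an s (fun a z => z + (starRingEnd ℂ) a) z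
      (fun a => by fun_prop)
    simp only [hG]
    fun_prop
  -- boundary bound
  have hbd : ∀ z : ℂ, 0 ≤ z.re → (z.re = 0 ∨ ‖z‖ = 512 * ρ) → ‖G z‖ ≤ 1 := by
    intro z hz hcase
    have hzR : z ∈ Muntz.RH := hz
    rcases eq_or_lt_of_le hz with h0 | h0
    · rw [hGn, ← h0, mul_zero, mul_zero, neg_zero, Real.exp_zero, one_mul, mul_one]
      have h1 : ‖A4_P s z‖ ≤ ‖pz s z‖ * Real.exp (s.card * 0) := by
        apply A4_prod_le
        intro a _
        rw [Real.exp_zero, mul_one]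
        have h3 := A4_normSq z a
        rw [← h0, mul_zero, add_zero] at h3
        exact le_of_eq ((pow_left_inj₀ (norm_nonneg _) (norm_nonneg _) two_ne_zero).1 h3)
      rw [mul_zero, Real.exp_zero, mul_one] at h1
      calc ‖k z‖ * ‖A4_P s z‖ ≤ ‖k z‖ * ‖pz s z‖ := mul_le_mul_of_nonneg_left h1 (norm_nonneg _)
        _ = ‖g z‖ := by rw [hf z hzR, norm_mul, mul_comm]
        _ ≤ 1 := hb z hzR
    · have hzn : ‖z‖ = 512 * ρ := by
        rcases hcase with h | h
        · exact absurd h h0.ne'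
        · exact h
      have h1 : ‖A4_P s z‖ ≤ ‖pz s z‖ * Real.exp (s.card * (z.re / (15000 * ρ))) := by
        apply A4_prod_le
        intro a ha
        exact A4_arc hρ hz hzn (hs a ha).1 (by have := (hs a ha).2; linarith)
      rw [hGn]
      have e1 : (s.card : ℝ) * (z.re / (15000 * ρ)) = n / (15000 * ρ) * z.re := by
        rw [hn]; ring
      rw [e1] at h1
      set E := Real.exp (n / (15000 * ρ) * z.re) with hE
      have hE0 : 0 < E := Real.exp_pos _
      have e2 : Real.exp (-(n / (15000 * ρ) * z.re)) = E⁻¹ := by rw [Real.exp_neg]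
      rw [e2]
      have h2 : ‖k z‖ * ‖A4_P s z‖ * E⁻¹ ≤ ‖g z‖ := by
        rw [hf z hzR, norm_mul]
        calc ‖k z‖ * ‖A4_P s z‖ * E⁻¹ ≤ ‖k z‖ * (‖pz s z‖ * E) * E⁻¹ := by
              apply mul_le_mul_of_nonneg_right _ (inv_nonneg.2 hE0.le)
              exact mul_le_mul_of_nonneg_left h1 (norm_nonneg _)
          _ = ‖pz s z‖ * ‖k z‖ := by field_simp
      calc Real.exp (A * z.re) * (‖k z‖ * ‖A4_P s z‖) * E⁻¹
          = Real.exp (A * z.re) * (‖k z‖ * ‖A4_P s z‖ * E⁻¹) := by ring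
        _ ≤ Real.exp (A * z.re) * Real.exp (-(A * z.re)) :=
            mul_le_mul_of_nonneg_left (h2.trans (harc z h0 hzn)) (Real.exp_pos _).le
        _ = 1 := by rw [← Real.exp_add, add_neg_cancel, Real.exp_zero]
  -- maximum principle
  set U : Set ℂ := ball (0 : ℂ) (512 * ρ) ∩ {z | 0 < z.re} with hU
  have hUcl : closure U ⊆ closedBall (0 : ℂ) (512 * ρ) ∩ {z | 0 ≤ z.re} := by
    apply closure_minimal
    · rintro z ⟨h1, h2⟩
      refine ⟨ball_subset_closedBall h1, ?_⟩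
      simp only [Set.mem_ofPred_eq] at h2 ⊢
      exact h2.le
    · exact isClosed_closedBall.inter (isClosed_le continuous_const Complex.continuous_re)
  have hUo : IsOpen U := isOpen_ball.inter (isOpen_lt continuous_const Complex.continuous_re)
  have hUfr : ∀ z ∈ frontier U, ‖G z‖ ≤ 1 := by
    intro z hz
    rw [frontier, hUo.interior_eq] at hz
    obtain ⟨h1, h2⟩ := hUcl hz.1
    refine hbd z h2 ?_
    by_contra hcon
    rw [not_or] at hcon
    apply hz.2
    refine ⟨?_, lt_of_le_of_ne h2 (Ne.symm hcon.1)⟩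
    rw [mem_closedBall, dist_zero_right] at h1
    rw [mem_ball, dist_zero_right]
    exact lt_of_le_of_ne h1 hcon.2
  have hin : ∀ z ∈ closure U, ‖G z‖ ≤ 1 := by
    intro z hz
    refine Complex.norm_le_of_forall_mem_frontier_norm_le
      (isBounded_ball.subset inter_subset_left) ?_ hUfr hz
    refine DifferentiableOn.diffContOnCl (fun w hw => ?_)
    exact (hGa w (hUcl hw).2).differentiableAt.differentiableWithinAt
  intro z hz hzn
  have hzR : z ∈ Muntz.RH := hz.le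
  have hGz : ‖G z‖ ≤ 1 := hin z (subset_closure ⟨by
    rw [mem_ball, dist_zero_right]; linarith, hz⟩)
  rw [hGn] at hGz
  have h1 : ‖pz s z‖ ≤ ‖A4_P s z‖ * Real.exp (s.card * (-(z.re / (324 * ρ)))) := by
    apply A4_prod_le
    intro a ha
    exact A4_in hρ hz.le hzn (hs a ha).1 (hs a ha).2
  rw [hf z hzR, norm_mul]
  set E1 := Real.exp (A * z.re) with hE1
  set E2 := Real.exp (-(n / (15000 * ρ) * z.re)) with hE2
  have hE10 : 0 < E1 := Real.exp_pos _
  have hE20 : 0 < E2 := Real.exp_pos _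
  have h2 : ‖k z‖ * ‖A4_P s z‖ ≤ E1⁻¹ * E2⁻¹ := by
    rw [← mul_inv, ← one_div, le_div_iff₀ (by positivity)]
    calc ‖k z‖ * ‖A4_P s z‖ * (E1 * E2) = E1 * (‖k z‖ * ‖A4_P s z‖) * E2 := by ring
      _ ≤ 1 := hGz
  calc ‖pz s z‖ * ‖k z‖
      ≤ (‖A4_P s z‖ * Real.exp (s.card * (-(z.re / (324 * ρ))))) * ‖k z‖ :=
        mul_le_mul_of_nonneg_right h1 (norm_nonneg _)
    _ = (‖k z‖ * ‖A4_P s z‖) * Real.exp (s.card * (-(z.re / (324 * ρ)))) := by ring
    _ ≤ (E1⁻¹ * E2⁻¹) * Real.exp (s.card * (-(z.re / (324 * ρ)))) :=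
        mul_le_mul_of_nonneg_right h2 (Real.exp_pos _).le
    _ = Real.exp (-(A * z.re) + n / (15000 * ρ) * z.re + n * (-(z.re / (324 * ρ)))) := by
        rw [hE1, hE2, ← Real.exp_neg, ← Real.exp_neg, neg_neg, ← Real.exp_add, ← Real.exp_add]
    _ ≤ Real.exp (-((A + n / (500 * ρ)) * z.re)) := by
        apply Real.exp_le_exp.2
        have h3 : n / (15000 * ρ) * z.re = n * z.re / ρ * (1 / 15000) := by field_simp
        have h4 : n * (-(z.re / (324 * ρ))) = -(n * z.re / ρ * (1 / 324)) := by field_simp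
        have h5 : (A + n / (500 * ρ)) * z.re = A * z.re + n * z.re / ρ * (1 / 500) := by
          field_simp
        rw [h3, h4, h5]
        have h6 : 0 ≤ n * z.re / ρ := by positivity
        linarith

theorem div_extend {g k : ℂ → ℂ} {c : ℂ} {r : ℝ} {s : Multiset ℂ}
    (hg : AnalyticOnNhd ℂ g Muntz.RH) (hk : AnalyticOnNhd ℂ k (closedBall c r))
    (hs : ∀ a ∈ s, a ∈ ball c r) (hf : ∀ z ∈ closedBall c r, g z = pz s z * k z) :
    ∃ K : ℂ → ℂ, AnalyticOnNhd ℂ K Muntz.RH ∧ ∀ z ∈ Muntz.RH, g z = pz s z * K z := by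
  classical
  refine ⟨fun z => if z ∈ ball c r then k z else g z / pz s z, ?_, ?_⟩
  · intro z hz
    by_cases hzb : z ∈ ball c r
    · refine (hk z (ball_subset_closedBall hzb)).congr ?_
      filter_upwards [isOpen_ball.mem_nhds hzb] with w hw
      rw [if_pos hw]
    · have hne : pz s z ≠ 0 := A4_pz_ne (fun h => hzb (hs z h))
      refine ((hg z hz).div (A4_pz_an s z) hne).congr ?_
      have hev : ∀ᶠ w in nhds z, pz s w ≠ 0 := (A4_pz_an s z).continuousAt.eventually_ne hne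
      filter_upwards [hev] with w hw
      simp only [Pi.div_apply]
      by_cases hwb : w ∈ ball c r
      · rw [if_pos hwb, hf w (ball_subset_closedBall hwb), mul_div_assoc, mul_div_cancel₀]
        exact hw
      · rw [if_neg hwb]
  · intro z _
    by_cases hzb : z ∈ ball c r
    · simp only [if_pos hzb]
      exact hf z (ball_subset_closedBall hzb)
    · simp only [if_neg hzb]
      have hne : pz s z ≠ 0 := A4_pz_ne (fun h => hzb (hs z h))
      field_simp

theorem div_distinct {g : ℂ → ℂ} {U : Set ℂ} (hg : AnalyticOnNhd ℂ g U) (X : Finset ℂ)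
    (hX : ∀ a ∈ X, a ∈ U ∧ g a = 0) :
    ∃ K : ℂ → ℂ, AnalyticOnNhd ℂ K U ∧ ∀ z ∈ U, g z = pz X.val z * K z := by
  classical
  induction X using Finset.induction_on with
  | empty => exact ⟨g, hg, fun z _ => by simp [pz]⟩
  | insert a X haX ih =>
    obtain ⟨K, hK, hgK⟩ := ih (fun b hb => hX b (Finset.mem_insert_of_mem hb))
    obtain ⟨haU, hga⟩ := hX a (Finset.mem_insert_self a X)
    have hKa : K a = 0 := by
      have h1 := hgK a haU
      rw [hga] at h1
      rcases mul_eq_zero.1 h1.symm with h | h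
      · exact absurd h (A4_pz_ne (by simpa using haX))
      · exact h
    refine ⟨dslope K a, ?_, ?_⟩
    · intro z hz
      by_cases hza : z = a
      · subst hza
        obtain ⟨p, hp⟩ := hK z hz
        exact ⟨p.fslope, hp.has_fpower_series_dslope_fslope⟩
      · have h1 : AnalyticAt ℂ (slope K a) z := by
          have h2 : AnalyticAt ℂ (fun w => (w - a)⁻¹ • (K w - K a)) z := by
            have h3 := hK z hz
            have h4 : AnalyticAt ℂ (fun w : ℂ => (w - a)⁻¹) z :=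
              AnalyticAt.inv (by fun_prop) (sub_ne_zero.2 hza)
            exact h4.smul (h3.sub analyticAt_const)
          exact h2
        exact h1.congr (dslope_eventuallyEq_slope_of_ne K hza).symm
    · intro z hz
      have h1 := sub_smul_dslope K a z
      rw [hKa, sub_zero, smul_eq_mul] at h1
      rw [hgK z hz, ← h1, Finset.insert_val_of_notMem haX]
      simp only [pz, Multiset.map_cons, Multiset.prod_cons]
      ring

end MuntzF
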