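import Pool.Agent.Lib.MP_dde81e_full.Defs
import Pool.Agent.Lib.MP_dde81e_an.SEG

/-!
Module A5 (text 1.5(a), FACT).  `Muntz.blaschke_decomp` with θ = (1+t)/2 and the Harnack chain
`Muntz.SEG_chain`.
-/

namespace MuntzF
open Set Metric

theorem A5_exp_le_of_nl {x : ℂ} {A : ℝ} (hx : x ≠ 0) (hA : 0 ≤ A)
    (h : Muntz.nl x ≤ ENNReal.ofReal A) : Real.exp (-A) ≤ ‖x‖ := by
  rw [Muntz.SEG_nl_of_ne hx] at h
  have h1 : -Real.log ‖x‖ ≤ A := (ENNReal.ofReal_le_ofReal_iff hA).1 h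
  have h2 : -A ≤ Real.log ‖x‖ := by linarith
  calc Real.exp (-A) ≤ Real.exp (Real.log ‖x‖) := Real.exp_le_exp.2 h2
    _ = ‖x‖ := Real.exp_log (norm_pos_iff.2 hx)

theorem fact (t : ℝ) (ht : 0 < t) (ht1 : t < 1) : ∃ C : ℝ, 0 < C ∧ ∀ (f : ℂ → ℂ) (M0 : ℝ),
    DF f 0 1 → (∃ z0 : ℂ, ‖z0‖ ≤ t ∧ Real.exp (-M0) ≤ ‖f z0‖) →
    ∃ (s : Multiset ℂ) (g : ℂ → ℂ), (∀ a ∈ s, ‖a‖ ≤ (1 + t) / 2) ∧ (s.card : ℝ) ≤ C * M0 ∧
      DF g 0 1 ∧ (∀ z : ℂ, ‖z‖ ≤ (1 + t) / 2 → g z ≠ 0) ∧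
      (∀ z : ℂ, ‖z‖ ≤ t → Real.exp (-(C * M0)) ≤ ‖g z‖) ∧
      ∀ z ∈ closedBall (0 : ℂ) 1, f z = bp s z * g z := by
  obtain ⟨C, hC, hch⟩ := Muntz.SEG_chain ht ht1
  set κ := (1 - ((1 + t) / 2) ^ 2) * (1 - t ^ 2) / 8 with hκ
  have hκ0 : 0 < κ := by
    have h1 : 0 < 1 - ((1 + t) / 2) ^ 2 := by nlinarith
    have h2 : 0 < 1 - t ^ 2 := by nlinarith
    positivity
  refine ⟨C + κ⁻¹, by positivity, ?_⟩
  rintro f M0 ⟨hf, hb⟩ ⟨z0, hz0, hM⟩
  have hz01 : z0 ∈ closedBall (0 : ℂ) 1 := by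
    rw [mem_closedBall, dist_zero_right]; linarith
  have hf0 : f z0 ≠ 0 := by
    intro h0
    rw [h0, norm_zero] at hM
    exact absurd hM (not_le.2 (Real.exp_pos _))
  have hM0 : 0 ≤ M0 := by
    have h1 : Real.exp (-M0) ≤ 1 := hM.trans (hb z0 hz01)
    have h2 := Real.exp_le_one_iff.1 h1
    linarith
  have hnl : Muntz.nl (f z0) ≤ ENNReal.ofReal M0 := by
    rw [Muntz.SEG_nl_of_ne hf0]
    apply ENNReal.ofReal_le_ofReal
    have h1 := Real.log_le_log (Real.exp_pos _) hM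
    rw [Real.log_exp] at h1
    linarith
  obtain ⟨s, g, hs, hg, hgb, hg0, hfac⟩ := Muntz.blaschke_decomp (θ := (1 + t) / 2) (by linarith)
    (by linarith) hf hb ⟨z0, hz01, hf0⟩
  have hs1 : ∀ a ∈ s, ‖a‖ < 1 := fun a ha => lt_of_le_of_lt (hs a ha) (by linarith)
  have hdec : Muntz.nl (f z0) =
      (s.map (fun a => Muntz.nl (Muntz.SEG_B a z0))).sum + Muntz.nl (g z0) := by
    have hz' : ‖z0‖ ≤ 1 := by simpa using hz01
    have h1 := Muntz.SEG_nl_prod s (fun a => Muntz.SEG_B a z0)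
      (fun a ha => Muntz.SEG_B_le (hs1 a ha) hz')
    have h2 : f z0 = (s.map (fun a => Muntz.SEG_B a z0)).prod * g z0 := hfac z0 hz01
    rw [h2, Muntz.nl_mul h1.1 (hgb z0 hz01), h1.2]
  refine ⟨s, g, hs, ?_, ⟨hg, hgb⟩, ?_, ?_, hfac⟩
  · have h1 : (s.card : ENNReal) * ENNReal.ofReal κ ≤ ENNReal.ofReal M0 := by
      refine le_trans (le_trans (Muntz.SEG_le_sum s (fun a => Muntz.nl (Muntz.SEG_B a z0)) _ ?_)
        le_self_add) (hdec ▸ hnl)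
      intro a ha
      exact Muntz.SEG_B_upper ht.le ht1 (by linarith) (by linarith) (hs a ha) hz0
    have h2 : (s.card : ENNReal) * ENNReal.ofReal κ = ENNReal.ofReal (s.card * κ) := by
      rw [ENNReal.ofReal_mul (by positivity), ENNReal.ofReal_natCast]
    rw [h2] at h1
    have h3 := (ENNReal.ofReal_le_ofReal_iff hM0).1 h1
    have h4 : (s.card : ℝ) ≤ M0 * κ⁻¹ := by
      rw [← div_eq_mul_inv, le_div_iff₀ hκ0]; exact h3
    nlinarith [mul_nonneg hC.le hM0]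
  · intro z hz
    exact hg0 z (by rw [mem_closedBall, dist_zero_right]; exact hz)
  · intro z hz
    have hzz : z ∈ closedBall (0 : ℂ) t := by rw [mem_closedBall, dist_zero_right]; exact hz
    have hzz0 : z0 ∈ closedBall (0 : ℂ) t := by rw [mem_closedBall, dist_zero_right]; exact hz0
    have h1 := hch g hg hgb hg0 z hzz z0 hzz0
    have h2 : Muntz.nl (g z0) ≤ ENNReal.ofReal M0 := by
      refine le_trans ?_ hnl
      rw [hdec]
      exact le_add_self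
    have h3 : Muntz.nl (g z) ≤ ENNReal.ofReal (C * M0) := by
      rw [ENNReal.ofReal_mul hC.le]
      exact h1.trans (mul_le_mul_right h2 _)
    have h4 : g z ≠ 0 := hg0 z (by rw [mem_closedBall, dist_zero_right]; linarith)
    refine A5_exp_le_of_nl h4 (by positivity) (h3.trans (ENNReal.ofReal_le_ofReal ?_))
    have : 0 ≤ κ⁻¹ * M0 := by positivity
    nlinarith

end MuntzF
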