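import Pool.Agent.Lib.MP_dde81e_full.A5

/-!
Module A6 (text 1.5(b),(c): EXPINT and SLICE, scaled to the disc D(c,r), c real).
-/

namespace MuntzF
open Set Metric MeasureTheory

theorem A6_rpow_neg {x : ℝ} (hx : x < 0) : x ^ (-(1 / 2) : ℝ) = 0 := by
  rw [Real.rpow_def_of_neg hx]
  have : Real.cos (-(1 / 2) * Real.pi) = 0 := by
    rw [show -(1 / 2) * Real.pi = -(Real.pi / 2) by ring, Real.cos_neg, Real.cos_pi_div_two]
  rw [this, mul_zero]

theorem A6_abs_le (p y : ℝ) :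
    |y - p| ^ (-(1 / 2) : ℝ) ≤ (y - p) ^ (-(1 / 2) : ℝ) + (p - y) ^ (-(1 / 2) : ℝ) := by
  rcases lt_trichotomy y p with h | h | h
  · rw [A6_rpow_neg (sub_neg.2 h), abs_of_neg (sub_neg.2 h), neg_sub, zero_add]
  · subst h
    rw [sub_self, abs_zero, Real.zero_rpow (by norm_num)]
    norm_num
  · rw [A6_rpow_neg (sub_neg.2 h), abs_of_pos (sub_pos.2 h), add_zero]

theorem A6_ii (p : ℝ) : IntervalIntegrable
    (fun y : ℝ => (y - p) ^ (-(1 / 2) : ℝ) + (p - y) ^ (-(1 / 2) : ℝ)) volume (-2) 2 := by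
  have h0 : ∀ a b : ℝ, IntervalIntegrable (fun x : ℝ => x ^ (-(1 / 2) : ℝ)) volume a b :=
    fun a b => intervalIntegral.intervalIntegrable_rpow' (by norm_num)
  have h1 := (h0 (-2 - p) (2 - p)).comp_sub_right p
  have h2 := (h0 (p - -2) (p - 2)).comp_sub_left p
  simp only [sub_add_cancel, sub_sub_cancel] at h1 h2
  exact h1.add h2

theorem A6_int (p : ℝ) (hp : |p| ≤ 1) :
    ∫⁻ y in Icc (-2 : ℝ) 2, ENNReal.ofReal ((|y - p| / 4) ^ (-(1 / 2) : ℝ)) ≤ ENNReal.ofReal 16 := by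
  have hp' := abs_le.1 hp
  have hval : ∫ y in (-2 : ℝ)..2, ((y - p) ^ (-(1 / 2) : ℝ) + (p - y) ^ (-(1 / 2) : ℝ)) ≤ 8 := by
    have h0 : ∀ a b : ℝ, IntervalIntegrable (fun x : ℝ => x ^ (-(1 / 2) : ℝ)) volume a b :=
      fun a b => intervalIntegral.intervalIntegrable_rpow' (by norm_num)
    have h1 := (h0 (-2 - p) (2 - p)).comp_sub_right p
    have h2 := (h0 (p - -2) (p - 2)).comp_sub_left p
    simp only [sub_add_cancel, sub_sub_cancel] at h1 h2
    rw [intervalIntegral.integral_add h1 h2,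
      intervalIntegral.integral_comp_sub_right (fun x : ℝ => x ^ (-(1 / 2) : ℝ)) p,
      intervalIntegral.integral_comp_sub_left (fun x : ℝ => x ^ (-(1 / 2) : ℝ)) p,
      integral_rpow (Or.inl (by norm_num)), integral_rpow (Or.inl (by norm_num))]
    have e : (-(1 / 2) : ℝ) + 1 = 1 / 2 := by norm_num
    rw [e, ← Real.sqrt_eq_rpow, ← Real.sqrt_eq_rpow, ← Real.sqrt_eq_rpow, ← Real.sqrt_eq_rpow,
      Real.sqrt_eq_zero_of_nonpos (by linarith : -2 - p ≤ 0),
      Real.sqrt_eq_zero_of_nonpos (by linarith : p - 2 ≤ 0)]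
    have a1 : Real.sqrt (2 - p) ≤ 2 := by
      rw [Real.sqrt_le_left (by norm_num)]; linarith
    have a2 : Real.sqrt (p - -2) ≤ 2 := by
      rw [Real.sqrt_le_left (by norm_num)]; linarith
    linarith
  have hnn : ∀ y : ℝ, 0 ≤ (y - p) ^ (-(1 / 2) : ℝ) + (p - y) ^ (-(1 / 2) : ℝ) := fun y =>
    le_trans (Real.rpow_nonneg (abs_nonneg _) _) (A6_abs_le p y)
  have hpt : ∀ y : ℝ, ENNReal.ofReal ((|y - p| / 4) ^ (-(1 / 2) : ℝ)) ≤
      ENNReal.ofReal (2 * ((y - p) ^ (-(1 / 2) : ℝ) + (p - y) ^ (-(1 / 2) : ℝ))) := by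
    intro y
    apply ENNReal.ofReal_le_ofReal
    rw [Real.div_rpow (abs_nonneg _) (by norm_num)]
    have : (4 : ℝ) ^ (-(1 / 2) : ℝ) = 1 / 2 := by
      rw [Real.rpow_neg (by norm_num), ← Real.sqrt_eq_rpow,
        show (4 : ℝ) = 2 ^ 2 by norm_num, Real.sqrt_sq (by norm_num)]
      norm_num
    rw [this]
    have := A6_abs_le p y
    linarith
  calc ∫⁻ y in Icc (-2 : ℝ) 2, ENNReal.ofReal ((|y - p| / 4) ^ (-(1 / 2) : ℝ))
      ≤ ∫⁻ y in Icc (-2 : ℝ) 2,
          ENNReal.ofReal (2 * ((y - p) ^ (-(1 / 2) : ℝ) + (p - y) ^ (-(1 / 2) : ℝ))) :=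
        lintegral_mono hpt
    _ = ∫⁻ y in Ioc (-2 : ℝ) 2,
          ENNReal.ofReal (2 * ((y - p) ^ (-(1 / 2) : ℝ) + (p - y) ^ (-(1 / 2) : ℝ))) := by
        rw [restrict_Ioc_eq_restrict_Icc]
    _ = ENNReal.ofReal (∫ y in Ioc (-2 : ℝ) 2,
          (2 * ((y - p) ^ (-(1 / 2) : ℝ) + (p - y) ^ (-(1 / 2) : ℝ)))) := by
        rw [ofReal_integral_eq_lintegral_ofReal]
        · have := (A6_ii p).const_mul 2
          rw [intervalIntegrable_iff_integrableOn_Ioc_of_le (by norm_num)] at this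
          exact this
        · exact Filter.Eventually.of_forall fun y => mul_nonneg (by norm_num) (hnn y)
    _ ≤ ENNReal.ofReal 16 := by
        apply ENNReal.ofReal_le_ofReal
        rw [← intervalIntegral.integral_of_le (by norm_num), intervalIntegral.integral_const_mul]
        linarith


theorem A6_sum_eq (s : Multiset ℝ) (v : ℝ → ℝ) (A : ℝ) (hv : ∀ p ∈ s, 0 < v p) :
    0 < (s.map v).prod ∧
    (s.map (fun p => Real.exp A * (1 + (-(1 / 2) * Real.log (v p) - A)))).sum =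
      Real.exp A * (s.card * (1 - A) - 1 / 2 * Real.log (s.map v).prod) := by
  induction s using Multiset.induction_on with
  | empty => simp
  | cons a s ih =>
    obtain ⟨h1, h2⟩ := ih (fun p hp => hv p (Multiset.mem_cons_of_mem hp))
    have ha := hv a (Multiset.mem_cons_self a s)
    simp only [Multiset.map_cons, Multiset.prod_cons, Multiset.sum_cons, Multiset.card_cons]
    refine ⟨mul_pos ha h1, ?_⟩
    rw [h2, Real.log_mul ha.ne' h1.ne']
    push_cast
    ring

theorem A6_amgm (s : Multiset ℝ) (v : ℝ → ℝ) (B : ℝ) (hv : ∀ p ∈ s, 0 < v p) (hs : s ≠ 0)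
    (hB : (s.map v).prod ≤ Real.exp (-B)) :
    (s.card : ℝ) * Real.exp (B / (2 * s.card)) ≤
      (s.map (fun p => (v p) ^ (-(1 / 2) : ℝ))).sum := by
  have hn : (0 : ℝ) < s.card := by
    have := Multiset.card_pos.2 hs
    exact_mod_cast this
  set A := B / (2 * s.card) with hA
  obtain ⟨h1, h2⟩ := A6_sum_eq s v A hv
  have h3 : (s.map (fun p => Real.exp A * (1 + (-(1 / 2) * Real.log (v p) - A)))).sum ≤
      (s.map (fun p => (v p) ^ (-(1 / 2) : ℝ))).sum := by
    apply Multiset.sum_map_le_sum_map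
    intro p hp
    have e : (v p) ^ (-(1 / 2) : ℝ) = Real.exp A * Real.exp (-(1 / 2) * Real.log (v p) - A) := by
      rw [← Real.exp_add, Real.rpow_def_of_pos (hv p hp)]
      congr 1
      ring
    rw [e]
    apply mul_le_mul_of_nonneg_left _ (Real.exp_pos _).le
    have := Real.add_one_le_exp (-(1 / 2) * Real.log (v p) - A)
    linarith
  refine le_trans ?_ h3
  rw [h2]
  have h4 : Real.log (s.map v).prod ≤ -B := by
    have := Real.log_le_log h1 hB
    rwa [Real.log_exp] at this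
  have h5 : (s.card : ℝ) * A = B / 2 := by
    rw [hA]; field_simp
  have h6 : (s.card : ℝ) ≤ s.card * (1 - A) - 1 / 2 * Real.log (s.map v).prod := by
    nlinarith
  nlinarith [Real.exp_pos A]

theorem A6_cartan (s : Multiset ℝ) (hs : ∀ p ∈ s, |p| ≤ 1) (B N : ℝ) (hB : 0 ≤ B)
    (hN : (s.card : ℝ) ≤ N) (h0 : s ≠ 0) :
    volume {y : ℝ | |y| ≤ 2 ∧ (s.map (fun p => |y - p| / 4)).prod ≤ Real.exp (-B)} ≤
      ENNReal.ofReal (16 * Real.exp (-(B / (2 * N)))) := by
  have hn : (0 : ℝ) < s.card := by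
    have := Multiset.card_pos.2 h0
    exact_mod_cast this
  set φ : ℝ → ENNReal := fun y =>
    (s.map (fun p => ENNReal.ofReal ((|y - p| / 4) ^ (-(1 / 2) : ℝ)))).sum with hφ
  have hmeas : ∀ p : ℝ, Measurable (fun y : ℝ => ENNReal.ofReal ((|y - p| / 4) ^ (-(1 / 2) : ℝ))) := by
    intro p
    fun_prop
  have hmφ : Measurable φ := by
    rw [hφ]
    clear hφ φ hn hN hs h0
    induction s using Multiset.induction_on with
    | empty => simp
    | cons a s ih =>
      simp only [Multiset.map_cons, Multiset.sum_cons]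
      exact (hmeas a).add ih
  have hint : ∫⁻ y in Icc (-2 : ℝ) 2, φ y ≤ s.card * ENNReal.ofReal 16 := by
    have h1 : ∀ t : Multiset ℝ, (∀ p ∈ t, |p| ≤ 1) → ∫⁻ y in Icc (-2 : ℝ) 2,
        (t.map (fun p => ENNReal.ofReal ((|y - p| / 4) ^ (-(1 / 2) : ℝ)))).sum ≤
        t.card * ENNReal.ofReal 16 := by
      intro t
      induction t using Multiset.induction_on with
      | empty => simp
      | cons a t ih =>
        intro ht
        simp only [Multiset.map_cons, Multiset.sum_cons, Multiset.card_cons]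
        rw [lintegral_add_left (hmeas a)]
        push_cast
        rw [add_mul, one_mul, add_comm]
        exact add_le_add (ih fun p hp => ht p (Multiset.mem_cons_of_mem hp))
          (A6_int a (ht a (Multiset.mem_cons_self a t)))
    exact h1 s hs
  set E := Real.exp (B / (2 * s.card)) with hE
  have hsub : {y : ℝ | |y| ≤ 2 ∧ (s.map (fun p => |y - p| / 4)).prod ≤ Real.exp (-B)} ⊆
      ({y | ENNReal.ofReal (s.card * E) ≤ φ y} ∩ Icc (-2 : ℝ) 2) ∪ (s.toFinset : Set ℝ) := by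
    rintro y ⟨hy, hy2⟩
    by_cases hys : y ∈ s
    · right; simpa using hys
    · left
      refine ⟨?_, abs_le.1 hy⟩
      have hv : ∀ p ∈ s, 0 < |y - p| / 4 := by
        intro p hp
        have : y - p ≠ 0 := fun h => hys (by rw [sub_eq_zero] at h; rwa [h])
        positivity
      have h1 := A6_amgm s (fun p => |y - p| / 4) B hv h0 hy2
      have h2 : φ y = ENNReal.ofReal ((s.map (fun p => (|y - p| / 4) ^ (-(1 / 2) : ℝ))).sum) := by
        have : ∀ t : Multiset ℝ,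
            (t.map (fun p => ENNReal.ofReal ((|y - p| / 4) ^ (-(1 / 2) : ℝ)))).sum =
            ENNReal.ofReal ((t.map (fun p => (|y - p| / 4) ^ (-(1 / 2) : ℝ))).sum) ∧
            0 ≤ (t.map (fun p => (|y - p| / 4) ^ (-(1 / 2) : ℝ))).sum := by
          intro t
          induction t using Multiset.induction_on with
          | empty => simp
          | cons a t ih =>
            have ha : 0 ≤ (|y - a| / 4) ^ (-(1 / 2) : ℝ) := Real.rpow_nonneg (by positivity) _
            simp only [Multiset.map_cons, Multiset.sum_cons]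
            exact ⟨by rw [ENNReal.ofReal_add ha ih.2, ih.1], add_nonneg ha ih.2⟩
        exact (this s).1
      show ENNReal.ofReal (s.card * E) ≤ φ y
      rw [h2]
      exact ENNReal.ofReal_le_ofReal h1
  have hE0 : 0 < E := Real.exp_pos _
  have hmk : ENNReal.ofReal (s.card * E) *
      volume ({y | ENNReal.ofReal (s.card * E) ≤ φ y} ∩ Icc (-2 : ℝ) 2) ≤
      s.card * ENNReal.ofReal 16 := by
    have h1 := mul_meas_ge_le_lintegral (μ := volume.restrict (Icc (-2 : ℝ) 2)) hmφ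
      (ENNReal.ofReal (s.card * E))
    rw [Measure.restrict_apply (measurableSet_le measurable_const hmφ)] at h1
    exact h1.trans hint
  have hfin : volume (s.toFinset : Set ℝ) = 0 := (Finset.finite_toSet _).measure_zero _
  refine (measure_mono hsub).trans ((measure_union_le _ _).trans ?_)
  rw [hfin, add_zero]
  have hpos : 0 < (s.card : ℝ) * E := mul_pos hn hE0
  have h3 : volume ({y | ENNReal.ofReal (s.card * E) ≤ φ y} ∩ Icc (-2 : ℝ) 2) ≤
      s.card * ENNReal.ofReal 16 / ENNReal.ofReal (s.card * E) := by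
    rw [ENNReal.le_div_iff_mul_le (Or.inl (ENNReal.ofReal_pos.2 hpos).ne') (Or.inl ENNReal.ofReal_ne_top),
      mul_comm]
    exact hmk
  refine h3.trans ?_
  have h4 : (s.card : ENNReal) * ENNReal.ofReal 16 / ENNReal.ofReal (s.card * E) =
      ENNReal.ofReal (16 * Real.exp (-(B / (2 * s.card)))) := by
    rw [← ENNReal.ofReal_natCast, ← ENNReal.ofReal_mul (by positivity),
      ← ENNReal.ofReal_div_of_pos hpos]
    congr 1
    rw [Real.exp_neg, ← hE]
    field_simp
  rw [h4]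
  apply ENNReal.ofReal_le_ofReal
  have h5 : B / (2 * N) ≤ B / (2 * s.card) :=
    div_le_div_of_nonneg_left hB (by positivity) (by linarith)
  have := Real.exp_le_exp.2 (neg_le_neg h5)
  linarith


theorem A6_scale {f : ℂ → ℂ} {c : ℂ} {r : ℝ} (hr : 0 < r) (h : DF f c r) :
    DF (fun z => f (c + r * z)) 0 1 := by
  have hm : ∀ z ∈ closedBall (0 : ℂ) 1, c + r * z ∈ closedBall c r := by
    intro z hz
    rw [mem_closedBall, dist_zero_right] at hz
    rw [mem_closedBall, dist_eq_norm, add_sub_cancel_left, norm_mul, Complex.norm_real,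
      Real.norm_eq_abs, abs_of_pos hr]
    nlinarith
  refine ⟨fun z hz => ?_, fun z hz => h.bd _ (hm z hz)⟩
  exact AnalyticAt.fun_comp (f := fun z : ℂ => c + r * z) (h.an _ (hm z hz)) (by fun_prop)

theorem A6_bp_lower (s : Multiset ℂ) (hs : ∀ a ∈ s, ‖a‖ < 1) {z : ℂ} (hz : ‖z‖ ≤ 1) :
    (s.map (fun a => ‖z - a‖ / 2)).prod ≤ ‖bp s z‖ := by
  induction s using Multiset.induction_on with
  | empty => simp [bp]
  | cons a s ih =>
    have h1 := ih (fun b hb => hs b (Multiset.mem_cons_of_mem hb))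
    have h2 := Muntz.SEG_B_lower (hs a (Multiset.mem_cons_self a s)) hz
    simp only [bp, Multiset.map_cons, Multiset.prod_cons, norm_mul] at h1 ⊢
    exact mul_le_mul h2 h1 (Multiset.prod_nonneg (by
      intro x hx
      obtain ⟨b, _, rfl⟩ := Multiset.mem_map.1 hx
      positivity)) (norm_nonneg _)

theorem A6_prod_le (s : Multiset ℂ) (x : ℂ) (y : ℝ)
    (h : ∀ a ∈ s, |y - a.re| ≤ 2 * ‖x - a‖) :
    ((s.map Complex.re).map (fun p => |y - p| / 4)).prod ≤ (s.map (fun a => ‖x - a‖ / 2)).prod := by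
  rw [Multiset.map_map]
  apply Multiset.prod_map_le_prod_map₀
  · intro a _
    simp only [Function.comp]
    positivity
  · intro a ha
    have := h a ha
    simp only [Function.comp]
    linarith

theorem A6_key {F g : ℂ → ℂ} {s : Multiset ℂ} {x : ℂ} {y A M1 : ℝ} (hs : ∀ a ∈ s, ‖a‖ < 1)
    (hx : ‖x‖ ≤ 1) (hfac : F x = bp s x * g x) (hg : Real.exp (-A) ≤ ‖g x‖)
    (hF : ‖F x‖ ≤ Real.exp (-M1)) (hA : 2 * A ≤ M1)
    (h : ∀ a ∈ s, |y - a.re| ≤ 2 * ‖x - a‖) :
    ((s.map Complex.re).map (fun p => |y - p| / 4)).prod ≤ Real.exp (-(M1 / 2)) := by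
  refine (A6_prod_le s x y h).trans ((A6_bp_lower s hs hx).trans ?_)
  rw [hfac, norm_mul] at hF
  have h1 : ‖bp s x‖ * Real.exp (-A) ≤ Real.exp (-M1) :=
    (mul_le_mul_of_nonneg_left hg (norm_nonneg _)).trans hF
  have h2 : ‖bp s x‖ ≤ Real.exp (-M1) / Real.exp (-A) := by
    rw [le_div_iff₀ (Real.exp_pos _)]; exact h1
  rw [← Real.exp_sub] at h2
  exact h2.trans (Real.exp_le_exp.2 (by linarith))

theorem A6_sep (Y : Finset ℝ) {σ V : ℝ} (_hσ : 0 < σ) (hV : 0 ≤ V)
    (hsep : ∀ x ∈ Y, ∀ y ∈ Y, x ≠ y → σ ≤ |x - y|) {S : Set ℝ}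
    (hS : ∀ x ∈ Y, ∀ y, |y - x| < σ / 2 → y ∈ S) (hvol : volume S ≤ ENNReal.ofReal V) :
    (Y.card : ℝ) * σ ≤ V := by
  have h1 : volume (⋃ x ∈ Y, ball x (σ / 2)) = ∑ x ∈ Y, volume (ball x (σ / 2)) := by
    apply measure_biUnion_finset
    · intro x hx y hy hxy
      rw [Function.onFun, Set.disjoint_left]
      intro z hz1 hz2
      rw [mem_ball, Real.dist_eq] at hz1 hz2
      have h2 := hsep x hx y hy hxy
      have h3 : |x - y| ≤ |z - x| + |z - y| := by
        rw [abs_sub_comm z x]; exact abs_sub_le x z y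
      linarith
    · intro x _
      exact measurableSet_ball
  have h2 : volume (⋃ x ∈ Y, ball x (σ / 2)) ≤ volume S := by
    apply measure_mono
    intro z hz
    simp only [mem_iUnion, mem_ball, Real.dist_eq] at hz
    obtain ⟨x, hx, hzx⟩ := hz
    exact hS x hx z hzx
  have h3 : ∑ x ∈ Y, volume (ball x (σ / 2)) = ENNReal.ofReal (Y.card * σ) := by
    simp only [Real.volume_ball]
    rw [Finset.sum_const, nsmul_eq_mul, show 2 * (σ / 2) = σ by ring,
      ENNReal.ofReal_mul (by positivity : (0 : ℝ) ≤ (Y.card : ℝ)), ENNReal.ofReal_natCast]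
  rw [h1, h3] at h2
  exact (ENNReal.ofReal_le_ofReal_iff hV).1 (h2.trans hvol)

theorem A6_small {C M0 M1 : ℝ} (hC : 0 < C) (hM0 : 1 ≤ M0) (h : M1 < 2 * C * M0) :
    4 ≤ 16 * Real.exp (-(1 / (4 * C) * M1 / M0)) := by
  have h0 : 1 / (4 * C) * M1 / M0 ≤ 1 / 2 := by
    rw [div_le_iff₀ (by linarith), div_mul_eq_mul_div, one_mul, div_le_iff₀ (by positivity)]
    nlinarith
  have h1 : Real.exp (-(1 / 2)) ≤ Real.exp (-(1 / (4 * C) * M1 / M0)) :=
    Real.exp_le_exp.2 (by linarith)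
  have h2 : (1 : ℝ) / 2 ≤ Real.exp (-(1 / 2)) := by
    have := Real.add_one_le_exp (-(1 / 2) : ℝ)
    linarith
  linarith

theorem A6_expint1 (t : ℝ) (ht : 0 < t) (ht1 : t < 1) : ∃ C1 c1 : ℝ, 0 < C1 ∧ 0 < c1 ∧
    ∀ (F : ℂ → ℂ) (M0 M1 : ℝ), 1 ≤ M0 → 0 ≤ M1 → DF F 0 1 →
    (∃ z0 : ℂ, ‖z0‖ ≤ t ∧ Real.exp (-M0) ≤ ‖F z0‖) →
    volume {x : ℝ | |x| ≤ t ∧ ‖F x‖ ≤ Real.exp (-M1)}
      ≤ ENNReal.ofReal (C1 * Real.exp (-(c1 * M1 / M0))) := by
  obtain ⟨C, hC, hfact⟩ := fact t ht ht1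
  refine ⟨16, 1 / (4 * C), by norm_num, by positivity, ?_⟩
  intro F M0 M1 hM0 hM1 hF hz
  obtain ⟨s, g, hs, hcard, hg, hg0, hgl, hfac⟩ := hfact F M0 hF hz
  have hs1 : ∀ a ∈ s, ‖a‖ < 1 := fun a ha => lt_of_le_of_lt (hs a ha) (by linarith)
  rcases lt_or_ge M1 (2 * C * M0) with h | h
  · have h1 : {x : ℝ | |x| ≤ t ∧ ‖F x‖ ≤ Real.exp (-M1)} ⊆ Icc (-1 : ℝ) 1 := by
      rintro x ⟨hx, _⟩
      have := abs_le.1 hx
      exact ⟨by linarith, by linarith⟩
    refine (measure_mono h1).trans ?_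
    rw [Real.volume_Icc]
    apply ENNReal.ofReal_le_ofReal
    have := A6_small hC hM0 h
    linarith
  · have hkey : ∀ x : ℝ, |x| ≤ t → ‖F x‖ ≤ Real.exp (-M1) →
        ((s.map Complex.re).map (fun p => |x - p| / 4)).prod ≤ Real.exp (-(M1 / 2)) := by
      intro x hx hFx
      have hxn : ‖(x : ℂ)‖ ≤ t := by rw [Complex.norm_real, Real.norm_eq_abs]; exact hx
      refine A6_key (F := F) (g := g) (x := (x : ℂ)) (A := C * M0) hs1 (by linarith)
        (hfac x (by rw [mem_closedBall, dist_zero_right]; linarith)) (hgl x hxn) hFx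
        (by linarith) ?_
      intro a _
      have h1 : |x - a.re| ≤ ‖(x : ℂ) - a‖ := by
        have := Complex.abs_re_le_norm ((x : ℂ) - a)
        simpa using this
      have := norm_nonneg ((x : ℂ) - a)
      linarith
    by_cases hs0 : s = 0
    · have h1 : {x : ℝ | |x| ≤ t ∧ ‖F x‖ ≤ Real.exp (-M1)} = ∅ := by
        rw [Set.eq_empty_iff_forall_notMem]
        rintro x ⟨hx, hFx⟩
        have h2 := hkey x hx hFx
        rw [hs0] at h2
        simp only [Multiset.map_zero, Multiset.prod_zero] at h2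
        rw [Real.one_le_exp_iff] at h2
        have : 0 < 2 * C * M0 := by positivity
        linarith
      rw [h1, measure_empty]
      exact zero_le
    · have h1 := A6_cartan (s.map Complex.re) (by
        intro p hp
        obtain ⟨a, ha, rfl⟩ := Multiset.mem_map.1 hp
        exact (Complex.abs_re_le_norm a).trans (hs1 a ha).le) (M1 / 2) (C * M0) (by positivity)
        (by simpa using hcard) (by simpa using hs0)
      refine (measure_mono ?_).trans (h1.trans (ENNReal.ofReal_le_ofReal (le_of_eq ?_)))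
      · rintro x ⟨hx, hFx⟩
        exact ⟨by linarith, hkey x hx hFx⟩
      · congr 3
        field_simp
        ring

theorem expint (t : ℝ) (ht : 0 < t) (ht1 : t < 1) : ∃ C1 c1 : ℝ, 0 < C1 ∧ 0 < c1 ∧
    ∀ (f : ℂ → ℂ) (c r M0 M1 : ℝ), 0 < r → 1 ≤ M0 → 0 ≤ M1 → DF f c r →
    (∃ z0 : ℂ, ‖z0 - c‖ ≤ t * r ∧ Real.exp (-M0) ≤ ‖f z0‖) →
    volume {x : ℝ | |x - c| ≤ t * r ∧ ‖f x‖ ≤ Real.exp (-M1)}
      ≤ ENNReal.ofReal (C1 * r * Real.exp (-(c1 * M1 / M0))) := by
  obtain ⟨C1, c1, hC1, hc1, hmain⟩ := A6_expint1 t ht ht1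
  refine ⟨C1, c1, hC1, hc1, ?_⟩
  rintro f c r M0 M1 hr hM0 hM1 hf ⟨z0, hz0, hfz0⟩
  have hr0 : (r : ℂ) ≠ 0 := by exact_mod_cast hr.ne'
  have h1 := hmain (fun z => f (c + r * z)) M0 M1 hM0 hM1 (A6_scale hr hf) ⟨(z0 - c) / r, by
    rw [norm_div, Complex.norm_real, Real.norm_eq_abs, abs_of_pos hr, div_le_iff₀ hr]
    exact hz0, by
    have : (c : ℂ) + r * ((z0 - c) / r) = z0 := by field_simp; ring
    rw [this]; exact hfz0⟩
  have h2 : {x : ℝ | |x - c| ≤ t * r ∧ ‖f x‖ ≤ Real.exp (-M1)} =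
      (fun x : ℝ => x + (-c)) ⁻¹' ((fun x : ℝ => r⁻¹ * x) ⁻¹'
        {x : ℝ | |x| ≤ t ∧ ‖f (c + r * x)‖ ≤ Real.exp (-M1)}) := by
    ext x
    simp only [Set.mem_ofPred_eq, mem_preimage]
    have e1 : (c : ℂ) + r * ((r⁻¹ * (x + -c) : ℝ) : ℂ) = x := by
      push_cast
      field_simp
      ring
    rw [e1, abs_mul, abs_of_pos (inv_pos.2 hr), ← sub_eq_add_neg, inv_mul_le_iff₀ hr, mul_comm r t]
  rw [h2, measure_preimage_add_right, Real.volume_preimage_mul_left (inv_ne_zero hr.ne')]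
  rw [inv_inv, abs_of_pos hr]
  refine (mul_le_mul_right h1 _).trans ?_
  rw [← ENNReal.ofReal_mul hr.le]
  apply ENNReal.ofReal_le_ofReal
  apply le_of_eq
  ring


theorem A6_inv (s : Multiset ℂ) (hs : ∀ a ∈ s, ‖a‖ < 1) :
    AnalyticOnNhd ℂ (fun z => (s.map (fun a => (1 - (starRingEnd ℂ) a * z)⁻¹)).prod)
      (closedBall 0 1) := by
  induction s using Multiset.induction_on with
  | empty =>
    intro z _
    simp only [Multiset.map_zero, Multiset.prod_zero]
    exact analyticAt_const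
  | cons a s ih =>
    intro z hz
    simp only [Multiset.map_cons, Multiset.prod_cons]
    refine AnalyticAt.mul ?_ (ih (fun b hb => hs b (Multiset.mem_cons_of_mem hb)) z hz)
    refine AnalyticAt.inv (by fun_prop) ?_
    exact Muntz.SEG_den (hs a (Multiset.mem_cons_self a s)) (by simpa using hz)

theorem A6_bp_eq (s : Multiset ℂ) (z : ℂ) :
    bp s z = pz s z * (s.map (fun a => (1 - (starRingEnd ℂ) a * z)⁻¹)).prod := by
  rw [bp, pz, ← Multiset.prod_map_mul]
  simp only [div_eq_mul_inv]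

theorem A6_remove (X : Finset ℝ) (s : Multiset ℂ) {σ : ℝ}
    (hsep : ∀ x ∈ X, ∀ y ∈ X, x ≠ y → σ ≤ |x - y|) :
    ∃ Y ⊆ X, (X.card : ℝ) ≤ s.card + Y.card ∧
      ∀ a ∈ s, ∀ x ∈ Y, σ / 2 ≤ ‖(x : ℂ) - a‖ := by
  classical
  induction s using Multiset.induction_on with
  | empty => exact ⟨X, subset_rfl, by simp, by simp⟩
  | cons a s ih =>
    obtain ⟨Y, hYX, hYc, hY⟩ := ih
    set B := Y.filter (fun x : ℝ => ‖(x : ℂ) - a‖ < σ / 2) with hB
    have hBc : B.card ≤ 1 := by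
      rw [Finset.card_le_one]
      intro x hx y hy
      by_contra hxy
      rw [hB, Finset.mem_filter] at hx hy
      have h1 := hsep x (hYX hx.1) y (hYX hy.1) hxy
      have h2 : |x - y| ≤ ‖(x : ℂ) - a‖ + ‖(y : ℂ) - a‖ := by
        have e : ((x - y : ℝ) : ℂ) = ((x : ℂ) - a) - ((y : ℂ) - a) := by push_cast; ring
        rw [← Real.norm_eq_abs, ← Complex.norm_real, e]
        exact norm_sub_le _ _
      linarith [hx.2, hy.2]
    refine ⟨Y \ B, (Finset.sdiff_subset).trans hYX, ?_, ?_⟩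
    · have h1 : Y.card ≤ (Y \ B).card + B.card := by
        have := Finset.card_sdiff_add_card_eq_card (Finset.filter_subset
          (fun x : ℝ => ‖(x : ℂ) - a‖ < σ / 2) Y)
        rw [hB]
        omega
      have h2 : (Y.card : ℝ) ≤ (Y \ B).card + 1 := by
        have : Y.card ≤ (Y \ B).card + 1 := by omega
        exact_mod_cast this
      rw [Multiset.card_cons]
      push_cast
      linarith
    · intro b hb x hx
      rw [Finset.mem_sdiff] at hx
      rcases Multiset.mem_cons.1 hb with rfl | hb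
      · by_contra hlt
        exact hx.2 (by rw [hB, Finset.mem_filter]; exact ⟨hx.1, not_le.1 hlt⟩)
      · exact hY b hb x hx.1

theorem A6_slice1 (t : ℝ) (ht : 0 < t) (ht1 : t < 1) : ∃ C1 c1 : ℝ, 0 < C1 ∧ 0 < c1 ∧
    ∀ (F : ℂ → ℂ) (M0 M1 σ : ℝ) (X : Finset ℝ), 1 ≤ M0 → 0 ≤ M1 → 0 < σ → σ ≤ 1 →
    DF F 0 1 → (∃ z0 : ℂ, ‖z0‖ ≤ t ∧ Real.exp (-M0) ≤ ‖F z0‖) →
    (∀ x ∈ X, |x| ≤ t ∧ ‖F x‖ ≤ Real.exp (-M1)) →
    (∀ x ∈ X, ∀ y ∈ X, x ≠ y → σ ≤ |x - y|) →
    ∃ (s : Multiset ℂ) (k : ℂ → ℂ), (∀ a ∈ s, ‖a‖ ≤ (1 + t) / 2) ∧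
      AnalyticOnNhd ℂ k (closedBall 0 1) ∧ (∀ z ∈ closedBall (0 : ℂ) 1, F z = pz s z * k z) ∧
      (s.card : ℝ) ≤ C1 * M0 ∧
      (X.card : ℝ) ≤ s.card + C1 * (1 / σ) * Real.exp (-(c1 * M1 / M0)) := by
  obtain ⟨C, hC, hfact⟩ := fact t ht ht1
  refine ⟨16 + C, 1 / (4 * C), by positivity, by positivity, ?_⟩
  intro F M0 M1 σ X hM0 hM1 hσ hσ1 hF hz hX hsep
  obtain ⟨s, g, hs, hcard, hg, hg0, hgl, hfac⟩ := hfact F M0 hF hz
  have hs1 : ∀ a ∈ s, ‖a‖ < 1 := fun a ha => lt_of_le_of_lt (hs a ha) (by linarith)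
  refine ⟨s, fun z => (s.map (fun a => (1 - (starRingEnd ℂ) a * z)⁻¹)).prod * g z, hs, ?_, ?_, ?_, ?_⟩
  · intro z hz
    exact (A6_inv s hs1 z hz).mul (hg.an z hz)
  · intro z hz
    rw [hfac z hz, A6_bp_eq, mul_assoc]
  · nlinarith
  · set E := Real.exp (-(1 / (4 * C) * M1 / M0)) with hE
    have hE0 : 0 < E := Real.exp_pos _
    have hred : ∀ (Y : Finset ℝ), Y ⊆ X → ∀ S : Set ℝ,
        (∀ x ∈ Y, ∀ y, |y - x| < σ / 2 → y ∈ S) → volume S ≤ ENNReal.ofReal (16 * E) →
        (Y.card : ℝ) ≤ (16 + C) * (1 / σ) * E := by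
      intro Y hYX S hS hvol
      have h1 := A6_sep Y hσ (by positivity)
        (fun x hx y hy => hsep x (hYX hx) y (hYX hy)) hS hvol
      have h2 : (Y.card : ℝ) ≤ 16 * E / σ := by rw [le_div_iff₀ hσ]; exact h1
      have h3 : (16 + C) * (1 / σ) * E = 16 * E / σ + C * E / σ := by field_simp
      have h4 : 0 ≤ C * E / σ := by positivity
      linarith
    rcases lt_or_ge M1 (2 * C * M0) with h | h
    · have h1 := hred X subset_rfl (Icc (-2 : ℝ) 2) (by
        intro x hx y hy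
        have h2 := abs_le.1 (hX x hx).1
        have h3 := abs_lt.1 hy
        exact ⟨by linarith, by linarith⟩) (by
        rw [Real.volume_Icc]
        apply ENNReal.ofReal_le_ofReal
        have := A6_small hC hM0 h
        linarith)
      have : (0 : ℝ) ≤ s.card := by positivity
      linarith
    · obtain ⟨Y, hYX, hYc, hY⟩ := A6_remove X s hsep
      have hkey : ∀ x ∈ Y, ∀ y : ℝ, |y - x| < σ / 2 →
          ((s.map Complex.re).map (fun p => |y - p| / 4)).prod ≤ Real.exp (-(M1 / 2)) := by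
        intro x hx y hy
        obtain ⟨hxt, hFx⟩ := hX x (hYX hx)
        have hxn : ‖(x : ℂ)‖ ≤ t := by rw [Complex.norm_real, Real.norm_eq_abs]; exact hxt
        refine A6_key (F := F) (g := g) (x := (x : ℂ)) (A := C * M0) hs1 (by linarith)
          (hfac x (by rw [mem_closedBall, dist_zero_right]; linarith)) (hgl x hxn) hFx
          (by linarith) ?_
        intro a ha
        have h1 : |x - a.re| ≤ ‖(x : ℂ) - a‖ := by
          have := Complex.abs_re_le_norm ((x : ℂ) - a)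
          simpa using this
        have h2 := hY a ha x hx
        have h3 : |y - a.re| ≤ |y - x| + |x - a.re| := abs_sub_le _ _ _
        linarith
      have hfin : (Y.card : ℝ) ≤ (16 + C) * (1 / σ) * E := by
        by_cases hs0 : s = 0
        · have hY0 : Y = ∅ := by
            rw [Finset.eq_empty_iff_forall_notMem]
            intro x hx
            have h2 := hkey x hx x (by rw [sub_self, abs_zero]; linarith)
            rw [hs0] at h2
            simp only [Multiset.map_zero, Multiset.prod_zero] at h2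
            rw [Real.one_le_exp_iff] at h2
            have : 0 < 2 * C * M0 := by positivity
            linarith
          rw [hY0, Finset.card_empty]
          push_cast
          positivity
        · have h1 := A6_cartan (s.map Complex.re) (by
            intro p hp
            obtain ⟨a, ha, rfl⟩ := Multiset.mem_map.1 hp
            exact (Complex.abs_re_le_norm a).trans (hs1 a ha).le) (M1 / 2) (C * M0) (by positivity)
            (by simpa using hcard) (by simpa using hs0)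
          refine hred Y hYX _ ?_ (h1.trans (ENNReal.ofReal_le_ofReal (le_of_eq ?_)))
          · intro x hx y hy
            have h2 := abs_le.1 (hX x (hYX hx)).1
            have h3 := abs_lt.1 hy
            exact ⟨abs_le.2 ⟨by linarith, by linarith⟩, hkey x hx y hy⟩
          · rw [hE]
            congr 3
            field_simp
            ring
      linarith

theorem A6_pz_scale (s : Multiset ℂ) (c : ℂ) {r : ℝ} (hr : (r : ℂ) ≠ 0) (z : ℂ) :
    pz (s.map (fun a => c + r * a)) z = (r : ℂ) ^ s.card * pz s ((z - c) / r) := by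
  induction s using Multiset.induction_on with
  | empty => simp [pz]
  | cons a s ih =>
    simp only [pz, Multiset.map_cons, Multiset.prod_cons, Multiset.card_cons] at ih ⊢
    rw [ih, pow_succ]
    have : z - (c + r * a) = r * ((z - c) / r - a) := by field_simp; ring
    rw [this]
    ring

theorem slice (t : ℝ) (ht : 0 < t) (ht1 : t < 1) : ∃ C1 c1 : ℝ, 0 < C1 ∧ 0 < c1 ∧
    ∀ (f : ℂ → ℂ) (c r M0 M1 σ : ℝ) (X : Finset ℝ), 0 < r → 1 ≤ M0 → 0 ≤ M1 → 0 < σ → σ ≤ r →
    DF f c r → (∃ z0 : ℂ, ‖z0 - c‖ ≤ t * r ∧ Real.exp (-M0) ≤ ‖f z0‖) →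
    (∀ x ∈ X, |x - c| ≤ t * r ∧ ‖f x‖ ≤ Real.exp (-M1)) →
    (∀ x ∈ X, ∀ y ∈ X, x ≠ y → σ ≤ |x - y|) →
    ∃ (s : Multiset ℂ) (k : ℂ → ℂ), (∀ a ∈ s, ‖a - c‖ ≤ (1 + t) / 2 * r) ∧
      AnalyticOnNhd ℂ k (closedBall c r) ∧ (∀ z ∈ closedBall (c : ℂ) r, f z = pz s z * k z) ∧
      (s.card : ℝ) ≤ C1 * M0 ∧
      (X.card : ℝ) ≤ s.card + C1 * (r / σ) * Real.exp (-(c1 * M1 / M0)) := by
  classical
  obtain ⟨C1, c1, hC1, hc1, hmain⟩ := A6_slice1 t ht ht1
  refine ⟨C1, c1, hC1, hc1, ?_⟩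
  rintro f c r M0 M1 σ X hr hM0 hM1 hσ hσr hf ⟨z0, hz0, hfz0⟩ hX hsep
  have hr0 : (r : ℂ) ≠ 0 := by exact_mod_cast hr.ne'
  have hinj : Function.Injective (fun x : ℝ => (x - c) / r) := by
    intro x y hxy
    simp only at hxy
    field_simp at hxy
    linarith
  have hback : ∀ z : ℂ, (c : ℂ) + r * ((z - c) / r) = z := by
    intro z; field_simp; ring
  obtain ⟨s, k, hs, hk, hfac, hcard, hXc⟩ := hmain (fun z => f (c + r * z)) M0 M1 (σ / r)
    (X.image (fun x : ℝ => (x - c) / r)) hM0 hM1 (by positivity) (by rw [div_le_one hr]; exact hσr)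
    (A6_scale hr hf) ⟨(z0 - c) / r, by
      rw [norm_div, Complex.norm_real, Real.norm_eq_abs, abs_of_pos hr, div_le_iff₀ hr]
      exact hz0, by
      simp only [hback]; exact hfz0⟩ (by
      intro x hx
      obtain ⟨y, hy, rfl⟩ := Finset.mem_image.1 hx
      obtain ⟨h1, h2⟩ := hX y hy
      refine ⟨?_, ?_⟩
      · rw [abs_div, abs_of_pos hr, div_le_iff₀ hr]; exact h1
      · push_cast
        rw [hback]; exact h2) (by
      intro x hx x' hx' hne
      obtain ⟨y, hy, rfl⟩ := Finset.mem_image.1 hx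
      obtain ⟨y', hy', rfl⟩ := Finset.mem_image.1 hx'
      have hyy : y ≠ y' := fun h => hne (by rw [h])
      rw [← sub_div, sub_sub_sub_cancel_right, abs_div, abs_of_pos hr]
      exact div_le_div_of_nonneg_right (hsep y hy y' hy' hyy) hr.le)
  refine ⟨s.map (fun a => (c : ℂ) + r * a), fun z => ((r : ℂ) ^ s.card)⁻¹ * k ((z - c) / r),
    ?_, ?_, ?_, ?_, ?_⟩
  · intro a ha
    obtain ⟨b, hb, rfl⟩ := Multiset.mem_map.1 ha
    rw [add_sub_cancel_left, norm_mul, Complex.norm_real, Real.norm_eq_abs, abs_of_pos hr, mul_comm]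
    exact mul_le_mul_of_nonneg_right (hs b hb) hr.le
  · intro z hz
    have hz' : (z - c) / r ∈ closedBall (0 : ℂ) 1 := by
      rw [mem_closedBall, dist_eq_norm] at hz
      rw [mem_closedBall, dist_zero_right, norm_div, Complex.norm_real, Real.norm_eq_abs,
        abs_of_pos hr, div_le_one hr]
      exact hz
    refine AnalyticAt.mul analyticAt_const ?_
    exact AnalyticAt.fun_comp (f := fun z : ℂ => (z - c) / r) (hk _ hz') (by fun_prop)
  · intro z hz
    have hz' : (z - c) / r ∈ closedBall (0 : ℂ) 1 := by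
      rw [mem_closedBall, dist_eq_norm] at hz
      rw [mem_closedBall, dist_zero_right, norm_div, Complex.norm_real, Real.norm_eq_abs,
        abs_of_pos hr, div_le_one hr]
      exact hz
    have h1 := hfac _ hz'
    simp only [hback] at h1
    rw [h1, A6_pz_scale s c hr0 z]
    field_simp
  · rw [Multiset.card_map]; exact hcard
  · rw [Multiset.card_map]
    rw [Finset.card_image_of_injective _ hinj] at hXc
    rw [one_div_div] at hXc
    exact hXc

end MuntzF
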