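import Pool.Agent.Lib.MP_dde81e_full.A6

/-!
Module A7 (text 1.5(d), LOWER).  Blaschke decomposition; every zero in `closedBall c (t r)` is one of the
Blaschke zeros, and each Blaschke factor is at most `exp (-κ)` on `closedBall c (t r)`.
-/

namespace MuntzF
open Set Metric

theorem A7_le_exp_of_nl {x : ℂ} {A : ℝ} (h : ENNReal.ofReal A ≤ Muntz.nl x) (hA : 0 < A) :
    ‖x‖ ≤ Real.exp (-A) := by
  by_cases hx : x = 0
  · rw [hx, norm_zero]; exact (Real.exp_pos _).le
  · rw [Muntz.SEG_nl_of_ne hx] at h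
    have h1 : A ≤ -Real.log ‖x‖ := by
      by_contra hlt
      have h2 := (ENNReal.ofReal_lt_ofReal_iff hA).2 (not_le.1 hlt)
      exact absurd h (not_le.2 h2)
    rw [← Real.log_le_iff_le_exp (norm_pos_iff.2 hx)]
    linarith

theorem A7_unit {t : ℝ} (ht : 0 < t) (ht1 : t < 1) {F : ℂ → ℂ} (hF : DF F 0 1) (X : Finset ℂ)
    (hX : ∀ a ∈ X, ‖a‖ ≤ t ∧ F a = 0) (z : ℂ) (hz : ‖z‖ ≤ t) :
    ‖F z‖ ≤ Real.exp (-((1 - t ^ 2) * (1 - t ^ 2) / 8 * X.card)) := by
  set κ := (1 - t ^ 2) * (1 - t ^ 2) / 8 with hκ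
  have hκ0 : 0 < κ := by
    have h2 : 0 < 1 - t ^ 2 := by nlinarith
    positivity
  have hz1 : z ∈ closedBall (0 : ℂ) 1 := by rw [mem_closedBall, dist_zero_right]; linarith
  by_cases hFz : F z = 0
  · rw [hFz, norm_zero]; exact (Real.exp_pos _).le
  obtain ⟨s, g, hs, hg, hgb, hg0, hfac⟩ := Muntz.blaschke_decomp (θ := t) ht ht1 hF.an hF.bd
    ⟨z, hz1, hFz⟩
  have hs1 : ∀ a ∈ s, ‖a‖ < 1 := fun a ha => lt_of_le_of_lt (hs a ha) ht1
  have hXs : X.card ≤ s.card := by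
    refine (Finset.card_le_card (t := s.toFinset) ?_).trans (Multiset.toFinset_card_le s)
    intro a ha
    obtain ⟨ha1, ha2⟩ := hX a ha
    have ha3 : a ∈ closedBall (0 : ℂ) 1 := by rw [mem_closedBall, dist_zero_right]; linarith
    have h1 := hfac a ha3
    rw [ha2] at h1
    have h2 : (s.map (fun b => (a - b) / (1 - (starRingEnd ℂ) b * a))).prod = 0 := by
      rcases mul_eq_zero.1 h1.symm with h | h
      · exact h
      · exact absurd h (hg0 a (by rw [mem_closedBall, dist_zero_right]; exact ha1))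
    rw [Multiset.prod_eq_zero_iff, Multiset.mem_map] at h2
    obtain ⟨b, hb, hb0⟩ := h2
    rcases div_eq_zero_iff.1 hb0 with h | h
    · rw [Multiset.mem_toFinset, sub_eq_zero.1 h]; exact hb
    · exact absurd h (Muntz.SEG_den (hs1 b hb) (by linarith))
  have hdec : Muntz.nl (F z) =
      (s.map (fun a => Muntz.nl (Muntz.SEG_B a z))).sum + Muntz.nl (g z) := by
    have hz' : ‖z‖ ≤ 1 := by simpa using hz1
    have h1 := Muntz.SEG_nl_prod s (fun a => Muntz.SEG_B a z)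
      (fun a ha => Muntz.SEG_B_le (hs1 a ha) hz')
    have h2 : F z = (s.map (fun a => Muntz.SEG_B a z)).prod * g z := hfac z hz1
    rw [h2, Muntz.nl_mul h1.1 (hgb z hz1), h1.2]
  rcases Nat.eq_zero_or_pos X.card with h0 | h0
  · rw [h0]
    simpa using hF.bd z hz1
  · apply A7_le_exp_of_nl
    · rw [hdec]
      have h1 := Muntz.SEG_le_sum s (fun a => Muntz.nl (Muntz.SEG_B a z)) (ENNReal.ofReal κ)
        (fun a ha => Muntz.SEG_B_upper ht.le ht1 ht.le ht1 (hs a ha) hz)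
      refine le_trans ?_ (h1.trans le_self_add)
      rw [← ENNReal.ofReal_natCast, ← ENNReal.ofReal_mul (by positivity)]
      apply ENNReal.ofReal_le_ofReal
      have : (X.card : ℝ) ≤ s.card := by exact_mod_cast hXs
      nlinarith
    · have : (0 : ℝ) < X.card := by exact_mod_cast h0
      positivity

theorem lower (t : ℝ) (ht : 0 < t) (ht1 : t < 1) : ∃ c1 : ℝ, 0 < c1 ∧
    ∀ (f : ℂ → ℂ) (c : ℂ) (r : ℝ) (X : Finset ℂ), 0 < r → DF f c r →
    (∀ a ∈ X, ‖a - c‖ ≤ t * r ∧ f a = 0) →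
    ∀ z : ℂ, ‖z - c‖ ≤ t * r → ‖f z‖ ≤ Real.exp (-(c1 * X.card)) := by
  classical
  refine ⟨(1 - t ^ 2) * (1 - t ^ 2) / 8, ?_, ?_⟩
  · have h2 : 0 < 1 - t ^ 2 := by nlinarith
    positivity
  intro f c r X hr hf hX z hz
  have hr0 : (r : ℂ) ≠ 0 := by exact_mod_cast hr.ne'
  have hback : ∀ z : ℂ, (c : ℂ) + r * ((z - c) / r) = z := by
    intro z; field_simp; ring
  have hn : ∀ z : ℂ, ‖z - c‖ ≤ t * r → ‖(z - c) / r‖ ≤ t := by
    intro z hz
    rw [norm_div, Complex.norm_real, Real.norm_eq_abs, abs_of_pos hr, div_le_iff₀ hr]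
    exact hz
  have hinj : Function.Injective (fun x : ℂ => (x - c) / r) := by
    intro x y hxy
    have h1 := congrArg (fun w => (c : ℂ) + r * w) hxy
    simpa only [hback] using h1
  have h1 := A7_unit ht ht1 (A6_scale hr hf) (X.image (fun x : ℂ => (x - c) / r)) (by
    intro a ha
    obtain ⟨b, hb, rfl⟩ := Finset.mem_image.1 ha
    refine ⟨hn b (hX b hb).1, ?_⟩
    simp only [hback]
    exact (hX b hb).2) ((z - c) / r) (hn z hz)
  rw [Finset.card_image_of_injective _ hinj] at h1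
  simpa only [hback] using h1

end MuntzF
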