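import Pool.Agent.Lib.MP_dde81e_full.BDefs
import Pool.Agent.Lib.MP_dde81e_full.A1

/-!
Module B1 (text 2.1, NC).  x = Re z0, σ ↦ F(z0, w0 + (θ1-τ)x + σ) on Rc W T, W = (θ2-θ1)x, T = ρ/2, at X = (τ-θ1)x.  For σ in the rectangle |w| ≤ ρ/K + θ2 ρ/K + ρ/2 ≤ ρ.
πT/(2W) ≥ K/(2θ2).
-/

namespace MuntzF
open Set

theorem nc {F : ℂ × ℂ → ℂ} (hF : Muntz.GoodF F) {θ1 τ θ2 A1 A2 ρ K : ℝ} (h0 : 0 < θ1) (h1 : θ1 < τ)
    (h2 : τ < θ2) (hA1 : 0 ≤ A1) (hA2 : 0 ≤ A2) (hK : 2 * (1 + θ2) ≤ K) (hρ : 0 < ρ)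
    (hP1 : PR F ρ θ1 A1) (hP2 : PR F ρ θ2 A2) :
    PR F (ρ / K) τ (((θ2 - τ) * A1 + (τ - θ1) * A2) / (θ2 - θ1)
      - 3 * max A1 A2 * Real.exp (-(K / (2 * θ2)))) := by
  intro z0 w0 hz hw hx hre
  have hK0 : 0 < K := by linarith
  have hK2 : 2 ≤ K := by linarith
  set x := z0.re with hxd
  have hxρ : x ≤ ρ / K := (Complex.re_le_norm z0).trans hz
  have hW : 0 < (θ2 - θ1) * x := mul_pos (by linarith) hx
  have hT : 0 < ρ / 2 := by linarith
  have hzρ : ‖z0‖ ≤ ρ := hz.trans (div_le_self hρ.le (by linarith))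
  set c : ℂ := w0 + (((θ1 - τ) * x : ℝ) : ℂ) with hc
  have hcre : c.re = θ1 * x := by
    rw [hc, Complex.add_re, Complex.ofReal_re, hre]
    ring
  -- size of the second argument
  have hsize : ∀ s ∈ Rc ((θ2 - θ1) * x) (ρ / 2), ‖c + s‖ ≤ ρ := by
    rintro s ⟨hs0, hs1, hs2⟩
    have e1 : c + s = w0 + ((((θ1 - τ) * x + s.re : ℝ) : ℂ) + (s.im : ℂ) * Complex.I) := by
      rw [hc]
      conv_lhs => rw [← Complex.re_add_im s]
      push_cast
      ring
    have e2 : ‖((((θ1 - τ) * x + s.re : ℝ) : ℂ) + (s.im : ℂ) * Complex.I)‖ ≤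
        |(θ1 - τ) * x + s.re| + |s.im| := by
      refine (norm_add_le _ _).trans (le_of_eq ?_)
      rw [norm_mul, Complex.norm_I, mul_one, Complex.norm_real, Complex.norm_real,
        Real.norm_eq_abs, Real.norm_eq_abs]
    have e3 : |(θ1 - τ) * x + s.re| ≤ θ2 * (ρ / K) := by
      have f1 : θ2 * x ≤ θ2 * (ρ / K) := mul_le_mul_of_nonneg_left hxρ (by linarith)
      rw [abs_le]
      constructor
      · nlinarith
      · nlinarith
    have e4 : ρ / K * (1 + θ2) ≤ ρ / 2 := by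
      rw [div_mul_eq_mul_div, div_le_div_iff₀ hK0 (by norm_num)]
      nlinarith
    rw [e1]
    calc ‖w0 + ((((θ1 - τ) * x + s.re : ℝ) : ℂ) + (s.im : ℂ) * Complex.I)‖
        ≤ ρ / K + (θ2 * (ρ / K) + ρ / 2) := by
          refine (norm_add_le _ _).trans (add_le_add hw (e2.trans (add_le_add e3 hs2)))
      _ ≤ ρ := by nlinarith
  have hrec : ∀ s : ℂ, (c + s).re = θ1 * x + s.re := fun s => by rw [Complex.add_re, hcre]
  have hθ1x : 0 < θ1 * x := mul_pos h0 hx
  -- the function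
  have hopen : IsOpen {s : ℂ | -1 < (c + s).re} := by
    refine isOpen_lt continuous_const ?_
    exact Complex.continuous_re.comp (continuous_const.add continuous_id)
  have hdiff : DifferentiableOn ℂ (fun s : ℂ => F (z0, c + s)) {s : ℂ | -1 < (c + s).re} := by
    refine hF.diff.comp (f := fun s : ℂ => (z0, c + s)) ?_ ?_
    · exact ((differentiable_const z0).prodMk
        ((differentiable_const c).add differentiable_id)).differentiableOn
    · intro s hs
      exact ⟨by show -1 < z0.re; linarith, hs⟩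
  have han : AnalyticOnNhd ℂ (fun s : ℂ => F (z0, c + s)) (Rc ((θ2 - θ1) * x) (ρ / 2)) := by
    refine (hdiff.analyticOnNhd hopen).mono ?_
    rintro s ⟨hs0, -, -⟩
    show -1 < (c + s).re
    rw [hrec]
    linarith
  have hX : (τ - θ1) * x ∈ Icc (0 : ℝ) ((θ2 - θ1) * x) := by
    constructor
    · exact mul_nonneg (by linarith) hx.le
    · exact mul_le_mul_of_nonneg_right (by linarith) hx.le
  have key := rect_two hW hT (mul_nonneg hA1 hx.le) (mul_nonneg hA2 hx.le) han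
    (by
      rintro s ⟨hs0, -, -⟩
      refine hF.bound (z0, c + s) ?_ ?_
      · show -1 < z0.re
        linarith
      · show -1 < (c + s).re
        rw [hrec]
        linarith)
    (by
      intro s hs hs0
      refine hP1 z0 (c + s) hzρ (hsize s hs) hx ?_
      rw [hrec, hs0, add_zero])
    (by
      intro s hs hsW
      refine hP2 z0 (c + s) hzρ (hsize s hs) hx ?_
      rw [hrec, hsW, ← hxd]
      ring) hX
  have hval : c + (((τ - θ1) * x : ℝ) : ℂ) = w0 := by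
    rw [hc]
    push_cast
    ring
  rw [hval] at key
  refine key.trans (Real.exp_le_exp.2 (neg_le_neg ?_))
  have hd : (0 : ℝ) < θ2 - θ1 := by linarith
  have hx' : x ≠ 0 := hx.ne'
  have q1 : (τ - θ1) * x / ((θ2 - θ1) * x) = (τ - θ1) / (θ2 - θ1) := by
    field_simp
  have q2 : 1 - (τ - θ1) / (θ2 - θ1) = (θ2 - τ) / (θ2 - θ1) := by
    field_simp
    ring
  have q3 : max (A1 * x) (A2 * x) = max A1 A2 * x := (max_mul_of_nonneg _ _ hx.le).symm
  have q4 : Real.exp (-(Real.pi * (ρ / 2) / (2 * ((θ2 - θ1) * x)))) ≤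
      Real.exp (-(K / (2 * θ2))) := by
    refine Real.exp_le_exp.2 (neg_le_neg ?_)
    rw [div_le_div_iff₀ (by linarith) (by positivity)]
    have f1 : K * x ≤ ρ := by
      rw [le_div_iff₀ hK0] at hxρ
      linarith
    have f2 : (θ2 - θ1) * x ≤ θ2 * x := mul_le_mul_of_nonneg_right (by linarith) hx.le
    have f3 : K * ((θ2 - θ1) * x) ≤ θ2 * ρ := by
      calc K * ((θ2 - θ1) * x) ≤ K * (θ2 * x) := mul_le_mul_of_nonneg_left f2 hK0.le
        _ = θ2 * (K * x) := by ring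
        _ ≤ θ2 * ρ := mul_le_mul_of_nonneg_left f1 (by linarith)
    have f4 : (3 : ℝ) < Real.pi := Real.pi_gt_three
    have f5 : 0 < θ2 * ρ := mul_pos (by linarith) hρ
    nlinarith
  have hm : 0 ≤ max A1 A2 := hA1.trans (le_max_left _ _)
  rw [q1, q2, q3]
  have q5 : 3 * (max A1 A2 * x) * Real.exp (-(Real.pi * (ρ / 2) / (2 * ((θ2 - θ1) * x)))) ≤
      3 * (max A1 A2 * x) * Real.exp (-(K / (2 * θ2))) :=
    mul_le_mul_of_nonneg_left q4 (by positivity)
  have q6 : (((θ2 - τ) * A1 + (τ - θ1) * A2) / (θ2 - θ1) -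
      3 * max A1 A2 * Real.exp (-(K / (2 * θ2)))) * x =
      (θ2 - τ) / (θ2 - θ1) * (A1 * x) + (τ - θ1) / (θ2 - θ1) * (A2 * x) -
        3 * (max A1 A2 * x) * Real.exp (-(K / (2 * θ2))) := by
    field_simp
  rw [q6]
  linarith

end MuntzF
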