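import Pool.Agent.Lib.MP_dde81e_full.BDefs
import Pool.Agent.Lib.MP_dde81e_full.A2

/-!
Module B2 (text 2.2, NC1).  below: σ ↦ F(z0, w0 - Re w0 + σ), W = θ2 Re z0, X = Re w0 (left side: slope 0), rect_one.  above: the same in the first variable (horizontal line
σ ↦ F(z0 - Re z0 + σ, w0), W = Re w0/θ1, X = Re z0): on the right side Re w = θ1 Re z.  Degenerate cases (Re w0 = 0, Re z0 = 0): the bound is ≥ 1.
-/

namespace MuntzF
open Set

theorem B2_open : IsOpen {s : ℂ | -1 < s.re} := isOpen_lt continuous_const Complex.continuous_re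

/-- a linear section in the second variable is analytic on the closed right half plane. -/
theorem B2_an2 {F : ℂ × ℂ → ℂ} (hF : Muntz.GoodF F) {z w : ℂ} (hz : 0 ≤ z.re) (W T : ℝ) :
    AnalyticOnNhd ℂ (fun s : ℂ => F (z, w - (w.re : ℂ) + s)) (Rc W T) := by
  have h1 : DifferentiableOn ℂ (fun s : ℂ => F (z, w - (w.re : ℂ) + s)) {s : ℂ | -1 < s.re} := by
    refine DifferentiableOn.comp (t := {p : ℂ × ℂ | -1 < p.1.re ∧ -1 < p.2.re})
      (f := fun s : ℂ => (z, w - (w.re : ℂ) + s)) hF.diff ?_ ?_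
    · fun_prop
    · intro s hs
      have hs' : -1 < s.re := hs
      refine ⟨by show -1 < z.re; linarith, ?_⟩
      show -1 < (w - (w.re : ℂ) + s).re
      simp only [Complex.add_re, Complex.sub_re, Complex.ofReal_re]
      linarith
  refine (h1.analyticOnNhd B2_open).mono ?_
  intro s hs
  have := hs.1
  show -1 < s.re
  linarith

theorem B2_an1 {F : ℂ × ℂ → ℂ} (hF : Muntz.GoodF F) {z w : ℂ} (hw : 0 ≤ w.re) (W T : ℝ) :
    AnalyticOnNhd ℂ (fun s : ℂ => F (z - (z.re : ℂ) + s, w)) (Rc W T) := by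
  have h1 : DifferentiableOn ℂ (fun s : ℂ => F (z - (z.re : ℂ) + s, w)) {s : ℂ | -1 < s.re} := by
    refine DifferentiableOn.comp (t := {p : ℂ × ℂ | -1 < p.1.re ∧ -1 < p.2.re})
      (f := fun s : ℂ => (z - (z.re : ℂ) + s, w)) hF.diff ?_ ?_
    · fun_prop
    · intro s hs
      have hs' : -1 < s.re := hs
      refine ⟨?_, by show -1 < w.re; linarith⟩
      show -1 < (z - (z.re : ℂ) + s).re
      simp only [Complex.add_re, Complex.sub_re, Complex.ofReal_re]
      linarith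
  refine (h1.analyticOnNhd B2_open).mono ?_
  intro s hs
  have := hs.1
  show -1 < s.re
  linarith

/-- norm bound on the right side of the rectangle. -/
theorem B2_norm {w s : ℂ} {ρ K a W : ℝ} (hK0 : 0 < K) (hw : ‖w‖ ≤ ρ / K) (hT : |s.im| ≤ ρ / 2)
    (hs0 : 0 ≤ s.re) (hsW : s.re ≤ W) (hW : W ≤ a * (ρ / K)) (hK : 2 * (1 + a) ≤ K)
    (hρ : 0 < ρ) : ‖w - (w.re : ℂ) + s‖ ≤ ρ := by
  have h1 : ‖w - (w.re : ℂ) + s‖ ≤ |(w - (w.re : ℂ) + s).re| + |(w - (w.re : ℂ) + s).im| :=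
    Complex.norm_le_abs_re_add_abs_im _
  have h2 : (w - (w.re : ℂ) + s).re = s.re := by simp
  have h3 : (w - (w.re : ℂ) + s).im = w.im + s.im := by simp
  rw [h2, h3] at h1
  have h4 : |s.re| ≤ a * (ρ / K) := by rw [abs_of_nonneg hs0]; linarith
  have h5 : |w.im + s.im| ≤ ρ / K + ρ / 2 :=
    (abs_add_le _ _).trans (add_le_add ((Complex.abs_im_le_norm w).trans hw) hT)
  have h6 : (1 + a) * (ρ / K) ≤ ρ / 2 := by
    rw [← mul_div_assoc, div_le_div_iff₀ hK0 (by norm_num)]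
    nlinarith
  linarith

theorem nc_below {F : ℂ × ℂ → ℂ} (hF : Muntz.GoodF F) {θ2 A ρ K : ℝ} (h2 : 0 < θ2) (hA : 0 ≤ A)
    (hK : 2 * (1 + θ2) ≤ K) (hρ : 0 < ρ) (hP : PR F ρ θ2 A) {z w : ℂ} (hz : ‖z‖ ≤ ρ / K)
    (hw : ‖w‖ ≤ ρ / K) (hz0 : 0 < z.re) (hw0 : 0 ≤ w.re) (hs : w.re ≤ θ2 * z.re) :
    ‖F (z, w)‖ ≤ Real.exp (-(A * (w.re / θ2) * (1 - 4 * Real.exp (-(K / (2 * θ2)))))) := by
  have hK0 : 0 < K := by linarith
  have hW : 0 < θ2 * z.re := mul_pos h2 hz0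
  have hT : 0 < ρ / 2 := by positivity
  have hzre : z.re ≤ ρ / K := (Complex.re_le_norm z).trans hz
  have hAz : 0 ≤ A * z.re := by positivity
  have hWle : θ2 * z.re ≤ θ2 * (ρ / K) := mul_le_mul_of_nonneg_left hzre h2.le
  have hKρ : ρ / K ≤ ρ := by
    rw [div_le_iff₀ hK0]
    nlinarith
  have hmain := rect_one hW hT hAz (B2_an2 hF (w := w) hz0.le (θ2 * z.re) (ρ / 2)) (by
      intro s hs'
      refine hF.bound _ ?_ ?_
      · show -1 < z.re
        linarith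
      · show -1 < (w - (w.re : ℂ) + s).re
        have := hs'.1
        simp only [Complex.add_re, Complex.sub_re, Complex.ofReal_re]
        linarith) (by
      intro s hs' hsW
      refine hP z (w - (w.re : ℂ) + s) (hz.trans hKρ) ?_ hz0 ?_
      · exact B2_norm hK0 hw hs'.2.2 hs'.1 hs'.2.1 hWle hK hρ
      · simp only [Complex.add_re, Complex.sub_re, Complex.ofReal_re]
        linarith) (X := w.re) ⟨hw0, hs⟩
  have hg : w - (w.re : ℂ) + (w.re : ℂ) = w := by ring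
  simp only [hg] at hmain
  refine hmain.trans (Real.exp_le_exp.2 (neg_le_neg ?_))
  have e1 : A * z.re * (w.re / (θ2 * z.re)) = A * (w.re / θ2) := by
    field_simp
  rw [e1]
  have h0 : 0 ≤ A * (w.re / θ2) := by positivity
  refine mul_le_mul_of_nonneg_left ?_ h0
  have h3 : K / (2 * θ2) ≤ Real.pi * (ρ / 2) / (2 * (θ2 * z.re)) := by
    rw [div_le_div_iff₀ (by positivity) (by positivity)]
    have h4 : z.re * K ≤ ρ := by rwa [le_div_iff₀ hK0] at hzre
    have hpi : 2 ≤ Real.pi := Real.two_le_pi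
    have h5 : K * (2 * (θ2 * z.re)) = 2 * θ2 * (z.re * K) := by ring
    rw [h5]
    have h6 : 2 * θ2 * (z.re * K) ≤ 2 * θ2 * ρ := mul_le_mul_of_nonneg_left h4 (by positivity)
    have h7 : 2 * θ2 * ρ ≤ Real.pi * θ2 * ρ := by
      have := mul_nonneg (sub_nonneg.2 hpi) (mul_nonneg h2.le hρ.le)
      nlinarith
    calc 2 * θ2 * (z.re * K) ≤ Real.pi * θ2 * ρ := h6.trans h7
      _ = Real.pi * (ρ / 2) * (2 * θ2) := by ring
  have h8 : Real.exp (-(Real.pi * (ρ / 2) / (2 * (θ2 * z.re)))) ≤ Real.exp (-(K / (2 * θ2))) :=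
    Real.exp_le_exp.2 (neg_le_neg h3)
  linarith

theorem nc_above {F : ℂ × ℂ → ℂ} (hF : Muntz.GoodF F) {θ1 A ρ K : ℝ} (h1 : 0 < θ1) (hA : 0 ≤ A)
    (hK : 2 * (1 + 1 / θ1) ≤ K) (hρ : 0 < ρ) (hP : PR F ρ θ1 A) {z w : ℂ} (hz : ‖z‖ ≤ ρ / K)
    (hw : ‖w‖ ≤ ρ / K) (hz0 : 0 ≤ z.re) (hw0 : 0 < w.re) (hs : θ1 * z.re ≤ w.re) :
    ‖F (z, w)‖ ≤ Real.exp (-(A * z.re * (1 - 4 * Real.exp (-(K * θ1 / 2))))) := by
  have h1' : 0 < 1 / θ1 := by positivity
  have hK0 : 0 < K := by linarith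
  have hW : 0 < w.re / θ1 := div_pos hw0 h1
  have hT : 0 < ρ / 2 := by positivity
  have hwre : w.re ≤ ρ / K := (Complex.re_le_norm w).trans hw
  have hAz : 0 ≤ A * (w.re / θ1) := by positivity
  have hWle : w.re / θ1 ≤ 1 / θ1 * (ρ / K) := by
    rw [div_eq_mul_inv, mul_comm, one_div]
    exact mul_le_mul_of_nonneg_left hwre (by positivity)
  have hKρ : ρ / K ≤ ρ := by
    rw [div_le_iff₀ hK0]
    nlinarith
  have hmain := rect_one hW hT hAz (B2_an1 hF (z := z) hw0.le (w.re / θ1) (ρ / 2)) (by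
      intro s hs'
      refine hF.bound _ ?_ ?_
      · show -1 < (z - (z.re : ℂ) + s).re
        have := hs'.1
        simp only [Complex.add_re, Complex.sub_re, Complex.ofReal_re]
        linarith
      · show -1 < w.re
        linarith) (by
      intro s hs' hsW
      have hre : (z - (z.re : ℂ) + s).re = w.re / θ1 := by
        simp only [Complex.add_re, Complex.sub_re, Complex.ofReal_re]
        linarith
      have h5 := hP (z - (z.re : ℂ) + s) w ?_ (hw.trans hKρ) ?_ ?_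
      · rw [hre] at h5
        exact h5
      · exact B2_norm hK0 hz hs'.2.2 hs'.1 hs'.2.1 hWle hK hρ
      · rw [hre]; exact hW
      · rw [hre]; field_simp) (X := z.re) ⟨hz0, by rw [le_div_iff₀ h1]; linarith⟩
  have hg : z - (z.re : ℂ) + (z.re : ℂ) = z := by ring
  simp only [hg] at hmain
  refine hmain.trans (Real.exp_le_exp.2 (neg_le_neg ?_))
  have e1 : A * (w.re / θ1) * (z.re / (w.re / θ1)) = A * z.re := by
    field_simp
  rw [e1]
  have h0 : 0 ≤ A * z.re := by positivity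
  refine mul_le_mul_of_nonneg_left ?_ h0
  have h3 : K * θ1 / 2 ≤ Real.pi * (ρ / 2) / (2 * (w.re / θ1)) := by
    rw [div_le_div_iff₀ (by norm_num) (by positivity)]
    have h4 : w.re * K ≤ ρ := by rwa [le_div_iff₀ hK0] at hwre
    have hpi : 2 ≤ Real.pi := Real.two_le_pi
    have h5 : K * θ1 * (2 * (w.re / θ1)) = 2 * (w.re * K) := by field_simp
    rw [h5]
    nlinarith
  have h8 : Real.exp (-(Real.pi * (ρ / 2) / (2 * (w.re / θ1)))) ≤ Real.exp (-(K * θ1 / 2)) :=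
    Real.exp_le_exp.2 (neg_le_neg h3)
  linarith

end MuntzF
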