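import Pool.Agent.Lib.MP_dde81e_full.B2

/-!
Module B3 (text 2.3, PB).  By GoodF.ne and continuity there are real x>0, y>0 with F(x,y) ≠ 0.  Apply nc_below (θ2 = θ) if y ≤ θx, nc_above (θ1 = θ) otherwise, with ρ = 2^j, K = 2^j/max(x,y) ≥ K0 so large
that 4 exp(..) ≤ 1/2: |F(x,y)| ≤ exp(-A c).
-/

namespace MuntzF
open Set

theorem B3_pos {F : ℂ × ℂ → ℂ} (hF : Muntz.GoodF F) :
    ∃ x y : ℝ, 0 < x ∧ 0 < y ∧ F ((x : ℂ), (y : ℂ)) ≠ 0 := by
  obtain ⟨x, y, hx, hy, hne⟩ := hF.ne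
  have hopen : IsOpen {p : ℂ × ℂ | -1 < p.1.re ∧ -1 < p.2.re} :=
    (isOpen_lt continuous_const (Complex.continuous_re.comp continuous_fst)).inter
      (isOpen_lt continuous_const (Complex.continuous_re.comp continuous_snd))
  have hmem : ((x : ℂ), (y : ℂ)) ∈ {p : ℂ × ℂ | -1 < p.1.re ∧ -1 < p.2.re} := by
    refine ⟨?_, ?_⟩
    · show -1 < (x : ℂ).re
      rw [Complex.ofReal_re]; linarith
    · show -1 < (y : ℂ).re
      rw [Complex.ofReal_re]; linarith
  have hc : ContinuousAt F ((x : ℂ), (y : ℂ)) :=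
    (hF.diff.continuousOn.continuousAt (hopen.mem_nhds hmem))
  have hc2 : ContinuousAt (fun t : ℝ => F ((x : ℂ), (t : ℂ))) y := by
    refine ContinuousAt.comp (f := fun t : ℝ => ((x : ℂ), (t : ℂ))) (x := y) (g := F) hc ?_
    exact (continuous_const.prodMk Complex.continuous_ofReal).continuousAt
  have h3 := hc2.eventually_ne hne
  obtain ⟨ε, hε, h4⟩ := Metric.eventually_nhds_iff.1 h3
  refine ⟨x, y + ε / 2, hx, by linarith, h4 ?_⟩
  rw [Real.dist_eq]
  have : y + ε / 2 - y = ε / 2 := by ring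
  rw [this, abs_of_pos (by positivity)]
  linarith

theorem pb {F : ℂ × ℂ → ℂ} (hF : Muntz.GoodF F) {b0 : ℝ} (hb : 2 ≤ b0) : ∃ (j0 : ℕ) (B0 : ℝ), 0 < B0 ∧
    ∀ j, j0 ≤ j → ∀ θ ∈ Icc (1 / (4 * b0)) (4 * b0), ∀ A, 0 ≤ A → PR F (2 ^ j) θ A → A ≤ B0 := by
  obtain ⟨x, y, hx, hy, hne⟩ := B3_pos hF
  have hb0 : 0 < b0 := by linarith
  set N : ℝ := ‖F ((x : ℂ), (y : ℂ))‖ with hN0
  have hN : 0 < N := norm_pos_iff.2 hne
  have hN1 : N ≤ 1 := hF.bound _ (by show -1 < (x : ℂ).re; rw [Complex.ofReal_re]; linarith)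
    (by show -1 < (y : ℂ).re; rw [Complex.ofReal_re]; linarith)
  set c : ℝ := -Real.log N with hc0
  have hc : 0 ≤ c := by
    have := Real.log_nonpos hN.le hN1
    linarith
  set m : ℝ := max x y with hm0
  have hm : 0 < m := lt_max_of_lt_left hx
  obtain ⟨j0, hj0⟩ := pow_unbounded_of_one_lt (24 * b0 * m) (one_lt_two (α := ℝ))
  refine ⟨j0, 8 * b0 * c / y + 2 * c / x + 1, by positivity, ?_⟩
  intro j hj θ hθ A hA hP
  have hρ : (0 : ℝ) < 2 ^ j := by positivity
  have hj1 : 24 * b0 * m ≤ 2 ^ j := hj0.le.trans (pow_le_pow_right₀ one_le_two hj)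
  set K : ℝ := 2 ^ j / m with hK0
  have hK : 24 * b0 ≤ K := by rwa [hK0, le_div_iff₀ hm]
  have hKpos : 0 < K := by positivity
  have hρK : (2 : ℝ) ^ j / K = m := by
    rw [hK0]; field_simp
  have hθ0 : 0 < θ := lt_of_lt_of_le (by positivity) hθ.1
  have hθi : 1 / θ ≤ 4 * b0 := by
    rw [div_le_iff₀ hθ0]
    have := hθ.1
    rw [div_le_iff₀ (by positivity)] at this
    linarith
  have hzn : ‖(x : ℂ)‖ ≤ 2 ^ j / K := by
    rw [hρK, Complex.norm_real, Real.norm_eq_abs, abs_of_pos hx]; exact le_max_left _ _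
  have hwn : ‖(y : ℂ)‖ ≤ 2 ^ j / K := by
    rw [hρK, Complex.norm_real, Real.norm_eq_abs, abs_of_pos hy]; exact le_max_right _ _
  have he3 : Real.exp (-3) ≤ 1 / 8 := by
    have h1 : (1 : ℝ) + 1 ≤ Real.exp 1 := Real.add_one_le_exp 1
    have h2 : Real.exp 3 = Real.exp 1 ^ 3 := by
      rw [← Real.exp_nat_mul]; norm_num
    have h3 : (8 : ℝ) ≤ Real.exp 3 := by
      rw [h2]
      calc (8 : ℝ) = 2 ^ 3 := by norm_num
        _ ≤ Real.exp 1 ^ 3 := pow_le_pow_left₀ (by norm_num) (by linarith) 3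
    rw [Real.exp_neg, ← one_div]
    exact one_div_le_one_div_of_le (by norm_num) h3
  have hN2 : N = Real.exp (-c) := by rw [hc0, neg_neg, Real.exp_log hN]
  by_cases hs : y ≤ θ * x
  · have h := nc_below (K := K) hF hθ0 hA (by linarith [hθ.2]) hρ hP hzn hwn
      (by rw [Complex.ofReal_re]; exact hx) (by rw [Complex.ofReal_re]; exact hy.le)
      (by rw [Complex.ofReal_re, Complex.ofReal_re]; exact hs)
    rw [Complex.ofReal_re, ← hN0, hN2, Real.exp_le_exp] at h
    have h3 : 3 ≤ K / (2 * θ) := by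
      rw [le_div_iff₀ (by positivity)]
      nlinarith [hθ.2]
    have h4 : Real.exp (-(K / (2 * θ))) ≤ 1 / 8 :=
      (Real.exp_le_exp.2 (neg_le_neg h3)).trans he3
    have h5 : 0 ≤ A * (y / θ) := by positivity
    have h6 : A * (y / θ) * (1 / 2) ≤ c := by
      have h7 : A * (y / θ) * (1 / 2) ≤
          A * (y / θ) * (1 - 4 * Real.exp (-(K / (2 * θ)))) :=
        mul_le_mul_of_nonneg_left (by linarith) h5
      linarith
    have h8 : A * y ≤ 8 * b0 * c := by
      have h9 : A * y = A * (y / θ) * θ := by field_simp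
      rw [h9]
      have h10 : A * (y / θ) ≤ 2 * c := by linarith
      calc A * (y / θ) * θ ≤ 2 * c * (4 * b0) :=
            mul_le_mul h10 hθ.2 hθ0.le (by positivity)
        _ = 8 * b0 * c := by ring
    have h11 : A ≤ 8 * b0 * c / y := by rwa [le_div_iff₀ hy]
    have h12 : 0 ≤ 2 * c / x := by positivity
    linarith
  · push Not at hs
    have h := nc_above (K := K) hF hθ0 hA (by linarith) hρ hP hzn hwn
      (by rw [Complex.ofReal_re]; exact hx.le) (by rw [Complex.ofReal_re]; exact hy)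
      (by rw [Complex.ofReal_re, Complex.ofReal_re]; exact hs.le)
    rw [Complex.ofReal_re, ← hN0, hN2, Real.exp_le_exp] at h
    have h3 : 3 ≤ K * θ / 2 := by
      have h13 : 1 / (4 * b0) ≤ θ := hθ.1
      have h14 : 24 * b0 * (1 / (4 * b0)) ≤ K * θ :=
        mul_le_mul hK h13 (by positivity) hKpos.le
      have h15 : 24 * b0 * (1 / (4 * b0)) = 6 := by field_simp; norm_num
      linarith
    have h4 : Real.exp (-(K * θ / 2)) ≤ 1 / 8 :=
      (Real.exp_le_exp.2 (neg_le_neg h3)).trans he3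
    have h5 : 0 ≤ A * x := by positivity
    have h6 : A * x * (1 / 2) ≤ c := by
      have h7 : A * x * (1 / 2) ≤ A * x * (1 - 4 * Real.exp (-(K * θ / 2))) :=
        mul_le_mul_of_nonneg_left (by linarith) h5
      linarith
    have h11 : A ≤ 2 * c / x := by
      rw [le_div_iff₀ hx]; linarith
    have h12 : 0 ≤ 8 * b0 * c / y := by positivity
    linarith

end MuntzF
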