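import Mathlib

/-!
Module B4 (text 2.5, ENV lemma) and the envelope `env`: env p q Ψ θ = inf of the values at θ of the affine majorants of Ψ on [p,q].
env_slope: (Ψ x2 - M)/(x2-θ) ≤ (M - Ψ x1)/(θ-x1) for x1 < θ < x2; take β = sup of the left sides (bounded above since p < θ).
-/

namespace MuntzF
open Set

/-- least concave majorant. -/
noncomputable def env (p q : ℝ) (Ψ : ℝ → ℝ) (θ : ℝ) : ℝ :=
  sInf {M : ℝ | ∃ β : ℝ, ∀ x ∈ Icc p q, Ψ x ≤ M + β * (x - θ)}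

theorem env_slope {p q θ M B : ℝ} {Ψ : ℝ → ℝ} (hp : p < θ) (hq : θ < q)
    (hB : ∀ x ∈ Icc p q, 0 ≤ Ψ x ∧ Ψ x ≤ B) (hM : Ψ θ ≤ M)
    (h : ∀ x1 x2, p ≤ x1 → x1 < θ → θ < x2 → x2 ≤ q →
      ((x2 - θ) * Ψ x1 + (θ - x1) * Ψ x2) / (x2 - x1) ≤ M) :
    ∃ β : ℝ, ∀ x ∈ Icc p q, Ψ x ≤ M + β * (x - θ) := by
  have hpq : p ≤ q := by linarith
  have key : ∀ x1 x2, p ≤ x1 → x1 < θ → θ < x2 → x2 ≤ q →
      (Ψ x2 - M) / (x2 - θ) ≤ (M - Ψ x1) / (θ - x1) := by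
    intro x1 x2 h1 h2 h3 h4
    have h5 := h x1 x2 h1 h2 h3 h4
    have h6 : 0 < x2 - x1 := by linarith
    rw [div_le_iff₀ h6] at h5
    rw [div_le_div_iff₀ (by linarith) (by linarith)]
    nlinarith [h5]
  set S : Set ℝ := (fun x2 => (Ψ x2 - M) / (x2 - θ)) '' Ioc θ q with hS
  have hne : S.Nonempty := ⟨_, q, ⟨hq, le_refl _⟩, rfl⟩
  have hbd : BddAbove S := by
    refine ⟨(M - Ψ p) / (θ - p), ?_⟩
    rintro s ⟨x2, hx2, rfl⟩
    exact key p x2 le_rfl hp hx2.1 hx2.2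
  refine ⟨sSup S, ?_⟩
  intro x hx
  rcases lt_trichotomy x θ with hlt | heq | hgt
  · have h1 : sSup S ≤ (M - Ψ x) / (θ - x) := by
      apply csSup_le hne
      rintro s ⟨x2, hx2, rfl⟩
      exact key x x2 hx.1 hlt hx2.1 hx2.2
    rw [le_div_iff₀ (by linarith)] at h1
    nlinarith [h1]
  · subst heq
    simpa using hM
  · have h1 : (Ψ x - M) / (x - θ) ≤ sSup S := le_csSup hbd ⟨x, ⟨hgt, hx.2⟩, rfl⟩
    rw [div_le_iff₀ (by linarith)] at h1
    linarith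

theorem env_le {p q θ M β : ℝ} {Ψ : ℝ → ℝ} (hθ : θ ∈ Icc p q) (hB : ∀ x ∈ Icc p q, 0 ≤ Ψ x)
    (h : ∀ x ∈ Icc p q, Ψ x ≤ M + β * (x - θ)) : env p q Ψ θ ≤ M := by
  apply csInf_le
  · refine ⟨0, ?_⟩
    rintro M' ⟨β', h'⟩
    have h1 := h' θ hθ
    have h2 := hB θ hθ
    simp only [sub_self, mul_zero, add_zero] at h1
    linarith
  · exact ⟨β, h⟩

theorem le_env {p q θ B : ℝ} {Ψ : ℝ → ℝ} (hθ : θ ∈ Icc p q) (hB : ∀ x ∈ Icc p q, 0 ≤ Ψ x ∧ Ψ x ≤ B) :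
    Ψ θ ≤ env p q Ψ θ ∧ env p q Ψ θ ≤ B := by
  constructor
  · apply le_csInf
    · exact ⟨B, 0, fun x hx => by simpa using (hB x hx).2⟩
    · rintro M' ⟨β', h'⟩
      have h1 := h' θ hθ
      simpa using h1
  · exact env_le (β := 0) hθ (fun x hx => (hB x hx).1) (fun x hx => by simpa using (hB x hx).2)

theorem env_concave {p q B : ℝ} {Ψ : ℝ → ℝ} (hpq : p ≤ q) (hB : ∀ x ∈ Icc p q, 0 ≤ Ψ x ∧ Ψ x ≤ B) :
    ConcaveOn ℝ (Icc p q) (env p q Ψ) := by
  refine ⟨convex_Icc p q, ?_⟩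
  intro x hx y hy a b ha hb hab
  have hz : a • x + b • y ∈ Icc p q := convex_Icc p q hx hy ha hb hab
  simp only [smul_eq_mul] at hz ⊢
  apply le_csInf
  · exact ⟨B, 0, fun x hx => by simpa using (hB x hx).2⟩
  · rintro M' ⟨β', h'⟩
    have h1 : env p q Ψ x ≤ M' + β' * (x - (a * x + b * y)) :=
      env_le (β := β') hx (fun t ht => (hB t ht).1) (fun t ht => by
        have := h' t ht
        linarith)
    have h2 : env p q Ψ y ≤ M' + β' * (y - (a * x + b * y)) :=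
      env_le (β := β') hy (fun t ht => (hB t ht).1) (fun t ht => by
        have := h' t ht
        linarith)
    have h3 : a * env p q Ψ x ≤ a * (M' + β' * (x - (a * x + b * y))) :=
      mul_le_mul_of_nonneg_left h1 ha
    have h4 : b * env p q Ψ y ≤ b * (M' + β' * (y - (a * x + b * y))) :=
      mul_le_mul_of_nonneg_left h2 hb
    have hb' : b = 1 - a := by linarith
    subst hb'
    have h5 : a * (M' + β' * (x - (a * x + (1 - a) * y)))
        + (1 - a) * (M' + β' * (y - (a * x + (1 - a) * y))) = M' := by ring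
    linarith

theorem env_mono {p q θ B : ℝ} {Ψ Ψ' : ℝ → ℝ} (hθ : θ ∈ Icc p q)
    (hB : ∀ x ∈ Icc p q, 0 ≤ Ψ x ∧ Ψ x ≤ Ψ' x ∧ Ψ' x ≤ B) : env p q Ψ θ ≤ env p q Ψ' θ := by
  apply csInf_le_csInf
  · refine ⟨0, ?_⟩
    rintro M' ⟨β', h'⟩
    have h1 := h' θ hθ
    have h2 := (hB θ hθ).1
    simp only [sub_self, mul_zero, add_zero] at h1
    linarith
  · exact ⟨B, 0, fun x hx => by simpa using (hB x hx).2.2⟩
  · rintro M' ⟨β', h'⟩
    exact ⟨β', fun x hx => le_trans (hB x hx).2.1 (h' x hx)⟩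

/-- a concave function with values in [0,B] on [p,q] is Lipschitz inside. -/
theorem concave_lip {p q p' q' B δ : ℝ} {f : ℝ → ℝ} (hf : ConcaveOn ℝ (Icc p q) f)
    (hB : ∀ x ∈ Icc p q, 0 ≤ f x ∧ f x ≤ B) (hδ : 0 < δ) (hp : p + δ ≤ p') (hq : q' + δ ≤ q) :
    ∀ x ∈ Icc p' q', ∀ y ∈ Icc p' q', |f x - f y| ≤ B / δ * |x - y| := by
  have main : ∀ x ∈ Icc p' q', ∀ y ∈ Icc p' q', x < y → |f x - f y| ≤ B / δ * |x - y| := by
    intro x hx y hy hxy
    have hx1 : x ∈ Icc p q := ⟨by linarith [hx.1], by linarith [hx.2]⟩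
    have hy1 : y ∈ Icc p q := ⟨by linarith [hy.1], by linarith [hy.2]⟩
    have hx0 : x - δ ∈ Icc p q := ⟨by linarith [hx.1], by linarith [hx.2]⟩
    have hy2 : y + δ ∈ Icc p q := ⟨by linarith [hy.1], by linarith [hy.2]⟩
    have s1 := hf.slope_anti_adjacent hx0 hy1 (by linarith : x - δ < x) hxy
    have s2 := hf.slope_anti_adjacent hx1 hy2 hxy (by linarith : y < y + δ)
    have e1 : x - (x - δ) = δ := by ring
    have e2 : y + δ - y = δ := by ring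
    rw [e1] at s1
    rw [e2] at s2
    have hyx : 0 < y - x := by linarith
    have b1 : (f x - f (x - δ)) / δ ≤ B / δ := by
      apply div_le_div_of_nonneg_right _ hδ.le
      linarith [(hB x hx1).2, (hB _ hx0).1]
    have b2 : -(B / δ) ≤ (f (y + δ) - f y) / δ := by
      rw [← neg_div]
      apply div_le_div_of_nonneg_right _ hδ.le
      linarith [(hB y hy1).2, (hB _ hy2).1]
    have c1 : (f y - f x) / (y - x) ≤ B / δ := le_trans s1 b1
    have c2 : -(B / δ) ≤ (f y - f x) / (y - x) := le_trans b2 s2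
    rw [div_le_iff₀ hyx] at c1
    rw [le_div_iff₀ hyx] at c2
    rw [abs_sub_comm x y, abs_of_pos hyx, abs_le]
    constructor <;> linarith
  intro x hx y hy
  rcases lt_trichotomy x y with hlt | heq | hgt
  · exact main x hx y hy hlt
  · subst heq
    simp
  · rw [abs_sub_comm (f x), abs_sub_comm x]
    exact main y hy x hx hgt

end MuntzF
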