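import Pool.Agent.Lib.MP_dde81e_full.B1
import Pool.Agent.Lib.MP_dde81e_full.B3
import Pool.Agent.Lib.MP_dde81e_full.B4

/-!
Module B5 (text 2.4, 2.6, envelope theorem).  Ψ_j(θ) = sSup {A | 0 ≤ A ∧ PR F (2^j) θ A} (attained: PR is closed in A; bounded by B0 for j ≥ j0 by pb; antitone in j), c_j = env (1/(4b0)) (4b0) Ψ_j.
low: if 2^k ≥ 2(1+4b0): M = Ψ_j(θ) + 3B0 exp(-2^k/(8b0)): by nc (ρ = 2^(j+k), K = 2^k) every two point interpolation of Ψ_(j+k) is ≤ M, Ψ_(j+k)(θ) ≤ Ψ_j(θ); env_slope, env_le: c_(j+k)(θ) ≤ M.  For smaller k: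
C1 exp(-2^k/C1) ≥ B0 (C1 large).  PR F ρ θ A holds for A ≤ Ψ_j(θ) (also negative A: |F| ≤ 1).  L from concave_lip, δ = 1/(4b0); replace L by max L 1.
-/

namespace MuntzF
open Set

/-- the best exponent on the slope `θ` at scale `j`. -/
noncomputable def Psi (F : ℂ × ℂ → ℂ) (j : ℕ) (θ : ℝ) : ℝ := sSup {A | 0 ≤ A ∧ PR F (2 ^ j) θ A}

theorem PR_mono {F : ℂ × ℂ → ℂ} {ρ θ A A' : ℝ} (h : A ≤ A') (hP : PR F ρ θ A') : PR F ρ θ A := by
  intro z w hz hw hz0 hzw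
  refine (hP z w hz hw hz0 hzw).trans (Real.exp_le_exp.mpr ?_)
  nlinarith

theorem PR_rad {F : ℂ × ℂ → ℂ} {ρ ρ' θ A : ℝ} (h : ρ ≤ ρ') (hP : PR F ρ' θ A) : PR F ρ θ A :=
  fun z w hz hw hz0 hzw => hP z w (hz.trans h) (hw.trans h) hz0 hzw

theorem PR_zero {F : ℂ × ℂ → ℂ} (hF : Muntz.GoodF F) {ρ θ : ℝ} (hθ : 0 ≤ θ) : PR F ρ θ 0 := by
  intro z w hz hw hz0 hzw
  have h1 : 0 ≤ θ * z.re := mul_nonneg hθ hz0.le
  simpa using hF.bound (z, w) (by simpa using (by linarith : (-1 : ℝ) < z.re))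
    (by simpa using (by rw [hzw]; linarith : (-1 : ℝ) < w.re))

theorem PR_closed {F : ℂ × ℂ → ℂ} {ρ θ : ℝ} : IsClosed {A : ℝ | 0 ≤ A ∧ PR F ρ θ A} := by
  have h1 : {A : ℝ | 0 ≤ A ∧ PR F ρ θ A} = Ici 0 ∩ ⋂ (z : ℂ) (w : ℂ) (_ : ‖z‖ ≤ ρ) (_ : ‖w‖ ≤ ρ)
      (_ : 0 < z.re) (_ : w.re = θ * z.re), {A : ℝ | ‖F (z, w)‖ ≤ Real.exp (-(A * z.re))} := by
    ext A
    simp only [mem_ofPred_eq, PR, mem_inter_iff, mem_Ici, mem_iInter]
  rw [h1]
  refine isClosed_Ici.inter ?_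
  refine isClosed_iInter fun z => isClosed_iInter fun w => isClosed_iInter fun _ =>
    isClosed_iInter fun _ => isClosed_iInter fun _ => isClosed_iInter fun _ => ?_
  exact isClosed_le continuous_const (Real.continuous_exp.comp (by fun_prop))

theorem env_exists {F : ℂ × ℂ → ℂ} (hF : Muntz.GoodF F) {b0 : ℝ} (hb : 2 ≤ b0) :
    ∃ (c : ℕ → ℝ → ℝ) (j0 : ℕ) (B0 L C1 : ℝ), Env F b0 c j0 B0 L C1 := by
  obtain ⟨j0, B0, hB0, hpb⟩ := pb hF hb
  have hb0 : 0 < b0 := by linarith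
  set p : ℝ := 1 / (4 * b0) with hp
  set q : ℝ := 4 * b0 with hq
  have hp0 : 0 < p := by positivity
  have hp1 : p ≤ 1 / 8 := by
    rw [hp]
    exact one_div_le_one_div_of_le (by norm_num) (by linarith)
  have hpq : p ≤ q := by linarith
  have hpp : p + p = 1 / (2 * b0) := by rw [hp, hq]; field_simp; norm_num
  -- facts on Psi
  have hne : ∀ j θ, θ ∈ Icc p q → (0 : ℝ) ∈ {A | 0 ≤ A ∧ PR F (2 ^ j) θ A} := by
    intro j θ hθ
    exact ⟨le_rfl, PR_zero hF (hp0.le.trans hθ.1)⟩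
  have hbd : ∀ j, j0 ≤ j → ∀ θ ∈ Icc p q, BddAbove {A | 0 ≤ A ∧ PR F (2 ^ j) θ A} := by
    intro j hj θ hθ
    exact ⟨B0, fun A hA => hpb j hj θ hθ A hA.1 hA.2⟩
  have hmem : ∀ j, j0 ≤ j → ∀ θ ∈ Icc p q, 0 ≤ Psi F j θ ∧ PR F (2 ^ j) θ (Psi F j θ) := by
    intro j hj θ hθ
    exact PR_closed.csSup_mem ⟨0, hne j θ hθ⟩ (hbd j hj θ hθ)
  have hΨB : ∀ j, j0 ≤ j → ∀ θ ∈ Icc p q, 0 ≤ Psi F j θ ∧ Psi F j θ ≤ B0 := by
    intro j hj θ hθ
    exact ⟨(hmem j hj θ hθ).1, hpb j hj θ hθ _ (hmem j hj θ hθ).1 (hmem j hj θ hθ).2⟩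
  have hle : ∀ j, j0 ≤ j → ∀ θ ∈ Icc p q, ∀ A, PR F (2 ^ j) θ A → A ≤ Psi F j θ := by
    intro j hj θ hθ A hA
    rcases lt_or_ge A 0 with h | h
    · exact h.le.trans (hmem j hj θ hθ).1
    · exact le_csSup (hbd j hj θ hθ) ⟨h, hA⟩
  have hanti : ∀ j k, j0 ≤ j → ∀ θ ∈ Icc p q, Psi F (j + k) θ ≤ Psi F j θ := by
    intro j k hj θ hθ
    refine hle j hj θ hθ _ (PR_rad ?_ (hmem (j + k) (by omega) θ hθ).2)
    exact pow_le_pow_right₀ (by norm_num) (by omega)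
  have hI1 : I1 b0 ⊆ Icc p q := by
    intro x hx
    have h1 : 1 / (2 * b0) ≤ x := hx.1
    have h2 : x ≤ 2 * b0 := hx.2
    exact ⟨by linarith, by linarith⟩
  have hcnn : ∀ j, j0 ≤ j → ∀ θ ∈ Icc p q, Psi F j θ ≤ env p q (Psi F j) θ ∧
      env p q (Psi F j) θ ≤ B0 := fun j hj θ hθ => le_env hθ (hΨB j hj)
  have hconc : ∀ j, j0 ≤ j → ConcaveOn ℝ (Icc p q) (env p q (Psi F j)) :=
    fun j hj => env_concave hpq (hΨB j hj)
  have hnn : ∀ j, j0 ≤ j → ∀ θ ∈ Icc p q, 0 ≤ env p q (Psi F j) θ ∧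
      env p q (Psi F j) θ ≤ B0 := fun j hj θ hθ =>
    ⟨(hΨB j hj θ hθ).1.trans (hcnn j hj θ hθ).1, (hcnn j hj θ hθ).2⟩
  have hC : (1 : ℝ) ≤ 3 * B0 + 8 * b0 + 2 := by linarith
  have hC0 : (0 : ℝ) < 3 * B0 + 8 * b0 + 2 := by linarith
  refine ⟨fun j => env p q (Psi F j), j0, B0, max (B0 / p) 1, 3 * B0 + 8 * b0 + 2,
    ⟨hF, ⟨hb, le_max_right _ _, hB0.le, ?_, ?_, ?_, ?_⟩, hC, ?_, ?_⟩⟩
  · intro j hj
    exact (hconc j hj).subset hI1 (convex_Icc _ _)
  · intro j hj x hx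
    exact hnn j hj x (hI1 hx)
  · intro j hj x hx
    refine env_mono (B := B0) (hI1 hx) fun y hy => ⟨(hΨB (j + 1) (by omega) y hy).1, ?_,
      (hΨB j hj y hy).2⟩
    exact hanti j 1 hj y hy
  · intro j hj x hx y hy
    have h1 := concave_lip (p' := 1 / (2 * b0)) (q' := 2 * b0) (hconc j hj) (hnn j hj) hp0
      (by linarith) (by linarith) x hx y hy
    refine h1.trans ?_
    exact mul_le_mul_of_nonneg_right (le_max_left _ _) (abs_nonneg _)
  · intro j k hj θ hθ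
    have hθ' := hI1 hθ
    have hθ1 : 1 / (2 * b0) ≤ θ := hθ.1
    have hθ2 : θ ≤ 2 * b0 := hθ.2
    have hpθ : p < θ := by linarith
    have hθq : θ < q := by linarith
    refine PR_mono (A' := Psi F j θ) ?_ (hmem j hj θ hθ').2
    rcases le_or_gt (2 * (1 + q)) ((2 : ℝ) ^ k) with hk | hk
    · have hM : env p q (Psi F (j + k)) θ ≤ Psi F j θ + 3 * B0 * Real.exp (-(2 ^ k / (8 * b0))) := by
        have hex : ∃ β : ℝ, ∀ x ∈ Icc p q, Psi F (j + k) x ≤
            (Psi F j θ + 3 * B0 * Real.exp (-(2 ^ k / (8 * b0)))) + β * (x - θ) := by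
          refine env_slope hpθ hθq (hΨB (j + k) (by omega)) ?_ ?_
          · have h1 := hanti j k hj θ hθ'
            have h2 : 0 ≤ 3 * B0 * Real.exp (-(2 ^ k / (8 * b0))) := by positivity
            linarith
          · intro x1 x2 h1 h1' h2' h2
            have hx1 : x1 ∈ Icc p q := ⟨h1, by linarith⟩
            have hx2 : x2 ∈ Icc p q := ⟨by linarith, h2⟩
            have hx20 : 0 < x2 := by linarith
            have hA1 := hΨB (j + k) (by omega) x1 hx1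
            have hA2 := hΨB (j + k) (by omega) x2 hx2
            have h3 := nc hF (θ1 := x1) (τ := θ) (θ2 := x2) (A1 := Psi F (j + k) x1)
              (A2 := Psi F (j + k) x2) (ρ := 2 ^ (j + k)) (K := 2 ^ k) (by linarith) h1' h2'
              hA1.1 hA2.1 (by linarith) (by positivity) (hmem (j + k) (by omega) x1 hx1).2
              (hmem (j + k) (by omega) x2 hx2).2
            have h4 : ((2 : ℝ) ^ (j + k)) / 2 ^ k = 2 ^ j := by
              rw [pow_add]; field_simp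
            rw [h4] at h3
            have h5 := hle j hj θ hθ' _ h3
            have h6 : 3 * max (Psi F (j + k) x1) (Psi F (j + k) x2) *
                Real.exp (-(2 ^ k / (2 * x2))) ≤ 3 * B0 * Real.exp (-(2 ^ k / (8 * b0))) := by
              have h7 : max (Psi F (j + k) x1) (Psi F (j + k) x2) ≤ B0 := max_le hA1.2 hA2.2
              have h8 : Real.exp (-(2 ^ k / (2 * x2))) ≤ Real.exp (-(2 ^ k / (8 * b0))) := by
                apply Real.exp_le_exp.mpr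
                apply neg_le_neg
                apply div_le_div_of_nonneg_left (by positivity) (by positivity)
                linarith
              exact mul_le_mul (by linarith) h8 (Real.exp_pos _).le (by linarith)
            linarith
        obtain ⟨β, hβ⟩ := hex
        exact env_le hθ' (fun x hx => (hΨB (j + k) (by omega) x hx).1) hβ
      have h9 : 3 * B0 * Real.exp (-(2 ^ k / (8 * b0))) ≤ (3 * B0 + 8 * b0 + 2) *
          Real.exp (-(2 ^ k / (3 * B0 + 8 * b0 + 2))) := by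
        refine mul_le_mul (by linarith) ?_ (Real.exp_pos _).le hC0.le
        apply Real.exp_le_exp.mpr
        apply neg_le_neg
        apply div_le_div_of_nonneg_left (by positivity) (by positivity)
        linarith
      show env p q (Psi F (j + k)) θ - _ ≤ _
      linarith
    · have h1 : (2 : ℝ) ^ k / (3 * B0 + 8 * b0 + 2) ≤ 1 := by
        rw [div_le_one hC0]; linarith
      have h2 : Real.exp (-1) ≤ Real.exp (-(2 ^ k / (3 * B0 + 8 * b0 + 2))) :=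
        Real.exp_le_exp.mpr (by linarith)
      have h3 : (1 : ℝ) / 3 ≤ Real.exp (-1) := by
        rw [Real.exp_neg, ← one_div]
        apply one_div_le_one_div_of_le (Real.exp_pos _)
        have := Real.exp_one_lt_d9
        linarith
      have h4 : B0 ≤ (3 * B0 + 8 * b0 + 2) * Real.exp (-(2 ^ k / (3 * B0 + 8 * b0 + 2))) := by
        have h5 : (1 : ℝ) / 3 ≤ Real.exp (-(2 ^ k / (3 * B0 + 8 * b0 + 2))) := h3.trans h2
        nlinarith
      have h6 := (hnn (j + k) (by omega) θ hθ').2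
      have h7 := (hmem j hj θ hθ').1
      show env p q (Psi F (j + k)) θ - _ ≤ _
      linarith
  · intro j hj θ hθ A hA
    exact (hle j hj θ (hI1 hθ) A hA).trans (hcnn j hj θ (hI1 hθ)).1

end MuntzF
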