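import Pool.Agent.Lib.MP_dde81e_full.L1

/-!
Module L2 (text 3.2, 3.3): windows.  400 b0 ≤ 2^w0, so for w0 ≤ w and cell d meeting I2 the interval dc d ± 60 dl d lies in I1.
good_small: W1: if lev θ ≥ iJ+2 for a θ ∈ st d, take θ' ∈ st d with lev θ' = iJ: lev_lip: 2^-iJ ≤ 4 dl d/64 ≤ 2^-iJ/16. W2: left side ≤ 8 L dl d.
win_cover: the dyadic interval of length 2^-max(w0, j/100) containing θ is good (iJ ≤ j/100); take its largest good ancestor.
win_len: if w0 < d.1 the parent P is not good, so dl P > 2^-iJ(P) ≥ 2^-iJ(d) (st P contains st d), dl P = 2 dl d.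
win_disj: dyadic intervals are nested or disjoint; nested windows coincide by maximality.
-/

namespace MuntzF
open Set

variable {b0 : ℝ} {c : ℕ → ℝ → ℝ} {j0 : ℕ} {B0 L : ℝ}

theorem L2_lt_div (k n : ℕ) : k < (k / 2 ^ n + 1) * 2 ^ n := by
  have h := Nat.lt_div_mul_add (a := k) (b := 2 ^ n) (by positivity)
  rw [add_mul, one_mul]
  exact h

theorem L2_dl_pos (d : ℕ × ℕ) : 0 < dl d := by
  unfold dl
  positivity

theorem L2_cell {d : ℕ × ℕ} {y : ℝ} (hy : y ∈ cell d) : |y - dc d| ≤ dl d / 2 := by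
  obtain ⟨h1, h2⟩ := hy
  unfold dc
  rw [abs_le]
  constructor <;> linarith

theorem L2_dl_le {w0 : ℕ} {d : ℕ × ℕ} (hd : w0 ≤ d.1) : dl d * 2 ^ w0 ≤ 1 := by
  unfold dl
  rw [one_div, inv_pow, inv_mul_le_iff₀ (by positivity), mul_one]
  exact pow_le_pow_right₀ (by norm_num) hd

theorem st_sub {w0 : ℕ} (hb : 2 ≤ b0) (hw0 : 400 * b0 ≤ 2 ^ w0) {d : ℕ × ℕ} (hd : w0 ≤ d.1)
    (hm : (cell d ∩ I2 b0).Nonempty) {x : ℝ} (hx : |x - dc d| ≤ 60 * dl d) : x ∈ I1 b0 := by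
  obtain ⟨y, hy, hy2⟩ := hm
  have h1 := L2_cell hy
  have h2 := L2_dl_le hd
  have h3 := L2_dl_pos d
  have h4 : dl d * (400 * b0) ≤ 1 := (mul_le_mul_of_nonneg_left hw0 h3.le).trans h2
  have hb0 : 0 < b0 := by linarith
  obtain ⟨h5, h6⟩ := hy2
  rw [abs_le] at h1 hx
  have h7 : dl d ≤ 1 / (400 * b0) := by
    rw [le_div_iff₀ (by positivity)]
    exact h4
  have h8 : x - y ≤ 61 * dl d := by linarith
  have h9 : -(61 * dl d) ≤ x - y := by linarith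
  have h10 : 61 * (1 / (400 * b0)) ≤ 1 / (6 * b0) := by
    rw [mul_one_div, div_le_div_iff₀ (by positivity) (by positivity)]
    nlinarith
  have h11 : 2 / (3 * b0) - 1 / (6 * b0) = 1 / (2 * b0) := by
    field_simp
    norm_num
  have h12 : 1 / (6 * b0) ≤ b0 / 2 := by
    rw [div_le_div_iff₀ (by positivity) (by positivity)]
    nlinarith
  constructor
  · linarith
  · linarith

theorem cell_sub_st (d : ℕ × ℕ) : cell d ⊆ st d ∧ st d ⊆ bg d := by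
  have h := L2_dl_pos d
  constructor
  · intro x hx
    have h1 := L2_cell hx
    rw [abs_le] at h1
    constructor <;> linarith
  · intro x hx
    obtain ⟨h1, h2⟩ := hx
    constructor <;> linarith

theorem iJ_le (c : ℕ → ℝ → ℝ) (L : ℝ) (j : ℕ) (d : ℕ × ℕ) {θ : ℝ} (hθ : θ ∈ st d) :
    iJ c L j d ≤ lev c L j θ := Nat.sInf_le ⟨θ, hθ, rfl⟩

theorem iJ_attained (c : ℕ → ℝ → ℝ) (L : ℝ) (j : ℕ) (d : ℕ × ℕ) : ∃ θ ∈ st d, lev c L j θ = iJ c L j d := by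
  have h := L2_dl_pos d
  have h1 : (lev c L j '' st d).Nonempty :=
    ⟨_, dc d, ⟨by linarith, by linarith⟩, rfl⟩
  obtain ⟨θ, hθ, h2⟩ := Nat.sInf_mem h1
  exact ⟨θ, hθ, h2⟩

theorem good_small (h : CSeq b0 c j0 B0 L) {j : ℕ} (hj : 2 * j0 + 100 ≤ j) {d : ℕ × ℕ}
    (hI : ∀ x, |x - dc d| ≤ 4 * dl d → x ∈ I1 b0) (hd : dl d ≤ (1 / 2) ^ iJ c L j d) : good c L j d := by
  have hp := L2_dl_pos d
  have hst : ∀ x ∈ st d, x ∈ I1 b0 := by
    intro x hx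
    obtain ⟨h1, h2⟩ := hx
    apply hI
    rw [abs_le]
    constructor <;> linarith
  constructor
  · intro θ hθ
    by_contra hcon
    push Not at hcon
    obtain ⟨θ', hθ', h1⟩ := iJ_attained c L j d
    have h2 := lev_lip h hj (hst θ hθ) (hst θ' hθ') (by omega)
    rw [h1] at h2
    have h3 : |θ - θ'| ≤ 4 * dl d := by
      obtain ⟨a1, a2⟩ := hθ
      obtain ⟨a3, a4⟩ := hθ'
      rw [abs_le]
      constructor <;> linarith
    have h4 : (0 : ℝ) < (1 / 2) ^ iJ c L j d := by positivity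
    linarith
  · have hL := h.hL
    have hjj : j0 ≤ j + 4 * iJ c L j d := by omega
    have m0 : dc d ∈ I1 b0 := hI _ (by rw [sub_self, abs_zero]; linarith)
    have e1 : |dc d - 4 * dl d - dc d| = 4 * dl d := by
      rw [show dc d - 4 * dl d - dc d = -(4 * dl d) by ring, abs_neg, abs_of_pos (by linarith)]
    have e2 : |dc d + 4 * dl d - dc d| = 4 * dl d := by
      rw [show dc d + 4 * dl d - dc d = 4 * dl d by ring, abs_of_pos (by linarith)]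
    have m1 : dc d - 4 * dl d ∈ I1 b0 := hI _ e1.le
    have m2 : dc d + 4 * dl d ∈ I1 b0 := hI _ e2.le
    have l1 := h.lip _ hjj _ m1 _ m0
    have l2 := h.lip _ hjj _ m2 _ m0
    rw [e1, abs_le] at l1
    rw [e2, abs_le] at l2
    have h5 : L * dl d ≤ L * (1 / 2) ^ iJ c L j d :=
      mul_le_mul_of_nonneg_left hd (by linarith)
    linarith [l1.1, l2.1]

theorem L2_dl_scale {a b : ℕ} (h : a ≤ b) : ((1 : ℝ) / 2) ^ a = 2 ^ (b - a) * (1 / 2) ^ b := by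
  obtain ⟨n, rfl⟩ := Nat.exists_eq_add_of_le h
  rw [Nat.add_sub_cancel_left, pow_add, one_div, inv_pow, inv_pow]
  field_simp

/-- dyadic intervals are nested or disjoint. -/
theorem dyadic_nested (d e : ℕ × ℕ) (hde : d.1 ≤ e.1) (hm : (cell d ∩ cell e).Nonempty) :
    d = anc e (e.1 - d.1) ∧ cell e ⊆ cell d := by
  obtain ⟨x, ⟨h1, h2⟩, ⟨h3, h4⟩⟩ := hm
  have hp := L2_dl_pos e
  have hs : dl d = 2 ^ (e.1 - d.1) * dl e := L2_dl_scale hde
  set n := e.1 - d.1 with hn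
  rw [hs] at h1 h2
  have h5 : (d.2 : ℝ) * 2 ^ n < e.2 + 1 := by
    have : (d.2 : ℝ) * 2 ^ n * dl e < (e.2 + 1) * dl e := by
      calc (d.2 : ℝ) * 2 ^ n * dl e = d.2 * (2 ^ n * dl e) := by ring
        _ ≤ x := h1
        _ < _ := h4
    exact lt_of_mul_lt_mul_right this hp.le
  have h6 : (e.2 : ℝ) < (d.2 + 1) * 2 ^ n := by
    have : (e.2 : ℝ) * dl e < (d.2 + 1) * 2 ^ n * dl e := by
      calc (e.2 : ℝ) * dl e ≤ x := h3
        _ < (d.2 + 1) * (2 ^ n * dl e) := h2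
        _ = _ := by ring
    exact lt_of_mul_lt_mul_right this hp.le
  have h7 : d.2 * 2 ^ n < e.2 + 1 := by exact_mod_cast h5
  have h8 : e.2 < (d.2 + 1) * 2 ^ n := by exact_mod_cast h6
  have h9 : e.2 / 2 ^ n = d.2 := by
    apply Nat.div_eq_of_lt_le
    · omega
    · exact h8
  constructor
  · apply Prod.ext
    · show d.1 = e.1 - n
      omega
    · show d.2 = e.2 / 2 ^ n
      rw [h9]
  · intro y hy
    obtain ⟨h10, h11⟩ := hy
    have h12 : (d.2 : ℝ) * 2 ^ n ≤ e.2 := by exact_mod_cast Nat.lt_succ_iff.1 h7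
    have h13 : (e.2 : ℝ) + 1 ≤ (d.2 + 1) * 2 ^ n := by exact_mod_cast h8
    constructor
    · rw [hs]
      calc (d.2 : ℝ) * (2 ^ n * dl e) = d.2 * 2 ^ n * dl e := by ring
        _ ≤ e.2 * dl e := mul_le_mul_of_nonneg_right h12 hp.le
        _ ≤ y := h10
    · rw [hs]
      calc y < (e.2 + 1) * dl e := h11
        _ ≤ (d.2 + 1) * 2 ^ n * dl e := mul_le_mul_of_nonneg_right h13 hp.le
        _ = _ := by ring

theorem anc_sub (d : ℕ × ℕ) {n : ℕ} (hn : n ≤ d.1) :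
    cell d ⊆ cell (anc d n) ∧ st d ⊆ st (anc d n) ∧ dl (anc d n) = 2 ^ n * dl d := by
  have hp := L2_dl_pos d
  have hs : dl (anc d n) = 2 ^ n * dl d := by
    have := L2_dl_scale (Nat.sub_le d.1 n)
    have h2 : d.1 - (d.1 - n) = n := by omega
    rw [h2] at this
    exact this
  have q1 : d.2 / 2 ^ n * 2 ^ n ≤ d.2 := Nat.div_mul_le_self _ _
  have q2 : d.2 < (d.2 / 2 ^ n + 1) * 2 ^ n := L2_lt_div d.2 n
  have r1 : ((d.2 / 2 ^ n : ℕ) : ℝ) * 2 ^ n ≤ d.2 := by exact_mod_cast q1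
  have r2 : (d.2 : ℝ) + 1 ≤ (((d.2 / 2 ^ n : ℕ) : ℝ) + 1) * 2 ^ n := by exact_mod_cast q2
  have r3 : (1 : ℝ) ≤ 2 ^ n := one_le_pow₀ (by norm_num)
  have a1 := mul_le_mul_of_nonneg_right r1 hp.le
  have a2 := mul_le_mul_of_nonneg_right r2 hp.le
  have a3 := mul_le_mul_of_nonneg_right r3 hp.le
  refine ⟨?_, ?_, hs⟩
  · intro y hy
    obtain ⟨h10, h11⟩ := hy
    constructor
    · rw [hs]
      show ((d.2 / 2 ^ n : ℕ) : ℝ) * (2 ^ n * dl d) ≤ y
      linarith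
    · rw [hs]
      show y < (((d.2 / 2 ^ n : ℕ) : ℝ) + 1) * (2 ^ n * dl d)
      linarith
  · intro y hy
    obtain ⟨h10, h11⟩ := hy
    unfold dc at h10 h11
    constructor
    · unfold dc
      rw [hs]
      show (((d.2 / 2 ^ n : ℕ) : ℝ) + 1 / 2) * (2 ^ n * dl d) - 2 * (2 ^ n * dl d) ≤ y
      linarith
    · unfold dc
      rw [hs]
      show y ≤ (((d.2 / 2 ^ n : ℕ) : ℝ) + 1 / 2) * (2 ^ n * dl d) + 2 * (2 ^ n * dl d)
      linarith

theorem L2_anc_anc (d : ℕ × ℕ) (n m : ℕ) : anc (anc d n) m = anc d (n + m) := by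
  unfold anc
  rw [Nat.div_div_eq_div_mul, ← pow_add, Nat.sub_sub]

theorem L2_iJ_le (h : CSeq b0 c j0 B0 L) (j : ℕ) (d : ℕ × ℕ) : iJ c L j d ≤ j / 100 := by
  obtain ⟨θ, _, h1⟩ := iJ_attained c L j d
  rw [← h1]
  exact lev_le c L j θ

theorem win_cover (h : CSeq b0 c j0 B0 L) {w0 : ℕ} (hw0 : 400 * b0 ≤ 2 ^ w0) {j : ℕ}
    (hj : 2 * j0 + 100 ≤ j) {θ : ℝ} (hθ : θ ∈ I2 b0) : ∃ d, IsWin b0 c L w0 j d ∧ θ ∈ cell d := by
  classical
  have hb := h.hb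
  have hb0 : 0 < b0 := by linarith
  have hθ0 : 0 ≤ θ := le_trans (by positivity) hθ.1
  set W := max w0 (j / 100) with hW
  set d : ℕ × ℕ := (W, ⌊θ * 2 ^ W⌋₊) with hd
  have hcell : θ ∈ cell d := by
    have h1 : (0 : ℝ) ≤ θ * 2 ^ W := by positivity
    have h2 := Nat.floor_le h1
    have h3 := Nat.lt_floor_add_one (θ * 2 ^ W)
    have h4 : θ = θ * 2 ^ W * (1 / 2) ^ W := by
      rw [one_div, inv_pow]
      field_simp
    have h5 : (0 : ℝ) < (1 / 2) ^ W := by positivity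
    constructor
    · show ((⌊θ * 2 ^ W⌋₊ : ℕ) : ℝ) * (1 / 2) ^ W ≤ θ
      calc _ ≤ θ * 2 ^ W * (1 / 2) ^ W := mul_le_mul_of_nonneg_right h2 h5.le
        _ = θ := h4.symm
    · show θ < (((⌊θ * 2 ^ W⌋₊ : ℕ) : ℝ) + 1) * (1 / 2) ^ W
      calc θ = θ * 2 ^ W * (1 / 2) ^ W := h4
        _ < _ := mul_lt_mul_of_pos_right h3 h5
  have hmeet : (cell d ∩ I2 b0).Nonempty := ⟨θ, hcell, hθ⟩
  have hw : w0 ≤ d.1 := le_max_left _ _
  have hgood : good c L j d := by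
    apply good_small h hj
    · intro x hx
      apply st_sub hb hw0 hw hmeet
      have := L2_dl_pos d
      linarith
    · have h1 : iJ c L j d ≤ W := (L2_iJ_le h j d).trans (le_max_right _ _)
      show (1 / 2 : ℝ) ^ W ≤ _
      exact pow_le_pow_of_le_one (by norm_num) (by norm_num) h1
  have h0 : anc d 0 = d := by
    unfold anc
    simp
  set n := Nat.findGreatest (fun n => good c L j (anc d n)) (W - w0) with hn
  have hn1 : n ≤ W - w0 := Nat.findGreatest_le _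
  have hn2 : good c L j (anc d n) :=
    Nat.findGreatest_spec (P := fun n => good c L j (anc d n)) (Nat.zero_le _) (by
      show good c L j (anc d 0)
      rw [h0]
      exact hgood)
  have hnd : n ≤ d.1 := by
    show n ≤ W
    omega
  have hsub := anc_sub d hnd
  have hWw : w0 ≤ W := hw
  refine ⟨anc d n, ⟨?_, ⟨θ, hsub.1 hcell, hθ⟩, hn2, ?_⟩, hsub.1 hcell⟩
  · show w0 ≤ W - n
    omega
  · intro m hm1 hm2
    rw [L2_anc_anc]
    have hm3 : w0 + m ≤ W - n := hm2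
    exact Nat.findGreatest_is_greatest (P := fun n => good c L j (anc d n)) (n := W - w0)
      (by rw [← hn]; omega) (by omega)

theorem L2_disj {w0 j : ℕ} {d e : ℕ × ℕ} (hd : IsWin b0 c L w0 j d) (he : IsWin b0 c L w0 j e)
    (hde : d.1 ≤ e.1) (hm : (cell d ∩ cell e).Nonempty) : d = e := by
  obtain ⟨h1, -⟩ := dyadic_nested d e hde hm
  rcases Nat.eq_zero_or_pos (e.1 - d.1) with h2 | h2
  · rw [h2] at h1
    rw [h1]
    unfold anc
    simp
  · exfalso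
    have h3 := he.2.2.2 (e.1 - d.1) h2 (by have := hd.1; omega)
    rw [← h1] at h3
    exact h3 hd.2.2.1

theorem win_disj {w0 j : ℕ} {d e : ℕ × ℕ} (hd : IsWin b0 c L w0 j d) (he : IsWin b0 c L w0 j e)
    (hm : (cell d ∩ cell e).Nonempty) : d = e := by
  rcases le_total d.1 e.1 with h | h
  · exact L2_disj hd he h hm
  · rw [Set.inter_comm] at hm
    exact (L2_disj he hd h hm).symm

theorem win_len (h : CSeq b0 c j0 B0 L) {w0 : ℕ} (hw0 : 400 * b0 ≤ 2 ^ w0) {j : ℕ}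
    (hj : 2 * j0 + 100 ≤ j) {d : ℕ × ℕ} (hd : IsWin b0 c L w0 j d) :
    d.1 = w0 ∨ (d.1 ≤ iJ c L j d ∧ (1 / 2 : ℝ) ^ iJ c L j d ≤ 2 * dl d) := by
  obtain ⟨h1, h2, h3, h4⟩ := hd
  rcases Nat.eq_or_lt_of_le h1 with h5 | h5
  · exact Or.inl h5.symm
  · right
    have h6 := h4 1 le_rfl h5
    obtain ⟨s1, s2, s3⟩ := anc_sub d (n := 1) (by omega)
    have hmeet : (cell (anc d 1) ∩ I2 b0).Nonempty := by
      obtain ⟨y, hy1, hy2⟩ := h2
      exact ⟨y, s1 hy1, hy2⟩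
    have hP : w0 ≤ (anc d 1).1 := by
      show w0 ≤ d.1 - 1
      omega
    have h7 : ¬ dl (anc d 1) ≤ (1 / 2) ^ iJ c L j (anc d 1) := by
      intro h8
      apply h6
      apply good_small h hj _ h8
      intro x hx
      apply st_sub h.hb hw0 hP hmeet
      have := L2_dl_pos (anc d 1)
      linarith
    push Not at h7
    have h8 : iJ c L j (anc d 1) ≤ iJ c L j d := by
      obtain ⟨θ, hθ, h9⟩ := iJ_attained c L j d
      rw [← h9]
      exact iJ_le c L j _ (s2 hθ)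
    have h9 : (1 / 2 : ℝ) ^ iJ c L j d ≤ (1 / 2) ^ iJ c L j (anc d 1) :=
      pow_le_pow_of_le_one (by norm_num) (by norm_num) h8
    have h10 : (1 / 2 : ℝ) ^ iJ c L j d < 2 * dl d := by
      rw [s3, pow_one] at h7
      linarith
    refine ⟨?_, h10.le⟩
    by_contra h11
    push Not at h11
    have h12 : 2 * dl d ≤ (1 / 2 : ℝ) ^ iJ c L j d := by
      have h13 : 2 * dl d = (1 / 2 : ℝ) ^ (d.1 - 1) := by
        have h14 : (1 / 2 : ℝ) ^ d.1 = (1 / 2) ^ (d.1 - 1) * (1 / 2) := by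
          rw [← pow_succ]
          congr 1
          omega
        unfold dl
        rw [h14]
        ring
      rw [h13]
      exact pow_le_pow_of_le_one (by norm_num) (by norm_num) (by omega)
    linarith

theorem L2_snd {w0 j : ℕ} (hb : 2 ≤ b0) {d : ℕ × ℕ} (hd : IsWin b0 c L w0 j d) :
    (d.2 : ℝ) ≤ 3 * b0 / 2 * 2 ^ d.1 := by
  obtain ⟨-, ⟨y, ⟨h1, -⟩, ⟨-, h2⟩⟩, -, -⟩ := hd
  have h3 : (d.2 : ℝ) * (1 / 2) ^ d.1 ≤ 3 * b0 / 2 := h1.trans h2
  rw [one_div, inv_pow] at h3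
  rwa [mul_inv_le_iff₀ (by positivity)] at h3

theorem win_fin (h : CSeq b0 c j0 B0 L) {w0 : ℕ} (hw0 : 400 * b0 ≤ 2 ^ w0) {j : ℕ}
    (hj : 2 * j0 + 100 ≤ j) : {d | IsWin b0 c L w0 j d}.Finite := by
  set W := max w0 (j / 100) with hW
  set K := ⌈3 * b0 / 2 * 2 ^ W⌉₊ with hK
  refine Set.Finite.subset (Finset.finite_toSet (Finset.range (W + 1) ×ˢ Finset.range (K + 1))) ?_
  intro d hd
  have h1 : d.1 ≤ W := by
    rcases win_len h hw0 hj hd with h2 | ⟨h2, -⟩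
    · rw [h2]
      exact le_max_left _ _
    · exact (h2.trans (L2_iJ_le h j d)).trans (le_max_right _ _)
  have h2 : (d.2 : ℝ) ≤ 3 * b0 / 2 * 2 ^ W := by
    refine (L2_snd h.hb hd).trans ?_
    apply mul_le_mul_of_nonneg_left
    · exact pow_le_pow_right₀ (by norm_num) h1
    · have := h.hb
      linarith
  have h3 : d.2 ≤ K := by
    have h4 : (d.2 : ℝ) ≤ (K : ℝ) := h2.trans (Nat.le_ceil _)
    exact_mod_cast h4
  rw [Finset.coe_product]
  exact ⟨by simpa using Nat.lt_succ_iff.2 h1, by simpa using Nat.lt_succ_iff.2 h3⟩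

theorem win_lev {w0 j : ℕ} {d : ℕ × ℕ} (hd : IsWin b0 c L w0 j d) {θ : ℝ} (hθ : θ ∈ st d) :
    iJ c L j d ≤ lev c L j θ ∧ lev c L j θ ≤ iJ c L j d + 1 :=
  ⟨iJ_le c L j d hθ, hd.2.2.1.1 θ hθ⟩

/-- number of windows of a given length at a given scale. -/
theorem win_card (hb : 2 ≤ b0) {w0 : ℕ} (hw0 : 400 * b0 ≤ 2 ^ w0) {j w : ℕ} (E : Finset (ℕ × ℕ))
    (hE : ∀ d ∈ E, IsWin b0 c L w0 j d ∧ d.1 = w) : (E.card : ℝ) ≤ 2 * b0 * 2 ^ w := by
  have h1 : E.card ≤ (Finset.range (⌊3 * b0 / 2 * 2 ^ w⌋₊ + 1)).card := by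
    apply Finset.card_le_card_of_injOn Prod.snd
    · intro d hd
      obtain ⟨h2, h3⟩ := hE d hd
      have h4 := L2_snd hb h2
      rw [h3] at h4
      have h5 : d.2 ≤ ⌊3 * b0 / 2 * 2 ^ w⌋₊ := Nat.le_floor h4
      simpa using Nat.lt_succ_iff.2 h5
    · intro d hd e he hde
      exact Prod.ext ((hE d hd).2.trans (hE e he).2.symm) hde
  rw [Finset.card_range] at h1
  have h2 : ((⌊3 * b0 / 2 * 2 ^ w⌋₊ : ℕ) : ℝ) ≤ 3 * b0 / 2 * 2 ^ w :=
    Nat.floor_le (by positivity)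
  have h3 : (1 : ℝ) ≤ 2 ^ w := one_le_pow₀ (by norm_num)
  have h4 : (E.card : ℝ) ≤ ((⌊3 * b0 / 2 * 2 ^ w⌋₊ : ℕ) : ℝ) + 1 := by exact_mod_cast h1
  nlinarith

end MuntzF
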