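import Pool.Agent.Lib.MP_dde81e_full.BDefs
import Pool.Agent.Lib.MP_dde81e_full.A3
import Pool.Agent.Lib.MP_dde81e_full.L2

/-!
Module B6 (text 4.1, box lemma).  i = iJ, h = 2^-i.  α + βθ = chord of c_(j+4i) over bg d (through the end points) minus err, err = C1 exp(-2^(4i-s0)/C1) ≤ h for i large.
up: Env.low at scale j+s0, k = 4i - s0, θ = Re w/Re z ∈ bg d; chord ≤ c by concavity (α Re z + β Re w = Re z (α+βθ)).
lo: c - chord is concave, zero at the ends of bg d and ≤ 4L h at the centre (W2), so ≤ 8Lh on bg d.  A1 ≥ 8L+1.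
pt: by contradiction.  Suppose ‖F(z1,w1)‖ < exp(-(α Re z1+β Re w1) - A1 h x0) on the whole set.  Let ρ' = 2^(j-4i); claim PR F ρ' θ0 (α+βθ0+c1 A1 h), c1 from A3.bar: for ‖z‖,‖w‖ ≤ ρ', Re w = θ0 Re z > 0, put
 g(s) = F(s + i Im z, θ0 s + i Im w) exp(α(s + i Im z) + β(θ0 s + i Im w)): ‖g‖ ≤ 1 on {Re s ≥ 0, ‖s‖ ≤ 64 x0} (by up; on Re s = 0 by ‖F‖ ≤ 1; 64·16·2^j(1+2b0)+.. ≤ 2^(j+s0)), and on closedBall x0 (x0/4) the point is in the
 set ((1+θ0) 2^(j-4i) ≤ u x0/8 since u ≥ h^3, 2^-4i = h^4, h small), so ‖g‖ ≤ exp(-A1 h x0).  bar (R = x0, m = A1 h x0) at s = Re z ≤ 2^(j-4i) ≤ x0/8: ‖g(Re z)‖ ≤ exp(-c1 A1 h Re z).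
 Env.up at scale j-4i ≥ j0: α+βθ0+c1A1h ≤ c_(j-4i)(θ0) ≤ c_(j+4i)(θ0) + 512 L h (lev ≥ i on st d) ≤ α+βθ0 + (8L+1)h + 512Lh.  Contradiction if c1 A1 > 520L+1 (choose A1).
-/

namespace MuntzF
open Set Metric

/-- chord of a concave function. -/
theorem B6_chord {b0 a b : ℝ} {m : ℝ → ℝ} (hm : ConcaveOn ℝ (I1 b0) m) (hab : a < b)
    (hI : ∀ x ∈ Icc a b, x ∈ I1 b0) {θ : ℝ} (hθ : θ ∈ Icc a b) :
    m a + (m b - m a) / (b - a) * (θ - a) ≤ m θ := by
  have hba : 0 < b - a := by linarith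
  obtain ⟨h1, h2⟩ := hθ
  have h := hm.2 (hI a ⟨le_rfl, hab.le⟩) (hI b ⟨hab.le, le_rfl⟩)
    (show 0 ≤ (b - θ) / (b - a) from div_nonneg (by linarith) hba.le)
    (show 0 ≤ (θ - a) / (b - a) from div_nonneg (by linarith) hba.le)
    (by field_simp; ring)
  simp only [smul_eq_mul] at h
  have e1 : (b - θ) / (b - a) * a + (θ - a) / (b - a) * b = θ := by
    field_simp
    ring
  rw [e1] at h
  calc m a + (m b - m a) / (b - a) * (θ - a)
      = (b - θ) / (b - a) * m a + (θ - a) / (b - a) * m b := by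
        field_simp
        ring
    _ ≤ m θ := h

/-- a concave function exceeds its chord by at most twice the excess at the centre. -/
theorem B6_excess {b0 a b : ℝ} {m : ℝ → ℝ} (hm : ConcaveOn ℝ (I1 b0) m) (hab : a < b)
    (hI : ∀ x ∈ Icc a b, x ∈ I1 b0) {E : ℝ}
    (hE : m ((a + b) / 2) - (m a + m b) / 2 ≤ E) {θ : ℝ} (hθ : θ ∈ Icc a b) :
    m θ ≤ m a + (m b - m a) / (b - a) * (θ - a) + 2 * E := by
  have hba : 0 < b - a := by linarith
  obtain ⟨h1, h2⟩ := hθ
  have hr : a + b - θ ∈ Icc a b := ⟨by linarith, by linarith⟩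
  have c1 := B6_chord hm hab hI hr
  have h := hm.2 (hI θ ⟨h1, h2⟩) (hI (a + b - θ) hr)
    (show (0 : ℝ) ≤ 1 / 2 by norm_num) (show (0 : ℝ) ≤ 1 / 2 by norm_num) (by norm_num)
  simp only [smul_eq_mul] at h
  have e1 : 1 / 2 * θ + 1 / 2 * (a + b - θ) = (a + b) / 2 := by ring
  rw [e1] at h
  have e2 : (m b - m a) / (b - a) * (a + b - θ - a) = (m b - m a) - (m b - m a) / (b - a) * (θ - a) := by
    field_simp
    ring
  rw [e2] at c1
  linarith

theorem B6_err {C1 : ℝ} (hC : 1 ≤ C1) {i s0 : ℕ} (h1 : s0 ≤ i) (h2 : C1 ≤ 2 ^ i) :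
    C1 * Real.exp (-(2 ^ (4 * i - s0) / C1)) ≤ hh i := by
  have h3 : (2 : ℝ) ^ i * C1 ≤ Real.exp (2 ^ (4 * i - s0) / C1) := by
    have h4 : (2 : ℝ) ^ (4 * i - s0) / C1 ≤ Real.exp (2 ^ (4 * i - s0) / C1) := by
      have := Real.add_one_le_exp ((2 : ℝ) ^ (4 * i - s0) / C1)
      linarith
    refine le_trans ?_ h4
    rw [le_div_iff₀ (by linarith)]
    calc (2 : ℝ) ^ i * C1 * C1 ≤ 2 ^ i * 2 ^ i * 2 ^ i := by gcongr
      _ = 2 ^ (3 * i) := by ring
      _ ≤ 2 ^ (4 * i - s0) := pow_le_pow_right₀ (by norm_num) (by omega)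
  rw [Real.exp_neg]
  unfold hh
  rw [one_div, inv_pow]
  have hp : (0 : ℝ) < 2 ^ i := by positivity
  rw [← div_eq_mul_inv, div_le_iff₀ (Real.exp_pos _), ← div_eq_inv_mul, le_div_iff₀ hp]
  linarith

theorem box_exists {F : ℂ × ℂ → ℂ} {b0 : ℝ} {c : ℕ → ℝ → ℝ} {j0 : ℕ} {B0 L C1 : ℝ}
    (hE : Env F b0 c j0 B0 L C1) {s0 : ℕ} (hs0 : 2 ^ 14 * b0 ≤ 2 ^ s0) :
    ∃ (A1 : ℝ) (is : ℕ), 1 ≤ A1 ∧ ∀ (j : ℕ) (d : ℕ × ℕ), 2 * j0 + 100 ≤ j →
      (∀ x, |x - dc d| ≤ 4 * dl d → x ∈ I1 b0) → good c L j d → is ≤ iJ c L j d →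
      ∃ α β : ℝ, Box F c L s0 A1 j d α β := by
  have hcs := hE.cs
  have hb := hcs.hb
  have hL := hcs.hL
  have hC1 := hE.hC1
  obtain ⟨c1, hc1, hbar⟩ := bar
  obtain ⟨N1, hN1⟩ := pow_unbounded_of_one_lt (C1 + 16 * (1 + 2 * b0)) (one_lt_two : (1 : ℝ) < 2)
  obtain ⟨A1, hA1⟩ : ∃ A1 : ℝ, A1 = max (8 * L + 1) ((520 * L + 2) / c1) := ⟨_, rfl⟩
  have hA1a : 8 * L + 1 ≤ A1 := by rw [hA1]; exact le_max_left _ _
  have hA1b : 520 * L + 2 ≤ c1 * A1 := by
    have : (520 * L + 2) / c1 ≤ A1 := by rw [hA1]; exact le_max_right _ _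
    rw [div_le_iff₀ hc1] at this
    linarith
  have hA1p : 0 < A1 := by linarith
  refine ⟨A1, max s0 N1, by linarith, ?_⟩
  intro j d hj hI hg hi
  obtain ⟨i, hidef⟩ : ∃ i, i = iJ c L j d := ⟨_, rfl⟩
  rw [← hidef] at hi
  have hi1 : s0 ≤ i := (le_max_left _ _).trans hi
  have hi2 : N1 ≤ i := (le_max_right _ _).trans hi
  have h2i : C1 + 16 * (1 + 2 * b0) ≤ 2 ^ i :=
    hN1.le.trans (pow_le_pow_right₀ (by norm_num) hi2)
  have hi3 : i ≤ j / 100 := by
    obtain ⟨θ, _, h2⟩ := iJ_attained c L j d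
    rw [hidef, ← h2]
    exact lev_le c L j θ
  have hdl := L2_dl_pos d
  obtain ⟨a, ha⟩ : ∃ a, a = dc d - 4 * dl d := ⟨_, rfl⟩
  obtain ⟨b, hbd⟩ : ∃ b, b = dc d + 4 * dl d := ⟨_, rfl⟩
  have hab : a < b := by linarith
  have hbg : bg d = Icc a b := by
    unfold bg
    rw [ha, hbd]
  have hIab : ∀ x ∈ Icc a b, x ∈ I1 b0 := by
    intro x hx
    apply hI
    rw [abs_le]
    constructor <;> linarith [hx.1, hx.2]
  have hconc : ConcaveOn ℝ (I1 b0) (c (j + 4 * i)) := hcs.conc _ (by omega)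
  set m : ℝ → ℝ := c (j + 4 * i) with hm
  have hhp : 0 < hh i := by unfold hh; positivity
  have herr : C1 * Real.exp (-(2 ^ (4 * i - s0) / C1)) ≤ hh i := B6_err hC1 hi1 (by linarith)
  obtain ⟨err, herrd⟩ : ∃ err, err = C1 * Real.exp (-(2 ^ (4 * i - s0) / C1)) := ⟨_, rfl⟩
  rw [← herrd] at herr
  have hgc : m ((a + b) / 2) - (m a + m b) / 2 ≤ 4 * L * hh i := by
    have h := hg.2
    rw [← hidef] at h
    have e : (a + b) / 2 = dc d := by rw [ha, hbd]; ring
    rw [e, ha, hbd]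
    unfold hh
    linarith
  obtain ⟨β, hβ⟩ : ∃ β, β = (m b - m a) / (b - a) := ⟨_, rfl⟩
  obtain ⟨α, hα⟩ : ∃ α, α = m a - β * a - err := ⟨_, rfl⟩
  have hlow : ∀ θ ∈ Icc a b, α + β * θ ≤ m θ - err := by
    intro θ hθ
    have := B6_chord hconc hab hIab hθ
    rw [← hβ] at this
    rw [hα]
    linarith
  have hupp : ∀ θ ∈ Icc a b, m θ ≤ α + β * θ + (8 * L + 1) * hh i := by
    intro θ hθ
    have := B6_excess hconc hab hIab hgc hθ
    rw [← hβ] at this
    rw [hα]
    linarith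
  have herr0 : 0 ≤ err := by
    rw [herrd]
    positivity
  -- the upper bound of `F`
  have hup : ∀ z w : ℂ, ‖z‖ ≤ 2 ^ (j + s0) → ‖w‖ ≤ 2 ^ (j + s0) → 0 < z.re →
      w.re / z.re ∈ bg d → ‖F (z, w)‖ ≤ Real.exp (-(α * z.re + β * w.re)) := by
    intro z w hz hw hz0 hθ
    rw [hbg] at hθ
    have h1 := hE.low (j + s0) (4 * i - s0) (by omega) (w.re / z.re) (hIab _ hθ) z w hz hw hz0
      (by field_simp)
    refine h1.trans (Real.exp_le_exp.2 ?_)
    have e : j + s0 + (4 * i - s0) = j + 4 * i := by omega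
    rw [e, ← herrd]
    have h2 := hlow _ hθ
    have h3 : α * z.re + β * w.re = (α + β * (w.re / z.re)) * z.re := by
      field_simp
    rw [h3]
    have := mul_le_mul_of_nonneg_right h2 hz0.le
    linarith
  have hstbg : st d ⊆ bg d := (cell_sub_st d).2
  refine ⟨α, β, ⟨hup, ?_, ?_⟩⟩
  · intro θ hθ
    rw [hbg] at hθ
    rw [← hidef]
    constructor
    · have h1 := hupp θ hθ
      have h2 : (8 * L + 1) * hh i ≤ A1 * hh i := mul_le_mul_of_nonneg_right hA1a hhp.le
      show m θ - A1 * hh i ≤ α + β * θ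
      linarith
    · have h1 := hlow θ hθ
      show α + β * θ ≤ m θ
      linarith
  · intro x0 θ0 u hx0 hx1 hθ0 hu1 hu2
    rw [← hidef] at hu1 ⊢
    by_contra hcon
    push Not at hcon
    have hθb := hstbg hθ0
    have hθI : θ0 ∈ I1 b0 := by
      rw [hbg] at hθb
      exact hIab _ hθb
    have hb0 : 0 < b0 := by linarith
    have hθ1 : 0 < θ0 := lt_of_lt_of_le (by positivity) hθI.1
    have hθ2 : θ0 ≤ 2 * b0 := hθI.2
    have h2j : (0 : ℝ) < 2 ^ j := by positivity
    have hx0p : 0 < x0 := by linarith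
    -- ρ' = 2^(j-4i) = 2^j h^4
    have h4i : 4 * i ≤ j := by omega
    have hρ : (2 : ℝ) ^ (j - 4 * i) = 2 ^ j * hh i ^ 4 := by
      unfold hh
      rw [one_div, inv_pow, inv_pow, ← pow_mul, mul_comm i 4]
      rw [pow_sub₀ _ (by norm_num) h4i]
    have hh1 : hh i * (16 * (1 + 2 * b0)) ≤ 1 := by
      unfold hh
      rw [one_div, inv_pow, inv_mul_le_iff₀ (by positivity), mul_one]
      linarith
    have hh2 : hh i ≤ 1 / 80 := by nlinarith
    have hρu : (1 + 2 * b0) * 2 ^ (j - 4 * i) ≤ u * x0 / 8 := by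
      rw [hρ]
      have hh3 : 0 < hh i ^ 3 := by positivity
      have h5 : hh i ^ 3 * (2 ^ j / 2) ≤ u * x0 := by
        apply mul_le_mul hu1 hx0 (by positivity)
        linarith
      calc (1 + 2 * b0) * (2 ^ j * hh i ^ 4) = (hh i * (16 * (1 + 2 * b0))) * (hh i ^ 3 * (2 ^ j / 2)) / 8 := by ring
        _ ≤ 1 * (hh i ^ 3 * (2 ^ j / 2)) / 8 := by gcongr
        _ ≤ u * x0 / 8 := by linarith
    have hρx : (2 : ℝ) ^ (j - 4 * i) ≤ x0 / 12 := by
      rw [hρ]
      have : hh i ^ 4 ≤ (1 / 80) ^ 4 := by gcongr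
      have h6 : (2 : ℝ) ^ j * hh i ^ 4 ≤ 2 ^ j * (1 / 80) ^ 4 := by gcongr
      linarith
    have hρ0 : (0 : ℝ) < 2 ^ (j - 4 * i) := by positivity
    have h11 : (2 : ℝ) ^ 11 ≤ 2 ^ s0 := by linarith
    -- the key claim
    have claim : PR F (2 ^ (j - 4 * i)) θ0 (α + β * θ0 + c1 * (A1 * hh i)) := by
      intro z w hz hw hz0 hwz
      set g : ℂ → ℂ := fun s => F (s + Complex.I * z.im, θ0 * s + Complex.I * w.im) *
        Complex.exp (α * (s + Complex.I * z.im) + β * (θ0 * s + Complex.I * w.im)) with hgdef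
      have re1 : ∀ s : ℂ, (s + Complex.I * z.im).re = s.re := by
        intro s
        simp
      have re2 : ∀ s : ℂ, ((θ0 : ℂ) * s + Complex.I * w.im).re = θ0 * s.re := by
        intro s
        simp
      have hgn : ∀ s : ℂ, ‖g s‖ = ‖F (s + Complex.I * z.im, θ0 * s + Complex.I * w.im)‖ *
          Real.exp ((α + β * θ0) * s.re) := by
        intro s
        simp only [hgdef]
        rw [norm_mul, Complex.norm_exp]
        congr 2
        rw [Complex.add_re, Complex.re_ofReal_mul, Complex.re_ofReal_mul, re1, re2]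
        ring
      have hImz : ‖Complex.I * (z.im : ℂ)‖ ≤ 2 ^ (j - 4 * i) := by
        rw [norm_mul, Complex.norm_I, one_mul, Complex.norm_real, Real.norm_eq_abs]
        exact (Complex.abs_im_le_norm z).trans hz
      have hImw : ‖Complex.I * (w.im : ℂ)‖ ≤ 2 ^ (j - 4 * i) := by
        rw [norm_mul, Complex.norm_I, one_mul, Complex.norm_real, Real.norm_eq_abs]
        exact (Complex.abs_im_le_norm w).trans hw
      have hga : AnalyticOnNhd ℂ g Muntz.RH := by
        have ho : IsOpen {s : ℂ | -1 < s.re ∧ -1 < θ0 * s.re} := by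
          refine (isOpen_lt continuous_const Complex.continuous_re).inter ?_
          exact isOpen_lt continuous_const (continuous_const.mul Complex.continuous_re)
        have hd : DifferentiableOn ℂ g {s : ℂ | -1 < s.re ∧ -1 < θ0 * s.re} := by
          refine DifferentiableOn.mul ?_ ?_
          · refine hE.hF.diff.comp (f := fun s : ℂ => (s + Complex.I * z.im, (θ0 : ℂ) * s + Complex.I * w.im)) ?_ ?_
            · refine DifferentiableOn.prodMk ?_ ?_
              · exact (differentiable_id.add_const _).differentiableOn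
              · exact ((differentiable_id.const_mul _).add_const _).differentiableOn
            · intro s hs
              show -1 < (s + Complex.I * z.im).re ∧ -1 < ((θ0 : ℂ) * s + Complex.I * w.im).re
              rw [re1, re2]
              exact hs
          · refine (Complex.differentiable_exp.comp ?_).differentiableOn
            exact ((differentiable_id.add_const _).const_mul _).add
              (((differentiable_id.const_mul _).add_const _).const_mul _)
        have ha2 := hd.analyticOnNhd ho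
        intro s hs
        apply ha2 s
        have hsr : 0 ≤ s.re := hs
        refine ⟨by linarith, ?_⟩
        have : 0 ≤ θ0 * s.re := by positivity
        linarith
      have hg1 : ∀ s ∈ Muntz.RH, ‖s‖ ≤ 64 * x0 → ‖g s‖ ≤ 1 := by
        intro s hs hs2
        have hsr : 0 ≤ s.re := hs
        rw [hgn]
        rcases hsr.eq_or_lt with h0 | h0
        · rw [← h0, mul_zero, Real.exp_zero, mul_one]
          apply hE.hF.bound
          · rw [re1, ← h0]
            norm_num
          · rw [re2, ← h0]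
            norm_num
        · have k1 : ‖s + Complex.I * z.im‖ ≤ 2 ^ (j + s0) := by
            calc ‖s + Complex.I * z.im‖ ≤ ‖s‖ + ‖Complex.I * (z.im : ℂ)‖ := norm_add_le _ _
              _ ≤ 64 * x0 + x0 / 12 := by linarith
              _ ≤ 2 ^ 11 * 2 ^ j := by linarith
              _ ≤ 2 ^ s0 * 2 ^ j := mul_le_mul_of_nonneg_right h11 h2j.le
              _ = 2 ^ (j + s0) := by ring
          have k2 : ‖(θ0 : ℂ) * s + Complex.I * w.im‖ ≤ 2 ^ (j + s0) := by
            calc ‖(θ0 : ℂ) * s + Complex.I * w.im‖ ≤ ‖(θ0 : ℂ) * s‖ + ‖Complex.I * (w.im : ℂ)‖ :=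
                  norm_add_le _ _
              _ = θ0 * ‖s‖ + ‖Complex.I * (w.im : ℂ)‖ := by
                  rw [norm_mul, Complex.norm_real, Real.norm_eq_abs, abs_of_pos hθ1]
              _ ≤ (2 * b0) * (64 * x0) + x0 / 12 := by
                  have : θ0 * ‖s‖ ≤ (2 * b0) * (64 * x0) := by gcongr
                  linarith
              _ ≤ (2 * b0) * (64 * (16 * 2 ^ j)) + (16 * 2 ^ j) / 12 := by
                  gcongr
              _ ≤ (2 ^ 14 * b0) * 2 ^ j := by nlinarith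
              _ ≤ 2 ^ s0 * 2 ^ j := by
                gcongr
              _ = 2 ^ (j + s0) := by ring
          have k3 := hup _ _ k1 k2 (by rw [re1]; exact h0) (by
            rw [re1, re2]
            have : θ0 * s.re / s.re = θ0 := by field_simp
            rw [this]
            exact hθb)
          rw [re1, re2] at k3
          calc ‖F (s + Complex.I * z.im, θ0 * s + Complex.I * w.im)‖ * Real.exp ((α + β * θ0) * s.re)
              ≤ Real.exp (-(α * s.re + β * (θ0 * s.re))) * Real.exp ((α + β * θ0) * s.re) := by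
                gcongr
            _ = 1 := by
                rw [← Real.exp_add]
                rw [show -(α * s.re + β * (θ0 * s.re)) + (α + β * θ0) * s.re = 0 by ring]
                exact Real.exp_zero
      have hg2 : ∀ s ∈ closedBall (x0 : ℂ) (x0 / 4), ‖g s‖ ≤ Real.exp (-(A1 * hh i * x0)) := by
        intro s hs
        rw [mem_closedBall, dist_eq_norm] at hs
        have k1 : ‖s + Complex.I * z.im - x0‖ ≤ x0 / 3 := by
          calc ‖s + Complex.I * z.im - x0‖ = ‖(s - x0) + Complex.I * z.im‖ := by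
                congr 1
                ring
            _ ≤ ‖s - x0‖ + ‖Complex.I * (z.im : ℂ)‖ := norm_add_le _ _
            _ ≤ x0 / 4 + x0 / 12 := by linarith
            _ = x0 / 3 := by ring
        have k2 : ‖(θ0 : ℂ) * s + Complex.I * w.im - θ0 * (s + Complex.I * z.im)‖ ≤ u * x0 / 8 := by
          calc ‖(θ0 : ℂ) * s + Complex.I * w.im - θ0 * (s + Complex.I * z.im)‖
              = ‖Complex.I * w.im - θ0 * (Complex.I * z.im)‖ := by
                congr 1
                ring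
            _ ≤ ‖Complex.I * (w.im : ℂ)‖ + ‖(θ0 : ℂ) * (Complex.I * z.im)‖ := norm_sub_le _ _
            _ = ‖Complex.I * (w.im : ℂ)‖ + θ0 * ‖Complex.I * (z.im : ℂ)‖ := by
                rw [norm_mul (θ0 : ℂ), Complex.norm_real, Real.norm_eq_abs, abs_of_pos hθ1]
            _ ≤ 2 ^ (j - 4 * i) + (2 * b0) * 2 ^ (j - 4 * i) := by gcongr
            _ = (1 + 2 * b0) * 2 ^ (j - 4 * i) := by ring
            _ ≤ u * x0 / 8 := hρu
        have k3 := (hcon _ _ k1 k2).le
        rw [re1, re2] at k3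
        rw [hgn]
        calc ‖F (s + Complex.I * z.im, θ0 * s + Complex.I * w.im)‖ * Real.exp ((α + β * θ0) * s.re)
            ≤ Real.exp (-(α * s.re + β * (θ0 * s.re)) - A1 * hh i * x0) *
                Real.exp ((α + β * θ0) * s.re) := by
              gcongr
          _ = Real.exp (-(A1 * hh i * x0)) := by
              rw [← Real.exp_add]
              congr 1
              ring
      have hfin := hbar g x0 (A1 * hh i * x0) hx0p (by positivity) hga hg1 hg2 (z.re : ℂ)
        (by rw [Complex.ofReal_re]; exact hz0)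
        (by
          rw [Complex.norm_real, Real.norm_eq_abs]
          have := (Complex.abs_re_le_norm z).trans hz
          linarith)
      rw [hgn, Complex.ofReal_re] at hfin
      have e1 : (z.re : ℂ) + Complex.I * z.im = z := by
        rw [mul_comm]
        exact Complex.re_add_im z
      have e2 : (θ0 : ℂ) * (z.re : ℂ) + Complex.I * w.im = w := by
        rw [← Complex.ofReal_mul, ← hwz, mul_comm]
        exact Complex.re_add_im w
      rw [e1, e2] at hfin
      have hfin2 : ‖F (z, w)‖ ≤ Real.exp (-(c1 * (A1 * hh i * x0) * (z.re / x0))) *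
          Real.exp (-((α + β * θ0) * z.re)) := by
        rw [Real.exp_neg ((α + β * θ0) * z.re), ← div_eq_mul_inv, le_div_iff₀ (Real.exp_pos _)]
        exact hfin
      rw [← Real.exp_add] at hfin2
      refine hfin2.trans (le_of_eq ?_)
      congr 1
      field_simp
      ring
    have hupc := hE.up (j - 4 * i) (by omega) θ0 hθI _ claim
    have hlev := lev_spec hcs hj hθI (i := i) (by rw [hidef]; exact iJ_le c L j d hθ0)
    unfold ee at hlev
    have h7 : c (j + 4 * i) θ0 ≤ α + β * θ0 + (8 * L + 1) * hh i := by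
      rw [hbg] at hθb
      exact hupp θ0 hθb
    have h8 : (1 / 2 : ℝ) ^ i = hh i := rfl
    rw [h8] at hlev
    have h9 : (520 * L + 2) * hh i ≤ (c1 * A1) * hh i := mul_le_mul_of_nonneg_right hA1b hhp.le
    nlinarith

end MuntzF
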