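import Pool.Agent.Lib.MP_dde81e_full.B5
import Pool.Agent.Lib.MP_dde81e_full.B6

/-!
Module B7: existence of the context (env_exists, box_exists, choose w0, s0 large, classical choice for al, be; st_sub of L2 for the hypothesis of box_exists).
-/

namespace MuntzF
open Set

theorem ctx_exists {F : ℂ × ℂ → ℂ} (hF : Muntz.GoodF F) {b0 : ℝ} (hb : 2 ≤ b0) :
    Nonempty (Ctx F b0) := by
  obtain ⟨c, j0, B0, L, C1, hE⟩ := env_exists hF hb
  obtain ⟨w0, hw0⟩ := pow_unbounded_of_one_lt (4000 * b0) (one_lt_two (α := ℝ))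
  obtain ⟨s0, hs0⟩ := pow_unbounded_of_one_lt (2 ^ 14 * b0) (one_lt_two (α := ℝ))
  obtain ⟨A1, is, hA1, hbox⟩ := box_exists hE hs0.le
  have key : ∀ j : ℕ, ∀ d : ℕ × ℕ, ∃ α β : ℝ, 2 * j0 + 100 ≤ j → IsWin b0 c L w0 j d →
      is ≤ iJ c L j d → Box F c L s0 A1 j d α β := by
    intro j d
    by_cases h : 2 * j0 + 100 ≤ j ∧ IsWin b0 c L w0 j d ∧ is ≤ iJ c L j d
    · obtain ⟨h1, h2, h3⟩ := h
      have hb0 : 0 < b0 := by linarith
      obtain ⟨α, β, hB⟩ := hbox j d h1 (fun x hx => st_sub hb (by linarith) h2.1 h2.2.1 (by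
        have h4 := L2_dl_pos d
        linarith)) h2.2.2.1 h3
      exact ⟨α, β, fun _ _ _ => hB⟩
    · exact ⟨0, 0, fun h1 h2 h3 => absurd ⟨h1, h2, h3⟩ h⟩
  choose al be hab using key
  exact ⟨Ctx.mk c j0 B0 L C1 hE w0 hw0.le s0 hs0.le A1 hA1 is al be hab⟩

end MuntzF
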