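import Mathlib

/-!
Definitions for section 3 of the text (levels and windows).
-/

namespace MuntzF
open Set

def I0 (b0 : ℝ) : Set ℝ := Icc (1 / b0) b0
def I1 (b0 : ℝ) : Set ℝ := Icc (1 / (2 * b0)) (2 * b0)
def I2 (b0 : ℝ) : Set ℝ := Icc (2 / (3 * b0)) (3 * b0 / 2)

/-- decreasing sequences of concave functions. -/
structure CSeq (b0 : ℝ) (c : ℕ → ℝ → ℝ) (j0 : ℕ) (B0 L : ℝ) : Prop where
  hb : 2 ≤ b0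
  hL : 1 ≤ L
  hB : 0 ≤ B0
  conc : ∀ j, j0 ≤ j → ConcaveOn ℝ (I1 b0) (c j)
  nn : ∀ j, j0 ≤ j → ∀ x ∈ I1 b0, 0 ≤ c j x ∧ c j x ≤ B0
  anti : ∀ j, j0 ≤ j → ∀ x ∈ I1 b0, c (j + 1) x ≤ c j x
  lip : ∀ j, j0 ≤ j → ∀ x ∈ I1 b0, ∀ y ∈ I1 b0, |c j x - c j y| ≤ L * |x - y|

/-- `e_{j,i}`. -/
def ee (c : ℕ → ℝ → ℝ) (j i : ℕ) (θ : ℝ) : ℝ := c (j - 4 * i) θ - c (j + 4 * i) θ

open Classical in
/-- the level. -/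
noncomputable def lev (c : ℕ → ℝ → ℝ) (L : ℝ) (j : ℕ) (θ : ℝ) : ℕ :=
  Nat.findGreatest (fun i => ee c j i θ ≤ 512 * L * (1 / 2) ^ i) (j / 100)

/-- dyadic intervals `d = (w,k)`: `[k 2^-w, (k+1) 2^-w)`. -/
noncomputable def dl (d : ℕ × ℕ) : ℝ := (1 / 2) ^ d.1
noncomputable def dc (d : ℕ × ℕ) : ℝ := (d.2 + 1 / 2) * dl d
def cell (d : ℕ × ℕ) : Set ℝ := Ico (d.2 * dl d) ((d.2 + 1) * dl d)
def st (d : ℕ × ℕ) : Set ℝ := Icc (dc d - 2 * dl d) (dc d + 2 * dl d)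
def bg (d : ℕ × ℕ) : Set ℝ := Icc (dc d - 4 * dl d) (dc d + 4 * dl d)
/-- `n`-th dyadic ancestor. -/
def anc (d : ℕ × ℕ) (n : ℕ) : ℕ × ℕ := (d.1 - n, d.2 / 2 ^ n)

/-- level of a dyadic interval. -/
noncomputable def iJ (c : ℕ → ℝ → ℝ) (L : ℝ) (j : ℕ) (d : ℕ × ℕ) : ℕ := sInf (lev c L j '' st d)

/-- (W1) and (W2). -/
def good (c : ℕ → ℝ → ℝ) (L : ℝ) (j : ℕ) (d : ℕ × ℕ) : Prop :=
  (∀ θ ∈ st d, lev c L j θ ≤ iJ c L j d + 1) ∧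
  2 * c (j + 4 * iJ c L j d) (dc d) - c (j + 4 * iJ c L j d) (dc d - 4 * dl d)
    - c (j + 4 * iJ c L j d) (dc d + 4 * dl d) ≤ 8 * L * (1 / 2) ^ iJ c L j d

/-- windows: maximal good dyadic intervals (of length at most `2^-w0`) meeting `I2`. -/
def IsWin (b0 : ℝ) (c : ℕ → ℝ → ℝ) (L : ℝ) (w0 j : ℕ) (d : ℕ × ℕ) : Prop :=
  w0 ≤ d.1 ∧ (cell d ∩ I2 b0).Nonempty ∧ good c L j d ∧
    ∀ n, 1 ≤ n → w0 + n ≤ d.1 → ¬ good c L j (anc d n)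

end MuntzF
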