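import Pool.Agent.Lib.MP_dde81e_full.Defs
import Pool.Agent.Lib.MP_dde81e_full.LDefs

/-!
Definitions for sections 2, 4, 5, 6, 10 of the text.
-/

namespace MuntzF
open Set Metric MeasureTheory
open scoped ENNReal

/-- `P_j(θ,A)` (with radius `ρ`): `|F(z,w)| ≤ exp(-A Re z)` if `|z|,|w| ≤ ρ`, `Re w = θ Re z`. -/
def PR (F : ℂ × ℂ → ℂ) (ρ θ A : ℝ) : Prop := ∀ z w : ℂ, ‖z‖ ≤ ρ → ‖w‖ ≤ ρ → 0 < z.re →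
  w.re = θ * z.re → ‖F (z, w)‖ ≤ Real.exp (-(A * z.re))

/-- the envelope (text 2.6). -/
structure Env (F : ℂ × ℂ → ℂ) (b0 : ℝ) (c : ℕ → ℝ → ℝ) (j0 : ℕ) (B0 L C1 : ℝ) : Prop where
  hF : Muntz.GoodF F
  cs : CSeq b0 c j0 B0 L
  hC1 : 1 ≤ C1
  low : ∀ j k, j0 ≤ j → ∀ θ ∈ I1 b0, PR F (2 ^ j) θ (c (j + k) θ - C1 * Real.exp (-(2 ^ k / C1)))
  up : ∀ j, j0 ≤ j → ∀ θ ∈ I1 b0, ∀ A, PR F (2 ^ j) θ A → A ≤ c j θ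

/-- `h = 2^-i`. -/
noncomputable def hh (i : ℕ) : ℝ := (1 / 2) ^ i
/-- `λ = 2^(i/8000)`; `Λ = λ^2`. -/
noncomputable def lam (i : ℕ) : ℝ := 2 ^ ((i : ℝ) / 8000)

/-- the box lemma (text 4.1) at scale `j` for the dyadic interval `d`, `F_J = F exp(α z + β w)`. -/
structure Box (F : ℂ × ℂ → ℂ) (c : ℕ → ℝ → ℝ) (L : ℝ) (s0 : ℕ) (A1 : ℝ) (j : ℕ) (d : ℕ × ℕ)
    (α β : ℝ) : Prop where
  up : ∀ z w : ℂ, ‖z‖ ≤ 2 ^ (j + s0) → ‖w‖ ≤ 2 ^ (j + s0) → 0 < z.re → w.re / z.re ∈ bg d →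
    ‖F (z, w)‖ ≤ Real.exp (-(α * z.re + β * w.re))
  lo : ∀ θ ∈ bg d, c (j + 4 * iJ c L j d) θ - A1 * hh (iJ c L j d) ≤ α + β * θ ∧
    α + β * θ ≤ c (j + 4 * iJ c L j d) θ
  pt : ∀ x0 θ0 u : ℝ, 2 ^ j / 2 ≤ x0 → x0 ≤ 16 * 2 ^ j → θ0 ∈ st d → hh (iJ c L j d) ^ 3 ≤ u →
    u ≤ dl d → ∃ z w : ℂ, ‖z - x0‖ ≤ x0 / 3 ∧ ‖w - θ0 * z‖ ≤ u * x0 / 8 ∧
      Real.exp (-(α * z.re + β * w.re) - A1 * hh (iJ c L j d) * x0) ≤ ‖F (z, w)‖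

/-- box function (text 4.2). -/
noncomputable def fb (F : ℂ × ℂ → ℂ) (α β x0 θ0 u : ℝ) (p : ℂ × ℂ) : ℂ :=
  F (x0 * (1 + p.1 / 2), θ0 * (x0 * (1 + p.1 / 2)) + u * x0 * p.2) *
    Complex.exp (α * (x0 * (1 + p.1 / 2)) + β * (θ0 * (x0 * (1 + p.1 / 2)) + u * x0 * p.2))

/-- functions on the closed unit bidisc, bounded by one, not too small at one point. -/
structure BF (f : ℂ × ℂ → ℂ) (M0 : ℝ) : Prop where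
  dif : ∃ U : Set (ℂ × ℂ), IsOpen U ∧ {p : ℂ × ℂ | ‖p.1‖ ≤ 1 ∧ ‖p.2‖ ≤ 1} ⊆ U ∧
    DifferentiableOn ℂ f U
  bd : ∀ p : ℂ × ℂ, ‖p.1‖ ≤ 1 → ‖p.2‖ ≤ 1 → ‖f p‖ ≤ 1
  pt : ∃ p : ℂ × ℂ, ‖p.1‖ ≤ 2 / 3 ∧ ‖p.2‖ ≤ 1 / 8 ∧ Real.exp (-M0) ≤ ‖f p‖

/-- context: the function, its envelope, the windows and the exponents of the windows.
`is` is the threshold of the box lemma only; all other theorems have their own thresholds. -/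
structure Ctx (F : ℂ × ℂ → ℂ) (b0 : ℝ) where
  c : ℕ → ℝ → ℝ
  j0 : ℕ
  B0 : ℝ
  L : ℝ
  C1 : ℝ
  env : Env F b0 c j0 B0 L C1
  w0 : ℕ
  hw0 : 4000 * b0 ≤ 2 ^ w0
  s0 : ℕ
  hs0 : 2 ^ 14 * b0 ≤ 2 ^ s0
  A1 : ℝ
  hA1 : 1 ≤ A1
  is : ℕ
  al : ℕ → ℕ × ℕ → ℝ
  be : ℕ → ℕ × ℕ → ℝ
  box : ∀ j d, 2 * j0 + 100 ≤ j → IsWin b0 c L w0 j d → is ≤ iJ c L j d →
    Box F c L s0 A1 j d (al j d) (be j d)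

namespace Ctx
variable {F : ℂ × ℂ → ℂ} {b0 : ℝ} (X : Ctx F b0)

/-- level at scale `j` and slope `θ`. -/
noncomputable def lv (j : ℕ) (θ : ℝ) : ℕ := lev X.c X.L j θ
/-- level of a window. -/
noncomputable def ij (j : ℕ) (d : ℕ × ℕ) : ℕ := iJ X.c X.L j d
/-- `d` is a window at scale `j` (`j` large enough). -/
def win (j : ℕ) (d : ℕ × ℕ) : Prop := 2 * X.j0 + 100 ≤ j ∧ IsWin b0 X.c X.L X.w0 j d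
/-- `|F_J|` at a real point. -/
noncomputable def fj (j : ℕ) (d : ℕ × ℕ) (x y : ℝ) : ℝ :=
  ‖F ((x : ℂ), (y : ℂ))‖ * Real.exp (X.al j d * x + X.be j d * y)

end Ctx

/-- lattice lines `q y - p x = r`. -/
structure Ln where
  q : ℕ
  p : ℤ
  r : ℤ
  cop : Int.gcd q p = 1
  hq : q = 0 → p = 1
  deriving DecidableEq

/-- the real point `(x,y)` lies on the line. -/
def onl (l : Ln) (x y : ℝ) : Prop := (l.q : ℝ) * y - l.p * x = l.r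
/-- height. -/
noncomputable def ht (l : Ln) : ℝ := max (l.q : ℝ) |(l.p : ℝ)|
/-- tilt at scale `j`. -/
noncomputable def eta (l : Ln) (j : ℕ) : ℝ := |(l.r : ℝ)| / (ht l * 2 ^ j)

/-- decrement of the radial leaf of slope `θ` between the scales `j` and `j+9`. -/
noncomputable def kap (F : ℂ × ℂ → ℂ) (j : ℕ) (θ : ℝ) : ℝ≥0∞ :=
  Muntz.af (fun ζ => Muntz.nl (F (ζ, θ * ζ))) (2 ^ j) -
    Muntz.af (fun ζ => Muntz.nl (F (ζ, θ * ζ))) (2 ^ (j + 9))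

/-- slopes of the window at which the line is deep (text 5.4). -/
def DlJ {F : ℂ × ℂ → ℂ} {b0 : ℝ} (X : Ctx F b0) (j : ℕ) (d : ℕ × ℕ) (l : Ln) : Set ℝ :=
  {θ | θ ∈ st d ∧ ∃ x : ℝ, 2 ^ j / 2 ≤ x ∧ x ≤ 4 * 2 ^ j ∧ onl l x (θ * x) ∧
    X.fj j d x (θ * x) ≤ Real.exp (-(hh (X.ij j d) * lam (X.ij j d) ^ 2 * 2 ^ j / 32))}

/-- abscissas at which the line is deep (text 5.6). -/
def ElJ {F : ℂ × ℂ → ℂ} {b0 : ℝ} (X : Ctx F b0) (j : ℕ) (d : ℕ × ℕ) (l : Ln) : Set ℝ :=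
  {x | 2 ^ j / 2 ≤ x ∧ x ≤ 4 * 2 ^ j ∧ ∃ y : ℝ, onl l x y ∧ y / x ∈ st d ∧
    X.fj j d x y ≤ Real.exp (-(hh (X.ij j d) * lam (X.ij j d) ^ 2 * 2 ^ j / 32))}

/-- intrinsic version of `DlJ` (text 5.5). -/
def Dg {F : ℂ × ℂ → ℂ} {b0 : ℝ} (X : Ctx F b0) (j : ℕ) (l : Ln) : Set ℝ :=
  {θ | θ ∈ I2 b0 ∧ ht l ≤ 2 ^ (20 * X.lv j θ) ∧ ∃ x : ℝ, 2 ^ j / 2 ≤ x ∧ x ≤ 4 * 2 ^ j ∧
    onl l x (θ * x) ∧ ‖F ((x : ℂ), ((θ * x : ℝ) : ℂ))‖ ≤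
      Real.exp (-(x * X.c j θ + hh (X.lv j θ) * lam (X.lv j θ) ^ 2 * 2 ^ j / 16))}

/-- coordinates of a sub-box with centre `x0`, `θ0` and width `u`. -/
noncomputable def cs (x0 x : ℝ) : ℝ := 2 * (x - x0) / x0
noncomputable def ct (x0 θ0 u x y : ℝ) : ℝ := (y - θ0 * x) / (u * x0)
/-- real points of the sub-box of size `ε`. -/
def inb (x0 θ0 u ε x y : ℝ) : Prop := |cs x0 x| ≤ ε ∧ |ct x0 θ0 u x y| ≤ ε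

/-- valleys of a sub-box (text 5.7). -/
def Valley {F : ℂ × ℂ → ℂ} {b0 : ℝ} (X : Ctx F b0) (j : ℕ) (d : ℕ × ℕ) (x0 θ0 : ℝ) (l : Ln) : Prop :=
  ht l ≤ 4 ^ X.ij j d ∧
  (∃ x y : ℝ, onl l x y ∧ inb x0 θ0 (dl d) (1 / 64) x y ∧ y / x ∈ cell d) ∧
  ∀ x y : ℝ, onl l x y → inb x0 θ0 (dl d) (1 / 16) x y →
    X.fj j d x y ≤ Real.exp (-(hh (X.ij j d) * lam (X.ij j d) ^ 2 * 2 ^ j))

/-- lattice point as a real point of a line. -/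
def onlz (l : Ln) (P : ℤ × ℤ) : Prop := (l.q : ℤ) * P.2 - l.p * P.1 = l.r

/-- zeros of `F` at lattice points with slope in `I0`. -/
def Zf (F : ℂ × ℂ → ℂ) (b0 : ℝ) : Set (ℤ × ℤ) :=
  {P | 1 ≤ P.1 ∧ (P.2 : ℝ) / P.1 ∈ I0 b0 ∧ F ((P.1 : ℂ), (P.2 : ℂ)) = 0}

/-- zeros at scale `j` with slope in the cell `d`. -/
def Zc (F : ℂ × ℂ → ℂ) (b0 : ℝ) (j : ℕ) (d : ℕ × ℕ) : Set (ℤ × ℤ) :=
  {P | P ∈ Zf F b0 ∧ (2 : ℤ) ^ j ≤ P.1 ∧ P.1 < 2 ^ (j + 1) ∧ (P.2 : ℝ) / P.1 ∈ cell d}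

end MuntzF
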