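import Pool.Agent.Lib.MP_dde81e_full.Defs

/-!
Definitions for the critical case (text section 9).  Everything is expressed by Λ (S = Λ^2000, h = Λ^-4000):
X0 = SΛ^-32 = Λ^1968, X1 = SΛ^6 = Λ^2006, Y1 = Λ^22, ι = S^-2 Λ^64 = Λ^-3936, X2 = SΛ^237 = Λ^2237,
ρ = S^-1 Λ^243 = Λ^-1757, kmin = X1^-3/2 = Λ^-6018/2, kmax = 4ι/X0 = 4Λ^-5904.
-/

namespace MuntzF
open Set

noncomputable def io (Λ : ℝ) : ℝ := (Λ ^ 3936)⁻¹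
noncomputable def rh (Λ : ℝ) : ℝ := (Λ ^ 1757)⁻¹
noncomputable def kmin (Λ : ℝ) : ℝ := (Λ ^ 6018)⁻¹ / 2
noncomputable def kmax (Λ : ℝ) : ℝ := 4 * (Λ ^ 5904)⁻¹

/-- levels for the second derivative. -/
def KaS (Λ κ0 : ℝ) : Set ℝ := {κ | |κ| = κ0 ∨ ∃ n : ℕ, |κ| = kmin Λ * (1 + rh Λ) ^ n ∧
  kmin Λ * (1 + rh Λ) ^ n ≤ (1 + rh Λ) * kmax Λ}

/-- slopes for the tangencies: rational slopes of short steps ± τ0, and equidistant levels near θ0. -/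
def SgS (Λ θ0 τ0 : ℝ) : Set ℝ := {σ | (∃ p q : ℤ, 1 ≤ q ∧ (q : ℝ) ≤ Λ ^ 1968 ∧
    |(p : ℝ) - θ0 * q| ≤ Λ ^ 22 ∧ (σ = p / q + τ0 ∨ σ = p / q - τ0)) ∨
  ∃ n : ℤ, |(n : ℝ)| * io Λ / 4 ≤ 2 * (Λ ^ 1946)⁻¹ ∧ σ = θ0 + n * io Λ / 4}

/-- a good step `v = (v1,v2)` (sizes only). -/
def gstep (Λ θ0 : ℝ) (v : ℤ × ℤ) : Prop :=
  Λ ^ 1968 ≤ (v.1 : ℝ) ∧ (v.1 : ℝ) ≤ Λ ^ 2006 ∧ |(v.2 : ℝ) - θ0 * v.1| ≤ Λ ^ 22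

/-- slope of a lattice vector. -/
noncomputable def slv (v : ℤ × ℤ) : ℝ := (v.2 : ℝ) / v.1

/-- not close to rationals with small denominators. -/
def Minor (Λ θ0 : ℝ) : Prop := ∀ p q : ℤ, 1 ≤ q → (q : ℝ) ≤ Λ ^ 250 →
  (Λ ^ 1429)⁻¹ < |θ0 - p / q|

/-- the index `t` of the window `pts` is good. -/
def gidx (q : MvPolynomial (Fin 2) ℝ) (Λ θ0 τ0 : ℝ) (Φ : ℝ → ℝ) (pts : ℕ → ℤ × ℤ) (t : ℕ) : Prop :=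
  (∀ s ∈ ({t, t + 1, t + 2} : Set ℕ), gstep Λ θ0 (pts (s + 1) - pts s) ∧
    ∃ x ∈ Icc ((pts s).1 : ℝ) (pts (s + 1)).1, τ0 ≤ |D1 q x (Φ x) - slv (pts (s + 1) - pts s)|) ∧
  |slv (pts (t + 2) - pts (t + 1)) - slv (pts (t + 1) - pts t)| < io Λ ∧
  |slv (pts (t + 3) - pts (t + 2)) - slv (pts (t + 2) - pts (t + 1))| < io Λ

/-- a window: lattice points close to an arc, short steps, second derivative avoiding the levels. -/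
structure Win (q : MvPolynomial (Fin 2) ℝ) (Λ R θ0 τ : ℝ) (Φ : ℝ → ℝ) (k : ℕ) (pts : ℕ → ℤ × ℤ) : Prop where
  hk : 3 ≤ k
  arc : Arc q (pts 0).1 (pts k).1 Φ
  inc : ∀ t < k, (pts t).1 < (pts (t + 1)).1
  near : ∀ t ≤ k, |Φ (pts t).1 - (pts t).2| ≤ τ
  short : ∀ t < k, (((pts (t + 1)).1 - (pts t).1 : ℤ) : ℝ) ≤ Λ ^ 2237
  len : (((pts k).1 - (pts 0).1 : ℤ) : ℝ) ≤ R
  lvl : ∀ x ∈ Icc ((pts 0).1 : ℝ) (pts k).1, D2 q x (Φ x) ∉ KaS Λ (R ^ 3 * τ / 4)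

end MuntzF
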