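import Pool.Agent.Lib.MP_dde81e_full.G3
import Pool.Agent.Lib.MP_dde81e_full.CDefs

/-!
Module CR1: gluing of arcs, arcs of windows, divided differences.
divdiff: f' = D1 along the arc, f'' = D2 along the arc (G3); second divided difference (mean value theorem twice: compare Φ with the parabolas κ x^2/2).
-/

namespace MuntzF
open Set

theorem arc_glue {q : MvPolynomial (Fin 2) ℝ} {a b c : ℝ} {φ ψ : ℝ → ℝ} (hab : a ≤ b) (hbc : b ≤ c)
    (h1 : Arc q a b φ) (h2 : Arc q b c ψ) (h : φ b = ψ b) :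
    Arc q a c (fun x => if x ≤ b then φ x else ψ x) := by
  have e1 : ∀ x ∈ Icc a b, (if x ≤ b then φ x else ψ x) = φ x := fun x hx => if_pos hx.2
  have e2 : ∀ x ∈ Icc b c, (if x ≤ b then φ x else ψ x) = ψ x := by
    intro x hx
    rcases hx.1.lt_or_eq with h3 | h3
    · exact if_neg (not_le.2 h3)
    · rw [← h3, if_pos le_rfl, h]
  have hcase : ∀ x ∈ Icc a c, x ∈ Icc a b ∨ x ∈ Icc b c := by
    intro x hx
    rcases le_total x b with h3 | h3
    · exact Or.inl ⟨hx.1, h3⟩
    · exact Or.inr ⟨h3, hx.2⟩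
  refine ⟨?_, ?_, ?_⟩
  · rw [← Icc_union_Icc_eq_Icc hab hbc]
    exact ContinuousOn.union_of_isClosed (h1.cont.congr e1) (h2.cont.congr e2) isClosed_Icc
      isClosed_Icc
  · intro x hx
    rcases hcase x hx with h3 | h3
    · rw [e1 x h3]
      exact h1.zero x h3
    · rw [e2 x h3]
      exact h2.zero x h3
  · intro x hx
    rcases hcase x hx with h3 | h3
    · rw [e1 x h3]
      exact h1.ne x h3
    · rw [e2 x h3]
      exact h2.ne x h3

theorem window_arc {q : MvPolynomial (Fin 2) ℝ} {N : ℕ} {Zs : Finset (ℤ × ℤ)} {yv : ℤ × ℤ → ℝ}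
    (ch : Chain q N Zs yv) (n : ℕ) (hn : 1 ≤ n) (pts : ℕ → ℤ × ℤ)
    (hs : ∀ t < n, ch.nx (pts t) = some (pts (t + 1))) :
    ∃ Φ : ℝ → ℝ, Arc q (pts 0).1 (pts n).1 Φ ∧ (∀ t ≤ n, Φ (pts t).1 = yv (pts t)) ∧
      ∀ t < n, ∀ x ∈ Icc ((pts t).1 : ℝ) (pts (t + 1)).1, Φ x = ch.ph (pts t) x := by
  induction n, hn using Nat.le_induction with
  | base =>
    have h0 := hs 0 (by norm_num)
    refine ⟨ch.ph (pts 0), ch.arc _ _ h0, ?_, ?_⟩
    · intro t ht
      rcases Nat.le_one_iff_eq_zero_or_eq_one.1 ht with rfl | rfl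
      · exact ch.left _ _ h0
      · exact ch.right _ _ h0
    · intro t ht x _
      have : t = 0 := by omega
      rw [this]
  | succ n hn ih =>
    obtain ⟨Φ, hΦ, hv, hx⟩ := ih (fun t ht => hs t (by omega))
    have hlt : ∀ t < n + 1, (pts t).1 < (pts (t + 1)).1 := fun t ht => (ch.mem _ _ (hs t ht)).2.2
    have hmono : ∀ m ≤ n + 1, ∀ t ≤ m, (pts t).1 ≤ (pts m).1 := by
      intro m
      induction m with
      | zero =>
        intro _ t ht
        have : t = 0 := by omega
        rw [this]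
      | succ m ihm =>
        intro hm t ht
        rcases Nat.lt_or_ge t (m + 1) with h | h
        · exact (ihm (by omega) t (by omega)).trans (hlt m (by omega)).le
        · have : t = m + 1 := by omega
          rw [this]
    have hn' := hs n (by omega)
    have e0 : Φ (pts n).1 = ch.ph (pts n) (pts n).1 := by
      rw [hv n le_rfl, ch.left _ _ hn']
    have hle1 : ((pts 0).1 : ℝ) ≤ (pts n).1 := by exact_mod_cast hmono n (by omega) 0 (by omega)
    have hle2 : ((pts n).1 : ℝ) ≤ (pts (n + 1)).1 := by exact_mod_cast (hlt n (by omega)).le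
    refine ⟨fun x => if x ≤ (pts n).1 then Φ x else ch.ph (pts n) x,
      arc_glue hle1 hle2 hΦ (ch.arc _ _ hn') e0, ?_, ?_⟩
    · intro t ht
      rcases Nat.lt_or_ge n t with h | h
      · have ht' : t = n + 1 := by omega
        subst ht'
        have h3 : ¬ ((pts (n + 1)).1 : ℝ) ≤ (pts n).1 := by
          rw [not_le]
          exact_mod_cast hlt n (by omega)
        simp only [if_neg h3]
        exact ch.right _ _ hn'
      · have h3 : ((pts t).1 : ℝ) ≤ (pts n).1 := by exact_mod_cast hmono n (by omega) t h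
        simp only [if_pos h3]
        exact hv t h
    · intro t ht x hxx
      rcases Nat.lt_or_ge t n with h | h
      · have h3 : ((pts (t + 1)).1 : ℝ) ≤ (pts n).1 := by
          exact_mod_cast hmono n (by omega) (t + 1) (by omega)
        simp only [if_pos (hxx.2.trans h3)]
        exact hx t h x hxx
      · have ht' : t = n := by omega
        subst ht'
        by_cases h3 : x ≤ (pts t).1
        · have h4 : x = (pts t).1 := le_antisymm h3 hxx.1
          simp only [if_pos h3]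
          rw [h4]
          exact e0
        · simp only [if_neg h3]

/-- lower bound of the second divided difference. -/
theorem dd_lower {f g g' : ℝ → ℝ} {m0 m1 m2 κ : ℝ} (h1 : m0 < m1) (h2 : m1 < m2)
    (hf : ∀ x ∈ Icc m0 m2, HasDerivWithinAt f (g x) (Icc m0 m2) x)
    (hg : ∀ x ∈ Icc m0 m2, HasDerivWithinAt g (g' x) (Icc m0 m2) x)
    (hk : ∀ x ∈ Icc m0 m2, κ ≤ g' x) :
    κ * (m2 - m0) / 2 ≤ (f m2 - f m1) / (m2 - m1) - (f m1 - f m0) / (m1 - m0) := by
  have hint : ∀ x ∈ Ioo m0 m2, Icc m0 m2 ∈ nhds x := fun x hx => Icc_mem_nhds hx.1 hx.2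
  have hf' : ∀ x ∈ Ioo m0 m2, HasDerivAt f (g x) x := fun x hx =>
    (hf x (Ioo_subset_Icc_self hx)).hasDerivAt (hint x hx)
  have hg' : ∀ x ∈ Ioo m0 m2, HasDerivAt g (g' x) x := fun x hx =>
    (hg x (Ioo_subset_Icc_self hx)).hasDerivAt (hint x hx)
  -- the first derivative minus κ x is monotone
  have hmono : MonotoneOn (fun x => g x - κ * x) (Icc m0 m2) := by
    apply monotoneOn_of_deriv_nonneg (convex_Icc _ _)
    · intro x hx
      exact ((hg x hx).continuousWithinAt).sub (by fun_prop)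
    · rw [interior_Icc]
      intro x hx
      exact ((hg' x hx).sub ((hasDerivAt_id x).const_mul κ)).differentiableAt.differentiableWithinAt
    · rw [interior_Icc]
      intro x hx
      have h3 := ((hg' x hx).sub ((hasDerivAt_id x).const_mul κ)).deriv
      have h4 : deriv (fun x => g x - κ * x) x = g' x - κ * 1 := h3
      rw [h4]
      have := hk x (Ioo_subset_Icc_self hx)
      linarith
  have hd : ∀ x ∈ Ioo m0 m2, HasDerivAt (fun x => f x - κ * x ^ 2 / 2) (g x - κ * x) x := by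
    intro x hx
    have h3 := (hf' x hx).sub ((((hasDerivAt_id x).pow 2).const_mul κ).div_const 2)
    refine h3.congr_deriv ?_
    simp only [id]
    push_cast
    ring
  have hconv : ConvexOn ℝ (Icc m0 m2) (fun x => f x - κ * x ^ 2 / 2) := by
    apply MonotoneOn.convexOn_of_deriv (convex_Icc _ _)
    · intro x hx
      exact ((hf x hx).continuousWithinAt).sub (by fun_prop)
    · rw [interior_Icc]
      intro x hx
      exact (hd x hx).differentiableAt.differentiableWithinAt
    · rw [interior_Icc]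
      intro x hx y hy hxy
      rw [(hd x hx).deriv, (hd y hy).deriv]
      exact hmono (Ioo_subset_Icc_self hx) (Ioo_subset_Icc_self hy) hxy
  have h3 := hconv.slope_mono_adjacent (x := m0) (y := m1) (z := m2) ⟨le_rfl, by linarith⟩
    ⟨by linarith, le_rfl⟩ h1 h2
  have e1 : (f m1 - κ * m1 ^ 2 / 2 - (f m0 - κ * m0 ^ 2 / 2)) / (m1 - m0) =
      (f m1 - f m0) / (m1 - m0) - κ * (m1 + m0) / 2 := by
    have : m1 - m0 ≠ 0 := by linarith
    field_simp
    ring
  have e2 : (f m2 - κ * m2 ^ 2 / 2 - (f m1 - κ * m1 ^ 2 / 2)) / (m2 - m1) =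
      (f m2 - f m1) / (m2 - m1) - κ * (m2 + m1) / 2 := by
    have : m2 - m1 ≠ 0 := by linarith
    field_simp
    ring
  rw [e1, e2] at h3
  linarith

theorem divdiff {q : MvPolynomial (Fin 2) ℝ} {m0 m1 m2 κ1 κ2 : ℝ} {Φ : ℝ → ℝ}
    (harc : Arc q m0 m2 Φ) (h1 : m0 < m1) (h2 : m1 < m2)
    (hD : ∀ x ∈ Icc m0 m2, κ1 ≤ D2 q x (Φ x) ∧ D2 q x (Φ x) ≤ κ2) :
    κ1 * (m2 - m0) / 2 ≤ (Φ m2 - Φ m1) / (m2 - m1) - (Φ m1 - Φ m0) / (m1 - m0) ∧
    (Φ m2 - Φ m1) / (m2 - m1) - (Φ m1 - Φ m0) / (m1 - m0) ≤ κ2 * (m2 - m0) / 2 := by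
  constructor
  · exact dd_lower h1 h2 (arc_deriv harc) (arc_deriv2 harc) (fun x hx => (hD x hx).1)
  · have h := dd_lower (f := fun x => - Φ x) (g := fun x => - D1 q x (Φ x))
      (g' := fun x => - D2 q x (Φ x)) (κ := -κ2) h1 h2
      (fun x hx => (arc_deriv harc x hx).neg) (fun x hx => (arc_deriv2 harc x hx).neg)
      (fun x hx => neg_le_neg (hD x hx).2)
    have e1 : (-Φ m2 - -Φ m1) / (m2 - m1) = -((Φ m2 - Φ m1) / (m2 - m1)) := by ring
    have e2 : (-Φ m1 - -Φ m0) / (m1 - m0) = -((Φ m1 - Φ m0) / (m1 - m0)) := by ring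
    rw [e1, e2] at h
    linarith

end MuntzF
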