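import Mathlib

/-!
Module CR2 (text 9.1 (3), algebra).  r = x1/x2, s = x3/x2, r' = y1/y2, s' = y3/y2: a' r + a s = b = a' r' + a s', a/a' = r(1+r)/(s(1+s)) (1+e), |e| ≤ 4.1ρ, same for r',s'.
If s' ≥ s then r' ≤ r, so s'(1+s') ≤ s(1+s)(1+9ρ), s'-s ≤ 9ρ s, and r'(1+r') ≥ r(1+r)(1-9ρ), r-r' ≤ 9ρ r.  (Other case symmetric.)  x2^3 = 2a/(κ r(1+r)(1+e1)), so
y2/x2 is within 1 ± 10ρ, y1/x1 = (r'/r)(y2/x2).
-/

namespace MuntzF

theorem ratio_close {ρ r s r' s' A1 A2 A3 A4 : ℝ} (hρ : 0 < ρ) (hρ1 : ρ ≤ 1 / 1000)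
    (hr : 0 < r) (hs : 0 < s) (hr' : 0 < r') (hs' : 0 < s')
    (hA1 : 1 - 2 * ρ ≤ A1) (hA1' : A1 ≤ 1 + 2 * ρ) (hA2 : 1 - 2 * ρ ≤ A2) (hA2' : A2 ≤ 1 + 2 * ρ)
    (hA3 : 1 - 2 * ρ ≤ A3) (hA3' : A3 ≤ 1 + 2 * ρ) (hA4 : 1 - 2 * ρ ≤ A4) (hA4' : A4 ≤ 1 + 2 * ρ)
    (hmono : (s ≤ s' ∧ r' ≤ r) ∨ (s' ≤ s ∧ r ≤ r'))
    (h : (r * (1 + r) * A1) * (s' * (1 + s') * A4) = (r' * (1 + r') * A3) * (s * (1 + s) * A2)) :
    (1 - 9 * ρ) * r ≤ r' ∧ r' ≤ (1 + 9 * ρ) * r := by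
  have b1 : 0 < A1 := by linarith
  have b2 : 0 < A2 := by linarith
  have b3 : 0 < A3 := by linarith
  have b4 : 0 < A4 := by linarith
  have hL14 : (1 - 2 * ρ) ^ 2 ≤ A1 * A4 := by nlinarith
  have hU14 : A1 * A4 ≤ (1 + 2 * ρ) ^ 2 := by nlinarith
  have hL23 : (1 - 2 * ρ) ^ 2 ≤ A2 * A3 := by nlinarith
  have hU23 : A2 * A3 ≤ (1 + 2 * ρ) ^ 2 := by nlinarith
  have hFs : 0 < s * (1 + s) := by positivity
  rcases hmono with ⟨h1, h2⟩ | ⟨h1, h2⟩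
  · have e1 : s * (1 + s) ≤ s' * (1 + s') := by nlinarith
    have e2 : (r * (1 + r)) * (A1 * A4) * (s * (1 + s)) ≤ (r' * (1 + r')) * (A2 * A3) * (s * (1 + s)) := by
      have : (r * (1 + r)) * (A1 * A4) * (s * (1 + s)) ≤ (r * (1 + r)) * (A1 * A4) * (s' * (1 + s')) :=
        mul_le_mul_of_nonneg_left e1 (by positivity)
      linarith
    have e3 : (r * (1 + r)) * (A1 * A4) ≤ (r' * (1 + r')) * (A2 * A3) := le_of_mul_le_mul_right e2 hFs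
    have e4 : (r' * (1 + r')) * (A2 * A3) ≤ (r' * (1 + r)) * (A2 * A3) := by
      apply mul_le_mul_of_nonneg_right _ (by positivity)
      nlinarith
    have e5 : (r * (A1 * A4)) * (1 + r) ≤ (r' * (A2 * A3)) * (1 + r) := by nlinarith
    have e6 : r * (A1 * A4) ≤ r' * (A2 * A3) := le_of_mul_le_mul_right e5 (by linarith)
    have e7 : r * (1 - 2 * ρ) ^ 2 ≤ r' * (1 + 2 * ρ) ^ 2 := by
      have t1 : r * (1 - 2 * ρ) ^ 2 ≤ r * (A1 * A4) := mul_le_mul_of_nonneg_left hL14 hr.le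
      have t2 : r' * (A2 * A3) ≤ r' * (1 + 2 * ρ) ^ 2 := mul_le_mul_of_nonneg_left hU23 hr'.le
      linarith
    have e8 : (1 - 9 * ρ) * (1 + 2 * ρ) ^ 2 ≤ (1 - 2 * ρ) ^ 2 := by nlinarith [pow_pos hρ 2, pow_pos hρ 3]
    constructor
    · have e9 : (1 - 9 * ρ) * r * (1 + 2 * ρ) ^ 2 ≤ r' * (1 + 2 * ρ) ^ 2 := by
        have := mul_le_mul_of_nonneg_left e8 hr.le
        linarith
      exact le_of_mul_le_mul_right e9 (by positivity)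
    · nlinarith
  · have e1 : s' * (1 + s') ≤ s * (1 + s) := by nlinarith
    have e2 : (r' * (1 + r')) * (A2 * A3) * (s * (1 + s)) ≤ (r * (1 + r)) * (A1 * A4) * (s * (1 + s)) := by
      have : (r * (1 + r)) * (A1 * A4) * (s' * (1 + s')) ≤ (r * (1 + r)) * (A1 * A4) * (s * (1 + s)) :=
        mul_le_mul_of_nonneg_left e1 (by positivity)
      linarith
    have e3 : (r' * (1 + r')) * (A2 * A3) ≤ (r * (1 + r)) * (A1 * A4) := le_of_mul_le_mul_right e2 hFs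
    have e4 : (r' * (1 + r)) * (A2 * A3) ≤ (r' * (1 + r')) * (A2 * A3) := by
      apply mul_le_mul_of_nonneg_right _ (by positivity)
      nlinarith
    have e5 : (r' * (A2 * A3)) * (1 + r) ≤ (r * (A1 * A4)) * (1 + r) := by nlinarith
    have e6 : r' * (A2 * A3) ≤ r * (A1 * A4) := le_of_mul_le_mul_right e5 (by linarith)
    have e7 : r' * (1 - 2 * ρ) ^ 2 ≤ r * (1 + 2 * ρ) ^ 2 := by
      have t1 : r' * (1 - 2 * ρ) ^ 2 ≤ r' * (A2 * A3) := mul_le_mul_of_nonneg_left hL23 hr'.le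
      have t2 : r * (A1 * A4) ≤ r * (1 + 2 * ρ) ^ 2 := mul_le_mul_of_nonneg_left hU14 hr.le
      linarith
    have e8 : (1 + 2 * ρ) ^ 2 ≤ (1 + 9 * ρ) * (1 - 2 * ρ) ^ 2 := by nlinarith [pow_pos hρ 2, pow_pos hρ 3]
    constructor
    · nlinarith
    · have e9 : r' * (1 - 2 * ρ) ^ 2 ≤ (1 + 9 * ρ) * r * (1 - 2 * ρ) ^ 2 := by
        have := mul_le_mul_of_nonneg_left e8 hr.le
        linarith
      exact le_of_mul_le_mul_right e9 (by nlinarith)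

theorem scale_close {ρ r p q A1 A3 : ℝ} (hρ : 0 < ρ) (hρ1 : ρ ≤ 1 / 1000) (hr : 0 < r)
    (hp : 1 - 9 * ρ ≤ p) (hp' : p ≤ 1 + 9 * ρ) (hq : 0 < q)
    (hA1 : 1 - 2 * ρ ≤ A1) (hA1' : A1 ≤ 1 + 2 * ρ) (hA3 : 1 - 2 * ρ ≤ A3) (hA3' : A3 ≤ 1 + 2 * ρ)
    (h : (1 + r) * A1 = q ^ 3 * p * (1 + p * r) * A3) : |p * q - 1| ≤ 40 * ρ := by
  have b1 : 0 < A1 := by linarith
  have b3 : 0 < A3 := by linarith
  have bp : 0 < p := by linarith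
  have hq3 : 0 < q ^ 3 := by positivity
  have r1 : (1 - 9 * ρ) * (1 + r) ≤ 1 + p * r := by nlinarith
  have r2 : 1 + p * r ≤ (1 + 9 * ρ) * (1 + r) := by nlinarith
  -- lower estimate of the right side
  have u1 : (1 - 9 * ρ) * ((1 - 9 * ρ) * (1 + r)) ≤ p * (1 + p * r) :=
    mul_le_mul hp r1 (mul_nonneg (by linarith) (by linarith)) bp.le
  have u2 : (1 - 9 * ρ) * ((1 - 9 * ρ) * (1 + r)) * (1 - 2 * ρ) ≤ p * (1 + p * r) * A3 :=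
    mul_le_mul u1 hA3 (by linarith) (by positivity)
  have u3 : q ^ 3 * ((1 - 9 * ρ) * ((1 - 9 * ρ) * (1 + r)) * (1 - 2 * ρ)) ≤ (1 + r) * (1 + 2 * ρ) := by
    have t1 := mul_le_mul_of_nonneg_left u2 hq3.le
    have t2 : (1 + r) * A1 ≤ (1 + r) * (1 + 2 * ρ) := mul_le_mul_of_nonneg_left hA1' (by linarith)
    nlinarith
  have u4 : q ^ 3 * ((1 - 9 * ρ) ^ 2 * (1 - 2 * ρ)) ≤ 1 + 2 * ρ := by
    have : (q ^ 3 * ((1 - 9 * ρ) ^ 2 * (1 - 2 * ρ))) * (1 + r) ≤ (1 + 2 * ρ) * (1 + r) := by nlinarith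
    exact le_of_mul_le_mul_right this (by linarith)
  -- upper estimate
  have v1 : p * (1 + p * r) ≤ (1 + 9 * ρ) * ((1 + 9 * ρ) * (1 + r)) :=
    mul_le_mul hp' r2 (by positivity) (by linarith)
  have v2 : p * (1 + p * r) * A3 ≤ (1 + 9 * ρ) * ((1 + 9 * ρ) * (1 + r)) * (1 + 2 * ρ) :=
    mul_le_mul v1 hA3' b3.le (by positivity)
  have v3 : (1 + r) * (1 - 2 * ρ) ≤ q ^ 3 * ((1 + 9 * ρ) * ((1 + 9 * ρ) * (1 + r)) * (1 + 2 * ρ)) := by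
    have t1 := mul_le_mul_of_nonneg_left v2 hq3.le
    have t2 : (1 + r) * (1 - 2 * ρ) ≤ (1 + r) * A1 := mul_le_mul_of_nonneg_left hA1 (by linarith)
    nlinarith
  have v4 : 1 - 2 * ρ ≤ q ^ 3 * ((1 + 9 * ρ) ^ 2 * (1 + 2 * ρ)) := by
    have : (1 - 2 * ρ) * (1 + r) ≤ (q ^ 3 * ((1 + 9 * ρ) ^ 2 * (1 + 2 * ρ))) * (1 + r) := by nlinarith
    exact le_of_mul_le_mul_right this (by linarith)
  have w1 : q ≤ 1 + 12 * ρ := by
    by_contra hc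
    push Not at hc
    have c1 : (1 + 12 * ρ) ^ 3 < q ^ 3 := pow_lt_pow_left₀ hc (by linarith) (by norm_num)
    have c2 : 1 + 36 * ρ ≤ (1 + 12 * ρ) ^ 3 := by nlinarith [pow_pos hρ 2, pow_pos hρ 3]
    have c3 : 1 + 36 * ρ ≤ q ^ 3 := by linarith
    have c4 : 0 < (1 - 9 * ρ) ^ 2 * (1 - 2 * ρ) := mul_pos (pow_pos (by linarith) 2) (by linarith)
    have c5 : (1 + 36 * ρ) * ((1 - 9 * ρ) ^ 2 * (1 - 2 * ρ)) ≤ 1 + 2 * ρ :=
      le_trans (mul_le_mul_of_nonneg_right c3 c4.le) u4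
    have c6 : 1 - 20 * ρ ≤ (1 - 9 * ρ) ^ 2 * (1 - 2 * ρ) := by
      nlinarith [pow_pos hρ 2, pow_pos hρ 3, mul_pos hρ hρ]
    have c7 : (1 + 36 * ρ) * (1 - 20 * ρ) ≤ 1 + 2 * ρ :=
      le_trans (mul_le_mul_of_nonneg_left c6 (by linarith)) c5
    nlinarith
  have w2 : 1 - 12 * ρ ≤ q := by
    by_contra hc
    push Not at hc
    have c1 : q ^ 3 < (1 - 12 * ρ) ^ 3 := pow_lt_pow_left₀ hc hq.le (by norm_num)
    have c2 : (1 - 12 * ρ) ^ 3 ≤ 1 - 36 * ρ + 432 * ρ ^ 2 := by nlinarith [pow_pos hρ 3]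
    have c3 : q ^ 3 ≤ 1 - 35 * ρ := by nlinarith
    have c4 : 0 < (1 + 9 * ρ) ^ 2 * (1 + 2 * ρ) := by positivity
    have c5 : 1 - 2 * ρ ≤ (1 - 35 * ρ) * ((1 + 9 * ρ) ^ 2 * (1 + 2 * ρ)) :=
      le_trans v4 (mul_le_mul_of_nonneg_right c3 c4.le)
    have c6 : (1 + 9 * ρ) ^ 2 * (1 + 2 * ρ) ≤ 1 + 21 * ρ := by
      nlinarith [pow_pos hρ 2, pow_pos hρ 3]
    have c7 : 1 - 2 * ρ ≤ (1 - 35 * ρ) * (1 + 21 * ρ) :=
      le_trans c5 (mul_le_mul_of_nonneg_left c6 (by linarith))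
    nlinarith
  rw [abs_le]
  constructor
  · have : (1 - 9 * ρ) * (1 - 12 * ρ) ≤ p * q := mul_le_mul hp w2 (by linarith) bp.le
    nlinarith
  · have : p * q ≤ (1 + 9 * ρ) * (1 + 12 * ρ) := mul_le_mul hp' w1 hq.le (by linarith)
    nlinarith

theorem triple_close {κ ρ x1 x2 x3 y1 y2 y3 a a' b e1 e2 e3 e4 : ℝ} (hκ : 0 < κ) (hρ : 0 < ρ)
    (hρ1 : ρ ≤ 1 / 1000) (hx1 : 0 < x1) (hx2 : 0 < x2) (hx3 : 0 < x3) (hy1 : 0 < y1) (hy2 : 0 < y2)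
    (hy3 : 0 < y3) (h1 : a' * x1 - b * x2 + a * x3 = 0) (h2 : a' * y1 - b * y2 + a * y3 = 0)
    (he1 : |e1| ≤ 2 * ρ) (he2 : |e2| ≤ 2 * ρ) (he3 : |e3| ≤ 2 * ρ) (he4 : |e4| ≤ 2 * ρ)
    (ha : a = κ * x1 * x2 * (x1 + x2) / 2 * (1 + e1)) (ha' : a' = κ * x2 * x3 * (x2 + x3) / 2 * (1 + e2))
    (hb : a = κ * y1 * y2 * (y1 + y2) / 2 * (1 + e3)) (hb' : a' = κ * y2 * y3 * (y2 + y3) / 2 * (1 + e4)) :
    |y1 - x1| ≤ 40 * ρ * x1 := by
  obtain ⟨r, hr, hxr⟩ : ∃ r, 0 < r ∧ x1 = r * x2 := ⟨x1 / x2, by positivity, by field_simp⟩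
  obtain ⟨s, hs, hxs⟩ : ∃ s, 0 < s ∧ x3 = s * x2 := ⟨x3 / x2, by positivity, by field_simp⟩
  obtain ⟨r', hr', hyr⟩ : ∃ r', 0 < r' ∧ y1 = r' * y2 := ⟨y1 / y2, by positivity, by field_simp⟩
  obtain ⟨s', hs', hys⟩ : ∃ s', 0 < s' ∧ y3 = s' * y2 := ⟨y3 / y2, by positivity, by field_simp⟩
  subst hxr hxs hyr hys
  have g1 := abs_le.mp he1
  have g2 := abs_le.mp he2
  have g3 := abs_le.mp he3
  have g4 := abs_le.mp he4
  have ha0 : 0 < a := by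
    rw [ha]
    have : 0 < 1 + e1 := by linarith [g1.1]
    positivity
  have ha0' : 0 < a' := by
    rw [ha']
    have : 0 < 1 + e2 := by linarith [g2.1]
    positivity
  have k1 : a' * r - b + a * s = 0 := by
    have : (a' * r - b + a * s) * x2 = 0 := by linarith
    exact (mul_eq_zero.mp this).resolve_right hx2.ne'
  have k2 : a' * r' - b + a * s' = 0 := by
    have : (a' * r' - b + a * s') * y2 = 0 := by linarith
    exact (mul_eq_zero.mp this).resolve_right hy2.ne'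
  have k3 : a' * (r - r') = a * (s' - s) := by linarith
  have hmono : (s ≤ s' ∧ r' ≤ r) ∨ (s' ≤ s ∧ r ≤ r') := by
    rcases le_total s s' with h | h
    · left
      refine ⟨h, ?_⟩
      by_contra hc
      push Not at hc
      have : a' * (r - r') < 0 := mul_neg_of_pos_of_neg ha0' (by linarith)
      have : 0 ≤ a * (s' - s) := mul_nonneg ha0.le (by linarith)
      linarith
    · right
      refine ⟨h, ?_⟩
      by_contra hc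
      push Not at hc
      have : 0 < a' * (r - r') := mul_pos ha0' (by linarith)
      have : a * (s' - s) ≤ 0 := mul_nonpos_of_nonneg_of_nonpos ha0.le (by linarith)
      linarith
  have hprod : (r * (1 + r) * (1 + e1)) * (s' * (1 + s') * (1 + e4)) =
      (r' * (1 + r') * (1 + e3)) * (s * (1 + s) * (1 + e2)) := by
    have t1 : a * a' = (κ * (r * x2) * x2 * (r * x2 + x2) / 2 * (1 + e1)) *
        (κ * y2 * (s' * y2) * (y2 + s' * y2) / 2 * (1 + e4)) := by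
      rw [← ha, ← hb']
    have t2 : a * a' = (κ * (r' * y2) * y2 * (r' * y2 + y2) / 2 * (1 + e3)) *
        (κ * x2 * (s * x2) * (x2 + s * x2) / 2 * (1 + e2)) := by
      rw [← hb, ← ha']
    have t3 : (κ ^ 2 * x2 ^ 3 * y2 ^ 3 / 4) * ((r * (1 + r) * (1 + e1)) * (s' * (1 + s') * (1 + e4))) =
        (κ ^ 2 * x2 ^ 3 * y2 ^ 3 / 4) * ((r' * (1 + r') * (1 + e3)) * (s * (1 + s) * (1 + e2))) := by
      rw [t1] at t2
      linear_combination t2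
    exact mul_left_cancel₀ (by positivity) t3
  have hrc := ratio_close hρ hρ1 hr hs hr' hs' (by linarith [g1.1] : 1 - 2 * ρ ≤ 1 + e1)
    (by linarith [g1.2]) (by linarith [g2.1] : 1 - 2 * ρ ≤ 1 + e2) (by linarith [g2.2])
    (by linarith [g3.1] : 1 - 2 * ρ ≤ 1 + e3) (by linarith [g3.2])
    (by linarith [g4.1] : 1 - 2 * ρ ≤ 1 + e4) (by linarith [g4.2]) hmono hprod
  obtain ⟨p, hp0, hp⟩ : ∃ p, 0 < p ∧ r' = p * r := ⟨r' / r, by positivity, by field_simp⟩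
  obtain ⟨q, hq0, hq⟩ : ∃ q, 0 < q ∧ y2 = q * x2 := ⟨y2 / x2, by positivity, by field_simp⟩
  subst hp hq
  have p1 : 1 - 9 * ρ ≤ p := le_of_mul_le_mul_right hrc.1 hr
  have p2 : p ≤ 1 + 9 * ρ := le_of_mul_le_mul_right hrc.2 hr
  have hsc : (1 + r) * (1 + e1) = q ^ 3 * p * (1 + p * r) * (1 + e3) := by
    have t1 : (κ * x2 ^ 3 * r / 2) * ((1 + r) * (1 + e1)) =
        (κ * x2 ^ 3 * r / 2) * (q ^ 3 * p * (1 + p * r) * (1 + e3)) := by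
      rw [ha] at hb
      linear_combination hb
    exact mul_left_cancel₀ (by positivity) t1
  have hfin := scale_close hρ hρ1 hr p1 p2 hq0 (by linarith [g1.1] : 1 - 2 * ρ ≤ 1 + e1)
    (by linarith [g1.2]) (by linarith [g3.1] : 1 - 2 * ρ ≤ 1 + e3) (by linarith [g3.2]) hsc
  have e : p * r * (q * x2) - r * x2 = (p * q - 1) * (r * x2) := by ring
  rw [e, abs_mul, abs_of_pos hx1]
  exact mul_le_mul_of_nonneg_right hfin hx1.le

end MuntzF
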