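import Pool.Agent.Lib.MP_dde81e_full.CR1

/-!
Module CR3 (text 9.1 (3), first part): if a window has a good index then the second derivative has constant sign and is constant up to the factor 1+ρ.
D2 is continuous along the arc and avoids the levels KaS, so it stays in one component.  Good index t, x_s = length of the step s, sl_s slope (of the lattice vectors; the slopes of
the chords of Φ differ from them by ≤ 2τ, MVT).
If |D2| ≤ κ0 = R^3τ/4 everywhere: |D1 - sl_t| ≤ κ0 R + 2τ < R^4 τ = τ0 on the step t (R ≥ 4..), contradiction with the non hugging condition.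
So σ D2 > κ0 with σ = ±1.  divdiff: σ(sl_{t+1}-sl_t) ≥ κ0 - 4τ > 0, so the integer σ (V_t × V_{t+1}) = x_t x_{t+1} σ (sl_{t+1}-sl_t) is ≥ 1, so σ(sl_{t+1}-sl_t) ≥ Λ^-4012; by divdiff some value of σ D2 is
≥ (Λ^-4012 - 4τ)/Λ^2006 > kmin; and < io, so some value is ≤ (io+4τ)/Λ^1968 < 2Λ^-5904 < kmax.  All the values lie in one component, and so between two consecutive levels
kmin(1+ρ)^n, kmin(1+ρ)^(n+1); κ = the lower one.
-/

namespace MuntzF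
open Set

theorem avoid_gt {E : ℝ → ℝ} {a b v x0 : ℝ} (hE : ContinuousOn E (Icc a b))
    (hv : ∀ x ∈ Icc a b, E x ≠ v) (hx0 : x0 ∈ Icc a b) (h : v < E x0) :
    ∀ x ∈ Icc a b, v < E x := by
  intro x hx
  by_contra hcon
  have h1 : E x ≤ v := not_lt.1 hcon
  have h2 : v ∈ E '' Icc a b :=
    (isPreconnected_Icc.image E hE).Icc_subset (mem_image_of_mem _ hx) (mem_image_of_mem _ hx0)
      ⟨h1, h.le⟩
  obtain ⟨y, hy, hyv⟩ := h2
  exact hv y hy hyv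

theorem avoid_lt {E : ℝ → ℝ} {a b v x0 : ℝ} (hE : ContinuousOn E (Icc a b))
    (hv : ∀ x ∈ Icc a b, E x ≠ v) (hx0 : x0 ∈ Icc a b) (h : E x0 < v) :
    ∀ x ∈ Icc a b, E x < v := by
  intro x hx
  by_contra hcon
  have h1 : v ≤ E x := not_lt.1 hcon
  have h2 : v ∈ E '' Icc a b :=
    (isPreconnected_Icc.image E hE).Icc_subset (mem_image_of_mem _ hx0) (mem_image_of_mem _ hx)
      ⟨h.le, h1⟩
  obtain ⟨y, hy, hyv⟩ := h2
  exact hv y hy hyv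

theorem D2_cont {q : MvPolynomial (Fin 2) ℝ} {m m' : ℝ} {φ : ℝ → ℝ} (h : Arc q m m' φ) :
    ContinuousOn (fun x => D2 q x (φ x)) (Icc m m') := by
  have hpair : ContinuousOn (fun x => (x, φ x)) (Icc m m') := continuousOn_id.prodMk h.cont
  have hp : ∀ p : MvPolynomial (Fin 2) ℝ, ContinuousOn (fun x => ev p x (φ x)) (Icc m m') := by
    intro p
    exact Continuous.comp_continuousOn (g := fun P : ℝ × ℝ => ev p P.1 P.2)
      (f := fun x => (x, φ x)) (ev_continuous p) hpair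
  unfold D2
  exact ((hp _).neg).div ((hp _).pow 3) (fun x hx => pow_ne_zero _ (h.ne x hx))

/-- powers of the large parameter. -/
theorem CR3_tau_small {Λ R τ : ℝ} (hΛ : 10 ^ 6 ≤ Λ) (hR : Λ ^ 400000 ≤ R) (hτ : 0 < τ)
    (hτR : τ * R ^ 20 ≤ 1) (n : ℕ) (hn : n < 400000) : 10 ^ 6 * (τ * Λ ^ n) ≤ 1 := by
  have hΛ0 : 0 < Λ := by linarith
  have hΛ1 : 1 ≤ Λ := by linarith
  have h1 : 1 ≤ R := le_trans (one_le_pow₀ hΛ1) hR
  have h2 : Λ ^ (n + 1) ≤ R := le_trans (pow_le_pow_right₀ hΛ1 hn) hR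
  have h3 : R ≤ R ^ 20 := le_self_pow₀ h1 (by norm_num)
  have h4 : τ * Λ ^ (n + 1) ≤ 1 := le_trans (mul_le_mul_of_nonneg_left (h2.trans h3) hτ.le) hτR
  rw [pow_succ] at h4
  have h5 : 0 < Λ ^ n := by positivity
  have h6 : τ * Λ ^ n * 10 ^ 6 ≤ τ * Λ ^ n * Λ := mul_le_mul_of_nonneg_left hΛ (by positivity)
  nlinarith

theorem Win.mono {q : MvPolynomial (Fin 2) ℝ} {Λ R θ0 τ : ℝ} {Φ : ℝ → ℝ} {k : ℕ}
    {pts : ℕ → ℤ × ℤ} (hw : Win q Λ R θ0 τ Φ k pts) {s t : ℕ} (hst : s ≤ t) (ht : t ≤ k) :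
    (pts s).1 ≤ (pts t).1 := by
  induction t with
  | zero =>
    have : s = 0 := by omega
    rw [this]
  | succ t ih =>
    rcases Nat.lt_or_ge s (t + 1) with h | h
    · exact (ih (by omega) (by omega)).trans (hw.inc t (by omega)).le
    · have : s = t + 1 := by omega
      rw [this]

theorem Win.mem {q : MvPolynomial (Fin 2) ℝ} {Λ R θ0 τ : ℝ} {Φ : ℝ → ℝ} {k : ℕ}
    {pts : ℕ → ℤ × ℤ} (hw : Win q Λ R θ0 τ Φ k pts) {t : ℕ} (ht : t ≤ k) :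
    ((pts t).1 : ℝ) ∈ Icc ((pts 0).1 : ℝ) (pts k).1 := by
  constructor
  · exact_mod_cast hw.mono (Nat.zero_le t) ht
  · exact_mod_cast hw.mono ht le_rfl

theorem Win.step_one {q : MvPolynomial (Fin 2) ℝ} {Λ R θ0 τ : ℝ} {Φ : ℝ → ℝ} {k : ℕ}
    {pts : ℕ → ℤ × ℤ} (hw : Win q Λ R θ0 τ Φ k pts) {t : ℕ} (ht : t < k) :
    1 ≤ ((pts (t + 1)).1 : ℝ) - (pts t).1 := by
  have h := hw.inc t ht
  have h' : 1 ≤ (pts (t + 1)).1 - (pts t).1 := by omega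
  exact_mod_cast h'

theorem Win.chord {q : MvPolynomial (Fin 2) ℝ} {Λ R θ0 τ : ℝ} {Φ : ℝ → ℝ} {k : ℕ}
    {pts : ℕ → ℤ × ℤ} (hw : Win q Λ R θ0 τ Φ k pts) {s : ℕ} (hs : s < k) :
    |(Φ (pts (s + 1)).1 - Φ (pts s).1) / (((pts (s + 1)).1 : ℝ) - (pts s).1) -
      slv (pts (s + 1) - pts s)| ≤ 2 * τ := by
  have h1 := hw.step_one hs
  have h2 := abs_le.1 (hw.near (s + 1) (by omega))
  have h3 := abs_le.1 (hw.near s (by omega))
  set x : ℝ := ((pts (s + 1)).1 : ℝ) - (pts s).1 with hx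
  have hx0 : 0 < x := by linarith
  have e : (Φ (pts (s + 1)).1 - Φ (pts s).1) / x - slv (pts (s + 1) - pts s) =
      ((Φ (pts (s + 1)).1 - (pts (s + 1)).2) - (Φ (pts s).1 - (pts s).2)) / x := by
    unfold slv
    simp only [Prod.snd_sub, Prod.fst_sub, Int.cast_sub]
    rw [← hx]
    field_simp
    ring
  rw [e, abs_div, abs_of_pos hx0, div_le_iff₀ hx0]
  have hτ0 : 0 ≤ τ := le_trans (abs_nonneg _) (hw.near s (by omega))
  have h4 : |(Φ (pts (s + 1)).1 - (pts (s + 1)).2) - (Φ (pts s).1 - (pts s).2)| ≤ 2 * τ := by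
    rw [abs_le]
    constructor <;> linarith
  nlinarith

theorem Win.mvt {q : MvPolynomial (Fin 2) ℝ} {Λ R θ0 τ : ℝ} {Φ : ℝ → ℝ} {k : ℕ}
    {pts : ℕ → ℤ × ℤ} (hw : Win q Λ R θ0 τ Φ k pts) {a b : ℝ} (hab : a < b)
    (ha : a ∈ Icc ((pts 0).1 : ℝ) (pts k).1) (hb : b ∈ Icc ((pts 0).1 : ℝ) (pts k).1) :
    ∃ ξ ∈ Ioo a b, D1 q ξ (Φ ξ) = (Φ b - Φ a) / (b - a) := by
  have hsub : Icc a b ⊆ Icc ((pts 0).1 : ℝ) (pts k).1 := Icc_subset_Icc ha.1 hb.2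
  apply exists_hasDerivAt_eq_slope Φ (fun x => D1 q x (Φ x)) hab (hw.arc.cont.mono hsub)
  intro x hx
  refine (arc_deriv hw.arc x (hsub (Ioo_subset_Icc_self hx))).hasDerivAt ?_
  exact Icc_mem_nhds (lt_of_le_of_lt ha.1 hx.1) (lt_of_lt_of_le hx.2 hb.2)

theorem Win.lip {q : MvPolynomial (Fin 2) ℝ} {Λ R θ0 τ : ℝ} {Φ : ℝ → ℝ} {k : ℕ}
    {pts : ℕ → ℤ × ℤ} (hw : Win q Λ R θ0 τ Φ k pts) {C : ℝ}
    (hC : ∀ x ∈ Icc ((pts 0).1 : ℝ) (pts k).1, |D2 q x (Φ x)| ≤ C) {x y : ℝ}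
    (hx : x ∈ Icc ((pts 0).1 : ℝ) (pts k).1) (hy : y ∈ Icc ((pts 0).1 : ℝ) (pts k).1) :
    |D1 q y (Φ y) - D1 q x (Φ x)| ≤ C * |y - x| := by
  have := Convex.norm_image_sub_le_of_norm_hasDerivWithin_le
    (f := fun t => D1 q t (Φ t)) (f' := fun t => D2 q t (Φ t))
    (s := Icc ((pts 0).1 : ℝ) (pts k).1) (C := C) (fun t ht => arc_deriv2 hw.arc t ht)
    (fun t ht => by rw [Real.norm_eq_abs]; exact hC t ht) (convex_Icc _ _) hx hy
  simpa only [Real.norm_eq_abs] using this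

/-- second difference of the slopes of the chords on the steps `t`, `t+1`. -/
theorem Win.dd {q : MvPolynomial (Fin 2) ℝ} {Λ R θ0 τ : ℝ} {Φ : ℝ → ℝ} {k : ℕ}
    {pts : ℕ → ℤ × ℤ} (hw : Win q Λ R θ0 τ Φ k pts) {κ1 κ2 σ : ℝ} (hσ : σ = 1 ∨ σ = -1)
    (hD : ∀ x ∈ Icc ((pts 0).1 : ℝ) (pts k).1, κ1 ≤ σ * D2 q x (Φ x) ∧ σ * D2 q x (Φ x) ≤ κ2)
    {t : ℕ} (ht : t + 2 ≤ k) :
    κ1 * (((pts (t + 2)).1 : ℝ) - (pts t).1) / 2 - 4 * τ ≤
      σ * (slv (pts (t + 2) - pts (t + 1)) - slv (pts (t + 1) - pts t)) ∧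
    σ * (slv (pts (t + 2) - pts (t + 1)) - slv (pts (t + 1) - pts t)) ≤
      κ2 * (((pts (t + 2)).1 : ℝ) - (pts t).1) / 2 + 4 * τ := by
  have a1 := hw.step_one (t := t) (by omega)
  have a2 := hw.step_one (t := t + 1) (by omega)
  have c1 := abs_le.1 (hw.chord (s := t) (by omega))
  have c2 := abs_le.1 (hw.chord (s := t + 1) (by omega))
  have m0 := hw.mem (t := t) (by omega)
  have m2 := hw.mem (t := t + 2) (by omega)
  have hsub : Icc ((pts t).1 : ℝ) (pts (t + 2)).1 ⊆ Icc ((pts 0).1 : ℝ) (pts k).1 :=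
    Icc_subset_Icc m0.1 m2.2
  have harc : Arc q (pts t).1 (pts (t + 2)).1 Φ :=
    ⟨hw.arc.cont.mono hsub, fun x hx => hw.arc.zero x (hsub hx), fun x hx => hw.arc.ne x (hsub hx)⟩
  have l1 : ((pts t).1 : ℝ) < (pts (t + 1)).1 := by linarith
  have l2 : ((pts (t + 1)).1 : ℝ) < (pts (t + 2)).1 := by
    have : ((pts (t + 1 + 1)).1 : ℝ) = (pts (t + 2)).1 := rfl
    linarith
  have c2' := c2
  rw [show t + 1 + 1 = t + 2 from rfl] at c2'
  rcases hσ with rfl | rfl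
  · have h := divdiff (κ1 := κ1) (κ2 := κ2) harc l1 l2 (fun x hx => by
      have := hD x (hsub hx)
      rwa [one_mul] at this)
    constructor <;> linarith [h.1, h.2]
  · have h := divdiff (κ1 := -κ2) (κ2 := -κ1) harc l1 l2 (fun x hx => by
      have := hD x (hsub hx)
      constructor <;> linarith [this.1, this.2])
    constructor <;> linarith [h.1, h.2]

theorem window_kappa {q : MvPolynomial (Fin 2) ℝ} {Λ R θ0 τ : ℝ} {Φ : ℝ → ℝ} {k : ℕ} {pts : ℕ → ℤ × ℤ}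
    (hΛ : 10 ^ 6 ≤ Λ) (hR : Λ ^ 400000 ≤ R) (hτ : 0 < τ) (hτR : τ * R ^ 20 ≤ 1)
    (hw : Win q Λ R θ0 τ Φ k pts) {t : ℕ} (ht : t + 3 ≤ k) (hg : gidx q Λ θ0 (R ^ 4 * τ) Φ pts t) :
    ∃ κ σ : ℝ, (σ = 1 ∨ σ = -1) ∧ kmin Λ ≤ κ ∧ κ ≤ 2 * (Λ ^ 5904)⁻¹ ∧
      ∀ x ∈ Icc ((pts 0).1 : ℝ) (pts k).1, κ ≤ σ * D2 q x (Φ x) ∧ σ * D2 q x (Φ x) ≤ κ * (1 + rh Λ) := by
  have hΛ0 : 0 < Λ := by linarith
  have hΛ1 : 1 ≤ Λ := by linarith
  have hR1 : Λ ≤ R := le_trans (by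
    calc Λ = Λ ^ 1 := (pow_one _).symm
      _ ≤ Λ ^ 400000 := pow_le_pow_right₀ hΛ1 (by norm_num)) hR
  have hR6 : (10 : ℝ) ^ 6 ≤ R := hΛ.trans hR1
  have hR0 : 0 < R := by linarith
  obtain ⟨g1, g2, _⟩ := hg
  obtain ⟨s0, hn0⟩ := g1 t (by simp)
  obtain ⟨s1, _⟩ := g1 (t + 1) (by simp)
  obtain ⟨p1, p2, _⟩ := s0
  obtain ⟨p3, p4, _⟩ := s1
  simp only [Prod.fst_sub, Int.cast_sub] at p1 p2 p3 p4
  rw [show t + 1 + 1 = t + 2 from rfl] at p3 p4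
  set κ0 : ℝ := R ^ 3 * τ / 4 with hκ0
  have hκ0p : 0 < κ0 := by positivity
  have hDc := D2_cont hw.arc
  have hI0 := hw.mem (t := t) (by omega)
  have hI1 := hw.mem (t := t + 1) (by omega)
  have x01 := hw.step_one (t := t) (by omega)
  have x12 := hw.step_one (t := t + 1) (by omega)
  rw [show t + 1 + 1 = t + 2 from rfl] at x12
  have hav : ∀ x ∈ Icc ((pts 0).1 : ℝ) (pts k).1, |D2 q x (Φ x)| ≠ κ0 := by
    intro x hx h
    exact hw.lvl x hx (Or.inl h)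
  -- the second derivative is not tiny
  have hbig : ∀ x ∈ Icc ((pts 0).1 : ℝ) (pts k).1, κ0 < |D2 q x (Φ x)| := by
    by_contra hcon
    push Not at hcon
    obtain ⟨x0, hx0, hx0'⟩ := hcon
    have hall := avoid_lt hDc.abs hav hx0 (lt_of_le_of_ne hx0' (hav x0 hx0))
    obtain ⟨x, hx, hxl⟩ := hn0
    have hxI : x ∈ Icc ((pts 0).1 : ℝ) (pts k).1 := ⟨hI0.1.trans hx.1, hx.2.trans hI1.2⟩
    obtain ⟨ξ, hξ, hξe⟩ := hw.mvt (by linarith) hI0 hI1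
    have hξI : ξ ∈ Icc ((pts 0).1 : ℝ) (pts k).1 := ⟨hI0.1.trans hξ.1.le, hξ.2.le.trans hI1.2⟩
    have h1 := hw.lip (fun y hy => (hall y hy).le) hξI hxI
    have h2 := hw.chord (s := t) (by omega)
    rw [← hξe] at h2
    have h3 : |x - ξ| ≤ R := by
      have hl := hw.len
      push_cast at hl
      rw [abs_le]
      constructor <;> linarith [hxI.1, hxI.2, hξI.1, hξI.2]
    have h4 : |D1 q x (Φ x) - slv (pts (t + 1) - pts t)| ≤ κ0 * R + 2 * τ := by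
      calc |D1 q x (Φ x) - slv (pts (t + 1) - pts t)|
          = |(D1 q x (Φ x) - D1 q ξ (Φ ξ)) + (D1 q ξ (Φ ξ) - slv (pts (t + 1) - pts t))| := by ring_nf
        _ ≤ |D1 q x (Φ x) - D1 q ξ (Φ ξ)| + |D1 q ξ (Φ ξ) - slv (pts (t + 1) - pts t)| :=
            abs_add_le _ _
        _ ≤ κ0 * R + 2 * τ := by
            have := mul_le_mul_of_nonneg_left h3 hκ0p.le
            linarith
    have h5 : κ0 * R = R ^ 4 * τ / 4 := by rw [hκ0]; ring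
    have h6 : (4 : ℝ) < R ^ 4 := by
      have : R ≤ R ^ 4 := le_self_pow₀ (by linarith) (by norm_num)
      linarith
    have h7 : 4 * τ < R ^ 4 * τ := mul_lt_mul_of_pos_right h6 hτ
    linarith
  -- the sign
  obtain ⟨σ, hσ, hpos⟩ : ∃ σ : ℝ, (σ = 1 ∨ σ = -1) ∧
      ∀ x ∈ Icc ((pts 0).1 : ℝ) (pts k).1, κ0 < σ * D2 q x (Φ x) := by
    have hne : ∀ x ∈ Icc ((pts 0).1 : ℝ) (pts k).1, D2 q x (Φ x) ≠ 0 := by
      intro x hx h
      have := hbig x hx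
      rw [h, abs_zero] at this
      linarith
    by_cases h0 : 0 < D2 q (pts t).1 (Φ (pts t).1)
    · refine ⟨1, Or.inl rfl, ?_⟩
      have := avoid_gt hDc hne hI0 h0
      intro x hx
      rw [one_mul, ← abs_of_pos (this x hx)]
      exact hbig x hx
    · refine ⟨-1, Or.inr rfl, ?_⟩
      have h0' : D2 q (pts t).1 (Φ (pts t).1) < 0 := lt_of_le_of_ne (not_lt.1 h0) (hne _ hI0)
      have := avoid_lt hDc hne hI0 h0'
      intro x hx
      rw [neg_one_mul, ← abs_of_neg (this x hx)]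
      exact hbig x hx
  have hEc : ContinuousOn (fun x => σ * D2 q x (Φ x)) (Icc ((pts 0).1 : ℝ) (pts k).1) :=
    hDc.const_smul σ
  have habs : ∀ x ∈ Icc ((pts 0).1 : ℝ) (pts k).1, |D2 q x (Φ x)| = σ * D2 q x (Φ x) := by
    intro x hx
    have h1 := hpos x hx
    have h2 : |σ * D2 q x (Φ x)| = |D2 q x (Φ x)| := by
      rcases hσ with rfl | rfl
      · rw [one_mul]
      · rw [neg_one_mul, abs_neg]
    rw [← h2, abs_of_pos (by linarith)]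
  -- the slopes
  have T1 := CR3_tau_small hΛ hR hτ hτR 4012 (by norm_num)
  have T2 := CR3_tau_small hΛ hR hτ hτR 3936 (by norm_num)
  have T0 := CR3_tau_small hΛ hR hτ hτR 0 (by norm_num)
  have L1 : 0 < Λ ^ 4012 := by positivity
  have L2 : 0 < Λ ^ 3936 := by positivity
  have hx02 : ((pts (t + 2)).1 : ℝ) - (pts t).1 =
      (((pts (t + 1)).1 : ℝ) - (pts t).1) + (((pts (t + 2)).1 : ℝ) - (pts (t + 1)).1) := by ring
  have hdd0 : 0 < σ * (slv (pts (t + 2) - pts (t + 1)) - slv (pts (t + 1) - pts t)) := by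
    by_contra hcon
    obtain ⟨B, hB⟩ : ∃ B, ∀ x ∈ Icc ((pts 0).1 : ℝ) (pts k).1, σ * D2 q x (Φ x) ≤ B := by
      obtain ⟨B, hB⟩ := isCompact_Icc.bddAbove_image hEc
      exact ⟨B, fun x hx => hB (mem_image_of_mem _ hx)⟩
    have h1 := (hw.dd hσ (fun x hx => ⟨(hpos x hx).le, hB x hx⟩) (t := t) (by omega)).1
    have h2 : κ0 * 1 ≤ κ0 * (((pts (t + 2)).1 : ℝ) - (pts t).1) / 2 := by
      have : κ0 * 2 ≤ κ0 * (((pts (t + 2)).1 : ℝ) - (pts t).1) :=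
        mul_le_mul_of_nonneg_left (by linarith) hκ0p.le
      linarith
    have h3 : 4 * τ < κ0 := by
      have h6 : (16 : ℝ) < R ^ 3 := by
        have : R ≤ R ^ 3 := le_self_pow₀ (by linarith) (by norm_num)
        linarith
      have h7 : 16 * τ < R ^ 3 * τ := mul_lt_mul_of_pos_right h6 hτ
      rw [hκ0]
      linarith
    linarith
  have hdd1 : (Λ ^ 4012)⁻¹ ≤ σ * (slv (pts (t + 2) - pts (t + 1)) - slv (pts (t + 1) - pts t)) := by
    -- the cross product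
    set X : ℝ := ((pts (t + 1)).1 : ℝ) - (pts t).1 with hX
    set Y : ℝ := ((pts (t + 2)).1 : ℝ) - (pts (t + 1)).1 with hY
    have hX0 : 0 < X := by linarith
    have hY0 : 0 < Y := by linarith
    obtain ⟨n, hn⟩ : ∃ n : ℤ, (n : ℝ) =
        X * Y * (σ * (slv (pts (t + 2) - pts (t + 1)) - slv (pts (t + 1) - pts t))) := by
      obtain ⟨m, hm⟩ : ∃ m : ℤ, (m : ℝ) =
          X * Y * (slv (pts (t + 2) - pts (t + 1)) - slv (pts (t + 1) - pts t)) := by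
        refine ⟨((pts (t + 1)).1 - (pts t).1) * ((pts (t + 2)).2 - (pts (t + 1)).2) -
          ((pts (t + 1)).2 - (pts t).2) * ((pts (t + 2)).1 - (pts (t + 1)).1), ?_⟩
        unfold slv
        simp only [Prod.snd_sub, Prod.fst_sub, Int.cast_sub, Int.cast_mul]
        rw [← hX, ← hY]
        field_simp
      rcases hσ with rfl | rfl
      · exact ⟨m, by rw [hm, one_mul]⟩
      · exact ⟨-m, by push_cast; rw [hm]; ring⟩
    have hn1 : (1 : ℝ) ≤ n := by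
      have : (0 : ℝ) < n := by rw [hn]; positivity
      have : 0 < n := by exact_mod_cast this
      exact_mod_cast this
    have hXY : X * Y ≤ Λ ^ 4012 := by
      calc X * Y ≤ Λ ^ 2006 * Λ ^ 2006 := mul_le_mul p2 p4 hY0.le (by positivity)
        _ = Λ ^ 4012 := by rw [← pow_add]
    rw [inv_le_iff_one_le_mul₀ L1]
    calc (1 : ℝ) ≤ n := hn1
      _ = (σ * (slv (pts (t + 2) - pts (t + 1)) - slv (pts (t + 1) - pts t))) * (X * Y) := by
          rw [hn]; ring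
      _ ≤ (σ * (slv (pts (t + 2) - pts (t + 1)) - slv (pts (t + 1) - pts t))) * Λ ^ 4012 :=
          mul_le_mul_of_nonneg_left hXY hdd0.le
  -- a value above `kmin`
  have hkmin : 0 < kmin Λ := by unfold kmin; positivity
  obtain ⟨x1, hx1, hx1'⟩ : ∃ x ∈ Icc ((pts 0).1 : ℝ) (pts k).1, kmin Λ < σ * D2 q x (Φ x) := by
    by_contra hcon
    push Not at hcon
    have h1 := (hw.dd hσ (fun x hx => ⟨(hpos x hx).le, hcon x hx⟩) (t := t) (by omega)).2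
    have h2 : kmin Λ * (((pts (t + 2)).1 : ℝ) - (pts t).1) / 2 ≤ (Λ ^ 4012)⁻¹ / 2 := by
      have h3 : ((pts (t + 2)).1 : ℝ) - (pts t).1 ≤ 2 * Λ ^ 2006 := by linarith
      have h4 : kmin Λ * (((pts (t + 2)).1 : ℝ) - (pts t).1) ≤ kmin Λ * (2 * Λ ^ 2006) :=
        mul_le_mul_of_nonneg_left h3 hkmin.le
      have h5 : kmin Λ * (2 * Λ ^ 2006) = (Λ ^ 4012)⁻¹ := by
        unfold kmin
        have : Λ ^ 6018 = Λ ^ 4012 * Λ ^ 2006 := by rw [← pow_add]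
        rw [this]
        field_simp
      linarith
    have h6 : 4 * τ < (Λ ^ 4012)⁻¹ / 2 := by
      have h7 : 8 * τ * Λ ^ 4012 < 1 := by nlinarith
      have h8 : 8 * τ < (Λ ^ 4012)⁻¹ := by
        rw [lt_inv_comm₀ (by positivity) L1]
        rw [lt_inv_comm₀ L1 (by positivity)]
        rw [← one_div, lt_div_iff₀ L1]
        exact h7
      linarith
    linarith
  -- a value below `2Λ^-5904`
  obtain ⟨x2, hx2, hx2'⟩ : ∃ x ∈ Icc ((pts 0).1 : ℝ) (pts k).1,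
      σ * D2 q x (Φ x) < 2 * (Λ ^ 5904)⁻¹ := by
    by_contra hcon
    push Not at hcon
    obtain ⟨B, hB⟩ : ∃ B, ∀ x ∈ Icc ((pts 0).1 : ℝ) (pts k).1, σ * D2 q x (Φ x) ≤ B := by
      obtain ⟨B, hB⟩ := isCompact_Icc.bddAbove_image hEc
      exact ⟨B, fun x hx => hB (mem_image_of_mem _ hx)⟩
    have h1 := (hw.dd hσ (fun x hx => ⟨hcon x hx, hB x hx⟩) (t := t) (by omega)).1
    have h2 : 2 * (Λ ^ 3936)⁻¹ ≤ 2 * (Λ ^ 5904)⁻¹ * (((pts (t + 2)).1 : ℝ) - (pts t).1) / 2 := by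
      have h3 : 2 * Λ ^ 1968 ≤ ((pts (t + 2)).1 : ℝ) - (pts t).1 := by linarith
      have h4 : 2 * (Λ ^ 5904)⁻¹ * (2 * Λ ^ 1968) ≤
          2 * (Λ ^ 5904)⁻¹ * (((pts (t + 2)).1 : ℝ) - (pts t).1) :=
        mul_le_mul_of_nonneg_left h3 (by positivity)
      have h5 : 2 * (Λ ^ 5904)⁻¹ * (2 * Λ ^ 1968) = 4 * (Λ ^ 3936)⁻¹ := by
        have : Λ ^ 5904 = Λ ^ 3936 * Λ ^ 1968 := by rw [← pow_add]
        rw [this]
        field_simp
        ring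
      linarith
    have h6 : 4 * τ < (Λ ^ 3936)⁻¹ := by
      have h7 : 4 * τ * Λ ^ 3936 < 1 := by nlinarith
      rw [← one_div, lt_div_iff₀ L2]
      exact h7
    have h7 : σ * (slv (pts (t + 2) - pts (t + 1)) - slv (pts (t + 1) - pts t)) < (Λ ^ 3936)⁻¹ := by
      have h8 : |σ * (slv (pts (t + 2) - pts (t + 1)) - slv (pts (t + 1) - pts t))| < io Λ := by
        rcases hσ with rfl | rfl
        · rw [one_mul]; exact g2
        · rw [neg_one_mul, abs_neg]; exact g2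
      exact lt_of_le_of_lt (le_abs_self _) h8
    linarith
  -- the component
  have hrh : 0 < rh Λ := by unfold rh; positivity
  have hkmax : kmax Λ = 4 * (Λ ^ 5904)⁻¹ := rfl
  have hkk : kmin Λ ≤ 2 * (Λ ^ 5904)⁻¹ := by
    unfold kmin
    have h1 : (Λ ^ 6018)⁻¹ ≤ (Λ ^ 5904)⁻¹ :=
      inv_anti₀ (by positivity) (pow_le_pow_right₀ hΛ1 (by norm_num))
    have h2 : 0 < (Λ ^ 5904)⁻¹ := by positivity
    linarith
  have hlev : ∀ n : ℕ, kmin Λ * (1 + rh Λ) ^ n ≤ (1 + rh Λ) * kmax Λ →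
      ∀ x ∈ Icc ((pts 0).1 : ℝ) (pts k).1, σ * D2 q x (Φ x) ≠ kmin Λ * (1 + rh Λ) ^ n := by
    intro n hn x hx h
    exact hw.lvl x hx (Or.inr ⟨n, by rw [habs x hx, h], hn⟩)
  have hinv : 0 < (Λ ^ 5904)⁻¹ := by positivity
  have hlow : ∀ x ∈ Icc ((pts 0).1 : ℝ) (pts k).1, kmin Λ < σ * D2 q x (Φ x) := by
    have h0 := hlev 0 (by
      rw [pow_zero, mul_one, hkmax]
      nlinarith)
    rw [pow_zero, mul_one] at h0
    exact avoid_gt hEc h0 hx1 hx1'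
  obtain ⟨n, hn1, hn2⟩ := exists_nat_pow_near (x := σ * D2 q x2 (Φ x2) / kmin Λ) (y := 1 + rh Λ)
    (by rw [le_div_iff₀ hkmin, one_mul]; exact (hlow x2 hx2).le) (by linarith)
  have hn1' : kmin Λ * (1 + rh Λ) ^ n ≤ σ * D2 q x2 (Φ x2) := by
    rw [le_div_iff₀ hkmin] at hn1
    linarith
  have hn2' : σ * D2 q x2 (Φ x2) < kmin Λ * (1 + rh Λ) ^ (n + 1) := by
    rw [div_lt_iff₀ hkmin] at hn2
    linarith
  have hc1 : kmin Λ * (1 + rh Λ) ^ n ≤ (1 + rh Λ) * kmax Λ := by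
    rw [hkmax]
    nlinarith
  have hc2 : kmin Λ * (1 + rh Λ) ^ (n + 1) ≤ (1 + rh Λ) * kmax Λ := by
    have h1 : kmin Λ * (1 + rh Λ) ^ (n + 1) = (1 + rh Λ) * (kmin Λ * (1 + rh Λ) ^ n) := by ring
    rw [h1, hkmax]
    apply mul_le_mul_of_nonneg_left _ (by linarith)
    linarith
  refine ⟨kmin Λ * (1 + rh Λ) ^ n, σ, hσ, ?_, by linarith, ?_⟩
  · have : (1 : ℝ) ≤ (1 + rh Λ) ^ n := one_le_pow₀ (by linarith)
    nlinarith
  · intro x hx
    have k1 := avoid_gt hEc (hlev n hc1) hx2 (lt_of_le_of_ne hn1' (hlev n hc1 x2 hx2).symm) x hx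
    have k2 := avoid_lt hEc (hlev (n + 1) hc2) hx2 hn2' x hx
    refine ⟨k1.le, ?_⟩
    have h1 : kmin Λ * (1 + rh Λ) ^ (n + 1) = kmin Λ * (1 + rh Λ) ^ n * (1 + rh Λ) := by ring
    rw [← h1]
    exact k2.le

end MuntzF
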