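import Pool.Agent.Lib.MP_dde81e_full.CR2
import Pool.Agent.Lib.MP_dde81e_full.CR3

/-!
Module CR4 (text 9.1 (3), second part): two good indices t < t' of a window cannot have the same triple of cross products.
V1,V2,V3 the three steps at t, a = V1×V2, a' = V2×V3, b = V1×V3, identity a' V1 - b V2 + a V3 = 0 (first coordinates: hypothesis h1 of CR2).  By CR3 and divdiff
σ a = κ x1 x2 (x1+x2)/2 (1+e), |e| ≤ 2ρ (error 4τ of the slopes is absorbed: κ(x1+x2) ≥ kmin).  CR2 (applied with σa, σa', σb): |x1'-x1| ≤ 40ρ x1 ≤ 40 Λ^249 ≤ Λ^250.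
g = V1' - V1.  slopes: D1 moves by ≤ κ(1+ρ) (k+3) Λ^2237 ≤ 8Λ^-3436 in the window (κ ≤ 2Λ^-5904, k ≤ 2Λ^231), so |sl'-sl| ≤ 8Λ^-3436+4τ ≤ 9Λ^-3436; |sl-θ0| ≤ Λ^-1946.
|g_y - θ0 g_x| = |(x1'-x1)(sl'-θ0) + x1 (sl'-sl)| ≤ Λ^250 Λ^-1946 + 9 Λ^2006 Λ^-3436 ≤ Λ^-1429.  g ≠ 0 since σ sl' > σ sl (D2 σ ≥ κ ≥ kmin, t<t').  g_x = 0 gives |g_y| < 1, g_y = 0: contradiction.
So |θ0 - g_y/g_x| ≤ Λ^-1429/|g_x|: contradiction with Minor.
-/

namespace MuntzF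
open Set

theorem inv_pow_mul {Λ : ℝ} (h : 0 < Λ) (a b : ℕ) : (Λ ^ (a + b))⁻¹ * Λ ^ b = (Λ ^ a)⁻¹ := by
  rw [pow_add]
  have h1 : Λ ^ a ≠ 0 := by positivity
  have h2 : Λ ^ b ≠ 0 := by positivity
  field_simp

theorem inv_pow_mul' {Λ : ℝ} (h : 0 < Λ) (a b : ℕ) : (Λ ^ a)⁻¹ * Λ ^ (a + b) = Λ ^ b := by
  rw [pow_add]
  have h1 : Λ ^ a ≠ 0 := by positivity
  field_simp

theorem cross_slv (v w : ℤ × ℤ) (hv : (v.1 : ℝ) ≠ 0) (hw : (w.1 : ℝ) ≠ 0) :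
    (v.1 : ℝ) * w.2 - v.2 * w.1 = v.1 * w.1 * (slv w - slv v) := by
  unfold slv
  field_simp

theorem Win.dist {q : MvPolynomial (Fin 2) ℝ} {Λ R θ0 τ : ℝ} {Φ : ℝ → ℝ} {k : ℕ}
    {pts : ℕ → ℤ × ℤ} (hw : Win q Λ R θ0 τ Φ k pts) {s : ℕ} (n : ℕ) (hn : s + n ≤ k) :
    ((pts (s + n)).1 : ℝ) - (pts s).1 ≤ n * Λ ^ 2237 := by
  induction n with
  | zero => simp
  | succ n ih =>
    have h1 := ih (by omega)
    have h2 := hw.short (s + n) (by omega)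
    push_cast at h2 ⊢
    rw [show s + (n + 1) = s + n + 1 from rfl]
    linarith

/-- size of the cross product of two consecutive steps -/
theorem Win.cross_size {q : MvPolynomial (Fin 2) ℝ} {Λ R θ0 τ : ℝ} {Φ : ℝ → ℝ} {k : ℕ}
    {pts : ℕ → ℤ × ℤ} (hw : Win q Λ R θ0 τ Φ k pts) {κ σ : ℝ} (hσ : σ = 1 ∨ σ = -1)
    (hD : ∀ x ∈ Icc ((pts 0).1 : ℝ) (pts k).1, κ ≤ σ * D2 q x (Φ x) ∧
      σ * D2 q x (Φ x) ≤ κ * (1 + rh Λ)) (hκ : 0 < κ) (hρ : 0 < rh Λ) (h4 : 4 * τ ≤ rh Λ * κ)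
    {t : ℕ} (ht : t + 2 ≤ k) : ∃ e : ℝ, |e| ≤ 2 * rh Λ ∧
      σ * (((pts (t + 1) - pts t).1 : ℝ) * (pts (t + 2) - pts (t + 1)).2 -
        (pts (t + 1) - pts t).2 * (pts (t + 2) - pts (t + 1)).1) =
      κ * (pts (t + 1) - pts t).1 * (pts (t + 2) - pts (t + 1)).1 *
        ((pts (t + 1) - pts t).1 + (pts (t + 2) - pts (t + 1)).1) / 2 * (1 + e) := by
  have a1 := hw.step_one (t := t) (by omega)
  have a2 := hw.step_one (t := t + 1) (by omega)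
  rw [show t + 1 + 1 = t + 2 from rfl] at a2
  have e1 : ((pts (t + 1) - pts t).1 : ℝ) = ((pts (t + 1)).1 : ℝ) - (pts t).1 := by
    simp only [Prod.fst_sub, Int.cast_sub]
  have e2 : ((pts (t + 2) - pts (t + 1)).1 : ℝ) = ((pts (t + 2)).1 : ℝ) - (pts (t + 1)).1 := by
    simp only [Prod.fst_sub, Int.cast_sub]
  have hd := hw.dd hσ hD (t := t) ht
  rw [cross_slv _ _ (by rw [e1]; linarith) (by rw [e2]; linarith)]
  set X : ℝ := ((pts (t + 1) - pts t).1 : ℝ) with hX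
  set Y : ℝ := ((pts (t + 2) - pts (t + 1)).1 : ℝ) with hY
  have hXY : ((pts (t + 2)).1 : ℝ) - (pts t).1 = X + Y := by rw [e1, e2]; ring
  rw [hXY] at hd
  have hX1 : 1 ≤ X := by rw [e1]; exact a1
  have hY1 : 1 ≤ Y := by rw [e2]; exact a2
  set S : ℝ := slv (pts (t + 2) - pts (t + 1)) - slv (pts (t + 1) - pts t) with hS
  have hB : 0 < κ * (X + Y) / 2 := by positivity
  have h5 : 4 * τ ≤ rh Λ * (κ * (X + Y) / 2) := by
    have : κ * 1 ≤ κ * ((X + Y) / 2) := mul_le_mul_of_nonneg_left (by linarith) hκ.le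
    have h6 : rh Λ * (κ * 1) ≤ rh Λ * (κ * ((X + Y) / 2)) := mul_le_mul_of_nonneg_left this hρ.le
    have h7 : rh Λ * (κ * ((X + Y) / 2)) = rh Λ * (κ * (X + Y) / 2) := by ring
    linarith
  refine ⟨σ * S / (κ * (X + Y) / 2) - 1, ?_, ?_⟩
  · rw [abs_le]
    constructor
    · have : (1 - 2 * rh Λ) ≤ σ * S / (κ * (X + Y) / 2) := by
        rw [le_div_iff₀ hB]
        nlinarith [hd.1]
      linarith
    · have : σ * S / (κ * (X + Y) / 2) ≤ 1 + 2 * rh Λ := by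
        rw [div_le_iff₀ hB]
        have h8 : κ * (1 + rh Λ) * (X + Y) / 2 = (1 + rh Λ) * (κ * (X + Y) / 2) := by ring
        have h9 := hd.2
        rw [h8] at h9
        linarith
      linarith
  · have h6 : (1 + (σ * S / (κ * (X + Y) / 2) - 1)) = σ * S / (κ * (X + Y) / 2) := by ring
    rw [h6]
    have h7 : κ ≠ 0 := hκ.ne'
    have h8 : X + Y ≠ 0 := by linarith
    field_simp

/-- the slopes of the steps are monotone -/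
theorem Win.slope_mono {q : MvPolynomial (Fin 2) ℝ} {Λ R θ0 τ : ℝ} {Φ : ℝ → ℝ} {k : ℕ}
    {pts : ℕ → ℤ × ℤ} (hw : Win q Λ R θ0 τ Φ k pts) {κ κ' σ : ℝ} (hσ : σ = 1 ∨ σ = -1)
    (hD : ∀ x ∈ Icc ((pts 0).1 : ℝ) (pts k).1, κ ≤ σ * D2 q x (Φ x) ∧
      σ * D2 q x (Φ x) ≤ κ') (hκ : 4 * τ < κ) (hκ0 : 0 < κ) {t : ℕ} (n : ℕ)
    (ht : t + n + 2 ≤ k) :
    σ * slv (pts (t + 1) - pts t) < σ * slv (pts (t + n + 2) - pts (t + n + 1)) := by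
  have step : ∀ s, s + 2 ≤ k →
      σ * slv (pts (s + 1) - pts s) < σ * slv (pts (s + 2) - pts (s + 1)) := by
    intro s hs
    have hd := (hw.dd hσ hD (t := s) hs).1
    have a1 := hw.step_one (t := s) (by omega)
    have a2 := hw.step_one (t := s + 1) (by omega)
    rw [show s + 1 + 1 = s + 2 from rfl] at a2
    have h1 : κ * 2 ≤ κ * (((pts (s + 2)).1 : ℝ) - (pts s).1) :=
      mul_le_mul_of_nonneg_left (by linarith) hκ0.le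
    have h2 : σ * (slv (pts (s + 2) - pts (s + 1)) - slv (pts (s + 1) - pts s)) =
      σ * slv (pts (s + 2) - pts (s + 1)) - σ * slv (pts (s + 1) - pts s) := by ring
    linarith
  induction n with
  | zero => exact step t ht
  | succ n ih =>
    have h1 := ih (by omega)
    have h2 := step (t + n + 1) (by omega)
    exact h1.trans h2

theorem window_distinct {q : MvPolynomial (Fin 2) ℝ} {Λ R θ0 τ : ℝ} {Φ : ℝ → ℝ} {k : ℕ} {pts : ℕ → ℤ × ℤ}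
    (hΛ : 10 ^ 6 ≤ Λ) (hR : Λ ^ 400000 ≤ R) (hτ : 0 < τ) (hτR : τ * R ^ 20 ≤ 1)
    (hw : Win q Λ R θ0 τ Φ k pts) (hk : (k : ℝ) ≤ 2 * Λ ^ 231) (hm : Minor Λ θ0) {t t' : ℕ}
    (htt : t < t') (ht' : t' + 3 ≤ k) (hg : gidx q Λ θ0 (R ^ 4 * τ) Φ pts t)
    (hg' : gidx q Λ θ0 (R ^ 4 * τ) Φ pts t') (V W : Fin 3 → ℤ × ℤ)
    (hV : ∀ i : Fin 3, V i = pts (t + i + 1) - pts (t + i))
    (hW : ∀ i : Fin 3, W i = pts (t' + i + 1) - pts (t' + i))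
    (h01 : (V 0).1 * (V 1).2 - (V 0).2 * (V 1).1 = (W 0).1 * (W 1).2 - (W 0).2 * (W 1).1)
    (h12 : (V 1).1 * (V 2).2 - (V 1).2 * (V 2).1 = (W 1).1 * (W 2).2 - (W 1).2 * (W 2).1)
    (h02 : (V 0).1 * (V 2).2 - (V 0).2 * (V 2).1 = (W 0).1 * (W 2).2 - (W 0).2 * (W 2).1) :
    False := by
  have hΛ0 : 0 < Λ := by linarith
  have hΛ1 : 1 ≤ Λ := by linarith
  obtain ⟨κ, σ, hσ, hκ1, hκ2, hD⟩ := window_kappa hΛ hR hτ hτR hw (by omega) hg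
  have hkmin : 0 < kmin Λ := by unfold kmin; positivity
  have hκ : 0 < κ := by linarith
  have hρ : 0 < rh Λ := by unfold rh; positivity
  have hρ1 : rh Λ ≤ 1 / 1000 := by
    unfold rh
    rw [one_div]
    apply inv_anti₀ (by norm_num)
    calc (1000 : ℝ) ≤ Λ := by linarith
      _ = Λ ^ 1 := (pow_one _).symm
      _ ≤ Λ ^ 1757 := pow_le_pow_right₀ hΛ1 (by norm_num)
  -- `τ` is tiny
  have T1 := CR3_tau_small hΛ hR hτ hτR 7775 (by norm_num)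
  have T2 := CR3_tau_small hΛ hR hτ hτR 3436 (by norm_num)
  have P1 : 0 < Λ ^ 7775 := by positivity
  have P2 : 0 < Λ ^ 3436 := by positivity
  have h4 : 4 * τ ≤ rh Λ * κ := by
    have e1 : rh Λ * kmin Λ = (Λ ^ 7775)⁻¹ / 2 := by
      unfold rh kmin
      rw [show (7775 : ℕ) = 1757 + 6018 from rfl, pow_add]
      field_simp
    have e2 : 8 * τ ≤ (Λ ^ 7775)⁻¹ := by
      rw [← one_div, le_div_iff₀ P1]
      have : 0 < τ * Λ ^ 7775 := by positivity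
      nlinarith
    have e3 : rh Λ * kmin Λ ≤ rh Λ * κ := mul_le_mul_of_nonneg_left hκ1 hρ.le
    linarith
  have h4' : 4 * τ < κ := by
    have : rh Λ * κ ≤ 1 / 1000 * κ := mul_le_mul_of_nonneg_right hρ1 hκ.le
    linarith
  -- the steps
  have v0 : V 0 = pts (t + 1) - pts t := hV 0
  have v1 : V 1 = pts (t + 2) - pts (t + 1) := hV 1
  have v2 : V 2 = pts (t + 3) - pts (t + 2) := hV 2
  have w0 : W 0 = pts (t' + 1) - pts t' := hW 0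
  have w1 : W 1 = pts (t' + 2) - pts (t' + 1) := hW 1
  have w2 : W 2 = pts (t' + 3) - pts (t' + 2) := hW 2
  have gs0 := (hg.1 t (by simp)).1
  have gs1 := (hg.1 (t + 1) (by simp)).1
  have gs2 := (hg.1 (t + 2) (by simp)).1
  have gt0 := (hg'.1 t' (by simp)).1
  have gt1 := (hg'.1 (t' + 1) (by simp)).1
  have gt2 := (hg'.1 (t' + 2) (by simp)).1
  rw [show t + 1 + 1 = t + 2 from rfl, ← v1] at gs1
  rw [show t + 2 + 1 = t + 3 from rfl, ← v2] at gs2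
  rw [show t' + 1 + 1 = t' + 2 from rfl, ← w1] at gt1
  rw [show t' + 2 + 1 = t' + 3 from rfl, ← w2] at gt2
  rw [← v0] at gs0
  rw [← w0] at gt0
  have L0 : 0 < Λ ^ 1968 := by positivity
  have px0 : 0 < ((V 0).1 : ℝ) := lt_of_lt_of_le L0 gs0.1
  have px1 : 0 < ((V 1).1 : ℝ) := lt_of_lt_of_le L0 gs1.1
  have px2 : 0 < ((V 2).1 : ℝ) := lt_of_lt_of_le L0 gs2.1
  have py0 : 0 < ((W 0).1 : ℝ) := lt_of_lt_of_le L0 gt0.1
  have py1 : 0 < ((W 1).1 : ℝ) := lt_of_lt_of_le L0 gt1.1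
  have py2 : 0 < ((W 2).1 : ℝ) := lt_of_lt_of_le L0 gt2.1
  obtain ⟨e1, he1, ha⟩ := hw.cross_size hσ hD hκ hρ h4 (t := t) (by omega)
  obtain ⟨e2, he2, ha'⟩ := hw.cross_size hσ hD hκ hρ h4 (t := t + 1) (by omega)
  obtain ⟨e3, he3, hb⟩ := hw.cross_size hσ hD hκ hρ h4 (t := t') (by omega)
  obtain ⟨e4, he4, hb'⟩ := hw.cross_size hσ hD hκ hρ h4 (t := t' + 1) (by omega)
  rw [show t + 1 + 1 = t + 2 from rfl, show t + 1 + 2 = t + 3 from rfl, ← v1, ← v2] at ha'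
  rw [show t' + 1 + 1 = t' + 2 from rfl, show t' + 1 + 2 = t' + 3 from rfl, ← w1, ← w2] at hb'
  rw [← v0, ← v1] at ha
  rw [← w0, ← w1] at hb
  have r01 : ((V 0).1 : ℝ) * (V 1).2 - (V 0).2 * (V 1).1 = (W 0).1 * (W 1).2 - (W 0).2 * (W 1).1 := by
    exact_mod_cast h01
  have r12 : ((V 1).1 : ℝ) * (V 2).2 - (V 1).2 * (V 2).1 = (W 1).1 * (W 2).2 - (W 1).2 * (W 2).1 := by
    exact_mod_cast h12
  have r02 : ((V 0).1 : ℝ) * (V 2).2 - (V 0).2 * (V 2).1 = (W 0).1 * (W 2).2 - (W 0).2 * (W 2).1 := by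
    exact_mod_cast h02
  have hclose := triple_close (κ := κ) (ρ := rh Λ) (x1 := (V 0).1) (x2 := (V 1).1) (x3 := (V 2).1)
    (y1 := (W 0).1) (y2 := (W 1).1) (y3 := (W 2).1)
    (a := σ * (((V 0).1 : ℝ) * (V 1).2 - (V 0).2 * (V 1).1))
    (a' := σ * (((V 1).1 : ℝ) * (V 2).2 - (V 1).2 * (V 2).1))
    (b := σ * (((V 0).1 : ℝ) * (V 2).2 - (V 0).2 * (V 2).1))
    hκ hρ hρ1 px0 px1 px2 py0 py1 py2 (by ring) (by rw [r01, r12, r02]; ring)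
    he1 he2 he3 he4 ha ha' (by rw [r01]; exact hb) (by rw [r12]; exact hb')
  have hgx : |((W 0).1 : ℝ) - (V 0).1| ≤ Λ ^ 250 := by
    refine hclose.trans ?_
    calc 40 * rh Λ * ((V 0).1 : ℝ) ≤ 40 * rh Λ * Λ ^ 2006 :=
          mul_le_mul_of_nonneg_left gs0.2.1 (by positivity)
      _ = 40 * ((Λ ^ 1757)⁻¹ * Λ ^ (1757 + 249)) := by unfold rh; ring
      _ = 40 * Λ ^ 249 := by rw [inv_pow_mul' hΛ0]
      _ ≤ Λ * Λ ^ 249 := mul_le_mul_of_nonneg_right (by linarith) (by positivity)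
      _ = Λ ^ 250 := by rw [← pow_succ']
  -- the slopes
  have hsl' : |slv (W 0) - θ0| ≤ (Λ ^ 1946)⁻¹ := by
    have h5 : slv (W 0) - θ0 = (((W 0).2 : ℝ) - θ0 * (W 0).1) / (W 0).1 := by
      unfold slv
      field_simp
    rw [h5, abs_div, abs_of_pos py0, div_le_iff₀ py0]
    calc |((W 0).2 : ℝ) - θ0 * (W 0).1| ≤ Λ ^ 22 := gt0.2.2
      _ = (Λ ^ 1946)⁻¹ * Λ ^ (1946 + 22) := by rw [inv_pow_mul' hΛ0]
      _ ≤ (Λ ^ 1946)⁻¹ * (W 0).1 := mul_le_mul_of_nonneg_left gt0.1 (by positivity)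
  have hdist : ((pts (t' + 1)).1 : ℝ) - (pts t).1 ≤ 2 * Λ ^ 2468 := by
    have h5 := hw.dist (s := t) (t' + 1 - t) (by omega)
    rw [show t + (t' + 1 - t) = t' + 1 by omega] at h5
    refine h5.trans ?_
    have h6 : ((t' + 1 - t : ℕ) : ℝ) ≤ k := by exact_mod_cast (by omega : t' + 1 - t ≤ k)
    calc ((t' + 1 - t : ℕ) : ℝ) * Λ ^ 2237 ≤ (2 * Λ ^ 231) * Λ ^ 2237 :=
          mul_le_mul_of_nonneg_right (h6.trans hk) (by positivity)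
      _ = 2 * Λ ^ 2468 := by rw [mul_assoc, ← pow_add]
  have hss : |slv (W 0) - slv (V 0)| ≤ 9 * (Λ ^ 3436)⁻¹ := by
    have m0 := hw.mem (t := t) (by omega)
    have m1 := hw.mem (t := t + 1) (by omega)
    have n0 := hw.mem (t := t') (by omega)
    have n1 := hw.mem (t := t' + 1) (by omega)
    have s0 := hw.step_one (t := t) (by omega)
    have s1 := hw.step_one (t := t') (by omega)
    obtain ⟨ξ, hξ, hξe⟩ := hw.mvt (by linarith) m0 m1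
    obtain ⟨ζ, hζ, hζe⟩ := hw.mvt (by linarith) n0 n1
    have hξI : ξ ∈ Icc ((pts 0).1 : ℝ) (pts k).1 := ⟨m0.1.trans hξ.1.le, hξ.2.le.trans m1.2⟩
    have hζI : ζ ∈ Icc ((pts 0).1 : ℝ) (pts k).1 := ⟨n0.1.trans hζ.1.le, hζ.2.le.trans n1.2⟩
    have c1 := hw.chord (s := t) (by omega)
    have c2 := hw.chord (s := t') (by omega)
    rw [← hξe, ← v0] at c1
    rw [← hζe, ← w0] at c2
    have hDb : ∀ x ∈ Icc ((pts 0).1 : ℝ) (pts k).1, |D2 q x (Φ x)| ≤ κ * (1 + rh Λ) := by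
      intro x hx
      have h5 := hD x hx
      have h6 : |σ * D2 q x (Φ x)| = |D2 q x (Φ x)| := by
        rcases hσ with rfl | rfl
        · rw [one_mul]
        · rw [neg_one_mul, abs_neg]
      rw [← h6, abs_of_pos (by linarith)]
      exact h5.2
    have hl := hw.lip hDb hξI hζI
    have mt : ((pts (t + 1)).1 : ℝ) ≤ (pts t').1 := by exact_mod_cast hw.mono (by omega) (by omega)
    have hdz : |ζ - ξ| ≤ 2 * Λ ^ 2468 := by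
      rw [abs_le]
      have : 0 < Λ ^ 2468 := by positivity
      constructor
      · linarith [hξ.1, hξ.2, hζ.1, hζ.2]
      · linarith [hξ.1, hξ.2, hζ.1, hζ.2]
    have h5 : κ * (1 + rh Λ) * |ζ - ξ| ≤ 8 * (Λ ^ 3436)⁻¹ := by
      calc κ * (1 + rh Λ) * |ζ - ξ| ≤ (2 * (Λ ^ 5904)⁻¹ * 2) * (2 * Λ ^ 2468) := by
            apply mul_le_mul _ hdz (abs_nonneg _) (by positivity)
            apply mul_le_mul hκ2 (by linarith) (by linarith) (by positivity)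
        _ = 8 * ((Λ ^ (3436 + 2468))⁻¹ * Λ ^ 2468) := by ring
        _ = 8 * (Λ ^ 3436)⁻¹ := by rw [inv_pow_mul hΛ0]
    have h6 : 4 * τ ≤ (Λ ^ 3436)⁻¹ := by
      rw [← one_div, le_div_iff₀ P2]
      have : 0 < τ * Λ ^ 3436 := by positivity
      nlinarith
    calc |slv (W 0) - slv (V 0)| = |(D1 q ζ (Φ ζ) - D1 q ξ (Φ ξ)) -
          (D1 q ζ (Φ ζ) - slv (W 0)) + (D1 q ξ (Φ ξ) - slv (V 0))| := by ring_nf
      _ ≤ |(D1 q ζ (Φ ζ) - D1 q ξ (Φ ξ)) - (D1 q ζ (Φ ζ) - slv (W 0))| +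
          |D1 q ξ (Φ ξ) - slv (V 0)| := abs_add_le _ _
      _ ≤ (|D1 q ζ (Φ ζ) - D1 q ξ (Φ ξ)| + |D1 q ζ (Φ ζ) - slv (W 0)|) +
          |D1 q ξ (Φ ξ) - slv (V 0)| := by
          have := abs_sub (D1 q ζ (Φ ζ) - D1 q ξ (Φ ξ)) (D1 q ζ (Φ ζ) - slv (W 0))
          linarith
      _ ≤ 9 * (Λ ^ 3436)⁻¹ := by linarith
  -- the difference vector
  have hgy : |(((W 0).2 : ℝ) - (V 0).2) - θ0 * (((W 0).1 : ℝ) - (V 0).1)| ≤ (Λ ^ 1429)⁻¹ := by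
    have e5 : (((W 0).2 : ℝ) - (V 0).2) - θ0 * (((W 0).1 : ℝ) - (V 0).1) =
        (((W 0).1 : ℝ) - (V 0).1) * (slv (W 0) - θ0) + (V 0).1 * (slv (W 0) - slv (V 0)) := by
      unfold slv
      field_simp
      ring
    have h5 : |(((W 0).1 : ℝ) - (V 0).1) * (slv (W 0) - θ0)| ≤ (Λ ^ 1430)⁻¹ := by
      rw [abs_mul]
      calc |((W 0).1 : ℝ) - (V 0).1| * |slv (W 0) - θ0| ≤ Λ ^ 250 * (Λ ^ 1946)⁻¹ :=
            mul_le_mul hgx hsl' (abs_nonneg _) (by positivity)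
        _ = (Λ ^ (1696 + 250))⁻¹ * Λ ^ 250 := by ring
        _ = (Λ ^ 1696)⁻¹ := inv_pow_mul hΛ0 _ _
        _ ≤ (Λ ^ 1430)⁻¹ := inv_anti₀ (by positivity) (pow_le_pow_right₀ hΛ1 (by norm_num))
    have h6 : |((V 0).1 : ℝ) * (slv (W 0) - slv (V 0))| ≤ 9 * (Λ ^ 1430)⁻¹ := by
      rw [abs_mul, abs_of_pos px0]
      calc ((V 0).1 : ℝ) * |slv (W 0) - slv (V 0)| ≤ Λ ^ 2006 * (9 * (Λ ^ 3436)⁻¹) :=
            mul_le_mul gs0.2.1 hss (abs_nonneg _) (by positivity)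
        _ = 9 * ((Λ ^ (1430 + 2006))⁻¹ * Λ ^ 2006) := by ring
        _ = 9 * (Λ ^ 1430)⁻¹ := by rw [inv_pow_mul hΛ0]
    have h7 : 10 * (Λ ^ 1430)⁻¹ ≤ (Λ ^ 1429)⁻¹ := by
      have h8 : (Λ ^ 1429)⁻¹ = Λ * (Λ ^ 1430)⁻¹ := by
        rw [show (1430 : ℕ) = 1429 + 1 from rfl, pow_succ]
        field_simp
      rw [h8]
      exact mul_le_mul_of_nonneg_right (by linarith) (by positivity)
    rw [e5]
    have h9 := abs_add_le ((((W 0).1 : ℝ) - (V 0).1) * (slv (W 0) - θ0))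
      ((V 0).1 * (slv (W 0) - slv (V 0)))
    linarith
  have hne : slv (W 0) ≠ slv (V 0) := by
    obtain ⟨n, hn⟩ : ∃ n, t' = t + n + 1 := ⟨t' - t - 1, by omega⟩
    have h5 := hw.slope_mono hσ hD h4' hκ (t := t) n (by omega)
    rw [show t + n + 2 = t' + 1 by omega, show t + n + 1 = t' from hn.symm, ← v0, ← w0] at h5
    intro h6
    rw [h6] at h5
    exact lt_irrefl _ h5
  have hlt1 : (Λ ^ 1429)⁻¹ < 1 := by
    apply inv_lt_one_of_one_lt₀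
    exact one_lt_pow₀ (by linarith) (by norm_num)
  rcases lt_trichotomy ((W 0).1 - (V 0).1) 0 with h0 | h0 | h0
  · -- negative
    have h5 := hm (-((W 0).2 - (V 0).2)) (-((W 0).1 - (V 0).1)) (by omega) (by
      push_cast
      have := neg_le_abs (((W 0).1 : ℝ) - (V 0).1)
      linarith)
    push_cast at h5
    have h6 : (((W 0).1 : ℝ) - (V 0).1) ≤ -1 := by
      have : (W 0).1 - (V 0).1 ≤ -1 := by omega
      exact_mod_cast this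
    rw [neg_div_neg_eq] at h5
    have h7 : θ0 - (((W 0).2 : ℝ) - (V 0).2) / (((W 0).1 : ℝ) - (V 0).1) =
        -((((W 0).2 : ℝ) - (V 0).2) - θ0 * (((W 0).1 : ℝ) - (V 0).1)) /
          (((W 0).1 : ℝ) - (V 0).1) := by
      have : (((W 0).1 : ℝ) - (V 0).1) ≠ 0 := by linarith
      field_simp
      ring
    rw [h7, abs_div, abs_neg] at h5
    have h8 : 1 ≤ |(((W 0).1 : ℝ) - (V 0).1)| := by
      rw [abs_of_neg (by linarith)]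
      linarith
    have h9 : |(((W 0).2 : ℝ) - (V 0).2) - θ0 * (((W 0).1 : ℝ) - (V 0).1)| /
        |(((W 0).1 : ℝ) - (V 0).1)| ≤ |(((W 0).2 : ℝ) - (V 0).2) - θ0 * (((W 0).1 : ℝ) - (V 0).1)| :=
      div_le_self (abs_nonneg _) h8
    linarith
  · -- zero
    have h5 : (((W 0).1 : ℝ) - (V 0).1) = 0 := by exact_mod_cast h0
    rw [h5, mul_zero, sub_zero] at hgy
    have h6 : |(((W 0).2 - (V 0).2 : ℤ) : ℝ)| < 1 := by
      push_cast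
      linarith
    have h7 : (W 0).2 - (V 0).2 = 0 := by
      have h8 : |(W 0).2 - (V 0).2| < 1 := by exact_mod_cast h6
      exact Int.abs_lt_one_iff.1 h8
    apply hne
    have h8 : W 0 = V 0 := Prod.ext (by omega) (by omega)
    rw [h8]
  · -- positive
    have h5 := hm ((W 0).2 - (V 0).2) ((W 0).1 - (V 0).1) (by omega) (by
      push_cast
      exact (le_abs_self _).trans hgx)
    push_cast at h5
    have h6 : 1 ≤ (((W 0).1 : ℝ) - (V 0).1) := by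
      have : 1 ≤ (W 0).1 - (V 0).1 := by omega
      exact_mod_cast this
    have h7 : θ0 - (((W 0).2 : ℝ) - (V 0).2) / (((W 0).1 : ℝ) - (V 0).1) =
        -((((W 0).2 : ℝ) - (V 0).2) - θ0 * (((W 0).1 : ℝ) - (V 0).1)) /
          (((W 0).1 : ℝ) - (V 0).1) := by
      have : (((W 0).1 : ℝ) - (V 0).1) ≠ 0 := by linarith
      field_simp
      ring
    rw [h7, abs_div, abs_neg] at h5
    have h8 : 1 ≤ |(((W 0).1 : ℝ) - (V 0).1)| := by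
      rw [abs_of_pos (by linarith)]
      exact h6
    have h9 : |(((W 0).2 : ℝ) - (V 0).2) - θ0 * (((W 0).1 : ℝ) - (V 0).1)| /
        |(((W 0).1 : ℝ) - (V 0).1)| ≤ |(((W 0).2 : ℝ) - (V 0).2) - θ0 * (((W 0).1 : ℝ) - (V 0).1)| :=
      div_le_self (abs_nonneg _) h8
    linarith

/-- a cross product is bounded by the lengths and the difference of the slopes -/
theorem cross_le {Λ B : ℝ} (hΛ0 : 0 < Λ) {v w : ℤ × ℤ} (hv0 : 0 < (v.1 : ℝ)) (hw0 : 0 < (w.1 : ℝ))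
    (hv : (v.1 : ℝ) ≤ Λ ^ 2006) (hw : (w.1 : ℝ) ≤ Λ ^ 2006)
    (hB : |slv w - slv v| ≤ B * (Λ ^ 3936)⁻¹) (hB0 : 0 ≤ B) :
    |(v.1 : ℝ) * w.2 - v.2 * w.1| ≤ B * Λ ^ 76 := by
  rw [cross_slv v w hv0.ne' hw0.ne', abs_mul, abs_of_pos (mul_pos hv0 hw0)]
  calc (v.1 : ℝ) * w.1 * |slv w - slv v| ≤ (Λ ^ 2006 * Λ ^ 2006) * (B * (Λ ^ 3936)⁻¹) := by
        apply mul_le_mul _ hB (abs_nonneg _) (by positivity)
        exact mul_le_mul hv hw hw0.le (by positivity)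
    _ = B * ((Λ ^ 3936)⁻¹ * Λ ^ (3936 + 76)) := by ring
    _ = B * Λ ^ 76 := by rw [inv_pow_mul' hΛ0]

/-- Pigeonhole: the cross products are integers of absolute value ≤ Λ^76, Λ^76, 2Λ^76. -/
theorem window_count {q : MvPolynomial (Fin 2) ℝ} {Λ R θ0 τ : ℝ} {Φ : ℝ → ℝ} {k : ℕ} {pts : ℕ → ℤ × ℤ}
    (hΛ : 10 ^ 6 ≤ Λ) (hR : Λ ^ 400000 ≤ R) (hτ : 0 < τ) (hτR : τ * R ^ 20 ≤ 1)
    (hw : Win q Λ R θ0 τ Φ k pts) (hk : (k : ℝ) ≤ 2 * Λ ^ 231) (hm : Minor Λ θ0) (G : Finset ℕ)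
    (hG : ∀ t ∈ G, t + 3 ≤ k ∧ gidx q Λ θ0 (R ^ 4 * τ) Φ pts t) : (G.card : ℝ) ≤ Λ ^ 229 := by
  classical
  have hΛ0 : 0 < Λ := by linarith
  have hΛ1 : 1 ≤ Λ := by linarith
  let st : ℕ → ℤ × ℤ := fun s => pts (s + 1) - pts s
  let F : ℕ → ℤ × ℤ × ℤ := fun t =>
    ((st t).1 * (st (t + 1)).2 - (st t).2 * (st (t + 1)).1,
      (st (t + 1)).1 * (st (t + 2)).2 - (st (t + 1)).2 * (st (t + 2)).1,
      (st t).1 * (st (t + 2)).2 - (st t).2 * (st (t + 2)).1)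
  have hlt : ∀ t ∈ G, ∀ t' ∈ G, t < t' → F t ≠ F t' := by
    intro t ht t' ht' htt h
    simp only [F, Prod.mk.injEq] at h
    obtain ⟨h1, h2, h3⟩ := h
    refine window_distinct hΛ hR hτ hτR hw hk hm htt (hG t' ht').1 (hG t ht).2 (hG t' ht').2
      (fun i => st (t + i)) (fun i => st (t' + i)) (fun i => rfl) (fun i => rfl) h1 h2 h3
  have hinj : Set.InjOn F G := by
    intro t ht t' ht' h
    rcases lt_trichotomy t t' with h1 | h1 | h1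
    · exact absurd h (hlt t ht t' ht' h1)
    · exact h1
    · exact absurd h.symm (hlt t' ht' t ht h1)
  have L0 : 0 < Λ ^ 1968 := by positivity
  have LB : 1 ≤ Λ ^ 76 := one_le_pow₀ hΛ1
  have hmaps : ∀ t ∈ G, F t ∈ (Finset.Icc (-⌊Λ ^ 76⌋) ⌊Λ ^ 76⌋) ×ˢ
      ((Finset.Icc (-⌊Λ ^ 76⌋) ⌊Λ ^ 76⌋) ×ˢ (Finset.Icc (-⌊2 * Λ ^ 76⌋) ⌊2 * Λ ^ 76⌋)) := by
    intro t ht
    obtain ⟨g1, g2, g3⟩ := (hG t ht).2
    have gs0 := (g1 t (by simp)).1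
    have gs1 := (g1 (t + 1) (by simp)).1
    have gs2 := (g1 (t + 2) (by simp)).1
    have px0 : 0 < ((st t).1 : ℝ) := lt_of_lt_of_le L0 gs0.1
    have px1 : 0 < ((st (t + 1)).1 : ℝ) := lt_of_lt_of_le L0 gs1.1
    have px2 : 0 < ((st (t + 2)).1 : ℝ) := lt_of_lt_of_le L0 gs2.1
    have k1 : |slv (st (t + 1)) - slv (st t)| ≤ 1 * (Λ ^ 3936)⁻¹ := by
      rw [one_mul]; exact g2.le
    have k2 : |slv (st (t + 2)) - slv (st (t + 1))| ≤ 1 * (Λ ^ 3936)⁻¹ := by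
      rw [one_mul]; exact g3.le
    have k3 : |slv (st (t + 2)) - slv (st t)| ≤ 2 * (Λ ^ 3936)⁻¹ := by
      have h5 := abs_sub_le (slv (st (t + 2))) (slv (st (t + 1))) (slv (st t))
      linarith
    have b1 := cross_le hΛ0 px0 px1 gs0.2.1 gs1.2.1 k1 (by norm_num)
    have b2 := cross_le hΛ0 px1 px2 gs1.2.1 gs2.2.1 k2 (by norm_num)
    have b3 := cross_le hΛ0 px0 px2 gs0.2.1 gs2.2.1 k3 (by norm_num)
    have key : ∀ (m : ℤ) (B : ℝ), |(m : ℝ)| ≤ B → m ∈ Finset.Icc (-⌊B⌋) ⌊B⌋ := by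
      intro m B h
      rw [abs_le] at h
      rw [Finset.mem_Icc]
      constructor
      · have : -m ≤ ⌊B⌋ := Int.le_floor.2 (by push_cast; linarith)
        omega
      · exact Int.le_floor.2 h.2
    simp only [F, Finset.mem_product]
    refine ⟨key _ _ ?_, key _ _ ?_, key _ _ ?_⟩
    · push_cast
      rw [one_mul] at b1
      exact b1
    · push_cast
      rw [one_mul] at b2
      exact b2
    · push_cast
      exact b3
  have hcard := Finset.card_le_card_of_injOn F hmaps hinj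
  rw [Finset.card_product, Finset.card_product, Int.card_Icc, Int.card_Icc] at hcard
  have f1 : 0 ≤ ⌊Λ ^ 76⌋ := Int.floor_nonneg.2 (by positivity)
  have f2 : 0 ≤ ⌊2 * Λ ^ 76⌋ := Int.floor_nonneg.2 (by positivity)
  have n1 : (((⌊Λ ^ 76⌋ + 1 - -⌊Λ ^ 76⌋).toNat : ℕ) : ℝ) ≤ 3 * Λ ^ 76 := by
    have e : (((⌊Λ ^ 76⌋ + 1 - -⌊Λ ^ 76⌋).toNat : ℕ) : ℤ) = ⌊Λ ^ 76⌋ + 1 - -⌊Λ ^ 76⌋ :=
      Int.toNat_of_nonneg (by omega)
    have e' : (((⌊Λ ^ 76⌋ + 1 - -⌊Λ ^ 76⌋).toNat : ℕ) : ℝ) =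
        ((⌊Λ ^ 76⌋ + 1 - -⌊Λ ^ 76⌋ : ℤ) : ℝ) := by exact_mod_cast e
    rw [e']
    push_cast
    have := Int.floor_le (Λ ^ 76)
    linarith
  have n2 : (((⌊2 * Λ ^ 76⌋ + 1 - -⌊2 * Λ ^ 76⌋).toNat : ℕ) : ℝ) ≤ 5 * Λ ^ 76 := by
    have e : (((⌊2 * Λ ^ 76⌋ + 1 - -⌊2 * Λ ^ 76⌋).toNat : ℕ) : ℤ) =
        ⌊2 * Λ ^ 76⌋ + 1 - -⌊2 * Λ ^ 76⌋ := Int.toNat_of_nonneg (by omega)
    have e' : (((⌊2 * Λ ^ 76⌋ + 1 - -⌊2 * Λ ^ 76⌋).toNat : ℕ) : ℝ) =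
        ((⌊2 * Λ ^ 76⌋ + 1 - -⌊2 * Λ ^ 76⌋ : ℤ) : ℝ) := by exact_mod_cast e
    rw [e']
    push_cast
    have := Int.floor_le (2 * Λ ^ 76)
    linarith
  have hcard' : (G.card : ℝ) ≤ ((⌊Λ ^ 76⌋ + 1 - -⌊Λ ^ 76⌋).toNat : ℝ) *
      (((⌊Λ ^ 76⌋ + 1 - -⌊Λ ^ 76⌋).toNat : ℝ) *
        ((⌊2 * Λ ^ 76⌋ + 1 - -⌊2 * Λ ^ 76⌋).toNat : ℝ)) := by exact_mod_cast hcard
  refine hcard'.trans ?_
  calc ((⌊Λ ^ 76⌋ + 1 - -⌊Λ ^ 76⌋).toNat : ℝ) * (((⌊Λ ^ 76⌋ + 1 - -⌊Λ ^ 76⌋).toNat : ℝ) *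
        ((⌊2 * Λ ^ 76⌋ + 1 - -⌊2 * Λ ^ 76⌋).toNat : ℝ))
      ≤ (3 * Λ ^ 76) * ((3 * Λ ^ 76) * (5 * Λ ^ 76)) := by
        apply mul_le_mul n1 _ (by positivity) (by positivity)
        exact mul_le_mul n1 n2 (by positivity) (by positivity)
    _ = 45 * Λ ^ 228 := by ring
    _ ≤ Λ * Λ ^ 228 := mul_le_mul_of_nonneg_right (by linarith) (by positivity)
    _ = Λ ^ 229 := by rw [← pow_succ']

end MuntzF
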