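import Mathlib

/-!
Module CR5 (text 9.1 (4)): double counting, pure combinatorics.
`itn nx n P` iterated partial map.  nx maps Zs to Zs, is injective and increases h.  B = bad points (contains all P without successor), G = good points.
For P in Zs clean = it exists and is not in B for all t < k.  Sum over clean P of #{t ≤ k-3 : P_t ∈ G} ≤ T #Zs.  For Q in G and t ≤ k-3: the t-th predecessor of Q
either does not exist (at most k * #{P in Zs without predecessor} such Q for each t, and #{no predecessor} = #{no successor} ≤ #B: nx is a bijection from {has successor} to {has predecessor}),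
or exists and is not clean (at most #nonclean ≤ k #B such Q for each t: a nonclean P has some P_s ∈ B, s < k, and for given s and P_s there is at most one P), or is clean.
So (k-2) #G ≤ T #Zs + 2 k^2 #B.
-/

namespace MuntzF

def itn {α : Type*} (nx : α → Option α) : ℕ → α → Option α
  | 0, P => some P
  | n + 1, P => (itn nx n P).bind nx

theorem itn_inj {α : Type*} {nx : α → Option α}
    (hinj : ∀ P P' Q, nx P = some Q → nx P' = some Q → P = P') :
    ∀ (t : ℕ) (P P' Q : α), itn nx t P = some Q → itn nx t P' = some Q → P = P' := by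
  intro t
  induction t with
  | zero =>
    intro P P' Q h h'
    simp only [itn, Option.some.injEq] at h h'
    rw [h, h']
  | succ t ih =>
    intro P P' Q h h'
    simp only [itn, Option.bind_eq_some_iff] at h h'
    obtain ⟨R, hR, hRQ⟩ := h
    obtain ⟨R', hR', hRQ'⟩ := h'
    have := hinj _ _ _ hRQ hRQ'
    subst this
    exact ih _ _ _ hR hR'

theorem itn_mem {α : Type*} {nx : α → Option α} {Zs : Finset α}
    (hmem : ∀ P P', nx P = some P' → P' ∈ Zs) :
    ∀ (t : ℕ) (P Q : α), P ∈ Zs → itn nx t P = some Q → Q ∈ Zs := by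
  intro t
  induction t with
  | zero =>
    intro P Q hP h
    simp only [itn, Option.some.injEq] at h
    rw [← h]; exact hP
  | succ t ih =>
    intro P Q hP h
    simp only [itn, Option.bind_eq_some_iff] at h
    obtain ⟨R, hR, hRQ⟩ := h
    exact hmem _ _ hRQ

theorem itn_left {α : Type*} {nx : α → Option α} {P' P : α} (h : nx P' = some P) :
    ∀ n : ℕ, itn nx (n + 1) P' = itn nx n P := by
  intro n
  induction n with
  | zero => simp [itn, h]
  | succ n ih =>
    rw [itn, ih]
    rfl

theorem itn_pred {α : Type*} {nx : α → Option α} {Zs : Finset α} :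
    ∀ (t : ℕ) (Q : α), Q ∈ Zs → (∃ P ∈ Zs, itn nx t P = some Q) ∨
      ∃ s, s < t ∧ ∃ R ∈ Zs, (∀ P ∈ Zs, nx P ≠ some R) ∧ itn nx s R = some Q := by
  intro t
  induction t with
  | zero => intro Q hQ; exact Or.inl ⟨Q, hQ, rfl⟩
  | succ t ih =>
    intro Q hQ
    rcases ih Q hQ with ⟨P, hP, hPQ⟩ | ⟨s, hs, R, hR, hR2, hRQ⟩
    · by_cases hpr : ∃ P' ∈ Zs, nx P' = some P
      · obtain ⟨P', hP', hn⟩ := hpr
        exact Or.inl ⟨P', hP', by rw [itn_left hn, hPQ]⟩
      · push Not at hpr
        exact Or.inr ⟨t, Nat.lt_succ_self t, P, hP, hpr, hPQ⟩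
    · exact Or.inr ⟨s, Nat.lt_succ_of_lt hs, R, hR, hR2, hRQ⟩

theorem itn_clean {α : Type*} {nx : α → Option α} {Zs B : Finset α} {k : ℕ}
    (hmem : ∀ P P', nx P = some P' → P' ∈ Zs) (hB : ∀ P ∈ Zs, nx P = none → P ∈ B)
    {P : α} (hP : P ∈ Zs) (h : ¬ ∀ t < k, ∃ Q, itn nx t P = some Q ∧ Q ∉ B) :
    ∃ s, s < k ∧ ∃ Q ∈ B, itn nx s P = some Q := by
  by_contra hc
  push Not at hc
  apply h
  have key : ∀ t, t < k → ∃ Q, itn nx t P = some Q := by
    intro t
    induction t with
    | zero => intro _; exact ⟨P, rfl⟩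
    | succ t ih =>
      intro ht
      obtain ⟨Q, hQ⟩ := ih (by omega)
      have hQB : Q ∉ B := fun hb => hc t (by omega) Q hb hQ
      have hQZ := itn_mem hmem t P Q hP hQ
      rcases hn : nx Q with _ | Q'
      · exact absurd (hB Q hQZ hn) hQB
      · exact ⟨Q', by simp [itn, hQ, hn]⟩
  intro t ht
  obtain ⟨Q, hQ⟩ := key t ht
  exact ⟨Q, hQ, fun hb => hc t ht Q hb hQ⟩

theorem double_count {α : Type*} [DecidableEq α] (nx : α → Option α) (h : α → ℤ) (Zs B G : Finset α)
    (k : ℕ) (hk : 3 ≤ k) (T : ℝ) (hT : 0 ≤ T)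
    (hmem : ∀ P P', nx P = some P' → P ∈ Zs ∧ P' ∈ Zs ∧ h P < h P')
    (hinj : ∀ P P' Q, nx P = some Q → nx P' = some Q → P = P')
    (hBZ : B ⊆ Zs) (hGZ : G ⊆ Zs) (hB : ∀ P ∈ Zs, nx P = none → P ∈ B)
    (hclean : ∀ P ∈ Zs, (∀ t < k, ∃ Q, itn nx t P = some Q ∧ Q ∉ B) →
      ∀ E : Finset ℕ, (∀ t ∈ E, t + 3 ≤ k ∧ ∃ Q ∈ G, itn nx t P = some Q) → (E.card : ℝ) ≤ T) :
    ((k : ℝ) - 2) * G.card ≤ T * Zs.card + 2 * k ^ 2 * B.card := by
  classical
  have hm2 : ∀ P P', nx P = some P' → P' ∈ Zs := fun P P' h => (hmem P P' h).2.1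
  set clean : α → Prop := fun P => ∀ t < k, ∃ Q, itn nx t P = some Q ∧ Q ∉ B with hcl
  set NP : Finset α := Zs.filter (fun R => ∀ P ∈ Zs, nx P ≠ some R) with hNP
  set NC : Finset α := Zs.filter (fun P => ¬ clean P) with hNC
  set CL : Finset α := Zs.filter (fun P => clean P) with hCL
  set E : α → Finset ℕ := fun P => (Finset.range (k - 2)).filter (fun t => ∃ Q ∈ G, itn nx t P = some Q) with hE
  -- number of points without predecessor
  have cNP : NP.card ≤ B.card := by
    set HS : Finset α := Zs.filter (fun P => nx P ≠ none) with hHS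
    set NS : Finset α := Zs.filter (fun P => nx P = none) with hNS
    have h1 : HS.card + NS.card = Zs.card := by
      have := Finset.card_filter_add_card_filter_not (s := Zs) (fun P => nx P = none)
      have h0 : HS = Zs.filter (fun P => ¬ nx P = none) := by rw [hHS]
      rw [h0, hNS]
      omega
    have h2 : NS.card ≤ B.card := Finset.card_le_card (fun P hP => by
      rw [hNS, Finset.mem_filter] at hP
      exact hB P hP.1 hP.2)
    set HP : Finset α := HS.image (fun P => (nx P).getD P) with hHP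
    have h3 : HP.card = HS.card := by
      apply Finset.card_image_of_injOn
      intro P hP P' hP' hh
      rw [Finset.mem_coe, hHS, Finset.mem_filter] at hP hP'
      obtain ⟨Q, hQ⟩ := Option.ne_none_iff_exists'.mp hP.2
      obtain ⟨Q', hQ'⟩ := Option.ne_none_iff_exists'.mp hP'.2
      simp only [hQ, hQ', Option.getD_some] at hh
      subst hh
      exact hinj _ _ _ hQ hQ'
    have h4 : NP.card + HP.card ≤ Zs.card := by
      rw [← Finset.card_union_of_disjoint]
      · apply Finset.card_le_card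
        intro R hR
        rcases Finset.mem_union.mp hR with hR | hR
        · exact (Finset.mem_filter.mp hR).1
        · obtain ⟨P, hP, rfl⟩ := Finset.mem_image.mp hR
          rw [hHS, Finset.mem_filter] at hP
          obtain ⟨Q, hQ⟩ := Option.ne_none_iff_exists'.mp hP.2
          rw [hQ]
          exact hm2 _ _ hQ
      · rw [Finset.disjoint_left]
        intro R hR hR'
        obtain ⟨P, hP, hPR⟩ := Finset.mem_image.mp hR'
        rw [hHS, Finset.mem_filter] at hP
        obtain ⟨Q, hQ⟩ := Option.ne_none_iff_exists'.mp hP.2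
        have h5 := (Finset.mem_filter.mp hR).2 P hP.1
        rw [hQ, Option.getD_some] at hPR
        rw [hPR] at hQ
        exact h5 hQ
    omega
  -- number of points which are not clean
  have cNC : NC.card ≤ k * B.card := by
    have hsub : NC ⊆ (Finset.range k ×ˢ B).biUnion
        (fun x => Zs.filter (fun P => itn nx x.1 P = some x.2)) := by
      intro P hP
      rw [hNC, Finset.mem_filter] at hP
      obtain ⟨s, hs, Q, hQ, hsQ⟩ := itn_clean hm2 hB hP.1 hP.2
      rw [Finset.mem_biUnion]
      exact ⟨(s, Q), Finset.mem_product.mpr ⟨Finset.mem_range.mpr hs, hQ⟩,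
        Finset.mem_filter.mpr ⟨hP.1, hsQ⟩⟩
    calc NC.card ≤ _ := Finset.card_le_card hsub
      _ ≤ ∑ x ∈ Finset.range k ×ˢ B, (Zs.filter (fun P => itn nx x.1 P = some x.2)).card :=
        Finset.card_biUnion_le
      _ ≤ ∑ x ∈ Finset.range k ×ˢ B, 1 := by
        apply Finset.sum_le_sum
        intro x _
        apply Finset.card_le_one.mpr
        intro P hP P' hP'
        exact itn_inj hinj _ _ _ _ (Finset.mem_filter.mp hP).2 (Finset.mem_filter.mp hP').2
      _ = k * B.card := by simp
  -- the three classes of pairs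
  set S1 : Finset (ℕ × α) := CL.biUnion (fun P => (E P).image (fun t => (t, (itn nx t P).getD P))) with hS1
  set S2 : Finset (ℕ × α) := (Finset.range (k - 2) ×ˢ NC).image
    (fun x => (x.1, (itn nx x.1 x.2).getD x.2)) with hS2
  set S3 : Finset (ℕ × α) := (Finset.range (k - 2) ×ˢ (Finset.range k ×ˢ NP)).image
    (fun x => (x.1, (itn nx x.2.1 x.2.2).getD x.2.2)) with hS3
  have hsub : Finset.range (k - 2) ×ˢ G ⊆ S1 ∪ (S2 ∪ S3) := by
    rintro ⟨t, Q⟩ hx
    obtain ⟨ht, hQ⟩ := Finset.mem_product.mp hx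
    simp only at ht hQ
    rcases itn_pred (nx := nx) t Q (hGZ hQ) with ⟨P, hP, hPQ⟩ | ⟨s, hs, R, hR, hR2, hRQ⟩
    · by_cases hc : clean P
      · apply Finset.mem_union_left
        rw [hS1, Finset.mem_biUnion]
        refine ⟨P, Finset.mem_filter.mpr ⟨hP, hc⟩, Finset.mem_image.mpr ⟨t, ?_, ?_⟩⟩
        · exact Finset.mem_filter.mpr ⟨ht, Q, hQ, hPQ⟩
        · rw [hPQ, Option.getD_some]
      · apply Finset.mem_union_right
        apply Finset.mem_union_left
        rw [hS2, Finset.mem_image]
        refine ⟨(t, P), Finset.mem_product.mpr ⟨ht, Finset.mem_filter.mpr ⟨hP, hc⟩⟩, ?_⟩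
        simp only [hPQ, Option.getD_some]
    · apply Finset.mem_union_right
      apply Finset.mem_union_right
      rw [hS3, Finset.mem_image]
      have ht' := Finset.mem_range.mp ht
      refine ⟨(t, s, R), Finset.mem_product.mpr ⟨ht, Finset.mem_product.mpr
        ⟨Finset.mem_range.mpr (by show s < k; omega), Finset.mem_filter.mpr ⟨hR, hR2⟩⟩⟩, ?_⟩
      simp only [hRQ, Option.getD_some]
  have c1 : (S1.card : ℝ) ≤ T * Zs.card := by
    have h1 : S1.card ≤ ∑ P ∈ CL, (E P).card :=
      le_trans Finset.card_biUnion_le (Finset.sum_le_sum (fun P _ => Finset.card_image_le))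
    have h2 : (∑ P ∈ CL, ((E P).card : ℝ)) ≤ ∑ P ∈ CL, T := by
      apply Finset.sum_le_sum
      intro P hP
      obtain ⟨hPZ, hPc⟩ := Finset.mem_filter.mp hP
      apply hclean P hPZ hPc (E P)
      intro t ht
      obtain ⟨ht1, ht2⟩ := Finset.mem_filter.mp ht
      have := Finset.mem_range.mp ht1
      exact ⟨by omega, ht2⟩
    have h3 : (∑ P ∈ CL, T) ≤ T * Zs.card := by
      rw [Finset.sum_const, nsmul_eq_mul, mul_comm]
      apply mul_le_mul_of_nonneg_left _ hT
      exact_mod_cast Finset.card_le_card (Finset.filter_subset _ _)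
    have h4 : (S1.card : ℝ) ≤ ∑ P ∈ CL, ((E P).card : ℝ) := by exact_mod_cast h1
    linarith
  have c2 : S2.card ≤ k * (k * B.card) := by
    calc S2.card ≤ (Finset.range (k - 2) ×ˢ NC).card := Finset.card_image_le
      _ = (k - 2) * NC.card := by rw [Finset.card_product, Finset.card_range]
      _ ≤ k * (k * B.card) := Nat.mul_le_mul (Nat.sub_le _ _) cNC
  have c3 : S3.card ≤ k * (k * B.card) := by
    calc S3.card ≤ (Finset.range (k - 2) ×ˢ (Finset.range k ×ˢ NP)).card := Finset.card_image_le
      _ = (k - 2) * (k * NP.card) := by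
        rw [Finset.card_product, Finset.card_product, Finset.card_range, Finset.card_range]
      _ ≤ k * (k * B.card) := Nat.mul_le_mul (Nat.sub_le _ _) (Nat.mul_le_mul le_rfl cNP)
  have c0 : (k - 2) * G.card ≤ S1.card + (S2.card + S3.card) := by
    calc (k - 2) * G.card = (Finset.range (k - 2) ×ˢ G).card := by
          rw [Finset.card_product, Finset.card_range]
      _ ≤ (S1 ∪ (S2 ∪ S3)).card := Finset.card_le_card hsub
      _ ≤ S1.card + (S2 ∪ S3).card := Finset.card_union_le _ _
      _ ≤ S1.card + (S2.card + S3.card) := by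
          have := Finset.card_union_le S2 S3
          omega
  have hk2 : ((k - 2 : ℕ) : ℝ) = (k : ℝ) - 2 := by
    rw [Nat.cast_sub (by omega)]; norm_num
  have c0' : ((k : ℝ) - 2) * G.card ≤ (S1.card : ℝ) + (S2.card + S3.card) := by
    rw [← hk2]; exact_mod_cast c0
  have c2' : (S2.card : ℝ) ≤ k ^ 2 * B.card := by
    have : (S2.card : ℝ) ≤ k * (k * B.card) := by exact_mod_cast c2
    nlinarith
  have c3' : (S3.card : ℝ) ≤ k ^ 2 * B.card := by
    have : (S3.card : ℝ) ≤ k * (k * B.card) := by exact_mod_cast c3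
    nlinarith
  nlinarith

end MuntzF
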