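import Pool.Agent.Lib.MP_dde81e_full.G8
import Pool.Agent.Lib.MP_dde81e_full.CDefs

/-!
Module CR6 (text 9.1 (1)): number of points which are not good.
ok P (definition `okP`): P has a successor, the step is good (gstep) and not hugging.  Good P: it 0,1,2 of P are ok and consecutive slopes differ by < io.
not ok: no successor (5N^2), vx ≥ Λ^2006 (cnt_long), |vp| ≥ Λ^22 (cnt_perp), vx < Λ^1968 and |vp| < Λ^22, not hugging (cnt_dir with slopes_card 2nd bound: ≤ 8N^2 Λ^1968(2Λ^22+1)), hugging (hb).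
slope increments: P ok, P⁺ ok, |sl P⁺ - sl P| ≥ io: on one of the two arcs D1 takes a value θ0 + n io/4 with |n| io/4 ≤ 2Λ^-1946 (|sl-θ0| ≤ Λ^-1946; 4τ ≤ io/2; intermediate values on the two arcs;
D1 at the joint is the same): each such level is hit by ≤ 2·2N^2 arcs (cnt_hit, Gen.tang), number of levels ≤ 16Λ^1990+1.  nx is injective, so the shifts cost a factor 3.
-/

namespace MuntzF
open Set

variable {q : MvPolynomial (Fin 2) ℝ} {N : ℕ} {Zs : Finset (ℤ × ℤ)} {yv : ℤ × ℤ → ℝ}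

/-- the step at `P` exists, is good and not hugging. -/
def okP (ch : Chain q N Zs yv) (Λ θ0 τ0 : ℝ) (P : ℤ × ℤ) : Prop :=
  ch.nx P ≠ none ∧ gstep Λ θ0 (ch.vx P, ch.vy P) ∧ ¬ ch.hug τ0 P

/-- good point of a chain. -/
def goodP (ch : Chain q N Zs yv) (Λ θ0 τ0 : ℝ) (P : ℤ × ℤ) : Prop :=
  ∃ P1 P2 : ℤ × ℤ, ch.nx P = some P1 ∧ ch.nx P1 = some P2 ∧ okP ch Λ θ0 τ0 P ∧ okP ch Λ θ0 τ0 P1 ∧
    okP ch Λ θ0 τ0 P2 ∧ |ch.sl P1 - ch.sl P| < io Λ ∧ |ch.sl P2 - ch.sl P1| < io Λ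

/-- mean value theorem on an arc. -/
theorem cr6_mv {m m' : ℝ} {φ : ℝ → ℝ} (h : Arc q m m' φ) (hm : m < m') :
    ∃ x ∈ Icc m m', D1 q x (φ x) = (φ m' - φ m) / (m' - m) := by
  obtain ⟨c, hc, h1⟩ := exists_hasDerivAt_eq_slope φ (fun x => D1 q x (φ x)) hm h.cont (by
    intro x hx
    exact (arc_deriv h x (Ioo_subset_Icc_self hx)).hasDerivAt (Icc_mem_nhds hx.1 hx.2))
  exact ⟨c, Ioo_subset_Icc_self hc, h1⟩

theorem cr6_cont {m m' : ℝ} {φ : ℝ → ℝ} (h : Arc q m m' φ) :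
    ContinuousOn (fun x => D1 q x (φ x)) (Icc m m') :=
  fun x hx => (arc_deriv2 h x hx).continuousWithinAt

/-- the slope of the arc at `P` takes the value `σ`. -/
def hitP (ch : Chain q N Zs yv) (σ : ℝ) (P : ℤ × ℤ) : Prop :=
  ∃ P', ch.nx P = some P' ∧ ∃ x ∈ Icc (P.1 : ℝ) P'.1, D1 q x (ch.ph P x) = σ

theorem hit_card {Sg Ka Mm : Set ℝ} (hq : Gen q N Sg Ka Mm) (ch : Chain q N Zs yv) {σ : ℝ}
    (hσ : σ ∈ Sg) (K : Finset (ℤ × ℤ)) (hK : ∀ P ∈ K, hitP ch σ P) : K.card ≤ 4 * N ^ 2 := by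
  have h := cnt_hit ch {p | ev q p.1 p.2 = 0 ∧ ev (dx q) p.1 p.2 + σ * ev (dy q) p.1 p.2 = 0}
    (2 * N ^ 2) (fun T hT => hq.tang σ hσ T hT) K (by
      intro P hP
      obtain ⟨P', h1, x, hx, h2⟩ := hK P hP
      refine ⟨P', h1, x, hx, ?_⟩
      have ha := ch.arc P P' h1
      refine ⟨ha.zero x hx, ?_⟩
      have hne := ha.ne x hx
      show ev (dx q) x (ch.ph P x) + σ * ev (dy q) x (ch.ph P x) = 0
      unfold D1 at h2
      rw [← h2]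
      field_simp
      ring)
  linarith

theorem vx_some (ch : Chain q N Zs yv) {P P1 : ℤ × ℤ} (h : ch.nx P = some P1) :
    ch.vx P = P1.1 - P.1 := by
  simp [Chain.vx, h]

theorem vy_some (ch : Chain q N Zs yv) {P P1 : ℤ × ℤ} (h : ch.nx P = some P1) :
    ch.vy P = P1.2 - P.2 := by
  simp [Chain.vy, h]

theorem vx_pos (ch : Chain q N Zs yv) {P : ℤ × ℤ} (h : ch.nx P ≠ none) : 1 ≤ ch.vx P := by
  obtain ⟨P1, h1⟩ := Option.ne_none_iff_exists'.mp h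
  rw [vx_some ch h1]
  have := (ch.mem P P1 h1).2.2
  omega

theorem near_sl (ch : Chain q N Zs yv) {τ : ℝ} (hyv : ∀ P ∈ Zs, |yv P - P.2| ≤ τ)
    {P P1 : ℤ × ℤ} (h : ch.nx P = some P1) :
    ∃ x ∈ Icc (P.1 : ℝ) P1.1, |D1 q x (ch.ph P x) - ch.sl P| ≤ 2 * τ := by
  obtain ⟨hP, hP1, hlt⟩ := ch.mem P P1 h
  have hlt' : (P.1 : ℝ) < P1.1 := by exact_mod_cast hlt
  have hge : (1 : ℝ) ≤ (P1.1 : ℝ) - P.1 := by
    have : P.1 + 1 ≤ P1.1 := hlt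
    have : ((P.1 : ℝ) + 1) ≤ P1.1 := by exact_mod_cast this
    linarith
  obtain ⟨x, hx, h1⟩ := cr6_mv (ch.arc P P1 h) hlt'
  refine ⟨x, hx, ?_⟩
  rw [h1, ch.left P P1 h, ch.right P P1 h]
  unfold Chain.sl
  rw [vx_some ch h, vy_some ch h]
  push_cast
  rw [← sub_div, abs_div, abs_of_pos (by linarith : (0 : ℝ) < (P1.1 : ℝ) - P.1)]
  rw [div_le_iff₀ (by linarith)]
  have e1 := hyv P hP
  have e2 := hyv P1 hP1
  have e3 : |yv P1 - yv P - ((P1.2 : ℝ) - P.2)| ≤ 2 * τ := by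
    have : yv P1 - yv P - ((P1.2 : ℝ) - P.2) = (yv P1 - P1.2) - (yv P - P.2) := by ring
    rw [this]
    have := abs_sub (yv P1 - P1.2) (yv P - P.2)
    linarith
  have h0 : 0 ≤ τ := le_trans (abs_nonneg _) e1
  nlinarith

theorem incr_hit (ch : Chain q N Zs yv) {τ σ : ℝ} (hyv : ∀ P ∈ Zs, |yv P - P.2| ≤ τ)
    {P P1 P2 : ℤ × ℤ} (h : ch.nx P = some P1) (h' : ch.nx P1 = some P2)
    (hσ : (ch.sl P + 2 * τ ≤ σ ∧ σ ≤ ch.sl P1 - 2 * τ) ∨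
      (ch.sl P1 + 2 * τ ≤ σ ∧ σ ≤ ch.sl P - 2 * τ)) : hitP ch σ P ∨ hitP ch σ P1 := by
  obtain ⟨x, hx, hx1⟩ := near_sl ch hyv h
  obtain ⟨x', hx', hx1'⟩ := near_sl ch hyv h'
  rw [abs_le] at hx1 hx1'
  have hlt : (P.1 : ℝ) ≤ P1.1 := by exact_mod_cast (ch.mem P P1 h).2.2.le
  have hlt' : (P1.1 : ℝ) ≤ P2.1 := by exact_mod_cast (ch.mem P1 P2 h').2.2.le
  have hc := cr6_cont (ch.arc P P1 h)
  have hc' := cr6_cont (ch.arc P1 P2 h')
  have hJ : D1 q P1.1 (ch.ph P P1.1) = D1 q P1.1 (ch.ph P1 P1.1) := by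
    rw [ch.right P P1 h, ch.left P1 P2 h']
  have mk : ∀ {a b : ℝ}, a ∈ Icc (P.1 : ℝ) P1.1 → b ∈ Icc (P.1 : ℝ) P1.1 →
      D1 q a (ch.ph P a) ≤ σ → σ ≤ D1 q b (ch.ph P b) → hitP ch σ P := by
    intro a b ha hb h1 h2
    obtain ⟨y, hy, hy2⟩ := isPreconnected_Icc.intermediate_value ha hb hc ⟨h1, h2⟩
    exact ⟨P1, h, y, hy, hy2⟩
  have mk' : ∀ {a b : ℝ}, a ∈ Icc (P1.1 : ℝ) P2.1 → b ∈ Icc (P1.1 : ℝ) P2.1 →
      D1 q a (ch.ph P1 a) ≤ σ → σ ≤ D1 q b (ch.ph P1 b) → hitP ch σ P1 := by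
    intro a b ha hb h1 h2
    obtain ⟨y, hy, hy2⟩ := isPreconnected_Icc.intermediate_value ha hb hc' ⟨h1, h2⟩
    exact ⟨P2, h', y, hy, hy2⟩
  rcases hσ with ⟨s1, s2⟩ | ⟨s1, s2⟩
  · rcases le_total σ (D1 q P1.1 (ch.ph P P1.1)) with hle | hle
    · left
      exact mk hx (right_mem_Icc.mpr hlt) (by linarith) hle
    · right
      rw [hJ] at hle
      exact mk' (left_mem_Icc.mpr hlt') hx' hle (by linarith)
  · rcases le_total σ (D1 q P1.1 (ch.ph P P1.1)) with hle | hle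
    · right
      rw [hJ] at hle
      exact mk' hx' (left_mem_Icc.mpr hlt') (by linarith) hle
    · left
      exact mk (right_mem_Icc.mpr hlt) hx hle (by linarith)

/-- predecessors of the elements of a finite set. -/
theorem pre_card (ch : Chain q N Zs yv) (A B : Finset (ℤ × ℤ))
    (hB : ∀ P ∈ B, ∃ P1 ∈ A, ch.nx P = some P1) : B.card ≤ A.card := by
  refine Finset.card_le_card_of_injOn (fun P => (ch.nx P).getD P) ?_ ?_
  · intro P hP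
    obtain ⟨P1, h1, h2⟩ := hB P hP
    show (ch.nx P).getD P ∈ (A : Set (ℤ × ℤ))
    rw [h2]
    exact h1
  · intro P hP P' hP' he
    obtain ⟨P1, -, h2⟩ := hB P hP
    obtain ⟨P1', -, h2'⟩ := hB P' hP'
    have he' : (ch.nx P).getD P = (ch.nx P').getD P' := he
    rw [h2, h2'] at he'
    have he2 : P1 = P1' := he'
    rw [← he2] at h2'
    exact ch.inj P P' P1 h2 h2'

/-- existence of a level between two slopes. -/
theorem level_exists {θ0 w s s' τ L : ℝ} (hw : 0 < w) (hτ : 8 * τ ≤ w) (hs : |s - θ0| ≤ L)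
    (hs' : |s' - θ0| ≤ L) (h : w ≤ s' - s) (hτ0 : 0 ≤ τ) :
    ∃ n : ℤ, s + 2 * τ ≤ θ0 + n * w / 4 ∧ θ0 + n * w / 4 ≤ s' - 2 * τ ∧ |(n : ℝ)| * w / 4 ≤ L := by
  refine ⟨⌈(s + 2 * τ - θ0) * 4 / w⌉, ?_, ?_, ?_⟩
  · have h1 := Int.le_ceil ((s + 2 * τ - θ0) * 4 / w)
    rw [div_le_iff₀ hw] at h1
    linarith
  · have h1 := Int.ceil_lt_add_one ((s + 2 * τ - θ0) * 4 / w)
    have h2 : (⌈(s + 2 * τ - θ0) * 4 / w⌉ : ℝ) * w < (s + 2 * τ - θ0) * 4 + w := by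
      have h3 := mul_lt_mul_of_pos_right h1 hw
      have h4 : ((s + 2 * τ - θ0) * 4 / w + 1) * w = (s + 2 * τ - θ0) * 4 + w := by
        field_simp
      linarith
    linarith
  · have h1 := Int.le_ceil ((s + 2 * τ - θ0) * 4 / w)
    rw [div_le_iff₀ hw] at h1
    have h1' := Int.ceil_lt_add_one ((s + 2 * τ - θ0) * 4 / w)
    have h2 : (⌈(s + 2 * τ - θ0) * 4 / w⌉ : ℝ) * w < (s + 2 * τ - θ0) * 4 + w := by
      have h3 := mul_lt_mul_of_pos_right h1' hw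
      have h4 : ((s + 2 * τ - θ0) * 4 / w + 1) * w = (s + 2 * τ - θ0) * 4 + w := by
        field_simp
      linarith
    rw [abs_le] at hs hs'
    have h5 : |(⌈(s + 2 * τ - θ0) * 4 / w⌉ : ℝ)| * w
        = |(⌈(s + 2 * τ - θ0) * 4 / w⌉ : ℝ) * w| := by
      rw [abs_mul, abs_of_pos hw]
    rw [h5]
    have h6 : |(⌈(s + 2 * τ - θ0) * 4 / w⌉ : ℝ) * w| ≤ 4 * L := by
      rw [abs_le]
      constructor <;> linarith
    linarith

/-- points with a large increment of the slope. -/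
theorem cnt_incr {Sg Ka Mm : Set ℝ} (hq : Gen q N Sg Ka Mm) (ch : Chain q N Zs yv)
    {Λ θ0 τ τ0 : ℝ} (hΛ : 10 ^ 6 ≤ Λ) (hτ : 0 < τ) (hτio : 8 * τ ≤ io Λ)
    (hyv : ∀ P ∈ Zs, |yv P - P.2| ≤ τ) (hSg : SgS Λ θ0 τ0 ⊆ Sg) (K : Finset (ℤ × ℤ))
    (hK : ∀ P ∈ K, ∃ P1, ch.nx P = some P1 ∧ ch.nx P1 ≠ none ∧ |ch.sl P - θ0| ≤ (Λ ^ 1946)⁻¹ ∧
      |ch.sl P1 - θ0| ≤ (Λ ^ 1946)⁻¹ ∧ io Λ ≤ |ch.sl P1 - ch.sl P|) :
    (K.card : ℝ) ≤ 136 * (N : ℝ) ^ 2 * Λ ^ 1990 := by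
  classical
  have hΛ0 : 0 < Λ := by linarith
  have hΛ1 : 1 ≤ Λ := by linarith
  have hio : 0 < io Λ := by
    unfold io
    positivity
  have hioeq : (Λ ^ 1946)⁻¹ = Λ ^ 1990 * io Λ := by
    unfold io
    rw [show Λ ^ 3936 = Λ ^ 1990 * Λ ^ 1946 by rw [← pow_add]]
    field_simp
  set M : ℕ := ⌊8 * Λ ^ 1990⌋₊ with hM
  have hMle : (M : ℝ) ≤ 8 * Λ ^ 1990 := Nat.floor_le (by positivity)
  set I : Finset ℤ := Finset.Icc (-(M : ℤ)) M with hI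
  have hIcard : I.card = 2 * M + 1 := by
    rw [hI, Int.card_Icc]
    omega
  set lv : ℤ → ℝ := fun n => θ0 + n * io Λ / 4 with hlv
  have hlvS : ∀ n ∈ I, lv n ∈ Sg := by
    intro n hn
    rw [hI, Finset.mem_Icc] at hn
    apply hSg
    right
    refine ⟨n, ?_, rfl⟩
    have h1 : |(n : ℝ)| ≤ M := by
      rw [abs_le]
      constructor
      · exact_mod_cast hn.1
      · exact_mod_cast hn.2
    have h2 : |(n : ℝ)| * io Λ ≤ 8 * Λ ^ 1990 * io Λ :=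
      mul_le_mul_of_nonneg_right (h1.trans hMle) hio.le
    rw [hioeq]
    linarith
  set A : ℤ → Finset (ℤ × ℤ) := fun n => Zs.filter (fun P => hitP ch (lv n) P) with hA
  set B : ℤ → Finset (ℤ × ℤ) := fun n => Zs.filter (fun P => ∃ P1 ∈ A n, ch.nx P = some P1) with hB
  have hAc : ∀ n ∈ I, (A n).card ≤ 4 * N ^ 2 := by
    intro n hn
    apply hit_card hq ch (hlvS n hn)
    intro P hP
    rw [hA, Finset.mem_filter] at hP
    exact hP.2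
  have hBc : ∀ n ∈ I, (B n).card ≤ 4 * N ^ 2 := by
    intro n hn
    refine (pre_card ch (A n) (B n) ?_).trans (hAc n hn)
    intro P hP
    rw [hB, Finset.mem_filter] at hP
    exact hP.2
  have hsub : K ⊆ I.biUnion (fun n => A n ∪ B n) := by
    intro P hP
    obtain ⟨P1, h1, h2, h3, h4, h5⟩ := hK P hP
    obtain ⟨P2, h2'⟩ := Option.ne_none_iff_exists'.mp h2
    obtain ⟨hPZ, hP1Z, -⟩ := ch.mem P P1 h1
    have key : ∃ n : ℤ, ((ch.sl P + 2 * τ ≤ lv n ∧ lv n ≤ ch.sl P1 - 2 * τ) ∨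
        (ch.sl P1 + 2 * τ ≤ lv n ∧ lv n ≤ ch.sl P - 2 * τ)) ∧
        |(n : ℝ)| * io Λ / 4 ≤ (Λ ^ 1946)⁻¹ := by
      rcases le_abs.mp h5 with h6 | h6
      · obtain ⟨n, e1, e2, e3⟩ := level_exists hio hτio h3 h4 h6 hτ.le
        exact ⟨n, Or.inl ⟨e1, e2⟩, e3⟩
      · obtain ⟨n, e1, e2, e3⟩ := level_exists hio hτio h4 h3 (by linarith) hτ.le
        exact ⟨n, Or.inr ⟨e1, e2⟩, e3⟩
    obtain ⟨n, hn1, hn2⟩ := key
    have hnI : n ∈ I := by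
      rw [hI, Finset.mem_Icc]
      have e1 : |(n : ℝ)| ≤ 8 * Λ ^ 1990 := by
        rw [hioeq] at hn2
        have e2 : |(n : ℝ)| * io Λ ≤ (8 * Λ ^ 1990) * io Λ := by
          have : 0 < Λ ^ 1990 * io Λ := by positivity
          linarith
        exact le_of_mul_le_mul_right e2 hio
      have e3 : n.natAbs ≤ M := by
        rw [hM]
        apply Nat.le_floor
        rw [Nat.cast_natAbs, Int.cast_abs]
        exact e1
      omega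
    rw [Finset.mem_biUnion]
    refine ⟨n, hnI, ?_⟩
    rw [Finset.mem_union]
    rcases incr_hit ch hyv h1 h2' hn1 with h7 | h7
    · left
      rw [hA, Finset.mem_filter]
      exact ⟨hPZ, h7⟩
    · right
      rw [hB, Finset.mem_filter]
      refine ⟨hPZ, P1, ?_, h1⟩
      rw [hA, Finset.mem_filter]
      exact ⟨hP1Z, h7⟩
  have hcard : K.card ≤ I.card * (8 * N ^ 2) := by
    refine (Finset.card_le_card hsub).trans ?_
    refine Finset.card_biUnion_le_card_mul _ _ _ ?_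
    intro n hn
    refine (Finset.card_union_le _ _).trans ?_
    have e1 := hAc n hn
    have e2 := hBc n hn
    linarith
  rw [hIcard] at hcard
  have hcr : (K.card : ℝ) ≤ (2 * M + 1) * (8 * (N : ℝ) ^ 2) := by exact_mod_cast hcard
  have hL : (1 : ℝ) ≤ Λ ^ 1990 := one_le_pow₀ hΛ1
  have h7 : (2 * (M : ℝ) + 1) ≤ 17 * Λ ^ 1990 := by linarith
  calc (K.card : ℝ) ≤ (2 * M + 1) * (8 * (N : ℝ) ^ 2) := hcr
    _ ≤ (17 * Λ ^ 1990) * (8 * (N : ℝ) ^ 2) := by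
        apply mul_le_mul_of_nonneg_right h7
        positivity
    _ = 136 * (N : ℝ) ^ 2 * Λ ^ 1990 := by ring

theorem gstep_sl (ch : Chain q N Zs yv) {Λ θ0 : ℝ} (hΛ : 10 ^ 6 ≤ Λ) {P : ℤ × ℤ}
    (h : gstep Λ θ0 (ch.vx P, ch.vy P)) : |ch.sl P - θ0| ≤ (Λ ^ 1946)⁻¹ := by
  have hΛ0 : 0 < Λ := by linarith
  obtain ⟨h1, h2, h3⟩ := h
  have h1' : Λ ^ 1968 ≤ (ch.vx P : ℝ) := h1
  have h3' : |(ch.vy P : ℝ) - θ0 * ch.vx P| ≤ Λ ^ 22 := h3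
  have hv : 0 < (ch.vx P : ℝ) := lt_of_lt_of_le (by positivity) h1'
  unfold Chain.sl
  have e1 : (ch.vy P : ℝ) / ch.vx P - θ0 = ((ch.vy P : ℝ) - θ0 * ch.vx P) / ch.vx P := by
    field_simp
  rw [e1, abs_div, abs_of_pos hv, div_le_iff₀ hv]
  calc |(ch.vy P : ℝ) - θ0 * ch.vx P| ≤ Λ ^ 22 := h3'
    _ = (Λ ^ 1946)⁻¹ * Λ ^ 1968 := by
        rw [show Λ ^ 1968 = Λ ^ 1946 * Λ ^ 22 by rw [← pow_add]]
        field_simp
    _ ≤ (Λ ^ 1946)⁻¹ * ch.vx P := by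
        apply mul_le_mul_of_nonneg_left h1'
        positivity

/-- points which are not ok. -/
theorem cnt_notok {Sg Ka Mm : Set ℝ} (hq : Gen q N Sg Ka Mm) (ch : Chain q N Zs yv) {a b : ℤ}
    {Λ R θ0 τ τ0 H0 hb : ℝ} (hab : a ≤ b) (hr : ∀ P ∈ Zs, a ≤ P.1 ∧ P.1 ≤ b) (hΛ : 10 ^ 6 ≤ Λ)
    (hτ : 0 < τ) (hτ1 : τ ≤ 1) (hτ0 : 2 * τ < τ0) (hbR : (b : ℝ) - a ≤ R)
    (hθ : θ0 ≠ 0)
    (hyv : ∀ P ∈ Zs, |yv P - P.2| ≤ τ) (hH : ∀ P ∈ Zs, |(P.2 : ℝ) - θ0 * P.1| ≤ H0)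
    (hH0 : H0 ≤ R * (Λ ^ 1984)⁻¹)
    (hSg : SgS Λ θ0 τ0 ⊆ Sg)
    (hhug : ∀ K : Finset (ℤ × ℤ), (∀ P ∈ K, P ∈ Zs ∧ ch.hug τ0 P ∧
      (ch.vx P : ℝ) ≤ Λ ^ 2006 ∧ |ch.vp θ0 P| ≤ Λ ^ 22) → (K.card : ℝ) ≤ hb)
    (K : Finset (ℤ × ℤ)) (hK : ∀ P ∈ K, P ∈ Zs ∧ ¬ okP ch Λ θ0 τ0 P) :
    (K.card : ℝ) ≤ 5 * (N : ℝ) ^ 2 + N * R / Λ ^ 2006 + (8 * (N * R / Λ ^ 2006) + 10 * N) +
      24 * (N : ℝ) ^ 2 * Λ ^ 1990 + hb := by
  classical
  have hΛ0 : 0 < Λ := by linarith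
  have hΛ1 : 1 ≤ Λ := by linarith
  have hN0 : (0 : ℝ) ≤ N := Nat.cast_nonneg N
  set K1 := K.filter (fun P => ch.nx P = none) with hK1
  set K2 := K.filter (fun P => ch.nx P ≠ none ∧ Λ ^ 2006 ≤ (ch.vx P : ℝ)) with hK2
  set K3 := K.filter (fun P => ch.nx P ≠ none ∧ Λ ^ 22 ≤ |ch.vp θ0 P|) with hK3
  set K4 := K.filter (fun P => ch.nx P ≠ none ∧ (ch.vx P : ℝ) ≤ Λ ^ 1968 ∧
    |ch.vp θ0 P| ≤ Λ ^ 22 ∧ ¬ ch.hug τ0 P) with hK4
  set K5 := K.filter (fun P => ch.hug τ0 P ∧ (ch.vx P : ℝ) ≤ Λ ^ 2006 ∧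
    |ch.vp θ0 P| ≤ Λ ^ 22) with hK5
  have hsub : K ⊆ K1 ∪ (K2 ∪ (K3 ∪ (K4 ∪ K5))) := by
    intro P hP
    obtain ⟨hPZ, hno⟩ := hK P hP
    simp only [Finset.mem_union]
    by_cases h1 : ch.nx P = none
    · left
      rw [hK1, Finset.mem_filter]
      exact ⟨hP, h1⟩
    right
    by_cases h2 : Λ ^ 2006 ≤ (ch.vx P : ℝ)
    · left
      rw [hK2, Finset.mem_filter]
      exact ⟨hP, h1, h2⟩
    right
    by_cases h3 : Λ ^ 22 ≤ |ch.vp θ0 P|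
    · left
      rw [hK3, Finset.mem_filter]
      exact ⟨hP, h1, h3⟩
    right
    push Not at h2 h3
    by_cases h5 : ch.hug τ0 P
    · right
      rw [hK5, Finset.mem_filter]
      exact ⟨hP, h5, h2.le, h3.le⟩
    · left
      rw [hK4, Finset.mem_filter]
      refine ⟨hP, h1, ?_, h3.le, h5⟩
      by_contra h6
      push Not at h6
      apply hno
      exact ⟨h1, ⟨h6.le, h2.le, h3.le⟩, h5⟩
  have c1 : (K1.card : ℝ) ≤ 5 * (N : ℝ) ^ 2 := by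
    have e1 : K1 ⊆ Zs.filter (fun P => ch.nx P = none) := by
      intro P hP
      rw [hK1, Finset.mem_filter] at hP
      rw [Finset.mem_filter]
      exact ⟨(hK P hP.1).1, hP.2⟩
    have e2 := (Finset.card_le_card e1).trans ch.ends
    exact_mod_cast e2
  have c2 : (K2.card : ℝ) ≤ N * R / Λ ^ 2006 := by
    have e1 := cnt_long hq ch hab hr (X := Λ ^ 2006) (by positivity) K2 (by
      intro P hP
      rw [hK2, Finset.mem_filter] at hP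
      exact hP.2)
    refine e1.trans ?_
    apply div_le_div_of_nonneg_right _ (by positivity)
    exact mul_le_mul_of_nonneg_left hbR hN0
  have c3 : (K3.card : ℝ) ≤ 8 * (N * R / Λ ^ 2006) + 10 * N := by
    have h4 : 4 * τ ≤ Λ ^ 22 := by
      have e1 : Λ ^ 1 ≤ Λ ^ 22 := pow_le_pow_right₀ hΛ1 (by norm_num)
      rw [pow_one] at e1
      linarith
    rcases K3.eq_empty_or_nonempty with hK30 | ⟨P3, hP3⟩
    · rw [hK30, Finset.card_empty, Nat.cast_zero]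
      have hRR : 0 ≤ R := by
        by_contra hneg
        have h1 : (0 : ℝ) ≤ (b : ℝ) - a := by
          have : (a : ℝ) ≤ b := by exact_mod_cast hab
          linarith
        linarith
      positivity
    have hH1 : 0 ≤ H0 := by
      rw [hK3, Finset.mem_filter] at hP3
      exact (abs_nonneg _).trans (hH P3 (hK P3 hP3.1).1)
    have e1 := cnt_perp hq ch (θ0 := θ0) (H0 := H0) (τ := τ) (Y := Λ ^ 22) hθ hτ.le h4
      (by positivity) hyv hH hH1 K3 (by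
        intro P hP
        rw [hK3, Finset.mem_filter] at hP
        exact hP.2)
    have e2 : 8 * (H0 + τ) / Λ ^ 22 + 2 ≤ 8 * (R / Λ ^ 2006) + 10 := by
      have e3 : H0 / Λ ^ 22 ≤ R / Λ ^ 2006 := by
        rw [div_le_iff₀ (by positivity)]
        refine hH0.trans (le_of_eq ?_)
        rw [show Λ ^ 2006 = Λ ^ 1984 * Λ ^ 22 by rw [← pow_add]]
        field_simp
      have e4 : τ / Λ ^ 22 ≤ 1 := by
        rw [div_le_iff₀ (by positivity)]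
        have : 1 ≤ Λ ^ 22 := one_le_pow₀ hΛ1
        linarith
      have e5 : 8 * (H0 + τ) / Λ ^ 22 = 8 * (H0 / Λ ^ 22) + 8 * (τ / Λ ^ 22) := by ring
      rw [e5]
      linarith
    calc (K3.card : ℝ) ≤ N * (8 * (H0 + τ) / Λ ^ 22 + 2) := e1
      _ ≤ N * (8 * (R / Λ ^ 2006) + 10) := mul_le_mul_of_nonneg_left e2 hN0
      _ = 8 * (N * R / Λ ^ 2006) + 10 * N := by ring
  have c4 : (K4.card : ℝ) ≤ 24 * (N : ℝ) ^ 2 * Λ ^ 1990 := by
    set D : Finset ℝ := K4.image ch.sl with hD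
    have hDp : ∀ s ∈ D, ∃ p r : ℤ, 1 ≤ r ∧ (r : ℝ) ≤ Λ ^ 1968 ∧ |(p : ℝ) - θ0 * r| ≤ Λ ^ 22 ∧
        s = p / r := by
      intro s hs
      rw [hD, Finset.mem_image] at hs
      obtain ⟨P, hP, rfl⟩ := hs
      rw [hK4, Finset.mem_filter] at hP
      obtain ⟨hPK, h1, h2, h3, -⟩ := hP
      exact ⟨ch.vy P, ch.vx P, vx_pos ch h1, h2, h3, rfl⟩
    have e1 := (slopes_card (θ0 := θ0) (X := Λ ^ 1968) (Y := Λ ^ 22) (one_le_pow₀ hΛ1)
      (by positivity) D hDp).2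
    have e2 := cnt_dir hq ch hτ.le hτ0 hyv D (by
      intro s hs
      obtain ⟨p, r, h1, h2, h3, h4⟩ := hDp s hs
      constructor
      · apply hSg
        left
        exact ⟨p, r, h1, h2, h3, Or.inl (by rw [h4])⟩
      · apply hSg
        left
        exact ⟨p, r, h1, h2, h3, Or.inr (by rw [h4])⟩) K4 (by
      intro P hP
      refine ⟨?_, ?_, ?_⟩
      · rw [hK4, Finset.mem_filter] at hP
        exact hP.2.1
      · rw [hD, Finset.mem_image]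
        exact ⟨P, hP, rfl⟩
      · rw [hK4, Finset.mem_filter] at hP
        exact hP.2.2.2.2)
    have e3 : (K4.card : ℝ) ≤ 8 * (N : ℝ) ^ 2 * D.card := by exact_mod_cast e2
    have e4 : (D.card : ℝ) ≤ 3 * Λ ^ 1990 := by
      refine e1.trans ?_
      have e5 : Λ ^ 1968 * (2 * Λ ^ 22 + 1) = 2 * Λ ^ 1990 + Λ ^ 1968 := by
        rw [show Λ ^ 1990 = Λ ^ 1968 * Λ ^ 22 by rw [← pow_add]]
        ring
      rw [e5]
      have e6 : Λ ^ 1968 ≤ Λ ^ 1990 := pow_le_pow_right₀ hΛ1 (by norm_num)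
      linarith
    calc (K4.card : ℝ) ≤ 8 * (N : ℝ) ^ 2 * D.card := e3
      _ ≤ 8 * (N : ℝ) ^ 2 * (3 * Λ ^ 1990) := mul_le_mul_of_nonneg_left e4 (by positivity)
      _ = 24 * (N : ℝ) ^ 2 * Λ ^ 1990 := by ring
  have c5 : (K5.card : ℝ) ≤ hb := by
    apply hhug K5
    intro P hP
    rw [hK5, Finset.mem_filter] at hP
    exact ⟨(hK P hP.1).1, hP.2⟩
  have hc : K.card ≤ K1.card + (K2.card + (K3.card + (K4.card + K5.card))) := by
    refine (Finset.card_le_card hsub).trans ?_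
    refine (Finset.card_union_le _ _).trans (Nat.add_le_add_left ?_ _)
    refine (Finset.card_union_le _ _).trans (Nat.add_le_add_left ?_ _)
    refine (Finset.card_union_le _ _).trans (Nat.add_le_add_left ?_ _)
    exact Finset.card_union_le _ _
  have hc' : (K.card : ℝ) ≤ K1.card + (K2.card + (K3.card + (K4.card + K5.card))) := by
    exact_mod_cast hc
  linarith

theorem cnt_notgood {Sg Ka Mm : Set ℝ} (hq : Gen q N Sg Ka Mm) (ch : Chain q N Zs yv) {a b : ℤ}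
    {Λ R θ0 τ H0 hb : ℝ} (hab : a ≤ b) (hr : ∀ P ∈ Zs, a ≤ P.1 ∧ P.1 ≤ b) (hΛ : 10 ^ 6 ≤ Λ)
    (hR : Λ ^ 400000 ≤ R) (hτ : 0 < τ) (hτR : τ * R ^ 20 ≤ 1) (hbR : (b : ℝ) - a ≤ R) (hθ : θ0 ≠ 0)
    (hyv : ∀ P ∈ Zs, |yv P - P.2| ≤ τ) (hH : ∀ P ∈ Zs, |(P.2 : ℝ) - θ0 * P.1| ≤ H0)
    (hH0 : H0 ≤ R * (Λ ^ 1984)⁻¹) (hN : (N : ℝ) ≤ 9 * R * (Λ ^ 3996)⁻¹)
    (hSg : SgS Λ θ0 (R ^ 4 * τ) ⊆ Sg)
    (hhug : ∀ K : Finset (ℤ × ℤ), (∀ P ∈ K, P ∈ Zs ∧ ch.hug (R ^ 4 * τ) P ∧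
      (ch.vx P : ℝ) ≤ Λ ^ 2006 ∧ |ch.vp θ0 P| ≤ Λ ^ 22) → (K.card : ℝ) ≤ hb)
    (K : Finset (ℤ × ℤ)) (hK : ∀ P ∈ K, P ∈ Zs ∧ ¬ goodP ch Λ θ0 (R ^ 4 * τ) P) :
    (K.card : ℝ) ≤ 10 ^ 5 * R ^ 2 * (Λ ^ 6002)⁻¹ + 3 * hb := by
  classical
  have hΛ0 : 0 < Λ := by linarith
  have hΛ1 : 1 ≤ Λ := by linarith
  have hN0 : (0 : ℝ) ≤ N := Nat.cast_nonneg N
  have hR1 : 1 ≤ R := le_trans (one_le_pow₀ hΛ1) hR
  have hR0 : 0 < R := by linarith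
  have hR20 : R ≤ R ^ 20 := by
    calc R = R ^ 1 := (pow_one R).symm
      _ ≤ R ^ 20 := pow_le_pow_right₀ hR1 (by norm_num)
  have hτR1 : τ * R ≤ 1 := le_trans (mul_le_mul_of_nonneg_left hR20 hτ.le) hτR
  have hτ1 : τ ≤ 1 := by
    have := mul_le_mul_of_nonneg_left hR1 hτ.le
    linarith
  have hLR : Λ ^ 3937 ≤ R := le_trans (pow_le_pow_right₀ hΛ1 (by norm_num)) hR
  have h2τ : 2 * τ < R ^ 4 * τ := by
    have e1 : Λ ≤ R := by
      calc Λ = Λ ^ 1 := (pow_one Λ).symm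
        _ ≤ Λ ^ 3937 := pow_le_pow_right₀ hΛ1 (by norm_num)
        _ ≤ R := hLR
    have e2 : R ^ 1 ≤ R ^ 4 := pow_le_pow_right₀ hR1 (by norm_num)
    rw [pow_one] at e2
    have e3 : 2 < R ^ 4 := by linarith
    exact mul_lt_mul_of_pos_right e3 hτ
  have h8τ : 8 * τ ≤ io Λ := by
    unfold io
    rw [← one_div, le_div_iff₀ (by positivity)]
    have e1 : 8 * Λ ^ 3936 ≤ R := by
      calc 8 * Λ ^ 3936 ≤ Λ * Λ ^ 3936 := by
            apply mul_le_mul_of_nonneg_right _ (by positivity)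
            linarith
        _ = Λ ^ 3937 := by
            rw [show Λ ^ 3937 = Λ ^ (3936 + 1) by norm_num, pow_succ]
            ring
        _ ≤ R := hLR
    calc 8 * τ * Λ ^ 3936 = τ * (8 * Λ ^ 3936) := by ring
      _ ≤ τ * R := mul_le_mul_of_nonneg_left e1 hτ.le
      _ ≤ 1 := hτR1
  set u : ℝ := R ^ 2 * (Λ ^ 6002)⁻¹ with hu
  have hu0 : 0 ≤ u := by positivity
  have hN2 : (N : ℝ) ^ 2 * Λ ^ 1990 ≤ 81 * u := by
    have e1 : (N : ℝ) ^ 2 ≤ (9 * R * (Λ ^ 3996)⁻¹) ^ 2 := pow_le_pow_left₀ hN0 hN 2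
    have e2 : (9 * R * (Λ ^ 3996)⁻¹) ^ 2 * Λ ^ 1990 = 81 * u := by
      rw [hu]
      have e3 : ((Λ ^ 3996)⁻¹) ^ 2 * Λ ^ 1990 = (Λ ^ 6002)⁻¹ := by
        rw [inv_pow, ← pow_mul, show 3996 * 2 = 6002 + 1990 by norm_num, pow_add]
        field_simp
      calc (9 * R * (Λ ^ 3996)⁻¹) ^ 2 * Λ ^ 1990
          = 81 * R ^ 2 * (((Λ ^ 3996)⁻¹) ^ 2 * Λ ^ 1990) := by ring
        _ = 81 * (R ^ 2 * (Λ ^ 6002)⁻¹) := by
            rw [e3]
            ring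
    calc (N : ℝ) ^ 2 * Λ ^ 1990 ≤ (9 * R * (Λ ^ 3996)⁻¹) ^ 2 * Λ ^ 1990 :=
          mul_le_mul_of_nonneg_right e1 (by positivity)
      _ = 81 * u := e2
  have hN2' : (N : ℝ) ^ 2 ≤ 81 * u := by
    have e1 : (1 : ℝ) ≤ Λ ^ 1990 := one_le_pow₀ hΛ1
    have e2 : (N : ℝ) ^ 2 * 1 ≤ (N : ℝ) ^ 2 * Λ ^ 1990 :=
      mul_le_mul_of_nonneg_left e1 (by positivity)
    linarith
  have hN1 : (N : ℝ) ≤ (N : ℝ) ^ 2 := by
    have e1 : (1 : ℝ) ≤ N := by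
      have := hq.two
      have : 1 ≤ N := by omega
      exact_mod_cast this
    nlinarith
  have hNR : (N : ℝ) * R / Λ ^ 2006 ≤ 9 * u := by
    rw [div_le_iff₀ (by positivity)]
    have e1 : u * Λ ^ 2006 = R ^ 2 * (Λ ^ 3996)⁻¹ := by
      rw [hu, show Λ ^ 6002 = Λ ^ 3996 * Λ ^ 2006 by rw [← pow_add]]
      field_simp
    calc (N : ℝ) * R ≤ (9 * R * (Λ ^ 3996)⁻¹) * R := mul_le_mul_of_nonneg_right hN hR0.le
      _ = 9 * (R ^ 2 * (Λ ^ 3996)⁻¹) := by ring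
      _ = 9 * u * Λ ^ 2006 := by
          rw [← e1]
          ring
  set A : Finset (ℤ × ℤ) := Zs.filter (fun P => ¬ okP ch Λ θ0 (R ^ 4 * τ) P) with hA
  have hAc : (A.card : ℝ) ≤ 3240 * u + hb := by
    have e1 := cnt_notok hq ch hab hr hΛ hτ hτ1 h2τ hbR hθ hyv hH hH0 hSg hhug A (by
      intro P hP
      rw [hA, Finset.mem_filter] at hP
      exact hP)
    linarith
  set A1 : Finset (ℤ × ℤ) := Zs.filter (fun P => ∃ P1 ∈ A, ch.nx P = some P1) with hA1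
  set A2 : Finset (ℤ × ℤ) := Zs.filter (fun P => ∃ P1 ∈ A1, ch.nx P = some P1) with hA2
  have hA1c : A1.card ≤ A.card := by
    apply pre_card ch
    intro P hP
    rw [hA1, Finset.mem_filter] at hP
    exact hP.2
  have hA2c : A2.card ≤ A1.card := by
    apply pre_card ch
    intro P hP
    rw [hA2, Finset.mem_filter] at hP
    exact hP.2
  set C : Finset (ℤ × ℤ) := Zs.filter (fun P => ∃ P1, ch.nx P = some P1 ∧
    okP ch Λ θ0 (R ^ 4 * τ) P ∧ okP ch Λ θ0 (R ^ 4 * τ) P1 ∧ io Λ ≤ |ch.sl P1 - ch.sl P|) with hC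
  set C1 : Finset (ℤ × ℤ) := Zs.filter (fun P => ∃ P1 ∈ C, ch.nx P = some P1) with hC1
  have hCc : (C.card : ℝ) ≤ 11016 * u := by
    have e1 := cnt_incr hq ch hΛ hτ h8τ hyv hSg C (by
      intro P hP
      rw [hC, Finset.mem_filter] at hP
      obtain ⟨-, P1, h1, h2, h3, h4⟩ := hP
      exact ⟨P1, h1, h3.1, gstep_sl ch hΛ h2.2.1, gstep_sl ch hΛ h3.2.1, h4⟩)
    linarith
  have hC1c : C1.card ≤ C.card := by
    apply pre_card ch
    intro P hP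
    rw [hC1, Finset.mem_filter] at hP
    exact hP.2
  have hsub : K ⊆ A ∪ (A1 ∪ (A2 ∪ (C ∪ C1))) := by
    intro P hP
    obtain ⟨hPZ, hno⟩ := hK P hP
    simp only [Finset.mem_union]
    by_cases h0 : okP ch Λ θ0 (R ^ 4 * τ) P
    swap
    · left
      rw [hA, Finset.mem_filter]
      exact ⟨hPZ, h0⟩
    right
    obtain ⟨P1, h1⟩ := Option.ne_none_iff_exists'.mp h0.1
    have hP1Z := (ch.mem P P1 h1).2.1
    by_cases h2 : okP ch Λ θ0 (R ^ 4 * τ) P1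
    swap
    · left
      rw [hA1, Finset.mem_filter]
      refine ⟨hPZ, P1, ?_, h1⟩
      rw [hA, Finset.mem_filter]
      exact ⟨hP1Z, h2⟩
    right
    obtain ⟨P2, h3⟩ := Option.ne_none_iff_exists'.mp h2.1
    have hP2Z := (ch.mem P1 P2 h3).2.1
    by_cases h4 : okP ch Λ θ0 (R ^ 4 * τ) P2
    swap
    · left
      rw [hA2, Finset.mem_filter]
      refine ⟨hPZ, P1, ?_, h1⟩
      rw [hA1, Finset.mem_filter]
      refine ⟨hP1Z, P2, ?_, h3⟩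
      rw [hA, Finset.mem_filter]
      exact ⟨hP2Z, h4⟩
    right
    by_cases h5 : |ch.sl P1 - ch.sl P| < io Λ
    swap
    · left
      push Not at h5
      rw [hC, Finset.mem_filter]
      exact ⟨hPZ, P1, h1, h0, h2, h5⟩
    right
    by_cases h6 : |ch.sl P2 - ch.sl P1| < io Λ
    swap
    · push Not at h6
      rw [hC1, Finset.mem_filter]
      refine ⟨hPZ, P1, ?_, h1⟩
      rw [hC, Finset.mem_filter]
      exact ⟨hP1Z, P2, h3, h2, h4, h6⟩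
    exact absurd ⟨P1, P2, h1, h3, h0, h2, h4, h5, h6⟩ hno
  have hc : K.card ≤ A.card + (A1.card + (A2.card + (C.card + C1.card))) := by
    refine (Finset.card_le_card hsub).trans ?_
    refine (Finset.card_union_le _ _).trans (Nat.add_le_add_left ?_ _)
    refine (Finset.card_union_le _ _).trans (Nat.add_le_add_left ?_ _)
    refine (Finset.card_union_le _ _).trans (Nat.add_le_add_left ?_ _)
    exact Finset.card_union_le _ _
  have hc' : (K.card : ℝ) ≤ A.card + (A1.card + (A2.card + (C.card + C1.card))) := by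
    exact_mod_cast hc
  have r1 : (A1.card : ℝ) ≤ A.card := by exact_mod_cast hA1c
  have r2 : (A2.card : ℝ) ≤ A1.card := by exact_mod_cast hA2c
  have r3 : (C1.card : ℝ) ≤ C.card := by exact_mod_cast hC1c
  have hgoal : 10 ^ 5 * R ^ 2 * (Λ ^ 6002)⁻¹ = 10 ^ 5 * u := by
    rw [hu]
    ring
  rw [hgoal]
  linarith

end MuntzF
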