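import Pool.Agent.Lib.MP_dde81e_full.G7
import Pool.Agent.Lib.MP_dde81e_full.CDefs

/-!
Module CR7 (text 9.1 (2)): number of bad points.  No successor (5N^2), vx ≥ Λ^2237 (cnt_long), the arc over [P.1,P'.1] meets a level: D2 = κ means q = 0 and Hq + κ q_y^3 = 0 (q_y ≠ 0 on
arcs): cnt_hit with B = 6N^2 for each κ in KaS.  #KaS ≤ 3Λ^1758 (log(16Λ^114) ≤ Λ/2, log(1+ρ) ≥ ρ/2).
-/

namespace MuntzF
open Set

variable {q : MvPolynomial (Fin 2) ℝ} {N : ℕ} {Zs : Finset (ℤ × ℤ)} {yv : ℤ × ℤ → ℝ}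

theorem kas_n_le {Λ : ℝ} (hΛ : 10 ^ 6 ≤ Λ) (n : ℕ)
    (hn : kmin Λ * (1 + rh Λ) ^ n ≤ (1 + rh Λ) * kmax Λ) : (n : ℝ) ≤ Λ ^ 1758 := by
  have hΛ1 : (1 : ℝ) ≤ Λ := le_trans (by norm_num) hΛ
  have hΛ0 : 0 < Λ := by linarith
  have hρ : 0 < rh Λ := by unfold rh; positivity
  have hρ1 : rh Λ ≤ 1 := by
    unfold rh
    exact inv_le_one_of_one_le₀ (one_le_pow₀ hΛ1)
  have h1 : (1 + rh Λ) ^ n ≤ 16 * Λ ^ 114 := by
    have e1 : kmin Λ * (16 * Λ ^ 114) = 2 * kmax Λ := by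
      unfold kmin kmax
      rw [show (6018 : ℕ) = 5904 + 114 by norm_num, pow_add, mul_inv]
      have h3 : Λ ^ 114 ≠ 0 := by positivity
      have h4 : (Λ ^ 114)⁻¹ * Λ ^ 114 = 1 := inv_mul_cancel₀ h3
      calc (Λ ^ 5904)⁻¹ * (Λ ^ 114)⁻¹ / 2 * (16 * Λ ^ 114)
          = 8 * (Λ ^ 5904)⁻¹ * ((Λ ^ 114)⁻¹ * Λ ^ 114) := by ring
        _ = 2 * (4 * (Λ ^ 5904)⁻¹) := by rw [h4]; ring
    have h2 : kmin Λ * (1 + rh Λ) ^ n ≤ kmin Λ * (16 * Λ ^ 114) := by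
      rw [e1]
      refine hn.trans ?_
      apply mul_le_mul_of_nonneg_right (by linarith)
      unfold kmax; positivity
    exact le_of_mul_le_mul_left h2 (by unfold kmin; positivity)
  have h2 : (n : ℝ) * Real.log (1 + rh Λ) ≤ Real.log 16 + 114 * Real.log Λ := by
    have h3 := Real.log_le_log (by positivity) h1
    rw [Real.log_pow, Real.log_mul (by norm_num) (by positivity), Real.log_pow] at h3
    exact_mod_cast h3
  have h3 : rh Λ / 2 ≤ Real.log (1 + rh Λ) := by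
    refine le_trans ?_ (Real.le_log_one_add_of_nonneg hρ.le)
    rw [div_le_div_iff₀ (by norm_num) (by linarith)]
    nlinarith
  have h4 : Real.log 16 + 114 * Real.log Λ ≤ Λ / 2 := by
    have hs0 : 0 < Real.sqrt Λ := Real.sqrt_pos.2 hΛ0
    have hs : Real.sqrt Λ ^ 2 = Λ := Real.sq_sqrt hΛ0.le
    have hs1 : 1000 ≤ Real.sqrt Λ := by
      apply Real.le_sqrt_of_sq_le
      linarith
    have h5 : Real.log Λ ≤ 2 * Real.sqrt Λ := by
      have h6 := Real.log_le_sub_one_of_pos hs0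
      have h7 : Real.log Λ = 2 * Real.log (Real.sqrt Λ) := by
        conv_lhs => rw [← hs]
        rw [Real.log_pow]
        norm_num
      linarith
    have h6 : Real.log 16 ≤ 15 := by
      have := Real.log_le_sub_one_of_pos (show (0 : ℝ) < 16 by norm_num)
      linarith
    nlinarith
  have h5 : (n : ℝ) * (rh Λ / 2) ≤ Λ / 2 := by
    refine le_trans ?_ (h2.trans h4)
    exact mul_le_mul_of_nonneg_left h3 (Nat.cast_nonneg n)
  have h6 : (n : ℝ) * rh Λ ≤ Λ := by linarith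
  unfold rh at h6
  rw [← div_eq_mul_inv, div_le_iff₀ (by positivity)] at h6
  calc (n : ℝ) ≤ Λ * Λ ^ 1757 := h6
    _ = Λ ^ 1758 := by rw [← pow_succ']

theorem KaS_sub {Λ κ0 : ℝ} (hΛ : 10 ^ 6 ≤ Λ) : KaS Λ κ0 ⊆
    ((({κ0, -κ0} : Finset ℝ) ∪ ((Finset.range (⌊Λ ^ 1758⌋₊ + 1)).image
      (fun n => kmin Λ * (1 + rh Λ) ^ n) ∪ (Finset.range (⌊Λ ^ 1758⌋₊ + 1)).image
      (fun n => -(kmin Λ * (1 + rh Λ) ^ n))) : Finset ℝ) : Set ℝ) := by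
  have hΛ1 : (1 : ℝ) ≤ Λ := le_trans (by norm_num) hΛ
  have hΛ0 : 0 < Λ := by linarith
  intro κ hκ
  rw [Finset.coe_union, Finset.coe_union]
  rcases hκ with h | ⟨n, h, h'⟩
  · left
    rcases abs_choice κ with h1 | h1
    · rw [h1] at h
      simp [h]
    · rw [h1] at h
      have : κ = -κ0 := by linarith
      simp [this]
  · right
    have hn := kas_n_le hΛ n h'
    have hn' : n ∈ Finset.range (⌊Λ ^ 1758⌋₊ + 1) := by
      rw [Finset.mem_range]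
      have := Nat.le_floor hn
      omega
    rcases abs_choice κ with h1 | h1
    · left
      rw [h1] at h
      rw [Finset.mem_coe, Finset.mem_image]
      exact ⟨n, hn', h.symm⟩
    · right
      rw [h1] at h
      rw [Finset.mem_coe, Finset.mem_image]
      exact ⟨n, hn', by linarith⟩

theorem KaS_card {Λ κ0 : ℝ} (hΛ : 10 ^ 6 ≤ Λ) : (KaS Λ κ0).Finite ∧ ((KaS Λ κ0).ncard : ℝ) ≤ 5 * Λ ^ 1758 := by
  have hΛ1 : (1 : ℝ) ≤ Λ := le_trans (by norm_num) hΛ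
  have hΛ0 : 0 < Λ := by linarith
  have hsub := KaS_sub (κ0 := κ0) hΛ
  refine ⟨(Finset.finite_toSet _).subset hsub, ?_⟩
  have h1 := Set.ncard_le_ncard hsub (Finset.finite_toSet _)
  rw [Set.ncard_coe_finset] at h1
  have h2 : ((({κ0, -κ0} : Finset ℝ) ∪ ((Finset.range (⌊Λ ^ 1758⌋₊ + 1)).image
      (fun n => kmin Λ * (1 + rh Λ) ^ n) ∪ (Finset.range (⌊Λ ^ 1758⌋₊ + 1)).image
      (fun n => -(kmin Λ * (1 + rh Λ) ^ n))) : Finset ℝ)).card ≤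
        2 + ((⌊Λ ^ 1758⌋₊ + 1) + (⌊Λ ^ 1758⌋₊ + 1)) := by
    refine (Finset.card_union_le _ _).trans (add_le_add Finset.card_le_two ?_)
    refine (Finset.card_union_le _ _).trans (add_le_add ?_ ?_)
    · exact Finset.card_image_le.trans (by rw [Finset.card_range])
    · exact Finset.card_image_le.trans (by rw [Finset.card_range])
  have h3 : ((KaS Λ κ0).ncard : ℝ) ≤ 2 * (⌊Λ ^ 1758⌋₊ : ℝ) + 4 := by
    have : (KaS Λ κ0).ncard ≤ 2 * ⌊Λ ^ 1758⌋₊ + 4 := by omega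
    exact_mod_cast this
  have h4 : (⌊Λ ^ 1758⌋₊ : ℝ) ≤ Λ ^ 1758 := Nat.floor_le (by positivity)
  have h5 : (4 : ℝ) ≤ Λ ^ 1758 := by
    calc (4 : ℝ) ≤ Λ := le_trans (by norm_num) hΛ
      _ = Λ ^ 1 := (pow_one _).symm
      _ ≤ Λ ^ 1758 := pow_le_pow_right₀ hΛ1 (by norm_num)
  linarith

theorem SgS_finite {Λ θ0 τ0 : ℝ} (hΛ : 10 ^ 6 ≤ Λ) : (SgS Λ θ0 τ0).Finite := by
  have hΛ1 : (1 : ℝ) ≤ Λ := le_trans (by norm_num) hΛ
  have hΛ0 : 0 < Λ := by linarith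
  set B : ℤ := ⌈Λ ^ 1968⌉ with hB
  set C : ℤ := ⌈Λ ^ 22 + |θ0| * Λ ^ 1968⌉ with hC
  set D : ℤ := ⌈2 * (Λ ^ 1946)⁻¹ / (io Λ / 4)⌉ with hD
  have hio : 0 < io Λ := by unfold io; positivity
  have f1 : ((fun x : ℤ × ℤ => (x.1 : ℝ) / x.2 + τ0) '' (Icc (-C) C ×ˢ Icc 1 B)).Finite :=
    ((finite_Icc _ _).prod (finite_Icc _ _)).image _
  have f2 : ((fun x : ℤ × ℤ => (x.1 : ℝ) / x.2 - τ0) '' (Icc (-C) C ×ˢ Icc 1 B)).Finite :=
    ((finite_Icc _ _).prod (finite_Icc _ _)).image _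
  have f3 : ((fun n : ℤ => θ0 + n * io Λ / 4) '' (Icc (-D) D)).Finite := (finite_Icc _ _).image _
  refine ((f1.union f2).union f3).subset ?_
  rintro σ (⟨p, q, hq1, hq2, hp, hσ⟩ | ⟨n, hn, hσ⟩)
  · left
    have hmem : ((p, q) : ℤ × ℤ) ∈ Icc (-C) C ×ˢ Icc 1 B := by
      have h1 : |(p : ℝ)| ≤ Λ ^ 22 + |θ0| * Λ ^ 1968 := by
        have h2 : |(p : ℝ)| ≤ |(p : ℝ) - θ0 * q| + |θ0 * q| := by
          calc |(p : ℝ)| = |((p : ℝ) - θ0 * q) + θ0 * q| := by ring_nf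
            _ ≤ _ := abs_add_le _ _
        have h3 : |θ0 * (q : ℝ)| ≤ |θ0| * Λ ^ 1968 := by
          rw [abs_mul]
          apply mul_le_mul_of_nonneg_left _ (abs_nonneg _)
          rw [abs_of_nonneg (by exact_mod_cast (by omega : (0 : ℤ) ≤ q))]
          exact hq2
        linarith
      have h4 := abs_le.1 (h1.trans (Int.le_ceil _))
      refine ⟨⟨?_, ?_⟩, ⟨hq1, ?_⟩⟩
      · have := h4.1
        exact_mod_cast this
      · have := h4.2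
        exact_mod_cast this
      · have := hq2.trans (Int.le_ceil _)
        exact_mod_cast this
    rcases hσ with h | h
    · left
      exact ⟨(p, q), hmem, h.symm⟩
    · right
      exact ⟨(p, q), hmem, h.symm⟩
  · right
    refine ⟨n, ?_, hσ.symm⟩
    have h1 : |(n : ℝ)| ≤ 2 * (Λ ^ 1946)⁻¹ / (io Λ / 4) := by
      rw [le_div_iff₀ (by positivity)]
      linarith
    have h4 := abs_le.1 (h1.trans (Int.le_ceil _))
    refine ⟨?_, ?_⟩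
    · have := h4.1
      exact_mod_cast this
    · have := h4.2
      exact_mod_cast this

/-- bad points. -/
def badP (ch : Chain q N Zs yv) (Λ κ0 : ℝ) (P : ℤ × ℤ) : Prop :=
  ch.nx P = none ∨ Λ ^ 2237 < (ch.vx P : ℝ) ∨
    ∃ P', ch.nx P = some P' ∧ ∃ x ∈ Icc (P.1 : ℝ) P'.1, D2 q x (ch.ph P x) ∈ KaS Λ κ0

theorem cnt_lvl {Sg Ka Mm : Set ℝ} (hq : Gen q N Sg Ka Mm) (ch : Chain q N Zs yv) {κ : ℝ}
    (hκ : κ ∈ Ka) (K : Finset (ℤ × ℤ)) (hK : ∀ P ∈ K, ∃ P', ch.nx P = some P' ∧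
      ∃ x ∈ Icc (P.1 : ℝ) P'.1, D2 q x (ch.ph P x) = κ) : K.card ≤ 12 * N ^ 2 := by
  have h := cnt_hit ch {p : ℝ × ℝ | ev q p.1 p.2 = 0 ∧
    ev (Hq q) p.1 p.2 + κ * ev (dy q) p.1 p.2 ^ 3 = 0} (6 * N ^ 2)
    (fun T hT => hq.lvl κ hκ T hT) K (by
      intro P hP
      obtain ⟨P', h1, x, hx, h2⟩ := hK P hP
      refine ⟨P', h1, x, hx, (ch.arc P P' h1).zero x hx, ?_⟩
      have h3 := (ch.arc P P' h1).ne x hx
      have h4 : ev (dy q) x (ch.ph P x) ^ 3 ≠ 0 := pow_ne_zero _ h3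
      unfold D2 at h2
      rw [div_eq_iff h4] at h2
      dsimp only
      linarith)
  linarith

theorem cnt_bad {Sg Ka Mm : Set ℝ} (hq : Gen q N Sg Ka Mm) (ch : Chain q N Zs yv) {a b : ℤ}
    {Λ R κ0 : ℝ} (hab : a ≤ b) (hr : ∀ P ∈ Zs, a ≤ P.1 ∧ P.1 ≤ b) (hΛ : 10 ^ 6 ≤ Λ)
    (hR : Λ ^ 400000 ≤ R) (hbR : (b : ℝ) - a ≤ R) (hN : (N : ℝ) ≤ 9 * R * (Λ ^ 3996)⁻¹)
    (hKa : KaS Λ κ0 ⊆ Ka) (K : Finset (ℤ × ℤ)) (hK : ∀ P ∈ K, P ∈ Zs ∧ badP ch Λ κ0 P) :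
    (K.card : ℝ) ≤ 10 ^ 4 * R ^ 2 * (Λ ^ 6233)⁻¹ := by
  classical
  have hΛ1 : (1 : ℝ) ≤ Λ := le_trans (by norm_num) hΛ
  have hΛ0 : 0 < Λ := by linarith
  have hR0 : 0 < R := lt_of_lt_of_le (by positivity) hR
  obtain ⟨hfin, hcard⟩ := KaS_card (κ0 := κ0) hΛ
  set K1 := K.filter (fun P => ch.nx P = none) with hK1
  set K2 := K.filter (fun P => ch.nx P ≠ none ∧ Λ ^ 2237 ≤ (ch.vx P : ℝ)) with hK2
  set K3 := hfin.toFinset.biUnion (fun κ => K.filter (fun P => ∃ P', ch.nx P = some P' ∧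
      ∃ x ∈ Icc (P.1 : ℝ) P'.1, D2 q x (ch.ph P x) = κ)) with hK3
  have hsub : K ⊆ K1 ∪ (K2 ∪ K3) := by
    intro P hP
    obtain ⟨h1, h2⟩ := hK P hP
    by_cases h3 : ch.nx P = none
    · exact Finset.mem_union_left _ (Finset.mem_filter.2 ⟨hP, h3⟩)
    · apply Finset.mem_union_right
      rcases h2 with h2 | h2 | ⟨P', h4, x, hx, h5⟩
      · exact absurd h2 h3
      · exact Finset.mem_union_left _ (Finset.mem_filter.2 ⟨hP, h3, h2.le⟩)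
      · apply Finset.mem_union_right
        rw [hK3, Finset.mem_biUnion]
        exact ⟨D2 q x (ch.ph P x), hfin.mem_toFinset.2 h5, Finset.mem_filter.2
          ⟨hP, P', h4, x, hx, rfl⟩⟩
  have c1 : (K1.card : ℝ) ≤ 5 * (N : ℝ) ^ 2 := by
    have h1 : K1.card ≤ (Zs.filter (fun P => ch.nx P = none)).card := by
      apply Finset.card_le_card
      intro P hP
      rw [hK1, Finset.mem_filter] at hP
      exact Finset.mem_filter.2 ⟨(hK P hP.1).1, hP.2⟩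
    exact_mod_cast h1.trans ch.ends
  have c2 : (K2.card : ℝ) ≤ N * (b - a) / Λ ^ 2237 :=
    cnt_long hq ch hab hr (by positivity) K2 (fun P hP => (Finset.mem_filter.1 hP).2)
  have c3 : (K3.card : ℝ) ≤ 5 * Λ ^ 1758 * (12 * (N : ℝ) ^ 2) := by
    have h1 : K3.card ≤ hfin.toFinset.card * (12 * N ^ 2) := by
      apply Finset.card_biUnion_le_card_mul
      intro κ hκ
      apply cnt_lvl hq ch (hKa (hfin.mem_toFinset.1 hκ))
      intro P hP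
      exact (Finset.mem_filter.1 hP).2
    have h2 : (K3.card : ℝ) ≤ (hfin.toFinset.card : ℝ) * (12 * (N : ℝ) ^ 2) := by exact_mod_cast h1
    have h3 : (hfin.toFinset.card : ℝ) ≤ 5 * Λ ^ 1758 := by
      rwa [← Set.ncard_eq_toFinset_card _ hfin]
    exact h2.trans (mul_le_mul_of_nonneg_right h3 (by positivity))
  have c0 : (K.card : ℝ) ≤ K1.card + (K2.card + K3.card) := by
    have h1 := Finset.card_le_card hsub
    have h2 := Finset.card_union_le K1 (K2 ∪ K3)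
    have h3 := Finset.card_union_le K2 K3
    have : K.card ≤ K1.card + (K2.card + K3.card) := by omega
    exact_mod_cast this
  -- sizes
  have hN0 : (0 : ℝ) ≤ N := Nat.cast_nonneg N
  have hN2 : (N : ℝ) ^ 2 ≤ 81 * R ^ 2 * ((Λ ^ 3996)⁻¹) ^ 2 := by
    calc (N : ℝ) ^ 2 ≤ (9 * R * (Λ ^ 3996)⁻¹) ^ 2 := pow_le_pow_left₀ hN0 hN 2
      _ = _ := by ring
  set u := (Λ ^ 6233)⁻¹ with hu
  have hu0 : 0 < u := by rw [hu]; positivity
  have e1 : ((Λ ^ 3996)⁻¹) ^ 2 ≤ u := by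
    rw [← inv_pow, ← pow_mul, hu, ← inv_pow]
    apply pow_le_pow_of_le_one (by positivity) (inv_le_one_of_one_le₀ hΛ1) (by norm_num)
  have e2 : Λ ^ 1758 * ((Λ ^ 3996)⁻¹) ^ 2 ≤ u := by
    have h1 : Λ ^ 1758 * ((Λ ^ 3996)⁻¹) ^ 2 = (Λ ^ 6234)⁻¹ := by
      have h2 : (Λ ^ 3996) ^ 2 = Λ ^ 1758 * Λ ^ 6234 := by
        rw [← pow_mul, ← pow_add]
      rw [inv_pow, h2, mul_inv, ← mul_assoc, mul_inv_cancel₀ (by positivity), one_mul]
    rw [h1, hu]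
    apply inv_anti₀ (by positivity)
    exact pow_le_pow_right₀ hΛ1 (by norm_num)
  have e3 : (Λ ^ 3996)⁻¹ * (Λ ^ 2237)⁻¹ = u := by
    rw [hu, ← mul_inv, ← pow_add]
  have hR2 : 0 < R ^ 2 := by positivity
  have d1 : (K1.card : ℝ) ≤ 405 * R ^ 2 * u := by
    calc (K1.card : ℝ) ≤ 5 * (N : ℝ) ^ 2 := c1
      _ ≤ 5 * (81 * R ^ 2 * ((Λ ^ 3996)⁻¹) ^ 2) := by linarith
      _ = 405 * R ^ 2 * ((Λ ^ 3996)⁻¹) ^ 2 := by ring
      _ ≤ 405 * R ^ 2 * u := mul_le_mul_of_nonneg_left e1 (by positivity)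
  have d2 : (K2.card : ℝ) ≤ 9 * R ^ 2 * u := by
    calc (K2.card : ℝ) ≤ N * (b - a) / Λ ^ 2237 := c2
      _ ≤ (9 * R * (Λ ^ 3996)⁻¹) * R / Λ ^ 2237 := by
          apply div_le_div_of_nonneg_right _ (by positivity)
          have hba : (0 : ℝ) ≤ b - a := by
            have : (a : ℝ) ≤ b := by exact_mod_cast hab
            linarith
          exact mul_le_mul hN hbR hba (by positivity)
      _ = 9 * R ^ 2 * ((Λ ^ 3996)⁻¹ * (Λ ^ 2237)⁻¹) := by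
          rw [div_eq_mul_inv]; ring
      _ = 9 * R ^ 2 * u := by rw [e3]
  have d3 : (K3.card : ℝ) ≤ 4860 * R ^ 2 * u := by
    calc (K3.card : ℝ) ≤ 5 * Λ ^ 1758 * (12 * (N : ℝ) ^ 2) := c3
      _ ≤ 5 * Λ ^ 1758 * (12 * (81 * R ^ 2 * ((Λ ^ 3996)⁻¹) ^ 2)) := by
          apply mul_le_mul_of_nonneg_left _ (by positivity)
          linarith
      _ = 4860 * R ^ 2 * (Λ ^ 1758 * ((Λ ^ 3996)⁻¹) ^ 2) := by ring
      _ ≤ 4860 * R ^ 2 * u := mul_le_mul_of_nonneg_left e2 (by positivity)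
  have hfinal : (K.card : ℝ) ≤ 5274 * (R ^ 2 * u) := by linarith
  have hpos : 0 ≤ R ^ 2 * u := by positivity
  linarith

end MuntzF
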