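import Pool.Agent.Lib.MP_dde81e_full.CR4
import Pool.Agent.Lib.MP_dde81e_full.CR5
import Pool.Agent.Lib.MP_dde81e_full.CR6
import Pool.Agent.Lib.MP_dde81e_full.CR7

/-!
Module CR8 (text 9.1, conclusion): k = ⌈Λ^231⌉ (≤ 2Λ^231).  double_count with T = Λ^229, B = bad points (κ0 = R^3τ/4), G = good points.  hclean: a clean P gives a window (window_arc, Win) and the
indices t with P_t ∈ G are good indices (gidx with Φ = ph on each arc), window_count.  So #G ≤ (2Λ^229/k) #Zs + 4k #B ≤ #Zs/2 + 8Λ^231 #B, #Zs ≤ #notgood + #G.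
-/

namespace MuntzF
open Set

variable {q : MvPolynomial (Fin 2) ℝ} {N : ℕ} {Zs : Finset (ℤ × ℤ)} {yv : ℤ × ℤ → ℝ}

theorem chain_vx (ch : Chain q N Zs yv) {P P' : ℤ × ℤ} (h : ch.nx P = some P') :
    ch.vx P = P'.1 - P.1 := by
  simp only [Chain.vx, h]

theorem chain_vy (ch : Chain q N Zs yv) {P P' : ℤ × ℤ} (h : ch.nx P = some P') :
    ch.vy P = P'.2 - P.2 := by
  simp only [Chain.vy, h]

theorem chain_sl (ch : Chain q N Zs yv) {P P' : ℤ × ℤ} (h : ch.nx P = some P') :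
    ch.sl P = slv (P' - P) := by
  unfold Chain.sl slv
  rw [chain_vx ch h, chain_vy ch h]
  rfl

theorem clean_count (ch : Chain q N Zs yv) {a b : ℤ}
    {Λ R θ0 τ : ℝ} (hr : ∀ P ∈ Zs, a ≤ P.1 ∧ P.1 ≤ b) (hΛ : 10 ^ 6 ≤ Λ)
    (hR : Λ ^ 400000 ≤ R) (hτ : 0 < τ) (hτR : τ * R ^ 20 ≤ 1) (hbR : (b : ℝ) - a ≤ R)
    (hyv : ∀ P ∈ Zs, |yv P - P.2| ≤ τ) (hm : Minor Λ θ0) {k : ℕ} (hk3 : 3 ≤ k)
    (hk : (k : ℝ) ≤ 2 * Λ ^ 231) (pts : ℕ → ℤ × ℤ) (hZ : ∀ t ≤ k, pts t ∈ Zs)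
    (hs : ∀ t < k, ch.nx (pts t) = some (pts (t + 1)))
    (hnb : ∀ t < k, ¬ badP ch Λ (R ^ 3 * τ / 4) (pts t)) (E : Finset ℕ)
    (hE : ∀ t ∈ E, t + 3 ≤ k ∧ goodP ch Λ θ0 (R ^ 4 * τ) (pts t)) : (E.card : ℝ) ≤ Λ ^ 229 := by
  obtain ⟨Φ, hΦ, hΦv, hΦx⟩ := window_arc ch k (by omega) pts hs
  have hlt : ∀ t < k, (pts t).1 < (pts (t + 1)).1 := fun t ht => (ch.mem _ _ (hs t ht)).2.2
  have hcover : ∀ n ≤ k, ∀ x : ℝ, ((pts 0).1 : ℝ) ≤ x → x ≤ (pts n).1 → 1 ≤ n →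
      ∃ t < n, x ∈ Icc ((pts t).1 : ℝ) (pts (t + 1)).1 := by
    intro n
    induction n with
    | zero => intro _ x _ _ h; omega
    | succ n ih =>
      intro hn x h0 hx _
      by_cases h1 : x ≤ (pts n).1
      · rcases Nat.eq_zero_or_pos n with h2 | h2
        · subst h2
          exact ⟨0, by omega, h0, hx⟩
        · obtain ⟨t, ht, h3⟩ := ih (by omega) x h0 h1 h2
          exact ⟨t, by omega, h3⟩
      · exact ⟨n, by omega, (not_le.1 h1).le, hx⟩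
  have hw : Win q Λ R θ0 τ Φ k pts := by
    refine ⟨hk3, hΦ, hlt, ?_, ?_, ?_, ?_⟩
    · intro t ht
      rw [hΦv t ht]
      exact hyv _ (hZ t ht)
    · intro t ht
      have h1 := hnb t ht
      unfold badP at h1
      push Not at h1
      have h2 := h1.2.1
      rwa [chain_vx ch (hs t ht)] at h2
    · have h1 := (hr _ (hZ k le_rfl)).2
      have h2 := (hr _ (hZ 0 (by omega))).1
      have h1' : ((pts k).1 : ℝ) ≤ b := by exact_mod_cast h1
      have h2' : (a : ℝ) ≤ (pts 0).1 := by exact_mod_cast h2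
      push_cast
      linarith
    · intro x hx hlv
      obtain ⟨t, ht, h3⟩ := hcover k le_rfl x hx.1 hx.2 (by omega)
      apply hnb t ht
      rw [hΦx t ht x h3] at hlv
      exact Or.inr (Or.inr ⟨pts (t + 1), hs t ht, x, h3, hlv⟩)
  apply window_count hΛ hR hτ hτR hw hk hm E
  intro t ht
  obtain ⟨ht3, P1, P2, g1, g2, ok0, ok1, ok2, sl1, sl2⟩ := hE t ht
  refine ⟨ht3, ?_⟩
  have e1 : P1 = pts (t + 1) := by
    have := hs t (by omega)
    rw [this] at g1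
    exact (Option.some.inj g1).symm
  subst e1
  have e2 : P2 = pts (t + 2) := by
    have := hs (t + 1) (by omega)
    rw [this] at g2
    exact (Option.some.inj g2).symm
  subst e2
  have hok : ∀ s < k, okP ch Λ θ0 (R ^ 4 * τ) (pts s) → gstep Λ θ0 (pts (s + 1) - pts s) ∧
      ∃ x ∈ Icc ((pts s).1 : ℝ) (pts (s + 1)).1,
        R ^ 4 * τ ≤ |D1 q x (Φ x) - slv (pts (s + 1) - pts s)| := by
    intro s hsk ok
    obtain ⟨-, h2, h3⟩ := ok
    refine ⟨?_, ?_⟩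
    · rw [chain_vx ch (hs s hsk), chain_vy ch (hs s hsk)] at h2
      exact h2
    · unfold Chain.hug at h3
      push Not at h3
      obtain ⟨x, hx, h4⟩ := h3 _ (hs s hsk)
      refine ⟨x, hx, ?_⟩
      rw [hΦx s hsk x hx, ← chain_sl ch (hs s hsk)]
      exact h4
  refine ⟨?_, ?_, ?_⟩
  · intro s hss
    simp only [mem_insert_iff, mem_singleton_iff] at hss
    rcases hss with rfl | rfl | rfl
    · exact hok _ (by omega) ok0
    · exact hok _ (by omega) ok1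
    · exact hok _ (by omega) ok2
  · rw [chain_sl ch (hs t (by omega)), chain_sl ch (hs (t + 1) (by omega))] at sl1
    exact sl1
  · rw [chain_sl ch (hs (t + 1) (by omega)), chain_sl ch (hs (t + 2) (by omega))] at sl2
    exact sl2

theorem count_critical {q : MvPolynomial (Fin 2) ℝ} {N : ℕ} {Zs : Finset (ℤ × ℤ)} {yv : ℤ × ℤ → ℝ}
    {Sg Ka Mm : Set ℝ} (hq : Gen q N Sg Ka Mm) (ch : Chain q N Zs yv) {a b : ℤ}
    {Λ R θ0 τ H0 hb : ℝ} (hab : a ≤ b) (hr : ∀ P ∈ Zs, a ≤ P.1 ∧ P.1 ≤ b) (hΛ : 10 ^ 6 ≤ Λ)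
    (hR : Λ ^ 400000 ≤ R) (hτ : 0 < τ) (hτR : τ * R ^ 20 ≤ 1) (hbR : (b : ℝ) - a ≤ R) (hθ : θ0 ≠ 0)
    (hyv : ∀ P ∈ Zs, |yv P - P.2| ≤ τ) (hH : ∀ P ∈ Zs, |(P.2 : ℝ) - θ0 * P.1| ≤ H0)
    (hH0 : H0 ≤ R * (Λ ^ 1984)⁻¹) (hN : (N : ℝ) ≤ 9 * R * (Λ ^ 3996)⁻¹)
    (hSg : SgS Λ θ0 (R ^ 4 * τ) ⊆ Sg) (hKa : KaS Λ (R ^ 3 * τ / 4) ⊆ Ka) (hm : Minor Λ θ0)
    (hhug : ∀ K : Finset (ℤ × ℤ), (∀ P ∈ K, P ∈ Zs ∧ ch.hug (R ^ 4 * τ) P ∧
      (ch.vx P : ℝ) ≤ Λ ^ 2006 ∧ |ch.vp θ0 P| ≤ Λ ^ 22) → (K.card : ℝ) ≤ hb) :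
    (Zs.card : ℝ) ≤ 10 ^ 6 * R ^ 2 * (Λ ^ 6002)⁻¹ + 6 * hb := by
  classical
  have hΛ1 : (1 : ℝ) ≤ Λ := le_trans (by norm_num) hΛ
  have hΛ0 : 0 < Λ := by linarith
  set k : ℕ := ⌈Λ ^ 231⌉₊ with hkdef
  have hp1 : (1 : ℝ) ≤ Λ ^ 231 := one_le_pow₀ hΛ1
  have hk1 : Λ ^ 231 ≤ k := Nat.le_ceil _
  have hk2 : (k : ℝ) ≤ 2 * Λ ^ 231 := by
    have := Nat.ceil_lt_add_one (show (0 : ℝ) ≤ Λ ^ 231 by positivity)
    linarith
  have hk10 : (1000 : ℝ) ≤ k := by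
    refine le_trans ?_ hk1
    calc (1000 : ℝ) ≤ Λ := le_trans (by norm_num) hΛ
      _ = Λ ^ 1 := (pow_one _).symm
      _ ≤ Λ ^ 231 := pow_le_pow_right₀ hΛ1 (by norm_num)
  have hk3 : 3 ≤ k := by
    have : (3 : ℝ) ≤ k := by linarith
    exact_mod_cast this
  set B := Zs.filter (fun P => badP ch Λ (R ^ 3 * τ / 4) P) with hB
  set G := Zs.filter (fun P => goodP ch Λ θ0 (R ^ 4 * τ) P) with hG
  set NG := Zs.filter (fun P => ¬ goodP ch Λ θ0 (R ^ 4 * τ) P) with hNG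
  have hsplit : G.card + NG.card = Zs.card := Finset.card_filter_add_card_filter_not _
  have cB : (B.card : ℝ) ≤ 10 ^ 4 * R ^ 2 * (Λ ^ 6233)⁻¹ :=
    cnt_bad hq ch hab hr hΛ hR hbR hN hKa B (fun P hP => Finset.mem_filter.1 hP)
  have cNG : (NG.card : ℝ) ≤ 10 ^ 5 * R ^ 2 * (Λ ^ 6002)⁻¹ + 3 * hb :=
    cnt_notgood hq ch hab hr hΛ hR hτ hτR hbR hθ hyv hH hH0 hN hSg hhug NG
      (fun P hP => Finset.mem_filter.1 hP)
  have hdc := double_count ch.nx (fun P => P.1) Zs B G k hk3 (Λ ^ 229) (by positivity)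
    ch.mem ch.inj (Finset.filter_subset _ _) (Finset.filter_subset _ _)
    (fun P hP h => Finset.mem_filter.2 ⟨hP, Or.inl h⟩) (by
      intro P hP hcl E hE
      set pts : ℕ → ℤ × ℤ := fun t => (itn ch.nx t P).getD P with hpts
      have h1 : ∀ t < k, itn ch.nx t P = some (pts t) ∧ pts t ∉ B := by
        intro t ht
        obtain ⟨Q, hQ, hQB⟩ := hcl t ht
        have : pts t = Q := by rw [hpts]; simp only [hQ, Option.getD_some]
        rw [this]
        exact ⟨hQ, hQB⟩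
      have h2 : ∀ t < k, pts t ∈ Zs ∧ ch.nx (pts t) = some (pts (t + 1)) := by
        intro t
        induction t with
        | zero =>
          intro ht
          have h3 : pts 0 = P := by rw [hpts]; rfl
          have h4 : pts 0 ∈ Zs := by rw [h3]; exact hP
          refine ⟨h4, ?_⟩
          have h5 : ch.nx (pts 0) ≠ none := by
            intro h6
            exact (h1 0 ht).2 (Finset.mem_filter.2 ⟨h4, Or.inl h6⟩)
          obtain ⟨Q, hQ⟩ := Option.ne_none_iff_exists'.1 h5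
          have h6 : itn ch.nx 1 P = some Q := by
            rw [h3] at hQ
            change (some P).bind ch.nx = some Q
            exact hQ
          have h7 : pts 1 = Q := by rw [hpts]; simp only [h6, Option.getD_some]
          rw [hQ]
          change some Q = some (pts 1)
          rw [h7]
        | succ t ih =>
          intro ht
          have h3 := ih (by omega)
          have h4 : pts (t + 1) ∈ Zs := (ch.mem _ _ h3.2).2.1
          refine ⟨h4, ?_⟩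
          have h5 : ch.nx (pts (t + 1)) ≠ none := by
            intro h6
            exact (h1 (t + 1) ht).2 (Finset.mem_filter.2 ⟨h4, Or.inl h6⟩)
          obtain ⟨Q, hQ⟩ := Option.ne_none_iff_exists'.1 h5
          have h6 : itn ch.nx (t + 1 + 1) P = some Q := by
            change (itn ch.nx (t + 1) P).bind ch.nx = some Q
            rw [(h1 (t + 1) ht).1]
            exact hQ
          have h7 : pts (t + 1 + 1) = Q := by
            rw [hpts]
            simp only [h6, Option.getD_some]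
          rw [hQ, h7]
      have hZ : ∀ t ≤ k, pts t ∈ Zs := by
        intro t ht
        rcases Nat.lt_or_ge t k with h3 | h3
        · exact (h2 t h3).1
        · have : t = (k - 1) + 1 := by omega
          rw [this]
          exact (ch.mem _ _ (h2 (k - 1) (by omega)).2).2.1
      refine clean_count ch hr hΛ hR hτ hτR hbR hyv hm hk3 hk2 pts hZ (fun t ht => (h2 t ht).2)
        (fun t ht hb => (h1 t ht).2 (Finset.mem_filter.2 ⟨hZ t ht.le, hb⟩)) E ?_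
      intro t ht
      obtain ⟨h3, Q, hQG, hQ⟩ := hE t ht
      refine ⟨h3, ?_⟩
      have h4 : pts t = Q := by
        have := (h1 t (by omega)).1
        rw [hQ] at this
        exact (Option.some.inj this).symm
      rw [h4]
      exact (Finset.mem_filter.1 hQG).2)
  -- the numbers
  have hZ0 : (0 : ℝ) ≤ Zs.card := Nat.cast_nonneg _
  have hB0 : (0 : ℝ) ≤ B.card := Nat.cast_nonneg _
  have hG0 : (0 : ℝ) ≤ G.card := Nat.cast_nonneg _
  have hkpos : (0 : ℝ) < k := by linarith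
  have s1 : (k : ℝ) / 2 * G.card ≤ Λ ^ 229 * Zs.card + 2 * k ^ 2 * B.card := by
    refine le_trans ?_ hdc
    apply mul_le_mul_of_nonneg_right _ hG0
    linarith
  have s2 : Λ ^ 229 ≤ k / 8 := by
    have h1 : Λ ^ 229 * 8 ≤ Λ ^ 231 := by
      have h2 : Λ ^ 231 = Λ ^ 229 * Λ ^ 2 := by rw [← pow_add]
      rw [h2]
      apply mul_le_mul_of_nonneg_left _ (by positivity)
      nlinarith
    linarith
  have s3 : (k : ℝ) * (G.card) ≤ k * (Zs.card / 4 + 4 * k * B.card) := by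
    have h1 : Λ ^ 229 * Zs.card ≤ k / 8 * Zs.card := mul_le_mul_of_nonneg_right s2 hZ0
    nlinarith
  have s4 : (G.card : ℝ) ≤ Zs.card / 4 + 4 * k * B.card := le_of_mul_le_mul_left s3 hkpos
  have s5 : (k : ℝ) * B.card ≤ 2 * 10 ^ 4 * R ^ 2 * (Λ ^ 6002)⁻¹ := by
    calc (k : ℝ) * B.card ≤ (2 * Λ ^ 231) * (10 ^ 4 * R ^ 2 * (Λ ^ 6233)⁻¹) :=
          mul_le_mul hk2 cB hB0 (by positivity)
      _ = 2 * 10 ^ 4 * R ^ 2 * (Λ ^ 231 * (Λ ^ 6233)⁻¹) := by ring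
      _ = 2 * 10 ^ 4 * R ^ 2 * (Λ ^ 6002)⁻¹ := by
          have : Λ ^ 6233 = Λ ^ 231 * Λ ^ 6002 := by rw [← pow_add]
          have h2 : Λ ^ 231 * (Λ ^ 6233)⁻¹ = (Λ ^ 6002)⁻¹ := by
            rw [this, mul_inv, ← mul_assoc, mul_inv_cancel₀ (by positivity), one_mul]
          rw [h2]
  have s6 : (G.card : ℝ) + NG.card = Zs.card := by exact_mod_cast hsplit
  have hpos : 0 ≤ R ^ 2 * (Λ ^ 6002)⁻¹ := by positivity
  have hb0 : 0 ≤ hb := by
    have := hhug ∅ (by simp)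
    simpa using this
  nlinarith

end MuntzF
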