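import Pool.Agent.Lib.MP_dde81e_an.Defs

/-!
Definitions, part 1 (one variable, real plane curves), for the complete solution of MP_dde81e_an.
Paper proof: /team-store/MUNTZ_FULL.md (the section numbers in the comments refer to it).
-/

namespace MuntzF
open Set Metric MeasureTheory

/-- closed rectangle `[0,W] x [-T,T]`. -/
def Rc (W T : ℝ) : Set ℂ := {s | 0 ≤ s.re ∧ s.re ≤ W ∧ |s.im| ≤ T}

/-- analytic near the closed disc `closedBall c r` and bounded by `1` on it. -/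
structure DF (f : ℂ → ℂ) (c : ℂ) (r : ℝ) : Prop where
  an : AnalyticOnNhd ℂ f (closedBall c r)
  bd : ∀ z ∈ closedBall c r, ‖f z‖ ≤ 1

/-- `∏ (z - a)` over a multiset. -/
noncomputable def pz (s : Multiset ℂ) (z : ℂ) : ℂ := (s.map (fun a => z - a)).prod

/-- Blaschke product of the unit disc over a multiset. -/
noncomputable def bp (s : Multiset ℂ) (z : ℂ) : ℂ :=
  (s.map (fun a => (z - a) / (1 - (starRingEnd ℂ) a * z))).prod

/-- value of a real polynomial in two variables. -/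
noncomputable def ev (q : MvPolynomial (Fin 2) ℝ) (x y : ℝ) : ℝ := MvPolynomial.eval ![x, y] q

/-- partial derivatives. -/
noncomputable def dx (q : MvPolynomial (Fin 2) ℝ) : MvPolynomial (Fin 2) ℝ := MvPolynomial.pderiv 0 q
noncomputable def dy (q : MvPolynomial (Fin 2) ℝ) : MvPolynomial (Fin 2) ℝ := MvPolynomial.pderiv 1 q

/-- `q_xx q_y^2 - 2 q_xy q_x q_y + q_yy q_x^2`. -/
noncomputable def Hq (q : MvPolynomial (Fin 2) ℝ) : MvPolynomial (Fin 2) ℝ :=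
  dx (dx q) * dy q ^ 2 - 2 * dx (dy q) * dx q * dy q + dy (dy q) * dx q ^ 2

/-- `q` is a generic curve of degree `N`: constant leading coefficient in `y`, simple events,
finitely many events, tangencies with the slopes of `Sg`, points with second derivative in `Ka`,
with Bezout bounds, no event on the lines `x = m`, `m ∈ Mm`. -/
structure Gen (q : MvPolynomial (Fin 2) ℝ) (N : ℕ) (Sg Ka Mm : Set ℝ) : Prop where
  lead : ∃ (e : ℝ) (S : MvPolynomial (Fin 2) ℝ), e ≠ 0 ∧ S.totalDegree < N ∧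
    q = S + MvPolynomial.C e * MvPolynomial.X 1 ^ N
  two : 2 ≤ N
  evs : ∀ K : Finset (ℝ × ℝ), (∀ P ∈ K, ev q P.1 P.2 = 0 ∧ ev (dy q) P.1 P.2 = 0) →
    K.card ≤ 2 * N ^ 2
  simple : ∀ x y, ev q x y = 0 → ev (dy q) x y = 0 → ev (dy (dy q)) x y ≠ 0
  tang : ∀ σ ∈ Sg, ∀ K : Finset (ℝ × ℝ),
    (∀ P ∈ K, ev q P.1 P.2 = 0 ∧ ev (dx q) P.1 P.2 + σ * ev (dy q) P.1 P.2 = 0) →
    K.card ≤ 2 * N ^ 2
  lvl : ∀ κ ∈ Ka, ∀ K : Finset (ℝ × ℝ),
    (∀ P ∈ K, ev q P.1 P.2 = 0 ∧ ev (Hq q) P.1 P.2 + κ * ev (dy q) P.1 P.2 ^ 3 = 0) →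
    K.card ≤ 6 * N ^ 2
  gm : ∀ m ∈ Mm, ∀ y, ev q m y = 0 → ev (dy q) m y ≠ 0

/-- an arc of the curve `q = 0` over `[m,m']`, never vertical. -/
structure Arc (q : MvPolynomial (Fin 2) ℝ) (m m' : ℝ) (φ : ℝ → ℝ) : Prop where
  cont : ContinuousOn φ (Icc m m')
  zero : ∀ x ∈ Icc m m', ev q x (φ x) = 0
  ne : ∀ x ∈ Icc m m', ev (dy q) x (φ x) ≠ 0

/-- first and second derivative along the curve. -/
noncomputable def D1 (q : MvPolynomial (Fin 2) ℝ) (x y : ℝ) : ℝ := - ev (dx q) x y / ev (dy q) x y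
noncomputable def D2 (q : MvPolynomial (Fin 2) ℝ) (x y : ℝ) : ℝ := - ev (Hq q) x y / ev (dy q) x y ^ 3

/-- chains of curve points with integer abscissas (7.4). `yv P` is the ordinate of the curve point
attached to the lattice point `P`. -/
structure Chain (q : MvPolynomial (Fin 2) ℝ) (N : ℕ) (Zs : Finset (ℤ × ℤ)) (yv : ℤ × ℤ → ℝ) where
  nx : ℤ × ℤ → Option (ℤ × ℤ)
  ph : ℤ × ℤ → ℝ → ℝ
  mem : ∀ P P', nx P = some P' → P ∈ Zs ∧ P' ∈ Zs ∧ P.1 < P'.1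
  arc : ∀ P P', nx P = some P' → Arc q P.1 P'.1 (ph P)
  left : ∀ P P', nx P = some P' → ph P P.1 = yv P
  right : ∀ P P', nx P = some P' → ph P P'.1 = yv P'
  inj : ∀ P P' Q, nx P = some Q → nx P' = some Q → P = P'
  disj : ∀ P1 P2 Q1 Q2, nx P1 = some Q1 → nx P2 = some Q2 → ∀ x : ℝ, (P1.1 : ℝ) ≤ x → x < Q1.1 →
    (P2.1 : ℝ) ≤ x → x < Q2.1 → ph P1 x = ph P2 x → P1 = P2
  ends : (Zs.filter (fun P => nx P = none)).card ≤ 5 * N ^ 2
  yinj : ∀ P ∈ Zs, ∀ P' ∈ Zs, P.1 = P'.1 → yv P = yv P' → P = P'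

namespace Chain
variable {q : MvPolynomial (Fin 2) ℝ} {N : ℕ} {Zs : Finset (ℤ × ℤ)} {yv : ℤ × ℤ → ℝ}

/-- the step `P' - P` of the chain at `P` (`0` if there is no successor). -/
def vx (ch : Chain q N Zs yv) (P : ℤ × ℤ) : ℤ := match ch.nx P with | some P' => P'.1 - P.1 | none => 0
def vy (ch : Chain q N Zs yv) (P : ℤ × ℤ) : ℤ := match ch.nx P with | some P' => P'.2 - P.2 | none => 0
/-- slope of the step. -/
noncomputable def sl (ch : Chain q N Zs yv) (P : ℤ × ℤ) : ℝ := (ch.vy P : ℝ) / (ch.vx P : ℝ)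
/-- transversal component of the step with respect to the slope `θ0`. -/
noncomputable def vp (ch : Chain q N Zs yv) (θ0 : ℝ) (P : ℤ × ℤ) : ℝ := (ch.vy P : ℝ) - θ0 * (ch.vx P : ℝ)
/-- hugging step: the slope of the arc stays `τ0`-close to the slope of the step. -/
def hug (ch : Chain q N Zs yv) (τ0 : ℝ) (P : ℤ × ℤ) : Prop :=
  ∃ P', ch.nx P = some P' ∧ ∀ x ∈ Icc (P.1 : ℝ) P'.1, |D1 q x (ch.ph P x) - ch.sl P| < τ0
/-- iterated successor. -/
def it (ch : Chain q N Zs yv) : ℕ → ℤ × ℤ → Option (ℤ × ℤ)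
  | 0, P => some P
  | n + 1, P => (ch.it n P).bind ch.nx

end Chain

end MuntzF
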