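import Pool.Agent.Lib.MP_dde81e_full.BDefs

/-!
Module E1 (text 4.2).  For ‖s‖,‖t‖ ≤ 1: z = x0(1+s/2), Re z ≥ x0/2, |z|,|w| ≤ 2^(j+s0), |Re w/Re z - θ0| = |u x0 Re t/Re z| ≤ 2u ≤ 2 dl d, so the slope is in bg d; Box.up.  On a neighbourhood of the bidisc Re z > -1, Re w > -1
(Re w ≥ (θ0-2u) x0/2 > 0: θ0 - 2u ≥ dc d - 4 dl d > 0 by hI), F is differentiable there.  pt: s1 = 2(z-x0)/x0, t1 = (w-θ0 z)/(u x0).
-/

namespace MuntzF
open Set

/-- geometry of the box: real parts, norms and slope. -/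
theorem E1_geom {b0 : ℝ} (hb : 2 ≤ b0) {d : ℕ × ℕ}
    (hI : ∀ x, |x - dc d| ≤ 4 * dl d → x ∈ I1 b0) {x0 θ0 u : ℝ} (hx0 : 0 < x0)
    (h3 : θ0 ∈ st d) (hu : 0 < u) (h5 : u ≤ dl d) (s t : ℂ) (hs : ‖s‖ ≤ 1) (ht : ‖t‖ ≤ 1) :
    x0 / 2 ≤ ((x0 : ℂ) * (1 + s / 2)).re ∧
    0 < ((θ0 : ℂ) * ((x0 : ℂ) * (1 + s / 2)) + u * x0 * t).re ∧
    ‖(x0 : ℂ) * (1 + s / 2)‖ ≤ 3 / 2 * x0 ∧
    ‖(θ0 : ℂ) * ((x0 : ℂ) * (1 + s / 2)) + u * x0 * t‖ ≤ 4 * b0 * x0 ∧
    ((θ0 : ℂ) * ((x0 : ℂ) * (1 + s / 2)) + u * x0 * t).re / ((x0 : ℂ) * (1 + s / 2)).re ∈ bg d := by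
  have hsre : |s.re| ≤ 1 := (Complex.abs_re_le_norm s).trans hs
  have htre : |t.re| ≤ 1 := (Complex.abs_re_le_norm t).trans ht
  rw [abs_le] at hsre htre
  have hdl : 0 < dl d := by unfold dl; positivity
  obtain ⟨h3a, h3b⟩ := h3
  have e1 := hI (dc d - 4 * dl d) (by rw [show dc d - 4 * dl d - dc d = -(4 * dl d) by ring, abs_neg, abs_of_pos (by positivity)])
  have e2 := hI (dc d + 4 * dl d) (by rw [show dc d + 4 * dl d - dc d = 4 * dl d by ring, abs_of_pos (by positivity)])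
  have hb1 : 0 < 1 / (2 * b0) := by positivity
  have hb2 : 1 / (2 * b0) ≤ 1 := by
    rw [div_le_one (by positivity)]; linarith
  have e1a := e1.1
  have e2a := e2.2
  have hzre : ((x0 : ℂ) * (1 + s / 2)).re = x0 * (1 + s.re / 2) := by
    rw [Complex.re_ofReal_mul]
    congr 1
    have : (s / 2).re = s.re / 2 := by
      rw [show (s / 2) = s * ((1 / 2 : ℝ) : ℂ) by push_cast; ring, Complex.re_mul_ofReal]; ring
    rw [Complex.add_re, Complex.one_re, this]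
  have hwre : ((θ0 : ℂ) * ((x0 : ℂ) * (1 + s / 2)) + u * x0 * t).re
      = θ0 * (x0 * (1 + s.re / 2)) + u * x0 * t.re := by
    rw [Complex.add_re, Complex.re_ofReal_mul, hzre, ← Complex.ofReal_mul, Complex.re_ofReal_mul]
  have hzpos : x0 / 2 ≤ x0 * (1 + s.re / 2) := by nlinarith
  have hθ : 0 < θ0 := by linarith
  have hθ2 : 2 * u < θ0 := by linarith
  have hux : 0 < u * x0 := mul_pos hu hx0
  have hn : ‖(x0 : ℂ) * (1 + s / 2)‖ ≤ 3 / 2 * x0 := by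
    rw [norm_mul, Complex.norm_real, Real.norm_of_nonneg hx0.le]
    have : ‖(1 : ℂ) + s / 2‖ ≤ 3 / 2 := by
      refine (norm_add_le _ _).trans ?_
      rw [norm_one, norm_div]
      have : ‖(2 : ℂ)‖ = 2 := by simp
      rw [this]; linarith
    nlinarith
  refine ⟨?_, ?_, hn, ?_, ?_⟩
  · rw [hzre]; exact hzpos
  · rw [hwre]
    nlinarith
  · refine (norm_add_le _ _).trans ?_
    have n1 : ‖(θ0 : ℂ) * ((x0 : ℂ) * (1 + s / 2))‖ = θ0 * ‖(x0 : ℂ) * (1 + s / 2)‖ := by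
      rw [norm_mul, Complex.norm_real, Real.norm_of_nonneg hθ.le]
    have n2 : ‖(u : ℂ) * x0 * t‖ = u * x0 * ‖t‖ := by
      rw [norm_mul, norm_mul, Complex.norm_real, Complex.norm_real, Real.norm_of_nonneg hu.le,
        Real.norm_of_nonneg hx0.le]
    rw [n1, n2]
    have h1 : θ0 ≤ 2 * b0 := by linarith
    have h2 : u ≤ b0 := by linarith
    have h3 : θ0 * ‖(x0 : ℂ) * (1 + s / 2)‖ ≤ 2 * b0 * (3 / 2 * x0) :=
      mul_le_mul h1 hn (norm_nonneg _) (by linarith)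
    have h4 : u * x0 * ‖t‖ ≤ b0 * x0 * 1 :=
      mul_le_mul (mul_le_mul_of_nonneg_right h2 hx0.le) ht (norm_nonneg _) (by positivity)
    linarith
  · rw [hwre, hzre]
    have hz0 : 0 < x0 * (1 + s.re / 2) := by linarith
    have e3 : |u * x0 * t.re| ≤ 2 * dl d * (x0 * (1 + s.re / 2)) := by
      rw [abs_mul, abs_of_pos hux]
      have : |t.re| ≤ 1 := abs_le.2 htre
      have h6 : u * x0 * |t.re| ≤ u * x0 * 1 := mul_le_mul_of_nonneg_left this hux.le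
      have h7 : u * x0 ≤ dl d * x0 := mul_le_mul_of_nonneg_right h5 hx0.le
      nlinarith
    rw [abs_le] at e3
    refine ⟨?_, ?_⟩
    · rw [le_div_iff₀ hz0]
      nlinarith
    · rw [div_le_iff₀ hz0]
      nlinarith

theorem box_bf {F : ℂ × ℂ → ℂ} {b0 : ℝ} (hF : Muntz.GoodF F) (hb : 2 ≤ b0) {c : ℕ → ℝ → ℝ} {L A1 : ℝ} {s0 : ℕ}
    (hs0 : 2 ^ 14 * b0 ≤ 2 ^ s0) {j : ℕ} {d : ℕ × ℕ} {α β : ℝ}
    (hI : ∀ x, |x - dc d| ≤ 4 * dl d → x ∈ I1 b0) (hB : Box F c L s0 A1 j d α β) {x0 θ0 u : ℝ}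
    (h1 : 2 ^ j / 2 ≤ x0) (h2 : x0 ≤ 16 * 2 ^ j) (h3 : θ0 ∈ st d) (h4 : hh (iJ c L j d) ^ 3 ≤ u)
    (h5 : u ≤ dl d) : BF (fb F α β x0 θ0 u) (A1 * hh (iJ c L j d) * x0) := by
  have hu : 0 < u := lt_of_lt_of_le (by unfold hh; positivity) h4
  have h2j : (0 : ℝ) < 2 ^ j := by positivity
  have hx0 : 0 < x0 := by linarith
  have hre : ∀ z w : ℂ, ((α : ℂ) * z + β * w).re = α * z.re + β * w.re := by
    intro z w
    rw [Complex.add_re, Complex.re_ofReal_mul, Complex.re_ofReal_mul]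
  refine ⟨?_, ?_, ?_⟩
  · refine ⟨{p : ℂ × ℂ | 0 < ((x0 : ℂ) * (1 + p.1 / 2)).re ∧
      0 < ((θ0 : ℂ) * ((x0 : ℂ) * (1 + p.1 / 2)) + u * x0 * p.2).re}, ?_, ?_, ?_⟩
    · refine IsOpen.inter ?_ ?_
      · exact isOpen_lt continuous_const (Complex.continuous_re.comp
          (by fun_prop : Continuous fun p : ℂ × ℂ => (x0 : ℂ) * (1 + p.1 / 2)))
      · exact isOpen_lt continuous_const (Complex.continuous_re.comp
          (by fun_prop : Continuous fun p : ℂ × ℂ => (θ0 : ℂ) * ((x0 : ℂ) * (1 + p.1 / 2)) + u * x0 * p.2))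
    · intro p hp
      have := E1_geom hb hI hx0 h3 hu h5 p.1 p.2 hp.1 hp.2
      exact ⟨by linarith [this.1], this.2.1⟩
    · unfold fb
      refine DifferentiableOn.mul ?_ (by fun_prop)
      have hg : Differentiable ℂ (fun p : ℂ × ℂ => (((x0 : ℂ) * (1 + p.1 / 2),
          (θ0 : ℂ) * ((x0 : ℂ) * (1 + p.1 / 2)) + u * x0 * p.2) : ℂ × ℂ)) := by fun_prop
      refine DifferentiableOn.comp hF.diff hg.differentiableOn ?_
      intro p hp
      exact ⟨by linarith [hp.1], by linarith [hp.2]⟩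
  · intro p hp1 hp2
    obtain ⟨g1, g2, g3, g4, g5⟩ := E1_geom hb hI hx0 h3 hu h5 p.1 p.2 hp1 hp2
    have hpow : (2 : ℝ) ^ (j + s0) = 2 ^ j * 2 ^ s0 := pow_add 2 j s0
    have hbig : 2 ^ 14 * b0 * 2 ^ j ≤ (2 : ℝ) ^ (j + s0) := by
      rw [hpow]; nlinarith
    have hup := hB.up _ _ (g3.trans (le_trans (by nlinarith) hbig))
      (g4.trans (le_trans (by nlinarith) hbig)) (by linarith) g5
    unfold fb
    rw [norm_mul, Complex.norm_exp, hre]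
    calc _ ≤ Real.exp (-(α * ((x0 : ℂ) * (1 + p.1 / 2)).re + β *
          ((θ0 : ℂ) * ((x0 : ℂ) * (1 + p.1 / 2)) + u * x0 * p.2).re)) *
          Real.exp (α * ((x0 : ℂ) * (1 + p.1 / 2)).re + β *
          ((θ0 : ℂ) * ((x0 : ℂ) * (1 + p.1 / 2)) + u * x0 * p.2).re) :=
          mul_le_mul_of_nonneg_right hup (Real.exp_pos _).le
      _ = 1 := by rw [← Real.exp_add, neg_add_cancel, Real.exp_zero]
  · obtain ⟨z, w, hz, hw, hzw⟩ := hB.pt x0 θ0 u h1 h2 h3 h4 h5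
    have hx0c : (x0 : ℂ) ≠ 0 := by exact_mod_cast hx0.ne'
    have huc : (u : ℂ) ≠ 0 := by exact_mod_cast hu.ne'
    have ez : (x0 : ℂ) * (1 + (2 * (z - x0) / x0) / 2) = z := by
      field_simp; ring
    have ew : (θ0 : ℂ) * z + u * x0 * ((w - θ0 * z) / (u * x0)) = w := by
      field_simp; ring
    refine ⟨(2 * (z - x0) / x0, (w - θ0 * z) / (u * x0)), ?_, ?_, ?_⟩
    · show ‖2 * (z - x0) / x0‖ ≤ 2 / 3
      rw [norm_div, norm_mul, Complex.norm_real, Real.norm_of_nonneg hx0.le]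
      have : ‖(2 : ℂ)‖ = 2 := by simp
      rw [this, div_le_iff₀ hx0]
      linarith
    · show ‖(w - θ0 * z) / (u * x0)‖ ≤ 1 / 8
      rw [norm_div, norm_mul, Complex.norm_real, Complex.norm_real, Real.norm_of_nonneg hx0.le,
        Real.norm_of_nonneg hu.le, div_le_iff₀ (by positivity)]
      linarith
    · unfold fb
      simp only
      rw [ez, ew, norm_mul, Complex.norm_exp, hre]
      calc Real.exp (-(A1 * hh (iJ c L j d) * x0))
          = Real.exp (-(α * z.re + β * w.re) - A1 * hh (iJ c L j d) * x0) *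
            Real.exp (α * z.re + β * w.re) := by
            rw [← Real.exp_add]; congr 1; ring
        _ ≤ _ := mul_le_mul_of_nonneg_right hzw (Real.exp_pos _).le

end MuntzF
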