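import Pool.Agent.Lib.MP_dde81e_full.EDefs
import Pool.Agent.Lib.MP_dde81e_full.L2

/-!
Module E10 (text 5.7 (a)).  P = (x1,y1) the point of the valley with |s|,|t| ≤ 1/64 and slope in cell d; move along the line: (x,y) = P + τ (q,p)/V, V = ht l, |τ| ≤ (x0/200) min(1, |J|/(η+|J|)), |J| = dl d, η = eta l j.
s changes by ≤ 2|τ|/x0 ≤ 1/64, t by |p-θ0q||τ|/(V|J|x0) with |p-θ0q|/V ≤ |r|/(V x1) + |θ1-θ0| ≤ η·2^j/x1 + |J|/16: ≤ 1/64.  So fj ≤ exp(-hλ²2^j) there (Valley).  slope y/x as a function of τ: derivative -r/(V x²): monotone,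
moves by ≥ c min(η,|J|) and ≤ |J|/16; choose the sign of τ so that it moves towards the centre of the cell.  These slopes are in DlJ ∩ cell d (2^j/2 ≤ x ≤ 4·2^j), the set of slopes is an interval.
Dg: |F(x,y)| = fj exp(-(αx+βy)) ≤ exp(-hλ²2^j - x(c_(j+4i) - A1h)) and c_(j+4i) ≥ c_(j-4i) - 512Lh ≥ c_j - 512Lh (lev_spec at level i ≤ lev, θ ∈ st d), x ≤ 4·2^j, so ≤ exp(-x c_j - hh(lv) lam(lv)² 2^j/16) for i large
(hh(lv) ≤ h, lam(lv)² ≤ 2 lam(i)²).  ht l ≤ 4^i ≤ 2^(20 lv).  r = 0 (η = 0): trivial.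
-/

namespace MuntzF
open Set MeasureTheory

theorem E10_ht (l : Ln) : 1 ≤ ht l ∧ (l.q : ℝ) ≤ ht l ∧ |(l.p : ℝ)| ≤ ht l := by
  refine ⟨?_, le_max_left _ _, le_max_right _ _⟩
  rcases Nat.eq_zero_or_pos l.q with h | h
  · have h1 := l.hq h
    refine le_trans ?_ (le_max_right _ _)
    rw [h1]
    norm_num
  · refine le_trans ?_ (le_max_left _ _)
    exact_mod_cast h

/-- motion along the line. -/
theorem E10_core {l : Ln} {u x0 θ0 x1 y1 η R τ : ℝ} (hu : 0 < u) (hR : 0 < R) (hx0 : R ≤ x0)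
    (hη : η = |(l.r : ℝ)| / (ht l * R)) (hon : onl l x1 y1)
    (h1 : |x1 - x0| ≤ x0 / 128) (h2 : |y1 - θ0 * x1| ≤ u * x0 / 64) (h3 : |y1 / x1 - θ0| ≤ u)
    (hτ : |τ| ≤ x0 / 200 * (u / (η + u))) :
    onl l (x1 + τ * (l.q / ht l)) (y1 + τ * (l.p / ht l)) ∧
    |x1 + τ * (l.q / ht l) - x0| ≤ x0 / 64 ∧
    |y1 + τ * (l.p / ht l) - θ0 * (x1 + τ * (l.q / ht l))| ≤ u * x0 / 16 ∧
    (y1 + τ * (l.p / ht l)) / (x1 + τ * (l.q / ht l)) - y1 / x1 =
      -(τ * (l.r / ht l)) / (x1 * (x1 + τ * (l.q / ht l))) := by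
  obtain ⟨hV1, hqV, hpV⟩ := E10_ht l
  set V := ht l with hV
  have hV0 : 0 < V := by linarith
  have hx00 : 0 < x0 := by linarith
  have hq0 : (0 : ℝ) ≤ l.q := Nat.cast_nonneg _
  have hη0 : 0 ≤ η := by rw [hη]; positivity
  have hηu : 0 < η + u := by linarith
  have hfr : u / (η + u) ≤ 1 := by
    rw [div_le_one hηu]; linarith
  have hfr0 : 0 ≤ u / (η + u) := by positivity
  have hτ1 : |τ| ≤ x0 / 200 := by
    calc |τ| ≤ x0 / 200 * (u / (η + u)) := hτ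
      _ ≤ x0 / 200 * 1 := by gcongr
      _ = x0 / 200 := by ring
  have hqV1 : (l.q : ℝ) / V ≤ 1 := by rw [div_le_one hV0]; exact hqV
  have hqV0 : 0 ≤ (l.q : ℝ) / V := by positivity
  have hτq : |τ * (l.q / V)| ≤ x0 / 200 := by
    rw [abs_mul, abs_of_nonneg hqV0]
    calc |τ| * (l.q / V) ≤ (x0 / 200) * 1 := by gcongr
      _ = x0 / 200 := by ring
  rw [abs_le] at h1 hτq
  have hx1 : 0 < x1 := by linarith [h1.1]
  have hx : 0 < x1 + τ * (l.q / V) := by linarith [h1.1, hτq.1]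
  unfold onl at hon
  have hon' : onl l (x1 + τ * (l.q / V)) (y1 + τ * (l.p / V)) := by
    unfold onl
    have : (l.q : ℝ) * (y1 + τ * (l.p / V)) - l.p * (x1 + τ * (l.q / V)) =
      (l.q : ℝ) * y1 - l.p * x1 := by ring
    rw [this, hon]
  refine ⟨hon', ?_, ?_, ?_⟩
  · rw [abs_le]
    constructor <;> linarith [h1.1, h1.2, hτq.1, hτq.2]
  · -- p - θ0 q
    have e1 : (l.p : ℝ) - θ0 * l.q = (y1 / x1 - θ0) * l.q - l.r / x1 := by
      field_simp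
      linarith
    have e2 : |(l.r : ℝ)| = η * V * R := by
      rw [hη]; field_simp
    have e3 : |(l.r : ℝ) / x1| ≤ 2 * (η * V) := by
      rw [abs_div, abs_of_pos hx1, div_le_iff₀ hx1, e2]
      have h0 : 0 ≤ η * V := by positivity
      have h5 : R ≤ 2 * x1 := by linarith [h1.1]
      nlinarith [mul_le_mul_of_nonneg_left h5 h0]
    have e4 : |(y1 / x1 - θ0) * l.q| ≤ u * V := by
      rw [abs_mul, abs_of_nonneg hq0]
      exact mul_le_mul h3 hqV hq0 hu.le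
    have e5 : |((l.p : ℝ) - θ0 * l.q) / V| ≤ 2 * (η + u) := by
      rw [abs_div, abs_of_pos hV0, div_le_iff₀ hV0, e1]
      have := abs_sub ((y1 / x1 - θ0) * (l.q : ℝ)) (l.r / x1)
      nlinarith [mul_pos hu hV0]
    have e6 : |τ * (((l.p : ℝ) - θ0 * l.q) / V)| ≤ u * x0 / 100 := by
      rw [abs_mul]
      calc |τ| * |((l.p : ℝ) - θ0 * l.q) / V| ≤ (x0 / 200 * (u / (η + u))) * (2 * (η + u)) := by
            gcongr
        _ = u * x0 / 100 := by field_simp; ring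
    have e7 : y1 + τ * (l.p / V) - θ0 * (x1 + τ * (l.q / V)) =
      (y1 - θ0 * x1) + τ * (((l.p : ℝ) - θ0 * l.q) / V) := by ring
    rw [e7]
    calc |(y1 - θ0 * x1) + τ * (((l.p : ℝ) - θ0 * l.q) / V)|
        ≤ |y1 - θ0 * x1| + |τ * (((l.p : ℝ) - θ0 * l.q) / V)| := abs_add_le _ _
      _ ≤ u * x0 / 64 + u * x0 / 100 := add_le_add h2 e6
      _ ≤ u * x0 / 16 := by nlinarith [mul_pos hu hx00]
  · rw [div_sub_div _ _ hx.ne' hx1.ne', div_eq_div_iff (mul_pos hx hx1).ne' (mul_pos hx1 hx).ne']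
    have : (y1 + τ * (l.p / V)) * x1 - (x1 + τ * (l.q / V)) * y1 = -(τ * (l.r / V)) := by
      rw [← hon]; ring
    rw [this]; ring

/-- `lam` is large for large `i`. -/
theorem E10_lam (K : ℝ) : ∃ i1 : ℕ, ∀ i, i1 ≤ i → K ≤ lam i ^ 2 := by
  have h : Filter.Tendsto (fun i : ℕ => (2 : ℝ) ^ ((i : ℝ) / 8000)) Filter.atTop Filter.atTop := by
    have h1 : Filter.Tendsto (fun i : ℕ => (i : ℝ) / 8000) Filter.atTop Filter.atTop :=
      Filter.Tendsto.atTop_div_const (by norm_num) tendsto_natCast_atTop_atTop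
    exact (tendsto_rpow_atTop_of_base_gt_one _ (by norm_num)).comp h1
  obtain ⟨i1, hi1⟩ := Filter.eventually_atTop.1 (h.eventually_ge_atTop (max K 1))
  refine ⟨i1, fun i hi => ?_⟩
  have h2 := hi1 i hi
  have h3 : lam i = (2 : ℝ) ^ ((i : ℝ) / 8000) := rfl
  rw [h3]
  have h4 : 1 ≤ (2 : ℝ) ^ ((i : ℝ) / 8000) := (le_max_right _ _).trans h2
  have h5 : K ≤ (2 : ℝ) ^ ((i : ℝ) / 8000) := (le_max_left _ _).trans h2
  nlinarith

/-- the point of the valley. -/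
theorem E10_base {F : ℂ × ℂ → ℂ} {b0 : ℝ} (X : Ctx F b0) {j : ℕ} {d : ℕ × ℕ} {x0 θ0 : ℝ} {l : Ln}
    (hx0 : 2 ^ j ≤ x0) (hθ0 : θ0 ∈ cell d) (hv : Valley X j d x0 θ0 l) :
    ∃ x1 y1 : ℝ, onl l x1 y1 ∧ |x1 - x0| ≤ x0 / 128 ∧ |y1 - θ0 * x1| ≤ dl d * x0 / 64 ∧
      y1 / x1 ∈ cell d ∧ |y1 / x1 - θ0| ≤ dl d := by
  have hR : (0 : ℝ) < 2 ^ j := by positivity
  have hx00 : 0 < x0 := by linarith
  have hu := L2_dl_pos d
  obtain ⟨x1, y1, hon, ⟨hs, ht⟩, hc⟩ := hv.2.1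
  refine ⟨x1, y1, hon, ?_, ?_, hc, ?_⟩
  · unfold cs at hs
    rw [abs_div, abs_of_pos hx00, div_le_iff₀ hx00, abs_mul, abs_of_pos (by norm_num : (0 : ℝ) < 2)] at hs
    linarith
  · unfold ct at ht
    rw [abs_div, abs_of_pos (mul_pos hu hx00), div_le_iff₀ (mul_pos hu hx00)] at ht
    linarith
  · have h1 := L2_cell hc
    have h2 := L2_cell hθ0
    rw [abs_le] at h1 h2 ⊢
    constructor <;> linarith [h1.1, h1.2, h2.1, h2.2]

/-- the moved points are deep. -/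
theorem E10_deep {F : ℂ × ℂ → ℂ} {b0 : ℝ} (X : Ctx F b0) {j : ℕ} {d : ℕ × ℕ} {x0 θ0 x1 y1 τ : ℝ}
    {l : Ln} (hx0 : 2 ^ j ≤ x0) (hx0' : x0 ≤ 2 * 2 ^ j) (hv : Valley X j d x0 θ0 l)
    (hon : onl l x1 y1) (h1 : |x1 - x0| ≤ x0 / 128) (h2 : |y1 - θ0 * x1| ≤ dl d * x0 / 64)
    (h3 : |y1 / x1 - θ0| ≤ dl d) (hτ : |τ| ≤ x0 / 200 * (dl d / (eta l j + dl d))) :
    2 ^ j / 2 ≤ x1 + τ * (l.q / ht l) ∧ x1 + τ * (l.q / ht l) ≤ 4 * 2 ^ j ∧
    onl l (x1 + τ * (l.q / ht l)) (y1 + τ * (l.p / ht l)) ∧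
    X.fj j d (x1 + τ * (l.q / ht l)) (y1 + τ * (l.p / ht l)) ≤
      Real.exp (-(hh (X.ij j d) * lam (X.ij j d) ^ 2 * 2 ^ j)) ∧
    |x1 + τ * (l.q / ht l) - x0| ≤ x0 / 64 ∧
    (y1 + τ * (l.p / ht l)) / (x1 + τ * (l.q / ht l)) - y1 / x1 =
      -(τ * (l.r / ht l)) / (x1 * (x1 + τ * (l.q / ht l))) := by
  have hR : (0 : ℝ) < 2 ^ j := by positivity
  have hx00 : 0 < x0 := by linarith
  have hu := L2_dl_pos d
  obtain ⟨a1, a2, a3, a4⟩ := E10_core (η := eta l j) hu hR hx0 rfl hon h1 h2 h3 hτ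
  have a2' := a2
  rw [abs_le] at a2'
  refine ⟨by linarith [a2'.1], by linarith [a2'.2], a1, ?_, a2, a4⟩
  refine hv.2.2 _ _ a1 ⟨?_, ?_⟩
  · unfold cs
    rw [abs_div, abs_of_pos hx00, div_le_iff₀ hx00, abs_mul, abs_of_pos (by norm_num : (0 : ℝ) < 2)]
    linarith
  · unfold ct
    rw [abs_div, abs_of_pos (mul_pos hu hx00), div_le_iff₀ (mul_pos hu hx00)]
    linarith

/-- an interval of slopes. -/
theorem E10_slopes {F : ℂ × ℂ → ℂ} {b0 : ℝ} (X : Ctx F b0) {j : ℕ} {d : ℕ × ℕ} {x0 θ0 : ℝ}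
    {l : Ln} (hx0 : 2 ^ j ≤ x0) (hx0' : x0 ≤ 2 * 2 ^ j) (hθ0 : θ0 ∈ cell d)
    (hv : Valley X j d x0 θ0 l) :
    ∃ a b : ℝ, 1 / 1000 * min (eta l j) (dl d) ≤ b - a ∧ Icc a b ⊆ cell d ∧
      ∀ θ ∈ Icc a b, ∃ x : ℝ, 2 ^ j / 2 ≤ x ∧ x ≤ 4 * 2 ^ j ∧ onl l x (θ * x) ∧
        X.fj j d x (θ * x) ≤ Real.exp (-(hh (X.ij j d) * lam (X.ij j d) ^ 2 * 2 ^ j)) := by
  have hR : (0 : ℝ) < 2 ^ j := by positivity
  have hx00 : 0 < x0 := by linarith
  have hu := L2_dl_pos d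
  obtain ⟨hV1, hqV, hpV⟩ := E10_ht l
  have hV0 : 0 < ht l := by linarith
  obtain ⟨x1, y1, hon, h1, h2, hc, h3⟩ := E10_base X hx0 hθ0 hv
  have h1' := h1
  rw [abs_le] at h1'
  have hx1 : 0 < x1 := by linarith [h1'.1]
  have hη0 : 0 ≤ eta l j := by unfold eta; positivity
  have hηu : 0 < eta l j + dl d := by linarith
  set η := eta l j with hη
  set u := dl d with hud
  set T := x0 / 200 * (u / (η + u)) with hT
  have hT0 : 0 ≤ T := by positivity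
  have er : |(l.r : ℝ)| = η * ht l * 2 ^ j := by
    rw [hη]; unfold eta; field_simp
  -- direction
  have hdir : ∃ ε : ℝ, (ε = 1 ∧ y1 / x1 < dc d) ∨ (ε = -1 ∧ dc d ≤ y1 / x1) := by
    rcases lt_or_ge (y1 / x1) (dc d) with h | h
    · exact ⟨1, Or.inl ⟨rfl, h⟩⟩
    · exact ⟨-1, Or.inr ⟨rfl, h⟩⟩
  obtain ⟨ε, hε⟩ := hdir
  have hε1 : |ε| = 1 := by
    rcases hε with ⟨h, -⟩ | ⟨h, -⟩ <;> rw [h] <;> norm_num
  obtain ⟨τs, hτs, hτr⟩ : ∃ τs : ℝ, |τs| = T ∧ -(τs * (l.r : ℝ)) = ε * T * |(l.r : ℝ)| := by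
    rcases le_total 0 (l.r : ℝ) with h | h
    · refine ⟨-(ε * T), ?_, ?_⟩
      · rw [abs_neg, abs_mul, hε1, one_mul, abs_of_nonneg hT0]
      · rw [abs_of_nonneg h]; ring
    · refine ⟨ε * T, ?_, ?_⟩
      · rw [abs_mul, hε1, one_mul, abs_of_nonneg hT0]
      · rw [abs_of_nonpos h]; ring
  have hD : ∀ τ : ℝ, |τ| ≤ T → _ := fun τ hτ => E10_deep X (τ := τ) hx0 hx0' hv hon h1 h2 h3 hτ
  obtain ⟨b1, b2, b3, b4, b5, b6⟩ := hD τs hτs.le
  set xs := x1 + τs * (l.q / ht l) with hxs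
  rw [abs_le] at b5
  have hxs0 : 0 < xs := by linarith
  -- δ
  set δ := T * η * 2 ^ j / (x1 * xs) with hδ
  have hδ0 : 0 ≤ δ := by positivity
  have b6' : (y1 + τs * (l.p / ht l)) / xs - y1 / x1 = ε * δ := by
    rw [b6]
    have : -(τs * ((l.r : ℝ) / ht l)) = ε * (T * η * 2 ^ j) := by
      have e : -(τs * ((l.r : ℝ) / ht l)) = (-(τs * (l.r : ℝ))) / ht l := by ring
      rw [e, hτr, er]; field_simp
    rw [this, hδ]; ring
  have hprod1 : x1 * xs ≤ 21 / 20 * x0 ^ 2 := by nlinarith [h1'.2, b5.2]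
  have hprod2 : 9 / 10 * x0 ^ 2 ≤ x1 * xs := by nlinarith [h1'.1, b5.1]
  have hδlow : 1 / 1000 * min η u ≤ δ := by
    rw [hδ, le_div_iff₀ (mul_pos hx1 hxs0)]
    have hm1 : min η u * (η + u) ≤ 2 * (η * u) := by
      rcases le_total η u with h | h
      · rw [min_eq_left h]; nlinarith
      · rw [min_eq_right h]; nlinarith
    have hm0 : 0 ≤ min η u := le_min hη0 hu.le
    have e1 : T * η * 2 ^ j = x0 / 200 * 2 ^ j * (η * u / (η + u)) := by rw [hT]; ring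
    have e2 : min η u / 2 ≤ η * u / (η + u) := by
      rw [div_le_div_iff₀ (by norm_num) hηu]; linarith
    calc 1 / 1000 * min η u * (x1 * xs) ≤ 1 / 1000 * min η u * (21 / 20 * x0 ^ 2) := by gcongr
      _ ≤ x0 / 200 * 2 ^ j * (min η u / 2) := by
          have : x0 / 2 ≤ 2 ^ j := by linarith
          nlinarith [mul_nonneg hm0 hx00.le, mul_nonneg (mul_nonneg hm0 hx00.le) (sub_nonneg.2 this)]
      _ ≤ T * η * 2 ^ j := by rw [e1]; gcongr
  have hδup : δ ≤ u / 2 := by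
    rw [hδ, div_le_iff₀ (mul_pos hx1 hxs0)]
    have e1 : T * η * 2 ^ j = x0 / 200 * 2 ^ j * (u * (η / (η + u))) := by rw [hT]; ring
    have e2 : η / (η + u) ≤ 1 := by rw [div_le_one hηu]; linarith
    calc T * η * 2 ^ j = x0 / 200 * 2 ^ j * (u * (η / (η + u))) := e1
      _ ≤ x0 / 200 * x0 * (u * 1) := by gcongr
      _ ≤ u / 2 * (9 / 10 * x0 ^ 2) := by nlinarith [mul_pos hu (pow_pos hx00 2)]
      _ ≤ u / 2 * (x1 * xs) := by gcongr
  -- intermediate values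
  set g : ℝ → ℝ := fun τ => (y1 + τ * (l.p / ht l)) / (x1 + τ * (l.q / ht l)) with hg
  have habs : ∀ τ ∈ uIcc 0 τs, |τ| ≤ T := by
    intro τ hτ
    have := abs_sub_left_of_mem_uIcc hτ
    rw [sub_zero, sub_zero] at this
    exact this.trans hτs.le
  have hcont : ContinuousOn g (uIcc 0 τs) := by
    refine ContinuousOn.div (by fun_prop) (by fun_prop) ?_
    intro τ hτ
    have := (hD τ (habs τ hτ)).1
    have h0 : (0 : ℝ) < 2 ^ j / 2 := by positivity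
    linarith
  have hg0 : g 0 = y1 / x1 := by simp [hg]
  have hgs : g τs = y1 / x1 + ε * δ := by
    have : g τs = (y1 + τs * (l.p / ht l)) / xs := rfl
    rw [this]; linarith
  have hiv := intermediate_value_uIcc hcont
  rw [hg0, hgs] at hiv
  have hpt : ∀ θ ∈ uIcc (y1 / x1) (y1 / x1 + ε * δ), ∃ x : ℝ, 2 ^ j / 2 ≤ x ∧ x ≤ 4 * 2 ^ j ∧
      onl l x (θ * x) ∧
        X.fj j d x (θ * x) ≤ Real.exp (-(hh (X.ij j d) * lam (X.ij j d) ^ 2 * 2 ^ j)) := by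
    intro θ hθ
    obtain ⟨τ, hτ, rfl⟩ := hiv hθ
    obtain ⟨c1, c2, c3, c4, c5, c6⟩ := hD τ (habs τ hτ)
    refine ⟨x1 + τ * (l.q / ht l), c1, c2, ?_, ?_⟩
    · have h0 : (0 : ℝ) < 2 ^ j / 2 := by positivity
      have : g τ * (x1 + τ * (l.q / ht l)) = y1 + τ * (l.p / ht l) := by
        simp only [hg]
        rw [div_mul_cancel₀]
        linarith
      rw [this]; exact c3
    · have h0 : (0 : ℝ) < 2 ^ j / 2 := by positivity
      have : g τ * (x1 + τ * (l.q / ht l)) = y1 + τ * (l.p / ht l) := by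
        simp only [hg]
        rw [div_mul_cancel₀]
        linarith
      rw [this]; exact c4
  obtain ⟨hc1, hc2⟩ := hc
  have hdc : dc d = (d.2 + 1 / 2) * u := rfl
  rcases hε with ⟨h, h'⟩ | ⟨h, h'⟩
  · refine ⟨y1 / x1, y1 / x1 + δ, by linarith, ?_, ?_⟩
    · intro θ hθ
      refine ⟨hc1.trans hθ.1, ?_⟩
      have := hθ.2
      rw [hdc] at h'
      have e : (d.2 + 1 : ℝ) * u = (d.2 + 1 / 2) * u + u / 2 := by ring
      rw [e]
      linarith
    · intro θ hθ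
      refine hpt θ ?_
      rw [h, one_mul, uIcc_of_le (by linarith)]
      exact hθ
  · refine ⟨y1 / x1 - δ, y1 / x1, by linarith, ?_, ?_⟩
    · intro θ hθ
      refine ⟨?_, lt_of_le_of_lt hθ.2 hc2⟩
      have := hθ.1
      rw [hdc] at h'
      have e : (d.2 : ℝ) * u = (d.2 + 1 / 2) * u - u / 2 := by ring
      show (d.2 : ℝ) * u ≤ θ
      rw [e]
      linarith
    · intro θ hθ
      refine hpt θ ?_
      have e : y1 / x1 + ε * δ = y1 / x1 - δ := by rw [h]; ring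
      rw [e, uIcc_of_ge (by linarith)]
      exact hθ

theorem E10_lam_sq (i : ℕ) : lam i ^ 2 = (2 : ℝ) ^ ((i : ℝ) / 4000) := by
  unfold lam
  rw [← Real.rpow_natCast, ← Real.rpow_mul (by norm_num)]
  congr 1
  push_cast
  ring

theorem E10_lam_step {i k : ℕ} (h : k ≤ i + 1) : lam k ^ 2 ≤ 2 * lam i ^ 2 := by
  rw [E10_lam_sq, E10_lam_sq]
  have h1 : (k : ℝ) ≤ i + 1 := by exact_mod_cast h
  calc (2 : ℝ) ^ ((k : ℝ) / 4000) ≤ (2 : ℝ) ^ (1 + (i : ℝ) / 4000) := by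
        apply Real.rpow_le_rpow_of_exponent_le (by norm_num)
        linarith
    _ = 2 * (2 : ℝ) ^ ((i : ℝ) / 4000) := by
        rw [Real.rpow_add (by norm_num), Real.rpow_one]

/-- deep slopes are in the intrinsic set. -/
theorem E10_dg {F : ℂ × ℂ → ℂ} {b0 : ℝ} (X : Ctx F b0) {j : ℕ} {d : ℕ × ℕ} {θ x : ℝ} {l : Ln}
    (hwin : X.win j d) (his : X.is ≤ X.ij j d)
    (hlam : 8 * (512 * X.L + X.A1) ≤ lam (X.ij j d) ^ 2) (hcell : cell d ⊆ I2 b0)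
    (hht : ht l ≤ 4 ^ X.ij j d) (hθ : θ ∈ cell d) (hx1 : 2 ^ j / 2 ≤ x) (hx2 : x ≤ 4 * 2 ^ j)
    (hon : onl l x (θ * x))
    (hf : X.fj j d x (θ * x) ≤ Real.exp (-(hh (X.ij j d) * lam (X.ij j d) ^ 2 * 2 ^ j))) :
    θ ∈ Dg X j l := by
  have hR : (0 : ℝ) < 2 ^ j := by positivity
  have hcs := X.env.cs
  have hst : θ ∈ st d := (cell_sub_st d).1 hθ
  have hbg : θ ∈ bg d := (cell_sub_st d).2 hst
  obtain ⟨hj, hW⟩ := hwin
  obtain ⟨hl1, hl2⟩ := win_lev hW hst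
  have hθI1 : θ ∈ I1 b0 := by
    refine st_sub hcs.hb (by linarith [X.hw0, hcs.hb]) hW.1 hW.2.1 ?_
    have h1 := L2_cell hθ
    have h2 := L2_dl_pos d
    linarith
  change X.ij j d ≤ X.lv j θ at hl1
  change X.lv j θ ≤ X.ij j d + 1 at hl2
  set i := X.ij j d with hi
  have hlev := lev_le X.c X.L j θ
  change X.lv j θ ≤ j / 100 at hlev
  have hspec := lev_spec hcs hj hθI1 (i := i) hl1
  unfold ee at hspec
  have hanti := c_anti hcs (j := j - 4 * i) (j' := j) (by omega) (by omega) hθI1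
  have hbox := (X.box j d hj hW his).lo θ hbg
  change X.c (j + 4 * i) θ - X.A1 * hh i ≤ X.al j d + X.be j d * θ ∧ _ at hbox
  have hh1 : hh i = (1 / 2) ^ i := rfl
  have hh0 : 0 < hh i := by rw [hh1]; positivity
  rw [← hh1] at hspec
  have hx0 : 0 < x := by linarith
  refine ⟨hcell hθ, ?_, x, hx1, hx2, hon, ?_⟩
  · refine hht.trans ?_
    have : (4 : ℝ) ^ i = 2 ^ (2 * i) := by rw [pow_mul]; norm_num
    rw [this]
    exact pow_le_pow_right₀ (by norm_num) (by omega)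
  · unfold Ctx.fj at hf
    have h1 : ‖F ((x : ℂ), ((θ * x : ℝ) : ℂ))‖ ≤
        Real.exp (-(hh i * lam i ^ 2 * 2 ^ j) - (X.al j d * x + X.be j d * (θ * x))) := by
      rw [Real.exp_sub, le_div_iff₀ (Real.exp_pos _)]
      exact hf
    refine h1.trans (Real.exp_le_exp.2 ?_)
    have h2 : hh (X.lv j θ) ≤ hh i := pow_le_pow_of_le_one (by norm_num) (by norm_num) hl1
    have h3 := E10_lam_step hl2
    have h4 : hh (X.lv j θ) * lam (X.lv j θ) ^ 2 ≤ hh i * (2 * lam i ^ 2) :=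
      mul_le_mul h2 h3 (by positivity) hh0.le
    have h5 : hh (X.lv j θ) * lam (X.lv j θ) ^ 2 * 2 ^ j / 16 ≤ hh i * (2 * lam i ^ 2) * 2 ^ j / 16 := by
      gcongr
    have h6 : x * (X.c j θ - (512 * X.L + X.A1) * hh i) ≤ x * (X.al j d + X.be j d * θ) := by
      apply mul_le_mul_of_nonneg_left _ hx0.le
      linarith [hbox.1]
    have hL := hcs.hL
    have hA := X.hA1
    have h7 : x * ((512 * X.L + X.A1) * hh i) ≤ 4 * 2 ^ j * (lam i ^ 2 / 8 * hh i) := by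
      apply mul_le_mul hx2 _ (by positivity) (by positivity)
      apply mul_le_mul_of_nonneg_right _ hh0.le
      linarith
    have h8 : 0 ≤ hh i * lam i ^ 2 * 2 ^ j := by positivity
    nlinarith [h5, h6, h7, h8]

theorem valley_slopes {F : ℂ × ℂ → ℂ} {b0 : ℝ} (X : Ctx F b0) : ∃ (c1 : ℝ) (i1 : ℕ), 0 < c1 ∧
    ∀ (j : ℕ) (d : ℕ × ℕ) (x0 θ0 : ℝ) (l : Ln), X.win j d → i1 ≤ X.ij j d → cell d ⊆ I2 b0 →
      2 ^ j ≤ x0 → x0 ≤ 2 * 2 ^ j → θ0 ∈ cell d → Valley X j d x0 θ0 l →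
      ENNReal.ofReal (c1 * min (eta l j) (dl d)) ≤ volume (DlJ X j d l ∩ cell d) ∧
      ENNReal.ofReal (c1 * min (eta l j) (dl d)) ≤ volume (Dg X j l ∩ cell d) := by
  obtain ⟨i1, hi1⟩ := E10_lam (8 * (512 * X.L + X.A1))
  refine ⟨1 / 1000, max X.is i1, by norm_num, ?_⟩
  intro j d x0 θ0 l hwin hij hcell hx0 hx0' hθ0 hv
  obtain ⟨a, b, hab, hsub, hpt⟩ := E10_slopes X hx0 hx0' hθ0 hv
  have hvol : ENNReal.ofReal (1 / 1000 * min (eta l j) (dl d)) ≤ volume (Icc a b) := by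
    rw [Real.volume_Icc]
    exact ENNReal.ofReal_le_ofReal hab
  refine ⟨hvol.trans (measure_mono ?_), hvol.trans (measure_mono ?_)⟩
  · intro θ hθ
    obtain ⟨x, hx1, hx2, hon, hf⟩ := hpt θ hθ
    refine ⟨⟨(cell_sub_st d).1 (hsub hθ), x, hx1, hx2, hon, hf.trans (Real.exp_le_exp.2 ?_)⟩,
      hsub hθ⟩
    have : 0 ≤ hh (X.ij j d) * lam (X.ij j d) ^ 2 * 2 ^ j := by
      unfold hh; positivity
    linarith
  · intro θ hθ
    obtain ⟨x, hx1, hx2, hon, hf⟩ := hpt θ hθ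
    exact ⟨E10_dg X hwin ((le_max_left _ _).trans hij) (hi1 _ ((le_max_right _ _).trans hij)) hcell
      hv.1 (hsub hθ) hx1 hx2 hon hf, hsub hθ⟩

/-- if the tilt is small the valley is deep on a long interval of abscissas. -/
theorem valley_absc {F : ℂ × ℂ → ℂ} {b0 : ℝ} (X : Ctx F b0) : ∃ (c1 : ℝ) (i1 : ℕ), 0 < c1 ∧
    ∀ (j : ℕ) (d : ℕ × ℕ) (x0 θ0 : ℝ) (l : Ln), X.win j d → i1 ≤ X.ij j d → cell d ⊆ I2 b0 →
      2 ^ j ≤ x0 → x0 ≤ 2 * 2 ^ j → θ0 ∈ cell d → Valley X j d x0 θ0 l → eta l j ≤ dl d / 8 →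
      l.q ≠ 0 ∧ ENNReal.ofReal (c1 * 2 ^ j) ≤ volume (ElJ X j d l) := by
  have hb := X.env.cs.hb
  have hb0 : 0 < b0 := by linarith
  refine ⟨1 / (1000 * b0), 0, by positivity, ?_⟩
  intro j d x0 θ0 l hwin hij hcell hx0 hx0' hθ0 hv hη8
  have hR : (0 : ℝ) < 2 ^ j := by positivity
  have hx00 : 0 < x0 := by linarith
  have hu := L2_dl_pos d
  obtain ⟨hV1, hqV, hpV⟩ := E10_ht l
  have hV0 : 0 < ht l := by linarith
  obtain ⟨x1, y1, hon, h1, h2, hc, h3⟩ := E10_base X hx0 hθ0 hv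
  have h1' := h1
  rw [abs_le] at h1'
  have hx1 : 0 < x1 := by linarith [h1'.1]
  have hη0 : 0 ≤ eta l j := by unfold eta; positivity
  have hηu : 0 < eta l j + dl d := by linarith
  have hu1 : dl d ≤ 1 := by
    unfold dl
    exact pow_le_one₀ (by norm_num) (by norm_num)
  have er : |(l.r : ℝ)| = eta l j * ht l * 2 ^ j := by
    unfold eta; field_simp
  have hq0 : (0 : ℝ) ≤ l.q := Nat.cast_nonneg _
  -- q is large
  have hqlow : ht l ≤ 3 * b0 * l.q := by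
    have hI := hcell hc
    have e1 : (l.p : ℝ) = y1 / x1 * l.q - l.r / x1 := by
      unfold onl at hon
      field_simp
      linarith
    have e3 : |(l.r : ℝ) / x1| ≤ ht l / 2 := by
      rw [abs_div, abs_of_pos hx1, div_le_iff₀ hx1, er]
      have h5 : (2 : ℝ) ^ j ≤ 2 * x1 := by linarith [h1'.1]
      have h6 : eta l j ≤ 1 / 8 := by linarith
      calc eta l j * ht l * 2 ^ j ≤ 1 / 8 * ht l * (2 * x1) := by gcongr
        _ ≤ ht l / 2 * x1 := by nlinarith [mul_pos hV0 hx1]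
    have e4 : |y1 / x1 * (l.q : ℝ)| ≤ 3 * b0 / 2 * l.q := by
      rw [abs_mul, abs_of_nonneg hq0]
      apply mul_le_mul_of_nonneg_right _ hq0
      rw [abs_le]
      refine ⟨?_, hI.2⟩
      have : 0 ≤ 2 / (3 * b0) := by positivity
      have h7 := hI.1
      have : 0 ≤ 3 * b0 / 2 := by positivity
      linarith
    have e5 : |(l.p : ℝ)| ≤ 3 * b0 / 2 * l.q + ht l / 2 := by
      rw [e1]
      exact (abs_sub _ _).trans (add_le_add e4 e3)
    have e6 : ht l = max (l.q : ℝ) |(l.p : ℝ)| := rfl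
    rcases le_total (l.q : ℝ) |(l.p : ℝ)| with h | h
    · have e7 : ht l = |(l.p : ℝ)| := by rw [e6, max_eq_right h]
      linarith
    · have e7 : ht l = l.q := by rw [e6, max_eq_left h]
      rw [e7]
      nlinarith
  have hqpos : (0 : ℝ) < l.q := by
    by_contra h
    have : (l.q : ℝ) = 0 := le_antisymm (not_lt.1 h) hq0
    rw [this] at hqlow
    linarith
  refine ⟨fun h => by rw [h] at hqpos; simp at hqpos, ?_⟩
  set u := dl d with hud
  set T := x0 / 200 * (u / (eta l j + u)) with hT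
  have hfr : 8 / 9 ≤ u / (eta l j + u) := by
    rw [div_le_div_iff₀ (by norm_num) hηu]; linarith
  have hTlow : 2 ^ j / 225 ≤ T := by
    calc (2 : ℝ) ^ j / 225 = 2 ^ j / 200 * (8 / 9) := by ring
      _ ≤ x0 / 200 * (u / (eta l j + u)) := by gcongr
  have hT0 : 0 ≤ T := by linarith [div_pos hR (by norm_num : (0 : ℝ) < 225)]
  have hqV3 : 1 / (3 * b0) ≤ l.q / ht l := by
    rw [div_le_div_iff₀ (by positivity) hV0]; linarith
  have hlen : 1 / (1000 * b0) * 2 ^ j ≤ x1 + T * (l.q / ht l) - x1 := by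
    calc 1 / (1000 * b0) * 2 ^ j = 2 ^ j / 225 * (1 / (3 * b0)) * (675 / 1000) := by
          field_simp; norm_num
      _ ≤ 2 ^ j / 225 * (1 / (3 * b0)) * 1 := by
          gcongr; norm_num
      _ ≤ T * (l.q / ht l) := by
          rw [mul_one]; gcongr
      _ = x1 + T * (l.q / ht l) - x1 := by ring
  have hvol : ENNReal.ofReal (1 / (1000 * b0) * 2 ^ j) ≤ volume (Icc x1 (x1 + T * (l.q / ht l))) := by
    rw [Real.volume_Icc]
    exact ENNReal.ofReal_le_ofReal hlen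
  refine hvol.trans (measure_mono ?_)
  intro x hx
  -- parameter
  set τ := (x - x1) * (ht l / l.q) with hτ
  have hτ0 : 0 ≤ τ := mul_nonneg (by linarith [hx.1]) (by positivity)
  have hxτ : x1 + τ * (l.q / ht l) = x := by
    rw [hτ]; field_simp; ring
  have hτT : |τ| ≤ T := by
    rw [abs_of_nonneg hτ0, hτ]
    have : x - x1 ≤ T * (l.q / ht l) := by linarith [hx.2]
    calc (x - x1) * (ht l / l.q) ≤ T * (l.q / ht l) * (ht l / l.q) := by gcongr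
      _ = T := by field_simp
  obtain ⟨c1, c2, c3, c4, c5, c6⟩ := E10_deep X (τ := τ) hx0 hx0' hv hon h1 h2 h3 hτT
  rw [hxτ] at c1 c2 c3 c4 c5 c6
  have hx0p : 0 < x := by linarith [div_pos hR (by norm_num : (0 : ℝ) < 2)]
  refine ⟨c1, c2, _, c3, ?_, c4.trans (Real.exp_le_exp.2 ?_)⟩
  · -- slope in st d
    rw [abs_le] at c5
    have hprod2 : 9 / 10 * x0 ^ 2 ≤ x1 * x := by nlinarith [h1'.1, c5.1]
    have e8 : |(y1 + τ * (l.p / ht l)) / x - y1 / x1| ≤ u := by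
      rw [c6, abs_div, abs_of_pos (mul_pos hx1 hx0p), div_le_iff₀ (mul_pos hx1 hx0p), abs_neg,
        abs_mul, abs_div, abs_of_pos hV0, er]
      have e9 : |τ| ≤ x0 / 200 := by
        have : u / (eta l j + u) ≤ 1 := by rw [div_le_one hηu]; linarith
        calc |τ| ≤ T := hτT
          _ ≤ x0 / 200 * 1 := by rw [hT]; gcongr
          _ = x0 / 200 := by ring
      calc |τ| * (eta l j * ht l * 2 ^ j / ht l) = |τ| * eta l j * 2 ^ j := by field_simp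
        _ ≤ x0 / 200 * (u / 8) * x0 := by gcongr
        _ ≤ u * (9 / 10 * x0 ^ 2) := by nlinarith [mul_pos hu (pow_pos hx00 2)]
        _ ≤ u * (x1 * x) := by gcongr
    have e10 := L2_cell hc
    rw [abs_le] at e8 e10
    unfold st
    constructor <;> linarith [e8.1, e8.2, e10.1, e10.2]
  · have : 0 ≤ hh (X.ij j d) * lam (X.ij j d) ^ 2 * 2 ^ j := by
      unfold hh; positivity
    linarith

end MuntzF
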