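import Pool.Agent.Lib.MP_dde81e_full.BDefs
import Pool.Agent.Lib.MP_dde81e_full.A6
import Pool.Agent.Lib.MP_dde81e_an.SEG

/-!
Module E2 (text 4.3).  sq1: with (s1,t1) = BF.pt apply expint (t = 2/3) to s ↦ f(s,t1).  sq2: expint to t ↦ f(s,t).  sq3: `Muntz.seg` for t ↦ f(s,t) (with a point where |f| ≥ e^-M').
sq4: combine sq1 (choose M' = C M0 so that the exceptional set has measure < 1/100) and sq3.
-/

namespace MuntzF
open Set MeasureTheory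

theorem E2_dft {f : ℂ × ℂ → ℂ} {M0 : ℝ} (hf : BF f M0) {s : ℂ} (hs : ‖s‖ ≤ 1) :
    DF (fun t => f (s, t)) 0 1 := by
  obtain ⟨U, hU, hsub, hd⟩ := hf.dif
  have hcont : Continuous (fun t : ℂ => (s, t)) := by fun_prop
  have hV : IsOpen ((fun t : ℂ => (s, t)) ⁻¹' U) := hU.preimage hcont
  have hdiff : DifferentiableOn ℂ (fun t => f (s, t)) ((fun t : ℂ => (s, t)) ⁻¹' U) := by
    apply hd.comp (g := f) (f := fun t : ℂ => (s, t))
    · fun_prop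
    · intro t ht; exact ht
  refine ⟨(hdiff.analyticOnNhd hV).mono ?_, ?_⟩
  · intro t ht
    rw [Metric.mem_closedBall, dist_zero_right] at ht
    exact hsub ⟨hs, ht⟩
  · intro t ht
    rw [Metric.mem_closedBall, dist_zero_right] at ht
    exact hf.bd (s, t) hs ht

theorem E2_dfs {f : ℂ × ℂ → ℂ} {M0 : ℝ} (hf : BF f M0) {t : ℂ} (ht : ‖t‖ ≤ 1) :
    DF (fun s => f (s, t)) 0 1 := by
  obtain ⟨U, hU, hsub, hd⟩ := hf.dif
  have hcont : Continuous (fun s : ℂ => (s, t)) := by fun_prop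
  have hV : IsOpen ((fun s : ℂ => (s, t)) ⁻¹' U) := hU.preimage hcont
  have hdiff : DifferentiableOn ℂ (fun s => f (s, t)) ((fun s : ℂ => (s, t)) ⁻¹' U) := by
    apply hd.comp (g := f) (f := fun s : ℂ => (s, t))
    · fun_prop
    · intro s hs; exact hs
  refine ⟨(hdiff.analyticOnNhd hV).mono ?_, ?_⟩
  · intro s hs
    rw [Metric.mem_closedBall, dist_zero_right] at hs
    exact hsub ⟨hs, ht⟩
  · intro s hs
    rw [Metric.mem_closedBall, dist_zero_right] at hs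
    exact hf.bd (s, t) hs ht

theorem sq1 : ∃ C1 c1 : ℝ, 0 < C1 ∧ 0 < c1 ∧ ∀ (f : ℂ × ℂ → ℂ) (M0 M : ℝ), BF f M0 → 1 ≤ M0 → 0 ≤ M →
    volume {s : ℝ | |s| ≤ 1 / 2 ∧ ∀ t : ℂ, ‖t‖ ≤ 1 / 8 → ‖f (s, t)‖ ≤ Real.exp (-M)} ≤
      ENNReal.ofReal (C1 * Real.exp (-(c1 * M / M0))) := by
  obtain ⟨C1, c1, hC1, hc1, hmain⟩ := expint (2 / 3) (by norm_num) (by norm_num)
  refine ⟨C1, c1, hC1, hc1, ?_⟩
  intro f M0 M hf hM0 hM
  obtain ⟨p, hp1, hp2, hp3⟩ := hf.pt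
  have h1 := hmain (fun s => f (s, p.2)) 0 1 M0 M one_pos hM0 hM
    (by
      have := E2_dfs hf (t := p.2) (by linarith)
      simpa using this)
    ⟨p.1, by simpa using hp1, hp3⟩
  simp only [mul_one] at h1
  refine le_trans (measure_mono ?_) h1
  intro s hs
  refine ⟨?_, hs.2 p.2 hp2⟩
  rw [sub_zero]
  linarith [hs.1]

theorem sq2 : ∃ C1 c1 : ℝ, 0 < C1 ∧ 0 < c1 ∧ ∀ (f : ℂ × ℂ → ℂ) (M0 M' M : ℝ) (s : ℝ), BF f M0 →
    1 ≤ M' → 0 ≤ M → |s| ≤ 1 / 2 → (∃ t : ℂ, ‖t‖ ≤ 1 / 8 ∧ Real.exp (-M') ≤ ‖f (s, t)‖) →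
    volume {t : ℝ | |t| ≤ 1 / 2 ∧ ‖f (s, t)‖ ≤ Real.exp (-M)} ≤
      ENNReal.ofReal (C1 * Real.exp (-(c1 * M / M'))) := by
  obtain ⟨C1, c1, hC1, hc1, hmain⟩ := expint (1 / 2) (by norm_num) (by norm_num)
  refine ⟨C1, c1, hC1, hc1, ?_⟩
  intro f M0 M' M s hf hM' hM hs ht
  obtain ⟨t, ht1, ht2⟩ := ht
  have hs1 : ‖(s : ℂ)‖ ≤ 1 := by
    rw [Complex.norm_real, Real.norm_eq_abs]; linarith
  have h1 := hmain (fun t => f (s, t)) 0 1 M' M one_pos hM' hM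
    (by
      have := E2_dft hf hs1
      simpa using this)
    ⟨t, by
      have : ‖t‖ ≤ 1 / 2 := by linarith
      simpa using this, ht2⟩
  simp only [mul_one] at h1
  refine le_trans (measure_mono ?_) h1
  intro t' ht'
  refine ⟨?_, ht'.2⟩
  rw [sub_zero]
  exact ht'.1

theorem sq3 : ∃ C1 : ℝ, 0 < C1 ∧ ∀ (f : ℂ × ℂ → ℂ) (M0 M' : ℝ) (s : ℝ), BF f M0 → 1 ≤ M' →
    |s| ≤ 1 / 2 → (∃ t : ℂ, ‖t‖ ≤ 1 / 8 ∧ Real.exp (-M') ≤ ‖f (s, t)‖) →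
    ∫⁻ t in Icc (-(1 / 2) : ℝ) (1 / 2), Muntz.nl (f (s, t)) ≤ ENNReal.ofReal (C1 * M') := by
  obtain ⟨C, hC, hmain⟩ := Muntz.seg (1 / 2) (by norm_num) (by norm_num)
  refine ⟨C, hC, ?_⟩
  intro f M0 M' s hf hM' hs ht
  obtain ⟨t, ht1, ht2⟩ := ht
  have hs1 : ‖(s : ℂ)‖ ≤ 1 := by
    rw [Complex.norm_real, Real.norm_eq_abs]; linarith
  have hdf := E2_dft hf hs1
  have h1 := hmain 0 1 (fun t => f (s, t)) t (-(1 / 2)) (1 / 2) 0 one_pos hdf.an hdf.bd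
    (by rw [Metric.mem_closedBall, dist_zero_right]; linarith) (by norm_num)
    (by
      intro x hx
      rw [Metric.mem_closedBall, dist_zero_right, Complex.ofReal_zero, zero_mul, add_zero,
        Complex.norm_real, Real.norm_eq_abs, mul_one]
      exact abs_le.2 hx)
  simp only [Complex.ofReal_zero, zero_mul, add_zero, mul_one] at h1
  refine h1.trans ?_
  rw [ENNReal.ofReal_mul hC.le]
  gcongr
  have hne : f (s, t) ≠ 0 := by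
    intro h0
    rw [h0, norm_zero] at ht2
    exact absurd ht2 (not_le.2 (Real.exp_pos _))
  rw [Muntz.SEG_nl_of_ne hne]
  apply ENNReal.ofReal_le_ofReal
  have h2 := Real.log_le_log (Real.exp_pos _) ht2
  rw [Real.log_exp] at h2
  linarith

/-- a good vertical slice close to the centre. -/
theorem sq4 : ∃ C1 : ℝ, 0 < C1 ∧ ∀ (f : ℂ × ℂ → ℂ) (M0 : ℝ), BF f M0 → 1 ≤ M0 →
    ∃ s : ℝ, |s| ≤ 1 / 64 ∧ (∃ t : ℂ, ‖t‖ ≤ 1 / 8 ∧ Real.exp (-(C1 * M0)) ≤ ‖f (s, t)‖) ∧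
      ∫⁻ t in Icc (-(1 / 2) : ℝ) (1 / 2), Muntz.nl (f (s, t)) ≤ ENNReal.ofReal (C1 * M0) := by
  obtain ⟨C1, c1, hC1, hc1, h1⟩ := sq1
  obtain ⟨C3, hC3, h3⟩ := sq3
  set K := 64 * C1 / c1 + 1 with hK
  have hKpos : 0 < 64 * C1 / c1 := by positivity
  have hK1 : 1 ≤ K := by linarith
  have hKc : 64 * C1 < c1 * K := by
    rw [hK, mul_add, mul_one, mul_div_cancel₀ _ hc1.ne']
    linarith
  refine ⟨K + C3 * K, by positivity, ?_⟩
  intro f M0 hf hM0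
  have hM00 : 0 < M0 := by linarith
  have hvol := h1 f M0 (K * M0) hf hM0 (by positivity)
  have he : c1 * (K * M0) / M0 = c1 * K := by field_simp
  rw [he] at hvol
  have hsmall : C1 * Real.exp (-(c1 * K)) < 1 / 32 := by
    have a1 : c1 * K < Real.exp (c1 * K) := by
      have := Real.add_one_le_exp (c1 * K)
      linarith
    rw [Real.exp_neg, ← div_eq_mul_inv, div_lt_iff₀ (Real.exp_pos _)]
    linarith
  obtain ⟨s, hs1, hs2⟩ : ∃ s ∈ Icc (-(1 / 64) : ℝ) (1 / 64),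
      s ∉ {s : ℝ | |s| ≤ 1 / 2 ∧ ∀ t : ℂ, ‖t‖ ≤ 1 / 8 → ‖f (s, t)‖ ≤ Real.exp (-(K * M0))} := by
    by_contra hcon
    push Not at hcon
    have a1 : volume (Icc (-(1 / 64) : ℝ) (1 / 64)) ≤ ENNReal.ofReal (C1 * Real.exp (-(c1 * K))) :=
      le_trans (measure_mono hcon) hvol
    rw [Real.volume_Icc, ENNReal.ofReal_le_ofReal_iff (by positivity)] at a1
    linarith
  have hs3 : |s| ≤ 1 / 64 := abs_le.2 hs1
  have hs4 : ∃ t : ℂ, ‖t‖ ≤ 1 / 8 ∧ Real.exp (-(K * M0)) ≤ ‖f (s, t)‖ := by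
    by_contra hcon
    push Not at hcon
    exact hs2 ⟨by linarith, fun t ht => (hcon t ht).le⟩
  have hint := h3 f M0 (K * M0) s hf (by nlinarith) (by linarith) hs4
  refine ⟨s, hs3, ?_, ?_⟩
  · obtain ⟨t, ht1, ht2⟩ := hs4
    refine ⟨t, ht1, le_trans (Real.exp_le_exp.2 ?_) ht2⟩
    have : 0 ≤ C3 * K * M0 := by positivity
    nlinarith
  · refine hint.trans (ENNReal.ofReal_le_ofReal ?_)
    have : 0 ≤ K * M0 := by positivity
    nlinarith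

end MuntzF
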