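import Pool.Agent.Lib.MP_dde81e_full.BDefs
import Pool.Agent.Lib.MP_dde81e_an.MEAS
import Pool.Agent.Lib.MP_dde81e_an.GSH
import Pool.Agent.Lib.MP_dde81e_an.SHM
import Pool.Agent.Lib.MP_dde81e_an.SEG
import Pool.Agent.Lib.MP_dde81e_an.FIN

/-!
Module E3 (text 5.1, KSUM).  kap is measurable in θ (Muntz.af_leaf_measurable; on θ > 0).  af_θ is antitone (af_anti, leaf_good, SH_nl).  For a real x > 0 with F(x,·) not identically zero (GoodF.ne) and 2^jk ≥ x:
af_θ(2^jk) ≤ af_θ(x) ≤ nl F(x,θx)/x, integrable over θ ∈ I1 (chain of `Muntz.seg` on the line z = x, or local integrability of log|analytic|; see FIN.lean of Lib/MP_dde81e_an, theorems FIN_slope and fin, which contain a very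
similar argument).  Telescoping: ∑_{j=jk}^{n} kap_j ≤ 9 af_θ(2^jk) (each difference af(2^l)-af(2^(l+1)) is counted 9 times; if af is ⊤ on a null set of θ nothing happens).
-/

namespace MuntzF
open Set MeasureTheory
open scoped ENNReal

private theorem af_eq_leaf (F : ℂ × ℂ → ℂ) (θ ρ : ℝ) :
    Muntz.af (fun ζ => Muntz.nl (F (ζ, θ * ζ))) ρ =
      Muntz.af (fun z => Muntz.nl (Muntz.leaf F θ 0 z)) ρ := by
  simp [Muntz.leaf]

private theorem af_restrict_measurable {F : ℂ × ℂ → ℂ} (hF : Muntz.GoodF F) {b0 : ℝ} (hb : 2 ≤ b0)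
    (ρ : ℝ) : Measurable (fun θ : I1 b0 => Muntz.af (fun ζ => Muntz.nl (F (ζ, (θ : ℝ) * ζ))) ρ) := by
  have h0 : ∀ θ : I1 b0, 0 ≤ (θ : ℝ) := fun θ => by
    have h := θ.2.1
    have : 0 < 1 / (2 * b0) := by positivity
    linarith
  have h := (Muntz.MEAS_usc hF (X := ↥(I1 b0)) (τ := fun x => (x : ℝ)) (β := fun _ => (0 : ℂ))
      continuous_subtype_val continuous_const h0 (fun x => by simp) ρ).measurable
  have e : (fun θ : I1 b0 => Muntz.af (fun ζ => Muntz.nl (F (ζ, (θ : ℝ) * ζ))) ρ) =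
      fun x : I1 b0 => Muntz.af (fun z => Muntz.nl (Muntz.leaf F (x : ℝ) 0 z)) ρ := by
    funext θ
    exact af_eq_leaf F θ ρ
  rw [e]
  exact h

theorem kap_measurable {F : ℂ × ℂ → ℂ} (hF : Muntz.GoodF F) {b0 : ℝ} (hb : 2 ≤ b0) (j : ℕ) :
    ∃ g : ℝ → ℝ≥0∞, Measurable g ∧ ∀ θ ∈ I1 b0, kap F j θ = g θ := by
  have hms : MeasurableSet (I1 b0) := measurableSet_Icc
  refine ⟨(I1 b0).indicator (kap F j), ?_, fun θ hθ => by rw [indicator_of_mem hθ]⟩
  refine measurable_of_restrict_of_restrict_compl hms ?_ ?_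
  · have h : (I1 b0).domRestrict ((I1 b0).indicator (kap F j)) = fun θ : I1 b0 => kap F j θ := by
      funext θ
      exact indicator_of_mem θ.2 _
    rw [h]
    unfold kap
    exact (af_restrict_measurable hF hb _).sub (af_restrict_measurable hF hb _)
  · have h : (I1 b0)ᶜ.domRestrict ((I1 b0).indicator (kap F j)) = fun _ => 0 := by
      funext θ
      have : (θ : ℝ) ∉ I1 b0 := θ.2
      exact indicator_of_notMem this _
    rw [h]
    exact measurable_const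

private theorem tele1 (f : ℕ → ℝ≥0∞) (hf : ∀ l m, l ≤ m → f m ≤ f l) (k n : ℕ) (h : k ≤ n) :
    ∑ l ∈ Finset.Ico k n, (f l - f (l + 1)) + f n ≤ f k := by
  induction n, h using Nat.le_induction with
  | base => simp
  | succ n hn ih =>
    rw [Finset.sum_Ico_succ_top hn, add_assoc, tsub_add_cancel_of_le (hf _ _ (Nat.le_succ n))]
    exact ih

private theorem tele2 (f : ℕ → ℝ≥0∞) (hf : ∀ l m, l ≤ m → f m ≤ f l) (k : ℕ) (E : Finset ℕ)
    (h : ∀ j ∈ E, k ≤ j) : ∑ l ∈ E, (f l - f (l + 1)) ≤ f k := by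
  have hsub : E ⊆ Finset.Ico k (k + E.sup id + 1) := by
    intro j hj
    rw [Finset.mem_Ico]
    have := Finset.le_sup (f := id) hj
    simp only [id] at this
    exact ⟨h j hj, by omega⟩
  calc ∑ l ∈ E, (f l - f (l + 1)) ≤ ∑ l ∈ Finset.Ico k (k + E.sup id + 1), (f l - f (l + 1)) :=
        Finset.sum_le_sum_of_subset hsub
    _ ≤ ∑ l ∈ Finset.Ico k (k + E.sup id + 1), (f l - f (l + 1)) + f (k + E.sup id + 1) :=
        le_self_add
    _ ≤ f k := tele1 f hf k _ (by omega)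

private theorem tele3 (f : ℕ → ℝ≥0∞) (j n : ℕ) :
    f j - f (j + n) ≤ ∑ m ∈ Finset.range n, (f (j + m) - f (j + m + 1)) := by
  induction n with
  | zero => simp
  | succ n ih =>
    rw [Finset.sum_range_succ]
    calc f j - f (j + (n + 1)) ≤ (f j - f (j + n)) + (f (j + n) - f (j + (n + 1))) :=
          tsub_le_tsub_add_tsub
      _ ≤ _ := by
          rw [add_assoc j n 1]
          exact add_le_add_left ih _

private theorem tele4 (f : ℕ → ℝ≥0∞) (hf : ∀ l m, l ≤ m → f m ≤ f l) (k : ℕ) (E : Finset ℕ)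
    (h : ∀ j ∈ E, k ≤ j) : ∑ l ∈ E, (f l - f (l + 9)) ≤ 9 * f k := by
  calc ∑ l ∈ E, (f l - f (l + 9))
      ≤ ∑ l ∈ E, ∑ m ∈ Finset.range 9, (f (l + m) - f (l + m + 1)) :=
        Finset.sum_le_sum fun l _ => tele3 f l 9
    _ = ∑ m ∈ Finset.range 9, ∑ l ∈ E, (f (l + m) - f (l + m + 1)) := Finset.sum_comm
    _ ≤ ∑ _m ∈ Finset.range 9, f k := by
        refine Finset.sum_le_sum fun m _ => ?_
        have hinj : Set.InjOn (fun l : ℕ => l + m) (E : Set ℕ) := fun a _ b _ hab => by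
          simpa using hab
        have := Finset.sum_image (s := E) (g := fun l : ℕ => l + m)
          (f := fun l => f l - f (l + 1)) hinj
        rw [← this]
        refine tele2 f hf k _ fun j hj => ?_
        obtain ⟨l, hl, rfl⟩ := Finset.mem_image.1 hj
        have := h l hl
        show k ≤ l + m
        omega
    _ = 9 * f k := by simp

theorem ksum {F : ℂ × ℂ → ℂ} (hF : Muntz.GoodF F) {b0 : ℝ} (hb : 2 ≤ b0) : ∃ (jk : ℕ) (B : ℝ),
    ∀ E : Finset ℕ, (∀ j ∈ E, jk ≤ j) → ∑ j ∈ E, ∫⁻ θ in I1 b0, kap F j θ ≤ ENNReal.ofReal B := by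
  obtain ⟨x, y, hx, hy, hne⟩ := hF.ne
  have hb0 : 0 < b0 := by linarith
  obtain ⟨M, hM, hslope⟩ := Muntz.FIN_slope hF (A := 1 / b0) (B := b0) (by positivity)
    (by rw [div_le_iff₀ hb0]; nlinarith) hx hy hne
  obtain ⟨jk, hjk⟩ := pow_unbounded_of_one_lt x (one_lt_two : (1 : ℝ) < 2)
  have hms : MeasurableSet (I1 b0) := measurableSet_Icc
  have hpos : ∀ θ ∈ I1 b0, 0 ≤ θ := fun θ hθ => by
    have h := hθ.1
    have : 0 < 1 / (2 * b0) := by positivity
    linarith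
  have hanti : ∀ θ ∈ I1 b0, ∀ l m : ℕ, l ≤ m →
      Muntz.af (fun ζ => Muntz.nl (F (ζ, θ * ζ))) (2 ^ m) ≤
        Muntz.af (fun ζ => Muntz.nl (F (ζ, θ * ζ))) (2 ^ l) := by
    intro θ hθ l m hlm
    rw [af_eq_leaf, af_eq_leaf]
    obtain ⟨h1, h2⟩ := Muntz.leaf_good hF (hpos θ hθ) (β := 0) (by simp)
    exact Muntz.af_anti (Muntz.SH_nl h1 h2) (by positivity) (pow_le_pow_right₀ (by norm_num) hlm)
  have haf : ∀ θ ∈ I1 b0, Muntz.af (fun ζ => Muntz.nl (F (ζ, θ * ζ))) (2 ^ jk) ≤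
      (ENNReal.ofReal x)⁻¹ * Muntz.nl (F ((x : ℂ), (θ : ℂ) * (x : ℂ) + 0)) := by
    intro θ hθ
    rw [af_eq_leaf]
    obtain ⟨h1, h2⟩ := Muntz.leaf_good hF (hpos θ hθ) (β := 0) (by simp)
    exact Muntz.FIN_af_le (Muntz.SH_nl h1 h2) hx hjk.le
  have hxi : (ENNReal.ofReal x)⁻¹ ≠ ⊤ := by
    rw [ENNReal.inv_ne_top, Ne, ENNReal.ofReal_eq_zero, not_le]
    exact hx
  have hfin : 9 * ((ENNReal.ofReal x)⁻¹ * M) ≠ ⊤ :=
    ENNReal.mul_ne_top (by norm_num) (ENNReal.mul_ne_top hxi hM)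
  refine ⟨jk, (9 * ((ENNReal.ofReal x)⁻¹ * M)).toReal, fun E hE => ?_⟩
  rw [ENNReal.ofReal_toReal hfin]
  choose g hg hgk using fun j => kap_measurable hF hb j
  calc ∑ j ∈ E, ∫⁻ θ in I1 b0, kap F j θ = ∑ j ∈ E, ∫⁻ θ in I1 b0, g j θ := by
        refine Finset.sum_congr rfl fun j _ => ?_
        exact setLIntegral_congr_fun hms fun θ hθ => hgk j θ hθ
    _ = ∫⁻ θ in I1 b0, ∑ j ∈ E, g j θ := by
        rw [lintegral_finsetSum]
        exact fun j _ => hg j
    _ ≤ ∫⁻ θ in I1 b0, 9 * ((ENNReal.ofReal x)⁻¹ *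
          Muntz.nl (F ((x : ℂ), (θ : ℂ) * (x : ℂ) + 0))) := by
        refine setLIntegral_mono' hms fun θ hθ => ?_
        have h1 : ∑ j ∈ E, g j θ = ∑ j ∈ E, kap F j θ :=
          Finset.sum_congr rfl fun j _ => (hgk j θ hθ).symm
        rw [h1]
        have h2 := tele4 (fun l => Muntz.af (fun ζ => Muntz.nl (F (ζ, θ * ζ))) (2 ^ l))
          (hanti θ hθ) jk E hE
        refine le_trans ?_ (h2.trans (mul_le_mul_right (haf θ hθ) _))
        exact le_rfl
    _ = 9 * ((ENNReal.ofReal x)⁻¹ * ∫⁻ θ in I1 b0,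
          Muntz.nl (F ((x : ℂ), (θ : ℂ) * (x : ℂ) + 0))) := by
        rw [lintegral_const_mul' _ _ (by norm_num), lintegral_const_mul' _ _ hxi]
    _ ≤ 9 * ((ENNReal.ofReal x)⁻¹ * M) := by
        refine mul_le_mul_right (mul_le_mul_right ?_ _) _
        refine le_trans ?_ (hslope 0 (by simp))
        refine lintegral_mono_set ?_
        intro θ hθ
        refine ⟨le_trans ?_ hθ.1, le_trans hθ.2 (by linarith)⟩
        rw [div_div, div_le_div_iff₀ (by positivity) (by positivity)]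
        nlinarith

end MuntzF
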