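import Pool.Agent.Lib.MP_dde81e_full.E1
import Pool.Agent.Lib.MP_dde81e_full.E2
import Pool.Agent.Lib.MP_dde81e_full.E3
import Pool.Agent.Lib.MP_dde81e_full.L2
import Pool.Agent.Lib.MP_dde81e_an.FIN

/-!
Module E5 (text 5.3, KAP).  x0 = (3/4)2^j, θ0 ∈ U, u' = min(v-u, dl d): BF (fb ..) by box_bf, slice s of sq4, x = x0(1+s/2) ≤ 2^j (s real, |s| ≤ 1/64).  For θ = θ0 + u' x0 t/x, |t| ≤ 1/2:
af_θ(2^j) ≤ af_θ(x) ≤ nl(F(x,θx))/x and nl F(x,θx) = nl(fb(s,t)) + x(α+βθ) [α = al, β = be];  af_θ(2^(j+9)) ≥ α+βθ - h·C..: Env.low at scale j+9+(something), level k = 4i - 9 - .. gives u(z,θz) ≥ Re z (c_(j+4i)(θ) - h)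
for |z| = 2^(j+9) (also ‖θz‖), and c_(j+4i) ≥ α+βθ (Box.lo).  So kap ≤ nl(fb(s,t))/x + h; integrate over t (change of variables), cover [u,v] by O(1) such intervals.
-/

namespace MuntzF
open Set MeasureTheory
open scoped ENNReal

theorem E5_nl_lower {a : ℂ} {y : ℝ} (h : ‖a‖ ≤ Real.exp (-y)) : ENNReal.ofReal y ≤ Muntz.nl a := by
  unfold Muntz.nl
  split_ifs with h0
  · exact le_top
  · apply ENNReal.ofReal_le_ofReal
    have h1 : 0 < ‖a‖ := norm_pos_iff.mpr h0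
    have h2 := (Real.log_le_log_iff h1 (Real.exp_pos _)).mpr h
    rw [Real.log_exp] at h2
    linarith

theorem E5_nl_mul {a b : ℂ} {y : ℝ} (hb : ‖b‖ = Real.exp y) :
    Muntz.nl a ≤ Muntz.nl (a * b) + ENNReal.ofReal y := by
  have hb0 : b ≠ 0 := by
    intro h
    rw [h, norm_zero] at hb
    exact absurd hb (Real.exp_pos y).ne
  unfold Muntz.nl
  by_cases h0 : a = 0
  · rw [if_pos (by rw [h0, zero_mul] : a * b = 0)]
    simp
  · rw [if_neg h0, if_neg (mul_ne_zero h0 hb0)]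
    have h1 : 0 < ‖a‖ := norm_pos_iff.mpr h0
    rw [norm_mul, hb, Real.log_mul h1.ne' (Real.exp_pos y).ne', Real.log_exp]
    calc ENNReal.ofReal (-Real.log ‖a‖) = ENNReal.ofReal (-(Real.log ‖a‖ + y) + y) := by
          congr 1
          ring
      _ ≤ _ := ENNReal.ofReal_add_le

/-- affine change of variables, one inequality. -/
theorem E5_cov (g : ℝ → ℝ≥0∞) {c k r : ℝ} (hk : 0 < k) (hr : r * k ≤ 1 / 2) :
    ∫⁻ θ in Icc (c - r) (c + r), g ((θ - c) * k) ≤
      ENNReal.ofReal k⁻¹ * ∫⁻ t in Icc (-(1 / 2) : ℝ) (1 / 2), g t := by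
  set S : Set ℝ := Icc (-(1 / 2) : ℝ) (1 / 2) with hS
  have hmap : Measure.map (fun θ : ℝ => (θ - c) * k) volume = ENNReal.ofReal |k⁻¹| • volume := by
    have h1 : (fun θ : ℝ => (θ - c) * k) = (fun x : ℝ => x * k) ∘ (fun x : ℝ => x - c) := rfl
    rw [h1, ← Measure.map_map (by fun_prop) (by fun_prop), map_sub_right_eq_self volume c,
      Real.map_volume_mul_right hk.ne']
  have hemb : MeasurableEmbedding (fun θ : ℝ => (θ - c) * k) := by
    have h1 : (fun θ : ℝ => (θ - c) * k) = (fun x : ℝ => x * k) ∘ (fun x : ℝ => x - c) := rfl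
    rw [h1]
    exact (measurableEmbedding_mulRight₀ hk.ne').comp (measurableEmbedding_subRight c)
  calc ∫⁻ θ in Icc (c - r) (c + r), g ((θ - c) * k)
      = ∫⁻ θ in Icc (c - r) (c + r), S.indicator g ((θ - c) * k) := by
        apply setLIntegral_congr_fun measurableSet_Icc
        intro θ hθ
        have hm : (θ - c) * k ∈ S := by
          rw [hS]
          have e1 : -r ≤ θ - c := by linarith [hθ.1]
          have e2 : θ - c ≤ r := by linarith [hθ.2]
          have e3 := mul_le_mul_of_nonneg_right e1 hk.le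
          have e4 := mul_le_mul_of_nonneg_right e2 hk.le
          constructor <;> linarith
        show g ((θ - c) * k) = S.indicator g ((θ - c) * k)
        rw [Set.indicator_of_mem hm]
    _ ≤ ∫⁻ θ, S.indicator g ((θ - c) * k) := setLIntegral_le_lintegral _ _
    _ = ∫⁻ t, S.indicator g t ∂(Measure.map (fun θ : ℝ => (θ - c) * k) volume) :=
        (hemb.lintegral_map _).symm
    _ = ENNReal.ofReal k⁻¹ * ∫⁻ t, S.indicator g t := by
        rw [hmap, lintegral_smul_measure, abs_of_pos (inv_pos.mpr hk), smul_eq_mul]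
    _ = ENNReal.ofReal k⁻¹ * ∫⁻ t in S, g t := by
        rw [lintegral_indicator measurableSet_Icc]

theorem E5_split (K : ℝ → ℝ≥0∞) {u δ : ℝ} (n : ℕ) :
    ∫⁻ θ in Icc u (u + n * δ), K θ ≤
      ∑ m ∈ Finset.range n, ∫⁻ θ in Icc (u + m * δ) (u + (m + 1) * δ), K θ := by
  induction n with
  | zero => simp
  | succ n ih =>
    rw [Finset.sum_range_succ]
    have h1 : Icc u (u + ((n + 1 : ℕ) : ℝ) * δ) ⊆
        Icc u (u + n * δ) ∪ Icc (u + n * δ) (u + (n + 1) * δ) := by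
      intro x hx
      push_cast at hx
      rcases le_total x (u + n * δ) with h | h
      · exact Or.inl ⟨hx.1, h⟩
      · exact Or.inr ⟨h, hx.2⟩
    calc ∫⁻ θ in Icc u (u + ((n + 1 : ℕ) : ℝ) * δ), K θ
        ≤ ∫⁻ θ in Icc u (u + n * δ) ∪ Icc (u + n * δ) (u + (n + 1) * δ), K θ :=
          lintegral_mono_set h1
      _ ≤ _ := lintegral_union_le _ _ _
      _ ≤ _ := add_le_add ih le_rfl

/-- lower bound for the leaf of slope `θ` at the larger scale. -/
theorem E5_low {F : ℂ × ℂ → ℂ} {b0 : ℝ} (X : Ctx F b0) {j i : ℕ} {θ A : ℝ} (hθ : θ ∈ I1 b0)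
    (hj : X.j0 ≤ j) (hs : X.s0 ≤ 4 * i) (hA : A ≤ X.c (j + 4 * i) θ)
    (herr : X.C1 * Real.exp (-(2 ^ (4 * i - X.s0) / X.C1)) ≤ hh i) :
    ENNReal.ofReal (A - hh i) ≤ Muntz.af (fun ζ => Muntz.nl (F (ζ, θ * ζ))) (2 ^ (j + 9)) := by
  have hb := X.env.cs.hb
  have hθ0 : 0 < θ := lt_of_lt_of_le (by positivity) hθ.1
  have hPR := X.env.low (j + X.s0) (4 * i - X.s0) (by omega) θ hθ
  rw [show j + X.s0 + (4 * i - X.s0) = j + 4 * i by omega] at hPR
  have hs9 : (2 : ℝ) ^ 9 ≤ 2 ^ X.s0 := by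
    have := X.hs0
    have h1 : (2 : ℝ) ^ 9 ≤ 2 ^ 14 * b0 := by nlinarith
    linarith
  unfold Muntz.af
  refine le_iInf₂ fun ζ hζ => ?_
  have hpos : ENNReal.ofReal ζ.re ≠ 0 := by
    rw [Ne, ENNReal.ofReal_eq_zero, not_le]
    exact hζ.2
  rw [ENNReal.le_div_iff_mul_le (Or.inl hpos) (Or.inl ENNReal.ofReal_ne_top),
    ← ENNReal.ofReal_mul' hζ.2.le]
  apply E5_nl_lower
  have e1 : ‖ζ‖ ≤ 2 ^ (j + X.s0) := by
    rw [hζ.1, pow_add, pow_add]
    exact mul_le_mul_of_nonneg_left hs9 (by positivity)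
  have e2 : ‖(θ : ℂ) * ζ‖ ≤ 2 ^ (j + X.s0) := by
    rw [norm_mul, Complex.norm_real, Real.norm_eq_abs, abs_of_pos hθ0, hζ.1]
    have h1 : θ ≤ 2 * b0 := hθ.2
    have h2 := X.hs0
    calc θ * 2 ^ (j + 9) ≤ (2 * b0) * 2 ^ (j + 9) := mul_le_mul_of_nonneg_right h1 (by positivity)
      _ = 2 ^ j * (2 ^ 10 * b0) := by ring
      _ ≤ 2 ^ j * 2 ^ X.s0 := by
          apply mul_le_mul_of_nonneg_left _ (by positivity)
          nlinarith
      _ = 2 ^ (j + X.s0) := (pow_add _ _ _).symm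
  have e3 := hPR ζ ((θ : ℂ) * ζ) e1 e2 hζ.2 (by simp)
  refine e3.trans ?_
  apply Real.exp_le_exp.mpr
  have e4 : A - hh i ≤ X.c (j + 4 * i) θ - X.C1 * Real.exp (-(2 ^ (4 * i - X.s0) / X.C1)) := by
    linarith
  have e5 := mul_le_mul_of_nonneg_right e4 hζ.2.le
  linarith

/-- upper bound on one slice. -/
theorem E5_up {F : ℂ × ℂ → ℂ} (hF : Muntz.GoodF F) {j : ℕ} {θ θ0 α β x0 s t u : ℝ} (hθ : 0 < θ)
    (hx0 : 0 < x0) (hs : |s| ≤ 1 / 64) (hx : x0 * (1 + s / 2) ≤ 2 ^ j)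
    (ht : θ * (x0 * (1 + s / 2)) = θ0 * (x0 * (1 + s / 2)) + u * x0 * t) :
    Muntz.af (fun ζ => Muntz.nl (F (ζ, θ * ζ))) (2 ^ j) ≤
      (ENNReal.ofReal (x0 * (1 + s / 2)))⁻¹ * Muntz.nl (fb F α β x0 θ0 u ((s : ℂ), (t : ℂ))) +
        ENNReal.ofReal (α + β * θ) := by
  rw [abs_le] at hs
  set x : ℝ := x0 * (1 + s / 2) with hxd
  have hx1 : 0 < x := by
    apply mul_pos hx0
    linarith [hs.1]
  have hleaf := Muntz.leaf_good hF (τ := θ) (β := 0) hθ.le (by simp)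
  have hSH0 := Muntz.SH_nl hleaf.1 hleaf.2
  have hSH : Muntz.SH (fun ζ => Muntz.nl (F (ζ, θ * ζ))) := by
    have e : (fun ζ => Muntz.nl (F (ζ, θ * ζ))) = fun z => Muntz.nl (Muntz.leaf F θ 0 z) := by
      funext z
      unfold Muntz.leaf
      rw [add_zero]
    rw [e]
    exact hSH0
  have h1 := Muntz.FIN_af_le hSH hx1 hx
  refine h1.trans ?_
  have hz : ((x0 : ℂ) * (1 + (s : ℂ) / 2)) = (x : ℂ) := by
    rw [hxd]
    push_cast
    ring
  have hw : (θ0 : ℂ) * (x : ℂ) + (u : ℂ) * (x0 : ℂ) * (t : ℂ) = (θ : ℂ) * (x : ℂ) := by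
    have e : ((θ * x : ℝ) : ℂ) = ((θ0 * x + u * x0 * t : ℝ) : ℂ) := by rw [ht]
    push_cast at e
    exact e.symm
  have hfb : fb F α β x0 θ0 u ((s : ℂ), (t : ℂ)) =
      F ((x : ℂ), (θ : ℂ) * (x : ℂ)) * Complex.exp (α * (x : ℂ) + β * ((θ : ℂ) * (x : ℂ))) := by
    unfold fb
    simp only
    rw [hz, hw]
  have hnorm : ‖Complex.exp ((α : ℂ) * (x : ℂ) + (β : ℂ) * ((θ : ℂ) * (x : ℂ)))‖ =
      Real.exp ((α + β * θ) * x) := by
    rw [Complex.norm_exp]
    congr 1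
    have e : ((α : ℂ) * (x : ℂ) + (β : ℂ) * ((θ : ℂ) * (x : ℂ))) = (((α + β * θ) * x : ℝ) : ℂ) := by
      push_cast
      ring
    rw [e, Complex.ofReal_re]
  have h2 := E5_nl_mul (a := F ((x : ℂ), (θ : ℂ) * (x : ℂ))) hnorm
  rw [← hfb] at h2
  have hx0' : ENNReal.ofReal x ≠ 0 := by
    rw [Ne, ENNReal.ofReal_eq_zero, not_le]
    exact hx1
  calc (ENNReal.ofReal x)⁻¹ * Muntz.nl (F ((x : ℂ), (θ : ℂ) * (x : ℂ)))
      ≤ (ENNReal.ofReal x)⁻¹ * (Muntz.nl (fb F α β x0 θ0 u ((s : ℂ), (t : ℂ))) +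
        ENNReal.ofReal ((α + β * θ) * x)) := by gcongr
    _ = (ENNReal.ofReal x)⁻¹ * Muntz.nl (fb F α β x0 θ0 u ((s : ℂ), (t : ℂ))) +
        ENNReal.ofReal (α + β * θ) := by
        rw [mul_add, ENNReal.ofReal_mul' hx1.le]
        congr 1
        rw [mul_comm (ENNReal.ofReal (α + β * θ)), ← mul_assoc,
          ENNReal.inv_mul_cancel hx0' ENNReal.ofReal_ne_top, one_mul]

theorem kap_bound {F : ℂ × ℂ → ℂ} {b0 : ℝ} (X : Ctx F b0) : ∃ (C : ℝ) (i1 : ℕ), 0 < C ∧
    ∀ (j : ℕ) (d : ℕ × ℕ) (u v : ℝ), X.win j d → i1 ≤ X.ij j d → u ∈ st d → v ∈ st d →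
      hh (X.ij j d) ^ 3 ≤ v - u →
      ∫⁻ θ in Icc u v, kap F j θ ≤ ENNReal.ofReal (C * (v - u) * hh (X.ij j d)) := by
  have hb := X.env.cs.hb
  have hC1 := X.env.hC1
  obtain ⟨Cs, hCs, hsq⟩ := sq4
  obtain ⟨i2, hi2⟩ := pow_unbounded_of_one_lt (X.C1 ^ 2 * 2 ^ X.s0) (one_lt_two (α := ℝ))
  refine ⟨8 * (2 * Cs * X.A1 + 1), X.is + X.s0 + X.w0 + i2 + 1, ?_, ?_⟩
  · have := X.hA1
    positivity
  intro j d u v hwin hi hu hv huv
  obtain ⟨hj, hW⟩ := hwin
  have hA1 := X.hA1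
  set i : ℕ := X.ij j d with hid
  have hiJ : iJ X.c X.L j d = i := rfl
  have hw0 : 400 * b0 ≤ 2 ^ X.w0 := by
    have := X.hw0
    nlinarith
  have hbox := X.box j d hj hW (by rw [hiJ]; omega)
  have hij : i ≤ j / 100 := by
    rw [← hiJ]
    exact L2_iJ_le X.env.cs j d
  have hI : ∀ x, |x - dc d| ≤ 4 * dl d → x ∈ I1 b0 := by
    intro x hx
    apply st_sub hb hw0 hW.1 hW.2.1
    have := L2_dl_pos d
    linarith
  have hdl := L2_dl_pos d
  have hh0 : 0 < hh i := by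
    unfold hh
    positivity
  have hstI : ∀ θ ∈ st d, θ ∈ I1 b0 := by
    intro θ hθ
    apply hI
    obtain ⟨a1, a2⟩ := hθ
    rw [abs_le]
    constructor <;> linarith
  -- sizes
  have hhdl : hh i ^ 3 ≤ dl d := by
    have h1 : hh i ≤ 1 / 2 := by
      unfold hh
      calc ((1 : ℝ) / 2) ^ i ≤ (1 / 2) ^ 1 :=
            pow_le_pow_of_le_one (by norm_num) (by norm_num) (by omega)
        _ = 1 / 2 := by norm_num
    rcases win_len X.env.cs hw0 hj hW with h2 | ⟨-, h2⟩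
    · have h3 : hh i ^ 3 ≤ hh i := pow_le_of_le_one hh0.le (by linarith) (by norm_num)
      have h4 : hh i ≤ dl d := by
        unfold hh dl
        rw [h2]
        exact pow_le_pow_of_le_one (by norm_num) (by norm_num) (by omega)
      linarith
    · have h3 : hh i ≤ 2 * dl d := by
        unfold hh
        rw [← hiJ]
        exact h2
      nlinarith [mul_le_mul h1 h1 hh0.le (by norm_num : (0 : ℝ) ≤ 1 / 2)]
  have herr : X.C1 * Real.exp (-(2 ^ (4 * i - X.s0) / X.C1)) ≤ hh i := by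
    have hC0 : 0 < X.C1 := by linarith
    set y : ℝ := 2 ^ (4 * i - X.s0) / X.C1 with hy
    have hy0 : 0 < y := by positivity
    have h1 : Real.exp (-y) ≤ 1 / y := by
      rw [Real.exp_neg, ← one_div]
      apply one_div_le_one_div_of_le hy0
      linarith [Real.add_one_le_exp y]
    have h2 : X.C1 * Real.exp (-y) ≤ X.C1 * (1 / y) := mul_le_mul_of_nonneg_left h1 hC0.le
    refine h2.trans ?_
    have h3 : X.C1 * (1 / y) = X.C1 ^ 2 / 2 ^ (4 * i - X.s0) := by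
      rw [hy]
      field_simp
    rw [h3, div_le_iff₀ (by positivity)]
    have h4 : (2 : ℝ) ^ i2 ≤ 2 ^ (3 * i) := pow_le_pow_right₀ (by norm_num) (by omega)
    have h5 : hh i * 2 ^ (4 * i - X.s0) * 2 ^ X.s0 = 2 ^ (3 * i) := by
      rw [mul_assoc, ← pow_add, show 4 * i - X.s0 + X.s0 = i + 3 * i by omega, pow_add]
      unfold hh
      rw [← mul_assoc, ← mul_pow]
      norm_num
    have h6 : X.C1 ^ 2 * 2 ^ X.s0 ≤ hh i * 2 ^ (4 * i - X.s0) * 2 ^ X.s0 := by
      rw [h5]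
      linarith
    exact le_of_mul_le_mul_right h6 (by positivity)
  set α : ℝ := X.al j d with hα
  set β : ℝ := X.be j d with hβ
  set x0 : ℝ := 3 / 4 * 2 ^ j with hx0d
  have hx0 : 0 < x0 := by positivity
  set ℓ : ℝ := v - u with hℓ
  have hℓ0 : 0 < ℓ := lt_of_lt_of_le (by positivity) huv
  have hℓd : ℓ ≤ 4 * dl d := by
    obtain ⟨a1, a2⟩ := hu
    obtain ⟨a3, a4⟩ := hv
    linarith
  set u' : ℝ := min ℓ (dl d) with hu'
  have hu'0 : 0 < u' := lt_min hℓ0 hdl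
  have hu'1 : u' ≤ ℓ := min_le_left _ _
  have hu'2 : ℓ / 4 ≤ u' := by
    apply le_min
    · linarith
    · linarith
  have hM0 : 1 ≤ X.A1 * hh i * x0 := by
    have h1 : (4 : ℝ) / 3 ≤ hh i * 2 ^ j := by
      have h2 : hh i * 2 ^ j = 2 ^ (j - i) := by
        have h3 : (2 : ℝ) ^ j = 2 ^ i * 2 ^ (j - i) := by
          rw [← pow_add]
          congr 1
          omega
        rw [h3, ← mul_assoc]
        unfold hh
        rw [← mul_pow]
        norm_num
      rw [h2]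
      have h4 : (2 : ℝ) ^ 1 ≤ 2 ^ (j - i) := pow_le_pow_right₀ (by norm_num) (by omega)
      linarith
    have h5 : 1 ≤ hh i * x0 := by
      rw [hx0d]
      linarith
    calc (1 : ℝ) ≤ hh i * x0 := h5
      _ ≤ X.A1 * (hh i * x0) := by
          have : 0 < hh i * x0 := by positivity
          nlinarith
      _ = X.A1 * hh i * x0 := by ring
  -- one small interval
  have key : ∀ m ∈ Finset.range 8,
      ∫⁻ θ in Icc (u + (m : ℝ) * (ℓ / 8)) (u + ((m : ℝ) + 1) * (ℓ / 8)), kap F j θ ≤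
        ENNReal.ofReal ((2 * Cs * X.A1 + 1) * ℓ * hh i) := by
    intro m hm
    rw [Finset.mem_range] at hm
    have hm7 : (m : ℝ) ≤ 7 := by
      have : m ≤ 7 := by omega
      exact_mod_cast this
    have hm0 : (0 : ℝ) ≤ m := Nat.cast_nonneg m
    set cm : ℝ := u + ((m : ℝ) + 1 / 2) * (ℓ / 8) with hcm
    have hcmst : cm ∈ st d := by
      obtain ⟨a1, a2⟩ := hu
      obtain ⟨a3, a4⟩ := hv
      have b1 : 0 ≤ ((m : ℝ) + 1 / 2) * (ℓ / 8) := by positivity
      have b2 : ((m : ℝ) + 1 / 2) * (ℓ / 8) ≤ ℓ := by nlinarith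
      constructor
      · rw [hcm]
        linarith
      · rw [hcm]
        linarith
    have hbf : BF (fb F α β x0 cm u') (X.A1 * hh i * x0) := by
      have h1 : (2 : ℝ) ^ j / 2 ≤ x0 := by
        rw [hx0d]
        have : (0 : ℝ) < 2 ^ j := by positivity
        linarith
      have h2 : x0 ≤ 16 * 2 ^ j := by
        rw [hx0d]
        have : (0 : ℝ) < 2 ^ j := by positivity
        linarith
      exact box_bf X.env.hF hb X.hs0 hI hbox h1 h2 hcmst (le_min huv hhdl) (min_le_right _ _)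
    obtain ⟨s, hs, -, hint⟩ := hsq _ _ hbf hM0
    have hs' := hs
    rw [abs_le] at hs'
    set x : ℝ := x0 * (1 + s / 2) with hxd
    have hx : 0 < x := by
      apply mul_pos hx0
      linarith [hs'.1]
    have hxj : x ≤ 2 ^ j := by
      rw [hxd, hx0d]
      have : (0 : ℝ) < 2 ^ j := by positivity
      nlinarith [hs'.2]
    have hxx0 : x ≤ 129 / 128 * x0 := by
      rw [hxd]
      nlinarith [hs'.2]
    have hxx0' : 127 / 128 * x0 ≤ x := by
      rw [hxd]
      nlinarith [hs'.1]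
    set k : ℝ := x / (u' * x0) with hk
    have hk0 : 0 < k := by positivity
    have hrk : ℓ / 16 * k ≤ 1 / 2 := by
      rw [hk, mul_div_assoc', div_le_iff₀ (by positivity)]
      have c1 : ℓ / 16 * x ≤ ℓ / 16 * (129 / 128 * x0) := mul_le_mul_of_nonneg_left hxx0 (by positivity)
      have c2 : ℓ / 4 * x0 ≤ u' * x0 := mul_le_mul_of_nonneg_right hu'2 hx0.le
      have c3 : 0 < u' * x0 := by positivity
      nlinarith
    have hIeq : Icc (u + (m : ℝ) * (ℓ / 8)) (u + ((m : ℝ) + 1) * (ℓ / 8)) =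
        Icc (cm - ℓ / 16) (cm + ℓ / 16) := by
      congr 1
      · rw [hcm]
        ring
      · rw [hcm]
        ring
    rw [hIeq]
    have hpt : ∀ θ ∈ Icc (cm - ℓ / 16) (cm + ℓ / 16), kap F j θ ≤
        (ENNReal.ofReal x)⁻¹ * Muntz.nl (fb F α β x0 cm u' ((s : ℂ), (((θ - cm) * k : ℝ) : ℂ))) +
          ENNReal.ofReal (hh i) := by
      intro θ hθ
      have hθst : θ ∈ st d := by
        rw [← hIeq] at hθ
        obtain ⟨a1, a2⟩ := hu
        obtain ⟨a3, a4⟩ := hv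
        obtain ⟨a5, a6⟩ := hθ
        have b1 : 0 ≤ (m : ℝ) * (ℓ / 8) := by positivity
        have b2 : ((m : ℝ) + 1) * (ℓ / 8) ≤ ℓ := by nlinarith
        constructor <;> linarith
      have hθI := hstI θ hθst
      have hθ0 : 0 < θ := lt_of_lt_of_le (by positivity) hθI.1
      have hlo : α + β * θ ≤ X.c (j + 4 * i) θ := (hbox.lo θ ((cell_sub_st d).2 hθst)).2
      have h1 := E5_low X hθI (by omega) (by omega) hlo herr
      have ht : θ * x = cm * x + u' * x0 * ((θ - cm) * k) := by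
        rw [hk]
        field_simp
        ring
      have h2 := E5_up X.env.hF (α := α) (β := β) (u := u') (θ0 := cm) (t := (θ - cm) * k) hθ0 hx0 hs hxj ht
      unfold kap
      rw [tsub_le_iff_right]
      refine h2.trans ?_
      rw [← hxd, add_assoc]
      refine add_le_add le_rfl ?_
      calc ENNReal.ofReal (α + β * θ) = ENNReal.ofReal (hh i + (α + β * θ - hh i)) := by
            congr 1
            ring
        _ ≤ ENNReal.ofReal (hh i) + ENNReal.ofReal (α + β * θ - hh i) := ENNReal.ofReal_add_le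
        _ ≤ _ := add_le_add le_rfl h1
    have hcov := E5_cov (fun t : ℝ => Muntz.nl (fb F α β x0 cm u' ((s : ℂ), (t : ℂ)))) (c := cm)
      (k := k) (r := ℓ / 16) hk0 hrk
    have hx0' : ENNReal.ofReal x ≠ 0 := by
      rw [Ne, ENNReal.ofReal_eq_zero, not_le]
      exact hx
    calc ∫⁻ θ in Icc (cm - ℓ / 16) (cm + ℓ / 16), kap F j θ
        ≤ ∫⁻ θ in Icc (cm - ℓ / 16) (cm + ℓ / 16), ((ENNReal.ofReal x)⁻¹ *
            Muntz.nl (fb F α β x0 cm u' ((s : ℂ), (((θ - cm) * k : ℝ) : ℂ))) +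
            ENNReal.ofReal (hh i)) := setLIntegral_mono' measurableSet_Icc hpt
      _ = (ENNReal.ofReal x)⁻¹ * (∫⁻ θ in Icc (cm - ℓ / 16) (cm + ℓ / 16),
            Muntz.nl (fb F α β x0 cm u' ((s : ℂ), (((θ - cm) * k : ℝ) : ℂ)))) +
            ENNReal.ofReal (hh i) * ENNReal.ofReal (ℓ / 8) := by
          rw [lintegral_add_right _ measurable_const, lintegral_const_mul' _ _
            (ENNReal.inv_ne_top.mpr hx0'), setLIntegral_const, Real.volume_Icc,
            show cm + ℓ / 16 - (cm - ℓ / 16) = ℓ / 8 by ring]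
      _ ≤ (ENNReal.ofReal x)⁻¹ * (ENNReal.ofReal k⁻¹ * ENNReal.ofReal (Cs * (X.A1 * hh i * x0))) +
            ENNReal.ofReal (hh i) * ENNReal.ofReal (ℓ / 8) := by
          refine add_le_add (mul_le_mul_right ?_ _) le_rfl
          exact hcov.trans (mul_le_mul_right hint _)
      _ = ENNReal.ofReal (x⁻¹ * (k⁻¹ * (Cs * (X.A1 * hh i * x0))) + hh i * (ℓ / 8)) := by
          rw [← ENNReal.ofReal_inv_of_pos hx, ← ENNReal.ofReal_mul (by positivity),
            ← ENNReal.ofReal_mul (by positivity), ← ENNReal.ofReal_mul (by positivity),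
            ← ENNReal.ofReal_add (by positivity) (by positivity)]
      _ ≤ ENNReal.ofReal ((2 * Cs * X.A1 + 1) * ℓ * hh i) := by
          apply ENNReal.ofReal_le_ofReal
          have d1 : x⁻¹ * (k⁻¹ * (Cs * (X.A1 * hh i * x0))) =
              Cs * X.A1 * hh i * u' * (x0 ^ 2 / x ^ 2) := by
            rw [hk]
            field_simp
          have d2 : x0 ^ 2 / x ^ 2 ≤ 2 := by
            rw [div_le_iff₀ (by positivity)]
            nlinarith
          have d3 : Cs * X.A1 * hh i * u' * (x0 ^ 2 / x ^ 2) ≤ Cs * X.A1 * hh i * ℓ * 2 := by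
            apply mul_le_mul _ d2 (by positivity) (by positivity)
            apply mul_le_mul_of_nonneg_left hu'1
            positivity
          have d4 : 0 < hh i * ℓ := by positivity
          rw [d1]
          nlinarith
  have hsplit := E5_split (kap F j) (u := u) (δ := ℓ / 8) 8
  have hend : u + ((8 : ℕ) : ℝ) * (ℓ / 8) = v := by
    rw [hℓ]
    push_cast
    ring
  rw [hend] at hsplit
  refine hsplit.trans ((Finset.sum_le_sum key).trans ?_)
  rw [Finset.sum_const, Finset.card_range, nsmul_eq_mul, ← ENNReal.ofReal_natCast,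
    ← ENNReal.ofReal_mul (by positivity)]
  apply ENNReal.ofReal_le_ofReal
  apply le_of_eq
  push_cast
  ring

end MuntzF
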