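import Pool.Agent.Lib.MP_dde81e_full.BDefs

/-!
Module E6: elementary geometry of lattice lines (text 5.4(1), 5.6 pairs).  V0 ≥ 1 bound of the heights.
lines_card: q ≤ V0, |p| ≤ V0, |r| ≤ V0(|x|+|y|) for a point of the line with |x|,|y| ≤ B R: at most C_B V0^3 R lines (V0^2·3 directions, 3·B·V0·R+1 values of r).
pairs_leaf: l ≠ l', both heights ≤ V0, points (x,θx) ∈ l, (x',θx') ∈ l' with x,x' ∈ [R/2,4R], |x-x'| < σ, σ V0^2 (1+θ)·.. small: parallel lines are impossible; otherwise D = q p' - p q' is a nonzero integer, Q = l∩l',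
 |A - Q| ≤ C V0^2 σ for A = (x,θx), so |θ - slope(Q)| ≤ C V0^2 σ/R: an interval of length C V0^2 σ/R.
pairs_vert: |y_l(x)-y_l'(x)| < σ: parallel impossible if σ < 1/V0; otherwise |slope difference| ≥ 1/V0^2: x in an interval of length 2σV0^2.
-/

namespace MuntzF
open Set MeasureTheory

theorem E6_ext {l l' : Ln} (h1 : l.q = l'.q) (h2 : l.p = l'.p) (h3 : l.r = l'.r) : l = l' := by
  cases l
  cases l'
  simp only at h1 h2 h3
  subst h1 h2 h3
  rfl

/-- parallel lines have the same direction. -/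
theorem E6_par {l l' : Ln} (hD : (l.q : ℤ) * l'.p - l.p * l'.q = 0) : l.q = l'.q ∧ l.p = l'.p := by
  rcases Nat.eq_zero_or_pos l.q with h0 | h0
  · have hp := l.hq h0
    rw [h0, hp] at hD
    have h1 : l'.q = 0 := by
      have : (l'.q : ℤ) = 0 := by
        simp only [Nat.cast_zero, zero_mul, one_mul, zero_sub, neg_eq_zero] at hD
        exact hD
      exact_mod_cast this
    exact ⟨h0.trans h1.symm, hp.trans (l'.hq h1).symm⟩
  · rcases Nat.eq_zero_or_pos l'.q with h1 | h1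
    · have hp := l'.hq h1
      rw [h1, hp] at hD
      simp only [Nat.cast_zero, mul_zero, mul_one, sub_zero] at hD
      have : l.q = 0 := by exact_mod_cast hD
      omega
    · have e : (l.q : ℤ) * l'.p = l.p * l'.q := by linarith
      have c1 : IsCoprime (l.q : ℤ) l.p := Int.isCoprime_iff_gcd_eq_one.2 l.cop
      have c2 : IsCoprime (l'.q : ℤ) l'.p := Int.isCoprime_iff_gcd_eq_one.2 l'.cop
      have d1 : (l.q : ℤ) ∣ l'.q := c1.dvd_of_dvd_mul_left (Dvd.intro _ e)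
      have d2 : (l'.q : ℤ) ∣ l.q := by
        refine c2.dvd_of_dvd_mul_right ?_
        exact ⟨l.p, by rw [e]; ring⟩
      have e1 : l.q = l'.q := Nat.dvd_antisymm (by exact_mod_cast d1) (by exact_mod_cast d2)
      refine ⟨e1, ?_⟩
      have h2 : (l.q : ℤ) ≠ 0 := by exact_mod_cast h0.ne'
      have h3 : (l.q : ℤ) * l'.p = l.q * l.p := by
        rw [e, e1]
        ring
      exact (mul_left_cancel₀ h2 h3).symm

theorem E6_q {l : Ln} {V : ℝ} (h : ht l ≤ V) : (l.q : ℝ) ≤ V := (le_max_left _ _).trans h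
theorem E6_p {l : Ln} {V : ℝ} (h : ht l ≤ V) : |(l.p : ℝ)| ≤ V := (le_max_right _ _).trans h

theorem lines_card (B : ℝ) (hB : 1 ≤ B) : ∃ C : ℝ, 0 < C ∧ ∀ (V0 R : ℝ) (LL : Finset Ln), 1 ≤ V0 → 1 ≤ R →
    (∀ l ∈ LL, ht l ≤ V0 ∧ ∃ x y : ℝ, |x| ≤ B * R ∧ |y| ≤ B * R ∧ onl l x y) →
    (LL.card : ℝ) ≤ C * V0 ^ 3 * R := by
  classical
  refine ⟨30 * B, by positivity, ?_⟩
  intro V0 R LL hV hR hLL
  set a : ℤ := ⌊V0⌋ with ha
  set N : ℤ := ⌊2 * B * V0 * R⌋ with hN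
  have ha0 : 0 ≤ a := Int.floor_nonneg.2 (by linarith)
  have hN0 : 0 ≤ N := Int.floor_nonneg.2 (by positivity)
  have hinj : LL.card ≤ ((Finset.Icc (0 : ℤ) a) ×ˢ ((Finset.Icc (-a) a) ×ˢ (Finset.Icc (-N) N))).card := by
    refine Finset.card_le_card_of_injOn (fun l : Ln => ((l.q : ℤ), (l.p, l.r))) ?_ ?_
    · intro l hl
      obtain ⟨h1, x, y, hx, hy, ho⟩ := hLL l hl
      have hq := E6_q h1
      have hp := E6_p h1
      rw [Finset.mem_coe, Finset.mem_product, Finset.mem_product, Finset.mem_Icc, Finset.mem_Icc,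
        Finset.mem_Icc]
      have hr : |(l.r : ℝ)| ≤ 2 * B * V0 * R := by
        unfold onl at ho
        rw [← ho]
        calc |(l.q : ℝ) * y - l.p * x| ≤ |(l.q : ℝ) * y| + |(l.p : ℝ) * x| := abs_sub _ _
          _ = l.q * |y| + |(l.p : ℝ)| * |x| := by
              rw [abs_mul, abs_mul, abs_of_nonneg (Nat.cast_nonneg l.q)]
          _ ≤ V0 * (B * R) + V0 * (B * R) := by
              gcongr
          _ = 2 * B * V0 * R := by ring
      rw [abs_le] at hp hr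
      refine ⟨⟨by positivity, Int.le_floor.2 (by exact_mod_cast hq)⟩, ⟨?_, Int.le_floor.2 hp.2⟩,
        ?_, Int.le_floor.2 hr.2⟩
      · have : -l.p ≤ a := Int.le_floor.2 (by push_cast; linarith)
        linarith
      · have : -l.r ≤ N := Int.le_floor.2 (by push_cast; linarith)
        linarith
    · intro l _ l' _ h
      simp only [Prod.mk.injEq] at h
      exact E6_ext (by exact_mod_cast h.1) h.2.1 h.2.2
  rw [Finset.card_product, Finset.card_product, Int.card_Icc, Int.card_Icc, Int.card_Icc] at hinj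
  have e1 : (((a + 1 - 0).toNat : ℕ) : ℝ) ≤ 2 * V0 := by
    have : ((a + 1 - 0).toNat : ℤ) = a + 1 := by rw [Int.toNat_of_nonneg (by linarith)]; ring
    have h2 : (((a + 1 - 0).toNat : ℕ) : ℝ) = (a : ℝ) + 1 := by exact_mod_cast this
    rw [h2]
    have := Int.floor_le V0
    linarith
  have e2 : (((a + 1 - -a).toNat : ℕ) : ℝ) ≤ 3 * V0 := by
    have : ((a + 1 - -a).toNat : ℤ) = 2 * a + 1 := by rw [Int.toNat_of_nonneg (by linarith)]; ring
    have h2 : (((a + 1 - -a).toNat : ℕ) : ℝ) = 2 * (a : ℝ) + 1 := by exact_mod_cast this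
    rw [h2]
    have := Int.floor_le V0
    linarith
  have e3 : (((N + 1 - -N).toNat : ℕ) : ℝ) ≤ 5 * B * V0 * R := by
    have : ((N + 1 - -N).toNat : ℤ) = 2 * N + 1 := by rw [Int.toNat_of_nonneg (by linarith)]; ring
    have h2 : (((N + 1 - -N).toNat : ℕ) : ℝ) = 2 * (N : ℝ) + 1 := by exact_mod_cast this
    rw [h2]
    have := Int.floor_le (2 * B * V0 * R)
    have h4 : 1 ≤ B * V0 * R := by
      have : 1 ≤ B * V0 := by nlinarith
      nlinarith
    linarith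
  calc (LL.card : ℝ) ≤ (((a + 1 - 0).toNat * ((a + 1 - -a).toNat * (N + 1 - -N).toNat) : ℕ) : ℝ) := by
        exact_mod_cast hinj
    _ = (((a + 1 - 0).toNat : ℕ) : ℝ) * ((((a + 1 - -a).toNat : ℕ) : ℝ) * (((N + 1 - -N).toNat : ℕ) : ℝ)) := by
        push_cast
        ring
    _ ≤ (2 * V0) * ((3 * V0) * (5 * B * V0 * R)) := by
        gcongr
    _ = 30 * B * V0 ^ 3 * R := by ring

theorem pairs_leaf (b0 : ℝ) (hb : 2 ≤ b0) : ∃ C : ℝ, 0 < C ∧ ∀ (V0 R σ : ℝ) (l l' : Ln), 1 ≤ V0 → 1 ≤ R →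
    0 < σ → σ * V0 ^ 3 * C ≤ 1 → ht l ≤ V0 → ht l' ≤ V0 → l ≠ l' →
    ∃ a : ℝ, ∀ θ ∈ I1 b0, (∃ x x' : ℝ, R / 2 ≤ x ∧ x ≤ 4 * R ∧ R / 2 ≤ x' ∧ x' ≤ 4 * R ∧
      onl l x (θ * x) ∧ onl l' x' (θ * x') ∧ |x - x'| < σ) → |θ - a| ≤ C * V0 ^ 2 * σ / R := by
  set K : ℝ := 2 * b0 + 1 with hK
  have hK1 : 5 ≤ K := by linarith
  refine ⟨4 * K ^ 2, by positivity, ?_⟩
  intro V0 R σ l l' hV hR hσ hsm hl hl' hne
  have hq := E6_q hl
  have hp := E6_p hl
  have hq' := E6_q hl'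
  have hp' := E6_p hl'
  have hb0 : 0 < b0 := by linarith
  -- bound for a direction
  have dir : ∀ (θ : ℝ), θ ∈ I1 b0 → |(l'.q : ℝ) * θ - l'.p| ≤ K * V0 := by
    intro θ hθ
    obtain ⟨t1, t2⟩ := hθ
    have t0 : 0 ≤ θ := le_trans (by positivity) t1
    calc |(l'.q : ℝ) * θ - l'.p| ≤ |(l'.q : ℝ) * θ| + |(l'.p : ℝ)| := abs_sub _ _
      _ = l'.q * θ + |(l'.p : ℝ)| := by rw [abs_of_nonneg (by positivity)]
      _ ≤ V0 * (2 * b0) + V0 := by gcongr
      _ = K * V0 := by rw [hK]; ring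
  have hV3 : V0 ≤ V0 ^ 3 := by
    calc V0 = V0 * 1 := by ring
      _ ≤ V0 * V0 ^ 2 := by gcongr; exact one_le_pow₀ hV
      _ = V0 ^ 3 := by ring
  have hV23 : V0 ^ 2 ≤ V0 ^ 3 := pow_le_pow_right₀ hV (by norm_num)
  by_cases hD : (l.q : ℤ) * l'.p - l.p * l'.q = 0
  · obtain ⟨eq, ep⟩ := E6_par hD
    have hr : l.r ≠ l'.r := fun h => hne (E6_ext eq ep h)
    refine ⟨0, ?_⟩
    rintro θ hθ ⟨x, x', _, _, _, _, h1, h2, h3⟩
    exfalso
    unfold onl at h1 h2
    rw [eq, ep] at h1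
    have h4 : ((l'.q : ℝ) * θ - l'.p) * (x - x') = l.r - l'.r := by
      rw [← h1, ← h2]
      ring
    have h5 : (1 : ℝ) ≤ |(l.r : ℝ) - l'.r| := by
      have : (1 : ℤ) ≤ |l.r - l'.r| := Int.one_le_abs (sub_ne_zero.2 hr)
      exact_mod_cast this
    rw [← h4, abs_mul] at h5
    have h6 := dir θ hθ
    have h7 : |(l'.q : ℝ) * θ - l'.p| * |x - x'| ≤ K * V0 * σ := by
      gcongr
    have h8 : K * V0 * σ ≤ 1 / 4 := by
      have : 4 * (K * V0 * σ) ≤ σ * V0 ^ 3 * (4 * K ^ 2) := by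
        have : K * V0 * σ ≤ K ^ 2 * V0 ^ 3 * σ := by
          gcongr
          nlinarith
        nlinarith
      linarith
    linarith
  · set D : ℝ := (l.q : ℝ) * l'.p - l.p * l'.q with hDdef
    have hD1 : 1 ≤ |D| := by
      have : (1 : ℤ) ≤ |(l.q : ℤ) * l'.p - l.p * l'.q| := Int.one_le_abs hD
      rw [hDdef]
      exact_mod_cast this
    have hD0 : D ≠ 0 := by
      intro h
      rw [h, abs_zero] at hD1
      linarith
    set X : ℝ := ((l.r : ℝ) * l'.q - l.q * l'.r) / D with hX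
    set Y : ℝ := ((l.r : ℝ) * l'.p - l.p * l'.r) / D with hY
    refine ⟨Y / X, ?_⟩
    rintro θ hθ ⟨x, x', hx1, hx2, _, _, h1, h2, h3⟩
    have hdir := dir θ hθ
    unfold onl at h1 h2
    set ε : ℝ := ((l'.q : ℝ) * θ - l'.p) * (x - x') with hε
    have hεb : |ε| ≤ K * V0 * σ := by
      rw [hε, abs_mul]
      gcongr
    have e2 : (l'.q : ℝ) * (θ * x) - l'.p * x = l'.r + ε := by
      rw [hε, ← h2]
      ring
    have dx1 : x - X = -(l.q * ε / D) := by
      rw [hX]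
      field_simp
      rw [hDdef]
      have : ε = (l'.q : ℝ) * (θ * x) - l'.p * x - l'.r := by linarith
      rw [this, ← h1]
      ring
    have dy1 : θ * x - Y = -(l.p * ε / D) := by
      rw [hY]
      field_simp
      rw [hDdef]
      have : ε = (l'.q : ℝ) * (θ * x) - l'.p * x - l'.r := by linarith
      rw [this, ← h1]
      ring
    set η : ℝ := K * V0 ^ 2 * σ with hη
    have bx : |x - X| ≤ η := by
      rw [dx1, abs_neg, abs_div, abs_mul, abs_of_nonneg (Nat.cast_nonneg l.q)]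
      rw [div_le_iff₀ (by linarith)]
      calc (l.q : ℝ) * |ε| ≤ V0 * (K * V0 * σ) := by gcongr
        _ = η * 1 := by rw [hη]; ring
        _ ≤ η * |D| := by
          gcongr
    have by1 : |θ * x - Y| ≤ η := by
      rw [dy1, abs_neg, abs_div, abs_mul]
      rw [div_le_iff₀ (by linarith)]
      calc |(l.p : ℝ)| * |ε| ≤ V0 * (K * V0 * σ) := by gcongr
        _ = η * 1 := by rw [hη]; ring
        _ ≤ η * |D| := by
          gcongr
    have hηs : η ≤ 1 / 4 := by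
      have : 4 * η ≤ σ * V0 ^ 3 * (4 * K ^ 2) := by
        have : η ≤ K ^ 2 * V0 ^ 3 * σ := by
          rw [hη]
          gcongr
          nlinarith
        nlinarith
      linarith
    rw [abs_le] at bx
    have hXl : R / 4 ≤ X := by
      have : (1 : ℝ) / 4 ≤ R / 4 := by linarith
      linarith [bx.2]
    have hX0 : 0 < X := by linarith
    obtain ⟨t1, t2⟩ := hθ
    have t0 : 0 ≤ θ := le_trans (by positivity) t1
    have key : θ - Y / X = ((θ * x - Y) - θ * (x - X)) / X := by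
      field_simp
      ring
    rw [key, abs_div, abs_of_pos hX0]
    have num : |(θ * x - Y) - θ * (x - X)| ≤ K * η := by
      calc |(θ * x - Y) - θ * (x - X)| ≤ |θ * x - Y| + |θ * (x - X)| := abs_sub _ _
        _ = |θ * x - Y| + θ * |x - X| := by rw [abs_mul, abs_of_nonneg t0]
        _ ≤ η + (2 * b0) * η := by
            have : |x - X| ≤ η := abs_le.2 bx
            gcongr
        _ = K * η := by rw [hK]; ring
    calc |(θ * x - Y) - θ * (x - X)| / X ≤ (K * η) / (R / 4) := by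
          gcongr
      _ = 4 * K ^ 2 * V0 ^ 2 * σ / R := by
          rw [hη]
          field_simp

theorem pairs_vert (V0 σ : ℝ) (l l' : Ln) (hV : 1 ≤ V0) (hσ : 0 < σ) (hσ1 : σ * V0 < 1) (h1 : ht l ≤ V0)
    (h2 : ht l' ≤ V0) (hl : l ≠ l') (hq : l.q ≠ 0) (hq' : l'.q ≠ 0) :
    ∃ a : ℝ, ∀ x : ℝ, (∃ y y' : ℝ, onl l x y ∧ onl l' x y' ∧ |y - y'| < σ) → |x - a| ≤ σ * V0 ^ 2 := by
  have bq := E6_q h1
  have bq' := E6_q h2
  have q0 : (0 : ℝ) < l.q := by exact_mod_cast Nat.pos_of_ne_zero hq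
  have q0' : (0 : ℝ) < l'.q := by exact_mod_cast Nat.pos_of_ne_zero hq'
  by_cases hD : (l.q : ℤ) * l'.p - l.p * l'.q = 0
  · obtain ⟨eq, ep⟩ := E6_par hD
    have hr : l.r ≠ l'.r := fun h => hl (E6_ext eq ep h)
    refine ⟨0, ?_⟩
    rintro x ⟨y, y', o1, o2, hy⟩
    exfalso
    unfold onl at o1 o2
    rw [eq, ep] at o1
    have h4 : (l'.q : ℝ) * (y - y') = l.r - l'.r := by
      rw [← o1, ← o2]
      ring
    have h5 : (1 : ℝ) ≤ |(l.r : ℝ) - l'.r| := by
      have : (1 : ℤ) ≤ |l.r - l'.r| := Int.one_le_abs (sub_ne_zero.2 hr)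
      exact_mod_cast this
    rw [← h4, abs_mul, abs_of_pos q0'] at h5
    have : (l'.q : ℝ) * |y - y'| ≤ V0 * σ := by gcongr
    linarith
  · set D : ℝ := (l.q : ℝ) * l'.p - l.p * l'.q with hDdef
    have hD1 : 1 ≤ |D| := by
      have : (1 : ℤ) ≤ |(l.q : ℤ) * l'.p - l.p * l'.q| := Int.one_le_abs hD
      rw [hDdef]
      exact_mod_cast this
    have hD0 : D ≠ 0 := by
      intro h
      rw [h, abs_zero] at hD1
      linarith
    refine ⟨((l.r : ℝ) * l'.q - l.q * l'.r) / D, ?_⟩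
    rintro x ⟨y, y', o1, o2, hy⟩
    unfold onl at o1 o2
    have key : x - ((l.r : ℝ) * l'.q - l.q * l'.r) / D = -(l.q * l'.q * (y - y')) / D := by
      field_simp
      rw [hDdef, ← o1, ← o2]
      ring
    rw [key, abs_div, abs_neg, div_le_iff₀ (by linarith), abs_mul, abs_of_pos (mul_pos q0 q0')]
    calc (l.q : ℝ) * l'.q * |y - y'| ≤ V0 * V0 * σ := by gcongr
      _ = σ * V0 ^ 2 * 1 := by ring
      _ ≤ σ * V0 ^ 2 * |D| := by gcongr

end MuntzF
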