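import Pool.Agent.Lib.MP_dde81e_full.EDefs
import Pool.Agent.Lib.MP_dde81e_full.E1
import Pool.Agent.Lib.MP_dde81e_full.E2
import Pool.Agent.Lib.MP_dde81e_full.L2

/-!
Module E7B (text 5.4 (2)): bad slopes.  For m ≤ 18, n ≤ 32: BF (fb F α β (gx j m) (gth d n) (dl d)) (M0 = A1 h x0); slice s* of sq4 (|s*| ≤ 1/64); sq2 with M' = C M0, M = h λ 2^j: the t with |t| ≤ 1/2 and
‖f(s*,t)‖ ≤ e^-M have measure ≤ C exp(-c λ).  The real point (s*,t) is (x, θx), x = x0(1+s*/2), θ = θ0 + dl d x0 t/x; ‖f(s*,t)‖ = X.fj j d x (θ x).  Every θ ∈ st d is within dl d/16 of some gth d n, so |t| ≤ 1/8·...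
Bad = union of the 19·33 images of the exceptional t sets.
-/

namespace MuntzF
open Set MeasureTheory

theorem E7B_gx (j : ℕ) {m : ℕ} (hm : m ≤ 18) : 2 ^ j / 2 ≤ gx j m ∧ gx j m ≤ 16 * 2 ^ j := by
  unfold gx
  have h2 : (0 : ℝ) < 2 ^ j := by positivity
  have h1 : (1 : ℝ) ≤ (9 / 8) ^ m := one_le_pow₀ (by norm_num)
  have h3 : ((9 : ℝ) / 8) ^ m ≤ (9 / 8) ^ 18 := pow_le_pow_right₀ (by norm_num) hm
  have h4 : ((9 : ℝ) / 8) ^ 18 ≤ 32 := by norm_num
  constructor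
  · nlinarith
  · have : ((9 : ℝ) / 8) ^ m ≤ 32 := h3.trans h4
    nlinarith

theorem E7B_gth (d : ℕ × ℕ) {n : ℕ} (hn : n ≤ 32) : gth d n ∈ st d := by
  have h := L2_dl_pos d
  have h1 : (n : ℝ) ≤ 32 := by exact_mod_cast hn
  have h2 : (0 : ℝ) ≤ n := Nat.cast_nonneg n
  unfold gth st
  constructor
  · nlinarith
  · nlinarith

theorem E7B_near (d : ℕ × ℕ) {θ : ℝ} (hθ : θ ∈ st d) : ∃ n, n ≤ 32 ∧ |θ - gth d n| ≤ dl d / 16 := by
  have h := L2_dl_pos d
  obtain ⟨h1, h2⟩ := hθ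
  set v : ℝ := (θ - dc d) / dl d * 8 + 16 with hv
  have e1 : (θ - dc d) / dl d ≤ 2 := by rw [div_le_iff₀ h]; linarith
  have e2 : -2 ≤ (θ - dc d) / dl d := by rw [le_div_iff₀ h]; linarith
  have hv1 : 0 ≤ v := by rw [hv]; linarith
  have hv2 : v ≤ 32 := by rw [hv]; linarith
  refine ⟨⌊v + 1 / 2⌋₊, ?_, ?_⟩
  · have : (⌊v + 1 / 2⌋₊ : ℝ) ≤ v + 1 / 2 := Nat.floor_le (by linarith)
    have h3 : (⌊v + 1 / 2⌋₊ : ℝ) < 33 := by linarith
    have h4 : ⌊v + 1 / 2⌋₊ < 33 := by exact_mod_cast h3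
    omega
  · have f1 : (⌊v + 1 / 2⌋₊ : ℝ) ≤ v + 1 / 2 := Nat.floor_le (by linarith)
    have f2 : v + 1 / 2 < ⌊v + 1 / 2⌋₊ + 1 := Nat.lt_floor_add_one _
    have e3 : θ = dc d + (v - 16) / 8 * dl d := by
      rw [hv]; field_simp; ring
    have e4 : θ - gth d ⌊v + 1 / 2⌋₊ = (v - ⌊v + 1 / 2⌋₊) / 8 * dl d := by
      unfold gth
      nth_rewrite 1 [e3]
      ring
    rw [e4, abs_mul, abs_of_pos h, abs_div, abs_of_pos (by norm_num : (0 : ℝ) < 8)]
    have e5 : |v - ⌊v + 1 / 2⌋₊| ≤ 1 / 2 := by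
      rw [abs_le]; constructor <;> linarith
    nlinarith

theorem E7B_vol (g a : ℝ) (ha : 1 / 2 ≤ a) (T : Set ℝ) :
    volume {θ : ℝ | a * (θ - g) ∈ T} ≤ 2 * volume T := by
  have h0 : a ≠ 0 := by linarith
  have h1 : {θ : ℝ | a * (θ - g) ∈ T} = (fun θ => θ + (-g)) ⁻¹' ((a * ·) ⁻¹' T) := by
    ext θ; simp [sub_eq_add_neg]
  rw [h1, measure_preimage_add_right, Real.volume_preimage_mul_left h0]
  refine mul_le_mul_left ?_ _
  rw [abs_inv, abs_of_pos (by linarith)]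
  have : a⁻¹ ≤ 2 := by
    rw [inv_le_comm₀ (by linarith) (by norm_num)]; linarith
  calc ENNReal.ofReal a⁻¹ ≤ ENNReal.ofReal 2 := ENNReal.ofReal_le_ofReal this
    _ = 2 := by simp

theorem bad_slopes {F : ℂ × ℂ → ℂ} {b0 : ℝ} (X : Ctx F b0) : ∃ (C c1 : ℝ) (i1 : ℕ), 0 < C ∧ 0 < c1 ∧
    ∀ (j : ℕ) (d : ℕ × ℕ), X.win j d → i1 ≤ X.ij j d → ∃ Bad : Set ℝ, MeasurableSet Bad ∧
      volume Bad ≤ ENNReal.ofReal (C * Real.exp (-(c1 * lam (X.ij j d)))) ∧
      ∀ θ ∈ st d, θ ∉ Bad → ∀ m, m ≤ 18 → ∃ x : ℝ, |x - gx j m| ≤ gx j m / 128 ∧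
        Real.exp (-(hh (X.ij j d) * lam (X.ij j d) * 2 ^ j)) ≤ X.fj j d x (θ * x) := by
  classical
  obtain ⟨C4, hC4, H4⟩ := sq4
  obtain ⟨C2, c2, hC2, hc2, H2⟩ := sq2
  have hA1 := X.hA1
  have hb := X.env.cs.hb
  refine ⟨1254 * C2, c2 / ((C4 + 1) * X.A1 * 16), X.is + X.w0 + 1, by positivity, by positivity, ?_⟩
  intro j d hw hi
  have hcs := X.env.cs
  have hw0 : 400 * b0 ≤ 2 ^ X.w0 := by linarith [X.hw0]
  have hI : ∀ x, |x - dc d| ≤ 4 * dl d → x ∈ I1 b0 := by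
    intro x hx
    have := L2_dl_pos d
    exact st_sub hb hw0 hw.2.1 hw.2.2.1 (by linarith)
  have hbox := X.box j d hw.1 hw.2 (by change X.is ≤ X.ij j d; omega)
  set i := X.ij j d with hidef
  have hij : i ≤ j / 100 := L2_iJ_le hcs j d
  have hdl := L2_dl_pos d
  have hdl1 : dl d ≤ 1 := by
    unfold dl; exact pow_le_one₀ (by norm_num) (by norm_num)
  have hh0 : 0 < hh i := by unfold hh; positivity
  have hlam : 0 < lam i := by unfold lam; positivity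
  have h2j : (0 : ℝ) < 2 ^ j := by positivity
  -- size of the window
  have hsize : hh i ^ 3 ≤ dl d := by
    rcases win_len hcs hw0 hw.1 hw.2 with h1 | ⟨h1, h2⟩
    · unfold hh dl
      rw [← pow_mul, h1]
      exact pow_le_pow_of_le_one (by norm_num) (by norm_num) (by omega)
    · have h3 : hh i ≤ 2 * dl d := h2
      have h4 : hh i ≤ 1 / 2 := by
        unfold hh
        calc (1 / 2 : ℝ) ^ i ≤ (1 / 2) ^ 1 := pow_le_pow_of_le_one (by norm_num) (by norm_num) (by omega)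
          _ = 1 / 2 := by norm_num
      have h5 : hh i ^ 3 = hh i * (hh i * hh i) := by ring
      rw [h5]
      nlinarith [mul_pos hh0 hh0]
  have hbig : 2 ≤ hh i * 2 ^ j := by
    unfold hh
    have h1 : (2 : ℝ) ^ j = 2 ^ i * 2 ^ (j - i) := by rw [← pow_add]; congr 1; omega
    rw [h1, ← mul_assoc, ← mul_pow]
    norm_num
    calc (2 : ℝ) = 2 ^ 1 := by norm_num
      _ ≤ 2 ^ (j - i) := pow_le_pow_right₀ (by norm_num) (by have := hw.1; omega)
  have hBF : ∀ m n, m ≤ 18 → n ≤ 32 →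
      BF (fb F (X.al j d) (X.be j d) (gx j m) (gth d n) (dl d)) (X.A1 * hh i * gx j m) := by
    intro m n hm hn
    obtain ⟨g1, g2⟩ := E7B_gx j hm
    exact box_bf X.env.hF hb X.hs0 hI hbox g1 g2 (E7B_gth d hn) hsize le_rfl
  have hM0 : ∀ m, m ≤ 18 → 1 ≤ X.A1 * hh i * gx j m := by
    intro m hm
    obtain ⟨g1, g2⟩ := E7B_gx j hm
    have h1 : 1 ≤ hh i * gx j m := by nlinarith
    calc (1 : ℝ) = 1 * 1 := by ring
      _ ≤ X.A1 * (hh i * gx j m) := mul_le_mul hA1 h1 (by norm_num) (by linarith)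
      _ = _ := by ring
  -- slices
  have hsl : ∀ m n, ∃ s : ℝ, m ≤ 18 → n ≤ 32 → |s| ≤ 1 / 64 ∧
      volume {t : ℝ | |t| ≤ 1 / 2 ∧ ‖fb F (X.al j d) (X.be j d) (gx j m) (gth d n) (dl d) (s, t)‖ ≤
        Real.exp (-(hh i * lam i * 2 ^ j))} ≤
      ENNReal.ofReal (C2 * Real.exp (-(c2 / ((C4 + 1) * X.A1 * 16) * lam i))) := by
    intro m n
    by_cases hmn : m ≤ 18 ∧ n ≤ 32
    · obtain ⟨hm, hn⟩ := hmn
      obtain ⟨g1, g2⟩ := E7B_gx j hm
      have hg0 : 0 < gx j m := by linarith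
      obtain ⟨s, hs, ⟨t, ht1, ht2⟩, -⟩ := H4 _ _ (hBF m n hm hn) (hM0 m hm)
      refine ⟨s, fun _ _ => ⟨hs, ?_⟩⟩
      have hM1 := hM0 m hm
      set M0 := X.A1 * hh i * gx j m with hM0def
      have q1 := H2 _ M0 ((C4 + 1) * M0) (hh i * lam i * 2 ^ j) s (hBF m n hm hn) (by nlinarith)
        (by positivity) (by linarith) ⟨t, ht1, le_trans (Real.exp_le_exp.2 (by nlinarith)) ht2⟩
      refine q1.trans (ENNReal.ofReal_le_ofReal ?_)
      refine mul_le_mul_of_nonneg_left (Real.exp_le_exp.2 (neg_le_neg ?_)) hC2.le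
      have hM0' : 0 < M0 := by linarith
      rw [div_mul_eq_mul_div, div_le_div_iff₀ (by positivity) (by positivity)]
      have h1 : M0 ≤ X.A1 * hh i * (16 * 2 ^ j) :=
        mul_le_mul_of_nonneg_left g2 (by positivity)
      have h2 : 0 ≤ c2 * lam i * (C4 + 1) := by positivity
      calc c2 * lam i * ((C4 + 1) * M0) = c2 * lam i * (C4 + 1) * M0 := by ring
        _ ≤ c2 * lam i * (C4 + 1) * (X.A1 * hh i * (16 * 2 ^ j)) := mul_le_mul_of_nonneg_left h1 h2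
        _ = c2 * (hh i * lam i * 2 ^ j) * ((C4 + 1) * X.A1 * 16) := by ring
    · exact ⟨0, fun h1 h2 => absurd ⟨h1, h2⟩ hmn⟩
  choose s hs using hsl
  set T : ℕ → ℕ → Set ℝ := fun m n => {t : ℝ | |t| ≤ 1 / 2 ∧
    ‖fb F (X.al j d) (X.be j d) (gx j m) (gth d n) (dl d) (s m n, t)‖ ≤
        Real.exp (-(hh i * lam i * 2 ^ j))} with hT
  set A : ℕ → ℕ → ℝ := fun m n => (1 + s m n / 2) / dl d with hA
  set Bu : Set ℝ := ⋃ p ∈ (Finset.range 19 ×ˢ Finset.range 33), {θ : ℝ | A p.1 p.2 * (θ - gth d p.2) ∈ T p.1 p.2}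
    with hBu
  refine ⟨toMeasurable volume Bu, measurableSet_toMeasurable _ _, ?_, ?_⟩
  · rw [measure_toMeasurable]
    calc volume Bu ≤ ∑ p ∈ (Finset.range 19 ×ˢ Finset.range 33),
          volume {θ : ℝ | A p.1 p.2 * (θ - gth d p.2) ∈ T p.1 p.2} := measure_biUnion_finset_le _ _
      _ ≤ ∑ p ∈ (Finset.range 19 ×ˢ Finset.range 33),
          2 * ENNReal.ofReal (C2 * Real.exp (-(c2 / ((C4 + 1) * X.A1 * 16) * lam i))) := by
          refine Finset.sum_le_sum fun p hp => ?_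
          obtain ⟨p1, p2⟩ := Finset.mem_product.1 hp
          rw [Finset.mem_range] at p1 p2
          obtain ⟨hs1, hs2⟩ := hs p.1 p.2 (by omega) (by omega)
          refine (E7B_vol _ _ ?_ _).trans (mul_le_mul_right hs2 _)
          rw [hA]
          simp only
          rw [le_div_iff₀ hdl]
          rw [abs_le] at hs1
          nlinarith [hs1.1]
      _ = ENNReal.ofReal (1254 * C2 * Real.exp (-(c2 / ((C4 + 1) * X.A1 * 16) * lam i))) := by
          have hp : 1254 * C2 * Real.exp (-(c2 / ((C4 + 1) * X.A1 * 16) * lam i)) =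
            1254 * (C2 * Real.exp (-(c2 / ((C4 + 1) * X.A1 * 16) * lam i))) := by ring
          rw [Finset.sum_const, Finset.card_product, Finset.card_range, Finset.card_range,
            nsmul_eq_mul, hp, ENNReal.ofReal_mul (p := 1254) (by norm_num), ← mul_assoc]
          congr 1
          norm_num
  · intro θ hθ hbad m hm
    have hnot : θ ∉ Bu := fun h => hbad (subset_toMeasurable _ _ h)
    obtain ⟨n, hn, hθn⟩ := E7B_near d hθ
    obtain ⟨hs1, -⟩ := hs m n hm hn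
    obtain ⟨g1, g2⟩ := E7B_gx j hm
    have hg0 : 0 < gx j m := by linarith
    have hs1' := abs_le.1 hs1
    refine ⟨gx j m * (1 + s m n / 2), ?_, ?_⟩
    · rw [show gx j m * (1 + s m n / 2) - gx j m = gx j m * (s m n / 2) by ring, abs_mul,
        abs_of_pos hg0, abs_div, abs_of_pos (by norm_num : (0 : ℝ) < 2)]
      nlinarith
    · by_contra hcon
      push Not at hcon
      apply hnot
      rw [hBu]
      refine mem_iUnion₂.2 ⟨(m, n), Finset.mem_product.2 ⟨Finset.mem_range.2 (by show m < 19; omega),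
        Finset.mem_range.2 (by show n < 33; omega)⟩, ?_⟩
      have hab : |A m n * (θ - gth d n)| ≤ 1 / 2 := by
        rw [hA]
        simp only
        rw [abs_mul, abs_div, abs_of_pos hdl, abs_of_pos (by linarith : 0 < 1 + s m n / 2),
          div_mul_eq_mul_div, div_le_iff₀ hdl]
        have : 1 + s m n / 2 ≤ 2 := by linarith
        nlinarith [abs_nonneg (θ - gth d n)]
      refine ⟨hab, ?_⟩
      have hdc : (dl d : ℂ) ≠ 0 := by exact_mod_cast hdl.ne'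
      have e1 : ((gx j m : ℝ) : ℂ) * (1 + ((s m n : ℝ) : ℂ) / 2) = ((gx j m * (1 + s m n / 2) : ℝ) : ℂ) := by
        push_cast; ring
      have e2 : ((gth d n : ℝ) : ℂ) * ((gx j m * (1 + s m n / 2) : ℝ) : ℂ) +
          (dl d : ℂ) * (gx j m : ℂ) * ((A m n * (θ - gth d n) : ℝ) : ℂ) =
          ((θ * (gx j m * (1 + s m n / 2)) : ℝ) : ℂ) := by
        rw [hA]
        push_cast
        field_simp
        ring
      have e3 : ‖fb F (X.al j d) (X.be j d) (gx j m) (gth d n) (dl d)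
          (((s m n : ℝ) : ℂ), ((A m n * (θ - gth d n) : ℝ) : ℂ))‖ =
          X.fj j d (gx j m * (1 + s m n / 2)) (θ * (gx j m * (1 + s m n / 2))) := by
        unfold fb Ctx.fj
        simp only
        rw [e1, e2, norm_mul, Complex.norm_exp]
        congr 2
        rw [Complex.add_re, Complex.re_ofReal_mul, Complex.re_ofReal_mul, Complex.ofReal_re,
          Complex.ofReal_re]
      show ‖fb F (X.al j d) (X.be j d) (gx j m) (gth d n) (dl d)
          (((s m n : ℝ) : ℂ), ((A m n * (θ - gth d n) : ℝ) : ℂ))‖ ≤ _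
      rw [e3]
      exact hcon.le

end MuntzF
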