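import Pool.Agent.Lib.MP_dde81e_full.EDefs
import Pool.Agent.Lib.MP_dde81e_full.L2

/-!
Common lemmas for E7 and E9 (measure of the deep sets of lattice lines): compactness, double counting, growth.
-/

namespace MuntzF
open Set MeasureTheory

/-! ### growth -/

theorem EC_lam_pow (i N : ℕ) : (2 : ℝ) ^ (N * i) = lam i ^ (8000 * N) := by
  unfold lam
  rw [← Real.rpow_natCast ((2 : ℝ) ^ ((i : ℝ) / 8000)) (8000 * N), ← Real.rpow_mul (by norm_num),
    ← Real.rpow_natCast 2 (N * i)]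
  congr 1
  push_cast
  ring

theorem EC_lam_pos (i : ℕ) : 0 < lam i := by
  unfold lam
  positivity

theorem EC_lam_one (i : ℕ) : 1 ≤ lam i := by
  unfold lam
  exact Real.one_le_rpow (by norm_num) (by positivity)

theorem EC_lam_tendsto : Filter.Tendsto lam Filter.atTop Filter.atTop := by
  unfold lam
  have h1 : Filter.Tendsto (fun i : ℕ => (i : ℝ) / 8000) Filter.atTop Filter.atTop :=
    Filter.Tendsto.atTop_div_const (by norm_num) tendsto_natCast_atTop_atTop
  exact (tendsto_rpow_atTop_of_base_gt_one 2 (by norm_num)).comp h1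

theorem EC_exp (K c1 : ℝ) (hc : 0 < c1) (N : ℕ) : ∃ i1 : ℕ, ∀ i, i1 ≤ i →
    K * 2 ^ (N * i) * Real.exp (-(c1 * lam i)) ≤ 1 := by
  have h1 := Real.tendsto_pow_mul_exp_neg_atTop_nhds_zero (8000 * N)
  have h2 : Filter.Tendsto (fun i : ℕ => c1 * lam i) Filter.atTop Filter.atTop :=
    Filter.Tendsto.const_mul_atTop hc EC_lam_tendsto
  have h3 := (h1.comp h2).const_mul (K / c1 ^ (8000 * N))
  rw [mul_zero] at h3
  have h4 := h3.eventually (gt_mem_nhds (show (0 : ℝ) < 1 by norm_num))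
  obtain ⟨i1, h5⟩ := Filter.eventually_atTop.1 h4
  refine ⟨i1, fun i hi => ?_⟩
  have h6 := h5 i hi
  simp only [Function.comp] at h6
  rw [mul_pow] at h6
  rw [EC_lam_pow]
  refine le_of_eq_of_le ?_ h6.le
  have hc1 : c1 ^ (8000 * N) ≠ 0 := (pow_pos hc _).ne'
  field_simp

theorem EC_pow (K : ℝ) : ∃ i1 : ℕ, ∀ i, i1 ≤ i → K ≤ 2 ^ i := by
  obtain ⟨n, hn⟩ := pow_unbounded_of_one_lt K (by norm_num : (1 : ℝ) < 2)
  exact ⟨n, fun i hi => hn.le.trans (pow_le_pow_right₀ (by norm_num) hi)⟩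

/-! ### combinatorics -/

theorem EC_point {LL : Finset Ln} {S : Ln → Prop} [DecidablePred S] {P : Ln → ℝ → Prop}
    (hS : ∀ l ∈ LL, S l → ∃ x, P l x) {σ : ℝ} (hσ : 0 < σ) {M : ENNReal}
    (hM : ∀ Xs : Finset ℝ, (∀ x ∈ Xs, ∃ l ∈ LL, P l x) →
      (∀ x ∈ Xs, ∀ y ∈ Xs, x ≠ y → σ ≤ |x - y|) → (Xs.card : ENNReal) ≤ M)
    {A : Ln × Ln → Prop} [DecidablePred A]
    (hA : ∀ l ∈ LL, ∀ l' ∈ LL, l ≠ l' → (∃ x x', P l x ∧ P l' x' ∧ |x - x'| < σ) → A (l, l')) :
    ((LL.filter S).card : ENNReal) ≤ M + ((LL.offDiag.filter A).card : ENNReal) := by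
  classical
  choose! f hf using hS
  set T := LL.filter S with hT
  set T' := T.filter (fun l => ∀ l' ∈ T, l' ≠ l → σ ≤ |f l - f l'|) with hT'
  have hTf : ∀ l ∈ T, l ∈ LL ∧ P l (f l) := by
    intro l hl
    have := Finset.mem_filter.1 hl
    exact ⟨this.1, hf l this.1 this.2⟩
  have h1 : (T \ T').card ≤ (LL.offDiag.filter A).card := by
    have hex : ∀ l ∈ T \ T', ∃ l' ∈ T, l' ≠ l ∧ |f l - f l'| < σ := by
      intro l hl
      rw [Finset.mem_sdiff] at hl
      obtain ⟨hl1, hl2⟩ := hl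
      rw [hT', Finset.mem_filter, not_and] at hl2
      have := hl2 hl1
      push Not at this
      exact this
    choose! g hg using hex
    apply Finset.card_le_card_of_injOn (fun l => (l, g l))
    · intro l hl
      have hl' := Finset.mem_coe.1 hl
      have h2 := hg l hl'
      have hl1 := (Finset.mem_sdiff.1 hl').1
      rw [Finset.mem_coe, Finset.mem_filter, Finset.mem_offDiag]
      refine ⟨⟨(hTf l hl1).1, (hTf _ h2.1).1, h2.2.1.symm⟩, ?_⟩
      exact hA l (hTf l hl1).1 (g l) (hTf _ h2.1).1 h2.2.1.symm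
        ⟨f l, f (g l), (hTf l hl1).2, (hTf _ h2.1).2, h2.2.2⟩
    · intro a _ b _ hab
      exact (Prod.mk.injEq _ _ _ _ ▸ hab).1
  have hsep : ∀ a ∈ T', ∀ b ∈ T', a ≠ b → σ ≤ |f a - f b| := by
    intro a ha b hb hab
    exact (Finset.mem_filter.1 ha).2 b (Finset.mem_filter.1 hb).1 hab.symm
  have hinj : Set.InjOn f (T' : Set Ln) := by
    intro a ha b hb hab
    by_contra hne
    have := hsep a (Finset.mem_coe.1 ha) b (Finset.mem_coe.1 hb) hne
    rw [hab, sub_self, abs_zero] at this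
    linarith
  have h2 : (T'.card : ENNReal) ≤ M := by
    rw [← Finset.card_image_of_injOn hinj]
    apply hM
    · intro x hx
      rw [Finset.mem_image] at hx
      obtain ⟨l, hl, rfl⟩ := hx
      have := hTf l (Finset.mem_filter.1 hl).1
      exact ⟨l, this.1, this.2⟩
    · intro x hx y hy hxy
      rw [Finset.mem_image] at hx hy
      obtain ⟨a, ha, rfl⟩ := hx
      obtain ⟨b, hb, rfl⟩ := hy
      exact hsep a ha b hb (fun h => hxy (by rw [h]))
  have h3 : T.card ≤ T'.card + (LL.offDiag.filter A).card := by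
    have h4 : (T \ T').card + T'.card = T.card :=
      Finset.card_sdiff_add_card_eq_card (Finset.filter_subset _ _)
    omega
  calc (T.card : ENNReal) ≤ ((T'.card + (LL.offDiag.filter A).card : ℕ) : ENNReal) := by
        exact_mod_cast h3
    _ = (T'.card : ENNReal) + ((LL.offDiag.filter A).card : ENNReal) := by push_cast; rfl
    _ ≤ M + ((LL.offDiag.filter A).card : ENNReal) := by gcongr

/-! ### integration -/

theorem EC_int (LL : Finset Ln) (S : Ln → Set ℝ) (hS : ∀ l ∈ LL, MeasurableSet (S l)) {D Bad : Set ℝ}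
    (hD : MeasurableSet D) (hBad : MeasurableSet Bad) {g : ℝ → ENNReal} (hg : Measurable g)
    (e : ENNReal) (a : Ln × Ln → ℝ) (ρ : ℝ)
    (hyp : ∀ θ ∈ D, θ ∉ Bad → ∀ (_ : DecidablePred fun l => θ ∈ S l)
      (_ : DecidablePred fun p : Ln × Ln => |θ - a p| ≤ ρ),
      ((LL.filter (fun l => θ ∈ S l)).card : ENNReal) ≤
      g θ + e + ((LL.offDiag.filter (fun p => |θ - a p| ≤ ρ)).card : ENNReal)) :
    ∑ l ∈ LL, volume (S l ∩ D) ≤ (∫⁻ θ in D, g θ) + e * volume D +
      (LL.card : ENNReal) ^ 2 * ENNReal.ofReal (2 * ρ) + (LL.card : ENNReal) * volume Bad := by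
  classical
  have hI : ∀ p : Ln × Ln, MeasurableSet {θ : ℝ | |θ - a p| ≤ ρ} := by
    intro p
    exact (isClosed_le (by fun_prop) continuous_const).measurableSet
  have e1 : ∀ l ∈ LL, volume (S l ∩ D) = ∫⁻ θ in D, (S l).indicator 1 θ := by
    intro l hl
    rw [lintegral_indicator_one (hS l hl), Measure.restrict_apply (hS l hl)]
  rw [Finset.sum_congr rfl e1, ← lintegral_finset_sum' _ (fun l hl =>
    ((measurable_one.indicator (hS l hl)).aemeasurable))]
  have hpt : ∀ θ ∈ D, ∑ l ∈ LL, (S l).indicator (1 : ℝ → ENNReal) θ ≤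
      (g θ + e) + (∑ p ∈ LL.offDiag, {θ : ℝ | |θ - a p| ≤ ρ}.indicator (1 : ℝ → ENNReal) θ) +
        (LL.card : ENNReal) * Bad.indicator (1 : ℝ → ENNReal) θ := by
    intro θ hθ
    have e2 : ∑ l ∈ LL, (S l).indicator (1 : ℝ → ENNReal) θ =
        ((LL.filter (fun l => θ ∈ S l)).card : ENNReal) := by
      simp only [Set.indicator_apply, Pi.one_apply]
      rw [← Finset.sum_filter, Finset.sum_const, nsmul_eq_mul, mul_one]
    have e3 : ∑ p ∈ LL.offDiag, {θ : ℝ | |θ - a p| ≤ ρ}.indicator (1 : ℝ → ENNReal) θ =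
        ((LL.offDiag.filter (fun p => |θ - a p| ≤ ρ)).card : ENNReal) := by
      simp only [Set.indicator_apply, Pi.one_apply, mem_setOf_eq]
      rw [← Finset.sum_filter, Finset.sum_const, nsmul_eq_mul, mul_one]
    rw [e2, e3]
    by_cases hb : θ ∈ Bad
    · rw [Set.indicator_of_mem hb, Pi.one_apply, mul_one]
      refine le_trans ?_ le_add_self
      exact_mod_cast Finset.card_filter_le _ _
    · exact le_trans (hyp θ hθ hb inferInstance inferInstance) le_self_add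
  refine le_trans (setLIntegral_mono' hD hpt) ?_
  have m1 : Measurable fun θ => g θ + e := hg.add_const e
  have m2 : Measurable fun θ =>
      ∑ p ∈ LL.offDiag, {θ : ℝ | |θ - a p| ≤ ρ}.indicator (1 : ℝ → ENNReal) θ :=
    Finset.measurable_sum _ (fun p _ => measurable_one.indicator (hI p))
  have m12 : Measurable fun θ => g θ + e +
      ∑ p ∈ LL.offDiag, {θ : ℝ | |θ - a p| ≤ ρ}.indicator (1 : ℝ → ENNReal) θ := m1.add m2
  rw [lintegral_add_left m12, lintegral_add_left m1, lintegral_add_left hg,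
    setLIntegral_const, lintegral_finset_sum _ (fun p _ => measurable_one.indicator (hI p)),
    lintegral_const_mul _ (measurable_one.indicator hBad)]
  have b1 : ∑ p ∈ LL.offDiag, ∫⁻ θ in D, {θ : ℝ | |θ - a p| ≤ ρ}.indicator (1 : ℝ → ENNReal) θ ≤
      (LL.card : ENNReal) ^ 2 * ENNReal.ofReal (2 * ρ) := by
    calc ∑ p ∈ LL.offDiag, ∫⁻ θ in D, {θ : ℝ | |θ - a p| ≤ ρ}.indicator (1 : ℝ → ENNReal) θ
        ≤ ∑ p ∈ LL.offDiag, ENNReal.ofReal (2 * ρ) := by
          apply Finset.sum_le_sum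
          intro p _
          rw [lintegral_indicator_one (hI p)]
          refine le_trans (Measure.restrict_apply_le _ _) ?_
          have : {θ : ℝ | |θ - a p| ≤ ρ} ⊆ Icc (a p - ρ) (a p + ρ) := by
            intro θ hθ
            rw [mem_setOf_eq, abs_le] at hθ
            rw [mem_Icc]
            constructor <;> linarith [hθ.1, hθ.2]
          refine le_trans (measure_mono this) ?_
          rw [Real.volume_Icc]
          apply le_of_eq
          congr 1
          ring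
      _ = ((LL.offDiag.card : ℕ) : ENNReal) * ENNReal.ofReal (2 * ρ) := by
          rw [Finset.sum_const, nsmul_eq_mul]
      _ ≤ (LL.card : ENNReal) ^ 2 * ENNReal.ofReal (2 * ρ) := by
          gcongr
          have : LL.offDiag.card ≤ LL.card ^ 2 := by
            rw [Finset.offDiag_card, sq]
            exact Nat.sub_le _ _
          exact_mod_cast this
  have b2 : ∫⁻ θ in D, Bad.indicator (1 : ℝ → ENNReal) θ ≤ volume Bad := by
    rw [lintegral_indicator_one hBad]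
    exact Measure.restrict_apply_le _ _
  gcongr

/-! ### compactness -/

theorem EC_fj_cont {F : ℂ × ℂ → ℂ} {b0 : ℝ} (X : Ctx F b0) (j : ℕ) (d : ℕ × ℕ) :
    ContinuousOn (fun p : ℝ × ℝ => X.fj j d p.1 p.2) {p | 0 < p.1 ∧ 0 < p.2} := by
  unfold Ctx.fj
  have h1 : ContinuousOn (fun p : ℝ × ℝ => F ((p.1 : ℂ), (p.2 : ℂ))) {p | 0 < p.1 ∧ 0 < p.2} := by
    refine ContinuousOn.comp (t := {p : ℂ × ℂ | -1 < p.1.re ∧ -1 < p.2.re})
      X.env.hF.diff.continuousOn ?_ ?_
    · apply Continuous.continuousOn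
      fun_prop
    · intro p hp
      obtain ⟨h1, h2⟩ := hp
      constructor
      · show -1 < ((p.1 : ℂ)).re
        rw [Complex.ofReal_re]
        linarith
      · show -1 < ((p.2 : ℂ)).re
        rw [Complex.ofReal_re]
        linarith
  refine h1.norm.mul (Continuous.continuousOn ?_)
  fun_prop

/-- the set of pairs (slope, abscissa) at which the line is deep. -/
def KJ {F : ℂ × ℂ → ℂ} {b0 : ℝ} (X : Ctx F b0) (j : ℕ) (d : ℕ × ℕ) (l : Ln) : Set (ℝ × ℝ) :=
  {p | p ∈ st d ×ˢ Icc ((2 : ℝ) ^ j / 2) (4 * 2 ^ j) ∧ onl l p.2 (p.1 * p.2) ∧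
    X.fj j d p.2 (p.1 * p.2) ≤ Real.exp (-(hh (X.ij j d) * lam (X.ij j d) ^ 2 * 2 ^ j / 32))}

theorem EC_st_I1 {F : ℂ × ℂ → ℂ} {b0 : ℝ} (X : Ctx F b0) {j : ℕ} {d : ℕ × ℕ} (hw : X.win j d)
    {θ : ℝ} (hθ : θ ∈ st d) : θ ∈ I1 b0 := by
  have hb := X.env.cs.hb
  have h0 : 400 * b0 ≤ 2 ^ X.w0 := by
    have := X.hw0
    linarith
  have hp := L2_dl_pos d
  refine st_sub hb h0 hw.2.1 hw.2.2.1 ?_
  unfold st at hθ
  rw [mem_Icc] at hθ
  rw [abs_le]
  constructor <;> linarith [hθ.1, hθ.2]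

theorem EC_I1_pos {b0 θ : ℝ} (hb : 2 ≤ b0) (hθ : θ ∈ I1 b0) : 0 < θ ∧ θ ≤ 2 * b0 := by
  unfold I1 at hθ
  rw [mem_Icc] at hθ
  have : 0 < 1 / (2 * b0) := by positivity
  constructor <;> linarith [hθ.1, hθ.2]

theorem EC_KJ_compact {F : ℂ × ℂ → ℂ} {b0 : ℝ} (X : Ctx F b0) {j : ℕ} {d : ℕ × ℕ} (hw : X.win j d)
    (l : Ln) : IsCompact (KJ X j d l) := by
  set Q : Set (ℝ × ℝ) := st d ×ˢ Icc ((2 : ℝ) ^ j / 2) (4 * 2 ^ j) with hQ
  have hQc : IsCompact Q := isCompact_Icc.prod isCompact_Icc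
  have h1 : IsClosed {p ∈ Q | onl l p.2 (p.1 * p.2)} := by
    have : {p ∈ Q | onl l p.2 (p.1 * p.2)} = Q ∩ {p | (l.q : ℝ) * (p.1 * p.2) - l.p * p.2 = l.r} := rfl
    rw [this]
    exact hQc.isClosed.inter (isClosed_eq (by fun_prop) continuous_const)
  have h2 : IsClosed {p ∈ Q | X.fj j d p.2 (p.1 * p.2) ≤
      Real.exp (-(hh (X.ij j d) * lam (X.ij j d) ^ 2 * 2 ^ j / 32))} := by
    have hc : ContinuousOn (fun p : ℝ × ℝ => X.fj j d p.2 (p.1 * p.2)) Q := by
      refine ContinuousOn.comp (f := fun p : ℝ × ℝ => (p.2, p.1 * p.2))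
        (g := fun p : ℝ × ℝ => X.fj j d p.1 p.2) (EC_fj_cont X j d) (Continuous.continuousOn (by fun_prop)) ?_
      intro p hp
      obtain ⟨hp1, hp2⟩ := hp
      have h3 := (EC_I1_pos X.env.cs.hb (EC_st_I1 X hw hp1)).1
      have h4 : 0 < p.2 := by
        rw [mem_Icc] at hp2
        have : (0 : ℝ) < 2 ^ j / 2 := by positivity
        linarith [hp2.1]
      exact ⟨h4, mul_pos h3 h4⟩
    exact hc.preimage_isClosed_of_isClosed hQc.isClosed isClosed_Iic
  have h3 : KJ X j d l = {p ∈ Q | onl l p.2 (p.1 * p.2)} ∩ {p ∈ Q | X.fj j d p.2 (p.1 * p.2) ≤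
      Real.exp (-(hh (X.ij j d) * lam (X.ij j d) ^ 2 * 2 ^ j / 32))} := by
    ext p
    unfold KJ
    simp only [mem_ofPred_eq, mem_inter_iff]
    tauto
  rw [h3]
  refine hQc.of_isClosed_subset (h1.inter h2) ?_
  intro p hp
  exact hp.1.1

theorem EC_Dl {F : ℂ × ℂ → ℂ} {b0 : ℝ} (X : Ctx F b0) {j : ℕ} {d : ℕ × ℕ} (hw : X.win j d)
    (l : Ln) : MeasurableSet (DlJ X j d l) := by
  have : DlJ X j d l = Prod.fst '' KJ X j d l := by
    ext θ
    unfold DlJ KJ
    simp only [mem_ofPred_eq, mem_image, mem_prod, mem_Icc, Prod.exists, exists_and_right, exists_eq_right]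
    constructor
    · rintro ⟨h1, x, h2, h3, h4, h5⟩
      exact ⟨x, ⟨h1, h2, h3⟩, h4, h5⟩
    · rintro ⟨x, ⟨h1, h2, h3⟩, h4, h5⟩
      exact ⟨h1, x, h2, h3, h4, h5⟩
  rw [this]
  exact ((EC_KJ_compact X hw l).image continuous_fst).isClosed.measurableSet

theorem EC_El {F : ℂ × ℂ → ℂ} {b0 : ℝ} (X : Ctx F b0) {j : ℕ} {d : ℕ × ℕ} (hw : X.win j d)
    (l : Ln) : MeasurableSet (ElJ X j d l) := by
  have : ElJ X j d l = Prod.snd '' KJ X j d l := by
    ext x
    unfold ElJ KJ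
    simp only [mem_ofPred_eq, mem_image, mem_prod, mem_Icc, Prod.exists, exists_eq_right]
    constructor
    · rintro ⟨h1, h2, y, h3, h4, h5⟩
      have hx : 0 < x := by
        have : (0 : ℝ) < 2 ^ j / 2 := by positivity
        linarith
      have e : y / x * x = y := by field_simp
      refine ⟨y / x, ⟨h4, h1, h2⟩, ?_, ?_⟩
      · rw [e]
        exact h3
      · rw [e]
        exact h5
    · rintro ⟨θ, ⟨h1, h2, h3⟩, h4, h5⟩
      have hx : 0 < x := by
        have : (0 : ℝ) < 2 ^ j / 2 := by positivity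
        linarith
      refine ⟨h2, h3, θ * x, h4, ?_, h5⟩
      have : θ * x / x = θ := by field_simp
      rw [this]
      exact h1
  rw [this]
  exact ((EC_KJ_compact X hw l).image continuous_snd).isClosed.measurableSet

end MuntzF
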