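import Pool.Agent.Lib.MP_dde81e_full.E7A
import Pool.Agent.Lib.MP_dde81e_full.E7B
import Pool.Agent.Lib.MP_dde81e_full.E3
import Pool.Agent.Lib.MP_dde81e_full.E6
import Pool.Agent.Lib.MP_dde81e_full.ECom

/-!
Module E7 (text 5.4, EX).  V0 = 2^(21i), σ = V0^-10.  W.l.o.g. every l ∈ LL has a point in the sector (otherwise DlJ is empty): LL.card ≤ C V0^3 R (lines_card).  DlJ is closed (projection of a compact set).
Pointwise for θ ∈ Icc u v not in Bad: #{l : θ ∈ DlJ l} ≤ (leaf_count for a maximal σ-separated set of the points x_l) + #{(l,l') : l ≠ l', points σ-close}.  Integrate over Icc u v (kap is measurable: kap_measurable);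
pairs: (C V0^3 R)² · 2 C V0² σ/R ≤ C V0^-2 R; on Bad: #LL · vol Bad; (C R/σ) exp(-c1 λ) · (v-u).  All errors ≤ h^9 R/.. for i large (exp(-c λ) ≤ h^1000, λ = 2^(i/8000)).
-/

namespace MuntzF
open Set MeasureTheory

theorem E7_half_pow (i n : ℕ) : (1 / 2 : ℝ) ^ (n * i) * 2 ^ (n * i) = 1 := by
  rw [← mul_pow]
  norm_num

theorem ex {F : ℂ × ℂ → ℂ} {b0 : ℝ} (X : Ctx F b0) : ∃ (C : ℝ) (i1 : ℕ), 0 < C ∧
    ∀ (j : ℕ) (d : ℕ × ℕ) (u v : ℝ) (LL : Finset Ln), X.win j d → i1 ≤ X.ij j d → u ∈ st d → v ∈ st d →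
      (∀ l ∈ LL, ht l ≤ 2 ^ (21 * X.ij j d)) →
      ∑ l ∈ LL, volume (DlJ X j d l ∩ Icc u v) ≤
        ENNReal.ofReal (C * 2 ^ j) * (∫⁻ θ in Icc u v, kap F j θ)
          + ENNReal.ofReal (hh (X.ij j d) ^ 9 * 2 ^ j) := by
  classical
  have hb := X.env.cs.hb
  obtain ⟨Ca, ca, ia, hCa, hca, Hleaf⟩ := leaf_count X
  obtain ⟨Cb, cb, ib, hCb, hcb, Hbad⟩ := bad_slopes X
  obtain ⟨Cl, hCl, Hlines⟩ := lines_card (8 * b0) (by linarith)
  obtain ⟨Cp, hCp, Hpairs⟩ := pairs_leaf b0 hb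
  obtain ⟨n1, G1⟩ := EC_exp (4 * Ca) ca hca 219
  obtain ⟨n2, G2⟩ := EC_exp (4 * (Cl * Cb)) cb hcb 72
  obtain ⟨n3, G3⟩ := EC_pow (8 * (Cl ^ 2 * Cp))
  obtain ⟨n4, G4⟩ := EC_pow Cp
  refine ⟨Ca, ia + ib + n1 + n2 + n3 + n4, hCa, ?_⟩
  intro j d u v LL hw hi hu hv hht
  set i := X.ij j d with hidef
  set R : ℝ := 2 ^ j with hR
  have hR1 : 1 ≤ R := one_le_pow₀ (by norm_num)
  have hR0 : 0 < R := by linarith
  set σ : ℝ := (1 / 2) ^ (210 * i) with hσ
  have hσ0 : 0 < σ := by positivity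
  have hσ1 : σ ≤ 1 := pow_le_one₀ (by norm_num) (by norm_num)
  set V0 : ℝ := 2 ^ (21 * i) with hV0
  have hV1 : 1 ≤ V0 := one_le_pow₀ (by norm_num)
  have hst : ∀ θ ∈ Icc u v, θ ∈ st d := by
    intro θ hθ
    unfold st at hu hv ⊢
    rw [mem_Icc] at hu hv hθ ⊢
    constructor <;> linarith [hu.1, hv.2, hθ.1, hθ.2]
  set LL' := LL.filter (fun l => (DlJ X j d l).Nonempty) with hLL'
  have hsumeq : ∑ l ∈ LL, volume (DlJ X j d l ∩ Icc u v) = ∑ l ∈ LL', volume (DlJ X j d l ∩ Icc u v) := by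
    rw [hLL', Finset.sum_filter]
    apply Finset.sum_congr rfl
    intro l _
    split_ifs with h
    · rfl
    · rw [Set.not_nonempty_iff_eq_empty] at h
      rw [h, Set.empty_inter, measure_empty]
  rw [hsumeq]
  have hht' : ∀ l ∈ LL', ht l ≤ V0 := fun l hl => hht l (Finset.mem_filter.1 hl).1
  have hcard : (LL'.card : ℝ) ≤ Cl * V0 ^ 3 * R := by
    apply Hlines V0 R LL' hV1 hR1
    intro l hl
    refine ⟨hht' l hl, ?_⟩
    obtain ⟨θ, h1, x, h2, h3, h4, h5⟩ := (Finset.mem_filter.1 hl).2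
    have hI := EC_st_I1 X hw h1
    obtain ⟨h6, h7⟩ := EC_I1_pos hb hI
    have hx0 : 0 < x := by
      have : 0 < R / 2 := by positivity
      linarith
    refine ⟨x, θ * x, ?_, ?_, h4⟩
    · rw [abs_of_pos hx0]
      nlinarith
    · rw [abs_of_pos (mul_pos h6 hx0)]
      calc θ * x ≤ (2 * b0) * (4 * R) := mul_le_mul h7 h3 hx0.le (by linarith)
        _ = 8 * b0 * R := by ring
  -- the bad set
  obtain ⟨Bad, hBm, hBv, hBg⟩ := Hbad j d hw (by omega)
  obtain ⟨g, hgm, hgk⟩ := kap_measurable X.env.hF hb j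
  -- the centres of the pairs
  have hσV : σ * V0 ^ 3 * Cp ≤ 1 := by
    have e1 : σ * V0 ^ 3 * 2 ^ (147 * i) = 1 := by
      rw [hσ, hV0, ← pow_mul]
      rw [show (1 / 2 : ℝ) ^ (210 * i) * 2 ^ (21 * i * 3) * 2 ^ (147 * i) =
        (1 / 2 : ℝ) ^ (210 * i) * (2 ^ (21 * i * 3) * 2 ^ (147 * i)) by ring, ← pow_add,
        show 21 * i * 3 + 147 * i = 210 * i by ring]
      exact E7_half_pow i 210
    have e2 : Cp ≤ 2 ^ (147 * i) :=
      (G4 i (by omega)).trans (pow_le_pow_right₀ (by norm_num) (by omega))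
    calc σ * V0 ^ 3 * Cp ≤ σ * V0 ^ 3 * 2 ^ (147 * i) :=
          mul_le_mul_of_nonneg_left e2 (by positivity)
      _ = 1 := e1
  have hex : ∀ p : Ln × Ln, ∃ a : ℝ, p.1 ∈ LL' → p.2 ∈ LL' → p.1 ≠ p.2 → ∀ θ ∈ I1 b0,
      (∃ x x' : ℝ, R / 2 ≤ x ∧ x ≤ 4 * R ∧ R / 2 ≤ x' ∧ x' ≤ 4 * R ∧
      onl p.1 x (θ * x) ∧ onl p.2 x' (θ * x') ∧ |x - x'| < σ) → |θ - a| ≤ Cp * V0 ^ 2 * σ / R := by
    intro p
    by_cases h : p.1 ∈ LL' ∧ p.2 ∈ LL' ∧ p.1 ≠ p.2
    · obtain ⟨a, ha⟩ := Hpairs V0 R σ p.1 p.2 hV1 hR1 hσ0 hσV (hht' _ h.1) (hht' _ h.2.1) h.2.2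
      exact ⟨a, fun _ _ _ => ha⟩
    · exact ⟨0, fun h1 h2 h3 => absurd ⟨h1, h2, h3⟩ h⟩
  choose a ha using hex
  set ρ : ℝ := Cp * V0 ^ 2 * σ / R with hρ
  set e : ENNReal := ENNReal.ofReal (Ca * (R / σ) * Real.exp (-(ca * lam i))) with he
  have hmain := EC_int LL' (fun l => DlJ X j d l) (fun l _ => EC_Dl X hw l) (D := Icc u v) (Bad := Bad)
    measurableSet_Icc hBm (g := fun θ => ENNReal.ofReal (Ca * R) * g θ) (hgm.const_mul _) e a ρ (by
      intro θ hθ hθB _ _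
      have hθs := hst θ hθ
      have hθI := EC_st_I1 X hw hθs
      refine EC_point (P := fun l x => R / 2 ≤ x ∧ x ≤ 4 * R ∧ onl l x (θ * x) ∧
        X.fj j d x (θ * x) ≤ Real.exp (-(hh i * lam i ^ 2 * R / 32))) ?_ hσ0 ?_ ?_
      · intro l _ hl
        obtain ⟨_, x, h2, h3, h4, h5⟩ := hl
        exact ⟨x, h2, h3, h4, h5⟩
      · intro Xs hXs hsep
        have := Hleaf j d θ σ Xs hw (by omega) hθs hσ0 hσ1 (hBg θ hθs hθB) (by
          intro x hx
          obtain ⟨l, _, h2, h3, h4, h5⟩ := hXs x hx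
          exact ⟨h2, h3, h5⟩) hsep
        rw [hgk θ hθI] at this
        exact this
      · intro l hl l' hl' hne hxx
        obtain ⟨x, x', ⟨h1, h2, h3, h4⟩, ⟨h5, h6, h7, h8⟩, h9⟩ := hxx
        exact ha (l, l') hl hl' hne θ hθI ⟨x, x', h1, h2, h5, h6, h3, h7, h9⟩)
  refine le_trans hmain ?_
  -- the main term
  have t1 : ∫⁻ θ in Icc u v, ENNReal.ofReal (Ca * R) * g θ =
      ENNReal.ofReal (Ca * R) * ∫⁻ θ in Icc u v, kap F j θ := by
    rw [lintegral_const_mul _ hgm]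
    congr 1
    apply setLIntegral_congr_fun measurableSet_Icc
    intro θ hθ
    exact (hgk θ (EC_st_I1 X hw (hst θ hθ))).symm
  have hh9 : hh i ^ 9 = (1 / 2) ^ (9 * i) := by
    unfold hh
    rw [← pow_mul, mul_comm]
  set Q : ℝ := (1 / 2) ^ (9 * i) * R / 4 with hQ
  have hQ0 : 0 ≤ Q := by positivity
  -- the term with e
  have t2 : e * volume (Icc u v) ≤ ENNReal.ofReal Q := by
    have hvol : volume (Icc u v) ≤ 1 := by
      rw [Real.volume_Icc]
      have hd1 : 4 * dl d ≤ 1 := by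
        have h1 := L2_dl_le hw.2.1
        have h2 : dl d * (4000 * b0) ≤ 1 :=
          (mul_le_mul_of_nonneg_left X.hw0 (L2_dl_pos d).le).trans h1
        have h3 := L2_dl_pos d
        nlinarith
      unfold st at hu hv
      rw [mem_Icc] at hu hv
      calc ENNReal.ofReal (v - u) ≤ ENNReal.ofReal 1 := by
            apply ENNReal.ofReal_le_ofReal
            linarith [hu.1, hu.2, hv.1, hv.2]
        _ = 1 := ENNReal.ofReal_one
    calc e * volume (Icc u v) ≤ e * 1 := by gcongr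
      _ = e := mul_one e
      _ ≤ ENNReal.ofReal Q := by
        rw [he]
        apply ENNReal.ofReal_le_ofReal
        have h1 := G1 i (by omega)
        have e1 : R / σ = R * 2 ^ (210 * i) := by
          rw [div_eq_iff hσ0.ne', mul_assoc, mul_comm ((2 : ℝ) ^ (210 * i)), hσ, E7_half_pow, mul_one]
        have e2 : (2 : ℝ) ^ (219 * i) * (1 / 2) ^ (9 * i) = 2 ^ (210 * i) := by
          rw [show 219 * i = 210 * i + 9 * i by ring, pow_add, mul_assoc, mul_comm ((2 : ℝ) ^ (9 * i)),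
            E7_half_pow, mul_one]
        rw [e1, ← e2, hQ]
        calc Ca * (R * (2 ^ (219 * i) * (1 / 2) ^ (9 * i))) * Real.exp (-(ca * lam i))
            = (4 * Ca * 2 ^ (219 * i) * Real.exp (-(ca * lam i))) * ((1 / 2) ^ (9 * i) * R / 4) := by ring
          _ ≤ 1 * ((1 / 2) ^ (9 * i) * R / 4) := mul_le_mul_of_nonneg_right h1 (by positivity)
          _ = (1 / 2) ^ (9 * i) * R / 4 := one_mul _
  -- the pairs
  have hρ0 : 0 ≤ ρ := by positivity
  have hcc : (LL'.card : ENNReal) = ENNReal.ofReal (LL'.card : ℝ) := by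
    rw [ENNReal.ofReal_natCast]
  have t3 : (LL'.card : ENNReal) ^ 2 * ENNReal.ofReal (2 * ρ) ≤ ENNReal.ofReal Q := by
    rw [hcc, ← ENNReal.ofReal_pow (by positivity), ← ENNReal.ofReal_mul (by positivity)]
    apply ENNReal.ofReal_le_ofReal
    have h1 : (LL'.card : ℝ) ^ 2 ≤ (Cl * V0 ^ 3 * R) ^ 2 := pow_le_pow_left₀ (by positivity) hcard 2
    have h2 := G3 i (by omega)
    have e1 : V0 ^ 8 * σ * 2 ^ (42 * i) = 1 := by
      rw [hσ, hV0, ← pow_mul, show (2 : ℝ) ^ (21 * i * 8) * (1 / 2) ^ (210 * i) * 2 ^ (42 * i) =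
        (1 / 2) ^ (210 * i) * (2 ^ (21 * i * 8) * 2 ^ (42 * i)) by ring, ← pow_add,
        show 21 * i * 8 + 42 * i = 210 * i by ring]
      exact E7_half_pow i 210
    have e2 : V0 ^ 8 * σ * 2 ^ (33 * i) = (1 / 2) ^ (9 * i) := by
      have h3 : V0 ^ 8 * σ * 2 ^ (33 * i) * 2 ^ (9 * i) = 1 := by
        rw [mul_assoc, ← pow_add, show 33 * i + 9 * i = 42 * i by ring]
        exact e1
      have h4 := E7_half_pow i 9
      have h5 : (0 : ℝ) < 2 ^ (9 * i) := by positivity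
      exact mul_right_cancel₀ h5.ne' (h3.trans h4.symm)
    calc (LL'.card : ℝ) ^ 2 * (2 * ρ) ≤ (Cl * V0 ^ 3 * R) ^ 2 * (2 * ρ) :=
          mul_le_mul_of_nonneg_right h1 (by positivity)
      _ = (8 * (Cl ^ 2 * Cp)) * (V0 ^ 8 * σ) * (R / 4) := by
          rw [hρ]
          field_simp
          norm_num
      _ ≤ 2 ^ (33 * i) * (V0 ^ 8 * σ) * (R / 4) := by
          apply mul_le_mul_of_nonneg_right _ (by positivity)
          apply mul_le_mul_of_nonneg_right _ (by positivity)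
          exact h2.trans (pow_le_pow_right₀ (by norm_num) (by omega))
      _ = (V0 ^ 8 * σ * 2 ^ (33 * i)) * (R / 4) := by ring
      _ = Q := by
          rw [e2, hQ]
          ring
  -- the bad set
  have t4 : (LL'.card : ENNReal) * volume Bad ≤ ENNReal.ofReal Q := by
    calc (LL'.card : ENNReal) * volume Bad
        ≤ ENNReal.ofReal (LL'.card : ℝ) * ENNReal.ofReal (Cb * Real.exp (-(cb * lam i))) := by
          rw [hcc]
          gcongr
      _ = ENNReal.ofReal ((LL'.card : ℝ) * (Cb * Real.exp (-(cb * lam i)))) := by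
          rw [← ENNReal.ofReal_mul (by positivity)]
      _ ≤ ENNReal.ofReal Q := by
          apply ENNReal.ofReal_le_ofReal
          have h1 := G2 i (by omega)
          have e1 : V0 ^ 3 = 2 ^ (72 * i) * (1 / 2) ^ (9 * i) := by
            rw [show 72 * i = 63 * i + 9 * i by ring, pow_add, mul_assoc, mul_comm ((2 : ℝ) ^ (9 * i)),
              E7_half_pow, mul_one, hV0, ← pow_mul]
            congr 1
            ring
          calc (LL'.card : ℝ) * (Cb * Real.exp (-(cb * lam i)))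
              ≤ (Cl * V0 ^ 3 * R) * (Cb * Real.exp (-(cb * lam i))) :=
                mul_le_mul_of_nonneg_right hcard (by positivity)
            _ = (4 * (Cl * Cb) * 2 ^ (72 * i) * Real.exp (-(cb * lam i))) *
                ((1 / 2) ^ (9 * i) * R / 4) := by
                rw [e1]
                ring
            _ ≤ 1 * ((1 / 2) ^ (9 * i) * R / 4) := mul_le_mul_of_nonneg_right h1 (by positivity)
            _ = Q := by rw [one_mul]
  rw [t1]
  calc ENNReal.ofReal (Ca * R) * (∫⁻ θ in Icc u v, kap F j θ) + e * volume (Icc u v) +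
        (LL'.card : ENNReal) ^ 2 * ENNReal.ofReal (2 * ρ) + (LL'.card : ENNReal) * volume Bad
      ≤ ENNReal.ofReal (Ca * R) * (∫⁻ θ in Icc u v, kap F j θ) + ENNReal.ofReal Q +
        ENNReal.ofReal Q + ENNReal.ofReal Q := by gcongr
    _ = ENNReal.ofReal (Ca * R) * (∫⁻ θ in Icc u v, kap F j θ) + ENNReal.ofReal (Q + Q + Q) := by
        rw [ENNReal.ofReal_add (by positivity) hQ0, ENNReal.ofReal_add hQ0 hQ0]
        ring
    _ ≤ ENNReal.ofReal (Ca * R) * (∫⁻ θ in Icc u v, kap F j θ) + ENNReal.ofReal (hh i ^ 9 * R) := by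
        gcongr
        rw [hh9, hQ]
        have : (0 : ℝ) ≤ (1 / 2) ^ (9 * i) * R := by positivity
        linarith

end MuntzF
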