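import Pool.Agent.Lib.MP_dde81e_full.E9A
import Pool.Agent.Lib.MP_dde81e_full.E6
import Pool.Agent.Lib.MP_dde81e_full.ECom

/-!
Module E9 (text 5.6, NR).  As in E7 with vertical slices: V0 = 2^(21i), σ = V0^-10, ElJ closed, pairs_vert: (C V0^3 R)² 2σV0² ≤ C V0^-2 R².  Bad: #LL·vol Bad.
-/

namespace MuntzF
open Set MeasureTheory

theorem E9_half_pow (i n : ℕ) : (1 / 2 : ℝ) ^ (n * i) * 2 ^ (n * i) = 1 := by
  rw [← mul_pow]
  norm_num

/-- the grid of abscissas covers. -/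
theorem E9_grid {j : ℕ} {x : ℝ} (h1 : (2 : ℝ) ^ j / 2 ≤ x) (h2 : x ≤ 4 * 2 ^ j) :
    ∃ m, m ≤ 18 ∧ |x - gx j m| ≤ gx j m / 8 := by
  classical
  have hR : (0 : ℝ) < 2 ^ j / 2 := by positivity
  set P : ℕ → Prop := fun m => x ≤ gx j (m + 1) with hP
  have hex : ∃ m, P m := by
    refine ⟨18, ?_⟩
    show x ≤ gx j 19
    unfold gx
    have : (8 : ℝ) ≤ (9 / 8) ^ 19 := by norm_num
    nlinarith
  have hm := Nat.find_spec hex
  set m := Nat.find hex with hmd
  have hm18 : m ≤ 18 := by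
    apply Nat.find_min'
    show x ≤ gx j 19
    unfold gx
    have : (8 : ℝ) ≤ (9 / 8) ^ 19 := by norm_num
    nlinarith
  have hlow : gx j m ≤ x := by
    rcases Nat.eq_zero_or_pos m with h0 | h0
    · rw [h0]
      unfold gx
      rw [pow_zero, mul_one]
      exact h1
    · have := Nat.find_min hex (m := m - 1) (by omega)
      rw [hP] at this
      simp only at this
      rw [show m - 1 + 1 = m by omega, not_le] at this
      exact this.le
  refine ⟨m, hm18, ?_⟩
  have hs : gx j (m + 1) = gx j m * (9 / 8) := by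
    unfold gx
    rw [pow_succ]
    ring
  have hm' : x ≤ gx j m * (9 / 8) := by
    rw [← hs]
    exact hm
  rw [abs_le]
  constructor
  · have : 0 < gx j m := by
      unfold gx
      positivity
    linarith
  · linarith

theorem nr {F : ℂ × ℂ → ℂ} {b0 : ℝ} (X : Ctx F b0) : ∃ (C : ℝ) (i1 : ℕ), 0 < C ∧
    ∀ (j : ℕ) (d : ℕ × ℕ) (LL : Finset Ln), X.win j d → i1 ≤ X.ij j d →
      (∀ l ∈ LL, ht l ≤ 2 ^ (21 * X.ij j d) ∧ l.q ≠ 0) →
      ∑ l ∈ LL, volume (ElJ X j d l) ≤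
        ENNReal.ofReal (C * hh (X.ij j d) * lam (X.ij j d) * 4 ^ j) := by
  classical
  have hb := X.env.cs.hb
  obtain ⟨Cb, cb, ib, hCb, hcb, Hbad⟩ := bad_absc X
  obtain ⟨Ca, ca, ia, hCa, hca, Hvert⟩ := vert_count X
  obtain ⟨Cl, hCl, Hlines⟩ := lines_card (8 * b0) (by linarith)
  obtain ⟨n1, G1⟩ := EC_exp (4 * Ca) ca hca 211
  obtain ⟨n2, G2⟩ := EC_exp (Cl * Cb) cb hcb 64
  obtain ⟨n3, G3⟩ := EC_pow (2 * Cl ^ 2)
  refine ⟨4 * Ca + 3, ia + ib + n1 + n2 + n3 + 1, by positivity, ?_⟩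
  intro j d LL hw hi hht
  set i := X.ij j d with hidef
  have hi1 : 1 ≤ i := by omega
  set R : ℝ := 2 ^ j with hR
  have hR1 : 1 ≤ R := one_le_pow₀ (by norm_num)
  have hR0 : 0 < R := by linarith
  have h4 : (4 : ℝ) ^ j = R ^ 2 := by
    rw [hR, ← pow_mul, mul_comm j 2, pow_mul]
    norm_num
  set σ : ℝ := (1 / 2) ^ (210 * i) with hσ
  have hσ0 : 0 < σ := by positivity
  have hσ1 : σ ≤ 1 := pow_le_one₀ (by norm_num) (by norm_num)
  set V0 : ℝ := 2 ^ (21 * i) with hV0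
  have hV1 : 1 ≤ V0 := one_le_pow₀ (by norm_num)
  set D : Set ℝ := Icc (R / 2) (4 * R) with hD
  have hED : ∀ l, ElJ X j d l ⊆ D := by
    intro l x hx
    obtain ⟨h1, h2, _⟩ := hx
    exact ⟨h1, h2⟩
  set LL' := LL.filter (fun l => (ElJ X j d l).Nonempty) with hLL'
  have hsumeq : ∑ l ∈ LL, volume (ElJ X j d l) = ∑ l ∈ LL', volume (ElJ X j d l ∩ D) := by
    rw [hLL', Finset.sum_filter]
    apply Finset.sum_congr rfl
    intro l _
    split_ifs with h
    · rw [Set.inter_eq_self_of_subset_left (hED l)]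
    · rw [Set.not_nonempty_iff_eq_empty] at h
      rw [h, measure_empty]
  rw [hsumeq]
  have hht' : ∀ l ∈ LL', ht l ≤ V0 := fun l hl => (hht l (Finset.mem_filter.1 hl).1).1
  have hq' : ∀ l ∈ LL', l.q ≠ 0 := fun l hl => (hht l (Finset.mem_filter.1 hl).1).2
  have hcard : (LL'.card : ℝ) ≤ Cl * V0 ^ 3 * R := by
    apply Hlines V0 R LL' hV1 hR1
    intro l hl
    refine ⟨hht' l hl, ?_⟩
    obtain ⟨x, h2, h3, y, h4, h5, h6⟩ := (Finset.mem_filter.1 hl).2
    have hI := EC_st_I1 X hw h5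
    obtain ⟨h6, h7⟩ := EC_I1_pos hb hI
    have hx0 : 0 < x := by
      have : 0 < R / 2 := by positivity
      linarith
    refine ⟨x, y, ?_, ?_, h4⟩
    · rw [abs_of_pos hx0]
      nlinarith
    · have hy : y = (y / x) * x := by field_simp
      rw [hy, abs_of_pos (mul_pos h6 hx0)]
      calc (y / x) * x ≤ (2 * b0) * (4 * R) := mul_le_mul h7 h3 hx0.le (by linarith)
        _ = 8 * b0 * R := by ring
  obtain ⟨Bad, hBm, hBv, hBg⟩ := Hbad j d hw (by omega)
  have hσV : σ * V0 < 1 := by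
    have e1 : σ * V0 = (1 / 2) ^ (189 * i) := by
      rw [hσ, hV0, show 210 * i = 189 * i + 21 * i by ring, pow_add, mul_assoc, E9_half_pow, mul_one]
    rw [e1]
    exact pow_lt_one₀ (by norm_num) (by norm_num) (by omega)
  have hex : ∀ p : Ln × Ln, ∃ a : ℝ, p.1 ∈ LL' → p.2 ∈ LL' → p.1 ≠ p.2 → ∀ x : ℝ,
      (∃ y y' : ℝ, onl p.1 x y ∧ onl p.2 x y' ∧ |y - y'| < σ) → |x - a| ≤ σ * V0 ^ 2 := by
    intro p
    by_cases h : p.1 ∈ LL' ∧ p.2 ∈ LL' ∧ p.1 ≠ p.2
    · obtain ⟨a, ha⟩ := pairs_vert V0 σ p.1 p.2 hV1 hσ0 hσV (hht' _ h.1) (hht' _ h.2.1) h.2.2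
        (hq' _ h.1) (hq' _ h.2.1)
      exact ⟨a, fun _ _ _ => ha⟩
    · exact ⟨0, fun h1 h2 h3 => absurd ⟨h1, h2, h3⟩ h⟩
  choose a ha using hex
  set ρ : ℝ := σ * V0 ^ 2 with hρ
  set e1r : ℝ := Ca * hh i * lam i * R with he1
  set e2r : ℝ := Ca * (R / σ) * Real.exp (-(ca * lam i)) with he2
  have hhp : 0 < hh i := by
    unfold hh
    positivity
  have hlp := EC_lam_pos i
  have hl1 := EC_lam_one i
  have he10 : 0 ≤ e1r := by positivity
  have he20 : 0 ≤ e2r := by positivity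
  have hmain := EC_int LL' (fun l => ElJ X j d l) (fun l _ => EC_El X hw l) (D := D) (Bad := Bad)
    measurableSet_Icc hBm (g := fun _ => 0) measurable_const (ENNReal.ofReal (e1r + e2r)) a ρ (by
      intro x hx hxB _ _
      rw [zero_add]
      have hx' := hx
      rw [hD, mem_Icc] at hx'
      obtain ⟨m, hm, hxm⟩ := E9_grid hx'.1 hx'.2
      refine EC_point (P := fun l y => onl l x y ∧ y / x ∈ st d ∧
        X.fj j d x y ≤ Real.exp (-(hh i * lam i ^ 2 * R / 32))) ?_ hσ0 ?_ ?_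
      · intro l _ hl
        obtain ⟨_, _, y, h3, h4, h5⟩ := hl
        exact ⟨y, h3, h4, h5⟩
      · intro Ys hYs hsep
        have := Hvert j d x σ m Ys hw (by omega) hσ0 hσ1 hm hxm (by
          intro n hn
          exact hBg x hxB m n hm hn hxm) (by
          intro y hy
          obtain ⟨l, _, h3, h4, h5⟩ := hYs y hy
          exact ⟨h4, h5⟩) hsep
        rw [← ENNReal.ofReal_natCast]
        exact ENNReal.ofReal_le_ofReal this
      · intro l hl l' hl' hne hxx
        obtain ⟨y, y', ⟨h1, h2, h3⟩, ⟨h5, h6, h7⟩, h9⟩ := hxx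
        exact ha (l, l') hl hl' hne x ⟨y, y', h1, h5, h9⟩)
  refine le_trans hmain ?_
  rw [lintegral_zero, zero_add]
  have hvol : volume D = ENNReal.ofReal (7 / 2 * R) := by
    rw [hD, Real.volume_Icc]
    congr 1
    ring
  have hcc : (LL'.card : ENNReal) = ENNReal.ofReal (LL'.card : ℝ) := by
    rw [ENNReal.ofReal_natCast]
  set Q : ℝ := hh i * lam i * R ^ 2 with hQ
  have hQ0 : 0 ≤ Q := by positivity
  have hhe : hh i = (1 / 2) ^ i := rfl
  have hh1 : hh i * 2 ^ i = 1 := by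
    rw [hhe, ← mul_pow]
    norm_num
  have t2 : ENNReal.ofReal (e1r + e2r) * volume D ≤ ENNReal.ofReal (4 * Ca * Q + Q) := by
    rw [hvol, ← ENNReal.ofReal_mul (by positivity)]
    apply ENNReal.ofReal_le_ofReal
    have h1 := G1 i (by omega)
    have f1 : e1r * (7 / 2 * R) ≤ 4 * Ca * Q := by
      rw [he1, hQ]
      have : 0 ≤ Ca * hh i * lam i * R ^ 2 := by positivity
      nlinarith
    have f2 : e2r * (7 / 2 * R) ≤ Q := by
      have e1 : R / σ = R * 2 ^ (210 * i) := by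
        rw [div_eq_iff hσ0.ne', mul_assoc, mul_comm ((2 : ℝ) ^ (210 * i)), hσ, E9_half_pow, mul_one]
      have e2 : (2 : ℝ) ^ (211 * i) * hh i = 2 ^ (210 * i) := by
        rw [show 211 * i = 210 * i + i by ring, pow_add, mul_assoc, mul_comm ((2 : ℝ) ^ i), hh1, mul_one]
      rw [he2, e1, ← e2, hQ]
      calc Ca * (R * (2 ^ (211 * i) * hh i)) * Real.exp (-(ca * lam i)) * (7 / 2 * R)
          = (4 * Ca * 2 ^ (211 * i) * Real.exp (-(ca * lam i))) * (hh i * 1 * R ^ 2 * (7 / 8)) := by ring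
        _ ≤ 1 * (hh i * 1 * R ^ 2 * (7 / 8)) := mul_le_mul_of_nonneg_right h1 (by positivity)
        _ ≤ hh i * lam i * R ^ 2 := by
          have h2 : hh i * 1 * R ^ 2 ≤ hh i * lam i * R ^ 2 := by
            apply mul_le_mul_of_nonneg_right _ (by positivity)
            exact mul_le_mul_of_nonneg_left hl1 hhp.le
          have h3 : 0 ≤ hh i * 1 * R ^ 2 := by positivity
          linarith
    calc (e1r + e2r) * (7 / 2 * R) = e1r * (7 / 2 * R) + e2r * (7 / 2 * R) := by ring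
      _ ≤ 4 * Ca * Q + Q := add_le_add f1 f2
  have hR2 : hh i * 1 * R ^ 2 ≤ Q := by
    rw [hQ]
    apply mul_le_mul_of_nonneg_right _ (by positivity)
    exact mul_le_mul_of_nonneg_left hl1 hhp.le
  have t3 : (LL'.card : ENNReal) ^ 2 * ENNReal.ofReal (2 * ρ) ≤ ENNReal.ofReal Q := by
    rw [hcc, ← ENNReal.ofReal_pow (by positivity), ← ENNReal.ofReal_mul (by positivity)]
    apply ENNReal.ofReal_le_ofReal
    have h1 : (LL'.card : ℝ) ^ 2 ≤ (Cl * V0 ^ 3 * R) ^ 2 := pow_le_pow_left₀ (by positivity) hcard 2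
    have h2 := G3 i (by omega)
    have e1 : V0 ^ 8 * σ * 2 ^ (42 * i) = 1 := by
      rw [hσ, hV0, ← pow_mul, show (2 : ℝ) ^ (21 * i * 8) * (1 / 2) ^ (210 * i) * 2 ^ (42 * i) =
        (1 / 2) ^ (210 * i) * (2 ^ (21 * i * 8) * 2 ^ (42 * i)) by ring, ← pow_add,
        show 21 * i * 8 + 42 * i = 210 * i by ring]
      exact E9_half_pow i 210
    have e2 : V0 ^ 8 * σ * 2 ^ (41 * i) = hh i := by
      have h3 : V0 ^ 8 * σ * 2 ^ (41 * i) * 2 ^ i = 1 := by
        rw [mul_assoc, ← pow_add, show 41 * i + i = 42 * i by ring]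
        exact e1
      have h5 : (0 : ℝ) < 2 ^ i := by positivity
      exact mul_right_cancel₀ h5.ne' (h3.trans hh1.symm)
    calc (LL'.card : ℝ) ^ 2 * (2 * ρ) ≤ (Cl * V0 ^ 3 * R) ^ 2 * (2 * ρ) :=
          mul_le_mul_of_nonneg_right h1 (by positivity)
      _ = (2 * Cl ^ 2) * (V0 ^ 8 * σ) * R ^ 2 := by
          rw [hρ]
          ring
      _ ≤ 2 ^ (41 * i) * (V0 ^ 8 * σ) * R ^ 2 := by
          apply mul_le_mul_of_nonneg_right _ (by positivity)
          apply mul_le_mul_of_nonneg_right _ (by positivity)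
          exact h2.trans (pow_le_pow_right₀ (by norm_num) (by omega))
      _ = (V0 ^ 8 * σ * 2 ^ (41 * i)) * R ^ 2 := by ring
      _ = hh i * 1 * R ^ 2 := by
          rw [e2]
          ring
      _ ≤ Q := hR2
  have t4 : (LL'.card : ENNReal) * volume Bad ≤ ENNReal.ofReal Q := by
    calc (LL'.card : ENNReal) * volume Bad
        ≤ ENNReal.ofReal (LL'.card : ℝ) * ENNReal.ofReal (Cb * R * Real.exp (-(cb * lam i))) := by
          rw [hcc]
          gcongr
      _ = ENNReal.ofReal ((LL'.card : ℝ) * (Cb * R * Real.exp (-(cb * lam i)))) := by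
          rw [← ENNReal.ofReal_mul (by positivity)]
      _ ≤ ENNReal.ofReal Q := by
          apply ENNReal.ofReal_le_ofReal
          have h1 := G2 i (by omega)
          have e1 : V0 ^ 3 = 2 ^ (64 * i) * hh i := by
            rw [show 64 * i = 63 * i + i by ring, pow_add, mul_assoc, mul_comm ((2 : ℝ) ^ i),
              hh1, mul_one, hV0, ← pow_mul]
            congr 1
            ring
          calc (LL'.card : ℝ) * (Cb * R * Real.exp (-(cb * lam i)))
              ≤ (Cl * V0 ^ 3 * R) * (Cb * R * Real.exp (-(cb * lam i))) :=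
                mul_le_mul_of_nonneg_right hcard (by positivity)
            _ = (Cl * Cb * 2 ^ (64 * i) * Real.exp (-(cb * lam i))) * (hh i * 1 * R ^ 2) := by
                rw [e1]
                ring
            _ ≤ 1 * (hh i * 1 * R ^ 2) := mul_le_mul_of_nonneg_right h1 (by positivity)
            _ ≤ Q := by
                rw [one_mul]
                exact hR2
  calc ENNReal.ofReal (e1r + e2r) * volume D +
        (LL'.card : ENNReal) ^ 2 * ENNReal.ofReal (2 * ρ) + (LL'.card : ENNReal) * volume Bad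
      ≤ ENNReal.ofReal (4 * Ca * Q + Q) + ENNReal.ofReal Q + ENNReal.ofReal Q := by gcongr
    _ = ENNReal.ofReal (4 * Ca * Q + Q + Q + Q) := by
        rw [ENNReal.ofReal_add (p := 4 * Ca * Q + Q + Q) (by positivity) hQ0,
          ENNReal.ofReal_add (p := 4 * Ca * Q + Q) (by positivity) hQ0]
    _ = ENNReal.ofReal ((4 * Ca + 3) * hh i * lam i * 4 ^ j) := by
        congr 1
        rw [h4, hQ]
        ring

end MuntzF
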