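import Pool.Agent.Lib.MP_dde81e_full.E10
import Pool.Agent.Lib.MP_dde81e_full.E9
import Pool.Agent.Lib.MP_dde81e_full.E7
import Pool.Agent.Lib.MP_dde81e_full.E5

/-!
Module E11 (text 5.7 (b), 10.2).  valley_count2: valleys with eta ≥ c' dl d: valley_slopes, ex with u,v = ends of st d (or of the cell), kap_bound: # c1 min(c',1) dl d ≤ C R·C dl d h + h^9 R.
valley_count: the others by valley_absc and nr.  (4^i ≤ 2^(21i).)
-/

namespace MuntzF
open Set MeasureTheory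

theorem E11_ht {i : ℕ} {V : ℝ} (h : V ≤ 4 ^ i) : V ≤ 2 ^ (21 * i) := by
  refine h.trans ?_
  have : (4 : ℝ) ^ i = 2 ^ (2 * i) := by rw [pow_mul]; norm_num
  rw [this]
  exact pow_le_pow_right₀ (by norm_num) (by omega)

/-- length of a window from below. -/
theorem E11_len {F : ℂ × ℂ → ℂ} {b0 : ℝ} (X : Ctx F b0) {j : ℕ} {d : ℕ × ℕ} (hwin : X.win j d) :
    hh (X.ij j d) ≤ 2 ^ (X.w0 + 1) * dl d := by
  obtain ⟨hj, hW⟩ := hwin
  have hcs := X.env.cs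
  have hh1 : hh (X.ij j d) = (1 / 2) ^ (X.ij j d) := rfl
  have hh2 : hh (X.ij j d) ≤ 1 := by
    rw [hh1]; exact pow_le_one₀ (by norm_num) (by norm_num)
  have hu := L2_dl_pos d
  rcases win_len hcs (by linarith [X.hw0, hcs.hb]) hj hW with h | h
  · have h2 : (1 : ℝ) ≤ 2 ^ (X.w0 + 1) * dl d := by
      unfold dl
      rw [h, pow_succ]
      have : (2 : ℝ) ^ X.w0 * (1 / 2) ^ X.w0 = 1 := by rw [← mul_pow]; norm_num
      nlinarith
    linarith
  · have h2 : (2 : ℝ) * dl d ≤ 2 ^ (X.w0 + 1) * dl d := by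
      apply mul_le_mul_of_nonneg_right _ hu.le
      calc (2 : ℝ) = 2 ^ 1 := by norm_num
        _ ≤ 2 ^ (X.w0 + 1) := pow_le_pow_right₀ (by norm_num) (by omega)
    exact h.2.trans h2

theorem valley_count2 {F : ℂ × ℂ → ℂ} {b0 : ℝ} (X : Ctx F b0) (c' : ℝ) (hc' : 0 < c') : ∃ (C : ℝ) (i1 : ℕ),
    0 < C ∧ ∀ (j : ℕ) (d : ℕ × ℕ) (LL : Finset Ln), X.win j d → i1 ≤ X.ij j d → cell d ⊆ I2 b0 →
      (∀ l ∈ LL, c' * dl d ≤ eta l j ∧ ∃ x0 θ0 : ℝ, 2 ^ j ≤ x0 ∧ x0 ≤ 2 * 2 ^ j ∧ θ0 ∈ cell d ∧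
        Valley X j d x0 θ0 l) →
      (LL.card : ℝ) ≤ C * hh (X.ij j d) * 2 ^ j := by
  obtain ⟨c1, i1, hc1, H1⟩ := valley_slopes X
  obtain ⟨Ce, ie, hCe, He⟩ := ex X
  obtain ⟨Ck, ik, hCk, Hk⟩ := kap_bound X
  set m := min c' 1 with hm
  have hm0 : 0 < m := lt_min hc' one_pos
  refine ⟨(4 * Ce * Ck + 2 ^ (X.w0 + 1)) / (c1 * m), i1 + ie + ik + X.w0 + 1, by positivity, ?_⟩
  intro j d LL hwin hi hcell hLL
  have hR : (0 : ℝ) < 2 ^ j := by positivity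
  have hu := L2_dl_pos d
  have hlen := E11_len X hwin
  set i := X.ij j d with hid
  have hh0 : 0 < hh i := by unfold hh; positivity
  have hh1 : hh i ≤ 1 := by unfold hh; exact pow_le_one₀ (by norm_num) (by norm_num)
  have hu1 : dc d - 2 * dl d ∈ st d := ⟨le_rfl, by linarith⟩
  have hv1 : dc d + 2 * dl d ∈ st d := ⟨by linarith, le_rfl⟩
  have hE := He j d _ _ LL hwin (by omega) hu1 hv1 (fun l hl => by
    obtain ⟨_, x0, θ0, _, _, _, hv⟩ := hLL l hl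
    exact E11_ht hv.1)
  have hw1 : hh i ≤ (1 / 2) ^ (X.w0 + 1) := by
    unfold hh
    exact pow_le_pow_of_le_one (by norm_num) (by norm_num) (by omega)
  have hww : (2 : ℝ) ^ (X.w0 + 1) * (1 / 2) ^ (X.w0 + 1) = 1 := by rw [← mul_pow]; norm_num
  have hcube : hh i ^ 3 ≤ (dc d + 2 * dl d) - (dc d - 2 * dl d) := by
    have h1 : hh i ^ 2 * 1 ≤ (1 / 2) ^ (X.w0 + 1) * (2 ^ (X.w0 + 1) * dl d) := by
      have : hh i ^ 2 * 1 = hh i * hh i := by ring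
      rw [this]
      exact mul_le_mul hw1 hlen hh0.le (by positivity)
    have h2 : (1 / 2 : ℝ) ^ (X.w0 + 1) * (2 ^ (X.w0 + 1) * dl d) = dl d := by
      rw [← mul_assoc, mul_comm ((1 / 2 : ℝ) ^ (X.w0 + 1)), hww, one_mul]
    have h3 : hh i ^ 3 ≤ hh i ^ 2 := by
      have : hh i ^ 3 = hh i ^ 2 * hh i := by ring
      rw [this]
      exact mul_le_of_le_one_right (by positivity) hh1
    linarith
  have hK := Hk j d _ _ hwin (by omega) hu1 hv1 hcube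
  -- lower bound of the sum
  have hlow : (LL.card : ENNReal) * ENNReal.ofReal (c1 * (m * dl d)) ≤
      ∑ l ∈ LL, volume (DlJ X j d l ∩ Icc (dc d - 2 * dl d) (dc d + 2 * dl d)) := by
    rw [← nsmul_eq_mul]
    refine Finset.card_nsmul_le_sum _ _ _ ?_
    intro l hl
    obtain ⟨he, x0, θ0, hx0, hx0', hθ0, hv⟩ := hLL l hl
    refine le_trans ?_ ((H1 j d x0 θ0 l hwin (by omega) hcell hx0 hx0' hθ0 hv).1.trans
      (measure_mono ?_))
    · apply ENNReal.ofReal_le_ofReal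
      apply mul_le_mul_of_nonneg_left _ hc1.le
      refine le_min ?_ ?_
      · refine le_trans ?_ he
        exact mul_le_mul_of_nonneg_right (min_le_left _ _) hu.le
      · calc m * dl d ≤ 1 * dl d := mul_le_mul_of_nonneg_right (min_le_right _ _) hu.le
          _ = dl d := one_mul _
    · rintro θ ⟨hθ1, hθ2⟩
      exact ⟨hθ1, (cell_sub_st d).1 hθ2⟩
  have hup : ENNReal.ofReal (Ce * 2 ^ j) *
      (∫⁻ θ in Icc (dc d - 2 * dl d) (dc d + 2 * dl d), kap F j θ) + ENNReal.ofReal (hh i ^ 9 * 2 ^ j)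
      ≤ ENNReal.ofReal ((4 * Ce * Ck + 2 ^ (X.w0 + 1)) * (dl d * hh i * 2 ^ j)) := by
    have e1 : (4 * Ce * Ck + 2 ^ (X.w0 + 1)) * (dl d * hh i * 2 ^ j) =
        Ce * 2 ^ j * (Ck * ((dc d + 2 * dl d) - (dc d - 2 * dl d)) * hh i) +
          2 ^ (X.w0 + 1) * dl d * hh i * 2 ^ j := by ring
    have e2 : 0 ≤ Ck * ((dc d + 2 * dl d) - (dc d - 2 * dl d)) * hh i := by
      have : (dc d + 2 * dl d) - (dc d - 2 * dl d) = 4 * dl d := by ring
      rw [this]; positivity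
    have e5 : ENNReal.ofReal (Ce * 2 ^ j) *
        (∫⁻ θ in Icc (dc d - 2 * dl d) (dc d + 2 * dl d), kap F j θ) ≤
        ENNReal.ofReal (Ce * 2 ^ j * (Ck * ((dc d + 2 * dl d) - (dc d - 2 * dl d)) * hh i)) := by
      rw [ENNReal.ofReal_mul (p := Ce * 2 ^ j) (by positivity)]
      gcongr
    have h9 : hh i ^ 9 ≤ hh i ^ 2 := pow_le_pow_of_le_one hh0.le hh1 (by norm_num)
    have e6 : hh i ^ 9 * 2 ^ j ≤ 2 ^ (X.w0 + 1) * dl d * hh i * 2 ^ j := by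
      apply mul_le_mul_of_nonneg_right _ hR.le
      calc hh i ^ 9 ≤ hh i ^ 2 := h9
        _ = hh i * hh i := by ring
        _ ≤ 2 ^ (X.w0 + 1) * dl d * hh i := by gcongr
    rw [e1, ENNReal.ofReal_add (mul_nonneg (by positivity) e2) (by positivity)]
    exact add_le_add e5 (ENNReal.ofReal_le_ofReal e6)
  have hfin := hlow.trans (hE.trans hup)
  have hreal : (LL.card : ℝ) * (c1 * (m * dl d)) ≤
      (4 * Ce * Ck + 2 ^ (X.w0 + 1)) * (dl d * hh i * 2 ^ j) := by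
    have e3 : (LL.card : ENNReal) = ENNReal.ofReal (LL.card : ℝ) := by simp
    rw [e3, ← ENNReal.ofReal_mul (Nat.cast_nonneg _)] at hfin
    exact (ENNReal.ofReal_le_ofReal_iff (by positivity)).1 hfin
  rw [div_mul_eq_mul_div, div_mul_eq_mul_div, le_div_iff₀ (by positivity)]
  have : (LL.card : ℝ) * (c1 * m) * dl d ≤
      ((4 * Ce * Ck + 2 ^ (X.w0 + 1)) * hh i * 2 ^ j) * dl d := by
    calc (LL.card : ℝ) * (c1 * m) * dl d = (LL.card : ℝ) * (c1 * (m * dl d)) := by ring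
      _ ≤ _ := hreal
      _ = _ := by ring
  exact le_of_mul_le_mul_right this hu

theorem E11_lam (i : ℕ) : 1 ≤ lam i := by
  unfold lam
  exact Real.one_le_rpow (by norm_num) (by positivity)

theorem valley_count {F : ℂ × ℂ → ℂ} {b0 : ℝ} (X : Ctx F b0) : ∃ (C : ℝ) (i1 : ℕ),
    0 < C ∧ ∀ (j : ℕ) (d : ℕ × ℕ) (LL : Finset Ln), X.win j d → i1 ≤ X.ij j d → cell d ⊆ I2 b0 →
      (∀ l ∈ LL, ∃ x0 θ0 : ℝ, 2 ^ j ≤ x0 ∧ x0 ≤ 2 * 2 ^ j ∧ θ0 ∈ cell d ∧ Valley X j d x0 θ0 l) →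
      (LL.card : ℝ) ≤ C * hh (X.ij j d) * lam (X.ij j d) * 2 ^ j := by
  classical
  obtain ⟨C2, i2, hC2, H2⟩ := valley_count2 X (1 / 8) (by norm_num)
  obtain ⟨c1, i1, hc1, H1⟩ := valley_absc X
  obtain ⟨Cn, iN, hCn, Hn⟩ := nr X
  refine ⟨C2 + Cn / c1, i1 + i2 + iN, by positivity, ?_⟩
  intro j d LL hwin hi hcell hLL
  have hR : (0 : ℝ) < 2 ^ j := by positivity
  have hu := L2_dl_pos d
  set i := X.ij j d with hid
  have hh0 : 0 < hh i := by unfold hh; positivity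
  have hl1 := E11_lam i
  set LA := LL.filter (fun l => 1 / 8 * dl d ≤ eta l j) with hLA
  set LB := LL.filter (fun l => ¬ 1 / 8 * dl d ≤ eta l j) with hLB
  have hcard : LA.card + LB.card = LL.card := Finset.card_filter_add_card_filter_not _
  have hA := H2 j d LA hwin (by omega) hcell (fun l hl => by
    rw [hLA, Finset.mem_filter] at hl
    exact ⟨hl.2, hLL l hl.1⟩)
  have hB' : ∀ l ∈ LB, ht l ≤ 4 ^ i ∧ l.q ≠ 0 ∧
      ENNReal.ofReal (c1 * 2 ^ j) ≤ volume (ElJ X j d l) := by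
    intro l hl
    rw [hLB, Finset.mem_filter, not_le] at hl
    obtain ⟨x0, θ0, hx0, hx0', hθ0, hv⟩ := hLL l hl.1
    have := H1 j d x0 θ0 l hwin (by omega) hcell hx0 hx0' hθ0 hv (by linarith [hl.2])
    exact ⟨hv.1, this.1, this.2⟩
  have hN := Hn j d LB hwin (by omega) (fun l hl => ⟨E11_ht (hB' l hl).1, (hB' l hl).2.1⟩)
  have hlow : (LB.card : ENNReal) * ENNReal.ofReal (c1 * 2 ^ j) ≤
      ∑ l ∈ LB, volume (ElJ X j d l) := by
    rw [← nsmul_eq_mul]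
    exact Finset.card_nsmul_le_sum _ _ _ (fun l hl => (hB' l hl).2.2)
  have hfin := hlow.trans hN
  have hreal : (LB.card : ℝ) * (c1 * 2 ^ j) ≤ Cn * hh i * lam i * 4 ^ j := by
    have e3 : (LB.card : ENNReal) = ENNReal.ofReal (LB.card : ℝ) := by simp
    rw [e3, ← ENNReal.ofReal_mul (Nat.cast_nonneg _)] at hfin
    exact (ENNReal.ofReal_le_ofReal_iff (by positivity)).1 hfin
  have hB : (LB.card : ℝ) ≤ Cn / c1 * (hh i * lam i * 2 ^ j) := by
    rw [div_mul_eq_mul_div, le_div_iff₀ hc1]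
    have e4 : (4 : ℝ) ^ j = 2 ^ j * 2 ^ j := by rw [← mul_pow]; norm_num
    have : (LB.card : ℝ) * c1 * 2 ^ j ≤ (Cn * (hh i * lam i * 2 ^ j)) * 2 ^ j := by
      calc (LB.card : ℝ) * c1 * 2 ^ j = (LB.card : ℝ) * (c1 * 2 ^ j) := by ring
        _ ≤ _ := hreal
        _ = _ := by rw [e4]; ring
    exact le_of_mul_le_mul_right this hR
  have hA2 : (LA.card : ℝ) ≤ C2 * (hh i * lam i * 2 ^ j) := by
    calc (LA.card : ℝ) ≤ C2 * hh i * 2 ^ j := hA
      _ = C2 * (hh i * 1 * 2 ^ j) := by ring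
      _ ≤ C2 * (hh i * lam i * 2 ^ j) := by gcongr
  have hc : (LL.card : ℝ) = LA.card + LB.card := by rw [← hcard]; push_cast; ring
  rw [hc]
  calc (LA.card : ℝ) + LB.card ≤ C2 * (hh i * lam i * 2 ^ j) + Cn / c1 * (hh i * lam i * 2 ^ j) :=
        add_le_add hA2 hB
    _ = (C2 + Cn / c1) * hh i * lam i * 2 ^ j := by ring

end MuntzF
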