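import Pool.Agent.Lib.MP_dde81e_full.BDefs
import Pool.Agent.Lib.MP_dde81e_full.A4
import Pool.Agent.Lib.MP_dde81e_an.GSH
import Pool.Agent.Lib.MP_dde81e_an.SHM

/-!
Module E4 (text 5.2, ZC): zeros of a radial leaf.  g(z) = F(z,θz) is analytic near RH, |g| ≤ 1 (leaf_good).  A = af_θ(2^(j+9)) (finite: g is not identically zero; as a real number),
rec_zeros with ρ = 2^j gives -log|g| ≥ (A + n/(500·2^j)) Re z for |z| = 2^j, so af_θ(2^j) ≥ A + n/(500·2^j).  If g is identically zero near.. (then g z = pz s z * K z with K = 0) exclude by hypothesis hne.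
-/

namespace MuntzF
open Set Metric
open scoped ENNReal

theorem E4_nl_of_norm_le {w : ℂ} {b : ℝ} (h : ‖w‖ ≤ Real.exp (-b)) :
    ENNReal.ofReal b ≤ Muntz.nl w := by
  unfold Muntz.nl
  split_ifs with hw
  · exact le_top
  · apply ENNReal.ofReal_le_ofReal
    have h1 : Real.log ‖w‖ ≤ -b := by
      rw [Real.log_le_iff_le_exp (norm_pos_iff.2 hw)]
      exact h
    linarith

theorem E4_norm_le_of_nl {w : ℂ} {b : ℝ} (hw1 : ‖w‖ ≤ 1) (h : ENNReal.ofReal b ≤ Muntz.nl w) :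
    ‖w‖ ≤ Real.exp (-b) := by
  unfold Muntz.nl at h
  split_ifs at h with hw
  · rw [hw, norm_zero]
    exact (Real.exp_pos _).le
  · have hpos := norm_pos_iff.2 hw
    have hl : Real.log ‖w‖ ≤ 0 := Real.log_nonpos hpos.le hw1
    have h1 : b ≤ -Real.log ‖w‖ := (ENNReal.ofReal_le_ofReal_iff (by linarith)).1 h
    rw [← Real.log_le_iff_le_exp hpos]
    linarith

theorem zc {F : ℂ × ℂ → ℂ} (hF : Muntz.GoodF F) {θ : ℝ} (hθ : 0 < θ) (j : ℕ) {c : ℂ} {r : ℝ} {k : ℂ → ℂ} {s : Multiset ℂ}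
    (hc : closedBall c r ⊆ Muntz.RH) (hk : AnalyticOnNhd ℂ k (closedBall c r))
    (hs : ∀ a ∈ s, a ∈ ball c r ∧ ‖a‖ ≤ 8 * 2 ^ j ∧ 2 ^ j / 8 ≤ a.re)
    (hf : ∀ z ∈ closedBall c r, F (z, θ * z) = pz s z * k z)
    (hne : ∃ z ∈ Muntz.RH, F (z, θ * z) ≠ 0) :
    (s.card : ℝ≥0∞) ≤ 500 * 2 ^ j * kap F j θ := by
  have hleaf := Muntz.leaf_good hF hθ.le (β := 0) (by simp)
  set g : ℂ → ℂ := fun z => F (z, θ * z) with hg
  have hgl : Muntz.leaf F θ 0 = g := by
    funext z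
    simp [Muntz.leaf, hg]
  rw [hgl] at hleaf
  obtain ⟨hga, hgb⟩ := hleaf
  set u : ℂ → ℝ≥0∞ := fun z => Muntz.nl (g z) with hu
  have hSH : Muntz.SH u := Muntz.SH_nl hga hgb
  have hρ : (0 : ℝ) < 2 ^ j := by positivity
  have hρ9 : (2 : ℝ) ^ (j + 9) = 512 * 2 ^ j := by ring
  -- the infimum on the large arc is finite
  have hfin : Muntz.af u (2 ^ (j + 9)) ≠ ⊤ := by
    intro htop
    have hz : ∀ ζ : ℂ, 0 < ζ.re → ‖ζ‖ ≤ 2 ^ (j + 9) → g ζ = 0 := by
      intro ζ h1 h2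
      have h3 := Muntz.af_interior hSH h1 h2
      rw [htop, ENNReal.top_mul (by simpa using h1)] at h3
      have h4 : Muntz.nl (g ζ) = ⊤ := top_le_iff.1 h3
      by_contra h5
      unfold Muntz.nl at h4
      rw [if_neg h5] at h4
      exact ENNReal.ofReal_ne_top h4
    have hRHc : Convex ℝ Muntz.RH := convex_halfSpace_re_ge 0
    have h1 : (1 : ℂ) ∈ Muntz.RH := by
      show (0 : ℝ) ≤ (1 : ℂ).re
      simp
    have hev : g =ᶠ[nhds (1 : ℂ)] 0 := by
      have ho : ball (1 : ℂ) (1 / 2) ∈ nhds (1 : ℂ) := ball_mem_nhds _ (by norm_num)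
      filter_upwards [ho] with z hz'
      rw [mem_ball, dist_eq_norm] at hz'
      have h2 := Complex.abs_re_le_norm (z - 1)
      have h3 := (abs_lt.1 (lt_of_le_of_lt h2 hz')).1
      simp only [Complex.sub_re, Complex.one_re] at h3
      apply hz z (by linarith)
      have h4 : ‖z‖ ≤ ‖z - 1‖ + ‖(1 : ℂ)‖ := by
        have := norm_add_le (z - 1) 1
        simpa using this
      have h5 : (1 : ℝ) ≤ 2 ^ j := one_le_pow₀ (by norm_num)
      rw [hρ9]
      simp only [norm_one] at h4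
      linarith
    have hall := hga.eqOn_zero_of_preconnected_of_eventuallyEq_zero hRHc.isPreconnected h1 hev
    obtain ⟨z, hz1, hz2⟩ := hne
    exact hz2 (hall hz1)
  obtain ⟨K, hKa, hKf⟩ := div_extend hga hk (fun a ha => (hs a ha).1) hf
  set A : ℝ := (Muntz.af u (2 ^ (j + 9))).toReal with hA
  have hA0 : 0 ≤ A := ENNReal.toReal_nonneg
  have hAe : Muntz.af u (2 ^ (j + 9)) = ENNReal.ofReal A := (ENNReal.ofReal_toReal hfin).symm
  have harc : ∀ z : ℂ, 0 < z.re → ‖z‖ = 512 * 2 ^ j → ‖g z‖ ≤ Real.exp (-(A * z.re)) := by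
    intro z h1 h2
    have h3 := Muntz.SHM_af_mul_le (u := u) h1
    rw [h2, ← hρ9, hAe, ← ENNReal.ofReal_mul hA0] at h3
    exact E4_norm_le_of_nl (hgb z h1.le) h3
  have hrec := rec_zeros (s := s) hρ hA0 hga hKa hgb (fun a ha => (hs a ha).2) hKf harc
  have hlow : ENNReal.ofReal A + ENNReal.ofReal (s.card / (500 * 2 ^ j)) ≤ Muntz.af u (2 ^ j) := by
    rw [← ENNReal.ofReal_add hA0 (by positivity)]
    unfold Muntz.af
    refine le_iInf₂ fun ζ hζ => ?_
    have hpos : ENNReal.ofReal ζ.re ≠ 0 := by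
      rw [Ne, ENNReal.ofReal_eq_zero, not_le]
      exact hζ.2
    rw [ENNReal.le_div_iff_mul_le (Or.inl hpos) (Or.inl ENNReal.ofReal_ne_top),
      ← ENNReal.ofReal_mul (by positivity)]
    exact E4_nl_of_norm_le (hrec ζ hζ.2 hζ.1.le)
  have hkap : ENNReal.ofReal (s.card / (500 * 2 ^ j)) ≤ kap F j θ := by
    unfold kap
    change _ ≤ Muntz.af u (2 ^ j) - Muntz.af u (2 ^ (j + 9))
    rw [hAe]
    exact ENNReal.le_sub_of_add_le_left ENNReal.ofReal_ne_top hlow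
  calc (s.card : ℝ≥0∞) = 500 * 2 ^ j * ENNReal.ofReal (s.card / (500 * 2 ^ j)) := by
        have e1 : (500 * 2 ^ j : ℝ≥0∞) = ENNReal.ofReal (500 * 2 ^ j) := by
          rw [ENNReal.ofReal_mul (by norm_num), ENNReal.ofReal_pow (by norm_num)]
          norm_num
        rw [e1, ← ENNReal.ofReal_mul (by positivity)]
        have e2 : (500 * 2 ^ j : ℝ) * (s.card / (500 * 2 ^ j)) = s.card := by
          field_simp
        rw [e2, ENNReal.ofReal_natCast]
    _ ≤ 500 * 2 ^ j * kap F j θ := by gcongr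

end MuntzF
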