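import Pool.Agent.Lib.MP_dde81e_full.EDefs
import Pool.Agent.Lib.MP_dde81e_full.E4
import Pool.Agent.Lib.MP_dde81e_full.A6
import Pool.Agent.Lib.MP_dde81e_full.L2

/-!
Module E7A (text 5.4 (3)): number of separated deep points on a good radial leaf.
g(z) = F(z,θz) exp((α+βθ)z) on closedBall x0 (x0/2), x0 = gx j m (m ≤ 18): ‖g‖ ≤ 1 by Box.up (slope of the real parts is θ ∈ st d ⊆ bg d).  slice (t = 1/4, c = x0, r = x0/2, M0 = h λ 2^j, M1 = h λ² 2^j/32):
the points with |x-x0| ≤ x0/8; zeros s in closedBall x0 (5x0/16), which satisfy ‖a‖ ≤ 8·2^j, a.re ≥ 2^j/8; F(z,θz) = pz s z * (k z * exp(-..)): zc gives s.card ≤ 500·2^j kap.  M1/M0 = λ/32.  Sum over the 19 discs.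
-/

namespace MuntzF
open Set Metric

theorem E7A_gx_pos (j m : ℕ) : 0 < gx j m := by
  unfold gx
  positivity

theorem E7A_gx_lo (j m : ℕ) : 2 ^ j / 2 ≤ gx j m := by
  unfold gx
  have h1 : (1 : ℝ) ≤ (9 / 8) ^ m := one_le_pow₀ (by norm_num)
  have h2 : (0 : ℝ) < 2 ^ j / 2 := by positivity
  nlinarith

theorem E7A_gx_hi (j m : ℕ) (hm : m ≤ 18) : gx j m ≤ 9 / 2 * 2 ^ j := by
  unfold gx
  have h1 : (9 / 8 : ℝ) ^ m ≤ (9 / 8) ^ 18 := pow_le_pow_right₀ (by norm_num) hm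
  have h3 : (9 / 8 : ℝ) ^ 18 ≤ 9 := by norm_num
  have h2 : (0 : ℝ) < 2 ^ j / 2 := by positivity
  nlinarith

theorem E7A_cover (j : ℕ) {x : ℝ} (h1 : 2 ^ j / 2 ≤ x) (h2 : x ≤ 4 * 2 ^ j) :
    ∃ m, m ≤ 18 ∧ |x - gx j m| ≤ gx j m / 8 := by
  have h2j : (0 : ℝ) < 2 ^ j / 2 := by positivity
  by_contra hcon
  push Not at hcon
  have key : ∀ m, m ≤ 18 → gx j m ≤ x := by
    intro m
    induction m with
    | zero =>
      intro _
      simpa [gx] using h1
    | succ n ih =>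
      intro hn
      have h3 := ih (by omega)
      have h4 := hcon n (by omega)
      rw [abs_of_nonneg (by linarith)] at h4
      have h5 : gx j (n + 1) = 9 / 8 * gx j n := by
        unfold gx
        ring
      rw [h5]
      linarith
  have h6 := key 18 le_rfl
  have h7 : (8.1 : ℝ) ≤ (9 / 8) ^ 18 := by norm_num
  unfold gx at h6
  nlinarith

theorem E7A_lam_one (i : ℕ) : 1 ≤ lam i := by
  unfold lam
  exact Real.one_le_rpow (by norm_num) (by positivity)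

/-- one disc. -/
theorem E7A_disc {F : ℂ × ℂ → ℂ} {b0 : ℝ} (X : Ctx F b0) {C1 c1 : ℝ} (hC1 : 0 < C1)
    (hsl : ∀ (f : ℂ → ℂ) (c r M0 M1 σ : ℝ) (X : Finset ℝ), 0 < r → 1 ≤ M0 → 0 ≤ M1 → 0 < σ → σ ≤ r →
      DF f c r → (∃ z0 : ℂ, ‖z0 - c‖ ≤ 1 / 4 * r ∧ Real.exp (-M0) ≤ ‖f z0‖) →
      (∀ x ∈ X, |x - c| ≤ 1 / 4 * r ∧ ‖f x‖ ≤ Real.exp (-M1)) →
      (∀ x ∈ X, ∀ y ∈ X, x ≠ y → σ ≤ |x - y|) →
      ∃ (s : Multiset ℂ) (k : ℂ → ℂ), (∀ a ∈ s, ‖a - c‖ ≤ (1 + 1 / 4) / 2 * r) ∧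
        AnalyticOnNhd ℂ k (closedBall c r) ∧ (∀ z ∈ closedBall (c : ℂ) r, f z = pz s z * k z) ∧
        (s.card : ℝ) ≤ C1 * M0 ∧
        (X.card : ℝ) ≤ s.card + C1 * (r / σ) * Real.exp (-(c1 * M1 / M0)))
    (j : ℕ) (d : ℕ × ℕ) (θ σ : ℝ) (Xs : Finset ℝ) (hwin : X.win j d) (hi : X.is ≤ X.ij j d)
    (hθ : θ ∈ st d) (hσ : 0 < σ) (hσ1 : σ ≤ 1) (m : ℕ) (hm : m ≤ 18)
    (hgood : ∃ x : ℝ, |x - gx j m| ≤ gx j m / 128 ∧
      Real.exp (-(hh (X.ij j d) * lam (X.ij j d) * 2 ^ j)) ≤ X.fj j d x (θ * x))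
    (hdeep : ∀ x ∈ Xs, |x - gx j m| ≤ gx j m / 8 ∧
      X.fj j d x (θ * x) ≤ Real.exp (-(hh (X.ij j d) * lam (X.ij j d) ^ 2 * 2 ^ j / 32)))
    (hsep : ∀ x ∈ Xs, ∀ y ∈ Xs, x ≠ y → σ ≤ |x - y|) :
    (Xs.card : ENNReal) ≤ 500 * 2 ^ j * kap F j θ +
      ENNReal.ofReal (C1 * (3 * 2 ^ j / σ) * Real.exp (-(c1 / 32 * lam (X.ij j d)))) := by
  obtain ⟨hj, hW⟩ := hwin
  have hbox := X.box j d hj hW hi
  have hb := X.env.cs.hb
  have hb0 : (0 : ℝ) < b0 := by linarith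
  have hst := (cell_sub_st d).2
  have hθ1 : θ ∈ I1 b0 := by
    apply st_sub hb (w0 := X.w0) (by linarith [X.hw0]) hW.1 hW.2.1
    obtain ⟨a1, a2⟩ := hθ
    have := L2_dl_pos d
    rw [abs_le]
    constructor <;> linarith
  have hθ0 : 0 < θ := lt_of_lt_of_le (by positivity) hθ1.1
  have hθ2 : θ ≤ 2 * b0 := hθ1.2
  set i := X.ij j d with hidef
  set α := X.al j d with hα
  set β := X.be j d with hβ
  set x0 := gx j m with hx0
  have hx0p : 0 < x0 := E7A_gx_pos j m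
  have hx0lo : 2 ^ j / 2 ≤ x0 := E7A_gx_lo j m
  have hx0hi : x0 ≤ 9 / 2 * 2 ^ j := E7A_gx_hi j m hm
  have h2j : (0 : ℝ) < 2 ^ j := by positivity
  have hj100 : 100 ≤ j := by omega
  have hiJ : i ≤ j / 100 := L2_iJ_le X.env.cs j d
  -- sizes
  have hh2 : 1 ≤ hh i * 2 ^ j := by
    unfold hh
    rw [one_div, inv_pow, inv_mul_eq_div, le_div_iff₀ (by positivity), one_mul]
    exact pow_le_pow_right₀ (by norm_num) (by omega)
  have hlam := E7A_lam_one i
  have hM0 : 1 ≤ hh i * lam i * 2 ^ j := by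
    have : hh i * lam i * 2 ^ j = (hh i * 2 ^ j) * lam i := by ring
    rw [this]
    nlinarith
  have hhp : 0 < hh i := by unfold hh; positivity
  have hM1 : 0 ≤ hh i * lam i ^ 2 * 2 ^ j / 32 := by positivity
  have h4 : (4 : ℝ) ≤ 2 ^ j := by
    have : (2 : ℝ) ^ 2 ≤ 2 ^ j := pow_le_pow_right₀ (by norm_num) (by omega)
    linarith
  have hs0 : (15 : ℝ) * b0 ≤ 2 ^ X.s0 := by
    have := X.hs0
    linarith
  have hbig : (15 : ℝ) * b0 * 2 ^ j ≤ 2 ^ (j + X.s0) := by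
    rw [pow_add, mul_comm]
    exact mul_le_mul_of_nonneg_left hs0 h2j.le
  -- points of the disc
  have hpt : ∀ z ∈ closedBall (x0 : ℂ) (x0 / 2), ‖z‖ ≤ 3 / 2 * x0 ∧ x0 / 2 ≤ z.re := by
    intro z hz
    rw [mem_closedBall, dist_eq_norm] at hz
    have h1 : ‖z‖ ≤ ‖z - x0‖ + ‖(x0 : ℂ)‖ := by
      have := norm_add_le (z - x0) x0
      simpa using this
    have h2 : ‖(x0 : ℂ)‖ = x0 := by
      rw [Complex.norm_real, Real.norm_eq_abs, abs_of_pos hx0p]
    have h3 := Complex.abs_re_le_norm (z - x0)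
    have h4 := (abs_le.1 (h3.trans hz)).1
    simp only [Complex.sub_re, Complex.ofReal_re] at h4
    constructor <;> linarith
  set f : ℂ → ℂ := fun z => F (z, θ * z) * Complex.exp ((α + β * θ) * z) with hf
  have hFan : AnalyticOnNhd ℂ (fun z : ℂ => F (z, θ * z)) Muntz.RH := by
    have h1 := (Muntz.leaf_good X.env.hF hθ0.le (β := 0) (by simp)).1
    have h2 : Muntz.leaf F θ 0 = fun z : ℂ => F (z, θ * z) := by
      funext z
      simp [Muntz.leaf]
    rwa [h2] at h1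
  have hsub : closedBall (x0 : ℂ) (x0 / 2) ⊆ Muntz.RH := by
    intro z hz
    have := (hpt z hz).2
    show 0 ≤ z.re
    linarith
  have hnorm : ∀ z : ℂ, ‖Complex.exp ((α + β * θ) * z)‖ = Real.exp (α * z.re + β * (θ * z.re)) := by
    intro z
    rw [Complex.norm_exp]
    congr 1
    simp
    ring
  have hDF : DF f x0 (x0 / 2) := by
    constructor
    · apply (hFan.mono hsub).mul
      intro z _
      fun_prop
    · intro z hz
      obtain ⟨h1, h2⟩ := hpt z hz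
      have hre : 0 < z.re := by linarith
      have hwre : ((θ : ℂ) * z).re = θ * z.re := by simp
      have h3 := hbox.up z (θ * z) ?_ ?_ hre ?_
      · rw [hwre] at h3
        show ‖F (z, θ * z) * Complex.exp ((α + β * θ) * z)‖ ≤ 1
        rw [norm_mul, hnorm]
        calc ‖F (z, θ * z)‖ * Real.exp (α * z.re + β * (θ * z.re))
            ≤ Real.exp (-(α * z.re + β * (θ * z.re))) * Real.exp (α * z.re + β * (θ * z.re)) := by
              gcongr
          _ = 1 := by rw [← Real.exp_add]; simp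
      · have : (7 : ℝ) * 2 ^ j ≤ 15 * b0 * 2 ^ j := by
          apply mul_le_mul_of_nonneg_right _ h2j.le
          linarith
        linarith
      · rw [norm_mul, Complex.norm_real, Real.norm_eq_abs, abs_of_pos hθ0]
        calc θ * ‖z‖ ≤ (2 * b0) * (7 * 2 ^ j) := by
              apply mul_le_mul hθ2 (by linarith) (norm_nonneg _) (by positivity)
          _ ≤ 15 * b0 * 2 ^ j := by nlinarith [mul_pos hb0 h2j]
          _ ≤ _ := hbig
      · rw [hwre, mul_div_assoc, div_self hre.ne', mul_one]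
        exact hst hθ
  have hfreal : ∀ x : ℝ, ‖f x‖ = X.fj j d x (θ * x) := by
    intro x
    show ‖F ((x : ℂ), θ * x) * Complex.exp ((α + β * θ) * x)‖ = _
    rw [norm_mul, hnorm]
    unfold Ctx.fj
    simp [hα, hβ]
  obtain ⟨xg, hxg1, hxg2⟩ := hgood
  obtain ⟨s, k, hs, hk, hfac, hcard, hXc⟩ := hsl f x0 (x0 / 2) (hh i * lam i * 2 ^ j)
    (hh i * lam i ^ 2 * 2 ^ j / 32) σ Xs (by linarith) hM0 hM1 hσ (by linarith) hDF
    ⟨xg, by
      have : (xg : ℂ) - (x0 : ℂ) = ((xg - x0 : ℝ) : ℂ) := by push_cast; ring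
      rw [this, Complex.norm_real, Real.norm_eq_abs]
      linarith, by rw [hfreal]; exact hxg2⟩
    (fun x hx => ⟨by have := (hdeep x hx).1; linarith, by rw [hfreal]; exact (hdeep x hx).2⟩) hsep
  have hne : ∃ z ∈ Muntz.RH, F (z, θ * z) ≠ 0 := by
    refine ⟨xg, ?_, ?_⟩
    · show 0 ≤ (xg : ℂ).re
      simp only [Complex.ofReal_re]
      have := (abs_le.1 hxg1).1
      linarith
    · intro h0
      have h1 : X.fj j d xg (θ * xg) = 0 := by
        rw [← hfreal]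
        show ‖F ((xg : ℂ), θ * xg) * _‖ = 0
        rw [h0]
        simp
      rw [h1] at hxg2
      exact absurd hxg2 (not_le.2 (Real.exp_pos _))
  have hz := zc X.env.hF hθ0 j (c := x0) (r := x0 / 2)
    (k := fun z => k z * Complex.exp (-((α + β * θ) * z))) (s := s) hsub
    (hk.mul (fun z _ => by fun_prop)) ?_ ?_ hne
  · have hXc' : (Xs.card : ℝ) ≤ s.card + C1 * (3 * 2 ^ j / σ) * Real.exp (-(c1 / 32 * lam i)) := by
      refine hXc.trans ?_
      have e1 : c1 * (hh i * lam i ^ 2 * 2 ^ j / 32) / (hh i * lam i * 2 ^ j) = c1 / 32 * lam i := by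
        have hl0 : lam i ≠ 0 := by linarith
        field_simp
      rw [e1]
      have h5 : x0 / 2 / σ ≤ 3 * 2 ^ j / σ := by
        apply div_le_div_of_nonneg_right _ hσ.le
        linarith
      gcongr
    calc (Xs.card : ENNReal) = ENNReal.ofReal (Xs.card : ℝ) := (ENNReal.ofReal_natCast _).symm
      _ ≤ ENNReal.ofReal (s.card + C1 * (3 * 2 ^ j / σ) * Real.exp (-(c1 / 32 * lam i))) :=
          ENNReal.ofReal_le_ofReal hXc'
      _ = (s.card : ENNReal) + ENNReal.ofReal (C1 * (3 * 2 ^ j / σ) * Real.exp (-(c1 / 32 * lam i))) := by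
          rw [ENNReal.ofReal_add (by positivity) (by positivity), ENNReal.ofReal_natCast]
      _ ≤ _ := by gcongr
  · intro a ha
    have h1 := hs a ha
    have h2 : ‖a‖ ≤ ‖a - x0‖ + ‖(x0 : ℂ)‖ := by
      have := norm_add_le (a - x0) x0
      simpa using this
    have h3 : ‖(x0 : ℂ)‖ = x0 := by
      rw [Complex.norm_real, Real.norm_eq_abs, abs_of_pos hx0p]
    have h5 := Complex.abs_re_le_norm (a - x0)
    have h6 := (abs_le.1 (h5.trans h1)).1
    simp only [Complex.sub_re, Complex.ofReal_re] at h6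
    refine ⟨?_, ?_, ?_⟩
    · rw [mem_ball, dist_eq_norm]
      linarith
    · linarith
    · linarith
  · intro z hz
    have h1 := hfac z hz
    have h2 : f z = F (z, θ * z) * Complex.exp ((α + β * θ) * z) := rfl
    rw [h2] at h1
    show F (z, θ * z) = pz s z * (k z * Complex.exp (-((α + β * θ) * z)))
    rw [← mul_assoc, ← h1, Complex.exp_neg, mul_inv_cancel_right₀ (Complex.exp_ne_zero _)]

theorem leaf_count {F : ℂ × ℂ → ℂ} {b0 : ℝ} (X : Ctx F b0) : ∃ (C c1 : ℝ) (i1 : ℕ), 0 < C ∧ 0 < c1 ∧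
    ∀ (j : ℕ) (d : ℕ × ℕ) (θ σ : ℝ) (Xs : Finset ℝ), X.win j d → i1 ≤ X.ij j d → θ ∈ st d → 0 < σ → σ ≤ 1 →
    (∀ m, m ≤ 18 → ∃ x : ℝ, |x - gx j m| ≤ gx j m / 128 ∧
      Real.exp (-(hh (X.ij j d) * lam (X.ij j d) * 2 ^ j)) ≤ X.fj j d x (θ * x)) →
    (∀ x ∈ Xs, 2 ^ j / 2 ≤ x ∧ x ≤ 4 * 2 ^ j ∧
      X.fj j d x (θ * x) ≤ Real.exp (-(hh (X.ij j d) * lam (X.ij j d) ^ 2 * 2 ^ j / 32))) →
    (∀ x ∈ Xs, ∀ y ∈ Xs, x ≠ y → σ ≤ |x - y|) →
    (Xs.card : ENNReal) ≤ ENNReal.ofReal (C * 2 ^ j) * kap F j θ +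
      ENNReal.ofReal (C * (2 ^ j / σ) * Real.exp (-(c1 * lam (X.ij j d)))) := by
  classical
  obtain ⟨C1, c1, hC1, hc1, hsl⟩ := slice (1 / 4) (by norm_num) (by norm_num)
  refine ⟨9500 + 57 * C1, c1 / 32, X.is, by positivity, by positivity, ?_⟩
  intro j d θ σ Xs hwin hi hθ hσ hσ1 hgood hdeep hsep
  have hdisc : ∀ m ∈ Finset.range 19,
      ((Xs.filter (fun x => |x - gx j m| ≤ gx j m / 8)).card : ENNReal) ≤
        500 * 2 ^ j * kap F j θ +
      ENNReal.ofReal (C1 * (3 * 2 ^ j / σ) * Real.exp (-(c1 / 32 * lam (X.ij j d)))) := by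
    intro m hm
    have hm' : m ≤ 18 := by
      have := Finset.mem_range.1 hm
      omega
    apply E7A_disc X hC1 hsl j d θ σ _ hwin hi hθ hσ hσ1 m hm' (hgood m hm')
    · intro x hx
      rw [Finset.mem_filter] at hx
      exact ⟨hx.2, (hdeep x hx.1).2.2⟩
    · intro x hx y hy hxy
      rw [Finset.mem_filter] at hx hy
      exact hsep x hx.1 y hy.1 hxy
  have hcov : Xs ⊆ (Finset.range 19).biUnion
      (fun m => Xs.filter (fun x => |x - gx j m| ≤ gx j m / 8)) := by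
    intro x hx
    obtain ⟨m, hm, hxm⟩ := E7A_cover j (hdeep x hx).1 (hdeep x hx).2.1
    rw [Finset.mem_biUnion]
    exact ⟨m, Finset.mem_range.2 (by omega), Finset.mem_filter.2 ⟨hx, hxm⟩⟩
  have hcard : Xs.card ≤ ∑ m ∈ Finset.range 19,
      (Xs.filter (fun x => |x - gx j m| ≤ gx j m / 8)).card :=
    (Finset.card_le_card hcov).trans Finset.card_biUnion_le
  have h2j : (0 : ℝ) < 2 ^ j := by positivity
  calc (Xs.card : ENNReal)
      ≤ ∑ m ∈ Finset.range 19, ((Xs.filter (fun x => |x - gx j m| ≤ gx j m / 8)).card : ENNReal) := by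
        exact_mod_cast hcard
    _ ≤ ∑ m ∈ Finset.range 19, (500 * 2 ^ j * kap F j θ +
          ENNReal.ofReal (C1 * (3 * 2 ^ j / σ) * Real.exp (-(c1 / 32 * lam (X.ij j d))))) :=
        Finset.sum_le_sum hdisc
    _ = 19 * (500 * 2 ^ j * kap F j θ) +
          19 * ENNReal.ofReal (C1 * (3 * 2 ^ j / σ) * Real.exp (-(c1 / 32 * lam (X.ij j d)))) := by
        rw [Finset.sum_const, Finset.card_range, nsmul_eq_mul, mul_add]
        norm_num
    _ ≤ _ := by
        apply add_le_add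
        · have e1 : (19 * (500 * 2 ^ j * kap F j θ) : ENNReal) = ENNReal.ofReal (9500 * 2 ^ j) * kap F j θ := by
            rw [ENNReal.ofReal_mul (by norm_num), ENNReal.ofReal_pow (by norm_num)]
            norm_num
            ring
          rw [e1]
          gcongr
          linarith
        · have e2 : (19 : ENNReal) = ENNReal.ofReal 19 := by norm_num
          rw [e2, ← ENNReal.ofReal_mul (by norm_num)]
          apply ENNReal.ofReal_le_ofReal
          have h5 : 19 * (C1 * (3 * 2 ^ j / σ) * Real.exp (-(c1 / 32 * lam (X.ij j d)))) =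
            57 * C1 * (2 ^ j / σ) * Real.exp (-(c1 / 32 * lam (X.ij j d))) := by ring
          rw [h5]
          gcongr
          linarith

end MuntzF
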