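import Pool.Agent.Lib.MP_dde81e_full.E7

/-!
Module E8 (text 5.5, EXG): Dg ∩ cell d ⊆ DlJ.  θ ∈ cell d: i = ij ≤ lv ≤ i+1 (win_lev, cell ⊆ st).  fj(x,θx) = |F(x,θx)| exp(x(α+βθ)) and α+βθ ≤ c_(j+4i)(θ) ≤ c_j(θ) (Box.lo, c_anti), so
fj ≤ exp(-hh(lv) lam(lv)² 2^j/16) ≤ exp(-hh(i) lam(i)² 2^j/32) (hh(lv) ≥ hh(i)/2, lam monotone).  ht l ≤ 2^(20 lv) ≤ 2^(20(i+1)) ≤ 2^(21 i) for i ≥ 20.
-/

namespace MuntzF
open Set MeasureTheory

theorem e8_I2_sub {b0 : ℝ} (hb : 2 ≤ b0) {θ : ℝ} (h : θ ∈ I2 b0) : θ ∈ I1 b0 := by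
  obtain ⟨h1, h2⟩ := h
  have hb0 : 0 < b0 := by linarith
  constructor
  · refine le_trans ?_ h1
    rw [div_le_div_iff₀ (by linarith) (by linarith)]
    linarith
  · refine h2.trans ?_
    linarith

theorem e8_lam {i k : ℕ} (h1 : i ≤ k) (h2 : k ≤ i + 1) :
    hh i * lam i ^ 2 / 32 ≤ hh k * lam k ^ 2 / 16 := by
  have hl1 : 0 ≤ lam i := by unfold lam; positivity
  have hl : lam i ≤ lam k := by
    unfold lam
    refine Real.rpow_le_rpow_of_exponent_le (by norm_num) ?_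
    have : (i : ℝ) ≤ k := by exact_mod_cast h1
    linarith
  have hh1 : 0 ≤ hh i := by unfold hh; positivity
  have hh2 : hh i / 2 ≤ hh k := by
    unfold hh
    have : ((1 : ℝ) / 2) ^ (i + 1) ≤ (1 / 2) ^ k :=
      pow_le_pow_of_le_one (by norm_num) (by norm_num) h2
    rw [pow_succ] at this
    linarith
  have h3 : lam i ^ 2 ≤ lam k ^ 2 := pow_le_pow_left₀ hl1 hl 2
  have h4 : hh i / 2 * lam i ^ 2 ≤ hh k * lam k ^ 2 :=
    mul_le_mul hh2 h3 (sq_nonneg _) (by linarith)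
  linarith

theorem dg_sub {F : ℂ × ℂ → ℂ} {b0 : ℝ} (X : Ctx F b0) : ∃ i1 : ℕ, ∀ (j : ℕ) (d : ℕ × ℕ) (l : Ln),
    X.win j d → i1 ≤ X.ij j d → Dg X j l ∩ cell d ⊆ DlJ X j d l ∧
      ((Dg X j l ∩ cell d).Nonempty → ht l ≤ 2 ^ (21 * X.ij j d)) := by
  refine ⟨max X.is 20, fun j d l hw hi => ?_⟩
  have hi1 : X.is ≤ X.ij j d := (le_max_left _ _).trans hi
  have hi2 : 20 ≤ X.ij j d := (le_max_right _ _).trans hi
  have hlev : ∀ θ ∈ cell d, X.ij j d ≤ X.lv j θ ∧ X.lv j θ ≤ X.ij j d + 1 := fun θ hθ =>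
    ⟨iJ_le X.c X.L j d ((cell_sub_st d).1 hθ), (win_lev hw.2 ((cell_sub_st d).1 hθ)).2⟩
  constructor
  · rintro θ ⟨⟨hθ2, hht, x, hx1, hx2, hon, hF⟩, hθc⟩
    obtain ⟨hl1, hl2⟩ := hlev θ hθc
    have hst := (cell_sub_st d).1 hθc
    refine ⟨hst, x, hx1, hx2, hon, ?_⟩
    have hbox := X.box j d hw.1 hw.2 hi1
    have hlo := (hbox.lo θ ((cell_sub_st d).2 hst)).2
    have hθ1 : θ ∈ I1 b0 := e8_I2_sub X.env.cs.hb hθ2
    have hanti : X.c (j + 4 * iJ X.c X.L j d) θ ≤ X.c j θ :=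
      c_anti X.env.cs (by have := hw.1; omega) (by omega) hθ1
    have hx0 : 0 < x := lt_of_lt_of_le (by positivity) hx1
    have hlam := e8_lam hl1 hl2
    have h2j : (0 : ℝ) < 2 ^ j := by positivity
    unfold Ctx.fj
    refine (mul_le_mul_of_nonneg_right hF (Real.exp_pos _).le).trans ?_
    rw [← Real.exp_add]
    refine Real.exp_le_exp.2 ?_
    have e1 : X.al j d * x + X.be j d * (θ * x) = (X.al j d + X.be j d * θ) * x := by ring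
    have e2 : (X.al j d + X.be j d * θ) * x ≤ X.c j θ * x :=
      mul_le_mul_of_nonneg_right (hlo.trans hanti) hx0.le
    have e3 := mul_le_mul_of_nonneg_right hlam h2j.le
    rw [e1]
    have e4 : hh (X.lv j θ) * lam (X.lv j θ) ^ 2 * 2 ^ j / 16 =
        hh (X.lv j θ) * lam (X.lv j θ) ^ 2 / 16 * 2 ^ j := by ring
    have e5 : hh (X.ij j d) * lam (X.ij j d) ^ 2 * 2 ^ j / 32 =
        hh (X.ij j d) * lam (X.ij j d) ^ 2 / 32 * 2 ^ j := by ring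
    rw [e4, e5]
    linarith
  · rintro ⟨θ, ⟨hθ2, hht, -⟩, hθc⟩
    obtain ⟨hl1, hl2⟩ := hlev θ hθc
    refine hht.trans (pow_le_pow_right₀ (by norm_num) ?_)
    omega

theorem exg {F : ℂ × ℂ → ℂ} {b0 : ℝ} (X : Ctx F b0) : ∃ (C : ℝ) (i1 : ℕ), 0 < C ∧
    ∀ (j : ℕ) (d : ℕ × ℕ) (u v : ℝ) (LL : Finset Ln), X.win j d → i1 ≤ X.ij j d → u ∈ st d → v ∈ st d →
      ∑ l ∈ LL, volume (Dg X j l ∩ cell d ∩ Icc u v) ≤
        ENNReal.ofReal (C * 2 ^ j) * (∫⁻ θ in Icc u v, kap F j θ)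
          + ENNReal.ofReal (hh (X.ij j d) ^ 9 * 2 ^ j) := by
  classical
  obtain ⟨i1, h1⟩ := dg_sub X
  obtain ⟨C, i2, hC, h2⟩ := ex X
  refine ⟨C, max i1 i2, hC, fun j d u v LL hw hi hu hv => ?_⟩
  have hi1 : i1 ≤ X.ij j d := (le_max_left _ _).trans hi
  have hi2 : i2 ≤ X.ij j d := (le_max_right _ _).trans hi
  have h3 := h2 j d u v (LL.filter fun l => (Dg X j l ∩ cell d).Nonempty) hw hi2 hu hv
    (fun l hl => (h1 j d l hw hi1).2 (Finset.mem_filter.1 hl).2)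
  refine le_trans ?_ h3
  have h4 : ∑ l ∈ LL, volume (Dg X j l ∩ cell d ∩ Icc u v) =
      ∑ l ∈ LL.filter (fun l => (Dg X j l ∩ cell d).Nonempty),
        volume (Dg X j l ∩ cell d ∩ Icc u v) := by
    rw [Finset.sum_filter]
    refine Finset.sum_congr rfl fun l _ => ?_
    split_ifs with h
    · rfl
    · rw [Set.not_nonempty_iff_eq_empty.1 h, Set.empty_inter, measure_empty]
  rw [h4]
  refine Finset.sum_le_sum fun l _ => measure_mono ?_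
  exact Set.inter_subset_inter_left _ (h1 j d l hw hi1).1

end MuntzF
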