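import Pool.Agent.Lib.MP_dde81e_full.EDefs
import Pool.Agent.Lib.MP_dde81e_full.E1
import Pool.Agent.Lib.MP_dde81e_full.E2
import Pool.Agent.Lib.MP_dde81e_full.L2

/-!
Module E9A (text 5.6): bad abscissas (sq1 with M = h λ 2^j for the 19·33 box functions, s = 2(x-x0)/x0), and the number of separated deep points on a good vertical slice.
vert_count: for x not bad, |x - gx j m| ≤ gx j m/8 for some m; for each n ≤ 32 apply slice (t = 1/4, unit disc) to t ↦ fb(...)(s,t) with the good point ‖t0‖ ≤ 1/8, M0 = hλ2^j, M1 = hλ²2^j/32: the points y with |t| ≤ 1/4,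
t = (y-θ0x)/(dl d·x0), |slope - gth d n| ≤ dl d/16: number ≤ C M0 + C (dl d x0/σ) exp(-c λ).
-/

namespace MuntzF
open Set MeasureTheory

private theorem gx_bounds (j m : ℕ) (hm : m ≤ 18) : 2 ^ j / 2 ≤ gx j m ∧ gx j m ≤ 5 * 2 ^ j := by
  unfold gx
  have h1 : (1 : ℝ) ≤ (9 / 8) ^ m := one_le_pow₀ (by norm_num)
  have h2 : ((9 : ℝ) / 8) ^ m ≤ (9 / 8) ^ 18 := pow_le_pow_right₀ (by norm_num) hm
  have h3 : ((9 : ℝ) / 8) ^ 18 ≤ 10 := by norm_num
  have h4 : (0 : ℝ) < 2 ^ j := by positivity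
  constructor
  · nlinarith
  · nlinarith

private theorem gth_mem (d : ℕ × ℕ) (n : ℕ) (hn : n ≤ 32) : gth d n ∈ st d := by
  have hp := L2_dl_pos d
  have h1 : (n : ℝ) ≤ 32 := by exact_mod_cast hn
  have h2 : (0 : ℝ) ≤ n := Nat.cast_nonneg n
  unfold gth st
  constructor <;> nlinarith

private theorem gth_cover (d : ℕ × ℕ) {θ : ℝ} (hθ : θ ∈ st d) :
    ∃ n, n ≤ 32 ∧ |θ - gth d n| ≤ dl d / 16 := by
  have hp := L2_dl_pos d
  obtain ⟨h1, h2⟩ := hθ
  set y : ℝ := (θ - dc d) / dl d * 8 + 16 with hy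
  have hy' : θ - dc d = (y - 16) / 8 * dl d := by
    rw [hy]; field_simp; ring
  have hy0 : 0 ≤ y := by
    have : -2 ≤ (θ - dc d) / dl d := by
      rw [le_div_iff₀ hp]; linarith
    rw [hy]; linarith
  have hy1 : y ≤ 32 := by
    have : (θ - dc d) / dl d ≤ 2 := by
      rw [div_le_iff₀ hp]; linarith
    rw [hy]; linarith
  set n := ⌊y + 1 / 2⌋₊ with hn
  have e1 := Nat.floor_le (by linarith : 0 ≤ y + 1 / 2)
  have e2 := Nat.lt_floor_add_one (y + 1 / 2)
  rw [← hn] at e1 e2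
  have e3 : n ≤ 32 := by
    have : (n : ℝ) < 33 := by linarith
    have : n < 33 := by exact_mod_cast this
    omega
  refine ⟨n, e3, ?_⟩
  have e4 : θ - gth d n = (y - n) / 8 * dl d := by
    unfold gth
    have : θ = dc d + (y - 16) / 8 * dl d := by linarith
    rw [this]; ring
  rw [e4, abs_mul, abs_of_pos hp, abs_div, abs_of_pos (by norm_num : (0 : ℝ) < 8)]
  have e5 : |y - n| ≤ 1 / 2 := by
    rw [abs_le]; constructor <;> linarith
  nlinarith

private structure Setup {F : ℂ × ℂ → ℂ} {b0 : ℝ} (X : Ctx F b0) (j : ℕ) (d : ℕ × ℕ) : Prop where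
  bf : ∀ m n, m ≤ 18 → n ≤ 32 → BF (fb F (X.al j d) (X.be j d) (gx j m) (gth d n) (dl d))
    (X.A1 * hh (X.ij j d) * gx j m)
  m0 : 1 ≤ hh (X.ij j d) * (2 ^ j / 2)
  dl1 : dl d ≤ 1
  dlx : ∀ m, m ≤ 18 → 1 ≤ dl d * gx j m

private theorem setup {F : ℂ × ℂ → ℂ} {b0 : ℝ} (X : Ctx F b0) : ∀ (j : ℕ) (d : ℕ × ℕ), X.win j d →
    X.is + X.w0 + 1 ≤ X.ij j d → Setup X j d := by
  intro j d hw hi
  have hb := X.env.cs.hb
  have hp := L2_dl_pos d
  obtain ⟨hj, hwin⟩ := hw
  have hbox := X.box j d hj hwin (by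
    have : X.is ≤ X.ij j d := by omega
    exact this)
  have hw400 : 400 * b0 ≤ 2 ^ X.w0 := by
    have := X.hw0
    nlinarith
  have hI : ∀ x, |x - dc d| ≤ 4 * dl d → x ∈ I1 b0 := by
    intro x hx
    apply st_sub hb hw400 hwin.1 hwin.2.1
    linarith
  have hij : X.ij j d ≤ j / 100 := L2_iJ_le X.env.cs j d
  have hlen := win_len X.env.cs hw400 hj hwin
  have h3 : hh (X.ij j d) ^ 3 ≤ dl d := by
    unfold hh
    rcases hlen with h | ⟨-, h⟩
    · unfold dl
      rw [h, ← pow_mul]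
      exact pow_le_pow_of_le_one (by norm_num) (by norm_num) (by omega)
    · have e1 : ((1 : ℝ) / 2) ^ X.ij j d ≤ 2 * dl d := h
      have e2 : ((1 : ℝ) / 2) ^ X.ij j d ≤ 1 / 2 := by
        calc ((1 : ℝ) / 2) ^ X.ij j d ≤ (1 / 2) ^ 1 :=
              pow_le_pow_of_le_one (by norm_num) (by norm_num) (by omega)
          _ = 1 / 2 := by norm_num
      have e3 : (0 : ℝ) < (1 / 2) ^ X.ij j d := by positivity
      have e4 : (((1 : ℝ) / 2) ^ X.ij j d) ^ 2 ≤ 1 / 4 := by nlinarith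
      calc (((1 : ℝ) / 2) ^ X.ij j d) ^ 3 = ((1 / 2) ^ X.ij j d) ^ 2 * (1 / 2) ^ X.ij j d := by ring
        _ ≤ 1 / 4 * (2 * dl d) := mul_le_mul e4 e1 e3.le (by norm_num)
        _ ≤ dl d := by linarith
  have hdl1 : dl d ≤ 1 := by
    unfold dl
    exact pow_le_one₀ (by norm_num) (by norm_num)
  have hpow : ((1 : ℝ) / 2) ^ (3 * X.ij j d) * 2 ^ j = 2 ^ (j - 3 * X.ij j d) := by
    obtain ⟨k, hk⟩ : ∃ k, j = 3 * X.ij j d + k := ⟨j - 3 * X.ij j d, by omega⟩
    have e1 : j - 3 * X.ij j d = k := by omega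
    have e2 : (2 : ℝ) ^ j = 2 ^ (3 * X.ij j d) * 2 ^ k := by
      rw [← pow_add, ← hk]
    rw [e1, e2, ← mul_assoc, ← mul_pow]
    norm_num
  have h2le : (2 : ℝ) ≤ 2 ^ (j - 3 * X.ij j d) := by
    calc (2 : ℝ) = 2 ^ 1 := by norm_num
      _ ≤ _ := pow_le_pow_right₀ (by norm_num) (by omega)
  have hh3 : (2 : ℝ) ≤ hh (X.ij j d) ^ 3 * 2 ^ j := by
    unfold hh
    rw [← pow_mul, mul_comm (X.ij j d) 3, hpow]
    exact h2le
  have hj0 : (0 : ℝ) < 2 ^ j := by positivity
  have hh0 : 0 < hh (X.ij j d) := by unfold hh; positivity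
  have hh1 : hh (X.ij j d) ≤ 1 := by
    unfold hh
    exact pow_le_one₀ (by norm_num) (by norm_num)
  have hh31 : hh (X.ij j d) ^ 3 ≤ hh (X.ij j d) := by
    calc hh (X.ij j d) ^ 3 = hh (X.ij j d) * hh (X.ij j d) ^ 2 := by ring
      _ ≤ hh (X.ij j d) * 1 := mul_le_mul_of_nonneg_left (pow_le_one₀ hh0.le hh1) hh0.le
      _ = _ := mul_one _
  refine ⟨fun m n hm hn => ?_, ?_, hdl1, fun m hm => ?_⟩
  · have hg := gx_bounds j m hm
    exact box_bf X.env.hF hb X.hs0 hI hbox hg.1 (by linarith) (gth_mem d n hn) h3 le_rfl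
  · nlinarith
  · have hg := gx_bounds j m hm
    calc (1 : ℝ) ≤ hh (X.ij j d) ^ 3 * (2 ^ j / 2) := by linarith
      _ ≤ dl d * gx j m := mul_le_mul h3 hg.1 (by positivity) hp.le

private theorem lam_one (i : ℕ) : 1 ≤ lam i := by
  unfold lam
  exact Real.one_le_rpow (by norm_num) (by positivity)

theorem bad_absc {F : ℂ × ℂ → ℂ} {b0 : ℝ} (X : Ctx F b0) : ∃ (C c1 : ℝ) (i1 : ℕ), 0 < C ∧ 0 < c1 ∧
    ∀ (j : ℕ) (d : ℕ × ℕ), X.win j d → i1 ≤ X.ij j d → ∃ Bad : Set ℝ, MeasurableSet Bad ∧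
      volume Bad ≤ ENNReal.ofReal (C * 2 ^ j * Real.exp (-(c1 * lam (X.ij j d)))) ∧
      ∀ x : ℝ, x ∉ Bad → ∀ m n, m ≤ 18 → n ≤ 32 → |x - gx j m| ≤ gx j m / 8 →
        ∃ t : ℂ, ‖t‖ ≤ 1 / 8 ∧ Real.exp (-(hh (X.ij j d) * lam (X.ij j d) * 2 ^ j)) ≤
          ‖fb F (X.al j d) (X.be j d) (gx j m) (gth d n) (dl d) ((2 * (x - gx j m) / gx j m : ℝ), t)‖ := by
  obtain ⟨C1, c1, hC1, hc1, hsq⟩ := sq1
  have hA1 := X.hA1
  have hA0 : 0 < X.A1 := by linarith
  refine ⟨19 * 33 * (5 / 2 * C1), c1 / (5 * X.A1), X.is + X.w0 + 1, by positivity, by positivity, ?_⟩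
  intro j d hw hi
  have hS := setup X j d hw hi
  set h := hh (X.ij j d) with hh'
  set l := lam (X.ij j d) with hl'
  have hl1 : 1 ≤ l := lam_one _
  have hj0 : (0 : ℝ) < 2 ^ j := by positivity
  have hh0 : 0 < h := by rw [hh']; unfold hh; positivity
  set f : ℕ → ℕ → ℂ × ℂ → ℂ := fun m n =>
    fb F (X.al j d) (X.be j d) (gx j m) (gth d n) (dl d) with hf
  set B : ℕ → ℕ → Set ℝ := fun m n =>
    {s : ℝ | |s| ≤ 1 / 2 ∧ ∀ t : ℂ, ‖t‖ ≤ 1 / 8 → ‖f m n (s, t)‖ ≤ Real.exp (-(h * l * 2 ^ j))}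
    with hB
  have hBm : ∀ m n, m ≤ 18 → n ≤ 32 → volume (B m n) ≤
      ENNReal.ofReal (C1 * Real.exp (-(c1 / (5 * X.A1) * l))) := by
    intro m n hm hn
    have hg := gx_bounds j m hm
    have hg0 : 0 < gx j m := by linarith
    have h1 := hsq (f m n) (X.A1 * h * gx j m) (h * l * 2 ^ j) (hS.bf m n hm hn) ?_ (by positivity)
    · refine h1.trans (ENNReal.ofReal_le_ofReal ?_)
      apply mul_le_mul_of_nonneg_left _ hC1.le
      apply Real.exp_le_exp.2
      apply neg_le_neg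
      rw [div_mul_eq_mul_div, div_le_div_iff₀ (by positivity) (by positivity)]
      have : c1 * l * (X.A1 * h * gx j m) ≤ c1 * l * (X.A1 * h * (5 * 2 ^ j)) := by
        apply mul_le_mul_of_nonneg_left _ (by positivity)
        apply mul_le_mul_of_nonneg_left hg.2 (by positivity)
      calc c1 * l * (X.A1 * h * gx j m) ≤ c1 * l * (X.A1 * h * (5 * 2 ^ j)) := this
        _ = c1 * (h * l * 2 ^ j) * (5 * X.A1) := by ring
    · have h2 := hS.m0
      calc (1 : ℝ) ≤ 1 * (h * (2 ^ j / 2)) := by linarith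
        _ ≤ X.A1 * (h * gx j m) := by
          apply mul_le_mul hA1 _ (by positivity) hA0.le
          exact mul_le_mul_of_nonneg_left hg.1 hh0.le
        _ = X.A1 * h * gx j m := by ring
  set P : ℕ → ℕ → Set ℝ := fun m n => {x : ℝ | 2 * (x - gx j m) / gx j m ∈ B m n} with hP
  have hPm : ∀ m n, m ≤ 18 → n ≤ 32 → volume (P m n) ≤
      ENNReal.ofReal (5 / 2 * 2 ^ j * (C1 * Real.exp (-(c1 / (5 * X.A1) * l)))) := by
    intro m n hm hn
    have hg := gx_bounds j m hm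
    have hg0 : 0 < gx j m := by linarith
    have e1 : P m n = (fun x => x + (- gx j m)) ⁻¹' ((fun x => (2 / gx j m) * x) ⁻¹' B m n) := by
      ext x
      simp only [hP, mem_ofPred_eq, mem_preimage]
      have : 2 * (x - gx j m) / gx j m = 2 / gx j m * (x + - gx j m) := by ring
      rw [this]
    rw [e1, measure_preimage_add_right, Real.volume_preimage_mul_left (by positivity), inv_div,
      abs_of_pos (by positivity)]
    rw [ENNReal.ofReal_mul (by positivity)]
    refine mul_le_mul' (ENNReal.ofReal_le_ofReal (by linarith)) (hBm m n hm hn)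
  refine ⟨toMeasurable volume (⋃ m ∈ Finset.range 19, ⋃ n ∈ Finset.range 33, P m n),
    measurableSet_toMeasurable _ _, ?_, ?_⟩
  · rw [measure_toMeasurable]
    calc volume (⋃ m ∈ Finset.range 19, ⋃ n ∈ Finset.range 33, P m n)
        ≤ ∑ m ∈ Finset.range 19, volume (⋃ n ∈ Finset.range 33, P m n) :=
          measure_biUnion_finset_le _ _
      _ ≤ ∑ m ∈ Finset.range 19, ∑ n ∈ Finset.range 33, volume (P m n) :=
          Finset.sum_le_sum fun m _ => measure_biUnion_finset_le _ _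
      _ ≤ ∑ m ∈ Finset.range 19, ∑ n ∈ Finset.range 33,
            ENNReal.ofReal (5 / 2 * 2 ^ j * (C1 * Real.exp (-(c1 / (5 * X.A1) * l)))) := by
          refine Finset.sum_le_sum fun m hm => Finset.sum_le_sum fun n hn => ?_
          rw [Finset.mem_range] at hm hn
          exact hPm m n (by omega) (by omega)
      _ = ENNReal.ofReal (19 * 33 * (5 / 2 * C1) * 2 ^ j * Real.exp (-(c1 / (5 * X.A1) * l))) := by
          rw [Finset.sum_const, Finset.sum_const, Finset.card_range, Finset.card_range, smul_smul,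
            nsmul_eq_mul, ← ENNReal.ofReal_natCast, ← ENNReal.ofReal_mul (by positivity)]
          congr 1
          push_cast
          ring
  · intro x hx m n hm hn hxm
    by_contra hcon
    push Not at hcon
    apply hx
    apply subset_toMeasurable
    simp only [mem_iUnion]
    have hg := gx_bounds j m hm
    have hg0 : 0 < gx j m := by linarith
    refine ⟨m, by rw [Finset.mem_range]; omega, n, by rw [Finset.mem_range]; omega, ?_, ?_⟩
    · rw [abs_div, abs_mul, abs_of_pos hg0, abs_of_pos (by norm_num : (0 : ℝ) < 2),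
        div_le_iff₀ hg0]
      linarith
    · intro t ht
      exact (hcon t ht).le

private theorem bf_df {f : ℂ × ℂ → ℂ} {M0 : ℝ} (hf : BF f M0) {s : ℂ} (hs : ‖s‖ ≤ 1) :
    DF (fun t => f (s, t)) 0 1 := by
  obtain ⟨U, hU, hsub, hd⟩ := hf.dif
  constructor
  · have hopen : IsOpen {t : ℂ | (s, t) ∈ U} := hU.preimage (by fun_prop)
    have h1 : DifferentiableOn ℂ (fun t => f (s, t)) {t : ℂ | (s, t) ∈ U} := by
      have h2 : DifferentiableOn ℂ (fun t : ℂ => ((s, t) : ℂ × ℂ)) {t : ℂ | (s, t) ∈ U} :=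
        ((differentiable_const s).prodMk differentiable_id).differentiableOn
      exact hd.comp h2 (fun t ht => ht)
    refine (h1.analyticOnNhd hopen).mono ?_
    intro t ht
    rw [mem_closedBall_zero_iff] at ht
    exact hsub ⟨hs, ht⟩
  · intro t ht
    rw [mem_closedBall_zero_iff] at ht
    exact hf.bd (s, t) hs ht

theorem vert_count {F : ℂ × ℂ → ℂ} {b0 : ℝ} (X : Ctx F b0) : ∃ (C c1 : ℝ) (i1 : ℕ), 0 < C ∧ 0 < c1 ∧
    ∀ (j : ℕ) (d : ℕ × ℕ) (x σ : ℝ) (m : ℕ) (Ys : Finset ℝ), X.win j d → i1 ≤ X.ij j d → 0 < σ → σ ≤ 1 →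
    m ≤ 18 → |x - gx j m| ≤ gx j m / 8 →
    (∀ n, n ≤ 32 → ∃ t : ℂ, ‖t‖ ≤ 1 / 8 ∧ Real.exp (-(hh (X.ij j d) * lam (X.ij j d) * 2 ^ j)) ≤
          ‖fb F (X.al j d) (X.be j d) (gx j m) (gth d n) (dl d) ((2 * (x - gx j m) / gx j m : ℝ), t)‖) →
    (∀ y ∈ Ys, y / x ∈ st d ∧
      X.fj j d x y ≤ Real.exp (-(hh (X.ij j d) * lam (X.ij j d) ^ 2 * 2 ^ j / 32))) →
    (∀ y ∈ Ys, ∀ y' ∈ Ys, y ≠ y' → σ ≤ |y - y'|) →
    (Ys.card : ℝ) ≤ C * hh (X.ij j d) * lam (X.ij j d) * 2 ^ j +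
      C * (2 ^ j / σ) * Real.exp (-(c1 * lam (X.ij j d))) := by
  classical
  obtain ⟨C1, c1, hC1, hc1, hsl⟩ := slice (1 / 4) (by norm_num) (by norm_num)
  refine ⟨33 * (5 * C1), c1 / 32, X.is + X.w0 + 1, by positivity, by positivity, ?_⟩
  intro j d x σ m Ys hw hi hσ hσ1 hm hxm hgood hY hsep
  have hS := setup X j d hw hi
  have hp := L2_dl_pos d
  have hdl1 := hS.dl1
  set h := hh (X.ij j d) with hh'
  set l := lam (X.ij j d) with hl'
  have hl1 : 1 ≤ l := lam_one _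
  have hl0 : 0 < l := by linarith
  have hj0 : (0 : ℝ) < 2 ^ j := by positivity
  have hh0 : 0 < h := by rw [hh']; unfold hh; positivity
  have hg := gx_bounds j m hm
  have hg0 : 0 < gx j m := by linarith
  have hm0 := hS.m0
  have hM0 : 1 ≤ h * l * 2 ^ j := by
    have h1 : h * (2 ^ j / 2) ≤ h * l * 2 ^ j := by
      have : (2 : ℝ) ^ j / 2 ≤ l * 2 ^ j := by nlinarith
      calc h * (2 ^ j / 2) ≤ h * (l * 2 ^ j) := mul_le_mul_of_nonneg_left this hh0.le
        _ = _ := by ring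
    linarith
  have hx0 : 0 < x := by
    have := (abs_le.1 hxm).1
    linarith
  have hx1 : x ≤ 9 / 8 * gx j m := by
    have := (abs_le.1 hxm).2
    linarith
  have hdx := hS.dlx m hm
  have hdx0 : 0 < dl d * gx j m := by positivity
  set s : ℝ := 2 * (x - gx j m) / gx j m with hs
  have hs1 : ‖(s : ℂ)‖ ≤ 1 := by
    rw [Complex.norm_real, Real.norm_eq_abs, hs, abs_div, abs_mul, abs_of_pos hg0,
      abs_of_pos (by norm_num : (0 : ℝ) < 2), div_le_iff₀ hg0]
    linarith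
  have hper : ∀ n ∈ Finset.range 33,
      ((Ys.filter (fun y => |y / x - gth d n| ≤ dl d / 16)).card : ℝ) ≤
        C1 * (h * l * 2 ^ j) + C1 * (5 * 2 ^ j / σ) * Real.exp (-(c1 / 32 * l)) := by
    intro n hn
    rw [Finset.mem_range] at hn
    have hn' : n ≤ 32 := by omega
    have hbf := hS.bf m n hm hn'
    set g : ℝ → ℝ := fun y => (y - gth d n * x) / (dl d * gx j m) with hgdef
    have hginj : Function.Injective g := by
      intro y y' hyy
      simp only [hgdef] at hyy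
      rw [div_left_inj' hdx0.ne'] at hyy
      linarith
    have hgsub : ∀ y y', |g y - g y'| = |y - y'| / (dl d * gx j m) := by
      intro y y'
      simp only [hgdef]
      rw [← sub_div, abs_div, abs_of_pos hdx0]
      congr 2
      ring
    have hval : ∀ y : ℝ, ‖fb F (X.al j d) (X.be j d) (gx j m) (gth d n) (dl d) ((s : ℂ), ((g y : ℝ) : ℂ))‖
        = X.fj j d x y := by
      intro y
      unfold fb Ctx.fj
      have e1 : ((gx j m : ℝ) : ℂ) * (1 + ((s : ℝ) : ℂ) / 2) = (x : ℂ) := by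
        rw [hs]
        have : ((gx j m : ℝ) : ℂ) ≠ 0 := by exact_mod_cast hg0.ne'
        push_cast
        field_simp
        ring
      have e2 : ((gth d n : ℝ) : ℂ) * (x : ℂ) + ((dl d : ℝ) : ℂ) * ((gx j m : ℝ) : ℂ) * ((g y : ℝ) : ℂ) = (y : ℂ) := by
        have : dl d * gx j m * g y = y - gth d n * x := by
          simp only [hgdef]
          field_simp
        have h2 : gth d n * x + dl d * gx j m * g y = y := by rw [this]; ring
        exact_mod_cast h2
      simp only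
      rw [e1, e2, norm_mul, Complex.norm_exp]
      congr 2
      simp
    have key := hsl (fun t => fb F (X.al j d) (X.be j d) (gx j m) (gth d n) (dl d) ((s : ℂ), t))
      0 1 (h * l * 2 ^ j) (h * l ^ 2 * 2 ^ j / 32) (σ / (dl d * gx j m))
      ((Ys.filter (fun y => |y / x - gth d n| ≤ dl d / 16)).image g)
      one_pos hM0 (by positivity) (by positivity) ?_ (by
        have := bf_df hbf hs1
        simpa using this) ?_ ?_ ?_
    · obtain ⟨S, k, -, -, -, hc, hcard⟩ := key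
      rw [Finset.card_image_of_injective _ hginj] at hcard
      refine hcard.trans (add_le_add hc ?_)
      have e1 : c1 * (h * l ^ 2 * 2 ^ j / 32) / (h * l * 2 ^ j) = c1 / 32 * l := by
        field_simp
      rw [e1]
      apply mul_le_mul_of_nonneg_right _ (Real.exp_pos _).le
      apply mul_le_mul_of_nonneg_left _ hC1.le
      rw [one_div_div, div_le_div_iff_of_pos_right hσ]
      calc dl d * gx j m ≤ 1 * gx j m := mul_le_mul_of_nonneg_right hdl1 hg0.le
        _ ≤ 5 * 2 ^ j := by linarith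
    · rw [div_le_one hdx0]
      linarith
    · obtain ⟨t, ht, ht2⟩ := hgood n hn'
      refine ⟨t, ?_, ht2⟩
      rw [Complex.ofReal_zero, sub_zero]
      linarith
    · intro t ht
      rw [Finset.mem_image] at ht
      obtain ⟨y, hy, rfl⟩ := ht
      rw [Finset.mem_filter] at hy
      constructor
      · rw [sub_zero, mul_one]
        simp only [hgdef]
        have e1 : y - gth d n * x = (y / x - gth d n) * x := by
          field_simp
        rw [e1, abs_div, abs_mul, abs_of_pos hx0, abs_of_pos hdx0, div_le_iff₀ hdx0]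
        calc |y / x - gth d n| * x ≤ dl d / 16 * (9 / 8 * gx j m) :=
              mul_le_mul hy.2 hx1 hx0.le (by positivity)
          _ ≤ 1 / 4 * (dl d * gx j m) := by nlinarith
      · rw [hval y]
        exact (hY y hy.1).2
    · intro t ht t' ht' htt
      rw [Finset.mem_image] at ht ht'
      obtain ⟨y, hy, rfl⟩ := ht
      obtain ⟨y', hy', rfl⟩ := ht'
      rw [Finset.mem_filter] at hy hy'
      rw [hgsub, div_le_div_iff_of_pos_right hdx0]
      exact hsep y hy.1 y' hy'.1 (fun e => htt (by rw [e]))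
  have hcov : Ys ⊆ (Finset.range 33).biUnion
      (fun n => Ys.filter (fun y => |y / x - gth d n| ≤ dl d / 16)) := by
    intro y hy
    obtain ⟨n, hn, hn2⟩ := gth_cover d (hY y hy).1
    rw [Finset.mem_biUnion]
    exact ⟨n, by rw [Finset.mem_range]; omega, by rw [Finset.mem_filter]; exact ⟨hy, hn2⟩⟩
  have hcard : (Ys.card : ℝ) ≤ ∑ n ∈ Finset.range 33,
      ((Ys.filter (fun y => |y / x - gth d n| ≤ dl d / 16)).card : ℝ) := by
    have := (Finset.card_le_card hcov).trans Finset.card_biUnion_le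
    exact_mod_cast this
  refine (hcard.trans (Finset.sum_le_sum hper)).trans ?_
  rw [Finset.sum_const, Finset.card_range, nsmul_eq_mul]
  have e0 : 0 ≤ C1 * (h * l * 2 ^ j) := by positivity
  push_cast
  have e1 : 33 * (C1 * (h * l * 2 ^ j) + C1 * (5 * 2 ^ j / σ) * Real.exp (-(c1 / 32 * l))) =
      33 * (C1 * (h * l * 2 ^ j)) + 33 * (5 * C1) * (2 ^ j / σ) * Real.exp (-(c1 / 32 * l)) := by
    ring
  rw [e1]
  have e2 : 33 * (5 * C1) * h * l * 2 ^ j = 165 * (C1 * (h * l * 2 ^ j)) := by ring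
  rw [e2]
  linarith

end MuntzF
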