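import Pool.Agent.Lib.MP_dde81e_full.BDefs

/-!
Definitions for the modules E7-E12: grid of centres and slopes.
-/

namespace MuntzF
open Set

/-- grid of abscissas: `2^j/2 (9/8)^m`, `m ≤ 18`, covers `[2^j/2, 4·2^j]` up to the factor `1 ± 1/8`. -/
noncomputable def gx (j m : ℕ) : ℝ := 2 ^ j / 2 * (9 / 8) ^ m
/-- grid of slopes of `st d`: `dc d + (n-16)/8 dl d`, `n ≤ 32`. -/
noncomputable def gth (d : ℕ × ℕ) (n : ℕ) : ℝ := dc d + ((n : ℝ) - 16) / 8 * dl d

end MuntzF
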