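import Pool.Agent.Lib.MP_dde81e_full.Defs

/-!
Module G1 (text 7.1, weak Bezout).  K finite set of common zeros of the relatively prime p, q (both nonzero: a zero polynomial is
relatively prime only to units, which have no zeros).  Dimension count.  For large n let V_n = polynomials of total degree ≤ n (dimension (n+1)(n+2)/2), or use the
boxes {degree in x < a, degree in y < b} (dimension ab; Bezout number d1 e2 + d2 e1 ≤ 2 deg p deg q).  The map (a,b) ↦ a p + b q from
V_{n-d1} × V_{n-d2} has kernel {(c q, -c p)} (relative primality, UFD), hence the quotient of V_n by its image has dimension ≤ d1 d2; the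
evaluations at the points of K are independent functionals on V_n for n ≥ #K (interpolation: products of linear forms) and vanish on the image.
-/

namespace MuntzF
open Set

/-- polynomials of total degree at most `n` -/
noncomputable abbrev VV (n : ℕ) : Submodule ℝ (MvPolynomial (Fin 2) ℝ) :=
  MvPolynomial.restrictTotalDegree (Fin 2) ℝ n

theorem sum_fin2 (d : Fin 2 →₀ ℕ) : (d.sum fun _ e => e) = d 0 + d 1 := by
  rw [Finsupp.sum_fintype _ _ (fun _ => rfl), Fin.sum_univ_two]

theorem two_card_tri (n : ℕ) :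
    2 * ((Finset.range (n + 1)).sigma (fun i => Finset.range (n + 1 - i))).card = (n + 1) * (n + 2) := by
  rw [Finset.card_sigma]
  simp only [Finset.card_range]
  induction n with
  | zero => simp
  | succ n ih =>
    have h1 : ∑ x ∈ Finset.range (n + 1 + 1), (n + 1 + 1 - x) =
        ∑ x ∈ Finset.range (n + 1), (n + 1 - x) + (n + 2) := by
      rw [Finset.sum_range_succ']
      simp only [Nat.add_sub_add_right, Nat.sub_zero]
    rw [h1, mul_add, ih]
    ring

/-- the exponents of total degree at most `n` as pairs -/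
noncomputable def triEquiv (n : ℕ) : {d : Fin 2 →₀ ℕ // (d.sum fun _ e => e) ≤ n} ≃
    {s : (_ : ℕ) × ℕ // s ∈ (Finset.range (n + 1)).sigma (fun i => Finset.range (n + 1 - i))} where
  toFun d := ⟨⟨d.1 0, d.1 1⟩, by
    have h := d.2
    rw [sum_fin2] at h
    rw [Finset.mem_sigma, Finset.mem_range, Finset.mem_range]
    constructor
    · show d.1 0 < n + 1
      omega
    · show d.1 1 < n + 1 - d.1 0
      omega⟩
  invFun s := ⟨Finsupp.equivFunOnFinite.symm ![s.1.1, s.1.2], by
    have h := s.2
    rw [Finset.mem_sigma, Finset.mem_range, Finset.mem_range] at h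
    rw [sum_fin2]
    simp only [Finsupp.equivFunOnFinite_symm_apply_apply, Matrix.cons_val_zero, Matrix.cons_val_one]
    omega⟩
  left_inv d := by
    apply Subtype.ext
    ext i
    fin_cases i <;> simp
  right_inv s := by
    apply Subtype.ext
    simp

theorem two_finrank_VV (n : ℕ) : 2 * Module.finrank ℝ (VV n) = (n + 1) * (n + 2) := by
  have h1 : Module.finrank ℝ (VV n) = Nat.card {d : Fin 2 →₀ ℕ // (d.sum fun _ e => e) ≤ n} :=
    Module.finrank_eq_nat_card_basis
      (MvPolynomial.basisRestrictSupport ℝ {d : Fin 2 →₀ ℕ | (d.sum fun _ e => e) ≤ n})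
  rw [h1, Nat.card_congr (triEquiv n), ← two_card_tri n, Nat.card_eq_fintype_card, Fintype.card_coe]

/-- evaluation at the points of `K` -/
noncomputable def evK (K : Finset (ℝ × ℝ)) : MvPolynomial (Fin 2) ℝ →ₗ[ℝ] (K → ℝ) where
  toFun f := fun P => ev f P.1.1 P.1.2
  map_add' f g := by
    funext P
    simp [ev]
  map_smul' c f := by
    funext P
    simp [ev]

open Classical in
theorem exists_sep (K : Finset (ℝ × ℝ)) (P : ℝ × ℝ) :
    ∃ f : MvPolynomial (Fin 2) ℝ, f.totalDegree ≤ K.card ∧ ev f P.1 P.2 ≠ 0 ∧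
      ∀ Q ∈ K, Q ≠ P → ev f Q.1 Q.2 = 0 := by
  set l : ℝ × ℝ → MvPolynomial (Fin 2) ℝ := fun Q =>
    if P.1 = Q.1 then MvPolynomial.X 1 - MvPolynomial.C Q.2 else MvPolynomial.X 0 - MvPolynomial.C Q.1
    with hl
  refine ⟨∏ Q ∈ K.erase P, l Q, ?_, ?_, ?_⟩
  · refine (MvPolynomial.totalDegree_finsetProd _ _).trans ?_
    calc ∑ Q ∈ K.erase P, (l Q).totalDegree ≤ ∑ Q ∈ K.erase P, 1 := by
          apply Finset.sum_le_sum
          intro Q _
          simp only [hl]
          split_ifs
          · refine (MvPolynomial.totalDegree_sub_C_le _ _).trans ?_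
            rw [MvPolynomial.totalDegree_X]
          · refine (MvPolynomial.totalDegree_sub_C_le _ _).trans ?_
            rw [MvPolynomial.totalDegree_X]
      _ = (K.erase P).card := by simp
      _ ≤ K.card := Finset.card_erase_le
  · unfold ev
    rw [map_prod]
    rw [Finset.prod_ne_zero_iff]
    intro Q hQ
    rw [Finset.mem_erase] at hQ
    simp only [hl]
    split_ifs with h
    · simp only [map_sub, MvPolynomial.eval_X, MvPolynomial.eval_C, Matrix.cons_val_one]
      intro hcon
      apply hQ.1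
      refine Prod.ext h.symm ?_
      have : P.2 - Q.2 = 0 := by simpa using hcon
      linarith
    · simp only [map_sub, MvPolynomial.eval_X, MvPolynomial.eval_C, Matrix.cons_val_zero]
      intro hcon
      apply h
      linarith
  · intro Q hQ hne
    unfold ev
    rw [map_prod]
    apply Finset.prod_eq_zero (Finset.mem_erase.mpr ⟨hne, hQ⟩)
    simp only [hl]
    split_ifs with h
    · simp
    · simp

open Classical in
theorem evK_surj (K : Finset (ℝ × ℝ)) (n : ℕ) (hn : K.card ≤ n) :
    Function.Surjective ((evK K).domRestrict (VV n)) := by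
  choose f hf1 hf2 hf3 using fun P : K => exists_sep K P.1
  intro t
  have hmem : ∀ P : K, f P ∈ VV n := fun P => by
    rw [MvPolynomial.mem_restrictTotalDegree]
    exact (hf1 P).trans hn
  refine ⟨∑ P : K, (t P / ev (f P) P.1.1 P.1.2) • ⟨f P, hmem P⟩, ?_⟩
  rw [map_sum]
  funext Q
  rw [Finset.sum_apply]
  rw [Finset.sum_eq_single Q]
  · rw [map_smul]
    show (t Q / ev (f Q) Q.1.1 Q.1.2) * ev (f Q) Q.1.1 Q.1.2 = t Q
    rw [div_mul_cancel₀ _ (hf2 Q)]
  · intro P _ hPQ
    rw [map_smul]
    show (t P / ev (f P) P.1.1 P.1.2) * ev (f P) Q.1.1 Q.1.2 = 0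
    rw [hf3 P Q.1 Q.2 (fun h => hPQ (Subtype.ext h.symm)), mul_zero]
  · intro h
    exact absurd (Finset.mem_univ Q) h

theorem mul_mem_VV {a b n : ℕ} {f g : MvPolynomial (Fin 2) ℝ} (hf : f ∈ VV a) (hg : g.totalDegree ≤ b)
    (h : a + b ≤ n) : f * g ∈ VV n := by
  rw [MvPolynomial.mem_restrictTotalDegree] at hf ⊢
  exact (MvPolynomial.totalDegree_mul _ _).trans (by omega)

theorem bezout {p q : MvPolynomial (Fin 2) ℝ} (h : IsRelPrime p q) (K : Finset (ℝ × ℝ))
    (hK : ∀ P ∈ K, ev p P.1 P.2 = 0 ∧ ev q P.1 P.2 = 0) :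
    K.card ≤ 2 * p.totalDegree * q.totalDegree := by
  -- a unit has no zero
  have hunit : ∀ u : MvPolynomial (Fin 2) ℝ, IsUnit u → ∀ x y, ev u x y ≠ 0 := by
    intro u hu x y
    exact (hu.map (MvPolynomial.eval ![x, y])).ne_zero
  by_cases hp : p = 0
  · have hq : IsUnit q := h (hp ▸ dvd_zero q) dvd_rfl
    have : K = ∅ := by
      rw [Finset.eq_empty_iff_forall_notMem]
      intro P hP
      exact hunit q hq _ _ (hK P hP).2
    rw [this]
    simp
  by_cases hq : q = 0
  · have hp' : IsUnit p := h dvd_rfl (hq ▸ dvd_zero p)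
    have : K = ∅ := by
      rw [Finset.eq_empty_iff_forall_notMem]
      intro P hP
      exact hunit p hp' _ _ (hK P hP).1
    rw [this]
    simp
  set d1 := p.totalDegree with hd1
  set d2 := q.totalDegree with hd2
  set m := K.card with hm
  set n := m + d1 + d2 with hn
  -- the map (a,b) ↦ a p + b q
  let φ0 : (VV (m + d2) × VV (m + d1)) →ₗ[ℝ] MvPolynomial (Fin 2) ℝ :=
    { toFun := fun ab => ab.1.1 * p + ab.2.1 * q
      map_add' := by
        intro x y
        show (x.1.1 + y.1.1) * p + (x.2.1 + y.2.1) * q = _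
        ring
      map_smul' := by
        intro c x
        show (c • x.1.1) * p + (c • x.2.1) * q = c • (x.1.1 * p + x.2.1 * q)
        rw [smul_add, smul_mul_assoc, smul_mul_assoc] }
  have hφ0 : ∀ ab, φ0 ab ∈ VV n := by
    intro ab
    exact Submodule.add_mem _ (mul_mem_VV ab.1.2 le_rfl (by omega)) (mul_mem_VV ab.2.2 le_rfl (by omega))
  let φ : (VV (m + d2) × VV (m + d1)) →ₗ[ℝ] VV n := φ0.codRestrict (VV n) hφ0
  let g : VV n →ₗ[ℝ] (K → ℝ) := (evK K).domRestrict (VV n)
  have hg : Function.Surjective g := evK_surj K n (by omega)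
  have e1 : Module.finrank ℝ (LinearMap.range g) = m := by
    rw [LinearMap.range_eq_top.mpr hg, finrank_top, Module.finrank_fintype_fun_eq_card, Fintype.card_coe]
  have e2 := LinearMap.finrank_range_add_finrank_ker g
  have e3 : LinearMap.range φ ≤ LinearMap.ker g := by
    rintro _ ⟨ab, rfl⟩
    rw [LinearMap.mem_ker]
    funext P
    show ev (ab.1.1 * p + ab.2.1 * q) P.1.1 P.1.2 = 0
    have h1 := (hK P.1 P.2).1
    have h2 := (hK P.1 P.2).2
    unfold ev at *
    rw [map_add, map_mul, map_mul, h1, h2]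
    ring
  have e4 := Submodule.finrank_mono e3
  have e5 := LinearMap.finrank_range_add_finrank_ker φ
  -- the syzygy
  let ψ : VV m →ₗ[ℝ] (VV (m + d2) × VV (m + d1)) :=
    { toFun := fun c => (⟨c.1 * q, mul_mem_VV c.2 le_rfl le_rfl⟩,
        ⟨-(c.1 * p), Submodule.neg_mem _ (mul_mem_VV c.2 le_rfl le_rfl)⟩)
      map_add' := by
        intro x y
        refine Prod.ext (Subtype.ext ?_) (Subtype.ext ?_)
        · show (x.1 + y.1) * q = x.1 * q + y.1 * q
          ring
        · show -((x.1 + y.1) * p) = -(x.1 * p) + -(y.1 * p)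
          ring
      map_smul' := by
        intro c x
        refine Prod.ext (Subtype.ext ?_) (Subtype.ext ?_)
        · show (c • x.1) * q = c • (x.1 * q)
          rw [smul_mul_assoc]
        · show -((c • x.1) * p) = c • (-(x.1 * p))
          rw [smul_mul_assoc, smul_neg] }
  have e6 : LinearMap.ker φ ≤ LinearMap.range ψ := by
    rintro ⟨⟨a, ha⟩, ⟨b, hb⟩⟩ hab
    rw [LinearMap.mem_ker] at hab
    have h1 : a * p + b * q = 0 := congrArg Subtype.val hab
    have h2 : q ∣ a * p := ⟨-b, by linear_combination h1⟩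
    obtain ⟨c, hc⟩ := h.symm.dvd_of_dvd_mul_right h2
    have h3 : q * (c * p + b) = 0 := by rw [hc] at h1; linear_combination h1
    have h4 : c * p + b = 0 := by
      rcases mul_eq_zero.mp h3 with h5 | h5
      · exact absurd h5 hq
      · exact h5
    have hcdeg : c.totalDegree ≤ m := by
      by_cases hc0 : c = 0
      · rw [hc0]; simp
      · have h6 := MvPolynomial.totalDegree_mul_of_isDomain hq hc0
        rw [MvPolynomial.mem_restrictTotalDegree, hc, h6] at ha
        omega
    refine ⟨⟨c, (MvPolynomial.mem_restrictTotalDegree _ _ _).mpr hcdeg⟩, ?_⟩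
    refine Prod.ext (Subtype.ext ?_) (Subtype.ext ?_)
    · show c * q = a
      rw [hc]; ring
    · show -(c * p) = b
      linear_combination -h4
  have e7 := Submodule.finrank_mono e6
  have e8 : Module.finrank ℝ (LinearMap.range ψ) ≤ Module.finrank ℝ (VV m) := LinearMap.finrank_range_le ψ
  rw [Module.finrank_prod] at e5
  have f1 := two_finrank_VV n
  have f2 := two_finrank_VV (m + d2)
  have f3 := two_finrank_VV (m + d1)
  have f4 := two_finrank_VV m
  have key : 2 * Module.finrank ℝ (VV (m + d2)) + 2 * Module.finrank ℝ (VV (m + d1)) + 2 * m ≤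
      2 * Module.finrank ℝ (VV n) + 2 * Module.finrank ℝ (VV m) := by
    omega
  rw [f1, f2, f3, f4, hn] at key
  nlinarith [Nat.zero_le (d1 * d2)]

end MuntzF
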