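import Pool.Agent.Lib.MP_dde81e_full.G1

/-!
Module G2 (text 7.2, generic perturbation).  q = G - δ, G = S + β y + e y^N.
The polynomials dy G, dx G + σ dy G, Hq G + κ (dy G)^3 do not depend on δ and are nonzero (coefficient of y^(N-1), y^(N-1), y^(3N-3): look at
the top degree part, S.totalDegree < N).  A nonconstant g dividing G-δ and G-δ' divides a nonzero constant: impossible; so each irreducible factor of such a
polynomial B excludes at most one δ, and for all but finitely many δ q is relatively prime to B; then G1.  (totalDegree of Hq+.. ≤ 3N-3.)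
simple: dy(dy G) is nonzero and does not depend on β; for all but finitely many β it is relatively prime to dy G, so they have finitely many
common zeros (G1 bounds the cardinality of every finite subset), each excludes one δ.
gm: for fixed m the polynomial y ↦ G(m,y) has finitely many critical points, each excludes one δ.
-/

namespace MuntzF
open Set

/-- each irreducible factor of `B` divides at most one `G - δ` -/
theorem G2_bad (G B : MvPolynomial (Fin 2) ℝ) (hB : B ≠ 0) :
    {δ : ℝ | ¬ IsRelPrime (G - MvPolynomial.C δ) B}.Finite := by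
  classical
  have h1 : {δ : ℝ | ¬ IsRelPrime (G - MvPolynomial.C δ) B} ⊆
      ⋃ p ∈ ((UniqueFactorizationMonoid.factors B).toFinset : Set (MvPolynomial (Fin 2) ℝ)),
        {δ : ℝ | p ∣ G - MvPolynomial.C δ} := by
    intro δ hδ
    simp only [mem_ofPred_eq, IsRelPrime, not_forall] at hδ
    obtain ⟨d, hd1, hd2, hd3⟩ := hδ
    have hd0 : d ≠ 0 := by
      rintro rfl
      exact hB (zero_dvd_iff.1 hd2)
    obtain ⟨i, hi, hid⟩ := WfDvdMonoid.exists_irreducible_factor hd3 hd0
    obtain ⟨p, hp, hip⟩ := UniqueFactorizationMonoid.exists_mem_factors_of_dvd hB hi (hid.trans hd2)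
    simp only [mem_iUnion, Finset.mem_coe, Multiset.mem_toFinset]
    exact ⟨p, hp, (hip.symm.dvd).trans (hid.trans hd1)⟩
  refine Set.Finite.subset (Set.Finite.biUnion (Finset.finite_toSet _) ?_) h1
  intro p hp
  refine Set.Subsingleton.finite ?_
  intro δ hδ δ' hδ'
  by_contra hne
  have hp1 : Irreducible p :=
    UniqueFactorizationMonoid.irreducible_of_factor p (Multiset.mem_toFinset.1 (Finset.mem_coe.1 hp))
  have h2 : p ∣ MvPolynomial.C (δ' - δ) := by
    have h3 : (MvPolynomial.C (δ' - δ) : MvPolynomial (Fin 2) ℝ) =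
        (G - MvPolynomial.C δ) - (G - MvPolynomial.C δ') := by
      rw [map_sub]; ring
    rw [h3]
    exact dvd_sub hδ hδ'
  have h4 : IsUnit (MvPolynomial.C (δ' - δ) : MvPolynomial (Fin 2) ℝ) :=
    (isUnit_iff_ne_zero.2 (sub_ne_zero.2 (Ne.symm hne))).map _
  exact hp1.not_isUnit (isUnit_of_dvd_unit h2 h4)

/-- all monomials have degree less than `n` -/
def G2_LT (p : MvPolynomial (Fin 2) ℝ) (n : ℕ) : Prop := ∀ s ∈ p.support, s 0 + s 1 < n

theorem G2_LT_of (p : MvPolynomial (Fin 2) ℝ) {n : ℕ} (h : p.totalDegree < n) : G2_LT p n := by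
  intro s hs
  refine lt_of_le_of_lt ?_ h
  have h1 := MvPolynomial.le_totalDegree hs
  have h2 : (s.sum fun _ e => e) = s 0 + s 1 := by
    rw [Finsupp.sum_fintype _ _ (fun _ => rfl), Fin.sum_univ_two]
  exact h2 ▸ h1

theorem G2_LT_pd {p : MvPolynomial (Fin 2) ℝ} {n : ℕ} (h : G2_LT p n) (i : Fin 2) :
    G2_LT (MvPolynomial.pderiv i p) (n - 1) := by
  intro s hs
  rw [MvPolynomial.mem_support_iff, MvPolynomial.coeff_pderiv] at hs
  have h1 : s + Finsupp.single i 1 ∈ p.support := by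
    rw [MvPolynomial.mem_support_iff]
    exact left_ne_zero_of_mul hs
  have h2 := h _ h1
  have h3 : (s + Finsupp.single i 1 : Fin 2 →₀ ℕ) 0 + (s + Finsupp.single i 1 : Fin 2 →₀ ℕ) 1 =
      s 0 + s 1 + 1 := by
    simp only [Finsupp.add_apply, Finsupp.single_apply]
    fin_cases i
    · simp; ring
    · simp; ring
  omega

theorem G2_LT_mono {p : MvPolynomial (Fin 2) ℝ} {n k : ℕ} (h : G2_LT p n) (hn : n ≤ k) :
    G2_LT p k := fun s hs => lt_of_lt_of_le (h s hs) hn

/-- substitution of `m` and `X` -/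
noncomputable def G2_phi (m : ℝ) : MvPolynomial (Fin 2) ℝ →ₐ[ℝ] Polynomial ℝ :=
  MvPolynomial.aeval ![Polynomial.C m, Polynomial.X]

theorem G2_phi_eval (m y : ℝ) (p : MvPolynomial (Fin 2) ℝ) :
    Polynomial.eval y (G2_phi m p) = ev p m y := by
  have h : (Polynomial.evalRingHom y).comp (G2_phi m : MvPolynomial (Fin 2) ℝ →+* Polynomial ℝ) =
      MvPolynomial.eval ![m, y] := by
    refine MvPolynomial.ringHom_ext ?_ ?_
    · intro r
      simp [G2_phi]
    · intro i
      fin_cases i <;> simp [G2_phi]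
  exact DFunLike.congr_fun h p

theorem G2_phi_coeff (m : ℝ) {p : MvPolynomial (Fin 2) ℝ} {n k : ℕ} (h : G2_LT p n) (hk : n ≤ k) :
    (G2_phi m p).coeff k = 0 := by
  rw [p.as_sum, map_sum, Polynomial.finsetSum_coeff]
  refine Finset.sum_eq_zero fun s hs => ?_
  have h1 := h s hs
  unfold G2_phi
  rw [MvPolynomial.aeval_monomial, Finsupp.prod_fintype _ _ (fun _ => pow_zero _),
    Fin.prod_univ_two]
  simp only [Matrix.cons_val_zero, Matrix.cons_val_one]
  rw [← Polynomial.C_pow, ← mul_assoc, Polynomial.algebraMap_eq, ← Polynomial.C_mul,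
    Polynomial.coeff_C_mul, Polynomial.coeff_X_pow, if_neg (by omega), mul_zero]

theorem G2_phi_nd (m : ℝ) {p : MvPolynomial (Fin 2) ℝ} {n : ℕ} (h : G2_LT p (n + 1)) :
    (G2_phi m p).natDegree ≤ n := by
  rw [Polynomial.natDegree_le_iff_coeff_eq_zero]
  intro k hk
  exact G2_phi_coeff m h hk

theorem G2_td_pd (p : MvPolynomial (Fin 2) ℝ) (i : Fin 2) {n : ℕ} (h : p.totalDegree ≤ n) :
    (MvPolynomial.pderiv i p).totalDegree ≤ n := by
  have h1 : MvPolynomial.pderiv i p = ∑ s ∈ p.support, MvPolynomial.pderiv i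
      (MvPolynomial.monomial s (MvPolynomial.coeff s p)) := by
    conv_lhs => rw [p.as_sum]
    rw [map_sum]
  rw [h1]
  refine MvPolynomial.totalDegree_finsetSum_le fun s hs => ?_
  rw [MvPolynomial.pderiv_monomial]
  refine (MvPolynomial.totalDegree_monomial_le _ _).trans ?_
  refine le_trans ?_ ((MvPolynomial.le_totalDegree hs).trans h)
  have h2 : s - Finsupp.single i 1 ≤ s := tsub_le_self
  exact Finsupp.degree_mono h2

theorem G2_td_add {p q : MvPolynomial (Fin 2) ℝ} {n : ℕ} (h : p.totalDegree ≤ n)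
    (h' : q.totalDegree ≤ n) : (p + q).totalDegree ≤ n :=
  (MvPolynomial.totalDegree_add _ _).trans (max_le h h')

theorem G2_td_sub {p q : MvPolynomial (Fin 2) ℝ} {n : ℕ} (h : p.totalDegree ≤ n)
    (h' : q.totalDegree ≤ n) : (p - q).totalDegree ≤ n :=
  (MvPolynomial.totalDegree_sub _ _).trans (max_le h h')

theorem G2_td_mul {p q : MvPolynomial (Fin 2) ℝ} {n k : ℕ} (h : p.totalDegree ≤ n)
    (h' : q.totalDegree ≤ k) : (p * q).totalDegree ≤ n + k :=
  (MvPolynomial.totalDegree_mul _ _).trans (add_le_add h h')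

theorem G2_td_C (c : ℝ) (n : ℕ) : (MvPolynomial.C c : MvPolynomial (Fin 2) ℝ).totalDegree ≤ n := by
  rw [MvPolynomial.totalDegree_C]; exact Nat.zero_le _

theorem G2_td_Cmul (c : ℝ) {p : MvPolynomial (Fin 2) ℝ} {n : ℕ} (h : p.totalDegree ≤ n) :
    (MvPolynomial.C c * p).totalDegree ≤ n := by
  have := G2_td_mul (G2_td_C c 0) h
  omega

theorem G2_td_pow {p : MvPolynomial (Fin 2) ℝ} {n : ℕ} (h : p.totalDegree ≤ n) (k : ℕ) :
    (p ^ k).totalDegree ≤ k * n :=
  (MvPolynomial.totalDegree_pow _ _).trans (Nat.mul_le_mul_left _ h)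

section main

variable (S : MvPolynomial (Fin 2) ℝ) (N : ℕ) (β e : ℝ)

/-- the polynomial before the last perturbation -/
noncomputable def G2_G : MvPolynomial (Fin 2) ℝ :=
  S + MvPolynomial.C β * MvPolynomial.X 1 + MvPolynomial.C e * MvPolynomial.X 1 ^ N

theorem G2_dx : dx (G2_G S N β e) = dx S := by
  unfold G2_G dx
  simp only [map_add, Derivation.leibniz, MvPolynomial.pderiv_C, MvPolynomial.pderiv_pow]
  rw [MvPolynomial.pderiv_X_of_ne (by decide)]
  simp

theorem G2_dy : dy (G2_G S N β e) = dy S + (MvPolynomial.C β +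
    MvPolynomial.C (e * N) * MvPolynomial.X 1 ^ (N - 1)) := by
  unfold G2_G dy
  simp only [map_add, Derivation.leibniz, MvPolynomial.pderiv_C, MvPolynomial.pderiv_pow]
  rw [MvPolynomial.pderiv_X_self]
  simp only [smul_eq_mul, mul_one, mul_zero, add_zero, map_mul, map_natCast]
  ring

theorem G2_dydy : dy (dy (G2_G S N β e)) = dy (dy S) +
    MvPolynomial.C (e * N * (N - 1 : ℕ)) * MvPolynomial.X 1 ^ (N - 2) := by
  rw [G2_dy]
  unfold dy
  simp only [map_add, Derivation.leibniz, MvPolynomial.pderiv_C, MvPolynomial.pderiv_pow]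
  rw [MvPolynomial.pderiv_X_self]
  simp only [smul_eq_mul, mul_one, mul_zero, add_zero, map_mul, map_natCast]
  rw [show N - 1 - 1 = N - 2 from by omega]
  ring

theorem G2_dxdy : dx (dy (G2_G S N β e)) = dx (dy S) := by
  rw [G2_dy]
  unfold dx
  simp only [map_add, Derivation.leibniz, MvPolynomial.pderiv_C, MvPolynomial.pderiv_pow]
  rw [MvPolynomial.pderiv_X_of_ne (by decide)]
  simp

variable {S N β e}

theorem G2_phi_dy (m : ℝ) : G2_phi m (dy (G2_G S N β e)) = G2_phi m (dy S) + (Polynomial.C β +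
    Polynomial.C (e * N) * Polynomial.X ^ (N - 1)) := by
  rw [G2_dy]
  simp only [map_add, map_mul, map_pow]
  unfold G2_phi
  simp

theorem G2_c1 (hN : 2 ≤ N) (hS : S.totalDegree < N) (m : ℝ) :
    (G2_phi m (dy (G2_G S N β e))).coeff (N - 1) = e * N := by
  have h1 : G2_LT (dy S) (N - 1) := G2_LT_pd (G2_LT_of S hS) 1
  rw [G2_phi_dy, Polynomial.coeff_add, G2_phi_coeff m h1 le_rfl, Polynomial.coeff_add,
    Polynomial.coeff_C, if_neg (by omega), Polynomial.coeff_C_mul, Polynomial.coeff_X_pow,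
    if_pos rfl]
  ring

theorem G2_n1 (hN : 2 ≤ N) (hS : S.totalDegree < N) (m : ℝ) :
    (G2_phi m (dy (G2_G S N β e))).natDegree ≤ N - 1 := by
  rw [Polynomial.natDegree_le_iff_coeff_eq_zero]
  intro k hk
  have h1 : G2_LT (dy S) (N - 1) := G2_LT_pd (G2_LT_of S hS) 1
  rw [G2_phi_dy, Polynomial.coeff_add, G2_phi_coeff m h1 hk.le, Polynomial.coeff_add,
    Polynomial.coeff_C, if_neg (by omega), Polynomial.coeff_C_mul, Polynomial.coeff_X_pow,
    if_neg (by omega)]
  ring

theorem G2_ne1 (hN : 2 ≤ N) (hS : S.totalDegree < N) (he : e ≠ 0) :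
    dy (G2_G S N β e) ≠ 0 := by
  intro h
  have h1 := G2_c1 (β := β) (e := e) hN hS 0
  rw [h, map_zero, Polynomial.coeff_zero] at h1
  have h2 : (N : ℝ) ≠ 0 := by positivity
  exact (mul_ne_zero he h2) h1.symm

theorem G2_ne2 (hN : 2 ≤ N) (hS : S.totalDegree < N) (he : e ≠ 0) {σ : ℝ} (hσ : σ ≠ 0) :
    dx (G2_G S N β e) + MvPolynomial.C σ * dy (G2_G S N β e) ≠ 0 := by
  intro h
  have h1 := congrArg (fun p => (G2_phi 0 p).coeff (N - 1)) h
  have h3 : G2_LT (dx S) (N - 1) := G2_LT_pd (G2_LT_of S hS) 0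
  simp only [map_add, map_mul, map_zero, Polynomial.coeff_zero, Polynomial.coeff_add] at h1
  rw [G2_dx, G2_phi_coeff 0 h3 le_rfl, zero_add] at h1
  have h4 : G2_phi 0 (MvPolynomial.C σ) = Polynomial.C σ := by
    unfold G2_phi; simp
  rw [h4, Polynomial.coeff_C_mul, G2_c1 hN hS] at h1
  have h2 : (N : ℝ) ≠ 0 := by positivity
  exact (mul_ne_zero hσ (mul_ne_zero he h2)) h1

theorem G2_ne3 (hN : 2 ≤ N) (hS : S.totalDegree < N) (he : e ≠ 0) {κ : ℝ} (hκ : κ ≠ 0) :
    Hq (G2_G S N β e) + MvPolynomial.C κ * dy (G2_G S N β e) ^ 3 ≠ 0 := by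
  intro h
  have h1 := congrArg (fun p => (G2_phi 0 p).coeff (3 * (N - 1))) h
  have hL := G2_LT_of S hS
  obtain ⟨M, rfl⟩ : ∃ M, N = M + 2 := ⟨N - 2, by omega⟩
  have e1 : M + 2 - 1 = M + 1 := rfl
  have ha : (G2_phi 0 (dx S)).natDegree ≤ M :=
    G2_phi_nd 0 (G2_LT_mono (G2_LT_pd hL 0) (by omega))
  have hb : (G2_phi 0 (dx (dx S))).natDegree ≤ M :=
    G2_phi_nd 0 (G2_LT_mono (G2_LT_pd (G2_LT_pd hL 0) 0) (by omega))
  have hc : (G2_phi 0 (dx (dy S))).natDegree ≤ M :=
    G2_phi_nd 0 (G2_LT_mono (G2_LT_pd (G2_LT_pd hL 1) 0) (by omega))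
  have hd : (G2_phi 0 (dy (G2_G S (M + 2) β e))).natDegree ≤ M + 1 := G2_n1 hN hS 0
  have hf : (G2_phi 0 (dy (dy (G2_G S (M + 2) β e)))).natDegree ≤ M + 1 := by
    rw [G2_dydy]
    rw [Polynomial.natDegree_le_iff_coeff_eq_zero]
    intro k hk
    have h5 : G2_LT (dy (dy S)) (M + 1) :=
      G2_LT_mono (G2_LT_pd (G2_LT_pd hL 1) 1) (by omega)
    rw [map_add, Polynomial.coeff_add, G2_phi_coeff 0 h5 hk.le, map_mul, map_pow]
    unfold G2_phi
    rw [MvPolynomial.aeval_C, MvPolynomial.aeval_X, Polynomial.algebraMap_eq,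
      Polynomial.coeff_C_mul]
    simp only [Matrix.cons_val_one, Matrix.cons_val_fin_one]
    rw [Polynomial.coeff_X_pow, if_neg (by omega)]
    ring
  have hH : (G2_phi 0 (Hq (G2_G S (M + 2) β e))).natDegree < 3 * (M + 2 - 1) := by
    unfold Hq
    rw [G2_dx, G2_dxdy]
    simp only [map_add, map_sub, map_mul, map_pow]
    have g1 : (G2_phi 0 (dx (dx S)) * G2_phi 0 (dy (G2_G S (M + 2) β e)) ^ 2).natDegree ≤
        3 * M + 2 := by
      refine Polynomial.natDegree_mul_le.trans ?_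
      have := Polynomial.natDegree_pow_le_of_le 2 hd
      omega
    have g2 : (G2_phi 0 2 * G2_phi 0 (dx (dy S)) * G2_phi 0 (dx S) *
        G2_phi 0 (dy (G2_G S (M + 2) β e))).natDegree ≤ 3 * M + 2 := by
      have g3 : (G2_phi 0 2 : Polynomial ℝ).natDegree ≤ 0 := by
        rw [map_ofNat]
        exact (Polynomial.natDegree_ofNat 2).le
      refine Polynomial.natDegree_mul_le.trans ?_
      have g4 := Polynomial.natDegree_mul_le (p := G2_phi 0 2 * G2_phi 0 (dx (dy S)))
        (q := G2_phi 0 (dx S))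
      have g5 := Polynomial.natDegree_mul_le (p := G2_phi 0 2) (q := G2_phi 0 (dx (dy S)))
      omega
    have g6 : (G2_phi 0 (dy (dy (G2_G S (M + 2) β e))) * G2_phi 0 (dx S) ^ 2).natDegree ≤
        3 * M + 2 := by
      refine Polynomial.natDegree_mul_le.trans ?_
      have := Polynomial.natDegree_pow_le_of_le 2 ha
      omega
    have g8 := Polynomial.natDegree_sub_le_of_le g1 g2
    rw [max_self] at g8
    have g7 := Polynomial.natDegree_add_le_of_degree_le g8 g6
    refine lt_of_le_of_lt g7 ?_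
    omega
  simp only [map_add, map_mul, map_zero, Polynomial.coeff_zero, Polynomial.coeff_add,
    map_pow] at h1
  rw [Polynomial.coeff_eq_zero_of_natDegree_lt hH, zero_add] at h1
  have h4 : G2_phi 0 (MvPolynomial.C κ) = Polynomial.C κ := by
    unfold G2_phi; simp
  rw [h4, Polynomial.coeff_C_mul, e1, Polynomial.coeff_pow_of_natDegree_le hd, ← e1,
    G2_c1 hN hS] at h1
  have h2 : ((M + 2 : ℕ) : ℝ) ≠ 0 := by positivity
  exact (mul_ne_zero hκ (pow_ne_zero 3 (mul_ne_zero he h2))) h1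

theorem G2_ne4 (hN : 2 ≤ N) (hS : S.totalDegree < N) (he : e ≠ 0) :
    dy (dy (G2_G S N β e)) ≠ 0 := by
  intro h
  have h1 := congrArg (fun p => (G2_phi 0 p).coeff (N - 2)) h
  have h5 : G2_LT (dy (dy S)) (N - 1 - 1) := G2_LT_pd (G2_LT_pd (G2_LT_of S hS) 1) 1
  simp only [map_zero, Polynomial.coeff_zero] at h1
  rw [G2_dydy, map_add, Polynomial.coeff_add, G2_phi_coeff 0 h5 (by omega), map_mul, map_pow,
    zero_add] at h1
  unfold G2_phi at h1
  rw [MvPolynomial.aeval_C, MvPolynomial.aeval_X, Polynomial.algebraMap_eq,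
      Polynomial.coeff_C_mul] at h1
  simp only [Matrix.cons_val_one, Matrix.cons_val_fin_one] at h1
  rw [Polynomial.coeff_X_pow, if_pos rfl, mul_one] at h1
  have h2 : (N : ℝ) ≠ 0 := by positivity
  have h3 : ((N - 1 : ℕ) : ℝ) ≠ 0 := by
    have : N - 1 ≠ 0 := by omega
    exact_mod_cast this
  exact (mul_ne_zero (mul_ne_zero he h2) h3) h1

end main

theorem G2_fin {A B : MvPolynomial (Fin 2) ℝ} (h : IsRelPrime A B) :
    {P : ℝ × ℝ | ev A P.1 P.2 = 0 ∧ ev B P.1 P.2 = 0}.Finite := by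
  by_contra hinf
  obtain ⟨K, hK, hc⟩ := Set.Infinite.exists_subset_card_eq hinf
    (2 * A.totalDegree * B.totalDegree + 1)
  have h1 := bezout h K (fun P hP => hK hP)
  omega

theorem generic (S : MvPolynomial (Fin 2) ℝ) (N : ℕ) (hN : 2 ≤ N) (hS : S.totalDegree < N)
    (Sg Ka Mm : Finset ℝ) (h1 : ∀ σ ∈ Sg, σ ≠ 0) (h2 : ∀ κ ∈ Ka, κ ≠ 0) (Y tol d1 d2 : ℝ) (hY : 0 < Y)
    (htol : 0 < tol) (hd : d1 < d2) :
    ∃ β e δ : ℝ, e ≠ 0 ∧ d1 < δ ∧ δ < d2 ∧ (∀ y : ℝ, |y| ≤ Y → |β * y| + |e * y ^ N| ≤ tol) ∧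
      Gen (S + MvPolynomial.C β * MvPolynomial.X 1 + MvPolynomial.C e * MvPolynomial.X 1 ^ N
        - MvPolynomial.C δ) N Sg Ka Mm := by
  classical
  -- choice of `e`
  set e : ℝ := tol / (2 * (Y ^ N + 1)) with he0
  have hep : 0 < e := by positivity
  have he : e ≠ 0 := hep.ne'
  -- choice of `β`
  have hβ1 : {β : ℝ | ¬ IsRelPrime (dy (G2_G S N 0 e) - MvPolynomial.C β)
      (dy (dy (G2_G S N 0 e)))}.Finite := G2_bad _ _ (G2_ne4 hN hS he)
  have hβ2 : {β : ℝ | ¬ IsRelPrime (dy (G2_G S N β e)) (dy (dy (G2_G S N β e)))}.Finite := by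
    refine (hβ1.preimage (f := fun β : ℝ => -β) (neg_injective.injOn)).subset ?_
    intro β hβ
    simp only [mem_preimage, mem_ofPred_eq] at hβ ⊢
    have e1 : dy (G2_G S N 0 e) - MvPolynomial.C (-β) = dy (G2_G S N β e) := by
      rw [G2_dy, G2_dy, map_neg, map_zero]; ring
    have e2 : dy (dy (G2_G S N 0 e)) = dy (dy (G2_G S N β e)) := by
      rw [G2_dydy, G2_dydy]
    rw [e1, e2]
    exact hβ
  obtain ⟨β, hβI, hβn⟩ := ((Set.Ioo_infinite (show (0 : ℝ) < tol / (2 * Y) by positivity)).sdiff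
    hβ2).nonempty
  have hβr : IsRelPrime (dy (G2_G S N β e)) (dy (dy (G2_G S N β e))) := by
    by_contra hcon
    exact hβn hcon
  set G : MvPolynomial (Fin 2) ℝ := G2_G S N β e with hG
  -- choice of `δ`
  have b1 := G2_bad G (dy G) (G2_ne1 hN hS he)
  have b2 : (⋃ σ ∈ (Sg : Set ℝ), {δ : ℝ | ¬ IsRelPrime (G - MvPolynomial.C δ)
      (dx G + MvPolynomial.C σ * dy G)}).Finite :=
    Set.Finite.biUnion (Finset.finite_toSet Sg) fun σ hσ =>
      G2_bad G _ (G2_ne2 hN hS he (h1 σ hσ))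
  have b3 : (⋃ κ ∈ (Ka : Set ℝ), {δ : ℝ | ¬ IsRelPrime (G - MvPolynomial.C δ)
      (Hq G + MvPolynomial.C κ * dy G ^ 3)}).Finite :=
    Set.Finite.biUnion (Finset.finite_toSet Ka) fun κ hκ =>
      G2_bad G _ (G2_ne3 hN hS he (h2 κ hκ))
  have b4 : ((fun P : ℝ × ℝ => ev G P.1 P.2) ''
      {P : ℝ × ℝ | ev (dy G) P.1 P.2 = 0 ∧ ev (dy (dy G)) P.1 P.2 = 0}).Finite :=
    (G2_fin hβr).image _
  have b5 : (⋃ m ∈ (Mm : Set ℝ), (fun y : ℝ => ev G m y) '' {y : ℝ | ev (dy G) m y = 0}).Finite := by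
    refine Set.Finite.biUnion (Finset.finite_toSet Mm) fun m _ => Set.Finite.image _ ?_
    have h3 : G2_phi m (dy G) ≠ 0 := by
      intro h
      have h4 := G2_c1 (β := β) (e := e) hN hS m
      rw [← hG, h, Polynomial.coeff_zero] at h4
      have h5 : (N : ℝ) ≠ 0 := by positivity
      exact (mul_ne_zero he h5) h4.symm
    refine (Polynomial.finite_setOfPred_isRoot h3).subset ?_
    intro y hy
    have h6 : ev (dy G) m y = 0 := hy
    rw [← G2_phi_eval] at h6
    exact h6
  obtain ⟨δ, hδI, hδn⟩ := ((Set.Ioo_infinite hd).sdiff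
    ((((b1.union b2).union b3).union b4).union b5)).nonempty
  simp only [mem_union, not_or] at hδn
  obtain ⟨⟨⟨⟨n1, n2⟩, n3⟩, n4⟩, n5⟩ := hδn
  have hq : S + MvPolynomial.C β * MvPolynomial.X 1 + MvPolynomial.C e * MvPolynomial.X 1 ^ N
        - MvPolynomial.C δ = G - MvPolynomial.C δ := rfl
  refine ⟨β, e, δ, he, hδI.1, hδI.2, ?_, ?_⟩
  · intro y hy
    have hβ0 : 0 < β := hβI.1
    have t1 : |β * y| ≤ tol / 2 := by
      rw [abs_mul, abs_of_pos hβ0]
      calc β * |y| ≤ tol / (2 * Y) * Y := mul_le_mul hβI.2.le hy (abs_nonneg _) (by positivity)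
        _ = tol / 2 := by field_simp
    have t2 : |e * y ^ N| ≤ tol / 2 := by
      rw [abs_mul, abs_of_pos hep, abs_pow]
      have t3 : |y| ^ N ≤ Y ^ N + 1 := by
        have := pow_le_pow_left₀ (abs_nonneg y) hy N
        linarith
      calc e * |y| ^ N ≤ e * (Y ^ N + 1) := mul_le_mul_of_nonneg_left t3 hep.le
        _ = tol / 2 := by rw [he0]; field_simp
    linarith
  · rw [hq]
    have ddx : dx (G - MvPolynomial.C δ) = dx G := by
      unfold dx; rw [map_sub, MvPolynomial.pderiv_C, sub_zero]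
    have ddy : dy (G - MvPolynomial.C δ) = dy G := by
      unfold dy; rw [map_sub, MvPolynomial.pderiv_C, sub_zero]
    have dH : Hq (G - MvPolynomial.C δ) = Hq G := by
      unfold Hq; rw [ddx, ddy]
    have hev : ∀ x y, ev (G - MvPolynomial.C δ) x y = ev G x y - δ := by
      intro x y
      unfold ev
      rw [map_sub, MvPolynomial.eval_C]
    have tX : (MvPolynomial.X 1 : MvPolynomial (Fin 2) ℝ).totalDegree ≤ 1 := by
      rw [MvPolynomial.totalDegree_X]
    have tG : G.totalDegree ≤ N := by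
      rw [hG]
      unfold G2_G
      refine G2_td_add (G2_td_add hS.le (G2_td_Cmul _ (tX.trans (by omega)))) (G2_td_Cmul _ ?_)
      rw [MvPolynomial.totalDegree_X_pow]
    have tq : (G - MvPolynomial.C δ).totalDegree ≤ N := G2_td_sub tG (G2_td_C _ _)
    have tdy : (dy G).totalDegree ≤ N := G2_td_pd G 1 tG
    have tdx : (dx G).totalDegree ≤ N := G2_td_pd G 0 tG
    have tHq : (Hq G).totalDegree ≤ 3 * N := by
      unfold Hq
      have u1 : (dx (dx G) * dy G ^ 2).totalDegree ≤ 3 * N := by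
        have := G2_td_mul (G2_td_pd (dx G) 0 tdx) (G2_td_pow tdy 2)
        refine this.trans ?_
        omega
      have u2 : (2 * dx (dy G) * dx G * dy G).totalDegree ≤ 3 * N := by
        have v1 : (2 : MvPolynomial (Fin 2) ℝ) = MvPolynomial.C 2 := by
          rw [map_ofNat]
        rw [v1]
        have := G2_td_mul (G2_td_mul (G2_td_Cmul 2 (G2_td_pd (dy G) 0 tdy)) tdx) tdy
        refine this.trans ?_
        omega
      have u3 : (dy (dy G) * dx G ^ 2).totalDegree ≤ 3 * N := by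
        have := G2_td_mul (G2_td_pd (dy G) 1 tdy) (G2_td_pow tdx 2)
        refine this.trans ?_
        omega
      exact G2_td_add (G2_td_sub u1 u2) u3
    refine ⟨⟨e, S + MvPolynomial.C β * MvPolynomial.X 1 - MvPolynomial.C δ, he, ?_, ?_⟩, hN,
      ?_, ?_, ?_, ?_, ?_⟩
    · have : (S + MvPolynomial.C β * MvPolynomial.X 1 - MvPolynomial.C δ).totalDegree ≤ N - 1 :=
        G2_td_sub (G2_td_add (by omega) (G2_td_Cmul _ (tX.trans (by omega)))) (G2_td_C _ _)
      omega
    · rw [hG]; unfold G2_G; ring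
    · intro K hK
      rw [ddy] at hK
      have hr : IsRelPrime (G - MvPolynomial.C δ) (dy G) := by
        by_contra hcon
        exact n1 hcon
      refine (bezout hr K hK).trans ?_
      calc 2 * (G - MvPolynomial.C δ).totalDegree * (dy G).totalDegree ≤ 2 * N * N :=
            Nat.mul_le_mul (Nat.mul_le_mul_left _ tq) tdy
        _ = 2 * N ^ 2 := by ring
    · intro x y hx hy
      rw [ddy] at hy
      rw [ddy]
      intro hyy
      refine n4 ⟨(x, y), ⟨hy, hyy⟩, ?_⟩
      have := hev x y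
      rw [hx] at this
      simp only
      linarith
    · intro σ hσ K hK
      rw [ddx, ddy] at hK
      have hr : IsRelPrime (G - MvPolynomial.C δ) (dx G + MvPolynomial.C σ * dy G) := by
        by_contra hcon
        refine n2 ?_
        simp only [mem_iUnion]
        exact ⟨σ, hσ, hcon⟩
      refine (bezout hr K ?_).trans ?_
      · intro P hP
        refine ⟨(hK P hP).1, ?_⟩
        have := (hK P hP).2
        unfold ev at this ⊢
        rw [map_add, map_mul, MvPolynomial.eval_C]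
        exact this
      · calc 2 * (G - MvPolynomial.C δ).totalDegree * (dx G + MvPolynomial.C σ * dy G).totalDegree
              ≤ 2 * N * N :=
              Nat.mul_le_mul (Nat.mul_le_mul_left _ tq) (G2_td_add tdx (G2_td_Cmul _ tdy))
          _ = 2 * N ^ 2 := by ring
    · intro κ hκ K hK
      rw [dH, ddy] at hK
      have hr : IsRelPrime (G - MvPolynomial.C δ) (Hq G + MvPolynomial.C κ * dy G ^ 3) := by
        by_contra hcon
        refine n3 ?_
        simp only [mem_iUnion]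
        exact ⟨κ, hκ, hcon⟩
      refine (bezout hr K ?_).trans ?_
      · intro P hP
        refine ⟨(hK P hP).1, ?_⟩
        have := (hK P hP).2
        unfold ev at this ⊢
        rw [map_add, map_mul, map_pow, MvPolynomial.eval_C]
        exact this
      · calc 2 * (G - MvPolynomial.C δ).totalDegree *
              (Hq G + MvPolynomial.C κ * dy G ^ 3).totalDegree
              ≤ 2 * N * (3 * N) :=
              Nat.mul_le_mul (Nat.mul_le_mul_left _ tq)
                (G2_td_add tHq (G2_td_Cmul _ (G2_td_pow tdy 3)))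
          _ = 6 * N ^ 2 := by ring
    · intro m hm y hy
      rw [ddy]
      intro hyy
      refine n5 ?_
      simp only [mem_iUnion]
      refine ⟨m, hm, y, hyy, ?_⟩
      have := hev m y
      rw [hy] at this
      simp only
      linarith

end MuntzF
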