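import Pool.Agent.Lib.MP_dde81e_full.Defs

/-!
Module G3 (text 7.3 (a),(b)): uniqueness and derivatives of arcs.
uniqueness: the set where the two continuous functions agree is closed; it is open because near a point (x,y) with q = 0, q_y ≠ 0 the map
y ↦ q(x',y) is strictly monotone on a neighbourhood, uniformly in x' near x.
derivative: q(x',φ x') - q(x,φ x) = 0, differentiability of (x,y) ↦ q(x,y) (or implicit function theorem).
-/

namespace MuntzF
open Set Filter Topology

theorem G3_ev_C (a x y : ℝ) : ev (MvPolynomial.C a) x y = a := by simp [ev]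

theorem G3_ev_add (p q : MvPolynomial (Fin 2) ℝ) (x y : ℝ) : ev (p + q) x y = ev p x y + ev q x y := by
  simp [ev]

theorem G3_ev_mul (p q : MvPolynomial (Fin 2) ℝ) (x y : ℝ) : ev (p * q) x y = ev p x y * ev q x y := by
  simp [ev]

theorem G3_ev_sub (p q : MvPolynomial (Fin 2) ℝ) (x y : ℝ) : ev (p - q) x y = ev p x y - ev q x y := by
  simp [ev]

theorem G3_ev_pow (p : MvPolynomial (Fin 2) ℝ) (n : ℕ) (x y : ℝ) : ev (p ^ n) x y = ev p x y ^ n := by
  simp [ev]

theorem G3_ev_X0 (x y : ℝ) : ev (MvPolynomial.X 0) x y = x := by simp [ev]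

theorem G3_ev_X1 (x y : ℝ) : ev (MvPolynomial.X 1) x y = y := by simp [ev]

theorem G3_dx_mul_X0 (p : MvPolynomial (Fin 2) ℝ) :
    dx (p * MvPolynomial.X 0) = dx p * MvPolynomial.X 0 + p := by
  unfold dx
  rw [MvPolynomial.pderiv_mul, MvPolynomial.pderiv_X_self, mul_one]

theorem G3_dx_mul_X1 (p : MvPolynomial (Fin 2) ℝ) :
    dx (p * MvPolynomial.X 1) = dx p * MvPolynomial.X 1 := by
  unfold dx
  rw [MvPolynomial.pderiv_mul, MvPolynomial.pderiv_X_of_ne (by decide), mul_zero, add_zero]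

theorem G3_dy_mul_X0 (p : MvPolynomial (Fin 2) ℝ) :
    dy (p * MvPolynomial.X 0) = dy p * MvPolynomial.X 0 := by
  unfold dy
  rw [MvPolynomial.pderiv_mul, MvPolynomial.pderiv_X_of_ne (by decide), mul_zero, add_zero]

theorem G3_dy_mul_X1 (p : MvPolynomial (Fin 2) ℝ) :
    dy (p * MvPolynomial.X 1) = dy p * MvPolynomial.X 1 + p := by
  unfold dy
  rw [MvPolynomial.pderiv_mul, MvPolynomial.pderiv_X_self, mul_one]

theorem G3_dx_add (p q : MvPolynomial (Fin 2) ℝ) : dx (p + q) = dx p + dx q := by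
  unfold dx; rw [map_add]

theorem G3_dy_add (p q : MvPolynomial (Fin 2) ℝ) : dy (p + q) = dy p + dy q := by
  unfold dy; rw [map_add]

theorem G3_dx_C (a : ℝ) : dx (MvPolynomial.C a) = 0 := by unfold dx; exact MvPolynomial.pderiv_C

theorem G3_dy_C (a : ℝ) : dy (MvPolynomial.C a) = 0 := by unfold dy; exact MvPolynomial.pderiv_C

theorem G3_ev_zero (x y : ℝ) : ev 0 x y = 0 := by simp [ev]

/-- mixed partial derivatives commute. -/
theorem G3_comm (q : MvPolynomial (Fin 2) ℝ) : dx (dy q) = dy (dx q) := by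
  induction q using MvPolynomial.induction_on with
  | C a => rw [G3_dx_C, G3_dy_C]; simp [dx, dy]
  | add p q hp hq => rw [G3_dx_add, G3_dy_add, G3_dx_add, G3_dy_add, hp, hq]
  | mul_X p n hp =>
      fin_cases n
      · change dx (dy (p * MvPolynomial.X 0)) = dy (dx (p * MvPolynomial.X 0))
        rw [G3_dy_mul_X0, G3_dx_mul_X0, G3_dx_mul_X0, G3_dy_add, G3_dy_mul_X0, hp]
      · change dx (dy (p * MvPolynomial.X 1)) = dy (dx (p * MvPolynomial.X 1))
        rw [G3_dy_mul_X1, G3_dx_add, G3_dx_mul_X1, G3_dx_mul_X1, G3_dy_mul_X1, hp]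

theorem ev_continuous (q : MvPolynomial (Fin 2) ℝ) : Continuous (fun P : ℝ × ℝ => ev q P.1 P.2) := by
  induction q using MvPolynomial.induction_on with
  | C a => simp only [G3_ev_C]; exact continuous_const
  | add p q hp hq => simp only [G3_ev_add]; exact hp.add hq
  | mul_X p n hp =>
      fin_cases n
      · change Continuous (fun P : ℝ × ℝ => ev (p * MvPolynomial.X 0) P.1 P.2)
        simp only [G3_ev_mul, G3_ev_X0]
        exact hp.mul continuous_fst
      · change Continuous (fun P : ℝ × ℝ => ev (p * MvPolynomial.X 1) P.1 P.2)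
        simp only [G3_ev_mul, G3_ev_X1]
        exact hp.mul continuous_snd

/-- chain rule for a polynomial along a curve. -/
theorem G3_chain (q : MvPolynomial (Fin 2) ℝ) {f g : ℝ → ℝ} {f' g' x : ℝ} {s : Set ℝ}
    (hf : HasDerivWithinAt f f' s x) (hg : HasDerivWithinAt g g' s x) :
    HasDerivWithinAt (fun t => ev q (f t) (g t))
      (ev (dx q) (f x) (g x) * f' + ev (dy q) (f x) (g x) * g') s x := by
  induction q using MvPolynomial.induction_on with
  | C a =>
      simp only [G3_ev_C, G3_dx_C, G3_dy_C, G3_ev_zero, zero_mul, add_zero]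
      exact hasDerivWithinAt_const _ _ _
  | add p q hp hq =>
      simp only [G3_ev_add, G3_dx_add, G3_dy_add]
      exact (hp.fun_add hq).congr_deriv (by ring)
  | mul_X p n hp =>
      fin_cases n
      · change HasDerivWithinAt (fun t => ev (p * MvPolynomial.X 0) (f t) (g t))
          (ev (dx (p * MvPolynomial.X 0)) (f x) (g x) * f'
            + ev (dy (p * MvPolynomial.X 0)) (f x) (g x) * g') s x
        rw [G3_dx_mul_X0, G3_dy_mul_X0]
        simp only [G3_ev_mul, G3_ev_X0, G3_ev_add]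
        exact (hp.fun_mul hf).congr_deriv (by ring)
      · change HasDerivWithinAt (fun t => ev (p * MvPolynomial.X 1) (f t) (g t))
          (ev (dx (p * MvPolynomial.X 1)) (f x) (g x) * f'
            + ev (dy (p * MvPolynomial.X 1)) (f x) (g x) * g') s x
        rw [G3_dx_mul_X1, G3_dy_mul_X1]
        simp only [G3_ev_mul, G3_ev_X1, G3_ev_add]
        exact (hp.fun_mul hg).congr_deriv (by ring)

theorem ev_hasDeriv_x (q : MvPolynomial (Fin 2) ℝ) (x y : ℝ) :
    HasDerivAt (fun t => ev q t y) (ev (dx q) x y) x := by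
  rw [← hasDerivWithinAt_univ]
  have h := G3_chain q (f := fun t => t) (g := fun _ => y) (f' := 1) (g' := 0) (x := x) (s := univ)
    (hasDerivWithinAt_id x univ) (hasDerivWithinAt_const _ _ _)
  simpa using h

theorem ev_hasDeriv_y (q : MvPolynomial (Fin 2) ℝ) (x y : ℝ) :
    HasDerivAt (fun t => ev q x t) (ev (dy q) x y) y := by
  rw [← hasDerivWithinAt_univ]
  have h := G3_chain q (f := fun _ => x) (g := fun t => t) (f' := 0) (g' := 1) (x := y) (s := univ)
    (hasDerivWithinAt_const _ _ _) (hasDerivWithinAt_id y univ)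
  simpa using h

/-- divided differences of a polynomial in two variables. -/
theorem G3_divdiff (q : MvPolynomial (Fin 2) ℝ) : ∃ A B : (ℝ × ℝ) × (ℝ × ℝ) → ℝ,
    Continuous A ∧ Continuous B ∧
    (∀ x' y' x y, ev q x' y' - ev q x y =
      A ((x', y'), (x, y)) * (x' - x) + B ((x', y'), (x, y)) * (y' - y)) ∧
    (∀ x y, A ((x, y), (x, y)) = ev (dx q) x y) ∧ (∀ x y, B ((x, y), (x, y)) = ev (dy q) x y) := by
  induction q using MvPolynomial.induction_on with
  | C a =>
      refine ⟨fun _ => 0, fun _ => 0, continuous_const, continuous_const, ?_, ?_, ?_⟩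
      · intro x' y' x y; rw [G3_ev_C, G3_ev_C]; ring
      · intro x y; rw [G3_dx_C, G3_ev_zero]
      · intro x y; rw [G3_dy_C, G3_ev_zero]
  | add p q hp hq =>
      obtain ⟨A, B, hA, hB, h, hAd, hBd⟩ := hp
      obtain ⟨A2, B2, hA2, hB2, h2, hAd2, hBd2⟩ := hq
      refine ⟨fun P => A P + A2 P, fun P => B P + B2 P, hA.add hA2, hB.add hB2, ?_, ?_, ?_⟩
      · intro x' y' x y
        rw [G3_ev_add, G3_ev_add]
        have e1 := h x' y' x y
        have e2 := h2 x' y' x y
        linear_combination e1 + e2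
      · intro x y; rw [G3_dx_add, G3_ev_add]; simp only [hAd, hAd2]
      · intro x y; rw [G3_dy_add, G3_ev_add]; simp only [hBd, hBd2]
  | mul_X p n hp =>
      obtain ⟨A, B, hA, hB, h, hAd, hBd⟩ := hp
      have hp2 : Continuous (fun P : (ℝ × ℝ) × (ℝ × ℝ) => ev p P.2.1 P.2.2) :=
        (ev_continuous p).comp continuous_snd
      fin_cases n
      · refine ⟨fun P => A P * P.1.1 + ev p P.2.1 P.2.2, fun P => B P * P.1.1,
          (hA.mul (continuous_fst.comp continuous_fst)).add hp2,
          hB.mul (continuous_fst.comp continuous_fst), ?_, ?_, ?_⟩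
        · intro x' y' x y
          change ev (p * MvPolynomial.X 0) x' y' - ev (p * MvPolynomial.X 0) x y = _
          rw [G3_ev_mul, G3_ev_mul, G3_ev_X0, G3_ev_X0]
          have e1 := h x' y' x y
          simp only
          linear_combination x' * e1
        · intro x y
          change _ = ev (dx (p * MvPolynomial.X 0)) x y
          rw [G3_dx_mul_X0, G3_ev_add, G3_ev_mul, G3_ev_X0]
          simp only [hAd]
        · intro x y
          change _ = ev (dy (p * MvPolynomial.X 0)) x y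
          rw [G3_dy_mul_X0, G3_ev_mul, G3_ev_X0]
          simp only [hBd]
      · refine ⟨fun P => A P * P.1.2, fun P => B P * P.1.2 + ev p P.2.1 P.2.2,
          hA.mul (continuous_snd.comp continuous_fst),
          (hB.mul (continuous_snd.comp continuous_fst)).add hp2, ?_, ?_, ?_⟩
        · intro x' y' x y
          change ev (p * MvPolynomial.X 1) x' y' - ev (p * MvPolynomial.X 1) x y = _
          rw [G3_ev_mul, G3_ev_mul, G3_ev_X1, G3_ev_X1]
          have e1 := h x' y' x y
          simp only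
          linear_combination y' * e1
        · intro x y
          change _ = ev (dx (p * MvPolynomial.X 1)) x y
          rw [G3_dx_mul_X1, G3_ev_mul, G3_ev_X1]
          simp only [hAd]
        · intro x y
          change _ = ev (dy (p * MvPolynomial.X 1)) x y
          rw [G3_dy_mul_X1, G3_ev_add, G3_ev_mul, G3_ev_X1]
          simp only [hBd]

theorem arc_unique {q : MvPolynomial (Fin 2) ℝ} {m m' : ℝ} {φ ψ : ℝ → ℝ} (h1 : Arc q m m' φ)
    (h2 : Arc q m m' ψ) {x0 : ℝ} (hx0 : x0 ∈ Icc m m') (h : φ x0 = ψ x0) :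
    ∀ x ∈ Icc m m', φ x = ψ x := by
  obtain ⟨A, B, hA, hB, hAB, -, hBd⟩ := G3_divdiff q
  have hpc : PreconnectedSpace (Icc m m') := Subtype.preconnectedSpace isPreconnected_Icc
  have hφ : Continuous (fun x : Icc m m' => φ x) := continuousOn_iff_continuous_domRestrict.mp h1.cont
  have hψ : Continuous (fun x : Icc m m' => ψ x) := continuousOn_iff_continuous_domRestrict.mp h2.cont
  have hclosed : IsClosed {x : Icc m m' | φ x = ψ x} := isClosed_eq hφ hψ
  have hopen : IsOpen {x : Icc m m' | φ x = ψ x} := by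
    rw [isOpen_iff_mem_nhds]
    intro x hx
    have hg : Continuous (fun t : Icc m m' => B (((t : ℝ), φ t), ((t : ℝ), ψ t))) :=
      hB.comp ((continuous_subtype_val.prodMk hφ).prodMk (continuous_subtype_val.prodMk hψ))
    have hgx : B (((x : ℝ), φ x), ((x : ℝ), ψ x)) ≠ 0 := by
      have hx' : φ x = ψ x := hx
      rw [← hx', hBd]
      exact h1.ne x x.2
    have hev := hg.continuousAt.eventually_ne hgx
    filter_upwards [hev] with t ht
    have e := hAB t (φ t) t (ψ t)
    rw [h1.zero t t.2, h2.zero t t.2, sub_self, sub_self, mul_zero, zero_add] at e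
    have := (mul_eq_zero.mp e.symm).resolve_left ht
    exact sub_eq_zero.mp this
  have huniv := (IsClopen.eq_univ ⟨hclosed, hopen⟩ ⟨⟨x0, hx0⟩, h⟩ :
    {x : Icc m m' | φ x = ψ x} = univ)
  intro x hx
  have : (⟨x, hx⟩ : Icc m m') ∈ {x : Icc m m' | φ x = ψ x} := by rw [huniv]; trivial
  exact this

theorem arc_deriv {q : MvPolynomial (Fin 2) ℝ} {m m' : ℝ} {φ : ℝ → ℝ} (h1 : Arc q m m' φ) :
    ∀ x ∈ Icc m m', HasDerivWithinAt φ (D1 q x (φ x)) (Icc m m') x := by
  intro x hx
  obtain ⟨A, B, hA, hB, hAB, hAd, hBd⟩ := G3_divdiff q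
  rw [hasDerivWithinAt_iff_tendsto_slope]
  have hpath : Tendsto (fun t => (((t, φ t), (x, φ x)) : (ℝ × ℝ) × (ℝ × ℝ)))
      (𝓝[Icc m m' \ {x}] x) (𝓝 ((x, φ x), (x, φ x))) := by
    have ht : Tendsto φ (𝓝[Icc m m' \ {x}] x) (𝓝 (φ x)) :=
      (h1.cont x hx).mono_left (nhdsWithin_mono _ sdiff_subset)
    have hi : Tendsto (fun t : ℝ => t) (𝓝[Icc m m' \ {x}] x) (𝓝 x) :=
      tendsto_id.mono_left nhdsWithin_le_nhds
    exact (hi.prodMk_nhds ht).prodMk_nhds tendsto_const_nhds
  have hAl := (hA.tendsto ((x, φ x), (x, φ x))).comp hpath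
  have hBl := (hB.tendsto ((x, φ x), (x, φ x))).comp hpath
  rw [hAd] at hAl
  rw [hBd] at hBl
  have hne := h1.ne x hx
  have hlim : Tendsto (fun t => -(A ((t, φ t), (x, φ x))) / B ((t, φ t), (x, φ x)))
      (𝓝[Icc m m' \ {x}] x) (𝓝 (D1 q x (φ x))) := by
    unfold D1
    exact (hAl.neg).div hBl hne
  refine hlim.congr' ?_
  have hBne : ∀ᶠ t in 𝓝[Icc m m' \ {x}] x, B ((t, φ t), (x, φ x)) ≠ 0 := hBl.eventually_ne hne
  filter_upwards [hBne, self_mem_nhdsWithin] with t ht hmem
  have htx : t - x ≠ 0 := sub_ne_zero.mpr hmem.2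
  have e := hAB t (φ t) x (φ x)
  rw [h1.zero t hmem.1, h1.zero x hx, sub_self] at e
  rw [slope_def_field, div_eq_div_iff ht htx]
  linarith

theorem arc_deriv2 {q : MvPolynomial (Fin 2) ℝ} {m m' : ℝ} {φ : ℝ → ℝ} (h1 : Arc q m m' φ) :
    ∀ x ∈ Icc m m', HasDerivWithinAt (fun t => D1 q t (φ t)) (D2 q x (φ x)) (Icc m m') x := by
  intro x hx
  have hd := arc_deriv h1 x hx
  have hi : HasDerivWithinAt (fun t : ℝ => t) 1 (Icc m m') x := hasDerivWithinAt_id x _
  have hu := G3_chain (dx q) hi hd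
  have hv := G3_chain (dy q) hi hd
  have hne := h1.ne x hx
  have hq := (hu.neg).div hv hne
  have heq : D2 q x (φ x) = (-(ev (dx (dx q)) x (φ x) * 1 + ev (dy (dx q)) x (φ x) * D1 q x (φ x))
      * ev (dy q) x (φ x) - (-(ev (dx q) x (φ x))) * (ev (dx (dy q)) x (φ x) * 1
        + ev (dy (dy q)) x (φ x) * D1 q x (φ x))) / ev (dy q) x (φ x) ^ 2 := by
    unfold D2 D1 Hq
    rw [G3_ev_add, G3_ev_sub, G3_ev_mul, G3_ev_mul, G3_ev_mul, G3_ev_mul, G3_ev_mul, G3_ev_pow,
      G3_ev_pow, G3_comm]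
    have h2 : ev (2 : MvPolynomial (Fin 2) ℝ) x (φ x) = 2 := by simp [ev]
    rw [h2]
    field_simp
    ring
  rw [heq]
  exact hq

end MuntzF
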