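import Pool.Agent.Lib.MP_dde81e_full.G3

/-!
Module G4 (text 7.3 (c)): continuation of arcs.  Local existence: implicit function theorem (or monotonicity in y and the intermediate value theorem).
The roots of q(x,·), x in a compact interval, are bounded since the coefficient e of y^N is constant.  Let x* be the supremum of the x such that there
is an arc over [m,x] starting at (m,y) (they are restrictions of one function by arc_unique).  φ is bounded; its limit set at x* is connected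
and contained in the finite set of roots of q(x*,·), so φ has a limit y*, q(x*,y*) = 0; if q_y(x*,y*) ≠ 0 the arc can be extended.
`gen_roots`: for every x the polynomial y ↦ q(x,y) has degree N.
`gen_line`: on every non vertical line with nonzero slope, q is a nonzero polynomial of degree N (lead y^N restricted to the line).
-/

namespace MuntzF
open Set Filter Topology

/-- substitution of one variable polynomials -/
noncomputable def G4_res (q : MvPolynomial (Fin 2) ℝ) (a b : Polynomial ℝ) : Polynomial ℝ :=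
  MvPolynomial.aeval ![a, b] q

theorem G4_res_eval (q : MvPolynomial (Fin 2) ℝ) (a b : Polynomial ℝ) (t : ℝ) :
    (G4_res q a b).eval t = ev q (a.eval t) (b.eval t) := by
  induction q using MvPolynomial.induction_on with
  | C c => rw [G3_ev_C]; simp [G4_res]
  | add p q hp hq =>
      rw [G3_ev_add, ← hp, ← hq]
      simp [G4_res]
  | mul_X p n hp =>
      fin_cases n
      · change (G4_res (p * MvPolynomial.X 0) a b).eval t = ev (p * MvPolynomial.X 0) _ _
        rw [G3_ev_mul, G3_ev_X0, ← hp]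
        simp [G4_res]
      · change (G4_res (p * MvPolynomial.X 1) a b).eval t = ev (p * MvPolynomial.X 1) _ _
        rw [G3_ev_mul, G3_ev_X1, ← hp]
        simp [G4_res]

theorem G4_card {q : MvPolynomial (Fin 2) ℝ} {N : ℕ} {Sg Ka Mm : Set ℝ} (hq : Gen q N Sg Ka Mm)
    (a b : Polynomial ℝ) (ha : a.natDegree ≤ 1) (hb : b.natDegree = 1)
    (K : Finset ℝ) (hK : ∀ t ∈ K, ev q (a.eval t) (b.eval t) = 0) : K.card ≤ N := by
  obtain ⟨e, S, he, hS, rfl⟩ := hq.lead
  have hres : G4_res (S + MvPolynomial.C e * MvPolynomial.X 1 ^ N) a b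
      = G4_res S a b + Polynomial.C e * b ^ N := by
    simp [G4_res]
  have hd1 : (G4_res S a b).natDegree < N := by
    refine lt_of_le_of_lt ?_ hS
    have := MvPolynomial.aeval_natDegree_le (m := S.totalDegree) (n := 1) S le_rfl ![a, b]
      (by intro i; fin_cases i <;> simp [ha, hb])
    simpa [G4_res] using this
  have hd2 : (Polynomial.C e * b ^ N).natDegree = N := by
    rw [Polynomial.natDegree_C_mul he, Polynomial.natDegree_pow, hb, mul_one]
  have hdeg : (G4_res (S + MvPolynomial.C e * MvPolynomial.X 1 ^ N) a b).natDegree = N := by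
    rw [hres, Polynomial.natDegree_add_eq_right_of_natDegree_lt (by rw [hd2]; exact hd1), hd2]
  have hne : G4_res (S + MvPolynomial.C e * MvPolynomial.X 1 ^ N) a b ≠ 0 := by
    intro h0
    rw [h0, Polynomial.natDegree_zero] at hdeg
    have := hq.two
    omega
  rw [← hdeg]
  refine Polynomial.card_le_degree_of_subset_roots ?_
  intro t ht
  rw [Polynomial.mem_roots hne, Polynomial.IsRoot.def, G4_res_eval]
  exact hK t ht

theorem gen_roots {q : MvPolynomial (Fin 2) ℝ} {N : ℕ} {Sg Ka Mm : Set ℝ} (hq : Gen q N Sg Ka Mm)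
    (x : ℝ) (K : Finset ℝ) (hK : ∀ y ∈ K, ev q x y = 0) : K.card ≤ N := by
  refine G4_card hq (Polynomial.C x) Polynomial.X (by simp) (by simp) K ?_
  intro t ht
  simpa using hK t ht

theorem gen_line {q : MvPolynomial (Fin 2) ℝ} {N : ℕ} {Sg Ka Mm : Set ℝ} (hq : Gen q N Sg Ka Mm)
    {θ η : ℝ} (hθ : θ ≠ 0) (K : Finset ℝ) (hK : ∀ x ∈ K, ev q x (θ * x + η) = 0) : K.card ≤ N := by
  refine G4_card hq Polynomial.X (Polynomial.C θ * Polynomial.X + Polynomial.C η) (by simp)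
    (Polynomial.natDegree_linear hθ) K ?_
  intro t ht
  simpa using hK t ht

theorem G4_ev_eq (S : MvPolynomial (Fin 2) ℝ) (x y : ℝ) :
    ev S x y = ∑ d ∈ S.support, MvPolynomial.coeff d S * (x ^ d 0 * y ^ d 1) := by
  unfold ev
  rw [MvPolynomial.eval_eq']
  refine Finset.sum_congr rfl (fun d _ => ?_)
  rw [Fin.prod_univ_two]
  simp

theorem G4_bdd {q : MvPolynomial (Fin 2) ℝ} {N : ℕ} {Sg Ka Mm : Set ℝ} (hq : Gen q N Sg Ka Mm)
    (m X : ℝ) : ∃ Y0 : ℝ, ∀ x ∈ Icc m X, ∀ y, ev q x y = 0 → |y| ≤ Y0 := by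
  obtain ⟨e, S, he, hS, hqe⟩ := hq.lead
  set X0 : ℝ := max 1 (max |m| |X|) with hX0
  set M : ℝ := ∑ d ∈ S.support, |MvPolynomial.coeff d S| * X0 ^ d 0 with hM
  have hX1 : 1 ≤ X0 := le_max_left _ _
  refine ⟨max 1 (M / |e|), fun x hx y hy => ?_⟩
  by_contra hcon
  push Not at hcon
  have hy1 : 1 < |y| := lt_of_le_of_lt (le_max_left _ _) hcon
  have hy2 : M / |e| < |y| := lt_of_le_of_lt (le_max_right _ _) hcon
  have he0 : 0 < |e| := abs_pos.mpr he
  rw [div_lt_iff₀ he0] at hy2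
  have hxX : |x| ≤ X0 := by
    have h1 : |x| ≤ max |m| |X| := abs_le_max_abs_abs hx.1 hx.2
    exact h1.trans (le_max_right _ _)
  have hSb : |ev S x y| ≤ M * |y| ^ (N - 1) := by
    rw [G4_ev_eq, hM, Finset.sum_mul]
    refine (Finset.abs_sum_le_sum_abs _ _).trans (Finset.sum_le_sum fun d hd => ?_)
    rw [abs_mul, abs_mul, abs_pow, abs_pow, mul_assoc]
    refine mul_le_mul_of_nonneg_left ?_ (abs_nonneg _)
    have hdeg : d 0 + d 1 ≤ S.totalDegree := by
      have := MvPolynomial.le_totalDegree hd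
      rw [Finsupp.sum_fintype _ _ (fun _ => rfl), Fin.sum_univ_two] at this
      exact this
    refine mul_le_mul (pow_le_pow_left₀ (abs_nonneg _) hxX _) ?_ (by positivity) (by positivity)
    exact pow_le_pow_right₀ hy1.le (by omega)
  have hzero : ev S x y + e * y ^ N = 0 := by
    rw [hqe, G3_ev_add, G3_ev_mul, G3_ev_C, G3_ev_pow, G3_ev_X1] at hy
    exact hy
  have hN : N = (N - 1) + 1 := by have := hq.two; omega
  have habs : |e| * |y| ^ N = |ev S x y| := by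
    rw [← abs_pow, ← abs_mul]
    have : e * y ^ N = -ev S x y := by linarith
    rw [this, abs_neg]
  have hfin : |e| * |y| * |y| ^ (N - 1) ≤ M * |y| ^ (N - 1) := by
    calc |e| * |y| * |y| ^ (N - 1) = |e| * |y| ^ (N - 1 + 1) := by rw [pow_succ]; ring
      _ = |e| * |y| ^ N := by rw [← hN]
      _ = |ev S x y| := habs
      _ ≤ M * |y| ^ (N - 1) := hSb
  have hpos : 0 < |y| ^ (N - 1) := by positivity
  have := le_of_mul_le_mul_right hfin hpos
  linarith

theorem G4_mono {q : MvPolynomial (Fin 2) ℝ} {a b a' b' : ℝ} {φ : ℝ → ℝ} (h : Arc q a b φ)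
    (ha : a ≤ a') (hb : b' ≤ b) : Arc q a' b' φ where
  cont := h.cont.mono (Icc_subset_Icc ha hb)
  zero := fun x hx => h.zero x ⟨ha.trans hx.1, hx.2.trans hb⟩
  ne := fun x hx => h.ne x ⟨ha.trans hx.1, hx.2.trans hb⟩

theorem G4_congr {q : MvPolynomial (Fin 2) ℝ} {a b : ℝ} {φ ψ : ℝ → ℝ} (h : Arc q a b φ)
    (he : ∀ x ∈ Icc a b, ψ x = φ x) : Arc q a b ψ where
  cont := h.cont.congr he
  zero := fun x hx => by rw [he x hx]; exact h.zero x hx
  ne := fun x hx => by rw [he x hx]; exact h.ne x hx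

/-- gluing two arcs -/
theorem G4_glue {q : MvPolynomial (Fin 2) ℝ} {a b c : ℝ} {φ ψ : ℝ → ℝ} (h1 : Arc q a b φ)
    (h2 : Arc q b c ψ) (h : φ b = ψ b) (hab : a ≤ b) (hbc : b ≤ c) :
    Arc q a c (fun x => if x ≤ b then φ x else ψ x) := by
  have hu : Icc a c = Icc a b ∪ Icc b c := (Icc_union_Icc_eq_Icc hab hbc).symm
  have e1 : ∀ x ∈ Icc a b, (if x ≤ b then φ x else ψ x) = φ x := fun x hx => if_pos hx.2
  have e2 : ∀ x ∈ Icc b c, (if x ≤ b then φ x else ψ x) = ψ x := by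
    intro x hx
    by_cases hxb : x ≤ b
    · have : x = b := le_antisymm hxb hx.1
      rw [if_pos hxb, this, h]
    · rw [if_neg hxb]
  have a1 := G4_congr h1 e1
  have a2 := G4_congr h2 e2
  refine ⟨?_, ?_, ?_⟩
  · rw [hu]
    exact a1.cont.union_of_isClosed a2.cont isClosed_Icc isClosed_Icc
  · intro x hx
    rw [hu] at hx
    rcases hx with hx | hx
    · exact a1.zero x hx
    · exact a2.zero x hx
  · intro x hx
    rw [hu] at hx
    rcases hx with hx | hx
    · exact a1.ne x hx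
    · exact a2.ne x hx

/-- local existence of an arc to the right -/
theorem G4_local {q : MvPolynomial (Fin 2) ℝ} {x0 y0 : ℝ} (h0 : ev q x0 y0 = 0)
    (h1 : ev (dy q) x0 y0 ≠ 0) : ∃ δ : ℝ, 0 < δ ∧ ∃ ψ : ℝ → ℝ, Arc q x0 (x0 + δ) ψ ∧ ψ x0 = y0 := by
  obtain ⟨A, B, hA, hB, hAB, hAd, hBd⟩ := G3_divdiff q
  set P0 : (ℝ × ℝ) × (ℝ × ℝ) := ((x0, y0), (x0, y0)) with hP0
  set g : ℝ := ev (dy q) x0 y0 with hg
  have hgpos : 0 < |g| := abs_pos.mpr h1
  set b : ℝ := |g| / 2 with hb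
  have hbpos : 0 < b := by positivity
  set a : ℝ := |A P0| + 1 with ha
  have hapos : 0 < a := by positivity
  have hevB : ∀ᶠ P in 𝓝 P0, |B P - g| < b := by
    have hBP : B P0 = g := by rw [hP0, hBd]
    have hc : Continuous (fun P => |B P - g|) := (hB.sub continuous_const).abs
    have h := hc.tendsto P0
    rw [hBP, sub_self, abs_zero] at h
    exact h.eventually_lt_const hbpos
  have hevA : ∀ᶠ P in 𝓝 P0, |A P| < a := by
    have h := (hA.tendsto P0).abs
    exact h.eventually_lt_const (by rw [ha]; linarith)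
  obtain ⟨r, hr, hball⟩ := Metric.eventually_nhds_iff.mp (hevB.and hevA)
  set ε : ℝ := r / 2 with hε
  have hεpos : 0 < ε := by positivity
  have hεr : ε < r := by rw [hε]; linarith
  set δ : ℝ := min ε (b * ε / (2 * a)) with hδ
  have hδpos : 0 < δ := lt_min hεpos (by positivity)
  have hδε : δ ≤ ε := min_le_left _ _
  have hδa : a * δ < b * ε := by
    have h2 : δ ≤ b * ε / (2 * a) := min_le_right _ _
    have h3 : a * δ ≤ a * (b * ε / (2 * a)) := mul_le_mul_of_nonneg_left h2 hapos.le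
    have h4 : a * (b * ε / (2 * a)) = b * ε / 2 := by field_simp
    rw [h4] at h3
    have : 0 < b * ε := by positivity
    linarith
  have hbox : ∀ x' y' x y : ℝ, |x' - x0| ≤ ε → |y' - y0| ≤ ε → |x - x0| ≤ ε → |y - y0| ≤ ε →
      |B ((x', y'), (x, y)) - g| < b ∧ |A ((x', y'), (x, y))| < a := by
    intro x' y' x y k1 k2 k3 k4
    apply hball
    rw [hP0, Prod.dist_eq, Prod.dist_eq, Prod.dist_eq, Real.dist_eq, Real.dist_eq, Real.dist_eq,
      Real.dist_eq]
    simp only [max_lt_iff]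
    exact ⟨⟨by linarith, by linarith⟩, by linarith, by linarith⟩
  have hBabs : ∀ t : ℝ, |t - g| < b → b < |t| := by
    intro t ht
    have h5 : |g| - |t| ≤ |t - g| := by
      rw [abs_sub_comm]
      exact abs_sub_abs_le_abs_sub g t
    have : |g| = 2 * b := by rw [hb]; ring
    linarith
  have hself : |y0 - y0| ≤ ε := by rw [sub_self, abs_zero]; exact hεpos.le
  have hselfx : |x0 - x0| ≤ ε := by rw [sub_self, abs_zero]; exact hεpos.le
  -- roots
  have hex : ∀ x ∈ Icc x0 (x0 + δ), ∃ y, |y - y0| ≤ ε ∧ ev q x y = 0 := by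
    intro x hx
    have hxx : |x - x0| ≤ δ := by
      rw [abs_of_nonneg (by linarith [hx.1])]
      linarith [hx.2]
    have hxε : |x - x0| ≤ ε := hxx.trans hδε
    have hcont : ContinuousOn (fun y => ev q x y) (Icc (y0 - ε) (y0 + ε)) :=
      ((ev_continuous q).comp (continuous_const.prodMk continuous_id)).continuousOn
    have kp : |(y0 + ε) - y0| ≤ ε := by rw [add_sub_cancel_left, abs_of_pos hεpos]
    have km : |(y0 - ε) - y0| ≤ ε := by
      rw [sub_sub_cancel_left, abs_neg, abs_of_pos hεpos]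
    have ep := hAB x (y0 + ε) x0 y0
    have em := hAB x (y0 - ε) x0 y0
    rw [h0, sub_zero, add_sub_cancel_left] at ep
    rw [h0, sub_zero, sub_sub_cancel_left] at em
    obtain ⟨Bp, Ap⟩ := hbox x (y0 + ε) x0 y0 hxε kp hselfx hself
    obtain ⟨Bm, Am⟩ := hbox x (y0 - ε) x0 y0 hxε km hselfx hself
    have Ap' : |A ((x, y0 + ε), (x0, y0)) * (x - x0)| ≤ a * δ := by
      rw [abs_mul]
      exact mul_le_mul Ap.le hxx (abs_nonneg _) hapos.le
    have Am' : |A ((x, y0 - ε), (x0, y0)) * (x - x0)| ≤ a * δ := by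
      rw [abs_mul]
      exact mul_le_mul Am.le hxx (abs_nonneg _) hapos.le
    rcases lt_or_gt_of_ne h1 with hneg | hpos
    · -- g < 0
      have hgb : g = -(2 * b) := by rw [hb, abs_of_neg hneg]; ring
      have hBp : B ((x, y0 + ε), (x0, y0)) < -b := by
        have := (abs_lt.mp Bp).2; linarith
      have hBm : B ((x, y0 - ε), (x0, y0)) < -b := by
        have := (abs_lt.mp Bm).2; linarith
      have s1 : ev q x (y0 + ε) ≤ 0 := by
        rw [ep]
        have h6 : B ((x, y0 + ε), (x0, y0)) * ε ≤ -b * ε :=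
          mul_le_mul_of_nonneg_right hBp.le hεpos.le
        have := (abs_le.mp Ap').2
        linarith
      have s2 : 0 ≤ ev q x (y0 - ε) := by
        rw [em]
        have h6 : B ((x, y0 - ε), (x0, y0)) * ε ≤ -b * ε :=
          mul_le_mul_of_nonneg_right hBm.le hεpos.le
        have := (abs_le.mp Am').1
        linarith
      obtain ⟨y, hy, hy0⟩ := intermediate_value_Icc' (by linarith) hcont ⟨s1, s2⟩
      exact ⟨y, abs_le.mpr ⟨by linarith [hy.1], by linarith [hy.2]⟩, hy0⟩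
    · have hgb : g = 2 * b := by rw [hb, abs_of_pos hpos]; ring
      have hBp : b < B ((x, y0 + ε), (x0, y0)) := by
        have := (abs_lt.mp Bp).1; linarith
      have hBm : b < B ((x, y0 - ε), (x0, y0)) := by
        have := (abs_lt.mp Bm).1; linarith
      have s1 : 0 ≤ ev q x (y0 + ε) := by
        rw [ep]
        have h6 : b * ε ≤ B ((x, y0 + ε), (x0, y0)) * ε :=
          mul_le_mul_of_nonneg_right hBp.le hεpos.le
        have := (abs_le.mp Ap').1
        linarith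
      have s2 : ev q x (y0 - ε) ≤ 0 := by
        rw [em]
        have h6 : b * ε ≤ B ((x, y0 - ε), (x0, y0)) * ε :=
          mul_le_mul_of_nonneg_right hBm.le hεpos.le
        have := (abs_le.mp Am').2
        linarith
      obtain ⟨y, hy, hy0⟩ := intermediate_value_Icc (by linarith) hcont ⟨s2, s1⟩
      exact ⟨y, abs_le.mpr ⟨by linarith [hy.1], by linarith [hy.2]⟩, hy0⟩
  choose! ψ hψ using hex
  have hin : ∀ x ∈ Icc x0 (x0 + δ), |x - x0| ≤ ε := by
    intro x hx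
    rw [abs_of_nonneg (by linarith [hx.1])]
    linarith [hx.2]
  have hx0m : x0 ∈ Icc x0 (x0 + δ) := ⟨le_rfl, by linarith⟩
  refine ⟨δ, hδpos, ψ, ⟨?_, fun x hx => (hψ x hx).2, ?_⟩, ?_⟩
  · -- Lipschitz
    have hL : LipschitzOnWith (Real.toNNReal (a / b)) ψ (Icc x0 (x0 + δ)) := by
      refine LipschitzOnWith.of_dist_le_mul fun x hx x' hx' => ?_
      rw [Real.dist_eq, Real.dist_eq, Real.coe_toNNReal _ (by positivity)]
      have e := hAB x (ψ x) x' (ψ x')
      rw [(hψ x hx).2, (hψ x' hx').2, sub_self] at e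
      obtain ⟨hB1, hA1⟩ := hbox x (ψ x) x' (ψ x') (hin x hx) (hψ x hx).1 (hin x' hx') (hψ x' hx').1
      have hB2 := hBabs _ hB1
      have h7 : |B ((x, ψ x), (x', ψ x'))| * |ψ x - ψ x'| = |A ((x, ψ x), (x', ψ x'))| * |x - x'| := by
        rw [← abs_mul, ← abs_mul]
        have : B ((x, ψ x), (x', ψ x')) * (ψ x - ψ x') = -(A ((x, ψ x), (x', ψ x')) * (x - x')) := by
          linarith
        rw [this, abs_neg]
      have h8 : b * |ψ x - ψ x'| ≤ a * |x - x'| := by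
        calc b * |ψ x - ψ x'| ≤ |B ((x, ψ x), (x', ψ x'))| * |ψ x - ψ x'| :=
              mul_le_mul_of_nonneg_right hB2.le (abs_nonneg _)
          _ = |A ((x, ψ x), (x', ψ x'))| * |x - x'| := h7
          _ ≤ a * |x - x'| := mul_le_mul_of_nonneg_right hA1.le (abs_nonneg _)
      rw [div_mul_eq_mul_div, le_div_iff₀ hbpos]
      linarith
    exact hL.continuousOn
  · intro x hx hz
    obtain ⟨hB1, -⟩ := hbox x (ψ x) x (ψ x) (hin x hx) (hψ x hx).1 (hin x hx) (hψ x hx).1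
    have hB2 := hBabs _ hB1
    rw [hBd, hz, abs_zero] at hB2
    linarith
  · have e := hAB x0 (ψ x0) x0 y0
    rw [(hψ x0 hx0m).2, h0, sub_self, sub_self, mul_zero, zero_add] at e
    obtain ⟨hB1, -⟩ := hbox x0 (ψ x0) x0 y0 hselfx (hψ x0 hx0m).1 hselfx hself
    have hB2 := hBabs _ hB1
    have hBne : B ((x0, ψ x0), (x0, y0)) ≠ 0 := by
      intro h9
      rw [h9, abs_zero] at hB2
      linarith
    exact sub_eq_zero.mp ((mul_eq_zero.mp e.symm).resolve_left hBne)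

theorem G4_ico {q : MvPolynomial (Fin 2) ℝ} {m xs : ℝ} {Φ : ℝ → ℝ}
    (harcs : ∀ x, m ≤ x → x < xs → Arc q m x Φ) : ContinuousOn Φ (Ico m xs) := by
  intro x hx
  have hx' : x < (x + xs) / 2 := by linarith [hx.2]
  have hx'' : (x + xs) / 2 < xs := by linarith [hx.2]
  have hA := (harcs ((x + xs) / 2) (by linarith [hx.1]) hx'').cont x ⟨hx.1, hx'.le⟩
  refine hA.mono_of_mem_nhdsWithin ?_
  refine mem_nhdsWithin.mpr ⟨Iio ((x + xs) / 2), isOpen_Iio, hx', ?_⟩
  intro t ht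
  exact ⟨ht.2.1, le_of_lt ht.1⟩

theorem G4_zero {q : MvPolynomial (Fin 2) ℝ} {m xs ys : ℝ} {Φ : ℝ → ℝ} (hlt : m < xs)
    (hroot : ∀ x, m ≤ x → x < xs → ev q x (Φ x) = 0)
    (hys : Tendsto Φ (𝓝[<] xs) (𝓝 ys)) : ev q xs ys = 0 := by
  have hi : Tendsto (fun t : ℝ => t) (𝓝[<] xs) (𝓝 xs) := tendsto_id.mono_left nhdsWithin_le_nhds
  have hp : Tendsto (fun t : ℝ => (t, Φ t)) (𝓝[<] xs) (𝓝 (xs, ys)) := hi.prodMk_nhds hys
  have hc : Tendsto (fun P : ℝ × ℝ => ev q P.1 P.2) (𝓝 (xs, ys)) (𝓝 (ev q xs ys)) :=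
    (ev_continuous q).tendsto (xs, ys)
  have ht : Tendsto (fun t => ev q t (Φ t)) (𝓝[<] xs) (𝓝 (ev q xs ys)) := by
    have h := hc.comp hp
    exact h
  have ht0 : Tendsto (fun t => ev q t (Φ t)) (𝓝[<] xs) (𝓝 0) := by
    refine tendsto_const_nhds.congr' ?_
    filter_upwards [Ioo_mem_nhdsLT hlt] with x hx
    exact (hroot x hx.1.le hx.2).symm
  exact tendsto_nhds_unique ht ht0

theorem G4_close {q : MvPolynomial (Fin 2) ℝ} {m xs ys : ℝ} {Φ : ℝ → ℝ}
    (harcs : ∀ x, m ≤ x → x < xs → Arc q m x Φ)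
    (hys : Tendsto Φ (𝓝[<] xs) (𝓝 ys)) (hzero : ev q xs ys = 0) (hne : ev (dy q) xs ys ≠ 0) :
    Arc q m xs (fun x => if x = xs then ys else Φ x) := by
  refine ⟨?_, ?_, ?_⟩
  · have hupd : (fun x => if x = xs then ys else Φ x) = Function.update Φ xs ys := by
      funext x
      by_cases h : x = xs
      · rw [if_pos h, h, Function.update_self]
      · rw [if_neg h, Function.update_of_ne h]
    rw [hupd, continuousOn_update_iff]
    have hsd : Icc m xs \ {xs} = Ico m xs := Icc_sdiff_right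
    rw [hsd]
    exact ⟨G4_ico harcs, fun _ => hys.mono_left (nhdsWithin_mono _ (fun t ht => ht.2))⟩
  · intro x hx
    by_cases h : x = xs
    · simp only [if_pos h]; rw [h]; exact hzero
    · simp only [if_neg h]
      exact (harcs x hx.1 (lt_of_le_of_ne hx.2 h)).zero x ⟨hx.1, le_rfl⟩
  · intro x hx
    by_cases h : x = xs
    · simp only [if_pos h]; rw [h]; exact hne
    · simp only [if_neg h]
      exact (harcs x hx.1 (lt_of_le_of_ne hx.2 h)).ne x ⟨hx.1, le_rfl⟩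

theorem G4_lim {q : MvPolynomial (Fin 2) ℝ} {N : ℕ} {Sg Ka Mm : Set ℝ} (hq : Gen q N Sg Ka Mm)
    {m X xs : ℝ} {Φ : ℝ → ℝ} (hlt : m < xs) (hxsX : xs ≤ X)
    (harcs : ∀ x, m ≤ x → x < xs → Arc q m x Φ) : ∃ ys, Tendsto Φ (𝓝[<] xs) (𝓝 ys) := by
  have hcontΦ := G4_ico harcs
  obtain ⟨Y0, hY0⟩ := G4_bdd hq m X
  have hroot : ∀ x, m ≤ x → x < xs → ev q x (Φ x) = 0 := fun x hx1 hx2 =>
    (harcs x hx1 hx2).zero x ⟨hx1, le_rfl⟩
  have hbd : ∀ x, m ≤ x → x < xs → |Φ x| ≤ Y0 := fun x hx1 hx2 =>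
    hY0 x ⟨hx1, hx2.le.trans hxsX⟩ _ (hroot x hx1 hx2)
  have hevI : ∀ u, u < xs → ∀ᶠ x in 𝓝[<] xs, u < x ∧ x < xs := fun u hu =>
    Ioo_mem_nhdsLT hu
  have hup : (𝓝[<] xs).IsBoundedUnder (· ≤ ·) Φ := by
    refine ⟨Y0, ?_⟩
    rw [eventually_map]
    filter_upwards [hevI m hlt] with x hx
    exact (abs_le.mp (hbd x hx.1.le hx.2)).2
  have hdn : (𝓝[<] xs).IsBoundedUnder (· ≥ ·) Φ := by
    refine ⟨-Y0, ?_⟩
    rw [eventually_map]
    filter_upwards [hevI m hlt] with x hx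
    exact (abs_le.mp (hbd x hx.1.le hx.2)).1
  refine tendsto_of_no_upcrossings dense_univ ?_ hup hdn
  rintro a - b - hab ⟨hfa, hfb⟩
  have hc : ∀ c ∈ Icc a b, ev q xs c = 0 := by
    intro c hc
    by_contra hne
    have hcc : Continuous (fun x => ev q x c) :=
      (ev_continuous q).comp (continuous_id.prodMk continuous_const)
    have hev : ∀ᶠ x in 𝓝[<] xs, ev q x c ≠ 0 :=
      (hcc.continuousAt.eventually_ne hne).filter_mono nhdsWithin_le_nhds
    have hmem : {x | ev q x c ≠ 0 ∧ (m < x ∧ x < xs)} ∈ 𝓝[<] xs := hev.and (hevI m hlt)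
    obtain ⟨u, hu, hsub⟩ := mem_nhdsLT_iff_exists_Ioo_subset.mp hmem
    obtain ⟨x1, hx1a, hx1⟩ := (hfa.and_eventually (hevI u hu)).exists
    obtain ⟨x2, hx2b, hx2⟩ := (hfb.and_eventually (hevI u hu)).exists
    have hum : ∀ t, u < t → t < xs → m < t := fun t h3 h4 => (hsub ⟨h3, h4⟩).2.1
    have hsubI : uIcc x1 x2 ⊆ Ioo u xs := by
      intro t ht
      rcases le_total x1 x2 with hle | hle
      · rw [uIcc_of_le hle] at ht
        exact ⟨hx1.1.trans_le ht.1, ht.2.trans_lt hx2.2⟩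
      · rw [uIcc_of_ge hle] at ht
        exact ⟨hx2.1.trans_le ht.1, ht.2.trans_lt hx1.2⟩
    have hcon : ContinuousOn Φ (uIcc x1 x2) :=
      hcontΦ.mono (fun t ht => ⟨(hum t (hsubI ht).1 (hsubI ht).2).le, (hsubI ht).2⟩)
    have hmemc : c ∈ uIcc (Φ x1) (Φ x2) := by
      rw [uIcc_of_le (by linarith [hc.1, hc.2])]
      exact ⟨by linarith [hc.1], by linarith [hc.2]⟩
    obtain ⟨t, ht, htc⟩ := intermediate_value_uIcc hcon hmemc
    have ht' := hsubI ht
    have hz := hroot t (hum t ht'.1 ht'.2).le ht'.2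
    rw [htc] at hz
    exact (hsub ht').1 hz
  obtain ⟨K, hK, hKc⟩ := (Icc_infinite hab).exists_subset_card_eq (N + 1)
  have := gen_roots hq xs K (fun c hcK => hc c (hK hcK))
  omega

theorem arc_continue {q : MvPolynomial (Fin 2) ℝ} {N : ℕ} {Sg Ka Mm : Set ℝ} (hq : Gen q N Sg Ka Mm)
    {m X y : ℝ} (hm : m < X) (h0 : ev q m y = 0) (h1 : ev (dy q) m y ≠ 0) :
    (∃ φ : ℝ → ℝ, Arc q m X φ ∧ φ m = y) ∨
    (∃ (xs ys : ℝ) (φ : ℝ → ℝ), m < xs ∧ xs ≤ X ∧ φ m = y ∧ (∀ x, m ≤ x → x < xs → Arc q m x φ) ∧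
      Tendsto φ (𝓝[<] xs) (𝓝 ys) ∧ ev q xs ys = 0 ∧ ev (dy q) xs ys = 0) := by
  obtain ⟨T, hT⟩ : ∃ T : Set ℝ, ∀ x, x ∈ T ↔
      (m ≤ x ∧ x ≤ X ∧ ∃ φ : ℝ → ℝ, Arc q m x φ ∧ φ m = y) :=
    ⟨{x | m ≤ x ∧ x ≤ X ∧ ∃ φ : ℝ → ℝ, Arc q m x φ ∧ φ m = y}, fun x => Iff.rfl⟩
  have hmT : m ∈ T := by
    rw [hT]
    refine ⟨le_rfl, hm.le, fun _ => y, ⟨continuousOn_const, ?_, ?_⟩, rfl⟩
    · intro x hx
      rw [Icc_self] at hx
      rw [mem_singleton_iff.mp hx]
      exact h0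
    · intro x hx
      rw [Icc_self] at hx
      rw [mem_singleton_iff.mp hx]
      exact h1
  have hbdd : BddAbove T := ⟨X, fun x hx => ((hT x).mp hx).2.1⟩
  obtain ⟨xs, hxs⟩ : ∃ xs, IsLUB T xs := ⟨sSup T, isLUB_csSup ⟨m, hmT⟩ hbdd⟩
  have hmxs : m ≤ xs := hxs.1 hmT
  have hxsX : xs ≤ X := hxs.2 (fun x hx => ((hT x).mp hx).2.1)
  have hdown : ∀ x ∈ T, ∀ t, m ≤ t → t ≤ x → t ∈ T := by
    intro x hx t ht1 ht2
    obtain ⟨h2, h3, φ, h4, h5⟩ := (hT x).mp hx
    exact (hT t).mpr ⟨ht1, ht2.trans h3, φ, G4_mono h4 le_rfl ht2, h5⟩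
  have hfex : ∀ x ∈ T, ∃ φ : ℝ → ℝ, Arc q m x φ ∧ φ m = y := fun x hx => ((hT x).mp hx).2.2
  choose! f hf using hfex
  obtain ⟨Φ, hΦ⟩ : ∃ Φ : ℝ → ℝ, ∀ x, Φ x = f x x := ⟨fun x => f x x, fun _ => rfl⟩
  have hΦf : ∀ x ∈ T, ∀ t ∈ Icc m x, Φ t = f x t := by
    intro x hx t ht
    have htT := hdown x hx t ht.1 ht.2
    rw [hΦ]
    exact arc_unique (hf t htT).1 (G4_mono (hf x hx).1 le_rfl ht.2) (x0 := m) ⟨le_rfl, ht.1⟩
      (by rw [(hf t htT).2, (hf x hx).2]) t ⟨ht.1, le_rfl⟩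
  have hΦarc : ∀ x ∈ T, Arc q m x Φ := fun x hx => G4_congr (hf x hx).1 (hΦf x hx)
  have hΦm : Φ m = y := by rw [hΦ]; exact (hf m hmT).2
  by_cases hxsT : xs ∈ T
  · left
    have harc := hΦarc xs hxsT
    rcases hxsX.lt_or_eq with hlt | heq
    · exfalso
      obtain ⟨δ, hδ, ψ, hψ, hψ0⟩ := G4_local (harc.zero xs ⟨hmxs, le_rfl⟩) (harc.ne xs ⟨hmxs, le_rfl⟩)
      have hδ' : 0 < min δ (X - xs) := lt_min hδ (by linarith)
      have hψ2 : Arc q xs (xs + min δ (X - xs)) ψ :=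
        G4_mono hψ le_rfl (by linarith [min_le_left δ (X - xs)])
      have hglue := G4_glue harc hψ2 hψ0.symm hmxs (by linarith)
      have hmem : xs + min δ (X - xs) ∈ T := by
        rw [hT]
        refine ⟨by linarith, by linarith [min_le_right δ (X - xs)], _, hglue, ?_⟩
        rw [if_pos hmxs]
        exact hΦm
      have := hxs.1 hmem
      linarith
    · exact ⟨Φ, by rw [← heq]; exact harc, hΦm⟩
  · right
    have hlt : m < xs := lt_of_le_of_ne hmxs (fun h => hxsT (h ▸ hmT))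
    have hall : ∀ x, m ≤ x → x < xs → x ∈ T := by
      intro x hx1 hx2
      obtain ⟨t, htT, hxt, -⟩ := hxs.exists_between hx2
      exact hdown t htT x hx1 hxt.le
    have harcs : ∀ x, m ≤ x → x < xs → Arc q m x Φ := fun x hx1 hx2 => hΦarc x (hall x hx1 hx2)
    obtain ⟨ys, hys⟩ := G4_lim hq hlt hxsX harcs
    have hzero := G4_zero hlt (fun x hx1 hx2 => (harcs x hx1 hx2).zero x ⟨hx1, le_rfl⟩) hys
    refine ⟨xs, ys, Φ, hlt, hxsX, hΦm, harcs, hys, hzero, ?_⟩
    by_contra hne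
    apply hxsT
    rw [hT]
    refine ⟨hmxs, hxsX, _, G4_close harcs hys hzero hne, ?_⟩
    rw [if_neg hlt.ne]
    exact hΦm

end MuntzF
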