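import Pool.Agent.Lib.MP_dde81e_full.G3

/-!
Module G5 (text 7.3 (d)): at most two arcs end at an event.  Near (xs,ys) we have q_yy ≠ 0.  Three functions φ1,φ2,φ3 on [m,xs), pairwise different at
every point near xs (pairwise different at one point suffices by arc_unique), all with limit ys: for x close to xs the three roots φi(x) of q(x,·) are
distinct, by Rolle twice q_yy(x,ξ) = 0 with ξ between them; ξ → ys; contradiction with continuity.
-/

namespace MuntzF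
open Set Filter Topology

/-- Rolle twice, three ordered zeros. -/
theorem G5_rolle3 {f f' f'' : ℝ → ℝ} (h1 : ∀ y, HasDerivAt f (f' y) y) (h2 : ∀ y, HasDerivAt f' (f'' y) y)
    {a b c : ℝ} (hab : a < b) (hbc : b < c) (ha : f a = 0) (hb : f b = 0) (hc : f c = 0) :
    ∃ t, a < t ∧ t < c ∧ f'' t = 0 := by
  have hcf : Continuous f := continuous_iff_continuousAt.2 fun y => (h1 y).continuousAt
  have hcf' : Continuous f' := continuous_iff_continuousAt.2 fun y => (h2 y).continuousAt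
  obtain ⟨u, hu, hu0⟩ := exists_hasDerivAt_eq_zero hab hcf.continuousOn (by rw [ha, hb])
    (fun y _ => h1 y)
  obtain ⟨v, hv, hv0⟩ := exists_hasDerivAt_eq_zero hbc hcf.continuousOn (by rw [hb, hc])
    (fun y _ => h1 y)
  have huv : u < v := hu.2.trans hv.1
  obtain ⟨t, ht, ht0⟩ := exists_hasDerivAt_eq_zero huv hcf'.continuousOn (by rw [hu0, hv0])
    (fun y _ => h2 y)
  exact ⟨t, hu.1.trans ht.1, ht.2.trans hv.2, ht0⟩

/-- Rolle twice, three different zeros in an interval. -/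
theorem G5_rolle3' {f f' f'' : ℝ → ℝ} (h1 : ∀ y, HasDerivAt f (f' y) y)
    (h2 : ∀ y, HasDerivAt f' (f'' y) y) {a b c u v : ℝ} (hab : a ≠ b) (hac : a ≠ c) (hbc : b ≠ c)
    (ha : f a = 0) (hb : f b = 0) (hc : f c = 0) (ha' : u < a ∧ a < v) (hb' : u < b ∧ b < v)
    (hc' : u < c ∧ c < v) : ∃ t, u < t ∧ t < v ∧ f'' t = 0 := by
  rcases lt_or_gt_of_ne hab with h | h <;> rcases lt_or_gt_of_ne hac with h' | h' <;>
    rcases lt_or_gt_of_ne hbc with h'' | h''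
  · obtain ⟨t, p, r, z⟩ := G5_rolle3 h1 h2 h h'' ha hb hc
    exact ⟨t, by linarith, by linarith, z⟩
  · obtain ⟨t, p, r, z⟩ := G5_rolle3 h1 h2 h' h'' ha hc hb
    exact ⟨t, by linarith, by linarith, z⟩
  · linarith
  · obtain ⟨t, p, r, z⟩ := G5_rolle3 h1 h2 h' h hc ha hb
    exact ⟨t, by linarith, by linarith, z⟩
  · obtain ⟨t, p, r, z⟩ := G5_rolle3 h1 h2 h h' hb ha hc
    exact ⟨t, by linarith, by linarith, z⟩
  · linarith
  · obtain ⟨t, p, r, z⟩ := G5_rolle3 h1 h2 h'' h' hb hc ha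
    exact ⟨t, by linarith, by linarith, z⟩
  · obtain ⟨t, p, r, z⟩ := G5_rolle3 h1 h2 h'' h hc hb ha
    exact ⟨t, by linarith, by linarith, z⟩

theorem two_arcs {q : MvPolynomial (Fin 2) ℝ} {m xs ys : ℝ} {φ : Fin 3 → ℝ → ℝ} (hm : m < xs)
    (harc : ∀ i, ∀ x, m ≤ x → x < xs → Arc q m x (φ i))
    (hlim : ∀ i, Tendsto (φ i) (𝓝[<] xs) (𝓝 ys)) (h2 : ev (dy (dy q)) xs ys ≠ 0)
    (hd : φ 0 m ≠ φ 1 m ∧ φ 0 m ≠ φ 2 m ∧ φ 1 m ≠ φ 2 m) : False := by
  have hcont := ev_continuous (dy (dy q))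
  have hopen : IsOpen {P : ℝ × ℝ | ev (dy (dy q)) P.1 P.2 ≠ 0} := isOpen_ne_fun hcont continuous_const
  obtain ⟨ε, hε, hball⟩ := Metric.isOpen_iff.1 hopen (xs, ys) h2
  have hev : ∀ i, ∀ᶠ x in 𝓝[<] xs, dist (φ i x) ys < ε := fun i =>
    (Metric.tendsto_nhds.1 (hlim i)) ε hε
  have h3 : ∀ᶠ x in 𝓝[<] xs, dist x xs < ε :=
    mem_nhdsWithin_of_mem_nhds (Metric.ball_mem_nhds xs hε)
  have h4 : ∀ᶠ x in 𝓝[<] xs, x ∈ Ioo m xs := Ioo_mem_nhdsLT hm
  obtain ⟨x, hx⟩ := (((hev 0).and (hev 1)).and (((hev 2).and h3).and h4)).exists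
  obtain ⟨⟨e0, e1⟩, ⟨e2, e3⟩, e4⟩ := hx
  have hne : ∀ i j, φ i m ≠ φ j m → φ i x ≠ φ j x := fun i j hij he =>
    hij (arc_unique (harc i x e4.1.le e4.2) (harc j x e4.1.le e4.2)
      (x0 := x) ⟨e4.1.le, le_refl x⟩ he m ⟨le_refl m, e4.1.le⟩)
  have hz : ∀ i, ev q x (φ i x) = 0 := fun i => (harc i x e4.1.le e4.2).zero x ⟨e4.1.le, le_refl x⟩
  rw [Real.dist_eq, abs_lt] at e0 e1 e2
  obtain ⟨t, ht1, ht2, ht3⟩ := G5_rolle3' (f := fun y => ev q x y) (f' := fun y => ev (dy q) x y)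
    (f'' := fun y => ev (dy (dy q)) x y) (u := ys - ε) (v := ys + ε)
    (fun y => ev_hasDeriv_y q x y) (fun y => ev_hasDeriv_y (dy q) x y)
    (hne 0 1 hd.1) (hne 0 2 hd.2.1) (hne 1 2 hd.2.2) (hz 0) (hz 1) (hz 2)
    ⟨by linarith, by linarith⟩ ⟨by linarith, by linarith⟩ ⟨by linarith, by linarith⟩
  have hmem : (x, t) ∈ Metric.ball (xs, ys) ε := by
    rw [Metric.mem_ball, Prod.dist_eq, max_lt_iff]
    refine ⟨e3, ?_⟩
    rw [Real.dist_eq, abs_lt]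
    constructor <;> simp only <;> linarith
  exact hball hmem ht3

end MuntzF
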