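import Pool.Agent.Lib.MP_dde81e_full.G4
import Pool.Agent.Lib.MP_dde81e_full.G5

/-!
Module G6 (text 7.4): existence of the chain structure.  Zs: lattice points (m,n), m ≤ Xr, with a root yv P of q(m,·), q_y ≠ 0 there (hypothesis
through Gen.gm), different ordinates for different P with the same m.  P → P' reachable if an arc joins (P.1, yv P) to (P'.1, yv P').
nx P = the reachable P' with the smallest abscissa (unique for a given abscissa by arc_unique), ph P the arc.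
disj, inj: arc_unique.  ends: P with nx P = none; continue its arc up to Xr (arc_continue).  Either it reaches x = Xr: the end points (Xr, y) are different
for different such P (otherwise the two arcs agree, so one of the points is reachable from the other, or they are equal): at most N by gen_roots. Or it ends
at an event: at most two P for each event (two_arcs applied on [max m_i, xs)), at most 2N^2 events. Total 4N^2 + N ≤ 5N^2.
-/

namespace MuntzF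
open Set Filter Topology

theorem G6_restrict {q : MvPolynomial (Fin 2) ℝ} {m m' a b : ℝ} {φ : ℝ → ℝ} (h : Arc q m m' φ)
    (ha : m ≤ a) (hb : b ≤ m') : Arc q a b φ :=
  ⟨h.cont.mono (Icc_subset_Icc ha hb), fun x hx => h.zero x (Icc_subset_Icc ha hb hx),
    fun x hx => h.ne x (Icc_subset_Icc ha hb hx)⟩

/-- `P'` is reachable from `P`. -/
def G6_R (q : MvPolynomial (Fin 2) ℝ) (Zs : Finset (ℤ × ℤ)) (yv : ℤ × ℤ → ℝ) (P P' : ℤ × ℤ) : Prop :=
  P ∈ Zs ∧ P' ∈ Zs ∧ P.1 < P'.1 ∧ ∃ φ : ℝ → ℝ, Arc q P.1 P'.1 φ ∧ φ P.1 = yv P ∧ φ P'.1 = yv P'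

/-- Two arcs which meet: one of the starting points is reachable from the other. -/
theorem G6_meet {q : MvPolynomial (Fin 2) ℝ} {Zs : Finset (ℤ × ℤ)} {yv : ℤ × ℤ → ℝ}
    (hinj : ∀ P ∈ Zs, ∀ P' ∈ Zs, P.1 = P'.1 → yv P = yv P' → P = P')
    {P P' : ℤ × ℤ} (hP : P ∈ Zs) (hP' : P' ∈ Zs) (hle : P.1 ≤ P'.1) {x : ℝ} (hx : (P'.1 : ℝ) ≤ x)
    {φ φ' : ℝ → ℝ} (h : Arc q P.1 x φ) (h' : Arc q P'.1 x φ') (hl : φ P.1 = yv P)
    (hl' : φ' P'.1 = yv P') (he : φ x = φ' x) : P = P' ∨ G6_R q Zs yv P P' := by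
  have hle' : (P.1 : ℝ) ≤ P'.1 := by exact_mod_cast hle
  have hag : φ P'.1 = yv P' := by
    rw [← hl']
    exact arc_unique (G6_restrict h hle' le_rfl) h' (x0 := x) ⟨hx, le_rfl⟩ he _ ⟨le_rfl, hx⟩
  rcases hle.lt_or_eq with hlt | heq
  · exact Or.inr ⟨hP, hP', hlt, φ, G6_restrict h le_rfl hx, hl, hag⟩
  · left
    refine hinj P hP P' hP' heq ?_
    rw [← hl, ← hag, heq]

/-- the same without an order. -/
theorem G6_meet' {q : MvPolynomial (Fin 2) ℝ} {Zs : Finset (ℤ × ℤ)} {yv : ℤ × ℤ → ℝ}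
    (hinj : ∀ P ∈ Zs, ∀ P' ∈ Zs, P.1 = P'.1 → yv P = yv P' → P = P')
    {P P' : ℤ × ℤ} (hP : P ∈ Zs) (hP' : P' ∈ Zs) {x : ℝ} (hx : (P.1 : ℝ) ≤ x) (hx' : (P'.1 : ℝ) ≤ x)
    {φ φ' : ℝ → ℝ} (h : Arc q P.1 x φ) (h' : Arc q P'.1 x φ') (hl : φ P.1 = yv P)
    (hl' : φ' P'.1 = yv P') (he : φ x = φ' x) :
    P = P' ∨ G6_R q Zs yv P P' ∨ G6_R q Zs yv P' P := by
  rcases le_total P.1 P'.1 with hle | hle
  · rcases G6_meet hinj hP hP' hle hx' h h' hl hl' he with h1 | h1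
    · exact Or.inl h1
    · exact Or.inr (Or.inl h1)
  · rcases G6_meet hinj hP' hP hle hx h' h hl' hl he.symm with h1 | h1
    · exact Or.inl h1.symm
    · exact Or.inr (Or.inr h1)

/-- nearest reachable point. -/
theorem G6_min {q : MvPolynomial (Fin 2) ℝ} {Zs : Finset (ℤ × ℤ)} {yv : ℤ × ℤ → ℝ} (P : ℤ × ℤ)
    (h : ∃ P', G6_R q Zs yv P P') : ∃ Q, G6_R q Zs yv P Q ∧ ∀ P', G6_R q Zs yv P P' → Q.1 ≤ P'.1 := by
  classical
  obtain ⟨P0, h0⟩ := h
  have hne : (Zs.filter (fun P' => G6_R q Zs yv P P')).Nonempty :=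
    ⟨P0, Finset.mem_filter.2 ⟨h0.2.1, h0⟩⟩
  obtain ⟨Q, hQ, hmin⟩ := Finset.exists_min_image _ (fun P' : ℤ × ℤ => P'.1) hne
  exact ⟨Q, (Finset.mem_filter.1 hQ).2, fun P' hP' => hmin P' (Finset.mem_filter.2 ⟨hP'.2.1, hP'⟩)⟩

/-- Counting of the ends. -/
theorem G6_ends {q : MvPolynomial (Fin 2) ℝ} {N : ℕ} {Sg Ka Mm : Set ℝ} (hq : Gen q N Sg Ka Mm)
    (Zs : Finset (ℤ × ℤ)) (yv : ℤ × ℤ → ℝ) (hM : ∀ P ∈ Zs, (P.1 : ℝ) ∈ Mm)
    (h0 : ∀ P ∈ Zs, ev q P.1 (yv P) = 0)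
    (hinj : ∀ P ∈ Zs, ∀ P' ∈ Zs, P.1 = P'.1 → yv P = yv P' → P = P')
    (E : Finset (ℤ × ℤ)) (hE : ∀ P ∈ E, P ∈ Zs ∧ ∀ P', ¬ G6_R q Zs yv P P') :
    E.card ≤ 5 * N ^ 2 := by
  classical
  -- a bound for the abscissas
  obtain ⟨X, hX⟩ : ∃ X : ℝ, ∀ P ∈ Zs, (P.1 : ℝ) < X := by
    refine ⟨(∑ P ∈ Zs, |(P.1 : ℝ)|) + 1, fun P hP => ?_⟩
    have h1 : |(P.1 : ℝ)| ≤ ∑ P ∈ Zs, |(P.1 : ℝ)| :=
      Finset.single_le_sum (f := fun P : ℤ × ℤ => |(P.1 : ℝ)|) (fun _ _ => abs_nonneg _) hP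
    have h2 := le_abs_self (P.1 : ℝ)
    linarith
  let A : ℤ × ℤ → Prop := fun P => ∃ φ : ℝ → ℝ, Arc q P.1 X φ ∧ φ P.1 = yv P
  let B : ℤ × ℤ → ℝ × ℝ → (ℝ → ℝ) → Prop := fun P e φ => (P.1 : ℝ) < e.1 ∧ φ P.1 = yv P ∧
    (∀ x, (P.1 : ℝ) ≤ x → x < e.1 → Arc q P.1 x φ) ∧ Tendsto φ (𝓝[<] e.1) (𝓝 e.2) ∧
    ev q e.1 e.2 = 0 ∧ ev (dy q) e.1 e.2 = 0
  have hcase : ∀ P ∈ E, A P ∨ ∃ e φ, B P e φ := by
    intro P hP
    have hPZ := (hE P hP).1
    rcases arc_continue hq (hX P hPZ) (h0 P hPZ) (hq.gm _ (hM P hPZ) _ (h0 P hPZ)) with h1 | h1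
    · exact Or.inl h1
    · obtain ⟨xs, ys, φ, a1, a2, a3, a4, a5, a6, a7⟩ := h1
      exact Or.inr ⟨(xs, ys), φ, a1, a3, a4, a5, a6, a7⟩
  -- first part
  have hA : (E.filter A).card ≤ N := by
    choose! fA hfA1 hfA2 using fun P (hP : P ∈ E.filter A) => (Finset.mem_filter.1 hP).2
    have hi : Set.InjOn (fun P => fA P X) (E.filter A : Finset (ℤ × ℤ)) := by
      intro P hP P' hP' he
      have hP1 : P ∈ E.filter A := by exact_mod_cast hP
      have hP1' : P' ∈ E.filter A := by exact_mod_cast hP'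
      have hPZ := (hE P (Finset.mem_filter.1 hP1).1)
      have hPZ' := (hE P' (Finset.mem_filter.1 hP1').1)
      rcases G6_meet' hinj hPZ.1 hPZ'.1 (hX P hPZ.1).le (hX P' hPZ'.1).le (hfA1 P hP1)
        (hfA1 P' hP1') (hfA2 P hP1) (hfA2 P' hP1') he with h1 | h1 | h1
      · exact h1
      · exact absurd h1 (hPZ.2 P')
      · exact absurd h1 (hPZ'.2 P)
    rw [← Finset.card_image_of_injOn hi]
    refine gen_roots hq X _ fun y hy => ?_
    obtain ⟨P, hP, rfl⟩ := Finset.mem_image.1 hy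
    exact (hfA1 P hP).zero X ⟨(hX P (hE P (Finset.mem_filter.1 hP).1).1).le, le_rfl⟩
  -- second part
  have hB : (E.filter (fun P => ¬ A P)).card ≤ 4 * N ^ 2 := by
    have hB' : ∀ P ∈ E.filter (fun P => ¬ A P), ∃ e φ, B P e φ := fun P hP =>
      (hcase P (Finset.mem_filter.1 hP).1).resolve_left (Finset.mem_filter.1 hP).2
    choose! fe fφ hfB using hB'
    have himg : ((E.filter (fun P => ¬ A P)).image fe).card ≤ 2 * N ^ 2 := by
      refine hq.evs _ fun e he => ?_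
      obtain ⟨P, hP, rfl⟩ := Finset.mem_image.1 he
      exact ⟨(hfB P hP).2.2.2.2.1, (hfB P hP).2.2.2.2.2⟩
    have hfib : ∀ e ∈ (E.filter (fun P => ¬ A P)).image fe,
        ((E.filter (fun P => ¬ A P)).filter (fun P => fe P = e)).card ≤ 2 := by
      intro e he
      by_contra hcon
      obtain ⟨P0, P1, P2, hP0, hP1, hP2, h01, h02, h12⟩ := Finset.two_lt_card_iff.1 (not_le.1 hcon)
      let PP : Fin 3 → ℤ × ℤ := ![P0, P1, P2]
      have hPP : ∀ i, PP i ∈ E.filter (fun P => ¬ A P) ∧ fe (PP i) = e := by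
        intro i
        fin_cases i
        · exact Finset.mem_filter.1 hP0
        · exact Finset.mem_filter.1 hP1
        · exact Finset.mem_filter.1 hP2
      have hBB : ∀ i, B (PP i) e (fφ (PP i)) := fun i => by
        have := hfB (PP i) (hPP i).1
        rwa [(hPP i).2] at this
      let m : ℝ := max (max ((PP 0).1 : ℝ) (PP 1).1) (PP 2).1
      have hm : m < e.1 := max_lt (max_lt (hBB 0).1 (hBB 1).1) (hBB 2).1
      have hmi : ∀ i, ((PP i).1 : ℝ) ≤ m := by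
        intro i
        fin_cases i
        · exact (le_max_left _ _).trans (le_max_left _ _)
        · exact (le_max_right _ _).trans (le_max_left _ _)
        · exact le_max_right _ _
      have hne : ∀ i j, PP i ≠ PP j → fφ (PP i) m ≠ fφ (PP j) m := by
        intro i j hij he2
        have hZi := hE _ (Finset.mem_filter.1 (hPP i).1).1
        have hZj := hE _ (Finset.mem_filter.1 (hPP j).1).1
        rcases G6_meet' hinj hZi.1 hZj.1 (hmi i) (hmi j) ((hBB i).2.2.1 m (hmi i) hm)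
          ((hBB j).2.2.1 m (hmi j) hm) (hBB i).2.1 (hBB j).2.1 he2 with h1 | h1 | h1
        · exact hij h1
        · exact hZi.2 _ h1
        · exact hZj.2 _ h1
      refine two_arcs (q := q) (m := m) (xs := e.1) (ys := e.2) (φ := fun i => fφ (PP i)) hm
        (fun i x hx1 hx2 => G6_restrict ((hBB i).2.2.1 x ((hmi i).trans hx1) hx2) (hmi i) le_rfl)
        (fun i => (hBB i).2.2.2.1)
        (hq.simple _ _ (hBB 0).2.2.2.2.1 (hBB 0).2.2.2.2.2)
        ⟨hne 0 1 h01, hne 0 2 h02, hne 1 2 h12⟩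
    have := Finset.card_le_mul_card_image_of_maps_to
      (s := E.filter (fun P => ¬ A P)) (t := (E.filter (fun P => ¬ A P)).image fe) (f := fe)
      (fun P hP => Finset.mem_image_of_mem fe hP) 2 hfib
    calc _ ≤ 2 * ((E.filter (fun P => ¬ A P)).image fe).card := this
      _ ≤ 2 * (2 * N ^ 2) := by gcongr
      _ = 4 * N ^ 2 := by ring
  have hsum : E.card = (E.filter A).card + (E.filter (fun P => ¬ A P)).card :=
    (Finset.card_filter_add_card_filter_not (s := E) A).symm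
  have hN : N ≤ N ^ 2 := Nat.le_self_pow (by norm_num) N
  rw [hsum]
  linarith

theorem chain_exists {q : MvPolynomial (Fin 2) ℝ} {N : ℕ} {Sg Ka Mm : Set ℝ} (hq : Gen q N Sg Ka Mm)
    (Zs : Finset (ℤ × ℤ)) (yv : ℤ × ℤ → ℝ) (hM : ∀ P ∈ Zs, (P.1 : ℝ) ∈ Mm)
    (h0 : ∀ P ∈ Zs, ev q P.1 (yv P) = 0)
    (hinj : ∀ P ∈ Zs, ∀ P' ∈ Zs, P.1 = P'.1 → yv P = yv P' → P = P') :
    Nonempty (Chain q N Zs yv) := by
  classical
  have hch : ∀ P, ∃ Q : ℤ × ℤ, (∃ P', G6_R q Zs yv P P') →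
      G6_R q Zs yv P Q ∧ ∀ P', G6_R q Zs yv P P' → Q.1 ≤ P'.1 := fun P => by
    by_cases h : ∃ P', G6_R q Zs yv P P'
    · obtain ⟨Q, hQ⟩ := G6_min P h
      exact ⟨Q, fun _ => hQ⟩
    · exact ⟨P, fun h' => absurd h' h⟩
  choose Qn hQn using hch
  have hph : ∀ P, ∃ φ : ℝ → ℝ, (∃ P', G6_R q Zs yv P P') →
      Arc q P.1 (Qn P).1 φ ∧ φ P.1 = yv P ∧ φ (Qn P).1 = yv (Qn P) := fun P => by
    by_cases h : ∃ P', G6_R q Zs yv P P'
    · obtain ⟨_, _, _, φ, hφ⟩ := (hQn P h).1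
      exact ⟨φ, fun _ => hφ⟩
    · exact ⟨fun _ => 0, fun h' => absurd h' h⟩
  choose ph hph using hph
  let nx : ℤ × ℤ → Option (ℤ × ℤ) := fun P =>
    if ∃ P', G6_R q Zs yv P P' then some (Qn P) else none
  have hnx : ∀ P Q, nx P = some Q → (∃ P', G6_R q Zs yv P P') ∧ Q = Qn P := by
    intro P Q h
    by_cases hP : ∃ P', G6_R q Zs yv P P'
    · simp only [nx, if_pos hP, Option.some.injEq] at h
      exact ⟨hP, h.symm⟩
    · simp only [nx, if_neg hP] at h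
      exact absurd h (by simp)
  have hnone : ∀ P, nx P = none → ∀ P', ¬ G6_R q Zs yv P P' := by
    intro P h P' hR
    have hP : ∃ P', G6_R q Zs yv P P' := ⟨P', hR⟩
    simp only [nx, if_pos hP] at h
    exact absurd h (by simp)
  refine ⟨{ nx := nx, ph := ph, mem := ?_, arc := ?_, left := ?_, right := ?_, inj := ?_,
            disj := ?_, ends := ?_, yinj := hinj }⟩
  · intro P P' h
    obtain ⟨hP, rfl⟩ := hnx P P' h
    obtain ⟨h1, h2, h3, _⟩ := (hQn P hP).1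
    exact ⟨h1, h2, h3⟩
  · intro P P' h
    obtain ⟨hP, rfl⟩ := hnx P P' h
    exact (hph P hP).1
  · intro P P' h
    obtain ⟨hP, rfl⟩ := hnx P P' h
    exact (hph P hP).2.1
  · intro P P' h
    obtain ⟨hP, rfl⟩ := hnx P P' h
    exact (hph P hP).2.2
  · intro P P' Q h h'
    obtain ⟨hP, hQ⟩ := hnx P Q h
    obtain ⟨hP', hQ'⟩ := hnx P' Q h'
    have a1 := (hQn P hP).1
    have a1' := (hQn P' hP').1
    have b1 := hph P hP
    have b1' := hph P' hP'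
    have m1 := (hQn P hP).2
    have m1' := (hQn P' hP').2
    rw [← hQ] at a1 b1 m1
    rw [← hQ'] at a1' b1' m1'
    have c1 : (P.1 : ℝ) ≤ Q.1 := by exact_mod_cast a1.2.2.1.le
    have c1' : (P'.1 : ℝ) ≤ Q.1 := by exact_mod_cast a1'.2.2.1.le
    rcases G6_meet' hinj a1.1 a1'.1 c1 c1' b1.1 b1'.1 b1.2.1 b1'.2.1
      (b1.2.2.trans b1'.2.2.symm) with h1 | h1 | h1
    · exact h1
    · exact absurd (m1 P' h1) (not_le.2 a1'.2.2.1)
    · exact absurd (m1' P h1) (not_le.2 a1.2.2.1)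
  · intro P1 P2 Q1 Q2 h h' x x1 x2 x3 x4 he
    obtain ⟨hP, hQ⟩ := hnx P1 Q1 h
    obtain ⟨hP', hQ'⟩ := hnx P2 Q2 h'
    have a1 := (hQn P1 hP).1
    have a1' := (hQn P2 hP').1
    have b1 := hph P1 hP
    have b1' := hph P2 hP'
    have m1 := (hQn P1 hP).2
    have m1' := (hQn P2 hP').2
    rw [← hQ] at a1 b1 m1
    rw [← hQ'] at a1' b1' m1'
    rcases G6_meet' hinj a1.1 a1'.1 x1 x3 (G6_restrict b1.1 le_rfl x2.le)
      (G6_restrict b1'.1 le_rfl x4.le) b1.2.1 b1'.2.1 he with h1 | h1 | h1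
    · exact h1
    · have h2 : (Q1.1 : ℝ) ≤ P2.1 := by exact_mod_cast m1 P2 h1
      linarith
    · have h2 : (Q2.1 : ℝ) ≤ P1.1 := by exact_mod_cast m1' P1 h1
      linarith
  · refine G6_ends hq Zs yv hM h0 hinj _ fun P hP => ?_
    exact ⟨(Finset.mem_filter.1 hP).1, hnone P (Finset.mem_filter.1 hP).2⟩

end MuntzF
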