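import Pool.Agent.Lib.MP_dde81e_full.G4

/-!
Module G7 (text 7.4(c), 7.5(a),(b)).
cnt_hit: a point (x,y) lies on at most one half open arc (disj) and is the right end of at most one arc (yinj, inj).
cnt_long: sum over P in K of (P'.1 - P.1) = number of pairs (P, integer x) with P.1 ≤ x < P'.1; for each x the ordinates ph P x are distinct roots of q(x,·): ≤ N (gen_roots).
cnt_perp: y - θ0 x takes at the two ends of the arc values which differ by ≥ Y - 2τ ≥ Y/2 and are ≤ H0+τ in absolute value, so (intermediate value) it takes a value in (Y/4)ℤ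
 at an interior point; for each such level the number of points of the curve on the line y = θ0 x + level is ≤ N (gen_line), and different P give different points (disj).
-/

namespace MuntzF
open Set

variable {q : MvPolynomial (Fin 2) ℝ} {N : ℕ} {Zs : Finset (ℤ × ℤ)} {yv : ℤ × ℤ → ℝ}

theorem cnt_hit (ch : Chain q N Zs yv) (S : Set (ℝ × ℝ)) (B : ℕ)
    (hB : ∀ T : Finset (ℝ × ℝ), (∀ P ∈ T, P ∈ S) → T.card ≤ B) (K : Finset (ℤ × ℤ))
    (hK : ∀ P ∈ K, ∃ P', ch.nx P = some P' ∧ ∃ x ∈ Icc (P.1 : ℝ) P'.1, (x, ch.ph P x) ∈ S) :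
    K.card ≤ 2 * B := by
  classical
  choose! Q hQ x hx hS using hK
  set f : ℤ × ℤ → ℝ × ℝ := fun P => (x P, ch.ph P (x P)) with hf
  set K1 := K.filter (fun P => x P < ((Q P).1 : ℝ)) with hK1
  set K2 := K.filter (fun P => ¬ x P < ((Q P).1 : ℝ)) with hK2
  have hcard : K1.card + K2.card = K.card := Finset.card_filter_add_card_filter_not _
  have h1 : K1.card ≤ B := by
    have : (K1.image f).card = K1.card := by
      apply Finset.card_image_of_injOn
      intro P hP P' hP' hEq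
      rw [hK1] at hP hP'
      simp only [Finset.coe_filter, Set.mem_ofPred_eq] at hP hP'
      simp only [hf, Prod.mk.injEq] at hEq
      refine ch.disj P P' (Q P) (Q P') (hQ P hP.1) (hQ P' hP'.1) (x P) (hx P hP.1).1 hP.2 ?_ ?_ ?_
      · rw [hEq.1]; exact (hx P' hP'.1).1
      · rw [hEq.1]; exact hP'.2
      · rw [hEq.2, ← hEq.1]
    rw [← this]
    apply hB
    intro p hp
    obtain ⟨P, hP, rfl⟩ := Finset.mem_image.1 hp
    exact hS P (Finset.mem_filter.1 hP).1
  have h2 : K2.card ≤ B := by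
    have : (K2.image f).card = K2.card := by
      apply Finset.card_image_of_injOn
      intro P hP P' hP' hEq
      rw [hK2] at hP hP'
      simp only [Finset.coe_filter, Set.mem_ofPred_eq] at hP hP'
      simp only [hf, Prod.mk.injEq] at hEq
      have e1 : x P = ((Q P).1 : ℝ) := le_antisymm (hx P hP.1).2 (not_lt.1 hP.2)
      have e2 : x P' = ((Q P').1 : ℝ) := le_antisymm (hx P' hP'.1).2 (not_lt.1 hP'.2)
      have r1 := ch.right P (Q P) (hQ P hP.1)
      have r2 := ch.right P' (Q P') (hQ P' hP'.1)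
      have e3 : (Q P).1 = (Q P').1 := by
        have : ((Q P).1 : ℝ) = ((Q P').1 : ℝ) := by rw [← e1, ← e2, hEq.1]
        exact_mod_cast this
      have e4 : yv (Q P) = yv (Q P') := by
        rw [← r1, ← r2, ← e1, ← e2, hEq.2]
      have e5 : Q P = Q P' := ch.yinj _ (ch.mem P (Q P) (hQ P hP.1)).2.1 _
        (ch.mem P' (Q P') (hQ P' hP'.1)).2.1 e3 e4
      exact ch.inj P P' (Q P) (hQ P hP.1) (by rw [e5]; exact hQ P' hP'.1)
    rw [← this]
    apply hB
    intro p hp
    obtain ⟨P, hP, rfl⟩ := Finset.mem_image.1 hp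
    exact hS P (Finset.mem_filter.1 hP).1
  omega

theorem cnt_long {Sg Ka Mm : Set ℝ} (hq : Gen q N Sg Ka Mm) (ch : Chain q N Zs yv) {a b : ℤ}
    (hab : a ≤ b) (hr : ∀ P ∈ Zs, a ≤ P.1 ∧ P.1 ≤ b) {X : ℝ} (hX : 0 < X) (K : Finset (ℤ × ℤ))
    (hK : ∀ P ∈ K, ch.nx P ≠ none ∧ X ≤ ch.vx P) : (K.card : ℝ) ≤ N * (b - a) / X := by
  classical
  have hK' : ∀ P ∈ K, ∃ P', ch.nx P = some P' := fun P hP => Option.ne_none_iff_exists'.1 (hK P hP).1
  choose! Q hQ using hK'
  have hvx : ∀ P ∈ K, ch.vx P = (Q P).1 - P.1 := by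
    intro P hP
    simp only [Chain.vx, hQ P hP]
  -- the sum of the lengths
  have hsum : ∑ P ∈ K, (ch.vx P : ℝ) ≤ N * (b - a) := by
    have e1 : ∀ P ∈ K, (ch.vx P : ℝ) = (((Finset.Ico a b).filter (fun t : ℤ => P.1 ≤ t ∧ t < (Q P).1)).card : ℝ) := by
      intro P hP
      have hm := ch.mem P (Q P) (hQ P hP)
      have h1 := hr P hm.1
      have h2 := hr (Q P) hm.2.1
      have : (Finset.Ico a b).filter (fun t : ℤ => P.1 ≤ t ∧ t < (Q P).1) = Finset.Ico P.1 (Q P).1 := by
        ext t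
        simp only [Finset.mem_filter, Finset.mem_Ico]
        constructor
        · intro h; exact h.2
        · intro h; exact ⟨⟨by omega, by omega⟩, h⟩
      rw [this, Int.card_Ico, hvx P hP]
      have h3 : ((((Q P).1 - P.1).toNat : ℤ) : ℝ) = (((Q P).1 - P.1 : ℤ) : ℝ) := by
        rw [Int.toNat_of_nonneg (by omega)]
      rw [← h3]
      norm_cast
    rw [Finset.sum_congr rfl e1]
    have e2 : ∀ P : ℤ × ℤ, (((Finset.Ico a b).filter (fun t : ℤ => P.1 ≤ t ∧ t < (Q P).1)).card : ℝ)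
        = ∑ t ∈ Finset.Ico a b, (if P.1 ≤ t ∧ t < (Q P).1 then (1 : ℝ) else 0) := by
      intro P
      rw [Finset.card_filter]
      push_cast
      rfl
    rw [Finset.sum_congr rfl (fun P _ => e2 P), Finset.sum_comm]
    have e3 : ∀ t ∈ Finset.Ico a b, ∑ P ∈ K, (if P.1 ≤ t ∧ t < (Q P).1 then (1 : ℝ) else 0) ≤ N := by
      intro t _
      have : ∑ P ∈ K, (if P.1 ≤ t ∧ t < (Q P).1 then (1 : ℝ) else 0)
          = ((K.filter (fun P => P.1 ≤ t ∧ t < (Q P).1)).card : ℝ) := by
        rw [Finset.card_filter]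
        push_cast
        rfl
      rw [this]
      have h4 : ((K.filter (fun P => P.1 ≤ t ∧ t < (Q P).1)).image (fun P => ch.ph P (t : ℝ))).card
          = (K.filter (fun P => P.1 ≤ t ∧ t < (Q P).1)).card := by
        apply Finset.card_image_of_injOn
        intro P hP P' hP' hEq
        simp only [Finset.coe_filter, Set.mem_ofPred_eq] at hP hP'
        refine ch.disj P P' (Q P) (Q P') (hQ P hP.1) (hQ P' hP'.1) (t : ℝ) ?_ ?_ ?_ ?_ hEq
        · exact_mod_cast hP.2.1
        · exact_mod_cast hP.2.2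
        · exact_mod_cast hP'.2.1
        · exact_mod_cast hP'.2.2
      rw [← h4]
      have h5 := gen_roots hq (t : ℝ) ((K.filter (fun P => P.1 ≤ t ∧ t < (Q P).1)).image (fun P => ch.ph P (t : ℝ))) (by
        intro y hy
        obtain ⟨P, hP, rfl⟩ := Finset.mem_image.1 hy
        rw [Finset.mem_filter] at hP
        apply (ch.arc P (Q P) (hQ P hP.1)).zero
        constructor
        · exact_mod_cast hP.2.1
        · exact_mod_cast hP.2.2.le)
      exact_mod_cast h5
    calc ∑ t ∈ Finset.Ico a b, ∑ P ∈ K, (if P.1 ≤ t ∧ t < (Q P).1 then (1 : ℝ) else 0)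
        ≤ ∑ t ∈ Finset.Ico a b, (N : ℝ) := Finset.sum_le_sum e3
      _ = N * (b - a) := by
        rw [Finset.sum_const, Int.card_Ico, nsmul_eq_mul, mul_comm]
        have h3 : (((b - a).toNat : ℤ) : ℝ) = ((b - a : ℤ) : ℝ) := by
          rw [Int.toNat_of_nonneg (by omega)]
        have h4 : (((b - a).toNat : ℕ) : ℝ) = (b : ℝ) - a := by
          rw [← Int.cast_sub, ← h3]
          norm_cast
        rw [h4]
  have hlow : (K.card : ℝ) * X ≤ ∑ P ∈ K, (ch.vx P : ℝ) := by
    rw [← nsmul_eq_mul, ← Finset.sum_const]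
    exact Finset.sum_le_sum (fun P hP => (hK P hP).2)
  rw [le_div_iff₀ hX]
  exact hlow.trans hsum

theorem cnt_perp {Sg Ka Mm : Set ℝ} (hq : Gen q N Sg Ka Mm) (ch : Chain q N Zs yv) {θ0 H0 τ Y : ℝ}
    (hθ : θ0 ≠ 0) (hτ : 0 ≤ τ) (hY : 4 * τ ≤ Y) (hY0 : 0 < Y) (hyv : ∀ P ∈ Zs, |yv P - P.2| ≤ τ)
    (hH : ∀ P ∈ Zs, |(P.2 : ℝ) - θ0 * P.1| ≤ H0) (hH1 : 0 ≤ H0) (K : Finset (ℤ × ℤ))
    (hK : ∀ P ∈ K, ch.nx P ≠ none ∧ Y ≤ |ch.vp θ0 P|) :
    (K.card : ℝ) ≤ N * (8 * (H0 + τ) / Y + 2) := by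
  classical
  set δ : ℝ := Y / 4 with hδ
  have hδ0 : 0 < δ := by positivity
  have key : ∀ P ∈ K, ∃ (n : ℤ) (x : ℝ) (P' : ℤ × ℤ), ch.nx P = some P' ∧ (P.1 : ℝ) ≤ x ∧ x < P'.1 ∧
      ch.ph P x = θ0 * x + n * δ ∧ |(n : ℝ)| * δ ≤ H0 + τ ∧ ev q x (θ0 * x + n * δ) = 0 := by
    intro P hP
    obtain ⟨P', hP'⟩ := Option.ne_none_iff_exists'.1 (hK P hP).1
    have hm := ch.mem P P' hP'
    have harc := ch.arc P P' hP'
    have hle : (P.1 : ℝ) < P'.1 := by exact_mod_cast hm.2.2
    set g : ℝ → ℝ := fun x => ch.ph P x - θ0 * x with hg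
    have hgc : ContinuousOn g (Icc (P.1 : ℝ) P'.1) := by
      apply harc.cont.sub
      exact (continuous_const.mul continuous_id).continuousOn
    have gL : g P.1 = yv P - θ0 * P.1 := by simp only [hg]; rw [ch.left P P' hP']
    have gR : g P'.1 = yv P' - θ0 * P'.1 := by simp only [hg]; rw [ch.right P P' hP']
    have b1 := abs_le.1 (hyv P hm.1)
    have b2 := abs_le.1 (hyv P' hm.2.1)
    have c1 := abs_le.1 (hH P hm.1)
    have c2 := abs_le.1 (hH P' hm.2.1)
    have hvp : ch.vp θ0 P = ((P'.2 : ℝ) - P.2) - θ0 * (P'.1 - P.1) := by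
      simp only [Chain.vp, Chain.vx, Chain.vy, hP']
      push_cast
      ring
    have hbig := (hK P hP).2
    rw [hvp] at hbig
    have hgL : |g P.1| ≤ H0 + τ := by rw [gL, abs_le]; constructor <;> linarith
    have hgR : |g P'.1| ≤ H0 + τ := by rw [gR, abs_le]; constructor <;> linarith
    -- the two values differ by at least Y/2
    have hdiff : Y / 2 ≤ |g P'.1 - g P.1| := by
      rw [gL, gR]
      rcases le_abs.1 hbig with h | h
      · exact le_trans (by linarith) (le_abs_self _)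
      · exact le_trans (by linarith) (neg_le_abs _)
    -- a level strictly between
    have hlev : ∃ n : ℤ, (g P.1 < n * δ ∧ n * δ < g P'.1) ∨ (g P'.1 < n * δ ∧ n * δ < g P.1) := by
      rcases le_abs.1 hdiff with h | h
      · refine ⟨⌊g P.1 / δ⌋ + 1, Or.inl ⟨?_, ?_⟩⟩
        · have := Int.lt_floor_add_one (g P.1 / δ)
          rw [div_lt_iff₀ hδ0] at this
          push_cast
          exact this
        · have h1 := Int.floor_le (g P.1 / δ)
          rw [le_div_iff₀ hδ0] at h1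
          push_cast
          have : (⌊g P.1 / δ⌋ + 1 : ℝ) * δ = ⌊g P.1 / δ⌋ * δ + δ := by ring
          rw [this]
          linarith
      · refine ⟨⌊g P'.1 / δ⌋ + 1, Or.inr ⟨?_, ?_⟩⟩
        · have := Int.lt_floor_add_one (g P'.1 / δ)
          rw [div_lt_iff₀ hδ0] at this
          push_cast
          exact this
        · have h1 := Int.floor_le (g P'.1 / δ)
          rw [le_div_iff₀ hδ0] at h1
          push_cast
          have : (⌊g P'.1 / δ⌋ + 1 : ℝ) * δ = ⌊g P'.1 / δ⌋ * δ + δ := by ring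
          rw [this]
          linarith
    obtain ⟨n, hn⟩ := hlev
    have hnb : |(n : ℝ)| * δ ≤ H0 + τ := by
      have hh : |(n : ℝ)| * δ = |(n : ℝ) * δ| := by rw [abs_mul, abs_of_pos hδ0]
      rw [hh, abs_le]
      have l1 := abs_le.1 hgL
      have l2 := abs_le.1 hgR
      rcases hn with hn | hn <;> constructor <;> linarith [hn.1, hn.2]
    have hivt : ∃ x ∈ Icc (P.1 : ℝ) P'.1, g x = n * δ := by
      rcases hn with hn | hn
      · have := intermediate_value_Icc hle.le hgc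
        obtain ⟨x, hx, hxe⟩ := this ⟨hn.1.le, hn.2.le⟩
        exact ⟨x, hx, hxe⟩
      · have := intermediate_value_Icc' hle.le hgc
        obtain ⟨x, hx, hxe⟩ := this ⟨hn.1.le, hn.2.le⟩
        exact ⟨x, hx, hxe⟩
    obtain ⟨x, hx, hxe⟩ := hivt
    have hxne : x ≠ P'.1 := by
      intro h
      rw [h] at hxe
      rcases hn with hn | hn
      · linarith [hn.2]
      · linarith [hn.1]
    have hph : ch.ph P x = θ0 * x + n * δ := by
      simp only [hg] at hxe
      linarith
    refine ⟨n, x, P', hP', hx.1, lt_of_le_of_ne hx.2 hxne, hph, hnb, ?_⟩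
    rw [← hph]
    exact harc.zero x hx
  choose! nn xx QQ hQ hx1 hx2 hph hnb hev using key
  set M : ℕ := ⌊(H0 + τ) / δ⌋₊ with hM
  have hfib : ∀ n ∈ K.image nn, (K.filter (fun P => nn P = n)).card ≤ N := by
    intro n _
    have h4 : ((K.filter (fun P => nn P = n)).image xx).card = (K.filter (fun P => nn P = n)).card := by
      apply Finset.card_image_of_injOn
      intro P hP P' hP' hEq
      simp only [Finset.coe_filter, Set.mem_ofPred_eq] at hP hP'
      refine ch.disj P P' (QQ P) (QQ P') (hQ P hP.1) (hQ P' hP'.1) (xx P) (hx1 P hP.1) (hx2 P hP.1) ?_ ?_ ?_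
      · rw [hEq]; exact hx1 P' hP'.1
      · rw [hEq]; exact hx2 P' hP'.1
      · have e1 := hph P hP.1
        have e2 := hph P' hP'.1
        rw [e1, hEq, e2, hP.2, hP'.2]
    rw [← h4]
    apply gen_line hq hθ (η := (n : ℝ) * δ)
    intro x hx
    obtain ⟨P, hP, rfl⟩ := Finset.mem_image.1 hx
    rw [Finset.mem_filter] at hP
    have := hev P hP.1
    rw [hP.2] at this
    exact this
  have hcard := Finset.card_le_mul_card_image K N hfib
  have himg : K.image nn ⊆ Finset.Icc (-(M : ℤ)) M := by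
    intro n hn
    obtain ⟨P, hP, rfl⟩ := Finset.mem_image.1 hn
    have h1 := hnb P hP
    have h2 : |(nn P : ℝ)| ≤ (H0 + τ) / δ := by
      rw [le_div_iff₀ hδ0]; exact h1
    have h3 : ((nn P).natAbs : ℝ) ≤ (H0 + τ) / δ := by
      rw [Nat.cast_natAbs, Int.cast_abs]; exact h2
    have h4 : (nn P).natAbs ≤ M := Nat.le_floor h3
    rw [Finset.mem_Icc]
    omega
  have hcard2 : (K.image nn).card ≤ 2 * M + 1 := by
    refine (Finset.card_le_card himg).trans ?_
    rw [Int.card_Icc]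
    omega
  have hMle : (M : ℝ) ≤ (H0 + τ) / δ := Nat.floor_le (by positivity)
  have hfin : (K.card : ℝ) ≤ N * (2 * M + 1) := by
    have : K.card ≤ N * (2 * M + 1) := hcard.trans (Nat.mul_le_mul_left _ hcard2)
    exact_mod_cast this
  refine hfin.trans ?_
  apply mul_le_mul_of_nonneg_left _ (Nat.cast_nonneg N)
  have : 8 * (H0 + τ) / Y = 2 * ((H0 + τ) / δ) := by
    rw [hδ]; field_simp; ring
  rw [this]
  linarith

end MuntzF
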