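import Pool.Agent.Lib.MP_dde81e_full.G7

/-!
Module G8 (text 7.5(c),(d)).
cnt_dir: mean value theorem: the slope of the arc takes a value within 2τ of sl P; if P is not hugging it takes a value at distance ≥ τ0 from sl P; so (intermediate values; D1 is
 continuous along the arc) it takes one of the values sl P ± τ0, at a point with q = 0, q_x + σ q_y = 0; `Gen.tang` and cnt_hit: ≤ 4N^2 for each of the two σ.
slopes_card: lowest terms q_s; for q_s in [2^k,2^(k+1)): |s-θ0| ≤ Y/2^k and two different slopes differ by > 4^-(k+1).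
-/

namespace MuntzF
open Set

variable {q : MvPolynomial (Fin 2) ℝ} {N : ℕ} {Zs : Finset (ℤ × ℤ)} {yv : ℤ × ℤ → ℝ}

/-- a level of the slope which is hit. -/
theorem dir_aux {Sg Ka Mm : Set ℝ} (_hq : Gen q N Sg Ka Mm) (ch : Chain q N Zs yv) {τ τ0 : ℝ}
    (hτ : 0 ≤ τ) (hτ0 : 2 * τ < τ0) (hyv : ∀ P ∈ Zs, |yv P - P.2| ≤ τ) (P P' : ℤ × ℤ)
    (hP : ch.nx P = some P') (hn : ¬ ch.hug τ0 P) :
    ∃ x ∈ Icc (P.1 : ℝ) P'.1, D1 q x (ch.ph P x) = ch.sl P + τ0 ∨ D1 q x (ch.ph P x) = ch.sl P - τ0 := by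
  have hm := ch.mem P P' hP
  have harc := ch.arc P P' hP
  have hle : (P.1 : ℝ) < P'.1 := by exact_mod_cast hm.2.2
  have hd := arc_deriv harc
  have hd2 := arc_deriv2 harc
  set Dφ : ℝ → ℝ := fun t => D1 q t (ch.ph P t) with hDφ
  have hDc : ContinuousOn Dφ (Icc (P.1 : ℝ) P'.1) := fun x hx => (hd2 x hx).continuousWithinAt
  -- mean value
  obtain ⟨ξ, hξ, hξe⟩ := exists_hasDerivAt_eq_slope (ch.ph P) Dφ hle harc.cont (fun x hx =>
    (hd x (Ioo_subset_Icc_self hx)).hasDerivAt (Icc_mem_nhds hx.1 hx.2))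
  have hlen : (1 : ℝ) ≤ (P'.1 : ℝ) - P.1 := by
    have : (1 : ℤ) ≤ P'.1 - P.1 := by have := hm.2.2; omega
    exact_mod_cast this
  have hsl : ch.sl P = ((P'.2 : ℝ) - P.2) / ((P'.1 : ℝ) - P.1) := by
    simp only [Chain.sl, Chain.vx, Chain.vy, hP]
    push_cast
    rfl
  have hclose : |Dφ ξ - ch.sl P| ≤ 2 * τ := by
    rw [hξe, hsl, ch.left P P' hP, ch.right P P' hP, ← sub_div, abs_div]
    have b1 := abs_le.1 (hyv P hm.1)
    have b2 := abs_le.1 (hyv P' hm.2.1)
    rw [abs_of_pos (by linarith : (0 : ℝ) < (P'.1 : ℝ) - P.1), div_le_iff₀ (by linarith)]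
    have h1 : |yv P' - yv P - ((P'.2 : ℝ) - P.2)| ≤ 2 * τ := by
      rw [abs_le]; constructor <;> linarith
    nlinarith
  have hfar : ∃ x ∈ Icc (P.1 : ℝ) P'.1, τ0 ≤ |Dφ x - ch.sl P| := by
    by_contra hcon
    push Not at hcon
    exact hn ⟨P', hP, hcon⟩
  obtain ⟨x1, hx1, hx1e⟩ := hfar
  have hξI : ξ ∈ Icc (P.1 : ℝ) P'.1 := Ioo_subset_Icc_self hξ
  have hsub : uIcc ξ x1 ⊆ Icc (P.1 : ℝ) P'.1 := by
    intro t ht
    rw [mem_uIcc] at ht
    rcases ht with ht | ht
    · exact ⟨hξI.1.trans ht.1, ht.2.trans hx1.2⟩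
    · exact ⟨hx1.1.trans ht.1, ht.2.trans hξI.2⟩
  have hivt := intermediate_value_uIcc (hDc.mono hsub)
  have hc := abs_le.1 hclose
  rcases le_abs.1 hx1e with h | h
  · obtain ⟨x, hx, hxe⟩ := hivt (show ch.sl P + τ0 ∈ uIcc (Dφ ξ) (Dφ x1) by
      rw [mem_uIcc]; left; constructor <;> linarith)
    exact ⟨x, hsub hx, Or.inl hxe⟩
  · obtain ⟨x, hx, hxe⟩ := hivt (show ch.sl P - τ0 ∈ uIcc (Dφ ξ) (Dφ x1) by
      rw [mem_uIcc]; right; constructor <;> linarith)
    exact ⟨x, hsub hx, Or.inr hxe⟩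

theorem cnt_dir {Sg Ka Mm : Set ℝ} (hq : Gen q N Sg Ka Mm) (ch : Chain q N Zs yv) {τ τ0 : ℝ}
    (hτ : 0 ≤ τ) (hτ0 : 2 * τ < τ0) (hyv : ∀ P ∈ Zs, |yv P - P.2| ≤ τ) (D : Finset ℝ)
    (hD : ∀ s ∈ D, s + τ0 ∈ Sg ∧ s - τ0 ∈ Sg) (K : Finset (ℤ × ℤ))
    (hK : ∀ P ∈ K, ch.nx P ≠ none ∧ ch.sl P ∈ D ∧ ¬ ch.hug τ0 P) :
    K.card ≤ 8 * N ^ 2 * D.card := by
  classical
  -- for each slope σ the number of P whose arc has the slope σ somewhere
  have hone : ∀ σ ∈ Sg, ∀ L : Finset (ℤ × ℤ), (∀ P ∈ L, ∃ P', ch.nx P = some P' ∧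
      ∃ x ∈ Icc (P.1 : ℝ) P'.1, D1 q x (ch.ph P x) = σ) → L.card ≤ 2 * (2 * N ^ 2) := by
    intro σ hσ L hL
    refine cnt_hit ch {p | ev q p.1 p.2 = 0 ∧ ev (dx q) p.1 p.2 + σ * ev (dy q) p.1 p.2 = 0} _ ?_ L ?_
    · intro T hT
      exact hq.tang σ hσ T hT
    · intro P hP
      obtain ⟨P', hP', x, hx, hxe⟩ := hL P hP
      have harc := ch.arc P P' hP'
      refine ⟨P', hP', x, hx, harc.zero x hx, ?_⟩
      have hne := harc.ne x hx
      rw [D1, div_eq_iff hne] at hxe
      show ev (dx q) x (ch.ph P x) + σ * ev (dy q) x (ch.ph P x) = 0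
      linarith
  have hfib : ∀ s ∈ K.image ch.sl, (K.filter (fun P => ch.sl P = s)).card ≤ 8 * N ^ 2 := by
    intro s hs
    have hsD : s ∈ D := by
      obtain ⟨P, hP, rfl⟩ := Finset.mem_image.1 hs
      exact (hK P hP).2.1
    set L := K.filter (fun P => ch.sl P = s) with hL
    set L1 := L.filter (fun P => ∃ P', ch.nx P = some P' ∧
      ∃ x ∈ Icc (P.1 : ℝ) P'.1, D1 q x (ch.ph P x) = s + τ0) with hL1
    set L2 := L.filter (fun P => ∃ P', ch.nx P = some P' ∧
      ∃ x ∈ Icc (P.1 : ℝ) P'.1, D1 q x (ch.ph P x) = s - τ0) with hL2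
    have hsub : L ⊆ L1 ∪ L2 := by
      intro P hP
      have hPK : P ∈ K ∧ ch.sl P = s := Finset.mem_filter.1 hP
      obtain ⟨P', hP'⟩ := Option.ne_none_iff_exists'.1 (hK P hPK.1).1
      obtain ⟨x, hx, hxe⟩ := dir_aux hq ch hτ hτ0 hyv P P' hP' (hK P hPK.1).2.2
      rw [hPK.2] at hxe
      rw [Finset.mem_union]
      rcases hxe with hxe | hxe
      · left; exact Finset.mem_filter.2 ⟨hP, P', hP', x, hx, hxe⟩
      · right; exact Finset.mem_filter.2 ⟨hP, P', hP', x, hx, hxe⟩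
    have c1 : L1.card ≤ 2 * (2 * N ^ 2) := hone (s + τ0) (hD s hsD).1 L1
      (fun P hP => (Finset.mem_filter.1 hP).2)
    have c2 : L2.card ≤ 2 * (2 * N ^ 2) := hone (s - τ0) (hD s hsD).2 L2
      (fun P hP => (Finset.mem_filter.1 hP).2)
    have := Finset.card_le_card hsub
    have h3 := Finset.card_union_le L1 L2
    omega
  have h := Finset.card_le_mul_card_image K (8 * N ^ 2) hfib
  refine h.trans (Nat.mul_le_mul_left _ (Finset.card_le_card ?_))
  intro s hs
  obtain ⟨P, hP, rfl⟩ := Finset.mem_image.1 hs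
  exact (hK P hP).2.1

/-- a separated finite set in an interval. -/
theorem card_sep (F : Finset ℝ) {a b δ : ℝ} (hδ : 0 < δ) (hab : a ≤ b)
    (hF : ∀ s ∈ F, a ≤ s ∧ s ≤ b) (hsep : ∀ s ∈ F, ∀ s' ∈ F, s ≠ s' → δ ≤ |s - s'|) :
    (F.card : ℝ) ≤ (b - a) / δ + 1 := by
  classical
  have hinj : (F.image (fun s => ⌊(s - a) / δ⌋)).card = F.card := by
    apply Finset.card_image_of_injOn
    intro s hs s' hs' hEq
    by_contra hne
    have h1 := hsep s hs s' hs' hne
    simp only at hEq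
    have f1 := Int.floor_le ((s - a) / δ)
    have f2 := Int.lt_floor_add_one ((s - a) / δ)
    have f3 := Int.floor_le ((s' - a) / δ)
    have f4 := Int.lt_floor_add_one ((s' - a) / δ)
    rw [le_div_iff₀ hδ] at f1 f3
    rw [div_lt_iff₀ hδ] at f2 f4
    rw [hEq] at f1 f2
    rcases le_abs.1 h1 with h | h <;> nlinarith
  have hsub : F.image (fun s => ⌊(s - a) / δ⌋) ⊆ Finset.Icc 0 ⌊(b - a) / δ⌋ := by
    intro n hn
    obtain ⟨s, hs, rfl⟩ := Finset.mem_image.1 hn
    rw [Finset.mem_Icc]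
    constructor
    · apply Int.floor_nonneg.2
      exact div_nonneg (by linarith [(hF s hs).1]) hδ.le
    · apply Int.floor_le_floor
      gcongr
      exact (hF s hs).2
  have h1 := Finset.card_le_card hsub
  rw [hinj, Int.card_Icc] at h1
  have h0 : 0 ≤ ⌊(b - a) / δ⌋ := Int.floor_nonneg.2 (div_nonneg (by linarith) hδ.le)
  have h2 : (F.card : ℤ) ≤ ⌊(b - a) / δ⌋ + 1 := by omega
  have h3 : (F.card : ℝ) ≤ (⌊(b - a) / δ⌋ : ℝ) + 1 := by exact_mod_cast h2
  linarith [Int.floor_le ((b - a) / δ)]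

theorem slopes_card {θ0 X Y : ℝ} (hX : 1 ≤ X) (hY : 0 ≤ Y) (D : Finset ℝ)
    (hD : ∀ s ∈ D, ∃ p q : ℤ, 1 ≤ q ∧ (q : ℝ) ≤ X ∧ |(p : ℝ) - θ0 * q| ≤ Y ∧ s = p / q) :
    (D.card : ℝ) ≤ 16 * X * Y + 2 * Real.log X + 2 ∧ (D.card : ℝ) ≤ X * (2 * Y + 1) := by
  classical
  choose! p q hq1 hqX hpq hs using hD
  constructor
  · set Kx : ℕ := Nat.log 2 ⌊X⌋₊ with hKx
    have hfl : ⌊X⌋₊ ≠ 0 := by
      have : 1 ≤ ⌊X⌋₊ := Nat.le_floor (by exact_mod_cast hX)
      omega
    have h2K : (2 : ℝ) ^ Kx ≤ X := by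
      have h1 : 2 ^ Kx ≤ ⌊X⌋₊ := Nat.pow_log_le_self 2 hfl
      have h2 : ((2 ^ Kx : ℕ) : ℝ) ≤ (⌊X⌋₊ : ℝ) := by exact_mod_cast h1
      push_cast at h2
      exact h2.trans (Nat.floor_le (by linarith))
    have hmaps : ∀ s ∈ D, Nat.log 2 (q s).toNat ∈ Finset.range (Kx + 1) := by
      intro s hs'
      rw [Finset.mem_range, Nat.lt_succ_iff]
      apply Nat.log_mono_right
      apply Nat.le_floor
      have : (((q s).toNat : ℤ) : ℝ) = ((q s : ℤ) : ℝ) := by
        rw [Int.toNat_of_nonneg (by linarith [hq1 s hs'])]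
      have h2 : (((q s).toNat : ℕ) : ℝ) = ((q s : ℤ) : ℝ) := by
        rw [← this]; norm_cast
      rw [h2]
      exact hqX s hs'
    have hcardsum := Finset.card_eq_sum_card_fiberwise (s := D) (t := Finset.range (Kx + 1))
      (f := fun s => Nat.log 2 (q s).toNat) hmaps
    have hfib : ∀ k ∈ Finset.range (Kx + 1),
        ((D.filter (fun s => Nat.log 2 (q s).toNat = k)).card : ℝ) ≤ 8 * Y * 2 ^ k + 1 := by
      intro k _
      have hqk : ∀ s ∈ D.filter (fun s => Nat.log 2 (q s).toNat = k),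
          s ∈ D ∧ (2 : ℝ) ^ k ≤ q s ∧ (q s : ℝ) < 2 ^ (k + 1) := by
        intro s hs'
        rw [Finset.mem_filter] at hs'
        have hpos := hq1 s hs'.1
        have hne : (q s).toNat ≠ 0 := by omega
        have l1 := Nat.pow_log_le_self 2 hne
        have l2 := Nat.lt_pow_succ_log_self (b := 2) (by norm_num) (q s).toNat
        rw [hs'.2] at l1 l2
        have h2 : (((q s).toNat : ℕ) : ℝ) = ((q s : ℤ) : ℝ) := by
          have : (((q s).toNat : ℤ) : ℝ) = ((q s : ℤ) : ℝ) := by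
            rw [Int.toNat_of_nonneg (by linarith)]
          rw [← this]; norm_cast
        refine ⟨hs'.1, ?_, ?_⟩
        · rw [← h2]; exact_mod_cast l1
        · rw [← h2]; exact_mod_cast l2
      have h2k : (0 : ℝ) < 2 ^ k := by positivity
      have hb := card_sep (D.filter (fun s => Nat.log 2 (q s).toNat = k))
        (a := θ0 - Y / 2 ^ k) (b := θ0 + Y / 2 ^ k) (δ := 1 / 4 ^ (k + 1)) (by positivity)
        (by have : 0 ≤ Y / 2 ^ k := by positivity
            linarith) ?_ ?_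
      · refine hb.trans (le_of_eq ?_)
        have e4 : (4 : ℝ) ^ (k + 1) = 4 * (2 ^ k * 2 ^ k) := by
          rw [pow_succ, show (4 : ℝ) = 2 * 2 by norm_num, mul_pow]; ring
        rw [e4]
        field_simp
        ring
      · intro s hs'
        obtain ⟨hsD, hl, _⟩ := hqk s hs'
        have hqpos : (0 : ℝ) < q s := by linarith
        have h1 : |s - θ0| ≤ Y / 2 ^ k := by
          have e1 : s - θ0 = ((p s : ℝ) - θ0 * q s) / q s := by
            have := hs s hsD
            rw [sub_div, ← this, mul_div_assoc, div_self hqpos.ne', mul_one]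
          rw [e1, abs_div, abs_of_pos hqpos]
          have := hpq s hsD
          exact div_le_div₀ hY this h2k hl
        have := abs_le.1 h1
        constructor <;> linarith
      · intro s hs' s' hs'' hne
        obtain ⟨hsD, hl, hu⟩ := hqk s hs'
        obtain ⟨hsD', hl', hu'⟩ := hqk s' hs''
        have hqpos : (0 : ℝ) < q s := by linarith
        have hqpos' : (0 : ℝ) < q s' := by linarith
        have e1 : s - s' = ((p s * q s' - p s' * q s : ℤ) : ℝ) / (q s * q s') := by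
          have h1 := hs s hsD
          have h2 := hs s' hsD'
          have e0 : s - s' = (p s : ℝ) / q s - (p s' : ℝ) / q s' := by linarith
          rw [e0, div_sub_div _ _ hqpos.ne' hqpos'.ne']
          push_cast
          congr 1
          ring
        have hint : (p s * q s' - p s' * q s : ℤ) ≠ 0 := by
          intro h0
          rw [h0] at e1
          simp only [Int.cast_zero, zero_div] at e1
          exact hne (by linarith)
        have h1 : (1 : ℝ) ≤ |((p s * q s' - p s' * q s : ℤ) : ℝ)| := by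
          rw [← Int.cast_abs]
          exact_mod_cast Int.one_le_abs hint
        rw [e1, abs_div, abs_of_pos (by positivity : (0 : ℝ) < (q s : ℝ) * q s')]
        apply div_le_div₀ (abs_nonneg _) h1 (by positivity)
        have e4 : (4 : ℝ) ^ (k + 1) = 2 ^ (k + 1) * 2 ^ (k + 1) := by
          rw [show (4 : ℝ) = 2 * 2 by norm_num, mul_pow]
        rw [e4]
        exact mul_le_mul hu.le hu'.le hqpos'.le (by positivity)
    have h1 : (D.card : ℝ) ≤ ∑ k ∈ Finset.range (Kx + 1), (8 * Y * 2 ^ k + 1) := by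
      rw [hcardsum]
      push_cast
      exact Finset.sum_le_sum hfib
    have h2 : ∑ k ∈ Finset.range (Kx + 1), (8 * Y * (2 : ℝ) ^ k + 1) ≤ 16 * X * Y + (Kx + 1) := by
      rw [Finset.sum_add_distrib, ← Finset.mul_sum, geom_sum_eq (by norm_num)]
      simp only [Finset.sum_const, Finset.card_range, nsmul_eq_mul, mul_one]
      push_cast
      have : 8 * Y * (((2 : ℝ) ^ (Kx + 1) - 1) / (2 - 1)) ≤ 16 * X * Y := by
        rw [pow_succ]
        nlinarith
      linarith
    have h3 : (Kx : ℝ) ≤ 2 * Real.log X := by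
      have l1 : (Kx : ℝ) * Real.log 2 ≤ Real.log X := by
        rw [← Real.log_pow]
        exact Real.log_le_log (by positivity) h2K
      have l2 : (1 : ℝ) / 2 < Real.log 2 := by
        have := Real.log_two_gt_d9
        linarith
      have l3 : (0 : ℝ) ≤ Kx := Nat.cast_nonneg _
      nlinarith
    linarith
  · have hmaps : ∀ s ∈ D, (q s).toNat ∈ Finset.Icc 1 ⌊X⌋₊ := by
      intro s hs'
      have hpos := hq1 s hs'
      rw [Finset.mem_Icc]
      refine ⟨by omega, Nat.le_floor ?_⟩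
      have h2 : (((q s).toNat : ℕ) : ℝ) = ((q s : ℤ) : ℝ) := by
        have : (((q s).toNat : ℤ) : ℝ) = ((q s : ℤ) : ℝ) := by
          rw [Int.toNat_of_nonneg (by linarith)]
        rw [← this]; norm_cast
      rw [h2]
      exact hqX s hs'
    have hcardsum := Finset.card_eq_sum_card_fiberwise (s := D) (t := Finset.Icc 1 ⌊X⌋₊)
      (f := fun s => (q s).toNat) hmaps
    have hfib : ∀ k ∈ Finset.Icc 1 ⌊X⌋₊,
        ((D.filter (fun s => (q s).toNat = k)).card : ℝ) ≤ 2 * Y + 1 := by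
      intro k hk
      have hk1 : 1 ≤ k := (Finset.mem_Icc.1 hk).1
      have hkpos : (0 : ℝ) < k := by exact_mod_cast hk1
      have hqk : ∀ s ∈ D.filter (fun s => (q s).toNat = k), s ∈ D ∧ (q s : ℝ) = k := by
        intro s hs'
        rw [Finset.mem_filter] at hs'
        refine ⟨hs'.1, ?_⟩
        have hpos := hq1 s hs'.1
        have : q s = (k : ℤ) := by omega
        rw [this]; norm_cast
      have hb := card_sep (D.filter (fun s => (q s).toNat = k))
        (a := θ0 - Y / k) (b := θ0 + Y / k) (δ := 1 / k) (by positivity)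
        (by have : 0 ≤ Y / k := by positivity
            linarith) ?_ ?_
      · refine hb.trans (le_of_eq ?_)
        field_simp
        ring
      · intro s hs'
        obtain ⟨hsD, hl⟩ := hqk s hs'
        have h1 : |s - θ0| ≤ Y / k := by
          have e1 : s - θ0 = ((p s : ℝ) - θ0 * q s) / q s := by
            have := hs s hsD
            rw [sub_div, ← this, mul_div_assoc, div_self (by rw [hl]; exact hkpos.ne'), mul_one]
          rw [e1, abs_div, hl, abs_of_pos hkpos]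
          have := hpq s hsD
          rw [hl] at this
          gcongr
        have := abs_le.1 h1
        constructor <;> linarith
      · intro s hs' s' hs'' hne
        obtain ⟨hsD, hl⟩ := hqk s hs'
        obtain ⟨hsD', hl'⟩ := hqk s' hs''
        have e1 : s - s' = ((p s - p s' : ℤ) : ℝ) / k := by
          have h1 := hs s hsD
          have h2 := hs s' hsD'
          rw [hl] at h1
          rw [hl'] at h2
          push_cast
          rw [sub_div, ← h1, ← h2]
        have hint : (p s - p s' : ℤ) ≠ 0 := by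
          intro h0
          rw [h0] at e1
          simp only [Int.cast_zero, zero_div] at e1
          exact hne (by linarith)
        have h1 : (1 : ℝ) ≤ |((p s - p s' : ℤ) : ℝ)| := by
          rw [← Int.cast_abs]
          exact_mod_cast Int.one_le_abs hint
        rw [e1, abs_div, abs_of_pos hkpos]
        gcongr
    have h1 : (D.card : ℝ) ≤ ∑ k ∈ Finset.Icc 1 ⌊X⌋₊, (2 * Y + 1) := by
      rw [hcardsum]
      push_cast
      exact Finset.sum_le_sum hfib
    rw [Finset.sum_const, Nat.card_Icc, nsmul_eq_mul] at h1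
    refine h1.trans ?_
    apply mul_le_mul_of_nonneg_right _ (by positivity)
    have : ((⌊X⌋₊ + 1 - 1 : ℕ) : ℝ) = (⌊X⌋₊ : ℝ) := by norm_num
    rw [this]
    exact Nat.floor_le (by linarith)

end MuntzF
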