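import Pool.Agent.Lib.MP_dde81e_full.G8

/-!
Module G9 (text 8.1, abstract counting).  Split Zs: no successor (ch.ends), vx ≥ X (cnt_long), |vp| ≥ Y (cnt_perp), hugging, and the rest: slopes p/q with q = vx < X, |p-θ0 q| < Y
(cnt_dir with D = set of their slopes, slopes_card).
-/

namespace MuntzF
open Set

variable {q : MvPolynomial (Fin 2) ℝ} {N : ℕ} {Zs : Finset (ℤ × ℤ)} {yv : ℤ × ℤ → ℝ}

theorem G9_vx_pos (ch : Chain q N Zs yv) {P : ℤ × ℤ} (h : ch.nx P ≠ none) : 1 ≤ ch.vx P := by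
  obtain ⟨P', hP'⟩ := Option.ne_none_iff_exists'.1 h
  have h1 := (ch.mem P P' hP').2.2
  unfold Chain.vx
  rw [hP']
  simp only
  omega

theorem count_general {Sg Ka Mm : Set ℝ} (hq : Gen q N Sg Ka Mm) (ch : Chain q N Zs yv) {a b : ℤ}
    (hab : a ≤ b) (hr : ∀ P ∈ Zs, a ≤ P.1 ∧ P.1 ≤ b) {θ0 H0 τ τ0 X Y hb : ℝ} (hX : 1 ≤ X)
    (hθ : θ0 ≠ 0) (hτ : 0 ≤ τ) (hτ0 : 2 * τ < τ0) (hY : 4 * τ ≤ Y) (hY0 : 0 < Y)
    (hyv : ∀ P ∈ Zs, |yv P - P.2| ≤ τ) (hH : ∀ P ∈ Zs, |(P.2 : ℝ) - θ0 * P.1| ≤ H0)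
    (hH1 : 0 ≤ H0)
    (hSg : ∀ p q : ℤ, 1 ≤ q → (q : ℝ) ≤ X → |(p : ℝ) - θ0 * q| ≤ Y →
      (p / q + τ0 : ℝ) ∈ Sg ∧ (p / q - τ0 : ℝ) ∈ Sg)
    (hhug : ∀ K : Finset (ℤ × ℤ), (∀ P ∈ K, P ∈ Zs ∧ ch.hug τ0 P ∧ (ch.vx P : ℝ) ≤ X ∧
      |ch.vp θ0 P| ≤ Y) → (K.card : ℝ) ≤ hb) :
    (Zs.card : ℝ) ≤ 5 * N ^ 2 + N * (b - a) / X + N * (8 * (H0 + τ) / Y + 2)
      + 8 * N ^ 2 * (16 * X * Y + 2 * Real.log X + 2) + hb := by
  classical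
  set K0 := Zs.filter (fun P => ch.nx P = none) with hK0
  set K1 := Zs.filter (fun P => ch.nx P ≠ none ∧ X ≤ ch.vx P) with hK1
  set K2 := Zs.filter (fun P => ch.nx P ≠ none ∧ Y ≤ |ch.vp θ0 P|) with hK2
  set K3 := Zs.filter (fun P => ch.nx P ≠ none ∧ (ch.vx P : ℝ) < X ∧ |ch.vp θ0 P| < Y ∧
    ch.hug τ0 P) with hK3
  set K4 := Zs.filter (fun P => ch.nx P ≠ none ∧ (ch.vx P : ℝ) < X ∧ |ch.vp θ0 P| < Y ∧
    ¬ ch.hug τ0 P) with hK4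
  have hsub : Zs ⊆ K0 ∪ K1 ∪ K2 ∪ K3 ∪ K4 := by
    intro P hP
    simp only [hK0, hK1, hK2, hK3, hK4, Finset.mem_union, Finset.mem_filter]
    by_cases h0 : ch.nx P = none
    · tauto
    by_cases h1 : X ≤ (ch.vx P : ℝ)
    · tauto
    by_cases h2 : Y ≤ |ch.vp θ0 P|
    · tauto
    have h1' := not_le.1 h1
    have h2' := not_le.1 h2
    tauto
  have hcard : Zs.card ≤ K0.card + K1.card + K2.card + K3.card + K4.card := by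
    calc Zs.card ≤ (K0 ∪ K1 ∪ K2 ∪ K3 ∪ K4).card := Finset.card_le_card hsub
      _ ≤ (K0 ∪ K1 ∪ K2 ∪ K3).card + K4.card := Finset.card_union_le _ _
      _ ≤ ((K0 ∪ K1 ∪ K2).card + K3.card) + K4.card := by gcongr; exact Finset.card_union_le _ _
      _ ≤ (((K0 ∪ K1).card + K2.card) + K3.card) + K4.card := by
        gcongr; exact Finset.card_union_le _ _
      _ ≤ K0.card + K1.card + K2.card + K3.card + K4.card := by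
        gcongr; exact Finset.card_union_le _ _
  have b0 : (K0.card : ℝ) ≤ 5 * N ^ 2 := by
    have := ch.ends
    exact_mod_cast this
  have m1 : ∀ P ∈ K1, P ∈ Zs ∧ ch.nx P ≠ none ∧ X ≤ (ch.vx P : ℝ) := fun P hP => by
    simpa [hK1] using hP
  have m2 : ∀ P ∈ K2, P ∈ Zs ∧ ch.nx P ≠ none ∧ Y ≤ |ch.vp θ0 P| := fun P hP => by
    simpa [hK2] using hP
  have m3 : ∀ P ∈ K3, P ∈ Zs ∧ ch.nx P ≠ none ∧ (ch.vx P : ℝ) < X ∧ |ch.vp θ0 P| < Y ∧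
      ch.hug τ0 P := fun P hP => by
    simpa [hK3] using hP
  have m4 : ∀ P ∈ K4, P ∈ Zs ∧ ch.nx P ≠ none ∧ (ch.vx P : ℝ) < X ∧ |ch.vp θ0 P| < Y ∧
      ¬ ch.hug τ0 P := fun P hP => by
    simpa [hK4] using hP
  have b1 : (K1.card : ℝ) ≤ N * (b - a) / X :=
    cnt_long hq ch hab hr (by linarith) K1 (fun P hP => (m1 P hP).2)
  have b2 : (K2.card : ℝ) ≤ N * (8 * (H0 + τ) / Y + 2) :=
    cnt_perp hq ch hθ hτ hY hY0 hyv hH hH1 K2 (fun P hP => (m2 P hP).2)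
  have b3 : (K3.card : ℝ) ≤ hb :=
    hhug K3 (fun P hP => ⟨(m3 P hP).1, (m3 P hP).2.2.2.2, (m3 P hP).2.2.1.le,
      (m3 P hP).2.2.2.1.le⟩)
  have b4 : (K4.card : ℝ) ≤ 8 * N ^ 2 * (16 * X * Y + 2 * Real.log X + 2) := by
    set D := K4.image ch.sl with hD
    have hDm : ∀ s ∈ D, ∃ p q : ℤ, 1 ≤ q ∧ (q : ℝ) ≤ X ∧ |(p : ℝ) - θ0 * q| ≤ Y ∧
        s = p / q := by
      intro s hs
      obtain ⟨P, hP, rfl⟩ := Finset.mem_image.1 hs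
      obtain ⟨-, h2, h3, h4, -⟩ := m4 P hP
      exact ⟨ch.vy P, ch.vx P, G9_vx_pos ch h2, h3.le, h4.le, rfl⟩
    have h1 : K4.card ≤ 8 * N ^ 2 * D.card := by
      refine cnt_dir hq ch hτ hτ0 hyv D ?_ K4 ?_
      · intro s hs
        obtain ⟨p, r, h1, h2, h3, rfl⟩ := hDm s hs
        exact hSg p r h1 h2 h3
      · intro P hP
        exact ⟨(m4 P hP).2.1, Finset.mem_image_of_mem _ hP, (m4 P hP).2.2.2.2⟩
    have h2 := (slopes_card hX hY0.le D hDm).1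
    have h1' : (K4.card : ℝ) ≤ 8 * N ^ 2 * D.card := by exact_mod_cast h1
    refine h1'.trans ?_
    gcongr
  have hc' : (Zs.card : ℝ) ≤ K0.card + K1.card + K2.card + K3.card + K4.card := by
    exact_mod_cast hcard
  linarith

end MuntzF
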