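import Pool.Agent.Lib.MP_dde81e_full.LDefs

/-!
Module L1 (text 3.1): properties of the level.  Throughout 2 j0 + 100 ≤ j (so j - 4(j/100+1) ≥ j0).
lev_succ: ee c (j+1) (i-1) ≤ ee c j i and ee c j (i-1) ≤ ee c (j+1) i by antitonicity.
lev_lip: i' = lev θ' is < j/100, so ee c j (i'+1) θ' > 512L 2^-(i'+1), while ee c j (i'+1) θ ≤ ee c j (lev θ) θ ≤ 512 L 2^-(i'+2); the difference is ≤ 2L|θ-θ'|.
-/

namespace MuntzF
open Set

variable {b0 : ℝ} {c : ℕ → ℝ → ℝ} {j0 : ℕ} {B0 L : ℝ}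

theorem c_anti (h : CSeq b0 c j0 B0 L) {j j' : ℕ} (hj : j0 ≤ j) (hjj : j ≤ j') {x : ℝ} (hx : x ∈ I1 b0) :
    c j' x ≤ c j x := by
  induction j', hjj using Nat.le_induction with
  | base => exact le_rfl
  | succ n hn ih => exact (h.anti n (hj.trans hn) x hx).trans ih

theorem ee_mono (h : CSeq b0 c j0 B0 L) {j i i' : ℕ} (hi : i ≤ i') (hj : j0 + 4 * i' ≤ j) {x : ℝ}
    (hx : x ∈ I1 b0) : 0 ≤ ee c j i x ∧ ee c j i x ≤ ee c j i' x := by
  unfold ee
  have h1 := c_anti h (j := j - 4 * i) (j' := j + 4 * i) (by omega) (by omega) hx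
  have h2 := c_anti h (j := j - 4 * i') (j' := j - 4 * i) (by omega) (by omega) hx
  have h3 := c_anti h (j := j + 4 * i) (j' := j + 4 * i') (by omega) (by omega) hx
  constructor <;> linarith

theorem lev_le (c : ℕ → ℝ → ℝ) (L : ℝ) (j : ℕ) (θ : ℝ) : lev c L j θ ≤ j / 100 := by
  unfold lev
  exact Nat.findGreatest_le _

theorem lev_spec (h : CSeq b0 c j0 B0 L) {j i : ℕ} (hj : 2 * j0 + 100 ≤ j) {θ : ℝ} (hθ : θ ∈ I1 b0)
    (hi : i ≤ lev c L j θ) : ee c j i θ ≤ 512 * L * (1 / 2) ^ i := by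
  classical
  have hL : 0 < L := by linarith [h.hL]
  have h0 : (fun i => ee c j i θ ≤ 512 * L * (1 / 2) ^ i) 0 := by
    show ee c j 0 θ ≤ _
    unfold ee
    simp
    linarith
  have h1 : ee c j (lev c L j θ) θ ≤ 512 * L * (1 / 2) ^ lev c L j θ := by
    unfold lev
    exact Nat.findGreatest_spec (P := fun i => ee c j i θ ≤ 512 * L * (1 / 2) ^ i)
      (Nat.zero_le _) h0
  have h2 := lev_le c L j θ
  have h3 := (ee_mono h hi (j := j) (by omega) hθ).2
  have h4 : ((1 : ℝ) / 2) ^ lev c L j θ ≤ (1 / 2) ^ i :=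
    pow_le_pow_of_le_one (by norm_num) (by norm_num) hi
  calc ee c j i θ ≤ _ := h3
    _ ≤ _ := h1
    _ ≤ _ := by gcongr

theorem lev_lt (h : CSeq b0 c j0 B0 L) {j : ℕ} {θ : ℝ} (hl : lev c L j θ < j / 100) :
    512 * L * (1 / 2) ^ (lev c L j θ + 1) < ee c j (lev c L j θ + 1) θ := by
  classical
  have h1 : ¬ (fun i => ee c j i θ ≤ 512 * L * (1 / 2) ^ i) (lev c L j θ + 1) := by
    refine Nat.findGreatest_is_greatest
      (P := fun i => ee c j i θ ≤ 512 * L * (1 / 2) ^ i) (n := j / 100) ?_ (by omega)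
    unfold lev
    exact Nat.lt_succ_self _
  exact not_le.1 h1

theorem le_lev (h : CSeq b0 c j0 B0 L) {j i : ℕ} {θ : ℝ} (hi : i ≤ j / 100)
    (he : ee c j i θ ≤ 512 * L * (1 / 2) ^ i) : i ≤ lev c L j θ := by
  unfold lev
  exact Nat.le_findGreatest hi he

theorem lev_succ (h : CSeq b0 c j0 B0 L) {j : ℕ} (hj : 2 * j0 + 100 ≤ j) {θ : ℝ} (hθ : θ ∈ I1 b0) :
    lev c L j θ ≤ lev c L (j + 1) θ + 1 ∧ lev c L (j + 1) θ ≤ lev c L j θ + 1 := by
  have hL : 0 < L := by linarith [h.hL]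
  constructor
  · rcases Nat.eq_zero_or_pos (lev c L j θ) with h0 | h0
    · omega
    obtain ⟨i, hi⟩ : ∃ i, lev c L j θ = i + 1 := ⟨lev c L j θ - 1, by omega⟩
    have h1 := lev_le c L j θ
    have h2 := lev_spec h hj hθ (le_refl (lev c L j θ))
    rw [hi] at h2 h1 ⊢
    have h3 : i ≤ lev c L (j + 1) θ := by
      apply le_lev h (by omega)
      have h4 : ee c (j + 1) i θ ≤ ee c j (i + 1) θ := by
        unfold ee
        have a1 := c_anti h (j := j - 4 * (i + 1)) (j' := j + 1 - 4 * i) (by omega) (by omega) hθ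
        have a2 := c_anti h (j := j + 1 + 4 * i) (j' := j + 4 * (i + 1)) (by omega) (by omega) hθ
        linarith
      have h5 : ((1 : ℝ) / 2) ^ (i + 1) ≤ (1 / 2) ^ i :=
        pow_le_pow_of_le_one (by norm_num) (by norm_num) (by omega)
      calc ee c (j + 1) i θ ≤ _ := h4
        _ ≤ _ := h2
        _ ≤ _ := by gcongr
    omega
  · rcases Nat.eq_zero_or_pos (lev c L (j + 1) θ) with h0 | h0
    · omega
    obtain ⟨i, hi⟩ : ∃ i, lev c L (j + 1) θ = i + 1 := ⟨lev c L (j + 1) θ - 1, by omega⟩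
    have h1 := lev_le c L (j + 1) θ
    have h2 := lev_spec h (j := j + 1) (by omega) hθ (le_refl (lev c L (j + 1) θ))
    rw [hi] at h2 h1 ⊢
    have h3 : i ≤ lev c L j θ := by
      apply le_lev h (by omega)
      have h4 : ee c j i θ ≤ ee c (j + 1) (i + 1) θ := by
        unfold ee
        have a1 := c_anti h (j := j + 1 - 4 * (i + 1)) (j' := j - 4 * i) (by omega) (by omega) hθ
        have a2 := c_anti h (j := j + 4 * i) (j' := j + 1 + 4 * (i + 1)) (by omega) (by omega) hθ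
        linarith
      have h5 : ((1 : ℝ) / 2) ^ (i + 1) ≤ (1 / 2) ^ i :=
        pow_le_pow_of_le_one (by norm_num) (by norm_num) (by omega)
      calc ee c j i θ ≤ _ := h4
        _ ≤ _ := h2
        _ ≤ _ := by gcongr
    omega

theorem lev_lip (h : CSeq b0 c j0 B0 L) {j : ℕ} (hj : 2 * j0 + 100 ≤ j) {θ θ' : ℝ} (hθ : θ ∈ I1 b0)
    (hθ' : θ' ∈ I1 b0) (hl : lev c L j θ' + 2 ≤ lev c L j θ) :
    ((1 : ℝ) / 2) ^ lev c L j θ' ≤ |θ - θ'| / 64 := by
  have hL : 0 < L := by linarith [h.hL]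
  have h1 := lev_le c L j θ
  have h2 := lev_lt h (j := j) (θ := θ') (by omega)
  have h3 := lev_spec h hj hθ hl
  have h4 := (ee_mono h (j := j) (i := lev c L j θ' + 1) (i' := lev c L j θ' + 2) (by omega)
    (by omega) hθ).2
  have h5 : ee c j (lev c L j θ' + 1) θ' - ee c j (lev c L j θ' + 1) θ ≤ 2 * L * |θ - θ'| := by
    unfold ee
    have a1 := abs_le.1 (h.lip (j - 4 * (lev c L j θ' + 1)) (by omega) θ hθ θ' hθ')
    have a2 := abs_le.1 (h.lip (j + 4 * (lev c L j θ' + 1)) (by omega) θ hθ θ' hθ')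
    linarith [a1.1, a1.2, a2.1, a2.2]
  generalize lev c L j θ' = i at *
  rw [pow_succ] at h2
  rw [pow_add] at h3
  have hp : (0 : ℝ) < (1 / 2) ^ i := by positivity
  have h6 : 128 * L * (1 / 2 : ℝ) ^ i ≤ 2 * L * |θ - θ'| := by nlinarith
  have h7 : L * (128 * (1 / 2 : ℝ) ^ i) ≤ L * (2 * |θ - θ'|) := by linarith
  have h8 := le_of_mul_le_mul_left h7 hL
  linarith

end MuntzF
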