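import Pool.Agent.Lib.MP_dde81e_full.L2

/-!
Module L3 (text 3.4, S1).  i = iJ, h = 2^-i, e = f - g, f = c_(j-4(i+1)), g = c_(j+4(i+1)), m = c_(j+4i), f ≥ m ≥ g on bg d, e(θ') > 256 L h at some θ' ∈ st d (512L 2^-(i+1)).
ch = chord of m on bg d: m - ch concave, zero at the ends, (m-ch)(dc) ≤ 4Lh by (W2), hence 0 ≤ m - ch ≤ 8Lh on bg d.
Either (f-m)(θ') ≥ 128Lh: f - ch concave, ≥ 0 on bg d, ≥ 128 Lh at θ': it is ≥ 64 Lh on the middle half, so f - m ≥ 56 Lh there: integral ≥ 4 dl * 56 L h.
Or (m-g)(θ') ≥ 128Lh: ch - g convex, ≥ 120Lh at θ', so ≥ 120Lh on one side of θ' in bg d (length ≥ 2 dl), there m - g ≥ ch - g; elsewhere m-g ≥ 0: integral ≥ 240 L h dl.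
-/

namespace MuntzF
open Set MeasureTheory

variable {b0 : ℝ} {c : ℕ → ℝ → ℝ} {j0 : ℕ} {B0 L : ℝ}

private theorem cc_mul {a b : ℝ} {f : ℝ → ℝ} (hf : ConcaveOn ℝ (Icc a b) f) {x y z : ℝ}
    (hx : x ∈ Icc a b) (hz : z ∈ Icc a b) (hxy : x ≤ y) (hyz : y ≤ z) :
    (z - y) * f x + (y - x) * f z ≤ (z - x) * f y := by
  rcases eq_or_lt_of_le (hxy.trans hyz) with hxz | hxz
  · have h1 : y = x := le_antisymm (by linarith) hxy
    subst h1
    subst hxz
    simp
  · have hpos : 0 < z - x := by linarith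
    have w1 : 0 ≤ (z - y) / (z - x) := div_nonneg (by linarith) hpos.le
    have w2 : 0 ≤ (y - x) / (z - x) := div_nonneg (by linarith) hpos.le
    have w3 : (z - y) / (z - x) + (y - x) / (z - x) = 1 := by
      rw [← add_div, div_eq_one_iff_eq hpos.ne']; ring
    have h := hf.2 hx hz w1 w2 w3
    have h2 : ((z - y) / (z - x)) • x + ((y - x) / (z - x)) • z = y := by
      simp only [smul_eq_mul]
      field_simp
      ring
    rw [h2] at h
    simp only [smul_eq_mul] at h
    have h3 : (z - x) * ((z - y) / (z - x) * f x + (y - x) / (z - x) * f z) ≤ (z - x) * f y :=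
      mul_le_mul_of_nonneg_left h hpos.le
    calc (z - y) * f x + (y - x) * f z
        = (z - x) * ((z - y) / (z - x) * f x + (y - x) / (z - x) * f z) := by
          field_simp
      _ ≤ _ := h3

private theorem cont_c (h : CSeq b0 c j0 B0 L) {j : ℕ} (hj : j0 ≤ j) :
    ContinuousOn (c j) (I1 b0) := by
  have hL : 0 ≤ L := by linarith [h.hL]
  have : LipschitzOnWith L.toNNReal (c j) (I1 b0) := by
    refine LipschitzOnWith.of_dist_le_mul fun x hx y hy => ?_
    rw [Real.dist_eq, Real.dist_eq, Real.coe_toNNReal L hL]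
    exact h.lip j hj x hx y hy
  exact this.continuousOn

private theorem int_low {a b u v K : ℝ} {F : ℝ → ℝ} (hF : ContinuousOn F (Icc a b))
    (h0 : ∀ x ∈ Icc a b, 0 ≤ F x) (hau : a ≤ u) (huv : u ≤ v) (hvb : v ≤ b)
    (hK : ∀ x ∈ Icc u v, K ≤ F x) : K * (v - u) ≤ ∫ x in Icc a b, F x := by
  have hi : IntegrableOn F (Icc a b) := hF.integrableOn_compact isCompact_Icc
  have hsub : Icc u v ⊆ Icc a b := Icc_subset_Icc hau hvb
  have h1 : ∫ x in Icc u v, F x ≤ ∫ x in Icc a b, F x := by
    apply setIntegral_mono_set hi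
    · exact (ae_restrict_iff' measurableSet_Icc).2 (Filter.Eventually.of_forall h0)
    · exact Filter.Eventually.of_forall hsub
  have h2 : ∫ x in Icc u v, K ≤ ∫ x in Icc u v, F x := by
    apply setIntegral_mono_on (integrable_const K) (hi.mono_set hsub) measurableSet_Icc hK
  have h3 : ∫ _ in Icc u v, K = K * (v - u) := by
    rw [setIntegral_const, smul_eq_mul, Measure.real, Real.volume_Icc,
      ENNReal.toReal_ofReal (by linarith)]
    ring
  linarith

/-- the pure real analysis behind `s1`. -/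
private theorem s1_core {x0 δ H θ' : ℝ} {f m g : ℝ → ℝ} (hδ : 0 < δ) (hH : 0 ≤ H)
    (hf : ConcaveOn ℝ (Icc (x0 - 4 * δ) (x0 + 4 * δ)) f)
    (hm : ConcaveOn ℝ (Icc (x0 - 4 * δ) (x0 + 4 * δ)) m)
    (hg : ConcaveOn ℝ (Icc (x0 - 4 * δ) (x0 + 4 * δ)) g)
    (hfm : ∀ x ∈ Icc (x0 - 4 * δ) (x0 + 4 * δ), m x ≤ f x)
    (hmg : ∀ x ∈ Icc (x0 - 4 * δ) (x0 + 4 * δ), g x ≤ m x)
    (hc : ContinuousOn (fun x => f x - g x) (Icc (x0 - 4 * δ) (x0 + 4 * δ)))
    (hθ : θ' ∈ Icc (x0 - 2 * δ) (x0 + 2 * δ)) (hbig : 256 * H < f θ' - g θ')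
    (hW : 2 * m x0 - m (x0 - 4 * δ) - m (x0 + 4 * δ) ≤ 8 * H) :
    128 * H * δ ≤ ∫ x in Icc (x0 - 4 * δ) (x0 + 4 * δ), (f x - g x) := by
  set a := x0 - 4 * δ with ha
  set b := x0 + 4 * δ with hb
  have haI : a ∈ Icc a b := ⟨le_rfl, by linarith⟩
  have hbI : b ∈ Icc a b := ⟨by linarith, le_rfl⟩
  have hxI : x0 ∈ Icc a b := ⟨by linarith, by linarith⟩
  have hθI : θ' ∈ Icc a b := ⟨by linarith [hθ.1], by linarith [hθ.2]⟩
  have h0 : ∀ x ∈ Icc a b, 0 ≤ f x - g x := fun x hx => by linarith [hfm x hx, hmg x hx]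
  -- the chord
  obtain ⟨ch, hch⟩ : ∃ ch : ℝ → ℝ, ∀ x, 8 * δ * ch x = (b - x) * m a + (x - a) * m b :=
    ⟨fun x => ((b - x) * m a + (x - a) * m b) / (8 * δ), fun x => by field_simp⟩
  have hch1 : ∀ x ∈ Icc a b, ch x ≤ m x := by
    intro x hx
    have h := cc_mul hm haI hbI hx.1 hx.2
    have e := hch x
    have : 8 * δ * ch x ≤ 8 * δ * m x := by
      rw [e]
      have : b - a = 8 * δ := by rw [ha, hb]; ring
      rw [this] at h
      exact h
    exact le_of_mul_le_mul_left this (by positivity)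
  have hch2 : ∀ x ∈ Icc a b, m x ≤ ch x + 8 * H := by
    intro x hx
    have e := hch x
    have key : 4 * δ * m x ≤ 4 * δ * (ch x + 8 * H) := by
      rcases le_total x x0 with hxx | hxx
      · have h := cc_mul hm hx hbI hxx (by linarith)
        have h1 : (b - x) * (2 * m x0 - m a - m b) ≤ (b - x) * (8 * H) :=
          mul_le_mul_of_nonneg_left hW (by linarith [hx.2])
        have h2 : (b - x) * H ≤ 8 * δ * H := mul_le_mul_of_nonneg_right (by linarith [hx.1]) hH
        have e1 : b - x0 = 4 * δ := by rw [hb]; ring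
        rw [e1] at h
        have e2 : x0 = (a + b) / 2 := by rw [ha, hb]; ring
        have e3 : (x0 - x) * m b = (a + b) / 2 * m b - x * m b := by rw [← e2]; ring
        nlinarith
      · have h := cc_mul hm haI hx (by linarith) hxx
        have h1 : (x - a) * (2 * m x0 - m a - m b) ≤ (x - a) * (8 * H) :=
          mul_le_mul_of_nonneg_left hW (by linarith [hx.1])
        have h2 : (x - a) * H ≤ 8 * δ * H := mul_le_mul_of_nonneg_right (by linarith [hx.2]) hH
        have e1 : x0 - a = 4 * δ := by rw [ha]; ring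
        rw [e1] at h
        have e2 : x0 = (a + b) / 2 := by rw [ha, hb]; ring
        have e3 : (x - x0) * m a = x * m a - (a + b) / 2 * m a := by rw [← e2]; ring
        nlinarith
    exact le_of_mul_le_mul_left key (by positivity)
  have hcha : ∀ x y z, (z - y) * ch x + (y - x) * ch z = (z - x) * ch y := by
    intro x y z
    have e1 := hch x
    have e2 := hch y
    have e3 := hch z
    have : 8 * δ * ((z - y) * ch x + (y - x) * ch z) = 8 * δ * ((z - x) * ch y) := by
      linear_combination (z - y) * e1 + (y - x) * e3 - (z - x) * e2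
    exact mul_left_cancel₀ (by positivity) this
  by_cases hcase : 128 * H ≤ f θ' - m θ'
  · -- case A
    have hphi : ∀ x ∈ Icc ((θ' + a) / 2) ((θ' + b) / 2), 56 * H ≤ f x - g x := by
      intro x hx
      have hxI' : x ∈ Icc a b := ⟨by linarith [hx.1, hθI.1], by linarith [hx.2, hθI.2]⟩
      have hV : 128 * H ≤ f θ' - ch θ' := by linarith [hch1 θ' hθI]
      have h64 : 64 * H ≤ f x - ch x := by
        rcases le_total x θ' with hxt | hxt
        · have h := cc_mul hf haI hθI hxI'.1 hxt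
          have e := hcha a x θ'
          have h1 : 0 ≤ f a - ch a := by linarith [hch1 a haI, hfm a haI]
          have h2 : (x - a) * (128 * H) ≤ (x - a) * (f θ' - ch θ') :=
            mul_le_mul_of_nonneg_left hV (by linarith [hxI'.1])
          have h3 : (θ' - a) / 2 * (128 * H) ≤ (x - a) * (128 * H) :=
            mul_le_mul_of_nonneg_right (by linarith [hx.1]) (by positivity)
          have h4 : 0 ≤ (θ' - x) * (f a - ch a) := mul_nonneg (by linarith) h1
          have h5 : (θ' - a) * (64 * H) ≤ (θ' - a) * (f x - ch x) := by nlinarith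
          exact le_of_mul_le_mul_left h5 (by linarith [hθ.1])
        · have h := cc_mul hf hθI hbI hxt hxI'.2
          have e := hcha θ' x b
          have h1 : 0 ≤ f b - ch b := by linarith [hch1 b hbI, hfm b hbI]
          have h2 : (b - x) * (128 * H) ≤ (b - x) * (f θ' - ch θ') :=
            mul_le_mul_of_nonneg_left hV (by linarith [hxI'.2])
          have h3 : (b - θ') / 2 * (128 * H) ≤ (b - x) * (128 * H) :=
            mul_le_mul_of_nonneg_right (by linarith [hx.2]) (by positivity)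
          have h4 : 0 ≤ (x - θ') * (f b - ch b) := mul_nonneg (by linarith) h1
          have h5 : (b - θ') * (64 * H) ≤ (b - θ') * (f x - ch x) := by nlinarith
          exact le_of_mul_le_mul_left h5 (by linarith [hθ.2])
      linarith [hch2 x hxI', hmg x hxI']
    have h := int_low hc h0 (u := (θ' + a) / 2) (v := (θ' + b) / 2) (by linarith [hθI.1])
      (by linarith) (by linarith [hθI.2]) hphi
    have e : 56 * H * ((θ' + b) / 2 - (θ' + a) / 2) = 224 * (H * δ) := by rw [ha, hb]; ring
    rw [e] at h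
    have : 0 ≤ H * δ := by positivity
    linarith
  · -- case B
    have hV : 120 * H ≤ ch θ' - g θ' := by
      push Not at hcase
      linarith [hch2 θ' hθI]
    have hside : (∀ x ∈ Icc a θ', 120 * H ≤ ch x - g x) ∨
        (∀ x ∈ Icc θ' b, 120 * H ≤ ch x - g x) := by
      by_contra hcon
      push Not at hcon
      obtain ⟨⟨x1, hx1, h1⟩, ⟨x2, hx2, h2⟩⟩ := hcon
      have hx1' : x1 < θ' := by
        rcases eq_or_lt_of_le hx1.2 with he | hl
        · rw [he] at h1; linarith
        · exact hl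
      have hx2' : θ' < x2 := by
        rcases eq_or_lt_of_le hx2.1 with he | hl
        · rw [← he] at h2; linarith
        · exact hl
      have h := cc_mul hg (x := x1) (y := θ') (z := x2) ⟨hx1.1, by linarith [hθI.2]⟩
        ⟨by linarith [hθI.1], hx2.2⟩ hx1'.le hx2'.le
      have e := hcha x1 θ' x2
      have h3 : (x2 - θ') * (ch x1 - g x1) < (x2 - θ') * (120 * H) :=
        mul_lt_mul_of_pos_left h1 (by linarith)
      have h4 : (θ' - x1) * (ch x2 - g x2) < (θ' - x1) * (120 * H) :=
        mul_lt_mul_of_pos_left h2 (by linarith)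
      have h5 : (x2 - x1) * (120 * H) ≤ (x2 - x1) * (ch θ' - g θ') :=
        mul_le_mul_of_nonneg_left hV (by linarith)
      nlinarith
    have hHd : 0 ≤ H * δ := by positivity
    rcases hside with hs | hs
    · have h := int_low hc h0 (u := a) (v := θ') (K := 120 * H) le_rfl (by linarith [hθI.1])
        hθI.2 (fun x hx => by
          have hxI' : x ∈ Icc a b := ⟨hx.1, by linarith [hx.2, hθI.2]⟩
          linarith [hs x hx, hch1 x hxI', hfm x hxI'])
      have h1 : 120 * H * (2 * δ) ≤ 120 * H * (θ' - a) :=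
        mul_le_mul_of_nonneg_left (by linarith [hθ.1]) (by positivity)
      nlinarith
    · have h := int_low hc h0 (u := θ') (v := b) (K := 120 * H) hθI.1 hθI.2 le_rfl
        (fun x hx => by
          have hxI' : x ∈ Icc a b := ⟨by linarith [hx.1, hθI.1], hx.2⟩
          linarith [hs x hx, hch1 x hxI', hfm x hxI'])
      have h1 : 120 * H * (2 * δ) ≤ 120 * H * (b - θ') :=
        mul_le_mul_of_nonneg_left (by linarith [hθ.2]) (by positivity)
      nlinarith

theorem s1 (h : CSeq b0 c j0 B0 L) {j : ℕ} (hj : 2 * j0 + 100 ≤ j) {d : ℕ × ℕ}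
    (hI : ∀ x, |x - dc d| ≤ 4 * dl d → x ∈ I1 b0) (hg : good c L j d) (hc : iJ c L j d < j / 100) :
    128 * L * (1 / 2) ^ iJ c L j d * dl d ≤ ∫ θ in bg d, ee c j (iJ c L j d + 1) θ := by
  obtain ⟨θ', hθ', hlev⟩ := iJ_attained c L j d
  have hl : lev c L j θ' < j / 100 := by rw [hlev]; exact hc
  have hbig := lev_lt h hl
  rw [hlev] at hbig
  have hW := hg.2
  set i := iJ c L j d with hi
  have hδ : 0 < dl d := by unfold dl; positivity
  have hL : 0 < L := by linarith [h.hL]
  have hsub : Icc (dc d - 4 * dl d) (dc d + 4 * dl d) ⊆ I1 b0 := by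
    intro x hx
    exact hI x (abs_le.2 ⟨by linarith [hx.1], by linarith [hx.2]⟩)
  have hconv := convex_Icc (𝕜 := ℝ) (dc d - 4 * dl d) (dc d + 4 * dl d)
  have hf := (h.conc (j - 4 * (i + 1)) (by omega)).subset hsub hconv
  have hm := (h.conc (j + 4 * i) (by omega)).subset hsub hconv
  have hgg := (h.conc (j + 4 * (i + 1)) (by omega)).subset hsub hconv
  have hcf := (cont_c h (j := j - 4 * (i + 1)) (by omega)).mono hsub
  have hcg := (cont_c h (j := j + 4 * (i + 1)) (by omega)).mono hsub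
  have key := s1_core (x0 := dc d) (δ := dl d) (H := L * (1 / 2) ^ i) (θ' := θ') hδ
    (by positivity) hf hm hgg
    (fun x hx => c_anti h (by omega) (by omega) (hsub hx))
    (fun x hx => c_anti h (by omega) (by omega) (hsub hx))
    (hcf.sub hcg) hθ' (by
      have : ee c j (i + 1) θ' = c (j - 4 * (i + 1)) θ' - c (j + 4 * (i + 1)) θ' := rfl
      rw [this] at hbig
      calc 256 * (L * (1 / 2) ^ i) = 512 * L * (1 / 2) ^ (i + 1) := by rw [pow_succ]; ring
        _ < _ := hbig) (by
      calc _ ≤ _ := hW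
        _ = _ := by ring)
  calc 128 * L * (1 / 2) ^ i * dl d = 128 * (L * (1 / 2) ^ i) * dl d := by ring
    _ ≤ _ := key
    _ = _ := rfl

end MuntzF
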