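import Pool.Agent.Lib.MP_dde81e_full.LDefs

/-!
Module L4 (text 3.5, S2): summation by parts with step w.  f ≥ g, L-Lipschitz and concave on [α,β]; χ supported in [α+2w, β-2w], 0 ≤ χ ≤ 1, Cχ-Lipschitz on ℝ.
(δf)² - (δg)² = δE·G with E = f-g, G = δ(f+g), |G| ≤ 2Lw.  ∫χ(θ)E(θ+w)G(θ)dθ = ∫χ(θ-w)E(θ)G(θ-w)dθ, so
∫χ δE G = ∫E(θ)χ(θ)[G(θ-w)-G(θ)] + ∫E(θ)[χ(θ-w)-χ(θ)]G(θ-w), and G(θ-w)-G(θ) = Δ(f+g)(θ).  Integrals over ℝ of functions cut off by χ (or work on [α+w,β-w]).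
-/

namespace MuntzF
open Set MeasureTheory

/-- second difference (nonnegative for concave functions). -/
def sd (w : ℝ) (f : ℝ → ℝ) (θ : ℝ) : ℝ := 2 * f θ - f (θ + w) - f (θ - w)

structure Cut (α β w Cχ : ℝ) (χ : ℝ → ℝ) : Prop where
  nn : ∀ x, 0 ≤ χ x ∧ χ x ≤ 1
  lip : ∀ x y, |χ x - χ y| ≤ Cχ * |x - y|
  supp : ∀ x, x ∉ Icc (α + 2 * w) (β - 2 * w) → χ x = 0

theorem ibp {χ E S : ℝ → ℝ} (hχ : Continuous χ) (hc : HasCompactSupport χ) (hE : Continuous E)
    (hS : Continuous S) (w : ℝ) :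
    ∫ θ, χ θ * ((E (θ + w) - E θ) * (S (θ + w) - S θ)) =
      (∫ θ, χ θ * (E θ * (2 * S θ - S (θ + w) - S (θ - w)))) +
      ∫ θ, E θ * ((χ (θ - w) - χ θ) * (S θ - S (θ - w))) := by
  have int1 : ∀ X : ℝ → ℝ, Continuous X → Integrable (fun θ => χ θ * X θ) := by
    intro X hX
    exact (hχ.mul hX).integrable_of_hasCompactSupport hc.mul_right
  have int2 : ∀ X : ℝ → ℝ, Continuous X → Integrable (fun θ => χ (θ - w) * X θ) := by
    intro X hX
    have h1 := (int1 (fun θ => X (θ + w)) (by fun_prop)).comp_sub_right w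
    simpa using h1
  have e1 : ∫ θ, χ θ * (E (θ + w) * (S (θ + w) - S θ)) =
      ∫ θ, χ (θ - w) * (E θ * (S θ - S (θ - w))) := by
    rw [← integral_sub_right_eq_self (fun θ => χ θ * (E (θ + w) * (S (θ + w) - S θ))) w]
    simp only [sub_add_cancel]
  have e2 : ∫ θ, χ θ * ((E (θ + w) - E θ) * (S (θ + w) - S θ)) =
      (∫ θ, χ θ * (E (θ + w) * (S (θ + w) - S θ))) - ∫ θ, χ θ * (E θ * (S (θ + w) - S θ)) := by
    rw [← integral_sub (int1 _ (by fun_prop)) (int1 _ (by fun_prop))]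
    congr 1
    ext θ
    ring
  have e3 : Integrable (fun θ => E θ * ((χ (θ - w) - χ θ) * (S θ - S (θ - w)))) := by
    have h1 := (int2 (fun θ => E θ * (S θ - S (θ - w))) (by fun_prop)).sub
      (int1 (fun θ => E θ * (S θ - S (θ - w))) (by fun_prop))
    refine h1.congr (Filter.Eventually.of_forall fun θ => ?_)
    simp only [Pi.sub_apply]
    ring
  rw [e2, e1, ← integral_sub (int2 _ (by fun_prop)) (int1 _ (by fun_prop)),
    ← integral_add (int1 _ (by fun_prop)) e3]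
  congr 1
  ext θ
  ring

/-- constant extension of a function from an interval. -/
noncomputable def L4_ex (α β : ℝ) (f : ℝ → ℝ) (x : ℝ) : ℝ := f (max α (min x β))

theorem ex_mem {α β : ℝ} (h : α ≤ β) (x : ℝ) : max α (min x β) ∈ Icc α β :=
  ⟨le_max_left _ _, max_le h (min_le_right _ _)⟩

theorem ex_eq {α β x : ℝ} {f : ℝ → ℝ} (hx : x ∈ Icc α β) : L4_ex α β f x = f x := by
  unfold L4_ex
  rw [min_eq_left hx.2, max_eq_right hx.1]

theorem ex_lip {α β L : ℝ} {f : ℝ → ℝ} (h : α ≤ β) (hL : 0 ≤ L)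
    (hfl : ∀ x ∈ Icc α β, ∀ y ∈ Icc α β, |f x - f y| ≤ L * |x - y|) (x y : ℝ) :
    |L4_ex α β f x - L4_ex α β f y| ≤ L * |x - y| := by
  refine (hfl _ (ex_mem h x) _ (ex_mem h y)).trans ?_
  apply mul_le_mul_of_nonneg_left _ hL
  refine (abs_max_sub_max_le_max _ _ _ _).trans ?_
  rw [sub_self, abs_zero]
  apply max_le (abs_nonneg _)
  refine (abs_min_sub_min_le_max _ _ _ _).trans ?_
  rw [sub_self, abs_zero]
  exact max_le le_rfl (abs_nonneg _)

theorem cont_of_lip {L : ℝ} {f : ℝ → ℝ} (h : ∀ x y, |f x - f y| ≤ L * |x - y|) : Continuous f := by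
  have : LipschitzWith (Real.toNNReal L) f := by
    apply LipschitzWith.of_dist_le_mul
    intro x y
    rw [Real.dist_eq, Real.dist_eq]
    refine (h x y).trans ?_
    exact mul_le_mul_of_nonneg_right (Real.le_coe_toNNReal L) (abs_nonneg _)
  exact this.continuous

theorem Cut.C0 {α β w Cχ : ℝ} {χ : ℝ → ℝ} (h : Cut α β w Cχ χ) : 0 ≤ Cχ := by
  have h1 := h.lip 0 1
  have h2 := abs_nonneg (χ 0 - χ 1)
  norm_num at h1
  linarith

theorem Cut.cont {α β w Cχ : ℝ} {χ : ℝ → ℝ} (h : Cut α β w Cχ χ) : Continuous χ :=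
  cont_of_lip h.lip

theorem Cut.hc {α β w Cχ : ℝ} {χ : ℝ → ℝ} (h : Cut α β w Cχ χ) : HasCompactSupport χ :=
  HasCompactSupport.intro isCompact_Icc h.supp

/-- cut off integrals are integrals over the line. -/
theorem Cut.int {α β w Cχ : ℝ} {χ : ℝ → ℝ} (hw : 0 < w) (h : Cut α β w Cχ χ) (X : ℝ → ℝ) :
    ∫ θ in Icc (α + w) (β - w), χ θ * X θ = ∫ θ, χ θ * X θ := by
  apply setIntegral_eq_integral_of_forall_compl_eq_zero
  intro x hx
  rw [h.supp x, zero_mul]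
  intro hx2
  exact hx ⟨by linarith [hx2.1], by linarith [hx2.2]⟩

theorem err {α β w Cχ L : ℝ} {χ E S : ℝ → ℝ} (hw : 0 < w) (hαβ : α + 4 * w ≤ β)
    (hχ : Cut α β w Cχ χ) (hL : 0 ≤ L) (hE : Continuous E) (hS : Continuous S)
    (hE0 : ∀ x, 0 ≤ E x) (hSl : ∀ x y, |S x - S y| ≤ 2 * L * |x - y|) :
    |∫ θ, E θ * ((χ (θ - w) - χ θ) * (S θ - S (θ - w)))| ≤
      4 * L * Cχ * w ^ 2 * ∫ θ in Icc α β, E θ := by
  have hC := hχ.C0
  have e1 : ∫ θ, E θ * ((χ (θ - w) - χ θ) * (S θ - S (θ - w))) =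
      ∫ θ in Icc α β, E θ * ((χ (θ - w) - χ θ) * (S θ - S (θ - w))) := by
    symm
    apply setIntegral_eq_integral_of_forall_compl_eq_zero
    intro x hx
    rw [hχ.supp x, hχ.supp (x - w)]
    · ring
    · intro hx2
      exact hx ⟨by linarith [hx2.1], by linarith [hx2.2]⟩
    · intro hx2
      exact hx ⟨by linarith [hx2.1], by linarith [hx2.2]⟩
  rw [e1, ← integral_const_mul]
  rw [← Real.norm_eq_abs]
  have hint : IntegrableOn (fun θ => 4 * L * Cχ * w ^ 2 * E θ) (Icc α β) :=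
    (by fun_prop : Continuous (fun θ => 4 * L * Cχ * w ^ 2 * E θ)).integrableOn_Icc
  refine norm_integral_le_of_norm_le hint (Filter.Eventually.of_forall fun θ => ?_)
  rw [Real.norm_eq_abs, abs_mul, abs_mul, abs_of_nonneg (hE0 θ)]
  have h1 := hχ.lip (θ - w) θ
  have h2 := hSl θ (θ - w)
  have a1 : |θ - w - θ| = w := by
    rw [show θ - w - θ = -w by ring, abs_neg, abs_of_pos hw]
  have a2 : |θ - (θ - w)| = w := by
    rw [show θ - (θ - w) = w by ring, abs_of_pos hw]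
  rw [a1] at h1
  rw [a2] at h2
  have h3 : |χ (θ - w) - χ θ| * |S θ - S (θ - w)| ≤ (Cχ * w) * (2 * L * w) :=
    mul_le_mul h1 h2 (abs_nonneg _) (by positivity)
  calc E θ * (|χ (θ - w) - χ θ| * |S θ - S (θ - w)|) ≤ E θ * ((Cχ * w) * (2 * L * w)) :=
        mul_le_mul_of_nonneg_left h3 (hE0 θ)
    _ ≤ 4 * L * Cχ * w ^ 2 * E θ := by
        have : 0 ≤ E θ * (2 * L * Cχ * w ^ 2) := mul_nonneg (hE0 θ) (by positivity)
        nlinarith

theorem s2a {α β w Cχ L : ℝ} {χ f g : ℝ → ℝ} (hw : 0 < w) (hαβ : α + 4 * w ≤ β) (hχ : Cut α β w Cχ χ)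
    (hL : 0 ≤ L) (hf : ConcaveOn ℝ (Icc α β) f) (hg : ConcaveOn ℝ (Icc α β) g)
    (hfl : ∀ x ∈ Icc α β, ∀ y ∈ Icc α β, |f x - f y| ≤ L * |x - y|)
    (hgl : ∀ x ∈ Icc α β, ∀ y ∈ Icc α β, |g x - g y| ≤ L * |x - y|)
    (hfg : ∀ x ∈ Icc α β, g x ≤ f x) :
    ∫ θ in Icc (α + w) (β - w), χ θ * ((f θ - g θ) * (sd w f θ + sd w g θ)) ≤
      (∫ θ in Icc (α + w) (β - w), χ θ * ((f (θ + w) - f θ) ^ 2 - (g (θ + w) - g θ) ^ 2))
      + 4 * L * Cχ * w ^ 2 * ∫ θ in Icc α β, (f θ - g θ) := by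
  have hab : α ≤ β := by linarith
  have hF := ex_lip hab hL hfl
  have hG := ex_lip hab hL hgl
  have cF := cont_of_lip hF
  have cG := cont_of_lip hG
  set F := L4_ex α β f with hFd
  set G := L4_ex α β g with hGd
  have hm : ∀ θ ∈ Icc (α + w) (β - w), θ ∈ Icc α β ∧ θ + w ∈ Icc α β ∧ θ - w ∈ Icc α β := by
    intro θ hθ
    refine ⟨⟨?_, ?_⟩, ⟨?_, ?_⟩, ⟨?_, ?_⟩⟩ <;> linarith [hθ.1, hθ.2]
  have e1 : ∫ θ in Icc (α + w) (β - w), χ θ * ((f θ - g θ) * (sd w f θ + sd w g θ)) =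
      ∫ θ in Icc (α + w) (β - w), χ θ * ((F - G) θ *
        (2 * (F + G) θ - (F + G) (θ + w) - (F + G) (θ - w))) := by
    apply setIntegral_congr_fun measurableSet_Icc
    intro θ hθ
    obtain ⟨h1, h2, h3⟩ := hm θ hθ
    simp only [sd, Pi.sub_apply, Pi.add_apply, hFd, hGd, ex_eq h1, ex_eq h2, ex_eq h3]
    ring
  have e2 : ∫ θ in Icc (α + w) (β - w), χ θ * ((f (θ + w) - f θ) ^ 2 - (g (θ + w) - g θ) ^ 2) =
      ∫ θ in Icc (α + w) (β - w), χ θ * (((F - G) (θ + w) - (F - G) θ) *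
        ((F + G) (θ + w) - (F + G) θ)) := by
    apply setIntegral_congr_fun measurableSet_Icc
    intro θ hθ
    obtain ⟨h1, h2, h3⟩ := hm θ hθ
    simp only [Pi.sub_apply, Pi.add_apply, hFd, hGd, ex_eq h1, ex_eq h2]
    ring
  have e3 : ∫ θ in Icc α β, (f θ - g θ) = ∫ θ in Icc α β, (F - G) θ := by
    apply setIntegral_congr_fun measurableSet_Icc
    intro θ hθ
    simp only [Pi.sub_apply, hFd, hGd, ex_eq hθ]
  have hE0 : ∀ x, 0 ≤ (F - G) x := by
    intro x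
    have := hfg _ (ex_mem hab x)
    simp only [Pi.sub_apply, hFd, hGd, L4_ex]
    linarith
  have hSl : ∀ x y, |(F + G) x - (F + G) y| ≤ 2 * L * |x - y| := by
    intro x y
    have h1 := hF x y
    have h2 := hG x y
    have h3 : (F + G) x - (F + G) y = (F x - F y) + (G x - G y) := by
      simp only [Pi.add_apply]; ring
    rw [h3]
    refine (abs_add_le _ _).trans ?_
    linarith
  rw [e1, e2, e3, hχ.int hw, hχ.int hw, ibp hχ.cont hχ.hc (cF.sub cG) (cF.add cG) w]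
  have := err hw hαβ hχ hL (cF.sub cG) (cF.add cG) hE0 hSl
  have h4 := neg_abs_le (∫ θ, (F - G) θ * ((χ (θ - w) - χ θ) * ((F + G) θ - (F + G) (θ - w))))
  linarith

theorem sd_nn {α β w θ : ℝ} {m : ℝ → ℝ} (hw : 0 ≤ w) (hm : ConcaveOn ℝ (Icc α β) m)
    (h1 : α ≤ θ - w) (h2 : θ + w ≤ β) : 0 ≤ sd w m θ := by
  have h := hm.2 (show θ - w ∈ Icc α β from ⟨h1, by linarith⟩)
    (show θ + w ∈ Icc α β from ⟨by linarith, h2⟩)
    (show (0 : ℝ) ≤ 1 / 2 by norm_num) (show (0 : ℝ) ≤ 1 / 2 by norm_num) (by norm_num)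
  simp only [smul_eq_mul] at h
  rw [show 1 / 2 * (θ - w) + 1 / 2 * (θ + w) = θ by ring] at h
  unfold sd
  linarith

theorem s2b {α β w Cχ L : ℝ} {χ f g : ℝ → ℝ} (hw : 0 < w) (hαβ : α + 4 * w ≤ β) (hχ : Cut α β w Cχ χ)
    (hL : 0 ≤ L) (hf : ConcaveOn ℝ (Icc α β) f) (hg : ConcaveOn ℝ (Icc α β) g)
    (hfl : ∀ x ∈ Icc α β, ∀ y ∈ Icc α β, |f x - f y| ≤ L * |x - y|)
    (hgl : ∀ x ∈ Icc α β, ∀ y ∈ Icc α β, |g x - g y| ≤ L * |x - y|)
    (hfg : ∀ x ∈ Icc α β, g x ≤ f x) :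
    ∫ θ in Icc (α + w) (β - w), χ θ * ((f (θ + w) - g (θ + w)) - (f θ - g θ)) ^ 2 ≤
      (∫ θ in Icc (α + w) (β - w), χ θ * ((f θ - g θ) * (sd w f θ + sd w g θ)))
      + 4 * L * Cχ * w ^ 2 * ∫ θ in Icc α β, (f θ - g θ) := by
  have hab : α ≤ β := by linarith
  have hF := ex_lip hab hL hfl
  have hG := ex_lip hab hL hgl
  have cF := cont_of_lip hF
  have cG := cont_of_lip hG
  set F := L4_ex α β f with hFd
  set G := L4_ex α β g with hGd
  have hm : ∀ θ ∈ Icc (α + w) (β - w), θ ∈ Icc α β ∧ θ + w ∈ Icc α β ∧ θ - w ∈ Icc α β := by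
    intro θ hθ
    refine ⟨⟨?_, ?_⟩, ⟨?_, ?_⟩, ⟨?_, ?_⟩⟩ <;> linarith [hθ.1, hθ.2]
  have e1 : ∫ θ in Icc (α + w) (β - w), χ θ * ((F - G) θ *
        (2 * (F - G) θ - (F - G) (θ + w) - (F - G) (θ - w))) ≤
      ∫ θ in Icc (α + w) (β - w), χ θ * ((f θ - g θ) * (sd w f θ + sd w g θ)) := by
    have e0 : ∫ θ in Icc (α + w) (β - w), χ θ * ((f θ - g θ) * (sd w f θ + sd w g θ)) =
      ∫ θ in Icc (α + w) (β - w), χ θ * ((F - G) θ *
        (2 * (F + G) θ - (F + G) (θ + w) - (F + G) (θ - w))) := by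
      apply setIntegral_congr_fun measurableSet_Icc
      intro θ hθ
      obtain ⟨h1, h2, h3⟩ := hm θ hθ
      simp only [sd, Pi.sub_apply, Pi.add_apply, hFd, hGd, ex_eq h1, ex_eq h2, ex_eq h3]
      ring
    rw [e0]
    have cχ := hχ.cont
    apply setIntegral_mono_on
    · apply Continuous.integrableOn_Icc
      fun_prop
    · apply Continuous.integrableOn_Icc
      fun_prop
    · exact measurableSet_Icc
    · intro θ hθ
      obtain ⟨h1, h2, h3⟩ := hm θ hθ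
      have h4 := sd_nn hw.le hg h3.1 h2.2
      have h5 := hfg θ h1
      have h6 := (hχ.nn θ).1
      apply mul_le_mul_of_nonneg_left _ h6
      simp only [Pi.sub_apply, Pi.add_apply, hFd, hGd, ex_eq h1, ex_eq h2, ex_eq h3]
      unfold sd at h4
      apply mul_le_mul_of_nonneg_left _ (by linarith)
      linarith
  have e2 : ∫ θ in Icc (α + w) (β - w), χ θ * ((f (θ + w) - g (θ + w)) - (f θ - g θ)) ^ 2 =
      ∫ θ in Icc (α + w) (β - w), χ θ * (((F - G) (θ + w) - (F - G) θ) *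
        ((F - G) (θ + w) - (F - G) θ)) := by
    apply setIntegral_congr_fun measurableSet_Icc
    intro θ hθ
    obtain ⟨h1, h2, h3⟩ := hm θ hθ
    simp only [Pi.sub_apply, hFd, hGd, ex_eq h1, ex_eq h2]
    ring
  have e3 : ∫ θ in Icc α β, (f θ - g θ) = ∫ θ in Icc α β, (F - G) θ := by
    apply setIntegral_congr_fun measurableSet_Icc
    intro θ hθ
    simp only [Pi.sub_apply, hFd, hGd, ex_eq hθ]
  have hE0 : ∀ x, 0 ≤ (F - G) x := by
    intro x
    have := hfg _ (ex_mem hab x)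
    simp only [Pi.sub_apply, hFd, hGd, L4_ex]
    linarith
  have hSl : ∀ x y, |(F - G) x - (F - G) y| ≤ 2 * L * |x - y| := by
    intro x y
    have h1 := hF x y
    have h2 := hG x y
    have h3 : (F - G) x - (F - G) y = (F x - F y) - (G x - G y) := by
      simp only [Pi.sub_apply]; ring
    rw [h3]
    refine (abs_sub _ _).trans ?_
    linarith
  rw [hχ.int hw] at e1
  rw [e2, e3, hχ.int hw, ibp hχ.cont hχ.hc (cF.sub cG) (cF.sub cG) w]
  have := err hw hαβ hχ hL (cF.sub cG) (cF.sub cG) hE0 hSl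
  have h4 := le_abs_self (∫ θ, (F - G) θ * ((χ (θ - w) - χ θ) * ((F - G) θ - (F - G) (θ - w))))
  linarith

theorem conc4 {α β x y z t : ℝ} {m : ℝ → ℝ} (hm : ConcaveOn ℝ (Icc α β) m) (hx : α ≤ x) (ht : t ≤ β)
    (hxt : x < t) (hy1 : x ≤ y) (hy2 : y ≤ t) (hz1 : x ≤ z) (hz2 : z ≤ t) :
    m x * (t - z) + m t * (y - x) ≤ m y * (t - z) + m z * (y - x) := by
  have h0 : 0 < t - x := by linarith
  have key : ∀ v, x ≤ v → v ≤ t → m x * (t - v) + m t * (v - x) ≤ m v * (t - x) := by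
    intro v hv1 hv2
    have a1 : 0 ≤ (t - v) / (t - x) := div_nonneg (by linarith) h0.le
    have a2 : 0 ≤ (v - x) / (t - x) := div_nonneg (by linarith) h0.le
    have h := hm.2 (show x ∈ Icc α β from ⟨hx, by linarith⟩)
      (show t ∈ Icc α β from ⟨by linarith, ht⟩) a1 a2
      (by rw [← add_div, div_eq_one_iff_eq h0.ne']; ring)
    simp only [smul_eq_mul] at h
    have e1 : (t - v) / (t - x) * x + (v - x) / (t - x) * t = v := by
      field_simp
      ring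
    rw [e1] at h
    have h2 := mul_le_mul_of_nonneg_right h h0.le
    have e2 : ((t - v) / (t - x) * m x + (v - x) / (t - x) * m t) * (t - x) =
        m x * (t - v) + m t * (v - x) := by
      field_simp
    rw [e2] at h2
    exact h2
  have h1 := mul_le_mul_of_nonneg_right (key y hy1 hy2) (show 0 ≤ t - z by linarith)
  have h2 := mul_le_mul_of_nonneg_right (key z hz1 hz2) (show 0 ≤ y - x by linarith)
  have h3 : (m x * (t - z) + m t * (y - x)) * (t - x) ≤ (m y * (t - z) + m z * (y - x)) * (t - x) := by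
    nlinarith
  exact le_of_mul_le_mul_right h3 h0

/-- concave functions: the second difference with step `2w` at a point `w`-close to `θ'` dominates the one with step `w` at `θ'`. -/
theorem sd_dom {α β w θ θ' : ℝ} {m : ℝ → ℝ} (hw : 0 < w) (hm : ConcaveOn ℝ (Icc α β) m)
    (h1 : α ≤ θ' - 3 * w) (h2 : θ' + 3 * w ≤ β) (hθ : |θ - θ'| ≤ w) :
    sd w m θ' ≤ sd (2 * w) m θ := by
  obtain ⟨s, rfl⟩ : ∃ s, θ = θ' + s := ⟨θ - θ', by ring⟩
  rw [show θ' + s - θ' = s by ring, abs_le] at hθ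
  unfold sd
  rcases lt_trichotomy s 0 with hs | hs | hs
  · -- s < 0
    have k1 := conc4 hm (x := θ' + s - 2 * w) (y := θ' - w) (z := θ' + s) (t := θ')
      (by linarith) (by linarith) (by linarith) (by linarith) (by linarith) (by linarith) (by linarith)
    have k2 := conc4 hm (x := θ' + s) (y := θ') (z := θ' + w) (t := θ' + s + 2 * w)
      (by linarith) (by linarith) (by linarith) (by linarith) (by linarith) (by linarith) (by linarith)
    have k3 : 0 ≤ (-s) * (2 * m (θ' + s) - m (θ' + s + 2 * w) - m (θ' + s - 2 * w) -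
        (2 * m θ' - m (θ' + w) - m (θ' - w))) := by
      nlinarith
    have k4 := nonneg_of_mul_nonneg_right k3 (by linarith)
    linarith
  · subst hs
    have k1 := conc4 hm (x := θ' - 2 * w) (y := θ' - w) (z := θ' + w) (t := θ' + 2 * w)
      (by linarith) (by linarith) (by linarith) (by linarith) (by linarith) (by linarith) (by linarith)
    rw [add_zero]
    have k3 : 0 ≤ w * (m (θ' - w) + m (θ' + w) - m (θ' + 2 * w) - m (θ' - 2 * w)) := by
      nlinarith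
    have k4 := nonneg_of_mul_nonneg_right k3 hw
    linarith
  · have k1 := conc4 hm (x := θ' + s - 2 * w) (y := θ' - w) (z := θ') (t := θ' + s)
      (by linarith) (by linarith) (by linarith) (by linarith) (by linarith) (by linarith) (by linarith)
    have k2 := conc4 hm (x := θ') (y := θ' + s) (z := θ' + w) (t := θ' + s + 2 * w)
      (by linarith) (by linarith) (by linarith) (by linarith) (by linarith) (by linarith) (by linarith)
    have k3 : 0 ≤ s * (2 * m (θ' + s) - m (θ' + s + 2 * w) - m (θ' + s - 2 * w) -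
        (2 * m θ' - m (θ' + w) - m (θ' - w))) := by
      nlinarith
    have k4 := nonneg_of_mul_nonneg_right k3 hs
    linarith

end MuntzF
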