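import Pool.Agent.Lib.MP_dde81e_full.L4

/-!
Module L5 (text 3.6): telescoping.  f_j = c_(j-p), g_j = c_(j+q), p,q ≤ Q, with j - Q ≥ j0 for all j in the finite set E of scales.
tel: sum over j in an interval [j1,j2] of (x_(j-p) - x_(j+q)) ≤ (p+q) X; for a subset E of scales use that the summands are nonnegative?  (1) int (f_j-g_j) ≥ 0: subset of an interval is fine.
(2),(3): apply s2a, s2b for each j of an interval and bound ∑ over the interval: ∑_j ∫χ((δf_j)²-(δg_j)²) ≤ (p+q) sup ∫χ(δc_l)² ≤ (p+q) L²w²(β-α); the left sides of s2a, s2b are nonnegative, so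
subsets are fine.
-/

namespace MuntzF
open Set MeasureTheory

variable {b0 : ℝ} {c : ℕ → ℝ → ℝ} {j0 : ℕ} {B0 L : ℝ}

theorem tel_eq (x : ℕ → ℝ) {p q j1 : ℕ} (hp : p ≤ j1) (n : ℕ) :
    ∑ i ∈ Finset.range n, (x (j1 + i - p) - x (j1 + i + q)) =
      ∑ l ∈ Finset.range (p + q), x (j1 - p + l) - ∑ l ∈ Finset.range (p + q), x (j1 - p + n + l) := by
  induction n with
  | zero => simp
  | succ n ih =>
    rw [Finset.sum_range_succ, ih]
    have h := Finset.sum_range_sub' (fun l => x (j1 - p + n + l)) (p + q)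
    rw [Finset.sum_sub_distrib] at h
    have e1 : j1 - p + n + 0 = j1 + n - p := by omega
    have e2 : j1 - p + n + (p + q) = j1 + n + q := by omega
    simp only [e1, e2] at h
    have e3 : ∑ l ∈ Finset.range (p + q), x (j1 - p + (n + 1) + l) =
        ∑ l ∈ Finset.range (p + q), x (j1 - p + n + (l + 1)) := by
      apply Finset.sum_congr rfl
      intro l _
      congr 1
      omega
    rw [e3]
    linarith

theorem tel {x : ℕ → ℝ} {X : ℝ} {p q j1 j2 : ℕ} (hp : p ≤ j1) (h0 : ∀ l, j1 - p ≤ l → 0 ≤ x l ∧ x l ≤ X) :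
    ∑ j ∈ Finset.Icc j1 j2, (x (j - p) - x (j + q)) ≤ (p + q) * X := by
  have e : Finset.Icc j1 j2 = Finset.Ico j1 (j2 + 1) := by
    ext a
    simp only [Finset.mem_Icc, Finset.mem_Ico]
    omega
  rw [e, Finset.sum_Ico_eq_sum_range, tel_eq x hp]
  have h1 : ∑ l ∈ Finset.range (p + q), x (j1 - p + l) ≤ (p + q) * X := by
    calc ∑ l ∈ Finset.range (p + q), x (j1 - p + l) ≤ ∑ _l ∈ Finset.range (p + q), X :=
          Finset.sum_le_sum fun l _ => (h0 _ (by omega)).2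
      _ = (p + q) * X := by
          rw [Finset.sum_const, Finset.card_range, nsmul_eq_mul]
          push_cast
          ring
  have h2 : 0 ≤ ∑ l ∈ Finset.range (p + q), x (j1 - p + (j2 + 1 - j1) + l) :=
    Finset.sum_nonneg fun l _ => (h0 _ (by omega)).1
  linarith

/-- a sum over a finite set of scales is at most a telescoping sum. -/
theorem tel_sub {x : ℕ → ℝ} {X : ℝ} {Q p q j0 : ℕ} (hp : p ≤ Q) (hq : q ≤ Q) (E : Finset ℕ)
    (hE : ∀ j ∈ E, j0 + Q ≤ j) (hx : ∀ l, j0 ≤ l → 0 ≤ x l ∧ x l ≤ X) (y : ℕ → ℝ)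
    (hy0 : ∀ j, j0 + Q ≤ j → 0 ≤ y j) (hy : ∀ j, j0 + Q ≤ j → y j ≤ x (j - p) - x (j + q)) :
    ∑ j ∈ E, y j ≤ 2 * Q * X := by
  have hsub : E ⊆ Finset.Icc (j0 + Q) (E.sup id) := by
    intro j hj
    rw [Finset.mem_Icc]
    exact ⟨hE j hj, Finset.le_sup (f := id) hj⟩
  have hX : 0 ≤ X := (hx j0 le_rfl).1.trans (hx j0 le_rfl).2
  calc ∑ j ∈ E, y j ≤ ∑ j ∈ Finset.Icc (j0 + Q) (E.sup id), y j := by
        apply Finset.sum_le_sum_of_subset_of_nonneg hsub
        intro j hj _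
        exact hy0 j (Finset.mem_Icc.1 hj).1
    _ ≤ ∑ j ∈ Finset.Icc (j0 + Q) (E.sup id), (x (j - p) - x (j + q)) := by
        apply Finset.sum_le_sum
        intro j hj
        exact hy j (Finset.mem_Icc.1 hj).1
    _ ≤ (p + q) * X := tel (by omega) fun l hl => hx l (by omega)
    _ ≤ 2 * Q * X := by
        have h1 : (p : ℝ) ≤ Q := by exact_mod_cast hp
        have h2 : (q : ℝ) ≤ Q := by exact_mod_cast hq
        apply mul_le_mul_of_nonneg_right _ hX
        linarith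

theorem CSeq.contOn (h : CSeq b0 c j0 B0 L) {l : ℕ} (hl : j0 ≤ l) : ContinuousOn (c l) (I1 b0) := by
  have : LipschitzOnWith (Real.toNNReal L) (c l) (I1 b0) := by
    apply LipschitzOnWith.of_dist_le_mul
    intro x hx y hy
    rw [Real.dist_eq, Real.dist_eq]
    refine (h.lip l hl x hx y hy).trans ?_
    exact mul_le_mul_of_nonneg_right (Real.le_coe_toNNReal L) (abs_nonneg _)
  exact this.continuousOn

theorem CSeq.antit (h : CSeq b0 c j0 B0 L) {l : ℕ} (hl : j0 ≤ l) (n : ℕ) {x : ℝ}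
    (hx : x ∈ I1 b0) : c (l + n) x ≤ c l x := by
  induction n with
  | zero => exact le_rfl
  | succ n ih => exact (h.anti (l + n) (by omega) x hx).trans ih

theorem CSeq.antit' (h : CSeq b0 c j0 B0 L) {l l' : ℕ} (hl : j0 ≤ l) (hll : l ≤ l') {x : ℝ}
    (hx : x ∈ I1 b0) : c l' x ≤ c l x := by
  obtain ⟨n, rfl⟩ := Nat.exists_eq_add_of_le hll
  exact h.antit hl n hx

theorem CSeq.intOn (h : CSeq b0 c j0 B0 L) {l : ℕ} (hl : j0 ≤ l) {U : Set ℝ} (hU1 : U ⊆ I1 b0) :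
    IntegrableOn (c l) U :=
  ((h.contOn hl).integrableOn_compact isCompact_Icc).mono_set hU1

theorem volU {U : Set ℝ} (hU1 : U ⊆ I1 b0) : volume U < ⊤ :=
  (measure_mono hU1).trans_lt (by rw [I1, Real.volume_Icc]; exact ENNReal.ofReal_lt_top)

theorem tel1 (h : CSeq b0 c j0 B0 L) {Q p q : ℕ} (hp : p ≤ Q) (hq : q ≤ Q) (E : Finset ℕ)
    (hE : ∀ j ∈ E, j0 + Q ≤ j) {U : Set ℝ} (hU : MeasurableSet U) (hU1 : U ⊆ I1 b0) :
    ∑ j ∈ E, ∫ θ in U, (c (j - p) θ - c (j + q) θ) ≤ 2 * Q * B0 * (volume U).toReal := by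
  have hfin : IsFiniteMeasure (volume.restrict U) := ⟨by
    rw [Measure.restrict_apply_univ]; exact volU hU1⟩
  rw [mul_assoc]
  refine tel_sub (x := fun l => ∫ θ in U, c l θ) hp hq E hE ?_ _ ?_ ?_
  · intro l hl
    constructor
    · exact setIntegral_nonneg hU fun θ hθ => (h.nn l hl θ (hU1 hθ)).1
    · have h1 := setIntegral_mono_on (h.intOn hl hU1) (integrable_const B0) hU
        fun θ hθ => (h.nn l hl θ (hU1 hθ)).2
      rw [setIntegral_const, smul_eq_mul, mul_comm] at h1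
      exact h1
  · intro j hj
    apply setIntegral_nonneg hU
    intro θ hθ
    have := h.antit' (l := j - p) (l' := j + q) (by omega) (by omega) (hU1 hθ)
    linarith
  · intro j hj
    rw [integral_sub (h.intOn (by omega) hU1) (h.intOn (by omega) hU1)]

theorem mulw {b0 w : ℝ} (hb : 2 ≤ b0) (hw1 : 4 * w ≤ 1) : 1 / (2 * b0) + 4 * w ≤ 2 * b0 := by
  have h1 : 1 / (2 * b0) ≤ 1 / 4 := by
    apply div_le_div_of_nonneg_left (by norm_num) (by norm_num) (by linarith)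
  linarith

theorem CSeq.lhs_nn (h : CSeq b0 c j0 B0 L) {Q p q : ℕ} (hp : p ≤ Q) {w Cχ : ℝ} {χ : ℝ → ℝ}
    (hw : 0 < w) (hχ : Cut (1 / (2 * b0)) (2 * b0) w Cχ χ) {j : ℕ} (hj : j0 + Q ≤ j) :
    0 ≤ ∫ θ in Icc (1 / (2 * b0) + w) (2 * b0 - w),
        χ θ * ((c (j - p) θ - c (j + q) θ) * (sd w (c (j - p)) θ + sd w (c (j + q)) θ)) := by
  apply setIntegral_nonneg measurableSet_Icc
  intro θ hθ
  have h1 : θ ∈ I1 b0 := ⟨by linarith [hθ.1], by linarith [hθ.2]⟩
  have h2 := h.antit' (l := j - p) (l' := j + q) (by omega) (by omega) h1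
  have h3 := sd_nn hw.le (h.conc (j - p) (by omega)) (θ := θ) (by linarith [hθ.1]) (by linarith [hθ.2])
  have h4 := sd_nn hw.le (h.conc (j + q) (by omega)) (θ := θ) (by linarith [hθ.1]) (by linarith [hθ.2])
  exact mul_nonneg (hχ.nn θ).1 (mul_nonneg (by linarith) (by linarith))

theorem volI {b0 : ℝ} (hb : 2 ≤ b0) :
    0 ≤ (volume (Icc (1 / (2 * b0)) (2 * b0))).toReal ∧
    (volume (Icc (1 / (2 * b0)) (2 * b0))).toReal ≤ 2 * b0 := by
  refine ⟨ENNReal.toReal_nonneg, ?_⟩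
  rw [Real.volume_Icc]
  have h2 : 0 ≤ 1 / (2 * b0) := by positivity
  rcases le_total 0 (2 * b0 - 1 / (2 * b0)) with h | h
  · rw [ENNReal.toReal_ofReal h]
    linarith
  · rw [ENNReal.ofReal_of_nonpos h, ENNReal.toReal_zero]
    linarith

theorem tel2 (h : CSeq b0 c j0 B0 L) {Q p q : ℕ} (hp : p ≤ Q) (hq : q ≤ Q) (E : Finset ℕ)
    (hE : ∀ j ∈ E, j0 + Q ≤ j) {w Cχ : ℝ} {χ : ℝ → ℝ} (hw : 0 < w) (hw1 : 4 * w ≤ 1)
    (hχ : Cut (1 / (2 * b0)) (2 * b0) w Cχ χ) (hC : 0 ≤ Cχ) :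
    ∑ j ∈ E, ∫ θ in Icc (1 / (2 * b0) + w) (2 * b0 - w),
        χ θ * ((c (j - p) θ - c (j + q) θ) * (sd w (c (j - p)) θ + sd w (c (j + q)) θ))
      ≤ (2 * Q * L ^ 2 * (2 * b0) + 4 * L * Cχ * (2 * Q * B0 * (2 * b0))) * w ^ 2 := by
  have hb := h.hb
  have hL := h.hL
  have hB := h.hB
  have hab := mulw hb hw1
  obtain ⟨v0, v1⟩ := volI hb
  set V := (volume (Icc (1 / (2 * b0)) (2 * b0))).toReal with hV
  -- the function which telescopes
  have key : ∑ j ∈ E, (∫ θ in Icc (1 / (2 * b0) + w) (2 * b0 - w),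
        χ θ * ((c (j - p) θ - c (j + q) θ) * (sd w (c (j - p)) θ + sd w (c (j + q)) θ))) ≤
      2 * Q * ((L ^ 2 * (2 * b0)) * w ^ 2 + 4 * L * Cχ * w ^ 2 * (B0 * V)) := by
    refine tel_sub (x := fun l => (∫ θ in Icc (1 / (2 * b0) + w) (2 * b0 - w),
      χ θ * (c l (θ + w) - c l θ) ^ 2) + 4 * L * Cχ * w ^ 2 * ∫ θ in Icc (1 / (2 * b0)) (2 * b0), c l θ)
      hp hq E hE ?_ _ ?_ ?_
    · intro l hl
      have h1 : 0 ≤ ∫ θ in Icc (1 / (2 * b0)) (2 * b0), c l θ :=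
        setIntegral_nonneg measurableSet_Icc fun θ hθ => (h.nn l hl θ hθ).1
      have h2 : ∫ θ in Icc (1 / (2 * b0)) (2 * b0), c l θ ≤ B0 * V := by
        have h1 := setIntegral_mono_on (h.intOn hl (U := Icc (1 / (2 * b0)) (2 * b0)) le_rfl)
          (by exact integrable_const B0) measurableSet_Icc
          fun θ hθ => (h.nn l hl θ hθ).2
        rw [setIntegral_const, smul_eq_mul, mul_comm _ B0] at h1
        exact h1
      have h3 : 0 ≤ ∫ θ in Icc (1 / (2 * b0) + w) (2 * b0 - w), χ θ * (c l (θ + w) - c l θ) ^ 2 :=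
        setIntegral_nonneg measurableSet_Icc fun θ hθ => mul_nonneg (hχ.nn θ).1 (sq_nonneg _)
      have h4 : ∫ θ in Icc (1 / (2 * b0) + w) (2 * b0 - w), χ θ * (c l (θ + w) - c l θ) ^ 2 ≤
          (L ^ 2 * (2 * b0)) * w ^ 2 := by
        have h5 : ‖∫ θ in Icc (1 / (2 * b0) + w) (2 * b0 - w), χ θ * (c l (θ + w) - c l θ) ^ 2‖ ≤
            (L * w) ^ 2 * (volume.real (Icc (1 / (2 * b0) + w) (2 * b0 - w))) := by
          apply norm_setIntegral_le_of_norm_le_const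
          · rw [Real.volume_Icc]; exact ENNReal.ofReal_lt_top
          · intro θ hθ
            have g1 : θ ∈ I1 b0 := ⟨by linarith [hθ.1], by linarith [hθ.2]⟩
            have g2 : θ + w ∈ I1 b0 := ⟨by linarith [hθ.1], by linarith [hθ.2]⟩
            have g3 := h.lip l hl _ g2 _ g1
            rw [show θ + w - θ = w by ring, abs_of_pos hw] at g3
            rw [Real.norm_eq_abs, abs_mul, abs_of_nonneg (hχ.nn θ).1, abs_pow]
            have g4 : |c l (θ + w) - c l θ| ^ 2 ≤ (L * w) ^ 2 := by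
              apply pow_le_pow_left₀ (abs_nonneg _) g3
            calc χ θ * |c l (θ + w) - c l θ| ^ 2 ≤ 1 * (L * w) ^ 2 :=
                  mul_le_mul (hχ.nn θ).2 g4 (by positivity) (by norm_num)
              _ = (L * w) ^ 2 := one_mul _
        have h6 : volume.real (Icc (1 / (2 * b0) + w) (2 * b0 - w)) ≤ 2 * b0 := by
          rw [Real.volume_real_Icc]
          have : 0 ≤ 1 / (2 * b0) := by positivity
          apply max_le <;> linarith
        have h7 := (le_abs_self _).trans (h5.trans (mul_le_mul_of_nonneg_left h6 (by positivity)))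
        calc _ ≤ (L * w) ^ 2 * (2 * b0) := h7
          _ = (L ^ 2 * (2 * b0)) * w ^ 2 := by ring
      constructor
      · have := mul_nonneg (show 0 ≤ 4 * L * Cχ * w ^ 2 by positivity) h1
        linarith
      · have := mul_le_mul_of_nonneg_left h2 (show 0 ≤ 4 * L * Cχ * w ^ 2 by positivity)
        linarith
    · intro j hj
      exact h.lhs_nn hp hw hχ hj
    · intro j hj
      have h1 := s2a (α := 1 / (2 * b0)) (β := 2 * b0) (L := L) (f := c (j - p)) (g := c (j + q))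
        hw hab hχ (by linarith) (h.conc _ (by omega)) (h.conc _ (by omega))
        (h.lip _ (by omega)) (h.lip _ (by omega)) (fun x hx => h.antit' (by omega) (by omega) hx)
      refine h1.trans (le_of_eq ?_)
      have i1 : ∀ l, j0 ≤ l → IntegrableOn (fun θ => χ θ * (c l (θ + w) - c l θ) ^ 2)
          (Icc (1 / (2 * b0) + w) (2 * b0 - w)) := by
        intro l hl
        refine ContinuousOn.integrableOn_compact isCompact_Icc ?_
        have hc := h.contOn hl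
        apply ContinuousOn.mul hχ.cont.continuousOn
        apply ContinuousOn.pow
        apply ContinuousOn.sub
        · apply hc.comp (by fun_prop)
          intro θ hθ
          exact ⟨by linarith [hθ.1], by linarith [hθ.2]⟩
        · apply hc.mono
          intro θ hθ
          exact ⟨by linarith [hθ.1], by linarith [hθ.2]⟩
      have e1 : ∫ θ in Icc (1 / (2 * b0) + w) (2 * b0 - w),
          χ θ * ((c (j - p) (θ + w) - c (j - p) θ) ^ 2 - (c (j + q) (θ + w) - c (j + q) θ) ^ 2) =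
          (∫ θ in Icc (1 / (2 * b0) + w) (2 * b0 - w), χ θ * (c (j - p) (θ + w) - c (j - p) θ) ^ 2) -
          ∫ θ in Icc (1 / (2 * b0) + w) (2 * b0 - w), χ θ * (c (j + q) (θ + w) - c (j + q) θ) ^ 2 := by
        rw [← integral_sub (i1 _ (by omega)) (i1 _ (by omega))]
        congr 1
        ext θ
        ring
      have e2 : ∫ θ in Icc (1 / (2 * b0)) (2 * b0), (c (j - p) θ - c (j + q) θ) =
          (∫ θ in Icc (1 / (2 * b0)) (2 * b0), c (j - p) θ) -
          ∫ θ in Icc (1 / (2 * b0)) (2 * b0), c (j + q) θ := by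
        exact integral_sub (h.intOn (l := j - p) (by omega) (U := Icc (1 / (2 * b0)) (2 * b0)) le_rfl)
          (h.intOn (l := j + q) (by omega) (U := Icc (1 / (2 * b0)) (2 * b0)) le_rfl)
      rw [e1, e2]
      ring
  refine key.trans ?_
  have hQ : (0 : ℝ) ≤ Q := Nat.cast_nonneg _
  have h1 : B0 * V ≤ B0 * (2 * b0) := mul_le_mul_of_nonneg_left v1 hB
  have h2 := mul_le_mul_of_nonneg_left h1 (show 0 ≤ 2 * Q * (4 * L * Cχ * w ^ 2) by positivity)
  nlinarith

theorem tel3 (h : CSeq b0 c j0 B0 L) {Q p q : ℕ} (hp : p ≤ Q) (hq : q ≤ Q) (E : Finset ℕ)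
    (hE : ∀ j ∈ E, j0 + Q ≤ j) {w Cχ : ℝ} {χ : ℝ → ℝ} (hw : 0 < w) (hw1 : 4 * w ≤ 1)
    (hχ : Cut (1 / (2 * b0)) (2 * b0) w Cχ χ) (hC : 0 ≤ Cχ) :
    ∑ j ∈ E, ∫ θ in Icc (1 / (2 * b0) + w) (2 * b0 - w),
        χ θ * ((c (j - p) (θ + w) - c (j + q) (θ + w)) - (c (j - p) θ - c (j + q) θ)) ^ 2
      ≤ (2 * Q * L ^ 2 * (2 * b0) + 8 * L * Cχ * (2 * Q * B0 * (2 * b0))) * w ^ 2 := by
  have hb := h.hb
  have hL := h.hL
  have hB := h.hB
  have hab := mulw hb hw1
  obtain ⟨v0, v1⟩ := volI hb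
  have h1 := tel1 h hp hq E hE (U := Icc (1 / (2 * b0)) (2 * b0)) measurableSet_Icc le_rfl
  have h2 := tel2 h hp hq E hE hw hw1 hχ hC
  have h3 : ∑ j ∈ E, ∫ θ in Icc (1 / (2 * b0) + w) (2 * b0 - w),
        χ θ * ((c (j - p) (θ + w) - c (j + q) (θ + w)) - (c (j - p) θ - c (j + q) θ)) ^ 2 ≤
      ∑ j ∈ E, ((∫ θ in Icc (1 / (2 * b0) + w) (2 * b0 - w),
        χ θ * ((c (j - p) θ - c (j + q) θ) * (sd w (c (j - p)) θ + sd w (c (j + q)) θ))) +
        4 * L * Cχ * w ^ 2 * ∫ θ in Icc (1 / (2 * b0)) (2 * b0), (c (j - p) θ - c (j + q) θ)) := by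
    apply Finset.sum_le_sum
    intro j hj
    have hj2 := hE j hj
    exact s2b (α := 1 / (2 * b0)) (β := 2 * b0) (L := L) (f := c (j - p)) (g := c (j + q))
      hw hab hχ (by linarith) (h.conc _ (by omega)) (h.conc _ (by omega))
      (h.lip _ (by omega)) (h.lip _ (by omega)) (fun x hx => h.antit' (by omega) (by omega) hx)
  refine h3.trans ?_
  rw [Finset.sum_add_distrib, ← Finset.mul_sum]
  have hQ : (0 : ℝ) ≤ Q := Nat.cast_nonneg _
  have h4 : ∑ j ∈ E, ∫ θ in Icc (1 / (2 * b0)) (2 * b0), (c (j - p) θ - c (j + q) θ) ≤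
      2 * Q * B0 * (2 * b0) := h1.trans (mul_le_mul_of_nonneg_left v1 (by positivity))
  have h5 := mul_le_mul_of_nonneg_left h4 (show 0 ≤ 4 * L * Cχ * w ^ 2 by positivity)
  linarith

end MuntzF
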