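import Pool.Agent.Lib.MP_dde81e_full.L3
import Pool.Agent.Lib.MP_dde81e_full.L5

/-!
Module L6 (text 3.7: CW1, CW3).  Each θ lies in bg d for at most 9 dyadic intervals d of a given length.  Sum of s1 over the pairs, tel1 with p = q = Q = 4(i+1), U = I1 (CW1), U = bg d (CW3).
E = finite set of pairs (j,d).  (i < j/100 gives j0 + 4(i+1) ≤ j since 2 j0 + 100 ≤ j.)
-/

namespace MuntzF
open Set MeasureTheory

variable {b0 : ℝ} {c : ℕ → ℝ → ℝ} {j0 : ℕ} {B0 L : ℝ}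

theorem L6_dl_pos (d : ℕ × ℕ) : 0 < dl d := by
  unfold dl
  positivity

/-- each point lies in at most nine big intervals of a given length. -/
theorem L6_ov_card {ι : Type*} {w : ℕ} (s : Finset ι) (g : ι → ℕ × ℕ) (hinj : Set.InjOn g s)
    (hw : ∀ a ∈ s, (g a).1 = w) (θ : ℝ) [DecidablePred fun a => θ ∈ bg (g a)] :
    (s.filter (fun a => θ ∈ bg (g a))).card ≤ 9 := by
  classical
  have hh : (0 : ℝ) < (1 / 2) ^ w := by positivity
  set H : ℝ := (1 / 2) ^ w with hH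
  set m : ℤ := ⌈θ / H - 1 / 2 - 4⌉ with hm
  have hmap : ∀ a ∈ s.filter (fun a => θ ∈ bg (g a)), ((g a).2 : ℤ) ∈ Finset.Icc m (m + 8) := by
    intro a ha
    rw [Finset.mem_filter] at ha
    obtain ⟨ha, hb⟩ := ha
    have e1 : dl (g a) = H := by
      unfold dl
      rw [hw a ha]
    have e2 : dc (g a) = ((g a).2 + 1 / 2) * H := by
      unfold dc
      rw [e1]
    unfold bg at hb
    rw [e1, e2, mem_Icc] at hb
    obtain ⟨h1, h2⟩ := hb
    rw [Finset.mem_Icc]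
    constructor
    · rw [hm, Int.ceil_le]
      have : θ / H ≤ ((g a).2 + 1 / 2) + 4 := by
        rw [div_le_iff₀ hh]
        linarith
      push_cast
      linarith
    · have h3 : ((g a).2 + 1 / 2) - 4 ≤ θ / H := by
        rw [le_div_iff₀ hh]
        linarith
      have h4 : θ / H - 1 / 2 - 4 ≤ (m : ℝ) := Int.le_ceil _
      have h5 : (((g a).2 : ℤ) : ℝ) ≤ ((m + 8 : ℤ) : ℝ) := by
        push_cast
        linarith
      exact_mod_cast h5
  have hinj2 : Set.InjOn (fun a => ((g a).2 : ℤ)) (s.filter (fun a => θ ∈ bg (g a)) : Finset ι) := by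
    intro a ha b hb hab
    have ha' := (Finset.mem_filter.1 (Finset.mem_coe.1 ha)).1
    have hb' := (Finset.mem_filter.1 (Finset.mem_coe.1 hb)).1
    apply hinj (Finset.mem_coe.2 ha') (Finset.mem_coe.2 hb')
    have hab' : ((g a).2 : ℤ) = ((g b).2 : ℤ) := hab
    have h2 : (g a).2 = (g b).2 := by exact_mod_cast hab'
    exact Prod.ext ((hw a ha').trans (hw b hb').symm) h2
  have hcc := Finset.card_le_card_of_injOn _ hmap hinj2
  rw [Int.card_Icc] at hcc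
  have h9 : (m + 8 + 1 - m).toNat = 9 := by omega
  rw [h9] at hcc
  exact hcc

/-- overlap bound for integrals. -/
theorem L6_ov_int {ι : Type*} {w : ℕ} (s : Finset ι) (g : ι → ℕ × ℕ) (hinj : Set.InjOn g s)
    (hw : ∀ a ∈ s, (g a).1 = w) {U : Set ℝ} (hU : MeasurableSet U) (hbU : ∀ a ∈ s, bg (g a) ⊆ U)
    {F : ℝ → ℝ} (hF : IntegrableOn F U) (hF0 : ∀ x ∈ U, 0 ≤ F x) :
    ∑ a ∈ s, ∫ θ in bg (g a), F θ ≤ 9 * ∫ θ in U, F θ := by
  classical
  have hbm : ∀ a, MeasurableSet (bg (g a)) := fun a => measurableSet_Icc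
  have e1 : ∀ a ∈ s, ∫ θ in bg (g a), F θ = ∫ θ in U, (bg (g a)).indicator F θ := by
    intro a ha
    rw [setIntegral_indicator (hbm a), Set.inter_eq_self_of_subset_right (hbU a ha)]
  rw [Finset.sum_congr rfl e1]
  have hint : ∀ a ∈ s, IntegrableOn ((bg (g a)).indicator F) U := fun a _ => hF.indicator (hbm a)
  rw [← integral_finsetSum s hint, ← integral_const_mul]
  refine setIntegral_mono_on ?_ (hF.const_mul 9) hU ?_
  · exact integrable_finsetSum s hint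
  · intro x hx
    have e2 : ∑ a ∈ s, (bg (g a)).indicator F x =
        ((s.filter (fun a => x ∈ bg (g a))).card : ℝ) * F x := by
      simp only [Set.indicator_apply]
      rw [← Finset.sum_filter, Finset.sum_const, nsmul_eq_mul]
    rw [e2]
    have h9 : ((s.filter (fun a => x ∈ bg (g a))).card : ℝ) ≤ 9 := by
      exact_mod_cast L6_ov_card s g hinj hw x
    exact mul_le_mul_of_nonneg_right h9 (hF0 x hx)

theorem L6_cont (h : CSeq b0 c j0 B0 L) {l : ℕ} (hl : j0 ≤ l) : ContinuousOn (c l) (I1 b0) := by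
  have hLn : (0 : ℝ) ≤ L := by linarith [h.hL]
  have : LipschitzOnWith (Real.toNNReal L) (c l) (I1 b0) := by
    apply LipschitzOnWith.of_dist_le_mul
    intro x hx y hy
    rw [Real.dist_eq, Real.dist_eq, Real.coe_toNNReal _ hLn]
    exact h.lip l hl x hx y hy
  exact this.continuousOn

theorem L6_ee_cont (h : CSeq b0 c j0 B0 L) {j i : ℕ} (hj : j0 + 4 * i ≤ j) :
    ContinuousOn (ee c j i) (I1 b0) := by
  unfold ee
  exact (L6_cont h (by omega)).sub (L6_cont h (by omega))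

theorem L6_I1_compact (b0 : ℝ) : IsCompact (I1 b0) := isCompact_Icc

theorem L6_vol_I1 (h : CSeq b0 c j0 B0 L) : (volume (I1 b0)).toReal ≤ 2 * b0 := by
  have hb := h.hb
  unfold I1
  rw [Real.volume_Icc]
  have h1 : 0 ≤ 1 / (2 * b0) := by positivity
  have h2 : 1 / (2 * b0) ≤ 1 := by
    rw [div_le_one (by positivity)]
    linarith
  rw [ENNReal.toReal_ofReal (by linarith)]
  linarith

theorem L6_sub (h : CSeq b0 c j0 B0 L) {w0 : ℕ} (hw0 : 400 * b0 ≤ 2 ^ w0) {j : ℕ} {d : ℕ × ℕ}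
    (hd : IsWin b0 c L w0 j d) : ∀ x, |x - dc d| ≤ 4 * dl d → x ∈ I1 b0 := by
  intro x hx
  have := L6_dl_pos d
  exact st_sub h.hb hw0 hd.1 hd.2.1 (by linarith)

theorem L6_bg_sub (h : CSeq b0 c j0 B0 L) {w0 : ℕ} (hw0 : 400 * b0 ≤ 2 ^ w0) {j : ℕ} {d : ℕ × ℕ}
    (hd : IsWin b0 c L w0 j d) : bg d ⊆ I1 b0 := by
  intro x hx
  unfold bg at hx
  rw [mem_Icc] at hx
  apply L6_sub h hw0 hd
  rw [abs_le]
  constructor <;> linarith [hx.1, hx.2]

/-- grouping a sum over pairs by the first coordinate. -/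
theorem L6_fib (E : Finset (ℕ × (ℕ × ℕ))) (f : ℕ → ℕ × ℕ → ℝ) :
    ∑ e ∈ E, f e.1 e.2 = ∑ j ∈ E.image Prod.fst, ∑ e ∈ E.filter (fun e => e.1 = j), f j e.2 := by
  classical
  have := Finset.sum_fiberwise_of_maps_to (s := E) (t := E.image Prod.fst) (g := Prod.fst)
    (fun e he => Finset.mem_image_of_mem _ he) (fun e => f e.1 e.2)
  rw [← this]
  apply Finset.sum_congr rfl
  intro j _
  apply Finset.sum_congr rfl
  intro e he
  rw [(Finset.mem_filter.1 he).2]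

theorem L6_inj (E : Finset (ℕ × (ℕ × ℕ))) (j : ℕ) :
    Set.InjOn (Prod.snd : ℕ × (ℕ × ℕ) → ℕ × ℕ) (E.filter (fun e => e.1 = j) : Finset _) := by
  intro a ha b hb hab
  have h1 := (Finset.mem_filter.1 (Finset.mem_coe.1 ha)).2
  have h2 := (Finset.mem_filter.1 (Finset.mem_coe.1 hb)).2
  exact Prod.ext (h1.trans h2.symm) hab

theorem cw1 (h : CSeq b0 c j0 B0 L) {w0 : ℕ} (hw0 : 400 * b0 ≤ 2 ^ w0) : ∃ C : ℝ, 0 < C ∧
    ∀ (i w : ℕ) (E : Finset (ℕ × (ℕ × ℕ))), (∀ e ∈ E, 2 * j0 + 100 ≤ e.1 ∧ IsWin b0 c L w0 e.1 e.2 ∧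
      e.2.1 = w ∧ iJ c L e.1 e.2 = i ∧ i < e.1 / 100) → (E.card : ℝ) ≤ C * (i + 1) * 2 ^ (i + w) := by
  classical
  have hb := h.hb
  have hL := h.hL
  have hB := h.hB
  refine ⟨9 * (8 * B0 * (2 * b0)) + 1, by positivity, ?_⟩
  intro i w E hE
  have hlow : ∀ e ∈ E, 128 * L * (1 / 2) ^ i * (1 / 2) ^ w ≤ ∫ θ in bg e.2, ee c e.1 (i + 1) θ := by
    intro e he
    obtain ⟨h1, h2, h3, h4, h5⟩ := hE e he
    have := s1 h h1 (L6_sub h hw0 h2) h2.2.2.1 (by rw [h4]; exact h5)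
    rw [h4] at this
    have e1 : dl e.2 = (1 / 2) ^ w := by
      unfold dl
      rw [h3]
    rw [e1] at this
    exact this
  have hjs : ∀ j ∈ E.image Prod.fst, j0 + 4 * (i + 1) ≤ j := by
    intro j hj
    rw [Finset.mem_image] at hj
    obtain ⟨e, he, rfl⟩ := hj
    obtain ⟨h1, h2, h3, h4, h5⟩ := hE e he
    omega
  have hup : ∑ e ∈ E, ∫ θ in bg e.2, ee c e.1 (i + 1) θ ≤
      9 * (2 * ((4 * (i + 1) : ℕ) : ℝ) * B0 * (volume (I1 b0)).toReal) := by
    rw [L6_fib E (fun j d => ∫ θ in bg d, ee c j (i + 1) θ)]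
    calc ∑ j ∈ E.image Prod.fst, ∑ e ∈ E.filter (fun e => e.1 = j),
          ∫ θ in bg e.2, ee c j (i + 1) θ
        ≤ ∑ j ∈ E.image Prod.fst, 9 * ∫ θ in I1 b0, ee c j (i + 1) θ := by
          apply Finset.sum_le_sum
          intro j hj
          have hj' := hjs j hj
          refine L6_ov_int (w := w) (E.filter (fun e => e.1 = j)) Prod.snd (L6_inj E j) ?_
            measurableSet_Icc ?_ ((L6_ee_cont h hj').integrableOn_compact (L6_I1_compact b0)) ?_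
          · intro e he
            exact (hE e (Finset.mem_filter.1 he).1).2.2.1
          · intro e he
            exact L6_bg_sub h hw0 (hE e (Finset.mem_filter.1 he).1).2.1
          · intro x hx
            exact (ee_mono h (le_refl (i + 1)) hj' hx).1
      _ = 9 * ∑ j ∈ E.image Prod.fst, ∫ θ in I1 b0, (c (j - 4 * (i + 1)) θ - c (j + 4 * (i + 1)) θ) := by
          rw [Finset.mul_sum]
          rfl
      _ ≤ 9 * (2 * ((4 * (i + 1) : ℕ) : ℝ) * B0 * (volume (I1 b0)).toReal) := by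
          apply mul_le_mul_of_nonneg_left _ (by norm_num)
          exact tel1 h (le_refl _) (le_refl _) _ hjs measurableSet_Icc (le_refl _)
  have hsum : (E.card : ℝ) * (128 * L * (1 / 2) ^ i * (1 / 2) ^ w) ≤
      9 * (2 * ((4 * (i + 1) : ℕ) : ℝ) * B0 * (volume (I1 b0)).toReal) := by
    refine le_trans ?_ hup
    have := Finset.sum_le_sum hlow
    rw [Finset.sum_const, nsmul_eq_mul] at this
    exact this
  have hv := L6_vol_I1 h
  have hv0 : 0 ≤ (volume (I1 b0)).toReal := ENNReal.toReal_nonneg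
  push_cast at hsum
  have hi : (0 : ℝ) ≤ i := Nat.cast_nonneg i
  have h1 : 9 * (2 * (4 * ((i : ℝ) + 1)) * B0 * (volume (I1 b0)).toReal) ≤
      9 * (8 * B0 * (2 * b0)) * (i + 1) := by
    have : 9 * (2 * (4 * ((i : ℝ) + 1)) * B0 * (volume (I1 b0)).toReal) =
        (72 * ((i : ℝ) + 1) * B0) * (volume (I1 b0)).toReal := by ring
    rw [this]
    have : 9 * (8 * B0 * (2 * b0)) * ((i : ℝ) + 1) = (72 * ((i : ℝ) + 1) * B0) * (2 * b0) := by ring
    rw [this]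
    exact mul_le_mul_of_nonneg_left hv (by positivity)
  have hp : (0 : ℝ) < (1 / 2) ^ i * (1 / 2) ^ w := by positivity
  have h2 : (E.card : ℝ) * ((1 / 2) ^ i * (1 / 2) ^ w) ≤ 9 * (8 * B0 * (2 * b0)) * (i + 1) := by
    refine le_trans ?_ (hsum.trans h1)
    have h3 : (E.card : ℝ) * (128 * L * (1 / 2) ^ i * (1 / 2) ^ w) =
        (128 * L) * ((E.card : ℝ) * ((1 / 2) ^ i * (1 / 2) ^ w)) := by ring
    rw [h3]
    have h4 : (0 : ℝ) ≤ (E.card : ℝ) * ((1 / 2) ^ i * (1 / 2) ^ w) := by positivity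
    nlinarith
  have h3 : (2 : ℝ) ^ (i + w) * ((1 / 2) ^ i * (1 / 2) ^ w) = 1 := by
    rw [← pow_add, ← mul_pow]
    norm_num
  have h5 : (E.card : ℝ) = (2 : ℝ) ^ (i + w) * ((E.card : ℝ) * ((1 / 2) ^ i * (1 / 2) ^ w)) := by
    calc (E.card : ℝ) = (E.card : ℝ) * ((2 : ℝ) ^ (i + w) * ((1 / 2) ^ i * (1 / 2) ^ w)) := by
          rw [h3, mul_one]
      _ = _ := by ring
  rw [h5]
  have hq : (0 : ℝ) < 2 ^ (i + w) := by positivity
  calc (2 : ℝ) ^ (i + w) * ((E.card : ℝ) * ((1 / 2) ^ i * (1 / 2) ^ w))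
      ≤ 2 ^ (i + w) * (9 * (8 * B0 * (2 * b0)) * (i + 1)) :=
        mul_le_mul_of_nonneg_left h2 hq.le
    _ ≤ 2 ^ (i + w) * ((9 * (8 * B0 * (2 * b0)) + 1) * (i + 1)) := by
        apply mul_le_mul_of_nonneg_left _ hq.le
        nlinarith
    _ = (9 * (8 * B0 * (2 * b0)) + 1) * (i + 1) * 2 ^ (i + w) := by ring

theorem cw3 (h : CSeq b0 c j0 B0 L) {w0 : ℕ} (hw0 : 400 * b0 ≤ 2 ^ w0) : ∃ C : ℝ, 0 < C ∧
    ∀ (i : ℕ) (d : ℕ × ℕ) (E : Finset ℕ), (∀ j ∈ E, 2 * j0 + 100 ≤ j ∧ IsWin b0 c L w0 j d ∧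
      iJ c L j d = i ∧ i < j / 100) → (E.card : ℝ) ≤ C * (i + 1) * 2 ^ i := by
  classical
  have hb := h.hb
  have hL := h.hL
  have hB := h.hB
  refine ⟨64 * B0 + 1, by positivity, ?_⟩
  intro i d E hE
  rcases E.eq_empty_or_nonempty with hE0 | ⟨j1, hj1⟩
  · rw [hE0]
    simp only [Finset.card_empty, Nat.cast_zero]
    positivity
  have hd := L6_dl_pos d
  have hlow : ∀ j ∈ E, 128 * L * (1 / 2) ^ i * dl d ≤ ∫ θ in bg d, ee c j (i + 1) θ := by
    intro j hj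
    obtain ⟨h1, h2, h4, h5⟩ := hE j hj
    have := s1 h h1 (L6_sub h hw0 h2) h2.2.2.1 (by rw [h4]; exact h5)
    rw [h4] at this
    exact this
  have hjs : ∀ j ∈ E, j0 + 4 * (i + 1) ≤ j := by
    intro j hj
    obtain ⟨h1, h2, h4, h5⟩ := hE j hj
    omega
  have hup : ∑ j ∈ E, ∫ θ in bg d, ee c j (i + 1) θ ≤
      2 * ((4 * (i + 1) : ℕ) : ℝ) * B0 * (volume (bg d)).toReal := by
    exact tel1 h (le_refl _) (le_refl _) E hjs measurableSet_Icc
      (L6_bg_sub h hw0 (hE j1 hj1).2.1)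
  have hvol : (volume (bg d)).toReal = 8 * dl d := by
    unfold bg
    rw [Real.volume_Icc, ENNReal.toReal_ofReal (by linarith)]
    ring
  have hsum : (E.card : ℝ) * (128 * L * (1 / 2) ^ i * dl d) ≤
      2 * ((4 * (i + 1) : ℕ) : ℝ) * B0 * (8 * dl d) := by
    rw [← hvol]
    refine le_trans ?_ hup
    have := Finset.sum_le_sum hlow
    rw [Finset.sum_const, nsmul_eq_mul] at this
    exact this
  push_cast at hsum
  have hi : (0 : ℝ) ≤ i := Nat.cast_nonneg i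
  have h1 : (E.card : ℝ) * (128 * L * (1 / 2) ^ i) ≤ 64 * B0 * (i + 1) := by
    have h2 : ((E.card : ℝ) * (128 * L * (1 / 2) ^ i)) * dl d ≤ (64 * B0 * (i + 1)) * dl d := by
      calc ((E.card : ℝ) * (128 * L * (1 / 2) ^ i)) * dl d
          = (E.card : ℝ) * (128 * L * (1 / 2) ^ i * dl d) := by ring
        _ ≤ 2 * (4 * ((i : ℝ) + 1)) * B0 * (8 * dl d) := hsum
        _ = (64 * B0 * (i + 1)) * dl d := by ring
    exact le_of_mul_le_mul_right h2 hd
  have h2 : (E.card : ℝ) * (1 / 2) ^ i ≤ 64 * B0 * (i + 1) := by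
    refine le_trans ?_ h1
    have h3 : (E.card : ℝ) * (128 * L * (1 / 2) ^ i) = (128 * L) * ((E.card : ℝ) * (1 / 2) ^ i) := by
      ring
    rw [h3]
    have h4 : (0 : ℝ) ≤ (E.card : ℝ) * (1 / 2) ^ i := by positivity
    nlinarith
  have h3 : (2 : ℝ) ^ i * (1 / 2) ^ i = 1 := by
    rw [← mul_pow]
    norm_num
  have hq : (0 : ℝ) < 2 ^ i := by positivity
  calc (E.card : ℝ) = (2 : ℝ) ^ i * ((E.card : ℝ) * (1 / 2) ^ i) := by
        rw [show (2 : ℝ) ^ i * ((E.card : ℝ) * (1 / 2) ^ i) =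
          (E.card : ℝ) * ((2 : ℝ) ^ i * (1 / 2) ^ i) by ring, h3, mul_one]
    _ ≤ 2 ^ i * (64 * B0 * (i + 1)) := mul_le_mul_of_nonneg_left h2 hq.le
    _ ≤ 2 ^ i * ((64 * B0 + 1) * (i + 1)) := by
        apply mul_le_mul_of_nonneg_left _ hq.le
        nlinarith
    _ = (64 * B0 + 1) * (i + 1) * 2 ^ i := by ring

end MuntzF
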