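import Pool.Agent.Lib.MP_dde81e_full.L6

/-!
Module L7B (text 3.7: CW2, part (B) below).  w = w0: from cw1.  w > w0: the parent P = anc d 1 (dl P = 2 dl d, |dc P - dc d| = dl d/2) is not good, i1 = iJ P ≤ i.
(B) (W1) fails for P: θ' ∈ st P with lev = i1, θ'' ∈ st P with lev ≥ i1+2: E1 = ee c j (i1+1): E1(θ') > 256L 2^-i1, E1(θ'') ≤ ee c j (i1+2) θ'' ≤ 128 L 2^-i1.
Tiny step η: with a, b the two points, ∫_a^b (E1(x+η) - E1(x)) dx = ∫_b^(b+η) E1 - ∫_a^(a+η) E1, of size at least 64 L 2^-i1 η; Cauchy-Schwarz gives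
 ∫_a^b (δE1)² ≥ (64 L 2^-i1 η)²/(8 dl d).  tel3.  For fixed (i1,w): # ≤ C(i1+1) dl d 4^i1 (overlap of the st P at most 10, counted with children).
-/

namespace MuntzF
open Set MeasureTheory

variable {b0 : ℝ} {c : ℕ → ℝ → ℝ} {j0 : ℕ} {B0 L : ℝ}

/-- Cauchy-Schwarz on an interval. -/
theorem l7b_cs {g : ℝ → ℝ} {a b : ℝ} (hab : a < b) (hg : ContinuousOn g (Icc a b)) :
    (∫ x in a..b, g x) ^ 2 ≤ (b - a) * ∫ x in a..b, g x ^ 2 := by
  set I := ∫ x in a..b, g x with hI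
  have hba : 0 < b - a := sub_pos.2 hab
  have hgi : IntervalIntegrable g volume a b := by
    apply ContinuousOn.intervalIntegrable
    rwa [uIcc_of_le hab.le]
  have hg2 : IntervalIntegrable (fun x => g x ^ 2) volume a b := by
    apply ContinuousOn.intervalIntegrable
    rw [uIcc_of_le hab.le]
    exact hg.pow 2
  have h0 : 0 ≤ ∫ x in a..b, (g x - I / (b - a)) ^ 2 :=
    intervalIntegral.integral_nonneg hab.le (fun x _ => sq_nonneg _)
  have h1 : ∫ x in a..b, (g x - I / (b - a)) ^ 2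
      = (∫ x in a..b, g x ^ 2) - 2 * (I / (b - a)) * I + (I / (b - a)) ^ 2 * (b - a) := by
    have : ∀ x, (g x - I / (b - a)) ^ 2
        = (g x ^ 2 - 2 * (I / (b - a)) * g x) + (I / (b - a)) ^ 2 := by
      intro x; ring
    simp_rw [this]
    rw [intervalIntegral.integral_add (hg2.sub (hgi.const_mul _)) intervalIntegrable_const,
      intervalIntegral.integral_sub hg2 (hgi.const_mul _), intervalIntegral.integral_const_mul,
      intervalIntegral.integral_const, smul_eq_mul, ← hI]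
    ring
  rw [h1] at h0
  have h2 : (∫ x in a..b, g x ^ 2) - 2 * (I / (b - a)) * I + (I / (b - a)) ^ 2 * (b - a)
      = (∫ x in a..b, g x ^ 2) - I ^ 2 / (b - a) := by
    field_simp
    ring
  rw [h2] at h0
  have h3 : I ^ 2 / (b - a) ≤ ∫ x in a..b, g x ^ 2 := by linarith
  rw [div_le_iff₀ hba] at h3
  linarith

/-- lower bound of the integral of a squared difference. -/
theorem l7b_low {F : ℝ → ℝ} {a b η M Λ : ℝ} (hab : a < b) (hη : 0 < η) (hM : 0 ≤ M)
    (hlip : ∀ x ∈ Icc a (b + η), ∀ y ∈ Icc a (b + η), |F x - F y| ≤ Λ * |x - y|) (hΛ : 0 ≤ Λ)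
    (hd : M + 2 * Λ * η ≤ |F b - F a|) :
    (η * M) ^ 2 ≤ (b - a) * ∫ x in a..b, (F (x + η) - F x) ^ 2 := by
  have hcont : ContinuousOn F (Icc a (b + η)) := by
    have : LipschitzOnWith (Real.toNNReal Λ) F (Icc a (b + η)) := by
      apply LipschitzOnWith.of_dist_le_mul
      intro x hx y hy
      rw [Real.dist_eq, Real.dist_eq, Real.coe_toNNReal Λ hΛ]
      exact hlip x hx y hy
    exact this.continuousOn
  have hi : ∀ u v, u ∈ Icc a (b + η) → v ∈ Icc a (b + η) → IntervalIntegrable F volume u v := by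
    intro u v hu hv
    apply ContinuousOn.intervalIntegrable
    apply hcont.mono
    exact (convex_Icc a (b + η)).ordConnected.uIcc_subset hu hv
  have hc2 : ContinuousOn (fun x => F (x + η)) (Icc a b) := by
    apply hcont.comp (by fun_prop)
    intro x hx
    exact ⟨by linarith [hx.1], by linarith [hx.2]⟩
  have hc3 : ContinuousOn (fun x => F (x + η) - F x) (Icc a b) :=
    hc2.sub (hcont.mono (Icc_subset_Icc le_rfl (by linarith)))
  have ha : a ∈ Icc a (b + η) := ⟨le_rfl, by linarith⟩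
  have hb : b ∈ Icc a (b + η) := ⟨by linarith, by linarith⟩
  have haη : a + η ∈ Icc a (b + η) := ⟨by linarith, by linarith⟩
  have hbη : b + η ∈ Icc a (b + η) := ⟨by linarith, le_rfl⟩
  have hI : ∫ x in a..b, (F (x + η) - F x) = (∫ x in b..(b + η), F x) - ∫ x in a..(a + η), F x := by
    rw [intervalIntegral.integral_sub]
    · rw [intervalIntegral.integral_comp_add_right (fun x => F x) η]
      have e1 := intervalIntegral.integral_add_adjacent_intervals (hi a (a + η) ha haη)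
        (hi (a + η) (b + η) haη hbη)
      have e2 := intervalIntegral.integral_add_adjacent_intervals (hi a b ha hb)
        (hi b (b + η) hb hbη)
      linarith
    · apply ContinuousOn.intervalIntegrable
      rwa [uIcc_of_le hab.le]
    · exact hi a b ha hb
  have hloc : ∀ u, a ≤ u → u ≤ b → |(∫ x in u..(u + η), F x) - η * F u| ≤ Λ * η * η := by
    intro u hu1 hu2
    have hu : u ∈ Icc a (b + η) := ⟨hu1, by linarith⟩
    have huη : u + η ∈ Icc a (b + η) := ⟨by linarith, by linarith⟩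
    have e : (∫ x in u..(u + η), F x) - η * F u = ∫ x in u..(u + η), (F x - F u) := by
      rw [intervalIntegral.integral_sub (hi u (u + η) hu huη) intervalIntegrable_const,
        intervalIntegral.integral_const, smul_eq_mul]
      ring
    rw [e]
    have := intervalIntegral.norm_integral_le_of_norm_le_const (a := u) (b := u + η)
      (C := Λ * η) (f := fun x => F x - F u) (by
        intro x hx
        rw [uIoc_of_le (by linarith)] at hx
        rw [Real.norm_eq_abs]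
        have h1 := hlip x ⟨by linarith [hx.1], by linarith [hx.2]⟩ u hu
        have h2 : |x - u| ≤ η := by rw [abs_of_nonneg (by linarith [hx.1])]; linarith [hx.2]
        exact h1.trans (mul_le_mul_of_nonneg_left h2 hΛ))
    rw [Real.norm_eq_abs] at this
    refine this.trans ?_
    rw [add_sub_cancel_left, abs_of_pos hη]
  have h1 := hloc a le_rfl hab.le
  have h2 := hloc b hab.le le_rfl
  have h3 : η * M ≤ |∫ x in a..b, (F (x + η) - F x)| := by
    rw [hI]
    have h4 : η * |F b - F a| ≤ |(∫ x in b..(b + η), F x) - ∫ x in a..(a + η), F x|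
        + Λ * η * η + Λ * η * η := by
      have h5 : η * |F b - F a| = |η * F b - η * F a| := by
        rw [← mul_sub, abs_mul, abs_of_pos hη]
      rw [h5]
      have h6 : η * F b - η * F a = ((∫ x in b..(b + η), F x) - ∫ x in a..(a + η), F x)
        - ((∫ x in b..(b + η), F x) - η * F b) + ((∫ x in a..(a + η), F x) - η * F a) := by ring
      rw [h6]
      refine (abs_add_le _ _).trans ?_
      have h7 := abs_sub ((∫ x in b..(b + η), F x) - ∫ x in a..(a + η), F x)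
        ((∫ x in b..(b + η), F x) - η * F b)
      linarith
    have h8 : η * (M + 2 * Λ * η) ≤ η * |F b - F a| := mul_le_mul_of_nonneg_left hd hη.le
    nlinarith
  have h9 := l7b_cs hab hc3
  calc (η * M) ^ 2 ≤ |∫ x in a..b, (F (x + η) - F x)| ^ 2 :=
        pow_le_pow_left₀ (mul_nonneg hη.le hM) h3 2
    _ = (∫ x in a..b, (F (x + η) - F x)) ^ 2 := sq_abs _
    _ ≤ _ := h9

/-- at most ten natural numbers in an interval of length nine. -/
theorem l7b_ten {x : ℝ} (S : Finset ℕ) (hS : ∀ k ∈ S, |x - (k + 1 / 2)| ≤ 9 / 2) : S.card ≤ 10 := by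
  rcases S.eq_empty_or_nonempty with h | h
  · rw [h]; simp
  · set m := S.min' h with hm
    have hsub : S ⊆ Finset.Icc m (m + 9) := by
      intro k hk
      rw [Finset.mem_Icc]
      refine ⟨S.min'_le k hk, ?_⟩
      have h1 := abs_le.1 (hS k hk)
      have h2 := abs_le.1 (hS m (S.min'_mem h))
      have h3 : (k : ℝ) ≤ m + 9 := by linarith [h1.1, h2.2]
      exact_mod_cast h3
    refine (Finset.card_le_card hsub).trans ?_
    rw [Nat.card_Icc]
    omega

/-- the cutoff. -/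
noncomputable def l7b_chi (b0 : ℝ) (x : ℝ) : ℝ :=
  max 0 (min 1 (16 * b0 * min (x - 1 / (2 * b0) - 1 / (16 * b0)) (2 * b0 - 1 / (16 * b0) - x)))

theorem l7b_cut {η : ℝ} (hb : 2 ≤ b0) (hη : η ≤ 1 / (32 * b0)) :
    Cut (1 / (2 * b0)) (2 * b0) η (16 * b0) (l7b_chi b0) := by
  have hb0 : 0 < b0 := by linarith
  refine ⟨?_, ?_, ?_⟩
  · intro x
    refine ⟨le_max_left _ _, ?_⟩
    unfold l7b_chi
    exact max_le (by norm_num) (min_le_left _ _)
  · intro x y
    unfold l7b_chi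
    have e1 : ∀ u v : ℝ, |max 0 (min 1 u) - max 0 (min 1 v)| ≤ |u - v| := by
      intro u v
      have t1 := abs_max_sub_max_le_max 0 (min 1 u) 0 (min 1 v)
      have t2 := abs_min_sub_min_le_max 1 u 1 v
      rw [sub_self, abs_zero, max_eq_right (abs_nonneg (min 1 u - min 1 v))] at t1
      rw [sub_self, abs_zero, max_eq_right (abs_nonneg (u - v))] at t2
      exact t1.trans t2
    refine (e1 _ _).trans ?_
    · rw [← mul_sub, abs_mul, abs_of_pos (by positivity : 0 < 16 * b0)]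
      apply mul_le_mul_of_nonneg_left _ (by positivity)
      refine (abs_min_sub_min_le_max _ _ _ _).trans ?_
      apply max_le
      · apply le_of_eq; congr 1; ring
      · apply le_of_eq
        rw [← abs_neg]; congr 1; ring
  · intro x hx
    unfold l7b_chi
    apply max_eq_left
    refine (min_le_right _ _).trans ?_
    apply mul_nonpos_of_nonneg_of_nonpos (by positivity)
    rw [mem_Icc, not_and_or, not_le, not_le] at hx
    have h1 : 1 / (16 * b0) = 2 * (1 / (32 * b0)) := by field_simp; norm_num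
    rcases hx with hx | hx
    · exact (min_le_left _ _).trans (by linarith)
    · exact (min_le_right _ _).trans (by linarith)

theorem l7b_chi_one {x : ℝ} (hb : 2 ≤ b0) (h1 : 1 / (2 * b0) + 1 / (8 * b0) ≤ x)
    (h2 : x ≤ 2 * b0 - 1 / (8 * b0)) : l7b_chi b0 x = 1 := by
  have hb0 : 0 < b0 := by linarith
  unfold l7b_chi
  have h3 : 1 / (8 * b0) = 2 * (1 / (16 * b0)) := by field_simp; norm_num
  have h4 : 1 / (16 * b0) ≤ min (x - 1 / (2 * b0) - 1 / (16 * b0)) (2 * b0 - 1 / (16 * b0) - x) :=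
    le_min (by linarith) (by linarith)
  have h5 : 1 ≤ 16 * b0 * min (x - 1 / (2 * b0) - 1 / (16 * b0)) (2 * b0 - 1 / (16 * b0) - x) := by
    calc (1 : ℝ) = 16 * b0 * (1 / (16 * b0)) := by field_simp
      _ ≤ _ := mul_le_mul_of_nonneg_left h4 (by positivity)
  rw [min_eq_left h5]
  exact max_eq_right (by norm_num)

/-- geometry of the parent of a window shorter than `2^-w0`. -/
theorem l7b_parent {w0 w k : ℕ} (hw : w0 < w) {x : ℝ} (hx : x ∈ st (anc (w, k) 1)) :
    |x - dc (w, k)| ≤ 9 / 2 * dl (w, k) ∧ |x / dl (w, k) - (k + 1 / 2)| ≤ 9 / 2 := by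
  have hw1 : 1 ≤ w := by omega
  obtain ⟨v, rfl⟩ : ∃ v, w = v + 1 := ⟨w - 1, by omega⟩
  have hdl : dl (anc (v + 1, k) 1) = 2 * dl (v + 1, k) := by
    unfold dl anc
    simp only [Nat.add_sub_cancel]
    rw [pow_succ]; ring
  have hpos : 0 < dl (v + 1, k) := by unfold dl; positivity
  have hdc : |dc (anc (v + 1, k) 1) - dc (v + 1, k)| ≤ 1 / 2 * dl (v + 1, k) := by
    have e1 : dc (anc (v + 1, k) 1) = (((k / 2 : ℕ) : ℝ) + 1 / 2) * (2 * dl (v + 1, k)) := by
      have : dc (anc (v + 1, k) 1) = (((k / 2 ^ 1 : ℕ) : ℝ) + 1 / 2) * dl (anc (v + 1, k) 1) := rfl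
      rw [this, hdl, pow_one]
    have e2 : dc (v + 1, k) = ((k : ℝ) + 1 / 2) * dl (v + 1, k) := rfl
    rw [e1, e2]
    have e3 : (((k / 2 : ℕ) : ℝ) + 1 / 2) * (2 * dl (v + 1, k)) - ((k : ℝ) + 1 / 2) * dl (v + 1, k)
        = (2 * ((k / 2 : ℕ) : ℝ) - k + 1 / 2) * dl (v + 1, k) := by ring
    rw [e3, abs_mul, abs_of_pos hpos]
    apply mul_le_mul_of_nonneg_right _ hpos.le
    have e4 : (k : ℝ) = 2 * ((k / 2 : ℕ) : ℝ) + ((k % 2 : ℕ) : ℝ) := by
      exact_mod_cast (Nat.div_add_mod k 2).symm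
    have e5 : k % 2 < 2 := Nat.mod_lt _ (by norm_num)
    have e6 : ((k % 2 : ℕ) : ℝ) ≤ 1 := by exact_mod_cast Nat.lt_succ_iff.1 e5
    have e7 : (0 : ℝ) ≤ ((k % 2 : ℕ) : ℝ) := Nat.cast_nonneg _
    rw [abs_le]
    constructor <;> linarith
  have hx' : |x - dc (anc (v + 1, k) 1)| ≤ 4 * dl (v + 1, k) := by
    unfold st at hx
    rw [hdl] at hx
    rw [abs_le]
    constructor
    · linarith [hx.1]
    · linarith [hx.2]
  have h1 : |x - dc (v + 1, k)| ≤ 9 / 2 * dl (v + 1, k) := by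
    have : x - dc (v + 1, k) = (x - dc (anc (v + 1, k) 1)) + (dc (anc (v + 1, k) 1) - dc (v + 1, k)) := by
      ring
    rw [this]
    refine (abs_add_le _ _).trans ?_
    linarith
  refine ⟨h1, ?_⟩
  have h2 : x / dl (v + 1, k) - (k + 1 / 2) = (x - dc (v + 1, k)) / dl (v + 1, k) := by
    unfold dc
    field_simp
  rw [h2, abs_div, abs_of_pos hpos, div_le_iff₀ hpos]
  exact h1

/-- the parent stays well inside `I1`. -/
theorem l7b_inside {w0 w k : ℕ} (hb : 2 ≤ b0) (hw0 : 400 * b0 ≤ 2 ^ w0) (hw : w0 < w)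
    (hm : (cell (w, k) ∩ I2 b0).Nonempty) {x : ℝ} (hx : x ∈ st (anc (w, k) 1)) :
    1 / (2 * b0) + 1 / (8 * b0) ≤ x ∧ x ≤ 2 * b0 - 1 / (8 * b0) := by
  have hb0 : 0 < b0 := by linarith
  obtain ⟨y, hy1, hy2⟩ := hm
  have h1 := (l7b_parent hw hx).1
  have hpos : 0 < dl (w, k) := by unfold dl; positivity
  have h2 : |y - dc (w, k)| ≤ 1 / 2 * dl (w, k) := by
    have e2 : dc (w, k) = ((k : ℝ) + 1 / 2) * dl (w, k) := rfl
    have a1 : (k : ℝ) * dl (w, k) ≤ y := hy1.1
    have a2 : y < ((k : ℝ) + 1) * dl (w, k) := hy1.2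
    rw [e2, abs_le]
    constructor <;> nlinarith
  have h3 : |x - y| ≤ 5 * dl (w, k) := by
    have : x - y = (x - dc (w, k)) - (y - dc (w, k)) := by ring
    rw [this]
    refine (abs_sub _ _).trans ?_
    linarith
  have h4 : dl (w, k) ≤ 1 / (400 * b0) := by
    have : dl (w, k) = 1 / 2 ^ w := by unfold dl; rw [one_div_pow]
    rw [this]
    apply one_div_le_one_div_of_le (by positivity)
    exact hw0.trans (pow_le_pow_right₀ (by norm_num) hw.le)
  have h5 := abs_le.1 h3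
  have h6 : 2 / (3 * b0) ≤ y := hy2.1
  have h7 : y ≤ 3 * b0 / 2 := hy2.2
  have h8 : 1 / (400 * b0) = (1 / 400) * (1 / b0) := by field_simp
  have h9 : 2 / (3 * b0) = (2 / 3) * (1 / b0) := by field_simp
  have h10 : 1 / (2 * b0) = (1 / 2) * (1 / b0) := by field_simp
  have h11 : 1 / (8 * b0) = (1 / 8) * (1 / b0) := by field_simp
  have h12 : 0 < 1 / b0 := by positivity
  have h13 : 1 / b0 ≤ 1 / 2 := one_div_le_one_div_of_le (by norm_num) hb
  rw [h8] at h4
  rw [h9] at h6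
  rw [h10, h11]
  constructor
  · linarith [h5.1]
  · linarith [h5.2]

theorem l7b_ee_lip (h : CSeq b0 c j0 B0 L) {j i : ℕ} (hj : j0 + 4 * i ≤ j) {x y : ℝ}
    (hx : x ∈ I1 b0) (hy : y ∈ I1 b0) : |ee c j i x - ee c j i y| ≤ 2 * L * |x - y| := by
  unfold ee
  have h1 := h.lip (j - 4 * i) (by omega) x hx y hy
  have h2 := h.lip (j + 4 * i) (by omega) x hx y hy
  have : c (j - 4 * i) x - c (j + 4 * i) x - (c (j - 4 * i) y - c (j + 4 * i) y)
    = (c (j - 4 * i) x - c (j - 4 * i) y) - (c (j + 4 * i) x - c (j + 4 * i) y) := by ring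
  rw [this]
  refine (abs_sub _ _).trans ?_
  linarith

theorem l7b_ee_cont (h : CSeq b0 c j0 B0 L) {j i : ℕ} (hj : j0 + 4 * i ≤ j) :
    ContinuousOn (ee c j i) (I1 b0) := by
  have hL := h.hL
  have : LipschitzOnWith (Real.toNNReal (2 * L)) (ee c j i) (I1 b0) := by
    apply LipschitzOnWith.of_dist_le_mul
    intro x hx y hy
    rw [Real.dist_eq, Real.dist_eq, Real.coe_toNNReal (2 * L) (by linarith)]
    exact l7b_ee_lip h hj hx hy
  exact this.continuousOn

theorem l7b_chi_cont (b0 : ℝ) : Continuous (l7b_chi b0) := by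
  unfold l7b_chi
  fun_prop

/-- the integrand. -/
noncomputable def l7b_G (b0 : ℝ) (c : ℕ → ℝ → ℝ) (i1 : ℕ) (η : ℝ) (j : ℕ) (θ : ℝ) : ℝ :=
  l7b_chi b0 θ * (ee c j (i1 + 1) (θ + η) - ee c j (i1 + 1) θ) ^ 2

theorem l7b_G_cont (h : CSeq b0 c j0 B0 L) {i1 j : ℕ} {η : ℝ} (hη : 0 < η)
    (hj : j0 + 4 * (i1 + 1) ≤ j) :
    ContinuousOn (l7b_G b0 c i1 η j) (Icc (1 / (2 * b0) + η) (2 * b0 - η)) := by
  unfold l7b_G
  have h1 := l7b_ee_cont h hj
  apply ContinuousOn.mul (l7b_chi_cont b0).continuousOn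
  apply ContinuousOn.pow
  apply ContinuousOn.sub
  · apply h1.comp (by fun_prop)
    intro x hx
    exact ⟨by linarith [hx.1], by linarith [hx.2]⟩
  · apply h1.mono
    intro x hx
    exact ⟨by linarith [hx.1], by linarith [hx.2]⟩

theorem l7b_G_nonneg (b0 : ℝ) (c : ℕ → ℝ → ℝ) (i1 : ℕ) (η : ℝ) (j : ℕ) (θ : ℝ) :
    0 ≤ l7b_G b0 c i1 η j θ := by
  unfold l7b_G l7b_chi
  exact mul_nonneg (le_max_left _ _) (sq_nonneg _)

/-- lower bound for one pair. -/
theorem l7b_one (h : CSeq b0 c j0 B0 L) {w0 : ℕ} (hw0 : 400 * b0 ≤ 2 ^ w0) {i1 w k j : ℕ} {η : ℝ}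
    (hη : 0 < η) (hη1 : η ≤ 1 / (32 * b0)) (hη2 : η ≤ (1 / 2) ^ i1)
    (hj : 2 * j0 + 100 ≤ j) (hwin : IsWin b0 c L w0 j (w, k)) (hw : w0 < w)
    (hi : iJ c L j (anc (w, k) 1) = i1) (hθ : ∃ θ ∈ st (anc (w, k) 1), i1 + 2 ≤ lev c L j θ) :
    512 * L ^ 2 * ((1 / 2) ^ i1) ^ 2 * η ^ 2 * 2 ^ w ≤
      ∫ θ in st (anc (w, k) 1), l7b_G b0 c i1 η j θ := by
  have hb := h.hb
  have hL := h.hL
  have hb0 : 0 < b0 := by linarith
  have hL0 : 0 < L := by linarith
  obtain ⟨θ2, hθ2, hl2⟩ := hθ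
  obtain ⟨θ1, hθ1, hl1⟩ := iJ_attained c L j (anc (w, k) 1)
  rw [hi] at hl1
  have hj100 : i1 + 2 ≤ j / 100 := hl2.trans (lev_le c L j θ2)
  have hjj : j0 + 4 * (i1 + 1) ≤ j := by omega
  have hin : ∀ x ∈ st (anc (w, k) 1), 1 / (2 * b0) + 1 / (8 * b0) ≤ x ∧ x ≤ 2 * b0 - 1 / (8 * b0) :=
    fun x hx => l7b_inside hb hw0 hw hwin.2.1 hx
  have h8 : 1 / (8 * b0) = 4 * (1 / (32 * b0)) := by field_simp; norm_num
  have hp32 : 0 < 1 / (32 * b0) := by positivity
  have hI1 : ∀ x ∈ st (anc (w, k) 1), x ∈ I1 b0 := by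
    intro x hx
    have := hin x hx
    exact ⟨by linarith [this.1], by linarith [this.2]⟩
  have hE1 : 256 * L * (1 / 2) ^ i1 < ee c j (i1 + 1) θ1 := by
    have := lev_lt h (j := j) (θ := θ1) (by rw [hl1]; omega)
    rw [hl1] at this
    have e : 512 * L * (1 / 2 : ℝ) ^ (i1 + 1) = 256 * L * (1 / 2) ^ i1 := by rw [pow_succ]; ring
    rwa [e] at this
  have hE2 : ee c j (i1 + 1) θ2 ≤ 128 * L * (1 / 2) ^ i1 := by
    have a1 := (ee_mono h (j := j) (i := i1 + 1) (i' := i1 + 2) (by omega) (by omega) (hI1 θ2 hθ2)).2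
    have a2 := lev_spec h hj (hI1 θ2 hθ2) hl2
    have e : 512 * L * (1 / 2 : ℝ) ^ (i1 + 2) = 128 * L * (1 / 2) ^ i1 := by
      rw [pow_add]; ring
    rw [e] at a2
    exact a1.trans a2
  have hh : 0 < (1 / 2 : ℝ) ^ i1 := by positivity
  -- the two points in order
  obtain ⟨a, b, ha, hbb, hab, hdiff⟩ : ∃ a b, a ∈ st (anc (w, k) 1) ∧ b ∈ st (anc (w, k) 1) ∧ a ≤ b ∧
      128 * L * (1 / 2) ^ i1 ≤ |ee c j (i1 + 1) b - ee c j (i1 + 1) a| := by
    have hd : 128 * L * (1 / 2) ^ i1 ≤ ee c j (i1 + 1) θ1 - ee c j (i1 + 1) θ2 := by linarith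
    rcases le_total θ1 θ2 with h12 | h12
    · refine ⟨θ1, θ2, hθ1, hθ2, h12, ?_⟩
      rw [abs_sub_comm]
      exact hd.trans (le_abs_self _)
    · exact ⟨θ2, θ1, hθ2, hθ1, h12, hd.trans (le_abs_self _)⟩
  have hab' : a < b := by
    rcases hab.lt_or_eq with h1 | h1
    · exact h1
    · exfalso
      rw [h1, sub_self, abs_zero] at hdiff
      have : 0 < 128 * L * (1 / 2 : ℝ) ^ i1 := by positivity
      linarith
  have hlen : b - a ≤ 8 * dl (w, k) := by
    have hw1 : 1 ≤ w := by omega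
    have hdl : dl (anc (w, k) 1) = 2 * dl (w, k) := by
      obtain ⟨v, rfl⟩ : ∃ v, w = v + 1 := ⟨w - 1, by omega⟩
      unfold dl anc
      simp only [Nat.add_sub_cancel]
      rw [pow_succ]; ring
    have a1 := ha.1
    have a2 := hbb.2
    rw [hdl] at a1 a2
    linarith
  have hsubI : Icc a (b + η) ⊆ I1 b0 := by
    intro x hx
    have a1 := (hin a ha).1
    have a2 := (hin b hbb).2
    exact ⟨by linarith [hx.1], by linarith [hx.2]⟩
  have key := l7b_low (F := ee c j (i1 + 1)) (a := a) (b := b) (η := η) (M := 64 * L * (1 / 2) ^ i1)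
    (Λ := 2 * L) hab' hη (by positivity)
    (fun x hx y hy => l7b_ee_lip h hjj (hsubI hx) (hsubI hy)) (by positivity)
    (by
      refine le_trans ?_ hdiff
      nlinarith)
  -- pass to the set integral
  have hGst : IntegrableOn (l7b_G b0 c i1 η j) (st (anc (w, k) 1)) := by
    unfold st
    apply ContinuousOn.integrableOn_Icc
    apply (l7b_G_cont h hη hjj).mono
    intro x hx
    have := hin x hx
    exact ⟨by linarith [this.1], by linarith [this.2]⟩
  have hab_sub : Icc a b ⊆ st (anc (w, k) 1) := by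
    intro x hx
    exact ⟨ha.1.trans hx.1, hx.2.trans hbb.2⟩
  have h2 : ∫ x in a..b, (ee c j (i1 + 1) (x + η) - ee c j (i1 + 1) x) ^ 2
      ≤ ∫ θ in st (anc (w, k) 1), l7b_G b0 c i1 η j θ := by
    rw [intervalIntegral.integral_of_le hab, ← integral_Icc_eq_integral_Ioc]
    have h3 : ∫ x in Icc a b, (ee c j (i1 + 1) (x + η) - ee c j (i1 + 1) x) ^ 2
        = ∫ x in Icc a b, l7b_G b0 c i1 η j x := by
      apply setIntegral_congr_fun measurableSet_Icc
      intro x hx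
      have := hin x (hab_sub hx)
      show _ = l7b_G b0 c i1 η j x
      unfold l7b_G
      rw [l7b_chi_one hb this.1 this.2, one_mul]
    rw [h3]
    apply setIntegral_mono_set hGst
    · exact Filter.Eventually.of_forall (fun x => l7b_G_nonneg b0 c i1 η j x)
    · exact Filter.Eventually.of_forall hab_sub
  have hI0 : 0 ≤ ∫ θ in st (anc (w, k) 1), l7b_G b0 c i1 η j θ :=
    integral_nonneg (fun x => l7b_G_nonneg b0 c i1 η j x)
  have hdl2 : dl (w, k) * 2 ^ w = 1 := by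
    unfold dl
    rw [← mul_pow]
    norm_num
  have h4 : (η * (64 * L * (1 / 2) ^ i1)) ^ 2
      ≤ 8 * dl (w, k) * ∫ θ in st (anc (w, k) 1), l7b_G b0 c i1 η j θ := by
    refine key.trans ?_
    refine (mul_le_mul_of_nonneg_left h2 (by linarith)).trans ?_
    exact mul_le_mul_of_nonneg_right hlen hI0
  have h5 : 512 * L ^ 2 * ((1 / 2) ^ i1) ^ 2 * η ^ 2 * 2 ^ w
      = (η * (64 * L * (1 / 2) ^ i1)) ^ 2 / 8 * 2 ^ w := by ring
  rw [h5]
  have h6 : (η * (64 * L * (1 / 2) ^ i1)) ^ 2 / 8 * 2 ^ w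
      ≤ (8 * dl (w, k) * ∫ θ in st (anc (w, k) 1), l7b_G b0 c i1 η j θ) / 8 * 2 ^ w := by
    gcongr
  refine h6.trans (le_of_eq ?_)
  have : (8 * dl (w, k) * ∫ θ in st (anc (w, k) 1), l7b_G b0 c i1 η j θ) / 8 * 2 ^ w
    = (dl (w, k) * 2 ^ w) * ∫ θ in st (anc (w, k) 1), l7b_G b0 c i1 η j θ := by ring
  rw [this, hdl2, one_mul]

theorem cw2b (h : CSeq b0 c j0 B0 L) {w0 : ℕ} (hw0 : 400 * b0 ≤ 2 ^ w0) : ∃ C : ℝ, 0 < C ∧
    ∀ (i1 w : ℕ) (E : Finset (ℕ × (ℕ × ℕ))), (∀ e ∈ E, 2 * j0 + 100 ≤ e.1 ∧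
      IsWin b0 c L w0 e.1 e.2 ∧ w0 < w ∧ e.2.1 = w ∧
      iJ c L e.1 (anc e.2 1) = i1 ∧ (∃ θ ∈ st (anc e.2 1), i1 + 2 ≤ lev c L e.1 θ)) →
    (E.card : ℝ) ≤ C * (i1 + 1) * 4 ^ i1 / 2 ^ w := by
  classical
  have hb := h.hb
  have hL := h.hL
  have hB := h.hB
  have hb0 : 0 < b0 := by linarith
  have hL0 : 0 < L := by linarith
  refine ⟨2 * L ^ 2 * (2 * b0) + 8 * L * (16 * b0) * (2 * B0 * (2 * b0)), by positivity, ?_⟩
  intro i1 w E hE
  set D := 2 * L ^ 2 * (2 * b0) + 8 * L * (16 * b0) * (2 * B0 * (2 * b0)) with hD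
  have hD0 : 0 < D := by positivity
  have hh0 : 0 < (1 / 2 : ℝ) ^ i1 := by positivity
  have hh1 : (1 / 2 : ℝ) ^ i1 ≤ 1 := pow_le_one₀ (by norm_num) (by norm_num)
  set η : ℝ := (1 / 2) ^ i1 / (32 * b0) with hη
  have hη0 : 0 < η := by positivity
  have hη1 : η ≤ 1 / (32 * b0) := by
    rw [hη]
    gcongr
  have hη2 : η ≤ (1 / 2) ^ i1 := by
    rw [hη]
    apply div_le_self hh0.le
    linarith
  have hη3 : 4 * η ≤ 1 := by
    have : 1 / (32 * b0) ≤ 1 / 64 := one_div_le_one_div_of_le (by norm_num) (by linarith)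
    linarith
  have hw1 : ∀ e ∈ E, j0 + 4 * (i1 + 1) ≤ e.1 := by
    intro e he
    obtain ⟨h1, -, -, -, -, θ, -, hl⟩ := hE e he
    have := hl.trans (lev_le c L e.1 θ)
    omega
  have hJ : ∀ e ∈ E, st (anc e.2 1) ⊆ Icc (1 / (2 * b0) + η) (2 * b0 - η) := by
    intro e he x hx
    obtain ⟨h1, h2, h3, h4, h5, h6⟩ := hE e he
    obtain ⟨j, w', k⟩ := e
    simp only at h4
    subst h4
    have := l7b_inside hb hw0 h3 h2.2.1 hx
    have h8 : 1 / (8 * b0) = 4 * (1 / (32 * b0)) := by field_simp; norm_num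
    have hp32 : 0 < 1 / (32 * b0) := by positivity
    exact ⟨by linarith [this.1], by linarith [this.2]⟩
  have hlow : ∀ e ∈ E, 512 * L ^ 2 * ((1 / 2) ^ i1) ^ 2 * η ^ 2 * 2 ^ w ≤
      ∫ θ in st (anc e.2 1), l7b_G b0 c i1 η e.1 θ := by
    intro e he
    obtain ⟨h1, h2, h3, h4, h5, h6⟩ := hE e he
    obtain ⟨j, w', k⟩ := e
    simp only at h4
    subst h4
    exact l7b_one h hw0 hη0 hη1 hη2 h1 h2 h3 h5 h6
  have hint : ∀ e ∈ E, IntegrableOn (l7b_G b0 c i1 η e.1) (Icc (1 / (2 * b0) + η) (2 * b0 - η)) :=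
    fun e he => (l7b_G_cont h hη0 (hw1 e he)).integrableOn_Icc
  -- overlap
  have hup : ∑ e ∈ E, ∫ θ in st (anc e.2 1), l7b_G b0 c i1 η e.1 θ
      ≤ 10 * ∑ j ∈ E.image Prod.fst, ∫ θ in Icc (1 / (2 * b0) + η) (2 * b0 - η), l7b_G b0 c i1 η j θ := by
    rw [← Finset.sum_fiberwise_of_maps_to (g := Prod.fst) (t := E.image Prod.fst)
      (fun e he => Finset.mem_image_of_mem _ he), Finset.mul_sum]
    apply Finset.sum_le_sum
    intro j hj
    obtain ⟨e0, he0, rfl⟩ := Finset.mem_image.1 hj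
    have e1 : ∑ e ∈ E with e.1 = e0.1, ∫ θ in st (anc e.2 1), l7b_G b0 c i1 η e.1 θ
        = ∫ θ in Icc (1 / (2 * b0) + η) (2 * b0 - η),
          ∑ e ∈ E with e.1 = e0.1, (st (anc e.2 1)).indicator (l7b_G b0 c i1 η e0.1) θ := by
      rw [integral_finsetSum]
      · apply Finset.sum_congr rfl
        intro e he
        rw [Finset.mem_filter] at he
        have hms : MeasurableSet (st (anc e.2 1)) := measurableSet_Icc
        rw [setIntegral_indicator hms, inter_eq_right.2 (hJ e he.1), he.2]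
      · intro e he
        have hms : MeasurableSet (st (anc e.2 1)) := measurableSet_Icc
        exact (hint e0 he0).indicator hms
    rw [e1, ← integral_const_mul]
    apply setIntegral_mono_on
    · apply integrable_finsetSum
      intro e he
      have hms : MeasurableSet (st (anc e.2 1)) := measurableSet_Icc
      exact (hint e0 he0).indicator hms
    · exact (hint e0 he0).const_mul 10
    · exact measurableSet_Icc
    · intro x hx
      have e2 : ∑ e ∈ E with e.1 = e0.1, (st (anc e.2 1)).indicator (l7b_G b0 c i1 η e0.1) x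
          = ∑ e ∈ (E.filter (fun e => e.1 = e0.1)).filter (fun e => x ∈ st (anc e.2 1)),
            l7b_G b0 c i1 η e0.1 x := by
        rw [Finset.sum_filter (s := E.filter (fun e => e.1 = e0.1))]
        apply Finset.sum_congr rfl
        intro e he
        by_cases hx' : x ∈ st (anc e.2 1)
        · rw [indicator_of_mem hx', if_pos hx']
        · rw [indicator_of_notMem hx', if_neg hx']
      rw [e2, Finset.sum_const, nsmul_eq_mul]
      apply mul_le_mul_of_nonneg_right _ (l7b_G_nonneg b0 c i1 η e0.1 x)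
      have e3 : ((E.filter (fun e => e.1 = e0.1)).filter (fun e => x ∈ st (anc e.2 1))).card ≤ 10 := by
        set S := (E.filter (fun e => e.1 = e0.1)).filter (fun e => x ∈ st (anc e.2 1)) with hS
        have hinj : Set.InjOn (fun e : ℕ × (ℕ × ℕ) => e.2.2) S := by
          intro e he f hf hef
          rw [hS] at he hf
          simp only [Finset.coe_filter, Finset.mem_filter, mem_ofPred_eq] at he hf
          have g1 := (hE e he.1.1).2.2.2.1
          have g2 := (hE f hf.1.1).2.2.2.1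
          apply Prod.ext
          · rw [he.1.2, hf.1.2]
          · apply Prod.ext
            · rw [g1, g2]
            · exact hef
        rw [← Finset.card_image_of_injOn hinj]
        apply l7b_ten (x := x / dl (w, 0))
        intro k hk
        rw [Finset.mem_image] at hk
        obtain ⟨e, he, hek⟩ := hk
        rw [hS] at he
        simp only [Finset.mem_filter] at he
        obtain ⟨h1, h2, h3, h4, h5, h6⟩ := hE e he.1.1
        have h7 := he.2
        obtain ⟨j, w', k'⟩ := e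
        simp only at h4 hek
        subst h4
        subst hek
        exact (l7b_parent h3 h7).2
      exact_mod_cast e3
  have htel := tel3 h (Q := 4 * (i1 + 1)) (p := 4 * (i1 + 1)) (q := 4 * (i1 + 1)) le_rfl le_rfl
    (E.image Prod.fst) (by
      intro j hj
      obtain ⟨e0, he0, rfl⟩ := Finset.mem_image.1 hj
      exact hw1 e0 he0) hη0 hη3 (l7b_cut hb hη1) (by positivity)
  have htel' : ∑ j ∈ E.image Prod.fst, ∫ θ in Icc (1 / (2 * b0) + η) (2 * b0 - η), l7b_G b0 c i1 η j θ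
      ≤ 4 * (i1 + 1) * D * η ^ 2 := by
    refine (le_of_eq ?_).trans (htel.trans (le_of_eq ?_))
    · rfl
    · rw [hD]; push_cast; ring
  have hsum : (E.card : ℝ) * (512 * L ^ 2 * ((1 / 2) ^ i1) ^ 2 * η ^ 2 * 2 ^ w)
      ≤ 10 * (4 * (i1 + 1) * D * η ^ 2) := by
    calc (E.card : ℝ) * (512 * L ^ 2 * ((1 / 2) ^ i1) ^ 2 * η ^ 2 * 2 ^ w)
        = ∑ e ∈ E, (512 * L ^ 2 * ((1 / 2) ^ i1) ^ 2 * η ^ 2 * 2 ^ w) := by
          rw [Finset.sum_const, nsmul_eq_mul]
      _ ≤ ∑ e ∈ E, ∫ θ in st (anc e.2 1), l7b_G b0 c i1 η e.1 θ := Finset.sum_le_sum hlow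
      _ ≤ _ := hup
      _ ≤ _ := mul_le_mul_of_nonneg_left htel' (by norm_num)
  have h4 : ((1 / 2 : ℝ) ^ i1) ^ 2 * 4 ^ i1 = 1 := by
    rw [← pow_mul, mul_comm i1 2, pow_mul, ← mul_pow]
    norm_num
  rw [le_div_iff₀ (by positivity)]
  have h5 : 0 < 512 * L ^ 2 * ((1 / 2 : ℝ) ^ i1) ^ 2 * η ^ 2 := by positivity
  have h6 : (E.card : ℝ) * 2 ^ w * (512 * L ^ 2 * ((1 / 2 : ℝ) ^ i1) ^ 2 * η ^ 2)
      ≤ D * (i1 + 1) * 4 ^ i1 * (512 * L ^ 2 * ((1 / 2 : ℝ) ^ i1) ^ 2 * η ^ 2) := by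
    have e7 : D * (i1 + 1) * 4 ^ i1 * (512 * L ^ 2 * ((1 / 2 : ℝ) ^ i1) ^ 2 * η ^ 2)
        = 512 * L ^ 2 * (D * (i1 + 1) * η ^ 2) * (((1 / 2 : ℝ) ^ i1) ^ 2 * 4 ^ i1) := by ring
    rw [e7, h4, mul_one]
    have e8 : (E.card : ℝ) * 2 ^ w * (512 * L ^ 2 * ((1 / 2 : ℝ) ^ i1) ^ 2 * η ^ 2)
      = (E.card : ℝ) * (512 * L ^ 2 * ((1 / 2) ^ i1) ^ 2 * η ^ 2 * 2 ^ w) := by ring
    rw [e8]
    refine hsum.trans ?_
    have e9 : 0 ≤ D * (i1 + 1) * η ^ 2 := by positivity
    have e10 : 1 ≤ L ^ 2 := one_le_pow₀ hL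
    nlinarith
  exact le_of_mul_le_mul_right h6 h5

end MuntzF
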