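import Pool.Agent.Lib.MP_dde81e_full.L7A
import Pool.Agent.Lib.MP_dde81e_full.L7B

/-!
Module L7 (text 3.7: CW2, conclusion from L7A, L7B and cw1).  w = w0: from cw1.  w > w0: the parent P = anc d 1 (dl P = 2 dl d, |dc P - dc d| = dl d/2) is not good, i1 = iJ P ≤ i.
(A) (W2) fails for P: m = c_(j+4 i1): sd (8 dl d) m (dc P) > 8L 2^-i1, so by sd_dom sd (16 dl d) m θ ≥ 8L 2^-i1 for |θ-dc P| ≤ 8 dl d, in particular on bg d.  f = c_(j-4(i+1)) ≥ m ≥ g = c_(j+4(i+1)):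
 (f-g) sd m ≤ (f-m)(sd f + sd m) + (m-g)(sd m + sd g).  χ = 1 on the 60·2^-w0-neighbourhood... of I2, supported inside I1 with margin 32·2^-w0 ≥ 2w (w = 16 dl d), Cχ = C(b0).
 For fixed (i,i1,w): sum over the pairs of ∫_{bg d} χ(f-g) sd m ≥ #·8L 2^-i1·128L 2^-i dl d ≤ 9·2·(tel2 bound) ≤ C(i+1) (16 dl d)^2.  (m = c_(j+4i1) = c_(j-p) is not of the form needed for the pair (m,g)?
   tel2 is stated with c(j-p) and c(j+q): for the pair (m,g) shift the scales: j' = j+4i1, m = c_(j'-0), g = c_(j'+q'), q' = 4(i+1)-4i1; for (f,m): p = 4(i+1), q = 4i1.)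
 Sum over i1 ≤ i.
(B) (W1) fails for P: θ' ∈ st P with lev = i1, θ'' ∈ st P with lev ≥ i1+2: E1 = ee c j (i1+1): E1(θ') > 256L 2^-i1, E1(θ'') ≤ ee c j (i1+2) θ'' ≤ 128 L 2^-i1.  Tiny step w: Cauchy-Schwarz along θ'+t+kw (k < K, Kw ≤ 8 dl d+w), average over t ∈ [0,w]:
 ∫_{st P + [0,2w]} (δE1)² / w² ≥ c (L2^-i1)²/dl d.  tel3.  For fixed (i1,w): # ≤ C(i1+1) dl d 4^i1 (each P has two children; overlap of the st P at most 5).  Sum over i1 ≤ i.
-/

namespace MuntzF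
open Set MeasureTheory

variable {b0 : ℝ} {c : ℕ → ℝ → ℝ} {j0 : ℕ} {B0 L : ℝ}

theorem cw2 (h : CSeq b0 c j0 B0 L) {w0 : ℕ} (hw0 : 400 * b0 ≤ 2 ^ w0) : ∃ C : ℝ, 0 < C ∧
    ∀ (i w : ℕ) (E : Finset (ℕ × (ℕ × ℕ))), (∀ e ∈ E, 2 * j0 + 100 ≤ e.1 ∧ IsWin b0 c L w0 e.1 e.2 ∧
      e.2.1 = w ∧ iJ c L e.1 e.2 = i ∧ i < e.1 / 100) → (E.card : ℝ) ≤ C * (i + 1) * 4 ^ i / 2 ^ w := by
  classical
  obtain ⟨C1, hC1, H1⟩ := cw1 h hw0
  obtain ⟨CA, hCA, HA⟩ := cw2a h hw0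
  obtain ⟨CB, hCB, HB⟩ := cw2b h hw0
  refine ⟨C1 * 4 ^ w0 + (2 * CA + 2 * CB), by positivity, ?_⟩
  intro i w E hE
  rcases lt_trichotomy w w0 with hw | hw | hw
  · have : E = ∅ := by
      rw [Finset.eq_empty_iff_forall_notMem]
      intro e he
      obtain ⟨-, h2, h3, -⟩ := hE e he
      have := h2.1
      omega
    rw [this]
    simp only [Finset.card_empty, Nat.cast_zero]
    positivity
  · have h1 := H1 i w E hE
    refine le_trans h1 ?_
    rw [le_div_iff₀ (by positivity)]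
    have h2 : C1 * ((i : ℝ) + 1) * 2 ^ (i + w) * 2 ^ w ≤ C1 * 4 ^ w0 * ((i : ℝ) + 1) * 4 ^ i := by
      have h3 : (2 : ℝ) ^ (i + w) * 2 ^ w = 4 ^ w0 * 2 ^ i := by
        rw [hw, pow_add, show (4 : ℝ) = 2 * 2 by norm_num, mul_pow]; ring
      have h4 : (2 : ℝ) ^ i ≤ 4 ^ i := by gcongr; norm_num
      calc C1 * ((i : ℝ) + 1) * 2 ^ (i + w) * 2 ^ w
          = C1 * ((i : ℝ) + 1) * (2 ^ (i + w) * 2 ^ w) := by ring
        _ = C1 * ((i : ℝ) + 1) * (4 ^ w0 * 2 ^ i) := by rw [h3]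
        _ ≤ C1 * ((i : ℝ) + 1) * (4 ^ w0 * 4 ^ i) := by gcongr
        _ = _ := by ring
    refine le_trans h2 ?_
    have h5 : 0 ≤ (2 * CA + 2 * CB) * ((i : ℝ) + 1) * 4 ^ i := by positivity
    nlinarith
  · set EA : ℕ → Finset (ℕ × (ℕ × ℕ)) := fun i1 => E.filter (fun e =>
      iJ c L e.1 (anc e.2 1) = i1 ∧
      8 * L * (1 / 2) ^ i1 < 2 * c (e.1 + 4 * i1) (dc (anc e.2 1))
        - c (e.1 + 4 * i1) (dc (anc e.2 1) - 4 * dl (anc e.2 1))
        - c (e.1 + 4 * i1) (dc (anc e.2 1) + 4 * dl (anc e.2 1))) with hEA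
    set EB : ℕ → Finset (ℕ × (ℕ × ℕ)) := fun i1 => E.filter (fun e =>
      iJ c L e.1 (anc e.2 1) = i1 ∧ ∃ θ ∈ st (anc e.2 1), i1 + 2 ≤ lev c L e.1 θ) with hEB
    have hsub : E ⊆ (Finset.range (i + 1)).biUnion (fun i1 => EA i1 ∪ EB i1) := by
      intro e he
      obtain ⟨h1, h2, h3, h4, h5⟩ := hE e he
      have hd : 1 ≤ e.2.1 := by omega
      obtain ⟨-, hst, -⟩ := anc_sub e.2 hd
      obtain ⟨θ, hθ, hθl⟩ := iJ_attained c L e.1 e.2
      have hi1 : iJ c L e.1 (anc e.2 1) ≤ i := by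
        have := iJ_le c L e.1 (anc e.2 1) (hst hθ)
        omega
      have hng : ¬ good c L e.1 (anc e.2 1) := h2.2.2.2 1 le_rfl (by omega)
      rw [Finset.mem_biUnion]
      refine ⟨iJ c L e.1 (anc e.2 1), Finset.mem_range.2 (by omega), ?_⟩
      rw [Finset.mem_union]
      by_cases hW : ∀ θ ∈ st (anc e.2 1), lev c L e.1 θ ≤ iJ c L e.1 (anc e.2 1) + 1
      · left
        rw [hEA]
        simp only [Finset.mem_filter]
        refine ⟨he, trivial, ?_⟩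
        by_contra hcon
        exact hng ⟨hW, not_lt.1 hcon⟩
      · right
        rw [hEB]
        simp only [Finset.mem_filter]
        refine ⟨he, trivial, ?_⟩
        push Not at hW
        obtain ⟨θ, hθ1, hθ2⟩ := hW
        exact ⟨θ, hθ1, by omega⟩
    have hcard : (E.card : ℝ) ≤ ∑ i1 ∈ Finset.range (i + 1),
        (CA * (i + 1) * 2 ^ (i + i1) / 2 ^ w + CB * (i1 + 1) * 4 ^ i1 / 2 ^ w) := by
      have h1 : E.card ≤ ∑ i1 ∈ Finset.range (i + 1), ((EA i1).card + (EB i1).card) := by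
        refine le_trans (Finset.card_le_card hsub) (le_trans Finset.card_biUnion_le ?_)
        exact Finset.sum_le_sum (fun i1 _ => Finset.card_union_le _ _)
      have h2 : (E.card : ℝ) ≤ ∑ i1 ∈ Finset.range (i + 1), (((EA i1).card : ℝ) + (EB i1).card) := by
        exact_mod_cast h1
      refine le_trans h2 (Finset.sum_le_sum ?_)
      intro i1 hi1
      have hi1' : i1 ≤ i := by have := Finset.mem_range.1 hi1; omega
      apply add_le_add
      · apply HA i i1 w (EA i1) hi1'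
        intro e he
        rw [hEA] at he
        simp only [Finset.mem_filter] at he
        obtain ⟨he1, he2, he3⟩ := he
        obtain ⟨h1, h2, h3, h4, h5⟩ := hE e he1
        exact ⟨h1, h2, hw, h3, h4, h5, he2, he3⟩
      · apply HB i1 w (EB i1)
        intro e he
        rw [hEB] at he
        simp only [Finset.mem_filter] at he
        obtain ⟨he1, he2, he3⟩ := he
        obtain ⟨h1, h2, h3, h4, h5⟩ := hE e he1
        exact ⟨h1, h2, hw, h3, he2, he3⟩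
    refine le_trans hcard ?_
    have hg2 : ∀ n : ℕ, ∑ k ∈ Finset.range (n + 1), (2 : ℝ) ^ k ≤ 2 * 2 ^ n := by
      intro n
      induction n with
      | zero => norm_num
      | succ n ih => rw [Finset.sum_range_succ, pow_succ]; linarith
    have hg4 : ∀ n : ℕ, ∑ k ∈ Finset.range (n + 1), (4 : ℝ) ^ k ≤ 2 * 4 ^ n := by
      intro n
      induction n with
      | zero => norm_num
      | succ n ih =>
        rw [Finset.sum_range_succ, pow_succ]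
        have : (0 : ℝ) < 4 ^ n := by positivity
        linarith
    have hA : ∑ i1 ∈ Finset.range (i + 1), CA * ((i : ℝ) + 1) * 2 ^ (i + i1) / 2 ^ w
        ≤ 2 * CA * (i + 1) * 4 ^ i / 2 ^ w := by
      have h1 : ∑ i1 ∈ Finset.range (i + 1), CA * ((i : ℝ) + 1) * 2 ^ (i + i1) / 2 ^ w
          = CA * ((i : ℝ) + 1) * 2 ^ i / 2 ^ w * ∑ i1 ∈ Finset.range (i + 1), (2 : ℝ) ^ i1 := by
        rw [Finset.mul_sum]
        refine Finset.sum_congr rfl (fun i1 _ => ?_)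
        rw [pow_add]; ring
      rw [h1]
      have h4 : (4 : ℝ) ^ i = 2 ^ i * 2 ^ i := by
        rw [← mul_pow]; norm_num
      calc CA * ((i : ℝ) + 1) * 2 ^ i / 2 ^ w * ∑ i1 ∈ Finset.range (i + 1), (2 : ℝ) ^ i1
          ≤ CA * ((i : ℝ) + 1) * 2 ^ i / 2 ^ w * (2 * 2 ^ i) := by
            apply mul_le_mul_of_nonneg_left (hg2 i) (by positivity)
        _ = _ := by rw [h4]; ring
    have hB : ∑ i1 ∈ Finset.range (i + 1), CB * ((i1 : ℝ) + 1) * 4 ^ i1 / 2 ^ w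
        ≤ 2 * CB * (i + 1) * 4 ^ i / 2 ^ w := by
      have h1 : ∑ i1 ∈ Finset.range (i + 1), CB * ((i1 : ℝ) + 1) * 4 ^ i1 / 2 ^ w
          ≤ ∑ i1 ∈ Finset.range (i + 1), CB * ((i : ℝ) + 1) / 2 ^ w * (4 : ℝ) ^ i1 := by
        refine Finset.sum_le_sum (fun i1 hi1 => ?_)
        have hi1' : (i1 : ℝ) ≤ i := by
          have := Finset.mem_range.1 hi1
          exact_mod_cast (by omega : i1 ≤ i)
        calc CB * ((i1 : ℝ) + 1) * 4 ^ i1 / 2 ^ w ≤ CB * ((i : ℝ) + 1) * 4 ^ i1 / 2 ^ w := by gcongr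
          _ = _ := by ring
      refine le_trans h1 ?_
      rw [← Finset.mul_sum]
      calc CB * ((i : ℝ) + 1) / 2 ^ w * ∑ i1 ∈ Finset.range (i + 1), (4 : ℝ) ^ i1
          ≤ CB * ((i : ℝ) + 1) / 2 ^ w * (2 * 4 ^ i) := by
            apply mul_le_mul_of_nonneg_left (hg4 i) (by positivity)
        _ = _ := by ring
    rw [Finset.sum_add_distrib]
    have hfin : 2 * CA * ((i : ℝ) + 1) * 4 ^ i / 2 ^ w + 2 * CB * (i + 1) * 4 ^ i / 2 ^ w
        ≤ (C1 * 4 ^ w0 + (2 * CA + 2 * CB)) * (i + 1) * 4 ^ i / 2 ^ w := by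
      have h5 : 0 ≤ C1 * 4 ^ w0 * ((i : ℝ) + 1) * 4 ^ i / 2 ^ w := by positivity
      have h6 : (C1 * 4 ^ w0 + (2 * CA + 2 * CB)) * ((i : ℝ) + 1) * 4 ^ i / 2 ^ w
          = C1 * 4 ^ w0 * ((i : ℝ) + 1) * 4 ^ i / 2 ^ w
            + (2 * CA * ((i : ℝ) + 1) * 4 ^ i / 2 ^ w + 2 * CB * (i + 1) * 4 ^ i / 2 ^ w) := by ring
      linarith
    linarith

end MuntzF
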