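import Pool.Agent.Lib.MP_dde81e_full.L6

/-!
Module L7A (text 3.7: CW2, part (A) below).  w = w0: from cw1.  w > w0: the parent P = anc d 1 (dl P = 2 dl d, |dc P - dc d| = dl d/2) is not good, i1 = iJ P ≤ i.
(A) (W2) fails for P: m = c_(j+4 i1): sd (8 dl d) m (dc P) > 8L 2^-i1, so by sd_dom sd (16 dl d) m θ ≥ 8L 2^-i1 for |θ-dc P| ≤ 8 dl d, in particular on bg d.  f = c_(j-4(i+1)) ≥ m ≥ g = c_(j+4(i+1)):
 (f-g) sd m ≤ (f-m)(sd f + sd m) + (m-g)(sd m + sd g).
-/

namespace MuntzF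
open Set MeasureTheory

variable {b0 : ℝ} {c : ℕ → ℝ → ℝ} {j0 : ℕ} {B0 L : ℝ}

/-- the cutoff function. -/
noncomputable def chiA (b0 : ℝ) (θ : ℝ) : ℝ :=
  max 0 (min 1 (min (10 * b0 * (θ - 11 / (20 * b0))) (10 * b0 * (2 * b0 - 1 / (20 * b0) - θ))))

theorem chiA_cut (hb : 2 ≤ b0) {w : ℝ} (hw : 2 * w ≤ 1 / (20 * b0)) :
    Cut (1 / (2 * b0)) (2 * b0) w (10 * b0) (chiA b0) := by
  have hb0 : 0 < b0 := by linarith
  refine ⟨?_, ?_, ?_⟩
  · intro x
    unfold chiA
    constructor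
    · exact le_max_left _ _
    · apply max_le (by norm_num)
      exact min_le_left _ _
  · intro x y
    unfold chiA
    have e1 : |10 * b0 * (x - 11 / (20 * b0)) - 10 * b0 * (y - 11 / (20 * b0))| =
        10 * b0 * |x - y| := by
      rw [show 10 * b0 * (x - 11 / (20 * b0)) - 10 * b0 * (y - 11 / (20 * b0)) =
        (10 * b0) * (x - y) by ring, abs_mul, abs_of_pos (by positivity : 0 < 10 * b0)]
    have e2 : |10 * b0 * (2 * b0 - 1 / (20 * b0) - x) - 10 * b0 * (2 * b0 - 1 / (20 * b0) - y)| =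
        10 * b0 * |x - y| := by
      rw [show 10 * b0 * (2 * b0 - 1 / (20 * b0) - x) - 10 * b0 * (2 * b0 - 1 / (20 * b0) - y) =
        (10 * b0) * (y - x) by ring, abs_mul, abs_of_pos (by positivity : 0 < 10 * b0), abs_sub_comm]
    have h1 := abs_min_sub_min_le_max (10 * b0 * (x - 11 / (20 * b0)))
      (10 * b0 * (2 * b0 - 1 / (20 * b0) - x)) (10 * b0 * (y - 11 / (20 * b0)))
      (10 * b0 * (2 * b0 - 1 / (20 * b0) - y))
    rw [e1, e2, max_self] at h1
    have h2 := abs_min_sub_min_le_max 1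
      (min (10 * b0 * (x - 11 / (20 * b0))) (10 * b0 * (2 * b0 - 1 / (20 * b0) - x))) 1
      (min (10 * b0 * (y - 11 / (20 * b0))) (10 * b0 * (2 * b0 - 1 / (20 * b0) - y)))
    have h3 := abs_max_sub_max_le_max 0
      (min 1 (min (10 * b0 * (x - 11 / (20 * b0))) (10 * b0 * (2 * b0 - 1 / (20 * b0) - x)))) 0
      (min 1 (min (10 * b0 * (y - 11 / (20 * b0))) (10 * b0 * (2 * b0 - 1 / (20 * b0) - y))))
    have h0 : 0 ≤ 10 * b0 * |x - y| := by positivity
    rw [sub_self, abs_zero] at h2 h3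
    refine h3.trans (max_le h0 (h2.trans (max_le h0 h1)))
  · intro x hx
    rw [mem_Icc, not_and_or, not_le, not_le] at hx
    unfold chiA
    apply max_eq_left
    apply le_trans (min_le_right _ _)
    rcases hx with hx | hx
    · apply le_trans (min_le_left _ _)
      apply mul_nonpos_of_nonneg_of_nonpos (by positivity)
      have : 1 / (2 * b0) + 1 / (20 * b0) = 11 / (20 * b0) := by
        field_simp
        norm_num
      linarith
    · apply le_trans (min_le_right _ _)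
      apply mul_nonpos_of_nonneg_of_nonpos (by positivity)
      linarith

theorem chiA_one (hb : 2 ≤ b0) {x y : ℝ} (hy : y ∈ I2 b0) (hxy : |x - y| ≤ 1 / (100 * b0)) :
    chiA b0 x = 1 := by
  have hb0 : 0 < b0 := by linarith
  unfold I2 at hy
  rw [mem_Icc] at hy
  obtain ⟨h1, h2⟩ := hy
  rw [abs_le] at hxy
  obtain ⟨h3, h4⟩ := hxy
  unfold chiA
  have e1 : 1 ≤ 10 * b0 * (x - 11 / (20 * b0)) := by
    have h5 : 2 / (3 * b0) - 1 / (100 * b0) ≤ x := by linarith
    have h6 : 10 * b0 * (2 / (3 * b0) - 1 / (100 * b0) - 11 / (20 * b0)) = 10 * (2 / 3 - 1 / 100 - 11 / 20) := by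
      field_simp
    have h7 : 10 * b0 * (2 / (3 * b0) - 1 / (100 * b0) - 11 / (20 * b0)) ≤
        10 * b0 * (x - 11 / (20 * b0)) := by
      apply mul_le_mul_of_nonneg_left _ (by positivity)
      linarith
    rw [h6] at h7
    refine le_trans ?_ h7
    norm_num
  have e2 : 1 ≤ 10 * b0 * (2 * b0 - 1 / (20 * b0) - x) := by
    have h5 : x ≤ 3 * b0 / 2 + 1 / (100 * b0) := by linarith
    have h6 : 10 * b0 * (2 * b0 - 1 / (20 * b0) - (3 * b0 / 2 + 1 / (100 * b0))) =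
        5 * b0 ^ 2 - 10 * (1 / 20 + 1 / 100) := by
      field_simp
      ring
    have h7 : 10 * b0 * (2 * b0 - 1 / (20 * b0) - (3 * b0 / 2 + 1 / (100 * b0))) ≤
        10 * b0 * (2 * b0 - 1 / (20 * b0) - x) := by
      apply mul_le_mul_of_nonneg_left _ (by positivity)
      linarith
    rw [h6] at h7
    refine le_trans ?_ h7
    nlinarith
  rw [min_eq_left (le_min e1 e2)]
  norm_num

theorem chiA_cont (b0 : ℝ) : Continuous (chiA b0) := by
  unfold chiA
  fun_prop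

/-- continuity of second differences. -/
theorem L7A_shift_cont (h : CSeq b0 c j0 B0 L) {l : ℕ} (hl : j0 ≤ l) {w s : ℝ} (hs : |s| ≤ w) :
    ContinuousOn (fun θ => c l (θ + s)) (Icc (1 / (2 * b0) + w) (2 * b0 - w)) := by
  have h1 : ContinuousOn (fun θ : ℝ => θ + s) (Icc (1 / (2 * b0) + w) (2 * b0 - w)) := by fun_prop
  refine (L6_cont h hl).comp h1 ?_
  intro θ hθ
  rw [mem_Icc] at hθ
  rw [abs_le] at hs
  unfold I1
  constructor <;> linarith [hθ.1, hθ.2]

theorem L7A_sd_cont (h : CSeq b0 c j0 B0 L) {l : ℕ} (hl : j0 ≤ l) {w : ℝ} (hw : 0 ≤ w) :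
    ContinuousOn (sd w (c l)) (Icc (1 / (2 * b0) + w) (2 * b0 - w)) := by
  have h0 := L7A_shift_cont h hl (w := w) (s := 0) (by simpa using hw)
  have h1 := L7A_shift_cont h hl (w := w) (s := w) (by rw [abs_of_nonneg hw])
  have h2 := L7A_shift_cont h hl (w := w) (s := -w) (by rw [abs_neg, abs_of_nonneg hw])
  simp only [add_zero] at h0
  exact ((continuousOn_const.mul h0).sub h1).sub h2

theorem L7A_sd_nn (h : CSeq b0 c j0 B0 L) {l : ℕ} (hl : j0 ≤ l) {w : ℝ} (hw : 0 ≤ w) {θ : ℝ}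
    (hθ : θ ∈ Icc (1 / (2 * b0) + w) (2 * b0 - w)) : 0 ≤ sd w (c l) θ := by
  rw [mem_Icc] at hθ
  obtain ⟨h1, h2⟩ := hθ
  have a1 : θ - w ∈ I1 b0 := by
    unfold I1
    constructor <;> linarith
  have a2 : θ + w ∈ I1 b0 := by
    unfold I1
    constructor <;> linarith
  have := (h.conc l hl).2 a1 a2 (by norm_num : (0 : ℝ) ≤ 1 / 2) (by norm_num : (0 : ℝ) ≤ 1 / 2)
    (by norm_num)
  simp only [smul_eq_mul] at this
  have e : 1 / 2 * (θ - w) + 1 / 2 * (θ + w) = θ := by ring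
  rw [e] at this
  unfold sd
  linarith

/-- geometry of the parent. -/
theorem L7A_par {d : ℕ × ℕ} (hd : 1 ≤ d.1) : dl (anc d 1) = 2 * dl d ∧ |dc (anc d 1) - dc d| ≤ dl d := by
  have h1 := (anc_sub d hd).2.2
  rw [pow_one] at h1
  refine ⟨h1, ?_⟩
  have hp := L6_dl_pos d
  unfold dc
  rw [h1]
  have e1 : (anc d 1).2 = d.2 / 2 := by
    unfold anc
    simp
  rw [e1]
  have h2 : 2 * (d.2 / 2) ≤ d.2 := by omega
  have h3 : d.2 ≤ 2 * (d.2 / 2) + 1 := by omega
  have h2' : 2 * ((d.2 / 2 : ℕ) : ℝ) ≤ (d.2 : ℝ) := by exact_mod_cast h2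
  have h3' : (d.2 : ℝ) ≤ 2 * ((d.2 / 2 : ℕ) : ℝ) + 1 := by exact_mod_cast h3
  have e2 : (((d.2 / 2 : ℕ) : ℝ) + 1 / 2) * (2 * dl d) - ((d.2 : ℝ) + 1 / 2) * dl d =
      (2 * ((d.2 / 2 : ℕ) : ℝ) - (d.2 : ℝ) + 1 / 2) * dl d := by ring
  rw [e2, abs_mul, abs_of_pos hp]
  have h4 : |2 * ((d.2 / 2 : ℕ) : ℝ) - (d.2 : ℝ) + 1 / 2| ≤ 1 := by
    rw [abs_le]
    constructor <;> linarith
  calc _ ≤ 1 * dl d := mul_le_mul_of_nonneg_right h4 hp.le
    _ = dl d := one_mul _

theorem L7A_H {w0 w : ℕ} (hb : 2 ≤ b0) (hw0 : 400 * b0 ≤ 2 ^ w0) (hw : w0 < w) :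
    (1 / 2 : ℝ) ^ w * (800 * b0) ≤ 1 := by
  have h1 : (2 : ℝ) ^ (w0 + 1) ≤ 2 ^ w := pow_le_pow_right₀ (by norm_num) hw
  have h2 : 800 * b0 ≤ 2 ^ w := by
    rw [pow_succ] at h1
    linarith
  have h3 : (1 / 2 : ℝ) ^ w * 2 ^ w = 1 := by
    rw [← mul_pow]
    norm_num
  calc (1 / 2 : ℝ) ^ w * (800 * b0) ≤ (1 / 2 : ℝ) ^ w * 2 ^ w :=
        mul_le_mul_of_nonneg_left h2 (by positivity)
    _ = 1 := h3

theorem cw2a (h : CSeq b0 c j0 B0 L) {w0 : ℕ} (hw0 : 400 * b0 ≤ 2 ^ w0) : ∃ C : ℝ, 0 < C ∧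
    ∀ (i i1 w : ℕ) (E : Finset (ℕ × (ℕ × ℕ))), i1 ≤ i → (∀ e ∈ E, 2 * j0 + 100 ≤ e.1 ∧
      IsWin b0 c L w0 e.1 e.2 ∧ w0 < w ∧ e.2.1 = w ∧ iJ c L e.1 e.2 = i ∧ i < e.1 / 100 ∧
      iJ c L e.1 (anc e.2 1) = i1 ∧
      8 * L * (1 / 2) ^ i1 < 2 * c (e.1 + 4 * i1) (dc (anc e.2 1))
        - c (e.1 + 4 * i1) (dc (anc e.2 1) - 4 * dl (anc e.2 1))
        - c (e.1 + 4 * i1) (dc (anc e.2 1) + 4 * dl (anc e.2 1))) →
    (E.card : ℝ) ≤ C * (i + 1) * 2 ^ (i + i1) / 2 ^ w := by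
  classical
  have hb := h.hb
  have hL := h.hL
  have hB := h.hB
  have hb0 : 0 < b0 := by linarith
  refine ⟨18 * 256 * 4 * (4 * L ^ 2 * b0 + 16 * L * (10 * b0) * B0 * b0) + 1, by positivity, ?_⟩
  intro i i1 w E hi1 hE
  rcases E.eq_empty_or_nonempty with hE0 | ⟨e0, he0⟩
  · rw [hE0]
    simp only [Finset.card_empty, Nat.cast_zero]
    positivity
  have hww : w0 < w := (hE e0 he0).2.2.1
  set H : ℝ := (1 / 2) ^ w with hH
  have hH0 : 0 < H := by positivity
  have hHb : H * (800 * b0) ≤ 1 := L7A_H hb hw0 hww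
  have hHb' : H ≤ 1 / (800 * b0) := by
    rw [le_div_iff₀ (by positivity)]
    exact hHb
  have hdl : ∀ e ∈ E, dl e.2 = H := by
    intro e he
    unfold dl
    rw [(hE e he).2.2.2.1]
  have hcut : Cut (1 / (2 * b0)) (2 * b0) (16 * H) (10 * b0) (chiA b0) := by
    apply chiA_cut hb
    have : 2 * (16 * (1 / (800 * b0))) ≤ 1 / (20 * b0) := by
      rw [show 2 * (16 * (1 / (800 * b0))) = (4 / 5) * (1 / (20 * b0)) by
        field_simp
        norm_num]
      have : 0 < 1 / (20 * b0) := by positivity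
      linarith
    linarith
  have h4w : 4 * (16 * H) ≤ 1 := by
    have : H * 1600 ≤ H * (800 * b0) := mul_le_mul_of_nonneg_left (by linarith) hH0.le
    linarith
  set U : Set ℝ := Icc (1 / (2 * b0) + 16 * H) (2 * b0 - 16 * H) with hU
  have hUc : IsCompact U := isCompact_Icc
  have hUI : U ⊆ I1 b0 := by
    intro x hx
    rw [hU, mem_Icc] at hx
    unfold I1
    constructor <;> linarith [hx.1, hx.2]
  have hbU : ∀ e ∈ E, bg e.2 ⊆ U := by
    intro e he x hx
    obtain ⟨h1, h2, h3, h4, h5⟩ := hE e he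
    have hd := hdl e he
    unfold bg at hx
    rw [mem_Icc, hd] at hx
    have a1 : x - 16 * H ∈ I1 b0 := by
      refine st_sub hb hw0 h2.1 h2.2.1 ?_
      rw [hd, abs_le]
      constructor <;> linarith [hx.1, hx.2]
    have a2 : x + 16 * H ∈ I1 b0 := by
      refine st_sub hb hw0 h2.1 h2.2.1 ?_
      rw [hd, abs_le]
      constructor <;> linarith [hx.1, hx.2]
    unfold I1 at a1 a2
    rw [mem_Icc] at a1 a2
    rw [hU, mem_Icc]
    constructor <;> linarith [a1.1, a2.2]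
  have hchi1 : ∀ e ∈ E, ∀ x ∈ bg e.2, chiA b0 x = 1 := by
    intro e he x hx
    obtain ⟨h1, h2, h3, h4, h5⟩ := hE e he
    have hd := hdl e he
    obtain ⟨y, hy, hy2⟩ := h2.2.1
    refine chiA_one hb hy2 ?_
    have h6 := L2_cell hy
    unfold bg at hx
    rw [mem_Icc, hd] at hx
    rw [hd, abs_le] at h6
    have h7 : |x - y| ≤ 8 * H := by
      rw [abs_le]
      constructor <;> linarith [hx.1, hx.2, h6.1, h6.2]
    have h8 : 8 * (1 / (800 * b0)) = 1 / (100 * b0) := by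
      field_simp
      norm_num
    linarith
  have hjs : ∀ j ∈ E.image Prod.fst, j0 + 4 * (i + 1) ≤ j := by
    intro j hj
    rw [Finset.mem_image] at hj
    obtain ⟨e, he, rfl⟩ := hj
    obtain ⟨h1, h2, h3, h4, h5, h6, h7⟩ := hE e he
    omega
  have hsd : ∀ e ∈ E, ∀ x ∈ bg e.2, 8 * L * (1 / 2) ^ i1 ≤ sd (16 * H) (c (e.1 + 4 * i1)) x := by
    intro e he x hx
    obtain ⟨h1, h2, h3, h4, h5, h6, h7, h8⟩ := hE e he
    have hd := hdl e he
    have hd1 : 1 ≤ e.2.1 := by omega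
    obtain ⟨p1, p2⟩ := L7A_par hd1
    rw [hd] at p1 p2
    rw [p1] at h8
    unfold bg at hx
    rw [mem_Icc, hd] at hx
    rw [abs_le] at p2
    have a1 : dc (anc e.2 1) - 3 * (8 * H) ∈ I1 b0 := by
      refine st_sub hb hw0 h2.1 h2.2.1 ?_
      rw [hd, abs_le]
      constructor <;> linarith [p2.1, p2.2]
    have a2 : dc (anc e.2 1) + 3 * (8 * H) ∈ I1 b0 := by
      refine st_sub hb hw0 h2.1 h2.2.1 ?_
      rw [hd, abs_le]
      constructor <;> linarith [p2.1, p2.2]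
    have h9 := sd_dom (α := 1 / (2 * b0)) (β := 2 * b0) (w := 8 * H) (θ := x)
      (θ' := dc (anc e.2 1)) (m := c (e.1 + 4 * i1)) (by positivity)
      (h.conc _ (by omega)) a1.1 a2.2 (by
        rw [abs_le]
        constructor <;> linarith [p2.1, p2.2, hx.1, hx.2])
    rw [show 2 * (8 * H) = 16 * H by ring] at h9
    refine le_trans ?_ h9
    unfold sd
    rw [show 4 * (2 * H) = 8 * H by ring] at h8
    linarith
  -- the integrand
  set F : ℕ → ℝ → ℝ := fun j θ =>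
    chiA b0 θ * ((c (j - 4 * (i + 1)) θ - c (j + 4 * (i + 1)) θ) * sd (16 * H) (c (j + 4 * i1)) θ)
    with hF
  have hcU : ∀ l, j0 ≤ l → ContinuousOn (c l) U := fun l hl => (L6_cont h hl).mono hUI
  have hsU : ∀ l, j0 ≤ l → ContinuousOn (sd (16 * H) (c l)) U := fun l hl =>
    L7A_sd_cont h hl (by positivity)
  have hFc : ∀ j, j0 + 4 * (i + 1) ≤ j → ContinuousOn (F j) U := by
    intro j hj
    exact (chiA_cont b0).continuousOn.mul (((hcU _ (by omega)).sub (hcU _ (by omega))).mul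
      (hsU _ (by omega)))
  have hchi0 : ∀ x, 0 ≤ chiA b0 x := fun x => (hcut.nn x).1
  have hF0 : ∀ j, j0 + 4 * (i + 1) ≤ j → ∀ x ∈ U, 0 ≤ F j x := by
    intro j hj x hx
    have h1 := c_anti h (j := j - 4 * (i + 1)) (j' := j + 4 * (i + 1)) (by omega) (by omega) (hUI hx)
    exact mul_nonneg (hchi0 x) (mul_nonneg (by linarith) (L7A_sd_nn h (by omega) (by positivity) hx))
  have hlow : ∀ e ∈ E, 8 * L * (1 / 2) ^ i1 * (128 * L * (1 / 2) ^ i * H) ≤
      ∫ θ in bg e.2, F e.1 θ := by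
    intro e he
    obtain ⟨h1, h2, h3, h4, h5, h6, h7, h8⟩ := hE e he
    have hj' := hjs e.1 (Finset.mem_image_of_mem _ he)
    have hs1 := s1 h h1 (L6_sub h hw0 h2) h2.2.2.1 (by rw [h5]; exact h6)
    rw [h5, hdl e he] at hs1
    have hint1 : IntegrableOn (ee c e.1 (i + 1)) (bg e.2) :=
      ((L6_ee_cont h hj').mono (L6_bg_sub h hw0 h2)).integrableOn_compact isCompact_Icc
    have hint2 : IntegrableOn (F e.1) (bg e.2) :=
      ((hFc e.1 hj').mono (hbU e he)).integrableOn_compact isCompact_Icc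
    calc 8 * L * (1 / 2) ^ i1 * (128 * L * (1 / 2) ^ i * H)
        ≤ 8 * L * (1 / 2) ^ i1 * ∫ θ in bg e.2, ee c e.1 (i + 1) θ :=
          mul_le_mul_of_nonneg_left hs1 (by positivity)
      _ = ∫ θ in bg e.2, 8 * L * (1 / 2) ^ i1 * ee c e.1 (i + 1) θ := by
          rw [integral_const_mul]
      _ ≤ ∫ θ in bg e.2, F e.1 θ := by
          refine setIntegral_mono_on (hint1.const_mul _) hint2 measurableSet_Icc ?_
          intro x hx
          have hx1 := L6_bg_sub h hw0 h2 hx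
          have h9 := hsd e he x hx
          have h10 := (ee_mono h (le_refl (i + 1)) hj' hx1).1
          show 8 * L * (1 / 2) ^ i1 * ee c e.1 (i + 1) x ≤ chiA b0 x * (ee c e.1 (i + 1) x *
            sd (16 * H) (c (e.1 + 4 * i1)) x)
          rw [hchi1 e he x hx, one_mul, mul_comm (ee c e.1 (i + 1) x)]
          exact mul_le_mul_of_nonneg_right h9 h10
  -- the two telescoping sums
  set K : ℝ := (2 * ((4 * (i + 1) : ℕ) : ℝ) * L ^ 2 * (2 * b0) +
    4 * L * (10 * b0) * (2 * ((4 * (i + 1) : ℕ) : ℝ) * B0 * (2 * b0))) * (16 * H) ^ 2 with hK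
  have ht1 : ∑ j ∈ E.image Prod.fst, ∫ θ in U,
      chiA b0 θ * ((c (j - 4 * (i + 1)) θ - c (j + 4 * i1) θ) *
        (sd (16 * H) (c (j - 4 * (i + 1))) θ + sd (16 * H) (c (j + 4 * i1)) θ)) ≤ K := by
    exact tel2 h (Q := 4 * (i + 1)) (p := 4 * (i + 1)) (q := 4 * i1) (le_refl _) (by omega) _ hjs
      (by positivity) h4w hcut (by positivity)
  have ht2 : ∑ j ∈ E.image Prod.fst, ∫ θ in U,
      chiA b0 θ * ((c (j + 4 * i1) θ - c (j + 4 * (i + 1)) θ) *
        (sd (16 * H) (c (j + 4 * i1)) θ + sd (16 * H) (c (j + 4 * (i + 1))) θ)) ≤ K := by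
    have := tel2 h (Q := 4 * (i + 1)) (p := 0) (q := 4 * (i + 1) - 4 * i1) (by omega) (by omega)
      ((E.image Prod.fst).image (fun j => j + 4 * i1)) (by
        intro j hj
        rw [Finset.mem_image] at hj
        obtain ⟨j', hj', rfl⟩ := hj
        have := hjs j' hj'
        omega)
      (w := 16 * H) (by positivity) h4w hcut (by positivity)
    rw [Finset.sum_image (by
      intro a _ b _ hab
      simpa using hab)] at this
    refine le_trans (le_of_eq ?_) this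
    apply Finset.sum_congr rfl
    intro j _
    have e1 : j + 4 * i1 - 0 = j + 4 * i1 := by omega
    have e2 : j + 4 * i1 + (4 * (i + 1) - 4 * i1) = j + 4 * (i + 1) := by omega
    rw [e1, e2]
  have hup : ∑ e ∈ E, ∫ θ in bg e.2, F e.1 θ ≤ 9 * (K + K) := by
    rw [L6_fib E (fun j d => ∫ θ in bg d, F j θ)]
    calc ∑ j ∈ E.image Prod.fst, ∑ e ∈ E.filter (fun e => e.1 = j), ∫ θ in bg e.2, F j θ
        ≤ ∑ j ∈ E.image Prod.fst, 9 * ∫ θ in U, F j θ := by
          apply Finset.sum_le_sum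
          intro j hj
          have hj' := hjs j hj
          refine L6_ov_int (w := w) (E.filter (fun e => e.1 = j)) Prod.snd (L6_inj E j) ?_
            measurableSet_Icc ?_ ((hFc j hj').integrableOn_compact hUc) (hF0 j hj')
          · intro e he
            exact (hE e (Finset.mem_filter.1 he).1).2.2.2.1
          · intro e he
            exact hbU e (Finset.mem_filter.1 he).1
      _ = 9 * ∑ j ∈ E.image Prod.fst, ∫ θ in U, F j θ := by
          rw [Finset.mul_sum]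
      _ ≤ 9 * (K + K) := by
          apply mul_le_mul_of_nonneg_left _ (by norm_num)
          refine le_trans ?_ (add_le_add ht1 ht2)
          rw [← Finset.sum_add_distrib]
          apply Finset.sum_le_sum
          intro j hj
          have hj' := hjs j hj
          have hc1 : ContinuousOn (fun θ => chiA b0 θ * ((c (j - 4 * (i + 1)) θ - c (j + 4 * i1) θ) *
              (sd (16 * H) (c (j - 4 * (i + 1))) θ + sd (16 * H) (c (j + 4 * i1)) θ))) U :=
            (chiA_cont b0).continuousOn.mul (((hcU _ (by omega)).sub (hcU _ (by omega))).mul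
              ((hsU _ (by omega)).add (hsU _ (by omega))))
          have hc2 : ContinuousOn (fun θ => chiA b0 θ * ((c (j + 4 * i1) θ - c (j + 4 * (i + 1)) θ) *
              (sd (16 * H) (c (j + 4 * i1)) θ + sd (16 * H) (c (j + 4 * (i + 1))) θ))) U :=
            (chiA_cont b0).continuousOn.mul (((hcU _ (by omega)).sub (hcU _ (by omega))).mul
              ((hsU _ (by omega)).add (hsU _ (by omega))))
          rw [← integral_add (hc1.integrableOn_compact hUc) (hc2.integrableOn_compact hUc)]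
          refine setIntegral_mono_on ((hFc j hj').integrableOn_compact hUc)
            ((hc1.integrableOn_compact hUc).add (hc2.integrableOn_compact hUc)) measurableSet_Icc ?_
          intro x hx
          have h1 := c_anti h (j := j - 4 * (i + 1)) (j' := j + 4 * i1) (by omega) (by omega) (hUI hx)
          have h2 := c_anti h (j := j + 4 * i1) (j' := j + 4 * (i + 1)) (by omega) (by omega) (hUI hx)
          have h3 := L7A_sd_nn h (l := j - 4 * (i + 1)) (by omega) (by positivity) hx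
          have h4 := L7A_sd_nn h (l := j + 4 * i1) (by omega) (by positivity) hx
          have h5 := L7A_sd_nn h (l := j + 4 * (i + 1)) (by omega) (by positivity) hx
          show chiA b0 x * ((c (j - 4 * (i + 1)) x - c (j + 4 * (i + 1)) x) *
            sd (16 * H) (c (j + 4 * i1)) x) ≤
            chiA b0 x * ((c (j - 4 * (i + 1)) x - c (j + 4 * i1) x) *
              (sd (16 * H) (c (j - 4 * (i + 1))) x + sd (16 * H) (c (j + 4 * i1)) x)) +
            chiA b0 x * ((c (j + 4 * i1) x - c (j + 4 * (i + 1)) x) *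
              (sd (16 * H) (c (j + 4 * i1)) x + sd (16 * H) (c (j + 4 * (i + 1))) x))
          rw [← mul_add]
          apply mul_le_mul_of_nonneg_left _ (hchi0 x)
          have h6 := mul_nonneg (sub_nonneg.2 h1) h3
          have h7 := mul_nonneg (sub_nonneg.2 h2) h5
          nlinarith
  have hsum : (E.card : ℝ) * (8 * L * (1 / 2) ^ i1 * (128 * L * (1 / 2) ^ i * H)) ≤ 9 * (K + K) := by
    refine le_trans ?_ hup
    have := Finset.sum_le_sum hlow
    rw [Finset.sum_const, nsmul_eq_mul] at this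
    exact this
  have hKe : 9 * (K + K) = (18 * 256 * 4 * (4 * L ^ 2 * b0 + 16 * L * (10 * b0) * B0 * b0) * (i + 1)) * H ^ 2 := by
    rw [hK]
    push_cast
    ring
  rw [hKe] at hsum
  set C0 : ℝ := 18 * 256 * 4 * (4 * L ^ 2 * b0 + 16 * L * (10 * b0) * B0 * b0) with hC0
  have hC0p : 0 ≤ C0 := by positivity
  have hii : (0 : ℝ) ≤ i := Nat.cast_nonneg i
  have hpi : (0 : ℝ) < (1 / 2) ^ i1 * (1 / 2) ^ i := by positivity
  have hs2 : (E.card : ℝ) * ((1 / 2) ^ i1 * (1 / 2) ^ i) * H ≤ (C0 * (i + 1) * H) * H := by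
    calc (E.card : ℝ) * ((1 / 2) ^ i1 * (1 / 2) ^ i) * H
        ≤ (1024 * L ^ 2) * ((E.card : ℝ) * ((1 / 2) ^ i1 * (1 / 2) ^ i) * H) := by
          have h1 : (0 : ℝ) ≤ (E.card : ℝ) * ((1 / 2) ^ i1 * (1 / 2) ^ i) * H := by positivity
          have h2 : (1 : ℝ) ≤ 1024 * L ^ 2 := by nlinarith
          exact le_mul_of_one_le_left h1 h2
      _ = (E.card : ℝ) * (8 * L * (1 / 2) ^ i1 * (128 * L * (1 / 2) ^ i * H)) := by ring
      _ ≤ (C0 * (i + 1)) * H ^ 2 := hsum
      _ = (C0 * (i + 1) * H) * H := by ring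
  have hs3 := le_of_mul_le_mul_right hs2 hH0
  have h3 : (2 : ℝ) ^ (i + i1) * ((1 / 2) ^ i1 * (1 / 2) ^ i) = 1 := by
    rw [← pow_add, add_comm i1 i, ← mul_pow]
    norm_num
  have hqq : (0 : ℝ) < 2 ^ (i + i1) := by positivity
  have hHe : H = 1 / 2 ^ w := by
    rw [hH, one_div, inv_pow, one_div]
  calc (E.card : ℝ) = (2 : ℝ) ^ (i + i1) * ((E.card : ℝ) * ((1 / 2) ^ i1 * (1 / 2) ^ i)) := by
        rw [show (2 : ℝ) ^ (i + i1) * ((E.card : ℝ) * ((1 / 2) ^ i1 * (1 / 2) ^ i)) =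
          (E.card : ℝ) * ((2 : ℝ) ^ (i + i1) * ((1 / 2) ^ i1 * (1 / 2) ^ i)) by ring, h3, mul_one]
    _ ≤ 2 ^ (i + i1) * (C0 * (i + 1) * H) := mul_le_mul_of_nonneg_left hs3 hqq.le
    _ ≤ 2 ^ (i + i1) * ((C0 + 1) * (i + 1) * H) := by
        apply mul_le_mul_of_nonneg_left _ hqq.le
        apply mul_le_mul_of_nonneg_right _ hH0.le
        apply mul_le_mul_of_nonneg_right _ (by linarith)
        linarith
    _ = (C0 + 1) * (i + 1) * 2 ^ (i + i1) / 2 ^ w := by
        rw [hHe]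
        ring

end MuntzF
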