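import Pool.Agent.Lib.MP_dde81e_full.L7

/-!
Module L8: summation over windows.
win_sum: split the pairs according to (i,w) = (iJ, d.1): w = w0 or w ≤ i (win_len).  Uncapped (i < j/100): cw1, cw2.  Capped (i = j/100): 100 values of j for each i, at most 2 b0 2^w windows for each (win_card), and
2^w ≤ 4^(w0+1) min(2^(i+w), 4^i/2^w).
lev_large: finitely many windows have iJ < i1 and are uncapped (cw3: for each of the finitely many d with d.1 ≤ max(w0,i1) finitely many j); j/100 ≥ i1 for large j; then win_cover, win_lev.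
-/

namespace MuntzF
open Set MeasureTheory

variable {b0 : ℝ} {c : ℕ → ℝ → ℝ} {j0 : ℕ} {B0 L : ℝ}

/-- number of windows with given level and length. -/
theorem L8_count (h : CSeq b0 c j0 B0 L) {w0 : ℕ} (hw0 : 400 * b0 ≤ 2 ^ w0) : ∃ C : ℝ, 0 < C ∧
    ∀ (i w : ℕ) (E : Finset (ℕ × (ℕ × ℕ))), (∀ e ∈ E, 2 * j0 + 100 ≤ e.1 ∧ IsWin b0 c L w0 e.1 e.2 ∧
      e.2.1 = w ∧ iJ c L e.1 e.2 = i) →
      (E.card : ℝ) ≤ C * (((i : ℝ) + 1) * min (2 ^ (i + w)) (4 ^ i / 2 ^ w)) := by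
  classical
  obtain ⟨C1, hC1, h1⟩ := cw1 h hw0
  obtain ⟨C2, hC2, h2⟩ := cw2 h hw0
  have hb := h.hb
  have hb0 : 0 < b0 := by linarith
  refine ⟨C1 + C2 + 200 * b0 * 4 ^ (w0 + 1), by positivity, ?_⟩
  intro i w E hE
  rcases E.eq_empty_or_nonempty with hne | hne
  · rw [hne, Finset.card_empty, Nat.cast_zero]
    positivity
  have hwi : w ≤ i + w0 + 1 := by
    obtain ⟨e, he⟩ := hne
    obtain ⟨a1, a2, a3, a4⟩ := hE e he
    rcases win_len h hw0 a1 a2 with a5 | ⟨a5, -⟩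
    · omega
    · omega
  have hpos1 : (0 : ℝ) < 2 ^ (i + w) := by positivity
  have hpos2 : (0 : ℝ) < 4 ^ i / 2 ^ w := by positivity
  have hi1 : (1 : ℝ) ≤ (i : ℝ) + 1 := by
    have : (0 : ℝ) ≤ i := Nat.cast_nonneg i
    linarith
  set m : ℝ := min (2 ^ (i + w)) (4 ^ i / 2 ^ w) with hm
  have hmpos : 0 < m := lt_min hpos1 hpos2
  have hU : ((E.filter (fun e => i < e.1 / 100)).card : ℝ) ≤ (C1 + C2) * (((i : ℝ) + 1) * m) := by
    have e1 := h1 i w (E.filter (fun e => i < e.1 / 100)) (by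
      intro e he
      obtain ⟨he1, he2⟩ := Finset.mem_filter.1 he
      obtain ⟨a1, a2, a3, a4⟩ := hE e he1
      exact ⟨a1, a2, a3, a4, he2⟩)
    have e2 := h2 i w (E.filter (fun e => i < e.1 / 100)) (by
      intro e he
      obtain ⟨he1, he2⟩ := Finset.mem_filter.1 he
      obtain ⟨a1, a2, a3, a4⟩ := hE e he1
      exact ⟨a1, a2, a3, a4, he2⟩)
    have p0 : (0 : ℝ) ≤ ((i : ℝ) + 1) * m := by positivity
    rcases min_choice (2 ^ (i + w) : ℝ) (4 ^ i / 2 ^ w) with hc | hc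
    · rw [← hm] at hc
      calc _ ≤ C1 * ((i : ℝ) + 1) * 2 ^ (i + w) := e1
        _ = C1 * (((i : ℝ) + 1) * m) := by rw [hc]; ring
        _ ≤ _ := by nlinarith
    · rw [← hm] at hc
      calc _ ≤ C2 * ((i : ℝ) + 1) * 4 ^ i / 2 ^ w := e2
        _ = C2 * (((i : ℝ) + 1) * m) := by rw [hc]; ring
        _ ≤ _ := by nlinarith
  have hK : ((E.filter (fun e => ¬ i < e.1 / 100)).card : ℝ) ≤ 200 * b0 * 2 ^ w := by
    have e1 : ((E.filter (fun e => ¬ i < e.1 / 100)).card : ℝ) =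
        ∑ j ∈ Finset.Ico (100 * i) (100 * i + 100),
          (((E.filter (fun e => ¬ i < e.1 / 100)).filter (fun e => e.1 = j)).card : ℝ) := by
      rw [← Nat.cast_sum, ← Finset.card_eq_sum_card_fiberwise]
      intro e he
      obtain ⟨he1, he2⟩ := Finset.mem_filter.1 (Finset.mem_coe.1 he)
      obtain ⟨a1, a2, a3, a4⟩ := hE e he1
      have a5 := L2_iJ_le h e.1 e.2
      rw [Finset.mem_coe, Finset.mem_Ico]
      omega
    have e2 : ∀ j ∈ Finset.Ico (100 * i) (100 * i + 100),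
        (((E.filter (fun e => ¬ i < e.1 / 100)).filter (fun e => e.1 = j)).card : ℝ) ≤
          2 * b0 * 2 ^ w := by
      intro j _
      have e3 : ((E.filter (fun e => ¬ i < e.1 / 100)).filter (fun e => e.1 = j)).card =
          (((E.filter (fun e => ¬ i < e.1 / 100)).filter (fun e => e.1 = j)).image
            Prod.snd).card := by
        rw [Finset.card_image_of_injOn]
        intro e he f hf hef
        have b1 := (Finset.mem_filter.1 (Finset.mem_coe.1 he)).2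
        have b2 := (Finset.mem_filter.1 (Finset.mem_coe.1 hf)).2
        exact Prod.ext (b1.trans b2.symm) hef
      rw [e3]
      apply win_card (c := c) (L := L) hb hw0 (j := j)
      intro d hd
      obtain ⟨e, he, rfl⟩ := Finset.mem_image.1 hd
      obtain ⟨b1, b2⟩ := Finset.mem_filter.1 he
      obtain ⟨a1, a2, a3, a4⟩ := hE e (Finset.mem_filter.1 b1).1
      rw [← b2]
      exact ⟨a2, a3⟩
    rw [e1]
    refine (Finset.sum_le_sum e2).trans ?_
    rw [Finset.sum_const, Nat.card_Ico, nsmul_eq_mul]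
    have : 100 * i + 100 - 100 * i = 100 := by omega
    rw [this]
    push_cast
    linarith
  have hw2 : (2 : ℝ) ^ w ≤ 4 ^ (w0 + 1) * m := by
    have f1 : (2 : ℝ) ^ w ≤ 4 ^ (w0 + 1) * 2 ^ (i + w) := by
      have g1 : (2 : ℝ) ^ w ≤ 2 ^ (i + w) := pow_le_pow_right₀ (by norm_num) (by omega)
      have g2 : (1 : ℝ) ≤ 4 ^ (w0 + 1) := one_le_pow₀ (by norm_num)
      nlinarith
    have f2 : (2 : ℝ) ^ w ≤ 4 ^ (w0 + 1) * (4 ^ i / 2 ^ w) := by
      have g3 : (2 : ℝ) ^ w * 2 ^ w = 4 ^ w := by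
        rw [← mul_pow]
        norm_num
      rw [mul_div_assoc', le_div_iff₀ (by positivity), g3, ← pow_add]
      exact pow_le_pow_right₀ (by norm_num) (by omega)
    rcases min_choice (2 ^ (i + w) : ℝ) (4 ^ i / 2 ^ w) with hc | hc
    · rw [hm, hc]
      exact f1
    · rw [hm, hc]
      exact f2
  have hsplit : (E.card : ℝ) = ((E.filter (fun e => i < e.1 / 100)).card : ℝ) +
      ((E.filter (fun e => ¬ i < e.1 / 100)).card : ℝ) := by
    rw [← Nat.cast_add, Finset.card_filter_add_card_filter_not]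
  rw [hsplit]
  have k1 : 200 * b0 * 2 ^ w ≤ 200 * b0 * (4 ^ (w0 + 1) * m) :=
    mul_le_mul_of_nonneg_left hw2 (by positivity)
  have k2 : m ≤ ((i : ℝ) + 1) * m := by nlinarith
  have k3 : 200 * b0 * 4 ^ (w0 + 1) * m ≤ 200 * b0 * 4 ^ (w0 + 1) * (((i : ℝ) + 1) * m) :=
    mul_le_mul_of_nonneg_left k2 (by positivity)
  linarith

theorem win_sum (h : CSeq b0 c j0 B0 L) {w0 : ℕ} (hw0 : 400 * b0 ≤ 2 ^ w0) : ∃ C : ℝ, 0 < C ∧
    ∀ (φ : ℕ → ℕ → ℝ) (B : ℝ), (∀ i w, 0 ≤ φ i w) →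
      (∀ n : ℕ, ∑ i ∈ Finset.range n, ∑ w ∈ Finset.range (i + w0 + 2),
        ((i : ℝ) + 1) * min (2 ^ (i + w)) (4 ^ i / 2 ^ w) * φ i w ≤ B) →
      ∀ E : Finset (ℕ × (ℕ × ℕ)), (∀ e ∈ E, 2 * j0 + 100 ≤ e.1 ∧ IsWin b0 c L w0 e.1 e.2) →
        ∑ e ∈ E, φ (iJ c L e.1 e.2) e.2.1 ≤ C * B := by
  classical
  obtain ⟨C, hC, hcount⟩ := L8_count h hw0
  refine ⟨C, hC, ?_⟩
  intro φ B hφ hB E hE
  obtain ⟨g, hg⟩ : ∃ g : ℕ × (ℕ × ℕ) → ℕ, ∀ e, g e = iJ c L e.1 e.2 := ⟨_, fun _ => rfl⟩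
  simp only [← hg]
  obtain ⟨n, hn⟩ : ∃ n, ∀ e ∈ E, g e < n :=
    ⟨E.sup g + 1, fun e he => Nat.lt_succ_iff.2 (Finset.le_sup he)⟩
  have m1 : ∀ e ∈ E, g e ∈ Finset.range n := by
    intro e he
    rw [Finset.mem_range]
    exact hn e he
  have m2 : ∀ e ∈ E, e.2.1 ∈ Finset.range (g e + w0 + 2) := by
    intro e he
    obtain ⟨a1, a2⟩ := hE e he
    rw [Finset.mem_range, hg]
    rcases win_len h hw0 a1 a2 with a5 | ⟨a5, -⟩
    · omega
    · omega
  have s1 : ∑ e ∈ E, φ (g e) e.2.1 = ∑ i ∈ Finset.range n,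
      ∑ w ∈ Finset.range (i + w0 + 2),
        ∑ e ∈ (E.filter (fun e => g e = i)).filter (fun e => e.2.1 = w),
          φ (g e) e.2.1 := by
    rw [← Finset.sum_fiberwise_of_maps_to m1]
    refine Finset.sum_congr rfl (fun i _ => ?_)
    rw [← Finset.sum_fiberwise_of_maps_to (t := Finset.range (i + w0 + 2))
      (g := fun e : ℕ × (ℕ × ℕ) => e.2.1)]
    intro e he
    obtain ⟨he1, he2⟩ := Finset.mem_filter.1 he
    have := m2 e he1
    rw [he2] at this
    exact this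
  rw [s1]
  calc _ ≤ ∑ i ∈ Finset.range n, ∑ w ∈ Finset.range (i + w0 + 2),
        C * (((i : ℝ) + 1) * min (2 ^ (i + w)) (4 ^ i / 2 ^ w) * φ i w) := by
        refine Finset.sum_le_sum (fun i _ => Finset.sum_le_sum (fun w _ => ?_))
        have s2 : ∑ e ∈ (E.filter (fun e => g e = i)).filter (fun e => e.2.1 = w),
            φ (g e) e.2.1 =
            (((E.filter (fun e => g e = i)).filter (fun e => e.2.1 = w)).card : ℝ) *
              φ i w := by
          rw [← nsmul_eq_mul, ← Finset.sum_const]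
          refine Finset.sum_congr rfl (fun e he => ?_)
          obtain ⟨b1, b2⟩ := Finset.mem_filter.1 he
          rw [(Finset.mem_filter.1 b1).2, b2]
        rw [s2]
        have s3 := hcount i w
          ((E.filter (fun e => g e = i)).filter (fun e => e.2.1 = w)) (by
            intro e he
            obtain ⟨b1, b2⟩ := Finset.mem_filter.1 he
            obtain ⟨b3, b4⟩ := Finset.mem_filter.1 b1
            obtain ⟨a1, a2⟩ := hE e b3
            exact ⟨a1, a2, b2, (hg e).symm.trans b4⟩)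
        have s4 := mul_le_mul_of_nonneg_right s3 (hφ i w)
        calc _ ≤ _ := s4
          _ = _ := by ring
    _ = C * ∑ i ∈ Finset.range n, ∑ w ∈ Finset.range (i + w0 + 2),
        ((i : ℝ) + 1) * min (2 ^ (i + w)) (4 ^ i / 2 ^ w) * φ i w := by
        rw [Finset.mul_sum]
        refine Finset.sum_congr rfl (fun i _ => ?_)
        rw [Finset.mul_sum]
    _ ≤ C * B := mul_le_mul_of_nonneg_left (hB n) hC.le

theorem lev_large (h : CSeq b0 c j0 B0 L) {w0 : ℕ} (hw0 : 400 * b0 ≤ 2 ^ w0) (i1 : ℕ) :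
    ∃ j1 : ℕ, ∀ j, j1 ≤ j → ∀ θ ∈ I2 b0, i1 ≤ lev c L j θ := by
  classical
  obtain ⟨C, hC, h3⟩ := cw3 h hw0
  set W := max w0 i1 with hW
  set K := ⌈3 * b0 / 2 * 2 ^ W⌉₊ with hK
  have hfin : (⋃ p ∈ ((Finset.range i1 ×ˢ (Finset.range (W + 1) ×ˢ Finset.range (K + 1)) :
      Finset (ℕ × (ℕ × ℕ))) : Set (ℕ × (ℕ × ℕ))),
      {j : ℕ | 2 * j0 + 100 ≤ j ∧ IsWin b0 c L w0 j p.2 ∧ iJ c L j p.2 = p.1 ∧
        p.1 < j / 100}).Finite := by
    apply Set.Finite.biUnion (Finset.finite_toSet _)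
    intro p _
    by_contra hinf
    obtain ⟨t, ht, hcard⟩ := (Set.not_finite.1 hinf).exists_subset_card_eq
      (⌊C * ((p.1 : ℝ) + 1) * 2 ^ p.1⌋₊ + 1)
    have h4 := h3 p.1 p.2 t (fun j hj => ht hj)
    rw [hcard] at h4
    have h5 := Nat.lt_floor_add_one (C * ((p.1 : ℝ) + 1) * 2 ^ p.1)
    push_cast at h4
    linarith
  obtain ⟨M, hM⟩ := hfin.bddAbove
  refine ⟨M + 1 + (2 * j0 + 100) + 100 * i1, ?_⟩
  intro j hj θ hθ
  have hjj : 2 * j0 + 100 ≤ j := by omega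
  obtain ⟨d, hd, hθd⟩ := win_cover h hw0 hjj hθ
  have hst := (cell_sub_st d).1 hθd
  have hle := iJ_le c L j d hst
  by_contra hcon
  push Not at hcon
  have hi : iJ c L j d < i1 := lt_of_le_of_lt hle hcon
  have hcap : iJ c L j d < j / 100 := by omega
  have hd1 : d.1 ≤ W := by
    rcases win_len h hw0 hjj hd with h4 | ⟨h4, -⟩
    · rw [h4]; exact le_max_left _ _
    · exact (h4.trans hi.le).trans (le_max_right _ _)
  have hd2 : d.2 ≤ K := by
    have e1 : (d.2 : ℝ) ≤ 3 * b0 / 2 * 2 ^ W := by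
      refine (L2_snd h.hb hd).trans ?_
      apply mul_le_mul_of_nonneg_left
      · exact pow_le_pow_right₀ (by norm_num) hd1
      · have := h.hb
        linarith
    have e2 : (d.2 : ℝ) ≤ (K : ℝ) := e1.trans (Nat.le_ceil _)
    exact_mod_cast e2
  have hmem : j ∈ (⋃ p ∈ ((Finset.range i1 ×ˢ (Finset.range (W + 1) ×ˢ Finset.range (K + 1)) :
      Finset (ℕ × (ℕ × ℕ))) : Set (ℕ × (ℕ × ℕ))),
      {j : ℕ | 2 * j0 + 100 ≤ j ∧ IsWin b0 c L w0 j p.2 ∧ iJ c L j p.2 = p.1 ∧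
        p.1 < j / 100}) := by
    refine Set.mem_biUnion (x := (iJ c L j d, d)) ?_ ⟨hjj, hd, rfl, hcap⟩
    rw [Finset.mem_coe, Finset.mem_product, Finset.mem_product, Finset.mem_range,
      Finset.mem_range, Finset.mem_range]
    exact ⟨hi, Nat.lt_succ_iff.2 hd1, Nat.lt_succ_iff.2 hd2⟩
  have := hM hmem
  omega

/-- for a fixed dyadic interval: number of scales, capped or not. -/
theorem cw3' (h : CSeq b0 c j0 B0 L) {w0 : ℕ} (hw0 : 400 * b0 ≤ 2 ^ w0) : ∃ C : ℝ, 0 < C ∧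
    ∀ (i : ℕ) (d : ℕ × ℕ) (E : Finset ℕ), (∀ j ∈ E, 2 * j0 + 100 ≤ j ∧ IsWin b0 c L w0 j d ∧
      iJ c L j d = i) → (E.card : ℝ) ≤ C * (i + 1) * 2 ^ i := by
  classical
  obtain ⟨C, hC, h3⟩ := cw3 h hw0
  refine ⟨C + 100, by positivity, ?_⟩
  intro i d E hE
  have e1 := h3 i d (E.filter (fun j => i < j / 100)) (by
    intro j hj
    obtain ⟨hj1, hj2⟩ := Finset.mem_filter.1 hj
    obtain ⟨a1, a2, a3⟩ := hE j hj1
    exact ⟨a1, a2, a3, hj2⟩)
  have e2 : (E.filter (fun j => ¬ i < j / 100)).card ≤ 100 := by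
    have e3 : E.filter (fun j => ¬ i < j / 100) ⊆ Finset.Ico (100 * i) (100 * i + 100) := by
      intro j hj
      obtain ⟨hj1, hj2⟩ := Finset.mem_filter.1 hj
      obtain ⟨a1, a2, a3⟩ := hE j hj1
      have a5 := L2_iJ_le h j d
      rw [Finset.mem_Ico]
      omega
    have e4 := Finset.card_le_card e3
    rw [Nat.card_Ico] at e4
    omega
  have e3 : ((E.filter (fun j => ¬ i < j / 100)).card : ℝ) ≤ 100 := by exact_mod_cast e2
  have hsplit : (E.card : ℝ) = ((E.filter (fun e => i < e / 100)).card : ℝ) +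
      ((E.filter (fun e => ¬ i < e / 100)).card : ℝ) := by
    rw [← Nat.cast_add, Finset.card_filter_add_card_filter_not]
  have e5 : (1 : ℝ) ≤ ((i : ℝ) + 1) * 2 ^ i := by
    have f1 : (1 : ℝ) ≤ 2 ^ i := one_le_pow₀ (by norm_num)
    have f2 : (0 : ℝ) ≤ i := Nat.cast_nonneg i
    nlinarith
  rw [hsplit]
  have : (C + 100) * ((i : ℝ) + 1) * 2 ^ i = C * ((i : ℝ) + 1) * 2 ^ i +
      100 * (((i : ℝ) + 1) * 2 ^ i) := by ring
  rw [this]
  linarith

end MuntzF
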