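import Pool.Agent.Lib.MP_dde81e_full.RDefs
import Pool.Agent.Lib.MP_dde81e_full.B2
import Pool.Agent.Lib.MP_dde81e_full.L8

/-!
Module R1 (text 10.7, R1): lower bound on the leaf (the line) from the envelope.
Proof.  Write `θ = tl l`, `b = bl l`, `i = X.lv k θ` (large for `k ≥ k1` by `lev_large`; `θ ∈ I2 ⊆ I1`), `|b| ≤ 2^k`.
Let `A = X.c (k+4i) θ - C1 exp(-2^(2i)/C1)`.  `X.env.low (k+2i) (2i)` gives `PR F (2^(k+2i)) θ A`.
We show `A' := X.c k θ - (512 L + 1) h <= nl (lf F l ζ) / Re ζ` for all `|ζ| = 2^k`, `Re ζ > 0`, that is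
`‖lf F l ζ‖ ≤ exp(-A' Re ζ)` (`E4_nl_of_norm_le` in E4.lean), for `A' > 0` (otherwise `ofReal A' = 0`).
`X.c k θ - 512 L h ≤ X.c (k-4i) θ - 512 L h ≤ X.c (k+4i) θ` (`lev_spec`, `c_anti`; `h = hh i`).
Case `b ≥ 0`: `x_l = 0`, `(z,w) = (ζ, θ ζ + b)`, `Re w = θ Re z + b ≥ θ Re z`, `‖z‖, ‖w‖ ≤ (1.2 b0 + 1) 2^k ≤ 2^(k+2i)/K` with
`K = 2^(2i)/(1.2 b0+1) ≥ 2(1+1/θ)` (i large); `nc_above` with `θ1 = θ`, ρ = 2^(k+2i): `‖F‖ ≤ exp(-A Re ζ (1-4exp(-Kθ/2)))` if `A ≥ 0`.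
Case `b < 0`: `x_l = -b/θ`, `w = θ ζ`, `Re w = θ Re ζ ≤ θ Re z`, `Re w/θ = Re ζ`; `nc_below` with `θ2 = θ`.
In both cases, for `i` large, `C1 exp(-2^(2i)/C1) ≤ h/2` and `4 B0 exp(-..) ≤ h/2`, so the exponent is at least
`(X.c (k+4i) θ - h) Re ζ ≥ A' Re ζ` (if `A < 0`, then `A' < 0`).
-/

namespace MuntzF
open Set Metric MeasureTheory
open scoped ENNReal

theorem R1_nl {w : ℂ} {b : ℝ} (h : ‖w‖ ≤ Real.exp (-b)) : ENNReal.ofReal b ≤ Muntz.nl w := by
  unfold Muntz.nl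
  split_ifs with hw
  · exact le_top
  · apply ENNReal.ofReal_le_ofReal
    have h1 : Real.log ‖w‖ ≤ -b := by
      rw [Real.log_le_iff_le_exp (norm_pos_iff.2 hw)]
      exact h
    linarith

/-- double exponentials beat exponentials. -/
theorem R1_small (a M : ℝ) (ha : 0 < a) (hM : 0 ≤ M) : ∃ i0 : ℕ, ∀ i : ℕ, i0 ≤ i →
    M * Real.exp (-(a * 4 ^ i)) ≤ hh i / 2 := by
  obtain ⟨n, hn⟩ := pow_unbounded_of_one_lt (2 * M / a) (by norm_num : (1 : ℝ) < 2)
  refine ⟨n, fun i hi => ?_⟩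
  have h1 : 2 * M / a ≤ 2 ^ i := hn.le.trans (pow_le_pow_right₀ (by norm_num) hi)
  have h2 : 2 * M ≤ 2 ^ i * a := (div_le_iff₀ ha).1 h1
  have h3 : a * 4 ^ i ≤ Real.exp (a * 4 ^ i) := by
    have := Real.add_one_le_exp (a * 4 ^ i)
    linarith
  have h4 : (0 : ℝ) < a * 4 ^ i := by positivity
  rw [Real.exp_neg]
  have h5 : (Real.exp (a * 4 ^ i))⁻¹ ≤ (a * 4 ^ i)⁻¹ := inv_anti₀ h4 h3
  refine (mul_le_mul_of_nonneg_left h5 hM).trans ?_
  unfold hh
  rw [← div_eq_mul_inv, div_le_iff₀ h4]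
  have h6 : (1 / 2 : ℝ) ^ i / 2 * (a * 4 ^ i) = 2 ^ i * a / 2 := by
    have : (4 : ℝ) ^ i = 2 ^ i * 2 ^ i := by rw [← mul_pow]; norm_num
    rw [this, one_div_pow]
    field_simp
  rw [h6]
  linarith

theorem leaf_low {F : ℂ × ℂ → ℂ} {b0 : ℝ} (X : Ctx F b0) : ∃ k1 : ℕ, ∀ (k : ℕ) (l : Ln), k1 ≤ k →
    l.q ≠ 0 → 5 / (6 * b0) ≤ tl l → tl l ≤ 6 * b0 / 5 → etp l k ≤ 1 →
    ENNReal.ofReal (X.c k (tl l) - (512 * X.L + 1) * hh (X.lv k (tl l))) ≤ aa F l k := by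
  have cs := X.env.cs
  have hb := cs.hb
  have hL := cs.hL
  have hB := cs.hB
  have hC1 := X.env.hC1
  have hb0 : 0 < b0 := by linarith
  have hC0 : 0 < X.C1 := by linarith
  set G : ℝ := 6 * b0 / 5 + 1 with hG
  have hG0 : 0 < G := by positivity
  have hG1 : 1 ≤ G := by rw [hG]; linarith [div_pos (by positivity : 0 < 6 * b0) (by norm_num : (0 : ℝ) < 5)]
  set κ : ℝ := 5 / (12 * b0 * G) with hκ
  have hκ0 : 0 < κ := by positivity
  obtain ⟨i2, hi2⟩ := R1_small (1 / X.C1) X.C1 (by positivity) hC0.le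
  obtain ⟨i3, hi3⟩ := R1_small κ (4 * X.B0) hκ0 (by positivity)
  obtain ⟨i4, hi4⟩ := pow_unbounded_of_one_lt (2 * G ^ 2) (by norm_num : (1 : ℝ) < 4)
  obtain ⟨j1, hj1⟩ := lev_large cs (w0 := X.w0) (by linarith [X.hw0]) (max i2 (max i3 i4))
  refine ⟨max j1 (2 * X.j0 + 100), ?_⟩
  intro k l hk hq ht1 ht2 het
  set θ := tl l with hθ
  have hθ0 : 0 < θ := lt_of_lt_of_le (by positivity) ht1
  have hθI2 : θ ∈ I2 b0 := by
    constructor
    · refine le_trans ?_ ht1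
      rw [div_le_div_iff₀ (by positivity) (by positivity)]
      nlinarith
    · refine ht2.trans ?_
      linarith
  have hθI1 : θ ∈ I1 b0 := by
    constructor
    · refine le_trans ?_ ht1
      rw [div_le_div_iff₀ (by positivity) (by positivity)]
      nlinarith
    · refine ht2.trans ?_
      linarith
  have hθinv : 1 / θ ≤ 6 * b0 / 5 := by
    rw [div_le_iff₀ hθ0]
    have : 6 * b0 / 5 * (5 / (6 * b0)) = 1 := by field_simp
    calc (1 : ℝ) = 6 * b0 / 5 * (5 / (6 * b0)) := this.symm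
      _ ≤ _ := mul_le_mul_of_nonneg_left ht1 (by positivity)
  have hk1 : j1 ≤ k := (le_max_left _ _).trans hk
  have hk2 : 2 * X.j0 + 100 ≤ k := (le_max_right _ _).trans hk
  set i := X.lv k θ with hi
  have hil : max i2 (max i3 i4) ≤ i := hj1 k hk1 θ hθI2
  have hii2 : i2 ≤ i := (le_max_left _ _).trans hil
  have hii3 : i3 ≤ i := (le_max_left _ _).trans ((le_max_right _ _).trans hil)
  have hii4 : i4 ≤ i := (le_max_right _ _).trans ((le_max_right _ _).trans hil)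
  have hik : i ≤ k / 100 := lev_le X.c X.L k θ
  have hh0 : 0 < hh i := by unfold hh; positivity
  -- trivial case
  rcases le_or_gt (X.c k θ - (512 * X.L + 1) * hh i) 0 with hneg | hpos
  · rw [ENNReal.ofReal_of_nonpos hneg]
    exact zero_le
  have hspec : X.c (k - 4 * i) θ - X.c (k + 4 * i) θ ≤ 512 * X.L * hh i :=
    lev_spec cs hk2 hθI1 (le_of_eq hi)
  have hanti : X.c k θ ≤ X.c (k - 4 * i) θ := c_anti cs (by omega) (by omega) hθI1
  set A := X.c (k + 4 * i) θ - X.C1 * Real.exp (-(2 ^ (2 * i) / X.C1)) with hA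
  have hP : PR F (2 ^ (k + 2 * i)) θ A := by
    have := X.env.low (k + 2 * i) (2 * i) (by omega) θ hθI1
    rw [show k + 2 * i + 2 * i = k + 4 * i by ring] at this
    exact this
  have h4i : (2 : ℝ) ^ (2 * i) = 4 ^ i := by rw [pow_mul]; norm_num
  have hd1 : X.C1 * Real.exp (-(2 ^ (2 * i) / X.C1)) ≤ hh i / 2 := by
    have := hi2 i hii2
    rw [show 2 ^ (2 * i) / X.C1 = 1 / X.C1 * 4 ^ i by rw [h4i]; ring]
    exact this
  have hAA : X.c k θ - (512 * X.L + 1) * hh i ≤ A - hh i / 2 := by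
    rw [hA]
    linarith
  have hA0 : 0 ≤ A := by linarith
  have hAB : A ≤ X.B0 := by
    have h1 := (cs.nn (k + 4 * i) (by omega) θ hθI1).2
    have h2 : 0 ≤ X.C1 * Real.exp (-(2 ^ (2 * i) / X.C1)) := by positivity
    rw [hA]
    linarith
  set K : ℝ := 2 ^ (2 * i) / G with hK
  have hK0 : 0 < K := by positivity
  have hKG : 2 * G ≤ K := by
    rw [hK, le_div_iff₀ hG0, h4i]
    have : (4 : ℝ) ^ i4 ≤ 4 ^ i := pow_le_pow_right₀ (by norm_num) hii4
    nlinarith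
  have hρ : (0 : ℝ) < 2 ^ (k + 2 * i) := by positivity
  have hρK : (2 : ℝ) ^ (k + 2 * i) / K = 2 ^ k * G := by
    rw [hK, pow_add]
    field_simp
  have hbk : |bl l| ≤ 2 ^ k := by
    unfold etp at het
    rwa [div_le_one (by positivity)] at het
  -- error terms
  have herr : ∀ τ : ℝ, κ * 4 ^ i ≤ τ → A * (1 - 4 * Real.exp (-τ)) ≥ A - hh i / 2 := by
    intro τ hτ
    have h1 : Real.exp (-τ) ≤ Real.exp (-(κ * 4 ^ i)) := Real.exp_le_exp.2 (by linarith)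
    have h2 := hi3 i hii3
    have h3 : A * (4 * Real.exp (-τ)) ≤ X.B0 * (4 * Real.exp (-(κ * 4 ^ i))) := by
      gcongr
    nlinarith
  have hfin : ∀ (w : ℂ) (x τ : ℝ), 0 ≤ x → κ * 4 ^ i ≤ τ →
      ‖w‖ ≤ Real.exp (-(A * x * (1 - 4 * Real.exp (-τ)))) →
      ENNReal.ofReal ((X.c k θ - (512 * X.L + 1) * hh i) * x) ≤ Muntz.nl w := by
    intro w x τ hx hτ hw
    apply R1_nl
    refine hw.trans (Real.exp_le_exp.2 ?_)
    have h1 := herr τ hτ
    have h2 : (X.c k θ - (512 * X.L + 1) * hh i) * x ≤ A * (1 - 4 * Real.exp (-τ)) * x :=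
      mul_le_mul_of_nonneg_right (by linarith) hx
    nlinarith
  have hκ1 : κ * 4 ^ i ≤ K * θ / 2 := by
    rw [hK, h4i, hκ]
    have : 5 / (12 * b0 * G) * 4 ^ i = 4 ^ i / G * (5 / (6 * b0)) / 2 := by
      field_simp; ring
    rw [this]
    gcongr
  have hκ2 : κ * 4 ^ i ≤ K / (2 * θ) := by
    have h1 : 5 / (6 * b0) ≤ 1 / θ := by
      rw [div_le_div_iff₀ (by positivity) hθ0]
      linarith
    rw [hK, h4i, hκ]
    have e1 : 5 / (12 * b0 * G) * 4 ^ i = 4 ^ i / G * (5 / (6 * b0)) / 2 := by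
      field_simp; ring
    have e2 : 4 ^ i / G / (2 * θ) = 4 ^ i / G * (1 / θ) / 2 := by
      field_simp
    rw [e1, e2]
    gcongr
  unfold aa Muntz.af
  refine le_iInf₂ ?_
  rintro ζ ⟨hζ1, hζ2⟩
  rw [ENNReal.le_div_iff_mul_le (Or.inl (by simpa using hζ2)) (Or.inl ENNReal.ofReal_ne_top),
    ← ENNReal.ofReal_mul hpos.le]
  show ENNReal.ofReal ((X.c k θ - (512 * X.L + 1) * hh i) * ζ.re) ≤ Muntz.nl (lf F l ζ)
  have hnθ : ‖(θ : ℂ)‖ = θ := by rw [Complex.norm_real, Real.norm_of_nonneg hθ0.le]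
  have h2k : (0 : ℝ) < 2 ^ k := by positivity
  rcases le_or_gt 0 (bl l) with hb1 | hb1
  · -- nonnegative intercept
    have hx : xl l = 0 := by
      unfold xl
      apply max_eq_left
      rw [← hθ]
      exact div_nonpos_of_nonpos_of_nonneg (by linarith) hθ0.le
    have e0 : lf F l ζ = F (ζ, (θ : ℂ) * ζ + (bl l : ℂ)) := by
      unfold lf
      rw [hx, Complex.ofReal_zero, zero_add]
    rw [e0]
    have hwre : ((θ : ℂ) * ζ + (bl l : ℂ)).re = θ * ζ.re + bl l := by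
      simp
    have hz : ‖ζ‖ ≤ 2 ^ (k + 2 * i) / K := by
      rw [hρK, hζ1]
      nlinarith
    have hw : ‖(θ : ℂ) * ζ + (bl l : ℂ)‖ ≤ 2 ^ (k + 2 * i) / K := by
      rw [hρK]
      refine (norm_add_le _ _).trans ?_
      rw [norm_mul, hnθ, hζ1, Complex.norm_real, Real.norm_eq_abs]
      have : θ * 2 ^ k ≤ 6 * b0 / 5 * 2 ^ k := mul_le_mul_of_nonneg_right ht2 h2k.le
      rw [hG]
      linarith
    have := nc_above X.env.hF (θ1 := θ) (A := A) (ρ := 2 ^ (k + 2 * i)) (K := K) hθ0 hA0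
      (by
        refine le_trans ?_ hKG
        rw [hG]
        linarith) hρ hP hz hw hζ2.le
      (by rw [hwre]; nlinarith [mul_pos hθ0 hζ2]) (by rw [hwre]; linarith)
    exact hfin _ ζ.re (K * θ / 2) hζ2.le hκ1 this
  · -- negative intercept
    have hx : xl l = -(bl l) / θ := by
      unfold xl
      apply max_eq_right
      rw [← hθ]
      exact div_nonneg (by linarith) hθ0.le
    have hθc : (θ : ℂ) ≠ 0 := by exact_mod_cast hθ0.ne'
    have e0 : lf F l ζ = F ((xl l : ℂ) + ζ, (θ : ℂ) * ζ) := by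
      unfold lf
      congr 2
      rw [← hθ, hx]
      push_cast
      field_simp
      ring
    rw [e0]
    have hx0 : 0 ≤ xl l := by rw [hx]; exact div_nonneg (by linarith) hθ0.le
    have hzre : ((xl l : ℂ) + ζ).re = xl l + ζ.re := by simp
    have hwre : ((θ : ℂ) * ζ).re = θ * ζ.re := by simp
    have hz : ‖(xl l : ℂ) + ζ‖ ≤ 2 ^ (k + 2 * i) / K := by
      rw [hρK]
      refine (norm_add_le _ _).trans ?_
      rw [hζ1, Complex.norm_real, Real.norm_of_nonneg hx0]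
      have h1 : xl l ≤ 2 ^ k * (6 * b0 / 5) := by
        rw [hx]
        calc -(bl l) / θ = -(bl l) * (1 / θ) := by ring
          _ ≤ 2 ^ k * (6 * b0 / 5) := by
            apply mul_le_mul _ hθinv (by positivity) h2k.le
            have := neg_abs_le (bl l)
            linarith
      rw [hG]
      linarith
    have hw : ‖(θ : ℂ) * ζ‖ ≤ 2 ^ (k + 2 * i) / K := by
      rw [hρK, norm_mul, hnθ, hζ1]
      have : θ * 2 ^ k ≤ 6 * b0 / 5 * 2 ^ k := mul_le_mul_of_nonneg_right ht2 h2k.le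
      rw [hG]
      linarith
    have := nc_below X.env.hF (θ2 := θ) (A := A) (ρ := 2 ^ (k + 2 * i)) (K := K) hθ0 hA0
      (by
        refine le_trans ?_ hKG
        rw [hG]
        linarith) hρ hP hz hw (by rw [hzre]; linarith)
      (by rw [hwre]; positivity) (by rw [hwre, hzre]; nlinarith)
    rw [hwre, mul_div_assoc, mul_comm θ, div_mul_cancel₀ _ hθ0.ne'] at this
    exact hfin _ ζ.re (K / (2 * θ)) hζ2.le hκ2 this

end MuntzF
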