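import Pool.Agent.Lib.MP_dde81e_full.R4

/-!
Module R10 (text 10.4): the trichotomy, and the maximal intervals `Mx`.
`tri`: `ηh = min (eta l j) e`.  Case `dl d > c6 ηh`: `nl > C2 min(eta, dl d) R ≥ C2 c6 ηh R` (`c6 ≤ 1`).  Case `dl d ≤ c6 ηh`: then
`min(eta, dl d) = dl d`, so `n = 0` satisfies `C(n): dl (anc d n) ≤ c6 ηh ∧ C2 dl (anc d n) R ≤ nl (anc d n)`; take the largest `n ≤ d.1` with `C(n)`,
`U = anc d n`.  If `2 dl U ≤ c6 ηh`, `Mx U` (`anc U m = anc d (n+m)`: `L2_anc_anc`; `nl_mono` not needed).  Otherwise `nk ≥ nl U ≥ C2 c6 ηh R/2`.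
In the remaining cases `nk ≥ c6 C2 ηh R/2`; if `eta ≥ e` this contradicts `nk_le` (`nk ≤ 3 b0 R`); so `eta < e`, `ηh = eta`.
`Mx_ub`: `U.1 ≥ 1` (`2 dl U ≤ c6 e ≤ 1`), the parent `anc U 1` has length `2 dl U`, and `nl_mono`.
`Mx_disj`: `dyadic_nested`.
-/

namespace MuntzF
open Set Metric MeasureTheory
open scoped ENNReal

theorem R10_anc_zero (d : ℕ × ℕ) : anc d 0 = d := by
  unfold anc
  simp

theorem R10_eta_nonneg (l : Ln) (j : ℕ) : 0 ≤ eta l j := by
  unfold eta ht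
  positivity

theorem tri (F : ℂ × ℂ → ℂ) {b0 : ℝ} (hb : 2 ≤ b0) {c6 e C2 : ℝ} (h6 : 0 < c6) (h6' : c6 ≤ 1) (he : 0 < e)
    (he' : e ≤ 1) (hC : 6 * b0 < C2 * c6 * e) (j : ℕ) (d : ℕ × ℕ) (l : Ln)
    (hn : C2 * min (eta l j) (dl d) * 2 ^ j < nl F b0 j d l) :
    (∃ n, n ≤ d.1 ∧ Mx F b0 c6 e C2 j l (anc d n)) ∨
    (eta l j < e ∧ c6 * C2 / 2 * eta l j * 2 ^ j ≤ nk F b0 j l) := by
  classical
  have hR : (0 : ℝ) < 2 ^ j := by positivity
  have hη0 := R10_eta_nonneg l j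
  have hh0 : 0 ≤ min (eta l j) e := le_min hη0 he.le
  have hC2 : 0 < C2 := by
    by_contra hcon
    have h1 : C2 * (c6 * e) ≤ 0 := mul_nonpos_of_nonpos_of_nonneg (not_lt.1 hcon) (by positivity)
    nlinarith
  have hch : c6 * min (eta l j) e ≤ min (eta l j) e := by
    nlinarith
  -- the final step
  have fin : C2 * (c6 * min (eta l j) e / 2) * 2 ^ j ≤ (nk F b0 j l : ℝ) →
      (eta l j < e ∧ c6 * C2 / 2 * eta l j * 2 ^ j ≤ nk F b0 j l) := by
    intro h1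
    by_cases h2 : eta l j < e
    · refine ⟨h2, ?_⟩
      rw [min_eq_left h2.le] at h1
      calc c6 * C2 / 2 * eta l j * 2 ^ j = C2 * (c6 * eta l j / 2) * 2 ^ j := by ring
        _ ≤ _ := h1
    · exfalso
      rw [min_eq_right (not_lt.1 h2)] at h1
      have h3 := nk_le F hb j l
      have h4 : C2 * (c6 * e / 2) * 2 ^ j ≤ 3 * b0 * 2 ^ j := h1.trans h3
      have h5 := le_of_mul_le_mul_right h4 hR
      nlinarith
  by_cases hd : dl d ≤ c6 * min (eta l j) e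
  · -- maximal ancestor
    have hmin : min (eta l j) (dl d) = dl d :=
      min_eq_right (hd.trans (hch.trans (min_le_left _ _)))
    let P : ℕ → Prop := fun n => dl (anc d n) ≤ c6 * min (eta l j) e ∧
      C2 * dl (anc d n) * 2 ^ j ≤ nl F b0 j (anc d n) l
    have hP0 : P 0 := by
      refine ⟨?_, ?_⟩
      · rw [R10_anc_zero]; exact hd
      · rw [R10_anc_zero]
        rw [hmin] at hn
        exact hn.le
    set n := Nat.findGreatest P d.1 with hndef
    have hPn : P n := Nat.findGreatest_spec (Nat.zero_le _) hP0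
    have hnd : n ≤ d.1 := Nat.findGreatest_le _
    have hmax : ∀ m, n < m → m ≤ d.1 → ¬ P m := fun m h1 h2 => Nat.findGreatest_is_greatest h1 h2
    by_cases h2 : 2 * dl (anc d n) ≤ c6 * min (eta l j) e
    · left
      refine ⟨n, hnd, h2, hPn.2, ?_⟩
      intro m hm1 hm2 hm3
      rw [L2_anc_anc] at hm3 ⊢
      have hm4 : n + m ≤ d.1 := by
        have : (anc d n).1 = d.1 - n := rfl
        rw [this] at hm2
        omega
      have h3 := hmax (n + m) (by omega) hm4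
      by_contra h4
      exact h3 ⟨hm3, not_lt.1 h4⟩
    · right
      apply fin
      have h3 : (nl F b0 j (anc d n) l : ℝ) ≤ nk F b0 j l := by
        exact_mod_cast nl_le_nk F hb j (anc d n) l
      refine le_trans ?_ (hPn.2.trans h3)
      have h4 : c6 * min (eta l j) e / 2 ≤ dl (anc d n) := by linarith [not_le.1 h2]
      exact mul_le_mul_of_nonneg_right (mul_le_mul_of_nonneg_left h4 hC2.le) hR.le
  · right
    apply fin
    have h3 : (nl F b0 j d l : ℝ) ≤ nk F b0 j l := by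
      exact_mod_cast nl_le_nk F hb j d l
    refine le_trans ?_ (hn.le.trans h3)
    have h4 : c6 * min (eta l j) e / 2 ≤ min (eta l j) (dl d) := by
      apply le_min
      · have := min_le_left (eta l j) e
        have h5 : 0 ≤ c6 * min (eta l j) e := by positivity
        linarith
      · have h5 : 0 ≤ c6 * min (eta l j) e := by positivity
        linarith [not_le.1 hd]
    exact mul_le_mul_of_nonneg_right (mul_le_mul_of_nonneg_left h4 hC2.le) hR.le

theorem Mx_ub (F : ℂ × ℂ → ℂ) {b0 : ℝ} (hb : 2 ≤ b0) {c6 e C2 : ℝ} (h6 : 0 < c6) (h6' : c6 * e ≤ 1)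
    {j : ℕ} {l : Ln} {U : ℕ × ℕ} (h : Mx F b0 c6 e C2 j l U) :
    (nl F b0 j U l : ℝ) ≤ 2 * C2 * dl U * 2 ^ j := by
  obtain ⟨h1, h2, h3⟩ := h
  have hU := L2_dl_pos U
  have hc : c6 * min (eta l j) e ≤ c6 * e := mul_le_mul_of_nonneg_left (min_le_right _ _) h6.le
  have h4 : 1 ≤ U.1 := by
    by_contra hcon
    have h5 : U.1 = 0 := by omega
    have h6 : dl U = 1 := by
      unfold dl
      rw [h5, pow_zero]
    rw [h6] at h1
    linarith
  obtain ⟨h5, -, h7⟩ := anc_sub U h4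
  have h8 := h3 1 le_rfl h4 (by rw [h7]; linarith)
  have h9 : (nl F b0 j U l : ℝ) ≤ nl F b0 j (anc U 1) l := by
    exact_mod_cast nl_mono F hb j h5 l
  rw [h7] at h8
  calc (nl F b0 j U l : ℝ) ≤ nl F b0 j (anc U 1) l := h9
    _ ≤ C2 * (2 ^ 1 * dl U) * 2 ^ j := h8.le
    _ = 2 * C2 * dl U * 2 ^ j := by ring

theorem R10_disj (F : ℂ × ℂ → ℂ) {b0 : ℝ} {c6 e C2 : ℝ} {j : ℕ} {l : Ln} {U U' : ℕ × ℕ}
    (h : Mx F b0 c6 e C2 j l U) (h' : Mx F b0 c6 e C2 j l U') (hU : U.1 ≤ U'.1)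
    (hm : (cell U ∩ cell U').Nonempty) : U = U' := by
  obtain ⟨h1, -⟩ := dyadic_nested U U' hU hm
  rcases Nat.eq_zero_or_pos (U'.1 - U.1) with h2 | h2
  · rw [h2, R10_anc_zero] at h1
    exact h1
  · exfalso
    have h3 := h'.2.2 (U'.1 - U.1) h2 (Nat.sub_le _ _)
    rw [← h1] at h3
    have h4 := L2_dl_pos U
    have h5 := h3 (by linarith [h.1])
    linarith [h.2.1]

theorem Mx_disj (F : ℂ × ℂ → ℂ) {b0 : ℝ} {c6 e C2 : ℝ} {j : ℕ} {l : Ln} {U U' : ℕ × ℕ}
    (h : Mx F b0 c6 e C2 j l U) (h' : Mx F b0 c6 e C2 j l U') (hn : U ≠ U') (h6 : 0 < c6) :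
    Disjoint (cell U) (cell U') := by
  by_contra hcon
  rw [Set.not_disjoint_iff_nonempty_inter] at hcon
  rcases le_total U.1 U'.1 with h1 | h1
  · exact hn (R10_disj F h h' h1 hcon)
  · rw [Set.inter_comm] at hcon
    exact hn (R10_disj F h' h h1 hcon).symm

end MuntzF
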