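import Pool.Agent.Lib.MP_dde81e_full.R8
import Pool.Agent.Lib.MP_dde81e_full.E10

/-!
Module R9 (text 10.6, N2b): if all levels over `U` are finer than `|U|^(6/5)` then the line is deep over `U`.
Proof.  `depthU` (`nl ≥ 1` as `C2 dl U 2^j ≥ 1`).  `i = U.1`, `θ ∈ cell U`, `lev = X.lv j θ`: `hh lev < (dl U)^(6/5) ≤ dl U`, so `i < lev ≤ j/100`.
`V = ht l`: `C2 |U| R ≤ nl ≤ 10|U|R/(ηV)+1`, `|U|R ≥ 1`, `C2 ≥ 2`: `ηV ≤ 10`, hence with `η ≥ 64|U|`: `V ≤ 1/|U| = 2^i ≤ 2^(20 lev)`.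
`c_j(θ) ≤ c_{j-4i}(θ) ≤ c_{j+4i}(θ) + 512 L |U|` (`lev_spec`, `c_anti`).  So (`x ≤ 4R`)
`x (c_{j+4i}(θ) - C5|U|) + c5 nl ≥ x c_j(θ) - 4R(512 L + C5)|U| + c5 C2 |U| R ≥ x c_j(θ) + |U| R` if `c5 C2 ≥ 4(512 L + C5) + 1`, and
`|U| ≥ (hh lev)^(5/6) ≥ hh lev lam lev^2 / 16` as `lam^2 = 2^(lev/4000)`.
-/

namespace MuntzF
open Set Metric MeasureTheory
open scoped ENNReal

/-- `h lam^2 ≤ u` if `h < u^(6/5)`. -/
theorem R9_hlam {u : ℝ} (hu : 0 < u) (n : ℕ) (h : hh n < u ^ ((6 : ℝ) / 5)) :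
    hh n * lam n ^ 2 ≤ u := by
  have hh0 : 0 < hh n := by unfold hh; positivity
  have hlogh : Real.log (hh n) = -(n * Real.log 2) := by
    unfold hh
    rw [Real.log_pow, one_div, Real.log_inv]; ring
  have hlogl : Real.log (lam n ^ 2) = (n : ℝ) / 4000 * Real.log 2 := by
    rw [E10_lam_sq, Real.log_rpow (by norm_num)]
  have hl0 : 0 < lam n ^ 2 := by
    unfold lam
    positivity
  have h1 : Real.log (hh n) < 6 / 5 * Real.log u := by
    have := Real.log_lt_log hh0 h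
    rwa [Real.log_rpow hu] at this
  have hlog2 : 0 < Real.log 2 := Real.log_pos (by norm_num)
  have hn : (0 : ℝ) ≤ n := Nat.cast_nonneg n
  have h2 : Real.log (hh n * lam n ^ 2) ≤ Real.log u := by
    rw [Real.log_mul hh0.ne' hl0.ne', hlogl, hlogh]
    rw [hlogh] at h1
    have h3 : 0 ≤ (n : ℝ) * Real.log 2 := by positivity
    linarith
  exact (Real.log_le_log_iff (by positivity) hu).1 h2

theorem n2b {F : ℂ × ℂ → ℂ} {b0 : ℝ} (X : Ctx F b0) : ∃ (C2m : ℝ) (k1 : ℕ), 0 < C2m ∧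
    ∀ (C2 : ℝ) (j : ℕ) (U : ℕ × ℕ) (l : Ln), C2m ≤ C2 → k1 ≤ j → 64 * dl U ≤ eta l j →
    1000 * b0 * dl U ≤ 1 → C2 * dl U * 2 ^ j ≤ nl F b0 j U l → 1 ≤ dl U * 2 ^ j →
    (∀ θ ∈ cell U, hh (X.lv j θ) < dl U ^ ((6 : ℝ) / 5)) → cell U ⊆ Dg X j l := by
  obtain ⟨c5, C5, hc5, hC5, h8⟩ := depthU X
  have hcs := X.env.cs
  have hb := hcs.hb
  have hL := hcs.hL
  refine ⟨max 2 ((4 * (512 * X.L + C5) + 1) / c5), 2 * X.j0 + 100, by positivity, ?_⟩
  intro C2 j U l hC2 hj heta hbU hnl h1R hlev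
  have hC2a : 2 ≤ C2 := (le_max_left _ _).trans hC2
  have hC2b : 4 * (512 * X.L + C5) + 1 ≤ c5 * C2 := by
    have := (le_max_right _ _).trans hC2
    rw [div_le_iff₀ hc5] at this
    linarith
  have hu : 0 < dl U := L2_dl_pos U
  have hR : (0 : ℝ) < 2 ^ j := by positivity
  set u := dl U with hud
  have hnl1 : 1 ≤ nl F b0 j U l := by
    have : (1 : ℝ) ≤ nl F b0 j U l := by
      refine le_trans ?_ hnl
      nlinarith
    exact_mod_cast this
  obtain ⟨hI2, hub, hdeep⟩ := h8 j U l (by omega) heta hbU hnl1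
  have heta0 : 0 < eta l j := by linarith
  obtain ⟨hV1, -, -⟩ := E10_ht l
  have hV0 : 0 < ht l := by linarith
  have hu1 : u ≤ 1 := by
    rw [hud]; unfold dl
    exact pow_le_one₀ (by norm_num) (by norm_num)
  -- height
  have hVu : ht l * u ≤ 1 := by
    have h2 : C2 * u * 2 ^ j ≤ 10 * u * 2 ^ j / (eta l j * ht l) + 1 := hnl.trans hub
    have h3 : u * 2 ^ j ≤ 10 * u * 2 ^ j / (eta l j * ht l) := by nlinarith
    rw [le_div_iff₀ (by positivity)] at h3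
    have h4 : eta l j * ht l ≤ 10 := by
      have h5 : 0 < u * 2 ^ j := by positivity
      have h6 : (u * 2 ^ j) * (eta l j * ht l) ≤ (u * 2 ^ j) * 10 := by linarith
      exact le_of_mul_le_mul_left h6 h5
    nlinarith
  intro θ hθ
  have hθ2 := hI2 hθ
  have hθ1 : θ ∈ I1 b0 := by
    have hb0 : 0 < b0 := by linarith
    obtain ⟨a1, a2⟩ := hθ2
    refine ⟨le_trans ?_ a1, le_trans a2 ?_⟩
    · rw [div_le_div_iff₀ (by positivity) (by positivity)]; linarith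
    · linarith
  have hl := hlev θ hθ
  -- level
  have hUi : U.1 < X.lv j θ := by
    have h1 : hh (X.lv j θ) < u := by
      refine hl.trans_le ?_
      calc u ^ ((6 : ℝ) / 5) ≤ u ^ (1 : ℝ) :=
            Real.rpow_le_rpow_of_exponent_ge hu hu1 (by norm_num)
        _ = u := Real.rpow_one u
    have h2 : ((1 : ℝ) / 2) ^ X.lv j θ < (1 / 2) ^ U.1 := h1
    exact (pow_lt_pow_iff_right_of_lt_one₀ (by norm_num) (by norm_num)).1 h2
  have hvj : X.lv j θ ≤ j / 100 := lev_le _ _ _ _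
  have hee := lev_spec hcs hj hθ1 (hUi.le : U.1 ≤ lev X.c X.L j θ)
  have hca : X.c j θ ≤ X.c (j - 4 * U.1) θ := c_anti hcs (by omega) (by omega) hθ1
  have hcc : X.c j θ - 512 * X.L * u ≤ X.c (j + 4 * U.1) θ := by
    have h2 : ee X.c j U.1 θ = X.c (j - 4 * U.1) θ - X.c (j + 4 * U.1) θ := rfl
    have h3 : ((1 : ℝ) / 2) ^ U.1 = u := rfl
    rw [h2, h3] at hee
    linarith
  obtain ⟨x, hx1, hx2, hon, hF⟩ := hdeep θ hθ
  refine ⟨hθ2, ?_, x, hx1, hx2, hon, hF.trans (Real.exp_le_exp.2 ?_)⟩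
  · have h2 : u * 2 ^ U.1 = 1 := by
      rw [hud]; unfold dl
      rw [← mul_pow]; norm_num
    have h3 : ht l ≤ 2 ^ U.1 := by
      have h4 : ht l * u ≤ 2 ^ U.1 * u := by linarith
      exact le_of_mul_le_mul_right h4 hu
    refine h3.trans ?_
    exact pow_le_pow_right₀ (by norm_num) (by omega)
  · have h2 := R9_hlam hu _ hl
    have h3 : (0 : ℝ) ≤ x := by linarith
    have h4 : x * (X.c j θ - (512 * X.L + C5) * u) ≤ x * (X.c (j + 4 * U.1) θ - C5 * u) := by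
      apply mul_le_mul_of_nonneg_left _ h3
      linarith
    have h5 : x * ((512 * X.L + C5) * u) ≤ 4 * 2 ^ j * ((512 * X.L + C5) * u) := by
      apply mul_le_mul_of_nonneg_right hx2
      positivity
    have h6 : c5 * (C2 * u * 2 ^ j) ≤ c5 * nl F b0 j U l := mul_le_mul_of_nonneg_left hnl hc5.le
    have h7 : (4 * (512 * X.L + C5) + 1) * (u * 2 ^ j) ≤ c5 * C2 * (u * 2 ^ j) := by
      apply mul_le_mul_of_nonneg_right hC2b
      positivity
    have h8 : hh (X.lv j θ) * lam (X.lv j θ) ^ 2 * 2 ^ j ≤ u * 2 ^ j :=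
      mul_le_mul_of_nonneg_right h2 hR.le
    have h9 : 0 ≤ hh (X.lv j θ) * lam (X.lv j θ) ^ 2 * 2 ^ j := by
      unfold hh; positivity
    nlinarith

end MuntzF
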