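import Pool.Agent.Lib.MP_dde81e_full.R6
import Pool.Agent.Lib.MP_dde81e_full.R9
import Pool.Agent.Lib.MP_dde81e_full.R10
import Pool.Agent.Lib.MP_dde81e_full.E10

/-!
Module R11 (text 10.4 (D) and 10.6 (N2b)): the contributions paid by `pay_cells`.
`sumD`: `valley_slopes` (second part, `rich_cell`, `ij_large`): `vol(Dg X j l ∩ cell d) ≥ c1 min(eta, dl d)`, so each term is
`≤ C2 min(eta, dl d)/2^j ≤ (C2/c1) vol(Dg X j l ∩ cell d)/2^j`; `pay_cells` (cells of different windows at the same scale are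
disjoint: `win_disj`).
`sumB`: for each triple choose `n`, `U = anc d n`.  For a fixed `(j,U,l)` the sum of `nl F b0 j d l` over the windows `d` with `cell d ⊆ cell U`
is `≤ nl F b0 j U l` (`nl_add`) `≤ 2 C2 dl U 2^j` (`Mx_ub`), and `cell U ⊆ Dg X j l` (`n2b`), so the sum over the triples is
`≤ ∑_{(j,U,l)} 2 C2 vol(Dg X j l ∩ cell U)/2^j`; `pay_cells` with `Mx_disj`.
(`eta ≥ 64 dl U` since `2 dl U ≤ c6 eta`, `c6 ≤ 1/32`; `1 ≤ dl U 2^j`: `dl U ≥ dl d`, `win_len` and `X.ij j d ≤ j/100`: `L2_iJ_le`.)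
-/

namespace MuntzF
open Set Metric MeasureTheory
open scoped ENNReal

/-- from the ENNReal bound of the volumes to the bound of the real sum. -/
theorem R11_sum {F : ℂ × ℂ → ℂ} {b0 : ℝ} (X : Ctx F b0) {K C : ℝ} (hK : 0 ≤ K) (hC : 0 ≤ C)
    (E : Finset (ℕ × (ℕ × ℕ) × Ln)) (g : ℕ × (ℕ × ℕ) × Ln → ℝ) (hg : ∀ e ∈ E, 0 ≤ g e)
    (h : ∀ e ∈ E, ENNReal.ofReal (g e * 2 ^ e.1) ≤
      ENNReal.ofReal K * volume (Dg X e.1 e.2.2 ∩ cell e.2.1))
    (hp : ∑ e ∈ E, volume (Dg X e.1 e.2.2 ∩ cell e.2.1) / 2 ^ e.1 ≤ ENNReal.ofReal C) :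
    ∑ e ∈ E, g e ≤ K * C := by
  have h1 : ∑ e ∈ E, ENNReal.ofReal (g e) ≤ ENNReal.ofReal K * ENNReal.ofReal C := by
    calc ∑ e ∈ E, ENNReal.ofReal (g e)
        ≤ ∑ e ∈ E, ENNReal.ofReal K * (volume (Dg X e.1 e.2.2 ∩ cell e.2.1) / 2 ^ e.1) := by
          apply Finset.sum_le_sum
          intro e he
          have h2 := h e he
          rw [← mul_div_assoc]
          rw [ENNReal.le_div_iff_mul_le (by left; positivity)
            (by left; exact ENNReal.pow_ne_top (by norm_num))]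
          refine le_trans (le_of_eq ?_) h2
          rw [ENNReal.ofReal_mul (hg e he), ENNReal.ofReal_pow (by norm_num)]
          norm_num
      _ = ENNReal.ofReal K * ∑ e ∈ E, (volume (Dg X e.1 e.2.2 ∩ cell e.2.1) / 2 ^ e.1) := by
          rw [Finset.mul_sum]
      _ ≤ ENNReal.ofReal K * ENNReal.ofReal C := by gcongr
  rw [← ENNReal.ofReal_sum_of_nonneg hg, ← ENNReal.ofReal_mul hK] at h1
  exact (ENNReal.ofReal_le_ofReal_iff (by positivity)).1 h1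

theorem sumD {F : ℂ × ℂ → ℂ} {b0 : ℝ} (X : Ctx F b0) (C2 : ℝ) (hC2 : 0 < C2) : ∃ (C : ℝ) (k1 : ℕ),
    ∀ E : Finset (ℕ × (ℕ × ℕ) × Ln), (∀ e ∈ E, k1 ≤ e.1 ∧ X.win e.1 e.2.1 ∧ Rich X e.1 e.2.1 e.2.2 ∧
      (nl F b0 e.1 e.2.1 e.2.2 : ℝ) ≤ C2 * min (eta e.2.2 e.1) (dl e.2.1) * 2 ^ e.1) →
    ∑ e ∈ E, (nl F b0 e.1 e.2.1 e.2.2 : ℝ) / 4 ^ e.1 ≤ C := by
  obtain ⟨c1, i1, hc1, hvs⟩ := valley_slopes X
  obtain ⟨j1, hj1⟩ := ij_large X i1
  obtain ⟨C, k0, hC, hpay⟩ := pay_cells X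
  refine ⟨C2 / c1 * C, max j1 k0, ?_⟩
  intro E hE
  apply R11_sum X (by positivity) hC.le E
  · intro e he
    positivity
  · intro e he
    obtain ⟨hk, hw, hr, hn⟩ := hE e he
    obtain ⟨⟨x0, θ0, hx1, hx2, hθ, hv⟩, -⟩ := id hr
    have h1 := (hvs e.1 e.2.1 x0 θ0 e.2.2 hw (hj1 _ _ ((le_max_left _ _).trans hk) hw)
      (rich_cell X hw hr) hx1 hx2 hθ hv).2
    calc ENNReal.ofReal ((nl F b0 e.1 e.2.1 e.2.2 : ℝ) / 4 ^ e.1 * 2 ^ e.1)
        ≤ ENNReal.ofReal (C2 / c1 * (c1 * min (eta e.2.2 e.1) (dl e.2.1))) := by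
          apply ENNReal.ofReal_le_ofReal
          have h4 : (4 : ℝ) ^ e.1 = 2 ^ e.1 * 2 ^ e.1 := by
            rw [← mul_pow]; norm_num
          have h2 : (nl F b0 e.1 e.2.1 e.2.2 : ℝ) / 4 ^ e.1 * 2 ^ e.1 =
              (nl F b0 e.1 e.2.1 e.2.2 : ℝ) / 2 ^ e.1 := by
            rw [h4]
            field_simp
          rw [h2, div_le_iff₀ (by positivity)]
          have h3 : C2 / c1 * (c1 * min (eta e.2.2 e.1) (dl e.2.1)) =
              C2 * min (eta e.2.2 e.1) (dl e.2.1) := by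
            field_simp
          rw [h3]
          exact hn
      _ = ENNReal.ofReal (C2 / c1) * ENNReal.ofReal (c1 * min (eta e.2.2 e.1) (dl e.2.1)) := by
          rw [ENNReal.ofReal_mul (by positivity)]
      _ ≤ ENNReal.ofReal (C2 / c1) * volume (Dg X e.1 e.2.2 ∩ cell e.2.1) := by gcongr
  · apply hpay
    · intro e he
      exact (le_max_right _ _).trans (hE e he).1
    · intro e he e' he' h1 h2 h3
      rw [Set.disjoint_iff_inter_eq_empty]
      by_contra hne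
      apply h3
      have hw := (hE e he).2.1.2
      have hw' := (hE e' he').2.1.2
      rw [← h1] at hw'
      exact win_disj hw hw' (Set.nonempty_iff_ne_empty.2 hne)

theorem sumB {F : ℂ × ℂ → ℂ} {b0 : ℝ} (X : Ctx F b0) : ∃ C2m : ℝ, 0 < C2m ∧ ∀ (c6 e0 C2 : ℝ), 0 < c6 →
    c6 ≤ 1 / 32 → 0 < e0 → 500 * b0 * (c6 * e0) ≤ 1 → C2m ≤ C2 → ∃ (C : ℝ) (k1 : ℕ),
    ∀ E : Finset (ℕ × (ℕ × ℕ) × Ln), (∀ e ∈ E, k1 ≤ e.1 ∧ X.win e.1 e.2.1 ∧ Rich X e.1 e.2.1 e.2.2 ∧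
      ∃ n, n ≤ e.2.1.1 ∧ Mx F b0 c6 e0 C2 e.1 e.2.2 (anc e.2.1 n) ∧
        ∀ θ ∈ cell (anc e.2.1 n), hh (X.lv e.1 θ) < dl (anc e.2.1 n) ^ ((6 : ℝ) / 5)) →
    ∑ e ∈ E, (nl F b0 e.1 e.2.1 e.2.2 : ℝ) / 4 ^ e.1 ≤ C := by
  classical
  obtain ⟨C2m, k2, hC2m, hn2b⟩ := n2b X
  obtain ⟨C, k0, hC, hpay⟩ := pay_cells X
  have hcs := X.env.cs
  have hb := hcs.hb
  refine ⟨C2m, hC2m, ?_⟩
  intro c6 e0 C2 hc6 hc6' he0 hbe hC2
  have hC20 : 0 < C2 := by linarith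
  refine ⟨2 * C2 * C, max (max k2 k0) X.w0, ?_⟩
  intro E hE
  choose! n hn using fun e he => (hE e he).2.2.2
  -- the map to the maximal intervals
  set φ : ℕ × (ℕ × ℕ) × Ln → ℕ × (ℕ × ℕ) × Ln := fun e => (e.1, anc e.2.1 (n e), e.2.2) with hφ
  set E' := E.image φ with hE'
  have hce : c6 * e0 ≤ 1 := by nlinarith [mul_pos hc6 he0]
  -- properties of the elements of E'
  have key : ∀ e ∈ E, 64 * dl (anc e.2.1 (n e)) ≤ eta e.2.2 e.1 ∧
      1000 * b0 * dl (anc e.2.1 (n e)) ≤ 1 ∧ 1 ≤ dl (anc e.2.1 (n e)) * 2 ^ e.1 ∧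
      cell (anc e.2.1 (n e)) ⊆ Dg X e.1 e.2.2 := by
    intro e he
    obtain ⟨hk, hw, hr, -⟩ := hE e he
    obtain ⟨hn1, hM, hlev⟩ := hn e he
    have hdp := L2_dl_pos (anc e.2.1 (n e))
    have hη0 : 0 ≤ eta e.2.2 e.1 := by
      unfold eta
      have := (E10_ht e.2.2).1
      positivity
    have hm1 : min (eta e.2.2 e.1) e0 ≤ eta e.2.2 e.1 := min_le_left _ _
    have hm2 : min (eta e.2.2 e.1) e0 ≤ e0 := min_le_right _ _
    have a1 : 64 * dl (anc e.2.1 (n e)) ≤ eta e.2.2 e.1 := by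
      have h1 := hM.1
      have h2 : c6 * min (eta e.2.2 e.1) e0 ≤ 1 / 32 * eta e.2.2 e.1 :=
        mul_le_mul hc6' hm1 (le_min hη0 he0.le) (by norm_num)
      linarith
    have a2 : 1000 * b0 * dl (anc e.2.1 (n e)) ≤ 1 := by
      have h1 := hM.1
      have h2 : c6 * min (eta e.2.2 e.1) e0 ≤ c6 * e0 := mul_le_mul_of_nonneg_left hm2 hc6.le
      have h3 : 500 * b0 * (2 * dl (anc e.2.1 (n e))) ≤ 500 * b0 * (c6 * e0) := by
        apply mul_le_mul_of_nonneg_left (h1.trans h2)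
        linarith
      linarith
    have a3 : 1 ≤ dl (anc e.2.1 (n e)) * 2 ^ e.1 := by
      have hd : e.2.1.1 ≤ e.1 := by
        rcases win_len hcs (by linarith [X.hw0] : 400 * b0 ≤ 2 ^ X.w0) hw.1 hw.2 with h | h
        · rw [h]
          exact (le_max_right _ _).trans hk
        · have h1 := L2_iJ_le hcs e.1 e.2.1
          omega
      rw [(anc_sub e.2.1 hn1).2.2]
      have h1 : dl e.2.1 * 2 ^ e.1 = 2 ^ (e.1 - e.2.1.1) := by
        unfold dl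
        have h2 : (2 : ℝ) ^ e.1 = 2 ^ e.2.1.1 * 2 ^ (e.1 - e.2.1.1) := by
          rw [← pow_add]
          congr 1
          omega
        rw [h2, ← mul_assoc, ← mul_pow]
        norm_num
      rw [mul_assoc, h1]
      exact one_le_mul_of_one_le_of_one_le (one_le_pow₀ (by norm_num)) (one_le_pow₀ (by norm_num))
    exact ⟨a1, a2, a3, hn2b C2 e.1 _ e.2.2 hC2
      ((le_max_left _ _).trans ((le_max_left _ _).trans hk)) a1 a2 hM.2.1 a3 hlev⟩
  -- the fibres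
  have hfib : ∑ e ∈ E, (nl F b0 e.1 e.2.1 e.2.2 : ℝ) / 4 ^ e.1 ≤
      ∑ e' ∈ E', (nl F b0 e'.1 e'.2.1 e'.2.2 : ℝ) / 4 ^ e'.1 := by
    rw [← Finset.sum_fiberwise_of_maps_to (g := φ) (t := E')
      (fun e he => Finset.mem_image_of_mem φ he)]
    apply Finset.sum_le_sum
    intro e' he'
    have hmem : ∀ e ∈ E.filter (fun e => φ e = e'), e ∈ E ∧ e.1 = e'.1 ∧
        anc e.2.1 (n e) = e'.2.1 ∧ e.2.2 = e'.2.2 := by
      intro e he
      rw [Finset.mem_filter] at he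
      obtain ⟨h1, h2⟩ := he
      rw [← h2]
      exact ⟨h1, rfl, rfl, rfl⟩
    set S := (E.filter (fun e => φ e = e')).image (fun e => e.2.1) with hS
    have h1 : ∑ e ∈ E.filter (fun e => φ e = e'), (nl F b0 e.1 e.2.1 e.2.2 : ℝ) / 4 ^ e.1 =
        ∑ d ∈ S, (nl F b0 e'.1 d e'.2.2 : ℝ) / 4 ^ e'.1 := by
      rw [hS, Finset.sum_image]
      · apply Finset.sum_congr rfl
        intro e he
        obtain ⟨-, h2, -, h3⟩ := hmem e he
        rw [h2, h3]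
      · intro a ha b hb' hab
        obtain ⟨-, h2, -, h3⟩ := hmem a ha
        obtain ⟨-, h4, -, h5⟩ := hmem b hb'
        exact Prod.ext (h2.trans h4.symm) (Prod.ext hab (h3.trans h5.symm))
    rw [h1, ← Finset.sum_div]
    apply div_le_div_of_nonneg_right _ (by positivity)
    have h2 := nl_add F hb e'.1 e'.2.1 e'.2.2 S ?_ ?_
    · exact_mod_cast h2
    · intro d hd
      rw [hS, Finset.mem_image] at hd
      obtain ⟨e, he, rfl⟩ := hd
      obtain ⟨h2, -, h3, -⟩ := hmem e he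
      rw [← h3]
      exact (anc_sub e.2.1 (hn e h2).1).1
    · intro d hd d' hd' hne
      rw [hS, Finset.mem_image] at hd hd'
      obtain ⟨e, he, rfl⟩ := hd
      obtain ⟨f, hf, rfl⟩ := hd'
      obtain ⟨h2, h3, -, -⟩ := hmem e he
      obtain ⟨h4, h5, -, -⟩ := hmem f hf
      rw [Set.disjoint_iff_inter_eq_empty]
      by_contra hne'
      apply hne
      have hw := (hE e h2).2.1.2
      have hw' := (hE f h4).2.1.2
      rw [h3] at hw
      rw [h5] at hw'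
      exact win_disj hw hw' (Set.nonempty_iff_ne_empty.2 hne')
  refine hfib.trans ?_
  apply R11_sum X (by positivity) hC.le E'
  · intro e he
    positivity
  · intro e' he'
    rw [hE', Finset.mem_image] at he'
    obtain ⟨e, he, rfl⟩ := he'
    obtain ⟨a1, a2, a3, a4⟩ := key e he
    obtain ⟨hn1, hM, hlev⟩ := hn e he
    have hub := Mx_ub F hb hc6 hce hM
    show ENNReal.ofReal ((nl F b0 e.1 (anc e.2.1 (n e)) e.2.2 : ℝ) / 4 ^ e.1 * 2 ^ e.1) ≤
      ENNReal.ofReal (2 * C2) * volume (Dg X e.1 e.2.2 ∩ cell (anc e.2.1 (n e)))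
    rw [Set.inter_eq_self_of_subset_right a4]
    have hvol : volume (cell (anc e.2.1 (n e))) = ENNReal.ofReal (dl (anc e.2.1 (n e))) := by
      unfold cell
      rw [Real.volume_Ico]
      congr 1
      ring
    rw [hvol, ← ENNReal.ofReal_mul (by positivity)]
    apply ENNReal.ofReal_le_ofReal
    have h4 : (4 : ℝ) ^ e.1 = 2 ^ e.1 * 2 ^ e.1 := by
      rw [← mul_pow]; norm_num
    have h2 : (nl F b0 e.1 (anc e.2.1 (n e)) e.2.2 : ℝ) / 4 ^ e.1 * 2 ^ e.1 =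
        (nl F b0 e.1 (anc e.2.1 (n e)) e.2.2 : ℝ) / 2 ^ e.1 := by
      rw [h4]
      field_simp
    rw [h2, div_le_iff₀ (by positivity)]
    exact hub
  · apply hpay
    · intro e' he'
      rw [hE', Finset.mem_image] at he'
      obtain ⟨e, he, rfl⟩ := he'
      exact (le_max_right _ _).trans ((le_max_left _ _).trans (hE e he).1)
    · intro e1 he1 e2 he2 h1 h2 h3
      rw [hE', Finset.mem_image] at he1 he2
      obtain ⟨e, he, rfl⟩ := he1
      obtain ⟨f, hf, rfl⟩ := he2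
      have hM := (hn e he).2.1
      have hM' := (hn f hf).2.1
      have h1' : e.1 = f.1 := h1
      have h2' : e.2.2 = f.2.2 := h2
      rw [← h1', ← h2'] at hM'
      exact Mx_disj F hM hM' h3 hc6

end MuntzF
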