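import Pool.Agent.Lib.MP_dde81e_full.R4
import Pool.Agent.Lib.MP_dde81e_full.E11

/-!
Module R7 (text 10.2): number of rich lines of a window which are not too flat: `valley_count2` (E11) and `rich_cell` (R4).
-/

namespace MuntzF
open Set Metric MeasureTheory
open scoped ENNReal

theorem rich_count {F : ℂ × ℂ → ℂ} {b0 : ℝ} (X : Ctx F b0) (c' : ℝ) (hc : 0 < c') :
    ∃ (C : ℝ) (i1 : ℕ), 0 < C ∧ ∀ (j : ℕ) (d : ℕ × ℕ) (LL : Finset Ln), X.win j d → i1 ≤ X.ij j d →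
    (∀ l ∈ LL, Rich X j d l ∧ c' * dl d ≤ eta l j) →
    (LL.card : ℝ) ≤ C * hh (X.ij j d) * 2 ^ j := by
  obtain ⟨C, i1, hC, H⟩ := valley_count2 X c' hc
  refine ⟨C, i1, hC, ?_⟩
  intro j d LL hw hi hLL
  rcases LL.eq_empty_or_nonempty with he | ⟨l, hl⟩
  · subst he
    have : (0 : ℝ) < hh (X.ij j d) := by unfold hh; positivity
    simp only [Finset.card_empty, Nat.cast_zero]
    positivity
  · exact H j d LL hw hi (rich_cell X hw (hLL l hl).1) (fun l hl => ⟨(hLL l hl).2, (hLL l hl).1.1⟩)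

end MuntzF
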