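import Pool.Agent.Lib.MP_dde81e_full.R5
import Pool.Agent.Lib.MP_dde81e_full.R7
import Pool.Agent.Lib.MP_dde81e_full.R10

/-!
Module R12 (text 10.6 (N2c)).
Choose `n`, `U = anc d n` for each triple `(j,d,l)`.  (1) For a fixed `(j,U,l)`: `∑_d nl F b0 j d l ≤ nl F b0 j U l ≤ 2 C2 dl U 2^j`.
(2) For a fixed `(j,U)` the number of lines `l` is `≤ ∑_{d ⊆ U} C h_d 2^j ≤ C 2^j ∑_{d ⊆ U} 2^(w0+1) dl d ≤ C 2^j dl U`: each `l` has a window `d`
with `cell d ⊆ cell U`, Rich, `dl d ≤ dl U ≤ eta l j` (`rich_count` with `c' = 1`; `win_len`: `h_d ≤ 2 dl d` or `dl d = 2^-w0`; the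
cells are disjoint in `cell U`, so `∑ dl d ≤ dl U`).  So the total of `(j,U)` is `≤ C (dl U)^2`.
(3) There is `θ ∈ cell U` with `dl U^(6/5) ≤ hh (X.lv j θ)`.  `cell U ⊆ I2`: `cell U` contains a zero slope (in `I0`) and `dl U ≤ 1/(1000 b0)`.  Let
`d''` be the window at scale `j` with `θ ∈ cell d''` (`win_cover`).  `cell d'' ⊆ cell U`: otherwise (`dyadic_nested`) `cell U ⊆ cell d''`, so the
window `d` with `cell d ⊆ cell U` equals `d''` (`win_disj`).  `dl U^(6/5) ≤ hh(lev) ≤ h'' := hh (X.ij j d'')` (`win_lev`), so `dl U ≤ h''^(5/6)`,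
and `U` is an ancestor of `d''`.  For fixed `(j,d'')`, the sum of `(dl U)^2` over the ancestors with `dl U ≤ h''^(5/6)` is a geometric
series `≤ (4/3) h''^(5/3)`.  Sum over `(j,d'')`: `ws`.
-/

namespace MuntzF
open Set Metric MeasureTheory
open scoped ENNReal

theorem R12_cell_ne (d : ℕ × ℕ) : (cell d).Nonempty := by
  have h := L2_dl_pos d
  refine ⟨(d.2 : ℝ) * dl d, le_rfl, ?_⟩
  nlinarith

theorem R12_vol (d : ℕ × ℕ) : volume (cell d) = ENNReal.ofReal (dl d) := by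
  unfold cell
  rw [Real.volume_Ico]
  congr 1
  ring

theorem R12_meas (d : ℕ × ℕ) : MeasurableSet (cell d) := measurableSet_Ico

/-- disjoint cells in a cell. -/
theorem R12_sum_dl (D : Finset (ℕ × ℕ)) (U : ℕ × ℕ) (hS : ∀ d ∈ D, cell d ⊆ cell U)
    (hd : ∀ d ∈ D, ∀ d' ∈ D, d ≠ d' → Disjoint (cell d) (cell d')) : ∑ d ∈ D, dl d ≤ dl U := by
  have h1 : volume (⋃ d ∈ D, cell d) = ∑ d ∈ D, volume (cell d) :=
    measure_biUnion_finset (fun d hd1 d' hd2 hne => hd d hd1 d' hd2 hne) (fun d _ => R12_meas d)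
  have h2 : volume (⋃ d ∈ D, cell d) ≤ volume (cell U) :=
    measure_mono (Set.iUnion₂_subset hS)
  rw [h1, R12_vol] at h2
  have h3 : ∑ d ∈ D, volume (cell d) = ENNReal.ofReal (∑ d ∈ D, dl d) := by
    rw [ENNReal.ofReal_sum_of_nonneg (fun d _ => (L2_dl_pos d).le)]
    exact Finset.sum_congr rfl (fun d _ => R12_vol d)
  rw [h3] at h2
  exact (ENNReal.ofReal_le_ofReal_iff (L2_dl_pos U).le).1 h2

theorem R12_eta_nonneg (l : Ln) (j : ℕ) : 0 ≤ eta l j := by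
  unfold eta
  have : 0 ≤ ht l := le_trans (Nat.cast_nonneg _) (le_max_left _ _)
  positivity

theorem R12_hh {F : ℂ × ℂ → ℂ} {b0 : ℝ} (X : Ctx F b0) {j : ℕ} {d : ℕ × ℕ} (hw : X.win j d) :
    hh (X.ij j d) ≤ 2 ^ (X.w0 + 1) * dl d := by
  have hb : 2 ≤ b0 := X.env.cs.hb
  have hw0 : 400 * b0 ≤ 2 ^ X.w0 := by have := X.hw0; linarith
  have hp := L2_dl_pos d
  have e1 : (2 : ℝ) ^ (X.w0 + 1) = 2 * 2 ^ X.w0 := by ring
  have e2 : (1 : ℝ) ≤ 2 ^ X.w0 := one_le_pow₀ (by norm_num)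
  rcases win_len X.env.cs hw0 hw.1 hw.2 with h | ⟨-, h⟩
  · have h1 : hh (X.ij j d) ≤ 1 := by
      unfold hh
      exact pow_le_one₀ (by norm_num) (by norm_num)
    have h2 : (2 : ℝ) ^ X.w0 * dl d = 1 := by
      unfold dl
      rw [h, ← mul_pow]
      norm_num
    rw [e1]
    nlinarith
  · have h1 : hh (X.ij j d) ≤ 2 * dl d := h
    rw [e1]
    nlinarith

/-- total of a fixed `(j,U)`. -/
theorem R12_A {F : ℂ × ℂ → ℂ} {b0 : ℝ} (X : Ctx F b0) {c6 e0 C2 C7 : ℝ} {i1 : ℕ} (hc1 : c6 ≤ 1 / 32) (hc0 : 0 < c6)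
    (hce : c6 * e0 ≤ 1) (hC2 : 0 < C2) (hC7 : 0 < C7)
    (hrc : ∀ (j : ℕ) (d : ℕ × ℕ) (LL : Finset Ln), X.win j d → i1 ≤ X.ij j d →
      (∀ l ∈ LL, Rich X j d l ∧ 1 * dl d ≤ eta l j) → (LL.card : ℝ) ≤ C7 * hh (X.ij j d) * 2 ^ j)
    (j : ℕ) (U : ℕ × ℕ) (E : Finset ((ℕ × ℕ) × Ln))
    (hE : ∀ p ∈ E, X.win j p.1 ∧ i1 ≤ X.ij j p.1 ∧ Rich X j p.1 p.2 ∧ cell p.1 ⊆ cell U ∧ dl p.1 ≤ dl U ∧
      Mx F b0 c6 e0 C2 j p.2 U) :
    ∑ p ∈ E, (nl F b0 j p.1 p.2 : ℝ) ≤ C7 * 2 ^ (X.w0 + 1) * (2 * C2) * 4 ^ j * dl U ^ 2 := by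
  classical
  have hb : 2 ≤ b0 := X.env.cs.hb
  have hU := L2_dl_pos U
  have hdis : ∀ p ∈ E, ∀ p' ∈ E, p.1 ≠ p'.1 → Disjoint (cell p.1) (cell p'.1) := by
    intro p hp p' hp' hne
    rw [Set.disjoint_iff_inter_eq_empty]
    by_contra hcon
    exact hne (win_disj (hE p hp).1.2 (hE p' hp').1.2 (Set.nonempty_iff_ne_empty.2 hcon))
  -- number of lines
  have hcard : ((E.image Prod.snd).card : ℝ) ≤ C7 * 2 ^ (X.w0 + 1) * 2 ^ j * dl U := by
    have hsub : E.image Prod.snd ⊆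
        (E.image Prod.fst).biUnion (fun d => (E.filter (fun p => p.1 = d)).image Prod.snd) := by
      intro l hl
      obtain ⟨p, hp, rfl⟩ := Finset.mem_image.1 hl
      rw [Finset.mem_biUnion]
      exact ⟨p.1, Finset.mem_image_of_mem _ hp,
        Finset.mem_image_of_mem _ (Finset.mem_filter.2 ⟨hp, rfl⟩)⟩
    have h1 : (E.image Prod.snd).card ≤
        ∑ d ∈ E.image Prod.fst, ((E.filter (fun p => p.1 = d)).image Prod.snd).card :=
      (Finset.card_le_card hsub).trans Finset.card_biUnion_le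
    have h2 : ((E.image Prod.snd).card : ℝ) ≤
        ∑ d ∈ E.image Prod.fst, (((E.filter (fun p => p.1 = d)).image Prod.snd).card : ℝ) := by
      exact_mod_cast h1
    refine h2.trans ?_
    have h3 : ∀ d ∈ E.image Prod.fst, (((E.filter (fun p => p.1 = d)).image Prod.snd).card : ℝ) ≤
        C7 * 2 ^ (X.w0 + 1) * 2 ^ j * dl d := by
      intro d hd
      obtain ⟨p, hp, rfl⟩ := Finset.mem_image.1 hd
      obtain ⟨hw, hi, -, -, -, -⟩ := hE p hp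
      have h4 := hrc j p.1 ((E.filter (fun p' => p'.1 = p.1)).image Prod.snd) hw hi (by
        intro l hl
        obtain ⟨p', hp', rfl⟩ := Finset.mem_image.1 hl
        obtain ⟨hp'1, hp'2⟩ := Finset.mem_filter.1 hp'
        obtain ⟨-, -, hr, -, hdl, hM⟩ := hE p' hp'1
        rw [hp'2] at hr hdl
        refine ⟨hr, ?_⟩
        have h5 := hM.1
        have h6 : min (eta p'.2 j) e0 ≤ eta p'.2 j := min_le_left _ _
        have h7 := R12_eta_nonneg p'.2 j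
        have h8 : c6 * min (eta p'.2 j) e0 ≤ c6 * eta p'.2 j := mul_le_mul_of_nonneg_left h6 hc0.le
        nlinarith)
      refine h4.trans ?_
      have h5 := R12_hh X hw
      have h6 : C7 * hh (X.ij j p.1) ≤ C7 * (2 ^ (X.w0 + 1) * dl p.1) :=
        mul_le_mul_of_nonneg_left h5 hC7.le
      calc C7 * hh (X.ij j p.1) * 2 ^ j ≤ C7 * (2 ^ (X.w0 + 1) * dl p.1) * 2 ^ j :=
            mul_le_mul_of_nonneg_right h6 (by positivity)
        _ = C7 * 2 ^ (X.w0 + 1) * 2 ^ j * dl p.1 := by ring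
    refine (Finset.sum_le_sum h3).trans ?_
    rw [← Finset.mul_sum]
    refine mul_le_mul_of_nonneg_left ?_ (by positivity)
    apply R12_sum_dl
    · intro d hd
      obtain ⟨p, hp, rfl⟩ := Finset.mem_image.1 hd
      exact (hE p hp).2.2.2.1
    · intro d hd d' hd' hne
      obtain ⟨p, hp, rfl⟩ := Finset.mem_image.1 hd
      obtain ⟨p', hp', rfl⟩ := Finset.mem_image.1 hd'
      exact hdis p hp p' hp' hne
  -- sum over one line
  have hline : ∀ l ∈ E.image Prod.snd, ∑ p ∈ E.filter (fun p => p.2 = l), (nl F b0 j p.1 p.2 : ℝ) ≤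
      2 * C2 * dl U * 2 ^ j := by
    intro l hl
    obtain ⟨p0, hp0, rfl⟩ := Finset.mem_image.1 hl
    have hinj : Set.InjOn Prod.fst (E.filter (fun p => p.2 = p0.2) : Set ((ℕ × ℕ) × Ln)) := by
      intro p hp q hq hpq
      have h1 := (Finset.mem_filter.1 (Finset.mem_coe.1 hp)).2
      have h2 := (Finset.mem_filter.1 (Finset.mem_coe.1 hq)).2
      exact Prod.ext hpq (h1.trans h2.symm)
    have h1 : ∑ p ∈ E.filter (fun p => p.2 = p0.2), nl F b0 j p.1 p.2 =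
        ∑ d ∈ (E.filter (fun p => p.2 = p0.2)).image Prod.fst, nl F b0 j d p0.2 := by
      rw [Finset.sum_image hinj]
      refine Finset.sum_congr rfl (fun p hp => ?_)
      rw [(Finset.mem_filter.1 hp).2]
    have h2 := nl_add F hb j U p0.2 ((E.filter (fun p => p.2 = p0.2)).image Prod.fst)
      (by
        intro d hd
        obtain ⟨p, hp, rfl⟩ := Finset.mem_image.1 hd
        exact (hE p (Finset.mem_filter.1 hp).1).2.2.2.1)
      (by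
        intro d hd d' hd' hne
        obtain ⟨p, hp, rfl⟩ := Finset.mem_image.1 hd
        obtain ⟨p', hp', rfl⟩ := Finset.mem_image.1 hd'
        exact hdis p (Finset.mem_filter.1 hp).1 p' (Finset.mem_filter.1 hp').1 hne)
    rw [← h1] at h2
    have h3 : ∑ p ∈ E.filter (fun p => p.2 = p0.2), (nl F b0 j p.1 p.2 : ℝ) ≤ (nl F b0 j U p0.2 : ℝ) := by
      exact_mod_cast h2
    exact h3.trans (Mx_ub F hb hc0 hce (hE p0 hp0).2.2.2.2.2)
  have hsum : ∑ p ∈ E, (nl F b0 j p.1 p.2 : ℝ) =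
      ∑ l ∈ E.image Prod.snd, ∑ p ∈ E.filter (fun p => p.2 = l), (nl F b0 j p.1 p.2 : ℝ) :=
    (Finset.sum_fiberwise_of_maps_to (fun p hp => Finset.mem_image_of_mem _ hp) _).symm
  rw [hsum]
  refine (Finset.sum_le_sum hline).trans ?_
  rw [Finset.sum_const, nsmul_eq_mul]
  calc ((E.image Prod.snd).card : ℝ) * (2 * C2 * dl U * 2 ^ j)
      ≤ (C7 * 2 ^ (X.w0 + 1) * 2 ^ j * dl U) * (2 * C2 * dl U * 2 ^ j) :=
        mul_le_mul_of_nonneg_right hcard (by positivity)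
    _ = C7 * 2 ^ (X.w0 + 1) * (2 * C2) * (2 ^ j * 2 ^ j) * dl U ^ 2 := by ring
    _ = C7 * 2 ^ (X.w0 + 1) * (2 * C2) * 4 ^ j * dl U ^ 2 := by
        rw [← mul_pow]
        norm_num

/-- geometric series over distinct exponents. -/
theorem R12_geom (S : Finset ℕ) {y : ℝ} (hS : ∀ w ∈ S, (1 / 2 : ℝ) ^ w ≤ y) :
    ∑ w ∈ S, ((1 / 2 : ℝ) ^ w) ^ 2 ≤ 4 / 3 * y ^ 2 := by
  classical
  rcases S.eq_empty_or_nonempty with rfl | hne
  · simp
    positivity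
  · set m := S.min' hne with hm
    have h1 : (1 / 2 : ℝ) ^ m ≤ y := hS m (S.min'_mem hne)
    have h2 : S ⊆ Finset.Ico m (S.sup id + 1) := by
      intro w hw
      rw [Finset.mem_Ico]
      exact ⟨S.min'_le w hw, Nat.lt_succ_of_le (Finset.le_sup (f := id) hw)⟩
    have h3 : ∑ w ∈ S, ((1 / 2 : ℝ) ^ w) ^ 2 ≤ ∑ w ∈ Finset.Ico m (S.sup id + 1), ((1 / 2 : ℝ) ^ w) ^ 2 :=
      Finset.sum_le_sum_of_subset_of_nonneg h2 (fun _ _ _ => by positivity)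
    have h4 : ∀ N : ℕ, ∑ w ∈ Finset.Ico m (m + N), ((1 / 2 : ℝ) ^ w) ^ 2 ≤
        4 / 3 * ((1 / 2 : ℝ) ^ m) ^ 2 - 4 / 3 * ((1 / 2 : ℝ) ^ (m + N)) ^ 2 := by
      intro N
      induction N with
      | zero => simp
      | succ N ih =>
        rw [← add_assoc, Finset.sum_Ico_succ_top (by omega)]
        have h5 : ((1 / 2 : ℝ) ^ (m + N + 1)) ^ 2 = 1 / 4 * ((1 / 2 : ℝ) ^ (m + N)) ^ 2 := by
          rw [pow_succ]
          ring
        rw [h5]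
        linarith
    have h5 : m ≤ S.sup id + 1 := by
      have h6 : m ≤ S.sup id := Finset.le_sup (f := id) (S.min'_mem hne)
      omega
    obtain ⟨N, hN⟩ := Nat.exists_eq_add_of_le h5
    have h6 := h4 N
    rw [← hN] at h6
    have h7 : ((1 / 2 : ℝ) ^ m) ^ 2 ≤ y ^ 2 := pow_le_pow_left₀ (by positivity) h1 2
    have h8 : (0 : ℝ) ≤ ((1 / 2 : ℝ) ^ (S.sup id + 1)) ^ 2 := by positivity
    linarith

theorem R12_anc_eq (d : ℕ × ℕ) (n : ℕ) (hn : n ≤ d.1) (h : d.1 ≤ (anc d n).1) : anc d n = d := by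
  have h1 : d.1 ≤ d.1 - n := h
  have h2 : n = 0 ∨ d.1 = 0 := by omega
  have h3 : n = 0 := by
    rcases h2 with h2 | h2
    · exact h2
    · omega
  subst h3
  unfold anc
  simp

/-- the window of (3). -/
theorem R12_win {F : ℂ × ℂ → ℂ} {b0 : ℝ} (X : Ctx F b0) {c6 e0 C2 : ℝ} (h6 : 0 < c6)
    (he' : 500 * b0 * (c6 * e0) ≤ 1) {j : ℕ} {d : ℕ × ℕ} {l : Ln} {n : ℕ} (hw : X.win j d)
    (hr : Rich X j d l) (hn : n ≤ d.1) (hM : Mx F b0 c6 e0 C2 j l (anc d n))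
    (hθ : ∃ θ ∈ cell (anc d n), dl (anc d n) ^ ((6 : ℝ) / 5) ≤ hh (X.lv j θ)) :
    ∃ d2 : ℕ × ℕ, X.win j d2 ∧ (∃ m, m ≤ d2.1 ∧ anc d n = anc d2 m) ∧
      dl (anc d n) ≤ hh (X.ij j d2) ^ ((5 : ℝ) / 6) := by
  have hb : 2 ≤ b0 := X.env.cs.hb
  have hb0 : 0 < b0 := by linarith
  have hw0 : 400 * b0 ≤ 2 ^ X.w0 := by have := X.hw0; linarith
  obtain ⟨θ, hθ1, hθ2⟩ := hθ
  set U := anc d n with hUdef
  have hUp := L2_dl_pos U
  obtain ⟨s1, -, -⟩ := anc_sub d hn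
  -- length of U
  have hlen : dl U ≤ 1 / (1000 * b0) := by
    have h1 := hM.1
    have h2 : c6 * min (eta l j) e0 ≤ c6 * e0 := mul_le_mul_of_nonneg_left (min_le_right _ _) h6.le
    rw [le_div_iff₀ (by positivity)]
    have h3 : 2 * dl U ≤ c6 * e0 := h1.trans h2
    have h4 : 500 * b0 * (2 * dl U) ≤ 500 * b0 * (c6 * e0) :=
      mul_le_mul_of_nonneg_left h3 (by positivity)
    linarith
  -- θ in I2
  obtain ⟨P, hP, -⟩ := rich_pt X hr
  have hs : (P.2 : ℝ) / P.1 ∈ cell U := s1 hP.2.2.2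
  have hs0 : (P.2 : ℝ) / P.1 ∈ I0 b0 := hP.1.2.1
  have hI2 : θ ∈ I2 b0 := by
    obtain ⟨a1, a2⟩ := hs
    obtain ⟨b1, b2⟩ := hs0
    obtain ⟨c1, c2⟩ := hθ1
    have e1 : ((U.2 : ℝ) + 1) * dl U = U.2 * dl U + dl U := by ring
    rw [e1] at a2 c2
    have q1 : θ - (P.2 : ℝ) / P.1 ≤ dl U := by linarith
    have q2 : (P.2 : ℝ) / P.1 - θ ≤ dl U := by linarith
    have r1 : 2 / (3 * b0) + 1 / (1000 * b0) ≤ 1 / b0 := by
      rw [show 2 / (3 * b0) + 1 / (1000 * b0) = 2003 / 3000 * (1 / b0) by field_simp; norm_num]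
      have : 0 < 1 / b0 := by positivity
      linarith
    have r2 : 1 / (1000 * b0) ≤ b0 / 2 := by
      rw [div_le_div_iff₀ (by positivity) (by norm_num)]
      nlinarith
    constructor
    · linarith
    · linarith
  obtain ⟨d2, hd2, hθd2⟩ := win_cover X.env.cs hw0 hw.1 (θ := θ) hI2
  have hanc : ∃ m, m ≤ d2.1 ∧ U = anc d2 m := by
    rcases le_total U.1 d2.1 with h | h
    · obtain ⟨h1, -⟩ := dyadic_nested U d2 h ⟨θ, hθ1, hθd2⟩
      exact ⟨d2.1 - U.1, Nat.sub_le _ _, h1⟩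
    · obtain ⟨-, h2⟩ := dyadic_nested d2 U h ⟨θ, hθd2, hθ1⟩
      have h3 : d = d2 := by
        apply win_disj hw.2 hd2
        obtain ⟨y, hy⟩ := R12_cell_ne d
        exact ⟨y, hy, h2 (s1 hy)⟩
      rw [← h3] at h ⊢
      exact ⟨n, hn, rfl⟩
  refine ⟨d2, ⟨hw.1, hd2⟩, hanc, ?_⟩
  have h1 : X.ij j d2 ≤ X.lv j θ := (win_lev hd2 ((cell_sub_st d2).1 hθd2)).1
  have h2 : hh (X.lv j θ) ≤ hh (X.ij j d2) := by
    unfold hh
    exact pow_le_pow_of_le_one (by norm_num) (by norm_num) h1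
  have h3 := hθ2.trans h2
  have h4 : (dl U ^ ((6 : ℝ) / 5)) ^ ((5 : ℝ) / 6) ≤ hh (X.ij j d2) ^ ((5 : ℝ) / 6) :=
    Real.rpow_le_rpow (by positivity) h3 (by norm_num)
  rw [← Real.rpow_mul hUp.le] at h4
  norm_num at h4
  exact h4

theorem sumC {F : ℂ × ℂ → ℂ} {b0 : ℝ} (X : Ctx F b0) (c6 e0 C2 : ℝ) (h6 : 0 < c6) (h6' : c6 ≤ 1 / 32)
    (he : 0 < e0) (he' : 500 * b0 * (c6 * e0) ≤ 1) (hC2 : 0 < C2) : ∃ (C : ℝ) (k1 : ℕ),
    ∀ E : Finset (ℕ × (ℕ × ℕ) × Ln), (∀ e ∈ E, k1 ≤ e.1 ∧ X.win e.1 e.2.1 ∧ Rich X e.1 e.2.1 e.2.2 ∧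
      ∃ n, n ≤ e.2.1.1 ∧ Mx F b0 c6 e0 C2 e.1 e.2.2 (anc e.2.1 n) ∧
        ∃ θ ∈ cell (anc e.2.1 n), dl (anc e.2.1 n) ^ ((6 : ℝ) / 5) ≤ hh (X.lv e.1 θ)) →
    ∑ e ∈ E, (nl F b0 e.1 e.2.1 e.2.2 : ℝ) / 4 ^ e.1 ≤ C := by
  classical
  have hb : 2 ≤ b0 := X.env.cs.hb
  have hce : c6 * e0 ≤ 1 := by
    have : 0 < c6 * e0 := mul_pos h6 he
    nlinarith
  obtain ⟨C7, i1, hC7, hrc⟩ := rich_count X 1 one_pos
  obtain ⟨k1, hk1⟩ := ij_large X i1
  obtain ⟨C5, hC5, hws⟩ := ws X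
  set C' : ℝ := C7 * 2 ^ (X.w0 + 1) * (2 * C2) with hC'
  have hC'p : 0 < C' := by positivity
  refine ⟨C' * (4 / 3 * C5), k1, ?_⟩
  intro E hE
  choose! n hn using fun e he => (hE e he).2.2.2
  -- key of a triple
  set g : ℕ × (ℕ × ℕ) × Ln → ℕ × (ℕ × ℕ) := fun e => (e.1, anc e.2.1 (n e)) with hg
  have hsum : ∑ e ∈ E, (nl F b0 e.1 e.2.1 e.2.2 : ℝ) / 4 ^ e.1 =
      ∑ t ∈ E.image g, ∑ e ∈ E.filter (fun e => g e = t), (nl F b0 e.1 e.2.1 e.2.2 : ℝ) / 4 ^ e.1 :=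
    (Finset.sum_fiberwise_of_maps_to (fun e he => Finset.mem_image_of_mem _ he) _).symm
  have hin : ∀ t ∈ E.image g, ∑ e ∈ E.filter (fun e => g e = t), (nl F b0 e.1 e.2.1 e.2.2 : ℝ) / 4 ^ e.1
      ≤ C' * dl t.2 ^ 2 := by
    intro t ht
    obtain ⟨j, U⟩ := t
    have hinj : Set.InjOn Prod.snd (E.filter (fun e => g e = (j, U)) : Set (ℕ × (ℕ × ℕ) × Ln)) := by
      intro e he e' he' hee
      have h1 := (Finset.mem_filter.1 (Finset.mem_coe.1 he)).2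
      have h2 := (Finset.mem_filter.1 (Finset.mem_coe.1 he')).2
      have h3 : e.1 = j := congrArg Prod.fst h1
      have h4 : e'.1 = j := congrArg Prod.fst h2
      exact Prod.ext (h3.trans h4.symm) hee
    have h1 : ∑ e ∈ E.filter (fun e => g e = (j, U)), (nl F b0 e.1 e.2.1 e.2.2 : ℝ) / 4 ^ e.1 =
        (∑ p ∈ (E.filter (fun e => g e = (j, U))).image Prod.snd, (nl F b0 j p.1 p.2 : ℝ)) / 4 ^ j := by
      rw [Finset.sum_image hinj, Finset.sum_div]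
      refine Finset.sum_congr rfl (fun e he => ?_)
      have h3 : e.1 = j := congrArg Prod.fst (Finset.mem_filter.1 he).2
      rw [h3]
    rw [h1, div_le_iff₀ (by positivity)]
    have h2 := R12_A X h6' h6 hce hC2 hC7 hrc j U ((E.filter (fun e => g e = (j, U))).image Prod.snd) (by
      intro p hp
      obtain ⟨e, he, rfl⟩ := Finset.mem_image.1 hp
      obtain ⟨heE, heg⟩ := Finset.mem_filter.1 he
      have h3 : e.1 = j := congrArg Prod.fst heg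
      have h4 : anc e.2.1 (n e) = U := congrArg Prod.snd heg
      obtain ⟨q1, q2, q3, -⟩ := hE e heE
      obtain ⟨q4, q5, -⟩ := hn e heE
      obtain ⟨s1, -, s3⟩ := anc_sub e.2.1 q4
      rw [h4] at q5 s1 s3
      rw [h3] at q1 q2 q3 q5
      refine ⟨q2, hk1 j e.2.1 q1 q2, q3, s1, ?_, q5⟩
      rw [s3]
      have := L2_dl_pos e.2.1
      have h5 : (1 : ℝ) ≤ 2 ^ n e := one_le_pow₀ (by norm_num)
      nlinarith)
    refine h2.trans (le_of_eq ?_)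
    show C' * 4 ^ j * dl U ^ 2 = C' * dl U ^ 2 * 4 ^ j
    ring
  rw [hsum]
  refine (Finset.sum_le_sum hin).trans ?_
  rw [← Finset.mul_sum]
  refine mul_le_mul_of_nonneg_left ?_ hC'p.le
  -- the window of each key
  have hwin : ∀ t ∈ E.image g, ∃ d2 : ℕ × ℕ, X.win t.1 d2 ∧ (∃ m, m ≤ d2.1 ∧ t.2 = anc d2 m) ∧
      dl t.2 ≤ hh (X.ij t.1 d2) ^ ((5 : ℝ) / 6) := by
    intro t ht
    obtain ⟨e, he, rfl⟩ := Finset.mem_image.1 ht
    obtain ⟨-, q2, q3, -⟩ := hE e he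
    obtain ⟨q4, q5, q6⟩ := hn e he
    exact R12_win X h6 he' q2 q3 q4 q5 q6
  choose! w hww using hwin
  set σ : ℕ × (ℕ × ℕ) → ℕ × (ℕ × ℕ) := fun t => (t.1, w t) with hσ
  have hsum2 : ∑ t ∈ E.image g, dl t.2 ^ 2 =
      ∑ s ∈ (E.image g).image σ, ∑ t ∈ (E.image g).filter (fun t => σ t = s), dl t.2 ^ 2 :=
    (Finset.sum_fiberwise_of_maps_to (fun t ht => Finset.mem_image_of_mem _ ht) _).symm
  rw [hsum2]
  have hin2 : ∀ s ∈ (E.image g).image σ, ∑ t ∈ (E.image g).filter (fun t => σ t = s), dl t.2 ^ 2 ≤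
      4 / 3 * hh (X.ij s.1 s.2) ^ ((5 : ℝ) / 3) := by
    intro s hs
    set y : ℝ := hh (X.ij s.1 s.2) ^ ((5 : ℝ) / 6) with hy
    have hhp : 0 < hh (X.ij s.1 s.2) := by unfold hh; positivity
    have hy2 : y ^ 2 = hh (X.ij s.1 s.2) ^ ((5 : ℝ) / 3) := by
      rw [hy, ← Real.rpow_natCast, ← Real.rpow_mul hhp.le]
      norm_num
    rw [← hy2]
    have hinj : Set.InjOn (fun t : ℕ × (ℕ × ℕ) => t.2.1)
        ((E.image g).filter (fun t => σ t = s) : Set (ℕ × (ℕ × ℕ))) := by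
      intro t ht t' ht' htt
      obtain ⟨a1, a2⟩ := Finset.mem_filter.1 (Finset.mem_coe.1 ht)
      obtain ⟨b1, b2⟩ := Finset.mem_filter.1 (Finset.mem_coe.1 ht')
      obtain ⟨-, ⟨m, hm1, hm2⟩, -⟩ := hww t a1
      obtain ⟨-, ⟨m', hm'1, hm'2⟩, -⟩ := hww t' b1
      have c1 : t.1 = s.1 := (congrArg Prod.fst a2 : (σ t).1 = s.1)
      have c2 : w t = s.2 := (congrArg Prod.snd a2 : (σ t).2 = s.2)
      have d1 : t'.1 = s.1 := (congrArg Prod.fst b2 : (σ t').1 = s.1)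
      have d2 : w t' = s.2 := (congrArg Prod.snd b2 : (σ t').2 = s.2)
      rw [c2] at hm1 hm2
      rw [d2] at hm'1 hm'2
      have htt' : t.2.1 = t'.2.1 := htt
      rw [hm2, hm'2] at htt'
      have h1 : s.2.1 - m = s.2.1 - m' := htt'
      have h2 : m = m' := by omega
      refine Prod.ext (c1.trans d1.symm) ?_
      rw [hm2, hm'2, h2]
    have h1 : ∑ t ∈ (E.image g).filter (fun t => σ t = s), dl t.2 ^ 2 =
        ∑ v ∈ ((E.image g).filter (fun t => σ t = s)).image (fun t : ℕ × (ℕ × ℕ) => t.2.1),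
          ((1 / 2 : ℝ) ^ v) ^ 2 := by
      rw [Finset.sum_image hinj]
      rfl
    rw [h1]
    apply R12_geom
    intro v hv
    obtain ⟨t, ht, rfl⟩ := Finset.mem_image.1 hv
    obtain ⟨a1, a2⟩ := Finset.mem_filter.1 ht
    obtain ⟨-, -, h3⟩ := hww t a1
    have c1 : t.1 = s.1 := (congrArg Prod.fst a2 : (σ t).1 = s.1)
    have c2 : w t = s.2 := (congrArg Prod.snd a2 : (σ t).2 = s.2)
    rw [c1, c2] at h3
    exact h3
  refine (Finset.sum_le_sum hin2).trans ?_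
  rw [← Finset.mul_sum]
  refine mul_le_mul_of_nonneg_left ?_ (by norm_num)
  apply hws
  intro s hs
  obtain ⟨t, ht, rfl⟩ := Finset.mem_image.1 hs
  exact (hww t ht).1

end MuntzF
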