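import Pool.Agent.Lib.MP_dde81e_full.R3
import Pool.Agent.Lib.MP_dde81e_full.L8
import Pool.Agent.Lib.MP_dde81e_full.ECom

/-!
Module R13 (text 10.11 (pay)): an alive line is deep over all its slopes at scale `k-2`.
Proof.  `R' = 2^(k-2)`, `θl = tl l`, `b = bl l`, `η' = etp l k`, `H = hh (ml X l k)`, `c_k = X.c k`.  Let `x ∈ [2^(k-3), 2^k] = [R'/2, 4R']`,
`θ = θl + b/x` (all `θ` of the `uIcc` are of this form, `x = b/(θ-θl)`; if `b = 0` take `x = 2^(k-2)`), `|θ-θl| ≤ 8η'`, so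
`ml ≤ X.lv k θ` (`ml_le`), `θ ∈ I2` (`η' ≤ e0`).  `x_l ≤ (6b0/5)|b| ≤ 10 b0 η' x ≤ x/4`.  `leaf_point` with
`t = K η' + K H^(9/10)`: `‖F(x,θx)‖ ≤ exp(-(x-x_l)(c_k(θl)+t))`, and `(x-x_l)(c_k(θl)+t) ≥ x c_k(θl) - 10 b0 B0 η' x + (3/4) x t`.
`c_{k-2}(θ) ≤ c_k(θ) + 512 L hh(lev)`, `lev = X.lv (k-2) θ ≥ X.lv k θ - 2 ≥ ml - 2` (`lev_succ` twice, `lev_spec`, `c_anti`; `lev ≥ 1`),
so `hh lev ≤ 4H`; `c_k(θ) ≤ c_k(θl) + 8 L η'`.  Hence the exponent minus `x c_{k-2}(θ)` is at least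
`x((3/4)t - (10 b0 B0 + 8 L)η' - 2048 L H) ≥ x t/4 ≥ (2^(k-3)/4) K H^(9/10) ≥ hh lev lam lev^2 2^(k-2)/16`
(`hh lev lam lev^2 = 2^(-lev(1-1/4000)) ≤ 4 H^(9/10)`).  `ht l ≤ 2^(10 ml) ≤ 2^(20 lev)` for `lev ≥ 2` .. (`ml ≤ lev + 2`, `lev` large: `lev_large`).
-/

namespace MuntzF
open Set Metric MeasureTheory
open scoped ENNReal

theorem R13_I21 {b0 θ : ℝ} (hb : 2 ≤ b0) (h : θ ∈ I2 b0) : θ ∈ I1 b0 := by
  obtain ⟨h1, h2⟩ := h
  have hb0 : 0 < b0 := by linarith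
  constructor
  · refine le_trans ?_ h1
    rw [div_le_div_iff₀ (by positivity) (by positivity)]
    linarith
  · linarith

theorem R13_near {b0 t θ η : ℝ} (hb : 2 ≤ b0) (h1 : 5 / (6 * b0) ≤ t) (h2 : t ≤ 6 * b0 / 5)
    (hη : 48 * b0 * η ≤ 1) (hd : |θ - t| ≤ 8 * η) : θ ∈ I2 b0 := by
  have hb0 : 0 < b0 := by linarith
  obtain ⟨h3, h4⟩ := abs_le.1 hd
  have h5 : 8 * η ≤ 1 / (6 * b0) := by
    rw [le_div_iff₀ (by positivity)]
    linarith
  have h6 : 5 / (6 * b0) - 1 / (6 * b0) = 2 / (3 * b0) := by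
    field_simp
    norm_num
  have h7 : 1 / (6 * b0) ≤ 1 / 12 := by
    rw [div_le_div_iff₀ (by positivity) (by norm_num)]
    linarith
  constructor <;> linarith

theorem R13_hh_pos (i : ℕ) : 0 < hh i := by
  unfold hh
  positivity

theorem R13_hh_le_one (i : ℕ) : hh i ≤ 1 := by
  unfold hh
  exact pow_le_one₀ (by norm_num) (by norm_num)

theorem R13_hh_lam (i : ℕ) : hh i * lam i ^ 2 ≤ hh i ^ ((9 : ℝ) / 10) := by
  have h1 : hh i = 2 ^ (-(i : ℝ)) := by
    unfold hh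
    rw [Real.rpow_neg (by norm_num), Real.rpow_natCast, one_div, inv_pow]
  unfold lam
  rw [h1, ← Real.rpow_natCast, ← Real.rpow_mul (by norm_num), ← Real.rpow_mul (by norm_num),
    ← Real.rpow_add (by norm_num)]
  apply Real.rpow_le_rpow_of_exponent_le (by norm_num)
  have h2 : (0 : ℝ) ≤ i := Nat.cast_nonneg i
  push_cast
  linarith

theorem R13_core {x xl ck t B0 b0 L η H K c2 lv2 hl : ℝ} (hx : 0 < x) (hxl : xl ≤ 10 * b0 * η * x)
    (hxl4 : xl ≤ x / 4) (hxl0 : 0 ≤ xl) (hck0 : 0 ≤ ck) (hck : ck ≤ B0) (hη : 0 ≤ η) (hH : 0 < H)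
    (hH1 : H ≤ t) (hL : 1 ≤ L) (hb : 0 < b0)
    (htK : (10 * b0 * B0 + 8 * L) * η + 2048 * L * H ≤ t / 2)
    (hc2 : c2 ≤ ck + 8 * L * η + 512 * L * (4 * H)) (hh' : hl ≤ x * t / 4) :
    x * c2 + hl ≤ (x - xl) * (ck + t) := by
  have h1 : xl * ck ≤ 10 * b0 * η * x * B0 :=
    mul_le_mul hxl hck hck0 (by positivity)
  have ht : 0 ≤ t := hH.le.trans hH1
  have h2 : xl * t ≤ x / 4 * t := mul_le_mul_of_nonneg_right hxl4 ht
  have h3 := mul_le_mul_of_nonneg_left hc2 hx.le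
  have h4 := mul_le_mul_of_nonneg_left htK hx.le
  nlinarith

theorem pay_slopes {F : ℂ × ℂ → ℂ} {b0 : ℝ} (X : Ctx F b0) : ∃ (e0 K0 : ℝ) (k1 : ℕ), 0 < e0 ∧ 0 < K0 ∧
    ∀ (e1 K : ℝ) (k : ℕ) (l : Ln), e1 ≤ e0 → K0 ≤ K → k1 ≤ k → Alive X e1 K k l →
    uIcc (tl l + bl l / 2 ^ k) (tl l + 8 * (bl l / 2 ^ k)) ⊆ Dg X (k - 2) l := by
  have hb := X.env.cs.hb
  have hL := X.env.cs.hL
  have hB := X.env.cs.hB
  have hb0 : 0 < b0 := by linarith
  have hw0 : 400 * b0 ≤ 2 ^ X.w0 := by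
    have := X.hw0
    linarith
  obtain ⟨j1, hj1⟩ := lev_large X.env.cs hw0 2
  refine ⟨1 / (48 * b0), 2 * (10 * b0 * X.B0 + 8 * X.L + 2048 * X.L), j1 + 2 * X.j0 + 200, by positivity,
    by positivity, ?_⟩
  intro e1 K k l he1 hK hk hA θ hθ
  set K1 : ℝ := 10 * b0 * X.B0 + 8 * X.L + 2048 * X.L with hK1
  have hK1p : 0 < K1 := by positivity
  have hKp : 0 < K := by linarith
  have hRp : (0 : ℝ) < 2 ^ k := by positivity
  -- parametrisation
  obtain ⟨s, hs1, hs8, hθs⟩ : ∃ s : ℝ, 1 ≤ s ∧ s ≤ 8 ∧ θ = tl l + s * (bl l / 2 ^ k) := by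
    rw [uIcc_comm, ← segment_eq_uIcc] at hθ
    obtain ⟨a, b, ha, hb', hab, h1⟩ := hθ
    refine ⟨8 * a + b, by linarith, by linarith, ?_⟩
    rw [← h1]
    simp only [smul_eq_mul]
    linear_combination (tl l) * hab
  have hs0 : 0 < s := by linarith
  set x : ℝ := 2 ^ k / s with hx
  have hxp : 0 < x := by positivity
  have hx1 : x ≤ 2 ^ k := by
    rw [hx, div_le_iff₀ hs0]
    nlinarith
  have hx8 : 2 ^ k / 8 ≤ x := by
    rw [hx]
    exact div_le_div_of_nonneg_left hRp.le hs0 hs8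
  have hθx : θ * x = tl l * x + bl l := by
    rw [hθs, hx]
    field_simp
  set η : ℝ := etp l k with hη
  have hη0 : 0 ≤ η := by
    rw [hη]
    unfold etp
    positivity
  have hηe : 48 * b0 * η ≤ 1 := by
    have h1 := hA.et.trans he1
    rw [le_div_iff₀ (by positivity)] at h1
    linarith
  have hbη : |bl l| = η * 2 ^ k := by
    rw [hη]
    unfold etp
    field_simp
  have hdist : |θ - tl l| ≤ 8 * η := by
    have : θ - tl l = s * (bl l / 2 ^ k) := by rw [hθs]; ring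
    rw [this, abs_mul, abs_of_pos hs0, abs_div, abs_of_pos hRp]
    have : |bl l| / 2 ^ k = η := rfl
    rw [this]
    exact mul_le_mul_of_nonneg_right hs8 hη0
  have hθ2 : θ ∈ I2 b0 := R13_near hb hA.t1 hA.t2 hηe hdist
  have hθ1 : θ ∈ I1 b0 := R13_I21 hb hθ2
  have ht1 : tl l ∈ I1 b0 := R13_I21 hb (R13_near hb hA.t1 hA.t2 hηe (by rw [sub_self, abs_zero]; positivity))
  have htp : 0 < tl l := lt_of_lt_of_le (by positivity) hA.t1
  have hml : ml X l k ≤ X.lv k θ := ml_le X hdist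
  set H : ℝ := hh (ml X l k) with hH
  have hHp : 0 < H := R13_hh_pos _
  have hH1 : H ≤ 1 := R13_hh_le_one _
  -- levels
  obtain ⟨k', hk'⟩ : ∃ k', k = k' + 2 := ⟨k - 2, by omega⟩
  have hk2 : k - 2 = k' := by omega
  rw [hk2]
  have hlev : X.lv k θ ≤ X.lv k' θ + 2 := by
    have h1 := (lev_succ X.env.cs (j := k') (by omega) hθ1).2
    have h2 := (lev_succ X.env.cs (j := k' + 1) (by omega) hθ1).2
    unfold Ctx.lv
    rw [hk']
    have h3 : k' + 1 + 1 = k' + 2 := rfl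
    rw [h3] at h2
    omega
  have hlv2 : 2 ≤ X.lv k' θ := hj1 k' (by omega) θ hθ2
  set i : ℕ := X.lv k' θ with hi
  have hmli : ml X l k ≤ i + 2 := hml.trans hlev
  have hhi : hh i ≤ 4 * H := by
    have h1 : hh (i + 2) ≤ H := by
      rw [hH]
      unfold hh
      exact pow_le_pow_of_le_one (by norm_num) (by norm_num) hmli
    have h2 : hh (i + 2) = hh i / 4 := by
      unfold hh
      rw [pow_add]
      norm_num
      ring
    linarith
  have hhip : 0 < hh i := R13_hh_pos _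
  -- the envelope
  have hc2 : X.c k' θ ≤ X.c k (tl l) + 8 * X.L * η + 512 * X.L * (4 * H) := by
    have h1 := lev_spec X.env.cs (j := k') (i := i) (by omega) hθ1 (le_refl _)
    have hile : i ≤ k' / 100 := lev_le X.c X.L k' θ
    unfold ee at h1
    have h2 := c_anti X.env.cs (j := k' - 4 * i) (j' := k') (by omega) (by omega) hθ1
    have h3 := c_anti X.env.cs (j := k) (j' := k' + 4 * i) (by omega) (by omega) hθ1
    have h4 := X.env.cs.lip k (by omega) θ hθ1 (tl l) ht1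
    have h5 := (abs_le.1 h4).2
    have h6 : X.L * |θ - tl l| ≤ X.L * (8 * η) := mul_le_mul_of_nonneg_left hdist (by linarith)
    have h7 : 512 * X.L * (1 / 2) ^ i ≤ 512 * X.L * (4 * H) := by
      apply mul_le_mul_of_nonneg_left _ (by positivity)
      exact hhi
    linarith
  -- left end
  have hxl0 : 0 ≤ xl l := le_max_left _ _
  have hxl1 : xl l ≤ 10 * b0 * η * x := by
    unfold xl
    apply max_le (by positivity)
    rw [div_le_iff₀ htp]
    have h1 : -(bl l) ≤ η * 2 ^ k := by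
      rw [← hbη]
      exact neg_le_abs _
    have h2 : η * 2 ^ k ≤ 10 * b0 * η * x * (5 / (6 * b0)) := by
      have h3 : 10 * b0 * η * x * (5 / (6 * b0)) = (25 / 3) * (η * x) := by
        field_simp
        ring
      rw [h3]
      have h4 : η * (2 ^ k / 8) ≤ η * x := mul_le_mul_of_nonneg_left hx8 hη0
      nlinarith
    have h5 : 10 * b0 * η * x * (5 / (6 * b0)) ≤ 10 * b0 * η * x * tl l :=
      mul_le_mul_of_nonneg_left hA.t1 (by positivity)
    linarith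
  have hxl4 : xl l ≤ x / 4 := by
    refine hxl1.trans ?_
    have : 10 * b0 * η ≤ 1 / 4 := by linarith
    calc 10 * b0 * η * x ≤ 1 / 4 * x := mul_le_mul_of_nonneg_right this hxp.le
      _ = x / 4 := by ring
  -- the depth
  set t : ℝ := K * η + K * H ^ ((9 : ℝ) / 10) with ht
  have hH9p : 0 < H ^ ((9 : ℝ) / 10) := Real.rpow_pos_of_pos hHp _
  have hH9 : H ≤ H ^ ((9 : ℝ) / 10) := by
    calc H = H ^ (1 : ℝ) := (Real.rpow_one H).symm
      _ ≤ _ := Real.rpow_le_rpow_of_exponent_ge hHp hH1 (by norm_num)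
  have htp' : 0 < t := by positivity
  have hlp := leaf_point X (k := k) (l := l) (x := x) (t := t) htp (by linarith) (by linarith) htp' hA.dp
    ((X.env.cs.nn k (by omega) _ ht1).1)
  refine ⟨hθ2, ?_, x, ?_, ?_, ?_, ?_⟩
  · refine hA.hV.trans ?_
    apply pow_le_pow_right₀ (by norm_num)
    have : 10 * ml X l k ≤ 10 * (i + 2) := Nat.mul_le_mul_left _ hmli
    show 10 * ml X l k ≤ 20 * i
    omega
  · have : (2 : ℝ) ^ k' / 2 = 2 ^ k / 8 := by
      rw [hk', pow_add]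
      norm_num
      ring
    rw [this]
    exact hx8
  · have : 4 * (2 : ℝ) ^ k' = 2 ^ k := by
      rw [hk', pow_add]
      norm_num
      ring
    rw [this]
    exact hx1
  · unfold onl
    rw [hθx]
    have hq : (l.q : ℝ) ≠ 0 := Nat.cast_ne_zero.2 hA.hq
    unfold tl bl
    field_simp
    ring
  · have e1' : ((θ * x : ℝ) : ℂ) = ((tl l * x + bl l : ℝ) : ℂ) := by rw [hθx]
    rw [e1']
    refine hlp.trans ?_
    apply Real.exp_le_exp.2
    apply neg_le_neg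
    show x * X.c k' θ + hh i * lam i ^ 2 * 2 ^ k' / 16 ≤ _
    have hKbig : 2 * K1 ≤ K := hK
    refine R13_core (B0 := X.B0) (b0 := b0) (L := X.L) (η := η) (H := H) (K := K) (lv2 := 0) hxp hxl1 hxl4 hxl0
      ((X.env.cs.nn k (by omega) _ ht1).1) ((X.env.cs.nn k (by omega) _ ht1).2) hη0 hHp ?_ hL hb0 ?_ hc2 ?_
    · have : 1 * H ^ ((9 : ℝ) / 10) ≤ K * H ^ ((9 : ℝ) / 10) := by
        apply mul_le_mul_of_nonneg_right _ hH9p.le
        have : 1 ≤ K1 := by
          rw [hK1]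
          have : 0 ≤ 10 * b0 * X.B0 := by positivity
          linarith
        linarith
      have h0 : 0 ≤ K * η := by positivity
      rw [ht]
      linarith
    · have h1 : (10 * b0 * X.B0 + 8 * X.L) * η ≤ K / 2 * η := by
        apply mul_le_mul_of_nonneg_right _ hη0
        rw [hK1] at hKbig
        linarith
      have h2 : 2048 * X.L * H ≤ K / 2 * H ^ ((9 : ℝ) / 10) := by
        apply mul_le_mul _ hH9 hHp.le (by positivity)
        rw [hK1] at hKbig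
        have : 0 ≤ 10 * b0 * X.B0 := by positivity
        linarith
      rw [ht]
      linarith
    · have h1 : hh i * lam i ^ 2 ≤ 4 * H ^ ((9 : ℝ) / 10) := by
        refine (R13_hh_lam i).trans ?_
        calc hh i ^ ((9 : ℝ) / 10) ≤ (4 * H) ^ ((9 : ℝ) / 10) :=
              Real.rpow_le_rpow hhip.le hhi (by norm_num)
          _ = 4 ^ ((9 : ℝ) / 10) * H ^ ((9 : ℝ) / 10) := Real.mul_rpow (by norm_num) hHp.le
          _ ≤ 4 * H ^ ((9 : ℝ) / 10) := by
              apply mul_le_mul_of_nonneg_right _ hH9p.le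
              calc (4 : ℝ) ^ ((9 : ℝ) / 10) ≤ 4 ^ (1 : ℝ) :=
                    Real.rpow_le_rpow_of_exponent_le (by norm_num) (by norm_num)
                _ = 4 := Real.rpow_one 4
      have h2 : (2 : ℝ) ^ k' = 2 ^ k / 4 := by
        rw [hk', pow_add]
        norm_num
      rw [h2]
      have h3 : K * H ^ ((9 : ℝ) / 10) ≤ t := by
        have : 0 ≤ K * η := by positivity
        rw [ht]
        linarith
      have h4 : 2 ^ k / 8 * (K * H ^ ((9 : ℝ) / 10)) ≤ x * t :=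
        mul_le_mul hx8 h3 (by positivity) hxp.le
      have h5 : hh i * lam i ^ 2 * (2 ^ k / 4) ≤ 4 * H ^ ((9 : ℝ) / 10) * (2 ^ k / 4) :=
        mul_le_mul_of_nonneg_right h1 (by positivity)
      have h6 : 2 * (H ^ ((9 : ℝ) / 10) * 2 ^ k) ≤ K * (H ^ ((9 : ℝ) / 10) * 2 ^ k) := by
        apply mul_le_mul_of_nonneg_right _ (by positivity)
        have : 1 ≤ K1 := by
          rw [hK1]
          have : 0 ≤ 10 * b0 * X.B0 := by positivity
          linarith
        linarith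
      nlinarith

/-- measure version: the interval has length `7 η'_k` and lies within `8 η'_k` of `tl l`. -/
theorem pay_vol {F : ℂ × ℂ → ℂ} {b0 : ℝ} (X : Ctx F b0) : ∃ (e0 K0 : ℝ) (k1 : ℕ), 0 < e0 ∧ 0 < K0 ∧
    ∀ (e1 K : ℝ) (k : ℕ) (l : Ln), e1 ≤ e0 → K0 ≤ K → k1 ≤ k → Alive X e1 K k l →
    ENNReal.ofReal (7 * etp l k) ≤ volume (Dg X (k - 2) l) ∧
    ∀ u v : ℝ, u ≤ tl l - 8 * etp l k → tl l + 8 * etp l k ≤ v →
      ENNReal.ofReal (7 * etp l k) ≤ volume (Dg X (k - 2) l ∩ Icc u v) := by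
  obtain ⟨e0, K0, k1, he0, hK0, h⟩ := pay_slopes X
  refine ⟨e0, K0, k1, he0, hK0, ?_⟩
  intro e1 K k l he1 hK hk hA
  have h1 := h e1 K k l he1 hK hk hA
  have hRp : (0 : ℝ) < 2 ^ k := by positivity
  have hη : |bl l / 2 ^ k| = etp l k := by
    unfold etp
    rw [abs_div, abs_of_pos hRp]
  have hvol : volume (uIcc (tl l + bl l / 2 ^ k) (tl l + 8 * (bl l / 2 ^ k))) =
      ENNReal.ofReal (7 * etp l k) := by
    rw [Real.volume_interval]
    congr 1
    have : tl l + 8 * (bl l / 2 ^ k) - (tl l + bl l / 2 ^ k) = 7 * (bl l / 2 ^ k) := by ring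
    rw [this, abs_mul, hη]
    norm_num
  refine ⟨?_, ?_⟩
  · rw [← hvol]
    exact measure_mono h1
  · intro u v hu hv
    rw [← hvol]
    apply measure_mono
    apply subset_inter h1
    have h2 := abs_le.1 hη.le
    have h3 : 0 ≤ etp l k := by
      rw [← hη]
      exact abs_nonneg _
    intro y hy
    obtain ⟨h4, h5⟩ := hy
    constructor
    · refine le_trans ?_ h4
      apply le_inf <;> linarith [h2.1, h2.2]
    · refine le_trans h5 ?_
      apply sup_le <;> linarith [h2.1, h2.2]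

end MuntzF
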