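import Pool.Agent.Lib.MP_dde81e_full.R3
import Pool.Agent.Lib.MP_dde81e_full.L8

/-!
Module R14 (text 10.11 (i)): an alive line is deep over all abscissas of a long window at scale `k-9`.
Proof.  `R' = 2^(k-9)`, `i'' = X.ij (k-9) d`, `h'' = hh i''`, `θl = tl l`, `b = bl l`, `η' = etp l k`.  `x ∈ [R'/2, 4R'] = [2^(k-10), 2^(k-7)]`,
`y = θl x + b`, slope `θ = θl + b/x`, `|θ-θl| ≤ 2^10 η'`; with `θ'' ∈ cell d`: `|θ-θ''| ≤ 2^13 η' ≤ dl d/8`, so `θ ∈ st d`.
All slopes within `8η'` of `θl` are in `st d` too, so (`win_lev`, `lev_succ` nine times; attained: `ml_att`) `ml X l k ≤ i'' + 10`.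
`ml ≤ i''+10`: `ht l ≤ 2^(10 (i''+10)) ≤ 2^(21 i'')` for `i'' ≥ 10` (`ij ≥ lev - 1`, `lev_large`).
`x_l ≤ (6b0/5)|b| ≤ 1229 b0 η' x ≤ x/4` (`e0` small).  `leaf_point` (`x - x_l ≤ 2^k`), `t = Kη' + K H^(9/10)`, `H = hh(ml) ≥ 2^-10 h''`:
`‖F(x,y)‖ ≤ exp(-((x-x_l)(c_k(θl)+t)))`.  `al + be θ ≤ c_{k-9+4i''}(θ) ≤ c_k(θ) ≤ c_k(θl) + 1024 L η'` (`(X.box ..).lo`, `c_anti`, `4 i'' ≥ 9`,
Lipschitz; `X.is ≤ i''`).  So the exponent of `fj` is at least `x((3/4)t - (1229 b0 B0 + 1024 L)η') ≥ x t/4 ≥ 2^(k-12) K H^(9/10)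
≥ 2^(k-12) K 2^-9 h''^(9/10) ≥ h'' lam^2 2^(k-9)/32` (`h'' lam^2 = 2^(-i''(1-1/4000)) ≤ h''^(9/10)`).
-/

namespace MuntzF
open Set Metric MeasureTheory
open scoped ENNReal

theorem R14_cell {d : ℕ × ℕ} {x : ℝ} (h : x ∈ cell d) : |x - dc d| ≤ dl d / 2 := by
  obtain ⟨h1, h2⟩ := h
  unfold dc
  rw [abs_le]
  constructor
  · have : ((d.2 : ℝ) + 1 / 2) * dl d = d.2 * dl d + dl d / 2 := by ring
    rw [this]; linarith
  · have : ((d.2 : ℝ) + 1 / 2) * dl d = d.2 * dl d + dl d / 2 := by ring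
    have h3 : ((d.2 : ℝ) + 1) * dl d = d.2 * dl d + dl d := by ring
    rw [h3] at h2
    rw [this]; linarith

theorem R14_st {d : ℕ × ℕ} {x y : ℝ} (h : x ∈ cell d) (hxy : |y - x| ≤ dl d / 8) : y ∈ st d := by
  have h1 := R14_cell h
  have hp : 0 < dl d := by unfold dl; positivity
  rw [abs_le] at h1 hxy
  unfold st
  rw [mem_Icc]
  constructor <;> linarith [h1.1, h1.2, hxy.1, hxy.2]

theorem R14_hlam (i : ℕ) : hh i * lam i ^ 2 ≤ hh i ^ ((9 : ℝ) / 10) := by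
  have h1 : hh i = (2 : ℝ) ^ (-(i : ℝ)) := by
    unfold hh
    rw [Real.rpow_neg (by norm_num), Real.rpow_natCast, one_div, inv_pow]
  have h2 : lam i ^ 2 = (2 : ℝ) ^ ((i : ℝ) / 4000) := by
    unfold lam
    rw [← Real.rpow_natCast ((2 : ℝ) ^ ((i : ℝ) / 8000)) 2, ← Real.rpow_mul (by norm_num)]
    congr 1
    push_cast
    ring
  rw [h2, h1, ← Real.rpow_add (by norm_num), ← Real.rpow_mul (by norm_num)]
  apply Real.rpow_le_rpow_of_exponent_le (by norm_num)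
  have : (0 : ℝ) ≤ i := Nat.cast_nonneg i
  linarith

theorem R14_H {i m : ℕ} (h : m ≤ i + 10) : (1 / 2 ^ 9 : ℝ) * hh i ^ ((9 : ℝ) / 10) ≤ hh m ^ ((9 : ℝ) / 10) := by
  have h1 : hh (i + 10) ≤ hh m := by
    unfold hh
    exact pow_le_pow_of_le_one (by norm_num) (by norm_num) h
  have h0 : 0 < hh i := by unfold hh; positivity
  have h2 : hh (i + 10) = (1 / 2 ^ 10) * hh i := by
    unfold hh
    rw [pow_add]
    norm_num
    ring
  have h3 : hh (i + 10) ^ ((9 : ℝ) / 10) ≤ hh m ^ ((9 : ℝ) / 10) :=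
    Real.rpow_le_rpow (by unfold hh; positivity) h1 (by norm_num)
  refine le_trans (le_of_eq ?_) h3
  rw [h2, Real.mul_rpow (by positivity) h0.le]
  congr 1
  rw [show (1 / 2 ^ 10 : ℝ) = (2 : ℝ) ^ (-(10 : ℝ)) by
    rw [Real.rpow_neg (by norm_num)]; norm_num, ← Real.rpow_mul (by norm_num)]
  norm_num

theorem R14_lev9 {b0 : ℝ} {c : ℕ → ℝ → ℝ} {j0 : ℕ} {B0 L : ℝ} (h : CSeq b0 c j0 B0 L) {j : ℕ}
    (hj : 2 * j0 + 100 ≤ j) {θ : ℝ} (hθ : θ ∈ I1 b0) (n : ℕ) :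
    lev c L (j + n) θ ≤ lev c L j θ + n := by
  induction n with
  | zero => exact le_rfl
  | succ n ih =>
    have := (lev_succ h (j := j + n) (by omega) hθ).2
    rw [← Nat.add_assoc]
    omega

theorem deep_absc {F : ℂ × ℂ → ℂ} {b0 : ℝ} (X : Ctx F b0) : ∃ (e0 K0 : ℝ) (k1 : ℕ), 0 < e0 ∧ 0 < K0 ∧
    ∀ (e1 K : ℝ) (k : ℕ) (d : ℕ × ℕ) (l : Ln), e1 ≤ e0 → K0 ≤ K → k1 ≤ k → Alive X e1 K k l →
    X.win (k - 9) d → (∃ θ ∈ cell d, |θ - tl l| ≤ 2 ^ 12 * etp l k) → 2 ^ 16 * etp l k ≤ dl d →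
    ht l ≤ 2 ^ (21 * X.ij (k - 9) d) ∧
    ∀ x : ℝ, 2 ^ (k - 9) / 2 ≤ x → x ≤ 4 * 2 ^ (k - 9) → x ∈ ElJ X (k - 9) d l := by
  have hcs := X.env.cs
  have hb := hcs.hb
  have hb0 : 0 < b0 := by linarith
  have hL := hcs.hL
  have hB := hcs.hB
  have hw0 : 400 * b0 ≤ 2 ^ X.w0 := by
    have := X.hw0
    linarith
  obtain ⟨j1, hj1⟩ := lev_large hcs hw0 (X.is + 12)
  refine ⟨1 / (8192 * b0), 128 + 2 * (1229 * b0 * X.B0 + 1024 * X.L), j1 + 9, by positivity,
    by positivity, ?_⟩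
  intro e1 K k d l he1 hK hk hA hwin hcell hlong
  obtain ⟨j, rfl⟩ : ∃ j, k = j + 9 := ⟨k - 9, by have := hwin.1; omega⟩
  simp only [Nat.add_sub_cancel] at hwin ⊢
  have hj : j1 ≤ j := by omega
  have hjw : 2 * X.j0 + 100 ≤ j := hwin.1
  set i := X.ij j d with hi
  have hiJ : i = iJ X.c X.L j d := rfl
  -- level large
  have hi1 : X.is + 11 ≤ i := by
    obtain ⟨θ, hθ1, hθ2⟩ := hwin.2.2.1
    have h1 := hj1 j hj θ hθ2
    have h2 := (win_lev hwin.2 ((cell_sub_st d).1 hθ1)).2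
    omega
  -- slopes
  set η := etp l (j + 9) with hη
  have hη0 : 0 ≤ η := by
    rw [hη]; unfold etp; positivity
  have hηe : η ≤ 1 / (8192 * b0) := hA.et.trans he1
  have hηb : 8192 * b0 * η ≤ 1 := by
    rw [le_div_iff₀ (by positivity)] at hηe
    linarith
  have ht1 := hA.t1
  have ht2 := hA.t2
  have htpos : 0 < tl l := lt_of_lt_of_le (by positivity) ht1
  have hI1 : ∀ θ : ℝ, |θ - tl l| ≤ 2 ^ 10 * η → θ ∈ I1 b0 := by
    intro θ hθ
    rw [abs_le] at hθ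
    unfold I1
    rw [mem_Icc]
    have e1 : 2 ^ 10 * η ≤ 1 / (8 * b0) := by
      rw [le_div_iff₀ (by positivity)]
      linarith
    have e2 : 1 / (8 * b0) ≤ b0 / 8 := by
      rw [div_le_div_iff₀ (by positivity) (by norm_num)]
      nlinarith
    have e3 : 1 / (2 * b0) + 1 / (8 * b0) ≤ 5 / (6 * b0) := by
      rw [div_add_div _ _ (by positivity) (by positivity), div_le_div_iff₀ (by positivity) (by positivity)]
      nlinarith
    constructor
    · linarith [hθ.1]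
    · linarith [hθ.2]
  have htl : tl l ∈ I1 b0 := hI1 _ (by rw [sub_self, abs_zero]; positivity)
  obtain ⟨θ'', hθc, hθd⟩ := hcell
  have hst : ∀ θ : ℝ, |θ - tl l| ≤ 2 ^ 10 * η → θ ∈ st d := by
    intro θ hθ
    apply R14_st hθc
    rw [abs_le] at hθ hθd ⊢
    constructor <;> linarith [hθ.1, hθ.2, hθd.1, hθd.2]
  -- ml
  have hml : ml X l (j + 9) ≤ i + 10 := by
    obtain ⟨θ0, hθ0, hθ1⟩ := ml_att X l (j + 9)
    have hθ0' : |θ0 - tl l| ≤ 2 ^ 10 * η := hθ0.trans (by linarith)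
    have h1 := (win_lev hwin.2 (hst θ0 hθ0')).2
    have h2 := R14_lev9 hcs hjw (hI1 θ0 hθ0') 9
    rw [← hθ1]
    unfold Ctx.lv
    omega
  have hht : ht l ≤ 2 ^ (21 * i) := by
    refine hA.hV.trans (pow_le_pow_right₀ (by norm_num) ?_)
    omega
  refine ⟨hht, ?_⟩
  intro x hx1 hx2
  have hR : (0 : ℝ) < 2 ^ j := by positivity
  have hx0 : 0 < x := by linarith
  have hq : (l.q : ℝ) ≠ 0 := by exact_mod_cast hA.hq
  have hbη : |bl l| = η * (2 ^ 9 * 2 ^ j) := by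
    rw [hη]; unfold etp
    rw [pow_add]
    field_simp
  have hbx : |bl l| ≤ 2 ^ 10 * η * x := by
    rw [hbη]
    have : η * (2 ^ 9 * 2 ^ j) ≤ η * (2 ^ 9 * (2 * x)) := by
      apply mul_le_mul_of_nonneg_left _ hη0
      linarith
    linarith
  set y := tl l * x + bl l with hy
  have honl : onl l x y := by
    unfold onl
    rw [hy]
    unfold tl bl
    field_simp
    ring
  have hyx : y / x = tl l + bl l / x := by
    rw [hy]
    field_simp
  have hsl : |y / x - tl l| ≤ 2 ^ 10 * η := by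
    rw [hyx, add_sub_cancel_left, abs_div, abs_of_pos hx0, div_le_iff₀ hx0]
    exact hbx
  have hyst : y / x ∈ st d := hst _ hsl
  refine ⟨hx1, hx2, y, honl, hyst, ?_⟩
  -- the bound for F
  set H := hh (ml X l (j + 9)) ^ ((9 : ℝ) / 10) with hH
  have hhpos : ∀ n, 0 < hh n := fun n => by unfold hh; positivity
  have hHpos : 0 < H := Real.rpow_pos_of_pos (hhpos _) _
  have hKpos : 0 < K := lt_of_lt_of_le (by positivity) hK
  set t := K * η + K * H with ht
  have htp : 0 < t := by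
    have := mul_pos hKpos hHpos
    have := mul_nonneg hKpos.le hη0
    linarith
  have hxl : xl l ≤ 1229 * b0 * η * x := by
    unfold xl
    apply max_le
    · positivity
    · have h1 : -bl l / tl l ≤ |bl l| / tl l := by
        apply div_le_div_of_nonneg_right (neg_le_abs _) htpos.le
      have h2 : |bl l| / tl l ≤ |bl l| * (6 * b0 / 5) := by
        rw [div_le_iff₀ htpos]
        have h3 : 1 ≤ 6 * b0 / 5 * tl l := by
          have h4 : 6 * b0 / 5 * (5 / (6 * b0)) = 1 := by field_simp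
          rw [← h4]
          exact mul_le_mul_of_nonneg_left ht1 (by positivity)
        calc |bl l| = |bl l| * 1 := (mul_one _).symm
          _ ≤ |bl l| * (6 * b0 / 5 * tl l) := mul_le_mul_of_nonneg_left h3 (abs_nonneg _)
          _ = _ := by ring
      have h5 : |bl l| * (6 * b0 / 5) ≤ 2 ^ 10 * η * x * (6 * b0 / 5) :=
        mul_le_mul_of_nonneg_right hbx (by positivity)
      have h6 : 2 ^ 10 * η * x * (6 * b0 / 5) ≤ 1229 * b0 * η * x := by
        have : 0 ≤ b0 * η * x := by positivity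
        nlinarith
      linarith
  have hxl0 : 0 ≤ xl l := le_max_left _ _
  have hxl4 : xl l ≤ x / 4 := by
    have : 1229 * b0 * η * x ≤ 1 / 4 * x := by
      apply mul_le_mul_of_nonneg_right _ hx0.le
      linarith
    linarith
  have hc0 : 0 ≤ X.c (j + 9) (tl l) ∧ X.c (j + 9) (tl l) ≤ X.B0 := hcs.nn _ (by omega) _ htl
  set C := X.c (j + 9) (tl l) with hC
  have hF := leaf_point X (k := j + 9) (l := l) (x := x) (t := t) htpos (by linarith)
    (by
      have : (2 : ℝ) ^ (j + 9) = 2 ^ 9 * 2 ^ j := by rw [pow_add]; ring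
      rw [this]
      linarith) htp hA.dp hc0.1
  rw [← hC] at hF
  have hbox := (X.box j d hjw hwin.2 (by omega : X.is ≤ iJ X.c X.L j d)).lo (y / x)
    ((cell_sub_st d).2 hyst)
  have hal : X.al j d + X.be j d * (y / x) ≤ C + X.L * (2 ^ 10 * η) := by
    refine hbox.2.trans ?_
    have h1 : X.c (j + 4 * iJ X.c X.L j d) (y / x) ≤ X.c (j + 9) (y / x) :=
      c_anti hcs (by omega) (by omega) (hI1 _ hsl)
    have h2 := hcs.lip (j + 9) (by omega) (y / x) (hI1 _ hsl) (tl l) htl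
    have h3 := (abs_le.1 h2).2
    have h4 : X.L * |y / x - tl l| ≤ X.L * (2 ^ 10 * η) :=
      mul_le_mul_of_nonneg_left hsl (by linarith)
    rw [hC]
    linarith
  have hexp : X.al j d * x + X.be j d * y ≤ x * (C + X.L * (2 ^ 10 * η)) := by
    have h1 : X.al j d * x + X.be j d * y = x * (X.al j d + X.be j d * (y / x)) := by
      field_simp
    rw [h1]
    exact mul_le_mul_of_nonneg_left hal hx0.le
  unfold Ctx.fj
  have hfin : hh i * lam i ^ 2 * 2 ^ j / 32 ≤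
      (x - xl l) * (C + t) - x * (C + X.L * (2 ^ 10 * η)) := by
    have h1 : xl l * C ≤ 1229 * b0 * η * x * X.B0 := by
      calc xl l * C ≤ xl l * X.B0 := mul_le_mul_of_nonneg_left hc0.2 hxl0
        _ ≤ _ := mul_le_mul_of_nonneg_right hxl hB
    have h2 : xl l * t ≤ x / 4 * t := mul_le_mul_of_nonneg_right hxl4 htp.le
    have h3 : (1229 * b0 * X.B0 + 1024 * X.L) * η ≤ t / 2 := by
      have h4 : 2 * (1229 * b0 * X.B0 + 1024 * X.L) * η ≤ K * η :=
        mul_le_mul_of_nonneg_right (by linarith) hη0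
      have h5 : K * η ≤ t := by
        have := mul_pos hKpos hHpos
        linarith
      linarith
    have h6 : x * ((1229 * b0 * X.B0 + 1024 * X.L) * η) ≤ x * (t / 2) :=
      mul_le_mul_of_nonneg_left h3 hx0.le
    have h7 : x * t / 4 ≤ (x - xl l) * (C + t) - x * (C + X.L * (2 ^ 10 * η)) := by
      nlinarith
    refine le_trans ?_ h7
    have h8 : (1 / 2 ^ 9 : ℝ) * hh i ^ ((9 : ℝ) / 10) ≤ H := R14_H hml
    have h9 := R14_hlam i
    have h10 : K * ((1 / 2 ^ 9 : ℝ) * (hh i * lam i ^ 2)) ≤ t := by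
      have a1 : (1 / 2 ^ 9 : ℝ) * (hh i * lam i ^ 2) ≤ H :=
        (mul_le_mul_of_nonneg_left h9 (by positivity)).trans h8
      have a2 := mul_le_mul_of_nonneg_left a1 hKpos.le
      have a3 := mul_nonneg hKpos.le hη0
      linarith
    have h11 : 0 ≤ hh i * lam i ^ 2 := by
      have := (hhpos i).le
      positivity
    have h12 : 128 * ((1 / 2 ^ 9 : ℝ) * (hh i * lam i ^ 2)) ≤ t := by
      refine le_trans ?_ h10
      apply mul_le_mul_of_nonneg_right _ (by positivity)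
      have : 0 ≤ 1229 * b0 * X.B0 + 1024 * X.L := by positivity
      linarith
    have h13 : 2 ^ j / 2 * (128 * ((1 / 2 ^ 9 : ℝ) * (hh i * lam i ^ 2))) ≤ x * t :=
      mul_le_mul hx1 h12 (by positivity) hx0.le
    have h14 : hh i * lam i ^ 2 * 2 ^ j / 32 =
        2 ^ j / 2 * (128 * ((1 / 2 ^ 9 : ℝ) * (hh i * lam i ^ 2))) / 4 := by ring
    rw [h14]
    linarith
  calc ‖F ((x : ℂ), (y : ℂ))‖ * Real.exp (X.al j d * x + X.be j d * y)
      ≤ Real.exp (-((x - xl l) * (C + t))) * Real.exp (x * (C + X.L * (2 ^ 10 * η))) :=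
        mul_le_mul hF (Real.exp_le_exp.2 hexp) (Real.exp_pos _).le (Real.exp_pos _).le
    _ = Real.exp (-((x - xl l) * (C + t) - x * (C + X.L * (2 ^ 10 * η)))) := by
        rw [← Real.exp_add]
        congr 1
        ring
    _ ≤ _ := by
        rw [Real.exp_le_exp]
        linarith

end MuntzF
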