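import Pool.Agent.Lib.MP_dde81e_full.R6
import Pool.Agent.Lib.MP_dde81e_full.R13

/-!
Module R15 (text 10.11 (ii)): alive lines near a short window.
Proof.  LL nonempty (else trivial): `e ≤ etp l k ≤ e1`, `dl d < 2^17 e`.  `u = dc d - 2^18 e`, `v = dc d + 2^18 e`; `Icc u v ⊆ I2` (`cell d` contains a
point within `2^12 e1` of `tl l`, `e1 ≤ e0` small).  For `l ∈ LL` the slopes within `8 etp` of `tl l` are in `Icc u v`
(`|θ'' - dc d| ≤ dl d/2`, `|tl l - θ''| ≤ 2^12 · 2e`), so by `pay_vol` `∑_{l ∈ LL} vol(Dg X (k-2) l ∩ Icc u v) ≥ 7 e #LL`.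
Levels: `e0 ≤ 2^(-w0-18)`, so `dl d < 2^17 e1 < 2^-w0` and by `win_len` `h'' = hh (X.ij (k-9) d) ≤ 2 dl d ≤ 2^18 e`.  Let `θ'' ∈ cell d ∩ I2` and
`θ' ∈ Icc u v`, `|θ'-θ''| ≤ 2^19 e`.  `lev_lip`: either `X.lv (k-9) θ' + 2 ≤ X.lv (k-9) θ''`, then `hh(X.lv (k-9) θ') ≤ 2^19 e/64`, or
`X.lv (k-9) θ' ≥ X.lv (k-9) θ'' - 1 ≥ X.ij (k-9) d - 1`, then `hh(..) ≤ 2 h'' ≤ 2^19 e`.  `lev_succ` seven times: `hh (X.lv (k-2) θ') ≤ 2^26 e =: M`.
`local_pay` at `j = k-2`: `7 e #LL ≤ C 2^(k-2)(M 2^19 e + M^2) ≤ C' 2^k e^2`.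
-/

namespace MuntzF
open Set Metric MeasureTheory
open scoped ENNReal

theorem R15_I2 {b0 e1 θ : ℝ} {l : Ln} {e : ℝ} (hb : 2 ≤ b0) (he1 : e1 ≤ 1 / (48 * b0))
    (h1 : 5 / (6 * b0) ≤ tl l) (h2 : tl l ≤ 6 * b0 / 5) (he : e ≤ e1) (hθ : |θ - tl l| ≤ 8 * e) :
    θ ∈ I2 b0 := by
  have hb0 : 0 < b0 := by linarith
  have h3 : 8 * e ≤ 1 / (6 * b0) := by
    have h4 : 8 * (1 / (48 * b0)) = 1 / (6 * b0) := by field_simp; norm_num
    linarith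
  have h5 : 1 / (6 * b0) ≤ 1 / 12 := by
    apply one_div_le_one_div_of_le (by norm_num); linarith
  have h6 := abs_le.1 (hθ.trans h3)
  have h7 : 5 / (6 * b0) - 1 / (6 * b0) = 2 / (3 * b0) := by field_simp; norm_num
  constructor
  · linarith [h6.1]
  · linarith [h6.2]

/-- `n` steps of `lev_succ` -/
theorem R15_lev {F : ℂ × ℂ → ℂ} {b0 : ℝ} (X : Ctx F b0) {j : ℕ} (hj : 2 * X.j0 + 100 ≤ j) {θ : ℝ}
    (hθ : θ ∈ I1 b0) (n : ℕ) : X.lv j θ ≤ X.lv (j + n) θ + n := by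
  induction n with
  | zero => exact le_rfl
  | succ n ih =>
    have h := (lev_succ X.env.cs (j := j + n) (by omega) hθ).1
    have h' : X.lv (j + n) θ ≤ X.lv (j + n + 1) θ + 1 := h
    have h2 : X.lv (j + (n + 1)) θ = X.lv (j + n + 1) θ := rfl
    omega

theorem R15_hh {i i' n : ℕ} (h : i ≤ i' + n) : hh i' ≤ 2 ^ n * hh i := by
  unfold hh
  have h1 : ((1 : ℝ) / 2) ^ (i' + n) ≤ (1 / 2) ^ i :=
    pow_le_pow_of_le_one (by norm_num) (by norm_num) h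
  have h2 : (2 : ℝ) ^ n * (1 / 2) ^ (i' + n) = (1 / 2) ^ i' := by
    rw [pow_add, mul_left_comm, ← mul_pow]
    norm_num
  calc ((1 : ℝ) / 2) ^ i' = 2 ^ n * (1 / 2) ^ (i' + n) := h2.symm
    _ ≤ 2 ^ n * (1 / 2) ^ i := by gcongr

theorem count_ii {F : ℂ × ℂ → ℂ} {b0 : ℝ} (X : Ctx F b0) : ∃ (e0 K0 C : ℝ) (k1 : ℕ), 0 < e0 ∧ 0 < K0 ∧
    0 < C ∧ ∀ (e1 K : ℝ) (k : ℕ) (d : ℕ × ℕ) (e : ℝ) (LL : Finset Ln), e1 ≤ e0 → K0 ≤ K → k1 ≤ k →
    X.win (k - 9) d → 0 < e →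
    (∀ l ∈ LL, Alive X e1 K k l ∧ e ≤ etp l k ∧ etp l k < 2 * e ∧ dl d < 2 ^ 16 * etp l k ∧
      ∃ θ ∈ cell d, |θ - tl l| ≤ 2 ^ 12 * etp l k) →
    (LL.card : ℝ) ≤ C * 2 ^ k * e := by
  obtain ⟨ep, K0, kp, hep, hK0, hpv⟩ := pay_vol X
  obtain ⟨C, kl, hC, hlp⟩ := local_pay X
  have hb : 2 ≤ b0 := X.env.cs.hb
  have hb0 : 0 < b0 := by linarith
  refine ⟨min ep (min (1 / (48 * b0) / 2 ^ 16) ((1 / 2) ^ (X.w0 + 18))), K0, C * 2 ^ 53,
    max kp (max (kl + 2) (2 * X.j0 + 109)), lt_min hep (lt_min (by positivity) (by positivity)),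
    hK0, by positivity, ?_⟩
  intro e1 K k d e LL he1 hK hk hwin he hLL
  have he1p : e1 ≤ ep := he1.trans (min_le_left _ _)
  have he1b : e1 ≤ 1 / (48 * b0) / 2 ^ 16 :=
    he1.trans ((min_le_right _ _).trans (min_le_left _ _))
  have he1w : e1 ≤ (1 / 2) ^ (X.w0 + 18) := he1.trans ((min_le_right _ _).trans (min_le_right _ _))
  have hkp : kp ≤ k := (le_max_left _ _).trans hk
  have hkl : kl + 2 ≤ k := ((le_max_left _ _).trans (le_max_right _ _)).trans hk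
  have hkj : 2 * X.j0 + 109 ≤ k := ((le_max_right _ _).trans (le_max_right _ _)).trans hk
  have hw400 : 400 * b0 ≤ 2 ^ X.w0 := le_trans (by linarith) X.hw0
  rcases LL.eq_empty_or_nonempty with rfl | ⟨l0, hl0⟩
  · simp only [Finset.card_empty, Nat.cast_zero]
    positivity
  obtain ⟨hal0, he0a, he0b, hd0, θ0, hθ0, hθ0'⟩ := hLL l0 hl0
  have hee1 : e ≤ e1 := he0a.trans hal0.et
  have hdl : dl d < 2 ^ 17 * e := by linarith
  set u := dc d - 2 ^ 18 * e with hu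
  set v := dc d + 2 ^ 18 * e with hv
  have huv : u ≤ v := by rw [hu, hv]; linarith
  -- distance from the centre
  have hcen : ∀ l ∈ LL, |tl l - dc d| ≤ (2 ^ 16 + 2 ^ 13) * e := by
    intro l hl
    obtain ⟨hal, h1, h2, h3, θ, hθ, hθ'⟩ := hLL l hl
    have h4 := L2_cell hθ
    have h5 := abs_le.1 h4
    have h6 := abs_le.1 hθ'
    rw [abs_le]
    constructor <;> linarith
  have hI2 : Icc u v ⊆ I2 b0 := by
    intro θ hθ
    have h1 := abs_le.1 (hcen l0 hl0)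
    refine R15_I2 (e1 := 1 / (48 * b0)) (l := l0) (e := 2 ^ 16 * e) hb le_rfl hal0.t1 hal0.t2 ?_ ?_
    · have : 2 ^ 16 * e ≤ 2 ^ 16 * (1 / (48 * b0) / 2 ^ 16) := by
        apply mul_le_mul_of_nonneg_left (hee1.trans he1b) (by norm_num)
      have h2 : (2 : ℝ) ^ 16 * (1 / (48 * b0) / 2 ^ 16) = 1 / (48 * b0) := by field_simp
      linarith
    · rw [abs_le]
      constructor <;> linarith [hθ.1, hθ.2]
  have hI1 : ∀ θ ∈ I2 b0, θ ∈ I1 b0 := fun θ hθ => e8_I2_sub hb hθ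
  -- the level of the window
  have hne : d.1 ≠ X.w0 := by
    intro h1
    have h2 : dl d = (1 / 2) ^ X.w0 := by unfold dl; rw [h1]
    have h3 : 2 ^ 17 * e ≤ 2 ^ 17 * (1 / 2) ^ (X.w0 + 18) := by
      apply mul_le_mul_of_nonneg_left (hee1.trans he1w) (by norm_num)
    have h4 : (2 : ℝ) ^ 17 * (1 / 2) ^ (X.w0 + 18) = (1 / 2) ^ X.w0 * (1 / 2) := by
      rw [pow_add]; norm_num; ring
    have h5 : 0 < ((1 : ℝ) / 2) ^ X.w0 := by positivity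
    linarith
  have hh1 : hh (X.ij (k - 9) d) ≤ 2 ^ 18 * e := by
    rcases win_len X.env.cs hw400 hwin.1 hwin.2 with h1 | ⟨-, h1⟩
    · exact absurd h1 hne
    · have h2 : hh (X.ij (k - 9) d) ≤ 2 * dl d := h1
      linarith
  obtain ⟨θ'', hθc, hθI⟩ := hwin.2.2.1
  have hlev : ∀ θ ∈ Icc u v, hh (X.lv (k - 2) θ) ≤ 2 ^ 26 * e := by
    intro θ hθ
    have hθ2 := hI2 hθ
    have h1 := L2_cell hθc
    have h2 : |θ'' - θ| ≤ 2 ^ 19 * e := by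
      have h5 := abs_le.1 h1
      rw [abs_le]
      constructor <;> linarith [hθ.1, hθ.2]
    have h3 : hh (X.lv (k - 9) θ) ≤ 2 ^ 19 * e := by
      by_cases h4 : X.lv (k - 9) θ + 2 ≤ X.lv (k - 9) θ''
      · have h5 := lev_lip X.env.cs hwin.1 (hI1 _ hθI) (hI1 _ hθ2) h4
        have h6 : hh (X.lv (k - 9) θ) ≤ |θ'' - θ| / 64 := h5
        linarith
      · have h5 : X.ij (k - 9) d ≤ X.lv (k - 9) θ'' := iJ_le _ _ _ _ ((cell_sub_st d).1 hθc)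
        have h6 : hh (X.lv (k - 9) θ) ≤ 2 ^ 1 * hh (X.ij (k - 9) d) := R15_hh (by omega)
        linarith
    have h4 := R15_lev X hwin.1 (hI1 _ hθ2) 7
    rw [show k - 9 + 7 = k - 2 by omega] at h4
    have h5 := R15_hh h4
    linarith
  have hpay := hlp (k - 2) u v (2 ^ 26 * e) LL (by omega) huv hI2 (by positivity) hlev
  have hlow : ∀ l ∈ LL, ENNReal.ofReal (7 * e) ≤ volume (Dg X (k - 2) l ∩ Icc u v) := by
    intro l hl
    obtain ⟨hal, h1, h2, h3, -⟩ := hLL l hl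
    have h4 := abs_le.1 (hcen l hl)
    refine le_trans (ENNReal.ofReal_le_ofReal (by linarith))
      ((hpv e1 K k l he1p hK hkp hal).2 u v (by linarith [h4.1, h4.2]) (by linarith [h4.1, h4.2]))
  have hsum : ENNReal.ofReal (LL.card * (7 * e)) ≤
      ENNReal.ofReal (C * 2 ^ (k - 2) * (2 ^ 26 * e * (v - u) + (2 ^ 26 * e) ^ 2)) := by
    refine le_trans ?_ hpay
    have h1 := Finset.card_nsmul_le_sum LL (fun l => volume (Dg X (k - 2) l ∩ Icc u v)) _ hlow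
    refine le_trans (le_of_eq ?_) h1
    rw [nsmul_eq_mul, ENNReal.ofReal_mul (by positivity), ENNReal.ofReal_natCast]
  have hvu : v - u = 2 ^ 19 * e := by rw [hu, hv]; ring
  have h1 := (ENNReal.ofReal_le_ofReal_iff (by rw [hvu]; positivity)).1 hsum
  rw [hvu] at h1
  have h2 : (2 : ℝ) ^ (k - 2) ≤ 2 ^ k := pow_le_pow_right₀ (by norm_num) (Nat.sub_le _ _)
  have h3 : C * 2 ^ (k - 2) * (2 ^ 26 * e * (2 ^ 19 * e) + (2 ^ 26 * e) ^ 2) ≤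
      C * 2 ^ k * (2 ^ 53 * e ^ 2) := by
    apply mul_le_mul (mul_le_mul_of_nonneg_left h2 hC.le) _ (by positivity) (by positivity)
    nlinarith [sq_nonneg e]
  have h4 : (LL.card : ℝ) * e ≤ C * 2 ^ 53 * 2 ^ k * e * e := by
    have h5 : (LL.card : ℝ) * e ≤ LL.card * (7 * e) := by
      apply mul_le_mul_of_nonneg_left _ (Nat.cast_nonneg _)
      linarith
    nlinarith
  exact le_of_mul_le_mul_right h4 he

end MuntzF
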