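import Pool.Agent.Lib.MP_dde81e_full.R14
import Pool.Agent.Lib.MP_dde81e_full.R15
import Pool.Agent.Lib.MP_dde81e_full.E9

/-!
Module R16 (text 10.11): number of charged lines.
`dy_sum`: the sets `{l ∈ LL : M 2^-s ≤ f l < 2 M 2^-s}`, `s = 0,1,..`, cover `LL` (finitely many `s`), sum of the geometric series.
`charged`: (i) lines with `2^16 etp l k ≤ dl d`: `deep_absc`: `vol(ElJ X (k-9) d l) ≥ (7/2) 2^(k-9)`; `nr`:
`#·(7/2) 2^(k-9) ≤ C h lam 4^(k-9)`, and `h lam = 2^(-i(1-1/8000)) ≤ h^(9/10)`.  (ii) the others (then `etp > 0`): `count_ii` and `dy_sum` with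
`f = etp · k`, `M = h^(9/10)`, `A = C 2^k`.  (`i1 ≤ X.ij (k-9) d`: `ij_large`.)
-/

namespace MuntzF
open Set Metric MeasureTheory
open scoped ENNReal

theorem dy_sum (LL : Finset Ln) (f : Ln → ℝ) (A M : ℝ) (hM : 0 < M) (hA : 0 ≤ A)
    (hf : ∀ l ∈ LL, 0 < f l ∧ f l ≤ M)
    (h : ∀ e : ℝ, 0 < e → ∀ S : Finset Ln, S ⊆ LL → (∀ l ∈ S, e ≤ f l ∧ f l < 2 * e) →
      (S.card : ℝ) ≤ A * e) : (LL.card : ℝ) ≤ 2 * A * M := by
  classical
  have hex : ∀ l ∈ LL, ∃ s : ℕ, M * (1 / 2) ^ s ≤ f l := by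
    intro l hl
    obtain ⟨s, hs⟩ := exists_pow_lt_of_lt_one (div_pos (hf l hl).1 hM) (by norm_num : (1 / 2 : ℝ) < 1)
    refine ⟨s, ?_⟩
    rw [lt_div_iff₀ hM] at hs
    linarith
  have hex2 : ∀ l ∈ LL, ∃ s : ℕ, M * (1 / 2) ^ s ≤ f l ∧ f l < 2 * (M * (1 / 2) ^ s) := by
    intro l hl
    have h1 := hex l hl
    refine ⟨Nat.find h1, Nat.find_spec h1, ?_⟩
    rcases Nat.eq_zero_or_pos (Nat.find h1) with h0 | h0
    · rw [h0, pow_zero, mul_one]
      linarith [(hf l hl).2]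
    · have h2 := Nat.find_min h1 (m := Nat.find h1 - 1) (by omega)
      rw [not_le] at h2
      refine h2.trans_le (le_of_eq ?_)
      obtain ⟨m, hm⟩ : ∃ m, Nat.find h1 = m + 1 := ⟨Nat.find h1 - 1, by omega⟩
      rw [hm, Nat.add_sub_cancel, pow_succ]
      ring
  choose! g hg using hex2
  obtain ⟨n, hn⟩ : ∃ n, ∀ l ∈ LL, g l < n :=
    ⟨LL.sup g + 1, fun l hl => Nat.lt_succ_iff.2 (Finset.le_sup hl)⟩
  have h1 : (LL.card : ℝ) = ∑ s ∈ Finset.range n, ((LL.filter (fun l => g l = s)).card : ℝ) := by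
    rw [← Nat.cast_sum, ← Finset.card_eq_sum_card_fiberwise]
    intro l hl
    exact Finset.mem_coe.2 (Finset.mem_range.2 (hn l (Finset.mem_coe.1 hl)))
  have h2 : ∀ s ∈ Finset.range n, ((LL.filter (fun l => g l = s)).card : ℝ) ≤
      A * M * (1 / 2) ^ s := by
    intro s _
    rw [mul_assoc]
    apply h _ (by positivity) _ (Finset.filter_subset _ _)
    intro l hl
    obtain ⟨hl1, hl2⟩ := Finset.mem_filter.1 hl
    rw [← hl2]
    exact hg l hl1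
  rw [h1]
  refine (Finset.sum_le_sum h2).trans ?_
  rw [← Finset.mul_sum]
  have h3 : ∑ s ∈ Finset.range n, (1 / 2 : ℝ) ^ s ≤ 2 := by
    have := geom_sum_eq (by norm_num : (1 / 2 : ℝ) ≠ 1) n
    rw [this]
    have h4 : (0 : ℝ) < (1 / 2) ^ n := by positivity
    rw [div_le_iff_of_neg (by norm_num)]
    linarith
  have h5 : 0 ≤ A * M := by positivity
  calc A * M * ∑ s ∈ Finset.range n, (1 / 2 : ℝ) ^ s ≤ A * M * 2 :=
        mul_le_mul_of_nonneg_left h3 h5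
    _ = 2 * A * M := by ring

theorem R16_hlam (i : ℕ) : hh i * lam i ≤ hh i ^ ((9 : ℝ) / 10) := by
  have h1 : (1 : ℝ) ≤ lam i := by
    unfold lam
    exact Real.one_le_rpow (by norm_num) (by positivity)
  have h2 : 0 ≤ hh i := by unfold hh; positivity
  refine le_trans ?_ (R14_hlam i)
  apply mul_le_mul_of_nonneg_left _ h2
  nlinarith

theorem charged {F : ℂ × ℂ → ℂ} {b0 : ℝ} (X : Ctx F b0) : ∃ (e0 K0 C : ℝ) (k1 : ℕ), 0 < e0 ∧ 0 < K0 ∧
    0 < C ∧ ∀ (e1 K : ℝ) (k : ℕ) (d : ℕ × ℕ) (LL : Finset Ln), e1 ≤ e0 → K0 ≤ K → k1 ≤ k →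
    X.win (k - 9) d →
    (∀ l ∈ LL, Alive X e1 K k l ∧ etp l k < hh (X.ij (k - 9) d) ^ ((9 : ℝ) / 10) ∧
      ∃ θ ∈ cell d, |θ - tl l| ≤ 2 ^ 12 * etp l k) →
    (LL.card : ℝ) ≤ C * 2 ^ k * hh (X.ij (k - 9) d) ^ ((9 : ℝ) / 10) := by
  classical
  obtain ⟨ea, Ka, ka, hea, hKa, Ha⟩ := deep_absc X
  obtain ⟨eb, Kb, Cb, kb, heb, hKb, hCb, Hb⟩ := count_ii X
  obtain ⟨Cn, ni, hCn, Hn⟩ := nr X
  obtain ⟨j1, Hj⟩ := ij_large X ni
  refine ⟨min ea eb, max Ka Kb, Cn + 2 * Cb, max (max ka kb) (j1 + 9), lt_min hea heb,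
    lt_max_of_lt_left hKa, by positivity, ?_⟩
  intro e1 K k d LL he1 hK hk hwin hLL
  set i := X.ij (k - 9) d with hi
  have hk1 : ka ≤ k := (le_max_left _ _).trans ((le_max_left _ _).trans hk)
  have hk2 : kb ≤ k := (le_max_right _ _).trans ((le_max_left _ _).trans hk)
  have hk3 : j1 ≤ k - 9 := by
    have := (le_max_right (max ka kb) (j1 + 9)).trans hk
    omega
  have hni : ni ≤ i := Hj (k - 9) d hk3 hwin
  have hhp : 0 < hh i := by unfold hh; positivity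
  have hHp : 0 < hh i ^ ((9 : ℝ) / 10) := Real.rpow_pos_of_pos hhp _
  set L1 := LL.filter (fun l => 2 ^ 16 * etp l k ≤ dl d) with hL1
  set L2 := LL.filter (fun l => ¬ 2 ^ 16 * etp l k ≤ dl d) with hL2
  have hsplit : (LL.card : ℝ) = (L1.card : ℝ) + (L2.card : ℝ) := by
    rw [← Nat.cast_add, Finset.card_filter_add_card_filter_not]
  -- part (i)
  have c1 : (L1.card : ℝ) ≤ Cn * 2 ^ k * hh i ^ ((9 : ℝ) / 10) := by
    have h1 : ∀ l ∈ L1, ht l ≤ 2 ^ (21 * i) ∧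
        ∀ x : ℝ, 2 ^ (k - 9) / 2 ≤ x → x ≤ 4 * 2 ^ (k - 9) → x ∈ ElJ X (k - 9) d l := by
      intro l hl
      obtain ⟨hl1, hl2⟩ := Finset.mem_filter.1 hl
      obtain ⟨a1, a2, a3⟩ := hLL l hl1
      exact Ha e1 K k d l (he1.trans (min_le_left _ _)) ((le_max_left _ _).trans hK) hk1 a1 hwin a3 hl2
    have h2 := Hn (k - 9) d L1 hwin hni (by
      intro l hl
      exact ⟨(h1 l hl).1, (hLL l (Finset.mem_filter.1 hl).1).1.hq⟩)
    have h3 : ∀ l ∈ L1, ENNReal.ofReal (7 / 2 * 2 ^ (k - 9)) ≤ volume (ElJ X (k - 9) d l) := by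
      intro l hl
      have h4 : Icc ((2 : ℝ) ^ (k - 9) / 2) (4 * 2 ^ (k - 9)) ⊆ ElJ X (k - 9) d l :=
        fun x hx => (h1 l hl).2 x hx.1 hx.2
      refine le_trans ?_ (measure_mono h4)
      rw [Real.volume_Icc]
      apply ENNReal.ofReal_le_ofReal
      linarith
    have h5 : (L1.card : ℝ≥0∞) * ENNReal.ofReal (7 / 2 * 2 ^ (k - 9)) ≤
        ENNReal.ofReal (Cn * hh i * lam i * 4 ^ (k - 9)) := by
      refine le_trans ?_ h2
      rw [← nsmul_eq_mul, ← Finset.sum_const]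
      exact Finset.sum_le_sum h3
    have h6 : (L1.card : ℝ) * (7 / 2 * 2 ^ (k - 9)) ≤ Cn * hh i * lam i * 4 ^ (k - 9) := by
      have hl0 : 0 < lam i := by unfold lam; positivity
      have h7 : 0 ≤ Cn * hh i * lam i * 4 ^ (k - 9) := by positivity
      rw [← ENNReal.ofReal_le_ofReal_iff h7, ENNReal.ofReal_mul (Nat.cast_nonneg _),
        ENNReal.ofReal_natCast]
      exact h5
    have h8 : (4 : ℝ) ^ (k - 9) = 2 ^ (k - 9) * 2 ^ (k - 9) := by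
      rw [← mul_pow]
      norm_num
    have h9 : (0 : ℝ) < 2 ^ (k - 9) := by positivity
    have h10 : (L1.card : ℝ) * (7 / 2) ≤ Cn * (hh i * lam i) * 2 ^ (k - 9) := by
      rw [h8] at h6
      have : (L1.card : ℝ) * (7 / 2) * 2 ^ (k - 9) ≤ Cn * (hh i * lam i) * 2 ^ (k - 9) * 2 ^ (k - 9) := by
        calc (L1.card : ℝ) * (7 / 2) * 2 ^ (k - 9) = (L1.card : ℝ) * (7 / 2 * 2 ^ (k - 9)) := by ring
          _ ≤ _ := h6
          _ = _ := by ring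
      exact le_of_mul_le_mul_right this h9
    have h11 : Cn * (hh i * lam i) * 2 ^ (k - 9) ≤ Cn * hh i ^ ((9 : ℝ) / 10) * 2 ^ k := by
      apply mul_le_mul _ _ h9.le (by positivity)
      · exact mul_le_mul_of_nonneg_left (R16_hlam i) hCn.le
      · exact pow_le_pow_right₀ (by norm_num) (by omega)
    have h12 : (0 : ℝ) ≤ L1.card := Nat.cast_nonneg _
    linarith
  -- part (ii)
  have c2 : (L2.card : ℝ) ≤ 2 * (Cb * 2 ^ k) * hh i ^ ((9 : ℝ) / 10) := by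
    apply dy_sum L2 (fun l => etp l k) (Cb * 2 ^ k) (hh i ^ ((9 : ℝ) / 10)) hHp (by positivity)
    · intro l hl
      obtain ⟨hl1, hl2⟩ := Finset.mem_filter.1 hl
      rw [not_le] at hl2
      have hd : 0 < dl d := by unfold dl; positivity
      refine ⟨?_, (hLL l hl1).2.1.le⟩
      by_contra hcon
      rw [not_lt] at hcon
      linarith
    · intro e he S hS hSe
      apply Hb e1 K k d e S (he1.trans (min_le_right _ _)) ((le_max_right _ _).trans hK) hk2 hwin he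
      intro l hl
      obtain ⟨hl1, hl2⟩ := Finset.mem_filter.1 (hS hl)
      rw [not_le] at hl2
      obtain ⟨a1, a2, a3⟩ := hLL l hl1
      exact ⟨a1, (hSe l hl).1, (hSe l hl).2, hl2, a3⟩
  rw [hsplit]
  have : (Cn + 2 * Cb) * 2 ^ k * hh i ^ ((9 : ℝ) / 10) =
      Cn * 2 ^ k * hh i ^ ((9 : ℝ) / 10) + 2 * (Cb * 2 ^ k) * hh i ^ ((9 : ℝ) / 10) := by ring
  rw [this]
  linarith

end MuntzF
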