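import Pool.Agent.Lib.MP_dde81e_full.Z2

/-!
Module Z3 (text 11): the number of zeros of one window.  G = grid j d.  A point of Zc lies in a sub-box g of G (grid, with x = P.1, y = P.2); it is in Znv X j d g.1 g.2 or on a valley line of g.
By VCount the set of valleys V_g of a sub-box is finite (all its finite subsets have at most C h lam 2^j elements) and has at most C h lam 2^j elements.  Lines l of V_g which are not Rich have nl < h^(3/5) 2^j.
LL = union over g of the rich lines of V_g.  Total: 16384 n 4^j + 16384 C h lam 2^j h^(3/5) 2^j + sum over LL of nl, h * h^(3/5) = h^(8/5).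
-/

namespace MuntzF
open Set

theorem zc_finite (F : ℂ × ℂ → ℂ) {b0 : ℝ} (hb : 2 ≤ b0) (j : ℕ) (d : ℕ × ℕ) : (Zc F b0 j d).Finite := by
  apply Set.Finite.subset (Finset.finite_toSet
    (Finset.Icc (0 : ℤ) (2 ^ (j + 1)) ×ˢ Finset.Icc (0 : ℤ) ⌊b0 * (2 ^ (j + 1) : ℝ)⌋))
  rintro P ⟨⟨h1, h2, _⟩, h4, h5, _⟩
  rw [Finset.mem_coe, Finset.mem_product, Finset.mem_Icc, Finset.mem_Icc]
  have hP : (0 : ℝ) < P.1 := by exact_mod_cast (by omega : 0 < P.1)
  have h6 : (0 : ℝ) ≤ P.2 := by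
    have h7 : 0 ≤ (P.2 : ℝ) / P.1 := le_trans (by positivity) h2.1
    have h8 := mul_nonneg h7 hP.le
    rwa [div_mul_cancel₀ _ hP.ne'] at h8
  have h7 : (P.2 : ℝ) ≤ b0 * 2 ^ (j + 1) := by
    have h8 := h2.2
    rw [div_le_iff₀ hP] at h8
    have h9 : (P.1 : ℝ) ≤ 2 ^ (j + 1) := by exact_mod_cast h5.le
    calc (P.2 : ℝ) ≤ b0 * P.1 := h8
      _ ≤ _ := by gcongr
  refine ⟨⟨by omega, h5.le⟩, by exact_mod_cast h6, Int.le_floor.2 h7⟩

private theorem rpow_hh (i : ℕ) : hh i * hh i ^ ((3 : ℝ) / 5) = hh i ^ ((8 : ℝ) / 5) := by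
  have h : 0 < hh i := by unfold hh; positivity
  nth_rewrite 1 [← Real.rpow_one (hh i)]
  rw [← Real.rpow_add h]
  norm_num

theorem window_bound {F : ℂ × ℂ → ℂ} {b0 : ℝ} (X : Ctx F b0) (hV : VCount X) :
    ∃ (C : ℝ) (i1 : ℕ), 0 < C ∧ ∀ (j : ℕ) (d : ℕ × ℕ) (n : ℝ), X.win j d → i1 ≤ X.ij j d →
      (∀ x0 θ0 : ℝ, 2 ^ j ≤ x0 → x0 ≤ 2 * 2 ^ j → θ0 ∈ cell d →
        ((Znv X j d x0 θ0).ncard : ℝ) ≤ n * 4 ^ j) →
      ∃ LL : Finset Ln, (∀ l ∈ LL, Rich X j d l) ∧
        ((Zc F b0 j d).ncard : ℝ) ≤ 16384 * n * 4 ^ j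
          + C * (hh (X.ij j d) ^ ((8 : ℝ) / 5) * lam (X.ij j d)) * 4 ^ j
          + ∑ l ∈ LL, (nl F b0 j d l : ℝ) := by
  classical
  obtain ⟨CV, i1, hCV, hV⟩ := hV
  refine ⟨16384 * CV, i1, by positivity, fun j d n hw hi hn => ?_⟩
  have hb : 2 ≤ b0 := X.env.cs.hb
  obtain ⟨G, hG1, hG2, hG3⟩ := grid j d
  set i := X.ij j d with hidef
  have hhp : 0 < hh i := by unfold hh; positivity
  have hlp : 0 < lam i := by unfold lam; positivity
  have hdl : 0 < dl d := by unfold dl; positivity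
  have hn0 : 0 ≤ n := by
    have hx := hn (2 ^ j) (d.2 * dl d) le_rfl (by
      have : (0 : ℝ) < 2 ^ j := by positivity
      linarith) ⟨le_rfl, by nlinarith⟩
    have h2 : (0 : ℝ) ≤ n * 4 ^ j := le_trans (by positivity) hx
    have h3 : (0 : ℝ) < 4 ^ j := by positivity
    exact nonneg_of_mul_nonneg_left h2 h3
  have hlin0 : ∀ i, 0 < hh i ^ ((8 : ℝ) / 5) * lam i := fun i => by
    have h1 : 0 < hh i := by unfold hh; positivity
    have h2 : 0 < lam i := by unfold lam; positivity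
    positivity
  rcases Set.eq_empty_or_nonempty (Zc F b0 j d) with hemp | hne
  · refine ⟨∅, by simp, ?_⟩
    rw [hemp]
    have := hlin0 i
    simp only [Set.ncard_empty, Nat.cast_zero, Finset.sum_empty, add_zero]
    positivity
  have hcell : cell d ⊆ I2 b0 := by
    obtain ⟨P, ⟨_, hI, _⟩, _, _, hc⟩ := hne
    have hdw : dl d ≤ 1 / (4000 * b0) := by
      have h1 : dl d ≤ (1 / 2) ^ X.w0 :=
        pow_le_pow_of_le_one (by norm_num) (by norm_num) hw.2.1
      have h2 : ((1 : ℝ) / 2) ^ X.w0 ≤ 1 / (4000 * b0) := by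
        rw [one_div_pow]
        exact one_div_le_one_div_of_le (by positivity) X.hw0
      exact h1.trans h2
    have hd3 : dl d ≤ 1 / b0 - 2 / (3 * b0) := by
      have e : 1 / b0 - 2 / (3 * b0) = 1 / (3 * b0) := by
        field_simp
        norm_num
      rw [e]
      refine hdw.trans (one_div_le_one_div_of_le (by positivity) (by linarith))
    have hd4 : dl d ≤ 1 := by
      refine hdw.trans ?_
      rw [div_le_one (by positivity)]
      linarith
    intro x hx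
    unfold cell at hx hc
    unfold I0 at hI
    unfold I2
    obtain ⟨c1, c2⟩ := hx
    obtain ⟨c3, c4⟩ := hc
    obtain ⟨c5, c6⟩ := hI
    constructor
    · have : (d.2 + 1 : ℝ) * dl d = d.2 * dl d + dl d := by ring
      linarith
    · have : (d.2 + 1 : ℝ) * dl d = d.2 * dl d + dl d := by ring
      linarith
  -- finiteness of the set of valleys of a sub-box
  have hVf : ∀ g ∈ G, {l : Ln | Valley X j d g.1 g.2 l}.Finite := by
    intro g hg
    by_contra hinf
    obtain ⟨N, hN⟩ := exists_nat_gt (CV * hh i * lam i * 2 ^ j)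
    obtain ⟨t, ht1, ht2⟩ := Set.Infinite.exists_subset_card_eq (hinf : Set.Infinite _) N
    obtain ⟨h1, h2, h3⟩ := hG2 g hg
    have h4 := hV j d g.1 g.2 t hw hi hcell h1 h2 h3 (fun l hl => ht1 hl)
    rw [ht2] at h4
    linarith
  set VF : ℝ × ℝ → Finset Ln := fun g => if h : g ∈ G then (hVf g h).toFinset else ∅ with hVF
  have hVFm : ∀ g ∈ G, ∀ l, l ∈ VF g ↔ Valley X j d g.1 g.2 l := by
    intro g hg l
    simp only [hVF, dif_pos hg, Set.Finite.mem_toFinset]
    rfl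
  have hVFc : ∀ g ∈ G, ((VF g).card : ℝ) ≤ CV * hh i * lam i * 2 ^ j := by
    intro g hg
    obtain ⟨h1, h2, h3⟩ := hG2 g hg
    exact hV j d g.1 g.2 (VF g) hw hi hcell h1 h2 h3 (fun l hl => (hVFm g hg l).1 hl)
  set LL : Finset Ln := (G.biUnion VF).filter (fun l => Rich X j d l) with hLL
  refine ⟨LL, fun l hl => (Finset.mem_filter.1 hl).2, ?_⟩
  set ZF : Finset (ℤ × ℤ) := (zc_finite F hb j d).toFinset with hZF
  have hZFm : ∀ P, P ∈ ZF ↔ P ∈ Zc F b0 j d := by
    intro P; rw [hZF, Set.Finite.mem_toFinset]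
  have hnl : ∀ l, nl F b0 j d l = (ZF.filter (fun P => onlz l P)).card := by
    intro l
    unfold nl
    rw [← Set.ncard_coe_finset]
    congr 1
    ext P
    rw [Finset.mem_coe, Finset.mem_filter, hZFm]
    rfl
  have hZnv : ∀ g : ℝ × ℝ, (Znv X j d g.1 g.2).ncard = (ZF.filter (fun P => P ∈ Znv X j d g.1 g.2)).card := by
    intro g
    rw [← Set.ncard_coe_finset]
    congr 1
    ext P
    rw [Finset.mem_coe, Finset.mem_filter, hZFm]
    constructor
    · intro h; exact ⟨h.1, h⟩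
    · intro h; exact h.2
  have hcov : ZF ⊆ G.biUnion (fun g => ZF.filter (fun P => P ∈ Znv X j d g.1 g.2)) ∪
      (G.biUnion (fun g => ((VF g).filter (fun l => ¬ Rich X j d l)).biUnion
        (fun l => ZF.filter (fun P => onlz l P))) ∪
      LL.biUnion (fun l => ZF.filter (fun P => onlz l P))) := by
    intro P hP
    have hPz := (hZFm P).1 hP
    obtain ⟨hPf, h4, h5, h6⟩ := hPz
    have h4' : (2 : ℝ) ^ j ≤ P.1 := by exact_mod_cast h4
    have h5' : (P.1 : ℝ) < 2 ^ (j + 1) := by exact_mod_cast h5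
    obtain ⟨g, hg, hin⟩ := hG3 P.1 P.2 h4' h5' h6
    by_cases hval : ∃ l : Ln, Valley X j d g.1 g.2 l ∧ onlz l P
    · obtain ⟨l, hl1, hl2⟩ := hval
      have hlV : l ∈ VF g := (hVFm g hg l).2 hl1
      by_cases hr : Rich X j d l
      · apply Finset.mem_union_right
        apply Finset.mem_union_right
        rw [Finset.mem_biUnion]
        exact ⟨l, Finset.mem_filter.2 ⟨Finset.mem_biUnion.2 ⟨g, hg, hlV⟩, hr⟩,
          Finset.mem_filter.2 ⟨hP, hl2⟩⟩
      · apply Finset.mem_union_right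
        apply Finset.mem_union_left
        rw [Finset.mem_biUnion]
        exact ⟨g, hg, Finset.mem_biUnion.2 ⟨l, Finset.mem_filter.2 ⟨hlV, hr⟩,
          Finset.mem_filter.2 ⟨hP, hl2⟩⟩⟩
    · apply Finset.mem_union_left
      rw [Finset.mem_biUnion]
      exact ⟨g, hg, Finset.mem_filter.2 ⟨hP, ⟨⟨hPf, h4, h5, h6⟩, hin, hval⟩⟩⟩
  have hcard : ((Zc F b0 j d).ncard : ℝ) = (ZF.card : ℝ) := by
    rw [hZF, Set.ncard_eq_toFinset_card _ (zc_finite F hb j d)]
  rw [hcard]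
  have h1 : (ZF.card : ℝ) ≤
      ∑ g ∈ G, ((ZF.filter (fun P => P ∈ Znv X j d g.1 g.2)).card : ℝ) +
      (∑ g ∈ G, ∑ l ∈ (VF g).filter (fun l => ¬ Rich X j d l),
        ((ZF.filter (fun P => onlz l P)).card : ℝ) +
      ∑ l ∈ LL, ((ZF.filter (fun P => onlz l P)).card : ℝ)) := by
    have h2 := Finset.card_le_card hcov
    have h3 := h2.trans (Finset.card_union_le _ _)
    have h4 := h3.trans (Nat.add_le_add Finset.card_biUnion_le (Finset.card_union_le _ _))
    have h5 := h4.trans (Nat.add_le_add le_rfl (Nat.add_le_add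
      (Finset.card_biUnion_le.trans (Finset.sum_le_sum fun g _ => Finset.card_biUnion_le))
      Finset.card_biUnion_le))
    exact_mod_cast h5
  have hGc : (G.card : ℝ) ≤ 16384 := by exact_mod_cast hG1
  have hA : ∑ g ∈ G, ((ZF.filter (fun P => P ∈ Znv X j d g.1 g.2)).card : ℝ)
      ≤ 16384 * n * 4 ^ j := by
    calc _ ≤ ∑ g ∈ G, n * 4 ^ j := by
          refine Finset.sum_le_sum fun g hg => ?_
          obtain ⟨a1, a2, a3⟩ := hG2 g hg
          rw [← hZnv g]
          exact hn g.1 g.2 a1 a2 a3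
      _ = (G.card : ℝ) * (n * 4 ^ j) := by rw [Finset.sum_const, nsmul_eq_mul]
      _ ≤ 16384 * (n * 4 ^ j) := by gcongr
      _ = _ := by ring
  have hB : ∑ g ∈ G, ∑ l ∈ (VF g).filter (fun l => ¬ Rich X j d l),
        ((ZF.filter (fun P => onlz l P)).card : ℝ)
      ≤ 16384 * CV * (hh i ^ ((8 : ℝ) / 5) * lam i) * 4 ^ j := by
    have hr0 : 0 < hh i ^ ((3 : ℝ) / 5) := Real.rpow_pos_of_pos hhp _
    have hin : ∀ g ∈ G, ∑ l ∈ (VF g).filter (fun l => ¬ Rich X j d l),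
        ((ZF.filter (fun P => onlz l P)).card : ℝ)
        ≤ CV * hh i * lam i * 2 ^ j * (hh i ^ ((3 : ℝ) / 5) * 2 ^ j) := by
      intro g hg
      calc _ ≤ ∑ l ∈ (VF g).filter (fun l => ¬ Rich X j d l), hh i ^ ((3 : ℝ) / 5) * 2 ^ j := by
            refine Finset.sum_le_sum fun l hl => ?_
            rw [Finset.mem_filter] at hl
            obtain ⟨a1, a2, a3⟩ := hG2 g hg
            have h6 : ¬ (hh i ^ ((3 : ℝ) / 5) * 2 ^ j ≤ (nl F b0 j d l : ℝ)) := fun hcon =>
              hl.2 ⟨⟨g.1, g.2, a1, a2, a3, (hVFm g hg l).1 hl.1⟩, hcon⟩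
            rw [← hnl l]
            exact (not_le.1 h6).le
        _ = (((VF g).filter (fun l => ¬ Rich X j d l)).card : ℝ) *
              (hh i ^ ((3 : ℝ) / 5) * 2 ^ j) := by rw [Finset.sum_const, nsmul_eq_mul]
        _ ≤ ((VF g).card : ℝ) * (hh i ^ ((3 : ℝ) / 5) * 2 ^ j) := by
            gcongr
            exact Finset.filter_subset _ _
        _ ≤ _ := by
            gcongr
            exact hVFc g hg
    calc _ ≤ ∑ g ∈ G, CV * hh i * lam i * 2 ^ j * (hh i ^ ((3 : ℝ) / 5) * 2 ^ j) :=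
          Finset.sum_le_sum hin
      _ = (G.card : ℝ) * (CV * hh i * lam i * 2 ^ j * (hh i ^ ((3 : ℝ) / 5) * 2 ^ j)) := by
          rw [Finset.sum_const, nsmul_eq_mul]
      _ ≤ 16384 * (CV * hh i * lam i * 2 ^ j * (hh i ^ ((3 : ℝ) / 5) * 2 ^ j)) := by gcongr
      _ = 16384 * CV * ((hh i * hh i ^ ((3 : ℝ) / 5)) * lam i) * (2 ^ j * 2 ^ j) := by ring
      _ = _ := by
          rw [rpow_hh, ← mul_pow]
          norm_num
  have hCc : ∑ l ∈ LL, ((ZF.filter (fun P => onlz l P)).card : ℝ) = ∑ l ∈ LL, (nl F b0 j d l : ℝ) :=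
    Finset.sum_congr rfl fun l _ => by rw [hnl l]
  rw [hCc] at h1
  linarith

end MuntzF
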