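import Pool.Agent.Lib.MP_dde81e_full.RDefs
import Pool.Agent.Lib.MP_dde81e_full.L8
import Pool.Agent.Lib.MP_dde81e_full.Z3

/-!
Module R4 (text 10.0): elementary facts on lines, zeros and windows.
`nk_le`: `q = 0`: `-m = r` fixed and `0 < n ≤ 2 b0 2^k`; `q ≥ 1`: at most `2^k/q + 1 ≤ 2^k + 1` abscissas.  `nk_le_q`: the abscissas of the
points of the line are in one class mod q (`gcd(q,p) = 1`), and the point is determined by `m`.
`nl_add`: the sets are disjoint subsets of the finite set of `nl F b0 j U l` (`zc_finite` in Z3).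
`rich_cell`: a zero `P` of `Zc F b0 j d` has slope in `I0 b0`, `dl d ≤ 2^-w0 ≤ 1/(4000 b0)`; `I0 = [1/b0,b0]`, `I2 = [2/(3b0),3b0/2]`.
`line_facts`: `|q n/m - p| = |r|/m ≤ eta V` with `V = ht l`.  `q = 0`: `p = 1`, `V = 1`, contradiction with `eta ≤ 1/2`.
`|p| ≤ q b0 + V/2`, so `V ≤ 2 b0 q`.  `eta ≤ etp` since `q ≤ V`; `etp = eta V/q`.
`ij_large`: `lev_large` at a point of `cell d ∩ I2` and `win_lev` (`lev ≤ ij + 1`).
-/

namespace MuntzF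
open Set Metric MeasureTheory
open scoped ENNReal

theorem nk_fin (F : ℂ × ℂ → ℂ) {b0 : ℝ} (hb : 2 ≤ b0) (k : ℕ) (l : Ln) :
    {P : ℤ × ℤ | P ∈ Zf F b0 ∧ (2 : ℤ) ^ k ≤ P.1 ∧ P.1 < 2 ^ (k + 1) ∧ onlz l P}.Finite := by
  apply Set.Finite.subset (Finset.finite_toSet
    (Finset.Icc (0 : ℤ) (2 ^ (k + 1)) ×ˢ Finset.Icc (0 : ℤ) ⌊b0 * (2 ^ (k + 1) : ℝ)⌋))
  rintro P ⟨⟨h1, h2, _⟩, h4, h5, _⟩
  rw [Finset.mem_coe, Finset.mem_product, Finset.mem_Icc, Finset.mem_Icc]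
  have hP : (0 : ℝ) < P.1 := by exact_mod_cast (by omega : 0 < P.1)
  have h6 : (0 : ℝ) ≤ P.2 := by
    have h7 : 0 ≤ (P.2 : ℝ) / P.1 := le_trans (by positivity) h2.1
    have h8 := mul_nonneg h7 hP.le
    rwa [div_mul_cancel₀ _ hP.ne'] at h8
  have h7 : (P.2 : ℝ) ≤ b0 * 2 ^ (k + 1) := by
    have h8 := h2.2
    rw [div_le_iff₀ hP] at h8
    have h9 : (P.1 : ℝ) ≤ 2 ^ (k + 1) := by exact_mod_cast h5.le
    calc (P.2 : ℝ) ≤ b0 * P.1 := h8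
      _ ≤ _ := by gcongr
  refine ⟨⟨by omega, h5.le⟩, by exact_mod_cast h6, Int.le_floor.2 h7⟩

theorem R4_nl_fin (F : ℂ × ℂ → ℂ) {b0 : ℝ} (hb : 2 ≤ b0) (j : ℕ) (d : ℕ × ℕ) (l : Ln) :
    {P | P ∈ Zc F b0 j d ∧ onlz l P}.Finite :=
  (zc_finite F hb j d).subset fun _ hP => hP.1

theorem nl_le_nk (F : ℂ × ℂ → ℂ) {b0 : ℝ} (hb : 2 ≤ b0) (j : ℕ) (d : ℕ × ℕ) (l : Ln) :
    nl F b0 j d l ≤ nk F b0 j l :=
  Set.ncard_le_ncard (fun _ hP => ⟨hP.1.1, hP.1.2.1, hP.1.2.2.1, hP.2⟩) (nk_fin F hb j l)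

theorem nl_mono (F : ℂ × ℂ → ℂ) {b0 : ℝ} (hb : 2 ≤ b0) (j : ℕ) {d U : ℕ × ℕ} (h : cell d ⊆ cell U) (l : Ln) :
    nl F b0 j d l ≤ nl F b0 j U l :=
  Set.ncard_le_ncard (fun _ hP => ⟨⟨hP.1.1, hP.1.2.1, hP.1.2.2.1, h hP.1.2.2.2⟩, hP.2⟩)
    (R4_nl_fin F hb j U l)

/-- disjoint subsets of a finite set. -/
theorem R4_sum {ι : Type*} (S : Finset ι) (A : ι → Set (ℤ × ℤ)) {B : Set (ℤ × ℤ)} (hB : B.Finite)
    (hA : ∀ d ∈ S, A d ⊆ B) (hd : ∀ d ∈ S, ∀ d' ∈ S, d ≠ d' → Disjoint (A d) (A d')) :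
    ∑ d ∈ S, (A d).ncard ≤ B.ncard := by
  classical
  have hf : ∀ d ∈ S, (A d).Finite := fun d h => hB.subset (hA d h)
  set G : ι → Finset (ℤ × ℤ) := fun d => if h : d ∈ S then (hf d h).toFinset else ∅ with hG
  have hGm : ∀ d ∈ S, ∀ P, P ∈ G d ↔ P ∈ A d := by
    intro d h P
    simp only [hG, dif_pos h, Set.Finite.mem_toFinset]
  have hGc : ∀ d ∈ S, (A d).ncard = (G d).card := by
    intro d h
    rw [← Set.ncard_coe_finset]
    congr 1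
    ext P
    rw [Finset.mem_coe, hGm d h]
  rw [Finset.sum_congr rfl hGc, ← Finset.card_biUnion]
  · rw [← Set.ncard_coe_finset]
    refine Set.ncard_le_ncard ?_ hB
    intro P hP
    rw [Finset.mem_coe, Finset.mem_biUnion] at hP
    obtain ⟨d, h1, h2⟩ := hP
    exact hA d h1 ((hGm d h1 P).1 h2)
  · intro d h d' h' hne
    rw [Function.onFun, Finset.disjoint_left]
    intro P h1 h2
    exact Set.disjoint_left.1 (hd d h d' h' hne) ((hGm d h P).1 h1) ((hGm d' h' P).1 h2)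

theorem nl_add (F : ℂ × ℂ → ℂ) {b0 : ℝ} (hb : 2 ≤ b0) (j : ℕ) (U : ℕ × ℕ) (l : Ln) (S : Finset (ℕ × ℕ))
    (hS : ∀ d ∈ S, cell d ⊆ cell U) (hd : ∀ d ∈ S, ∀ d' ∈ S, d ≠ d' → Disjoint (cell d) (cell d')) :
    ∑ d ∈ S, nl F b0 j d l ≤ nl F b0 j U l := by
  refine R4_sum S (fun d => {P | P ∈ Zc F b0 j d ∧ onlz l P}) (R4_nl_fin F hb j U l) ?_ ?_
  · intro d h P hP
    exact ⟨⟨hP.1.1, hP.1.2.1, hP.1.2.2.1, hS d h hP.1.2.2.2⟩, hP.2⟩
  · intro d h d' h' hne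
    rw [Set.disjoint_left]
    intro P h1 h2
    exact Set.disjoint_left.1 (hd d h d' h' hne) h1.1.2.2.2 h2.1.2.2.2

theorem nl_add' (F : ℂ × ℂ → ℂ) {b0 : ℝ} (hb : 2 ≤ b0) (j : ℕ) (l : Ln) (S : Finset (ℕ × ℕ))
    (hd : ∀ d ∈ S, ∀ d' ∈ S, d ≠ d' → Disjoint (cell d) (cell d')) :
    ∑ d ∈ S, nl F b0 j d l ≤ nk F b0 j l := by
  refine R4_sum S (fun d => {P | P ∈ Zc F b0 j d ∧ onlz l P}) (nk_fin F hb j l) ?_ ?_
  · intro d h P hP
    exact ⟨hP.1.1, hP.1.2.1, hP.1.2.2.1, hP.2⟩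
  · intro d h d' h' hne
    rw [Set.disjoint_left]
    intro P h1 h2
    exact Set.disjoint_left.1 (hd d h d' h' hne) h1.1.2.2.2 h2.1.2.2.2

theorem R4_modEq {l : Ln} {P P' : ℤ × ℤ} (h : onlz l P) (h' : onlz l P') :
    P.1 ≡ P'.1 [ZMOD l.q] := by
  unfold onlz at h h'
  have h1 : (l.q : ℤ) * (P'.2 - P.2) = l.p * (P'.1 - P.1) := by linarith
  have h2 : (l.q : ℤ) ∣ l.p * (P'.1 - P.1) := ⟨_, h1.symm⟩
  have h3 : IsCoprime (l.q : ℤ) l.p := Int.isCoprime_iff_gcd_eq_one.2 l.cop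
  exact Int.modEq_iff_dvd.2 (h3.dvd_of_dvd_mul_left h2)

theorem R4_inj {l : Ln} (hq : l.q ≠ 0) {P P' : ℤ × ℤ} (h : onlz l P) (h' : onlz l P')
    (he : P.1 = P'.1) : P = P' := by
  unfold onlz at h h'
  refine Prod.ext he ?_
  have h1 : (l.q : ℤ) * P.2 = l.q * P'.2 := by
    rw [he] at h
    linarith
  exact mul_left_cancel₀ (by exact_mod_cast hq) h1

theorem nk_le_q (F : ℂ × ℂ → ℂ) {b0 : ℝ} (hb : 2 ≤ b0) (k : ℕ) (l : Ln) (hq : l.q ≠ 0) :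
    (nk F b0 k l : ℝ) ≤ 2 ^ k / l.q + 1 := by
  classical
  have hq0 : 0 < l.q := Nat.pos_of_ne_zero hq
  have hqr : (0 : ℝ) < l.q := by exact_mod_cast hq0
  unfold nk
  set A : Set (ℤ × ℤ) :=
    {P : ℤ × ℤ | P ∈ Zf F b0 ∧ (2 : ℤ) ^ k ≤ P.1 ∧ P.1 < 2 ^ (k + 1) ∧ onlz l P} with hA
  rcases Set.eq_empty_or_nonempty A with he | ⟨P0, hP0⟩
  · rw [he, Set.ncard_empty]
    push_cast
    positivity
  set v : ℤ := P0.1 with hv
  set G : Finset ℤ := {x ∈ Finset.Ico ((2 : ℤ) ^ k) (2 ^ (k + 1)) | x ≡ v [ZMOD l.q]} with hG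
  have h1 : A.ncard ≤ G.card := by
    have h2 : (Prod.fst '' A).ncard = A.ncard := by
      refine Set.ncard_image_of_injOn ?_
      intro P hP P' hP' he
      exact R4_inj hq hP.2.2.2 hP'.2.2.2 he
    rw [← h2, ← Set.ncard_coe_finset]
    refine Set.ncard_le_ncard ?_ (Finset.finite_toSet _)
    rintro x ⟨P, hP, rfl⟩
    rw [Finset.mem_coe, hG, Finset.mem_filter, Finset.mem_Ico]
    exact ⟨⟨hP.2.1, hP.2.2.1⟩, R4_modEq hP.2.2.2 hP0.2.2.2⟩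
  have h3 := Int.Ico_filter_modEq_card ((2 : ℤ) ^ k) (2 ^ (k + 1)) (r := (l.q : ℤ))
    (by exact_mod_cast hq0) v
  have h4 : ((G.card : ℤ) : ℚ) ≤ 2 ^ k / l.q + 1 := by
    rw [hG, h3]
    have hq' : (0 : ℚ) < ((l.q : ℤ) : ℚ) := by exact_mod_cast hq0
    have h5 := Int.ceil_lt_add_one ((((2 : ℤ) ^ (k + 1) : ℤ) - v : ℚ) / ((l.q : ℤ) : ℚ))
    have h6 := Int.le_ceil ((((2 : ℤ) ^ k : ℤ) - v : ℚ) / ((l.q : ℤ) : ℚ))
    rw [Int.cast_max, Int.cast_zero]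
    refine max_le ?_ (by positivity)
    have h7 : (((2 : ℤ) ^ (k + 1) : ℤ) - v : ℚ) / ((l.q : ℤ) : ℚ) -
        (((2 : ℤ) ^ k : ℤ) - v : ℚ) / ((l.q : ℤ) : ℚ) = 2 ^ k / l.q := by
      push_cast
      field_simp
      ring
    push_cast at h5 h6 h7 ⊢
    linarith
  have h8 : (G.card : ℝ) ≤ 2 ^ k / l.q + 1 := by
    have h9 : (((G.card : ℤ) : ℚ) : ℝ) ≤ ((2 ^ k / l.q + 1 : ℚ) : ℝ) := by exact_mod_cast h4
    push_cast at h9
    exact h9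
  exact le_trans (by exact_mod_cast h1) h8

theorem nk_le (F : ℂ × ℂ → ℂ) {b0 : ℝ} (hb : 2 ≤ b0) (k : ℕ) (l : Ln) :
    (nk F b0 k l : ℝ) ≤ 3 * b0 * 2 ^ k := by
  classical
  have h2k : (1 : ℝ) ≤ 2 ^ k := one_le_pow₀ (by norm_num)
  by_cases hq : l.q = 0
  · have hp : l.p = 1 := l.hq hq
    unfold nk
    set A : Set (ℤ × ℤ) :=
      {P : ℤ × ℤ | P ∈ Zf F b0 ∧ (2 : ℤ) ^ k ≤ P.1 ∧ P.1 < 2 ^ (k + 1) ∧ onlz l P} with hA
    have hfst : ∀ P ∈ A, P.1 = -l.r := by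
      intro P hP
      have h := hP.2.2.2
      unfold onlz at h
      rw [hq, hp] at h
      push_cast at h
      linarith
    set G : Finset ℤ := Finset.Icc 1 ⌊b0 * (2 ^ (k + 1) : ℝ)⌋ with hG
    have h1 : A.ncard ≤ G.card := by
      have h2 : (Prod.snd '' A).ncard = A.ncard := by
        refine Set.ncard_image_of_injOn ?_
        intro P hP P' hP' he
        exact Prod.ext ((hfst P hP).trans (hfst P' hP').symm) he
      rw [← h2, ← Set.ncard_coe_finset]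
      refine Set.ncard_le_ncard ?_ (Finset.finite_toSet _)
      rintro x ⟨P, ⟨⟨h3, h4, _⟩, h5, h6, _⟩, rfl⟩
      rw [Finset.mem_coe, hG, Finset.mem_Icc]
      have hP : (0 : ℝ) < P.1 := by exact_mod_cast (by omega : 0 < P.1)
      have h7 : 0 < (P.2 : ℝ) / P.1 := lt_of_lt_of_le (by positivity) h4.1
      have h8 : (0 : ℝ) < P.2 := by
        have h9 := mul_pos h7 hP
        rwa [div_mul_cancel₀ _ hP.ne'] at h9
      have h10 : (P.2 : ℝ) ≤ b0 * 2 ^ (k + 1) := by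
        have h11 := h4.2
        rw [div_le_iff₀ hP] at h11
        have h12 : (P.1 : ℝ) ≤ 2 ^ (k + 1) := by exact_mod_cast h6.le
        calc (P.2 : ℝ) ≤ b0 * P.1 := h11
          _ ≤ _ := by gcongr
      refine ⟨?_, Int.le_floor.2 h10⟩
      have : (0 : ℤ) < P.2 := by exact_mod_cast h8
      omega
    have h3 : (G.card : ℝ) ≤ b0 * 2 ^ (k + 1) := by
      rw [hG, Int.card_Icc]
      have h4 : (0 : ℤ) ≤ ⌊b0 * (2 ^ (k + 1) : ℝ)⌋ := Int.floor_nonneg.2 (by positivity)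
      have h5 : ((⌊b0 * (2 ^ (k + 1) : ℝ)⌋ + 1 - 1).toNat : ℝ) =
          (⌊b0 * (2 ^ (k + 1) : ℝ)⌋ : ℝ) := by
        have h6 : ((⌊b0 * (2 ^ (k + 1) : ℝ)⌋ + 1 - 1).toNat : ℤ) = ⌊b0 * (2 ^ (k + 1) : ℝ)⌋ := by
          rw [Int.toNat_of_nonneg (by omega)]
          ring
        exact_mod_cast h6
      rw [h5]
      exact Int.floor_le _
    have h4 : (A.ncard : ℝ) ≤ G.card := by exact_mod_cast h1
    calc (A.ncard : ℝ) ≤ b0 * 2 ^ (k + 1) := h4.trans h3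
      _ = 2 * b0 * 2 ^ k := by ring
      _ ≤ 3 * b0 * 2 ^ k := by
        have : 0 ≤ b0 * 2 ^ k := by positivity
        linarith
  · have h := nk_le_q F hb k l hq
    have hq1 : (1 : ℝ) ≤ l.q := by exact_mod_cast Nat.one_le_iff_ne_zero.2 hq
    have h1 : (2 : ℝ) ^ k / l.q ≤ 2 ^ k := div_le_self (by positivity) hq1
    have h2 : 2 * (2 : ℝ) ^ k ≤ b0 * 2 ^ k := mul_le_mul_of_nonneg_right hb (by positivity)
    have h3 : 0 ≤ b0 * (2 : ℝ) ^ k := by positivity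
    linarith

theorem line_facts {F : ℂ × ℂ → ℂ} {b0 : ℝ} (hb : 2 ≤ b0) {j : ℕ} {l : Ln} {P : ℤ × ℤ} (hP : P ∈ Zf F b0)
    (h1 : (2 : ℤ) ^ j ≤ P.1) (h2 : P.1 < 2 ^ (j + 1)) (hl : onlz l P) (he : eta l j ≤ 1 / 2) :
    l.q ≠ 0 ∧ ht l ≤ 2 * b0 * l.q ∧ eta l j ≤ etp l j ∧ etp l j ≤ 2 * b0 * eta l j ∧
      |(P.2 : ℝ) / P.1 - tl l| ≤ etp l j := by
  obtain ⟨hP1, hPI, _⟩ := hP
  have h2j : (0 : ℝ) < 2 ^ j := by positivity
  have hx : (2 : ℝ) ^ j ≤ P.1 := by exact_mod_cast h1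
  have hx0 : (0 : ℝ) < P.1 := h2j.trans_le hx
  have hlr : (l.q : ℝ) * P.2 - l.p * P.1 = l.r := by
    have := hl
    unfold onlz at this
    exact_mod_cast this
  have hq : l.q ≠ 0 := by
    intro hq
    have hp : l.p = 1 := l.hq hq
    have hht : ht l = 1 := by
      unfold ht
      rw [hq, hp]
      norm_num
    unfold eta at he
    rw [hht, one_mul, div_le_iff₀ h2j] at he
    rw [hq, hp] at hlr
    push_cast at hlr
    have h3 : |(l.r : ℝ)| = P.1 := by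
      rw [← hlr, zero_mul, one_mul, zero_sub, abs_neg, abs_of_pos hx0]
    rw [h3] at he
    linarith
  have hq0 : (0 : ℝ) < l.q := by exact_mod_cast Nat.pos_of_ne_zero hq
  set V := ht l with hV
  have hVq : (l.q : ℝ) ≤ V := le_max_left _ _
  have hVp : |(l.p : ℝ)| ≤ V := le_max_right _ _
  have hV0 : 0 < V := hq0.trans_le hVq
  have hr : |(l.r : ℝ)| = eta l j * (V * 2 ^ j) := by
    unfold eta
    rw [← hV, div_mul_cancel₀]
    positivity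
  have hr2 : |(l.r : ℝ)| ≤ V / 2 * 2 ^ j := by
    rw [hr]
    have : eta l j * (V * 2 ^ j) ≤ 1 / 2 * (V * 2 ^ j) :=
      mul_le_mul_of_nonneg_right he (by positivity)
    linarith
  have hyx : (P.2 : ℝ) ≤ b0 * P.1 := by
    have h := hPI.2
    rwa [div_le_iff₀ hx0] at h
  have hy0 : (0 : ℝ) ≤ P.2 := by
    have h7 : 0 ≤ (P.2 : ℝ) / P.1 := le_trans (by positivity) hPI.1
    have h8 := mul_nonneg h7 hx0.le
    rwa [div_mul_cancel₀ _ hx0.ne'] at h8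
  have hVle : V ≤ 2 * b0 * l.q := by
    rcases max_choice (l.q : ℝ) |(l.p : ℝ)| with h | h
    · have h3 : V = l.q := h
      rw [h3]
      nlinarith
    · have h3 : V = |(l.p : ℝ)| := h
      have h4 : |(l.p : ℝ)| * P.1 ≤ l.q * (b0 * P.1) + V / 2 * P.1 := by
        have h5 : (l.p : ℝ) * P.1 = l.q * P.2 - l.r := by linarith
        have h6 : |(l.p : ℝ)| * P.1 = |(l.q : ℝ) * P.2 - l.r| := by
          rw [← h5, abs_mul, abs_of_pos hx0]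
        rw [h6]
        refine (abs_sub _ _).trans ?_
        have h7 : |(l.q : ℝ) * P.2| ≤ l.q * (b0 * P.1) := by
          rw [abs_of_nonneg (by positivity)]
          exact mul_le_mul_of_nonneg_left hyx hq0.le
        have h8 : V / 2 * 2 ^ j ≤ V / 2 * P.1 := mul_le_mul_of_nonneg_left hx (by positivity)
        linarith
      rw [← h3] at h4
      have h9 : V ≤ l.q * b0 + V / 2 := by
        refine le_of_mul_le_mul_right ?_ hx0
        linarith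
      linarith
  have hetp : etp l j = |(l.r : ℝ)| / (l.q * 2 ^ j) := by
    unfold etp bl
    rw [abs_div, abs_of_pos hq0, div_div]
  refine ⟨hq, hVle, ?_, ?_, ?_⟩
  · rw [hetp]
    unfold eta
    refine div_le_div_of_nonneg_left (abs_nonneg _) (by positivity) ?_
    exact mul_le_mul_of_nonneg_right hVq h2j.le
  · rw [hetp]
    unfold eta
    rw [← hV, ← mul_div_assoc, div_le_div_iff₀ (by positivity) (by positivity)]
    have h3 : |(l.r : ℝ)| * 2 ^ j * V ≤ |(l.r : ℝ)| * 2 ^ j * (2 * b0 * l.q) :=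
      mul_le_mul_of_nonneg_left hVle (by positivity)
    linarith
  · have h3 : (P.2 : ℝ) / P.1 - tl l = l.r / (l.q * P.1) := by
      unfold tl
      rw [← hlr]
      field_simp
    rw [h3, hetp, abs_div, abs_of_pos (by positivity : (0 : ℝ) < l.q * P.1)]
    refine div_le_div_of_nonneg_left (abs_nonneg _) (by positivity) ?_
    exact mul_le_mul_of_nonneg_left hx hq0.le

theorem rich_pt {F : ℂ × ℂ → ℂ} {b0 : ℝ} (X : Ctx F b0) {j : ℕ} {d : ℕ × ℕ} {l : Ln} (hr : Rich X j d l) :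
    ∃ P ∈ Zc F b0 j d, onlz l P := by
  have h1 := hr.2
  have hh0 : 0 < hh (X.ij j d) := by unfold hh; positivity
  have h2 : (0 : ℝ) < nl F b0 j d l := lt_of_lt_of_le (by positivity) h1
  have h3 : nl F b0 j d l ≠ 0 := by
    intro h
    rw [h] at h2
    norm_num at h2
  obtain ⟨P, hP⟩ := Set.nonempty_of_ncard_ne_zero h3
  exact ⟨P, hP.1, hP.2⟩

theorem zc_cell {F : ℂ × ℂ → ℂ} {b0 : ℝ} (X : Ctx F b0) {j : ℕ} {d : ℕ × ℕ} (hd : X.w0 ≤ d.1)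
    {P : ℤ × ℤ} (hP : P ∈ Zc F b0 j d) : cell d ⊆ I2 b0 := by
  have hb : 2 ≤ b0 := X.env.cs.hb
  obtain ⟨⟨_, hI, _⟩, _, _, hc⟩ := hP
  have hdw : dl d ≤ 1 / (4000 * b0) := by
    have h1 : dl d ≤ (1 / 2) ^ X.w0 :=
      pow_le_pow_of_le_one (by norm_num) (by norm_num) hd
    have h2 : ((1 : ℝ) / 2) ^ X.w0 ≤ 1 / (4000 * b0) := by
      rw [one_div_pow]
      exact one_div_le_one_div_of_le (by positivity) X.hw0
    exact h1.trans h2
  have hd3 : dl d ≤ 1 / b0 - 2 / (3 * b0) := by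
    have e : 1 / b0 - 2 / (3 * b0) = 1 / (3 * b0) := by
      field_simp
      norm_num
    rw [e]
    refine hdw.trans (one_div_le_one_div_of_le (by positivity) (by linarith))
  have hd4 : dl d ≤ 1 := by
    refine hdw.trans ?_
    rw [div_le_one (by positivity)]
    linarith
  intro x hx
  unfold cell at hx hc
  unfold I0 at hI
  unfold I2
  obtain ⟨c1, c2⟩ := hx
  obtain ⟨c3, c4⟩ := hc
  obtain ⟨c5, c6⟩ := hI
  constructor
  · have : (d.2 + 1 : ℝ) * dl d = d.2 * dl d + dl d := by ring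
    linarith
  · have : (d.2 + 1 : ℝ) * dl d = d.2 * dl d + dl d := by ring
    linarith

theorem rich_cell {F : ℂ × ℂ → ℂ} {b0 : ℝ} (X : Ctx F b0) {j : ℕ} {d : ℕ × ℕ} {l : Ln} (hw : X.win j d)
    (hr : Rich X j d l) : cell d ⊆ I2 b0 := by
  obtain ⟨P, hP, _⟩ := rich_pt X hr
  exact zc_cell X hw.2.1 hP

theorem ij_large {F : ℂ × ℂ → ℂ} {b0 : ℝ} (X : Ctx F b0) (i1 : ℕ) : ∃ j1 : ℕ, ∀ (j : ℕ) (d : ℕ × ℕ),
    j1 ≤ j → X.win j d → i1 ≤ X.ij j d := by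
  have hb : 2 ≤ b0 := X.env.cs.hb
  obtain ⟨j1, hj1⟩ := lev_large X.env.cs (w0 := X.w0) (by linarith [X.hw0]) (i1 + 1)
  refine ⟨j1, fun j d hj hw => ?_⟩
  obtain ⟨θ, hθ, hθ2⟩ := hw.2.2.1
  have h1 := hj1 j hj θ hθ2
  have h2 : lev X.c X.L j θ ≤ X.ij j d + 1 := (win_lev hw.2 ((cell_sub_st d).1 hθ)).2
  omega

end MuntzF
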