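import Pool.Agent.Lib.MP_dde81e_full.R3
import Pool.Agent.Lib.MP_dde81e_full.R4

/-!
Module R17 (text 10.8, Claim A): a rich line with many zeros is alive or needy.
Proof.  `rich_pt`, `line_facts` (`eta ≤ 1/2`): `q ≠ 0`, `ht ≤ 2 b0 q`, `eta ≤ etp ≤ 2 b0 eta < e1`, `|n/m - tl l| ≤ etp ≤ e1 ≤ 1/(100 b0)` and
`n/m ∈ I0 b0`, hence `5/(6b0) ≤ tl l ≤ 6b0/5`.  Suppose not needy: `nk > K4 H^(9/10) R`, `H = hh (ml X l j)`, `R = 2^j`.
`V ≤ 2^(10 ml)`: otherwise `nk ≤ R/q + 1 ≤ 2b0 R/V + 1 ≤ 2 b0 R H^10 + 1 ≤ (2b0+1) R H^(9/10)` (`H ≥ 2^(-j/100)`: `ml ≤ X.lv j (tl l) ≤ j/100`, `lev_le`).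
`leafR`: `De + A h ≥ nk/(500 R)`, `h = hh (X.lv j (tl l)) ≤ H ≤ H^(9/10)`; `nk/(500R) ≥ (1/1000)(κ eta + K4 H^(9/10)) ≥ (κ/(2000 b0)) etp + (K4/1000) H^(9/10)`;
so `De ≥ K etp + K H^(9/10)` if `κ ≥ 2000 b0 K`, `K4 ≥ 1000 (K + A)`.
-/

namespace MuntzF
open Set Metric MeasureTheory
open scoped ENNReal

theorem claimA {F : ℂ × ℂ → ℂ} {b0 : ℝ} (X : Ctx F b0) (e1 K : ℝ) (he1 : 0 < e1)
    (he : 100 * b0 * e1 ≤ 1) (hK : 0 < K) : ∃ (κ0 K4 : ℝ) (k1 : ℕ), 0 < κ0 ∧ 0 < K4 ∧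
    ∀ (κ : ℝ) (j : ℕ) (d : ℕ × ℕ) (l : Ln), κ0 ≤ κ → k1 ≤ j → X.win j d → Rich X j d l →
    eta l j < e1 / (2 * b0) → κ * eta l j * 2 ^ j ≤ nk F b0 j l →
    Alive X e1 K j l ∨ (nk F b0 j l : ℝ) ≤ K4 * hh (ml X l j) ^ ((9 : ℝ) / 10) * 2 ^ j := by
  obtain ⟨A, k1, hA, hleaf⟩ := leafR X
  have hb : 2 ≤ b0 := X.env.cs.hb
  have hb0 : 0 < b0 := by linarith
  refine ⟨2000 * b0 * K, 1000 * (K + A) + 2 * b0 + 1, k1, by positivity, by positivity, ?_⟩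
  intro κ j d l hκ hj hw hr heta hnk
  by_cases hneedy : (nk F b0 j l : ℝ) ≤
      (1000 * (K + A) + 2 * b0 + 1) * hh (ml X l j) ^ ((9 : ℝ) / 10) * 2 ^ j
  · exact Or.inr hneedy
  left
  rw [not_le] at hneedy
  have hR : (0 : ℝ) < 2 ^ j := by positivity
  have he2 : e1 ≤ 1 / (100 * b0) := by
    rw [le_div_iff₀ (by positivity)]
    linarith
  have he3 : (1 : ℝ) / (100 * b0) ≤ 1 / 200 := by
    apply one_div_le_one_div_of_le (by norm_num)
    linarith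
  have heta2 : eta l j < e1 := by
    refine heta.trans_le ?_
    rw [div_le_iff₀ (by positivity)]
    nlinarith
  have heta3 : eta l j ≤ 1 / 2 := by linarith
  obtain ⟨P, hP, hPl⟩ := rich_pt X hr
  obtain ⟨hPf, hP1, hP2, -⟩ := hP
  obtain ⟨hq, hV, h1, h2, h3⟩ := line_facts hb hPf hP1 hP2 hPl heta3
  have hetp0 : 0 ≤ etp l j := by
    unfold etp
    positivity
  have hetp : etp l j ≤ e1 := by
    refine h2.trans ?_
    have h4 : eta l j * (2 * b0) < e1 := by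
      rwa [lt_div_iff₀ (by positivity)] at heta
    linarith
  obtain ⟨hPs1, hPs2⟩ := hPf.2.1
  rw [abs_le] at h3
  have t1 : 5 / (6 * b0) ≤ tl l := by
    have h4 : 1 / b0 - 1 / (100 * b0) ≤ tl l := by linarith
    refine le_trans ?_ h4
    have h5 : 1 / b0 - 1 / (100 * b0) - 5 / (6 * b0) = (1 - 1 / 100 - 5 / 6) / b0 := by
      field_simp
    have h6 : 0 ≤ (1 - 1 / 100 - 5 / 6) / b0 := by
      apply div_nonneg (by norm_num) hb0.le
    linarith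
  have t2 : tl l ≤ 6 * b0 / 5 := by
    have h4 : tl l ≤ b0 + 1 / 200 := by linarith
    linarith
  -- the level
  have hml : ml X l j ≤ X.lv j (tl l) := by
    apply ml_le
    rw [sub_self, abs_zero]
    linarith
  have hlv : X.lv j (tl l) ≤ j / 100 := lev_le X.c X.L j (tl l)
  set H := hh (ml X l j) with hHdef
  have hH0 : 0 < H := by
    rw [hHdef]
    unfold hh
    positivity
  have hH1 : H ≤ 1 := by
    rw [hHdef]
    unfold hh
    exact pow_le_one₀ (by norm_num) (by norm_num)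
  have hh1 : hh (X.lv j (tl l)) ≤ H := by
    rw [hHdef]
    unfold hh
    exact pow_le_pow_of_le_one (by norm_num) (by norm_num) hml
  have hH9 : H ≤ H ^ ((9 : ℝ) / 10) := by
    have := Real.rpow_le_rpow_of_exponent_ge hH0 hH1 (show (9 : ℝ) / 10 ≤ 1 by norm_num)
    rwa [Real.rpow_one] at this
  have hRH : 1 ≤ H ^ ((9 : ℝ) / 10) * 2 ^ j := by
    have h4 : (1 : ℝ) ≤ H * 2 ^ j := by
      rw [hHdef]
      unfold hh
      have h5 : ((1 : ℝ) / 2) ^ j ≤ (1 / 2) ^ (ml X l j) :=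
        pow_le_pow_of_le_one (by norm_num) (by norm_num) (by omega)
      calc (1 : ℝ) = (1 / 2) ^ j * 2 ^ j := by rw [← mul_pow]; norm_num
        _ ≤ _ := mul_le_mul_of_nonneg_right h5 hR.le
    exact h4.trans (mul_le_mul_of_nonneg_right hH9 hR.le)
  have hHp : 0 < H ^ ((9 : ℝ) / 10) := Real.rpow_pos_of_pos hH0 _
  have hqpos : (0 : ℝ) < l.q := by
    have := Nat.pos_of_ne_zero hq
    exact_mod_cast this
  have hVV : ht l ≤ 2 ^ (10 * ml X l j) := by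
    by_contra hcon
    rw [not_le] at hcon
    have h4 : (2 : ℝ) ^ (10 * ml X l j) < 2 * b0 * l.q := hcon.trans_le hV
    have h5 := nk_le_q F hb j l hq
    have h6 : H ^ 10 * 2 ^ (10 * ml X l j) = 1 := by
      rw [hHdef]
      unfold hh
      rw [← pow_mul, mul_comm (ml X l j) 10, ← mul_pow]
      norm_num
    have h7 : H ^ 10 ≤ H ^ ((9 : ℝ) / 10) := by
      refine le_trans ?_ hH9
      calc H ^ 10 ≤ H ^ 1 := pow_le_pow_of_le_one hH0.le hH1 (by norm_num)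
        _ = H := pow_one H
    have h8 : (2 : ℝ) ^ j / l.q ≤ 2 * b0 * H ^ ((9 : ℝ) / 10) * 2 ^ j := by
      rw [div_le_iff₀ hqpos]
      have h9 : 1 ≤ H ^ 10 * (2 * b0 * l.q) := by
        rw [← h6]
        exact mul_le_mul_of_nonneg_left h4.le (by positivity)
      have h10 : 1 ≤ H ^ ((9 : ℝ) / 10) * (2 * b0 * l.q) :=
        h9.trans (mul_le_mul_of_nonneg_right h7 (by positivity))
      calc (2 : ℝ) ^ j = 2 ^ j * 1 := (mul_one _).symm
        _ ≤ 2 ^ j * (H ^ ((9 : ℝ) / 10) * (2 * b0 * l.q)) := mul_le_mul_of_nonneg_left h10 hR.le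
        _ = 2 * b0 * H ^ ((9 : ℝ) / 10) * 2 ^ j * l.q := by ring
    have h11 : (nk F b0 j l : ℝ) ≤ (2 * b0 + 1) * (H ^ ((9 : ℝ) / 10) * 2 ^ j) := by
      calc (nk F b0 j l : ℝ) ≤ 2 ^ j / l.q + 1 := h5
        _ ≤ 2 * b0 * H ^ ((9 : ℝ) / 10) * 2 ^ j + H ^ ((9 : ℝ) / 10) * 2 ^ j := add_le_add h8 hRH
        _ = _ := by ring
    have h12 : 0 < 1000 * (K + A) * (H ^ ((9 : ℝ) / 10) * 2 ^ j) := by positivity
    nlinarith
  refine ⟨hq, t1, t2, hetp, hVV, ?_⟩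
  have h4 := hleaf j l hj hq t1 t2 (by nlinarith)
  have h5 : ENNReal.ofReal ((nk F b0 j l : ℝ) / (500 * 2 ^ j)) ≤
      De X l j + ENNReal.ofReal (A * hh (X.lv j (tl l))) := le_trans le_add_self h4
  have hhpos : 0 ≤ hh (X.lv j (tl l)) := by
    unfold hh
    positivity
  have h6 : K * etp l j + K * H ^ ((9 : ℝ) / 10) + A * hh (X.lv j (tl l)) ≤
      (nk F b0 j l : ℝ) / (500 * 2 ^ j) := by
    rw [le_div_iff₀ (by positivity)]
    have g1 : K * etp l j ≤ K * (2 * b0 * eta l j) := mul_le_mul_of_nonneg_left h2 hK.le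
    have g2 : A * hh (X.lv j (tl l)) ≤ A * H ^ ((9 : ℝ) / 10) :=
      mul_le_mul_of_nonneg_left (hh1.trans hH9) (by linarith)
    have hη0 : 0 ≤ eta l j := by
      unfold eta ht
      positivity
    have g3 : 2000 * b0 * K * eta l j * 2 ^ j ≤ nk F b0 j l :=
      le_trans (mul_le_mul_of_nonneg_right (mul_le_mul_of_nonneg_right hκ hη0) hR.le) hnk
    have g4 : 1000 * (K + A) * H ^ ((9 : ℝ) / 10) * 2 ^ j ≤ nk F b0 j l := by
      refine le_trans ?_ hneedy.le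
      apply mul_le_mul_of_nonneg_right _ hR.le
      apply mul_le_mul_of_nonneg_right _ hHp.le
      linarith
    have g5 : (K * etp l j + K * H ^ ((9 : ℝ) / 10) + A * hh (X.lv j (tl l))) ≤
        K * (2 * b0 * eta l j) + (K + A) * H ^ ((9 : ℝ) / 10) := by linarith
    have g6 : (K * etp l j + K * H ^ ((9 : ℝ) / 10) + A * hh (X.lv j (tl l))) * (500 * 2 ^ j) ≤
        (K * (2 * b0 * eta l j) + (K + A) * H ^ ((9 : ℝ) / 10)) * (500 * 2 ^ j) :=
      mul_le_mul_of_nonneg_right g5 (by positivity)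
    have g7 : (K * (2 * b0 * eta l j) + (K + A) * H ^ ((9 : ℝ) / 10)) * (500 * 2 ^ j) =
        (2000 * b0 * K * eta l j * 2 ^ j + 1000 * (K + A) * H ^ ((9 : ℝ) / 10) * 2 ^ j) / 2 := by
      ring
    linarith
  have h7 : ENNReal.ofReal (K * etp l j + K * H ^ ((9 : ℝ) / 10)) +
      ENNReal.ofReal (A * hh (X.lv j (tl l))) ≤
      De X l j + ENNReal.ofReal (A * hh (X.lv j (tl l))) := by
    rw [← ENNReal.ofReal_add (by positivity) (mul_nonneg (by linarith) hhpos)]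
    exact (ENNReal.ofReal_le_ofReal h6).trans h5
  exact (ENNReal.add_le_add_iff_right ENNReal.ofReal_ne_top).1 h7

end MuntzF
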