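import Pool.Agent.Lib.MP_dde81e_full.RDefs
import Pool.Agent.Lib.MP_dde81e_full.L8

/-!
Module R5 (text 10.1, (WS)): summability of `h_J^(5/3)` over all windows.
Proof.  `win_sum` with `φ i w = hh i ^ (5/3)`: `min (2^(i+w)) (4^i/2^w) ≤ 2^(3i/2)`, so the double sum is at most
`∑_i (i+1)(i+w0+2) 2^(3i/2) 2^(-5i/3) = ∑_i (i+1)(i+w0+2) 2^(-i/6)`, which converges.
-/

namespace MuntzF
open Set Metric MeasureTheory
open scoped ENNReal

theorem R5_min (i w : ℕ) : min ((2 : ℝ) ^ (i + w)) (4 ^ i / 2 ^ w) ≤ (2 : ℝ) ^ ((3 / 2 : ℝ) * i) := by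
  by_cases h : (w : ℝ) ≤ i / 2
  · refine (min_le_left _ _).trans ?_
    rw [← Real.rpow_natCast]
    refine Real.rpow_le_rpow_of_exponent_le (by norm_num) ?_
    push_cast
    linarith
  · refine (min_le_right _ _).trans ?_
    have h1 : (4 : ℝ) ^ i / 2 ^ w = (2 : ℝ) ^ ((2 : ℝ) * i - w) := by
      rw [Real.rpow_sub (by norm_num), Real.rpow_natCast, Real.rpow_mul (by norm_num),
        Real.rpow_natCast]
      norm_num
    rw [h1]
    refine Real.rpow_le_rpow_of_exponent_le (by norm_num) ?_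
    push Not at h
    linarith

theorem R5_hh (i : ℕ) : hh i ^ ((5 : ℝ) / 3) = (2 : ℝ) ^ (-(5 / 3 : ℝ) * i) := by
  unfold hh
  rw [one_div, inv_pow, ← Real.rpow_natCast, ← Real.rpow_neg (by norm_num),
    ← Real.rpow_mul (by norm_num)]
  congr 1
  ring

/-- the term of the convergent series. -/
noncomputable def R5_f (w0 : ℕ) (i : ℕ) : ℝ :=
  ((i : ℝ) + 1) * ((i : ℝ) + w0 + 2) * ((2 : ℝ) ^ (-(1 / 6 : ℝ))) ^ i

theorem R5_summable (w0 : ℕ) : Summable (R5_f w0) := by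
  have hr0 : (0 : ℝ) < (2 : ℝ) ^ (-(1 / 6 : ℝ)) := Real.rpow_pos_of_pos (by norm_num) _
  have hr : ‖(2 : ℝ) ^ (-(1 / 6 : ℝ))‖ < 1 := by
    rw [Real.norm_eq_abs, abs_of_pos hr0]
    exact Real.rpow_lt_one_of_one_lt_of_neg (by norm_num) (by norm_num)
  have h2 := summable_pow_mul_geometric_of_norm_lt_one 2 hr
  have h1 := summable_pow_mul_geometric_of_norm_lt_one 1 hr
  have h0 := summable_pow_mul_geometric_of_norm_lt_one 0 hr
  have h := (h2.add (h1.mul_left ((w0 : ℝ) + 3))).add (h0.mul_left ((w0 : ℝ) + 2))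
  refine h.congr ?_
  intro i
  unfold R5_f
  ring

theorem ws {F : ℂ × ℂ → ℂ} {b0 : ℝ} (X : Ctx F b0) : ∃ C : ℝ, 0 < C ∧ ∀ E : Finset (ℕ × (ℕ × ℕ)),
    (∀ e ∈ E, X.win e.1 e.2) → ∑ e ∈ E, hh (X.ij e.1 e.2) ^ ((5 : ℝ) / 3) ≤ C := by
  have hb : 2 ≤ b0 := X.env.cs.hb
  have hw0 : 400 * b0 ≤ 2 ^ X.w0 := by linarith [X.hw0]
  obtain ⟨C, hC, hws⟩ := win_sum X.env.cs hw0
  have hnn : ∀ i, 0 ≤ R5_f X.w0 i := by
    intro i
    unfold R5_f
    positivity
  set B : ℝ := ∑' i, R5_f X.w0 i with hB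
  have hB0 : 0 ≤ B := tsum_nonneg hnn
  refine ⟨C * B + 1, by positivity, ?_⟩
  intro E hE
  have h1 := hws (fun i _ => hh i ^ ((5 : ℝ) / 3)) B (fun i _ => by
    have : 0 < hh i := by unfold hh; positivity
    positivity) (fun n => ?_) E (fun e he => hE e he)
  · have h2 : ∑ e ∈ E, hh (X.ij e.1 e.2) ^ ((5 : ℝ) / 3) ≤ C * B := h1
    linarith
  · refine le_trans (Finset.sum_le_sum (g := R5_f X.w0) ?_)
      ((R5_summable X.w0).sum_le_tsum (Finset.range n) (fun i _ => hnn i))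
    intro i _
    have h3 : ∀ w ∈ Finset.range (i + X.w0 + 2),
        ((i : ℝ) + 1) * min (2 ^ (i + w)) (4 ^ i / 2 ^ w) * hh i ^ ((5 : ℝ) / 3) ≤
          ((i : ℝ) + 1) * ((2 : ℝ) ^ (-(1 / 6 : ℝ))) ^ i := by
      intro w _
      rw [mul_assoc]
      refine mul_le_mul_of_nonneg_left ?_ (by positivity)
      rw [R5_hh]
      have h4 : (2 : ℝ) ^ ((3 / 2 : ℝ) * i) * (2 : ℝ) ^ (-(5 / 3 : ℝ) * i) =
          ((2 : ℝ) ^ (-(1 / 6 : ℝ))) ^ i := by
        rw [← Real.rpow_add (by norm_num), ← Real.rpow_natCast, ← Real.rpow_mul (by norm_num)]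
        congr 1
        ring
      rw [← h4]
      exact mul_le_mul_of_nonneg_right (R5_min i w) (Real.rpow_nonneg (by norm_num) _)
    refine (Finset.sum_le_sum h3).trans ?_
    rw [Finset.sum_const, Finset.card_range, nsmul_eq_mul]
    unfold R5_f
    push_cast
    apply le_of_eq
    ring

end MuntzF
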