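import Pool.Agent.Lib.MP_dde81e_full.R3
import Pool.Agent.Lib.MP_dde81e_full.R5
import Pool.Agent.Lib.MP_dde81e_full.R7
import Pool.Agent.Lib.MP_dde81e_full.R16

/-!
Module R18 (text 10.9, Claim B): needy lines.
`needy_count`, per window `dd` (J'' in the text) which contains a slope `θ''` at which the minimal level of `l` is attained.
Proof.  `R = 2^j`, `η' = etp l j`, `H = hh (ml X l j) = hh (X.lv j θ'')`, `h'' = hh (X.ij j dd)`: `H ≤ h'' ≤ 2H` (`win_lev`).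
`line_facts` at a zero `P = (m,n)` of the rich window `d`: `θ1 = n/m ∈ cell d`, `|θ1 - tl l| ≤ η'`, `eta ≤ η' ≤ 2b0 eta ≤ (2b0/κ) K4 H^(9/10)`.
`hh (X.ij j d)^(3/5) ≤ nl/R ≤ nk/R ≤ K4 H^(9/10)`, so `h_d := hh (X.ij j d) ≤ K4^(5/3) H^(3/2) < H/4` for `j` large (`H` small: `ml` large by `lev_large`
at `θ''`, `θ'' ∈ cell dd`; `ij_large` for `dd`).
If `dl d ≥ 16η'`: `|θ''-θ1| ≤ 9η' < dl d`, so `θ'' ∈ st d`, `X.ij j d ≤ X.lv j θ''`, `H ≤ h_d`: contradiction.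
If `dl dd ≥ 64η'`: `θ1 ∈ st dd`, `X.ij j d ≤ X.lv j θ1 ≤ X.ij j dd + 1`, `h_d ≥ h''/2 ≥ H/2`: contradiction.
So `0 < η'`, `dl d < 16η'`, `dl dd < 64η'`.  `dy_sum` with `f = etp · j`, `M = (2b0/κ)K4 h''^(9/10)`: for the lines with `e ≤ η' < 2e` the windows `d`
are in `{|θ - dc dd| ≤ 128 e}`; `eta ≥ η'/(2b0) ≥ dl d/(32 b0)`: `rich_count` with `c' = 1/(32b0)`: number `≤ ∑_d C h_d R`, `h_d ≤ 2^(w0+1) dl d`
(`win_len`), disjoint cells in an interval of length `256 e + 64e`: number `≤ C R e`.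
`claimB`: each pair `(j,l)` gets the window `dd` (`win_cover`; `θ'' ∈ I2` since `|θ''-tl l| ≤ 8η' ≤ 8e1`) ; for a fixed `(j,dd)`:
`∑_l nk ≤ #·K4 H^(9/10) R ≤ C h''^(9/5) R^2`; `h''^(9/5) ≤ h''^(5/3)`, `ws`.
-/

namespace MuntzF
open Set Metric MeasureTheory
open scoped ENNReal

theorem R18_hh_pos (i : ℕ) : 0 < hh i := by
  unfold hh
  positivity

theorem R18_hh_le_one (i : ℕ) : hh i ≤ 1 := by
  unfold hh
  exact pow_le_one₀ (by norm_num) (by norm_num)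

theorem R18_hh_anti {i m : ℕ} (h : i ≤ m) : hh m ≤ hh i := by
  unfold hh
  exact pow_le_pow_of_le_one (by norm_num) (by norm_num) h

theorem R18_key {K4 : ℝ} (hK4 : 0 < K4) : ∃ i1 : ℕ, ∀ i m : ℕ, i1 ≤ m →
    hh i ^ ((3 : ℝ) / 5) ≤ K4 * hh m ^ ((9 : ℝ) / 10) → m + 2 < i := by
  set a : ℝ := K4 ^ ((5 : ℝ) / 3) with ha
  have hap : 0 < a := Real.rpow_pos_of_pos hK4 _
  obtain ⟨n, hn⟩ := pow_unbounded_of_one_lt ((4 * a) ^ 2) (by norm_num : (1 : ℝ) < 2)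
  refine ⟨n, fun i m hm h => ?_⟩
  by_contra hcon
  push Not at hcon
  have h1 : hh (m + 2) ≤ hh i := R18_hh_anti hcon
  have h2 : hh (m + 2) = hh m / 4 := by
    unfold hh
    rw [pow_add]
    norm_num
    ring
  have hmp := R18_hh_pos m
  have hip := R18_hh_pos i
  set s : ℝ := hh m ^ ((1 : ℝ) / 2) with hs
  have hsp : 0 < s := Real.rpow_pos_of_pos hmp _
  have hs2 : s ^ 2 = hh m := by
    rw [hs, ← Real.rpow_natCast, ← Real.rpow_mul hmp.le]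
    norm_num
  have h3 : hh i ≤ a * (hh m * s) := by
    have h4 := Real.rpow_le_rpow (Real.rpow_nonneg hip.le _) h (by norm_num : (0 : ℝ) ≤ 5 / 3)
    rw [← Real.rpow_mul hip.le, Real.mul_rpow hK4.le (Real.rpow_nonneg hmp.le _),
      ← Real.rpow_mul hmp.le] at h4
    have e1 : (3 : ℝ) / 5 * (5 / 3) = 1 := by norm_num
    have e2 : (9 : ℝ) / 10 * (5 / 3) = 1 + 1 / 2 := by norm_num
    rw [e1, e2, Real.rpow_one, Real.rpow_add hmp, Real.rpow_one] at h4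
    exact h4
  have h5 : hh m * 1 ≤ hh m * (4 * a * s) := by
    have : hh m / 4 ≤ a * (hh m * s) := by
      rw [← h2]
      exact h1.trans h3
    nlinarith
  have h6 : 1 ≤ 4 * a * s := le_of_mul_le_mul_left h5 hmp
  have h7 : 1 ≤ (4 * a) ^ 2 * hh m := by
    have : (4 * a * s) ^ 2 = (4 * a) ^ 2 * hh m := by rw [mul_pow, hs2]
    rw [← this]
    exact one_le_pow₀ h6
  have h8 : hh m = 1 / 2 ^ m := by
    unfold hh
    rw [one_div, one_div, inv_pow]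
  rw [h8, mul_one_div, le_div_iff₀ (by positivity), one_mul] at h7
  have h9 : (2 : ℝ) ^ n ≤ 2 ^ m := pow_le_pow_right₀ (by norm_num) hm
  linarith

theorem R18_len (D : Finset (ℕ × ℕ)) (hd : ∀ d ∈ D, ∀ d' ∈ D, d ≠ d' → Disjoint (cell d) (cell d'))
    {u v : ℝ} (huv : u ≤ v) (h : ∀ d ∈ D, cell d ⊆ Icc u v) : ∑ d ∈ D, dl d ≤ v - u := by
  have h1 : volume (⋃ d ∈ D, cell d) = ∑ d ∈ D, volume (cell d) := by
    apply measure_biUnion_finset
    · intro d hd1 d' hd2 hne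
      exact hd d hd1 d' hd2 hne
    · intro d _
      unfold cell
      exact measurableSet_Ico
  have h2 : ∀ d : ℕ × ℕ, volume (cell d) = ENNReal.ofReal (dl d) := by
    intro d
    unfold cell
    rw [Real.volume_Ico]
    congr 1
    ring
  have h3 : volume (⋃ d ∈ D, cell d) ≤ volume (Icc u v) := by
    apply measure_mono
    intro x hx
    simp only [mem_iUnion] at hx
    obtain ⟨d, hd1, hx1⟩ := hx
    exact h d hd1 hx1
  rw [h1, Real.volume_Icc] at h3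
  simp only [h2] at h3
  rw [← ENNReal.ofReal_sum_of_nonneg (fun d _ => (L2_dl_pos d).le)] at h3
  exact (ENNReal.ofReal_le_ofReal_iff (by linarith)).1 h3

theorem R18_line {F : ℂ × ℂ → ℂ} {b0 : ℝ} (X : Ctx F b0) {e1 : ℝ}
    (he : 100 * b0 * e1 ≤ 1) {j : ℕ} {l : Ln} {d : ℕ × ℕ} (hr : Rich X j d l)
    (het : eta l j < e1 / (2 * b0)) : ∃ θ1 ∈ cell d, θ1 ∈ I0 b0 ∧ |θ1 - tl l| ≤ etp l j ∧
      eta l j ≤ etp l j ∧ etp l j ≤ 2 * b0 * eta l j ∧ etp l j ≤ e1 := by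
  have hb := X.env.cs.hb
  have hb0 : 0 < b0 := by linarith
  have hK : 2 * b0 * eta l j < e1 := by
    rw [lt_div_iff₀ (by positivity)] at het
    linarith
  have hη0 : 0 ≤ eta l j := by
    unfold eta ht
    positivity
  have he2 : eta l j ≤ 1 / 2 := by
    have h1 : 1 * (2 * eta l j) ≤ 100 * b0 * (2 * b0 * eta l j) := by
      have : 1 ≤ 100 * b0 * b0 := by nlinarith
      nlinarith
    have h2 : 100 * b0 * (2 * b0 * eta l j) ≤ 100 * b0 * e1 := mul_le_mul_of_nonneg_left hK.le (by positivity)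
    linarith
  obtain ⟨P, hP, hPl⟩ := rich_pt X hr
  obtain ⟨hP1, hP2, hP3, hP4⟩ := hP
  obtain ⟨-, -, h1, h2, h3⟩ := line_facts hb hP1 hP2 hP3 hPl he2
  exact ⟨_, hP4, hP1.2.1, h3, h1, h2, by linarith⟩

theorem R18_geom {F : ℂ × ℂ → ℂ} {b0 : ℝ} (X : Ctx F b0) {j : ℕ} {l : Ln} {d dd : ℕ × ℕ}
    (hw : X.win j d) (hwd : X.win j dd) {θ1 θ2 : ℝ} (h1 : θ1 ∈ cell d) (h2 : θ2 ∈ cell dd)
    (h1t : |θ1 - tl l| ≤ etp l j) (h2t : |θ2 - tl l| ≤ 8 * etp l j) (hml : X.lv j θ2 = ml X l j)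
    (hk : ml X l j + 2 < X.ij j d) : 0 < etp l j ∧ dl d < 16 * etp l j ∧ dl dd < 64 * etp l j ∧
      ∀ θ ∈ cell d, |θ - dc dd| ≤ 57 * etp l j := by
  have hd := L2_dl_pos d
  have hdd := L2_dl_pos dd
  have hη : 0 ≤ etp l j := by
    unfold etp
    positivity
  have c1 := L2_cell h1
  have c2 := L2_cell h2
  rw [abs_le] at c1 c2 h1t h2t
  have g1 : dl d < 16 * etp l j := by
    by_contra hcon
    push Not at hcon
    have h3 : θ2 ∈ st d := by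
      constructor <;> linarith [c1.1, c1.2, h1t.1, h1t.2, h2t.1, h2t.2]
    have h4 := (win_lev hw.2 h3).1
    have h5 : X.ij j d ≤ ml X l j := by
      rw [← hml]
      exact h4
    omega
  have g2 : dl dd < 64 * etp l j := by
    by_contra hcon
    push Not at hcon
    have h3 : θ1 ∈ st dd := by
      constructor <;> linarith [c2.1, c2.2, h1t.1, h1t.2, h2t.1, h2t.2]
    have h4 := (win_lev hwd.2 h3).2
    have h5 := (win_lev hw.2 ((cell_sub_st d).1 h1)).1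
    have h6 := (win_lev hwd.2 ((cell_sub_st dd).1 h2)).1
    have h7 : X.ij j dd ≤ ml X l j := by
      rw [← hml]
      exact h6
    have h8 : X.ij j d ≤ X.ij j dd + 1 := h5.trans h4
    omega
  refine ⟨by linarith, g1, g2, ?_⟩
  intro θ hθ
  have c3 := L2_cell hθ
  rw [abs_le] at c3
  rw [abs_le]
  constructor <;> linarith [c1.1, c1.2, c2.1, c2.2, c3.1, c3.2, h1t.1, h1t.2, h2t.1, h2t.2]

theorem R18_hdl {F : ℂ × ℂ → ℂ} {b0 : ℝ} (X : Ctx F b0) {j : ℕ} {d : ℕ × ℕ} (hw : X.win j d) :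
    hh (X.ij j d) ≤ 2 ^ (X.w0 + 1) * dl d := by
  have hb := X.env.cs.hb
  have hw0 : 400 * b0 ≤ 2 ^ X.w0 := by
    have := X.hw0
    linarith
  have hd := L2_dl_pos d
  rcases win_len X.env.cs hw0 hw.1 hw.2 with h1 | ⟨-, h1⟩
  · have h2 : dl d * 2 ^ X.w0 = 1 := by
      unfold dl
      rw [h1, ← mul_pow]
      norm_num
    have h3 := R18_hh_le_one (X.ij j d)
    rw [pow_succ]
    nlinarith
  · have h2 : hh (X.ij j d) ≤ 2 * dl d := h1
    have h3 : (1 : ℝ) ≤ 2 ^ X.w0 := one_le_pow₀ (by norm_num)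
    rw [pow_succ]
    nlinarith

theorem needy_count {F : ℂ × ℂ → ℂ} {b0 : ℝ} (X : Ctx F b0) (e1 κ K4 : ℝ) (he1 : 0 < e1)
    (he : 100 * b0 * e1 ≤ 1) (hκ : 0 < κ) (hK4 : 0 < K4) : ∃ (C : ℝ) (k1 : ℕ), 0 < C ∧
    ∀ (j : ℕ) (dd : ℕ × ℕ) (LL : Finset Ln), k1 ≤ j → X.win j dd →
    (∀ l ∈ LL, (∃ d, X.win j d ∧ Rich X j d l) ∧ eta l j < e1 / (2 * b0) ∧
      κ * eta l j * 2 ^ j ≤ nk F b0 j l ∧
      (nk F b0 j l : ℝ) ≤ K4 * hh (ml X l j) ^ ((9 : ℝ) / 10) * 2 ^ j ∧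
      ∃ θ ∈ cell dd, |θ - tl l| ≤ 8 * etp l j ∧ X.lv j θ = ml X l j) →
    (LL.card : ℝ) ≤ C * 2 ^ j * hh (X.ij j dd) ^ ((9 : ℝ) / 10) := by
  classical
  have hb := X.env.cs.hb
  have hb0 : 0 < b0 := by linarith
  have hw0 : 400 * b0 ≤ 2 ^ X.w0 := by
    have := X.hw0
    linarith
  obtain ⟨i1, hi1⟩ := R18_key hK4
  obtain ⟨C1, i2, hC1, hrc⟩ := rich_count X (1 / (32 * b0)) (by positivity)
  obtain ⟨j1, hj1⟩ := ij_large X i1
  obtain ⟨j2, hj2⟩ := ij_large X i2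
  refine ⟨2 * (C1 * 2 ^ (X.w0 + 1) * 256) * (2 * b0 / κ * K4), j1 + j2, by positivity, ?_⟩
  intro j dd LL hj hwd hLL
  set R : ℝ := 2 ^ j with hR
  have hRp : 0 < R := by positivity
  have key : ∀ l ∈ LL, ∃ d, X.win j d ∧ Rich X j d l ∧ 0 < etp l j ∧
      etp l j ≤ 2 * b0 / κ * K4 * hh (X.ij j dd) ^ ((9 : ℝ) / 10) ∧
      1 / (32 * b0) * dl d ≤ eta l j ∧ ∀ θ ∈ cell d, |θ - dc dd| ≤ 57 * etp l j := by
    intro l hl
    obtain ⟨⟨d, hd, hr⟩, het, hk1, hk2, θ2, hθ2, hθt, hml⟩ := hLL l hl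
    obtain ⟨θ1, h1, -, h1t, hη1, hη2, -⟩ := R18_line X he hr het
    have hml2 : X.ij j dd ≤ ml X l j := by
      rw [← hml]
      exact (win_lev hwd.2 ((cell_sub_st dd).1 hθ2)).1
    have hHh : hh (ml X l j) ≤ hh (X.ij j dd) := R18_hh_anti hml2
    have hk3 : ml X l j + 2 < X.ij j d := by
      apply hi1 _ _ ((hj1 j dd (by omega) hwd).trans hml2)
      have h3 : hh (X.ij j d) ^ ((3 : ℝ) / 5) * R ≤ K4 * hh (ml X l j) ^ ((9 : ℝ) / 10) * R := by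
        refine hr.2.trans (le_trans ?_ hk2)
        exact_mod_cast nl_le_nk F hb j d l
      exact le_of_mul_le_mul_right h3 hRp
    obtain ⟨g1, g2, g3, g4⟩ := R18_geom X hd hwd h1 hθ2 h1t hθt hml hk3
    refine ⟨d, hd, hr, g1, ?_, ?_, g4⟩
    · have h3 : κ * eta l j * R ≤ K4 * hh (ml X l j) ^ ((9 : ℝ) / 10) * R := hk1.trans hk2
      have h4 : κ * eta l j ≤ K4 * hh (ml X l j) ^ ((9 : ℝ) / 10) := le_of_mul_le_mul_right h3 hRp
      have h5 : hh (ml X l j) ^ ((9 : ℝ) / 10) ≤ hh (X.ij j dd) ^ ((9 : ℝ) / 10) :=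
        Real.rpow_le_rpow (R18_hh_pos _).le hHh (by norm_num)
      have h6 : κ * eta l j ≤ K4 * hh (X.ij j dd) ^ ((9 : ℝ) / 10) :=
        h4.trans (mul_le_mul_of_nonneg_left h5 hK4.le)
      refine hη2.trans ?_
      have h7 : 2 * b0 * eta l j = 2 * b0 / κ * (κ * eta l j) := by
        field_simp
      rw [h7, mul_assoc (2 * b0 / κ) K4]
      exact mul_le_mul_of_nonneg_left h6 (by positivity)
    · have h3 : dl d ≤ 32 * b0 * eta l j := by linarith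
      rw [one_div, inv_mul_le_iff₀ (by positivity)]
      exact h3
  choose! dw hdw using key
  have hpos : 0 < hh (X.ij j dd) ^ ((9 : ℝ) / 10) := Real.rpow_pos_of_pos (R18_hh_pos _) _
  have hmain := dy_sum LL (fun l => etp l j) (C1 * 2 ^ (X.w0 + 1) * 256 * R)
    (2 * b0 / κ * K4 * hh (X.ij j dd) ^ ((9 : ℝ) / 10)) (by positivity) (by positivity)
    (fun l hl => ⟨(hdw l hl).2.2.1, (hdw l hl).2.2.2.1⟩) (by
      intro e hep S hS hSe
      set D : Finset (ℕ × ℕ) := S.image dw with hD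
      have h1 : S.card = ∑ d ∈ D, (S.filter (fun l => dw l = d)).card :=
        Finset.card_eq_sum_card_image dw S
      have hDw : ∀ d ∈ D, X.win j d := by
        intro d hd
        obtain ⟨l, hl, rfl⟩ := Finset.mem_image.1 hd
        exact (hdw l (hS hl)).1
      have h2 : ∀ d ∈ D, ((S.filter (fun l => dw l = d)).card : ℝ) ≤ C1 * 2 ^ (X.w0 + 1) * R * dl d := by
        intro d hd
        have h3 := hrc j d (S.filter (fun l => dw l = d)) (hDw d hd) (hj2 j d (by omega) (hDw d hd)) (by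
          intro l hl
          obtain ⟨hl1, hl2⟩ := Finset.mem_filter.1 hl
          have h4 := hdw l (hS hl1)
          rw [hl2] at h4
          exact ⟨h4.2.1, h4.2.2.2.2.1⟩)
        refine h3.trans ?_
        have h5 := R18_hdl X (hDw d hd)
        calc C1 * hh (X.ij j d) * R ≤ C1 * (2 ^ (X.w0 + 1) * dl d) * R :=
              mul_le_mul_of_nonneg_right (mul_le_mul_of_nonneg_left h5 hC1.le) hRp.le
          _ = _ := by ring
      have h3 : ∑ d ∈ D, dl d ≤ (dc dd + 114 * e) - (dc dd - 114 * e) := by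
        apply R18_len D
        · intro d hd d' hd' hne
          by_contra hcon
          rw [Set.not_disjoint_iff_nonempty_inter] at hcon
          exact hne (win_disj (hDw d hd).2 (hDw d' hd').2 hcon)
        · linarith
        · intro d hd θ hθ
          obtain ⟨l, hl, rfl⟩ := Finset.mem_image.1 hd
          have h4 := (hdw l (hS hl)).2.2.2.2.2 θ hθ
          have h5 := (hSe l hl).2
          rw [abs_le] at h4
          constructor <;> linarith [h4.1, h4.2]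
      rw [h1]
      push_cast
      refine (Finset.sum_le_sum h2).trans ?_
      rw [← Finset.mul_sum]
      have h4 : C1 * 2 ^ (X.w0 + 1) * R * ∑ d ∈ D, dl d ≤ C1 * 2 ^ (X.w0 + 1) * R * (256 * e) :=
        mul_le_mul_of_nonneg_left (by linarith) (by positivity)
      refine h4.trans (le_of_eq ?_)
      ring)
  refine hmain.trans (le_of_eq ?_)
  ring

theorem R18_att {F : ℂ × ℂ → ℂ} {b0 : ℝ} (X : Ctx F b0) {e1 : ℝ}
    (he : 100 * b0 * e1 ≤ 1) {j : ℕ} {l : Ln} (hj : 2 * X.j0 + 100 ≤ j)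
    (hr : ∃ d, X.win j d ∧ Rich X j d l)
    (het : eta l j < e1 / (2 * b0)) : ∃ dd, X.win j dd ∧ ∃ θ ∈ cell dd, |θ - tl l| ≤ 8 * etp l j ∧
      X.lv j θ = ml X l j := by
  have hb := X.env.cs.hb
  have hb0 : 0 < b0 := by linarith
  have hw0 : 400 * b0 ≤ 2 ^ X.w0 := by
    have := X.hw0
    linarith
  obtain ⟨d, hd, hr⟩ := hr
  obtain ⟨θ1, -, h1, h1t, -, -, hη⟩ := R18_line X he hr het
  obtain ⟨θ2, h2t, hml⟩ := ml_att X l j
  have h0 : 0 ≤ etp l j := by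
    unfold etp
    positivity
  have h3 : |θ2 - θ1| ≤ 9 * e1 := by
    rw [abs_le] at h1t h2t ⊢
    constructor <;> linarith [h1t.1, h1t.2, h2t.1, h2t.2]
  have h4 : 9 * e1 ≤ 1 / (3 * b0) := by
    rw [le_div_iff₀ (by positivity)]
    have : 0 ≤ b0 * e1 := by
      have : 0 ≤ e1 := h0.trans hη
      positivity
    linarith
  have hθ2 : θ2 ∈ I2 b0 := by
    obtain ⟨h5, h6⟩ := h1
    rw [abs_le] at h3
    have h7 : 1 / b0 - 1 / (3 * b0) = 2 / (3 * b0) := by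
      field_simp
      norm_num
    have h8 : 1 / (3 * b0) ≤ b0 / 2 := by
      rw [div_le_div_iff₀ (by positivity) (by norm_num)]
      nlinarith
    constructor <;> linarith [h3.1, h3.2]
  obtain ⟨dd, hdd, hc⟩ := win_cover X.env.cs hw0 hj hθ2
  exact ⟨dd, ⟨hj, hdd⟩, θ2, hc, h2t, hml⟩

theorem claimB {F : ℂ × ℂ → ℂ} {b0 : ℝ} (X : Ctx F b0) (e1 κ K4 : ℝ) (he1 : 0 < e1)
    (he : 100 * b0 * e1 ≤ 1) (hκ : 0 < κ) (hK4 : 0 < K4) : ∃ (C : ℝ) (k1 : ℕ), 0 < C ∧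
    ∀ E : Finset (ℕ × Ln), (∀ e ∈ E, k1 ≤ e.1 ∧ (∃ d, X.win e.1 d ∧ Rich X e.1 d e.2) ∧
      eta e.2 e.1 < e1 / (2 * b0) ∧ κ * eta e.2 e.1 * 2 ^ e.1 ≤ nk F b0 e.1 e.2 ∧
      (nk F b0 e.1 e.2 : ℝ) ≤ K4 * hh (ml X e.2 e.1) ^ ((9 : ℝ) / 10) * 2 ^ e.1) →
    ∑ e ∈ E, (nk F b0 e.1 e.2 : ℝ) / 4 ^ e.1 ≤ C := by
  classical
  obtain ⟨C1, k1, hC1, hn⟩ := needy_count X e1 κ K4 he1 he hκ hK4
  obtain ⟨C2, hC2, hws⟩ := ws X
  refine ⟨C1 * K4 * C2, k1 + 2 * X.j0 + 100, by positivity, ?_⟩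
  intro E hE
  have key : ∀ e ∈ E, ∃ dd, X.win e.1 dd ∧ ∃ θ ∈ cell dd, |θ - tl e.2| ≤ 8 * etp e.2 e.1 ∧
      X.lv e.1 θ = ml X e.2 e.1 := by
    intro e hee
    obtain ⟨h1, h2, h3, -, -⟩ := hE e hee
    exact R18_att X he (by omega) h2 h3
  choose! g hg using key
  set G : Finset (ℕ × (ℕ × ℕ)) := E.image (fun e => (e.1, g e)) with hG
  have hGw : ∀ p ∈ G, X.win p.1 p.2 := by
    intro p hp
    obtain ⟨e, hee, rfl⟩ := Finset.mem_image.1 hp
    exact (hg e hee).1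
  have hGk : ∀ p ∈ G, k1 ≤ p.1 := by
    intro p hp
    obtain ⟨e, hee, rfl⟩ := Finset.mem_image.1 hp
    have := (hE e hee).1
    show k1 ≤ e.1
    omega
  have hfib : ∑ e ∈ E, (nk F b0 e.1 e.2 : ℝ) / 4 ^ e.1 =
      ∑ p ∈ G, ∑ e ∈ E.filter (fun e => (e.1, g e) = p), (nk F b0 e.1 e.2 : ℝ) / 4 ^ e.1 :=
    (Finset.sum_fiberwise_of_maps_to (fun e hee => Finset.mem_image_of_mem _ hee) _).symm
  rw [hfib]
  have hp : ∀ p ∈ G, ∑ e ∈ E.filter (fun e => (e.1, g e) = p), (nk F b0 e.1 e.2 : ℝ) / 4 ^ e.1 ≤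
      C1 * K4 * hh (X.ij p.1 p.2) ^ ((5 : ℝ) / 3) := by
    intro p hp
    set T := E.filter (fun e => (e.1, g e) = p) with hT
    set h2 : ℝ := hh (X.ij p.1 p.2) with hh2
    have hh2p : 0 < h2 := R18_hh_pos _
    have hh21 : h2 ≤ 1 := R18_hh_le_one _
    have hTE : ∀ e ∈ T, e ∈ E ∧ e.1 = p.1 ∧ g e = p.2 := by
      intro e heT
      obtain ⟨h3, h4⟩ := Finset.mem_filter.1 heT
      exact ⟨h3, congrArg Prod.fst h4, congrArg Prod.snd h4⟩
    have hinj : Set.InjOn Prod.snd (T : Set (ℕ × Ln)) := by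
      intro e he1' e' he2 heq
      exact Prod.ext ((hTE e he1').2.1.trans (hTE e' he2).2.1.symm) heq
    have hcard : (T.card : ℝ) ≤ C1 * 2 ^ p.1 * h2 ^ ((9 : ℝ) / 10) := by
      rw [← Finset.card_image_of_injOn hinj]
      apply hn p.1 p.2 _ (hGk p hp) (hGw p hp)
      intro l hl
      obtain ⟨e, heT, rfl⟩ := Finset.mem_image.1 hl
      obtain ⟨h3, h4, h5⟩ := hTE e heT
      obtain ⟨-, a2, a3, a4, a5⟩ := hE e h3
      obtain ⟨-, b2⟩ := hg e h3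
      rw [h4] at a2 a3 a4 a5 b2
      rw [h5] at b2
      exact ⟨a2, a3, a4, a5, b2⟩
    have hterm : ∀ e ∈ T, (nk F b0 e.1 e.2 : ℝ) / 4 ^ e.1 ≤ K4 * h2 ^ ((9 : ℝ) / 10) / 2 ^ p.1 := by
      intro e heT
      obtain ⟨h3, h4, h5⟩ := hTE e heT
      obtain ⟨-, a2, a3, a4, a5⟩ := hE e h3
      obtain ⟨b1, θ, b2, b3, b4⟩ := hg e h3
      rw [h4] at a5 b1 b4 ⊢
      rw [h5] at b1 b2
      have hml2 : X.ij p.1 p.2 ≤ ml X e.2 p.1 := by
        rw [← b4]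
        exact (win_lev b1.2 ((cell_sub_st p.2).1 b2)).1
      have h6 : hh (ml X e.2 p.1) ^ ((9 : ℝ) / 10) ≤ h2 ^ ((9 : ℝ) / 10) :=
        Real.rpow_le_rpow (R18_hh_pos _).le (R18_hh_anti hml2) (by norm_num)
      have h7 : (4 : ℝ) ^ p.1 = 2 ^ p.1 * 2 ^ p.1 := by
        rw [← mul_pow]
        norm_num
      rw [h7, div_le_div_iff₀ (by positivity) (by positivity)]
      have h8 : K4 * hh (ml X e.2 p.1) ^ ((9 : ℝ) / 10) * 2 ^ p.1 ≤ K4 * h2 ^ ((9 : ℝ) / 10) * 2 ^ p.1 :=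
        mul_le_mul_of_nonneg_right (mul_le_mul_of_nonneg_left h6 hK4.le) (by positivity)
      have h9 := mul_le_mul_of_nonneg_right (a5.trans h8) (by positivity : (0 : ℝ) ≤ 2 ^ p.1)
      linarith
    refine (Finset.sum_le_sum hterm).trans ?_
    rw [Finset.sum_const, nsmul_eq_mul]
    have hpos : 0 < h2 ^ ((9 : ℝ) / 10) := Real.rpow_pos_of_pos hh2p _
    have h3 := mul_le_mul_of_nonneg_right hcard
      (by positivity : (0 : ℝ) ≤ K4 * h2 ^ ((9 : ℝ) / 10) / 2 ^ p.1)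
    refine h3.trans ?_
    have h4 : C1 * 2 ^ p.1 * h2 ^ ((9 : ℝ) / 10) * (K4 * h2 ^ ((9 : ℝ) / 10) / 2 ^ p.1) =
        C1 * K4 * (h2 ^ ((9 : ℝ) / 10) * h2 ^ ((9 : ℝ) / 10)) := by
      field_simp
    rw [h4, ← Real.rpow_add hh2p]
    apply mul_le_mul_of_nonneg_left _ (by positivity)
    exact Real.rpow_le_rpow_of_exponent_ge hh2p hh21 (by norm_num)
  refine (Finset.sum_le_sum hp).trans ?_
  rw [← Finset.mul_sum]
  exact mul_le_mul_of_nonneg_left (hws G hGw) (by positivity)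

end MuntzF
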