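import Pool.Agent.Lib.MP_dde81e_full.R3
import Pool.Agent.Lib.MP_dde81e_full.R4

/-!
Module R19 (text 10.10, Claim C): Abel summation along runs.
`abel_run`: `V = ht l ≤ 2 b0 q` (from `tl l ≤ 6b0/5`), `V ≤ 2^(10 ml) ≤ 2^(k/10)` (`ml ≤ X.lv k (tl l) ≤ k/100`), so `nk_k ≤ 2^k/q + 1 ≤ C 2^k/V` (`nk_le_q`).
If `De X l k0 ≥ ofReal (1/V)`: `cst X l k0 = (1/V)/2^k0`, and `∑_t nk/4^(k_t) ≤ ∑_t C/(V 2^(k_t)) ≤ 2C/(V 2^k0)`.
If `De X l k0 < ofReal(1/V)`: `leafR` shows successively that all `De X l (k_t)`, `t ≤ r+1`, are finite; put `D_t = (De X l k_t).toReal ≥ 0`,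
`h_t = hh (X.lv k_t (tl l))`.  `n_t/(500 2^(k_t)) ≤ D_t - D_{t+1} + A h_t`, and alive: `D_t ≥ K hh(ml)^(9/10) ≥ K h_t ≥ A h_t` (`hh (ml) ≥ h_t`: `ml_le`).
Times `2^-k_t`, sum over `t = 0..r`: `(1/500) ∑ n_t/4^(k_t) ≤ 2^-k_0 D_0 - ∑_{t≥1}(2^-k_{t-1} - 2^-k_t) D_t - 2^-k_r D_{r+1} + ∑ A h_t 2^-k_t
≤ 2^-k_0 (D_0 + A h_0) ≤ 2 2^-k_0 D_0` since `(2^9-1) 2^-k_t D_t ≥ A h_t 2^-k_t`.  `cst X l k0 = D_0/2^k0`.
`abel`: for `k ∈ S` let `β(k)` be the bottom of its run: go down by 9 as long as alive and `≥ ks + 9`.  `B` = image of `S`.  For each bottom `k0 ∈ B` the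
elements of `S` with this bottom are in a run `k0, k0+9, .., k0+9r`, all alive; `abel_run`.
-/

namespace MuntzF
open Set Metric MeasureTheory
open scoped ENNReal

theorem R19_ht (l : Ln) : 1 ≤ ht l := by
  unfold ht
  by_cases h : l.q = 0
  · rw [l.hq h]
    simp
  · have h1 : (1 : ℝ) ≤ l.q := by exact_mod_cast Nat.one_le_iff_ne_zero.2 h
    exact h1.trans (le_max_left _ _)

theorem R19_etp (l : Ln) (k : ℕ) : 0 ≤ etp l k := by
  unfold etp
  positivity

theorem R19_ml {F : ℂ × ℂ → ℂ} {b0 : ℝ} (X : Ctx F b0) (l : Ln) (k : ℕ) :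
    ml X l k ≤ X.lv k (tl l) := by
  apply ml_le X
  rw [sub_self, abs_zero]
  have := R19_etp l k
  linarith

theorem R19_hh_pos (i : ℕ) : 0 < hh i := by
  unfold hh
  positivity

theorem R19_hh_anti {i i' : ℕ} (h : i ≤ i') : hh i' ≤ hh i := by
  unfold hh
  exact pow_le_pow_of_le_one (by norm_num) (by norm_num) h

theorem R19_hh_one (i : ℕ) : hh i ≤ 1 := by
  unfold hh
  exact pow_le_one₀ (by norm_num) (by norm_num)

theorem R19_hh_rpow (i : ℕ) : hh i ≤ hh i ^ ((9 : ℝ) / 10) := by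
  have h1 := Real.rpow_le_rpow_of_exponent_ge (R19_hh_pos i) (R19_hh_one i)
    (show (9 : ℝ) / 10 ≤ 1 by norm_num)
  rwa [Real.rpow_one] at h1

/-- number of zeros on an alive line -/
theorem R19_nk {F : ℂ × ℂ → ℂ} {b0 : ℝ} (X : Ctx F b0) {e1 K : ℝ} {k : ℕ} {l : Ln}
    (h : Alive X e1 K k l) : (nk F b0 k l : ℝ) ≤ (2 * b0 + 1) * (2 ^ k / ht l) := by
  have hb := X.env.cs.hb
  have hV := R19_ht l
  have hq : (1 : ℝ) ≤ l.q := by exact_mod_cast Nat.one_le_iff_ne_zero.2 h.hq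
  have h1 : ht l ≤ 2 * b0 * l.q := by
    unfold ht
    apply max_le
    · nlinarith
    · have h2 : |(l.p : ℝ)| = tl l * l.q := by
        have h3 : (0 : ℝ) < tl l := lt_of_lt_of_le (by positivity) h.t1
        have h4 : (l.p : ℝ) = tl l * l.q := by
          unfold tl
          field_simp
        rw [h4, abs_of_pos (by positivity)]
      rw [h2]
      have h3 := h.t2
      gcongr
      linarith
  have h2 : ht l ≤ 2 ^ k := by
    refine h.hV.trans (pow_le_pow_right₀ (by norm_num) ?_)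
    have h4 := R19_ml X l k
    have h5 : X.lv k (tl l) ≤ k / 100 := lev_le _ _ _ _
    omega
  have h3 := nk_le_q F hb k l h.hq
  have h4 : (2 : ℝ) ^ k / l.q ≤ 2 * b0 * (2 ^ k / ht l) := by
    rw [mul_div_assoc', div_le_div_iff₀ (by linarith) (by linarith)]
    have h5 : (0 : ℝ) < 2 ^ k := by positivity
    nlinarith
  have h5 : 1 ≤ (2 : ℝ) ^ k / ht l := by
    rw [le_div_iff₀ (by linarith)]
    linarith
  linarith

theorem abel_run {F : ℂ × ℂ → ℂ} {b0 : ℝ} (X : Ctx F b0) : ∃ (e0 K0 C : ℝ) (k1 : ℕ), 0 < e0 ∧ 0 < K0 ∧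
    0 < C ∧ ∀ (e1 K : ℝ) (k0 r : ℕ) (l : Ln), e1 ≤ e0 → K0 ≤ K → k1 ≤ k0 →
    (∀ t, t ≤ r → Alive X e1 K (k0 + 9 * t) l) →
    ∑ t ∈ Finset.range (r + 1), (nk F b0 (k0 + 9 * t) l : ℝ) / 4 ^ (k0 + 9 * t) ≤ C * cst X l k0 := by
  have hb := X.env.cs.hb
  obtain ⟨A, k1, hA, hrec⟩ := leafR X
  refine ⟨1 / (2 * b0), A, 2 * (2 * b0 + 1) + 1000, k1, by positivity, by linarith, by linarith, ?_⟩
  intro e1 K k0 r l he1 hK hk0 hal
  have hV := R19_ht l
  have hcst0 : 0 ≤ cst X l k0 := by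
    unfold cst
    positivity
  rcases le_or_gt (ENNReal.ofReal (1 / ht l)) (De X l k0) with hD | hD
  · -- first case
    have h1 : cst X l k0 = (1 / ht l) / 2 ^ k0 := by
      unfold cst
      rw [min_eq_right hD, ENNReal.toReal_ofReal (by positivity)]
    have h2 : ∀ t ∈ Finset.range (r + 1), (nk F b0 (k0 + 9 * t) l : ℝ) / 4 ^ (k0 + 9 * t) ≤
        (2 * b0 + 1) * ((1 / ht l) / 2 ^ k0) * (1 / 2) ^ t := by
      intro t ht'
      have h3 := R19_nk X (hal t (by simpa [Nat.lt_succ_iff] using ht'))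
      have h4 : (4 : ℝ) ^ (k0 + 9 * t) = 2 ^ (k0 + 9 * t) * 2 ^ (k0 + 9 * t) := by
        rw [← mul_pow]
        norm_num
      have h5 : (2 : ℝ) ^ k0 * 2 ^ t ≤ 2 ^ (k0 + 9 * t) := by
        rw [← pow_add]
        exact pow_le_pow_right₀ (by norm_num) (by omega)
      have h6 : (0 : ℝ) < 2 ^ (k0 + 9 * t) := by positivity
      rw [h4]
      calc (nk F b0 (k0 + 9 * t) l : ℝ) / (2 ^ (k0 + 9 * t) * 2 ^ (k0 + 9 * t))
          ≤ ((2 * b0 + 1) * (2 ^ (k0 + 9 * t) / ht l)) / (2 ^ (k0 + 9 * t) * 2 ^ (k0 + 9 * t)) := by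
            gcongr
        _ = (2 * b0 + 1) * (1 / ht l) / 2 ^ (k0 + 9 * t) := by
            field_simp
        _ ≤ (2 * b0 + 1) * (1 / ht l) / (2 ^ k0 * 2 ^ t) := by
            gcongr
        _ = (2 * b0 + 1) * ((1 / ht l) / 2 ^ k0) * (1 / 2) ^ t := by
            rw [one_div_pow]
            field_simp
    have h3 := Finset.sum_le_sum h2
    rw [← Finset.mul_sum] at h3
    have h4 : ∑ t ∈ Finset.range (r + 1), (1 / 2 : ℝ) ^ t ≤ 2 := by
      rw [geom_sum_eq (by norm_num)]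
      have : (0 : ℝ) ≤ (1 / 2) ^ (r + 1) := by positivity
      rw [div_le_iff_of_neg (by norm_num)]
      linarith
    calc _ ≤ (2 * b0 + 1) * ((1 / ht l) / 2 ^ k0) * ∑ t ∈ Finset.range (r + 1), (1 / 2 : ℝ) ^ t := h3
      _ ≤ (2 * b0 + 1) * ((1 / ht l) / 2 ^ k0) * 2 := by gcongr
      _ = 2 * (2 * b0 + 1) * cst X l k0 := by
          rw [h1]
          ring
      _ ≤ (2 * (2 * b0 + 1) + 1000) * cst X l k0 := by nlinarith
  · -- second case
    have h1 : cst X l k0 = (De X l k0).toReal / 2 ^ k0 := by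
      unfold cst
      rw [min_eq_left hD.le]
    have hR : ∀ t, t ≤ r → De X l (k0 + 9 * (t + 1)) +
        ENNReal.ofReal ((nk F b0 (k0 + 9 * t) l : ℝ) / (500 * 2 ^ (k0 + 9 * t))) ≤
        De X l (k0 + 9 * t) + ENNReal.ofReal (A * hh (X.lv (k0 + 9 * t) (tl l))) := by
      intro t ht'
      have h2 := hal t ht'
      have h3 := hrec (k0 + 9 * t) l (by omega) h2.hq h2.t1 h2.t2 (by
        have h4 := h2.et.trans he1
        rw [le_div_iff₀ (by linarith)] at h4
        linarith)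
      rw [show k0 + 9 * t + 9 = k0 + 9 * (t + 1) by ring] at h3
      exact h3
    have hfin : ∀ t, t ≤ r + 1 → De X l (k0 + 9 * t) ≠ ⊤ := by
      intro t
      induction t with
      | zero =>
        intro _
        rw [mul_zero, add_zero]
        exact (hD.trans ENNReal.ofReal_lt_top).ne
      | succ t ih =>
        intro ht'
        have h2 := ih (by omega)
        have h3 := hR t (by omega)
        intro h4
        rw [h4, top_add, top_le_iff, ENNReal.add_eq_top] at h3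
        rcases h3 with h3 | h3
        · exact h2 h3
        · exact ENNReal.ofReal_ne_top h3
    have hRR : ∀ t, t ≤ r → (De X l (k0 + 9 * (t + 1))).toReal +
        (nk F b0 (k0 + 9 * t) l : ℝ) / (500 * 2 ^ (k0 + 9 * t)) ≤
        2 * (De X l (k0 + 9 * t)).toReal := by
      intro t ht'
      have h2 := hR t ht'
      have hlv := R19_hh_pos (X.lv (k0 + 9 * t) (tl l))
      have h3 := ENNReal.toReal_mono (ENNReal.add_ne_top.2 ⟨hfin t (by omega), ENNReal.ofReal_ne_top⟩) h2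
      rw [ENNReal.toReal_add (hfin (t + 1) (by omega)) ENNReal.ofReal_ne_top,
        ENNReal.toReal_add (hfin t (by omega)) ENNReal.ofReal_ne_top,
        ENNReal.toReal_ofReal (by positivity), ENNReal.toReal_ofReal (by positivity)] at h3
      have h4 := (hal t ht').dp
      have h5 := ENNReal.toReal_mono (hfin t (by omega)) h4
      have hml := R19_hh_pos (ml X l (k0 + 9 * t))
      have hetp := R19_etp l (k0 + 9 * t)
      have hK0 : 0 < K := by linarith
      rw [ENNReal.toReal_ofReal (by positivity)] at h5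
      have h6 : hh (X.lv (k0 + 9 * t) (tl l)) ≤ hh (ml X l (k0 + 9 * t)) ^ ((9 : ℝ) / 10) :=
        (R19_hh_anti (R19_ml X l (k0 + 9 * t))).trans (R19_hh_rpow _)
      have h7 : A * hh (X.lv (k0 + 9 * t) (tl l)) ≤
          K * hh (ml X l (k0 + 9 * t)) ^ ((9 : ℝ) / 10) := by
        gcongr
      have h8 : 0 ≤ K * etp l (k0 + 9 * t) := by positivity
      linarith
    have hnn : ∀ t, 0 ≤ (De X l (k0 + 9 * t)).toReal := fun t => ENNReal.toReal_nonneg
    have key : ∀ s, s ≤ r → ∑ t ∈ Finset.range (s + 1),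
        (nk F b0 (k0 + 9 * t) l : ℝ) / 4 ^ (k0 + 9 * t) / 500 +
        (De X l (k0 + 9 * (s + 1))).toReal / 2 ^ (k0 + 9 * s) ≤
        2 * ((De X l k0).toReal / 2 ^ k0) := by
      have hstep : ∀ t, t ≤ r → (nk F b0 (k0 + 9 * t) l : ℝ) / 4 ^ (k0 + 9 * t) / 500 +
          (De X l (k0 + 9 * (t + 1))).toReal / 2 ^ (k0 + 9 * t) ≤
          2 * (De X l (k0 + 9 * t)).toReal / 2 ^ (k0 + 9 * t) := by
        intro t ht'
        have h2 := hRR t ht'
        have h4 : (4 : ℝ) ^ (k0 + 9 * t) = 2 ^ (k0 + 9 * t) * 2 ^ (k0 + 9 * t) := by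
          rw [← mul_pow]
          norm_num
        have h6 : (0 : ℝ) < 2 ^ (k0 + 9 * t) := by positivity
        calc (nk F b0 (k0 + 9 * t) l : ℝ) / 4 ^ (k0 + 9 * t) / 500 +
              (De X l (k0 + 9 * (t + 1))).toReal / 2 ^ (k0 + 9 * t)
            = ((De X l (k0 + 9 * (t + 1))).toReal +
              (nk F b0 (k0 + 9 * t) l : ℝ) / (500 * 2 ^ (k0 + 9 * t))) / 2 ^ (k0 + 9 * t) := by
              rw [h4]
              field_simp
              ring
          _ ≤ _ := by gcongr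
      intro s
      induction s with
      | zero =>
        intro _
        rw [Finset.sum_range_one]
        have h2 := hstep 0 (by omega)
        simp only [mul_zero, add_zero, zero_add] at h2 ⊢
        rw [mul_div_assoc] at h2
        exact h2
      | succ s ih =>
        intro hs
        have h2 := ih (by omega)
        have h3 := hstep (s + 1) hs
        rw [Finset.sum_range_succ]
        have h4 : 2 * (De X l (k0 + 9 * (s + 1))).toReal / 2 ^ (k0 + 9 * (s + 1)) ≤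
            (De X l (k0 + 9 * (s + 1))).toReal / 2 ^ (k0 + 9 * s) := by
          rw [show k0 + 9 * (s + 1) = (k0 + 9 * s) + 9 by ring, pow_add, div_le_div_iff₀
            (by positivity) (by positivity)]
          have h5 := hnn (s + 1)
          rw [show k0 + 9 * (s + 1) = (k0 + 9 * s) + 9 by ring] at h5
          have h6 : (0 : ℝ) < 2 ^ (k0 + 9 * s) := by positivity
          have h7 : 0 ≤ (De X l (k0 + 9 * s + 9)).toReal * 2 ^ (k0 + 9 * s) := by positivity
          norm_num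
          nlinarith
        linarith
    have h2 := key r le_rfl
    have h3 : 0 ≤ (De X l (k0 + 9 * (r + 1))).toReal / 2 ^ (k0 + 9 * r) := by positivity
    rw [← Finset.sum_div] at h2
    rw [← h1] at h2
    have h4 : ∑ t ∈ Finset.range (r + 1), (nk F b0 (k0 + 9 * t) l : ℝ) / 4 ^ (k0 + 9 * t) ≤
        1000 * cst X l k0 := by
      have h5 : (∑ t ∈ Finset.range (r + 1), (nk F b0 (k0 + 9 * t) l : ℝ) / 4 ^ (k0 + 9 * t)) / 500 ≤
        2 * cst X l k0 := by linarith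
      rw [div_le_iff₀ (by norm_num)] at h5
      linarith
    refine h4.trans ?_
    have h5 : 0 ≤ 2 * (2 * b0 + 1) * cst X l k0 := by positivity
    linarith

theorem abel {F : ℂ × ℂ → ℂ} {b0 : ℝ} (X : Ctx F b0) : ∃ (e0 K0 C : ℝ) (k1 : ℕ), 0 < e0 ∧ 0 < K0 ∧
    0 < C ∧ ∀ (e1 K : ℝ) (ks : ℕ) (l : Ln) (S : Finset ℕ), e1 ≤ e0 → K0 ≤ K → k1 ≤ ks →
    (∀ k ∈ S, ks ≤ k ∧ Alive X e1 K k l) →
    ∃ B : Finset ℕ, (∀ k ∈ B, ks ≤ k ∧ Bot X e1 K ks k l) ∧
      ∑ k ∈ S, (nk F b0 k l : ℝ) / 4 ^ k ≤ C * ∑ k ∈ B, cst X l k := by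
  classical
  obtain ⟨e0, K0, C, k1, he0, hK0, hC, hrun⟩ := abel_run X
  refine ⟨e0, K0, C, k1, he0, hK0, hC, ?_⟩
  intro e1 K ks l S he1 hK hks hS
  have H : ∀ k, ∃ k0 t : ℕ, (ks ≤ k ∧ Alive X e1 K k l) →
      (k = k0 + 9 * t ∧ ks ≤ k0 ∧ Bot X e1 K ks k0 l ∧ ∀ s, s ≤ t → Alive X e1 K (k0 + 9 * s) l) := by
    intro k
    induction k using Nat.strong_induction_on with
    | _ k ih =>
      by_cases h : ks ≤ k ∧ Alive X e1 K k l
      swap
      · exact ⟨0, 0, fun h' => absurd h' h⟩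
      obtain ⟨h1, h2⟩ := h
      by_cases h3 : k < ks + 9 ∨ ¬ Alive X e1 K (k - 9) l
      · refine ⟨k, 0, fun _ => ⟨by omega, h1, ⟨h2, h3⟩, ?_⟩⟩
        intro s hs
        obtain rfl : s = 0 := by omega
        simpa using h2
      · push Not at h3
        obtain ⟨h4, h5⟩ := h3
        obtain ⟨k0, t, h6⟩ := ih (k - 9) (by omega)
        obtain ⟨h7, h8, h9, h10⟩ := h6 ⟨by omega, h5⟩
        refine ⟨k0, t + 1, fun _ => ⟨by omega, h8, h9, ?_⟩⟩
        intro s hs
        rcases Nat.lt_or_ge s (t + 1) with h11 | h11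
        · exact h10 s (by omega)
        · obtain rfl : s = t + 1 := by omega
          rw [show k0 + 9 * (t + 1) = k by omega]
          exact h2
  choose β τ hβ using H
  refine ⟨S.image β, ?_, ?_⟩
  · intro k hk
    obtain ⟨k', hk', rfl⟩ := Finset.mem_image.1 hk
    obtain ⟨-, h2, h3, -⟩ := hβ k' (hS k' hk')
    exact ⟨h2, h3⟩
  · rw [← Finset.sum_fiberwise_of_maps_to (g := β) (t := S.image β)
      (fun k hk => Finset.mem_image_of_mem _ hk), Finset.mul_sum]
    apply Finset.sum_le_sum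
    intro k0 hk0
    set T := S.filter (fun k => β k = k0) with hT
    have hTne : T.Nonempty := by
      obtain ⟨k', hk', h1⟩ := Finset.mem_image.1 hk0
      exact ⟨k', Finset.mem_filter.2 ⟨hk', h1⟩⟩
    obtain ⟨km, hkm, hmax⟩ := Finset.exists_max_image T τ hTne
    have hkm' := Finset.mem_filter.1 hkm
    obtain ⟨h1, h2, h3, h4⟩ := hβ km (hS km hkm'.1)
    rw [hkm'.2] at h1 h2 h3 h4
    have h5 := hrun e1 K k0 (τ km) l he1 hK (by omega) h4
    refine le_trans ?_ h5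
    have h6 : T ⊆ (Finset.range (τ km + 1)).image (fun t => k0 + 9 * t) := by
      intro k hk
      have hk' := Finset.mem_filter.1 hk
      obtain ⟨g1, g2, g3, g4⟩ := hβ k (hS k hk'.1)
      rw [hk'.2] at g1
      refine Finset.mem_image.2 ⟨τ k, ?_, g1.symm⟩
      rw [Finset.mem_range]
      have := hmax k hk
      omega
    calc ∑ k ∈ T, (nk F b0 k l : ℝ) / 4 ^ k
        ≤ ∑ k ∈ (Finset.range (τ km + 1)).image (fun t => k0 + 9 * t), (nk F b0 k l : ℝ) / 4 ^ k := by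
          apply Finset.sum_le_sum_of_subset_of_nonneg h6
          intro k _ _
          positivity
      _ = ∑ t ∈ Finset.range (τ km + 1), (nk F b0 (k0 + 9 * t) l : ℝ) / 4 ^ (k0 + 9 * t) := by
          apply Finset.sum_image
          intro a _ b _ hab
          simp only at hab
          omega

end MuntzF
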