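import Pool.Agent.Lib.MP_dde81e_full.RDefs
import Pool.Agent.Lib.MP_dde81e_full.A4
import Pool.Agent.Lib.MP_dde81e_full.E4

/-!
Module R2 (text 10.7, R2): zeros on the line increase `a_k`, and elementary facts on the leaf.
Write `θ = tl l > 0`, `b = bl l`, `x_l = xl l ≥ 0`, `θ x_l + b ≥ 0`.  Hence on `Muntz.RH` both arguments of `lf F l` have
nonnegative real part, `lf F l` is analytic on `RH` (`X.env.hF.diff`, open set `Re > -1`) and bounded by 1 (`leaf_an`).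
`aa_anti`: `Muntz.af_anti` with `Muntz.SH_nl`.
`leaf_point`: with `ζ = x - x_l` real, `0 < ζ ≤ 2^k`: `nl(lf F l ζ)/ofReal ζ ≥ af (ζ) ≥ af (2^k) = aa F l k ≥ ofReal (c + t)`
(`t > 0` and `ofReal t ≤ aa - ofReal c` give `ofReal c + ofReal t ≤ aa`), and `E4_norm_le_of_nl`; the argument is `(x, θ x + b)`.
`leaf_rec`: `ρ = 2^k`, `rec_zeros` for `g = lf F l`, `s` = the multiset of the distinct points `ζ = m - x_l`, `(m,n)` the zeros counted
by `nk` (`div_distinct` gives the factorisation; on the line `n = θ m + b`, so `g(m - x_l) = F(m,n) = 0`); `|ζ| ≤ 2^(k+1) ≤ 8 ρ`;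
`x_l ≤ |b|/θ ≤ (6 b0/5) etp l k 2^k ≤ (3/5) 2^k`, so `Re ζ ≥ ρ/8`.  If `aa F l (k+9) = ⊤` then `aa F l k = ⊤` by `aa_anti`.  Otherwise
`A = (aa F l (k+9)).toReal`: `|g(z)| ≤ exp(-A Re z)` on `|z| = 512 ρ`, so `|g(z)| ≤ exp(-(A + n/(500 ρ)) Re z)` on `|z| = ρ`.
(The set counted by `nk` is finite: `m` in a finite range and `n/m` in `I0`; distinct zeros have distinct `m` since `q ≠ 0`.)
-/

namespace MuntzF
open Set Metric MeasureTheory
open scoped ENNReal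

theorem R2_xl_nonneg (l : Ln) : 0 ≤ xl l := le_max_left _ _

theorem R2_line_nonneg (l : Ln) (h1 : 0 < tl l) : 0 ≤ tl l * xl l + bl l := by
  have h2 : -(bl l) / tl l ≤ xl l := le_max_right _ _
  rw [div_le_iff₀ h1] at h2
  linarith

theorem leaf_an {F : ℂ × ℂ → ℂ} (hF : Muntz.GoodF F) (l : Ln) (h1 : 0 < tl l) :
    AnalyticOnNhd ℂ (lf F l) Muntz.RH ∧ ∀ z ∈ Muntz.RH, ‖lf F l z‖ ≤ 1 := by
  have hx := R2_xl_nonneg l
  have hy := R2_line_nonneg l h1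
  have hre : ∀ z ∈ Muntz.RH, -1 < ((xl l : ℂ) + z).re ∧
      -1 < ((tl l : ℂ) * ((xl l : ℂ) + z) + (bl l : ℂ)).re := by
    intro z hz
    have hz' : 0 ≤ z.re := hz
    have e1 : ((xl l : ℂ) + z).re = xl l + z.re := by simp
    have e2 : ((tl l : ℂ) * ((xl l : ℂ) + z) + (bl l : ℂ)).re
        = tl l * xl l + bl l + tl l * z.re := by
      simp; ring
    rw [e1, e2]
    constructor
    · linarith
    · have := mul_nonneg h1.le hz'
      linarith
  constructor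
  · have hopen : IsOpen {z : ℂ | -1 < ((xl l : ℂ) + z).re ∧
        -1 < ((tl l : ℂ) * ((xl l : ℂ) + z) + (bl l : ℂ)).re} := by
      apply IsOpen.inter
      · exact isOpen_lt continuous_const (Complex.continuous_re.comp (by fun_prop))
      · exact isOpen_lt continuous_const (Complex.continuous_re.comp (by fun_prop))
    have hd : DifferentiableOn ℂ (lf F l) {z : ℂ | -1 < ((xl l : ℂ) + z).re ∧
        -1 < ((tl l : ℂ) * ((xl l : ℂ) + z) + (bl l : ℂ)).re} := by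
      have h2 : DifferentiableOn ℂ (fun z : ℂ => (((xl l : ℂ) + z,
          (tl l : ℂ) * ((xl l : ℂ) + z) + (bl l : ℂ)) : ℂ × ℂ))
          {z : ℂ | -1 < ((xl l : ℂ) + z).re ∧
        -1 < ((tl l : ℂ) * ((xl l : ℂ) + z) + (bl l : ℂ)).re} :=
        (Differentiable.prodMk (by fun_prop) (by fun_prop)).differentiableOn
      exact hF.diff.comp h2 (fun z hz => hz)
    exact (hd.analyticOnNhd hopen).mono hre
  · intro z hz
    exact hF.bound _ (hre z hz).1 (hre z hz).2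

theorem aa_anti {F : ℂ × ℂ → ℂ} (hF : Muntz.GoodF F) (l : Ln) (h1 : 0 < tl l) {k k' : ℕ} (h : k ≤ k') :
    aa F l k' ≤ aa F l k := by
  obtain ⟨ha, hb⟩ := leaf_an hF l h1
  exact Muntz.af_anti (Muntz.SH_nl ha hb) (by positivity)
    (pow_le_pow_right₀ (by norm_num) h)

theorem leaf_point {F : ℂ × ℂ → ℂ} {b0 : ℝ} (X : Ctx F b0) {k : ℕ} {l : Ln} {x t : ℝ} (h1 : 0 < tl l)
    (hx : xl l < x) (hx2 : x - xl l ≤ 2 ^ k) (ht : 0 < t) (hD : ENNReal.ofReal t ≤ De X l k)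
    (hc : 0 ≤ X.c k (tl l)) :
    ‖F ((x : ℂ), ((tl l * x + bl l : ℝ) : ℂ))‖ ≤ Real.exp (-((x - xl l) * (X.c k (tl l) + t))) := by
  obtain ⟨ha, hb⟩ := leaf_an X.env.hF l h1
  have hSH := Muntz.SH_nl ha hb
  set ζ : ℂ := ((x - xl l : ℝ) : ℂ) with hζ
  have hre : ζ.re = x - xl l := by rw [hζ, Complex.ofReal_re]
  have hpos : 0 < ζ.re := by rw [hre]; linarith
  have hn : ‖ζ‖ ≤ 2 ^ k := by
    rw [hζ, Complex.norm_real, Real.norm_eq_abs, abs_of_pos (by linarith)]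
    exact hx2
  have h2 := Muntz.af_interior hSH hpos hn
  have h3 : ENNReal.ofReal (X.c k (tl l)) + ENNReal.ofReal t ≤ aa F l k := by
    unfold De at hD
    have hle : ENNReal.ofReal (X.c k (tl l)) ≤ aa F l k := by
      by_contra hcon
      rw [not_le] at hcon
      rw [tsub_eq_zero_of_le hcon.le] at hD
      have h4 : 0 < ENNReal.ofReal t := ENNReal.ofReal_pos.2 ht
      exact absurd hD (not_le.2 h4)
    calc ENNReal.ofReal (X.c k (tl l)) + ENNReal.ofReal t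
        ≤ ENNReal.ofReal (X.c k (tl l)) + (aa F l k - ENNReal.ofReal (X.c k (tl l))) := by
          gcongr
      _ = aa F l k := add_tsub_cancel_of_le hle
  rw [← ENNReal.ofReal_add hc ht.le] at h3
  have h4 : ENNReal.ofReal ((X.c k (tl l) + t) * ζ.re) ≤ Muntz.nl (lf F l ζ) := by
    rw [ENNReal.ofReal_mul (by linarith)]
    refine le_trans ?_ h2
    gcongr
    exact h3
  have h5 := E4_norm_le_of_nl (hb ζ hpos.le) h4
  have h6 : lf F l ζ = F ((x : ℂ), ((tl l * x + bl l : ℝ) : ℂ)) := by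
    unfold lf
    have e1 : (xl l : ℂ) + ζ = (x : ℂ) := by
      rw [hζ]; push_cast; ring
    rw [e1]
    push_cast
    rfl
  rw [h6, hre] at h5
  rw [mul_comm (x - xl l)]
  exact h5

theorem R2_line {l : Ln} (hq : l.q ≠ 0) {P : ℤ × ℤ} (h : onlz l P) :
    (P.2 : ℝ) = tl l * P.1 + bl l := by
  unfold onlz at h
  have h2 : (l.q : ℝ) * P.2 - l.p * P.1 = l.r := by exact_mod_cast h
  have hq' : (l.q : ℝ) ≠ 0 := by exact_mod_cast hq
  unfold tl bl
  field_simp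
  linarith

theorem leaf_rec {F : ℂ × ℂ → ℂ} {b0 : ℝ} (X : Ctx F b0) (k : ℕ) (l : Ln) (hq : l.q ≠ 0)
    (h1 : 5 / (6 * b0) ≤ tl l) (h2 : tl l ≤ 6 * b0 / 5) (h3 : 2 * b0 * etp l k ≤ 1) :
    aa F l (k + 9) + ENNReal.ofReal ((nk F b0 k l : ℝ) / (500 * 2 ^ k)) ≤ aa F l k := by
  have hb0 : 2 ≤ b0 := X.env.cs.hb
  have hθ : 0 < tl l := lt_of_lt_of_le (by positivity) h1
  have _ := h2
  have hF := X.env.hF
  obtain ⟨hga, hgb⟩ := leaf_an hF l hθ
  set g : ℂ → ℂ := lf F l with hg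
  have hρ : (0 : ℝ) < 2 ^ k := by positivity
  have hρ9 : (2 : ℝ) ^ (k + 9) = 512 * 2 ^ k := by ring
  -- the left end
  have hxl : xl l ≤ 3 / 5 * 2 ^ k := by
    have hb1 : |bl l| = etp l k * 2 ^ k := by
      unfold etp
      rw [div_mul_cancel₀ _ hρ.ne']
    have he0 : 0 ≤ etp l k := by unfold etp; positivity
    have e1 : -(bl l) / tl l ≤ 3 / 5 * 2 ^ k := by
      rw [div_le_iff₀ hθ]
      have e2 : -(bl l) ≤ |bl l| := neg_le_abs _
      rw [hb1] at e2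
      refine e2.trans ?_
      have e3 : etp l k ≤ 3 / 5 * tl l := by
        have e4 : 3 / 5 * (5 / (6 * b0)) ≤ 3 / 5 * tl l := by linarith
        have e5 : 3 / 5 * (5 / (6 * b0)) = 1 / (2 * b0) := by field_simp; norm_num
        rw [e5] at e4
        refine le_trans ?_ e4
        rw [le_div_iff₀ (by positivity)]
        linarith
      calc etp l k * 2 ^ k ≤ (3 / 5 * tl l) * 2 ^ k := mul_le_mul_of_nonneg_right e3 hρ.le
        _ = 3 / 5 * 2 ^ k * tl l := by ring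
    exact max_le (by positivity) e1
  have hxl0 := R2_xl_nonneg l
  -- the zeros
  set Z : Set (ℤ × ℤ) :=
    {P : ℤ × ℤ | P ∈ Zf F b0 ∧ (2 : ℤ) ^ k ≤ P.1 ∧ P.1 < 2 ^ (k + 1) ∧ onlz l P} with hZ
  set φ : ℤ × ℤ → ℂ := fun P => ((P.1 : ℝ) : ℂ) - (xl l : ℂ) with hφ
  have hinj : Set.InjOn φ Z := by
    intro P hP Q hQ hPQ
    have e1 : ((P.1 : ℝ) : ℂ) = ((Q.1 : ℝ) : ℂ) := sub_left_injective hPQ
    have e2 : (P.1 : ℝ) = (Q.1 : ℝ) := Complex.ofReal_injective e1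
    have e3 : P.1 = Q.1 := by exact_mod_cast e2
    have e4 : (P.2 : ℝ) = (Q.2 : ℝ) := by
      rw [R2_line hq hP.2.2.2, R2_line hq hQ.2.2.2, e2]
    have e5 : P.2 = Q.2 := by exact_mod_cast e4
    exact Prod.ext e3 e5
  have hfinX : (φ '' Z).Finite := by
    refine Set.Finite.subset ((Set.finite_Icc ((2 : ℤ) ^ k) (2 ^ (k + 1))).image
      (fun m : ℤ => ((m : ℝ) : ℂ) - (xl l : ℂ))) ?_
    rintro _ ⟨P, hP, rfl⟩
    exact ⟨P.1, ⟨hP.2.1, hP.2.2.1.le⟩, rfl⟩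
  set S : Finset ℂ := hfinX.toFinset with hS
  have hcard : S.card = nk F b0 k l := by
    unfold nk
    rw [hS, ← Set.ncard_eq_toFinset_card _ hfinX, hinj.ncard_image]
  have hSmem : ∀ a ∈ S, ∃ P ∈ Z, a = φ P := by
    intro a ha
    rw [hS, Set.Finite.mem_toFinset] at ha
    obtain ⟨P, hP, rfl⟩ := ha
    exact ⟨P, hP, rfl⟩
  have hSre : ∀ a ∈ S, ‖a‖ ≤ 8 * 2 ^ k ∧ 2 ^ k / 8 ≤ a.re := by
    intro a ha
    obtain ⟨P, hP, rfl⟩ := hSmem a ha
    have e1 : (2 : ℝ) ^ k ≤ (P.1 : ℝ) := by exact_mod_cast hP.2.1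
    have e2 : (P.1 : ℝ) < 2 ^ (k + 1) := by exact_mod_cast hP.2.2.1
    have e3 : φ P = (((P.1 : ℝ) - xl l : ℝ) : ℂ) := by
      simp only [hφ]; push_cast; rfl
    have e4 : (0 : ℝ) < (P.1 : ℝ) - xl l := by nlinarith
    have e5 : (2 : ℝ) ^ (k + 1) = 2 * 2 ^ k := by ring
    rw [e3, Complex.norm_real, Real.norm_eq_abs, abs_of_pos e4, Complex.ofReal_re]
    constructor
    · rw [e5] at e2
      linarith
    · linarith
  have hSz : ∀ a ∈ S, a ∈ Muntz.RH ∧ g a = 0 := by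
    intro a ha
    have hre := (hSre a ha).2
    obtain ⟨P, hP, rfl⟩ := hSmem a ha
    refine ⟨?_, ?_⟩
    · show (0 : ℝ) ≤ (φ P).re
      linarith [div_pos hρ (by norm_num : (0 : ℝ) < 8)]
    · rw [hg]
      unfold lf
      have e1 : (xl l : ℂ) + φ P = ((P.1 : ℝ) : ℂ) := by simp only [hφ]; ring
      have e2 : (tl l : ℂ) * ((P.1 : ℝ) : ℂ) + (bl l : ℂ) = ((P.2 : ℝ) : ℂ) := by
        rw [R2_line hq hP.2.2.2]; push_cast; ring
      rw [e1, e2]
      have e3 := hP.1.2.2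
      push_cast
      exact e3
  obtain ⟨K, hKa, hKf⟩ := div_distinct hga S hSz
  by_cases htop : aa F l (k + 9) = ⊤
  · have e1 := aa_anti hF l hθ (show k ≤ k + 9 by omega)
    rw [htop, top_le_iff] at e1
    rw [e1]
    exact le_top
  set u : ℂ → ℝ≥0∞ := fun ζ => Muntz.nl (lf F l ζ) with hu
  set A : ℝ := (aa F l (k + 9)).toReal with hA
  have hA0 : 0 ≤ A := ENNReal.toReal_nonneg
  have hAe : aa F l (k + 9) = ENNReal.ofReal A := (ENNReal.ofReal_toReal htop).symm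
  have harc : ∀ z : ℂ, 0 < z.re → ‖z‖ = 512 * 2 ^ k → ‖g z‖ ≤ Real.exp (-(A * z.re)) := by
    intro z h4 h5
    have h6 := Muntz.SHM_af_mul_le (u := u) h4
    have h7 : aa F l (k + 9) = Muntz.af u (2 ^ (k + 9)) := rfl
    rw [h5, ← hρ9, ← h7, hAe, ← ENNReal.ofReal_mul hA0] at h6
    exact E4_norm_le_of_nl (hgb z h4.le) h6
  have hrec := rec_zeros (s := S.val) hρ hA0 hga hKa hgb
    (fun a ha => hSre a (by simpa using ha)) hKf harc
  have hsc : (Multiset.card S.val : ℝ) = (nk F b0 k l : ℝ) := by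
    rw [← hcard]; rfl
  rw [hsc] at hrec
  rw [hAe, ← ENNReal.ofReal_add hA0 (by positivity)]
  change _ ≤ Muntz.af u (2 ^ k)
  unfold Muntz.af
  refine le_iInf₂ fun ζ hζ => ?_
  have hpos : ENNReal.ofReal ζ.re ≠ 0 := by
    rw [Ne, ENNReal.ofReal_eq_zero, not_le]
    exact hζ.2
  rw [ENNReal.le_div_iff_mul_le (Or.inl hpos) (Or.inl ENNReal.ofReal_ne_top),
    ← ENNReal.ofReal_mul (by positivity)]
  exact E4_nl_of_norm_le (hrec ζ hζ.2 hζ.1.le)

end MuntzF
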