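import Pool.Agent.Lib.MP_dde81e_full.R3

/-!
Module R20 (text 10.11 (d0)-(d3)): cost of a bottom.
`cst_le`: `min ≤ 1/ht ≤ 1`.  `cost_split`: `V = ht l ≥ 1`, `η' = etp l k`, `etp l (k-9) = 512 η'`, `H = hh (ml X l (k-9))`.  `Alive X e1 K k l` and not
`Alive X e1 K (k-9) l` give one of: (d1) `512 η' > e1`: `cst ≤ 1/2^k ≤ (512/e1) η'/2^k`.  Otherwise `etp l (k-9) ≤ e1`.
(d2) `V > 2^(10 ml)`: `1/V ≤ H^10 ≤ H^(9/10)`, `cst ≤ H^(9/10)/2^k`.
(d3) `De X l (k-9) < ofReal (K 512 η' + K H^(9/10))`: `leafR` at `k-9` (drop the `nk` term): `De X l k ≤ De X l (k-9) + ofReal (A hh(X.lv (k-9) (tl l)))`,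
`hh(X.lv (k-9) (tl l)) ≤ H ≤ H^(9/10)` (`ml_le`), so `cst ≤ (512 K η' + (K+A) H^(9/10))/2^k`.
In (d2), (d3): if `η' ≥ H^(9/10)` the first alternative holds, else the second.
`alive_fin`: `k < N`, `ht l ≤ 2^(10 ml) ≤ 2^N` (`ml ≤ X.lv k (tl l) ≤ k/100`), `|r| = q |b| ≤ 2^N e1 2^N`; finitely many `(k,l)`.
-/

namespace MuntzF
open Set Metric MeasureTheory
open scoped ENNReal

theorem R20_ht (l : Ln) : 1 ≤ ht l := by
  unfold ht
  by_cases h : l.q = 0
  · rw [l.hq h]
    simp
  · have h1 : (1 : ℝ) ≤ l.q := by exact_mod_cast Nat.one_le_iff_ne_zero.2 h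
    exact h1.trans (le_max_left _ _)

theorem R20_etp (l : Ln) (k : ℕ) : 0 ≤ etp l k := by
  unfold etp
  positivity

theorem R20_ml {F : ℂ × ℂ → ℂ} {b0 : ℝ} (X : Ctx F b0) (l : Ln) (k : ℕ) :
    ml X l k ≤ X.lv k (tl l) := by
  apply ml_le X
  rw [sub_self, abs_zero]
  have := R20_etp l k
  linarith

theorem R20_hh_pos (i : ℕ) : 0 < hh i := by
  unfold hh
  positivity

theorem R20_hh_anti {i i' : ℕ} (h : i ≤ i') : hh i' ≤ hh i := by
  unfold hh
  exact pow_le_pow_of_le_one (by norm_num) (by norm_num) h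

theorem R20_hh_one (i : ℕ) : hh i ≤ 1 := by
  unfold hh
  exact pow_le_one₀ (by norm_num) (by norm_num)

theorem R20_hh_rpow (i : ℕ) : hh i ≤ hh i ^ ((9 : ℝ) / 10) := by
  have h1 := Real.rpow_le_rpow_of_exponent_ge (R20_hh_pos i) (R20_hh_one i)
    (show (9 : ℝ) / 10 ≤ 1 by norm_num)
  rwa [Real.rpow_one] at h1

theorem cst_le {F : ℂ × ℂ → ℂ} {b0 : ℝ} (X : Ctx F b0) (l : Ln) (k : ℕ) :
    0 ≤ cst X l k ∧ cst X l k ≤ 1 := by
  unfold cst
  refine ⟨by positivity, ?_⟩
  have h1 := R20_ht l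
  have h2 : (min (De X l k) (ENNReal.ofReal (1 / ht l))).toReal ≤ 1 / ht l := by
    have h3 := ENNReal.toReal_mono (ENNReal.ofReal_ne_top)
      (min_le_right (De X l k) (ENNReal.ofReal (1 / ht l)))
    rwa [ENNReal.toReal_ofReal (by positivity)] at h3
  have h3 : 1 / ht l ≤ 1 := by
    rw [div_le_one (by linarith)]
    exact h1
  have h4 : (1 : ℝ) ≤ 2 ^ k := one_le_pow₀ (by norm_num)
  rw [div_le_one (by positivity)]
  linarith

theorem cost_split {F : ℂ × ℂ → ℂ} {b0 : ℝ} (X : Ctx F b0) : ∃ e0 : ℝ, 0 < e0 ∧ ∀ (e1 K : ℝ), 0 < e1 →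
    e1 ≤ e0 → 0 < K → ∃ (C : ℝ) (k1 : ℕ), 0 < C ∧ ∀ (ks k : ℕ) (l : Ln), k1 ≤ ks → ks + 9 ≤ k →
    Bot X e1 K ks k l →
    cst X l k ≤ C * etp l k / 2 ^ k ∨
    (etp l (k - 9) ≤ e1 ∧ etp l k < hh (ml X l (k - 9)) ^ ((9 : ℝ) / 10) ∧
      cst X l k ≤ C * hh (ml X l (k - 9)) ^ ((9 : ℝ) / 10) / 2 ^ k) := by
  have hb := X.env.cs.hb
  obtain ⟨A, k1, hA, hrec⟩ := leafR X
  refine ⟨1 / (2 * b0), by positivity, ?_⟩
  intro e1 K he1 he0 hK
  refine ⟨512 / e1 + 513 * K + A + 1, k1, by positivity, ?_⟩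
  intro ks k l hks hk hB
  obtain ⟨hal, hb2⟩ := hB
  have hnal : ¬ Alive X e1 K (k - 9) l := by
    rcases hb2 with h | h
    · omega
    · exact h
  have hht := R20_ht l
  have hη := R20_etp l k
  have hk2 : (0 : ℝ) < 2 ^ k := by positivity
  have he9 : etp l (k - 9) = 512 * etp l k := by
    unfold etp
    have : (2 : ℝ) ^ k = 512 * 2 ^ (k - 9) := by
      have h1 : k = 9 + (k - 9) := by omega
      conv_lhs => rw [h1, pow_add]
      norm_num
    rw [this]
    field_simp
  set H : ℝ := hh (ml X l (k - 9)) with hH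
  have hHpos : 0 < H := R20_hh_pos _
  have hH1 : H ≤ 1 := R20_hh_one _
  set H' : ℝ := H ^ ((9 : ℝ) / 10) with hH'
  have hH'pos : 0 < H' := by positivity
  have hHH' : H ≤ H' := R20_hh_rpow _
  set C : ℝ := 512 / e1 + 513 * K + A + 1 with hC
  have hC1 : 512 / e1 ≤ C := by
    have : 0 ≤ 512 / e1 := by positivity
    rw [hC]
    linarith
  have hC2 : 1 ≤ C := by
    have : 0 ≤ 512 / e1 := by positivity
    rw [hC]
    linarith
  have hC3 : 513 * K + A ≤ C := by
    have : 0 ≤ 512 / e1 := by positivity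
    rw [hC]
    linarith
  have hcst : cst X l k ≤ (1 / ht l) / 2 ^ k := by
    unfold cst
    have h3 := ENNReal.toReal_mono (ENNReal.ofReal_ne_top)
      (min_le_right (De X l k) (ENNReal.ofReal (1 / ht l)))
    rw [ENNReal.toReal_ofReal (by positivity)] at h3
    gcongr
  -- (d1)
  by_cases hd1 : e1 < etp l (k - 9)
  · left
    rw [he9] at hd1
    calc cst X l k ≤ (1 / ht l) / 2 ^ k := hcst
      _ ≤ C * etp l k / 2 ^ k := by
          have h1 : 1 / ht l ≤ 1 := by
            rw [div_le_one (by linarith)]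
            exact hht
          have h2 : 1 ≤ (512 / e1) * etp l k := by
            rw [div_mul_eq_mul_div, le_div_iff₀ he1]
            linarith
          have h3 : (512 / e1) * etp l k ≤ C * etp l k := by gcongr
          gcongr
          linarith
  push Not at hd1
  -- common end
  have key : ∀ y : ℝ, cst X l k ≤ y / 2 ^ k → y ≤ (C - (513 * K + A)) * H' + 512 * K * etp l k
      + (K + A) * H' →
      cst X l k ≤ C * etp l k / 2 ^ k ∨
      (etp l (k - 9) ≤ e1 ∧ etp l k < H' ∧ cst X l k ≤ C * H' / 2 ^ k) := by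
    intro y hy1 hy2
    by_cases hc : H' ≤ etp l k
    · left
      refine hy1.trans ?_
      gcongr
      have h1 : (C - (513 * K + A)) * H' ≤ (C - (513 * K + A)) * etp l k :=
        mul_le_mul_of_nonneg_left hc (by linarith)
      have h2 : (K + A) * H' ≤ (K + A) * etp l k := mul_le_mul_of_nonneg_left hc (by linarith)
      nlinarith
    · push Not at hc
      right
      refine ⟨hd1, hc, hy1.trans ?_⟩
      gcongr
      have h2 : 512 * K * etp l k ≤ 512 * K * H' := mul_le_mul_of_nonneg_left hc.le (by positivity)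
      nlinarith
  by_cases hd2 : ht l ≤ 2 ^ (10 * ml X l (k - 9))
  · -- (d3)
    have hd3 : De X l (k - 9) < ENNReal.ofReal (K * etp l (k - 9) + K * H ^ ((9 : ℝ) / 10)) := by
      by_contra hcon
      push Not at hcon
      exact hnal ⟨hal.hq, hal.t1, hal.t2, hd1, hd2, hcon⟩
    have h1 := hrec (k - 9) l (by omega) hal.hq hal.t1 hal.t2 (by
      have h2 : etp l (k - 9) ≤ 1 / (2 * b0) := hd1.trans he0
      rw [le_div_iff₀ (by linarith)] at h2
      linarith)
    rw [show k - 9 + 9 = k by omega] at h1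
    have h2 : De X l k ≤ ENNReal.ofReal (512 * K * etp l k + (K + A) * H') := by
      calc De X l k ≤ De X l k + ENNReal.ofReal ((nk F b0 (k - 9) l : ℝ) / (500 * 2 ^ (k - 9))) :=
            le_self_add
        _ ≤ De X l (k - 9) + ENNReal.ofReal (A * hh (X.lv (k - 9) (tl l))) := h1
        _ ≤ ENNReal.ofReal (K * etp l (k - 9) + K * H ^ ((9 : ℝ) / 10)) +
              ENNReal.ofReal (A * hh (X.lv (k - 9) (tl l))) := by gcongr
        _ = ENNReal.ofReal (K * etp l (k - 9) + K * H ^ ((9 : ℝ) / 10) +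
              A * hh (X.lv (k - 9) (tl l))) := by
            have g1 := R20_etp l (k - 9)
            have g2 := R20_hh_pos (X.lv (k - 9) (tl l))
            exact (ENNReal.ofReal_add (by positivity) (by positivity)).symm
        _ ≤ ENNReal.ofReal (512 * K * etp l k + (K + A) * H') := by
            apply ENNReal.ofReal_le_ofReal
            rw [he9]
            have h3 : hh (X.lv (k - 9) (tl l)) ≤ H := R20_hh_anti (R20_ml X l (k - 9))
            have h4 : A * hh (X.lv (k - 9) (tl l)) ≤ A * H' :=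
              mul_le_mul_of_nonneg_left (h3.trans hHH') (by linarith)
            nlinarith
    apply key (512 * K * etp l k + (K + A) * H')
    · unfold cst
      have h3 := ENNReal.toReal_mono (ENNReal.ofReal_ne_top)
        ((min_le_left (De X l k) (ENNReal.ofReal (1 / ht l))).trans h2)
      rw [ENNReal.toReal_ofReal (by positivity)] at h3
      gcongr
    · have : 0 ≤ (C - (513 * K + A)) * H' := mul_nonneg (by linarith) hH'pos.le
      linarith
  · -- (d2)
    push Not at hd2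
    apply key H'
    · refine hcst.trans ?_
      gcongr
      have h1 : 1 / ht l ≤ 1 / 2 ^ (10 * ml X l (k - 9)) := by
        apply one_div_le_one_div_of_le (by positivity) hd2.le
      have h2 : (1 : ℝ) / 2 ^ (10 * ml X l (k - 9)) ≤ H := by
        rw [hH]
        unfold hh
        rw [one_div_pow]
        apply one_div_le_one_div_of_le (by positivity)
        exact pow_le_pow_right₀ (by norm_num) (by omega)
      linarith
    · have h1 : H' ≤ (C - (513 * K + A)) * H' := by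
        have h2 : 1 ≤ C - (513 * K + A) := by
          have : 0 ≤ 512 / e1 := by positivity
          rw [hC]
          linarith
        nlinarith
      have h3 : 0 ≤ 512 * K * etp l k := by positivity
      have h4 : 0 ≤ (K + A) * H' := by positivity
      linarith

theorem alive_fin {F : ℂ × ℂ → ℂ} {b0 : ℝ} (X : Ctx F b0) (e1 K : ℝ) (N : ℕ) : ∃ C : ℝ,
    ∀ E : Finset (ℕ × Ln), (∀ e ∈ E, e.1 < N ∧ Alive X e1 K e.1 e.2) → (E.card : ℝ) ≤ C := by
  set B : ℕ := ⌈max (2 ^ (10 * N) : ℝ) (e1 * 2 ^ N * 2 ^ (10 * N))⌉₊ with hB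
  set S : Finset (ℕ × ℕ × ℤ × ℤ) := Finset.range N ×ˢ Finset.range (B + 1) ×ˢ
    Finset.Icc (-(B : ℤ)) B ×ˢ Finset.Icc (-(B : ℤ)) B with hS
  refine ⟨S.card, ?_⟩
  intro E hE
  have hB1 : (2 ^ (10 * N) : ℝ) ≤ B := (le_max_left _ _).trans (Nat.le_ceil _)
  have hB2 : e1 * 2 ^ N * 2 ^ (10 * N) ≤ B := (le_max_right _ _).trans (Nat.le_ceil _)
  have : E.card ≤ S.card := by
    apply Finset.card_le_card_of_injOn (fun e => (e.1, e.2.q, e.2.p, e.2.r))
    · intro e he
      obtain ⟨h1, h2⟩ := hE e he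
      have h3 : ml X e.2 e.1 ≤ N := by
        have h4 := R20_ml X e.2 e.1
        have h5 : X.lv e.1 (tl e.2) ≤ e.1 / 100 := lev_le _ _ _ _
        omega
      have h4 : ht e.2 ≤ 2 ^ (10 * N) :=
        h2.hV.trans (pow_le_pow_right₀ (by norm_num) (by omega))
      have hq : (e.2.q : ℝ) ≤ 2 ^ (10 * N) := (le_max_left _ _).trans h4
      have hp : |(e.2.p : ℝ)| ≤ 2 ^ (10 * N) := (le_max_right _ _).trans h4
      have hqB : e.2.q ≤ B := by exact_mod_cast hq.trans hB1
      have hpB : |e.2.p| ≤ (B : ℤ) := by exact_mod_cast hp.trans hB1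
      have hrB : |e.2.r| ≤ (B : ℤ) := by
        have h5 := h2.et
        unfold etp bl at h5
        have hq0 : (0 : ℝ) < e.2.q := by exact_mod_cast Nat.pos_of_ne_zero h2.hq
        rw [div_le_iff₀ (by positivity), abs_div, div_le_iff₀ (by positivity), Nat.abs_cast] at h5
        have he1 : 0 ≤ e1 := (R20_etp e.2 e.1).trans h2.et
        have h6 : e1 * 2 ^ e.1 * (e.2.q : ℝ) ≤ e1 * 2 ^ N * 2 ^ (10 * N) := by
          have h7 : (2 : ℝ) ^ e.1 ≤ 2 ^ N := pow_le_pow_right₀ (by norm_num) h1.le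
          gcongr
        exact_mod_cast (h5.trans h6).trans hB2
      rw [hS]
      simp only [Finset.coe_product, Set.mem_prod, Finset.coe_range, Set.mem_Iio, Finset.coe_Icc,
        Set.mem_Icc]
      exact ⟨h1, by omega, abs_le.1 hpB, abs_le.1 hrB⟩
    · intro e _ e' _ h
      obtain ⟨k, l⟩ := e
      obtain ⟨k', l'⟩ := e'
      simp only [Prod.mk.injEq] at h
      obtain ⟨h1, h2, h3, h4⟩ := h
      obtain ⟨q, p, r, c1, c2⟩ := l
      obtain ⟨q', p', r', c1', c2'⟩ := l'
      simp only at h2 h3 h4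
      subst h1 h2 h3 h4
      rfl
  exact_mod_cast this

end MuntzF
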