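import Pool.Agent.Lib.MP_dde81e_full.R16
import Pool.Agent.Lib.MP_dde81e_full.R20

/-!
Module R21 (text 10.11, Claim D): the sum of the costs of all bottoms.
(d0) the pairs with `k < ks + 9`: `alive_fin` and `cst ≤ 1`.  Others: `cost_split`.
(A) `cst ≤ C etp l k/2^k ≤ (C/7) vol(Dg X (k-2) l)/2^k` (`pay_vol`); `pay_sum` for the pairs `(k-2,l)`.
(B) `θ''` with `|θ''-tl l| ≤ 8 etp l (k-9) = 2^12 etp l k` and `X.lv (k-9) θ'' = ml X l (k-9)` (`ml_att`); `θ'' ∈ I2` (`etp l (k-9) ≤ e1` small), `dd` the window at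
scale `k-9` containing it (`win_cover`); `hh (ml) = hh(X.lv (k-9) θ'') ≤ h'' := hh (X.ij (k-9) dd)` (`win_lev`).  For fixed `(k,dd)`: `charged`: number
`≤ C 2^k h''^(9/10)`, each cost `≤ C h''^(9/10)/2^k`; total `≤ C h''^(9/5) ≤ C h''^(5/3)`; `ws` for the pairs `(k-9,dd)`.
-/

namespace MuntzF
open Set Metric MeasureTheory
open scoped ENNReal

theorem R21_etp {l : Ln} {k : ℕ} (hk : 9 ≤ k) : etp l (k - 9) = 512 * etp l k := by
  unfold etp
  obtain ⟨m, rfl⟩ : ∃ m, k = m + 9 := ⟨k - 9, by omega⟩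
  rw [Nat.add_sub_cancel, pow_add]
  field_simp
  norm_num

theorem R21_hh_pos (i : ℕ) : 0 < hh i := by unfold hh; positivity

theorem R21_hh_anti {i i' : ℕ} (h : i ≤ i') : hh i' ≤ hh i := by
  unfold hh
  exact pow_le_pow_of_le_one (by norm_num) (by norm_num) h

theorem R21_hh_le_one (i : ℕ) : hh i ≤ 1 := by
  unfold hh
  exact pow_le_one₀ (by norm_num) (by norm_num)

theorem R21_etp_nn (l : Ln) (k : ℕ) : 0 ≤ etp l k := by unfold etp; positivity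

/-- the slopes close to `tl l` are in `I2`. -/
theorem R21_I2 {b0 e1 θ : ℝ} {l : Ln} {e : ℝ} (hb : 2 ≤ b0) (he1 : e1 ≤ 1 / (48 * b0))
    (h1 : 5 / (6 * b0) ≤ tl l) (h2 : tl l ≤ 6 * b0 / 5) (he : e ≤ e1) (hθ : |θ - tl l| ≤ 8 * e) :
    θ ∈ I2 b0 := by
  have hb0 : 0 < b0 := by linarith
  have h3 : 8 * e ≤ 1 / (6 * b0) := by
    have h4 : 8 * (1 / (48 * b0)) = 1 / (6 * b0) := by field_simp; norm_num
    linarith
  have h5 : 1 / (6 * b0) ≤ 1 / 12 := by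
    apply one_div_le_one_div_of_le (by norm_num); linarith
  have h6 := abs_le.1 (hθ.trans h3)
  have h7 : 5 / (6 * b0) - 1 / (6 * b0) = 2 / (3 * b0) := by field_simp; norm_num
  constructor
  · linarith [h6.1]
  · linarith [h6.2]

/-- part (A) -/
theorem R21_A {F : ℂ × ℂ → ℂ} {b0 : ℝ} (X : Ctx F b0) : ∃ (e0 K0 C : ℝ) (k1 : ℕ), 0 < e0 ∧ 0 < K0 ∧ 0 < C ∧
    ∀ (e1 K : ℝ), e1 ≤ e0 → K0 ≤ K → ∀ E : Finset (ℕ × Ln),
      (∀ e ∈ E, k1 ≤ e.1 ∧ Alive X e1 K e.1 e.2) → ∑ e ∈ E, etp e.2 e.1 / 2 ^ e.1 ≤ C := by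
  obtain ⟨e0, K0, kp, he0, hK0, hpv⟩ := pay_vol X
  obtain ⟨C, ks, hC, hps⟩ := pay_sum X
  refine ⟨e0, K0, C, max kp (ks + 2), he0, hK0, hC, ?_⟩
  intro e1 K he1 hK E hE
  classical
  set g : ℕ × Ln → ℕ × Ln := fun e => (e.1 - 2, e.2) with hg
  have hk2 : ∀ e ∈ E, 2 ≤ e.1 := by
    intro e he
    have := (hE e he).1
    have := le_max_right kp (ks + 2)
    omega
  have hinj : Set.InjOn g E := by
    intro a ha b hb hab
    have h1 := hk2 a ha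
    have h2 := hk2 b hb
    simp only [hg, Prod.mk.injEq] at hab
    ext
    · omega
    · rw [hab.2]
  have h1 := hps (E.image g) (by
    intro e he
    obtain ⟨a, ha, rfl⟩ := Finset.mem_image.1 he
    have := (hE a ha).1
    have := le_max_right kp (ks + 2)
    simp only [hg]
    omega)
  rw [Finset.sum_image hinj] at h1
  have hnn : ∀ e ∈ E, 0 ≤ etp e.2 e.1 / 2 ^ e.1 := fun e _ =>
    div_nonneg (R21_etp_nn _ _) (by positivity)
  have h2 : ENNReal.ofReal (∑ e ∈ E, etp e.2 e.1 / 2 ^ e.1) ≤ ENNReal.ofReal C := by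
    rw [ENNReal.ofReal_sum_of_nonneg hnn]
    refine le_trans (Finset.sum_le_sum ?_) h1
    intro e he
    obtain ⟨hk, hal⟩ := hE e he
    have h3 := (hpv e1 K e.1 e.2 he1 hK (le_trans (le_max_left _ _) hk) hal).1
    simp only [hg]
    have h4 : etp e.2 e.1 / 2 ^ e.1 ≤ 7 * etp e.2 e.1 / 2 ^ (e.1 - 2) := by
      have h5 : (2 : ℝ) ^ (e.1 - 2) ≤ 2 ^ e.1 := pow_le_pow_right₀ (by norm_num) (Nat.sub_le _ _)
      have h6 := R21_etp_nn e.2 e.1
      calc etp e.2 e.1 / 2 ^ e.1 ≤ etp e.2 e.1 / 2 ^ (e.1 - 2) := by gcongr <;> norm_num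
        _ ≤ 7 * etp e.2 e.1 / 2 ^ (e.1 - 2) := by gcongr; linarith
    refine (ENNReal.ofReal_le_ofReal h4).trans ?_
    rw [ENNReal.ofReal_div_of_pos (by positivity)]
    have h7 : ENNReal.ofReal ((2 : ℝ) ^ (e.1 - 2)) = 2 ^ (e.1 - 2) := by
      rw [ENNReal.ofReal_pow (by norm_num)]
      norm_num
    rw [h7]
    exact ENNReal.div_le_div_right h3 _
  exact (ENNReal.ofReal_le_ofReal_iff hC.le).1 h2

/-- part (B) -/
theorem R21_B {F : ℂ × ℂ → ℂ} {b0 : ℝ} (X : Ctx F b0) : ∃ (e0 K0 C : ℝ) (k1 : ℕ), 0 < e0 ∧ 0 < K0 ∧ 0 < C ∧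
    ∀ (e1 K : ℝ), e1 ≤ e0 → K0 ≤ K → ∀ (C1 : ℝ), 0 ≤ C1 → ∀ E : Finset (ℕ × Ln),
      (∀ e ∈ E, k1 ≤ e.1 ∧ Alive X e1 K e.1 e.2 ∧ etp e.2 (e.1 - 9) ≤ e1 ∧
        etp e.2 e.1 < hh (ml X e.2 (e.1 - 9)) ^ ((9 : ℝ) / 10) ∧
        cst X e.2 e.1 ≤ C1 * hh (ml X e.2 (e.1 - 9)) ^ ((9 : ℝ) / 10) / 2 ^ e.1) →
      ∑ e ∈ E, cst X e.2 e.1 ≤ C1 * C := by
  obtain ⟨ec, K0, Cc, kc, hec, hK0, hCc, hch⟩ := charged X
  obtain ⟨Cw, hCw, hws⟩ := ws X
  have hb : 2 ≤ b0 := X.env.cs.hb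
  have hb0 : 0 < b0 := by linarith
  refine ⟨min ec (1 / (48 * b0)), K0, Cc * Cw, max kc (2 * X.j0 + 109), lt_min hec (by positivity),
    hK0, by positivity, ?_⟩
  intro e1 K he1 hK C1 hC1 E hE
  classical
  have he1c : e1 ≤ ec := he1.trans (min_le_left _ _)
  have he1b : e1 ≤ 1 / (48 * b0) := he1.trans (min_le_right _ _)
  have hw400 : 400 * b0 ≤ 2 ^ X.w0 := le_trans (by linarith) X.hw0
  -- choice of the window
  have hd : ∀ e : ℕ × Ln, ∃ d : ℕ × ℕ, e ∈ E → X.win (e.1 - 9) d ∧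
      X.ij (e.1 - 9) d ≤ ml X e.2 (e.1 - 9) ∧
      ∃ θ ∈ cell d, |θ - tl e.2| ≤ 2 ^ 12 * etp e.2 e.1 := by
    intro e
    by_cases he : e ∈ E
    · obtain ⟨hk, hal, het, -, -⟩ := hE e he
      have hk9 : 2 * X.j0 + 109 ≤ e.1 := le_trans (le_max_right _ _) hk
      obtain ⟨θ, hθ, hlv⟩ := ml_att X e.2 (e.1 - 9)
      have hθ2 : θ ∈ I2 b0 := R21_I2 hb he1b hal.t1 hal.t2 het hθ
      obtain ⟨d, hwd, hθd⟩ := win_cover X.env.cs hw400 (j := e.1 - 9) (by omega) hθ2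
      refine ⟨d, fun _ => ⟨⟨by omega, hwd⟩, ?_, θ, hθd, ?_⟩⟩
      · rw [← hlv]
        exact (win_lev hwd ((cell_sub_st d).1 hθd)).1
      · rw [R21_etp (by omega)] at hθ
        linarith
    · exact ⟨(0, 0), fun h => absurd h he⟩
  choose D hD using hd
  set ψ : ℕ × Ln → ℕ × (ℕ × ℕ) := fun e => (e.1 - 9, D e) with hψ
  have hfib : ∑ e ∈ E, cst X e.2 e.1 =
      ∑ y ∈ E.image ψ, ∑ e ∈ E.filter (fun e => ψ e = y), cst X e.2 e.1 :=
    (Finset.sum_fiberwise_of_maps_to (fun e he => Finset.mem_image_of_mem ψ he) _).symm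
  have hcst : ∀ y ∈ E.image ψ, ∑ e ∈ E.filter (fun e => ψ e = y), cst X e.2 e.1 ≤
      C1 * Cc * hh (X.ij y.1 y.2) ^ ((5 : ℝ) / 3) := by
    intro y hy
    obtain ⟨a, ha, hay⟩ := Finset.mem_image.1 hy
    have hka : 2 * X.j0 + 109 ≤ a.1 := le_trans (le_max_right _ _) (hE a ha).1
    have hkc : kc ≤ a.1 := le_trans (le_max_left _ _) (hE a ha).1
    have hy1 : y.1 = a.1 - 9 := by rw [← hay]
    have hy2 : y.2 = D a := by rw [← hay]
    have hwin := (hD a ha).1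
    set S := E.filter (fun e => ψ e = y) with hS
    have hSm : ∀ e ∈ S, e ∈ E ∧ e.1 = a.1 ∧ D e = D a := by
      intro e he
      obtain ⟨he1, he2⟩ := Finset.mem_filter.1 he
      have hk1 : 2 * X.j0 + 109 ≤ e.1 := le_trans (le_max_right _ _) (hE e he1).1
      have h1 : e.1 - 9 = a.1 - 9 := by rw [← hy1, ← he2]
      have h2 : D e = D a := by rw [← hy2, ← he2]
      exact ⟨he1, by omega, h2⟩
    set h := hh (X.ij (a.1 - 9) (D a)) with hh'
    have hpos : 0 < h := R21_hh_pos _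
    have hle1 : h ≤ 1 := R21_hh_le_one _
    have hml : ∀ e ∈ S, hh (ml X e.2 (e.1 - 9)) ≤ h := by
      intro e he
      obtain ⟨h1, h2, h3⟩ := hSm e he
      have h4 := (hD e h1).2.1
      rw [hh', ← h3, ← h2]
      exact R21_hh_anti h4
    have hml' : ∀ e ∈ S, hh (ml X e.2 (e.1 - 9)) ^ ((9 : ℝ) / 10) ≤ h ^ ((9 : ℝ) / 10) :=
      fun e he => Real.rpow_le_rpow (R21_hh_pos _).le (hml e he) (by norm_num)
    have hcard : (S.card : ℝ) ≤ Cc * 2 ^ a.1 * h ^ ((9 : ℝ) / 10) := by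
      have hinj : Set.InjOn (Prod.snd : ℕ × Ln → Ln) S := by
        intro u hu v hv huv
        have h1 := (hSm u hu).2.1
        have h2 := (hSm v hv).2.1
        exact Prod.ext (by rw [h1, h2]) huv
      have h1 := hch e1 K a.1 (D a) (S.image Prod.snd) he1c hK hkc hwin (by
        intro l hl
        obtain ⟨e, he, rfl⟩ := Finset.mem_image.1 hl
        obtain ⟨h1, h2, h3⟩ := hSm e he
        obtain ⟨-, hal, -, hlt, -⟩ := hE e h1
        refine ⟨by rw [← h2]; exact hal, ?_, ?_⟩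
        · have h5 : etp e.2 a.1 < hh (ml X e.2 (e.1 - 9)) ^ ((9 : ℝ) / 10) := by
            rw [← h2]; exact hlt
          exact lt_of_lt_of_le h5 (hml' e he)
        · obtain ⟨θ, hθ, hθ'⟩ := (hD e h1).2.2
          rw [h3] at hθ
          rw [h2] at hθ'
          exact ⟨θ, hθ, hθ'⟩)
      rwa [Finset.card_image_of_injOn hinj] at h1
    have hsum : ∑ e ∈ S, cst X e.2 e.1 ≤ S.card * (C1 * h ^ ((9 : ℝ) / 10) / 2 ^ a.1) := by
      rw [← nsmul_eq_mul]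
      apply Finset.sum_le_card_nsmul
      intro e he
      obtain ⟨h1, h2, h3⟩ := hSm e he
      obtain ⟨-, -, -, -, hc⟩ := hE e h1
      refine hc.trans ?_
      rw [← h2]
      have := hml' e he
      gcongr
    rw [hy1, hy2, ← hh']
    have h910 : 0 < h ^ ((9 : ℝ) / 10) := Real.rpow_pos_of_pos hpos _
    calc ∑ e ∈ S, cst X e.2 e.1 ≤ S.card * (C1 * h ^ ((9 : ℝ) / 10) / 2 ^ a.1) := hsum
      _ ≤ (Cc * 2 ^ a.1 * h ^ ((9 : ℝ) / 10)) * (C1 * h ^ ((9 : ℝ) / 10) / 2 ^ a.1) := by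
          apply mul_le_mul_of_nonneg_right hcard
          positivity
      _ = C1 * Cc * (h ^ ((9 : ℝ) / 10) * h ^ ((9 : ℝ) / 10)) := by field_simp
      _ ≤ C1 * Cc * h ^ ((5 : ℝ) / 3) := by
          apply mul_le_mul_of_nonneg_left _ (by positivity)
          rw [← Real.rpow_add hpos]
          exact Real.rpow_le_rpow_of_exponent_ge hpos hle1 (by norm_num)
  rw [hfib]
  refine (Finset.sum_le_sum hcst).trans ?_
  rw [← Finset.mul_sum]
  have h1 := hws (E.image ψ) (by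
    intro y hy
    obtain ⟨a, ha, rfl⟩ := Finset.mem_image.1 hy
    exact (hD a ha).1)
  calc C1 * Cc * ∑ y ∈ E.image ψ, hh (X.ij y.1 y.2) ^ ((5 : ℝ) / 3) ≤ C1 * Cc * Cw :=
        mul_le_mul_of_nonneg_left h1 (by positivity)
    _ = C1 * (Cc * Cw) := by ring

theorem claimD {F : ℂ × ℂ → ℂ} {b0 : ℝ} (X : Ctx F b0) : ∃ (e0 K0 : ℝ), 0 < e0 ∧ 0 < K0 ∧
    ∀ (e1 K : ℝ), 0 < e1 → e1 ≤ e0 → K0 ≤ K → ∃ k1 : ℕ, ∀ ks : ℕ, k1 ≤ ks → ∃ C : ℝ,
    ∀ E : Finset (ℕ × Ln), (∀ e ∈ E, ks ≤ e.1 ∧ Bot X e1 K ks e.1 e.2) →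
    ∑ e ∈ E, cst X e.2 e.1 ≤ C := by
  obtain ⟨ea, Ka, Ca, ka, hea, hKa, hCa, hA⟩ := R21_A X
  obtain ⟨eb, Kb, Cb, kb, heb, hKb, hCb, hB⟩ := R21_B X
  obtain ⟨es, hes, hS⟩ := cost_split X
  refine ⟨min (min ea eb) es, max Ka Kb, lt_min (lt_min hea heb) hes, lt_of_lt_of_le hKa (le_max_left _ _), ?_⟩
  intro e1 K he1 he1' hK
  have he1a : e1 ≤ ea := he1'.trans ((min_le_left _ _).trans (min_le_left _ _))
  have he1b : e1 ≤ eb := he1'.trans ((min_le_left _ _).trans (min_le_right _ _))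
  have he1s : e1 ≤ es := he1'.trans (min_le_right _ _)
  have hKa' : Ka ≤ K := (le_max_left _ _).trans hK
  have hKb' : Kb ≤ K := (le_max_right _ _).trans hK
  obtain ⟨C, kc, hC, hsplit⟩ := hS e1 K he1 he1s (hKa.trans_le hKa')
  refine ⟨max kc (max ka kb), fun ks hks => ?_⟩
  have hks1 : kc ≤ ks := (le_max_left _ _).trans hks
  have hks2 : ka ≤ ks := ((le_max_left _ _).trans (le_max_right _ _)).trans hks
  have hks3 : kb ≤ ks := ((le_max_right _ _).trans (le_max_right _ _)).trans hks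
  obtain ⟨Cf, hfin⟩ := alive_fin X e1 K (ks + 9)
  refine ⟨Cf + (C * Ca + C * Cb), fun E hE => ?_⟩
  classical
  rw [← Finset.sum_filter_add_sum_filter_not E (fun e => e.1 < ks + 9)]
  apply add_le_add
  · have h1 : ∑ e ∈ E.filter (fun e => e.1 < ks + 9), cst X e.2 e.1 ≤
        (E.filter (fun e => e.1 < ks + 9)).card * (1 : ℝ) := by
      rw [← nsmul_eq_mul]
      exact Finset.sum_le_card_nsmul _ _ _ (fun e _ => (cst_le X e.2 e.1).2)
    rw [mul_one] at h1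
    refine h1.trans (hfin _ ?_)
    intro e he
    obtain ⟨h2, h3⟩ := Finset.mem_filter.1 he
    exact ⟨h3, (hE e h2).2.1⟩
  · set E2 := E.filter (fun e => ¬ e.1 < ks + 9) with hE2
    rw [← Finset.sum_filter_add_sum_filter_not E2
      (fun e => cst X e.2 e.1 ≤ C * etp e.2 e.1 / 2 ^ e.1)]
    have hE2m : ∀ e ∈ E2, ks + 9 ≤ e.1 ∧ Bot X e1 K ks e.1 e.2 := by
      intro e he
      obtain ⟨h2, h3⟩ := Finset.mem_filter.1 he
      exact ⟨by omega, (hE e h2).2⟩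
    apply add_le_add
    · have h1 : ∑ e ∈ E2.filter (fun e => cst X e.2 e.1 ≤ C * etp e.2 e.1 / 2 ^ e.1), cst X e.2 e.1
          ≤ ∑ e ∈ E2.filter (fun e => cst X e.2 e.1 ≤ C * etp e.2 e.1 / 2 ^ e.1),
            C * (etp e.2 e.1 / 2 ^ e.1) := by
        apply Finset.sum_le_sum
        intro e he
        have := (Finset.mem_filter.1 he).2
        rw [mul_div_assoc] at this
        exact this
      refine h1.trans ?_
      rw [← Finset.mul_sum]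
      apply mul_le_mul_of_nonneg_left _ hC.le
      apply hA e1 K he1a hKa'
      intro e he
      have h2 := hE2m e (Finset.mem_filter.1 he).1
      exact ⟨by omega, h2.2.1⟩
    · apply hB e1 K he1b hKb' C hC.le
      intro e he
      obtain ⟨he1, he2⟩ := Finset.mem_filter.1 he
      obtain ⟨h1, h2⟩ := hE2m e he1
      rcases hsplit ks e.1 e.2 hks1 h1 h2 with h3 | ⟨h3, h4, h5⟩
      · exact absurd h3 he2
      · exact ⟨by omega, h2.1, h3, h4, h5⟩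

end MuntzF
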