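import Pool.Agent.Lib.MP_dde81e_full.R17
import Pool.Agent.Lib.MP_dde81e_full.R18
import Pool.Agent.Lib.MP_dde81e_full.R19
import Pool.Agent.Lib.MP_dde81e_full.R21

/-!
Module R22 (text 10.7-10.11): the contribution of the lines of type N3.
`e1` := minimum of the `e0` of `abel`, `claimD` and `1/(100 b0)`; `K` := maximum of the `K0`; then `κ0` (and `K4`) from `claimA`; the parameter `κ`
of the statement is fixed (`κ ≥ κ0`), `claimB` with this `κ`.  Let `E` be the finite set of triples.  For a fixed `(j,l)`: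
`∑_d nl F b0 j d l ≤ nk F b0 j l` (`nl_add'`, windows at the same scale are disjoint).  Pairs `(j,l)`: alive or needy (`claimA`).  Needy: `claimB`.
Alive: for each `l`, `abel`, with `S` the set of the `j`; then `claimD` for the set of all pairs `(k,l)`, `k ∈ B_l`.
-/

namespace MuntzF
open Set Metric MeasureTheory
open scoped ENNReal

/-- passage from the windows to the pairs (scale, line). -/
theorem R22_fib {F : ℂ × ℂ → ℂ} {b0 : ℝ} (X : Ctx F b0) (E : Finset (ℕ × (ℕ × ℕ) × Ln))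
    (hE : ∀ e ∈ E, X.win e.1 e.2.1) :
    ∑ e ∈ E, (nl F b0 e.1 e.2.1 e.2.2 : ℝ) / 4 ^ e.1 ≤
      ∑ p ∈ E.image (fun e => (e.1, e.2.2)), (nk F b0 p.1 p.2 : ℝ) / 4 ^ p.1 := by
  classical
  rw [← Finset.sum_fiberwise_of_maps_to (g := fun e : ℕ × (ℕ × ℕ) × Ln => (e.1, e.2.2))
    (t := E.image (fun e => (e.1, e.2.2))) (fun e he => Finset.mem_image_of_mem _ he)]
  refine Finset.sum_le_sum fun p _ => ?_
  have h1 : ∀ e ∈ E.filter (fun e => (e.1, e.2.2) = p),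
      (nl F b0 e.1 e.2.1 e.2.2 : ℝ) / 4 ^ e.1 = (nl F b0 p.1 e.2.1 p.2 : ℝ) / 4 ^ p.1 := by
    intro e he
    rw [Finset.mem_filter] at he
    obtain ⟨_, rfl⟩ := he
    rfl
  rw [Finset.sum_congr rfl h1, ← Finset.sum_div]
  refine div_le_div_of_nonneg_right ?_ (by positivity)
  have hinj : Set.InjOn (fun e : ℕ × (ℕ × ℕ) × Ln => e.2.1)
      (E.filter (fun e => (e.1, e.2.2) = p) : Finset (ℕ × (ℕ × ℕ) × Ln)) := by
    intro a ha b hb hab
    rw [Finset.mem_coe, Finset.mem_filter] at ha hb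
    obtain ⟨_, ha⟩ := ha
    obtain ⟨_, hb⟩ := hb
    have h2 : (a.1, a.2.2) = (b.1, b.2.2) := ha.trans hb.symm
    rw [Prod.mk.injEq] at h2
    exact Prod.ext h2.1 (Prod.ext hab h2.2)
  have h3 : ∑ e ∈ E.filter (fun e => (e.1, e.2.2) = p), nl F b0 p.1 e.2.1 p.2 =
      ∑ d ∈ (E.filter (fun e => (e.1, e.2.2) = p)).image (fun e => e.2.1), nl F b0 p.1 d p.2 := by
    rw [Finset.sum_image hinj]
  have h4 : ∑ d ∈ (E.filter (fun e => (e.1, e.2.2) = p)).image (fun e => e.2.1), nl F b0 p.1 d p.2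
      ≤ nk F b0 p.1 p.2 := by
    apply nl_add' F X.env.cs.hb
    intro d hd d' hd' hne
    rw [Finset.mem_image] at hd hd'
    obtain ⟨e, he, rfl⟩ := hd
    obtain ⟨e', he', rfl⟩ := hd'
    rw [Finset.mem_filter] at he he'
    have w1 := hE e he.1
    have w2 := hE e' he'.1
    have e1 : e.1 = e'.1 := by
      have h2 : (e.1, e.2.2) = (e'.1, e'.2.2) := he.2.trans he'.2.symm
      rw [Prod.mk.injEq] at h2
      exact h2.1
    rw [Set.disjoint_iff_inter_eq_empty]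
    by_contra hcon
    rw [← e1] at w2
    exact hne (win_disj w1.2 w2.2 (Set.nonempty_iff_ne_empty.2 hcon))
  have h5 : (∑ e ∈ E.filter (fun e => (e.1, e.2.2) = p), (nl F b0 p.1 e.2.1 p.2 : ℝ)) =
      ((∑ e ∈ E.filter (fun e => (e.1, e.2.2) = p), nl F b0 p.1 e.2.1 p.2 : ℕ) : ℝ) := by
    push_cast
    rfl
  rw [h5, h3]
  exact_mod_cast h4

/-- the alive pairs. -/
theorem R22_alive {F : ℂ × ℂ → ℂ} {b0 : ℝ} (X : Ctx F b0) {e1 K : ℝ} {ks : ℕ} {Ca CD : ℝ} (hCa : 0 < Ca)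
    (ha : ∀ (l : Ln) (S : Finset ℕ), (∀ k ∈ S, ks ≤ k ∧ Alive X e1 K k l) →
      ∃ B : Finset ℕ, (∀ k ∈ B, ks ≤ k ∧ Bot X e1 K ks k l) ∧
      ∑ k ∈ S, (nk F b0 k l : ℝ) / 4 ^ k ≤ Ca * ∑ k ∈ B, cst X l k)
    (hD : ∀ E : Finset (ℕ × Ln), (∀ e ∈ E, ks ≤ e.1 ∧ Bot X e1 K ks e.1 e.2) →
      ∑ e ∈ E, cst X e.2 e.1 ≤ CD)
    (E : Finset (ℕ × Ln)) (hE : ∀ e ∈ E, ks ≤ e.1 ∧ Alive X e1 K e.1 e.2) :
    ∑ p ∈ E, (nk F b0 p.1 p.2 : ℝ) / 4 ^ p.1 ≤ Ca * CD := by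
  classical
  have ha' : ∀ l : Ln, ∃ B : Finset ℕ, (∀ k ∈ B, ks ≤ k ∧ Bot X e1 K ks k l) ∧
      ∑ k ∈ (E.filter (fun e => e.2 = l)).image Prod.fst, (nk F b0 k l : ℝ) / 4 ^ k ≤
        Ca * ∑ k ∈ B, cst X l k := by
    intro l
    apply ha l
    intro k hk
    rw [Finset.mem_image] at hk
    obtain ⟨e, he, rfl⟩ := hk
    rw [Finset.mem_filter] at he
    obtain ⟨h1, rfl⟩ := he
    exact hE e h1
  choose B hB1 hB2 using ha'
  rw [← Finset.sum_fiberwise_of_maps_to (g := fun e : ℕ × Ln => e.2)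
    (t := E.image (fun e => e.2)) (fun e he => Finset.mem_image_of_mem _ he)]
  have h1 : ∀ l ∈ E.image (fun e => e.2), ∑ e ∈ E.filter (fun e => e.2 = l),
      (nk F b0 e.1 e.2 : ℝ) / 4 ^ e.1 ≤ Ca * ∑ k ∈ B l, cst X l k := by
    intro l _
    refine le_trans (le_of_eq ?_) (hB2 l)
    rw [Finset.sum_image]
    · apply Finset.sum_congr rfl
      intro e he
      rw [Finset.mem_filter] at he
      rw [he.2]
    · intro a ha b hb hab
      rw [Finset.mem_coe, Finset.mem_filter] at ha hb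
      exact Prod.ext hab (ha.2.trans hb.2.symm)
  refine le_trans (Finset.sum_le_sum h1) ?_
  rw [← Finset.mul_sum]
  refine mul_le_mul_of_nonneg_left ?_ hCa.le
  have h2 : ∑ l ∈ E.image (fun e => e.2), ∑ k ∈ B l, cst X l k =
      ∑ p ∈ (E.image (fun e => e.2)).biUnion (fun l => (B l).image (fun k => (k, l))), cst X p.2 p.1 := by
    rw [Finset.sum_biUnion]
    · apply Finset.sum_congr rfl
      intro l _
      rw [Finset.sum_image]
      intro a _ b _ hab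
      exact (Prod.mk.injEq _ _ _ _ ▸ hab).1
    · intro l _ l' _ hne
      rw [Function.onFun, Finset.disjoint_left]
      intro p hp hp'
      rw [Finset.mem_image] at hp hp'
      obtain ⟨a, _, rfl⟩ := hp
      obtain ⟨b, _, hb⟩ := hp'
      rw [Prod.mk.injEq] at hb
      exact hne hb.2.symm
  rw [h2]
  apply hD
  intro e he
  rw [Finset.mem_biUnion] at he
  obtain ⟨l, _, hl⟩ := he
  rw [Finset.mem_image] at hl
  obtain ⟨k, hk, rfl⟩ := hl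
  exact hB1 l k hk

theorem sumN3 {F : ℂ × ℂ → ℂ} {b0 : ℝ} (X : Ctx F b0) : ∃ (e1 κ0 : ℝ), 0 < e1 ∧ 100 * b0 * e1 ≤ 1 ∧
    0 < κ0 ∧ ∀ κ : ℝ, κ0 ≤ κ → ∃ (C : ℝ) (k1 : ℕ),
    ∀ E : Finset (ℕ × (ℕ × ℕ) × Ln), (∀ e ∈ E, k1 ≤ e.1 ∧ X.win e.1 e.2.1 ∧ Rich X e.1 e.2.1 e.2.2 ∧
      eta e.2.2 e.1 < e1 / (2 * b0) ∧ κ * eta e.2.2 e.1 * 2 ^ e.1 ≤ nk F b0 e.1 e.2.2) →
    ∑ e ∈ E, (nl F b0 e.1 e.2.1 e.2.2 : ℝ) / 4 ^ e.1 ≤ C := by
  classical
  have hb := X.env.cs.hb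
  obtain ⟨ea, Ka, Ca, ka, hea, hKa, hCa, habel⟩ := abel X
  obtain ⟨ed, Kd, hed, hKd, hcd⟩ := claimD X
  obtain ⟨e1, he1d⟩ : ∃ e1 : ℝ, e1 = min (min ea ed) (1 / (100 * b0)) := ⟨_, rfl⟩
  obtain ⟨K, hKdf⟩ : ∃ K : ℝ, K = max Ka Kd := ⟨_, rfl⟩
  have he1 : 0 < e1 := by
    rw [he1d]
    have : 0 < 1 / (100 * b0) := by positivity
    exact lt_min (lt_min hea hed) this
  have he1a : e1 ≤ ea := by
    rw [he1d]
    exact (min_le_left _ _).trans (min_le_left _ _)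
  have he1b : e1 ≤ ed := by
    rw [he1d]
    exact (min_le_left _ _).trans (min_le_right _ _)
  have he1c : 100 * b0 * e1 ≤ 1 := by
    have h1 : e1 ≤ 1 / (100 * b0) := by
      rw [he1d]
      exact min_le_right _ _
    have h2 : 0 < 100 * b0 := by positivity
    calc 100 * b0 * e1 ≤ 100 * b0 * (1 / (100 * b0)) := mul_le_mul_of_nonneg_left h1 h2.le
      _ = 1 := by field_simp
  have hKa' : Ka ≤ K := by
    rw [hKdf]
    exact le_max_left _ _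
  have hKd' : Kd ≤ K := by
    rw [hKdf]
    exact le_max_right _ _
  have hK : 0 < K := lt_of_lt_of_le hKa hKa'
  obtain ⟨kd, hkd⟩ := hcd e1 K he1 he1b hKd'
  obtain ⟨κ0, K4, kA, hκ0, hK4, hA⟩ := claimA X e1 K he1 he1c hK
  refine ⟨e1, κ0, he1, he1c, hκ0, fun κ hκ => ?_⟩
  obtain ⟨CB, kB, hCB, hB⟩ := claimB X e1 κ K4 he1 he1c (lt_of_lt_of_le hκ0 hκ) hK4
  obtain ⟨CD, hCD⟩ := hkd (ka + kd + kA + kB) (by omega)
  refine ⟨CB + Ca * CD, ka + kd + kA + kB, fun E hE => ?_⟩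
  refine le_trans (R22_fib X E fun e he => (hE e he).2.1) ?_
  rw [← Finset.sum_filter_add_sum_filter_not _ (fun p : ℕ × Ln => ¬ Alive X e1 K p.1 p.2)]
  refine add_le_add ?_ ?_
  · apply hB
    intro p hp
    rw [Finset.mem_filter, Finset.mem_image] at hp
    obtain ⟨⟨e, he, rfl⟩, h2⟩ := hp
    obtain ⟨h3, h4, h5, h6, h7⟩ := hE e he
    refine ⟨by omega, ⟨e.2.1, h4, h5⟩, h6, h7, ?_⟩
    rcases hA κ e.1 e.2.1 e.2.2 hκ (by omega) h4 h5 h6 h7 with h8 | h8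
    · exact absurd h8 h2
    · exact h8
  · refine R22_alive X hCa (fun l S hS => habel e1 K _ l S he1a hKa' (by omega) hS) hCD _ ?_
    intro p hp
    rw [Finset.mem_filter, Finset.mem_image] at hp
    obtain ⟨⟨e, he, rfl⟩, h2⟩ := hp
    exact ⟨(hE e he).1, not_not.1 h2⟩

end MuntzF
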