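import Pool.Agent.Lib.MP_dde81e_full.R11
import Pool.Agent.Lib.MP_dde81e_full.R12
import Pool.Agent.Lib.MP_dde81e_full.R22

/-!
Module R23 (text 10): GOAL10.
Constants: `e1, κ0` from `sumN3`; `e0 = e1/(2b0)` (the parameter `e` of `tri` and `Mx`); `c6 = 1/1024`; `C2 ≥ C2m` (`sumB`), `C2 c6 e0 > 6 b0`,
`κ := c6 C2/2 ≥ κ0`.  Every triple satisfies one of: `nl ≤ C2 min(eta, dl d) 2^j` (`sumD`), the first alternative of `tri`
(`∀ θ ∈ cell U` small level: `sumB`; otherwise `sumC`), the second alternative of `tri` (`sumN3`).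
-/

namespace MuntzF
open Set Metric MeasureTheory
open scoped ENNReal

theorem goal10 {F : ℂ × ℂ → ℂ} {b0 : ℝ} (X : Ctx F b0) : GOAL10 X := by
  classical
  have hb := X.env.cs.hb
  obtain ⟨e1, κ0, he1, he1', hκ0, hN3⟩ := sumN3 X
  obtain ⟨C2m, hC2m, hB⟩ := sumB X
  obtain ⟨e0, he0d⟩ : ∃ e0 : ℝ, e0 = e1 / (2 * b0) := ⟨_, rfl⟩
  have he1s : e1 ≤ 1 / 200 := by
    have : 100 * 2 * e1 ≤ 100 * b0 * e1 := by
      have : 0 ≤ (b0 - 2) * e1 := mul_nonneg (by linarith) he1.le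
      nlinarith
    linarith
  have he0 : 0 < e0 := by
    rw [he0d]
    positivity
  have he0' : 2 * b0 * e0 = e1 := by
    rw [he0d]
    field_simp
  have he0s : e0 ≤ 1 := by
    have : 1 * e0 ≤ 2 * b0 * e0 := mul_le_mul_of_nonneg_right (by linarith) he0.le
    linarith
  obtain ⟨C2, hC2d⟩ : ∃ C2 : ℝ, C2 = C2m + 2048 * κ0 + 1024 * (6 * b0 + 1) / e0 := ⟨_, rfl⟩
  have hp1 : 0 < 1024 * (6 * b0 + 1) / e0 := by positivity
  have hC2 : 0 < C2 := by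
    rw [hC2d]
    positivity
  have hC2a : C2m ≤ C2 := by
    rw [hC2d]
    linarith
  have hC2b : κ0 ≤ 1 / 1024 * C2 / 2 := by
    rw [hC2d]
    linarith
  have hC2c : 6 * b0 < C2 * (1 / 1024) * e0 := by
    have h1 : 1024 * (6 * b0 + 1) / e0 ≤ C2 := by
      rw [hC2d]
      linarith
    have h2 := mul_le_mul_of_nonneg_right h1 he0.le
    rw [div_mul_cancel₀ _ he0.ne'] at h2
    linarith
  obtain ⟨CD, kD, hD⟩ := sumD X C2 hC2
  have h500 : 500 * b0 * (1 / 1024 * e0) ≤ 1 := by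
    have : 500 * b0 * (1 / 1024 * e0) = 250 / 1024 * (2 * b0 * e0) := by ring
    rw [this, he0']
    linarith
  obtain ⟨CB, kB, hB1⟩ := hB (1 / 1024) e0 C2 (by norm_num) (by norm_num) he0 h500 hC2a
  obtain ⟨CC, kC, hC1⟩ := sumC X (1 / 1024) e0 C2 (by norm_num) (by norm_num) he0 h500 hC2
  obtain ⟨CN, kN, hN⟩ := hN3 (1 / 1024 * C2 / 2) hC2b
  refine ⟨CD + (CB + (CC + CN)), kD + (kB + (kC + kN)), fun E hE => ?_⟩
  -- the four types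
  let PD : ℕ × (ℕ × ℕ) × Ln → Prop := fun e =>
    (nl F b0 e.1 e.2.1 e.2.2 : ℝ) ≤ C2 * min (eta e.2.2 e.1) (dl e.2.1) * 2 ^ e.1
  let PB : ℕ × (ℕ × ℕ) × Ln → Prop := fun e =>
    ∃ n, n ≤ e.2.1.1 ∧ Mx F b0 (1 / 1024) e0 C2 e.1 e.2.2 (anc e.2.1 n) ∧
        ∀ θ ∈ cell (anc e.2.1 n), hh (X.lv e.1 θ) < dl (anc e.2.1 n) ^ ((6 : ℝ) / 5)
  let PC : ℕ × (ℕ × ℕ) × Ln → Prop := fun e =>
    ∃ n, n ≤ e.2.1.1 ∧ Mx F b0 (1 / 1024) e0 C2 e.1 e.2.2 (anc e.2.1 n) ∧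
        ∃ θ ∈ cell (anc e.2.1 n), dl (anc e.2.1 n) ^ ((6 : ℝ) / 5) ≤ hh (X.lv e.1 θ)
  have key : ∀ e ∈ E, ¬ PD e → ¬ PB e → ¬ PC e →
      eta e.2.2 e.1 < e1 / (2 * b0) ∧ 1 / 1024 * C2 / 2 * eta e.2.2 e.1 * 2 ^ e.1 ≤ nk F b0 e.1 e.2.2 := by
    intro e _ h1 h2 h3
    rcases tri F hb (c6 := 1 / 1024) (e := e0) (C2 := C2) (by norm_num) (by norm_num) he0 he0s hC2c e.1 e.2.1 e.2.2
      (not_le.1 h1) with ⟨n, hn, hM⟩ | h4
    · exfalso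
      by_cases h5 : ∀ θ ∈ cell (anc e.2.1 n), hh (X.lv e.1 θ) < dl (anc e.2.1 n) ^ ((6 : ℝ) / 5)
      · exact h2 ⟨n, hn, hM, h5⟩
      · push Not at h5
        exact h3 ⟨n, hn, hM, h5⟩
    · rw [← he0d]
      exact h4
  rw [← Finset.sum_filter_add_sum_filter_not E PD]
  rw [← Finset.sum_filter_add_sum_filter_not (E.filter fun e => ¬ PD e) PB]
  rw [← Finset.sum_filter_add_sum_filter_not ((E.filter fun e => ¬ PD e).filter fun e => ¬ PB e) PC]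
  refine add_le_add ?_ (add_le_add ?_ (add_le_add ?_ ?_))
  · apply hD
    intro e he
    rw [Finset.mem_filter] at he
    obtain ⟨h1, h2⟩ := he
    obtain ⟨h3, h4, h5⟩ := hE e h1
    exact ⟨by omega, h4, h5, h2⟩
  · apply hB1
    intro e he
    rw [Finset.mem_filter, Finset.mem_filter] at he
    obtain ⟨⟨h1, h2⟩, h6⟩ := he
    obtain ⟨h3, h4, h5⟩ := hE e h1
    exact ⟨by omega, h4, h5, h6⟩
  · apply hC1
    intro e he
    rw [Finset.mem_filter, Finset.mem_filter, Finset.mem_filter] at he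
    obtain ⟨⟨⟨h1, h2⟩, h6⟩, h7⟩ := he
    obtain ⟨h3, h4, h5⟩ := hE e h1
    exact ⟨by omega, h4, h5, h7⟩
  · apply hN
    intro e he
    rw [Finset.mem_filter, Finset.mem_filter, Finset.mem_filter] at he
    obtain ⟨⟨⟨h1, h2⟩, h6⟩, h7⟩ := he
    obtain ⟨h3, h4, h5⟩ := hE e h1
    obtain ⟨h8, h9⟩ := key e h1 h2 h6 h7
    exact ⟨by omega, h4, h5, h8, h9⟩

end MuntzF
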