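import Pool.Agent.Lib.MP_dde81e_full.R1
import Pool.Agent.Lib.MP_dde81e_full.R2

/-!
Module R3 (text 10.7): the recursion for `De` (positive part of `D_k`), and the minimal level `ml`.
`ml_le`: `Nat.sInf_le`.  `ml_att`: `Nat.sInf_mem` (the set contains `tl l`; `0 ≤ etp`).
`leafR`: with `θ = tl l`, `h = hh (X.lv k θ)`, `n = nk/(500 2^k)`.  `leaf_rec`: `aa_{k+9} + n ≤ aa_k`.
`c_{k+9} ≥ c_k - 512 L h` (`lev_spec` and `c_anti`: `c_k - c_{k+9} ≤ c_{k-4i} - c_{k+4i} ≤ 512 L h` for `i = X.lv k θ ≥ 3`, `i ≤ k/100`).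
`hh (X.lv (k+9) θ) ≤ 2^9 h` (`lev_succ`, nine times).  Case `aa_{k+9} ≥ c_{k+9}`:
`aa_k ≥ c_k + (aa_{k+9} - c_{k+9}) + n - 512 L h`.  Case `aa_{k+9} < c_{k+9}`: `De X l (k+9) = 0` and by `leaf_low` (k+9)
`aa_k ≥ c_{k+9} - (512 L + 1) 2^9 h + n ≥ c_k + n - A h` with `A = 512 L + (512 L + 1) 2^9`.  (`c ≥ 0`, truncated subtraction.)
-/

namespace MuntzF
open Set Metric MeasureTheory
open scoped ENNReal

theorem ml_le {F : ℂ × ℂ → ℂ} {b0 : ℝ} (X : Ctx F b0) {l : Ln} {k : ℕ} {θ : ℝ}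
    (h : |θ - tl l| ≤ 8 * etp l k) : ml X l k ≤ X.lv k θ :=
  Nat.sInf_le ⟨θ, h, rfl⟩

theorem R3_etp_nonneg (l : Ln) (k : ℕ) : 0 ≤ etp l k := by
  unfold etp
  positivity

theorem ml_att {F : ℂ × ℂ → ℂ} {b0 : ℝ} (X : Ctx F b0) (l : Ln) (k : ℕ) :
    ∃ θ : ℝ, |θ - tl l| ≤ 8 * etp l k ∧ X.lv k θ = ml X l k := by
  have h1 : (X.lv k '' {θ : ℝ | |θ - tl l| ≤ 8 * etp l k}).Nonempty := by
    refine ⟨_, tl l, ?_, rfl⟩
    show |tl l - tl l| ≤ 8 * etp l k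
    rw [sub_self, abs_zero]
    have := R3_etp_nonneg l k
    linarith
  obtain ⟨θ, hθ, h2⟩ := Nat.sInf_mem h1
  exact ⟨θ, hθ, h2⟩

theorem R3_lev9 {b0 : ℝ} {c : ℕ → ℝ → ℝ} {j0 : ℕ} {B0 L : ℝ} (h : CSeq b0 c j0 B0 L) {j : ℕ}
    (hj : 2 * j0 + 100 ≤ j) {θ : ℝ} (hθ : θ ∈ I1 b0) (n : ℕ) :
    lev c L j θ ≤ lev c L (j + n) θ + n := by
  induction n with
  | zero => simp
  | succ n ih =>
    have h1 := (lev_succ h (j := j + n) (by omega) hθ).1
    have h2 : j + (n + 1) = j + n + 1 := by ring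
    rw [h2]
    omega

/-- the arithmetic of the recursion. -/
theorem R3_arith {a a' : ℝ≥0∞} {c c' n e A h : ℝ} (hc : 0 ≤ c) (hc' : 0 ≤ c') (hn : 0 ≤ n)
    (hA : 0 ≤ A * h) (h1 : a' + ENNReal.ofReal n ≤ a) (h2 : c ≤ c' + e)
    (h3 : ENNReal.ofReal (c' - (A * h - e)) ≤ a') (he : e ≤ A * h) :
    a' - ENNReal.ofReal c' + ENNReal.ofReal n ≤ a - ENNReal.ofReal c + ENNReal.ofReal (A * h) := by
  by_cases ha : a = ⊤
  · rw [ha, ENNReal.top_sub ENNReal.ofReal_ne_top, top_add]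
    exact le_top
  have ha' : a' ≠ ⊤ := by
    intro h
    rw [h, top_add, top_le_iff] at h1
    exact ha h1
  have e1 : a = ENNReal.ofReal a.toReal := (ENNReal.ofReal_toReal ha).symm
  have e2 : a' = ENNReal.ofReal a'.toReal := (ENNReal.ofReal_toReal ha').symm
  set α := a.toReal with hα
  set α' := a'.toReal with hα'
  have hα0 : 0 ≤ α := ENNReal.toReal_nonneg
  have hα'0 : 0 ≤ α' := ENNReal.toReal_nonneg
  rw [e1, e2, ← ENNReal.ofReal_add hα'0 hn, ENNReal.ofReal_le_ofReal_iff hα0] at h1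
  have h3' : c' - (A * h - e) ≤ α' := by
    rw [e2] at h3
    rcases le_or_gt 0 (c' - (A * h - e)) with h5 | h5
    · exact (ENNReal.ofReal_le_ofReal_iff hα'0).1 h3
    · linarith
  rw [e1, e2, ← ENNReal.ofReal_sub _ hc', ← ENNReal.ofReal_sub _ hc]
  rcases le_or_gt c' α' with h4 | h4
  · rw [← ENNReal.ofReal_add (by linarith) hn]
    refine le_trans (ENNReal.ofReal_le_ofReal ?_) ENNReal.ofReal_add_le
    linarith
  · rw [ENNReal.ofReal_of_nonpos (by linarith : α' - c' ≤ 0), zero_add]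
    refine le_trans (ENNReal.ofReal_le_ofReal ?_) ENNReal.ofReal_add_le
    linarith

theorem leafR {F : ℂ × ℂ → ℂ} {b0 : ℝ} (X : Ctx F b0) : ∃ (A : ℝ) (k1 : ℕ), 1 ≤ A ∧
    ∀ (k : ℕ) (l : Ln), k1 ≤ k → l.q ≠ 0 → 5 / (6 * b0) ≤ tl l → tl l ≤ 6 * b0 / 5 →
    2 * b0 * etp l k ≤ 1 →
    De X l (k + 9) + ENNReal.ofReal ((nk F b0 k l : ℝ) / (500 * 2 ^ k)) ≤
      De X l k + ENNReal.ofReal (A * hh (X.lv k (tl l))) := by
  have hb : 2 ≤ b0 := X.env.cs.hb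
  have hb0 : 0 < b0 := by linarith
  have hL : 1 ≤ X.L := X.env.cs.hL
  have hw0 : 400 * b0 ≤ 2 ^ X.w0 := by linarith [X.hw0]
  obtain ⟨k1, hk1⟩ := leaf_low X
  obtain ⟨j1, hj1⟩ := lev_large X.env.cs hw0 3
  refine ⟨512 * X.L + (512 * X.L + 1) * 2 ^ 9, max (max k1 j1) (2 * X.j0 + 100), by nlinarith, ?_⟩
  intro k l hk hq ht1 ht2 het
  have hkk1 : k1 ≤ k := le_trans (le_max_left _ _) ((le_max_left _ _).trans hk)
  have hkj1 : j1 ≤ k := le_trans (le_max_right _ _) ((le_max_left _ _).trans hk)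
  have hkj0 : 2 * X.j0 + 100 ≤ k := (le_max_right _ _).trans hk
  set θ := tl l with hθ
  have hI2 : θ ∈ I2 b0 := by
    refine ⟨le_trans ?_ ht1, ht2.trans ?_⟩
    · rw [div_le_div_iff₀ (by positivity) (by positivity)]
      nlinarith
    · linarith
  have hI1 : θ ∈ I1 b0 := by
    refine ⟨le_trans ?_ hI2.1, hI2.2.trans (by linarith)⟩
    rw [div_le_div_iff₀ (by positivity) (by positivity)]
    nlinarith
  set i := X.lv k θ with hi
  have hi3 : 3 ≤ i := hj1 k hkj1 θ hI2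
  have hi100 : i ≤ k / 100 := lev_le _ _ _ _
  have hee : ee X.c k i θ ≤ 512 * X.L * (1 / 2) ^ i := lev_spec X.env.cs hkj0 hI1 le_rfl
  unfold ee at hee
  have hc1 := c_anti X.env.cs (j := k - 4 * i) (j' := k) (by omega) (by omega) hI1
  have hc2 := c_anti X.env.cs (j := k + 9) (j' := k + 4 * i) (by omega) (by omega) hI1
  have hck := (X.env.cs.nn k (by omega) θ hI1).1
  have hck9 := (X.env.cs.nn (k + 9) (by omega) θ hI1).1
  have het1 : etp l k ≤ 1 := by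
    have := R3_etp_nonneg l k
    nlinarith
  have het9 : etp l (k + 9) ≤ 1 := by
    refine le_trans ?_ het1
    unfold etp
    refine div_le_div_of_nonneg_left (abs_nonneg _) (by positivity) ?_
    exact pow_le_pow_right₀ (by norm_num) (by omega)
  have hlow := hk1 (k + 9) l (by omega) hq ht1 ht2 het9
  have hh0 : 0 < hh i := by unfold hh; positivity
  have hh9 : hh (X.lv (k + 9) θ) ≤ 2 ^ 9 * hh i := by
    have h1 : i ≤ X.lv (k + 9) θ + 9 := R3_lev9 X.env.cs hkj0 hI1 9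
    unfold hh
    have h2 : ((1 : ℝ) / 2) ^ (X.lv (k + 9) θ + 9) ≤ (1 / 2) ^ i :=
      pow_le_pow_of_le_one (by norm_num) (by norm_num) h1
    rw [pow_add] at h2
    have h3 : ((1 : ℝ) / 2) ^ X.lv (k + 9) θ =
        2 ^ 9 * ((1 / 2) ^ X.lv (k + 9) θ * (1 / 2) ^ 9) := by ring
    rw [h3]
    exact mul_le_mul_of_nonneg_left h2 (by norm_num)
  unfold De
  refine R3_arith (e := 512 * X.L * hh i) hck hck9 (by positivity) (by positivity)
    (leaf_rec X k l hq ht1 ht2 het) ?_ ?_ ?_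
  · have : hh i = (1 / 2) ^ i := rfl
    rw [this]
    linarith
  · refine le_trans (ENNReal.ofReal_le_ofReal ?_) hlow
    have h5 : (512 * X.L + 1) * hh (X.lv (k + 9) θ) ≤ (512 * X.L + 1) * (2 ^ 9 * hh i) :=
      mul_le_mul_of_nonneg_left hh9 (by linarith)
    linarith
  · have h6 : 0 ≤ (512 * X.L + 1) * 2 ^ 9 * hh i := by positivity
    linarith

end MuntzF
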