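import Pool.Agent.Lib.MP_dde81e_full.R4
import Pool.Agent.Lib.MP_dde81e_full.R5
import Pool.Agent.Lib.MP_dde81e_full.E3
import Pool.Agent.Lib.MP_dde81e_full.E5
import Pool.Agent.Lib.MP_dde81e_full.E8

/-!
Module R6 (text 10.1 and 10.11(ii)): PAY and its local version.
`pay_sum`: fix `j`, let `LL` be the set of lines of the pairs with this `j`.  `Dg X j l ⊆ I2` is covered by the cells of the windows at
scale `j` (`win_cover`, finitely many: `win_fin`), so `vol(Dg X j l) ≤ ∑_d vol(Dg X j l ∩ cell d)`, and by `exg` (Icc u v = closure of the cell,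
`u = d.2 dl d`, `v = (d.2+1) dl d`, both in `st d`; `i1 ≤ X.ij j d` by `ij_large`)
`∑_{l ∈ LL} vol(Dg X j l ∩ cell d) ≤ C 2^j ∫_{cell d} kap + h_d^9 2^j`.  The cells of the windows are disjoint (`win_disj`) and inside `I1`
(`EC_st_I1` in ECom), so the sum over `d` is at most `C 2^j ∫_{I1} kap F j + 2^j ∑_d h_d^9`; `ksum` and `ws` (`h^9 ≤ h^(5/3)`).
`pay_cells`: for fixed `(j,l)` the cells are disjoint measurable sets, so `∑_U vol(Dg X j l ∩ cell U) ≤ vol(Dg X j l)` (any set,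
Caratheodory: `measure_inter_add_diff`, or `measure_biUnion` for the restricted outer measure).
`local_pay`: the windows `d` whose cell meets `Icc u v`, at `θ` say: `h_d ≤ 2 hh (X.lv j θ) ≤ 2 M`
(`win_lev`).  `exg` on `Icc u' v' ⊆ st d`, `u' = max u (left end of the cell)`, `v' = max (min v (right end)) (u' + h_d^3)` (inside `st d`
as `h_d^3 ≤ dl d`, see `win_len`): `≤ C 2^j ∫_{Icc u' v'} kap + h_d^9 2^j ≤ C' 2^j (v'-u') h_d + h_d^9 2^j` (`kap_bound`),
`v' - u' ≤ |cell d ∩ Icc u v| + h_d^3`.  Sum over `d`: `∑ |cell d ∩ Icc u v| h_d ≤ 2 M (v-u)`, and `h_d^4 ≤ (2M)^2 h_d ≤ (2M)^2 2^(w0+1) dl d`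
(`win_len`: `h_d ≤ 2 dl d` or `dl d = 2^-w0`), `∑ dl d ≤ 2 b0` (disjoint cells in `I1`).
-/

namespace MuntzF
open Set Metric MeasureTheory
open scoped ENNReal

theorem R6_ends (d : ℕ × ℕ) : (d.2 : ℝ) * dl d ∈ st d ∧ ((d.2 : ℝ) + 1) * dl d ∈ st d := by
  have h := L2_dl_pos d
  unfold st dc
  rw [mem_Icc, mem_Icc]
  refine ⟨⟨?_, ?_⟩, ⟨?_, ?_⟩⟩ <;> nlinarith

theorem R6_w0 {F : ℂ × ℂ → ℂ} {b0 : ℝ} (X : Ctx F b0) : 400 * b0 ≤ 2 ^ X.w0 := by
  have h1 := X.hw0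
  have h2 := X.env.cs.hb
  linarith

theorem R6_wins {F : ℂ × ℂ → ℂ} {b0 : ℝ} (X : Ctx F b0) {j : ℕ} (hj : 2 * X.j0 + 100 ≤ j) :
    ∃ W : Finset (ℕ × ℕ), (∀ d ∈ W, X.win j d) ∧ (∀ θ ∈ I2 b0, ∃ d ∈ W, θ ∈ cell d) ∧
      (∀ d ∈ W, ∀ e ∈ W, d ≠ e → Disjoint (cell d) (cell e)) ∧ ∀ d ∈ W, cell d ⊆ I1 b0 := by
  have hf := win_fin X.env.cs (R6_w0 X) hj
  refine ⟨hf.toFinset, fun d hd => ?_, fun θ hθ => ?_, fun d hd e he hne => ?_, fun d hd θ hθ => ?_⟩
  · exact ⟨hj, by simpa using hd⟩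
  · obtain ⟨d, h1, h2⟩ := win_cover X.env.cs (R6_w0 X) hj hθ
    exact ⟨d, by simpa using h1, h2⟩
  · rw [Set.disjoint_iff_inter_eq_empty]
    by_contra h
    exact hne (win_disj (by simpa using hd) (by simpa using he) (Set.nonempty_iff_ne_empty.2 h))
  · exact EC_st_I1 X (j := j) (d := d) ⟨hj, by simpa using hd⟩ ((cell_sub_st d).1 hθ)

theorem R6_cover {b0 : ℝ} {W : Finset (ℕ × ℕ)} (hc : ∀ θ ∈ I2 b0, ∃ d ∈ W, θ ∈ cell d) {S : Set ℝ}
    (hS : S ⊆ I2 b0) : volume S ≤ ∑ d ∈ W, volume (S ∩ cell d) := by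
  refine (measure_mono ?_).trans (measure_biUnion_finset_le W _)
  intro θ hθ
  obtain ⟨d, hd, h⟩ := hc θ (hS hθ)
  simp only [mem_iUnion]
  exact ⟨d, hd, hθ, h⟩

theorem R6_dis (μ : Measure ℝ) {W : Finset (ℕ × ℕ)}
    (hd : ∀ d ∈ W, ∀ e ∈ W, d ≠ e → Disjoint (cell d) (cell e)) {S : Set ℝ}
    (hS : ∀ d ∈ W, cell d ⊆ S) : ∑ d ∈ W, μ (cell d) ≤ μ S := by
  rw [← measure_biUnion_finset (μ := μ) (s := W) (f := cell) ?_ ?_]
  · refine measure_mono ?_
    intro x hx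
    simp only [mem_iUnion] at hx
    obtain ⟨d, hd, h⟩ := hx
    exact hS d hd h
  · intro d hd' e he hne
    exact hd d hd' e he hne
  · intro d _
    exact measurableSet_Ico

theorem R6_dis' (S : Set ℝ) {W : Finset (ℕ × ℕ)}
    (hd : ∀ d ∈ W, ∀ e ∈ W, d ≠ e → Disjoint (cell d) (cell e)) :
    ∑ d ∈ W, volume (S ∩ cell d) ≤ volume S := by
  have h := R6_dis (volume.restrict S) hd (S := univ) (fun d _ => subset_univ _)
  rw [Measure.restrict_apply_univ] at h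
  refine le_trans (le_of_eq ?_) h
  refine Finset.sum_congr rfl fun d _ => ?_
  have hms : MeasurableSet (cell d) := measurableSet_Ico
  rw [Measure.restrict_apply hms, inter_comm]

theorem R6_int (f : ℝ → ℝ≥0∞) {W : Finset (ℕ × ℕ)}
    (hd : ∀ d ∈ W, ∀ e ∈ W, d ≠ e → Disjoint (cell d) (cell e)) {S : Set ℝ} (hSm : MeasurableSet S)
    (hS : ∀ d ∈ W, cell d ⊆ S) :
    ∑ d ∈ W, ∫⁻ θ in Icc ((d.2 : ℝ) * dl d) (((d.2 : ℝ) + 1) * dl d), f θ ≤ ∫⁻ θ in S, f θ := by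
  have h := R6_dis (volume.withDensity f) hd hS
  rw [withDensity_apply f hSm] at h
  refine le_trans (le_of_eq ?_) h
  refine Finset.sum_congr rfl fun d _ => ?_
  have : MeasurableSet (cell d) := measurableSet_Ico
  rw [withDensity_apply f this]
  unfold cell
  rw [restrict_Ico_eq_restrict_Icc]

theorem R6_hh_pos (i : ℕ) : 0 < hh i := by
  unfold hh
  positivity

theorem R6_hh_one (i : ℕ) : hh i ≤ 1 := by
  unfold hh
  exact pow_le_one₀ (by norm_num) (by norm_num)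

theorem R6_h9 (i : ℕ) : hh i ^ 9 ≤ hh i ^ ((5 : ℝ) / 3) := by
  have h := Real.rpow_le_rpow_of_exponent_ge (R6_hh_pos i) (R6_hh_one i) (show (5 : ℝ) / 3 ≤ (9 : ℕ) by norm_num)
  rwa [Real.rpow_natCast] at h

theorem R6_two (C : ℝ) (hC : 0 ≤ C) (j : ℕ) : ENNReal.ofReal (C * 2 ^ j) = ENNReal.ofReal C * 2 ^ j := by
  rw [ENNReal.ofReal_mul hC, ENNReal.ofReal_pow (by norm_num)]
  simp

theorem R6_cancel (a : ℝ≥0∞) (j : ℕ) : a * 2 ^ j * (2 ^ j)⁻¹ = a := by
  rw [mul_assoc, ENNReal.mul_inv_cancel, mul_one]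
  · positivity
  · exact ENNReal.pow_ne_top (by norm_num)

theorem R6_scale {F : ℂ × ℂ → ℂ} {b0 : ℝ} (X : Ctx F b0) : ∃ (C : ℝ) (k1 : ℕ), 0 < C ∧
    ∀ j, k1 ≤ j → ∃ W : Finset (ℕ × ℕ), (∀ d ∈ W, X.win j d) ∧ ∀ LL : Finset Ln,
      ∑ l ∈ LL, volume (Dg X j l) / 2 ^ j ≤ ENNReal.ofReal C * (∫⁻ θ in I1 b0, kap F j θ) +
        ∑ d ∈ W, ENNReal.ofReal (hh (X.ij j d) ^ ((5 : ℝ) / 3)) := by
  obtain ⟨C, i1, hC, hex⟩ := exg X
  obtain ⟨j1, hj1⟩ := ij_large X i1
  refine ⟨C, max j1 (2 * X.j0 + 100), hC, fun j hj => ?_⟩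
  obtain ⟨W, hW, hcov, hdis, hI1⟩ := R6_wins X (j := j) (le_trans (le_max_right _ _) hj)
  refine ⟨W, hW, fun LL => ?_⟩
  have key : ∑ l ∈ LL, volume (Dg X j l) ≤ ∑ d ∈ W, (ENNReal.ofReal (C * 2 ^ j) *
      (∫⁻ θ in Icc ((d.2 : ℝ) * dl d) (((d.2 : ℝ) + 1) * dl d), kap F j θ) +
        ENNReal.ofReal (hh (X.ij j d) ^ 9 * 2 ^ j)) := by
    calc ∑ l ∈ LL, volume (Dg X j l) ≤ ∑ l ∈ LL, ∑ d ∈ W, volume (Dg X j l ∩ cell d) :=
          Finset.sum_le_sum fun l _ => R6_cover hcov (fun θ hθ => hθ.1)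
      _ = ∑ d ∈ W, ∑ l ∈ LL, volume (Dg X j l ∩ cell d) := Finset.sum_comm
      _ ≤ _ := Finset.sum_le_sum fun d hd => by
          have h := hex j d _ _ LL (hW d hd) (hj1 j d (le_trans (le_max_left _ _) hj) (hW d hd))
            (R6_ends d).1 (R6_ends d).2
          refine le_trans (le_of_eq ?_) h
          refine Finset.sum_congr rfl fun l _ => ?_
          have h5 : Dg X j l ∩ cell d ⊆ Icc ((d.2 : ℝ) * dl d) (((d.2 : ℝ) + 1) * dl d) :=
            fun θ hθ => Ico_subset_Icc_self hθ.2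
          rw [inter_eq_left.2 h5]
  simp only [div_eq_mul_inv]
  rw [← Finset.sum_mul]
  refine (mul_le_mul_left key _).trans ?_
  rw [Finset.sum_add_distrib, ← Finset.mul_sum, add_mul, Finset.sum_mul]
  refine add_le_add ?_ ?_
  · rw [R6_two C hC.le, mul_right_comm, R6_cancel]
    gcongr
    exact R6_int (kap F j) hdis measurableSet_Icc hI1
  · refine Finset.sum_le_sum fun d _ => ?_
    rw [R6_two _ (pow_nonneg (R6_hh_pos _).le _), R6_cancel]
    exact ENNReal.ofReal_le_ofReal (R6_h9 _)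

theorem pay_sum {F : ℂ × ℂ → ℂ} {b0 : ℝ} (X : Ctx F b0) : ∃ (C : ℝ) (k1 : ℕ), 0 < C ∧
    ∀ E : Finset (ℕ × Ln), (∀ e ∈ E, k1 ≤ e.1) →
    ∑ e ∈ E, volume (Dg X e.1 e.2) / 2 ^ e.1 ≤ ENNReal.ofReal C := by
  classical
  obtain ⟨C, k1, hC, hs⟩ := R6_scale X
  obtain ⟨jk, B, hB⟩ := ksum X.env.hF X.env.cs.hb
  obtain ⟨Cw, hCw, hws⟩ := ws X
  refine ⟨C * max B 0 + Cw, max k1 jk, by positivity, fun E hE => ?_⟩
  choose! W hW1 hW2 using hs
  set J := E.image Prod.fst with hJ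
  have hJ1 : ∀ j ∈ J, k1 ≤ j ∧ jk ≤ j := by
    intro j hj
    obtain ⟨e, he, rfl⟩ := Finset.mem_image.1 hj
    exact ⟨(le_max_left _ _).trans (hE e he), (le_max_right _ _).trans (hE e he)⟩
  have h1 : ∑ e ∈ E, volume (Dg X e.1 e.2) / 2 ^ e.1 =
      ∑ j ∈ J, ∑ l ∈ (E.filter fun e => e.1 = j).image Prod.snd, volume (Dg X j l) / 2 ^ j := by
    rw [← Finset.sum_fiberwise_of_maps_to (s := E) (t := J) (g := Prod.fst)
      (fun e he => Finset.mem_image_of_mem _ he)]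
    refine Finset.sum_congr rfl fun j _ => ?_
    rw [Finset.sum_image]
    · refine Finset.sum_congr rfl fun e he => ?_
      rw [(Finset.mem_filter.1 he).2]
    · intro a ha b hb hab
      have h1 := (Finset.mem_filter.1 (Finset.mem_coe.1 ha)).2
      have h2 := (Finset.mem_filter.1 (Finset.mem_coe.1 hb)).2
      exact Prod.ext (h1.trans h2.symm) hab
  rw [h1]
  calc ∑ j ∈ J, ∑ l ∈ (E.filter fun e => e.1 = j).image Prod.snd, volume (Dg X j l) / 2 ^ j
      ≤ ∑ j ∈ J, (ENNReal.ofReal C * (∫⁻ θ in I1 b0, kap F j θ) +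
        ∑ d ∈ W j, ENNReal.ofReal (hh (X.ij j d) ^ ((5 : ℝ) / 3))) :=
        Finset.sum_le_sum fun j hj => hW2 j (hJ1 j hj).1 _
    _ = ENNReal.ofReal C * (∑ j ∈ J, ∫⁻ θ in I1 b0, kap F j θ) +
        ∑ j ∈ J, ∑ d ∈ W j, ENNReal.ofReal (hh (X.ij j d) ^ ((5 : ℝ) / 3)) := by
        rw [Finset.sum_add_distrib, Finset.mul_sum]
    _ ≤ ENNReal.ofReal C * ENNReal.ofReal (max B 0) + ENNReal.ofReal Cw := by
        refine add_le_add ?_ ?_
        · gcongr
          exact (hB J fun j hj => (hJ1 j hj).2).trans (ENNReal.ofReal_le_ofReal (le_max_left _ _))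
        · have h2 : ∑ j ∈ J, ∑ d ∈ W j, ENNReal.ofReal (hh (X.ij j d) ^ ((5 : ℝ) / 3)) =
              ENNReal.ofReal (∑ e ∈ J.sigma W, hh (X.ij e.1 e.2) ^ ((5 : ℝ) / 3)) := by
            rw [ENNReal.ofReal_sum_of_nonneg (fun e _ => Real.rpow_nonneg (R6_hh_pos _).le _),
              Finset.sum_sigma]
          rw [h2]
          refine ENNReal.ofReal_le_ofReal ?_
          have h3 := hws ((J.sigma W).image fun e => (e.1, e.2)) (by
            intro e he
            obtain ⟨a, ha, rfl⟩ := Finset.mem_image.1 he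
            rw [Finset.mem_sigma] at ha
            exact hW1 a.1 (hJ1 a.1 ha.1).1 a.2 ha.2)
          rw [Finset.sum_image] at h3
          · exact h3
          · rintro ⟨a1, a2⟩ _ ⟨b1, b2⟩ _ hab
            simp only [Prod.mk.injEq] at hab
            obtain ⟨rfl, rfl⟩ := hab
            rfl
    _ = ENNReal.ofReal (C * max B 0 + Cw) := by
        rw [← ENNReal.ofReal_mul hC.le, ← ENNReal.ofReal_add (by positivity) hCw.le]

theorem pay_cells {F : ℂ × ℂ → ℂ} {b0 : ℝ} (X : Ctx F b0) : ∃ (C : ℝ) (k1 : ℕ), 0 < C ∧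
    ∀ E : Finset (ℕ × (ℕ × ℕ) × Ln), (∀ e ∈ E, k1 ≤ e.1) →
    (∀ e ∈ E, ∀ e' ∈ E, e.1 = e'.1 → e.2.2 = e'.2.2 → e.2.1 ≠ e'.2.1 →
      Disjoint (cell e.2.1) (cell e'.2.1)) →
    ∑ e ∈ E, volume (Dg X e.1 e.2.2 ∩ cell e.2.1) / 2 ^ e.1 ≤ ENNReal.ofReal C := by
  classical
  obtain ⟨C, k1, hC, hs⟩ := pay_sum X
  refine ⟨C, k1, hC, fun E hE hd => ?_⟩
  set g : ℕ × (ℕ × ℕ) × Ln → ℕ × Ln := fun e => (e.1, e.2.2) with hg
  have h1 := hs (E.image g) (by
    intro e he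
    obtain ⟨a, ha, rfl⟩ := Finset.mem_image.1 he
    exact hE a ha)
  refine le_trans ?_ h1
  rw [← Finset.sum_fiberwise_of_maps_to (s := E) (t := E.image g) (g := g)
    (fun e he => Finset.mem_image_of_mem _ he)]
  refine Finset.sum_le_sum fun p _ => ?_
  set T := (E.filter fun e => g e = p).image (fun e => e.2.1) with hT
  have h2 : ∑ e ∈ E.filter (fun e => g e = p), volume (Dg X e.1 e.2.2 ∩ cell e.2.1) / 2 ^ e.1 =
      ∑ U ∈ T, volume (Dg X p.1 p.2 ∩ cell U) / 2 ^ p.1 := by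
    rw [hT, Finset.sum_image]
    · refine Finset.sum_congr rfl fun e he => ?_
      have h3 := (Finset.mem_filter.1 he).2
      rw [← h3]
    · intro a ha b hb hab
      have h3 := (Finset.mem_filter.1 (Finset.mem_coe.1 ha)).2
      have h4 := (Finset.mem_filter.1 (Finset.mem_coe.1 hb)).2
      have h5 := h3.trans h4.symm
      simp only [hg, Prod.mk.injEq] at h5
      exact Prod.ext h5.1 (Prod.ext hab h5.2)
  rw [h2]
  simp only [div_eq_mul_inv]
  rw [← Finset.sum_mul]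
  refine mul_le_mul_left (R6_dis' _ ?_) _
  intro U hU V hV hne
  obtain ⟨a, ha, rfl⟩ := Finset.mem_image.1 hU
  obtain ⟨b, hb, rfl⟩ := Finset.mem_image.1 hV
  have h3 := (Finset.mem_filter.1 ha)
  have h4 := (Finset.mem_filter.1 hb)
  have h5 := h3.2.trans h4.2.symm
  simp only [hg, Prod.mk.injEq] at h5
  exact hd a h3.1 b h4.1 h5.1 h5.2 hne

/-- one window for the local version. -/
theorem R6_one {F : ℂ × ℂ → ℂ} {b0 : ℝ} (X : Ctx F b0) : ∃ (K : ℝ) (k1 : ℕ), 0 < K ∧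
    ∀ (j : ℕ) (d : ℕ × ℕ) (u v : ℝ) (LL : Finset Ln), k1 ≤ j → X.win j d →
      (cell d ∩ Icc u v).Nonempty →
      ∑ l ∈ LL, volume (Dg X j l ∩ Icc u v ∩ cell d) ≤
        ENNReal.ofReal (K * 2 ^ j * ((volume (cell d ∩ Icc u v)).toReal * hh (X.ij j d)
          + hh (X.ij j d) ^ 4)) := by
  obtain ⟨C, i1, hC, hex⟩ := exg X
  obtain ⟨C', i2, hC', hkb⟩ := kap_bound X
  obtain ⟨j1, hj1⟩ := ij_large X (max (max i1 i2) (X.w0 + 1))
  refine ⟨C * C' + 1, j1, by positivity, fun j d u v LL hj hw hne => ?_⟩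
  have hij := hj1 j d hj hw
  have hi1 : i1 ≤ X.ij j d := ((le_max_left _ _).trans (le_max_left _ _)).trans hij
  have hi2 : i2 ≤ X.ij j d := ((le_max_right _ _).trans (le_max_left _ _)).trans hij
  have hi3 : X.w0 + 1 ≤ X.ij j d := (le_max_right _ _).trans hij
  set h : ℝ := hh (X.ij j d) with hh_def
  have h0 : 0 < h := R6_hh_pos _
  have h1 : h ≤ 1 := R6_hh_one _
  have hdl := L2_dl_pos d
  obtain ⟨θ, ⟨hθ1, hθ2⟩, hθ3, hθ4⟩ := hne
  set a : ℝ := (d.2 : ℝ) * dl d with ha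
  set b : ℝ := ((d.2 : ℝ) + 1) * dl d with hb
  have hab : b = a + dl d := by rw [ha, hb]; ring
  have hdc : dc d = a + dl d / 2 := by rw [ha]; unfold dc; ring
  have h3 : h ^ 3 ≤ dl d := by
    rcases win_len X.env.cs (R6_w0 X) hw.1 hw.2 with h4 | ⟨h4, h5⟩
    · have e1 : dl d = (1 / 2) ^ X.w0 := by unfold dl; rw [h4]
      have e2 : h ≤ (1 / 2) ^ X.w0 := by
        rw [hh_def]
        unfold hh
        exact pow_le_pow_of_le_one (by norm_num) (by norm_num) (by omega)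
      have e3 : h ^ 3 ≤ h := by
        nlinarith [mul_nonneg h0.le (sub_nonneg.2 h1), mul_nonneg (mul_nonneg h0.le h0.le) (sub_nonneg.2 h1)]
      rw [e1]
      exact e3.trans e2
    · have e2 : h ≤ 1 / 2 := by
        rw [hh_def]
        unfold hh
        calc ((1 : ℝ) / 2) ^ (X.ij j d) ≤ (1 / 2) ^ 1 :=
              pow_le_pow_of_le_one (by norm_num) (by norm_num) (by omega)
          _ = 1 / 2 := by norm_num
      have e3 : h ≤ 2 * dl d := h5
      have e4 : h ^ 2 ≤ 1 / 4 := by nlinarith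
      have e5 : h ^ 3 = h ^ 2 * h := by ring
      rw [e5]
      nlinarith
  set u' : ℝ := max u a with hu'
  set v0 : ℝ := min v b with hv0
  set v' : ℝ := max v0 (u' + h ^ 3) with hv'
  have hu'θ : u' ≤ θ := max_le hθ3 hθ1
  have hv0θ : θ ≤ v0 := le_min hθ4 hθ2.le
  have hau : a ≤ u' := le_max_right _ _
  have hvb : v0 ≤ b := min_le_right _ _
  have hh3 : 0 < h ^ 3 := by positivity
  have hus : u' ∈ st d := by
    unfold st
    rw [mem_Icc, hdc]
    constructor <;> linarith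
  have hv'1 : v' ≤ v0 + h ^ 3 := by
    refine max_le (by linarith) (by linarith)
  have hv'2 : u' + h ^ 3 ≤ v' := le_max_right _ _
  have hvs : v' ∈ st d := by
    unfold st
    rw [mem_Icc, hdc]
    constructor <;> linarith
  have hm : v0 - u' ≤ (volume (cell d ∩ Icc u v)).toReal := by
    have e1 : Ico u' v0 ⊆ cell d ∩ Icc u v := by
      intro x hx
      refine ⟨⟨hau.trans hx.1, hx.2.trans_le hvb⟩, (le_max_left _ _).trans hx.1, ?_⟩
      exact hx.2.le.trans (min_le_left _ _)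
    have e2 := measure_mono (μ := volume) e1
    rw [Real.volume_Ico] at e2
    have e3 : volume (cell d ∩ Icc u v) ≠ ⊤ := by
      refine ne_top_of_le_ne_top ?_ (measure_mono (inter_subset_right))
      rw [Real.volume_Icc]
      exact ENNReal.ofReal_ne_top
    exact (ENNReal.ofReal_le_iff_le_toReal e3).1 e2
  have hE := hex j d u' v' LL hw hi1 hus hvs
  have hK := hkb j d u' v' hw hi2 hus hvs (by linarith)
  calc ∑ l ∈ LL, volume (Dg X j l ∩ Icc u v ∩ cell d)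
      ≤ ∑ l ∈ LL, volume (Dg X j l ∩ cell d ∩ Icc u' v') := by
        refine Finset.sum_le_sum fun l _ => measure_mono ?_
        rintro x ⟨⟨hx1, hx2⟩, hx3⟩
        refine ⟨⟨hx1, hx3⟩, max_le hx2.1 hx3.1, ?_⟩
        exact (le_min hx2.2 hx3.2.le).trans (le_max_left _ _)
    _ ≤ ENNReal.ofReal (C * 2 ^ j) * (∫⁻ θ in Icc u' v', kap F j θ)
          + ENNReal.ofReal (h ^ 9 * 2 ^ j) := hE
    _ ≤ ENNReal.ofReal (C * 2 ^ j) * ENNReal.ofReal (C' * (v' - u') * h)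
          + ENNReal.ofReal (h ^ 9 * 2 ^ j) := by gcongr
    _ = ENNReal.ofReal (C * 2 ^ j * (C' * (v' - u') * h) + h ^ 9 * 2 ^ j) := by
        rw [← ENNReal.ofReal_mul (by positivity), ← ENNReal.ofReal_add ?_ (by positivity)]
        have : 0 ≤ v' - u' := by linarith
        positivity
    _ ≤ _ := by
        refine ENNReal.ofReal_le_ofReal ?_
        set m : ℝ := (volume (cell d ∩ Icc u v)).toReal with hmdef
        have hm0 : 0 ≤ m := ENNReal.toReal_nonneg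
        have e1 : v' - u' ≤ m + h ^ 3 := by linarith
        have e2 : (C * C') * ((v' - u') * h) ≤ (C * C') * ((m + h ^ 3) * h) := by gcongr
        have e3 : h ^ 9 ≤ h ^ 4 := pow_le_pow_of_le_one h0.le h1 (by norm_num)
        have e4 : 0 ≤ m * h := by positivity
        have e5 : C * C' * ((v' - u') * h) + h ^ 9 ≤ (C * C' + 1) * (m * h + h ^ 4) := by
          calc C * C' * ((v' - u') * h) + h ^ 9 ≤ (C * C') * ((m + h ^ 3) * h) + h ^ 4 := by linarith
            _ = (C * C' + 1) * (m * h + h ^ 4) - m * h := by ring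
            _ ≤ _ := by linarith
        have e6 := mul_le_mul_of_nonneg_right e5 (show (0 : ℝ) ≤ 2 ^ j by positivity)
        calc C * 2 ^ j * (C' * (v' - u') * h) + h ^ 9 * 2 ^ j
            = (C * C' * ((v' - u') * h) + h ^ 9) * 2 ^ j := by ring
          _ ≤ (C * C' + 1) * (m * h + h ^ 4) * 2 ^ j := e6
          _ = _ := by ring

theorem local_pay {F : ℂ × ℂ → ℂ} {b0 : ℝ} (X : Ctx F b0) : ∃ (C : ℝ) (k1 : ℕ), 0 < C ∧
    ∀ (j : ℕ) (u v M : ℝ) (LL : Finset Ln), k1 ≤ j → u ≤ v → Icc u v ⊆ I2 b0 → 0 < M →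
    (∀ θ ∈ Icc u v, hh (X.lv j θ) ≤ M) →
    ∑ l ∈ LL, volume (Dg X j l ∩ Icc u v) ≤ ENNReal.ofReal (C * 2 ^ j * (M * (v - u) + M ^ 2)) := by
  classical
  obtain ⟨K, k1, hK, hone⟩ := R6_one X
  have hb := X.env.cs.hb
  refine ⟨K * (2 + 4 * (2 ^ (X.w0 + 1) * (2 * b0))), max k1 (2 * X.j0 + 100), by positivity,
    fun j u v M LL hj huv hI hM hlv => ?_⟩
  obtain ⟨W, hW, hcov, hdis, hI1⟩ := R6_wins X (j := j) (le_trans (le_max_right _ _) hj)
  set W' := W.filter (fun d => (cell d ∩ Icc u v).Nonempty) with hW'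
  have hW'1 : ∀ d ∈ W', d ∈ W ∧ (cell d ∩ Icc u v).Nonempty := fun d hd => Finset.mem_filter.1 hd
  set m : ℕ × ℕ → ℝ := fun d => (volume (cell d ∩ Icc u v)).toReal with hm
  have hm0 : ∀ d, 0 ≤ m d := fun d => ENNReal.toReal_nonneg
  have hfin : ∀ d, volume (cell d ∩ Icc u v) ≠ ⊤ := by
    intro d
    refine ne_top_of_le_ne_top ?_ (measure_mono (inter_subset_right))
    rw [Real.volume_Icc]
    exact ENNReal.ofReal_ne_top
  -- sum of the measures
  have hsm : ∑ d ∈ W', m d ≤ v - u := by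
    have e1 := R6_dis' (Icc u v) (W := W') (fun d hd e he hne => hdis d (hW'1 d hd).1 e (hW'1 e he).1 hne)
    rw [Real.volume_Icc] at e1
    have e2 : ∑ d ∈ W', m d = (∑ d ∈ W', volume (Icc u v ∩ cell d)).toReal := by
      rw [ENNReal.toReal_sum]
      · refine Finset.sum_congr rfl fun d _ => ?_
        rw [hm, inter_comm]
      · intro d _
        rw [inter_comm]
        exact hfin d
    rw [e2]
    exact ENNReal.toReal_le_of_le_ofReal (by linarith) e1
  have hsd : ∑ d ∈ W', dl d ≤ 2 * b0 := by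
    have e1 := R6_dis volume (W := W') (S := I1 b0)
      (fun d hd e he hne => hdis d (hW'1 d hd).1 e (hW'1 e he).1 hne) (fun d hd => hI1 d (hW'1 d hd).1)
    have e2 : ∀ d ∈ W', volume (cell d) = ENNReal.ofReal (dl d) := by
      intro d _
      unfold cell
      rw [Real.volume_Ico]
      congr 1
      ring
    rw [Finset.sum_congr rfl e2, ← ENNReal.ofReal_sum_of_nonneg (fun d _ => (L2_dl_pos d).le)] at e1
    have e3 : volume (I1 b0) ≤ ENNReal.ofReal (2 * b0) := by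
      unfold I1
      rw [Real.volume_Icc]
      refine ENNReal.ofReal_le_ofReal ?_
      have : 0 < 1 / (2 * b0) := by positivity
      linarith
    exact (ENNReal.ofReal_le_ofReal_iff (by linarith)).1 (e1.trans e3)
  have hhd : ∀ d ∈ W', hh (X.ij j d) ≤ 2 * M := by
    intro d hd
    obtain ⟨hd1, θ, hθ1, hθ2⟩ := hW'1 d hd
    have e1 := (win_lev (hW d hd1).2 ((cell_sub_st d).1 hθ1)).2
    have e2 := hlv θ hθ2
    have e3 : hh (X.ij j d) / 2 ≤ hh (X.lv j θ) := by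
      unfold hh
      have : ((1 : ℝ) / 2) ^ (X.ij j d + 1) ≤ (1 / 2) ^ (X.lv j θ) :=
        pow_le_pow_of_le_one (by norm_num) (by norm_num) e1
      rw [pow_succ] at this
      linarith
    linarith
  have hhl : ∀ d ∈ W', hh (X.ij j d) ≤ 2 ^ (X.w0 + 1) * dl d := by
    intro d hd
    obtain ⟨hd1, -⟩ := hW'1 d hd
    have hdl := L2_dl_pos d
    rcases win_len X.env.cs (R6_w0 X) (hW d hd1).1 (hW d hd1).2 with h4 | ⟨h4, h5⟩
    · have e1 : dl d = (1 / 2) ^ X.w0 := by unfold dl; rw [h4]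
      have e2 := R6_hh_one (X.ij j d)
      rw [e1, pow_succ, mul_right_comm, ← mul_pow]
      norm_num
      linarith
    · have e3 : hh (X.ij j d) ≤ 2 * dl d := h5
      have e4 : (1 : ℝ) ≤ 2 ^ X.w0 := one_le_pow₀ (by norm_num)
      rw [pow_succ]
      nlinarith
  have hmain : ∑ l ∈ LL, volume (Dg X j l ∩ Icc u v) ≤
      ∑ d ∈ W', ENNReal.ofReal (K * 2 ^ j * (m d * hh (X.ij j d) + hh (X.ij j d) ^ 4)) := by
    calc ∑ l ∈ LL, volume (Dg X j l ∩ Icc u v)
        ≤ ∑ l ∈ LL, ∑ d ∈ W, volume (Dg X j l ∩ Icc u v ∩ cell d) :=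
          Finset.sum_le_sum fun l _ => R6_cover hcov (fun θ hθ => hθ.1.1)
      _ = ∑ d ∈ W, ∑ l ∈ LL, volume (Dg X j l ∩ Icc u v ∩ cell d) := Finset.sum_comm
      _ = ∑ d ∈ W', ∑ l ∈ LL, volume (Dg X j l ∩ Icc u v ∩ cell d) := by
          rw [hW', Finset.sum_filter]
          refine Finset.sum_congr rfl fun d _ => ?_
          split_ifs with h
          · rfl
          · refine Finset.sum_eq_zero fun l _ => ?_
            have : Dg X j l ∩ Icc u v ∩ cell d = ∅ := by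
              rw [Set.eq_empty_iff_forall_notMem]
              rintro x ⟨⟨_, hx2⟩, hx3⟩
              exact h ⟨x, hx3, hx2⟩
            rw [this, measure_empty]
      _ ≤ _ := Finset.sum_le_sum fun d hd =>
          hone j d u v LL ((le_max_left _ _).trans hj) (hW d (hW'1 d hd).1) (hW'1 d hd).2
  refine hmain.trans ?_
  rw [← ENNReal.ofReal_sum_of_nonneg]
  · refine ENNReal.ofReal_le_ofReal ?_
    rw [← Finset.mul_sum]
    have e1 : ∑ d ∈ W', (m d * hh (X.ij j d) + hh (X.ij j d) ^ 4) ≤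
        2 * M * (v - u) + 4 * M ^ 2 * (2 ^ (X.w0 + 1) * (2 * b0)) := by
      rw [Finset.sum_add_distrib]
      refine add_le_add ?_ ?_
      · calc ∑ d ∈ W', m d * hh (X.ij j d) ≤ ∑ d ∈ W', m d * (2 * M) :=
              Finset.sum_le_sum fun d hd => mul_le_mul_of_nonneg_left (hhd d hd) (hm0 d)
          _ = (∑ d ∈ W', m d) * (2 * M) := by rw [Finset.sum_mul]
          _ ≤ (v - u) * (2 * M) := mul_le_mul_of_nonneg_right hsm (by linarith)
          _ = _ := by ring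
      · calc ∑ d ∈ W', hh (X.ij j d) ^ 4 ≤ ∑ d ∈ W', 4 * M ^ 2 * (2 ^ (X.w0 + 1) * dl d) := by
              refine Finset.sum_le_sum fun d hd => ?_
              have f0 := R6_hh_pos (X.ij j d)
              have f1 := R6_hh_one (X.ij j d)
              have f2 := hhd d hd
              have f3 := hhl d hd
              have f4 : hh (X.ij j d) ^ 2 ≤ (2 * M) ^ 2 := pow_le_pow_left₀ f0.le f2 2
              have f5 : hh (X.ij j d) ^ 4 ≤ hh (X.ij j d) ^ 2 * hh (X.ij j d) := by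
                have : hh (X.ij j d) ^ 4 = hh (X.ij j d) ^ 2 * hh (X.ij j d) * hh (X.ij j d) := by ring
                rw [this]
                exact mul_le_of_le_one_right (by positivity) f1
              calc hh (X.ij j d) ^ 4 ≤ hh (X.ij j d) ^ 2 * hh (X.ij j d) := f5
                _ ≤ (2 * M) ^ 2 * (2 ^ (X.w0 + 1) * dl d) := by gcongr
                _ = _ := by ring
          _ = 4 * M ^ 2 * (2 ^ (X.w0 + 1) * ∑ d ∈ W', dl d) := by
              rw [← Finset.mul_sum, ← Finset.mul_sum]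
          _ ≤ _ := by gcongr
    have e2 : 0 ≤ K * 2 ^ j := by positivity
    refine (mul_le_mul_of_nonneg_left e1 e2).trans ?_
    set R : ℝ := 2 ^ (X.w0 + 1) * (2 * b0) with hR
    have hR0 : 0 ≤ R := by positivity
    have hvu : 0 ≤ v - u := by linarith
    have e3 : 2 * M * (v - u) + 4 * M ^ 2 * R ≤ (2 + 4 * R) * (M * (v - u) + M ^ 2) := by
      have g1 : 0 ≤ R * (M * (v - u)) := by positivity
      have g2 : 0 ≤ M ^ 2 := by positivity
      nlinarith
    calc K * 2 ^ j * (2 * M * (v - u) + 4 * M ^ 2 * R)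
        ≤ K * 2 ^ j * ((2 + 4 * R) * (M * (v - u) + M ^ 2)) := mul_le_mul_of_nonneg_left e3 e2
      _ = _ := by ring
  · intro d _
    have := R6_hh_pos (X.ij j d)
    have := hm0 d
    positivity

end MuntzF
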