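import Pool.Agent.Lib.MP_dde81e_full.RDefs
import Pool.Agent.Lib.MP_dde81e_full.L8
import Pool.Agent.Lib.MP_dde81e_full.Z3
import Pool.Agent.Lib.MP_dde81e_full.A7

/-!
Module R8 (text 10.5): depth over a dyadic interval of slopes containing many zeros of the line.
Proof.  `R = 2^j`, `η = eta l j`, `V = ht l`, `κ = (q/V, p/V)` (sup norm 1).  Let `P = (m,n)` be a zero counted by `nl F b0 j U l`,
`θ0 = n/m ∈ cell U ∩ I0`.  `cell U ⊆ I2` as `dl U ≤ 1/(1000 b0)`.  Moving from `P` by real `τ`: `x = m + τ q/V`, slope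
`θ(τ) - θ0 = -τ r/(V m x(τ))`, `|..| = |τ| η R/(m x(τ))`.
(1) For `θ ∈ cell U` the ray of slope `θ` meets the line in one point `x = r/(qθ-p)`: `|qθ0 - p| = |r|/m ≥ η V/2`, `|q(θ-θ0)| ≤ V dl U ≤ ηV/64`.
    It is `x(τ)` with `|τ| ≤ r1 := 5 R dl U/η ≤ (5/64) R`: from `θ - θ0 = -τ r/(V m x)`, `m ≤ 2R`, `x ≤ 5R/2`.  In particular `R/2 ≤ x ≤ 4R`.
    All zeros counted by `nl F b0 j U l` are such points, at distinct `τ ∈ V ℤ`, so their number is `≤ 2 r1/V + 1 ≤ 10 dl U R/(ηV) + 1`.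
(2) For complex `|τ| ≤ 2 r1`: `(z,w) = P + τ κ`, real part = real point with parameter `Re τ`; `Re z ≥ R - 2 r1 ≥ (3/4) R`, `‖z‖, ‖w‖ ≤ 3 b0 R ≤ 2^(j+s0)`,
    slope `θ' = Re w/Re z` with `|θ' - θ0| ≤ 2 r1 η R/(R · 3R/4) ≤ 14 dl U`, so `θ' ∈ I1`.
    `i = U.1`.  If `4 i ≥ s0`: `X.env.low (j+s0) (4i-s0) θ'` gives `‖F(z,w)‖ ≤ exp(-(c_{j+4i}(θ') - err) Re z)`,
    `err = C1 exp(-2^(4i-s0)/C1) ≤ C dl U`, and `c_{j+4i}(θ') ≥ c_{j+4i}(θ0) - 14 L dl U`.  Put `a = c_{j+4i}(θ0) - (14 L + C) dl U`.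
    If `4 i < s0`: `dl U ≥ 2^(-s0/4)`; put `a = 0` (and `c - C5 dl U ≤ 0` for `C5 ≥ B0 2^(s0/4)`).
    `g(τ) = F(z,w) exp(a z)` is analytic near `|τ| ≤ 2 r1`, `|g| ≤ 1`, zero at the `nl` points with `|τ| ≤ r1`.
    `lower` (A7) with `t = 1/2`, radius `2 r1`: `|g| ≤ exp(-c1 nl)` at all `|τ| ≤ r1`, that is
    `‖F(x,θx)‖ ≤ exp(-(a x + c1 nl))`, and `a ≥ c_{j+4i}(θ) - C5 dl U`.
-/

namespace MuntzF
open Set Metric MeasureTheory
open scoped ENNReal

private theorem dl_pos (d : ℕ × ℕ) : 0 < dl d := by unfold dl; positivity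

private theorem ht_pos (l : Ln) : 0 < ht l ∧ (l.q : ℝ) ≤ ht l ∧ |(l.p : ℝ)| ≤ ht l := by
  refine ⟨?_, le_max_left _ _, le_max_right _ _⟩
  rcases Nat.eq_zero_or_pos l.q with h | h
  · have h1 := l.hq h
    refine lt_of_lt_of_le ?_ (le_max_right _ _)
    rw [h1]
    norm_num
  · refine lt_of_lt_of_le ?_ (le_max_left _ _)
    exact_mod_cast h

/-- the exponent `a`. -/
private theorem expo {F : ℂ × ℂ → ℂ} {b0 : ℝ} (X : Ctx F b0) {j : ℕ} (hj : X.j0 ≤ j) (U : ℕ × ℕ)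
    {θ0 : ℝ} (hθ0 : θ0 ∈ I1 b0) : ∃ a : ℝ,
    (∀ θ ∈ I1 b0, |θ - θ0| ≤ dl U → X.c (j + 4 * U.1) θ -
      (15 * X.L + X.C1 ^ 2 * 2 ^ X.s0 + X.B0 * 2 ^ X.s0) * dl U ≤ a) ∧
    ∀ z w : ℂ, ‖z‖ ≤ 2 ^ (j + X.s0) → ‖w‖ ≤ 2 ^ (j + X.s0) → 0 < z.re → 0 < w.re →
      w.re / z.re ∈ I1 b0 → |w.re / z.re - θ0| ≤ 14 * dl U →
      ‖F (z, w)‖ * Real.exp (a * z.re) ≤ 1 := by
  have hcs := X.env.cs
  have hL : 0 < X.L := by linarith [hcs.hL]
  have hB : 0 ≤ X.B0 := hcs.hB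
  have hC1 : 0 < X.C1 := by linarith [X.env.hC1]
  have hd := dl_pos U
  have hs : (0 : ℝ) < 2 ^ X.s0 := by positivity
  rcases le_or_gt X.s0 (4 * U.1) with hcase | hcase
  · set err : ℝ := X.C1 * Real.exp (-(2 ^ (4 * U.1 - X.s0) / X.C1)) with herr
    have herr1 : err ≤ X.C1 ^ 2 * 2 ^ X.s0 * dl U := by
      set y : ℝ := 2 ^ (4 * U.1 - X.s0) with hy
      have hy0 : 0 < y := by positivity
      have h1 : Real.exp (-(y / X.C1)) ≤ X.C1 / y := by
        rw [Real.exp_neg, inv_eq_one_div, div_le_div_iff₀ (Real.exp_pos _) hy0]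
        have h2 := Real.add_one_le_exp (y / X.C1)
        have h3 : y / X.C1 ≤ Real.exp (y / X.C1) := by linarith
        calc 1 * y = X.C1 * (y / X.C1) := by field_simp
          _ ≤ X.C1 * Real.exp (y / X.C1) := by gcongr
      have h4 : (1 : ℝ) / y ≤ 2 ^ X.s0 * dl U := by
        have e : (2 : ℝ) ^ (4 * U.1) = y * 2 ^ X.s0 := by
          rw [hy, ← pow_add]
          congr 1
          omega
        have e2 : (2 : ℝ) ^ X.s0 * dl U * y = 2 ^ (4 * U.1) * (1 / 2) ^ U.1 := by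
          rw [e]; unfold dl; ring
        rw [div_le_iff₀ hy0, e2]
        have e3 : (2 : ℝ) ^ (4 * U.1) * (1 / 2) ^ U.1 = 2 ^ (3 * U.1) := by
          have : (2 : ℝ) ^ (4 * U.1) = 2 ^ (3 * U.1) * 2 ^ U.1 := by rw [← pow_add]; congr 1; ring
          rw [this, mul_assoc, ← mul_pow]
          norm_num
        rw [e3]
        exact one_le_pow₀ (by norm_num)
      calc err ≤ X.C1 * (X.C1 / y) := by rw [herr]; gcongr
        _ = X.C1 ^ 2 * (1 / y) := by ring
        _ ≤ X.C1 ^ 2 * (2 ^ X.s0 * dl U) := by gcongr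
        _ = _ := by ring
    refine ⟨X.c (j + 4 * U.1) θ0 - (14 * X.L + X.C1 ^ 2 * 2 ^ X.s0) * dl U, ?_, ?_⟩
    · intro θ hθ hθθ
      have h1 := (abs_le.1 (hcs.lip (j + 4 * U.1) (by omega) θ hθ θ0 hθ0)).2
      have h2 : X.L * |θ - θ0| ≤ X.L * dl U := by gcongr
      have h3 : 0 ≤ X.B0 * 2 ^ X.s0 * dl U := by positivity
      nlinarith
    · intro z w hz hw hz0 hw0 hI hθ'
      have h1 := X.env.low (j + X.s0) (4 * U.1 - X.s0) (by omega) (w.re / z.re) hI z w hz hw hz0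
        (by field_simp)
      have e : j + X.s0 + (4 * U.1 - X.s0) = j + 4 * U.1 := by omega
      rw [e] at h1
      have h2 := (abs_le.1 (hcs.lip (j + 4 * U.1) (by omega) θ0 hθ0 (w.re / z.re) hI)).2
      have h3 : X.L * |θ0 - w.re / z.re| ≤ X.L * (14 * dl U) := by
        rw [abs_sub_comm]
        gcongr
      have h4 : X.c (j + 4 * U.1) θ0 - (14 * X.L + X.C1 ^ 2 * 2 ^ X.s0) * dl U ≤
          X.c (j + 4 * U.1) (w.re / z.re) - err := by nlinarith
      calc _ ≤ Real.exp (-((X.c (j + 4 * U.1) (w.re / z.re) - err) * z.re)) *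
            Real.exp ((X.c (j + 4 * U.1) θ0 - (14 * X.L + X.C1 ^ 2 * 2 ^ X.s0) * dl U) * z.re) := by
              gcongr
        _ ≤ Real.exp 0 := by
            rw [← Real.exp_add]
            apply Real.exp_le_exp.2
            nlinarith
        _ = 1 := Real.exp_zero
  · refine ⟨0, ?_, ?_⟩
    · intro θ hθ _
      have h1 := (hcs.nn (j + 4 * U.1) (by omega) θ hθ).2
      have h2 : (1 : ℝ) ≤ 2 ^ X.s0 * dl U := by
        have h3 : ((1 : ℝ) / 2) ^ X.s0 ≤ (1 / 2) ^ U.1 :=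
          pow_le_pow_of_le_one (by norm_num) (by norm_num) (by omega)
        calc (1 : ℝ) = 2 ^ X.s0 * (1 / 2) ^ X.s0 := by rw [← mul_pow]; norm_num
          _ ≤ 2 ^ X.s0 * (1 / 2) ^ U.1 := by gcongr
      have h3 : X.B0 * 1 ≤ X.B0 * (2 ^ X.s0 * dl U) := by gcongr
      have h4 : 0 ≤ (15 * X.L + X.C1 ^ 2 * 2 ^ X.s0) * dl U := by positivity
      nlinarith
    · intro z w _ _ hz0 hw0 _ _
      rw [zero_mul, Real.exp_zero, mul_one]
      exact X.env.hF.bound (z, w) (by simp; linarith) (by simp; linarith)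

/-- two lattice points of a line differ by a multiple of `(q,p)`. -/
private theorem lat_diff {l : Ln} {P P' : ℤ × ℤ} (h : onlz l P) (h' : onlz l P') :
    ∃ s : ℤ, P'.1 - P.1 = s * l.q ∧ P'.2 - P.2 = s * l.p := by
  have e : (l.q : ℤ) * (P'.2 - P.2) = l.p * (P'.1 - P.1) := by
    unfold onlz at h h'
    linear_combination h' - h
  rcases Nat.eq_zero_or_pos l.q with hq | hq
  · have hp := l.hq hq
    rw [hq, hp] at e
    refine ⟨P'.2 - P.2, ?_, ?_⟩
    · rw [hq]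
      simp at e ⊢
      linarith
    · rw [hp]; ring
  · have hcop : IsCoprime (l.q : ℤ) l.p := Int.isCoprime_iff_gcd_eq_one.2 l.cop
    have hdvd : (l.q : ℤ) ∣ l.p * (P'.1 - P.1) := ⟨P'.2 - P.2, e.symm⟩
    obtain ⟨s, hs⟩ := hcop.dvd_of_dvd_mul_left hdvd
    refine ⟨s, by rw [hs]; ring, ?_⟩
    have hq0 : (l.q : ℤ) ≠ 0 := by exact_mod_cast hq.ne'
    apply mul_left_cancel₀ hq0
    rw [e, hs]
    ring

theorem depthU {F : ℂ × ℂ → ℂ} {b0 : ℝ} (X : Ctx F b0) : ∃ c5 C5 : ℝ, 0 < c5 ∧ 0 < C5 ∧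
    ∀ (j : ℕ) (U : ℕ × ℕ) (l : Ln), X.j0 ≤ j → 64 * dl U ≤ eta l j → 1000 * b0 * dl U ≤ 1 →
    1 ≤ nl F b0 j U l → cell U ⊆ I2 b0 ∧
    (nl F b0 j U l : ℝ) ≤ 10 * dl U * 2 ^ j / (eta l j * ht l) + 1 ∧
    ∀ θ ∈ cell U, ∃ x : ℝ, 2 ^ j / 2 ≤ x ∧ x ≤ 4 * 2 ^ j ∧ onl l x (θ * x) ∧
      ‖F ((x : ℂ), ((θ * x : ℝ) : ℂ))‖ ≤
        Real.exp (-(x * (X.c (j + 4 * U.1) θ - C5 * dl U) + c5 * nl F b0 j U l)) := by
  classical
  obtain ⟨c1, hc1, hlow⟩ := lower (1 / 2) (by norm_num) (by norm_num)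
  have hcs := X.env.cs
  have hb : 2 ≤ b0 := hcs.hb
  have hb0 : 0 < b0 := by linarith
  have hL : 0 < X.L := by linarith [hcs.hL]
  have hB : 0 ≤ X.B0 := hcs.hB
  have hC1 : 0 < X.C1 := by linarith [X.env.hC1]
  refine ⟨c1, 15 * X.L + X.C1 ^ 2 * 2 ^ X.s0 + X.B0 * 2 ^ X.s0, hc1, by positivity, ?_⟩
  intro j U l hj hη hdb hnl
  have hd := dl_pos U
  obtain ⟨hV, hqV, hpV⟩ := ht_pos l
  set R : ℝ := 2 ^ j with hR
  have hR0 : 0 < R := by positivity
  set V : ℝ := ht l with hVd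
  set η : ℝ := eta l j with hηd
  have hη0 : 0 < η := by linarith
  have hr : |(l.r : ℝ)| = η * V * R := by
    have hV' : V ≠ 0 := hV.ne'
    have hR' : R ≠ 0 := hR0.ne'
    have h : η = |(l.r : ℝ)| / (V * R) := by
      rw [hηd, hVd, hR]; unfold eta; rfl
    rw [h]
    field_simp
  have hr0 : (l.r : ℝ) ≠ 0 := by
    intro h
    rw [h, abs_zero] at hr
    have : 0 < η * V * R := by positivity
    linarith
  -- the finite set of zeros
  set Sz : Set (ℤ × ℤ) := {P | P ∈ Zc F b0 j U ∧ onlz l P} with hSz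
  have hSfin : Sz.Finite := (zc_finite F hb j U).subset (fun P hP => hP.1)
  have hncard : nl F b0 j U l = hSfin.toFinset.card := by
    unfold nl
    exact Set.ncard_eq_toFinset_card _ hSfin
  have hne : Sz.Nonempty := by
    rw [Set.nonempty_iff_ne_empty]
    intro h
    unfold nl at hnl
    rw [show {P | P ∈ Zc F b0 j U ∧ onlz l P} = Sz from rfl, h, Set.ncard_empty] at hnl
    omega
  obtain ⟨P, ⟨hPz, hPl⟩⟩ := hne
  obtain ⟨⟨hP1, hPI, hPF⟩, hP2, hP3, hPc⟩ := hPz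
  set m : ℝ := (P.1 : ℝ) with hm
  set n : ℝ := (P.2 : ℝ) with hn
  have hmR : R ≤ m := by rw [hR, hm]; exact_mod_cast hP2
  have hm2R : m ≤ 2 * R := by
    have : m < 2 ^ (j + 1) := by rw [hm]; exact_mod_cast hP3
    rw [pow_succ] at this
    rw [hR]; linarith
  have hm0 : 0 < m := by linarith
  set θ0 : ℝ := n / m with hθ0
  have hnm : n = θ0 * m := by rw [hθ0]; field_simp
  have hline : (l.q : ℝ) * n - l.p * m = l.r := by
    have := hPl
    unfold onlz at this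
    rw [hn, hm]
    exact_mod_cast this
  have hθI0 : θ0 ∈ I0 b0 := hPI
  have hθb : 1 / b0 ≤ θ0 ∧ θ0 ≤ b0 := hθI0
  have hθpos : 0 < θ0 := lt_of_lt_of_le (by positivity) hθb.1
  have hdle : dl U ≤ 1 / (1000 * b0) := by
    rw [le_div_iff₀ (by positivity)]
    linarith
  have hdb2 : dl U ≤ 1 / b0 / 1000 := by
    refine hdle.trans (le_of_eq ?_)
    field_simp
  have hib : 0 < 1 / b0 := by positivity
  have hib1 : 1 / b0 ≤ 1 / 2 := by
    apply one_div_le_one_div_of_le (by norm_num) hb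
  have hclose : ∀ θ ∈ cell U, |θ - θ0| ≤ dl U := by
    intro θ hθ
    obtain ⟨a1, a2⟩ := hθ
    obtain ⟨a3, a4⟩ := (hPc : θ0 ∈ cell U)
    have e : ((U.2 : ℝ) + 1) * dl U = U.2 * dl U + dl U := by ring
    rw [abs_le]
    constructor <;> linarith
  have hnear : ∀ θ : ℝ, |θ - θ0| ≤ 14 * dl U → θ ∈ I1 b0 := by
    intro θ hθ
    obtain ⟨a1, a2⟩ := abs_le.1 hθ
    have e : 1 / (2 * b0) = 1 / b0 / 2 := by field_simp
    refine ⟨?_, ?_⟩
    · show 1 / (2 * b0) ≤ θ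
      rw [e]
      linarith [hθb.1]
    · linarith [hθb.2]
  have hcellI2 : cell U ⊆ I2 b0 := by
    intro θ hθ
    obtain ⟨a1, a2⟩ := abs_le.1 (hclose θ hθ)
    have e : 2 / (3 * b0) = 1 / b0 * (2 / 3) := by field_simp
    refine ⟨?_, ?_⟩
    · show 2 / (3 * b0) ≤ θ
      rw [e]
      linarith [hθb.1]
    · linarith [hθb.2]
  have hθ0I1 : θ0 ∈ I1 b0 := hnear θ0 (by simp; positivity)
  obtain ⟨a, ha1, ha2⟩ := expo X hj U hθ0I1
  -- the radius
  set r1 : ℝ := 5 * R * dl U / η with hr1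
  have hr1pos : 0 < r1 := by positivity
  have hr1R : r1 ≤ 5 / 64 * R := by
    rw [hr1, div_le_iff₀ hη0]
    nlinarith
  have hr1η : r1 * η = 5 * R * dl U := by rw [hr1]; field_simp
  -- the point with slope θ
  have hpoint : ∀ θ : ℝ, |θ - θ0| ≤ dl U → ∃ x τ : ℝ, R / 2 ≤ x ∧ x ≤ 4 * R ∧
      x = m + τ * (l.q / V) ∧ θ * x = n + τ * (l.p / V) ∧ |τ| ≤ r1 := by
    intro θ hθ
    set ε : ℝ := l.q * (θ - θ0) * m / l.r with hε
    have hε1 : |ε| ≤ 1 / 32 := by
      rw [hε, abs_div, abs_mul, abs_mul, hr, div_le_iff₀ (by positivity)]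
      have h1 : |(l.q : ℝ)| ≤ V := by rw [abs_of_nonneg (by positivity)]; exact hqV
      have h2 : |m| ≤ 2 * R := by rw [abs_of_pos hm0]; exact hm2R
      calc |(l.q : ℝ)| * |θ - θ0| * |m| ≤ V * dl U * (2 * R) := by gcongr
        _ ≤ V * (η / 64) * (2 * R) := by gcongr; linarith
        _ = 1 / 32 * (η * V * R) := by ring
    obtain ⟨b1, b2⟩ := abs_le.1 hε1
    have hε0 : 0 < 1 + ε := by linarith
    set x : ℝ := m / (1 + ε) with hx
    have hxm : x * (1 + ε) = m := by rw [hx]; field_simp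
    have hx0 : 0 < x := by positivity
    have hx1 : x ≤ 32 / 31 * m := by
      rw [hx, div_le_iff₀ hε0]
      nlinarith
    have hx2 : 31 / 33 * m ≤ x := by
      rw [hx, le_div_iff₀ hε0]
      nlinarith
    refine ⟨x, -((θ - θ0) * V * x * m / l.r), by linarith, by linarith, ?_, ?_, ?_⟩
    · have h0 : x = m - ε * x := by linarith
      have h1 : ε * x = (θ - θ0) * V * x * m / l.r * (l.q / V) := by
        rw [hε]
        field_simp
      linarith
    · have e1 : θ * x - n = (θ - θ0) * x * (1 - θ0 * (l.q * m / l.r)) := by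
        have e2 : x - m = -(ε * x) := by linarith
        calc θ * x - n = (θ - θ0) * x + θ0 * (x - m) := by rw [hnm]; ring
          _ = (θ - θ0) * x + θ0 * (-(l.q * (θ - θ0) * m / l.r * x)) := by rw [e2, hε]
          _ = _ := by ring
      have e3 : 1 - θ0 * (l.q * m / l.r) = -(l.p * m / l.r) := by
        have : θ0 * (l.q * m / l.r) = l.q * n / l.r := by rw [hnm]; ring
        rw [this]
        field_simp
        linarith
      rw [e3] at e1
      have : θ * x = n + (θ - θ0) * x * -(l.p * m / l.r) := by linarith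
      rw [this]
      field_simp
    · rw [abs_neg, abs_div, abs_mul, abs_mul, abs_mul, hr, abs_of_pos hV, abs_of_pos hx0,
        abs_of_pos hm0, div_le_iff₀ (by positivity)]
      have hx3 : x ≤ 5 / 2 * R := by linarith
      calc |θ - θ0| * V * x * m ≤ dl U * V * (5 / 2 * R) * (2 * R) := by gcongr
        _ = (r1 * η) * V * R := by rw [hr1η]; ring
        _ = r1 * (η * V * R) := by ring
  -- the analytic function
  set g : ℂ → ℂ := fun τ => F ((m : ℂ) + τ * ((l.q / V : ℝ) : ℂ), (n : ℂ) + τ * ((l.p / V : ℝ) : ℂ)) *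
    Complex.exp ((a : ℂ) * ((m : ℂ) + τ * ((l.q / V : ℝ) : ℂ))) with hg
  have hκq : |(l.q : ℝ) / V| ≤ 1 := by
    rw [abs_div, abs_of_pos hV, div_le_one hV, abs_of_nonneg (by positivity)]
    exact hqV
  have hκp : |(l.p : ℝ) / V| ≤ 1 := by
    rw [abs_div, abs_of_pos hV, div_le_one hV]
    exact hpV
  have hgeo : ∀ τ : ℂ, ‖τ‖ ≤ 2 * r1 →
      0 < ((m : ℂ) + τ * ((l.q / V : ℝ) : ℂ)).re ∧ 0 < ((n : ℂ) + τ * ((l.p / V : ℝ) : ℂ)).re ∧
      ‖(m : ℂ) + τ * ((l.q / V : ℝ) : ℂ)‖ ≤ 2 ^ (j + X.s0) ∧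
      ‖(n : ℂ) + τ * ((l.p / V : ℝ) : ℂ)‖ ≤ 2 ^ (j + X.s0) ∧
      |((n : ℂ) + τ * ((l.p / V : ℝ) : ℂ)).re / ((m : ℂ) + τ * ((l.q / V : ℝ) : ℂ)).re - θ0|
        ≤ 14 * dl U := by
    intro τ hτ
    set t : ℝ := τ.re with ht
    have htτ : |t| ≤ 2 * r1 := (Complex.abs_re_le_norm τ).trans hτ
    have ez : ((m : ℂ) + τ * ((l.q / V : ℝ) : ℂ)).re = m + t * (l.q / V) := by
      rw [Complex.add_re, Complex.re_mul_ofReal, Complex.ofReal_re]
    have ew : ((n : ℂ) + τ * ((l.p / V : ℝ) : ℂ)).re = n + t * (l.p / V) := by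
      rw [Complex.add_re, Complex.re_mul_ofReal, Complex.ofReal_re]
    rw [ez, ew]
    have h1 : |t * (l.q / V)| ≤ 2 * r1 := by
      rw [abs_mul]
      calc |t| * |(l.q : ℝ) / V| ≤ 2 * r1 * 1 := by gcongr
        _ = _ := mul_one _
    obtain ⟨h2, h3⟩ := abs_le.1 h1
    set x : ℝ := m + t * (l.q / V) with hx
    have hx0 : 3 / 4 * R ≤ x := by linarith
    have hxpos : 0 < x := by linarith
    have hslope : (n + t * (l.p / V)) / x - θ0 = -(t * l.r / (V * x * m)) := by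
      have e : n + t * (l.p / V) - θ0 * x = -(t * l.r / (V * m)) := by
        rw [hx, ← hline, hnm]
        field_simp
        ring
      have : (n + t * (l.p / V)) / x - θ0 = (n + t * (l.p / V) - θ0 * x) / x := by
        field_simp
      rw [this, e]
      field_simp
    have hsl : |(n + t * (l.p / V)) / x - θ0| ≤ 14 * dl U := by
      rw [hslope, abs_neg, abs_div, abs_mul, abs_mul, abs_mul, hr, abs_of_pos hV,
        abs_of_pos hxpos, abs_of_pos hm0, div_le_iff₀ (by positivity)]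
      calc |t| * (η * V * R) ≤ 2 * r1 * (η * V * R) := by gcongr
        _ = 2 * (r1 * η) * V * R := by ring
        _ = 10 * dl U * V * (R * R) := by rw [hr1η]; ring
        _ ≤ 14 * dl U * V * ((3 / 4 * R) * R) := by
            have : 0 ≤ dl U * V * (R * R) := by positivity
            nlinarith
        _ ≤ 14 * dl U * V * (x * m) := by gcongr
        _ = _ := by ring
    have hθ' := hnear _ hsl
    have hsl0 : 0 < (n + t * (l.p / V)) / x := by
      have : (1 : ℝ) / (2 * b0) ≤ (n + t * (l.p / V)) / x := hθ'.1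
      exact lt_of_lt_of_le (by positivity) this
    have hyp : 0 < n + t * (l.p / V) := by
      have := mul_pos hsl0 hxpos
      rwa [div_mul_cancel₀ _ hxpos.ne'] at this
    have hnb : n ≤ b0 * (2 * R) := by
      rw [hnm]
      exact mul_le_mul hθb.2 hm2R hm0.le hb0.le
    have hn0 : 0 < n := by rw [hnm]; positivity
    have hs0 : 3 * b0 * R ≤ 2 ^ (j + X.s0) := by
      rw [pow_add, ← hR]
      have h5 := X.hs0
      have h6 : 3 * b0 ≤ 2 ^ X.s0 := by
        refine le_trans ?_ h5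
        nlinarith
      nlinarith
    refine ⟨hxpos, hyp, ?_, ?_, hsl⟩
    · calc ‖(m : ℂ) + τ * ((l.q / V : ℝ) : ℂ)‖ ≤ ‖(m : ℂ)‖ + ‖τ * ((l.q / V : ℝ) : ℂ)‖ :=
            norm_add_le _ _
        _ = m + ‖τ‖ * |(l.q : ℝ) / V| := by
            rw [norm_mul, Complex.norm_real, Complex.norm_real, Real.norm_eq_abs, Real.norm_eq_abs,
              abs_of_pos hm0]
        _ ≤ 2 * R + 2 * r1 * 1 := by gcongr
        _ ≤ 3 * b0 * R := by nlinarith
        _ ≤ _ := hs0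
    · calc ‖(n : ℂ) + τ * ((l.p / V : ℝ) : ℂ)‖ ≤ ‖(n : ℂ)‖ + ‖τ * ((l.p / V : ℝ) : ℂ)‖ :=
            norm_add_le _ _
        _ = n + ‖τ‖ * |(l.p : ℝ) / V| := by
            rw [norm_mul, Complex.norm_real, Complex.norm_real, Real.norm_eq_abs, Real.norm_eq_abs,
              abs_of_pos hn0]
        _ ≤ b0 * (2 * R) + 2 * r1 * 1 := by gcongr
        _ ≤ 3 * b0 * R := by nlinarith
        _ ≤ _ := hs0
  have hDF : DF g 0 (2 * r1) := by
    constructor
    · intro τ hτ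
      rw [mem_closedBall, dist_zero_right] at hτ
      obtain ⟨g1, g2, _, _, _⟩ := hgeo τ hτ
      have hopen : IsOpen {p : ℂ × ℂ | -1 < p.1.re ∧ -1 < p.2.re} := by
        have i1 : IsOpen {p : ℂ × ℂ | -1 < p.1.re} := isOpen_lt continuous_const (by fun_prop)
        have i2 : IsOpen {p : ℂ × ℂ | -1 < p.2.re} := isOpen_lt continuous_const (by fun_prop)
        exact i1.inter i2
      have hopen2 : IsOpen {τ : ℂ | -1 < ((m : ℂ) + τ * ((l.q / V : ℝ) : ℂ)).re ∧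
          -1 < ((n : ℂ) + τ * ((l.p / V : ℝ) : ℂ)).re} := by
        have i1 : IsOpen {τ : ℂ | -1 < ((m : ℂ) + τ * ((l.q / V : ℝ) : ℂ)).re} :=
          isOpen_lt continuous_const (by fun_prop)
        have i2 : IsOpen {τ : ℂ | -1 < ((n : ℂ) + τ * ((l.p / V : ℝ) : ℂ)).re} :=
          isOpen_lt continuous_const (by fun_prop)
        exact i1.inter i2
      have hdiff : DifferentiableOn ℂ g {τ : ℂ | -1 < ((m : ℂ) + τ * ((l.q / V : ℝ) : ℂ)).re ∧
          -1 < ((n : ℂ) + τ * ((l.p / V : ℝ) : ℂ)).re} := by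
        intro τ' hτ'
        have hp : ((m : ℂ) + τ' * ((l.q / V : ℝ) : ℂ), (n : ℂ) + τ' * ((l.p / V : ℝ) : ℂ)) ∈
            {p : ℂ × ℂ | -1 < p.1.re ∧ -1 < p.2.re} := hτ'
        have h1 : DifferentiableAt ℂ F
            ((m : ℂ) + τ' * ((l.q / V : ℝ) : ℂ), (n : ℂ) + τ' * ((l.p / V : ℝ) : ℂ)) :=
          (X.env.hF.diff _ hp).differentiableAt (hopen.mem_nhds hp)
        have h2 : DifferentiableAt ℂ (fun τ : ℂ =>
            ((m : ℂ) + τ * ((l.q / V : ℝ) : ℂ), (n : ℂ) + τ * ((l.p / V : ℝ) : ℂ))) τ' := by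
          fun_prop
        have h3 : DifferentiableAt ℂ (fun τ : ℂ =>
            F ((m : ℂ) + τ * ((l.q / V : ℝ) : ℂ), (n : ℂ) + τ * ((l.p / V : ℝ) : ℂ))) τ' :=
          DifferentiableAt.comp τ' (f := fun τ : ℂ =>
            ((m : ℂ) + τ * ((l.q / V : ℝ) : ℂ), (n : ℂ) + τ * ((l.p / V : ℝ) : ℂ))) h1 h2
        have h4 : DifferentiableAt ℂ (fun τ : ℂ =>
            Complex.exp ((a : ℂ) * ((m : ℂ) + τ * ((l.q / V : ℝ) : ℂ)))) τ' := by
          fun_prop
        exact (h3.mul h4).differentiableWithinAt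
      exact hdiff.analyticOnNhd hopen2 τ ⟨by linarith, by linarith⟩
    · intro τ hτ
      rw [mem_closedBall, dist_zero_right] at hτ
      obtain ⟨g1, g2, g3, g4, g5⟩ := hgeo τ hτ
      have h1 := ha2 _ _ g3 g4 g1 g2 (hnear _ g5) g5
      rw [hg]
      show ‖_ * _‖ ≤ 1
      rw [norm_mul, Complex.norm_exp]
      have e : ((a : ℂ) * ((m : ℂ) + τ * ((l.q / V : ℝ) : ℂ))).re =
          a * ((m : ℂ) + τ * ((l.q / V : ℝ) : ℂ)).re := by
        rw [Complex.re_ofReal_mul]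
      rw [e]
      exact h1
  -- parameters of the zeros
  have hzero : ∀ Q ∈ Sz, ∃ s : ℤ, (Q.1 : ℝ) = m + s * V * (l.q / V) ∧
      (Q.2 : ℝ) = n + s * V * (l.p / V) ∧ |(s : ℝ) * V| ≤ r1 := by
    rintro Q ⟨⟨⟨_, hQI, _⟩, hQ2, hQ3, hQc⟩, hQl⟩
    obtain ⟨s, hs1, hs2⟩ := lat_diff hPl hQl
    have e1 : (Q.1 : ℝ) = m + s * l.q := by
      have : (Q.1 : ℝ) - P.1 = s * l.q := by exact_mod_cast hs1
      rw [hm]; linarith
    have e2 : (Q.2 : ℝ) = n + s * l.p := by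
      have : (Q.2 : ℝ) - P.2 = s * l.p := by exact_mod_cast hs2
      rw [hn]; linarith
    refine ⟨s, by rw [e1]; field_simp, by rw [e2]; field_simp, ?_⟩
    -- the size of s
    have hQ1 : R ≤ (Q.1 : ℝ) := by rw [hR]; exact_mod_cast hQ2
    have hQ1' : (Q.1 : ℝ) ≤ 2 * R := by
      have : (Q.1 : ℝ) < 2 ^ (j + 1) := by exact_mod_cast hQ3
      rw [pow_succ] at this
      rw [hR]; linarith
    have hQ0 : (0 : ℝ) < Q.1 := by linarith
    have hθ := hclose _ hQc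
    -- slope difference
    have e3 : (Q.2 : ℝ) / Q.1 - θ0 = -(s * l.r / (Q.1 * m)) := by
      have e4 : (Q.2 : ℝ) - θ0 * Q.1 = -(s * l.r / m) := by
        rw [e1, e2, ← hline, hnm]
        field_simp
        ring
      have : (Q.2 : ℝ) / Q.1 - θ0 = ((Q.2 : ℝ) - θ0 * Q.1) / Q.1 := by field_simp
      rw [this, e4]
      field_simp
    rw [e3, abs_neg, abs_div, abs_mul, abs_mul, hr, abs_of_pos hQ0, abs_of_pos hm0,
      div_le_iff₀ (by positivity)] at hθ
    rw [abs_mul, abs_of_pos hV]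
    have h6 : |(s : ℝ)| * (η * V * R) ≤ dl U * (2 * R * (2 * R)) := by
      refine hθ.trans ?_
      gcongr
    have h7 : |(s : ℝ)| * V * (η * R) ≤ r1 * (η * R) := by
      calc |(s : ℝ)| * V * (η * R) = |(s : ℝ)| * (η * V * R) := by ring
        _ ≤ dl U * (2 * R * (2 * R)) := h6
        _ = 4 * (R * dl U) * R := by ring
        _ ≤ 5 * (R * dl U) * R := by
            have : 0 ≤ R * dl U * R := by positivity
            nlinarith
        _ = (r1 * η) * R := by rw [hr1η]; ring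
        _ = _ := by ring
    exact le_of_mul_le_mul_right h7 (by positivity)
  choose! sp hsp1 hsp2 hsp3 using hzero
  have hspinj : Set.InjOn sp Sz := by
    intro Q hQ Q' hQ' h
    have a1 := hsp1 Q hQ
    have a2 := hsp1 Q' hQ'
    have a3 := hsp2 Q hQ
    have a4 := hsp2 Q' hQ'
    rw [h] at a1 a3
    have b1 : (Q.1 : ℝ) = Q'.1 := by rw [a1, a2]
    have b2 : (Q.2 : ℝ) = Q'.2 := by rw [a3, a4]
    ext
    · exact_mod_cast b1
    · exact_mod_cast b2
  refine ⟨hcellI2, ?_, ?_⟩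
  · -- the number of zeros
    have h1 : (hSfin.toFinset.image sp) ⊆ Finset.Icc (-⌊r1 / V⌋) ⌊r1 / V⌋ := by
      intro s hs
      rw [Finset.mem_image] at hs
      obtain ⟨Q, hQ, rfl⟩ := hs
      rw [Set.Finite.mem_toFinset] at hQ
      have h2 := hsp3 Q hQ
      rw [abs_mul, abs_of_pos hV, ← le_div_iff₀ hV] at h2
      obtain ⟨h3, h4⟩ := abs_le.1 h2
      rw [Finset.mem_Icc]
      constructor
      · have : -(sp Q) ≤ ⌊r1 / V⌋ := by
          apply Int.le_floor.2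
          push_cast
          linarith
        linarith
      · exact Int.le_floor.2 h4
    have h2 : hSfin.toFinset.card ≤ (Finset.Icc (-⌊r1 / V⌋) ⌊r1 / V⌋).card := by
      rw [← Finset.card_image_of_injOn (f := sp) (by
        intro Q hQ Q' hQ' h
        rw [Finset.mem_coe, Set.Finite.mem_toFinset] at hQ hQ'
        exact hspinj hQ hQ' h)]
      exact Finset.card_le_card h1
    rw [Int.card_Icc] at h2
    have h3 : (0 : ℤ) ≤ ⌊r1 / V⌋ := Int.floor_nonneg.2 (by positivity)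
    have h4 : ((hSfin.toFinset.card : ℕ) : ℝ) ≤ 2 * (⌊r1 / V⌋ : ℝ) + 1 := by
      have h5 : ((hSfin.toFinset.card : ℕ) : ℤ) ≤ 2 * ⌊r1 / V⌋ + 1 := by
        have : ((hSfin.toFinset.card : ℕ) : ℤ) ≤ ((⌊r1 / V⌋ + 1 - -⌊r1 / V⌋).toNat : ℤ) := by
          exact_mod_cast h2
        rw [Int.toNat_of_nonneg (by linarith)] at this
        linarith
      exact_mod_cast h5
    rw [hncard]
    have h6 : (⌊r1 / V⌋ : ℝ) ≤ r1 / V := Int.floor_le _
    have h7 : 2 * (r1 / V) = 10 * dl U * R / (η * V) := by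
      rw [hr1]; field_simp; ring
    linarith
  · intro θ hθ
    have hθc := hclose θ hθ
    obtain ⟨x, τ, hx1, hx2, hx3, hx4, hτ⟩ := hpoint θ hθc
    have hx0 : 0 < x := by linarith
    refine ⟨x, hx1, hx2, ?_, ?_⟩
    · unfold onl
      rw [hx4, hx3, ← hline]
      field_simp
      ring
    · set Xs : Finset ℂ := (hSfin.toFinset.image sp).image (fun s : ℤ => (((s : ℝ) * V : ℝ) : ℂ)) with hXs
      have hcard : Xs.card = nl F b0 j U l := by
        rw [hXs, Finset.card_image_of_injective, Finset.card_image_of_injOn, hncard]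
        · intro Q hQ Q' hQ' h
          rw [Finset.mem_coe, Set.Finite.mem_toFinset] at hQ hQ'
          exact hspinj hQ hQ' h
        · intro s s' h
          have h0 : (((s : ℝ) * V : ℝ) : ℂ) = (((s' : ℝ) * V : ℝ) : ℂ) := h
          have h1 : (s : ℝ) * V = s' * V := Complex.ofReal_injective h0
          have h2 := mul_right_cancel₀ hV.ne' h1
          exact_mod_cast h2
      have hXz : ∀ b ∈ Xs, ‖b - 0‖ ≤ 1 / 2 * (2 * r1) ∧ g b = 0 := by
        intro b hbX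
        rw [hXs, Finset.mem_image] at hbX
        obtain ⟨s, hs, rfl⟩ := hbX
        rw [Finset.mem_image] at hs
        obtain ⟨Q, hQ, rfl⟩ := hs
        rw [Set.Finite.mem_toFinset] at hQ
        constructor
        · rw [sub_zero, Complex.norm_real, Real.norm_eq_abs]
          have := hsp3 Q hQ
          linarith
        · have hQF : F ((Q.1 : ℂ), (Q.2 : ℂ)) = 0 := hQ.1.1.2.2
          have e1 : (m : ℂ) + (((sp Q : ℝ) * V : ℝ) : ℂ) * ((l.q / V : ℝ) : ℂ) = (Q.1 : ℂ) := by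
            have := hsp1 Q hQ
            have h2 : ((m + (sp Q : ℝ) * V * (l.q / V) : ℝ) : ℂ) = ((Q.1 : ℝ) : ℂ) := by rw [← this]
            push_cast at h2 ⊢
            exact h2
          have e2 : (n : ℂ) + (((sp Q : ℝ) * V : ℝ) : ℂ) * ((l.p / V : ℝ) : ℂ) = (Q.2 : ℂ) := by
            have := hsp2 Q hQ
            have h2 : ((n + (sp Q : ℝ) * V * (l.p / V) : ℝ) : ℂ) = ((Q.2 : ℝ) : ℂ) := by rw [← this]
            push_cast at h2 ⊢
            exact h2
          rw [hg]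
          show F (_, _) * _ = 0
          rw [e1, e2, hQF, zero_mul]
      have hmain := hlow g 0 (2 * r1) Xs (by positivity) hDF hXz (τ : ℂ) (by
        rw [sub_zero, Complex.norm_real, Real.norm_eq_abs]
        linarith)
      rw [hcard] at hmain
      have e1 : (m : ℂ) + (τ : ℂ) * ((l.q / V : ℝ) : ℂ) = (x : ℂ) := by
        rw [hx3]; push_cast; ring
      have e2 : (n : ℂ) + (τ : ℂ) * ((l.p / V : ℝ) : ℂ) = ((θ * x : ℝ) : ℂ) := by
        rw [hx4]; push_cast; ring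
      have e3 : g (τ : ℂ) = F ((x : ℂ), ((θ * x : ℝ) : ℂ)) * Complex.exp ((a : ℂ) * (x : ℂ)) := by
        rw [hg]
        show F (_, _) * _ = _
        rw [e1, e2]
      rw [e3, norm_mul, Complex.norm_exp] at hmain
      have e4 : ((a : ℂ) * (x : ℂ)).re = a * x := by
        rw [← Complex.ofReal_mul, Complex.ofReal_re]
      rw [e4] at hmain
      have hθI1 : θ ∈ I1 b0 := hnear θ (by linarith)
      have ha := ha1 θ hθI1 hθc
      have h1 : ‖F ((x : ℂ), ((θ * x : ℝ) : ℂ))‖ ≤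
          Real.exp (-(c1 * nl F b0 j U l)) * Real.exp (-(a * x)) := by
        calc ‖F ((x : ℂ), ((θ * x : ℝ) : ℂ))‖
            = ‖F ((x : ℂ), ((θ * x : ℝ) : ℂ))‖ * Real.exp (a * x) * Real.exp (-(a * x)) := by
              rw [mul_assoc, ← Real.exp_add]; simp
          _ ≤ _ := by gcongr
      refine h1.trans ?_
      rw [← Real.exp_add]
      apply Real.exp_le_exp.2
      nlinarith

end MuntzF
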