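import Pool.Agent.Lib.MP_dde81e_full.ZDefs

/-!
Definitions for section 10 (rich valley lines) of the text.
-/

namespace MuntzF
open Set MeasureTheory
open scoped ENNReal

/-- number of zeros (slopes in `I0`) on the line `l` with abscissa in `[2^k, 2^(k+1))`. -/
noncomputable def nk (F : ℂ × ℂ → ℂ) (b0 : ℝ) (k : ℕ) (l : Ln) : ℕ :=
  {P : ℤ × ℤ | P ∈ Zf F b0 ∧ (2 : ℤ) ^ k ≤ P.1 ∧ P.1 < 2 ^ (k + 1) ∧ onlz l P}.ncard

/-- slope `θ_l = p/q` and intercept `b = r/q` of a line with `q ≠ 0`: `y = θ_l x + b`. -/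
noncomputable def tl (l : Ln) : ℝ := (l.p : ℝ) / l.q
noncomputable def bl (l : Ln) : ℝ := (l.r : ℝ) / l.q
/-- `η'_k = |b| / 2^k`. -/
noncomputable def etp (l : Ln) (k : ℕ) : ℝ := |bl l| / 2 ^ k
/-- left end of the line in the closed quadrant: `x_l = max (0, -b/θ_l)`. -/
noncomputable def xl (l : Ln) : ℝ := max 0 (-(bl l) / tl l)
/-- restriction of `F` to the line, parametrised from its left end. -/
noncomputable def lf (F : ℂ × ℂ → ℂ) (l : Ln) (ζ : ℂ) : ℂ :=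
  F ((xl l : ℂ) + ζ, (tl l : ℂ) * ((xl l : ℂ) + ζ) + (bl l : ℂ))
/-- `a_k`. -/
noncomputable def aa (F : ℂ × ℂ → ℂ) (l : Ln) (k : ℕ) : ℝ≥0∞ :=
  Muntz.af (fun ζ => Muntz.nl (lf F l ζ)) (2 ^ k)
/-- positive part of `D_k = a_k - c_k(θ_l)`. -/
noncomputable def De {F : ℂ × ℂ → ℂ} {b0 : ℝ} (X : Ctx F b0) (l : Ln) (k : ℕ) : ℝ≥0∞ :=
  aa F l k - ENNReal.ofReal (X.c k (tl l))
/-- minimal level at scale `k` of the slopes at distance at most `8 η'_k` of `θ_l`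
(`H_k = hh (ml X l k)` in the text). -/
noncomputable def ml {F : ℂ × ℂ → ℂ} {b0 : ℝ} (X : Ctx F b0) (l : Ln) (k : ℕ) : ℕ :=
  sInf (X.lv k '' {θ : ℝ | |θ - tl l| ≤ 8 * etp l k})

/-- ALIVE (text 10.7), with `K2 = K3 = K`. -/
structure Alive {F : ℂ × ℂ → ℂ} {b0 : ℝ} (X : Ctx F b0) (e1 K : ℝ) (k : ℕ) (l : Ln) : Prop where
  hq : l.q ≠ 0
  t1 : 5 / (6 * b0) ≤ tl l
  t2 : tl l ≤ 6 * b0 / 5
  et : etp l k ≤ e1
  hV : ht l ≤ 2 ^ (10 * ml X l k)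
  dp : ENNReal.ofReal (K * etp l k + K * hh (ml X l k) ^ ((9 : ℝ) / 10)) ≤ De X l k

/-- bottoms (text 10.10). -/
def Bot {F : ℂ × ℂ → ℂ} {b0 : ℝ} (X : Ctx F b0) (e1 K : ℝ) (ks k : ℕ) (l : Ln) : Prop :=
  Alive X e1 K k l ∧ (k < ks + 9 ∨ ¬ Alive X e1 K (k - 9) l)

/-- cost of a bottom: `2^-k min (D_k, 1/V)`. -/
noncomputable def cst {F : ℂ × ℂ → ℂ} {b0 : ℝ} (X : Ctx F b0) (l : Ln) (k : ℕ) : ℝ :=
  (min (De X l k) (ENNReal.ofReal (1 / ht l))).toReal / 2 ^ k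

/-- maximal dyadic intervals `U` with `|U| ≤ c6 min(η, e)` and at least `C2 |U| R` zeros of the line
(text 10.4), of length at most half of the admissible length. -/
def Mx (F : ℂ × ℂ → ℂ) (b0 c6 e C2 : ℝ) (j : ℕ) (l : Ln) (U : ℕ × ℕ) : Prop :=
  2 * dl U ≤ c6 * min (eta l j) e ∧ C2 * dl U * 2 ^ j ≤ nl F b0 j U l ∧
  ∀ n, 1 ≤ n → n ≤ U.1 → dl (anc U n) ≤ c6 * min (eta l j) e →
    (nl F b0 j (anc U n) l : ℝ) < C2 * dl (anc U n) * 2 ^ j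

end MuntzF
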