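import Pool.Agent.Lib.MP_dde81e_full.TDefs

/-!
Module T1 (text 6.1): Taylor polynomial of a box function in two variables.
-/

namespace MuntzF
open Set Metric MeasureTheory Filter Topology

/-- coefficient of order `n` at `0` as a Cauchy integral over the unit circle. -/
noncomputable def T1_co (φ : ℂ → ℂ) (n : ℕ) : ℂ := cauchyPowerSeries φ 0 1 n (fun _ => 1)

theorem T1_co_le {φ : ℂ → ℂ} (hb : ∀ z : ℂ, ‖z‖ = 1 → ‖φ z‖ ≤ 1) (n : ℕ) : ‖T1_co φ n‖ ≤ 1 := by
  unfold T1_co
  refine ((cauchyPowerSeries φ 0 1 n).le_opNorm _).trans ?_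
  have h1 := norm_cauchyPowerSeries_le φ 0 1 n
  have h2 : ((2 * Real.pi)⁻¹ * ∫ θ : ℝ in (0 : ℝ)..2 * Real.pi, ‖φ (circleMap 0 1 θ)‖) ≤ 1 := by
    have h3 : ‖∫ θ : ℝ in (0 : ℝ)..2 * Real.pi, ‖φ (circleMap 0 1 θ)‖‖ ≤ 1 * |2 * Real.pi - 0| := by
      apply intervalIntegral.norm_integral_le_of_norm_le_const
      intro θ _
      rw [Real.norm_eq_abs, abs_norm]
      apply hb
      simp
    have h4 := Real.two_pi_pos
    rw [sub_zero, abs_of_pos h4, one_mul] at h3
    have h5 := (le_abs_self _).trans h3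
    calc (2 * Real.pi)⁻¹ * ∫ θ : ℝ in (0 : ℝ)..2 * Real.pi, ‖φ (circleMap 0 1 θ)‖
        ≤ (2 * Real.pi)⁻¹ * (2 * Real.pi) := by gcongr
      _ = 1 := by field_simp
  simp only [abs_one, inv_one, one_pow, mul_one] at h1
  simpa using h1.trans h2

/-- one variable: error of the Taylor polynomial. -/
theorem T1_one {φ : ℂ → ℂ} (hd : DiffContOnCl ℂ φ (ball 0 1)) (hb : ∀ z : ℂ, ‖z‖ = 1 → ‖φ z‖ ≤ 1)
    (D : ℕ) {z : ℂ} (hz : ‖z‖ ≤ 1 / 4) :
    ‖φ z - ∑ n ∈ Finset.range (D + 1), T1_co φ n * z ^ n‖ ≤ 1 / 3 * (1 / 4) ^ D := by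
  have hd' : DiffContOnCl ℂ φ (ball 0 ((1 : NNReal) : ℝ)) := by simpa using hd
  have h1 := hd'.hasFPowerSeriesOnBall (by norm_num)
  have hz1 : z ∈ Metric.eball (0 : ℂ) ((1 : NNReal) : ENNReal) := by
    rw [Metric.mem_eball, edist_zero_right]
    have : ‖z‖ₑ = ENNReal.ofReal ‖z‖ := (ofReal_norm z).symm
    rw [this, ENNReal.coe_one, ENNReal.ofReal_lt_one]
    linarith
  have h2 := h1.hasSum hz1
  rw [zero_add] at h2
  have h3 : ∀ n, (cauchyPowerSeries φ 0 ((1 : NNReal) : ℝ) n) (fun _ => z) = T1_co φ n * z ^ n := by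
    intro n
    have : (fun _ : Fin n => z) = fun i => z • (1 : ℂ) := by
      ext i
      simp
    rw [this, ContinuousMultilinearMap.map_smul_univ]
    unfold T1_co
    simp [mul_comm]
  simp only [h3] at h2
  have hs := h2.summable
  have h4 := hs.sum_add_tsum_nat_add (D + 1)
  rw [h2.tsum_eq] at h4
  have h5 : φ z - ∑ n ∈ Finset.range (D + 1), T1_co φ n * z ^ n = ∑' n, T1_co φ (n + (D + 1)) * z ^ (n + (D + 1)) := by
    rw [← h4]
    ring
  rw [h5]
  have hg : Summable (fun n : ℕ => (1 / 4 : ℝ) ^ (n + (D + 1))) := by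
    simp only [pow_add]
    exact (summable_geometric_of_lt_one (by norm_num) (by norm_num)).mul_right _
  have hle : ∀ n, ‖T1_co φ (n + (D + 1)) * z ^ (n + (D + 1))‖ ≤ (1 / 4 : ℝ) ^ (n + (D + 1)) := by
    intro n
    rw [norm_mul, norm_pow]
    calc ‖T1_co φ (n + (D + 1))‖ * ‖z‖ ^ (n + (D + 1)) ≤ 1 * (1 / 4) ^ (n + (D + 1)) := by
          gcongr
          exact T1_co_le hb _
      _ = _ := one_mul _
  refine (tsum_of_norm_bounded hg.hasSum hle).trans (le_of_eq ?_)
  simp only [pow_add]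
  rw [tsum_mul_right, tsum_geometric_of_lt_one (by norm_num) (by norm_num)]
  ring

/-- differentiation under the integral sign. -/
theorem T1_par {f : ℂ × ℂ → ℂ} {ρ : ℝ} (hρ : 1 < ρ)
    (hf : DifferentiableOn ℂ f (ball (0 : ℂ × ℂ) ρ)) (w : ℝ → ℂ) (hw : Continuous w) :
    DifferentiableOn ℂ (fun s : ℂ => ∫ θ in (0 : ℝ)..2 * Real.pi, w θ * f (s, circleMap 0 1 θ))
      (ball 0 ρ) := by
  intro s0 hs0
  rw [mem_ball_zero_iff] at hs0
  apply DifferentiableAt.differentiableWithinAt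
  -- radii
  set r : ℝ := (max ‖s0‖ 1 + ρ) / 2 with hr
  have hm : max ‖s0‖ 1 < ρ := max_lt hs0 hρ
  have hr1 : max ‖s0‖ 1 < r := by rw [hr]; linarith
  have hr2 : r < ρ := by rw [hr]; linarith
  have hr3 : ‖s0‖ < r := (le_max_left _ _).trans_lt hr1
  have hr4 : 1 < r := (le_max_right _ _).trans_lt hr1
  set ε : ℝ := (r - ‖s0‖) / 2 with hε
  have hεpos : 0 < ε := by rw [hε]; linarith
  have hsub : closedBall (0 : ℂ × ℂ) r ⊆ ball (0 : ℂ × ℂ) ρ := closedBall_subset_ball hr2
  have hcomp : IsCompact (closedBall (0 : ℂ × ℂ) r) := isCompact_closedBall _ _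
  obtain ⟨M, hM⟩ := hcomp.exists_bound_of_continuousOn (hf.continuousOn.mono hsub)
  have hmem : ∀ s : ℂ, ‖s‖ ≤ r → ∀ θ : ℝ, (s, circleMap 0 1 θ) ∈ closedBall (0 : ℂ × ℂ) r := by
    intro s hs θ
    rw [mem_closedBall_zero_iff, Prod.norm_def]
    apply max_le hs
    simp only [norm_circleMap_zero, abs_one]
    exact hr4.le
  have hslice : ∀ s : ℂ, ‖s‖ < ρ → ∀ θ : ℝ, DifferentiableAt ℂ (fun s => f (s, circleMap 0 1 θ)) s := by
    intro s hs θ
    have hm2 : (s, circleMap 0 1 θ) ∈ ball (0 : ℂ × ℂ) ρ := by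
      rw [mem_ball_zero_iff, Prod.norm_def]
      apply max_lt hs
      simp only [norm_circleMap_zero, abs_one]
      exact hρ
    have h1 : DifferentiableAt ℂ f (s, circleMap 0 1 θ) := (hf _ hm2).differentiableAt (isOpen_ball.mem_nhds hm2)
    exact h1.comp s ((differentiableAt_id).prodMk (differentiableAt_const _))
  have hcont : ∀ s : ℂ, ‖s‖ ≤ r → Continuous (fun θ : ℝ => f (s, circleMap 0 1 θ)) := by
    intro s hs
    have h1 : ContinuousOn f (closedBall (0 : ℂ × ℂ) r) := hf.continuousOn.mono hsub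
    exact h1.comp_continuous (Continuous.prodMk continuous_const (continuous_circleMap 0 1)) (hmem s hs)
  have hball : ∀ s ∈ ball s0 ε, ‖s‖ + ε ≤ r := by
    intro s hs
    rw [mem_ball_iff_norm] at hs
    have : ‖s‖ ≤ ‖s0‖ + ‖s - s0‖ := by
      have := norm_add_le s0 (s - s0)
      rwa [add_sub_cancel] at this
    rw [hε] at hs ⊢
    linarith
  have key := intervalIntegral.hasDerivAt_integral_of_dominated_loc_of_deriv_le (μ := volume)
    (a := 0) (b := 2 * Real.pi) (F := fun s θ => w θ * f (s, circleMap 0 1 θ))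
    (F' := fun s θ => w θ * deriv (fun s => f (s, circleMap 0 1 θ)) s) (x₀ := s0)
    (s := ball s0 ε) (bound := fun θ => ‖w θ‖ * (M / ε)) (ball_mem_nhds s0 hεpos)
    ?_ ?_ ?_ ?_ ?_ ?_
  · exact key.2.differentiableAt
  · filter_upwards [ball_mem_nhds s0 hεpos] with s hs
    have h1 := hball s hs
    exact ((hw.mul (hcont s (by linarith))).aestronglyMeasurable)
  · exact (hw.mul (hcont s0 hr3.le)).intervalIntegrable _ _
  · -- measurability of the derivative
    refine AEStronglyMeasurable.mul hw.aestronglyMeasurable ?_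
    have hlim : ∀ θ : ℝ, Tendsto (fun n : ℕ => ((ε / (n + 1 : ℝ) : ℝ) : ℂ)⁻¹ *
        (f (s0 + ((ε / (n + 1 : ℝ) : ℝ) : ℂ), circleMap 0 1 θ) - f (s0, circleMap 0 1 θ))) atTop
        (𝓝 (deriv (fun s => f (s, circleMap 0 1 θ)) s0)) := by
      intro θ
      have h1 := (hslice s0 hs0 θ).hasDerivAt
      rw [hasDerivAt_iff_tendsto_slope_zero] at h1
      have h2 : Tendsto (fun n : ℕ => ((ε / (n + 1 : ℝ) : ℝ) : ℂ)) atTop (𝓝[≠] 0) := by
        rw [tendsto_nhdsWithin_iff]
        constructor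
        · have h3 : Tendsto (fun n : ℕ => ε / (n + 1 : ℝ)) atTop (𝓝 0) := by
            have := tendsto_one_div_add_atTop_nhds_zero_nat (𝕜 := ℝ)
            have h4 := this.const_mul ε
            rw [mul_zero] at h4
            refine h4.congr fun n => ?_
            ring
          have h5 := (Complex.continuous_ofReal.tendsto 0).comp h3
          rw [Complex.ofReal_zero] at h5
          exact h5
        · filter_upwards with n
          rw [mem_compl_iff, mem_singleton_iff, Complex.ofReal_eq_zero]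
          have : (0 : ℝ) < ε / (n + 1 : ℝ) := by positivity
          exact this.ne'
      have h6 := h1.comp h2
      refine h6.congr fun n => ?_
      simp only [Function.comp, smul_eq_mul]
    refine aestronglyMeasurable_of_tendsto_ae atTop (f := fun (n : ℕ) (θ : ℝ) => ((ε / (n + 1 : ℝ) : ℝ) : ℂ)⁻¹ *
        (f (s0 + ((ε / (n + 1 : ℝ) : ℝ) : ℂ), circleMap 0 1 θ) - f (s0, circleMap 0 1 θ))) ?_
        (Eventually.of_forall hlim)
    intro n
    apply Continuous.aestronglyMeasurable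
    have h7 : ‖s0 + ((ε / (n + 1 : ℝ) : ℝ) : ℂ)‖ ≤ r := by
      refine (norm_add_le _ _).trans ?_
      rw [Complex.norm_real, Real.norm_eq_abs, abs_of_pos (by positivity)]
      have : ε / (n + 1 : ℝ) ≤ ε := div_le_self hεpos.le (by
        have : (0 : ℝ) ≤ n := Nat.cast_nonneg n
        linarith)
      rw [hε] at this ⊢
      linarith
    exact continuous_const.mul ((hcont _ h7).sub (hcont _ hr3.le))
  · -- bound of the derivative
    refine Eventually.of_forall fun θ _ s hs => ?_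
    have h1 := hball s hs
    rw [norm_mul]
    refine mul_le_mul_of_nonneg_left ?_ (norm_nonneg _)
    apply Complex.norm_deriv_le_of_forall_mem_sphere_norm_le hεpos
    · apply DifferentiableOn.diffContOnCl
      intro z hz
      have hz' := closure_ball_subset_closedBall hz
      rw [mem_closedBall_iff_norm] at hz'
      have : ‖z‖ ≤ ‖s‖ + ‖z - s‖ := by
        have := norm_add_le s (z - s)
        rwa [add_sub_cancel] at this
      exact (hslice z (by linarith) θ).differentiableWithinAt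
    · intro z hz
      rw [mem_sphere_iff_norm] at hz
      have : ‖z‖ ≤ ‖s‖ + ‖z - s‖ := by
        have := norm_add_le s (z - s)
        rwa [add_sub_cancel] at this
      exact hM _ (hmem z (by linarith) θ)
  · apply Continuous.intervalIntegrable
    fun_prop
  · refine Eventually.of_forall fun θ _ s hs => ?_
    have h1 := hball s hs
    exact ((hslice s (by linarith) θ).hasDerivAt).const_mul _

theorem taylor {f : ℂ × ℂ → ℂ} {M0 : ℝ} (hf : BF f M0) (D : ℕ) :
    ∃ a : ℕ → ℕ → ℂ, Appr f a D ((1 / 4) ^ D) := by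
  obtain ⟨U, hU, hsub, hd⟩ := hf.dif
  -- a larger ball
  have hcl : {p : ℂ × ℂ | ‖p.1‖ ≤ 1 ∧ ‖p.2‖ ≤ 1} = closedBall (0 : ℂ × ℂ) 1 := by
    ext p
    rw [mem_closedBall_zero_iff, Prod.norm_def, max_le_iff]
    rfl
  rw [hcl] at hsub
  obtain ⟨δ, hδ, hδU⟩ := (isCompact_closedBall (0 : ℂ × ℂ) 1).exists_cthickening_subset_open hU hsub
  rw [cthickening_closedBall hδ.le zero_le_one] at hδU
  have hfb : DifferentiableOn ℂ f (ball (0 : ℂ × ℂ) (δ + 1)) := hd.mono (ball_subset_closedBall.trans hδU)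
  have hρ : 1 < δ + 1 := by linarith
  -- slices
  have hsl : ∀ s : ℂ, ‖s‖ ≤ 1 → DiffContOnCl ℂ (fun t => f (s, t)) (ball 0 1) := by
    intro s hs
    apply DifferentiableOn.diffContOnCl
    intro t ht
    have ht' := closure_ball_subset_closedBall ht
    rw [mem_closedBall_zero_iff] at ht'
    have hm : (s, t) ∈ ball (0 : ℂ × ℂ) (δ + 1) := by
      rw [mem_ball_zero_iff, Prod.norm_def]
      exact max_lt (by simpa using hs.trans_lt hρ) (by simpa using ht'.trans_lt hρ)
    have h1 : DifferentiableAt ℂ f (s, t) := (hfb _ hm).differentiableAt (isOpen_ball.mem_nhds hm)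
    exact (h1.comp t ((differentiableAt_const _).prodMk differentiableAt_id)).differentiableWithinAt
  have hgd : ∀ l, DifferentiableOn ℂ (fun s => T1_co (fun t => f (s, t)) l) (ball 0 (δ + 1)) := by
    intro l
    have h1 : ∀ s, T1_co (fun t => f (s, t)) l = (2 * Real.pi * Complex.I : ℂ)⁻¹ *
        ∫ θ in (0 : ℝ)..2 * Real.pi, (deriv (circleMap 0 1) θ * ((1 / (circleMap 0 1 θ)) ^ l * (circleMap 0 1 θ)⁻¹)) *
          f (s, circleMap 0 1 θ) := by
      intro s
      unfold T1_co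
      rw [cauchyPowerSeries_apply, circleIntegral, smul_eq_mul]
      congr 1
      apply intervalIntegral.integral_congr
      intro θ _
      simp only [sub_zero, smul_eq_mul]
      ring
    simp only [h1]
    apply DifferentiableOn.const_mul
    apply T1_par hρ hfb
    have hne : ∀ θ : ℝ, circleMap 0 1 θ ≠ 0 := fun θ => circleMap_ne_center one_ne_zero
    simp only [deriv_circleMap]
    have hcm := continuous_circleMap 0 1
    exact (hcm.mul continuous_const).mul (((continuous_const.div hcm hne).pow l).mul (hcm.inv₀ hne))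
  have hgc : ∀ l, DiffContOnCl ℂ (fun s => T1_co (fun t => f (s, t)) l) (ball 0 1) := by
    intro l
    apply DifferentiableOn.diffContOnCl
    apply (hgd l).mono
    exact closure_ball_subset_closedBall.trans (closedBall_subset_ball hρ)
  have hgb : ∀ l (s : ℂ), ‖s‖ ≤ 1 → ‖T1_co (fun t => f (s, t)) l‖ ≤ 1 := by
    intro l s hs
    apply T1_co_le
    intro t ht
    exact hf.bd (s, t) hs ht.le
  refine ⟨fun k l => T1_co (fun s => T1_co (fun t => f (s, t)) l) k, ?_⟩
  intro s t hs ht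
  have hs1 : ‖s‖ ≤ 1 := by linarith
  have e1 := T1_one (hsl s hs1) (fun z hz => hf.bd (s, z) hs1 hz.le) D ht
  have e2 : ∀ l, ‖T1_co (fun t => f (s, t)) l - ∑ k ∈ Finset.range (D + 1),
      T1_co (fun s => T1_co (fun t => f (s, t)) l) k * s ^ k‖ ≤ 1 / 3 * (1 / 4) ^ D := fun l =>
    T1_one (hgc l) (fun z hz => hgb l z hz.le) D hs
  have e3 : f (s, t) - ∑ k ∈ Finset.range (D + 1), ∑ l ∈ Finset.range (D + 1),
      T1_co (fun s => T1_co (fun t => f (s, t)) l) k * s ^ k * t ^ l =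
      (f (s, t) - ∑ l ∈ Finset.range (D + 1), T1_co (fun t => f (s, t)) l * t ^ l) +
      ∑ l ∈ Finset.range (D + 1), (T1_co (fun t => f (s, t)) l - ∑ k ∈ Finset.range (D + 1),
      T1_co (fun s => T1_co (fun t => f (s, t)) l) k * s ^ k) * t ^ l := by
    rw [Finset.sum_comm]
    simp only [sub_mul, Finset.sum_sub_distrib, Finset.sum_mul]
    ring
  rw [e3]
  have e4 : ∀ l ∈ Finset.range (D + 1), ‖(T1_co (fun t => f (s, t)) l - ∑ k ∈ Finset.range (D + 1),
      T1_co (fun s => T1_co (fun t => f (s, t)) l) k * s ^ k) * t ^ l‖ ≤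
      1 / 3 * (1 / 4) ^ D * (1 / 4) ^ l := by
    intro l _
    rw [norm_mul, norm_pow]
    gcongr
    exact e2 l
  have e5 := (norm_sum_le_of_le _ e4)
  rw [← Finset.mul_sum] at e5
  have e6 : ∑ l ∈ Finset.range (D + 1), (1 / 4 : ℝ) ^ l ≤ 4 / 3 := by
    have h1 : Summable (fun l : ℕ => (1 / 4 : ℝ) ^ l) := summable_geometric_of_lt_one (by norm_num) (by norm_num)
    have h2 := h1.sum_le_tsum (Finset.range (D + 1)) (fun l _ => by positivity)
    rw [tsum_geometric_of_lt_one (by norm_num) (by norm_num)] at h2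
    norm_num at h2 ⊢
    exact h2
  have hp : (0 : ℝ) < (1 / 4) ^ D := by positivity
  refine (norm_add_le _ _).trans ?_
  refine (add_le_add e1 e5).trans ?_
  have e7 : 1 / 3 * (1 / 4 : ℝ) ^ D * ∑ l ∈ Finset.range (D + 1), (1 / 4 : ℝ) ^ l ≤
      1 / 3 * (1 / 4) ^ D * (4 / 3) := mul_le_mul_of_nonneg_left e6 (by positivity)
  linarith

end MuntzF
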