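import Pool.Agent.Lib.MP_dde81e_full.TNum
import Pool.Agent.Lib.MP_dde81e_full.A6

/-!
Module T2 (text 6.2): choice of the index b.
-/

namespace MuntzF
open Set Metric

/-! ### polynomials -/

theorem T2_term_le (p : Polynomial ℂ) (T : ℝ) (k : ℕ) :
    ‖p.coeff k‖ ^ 2 * Real.exp (-(2 * k * T)) ≤ sq p T := by
  unfold sq
  by_cases hk : k ∈ p.support
  · exact Finset.single_le_sum (f := fun k => ‖p.coeff k‖ ^ 2 * Real.exp (-(2 * k * T)))
      (fun i _ => by positivity) hk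
  · rw [Polynomial.notMem_support_iff.1 hk]
    simp only [norm_zero, ne_eq, OfNat.ofNat_ne_zero, not_false_eq_true, zero_pow, zero_mul]
    exact Finset.sum_nonneg fun i _ => by positivity

/-- Parseval: some point of the circle of radius `e^-T` has `‖p‖² ≥ sq p T`. -/
theorem T2_sq (p : Polynomial ℂ) (T : ℝ) : ∃ a : ℂ, ‖a‖ = Real.exp (-T) ∧ sq p T ≤ ‖p.eval a‖ ^ 2 := by
  set r : ℝ := Real.exp (-T) with hr
  have hr0 : 0 < r := Real.exp_pos _
  set q : Polynomial ℂ := p.comp (Polynomial.C (r : ℂ) * Polynomial.X) with hq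
  have hrc : (r : ℂ) ≠ 0 := by exact_mod_cast hr0.ne'
  have hcoeff : ∀ k, q.coeff k = p.coeff k * (r : ℂ) ^ k := by
    intro k
    rw [hq, Polynomial.comp_C_mul_X_coeff]
  have hsupp : q.support = p.support := by
    ext k
    rw [Polynomial.mem_support_iff, Polynomial.mem_support_iff, hcoeff]
    simp [hrc]
  have hsq : sq p T = ∑ k ∈ q.support, ‖q.coeff k‖ ^ 2 := by
    rw [hsupp]
    unfold sq
    apply Finset.sum_congr rfl
    intro k _
    rw [hcoeff, norm_mul, norm_pow, Complex.norm_real, Real.norm_eq_abs, abs_of_pos hr0, mul_pow, hr,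
      ← pow_mul, ← Real.exp_nat_mul]
    congr 2
    push_cast
    ring
  have hne : (sphere (0 : ℂ) |1|).Nonempty := ⟨1, by simp⟩
  have hcont : Continuous (fun z : ℂ => ‖q.eval z‖ ^ 2) := by
    have := q.continuous
    fun_prop
  obtain ⟨z0, hz0, hmax⟩ := (isCompact_sphere (0 : ℂ) |1|).exists_isMaxOn hne hcont.continuousOn
  have hav : Real.circleAverage (fun θ ↦ ‖q.eval θ‖ ^ 2) 0 1 ≤ ‖q.eval z0‖ ^ 2 := by
    apply Real.circleAverage_mono_on_of_le_circle
    · exact hcont.continuousOn.circleIntegrable (by norm_num)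
    · intro x hx
      exact hmax hx
  refine ⟨(r : ℂ) * z0, ?_, ?_⟩
  · rw [norm_mul, Complex.norm_real, Real.norm_eq_abs, abs_of_pos hr0]
    have : ‖z0‖ = 1 := by simpa using hz0
    rw [this, mul_one]
  · rw [hsq, Polynomial.sum_sq_norm_coeff_eq_circleAverage]
    refine hav.trans (le_of_eq ?_)
    rw [hq, Polynomial.eval_comp]
    simp

theorem T2_coeff_two {p : Polynomial ℂ} (h : ∀ a : ℂ, ‖a‖ ≤ 1 → ‖p.eval a‖ ≤ 2) (k : ℕ) :
    ‖p.coeff k‖ ≤ 2 := by
  obtain ⟨a, ha, hs⟩ := T2_sq p 0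
  have h1 := T2_term_le p 0 k
  have h2 := h a (by rw [ha]; simp)
  simp only [mul_zero, neg_zero, Real.exp_zero, mul_one] at h1
  have h3 : ‖p.coeff k‖ ^ 2 ≤ 2 ^ 2 := by
    refine h1.trans (hs.trans ?_)
    gcongr
  exact le_of_sq_le_sq h3 (by norm_num)

theorem T2_coeff_le {p : Polynomial ℂ} {T δ : ℝ} (hδ : 0 ≤ δ) (h : sq p T ≤ δ ^ 2) (k : ℕ) :
    ‖p.coeff k‖ * Real.exp (-(k * T)) ≤ δ := by
  have h1 := (T2_term_le p T k).trans h
  have h2 : (‖p.coeff k‖ * Real.exp (-(k * T))) ^ 2 ≤ δ ^ 2 := by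
    refine le_trans (le_of_eq ?_) h1
    rw [mul_pow, ← Real.exp_nat_mul]
    congr 2
    push_cast
    ring
  exact le_of_sq_le_sq h2 hδ

theorem T2_geom (S : Finset ℕ) : ∑ k ∈ S, (1 / 2 : ℝ) ^ k ≤ 2 := by
  have h1 : Summable (fun l : ℕ => (1 / 2 : ℝ) ^ l) := summable_geometric_of_lt_one (by norm_num) (by norm_num)
  have h2 := h1.sum_le_tsum S (fun l _ => by positivity)
  rw [tsum_geometric_of_lt_one (by norm_num) (by norm_num)] at h2
  norm_num at h2 ⊢
  exact h2

theorem T2_eval_le {p : Polynomial ℂ} {T δ : ℝ} (hδ : 0 ≤ δ) (h : sq p T ≤ δ ^ 2) {a : ℂ}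
    (ha : ‖a‖ ≤ Real.exp (-T) / 2) : ‖p.eval a‖ ≤ 2 * δ := by
  rw [Polynomial.eval_eq_sum, Polynomial.sum]
  refine (norm_sum_le _ _).trans ?_
  have h1 : ∀ k ∈ p.support, ‖p.coeff k * a ^ k‖ ≤ δ * (1 / 2) ^ k := by
    intro k _
    rw [norm_mul, norm_pow]
    calc ‖p.coeff k‖ * ‖a‖ ^ k ≤ ‖p.coeff k‖ * (Real.exp (-T) / 2) ^ k := by gcongr
      _ = (‖p.coeff k‖ * Real.exp (-(k * T))) * (1 / 2) ^ k := by
        rw [div_pow, ← Real.exp_nat_mul]
        have : (k : ℝ) * -T = -(k * T) := by ring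
        rw [this, one_div, inv_pow]
        ring
      _ ≤ δ * (1 / 2) ^ k := by
        gcongr
        exact T2_coeff_le hδ h k
  refine (Finset.sum_le_sum h1).trans ?_
  rw [← Finset.mul_sum]
  have := mul_le_mul_of_nonneg_left (T2_geom p.support) hδ
  linarith

theorem T2_sq_le {p : Polynomial ℂ} {T c : ℝ} (hc : ‖p.eval 0‖ ≤ c) (h2 : ∀ k, ‖p.coeff k‖ ≤ 2)
    (hT : 1 ≤ T) : sq p T ≤ c ^ 2 + 16 * Real.exp (-(2 * T)) := by
  set x : ℝ := Real.exp (-(2 * T)) with hx
  have hx0 : 0 < x := Real.exp_pos _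
  have hx1 : x ≤ 1 / 2 := by
    have h3 : (2 : ℝ) * 1 ≤ Real.exp (2 * T) := by
      have := Real.add_one_le_exp (2 * T)
      linarith
    rw [hx, Real.exp_neg]
    rw [inv_le_comm₀ (Real.exp_pos _) (by norm_num)]
    norm_num at h3 ⊢
    exact h3
  unfold sq
  have hterm : ∀ k ∈ p.support, ‖p.coeff k‖ ^ 2 * Real.exp (-(2 * k * T)) ≤
      (if k = 0 then c ^ 2 else 0) + 8 * x * (1 / 2) ^ k := by
    intro k _
    split_ifs with hk
    · subst hk
      simp only [CharP.cast_eq_zero, mul_zero, zero_mul, neg_zero, Real.exp_zero, mul_one, pow_zero]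
      have h3 : ‖p.coeff 0‖ ≤ c := by
        rw [Polynomial.coeff_zero_eq_eval_zero]
        exact hc
      have h4 : ‖p.coeff 0‖ ^ 2 ≤ c ^ 2 := by gcongr
      linarith
    · rw [zero_add]
      have h3 : Real.exp (-(2 * k * T)) = x ^ k := by
        rw [hx, ← Real.exp_nat_mul]
        congr 1
        ring
      rw [h3]
      obtain ⟨m, rfl⟩ := Nat.exists_eq_succ_of_ne_zero hk
      have h4 : x ^ (m + 1) ≤ x * (1 / 2) ^ m := by
        rw [pow_succ, mul_comm]
        gcongr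
      have h5 : ‖p.coeff (m + 1)‖ ^ 2 ≤ 2 ^ 2 := by
        gcongr
        exact h2 _
      calc ‖p.coeff (m + 1)‖ ^ 2 * x ^ (m + 1) ≤ 2 ^ 2 * (x * (1 / 2) ^ m) := by gcongr
        _ = 8 * x * (1 / 2) ^ (m + 1) := by rw [pow_succ]; ring
  refine (Finset.sum_le_sum hterm).trans ?_
  rw [Finset.sum_add_distrib, ← Finset.mul_sum]
  have h3 : ∑ k ∈ p.support, (if k = 0 then c ^ 2 else 0) ≤ c ^ 2 := by
    rw [Finset.sum_ite_eq']
    split_ifs
    · exact le_rfl
    · positivity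
  have h4 := mul_le_mul_of_nonneg_left (T2_geom p.support) (show 0 ≤ 8 * x by positivity)
  linarith

/-! ### a real point away from the zeros -/

theorem T2_avoid (s : Multiset ℂ) {ρ : ℝ} (hρ : 0 < ρ) : ∃ a : ℝ, |a| ≤ ρ ∧
    ∀ z ∈ s, ρ / (s.card + 1) ≤ |a - z.re| := by
  classical
  by_contra hcon
  push Not at hcon
  set n := s.card with hn
  have hn0 : (0 : ℝ) < n + 1 := by positivity
  set pt : ℕ → ℝ := fun m => -ρ + (2 * m + 1) * (ρ / (n + 1)) with hpt
  have hd : 0 < ρ / (n + 1) := by positivity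
  have hmem : ∀ m ∈ Finset.range (n + 1), ∃ z ∈ s, |pt m - z.re| < ρ / (n + 1) := by
    intro m hm
    apply hcon
    rw [Finset.mem_range] at hm
    have h1 : (m : ℝ) ≤ n := by exact_mod_cast (Nat.lt_succ_iff.1 hm)
    have h2 : (2 * (m : ℝ) + 1) * (ρ / (n + 1)) ≤ 2 * ρ := by
      calc (2 * (m : ℝ) + 1) * (ρ / (n + 1)) ≤ (2 * (n + 1)) * (ρ / (n + 1)) := by
            gcongr
            linarith
        _ = 2 * ρ := by field_simp
    have h3 : 0 ≤ (2 * (m : ℝ) + 1) * (ρ / (n + 1)) := by positivity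
    rw [hpt, abs_le]
    constructor <;> simp only <;> linarith
  choose! f hf1 hf2 using hmem
  have hinj : Set.InjOn f (Finset.range (n + 1) : Finset ℕ) := by
    intro m hm m' hm' hmm
    rw [Finset.mem_coe] at hm hm'
    have h1 := hf2 m hm
    have h2 := hf2 m' hm'
    rw [hmm] at h1
    have h3 : |pt m - pt m'| < 2 * (ρ / (n + 1)) := by
      have := abs_sub_le (pt m) (f m').re (pt m')
      rw [abs_sub_comm (f m').re (pt m')] at this
      linarith
    have h4 : pt m - pt m' = 2 * (ρ / (n + 1)) * ((m : ℝ) - m') := by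
      rw [hpt]
      ring
    rw [h4, abs_mul, abs_of_pos (by positivity)] at h3
    have h5 : |(m : ℝ) - m'| < 1 := by
      by_contra hc
      rw [not_lt] at hc
      have := mul_le_mul_of_nonneg_left hc (show 0 ≤ 2 * (ρ / (n + 1)) by positivity)
      linarith
    have h6 : |(m : ℤ) - m'| < 1 := by exact_mod_cast h5
    have h7 := Int.abs_lt_one_iff.1 h6
    omega
  have hc := Finset.card_le_card_of_injOn f (s := Finset.range (n + 1)) (t := s.toFinset)
    (fun m hm => by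
      rw [Finset.mem_coe] at hm ⊢
      rw [Multiset.mem_toFinset]
      exact hf1 m hm) hinj
  rw [Finset.card_range] at hc
  have := Multiset.toFinset_card_le s
  omega

/-! ### the zero free factor -/

theorem T2_g : ∃ C : ℝ, 1 ≤ C ∧ ∀ (g : ℂ → ℂ) (M : ℝ), DF g 0 1 → (∀ z : ℂ, ‖z‖ ≤ 3 / 4 → g z ≠ 0) →
    (∃ a0 : ℂ, ‖a0‖ ≤ 1 / 2 ∧ Real.exp (-M) ≤ ‖g a0‖) →
    (∀ z : ℂ, ‖z‖ ≤ 1 / 2 → Real.exp (-(C * M)) ≤ ‖g z‖) ∧
    ∀ (r : ℝ) (a w : ℂ), ‖a‖ ≤ r → ‖w‖ ≤ r → r ≤ 1 / 16 → 32 * C * M * r ≤ 1 →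
      Real.exp (-1) * ‖g w‖ ≤ ‖g a‖ := by
  obtain ⟨C0, hC0, hch⟩ := Muntz.SEG_chain (θ := 1 / 2) (by norm_num) (by norm_num)
  refine ⟨C0 + 1, by linarith, ?_⟩
  intro g M hg hg0 ⟨a0, ha0, hM⟩
  have hg0' : ∀ z ∈ closedBall (0 : ℂ) ((1 + 1 / 2) / 2), g z ≠ 0 := by
    intro z hz
    apply hg0
    rw [mem_closedBall, dist_zero_right] at hz
    linarith
  have hM0 : 0 ≤ M := by
    have h1 : Real.exp (-M) ≤ 1 := hM.trans (hg.bd a0 (by rw [mem_closedBall, dist_zero_right]; linarith))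
    have h2 := Real.exp_le_one_iff.1 h1
    linarith
  have hga0 : g a0 ≠ 0 := hg0 a0 (by linarith)
  have hnl : Muntz.nl (g a0) ≤ ENNReal.ofReal M := by
    rw [Muntz.SEG_nl_of_ne hga0]
    apply ENNReal.ofReal_le_ofReal
    have h1 := Real.log_le_log (Real.exp_pos _) hM
    rw [Real.log_exp] at h1
    linarith
  have key : ∀ z : ℂ, ‖z‖ ≤ 1 / 2 → Muntz.nl (g z) ≤ ENNReal.ofReal (C0 * M) := by
    intro z hz
    have h1 := hch g hg.an hg.bd hg0' z (by rw [mem_closedBall, dist_zero_right]; exact hz) a0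
      (by rw [mem_closedBall, dist_zero_right]; exact ha0)
    rw [ENNReal.ofReal_mul hC0.le]
    exact h1.trans (mul_le_mul_right hnl _)
  have hCM : 0 ≤ C0 * M := by positivity
  constructor
  · intro z hz
    refine A5_exp_le_of_nl (hg0 z (by linarith)) (by nlinarith) ((key z hz).trans ?_)
    apply ENNReal.ofReal_le_ofReal
    nlinarith
  · intro r a w ha hw hr hCMr
    have hr0 : 0 ≤ r := (norm_nonneg _).trans ha
    have hwn : g w ≠ 0 := hg0 w (by linarith)
    have han : g a ≠ 0 := hg0 a (by linarith)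
    -- Harnack with centre a, radius 1/4
    have hsub : closedBall a (1 / 4) ⊆ closedBall (0 : ℂ) (3 / 4) := by
      intro z hz
      rw [mem_closedBall, dist_eq_norm] at hz
      rw [mem_closedBall, dist_zero_right]
      have := norm_add_le (z - a) a
      rw [sub_add_cancel] at this
      linarith
    have hsub1 : closedBall (0 : ℂ) (3 / 4) ⊆ closedBall (0 : ℂ) 1 := closedBall_subset_closedBall (by norm_num)
    have hA := hg.an.mono (hsub.trans hsub1)
    have hB : ∀ z ∈ closedBall a (1 / 4 : ℝ), ‖g z‖ ≤ 1 := fun z hz => hg.bd z (hsub1 (hsub hz))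
    have hN : ∀ z ∈ closedBall a (1 / 4 : ℝ), g z ≠ 0 := fun z hz => hg0 z (by
      have := hsub hz
      rwa [mem_closedBall, dist_zero_right] at this)
    have h1 := Muntz.harnack_lower (θ := 8 * r) (w := w) (c := a) (R := 1 / 4) (by norm_num) hA hB
      (by linarith) (by linarith) (by
        rw [mem_closedBall, dist_eq_norm]
        have := norm_sub_le w a
        linarith)
    rw [Muntz.SEG_cav_free (by norm_num) hA hB hN] at h1
    -- real numbers
    have hgw1 : ‖g w‖ ≤ 1 := hg.bd w (by rw [mem_closedBall, dist_zero_right]; linarith)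
    have hga1 : ‖g a‖ ≤ 1 := hg.bd a (by rw [mem_closedBall, dist_zero_right]; linarith)
    rw [Muntz.SEG_nl_of_ne hwn, Muntz.SEG_nl_of_ne han, ← ENNReal.ofReal_mul (by
      apply div_nonneg <;> linarith)] at h1
    have hlw : 0 ≤ -Real.log ‖g w‖ := by
      have := Real.log_nonpos (norm_nonneg _) hgw1
      linarith
    have hla : 0 ≤ -Real.log ‖g a‖ := by
      have := Real.log_nonpos (norm_nonneg _) hga1
      linarith
    have h2 := (ENNReal.ofReal_le_ofReal_iff hlw).1 h1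
    have h3 := key w (by linarith)
    rw [Muntz.SEG_nl_of_ne hwn] at h3
    have h4 := (ENNReal.ofReal_le_ofReal_iff hCM).1 h3
    rw [div_mul_eq_mul_div, div_le_iff₀ (by linarith)] at h2
    -- u(a) (1-θ) ≤ u(w) (1+θ), so u(a) ≤ u(w) + 4 θ u(w)
    have h5 : -Real.log ‖g a‖ ≤ -Real.log ‖g w‖ + 32 * r * (C0 * M) := by
      set ua := -Real.log ‖g a‖
      set uw := -Real.log ‖g w‖
      have h6 : ua * (1 - 8 * r) ≤ (uw + 32 * r * uw) * (1 - 8 * r) := by
        have h7 : uw * (1 + 8 * r) ≤ (uw + 32 * r * uw) * (1 - 8 * r) := by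
          have h8 : 0 ≤ uw * (r * (16 - 256 * r)) := by
            apply mul_nonneg hlw
            apply mul_nonneg hr0
            linarith
          nlinarith
        linarith
      have h9 := le_of_mul_le_mul_right h6 (by linarith)
      have h10 : 32 * r * uw ≤ 32 * r * (C0 * M) := by gcongr
      linarith
    have h6 : 32 * r * (C0 * M) ≤ 1 := by
      refine le_trans ?_ hCMr
      have : 0 ≤ 32 * r * M := by positivity
      nlinarith
    have h7 : -1 + Real.log ‖g w‖ ≤ Real.log ‖g a‖ := by linarith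
    calc Real.exp (-1) * ‖g w‖ = Real.exp (-1 + Real.log ‖g w‖) := by
          rw [Real.exp_add, Real.exp_log (norm_pos_iff.2 hwn)]
      _ ≤ Real.exp (Real.log ‖g a‖) := Real.exp_le_exp.2 h7
      _ = ‖g a‖ := Real.exp_log (norm_pos_iff.2 han)

/-! ### Blaschke products -/

theorem T2_bp_low {s : Multiset ℂ} (hs : ∀ a ∈ s, ‖a‖ < 1) {z : ℂ} (hz : ‖z‖ ≤ 1) {d : ℝ} (hd : 0 ≤ d)
    (h : ∀ a ∈ s, d ≤ ‖z - a‖) : (d / 2) ^ s.card ≤ ‖bp s z‖ := by
  refine le_trans ?_ (A6_bp_lower s hs hz)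
  clear hs
  induction s using Multiset.induction_on with
  | empty => simp
  | cons a s ih =>
    have h1 := ih (fun b hb => h b (Multiset.mem_cons_of_mem hb))
    have h2 := h a (Multiset.mem_cons_self a s)
    rw [Multiset.card_cons, Multiset.map_cons, Multiset.prod_cons, pow_succ, mul_comm]
    have h3 : d / 2 ≤ ‖z - a‖ / 2 := by linarith
    exact mul_le_mul h3 h1 (by positivity) (by positivity)

theorem T2_den {z a : ℂ} (hz : ‖z‖ ≤ 1) (ha : ‖a‖ ≤ 1 / 2) :
    1 / 2 ≤ ‖1 - (starRingEnd ℂ) z * a‖ ∧ ‖1 - (starRingEnd ℂ) z * a‖ ≤ 2 := by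
  have h1 : ‖(starRingEnd ℂ) z * a‖ ≤ 1 / 2 := by
    rw [norm_mul, Complex.norm_conj]
    calc ‖z‖ * ‖a‖ ≤ 1 * (1 / 2) := by gcongr
      _ = 1 / 2 := one_mul _
  constructor
  · have := norm_sub_norm_le (1 : ℂ) ((starRingEnd ℂ) z * a)
    rw [norm_one] at this
    linarith
  · have := norm_sub_le (1 : ℂ) ((starRingEnd ℂ) z * a)
    rw [norm_one] at this
    linarith

theorem T2_bp_ratio {s : Multiset ℂ} (hs : ∀ a ∈ s, ‖a‖ ≤ 1) {a w : ℂ} (ha : ‖a‖ ≤ 1 / 2) (hw : ‖w‖ ≤ 1 / 2)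
    {D : ℝ} (hD : 0 ≤ D) (h : ∀ z ∈ s, ‖w - z‖ ≤ D * ‖a - z‖) :
    ‖bp s w‖ ≤ (4 * D) ^ s.card * ‖bp s a‖ := by
  induction s using Multiset.induction_on with
  | empty => simp [bp]
  | cons z s ih =>
    have h1 := ih (fun b hb => hs b (Multiset.mem_cons_of_mem hb)) (fun b hb => h b (Multiset.mem_cons_of_mem hb))
    have h2 := h z (Multiset.mem_cons_self z s)
    have hz := hs z (Multiset.mem_cons_self z s)
    obtain ⟨d1, d2⟩ := T2_den hz hw
    obtain ⟨d3, d4⟩ := T2_den hz ha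
    simp only [bp, Multiset.map_cons, Multiset.prod_cons, norm_mul, Multiset.card_cons] at h1 ⊢
    have h3 : ‖(w - z) / (1 - (starRingEnd ℂ) z * w)‖ ≤
        (4 * D) * ‖(a - z) / (1 - (starRingEnd ℂ) z * a)‖ := by
      rw [norm_div, norm_div, ← mul_div_assoc, div_le_div_iff₀ (by linarith) (by linarith)]
      have e1 : ‖w - z‖ * ‖1 - (starRingEnd ℂ) z * a‖ ≤ (D * ‖a - z‖) * 2 := by gcongr
      have e2 : (4 * D * ‖a - z‖) * (1 / 2) ≤ 4 * D * ‖a - z‖ * ‖1 - (starRingEnd ℂ) z * w‖ := by gcongr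
      linarith
    calc _ ≤ ((4 * D) * ‖(a - z) / (1 - (starRingEnd ℂ) z * a)‖) *
          ((4 * D) ^ s.card * ‖(Multiset.map (fun a_1 => (a - a_1) / (1 - (starRingEnd ℂ) a_1 * a)) s).prod‖) :=
          mul_le_mul h3 h1 (norm_nonneg _) (by positivity)
      _ = _ := by rw [pow_succ]; ring

/-! ### numerical facts -/

theorem T2_pow_lin (K : ℝ) : ∃ i1 : ℕ, ∀ i, i1 ≤ i → K + 2 * (i : ℝ) ≤ 2 ^ i := by
  have h1 : Filter.Tendsto (fun i : ℕ => (i : ℝ) ^ 1 / 2 ^ i) Filter.atTop (nhds 0) :=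
    tendsto_pow_const_div_const_pow_of_one_lt 1 (by norm_num)
  have h2 := h1.eventually (gt_mem_nhds (show (0 : ℝ) < 1 / 4 by norm_num))
  obtain ⟨n1, hn1⟩ := Filter.eventually_atTop.1 h2
  obtain ⟨n2, hn2⟩ := pow_unbounded_of_one_lt (2 * K) (by norm_num : (1 : ℝ) < 2)
  refine ⟨n1 + n2, fun i hi => ?_⟩
  have h3 := hn1 i (by omega)
  rw [pow_one, div_lt_iff₀ (by positivity)] at h3
  have h4 : (2 : ℝ) ^ n2 ≤ 2 ^ i := pow_le_pow_right₀ (by norm_num) (by omega)
  linarith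

theorem T2_num (C : ℝ) (hC : 1 ≤ C) : ∃ i1 : ℕ, ∀ i j : ℕ, i1 ≤ i → 100 * i ≤ j →
    100 ≤ j ∧ 24000 * 8 ^ i + 10 ≤ Aa i j ∧ C * (hh i * La i ^ 2 * 2 ^ j) ≤ Aa i j / 8 ∧
    (∀ n : ℝ, 0 ≤ n → n ≤ 4 ^ i → n * Tb i j 12000 ≤ Aa i j / 8 ∧ n * Real.log (4 * (n + 1)) ≤ Aa i j / 8 ∧
      5 + n * Real.log (4 * (2 * n + 3)) ≤ 8 ^ i) ∧
    ∀ b, b < 12000 → 32 * C * (hh i * La i ^ 2 * 2 ^ j) * tau i j b ≤ 1 ∧ tau i j b ≤ 1 / 16 := by
  obtain ⟨i2, hi2⟩ := La_large (8 * C)
  obtain ⟨i3, hi3⟩ := T2_pow_lin 20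
  obtain ⟨i4, hi4⟩ := pow_unbounded_of_one_lt (32 * C) (by norm_num : (1 : ℝ) < 2)
  refine ⟨i2 + i3 + i4 + 20, fun i j hi hij => ?_⟩
  have hj : 100 ≤ j := by omega
  have hLa := hi2 i (by omega)
  have hLa1 := La_one i
  have hApos := Aa_pos i j
  have hhp := hh_pos i
  -- a big lower bound for A
  have hA1 : (2 : ℝ) ^ (99 * i) ≤ Aa i j :=
    (pow_le_pow_right₀ (by norm_num) (by omega)).trans (Aa_low hij)
  have h16 : (2 : ℝ) ^ 20 ≤ 2 ^ i := pow_le_pow_right₀ (by norm_num) (by omega)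
  have h2i : (0 : ℝ) < 2 ^ i := by positivity
  have e8 : (8 : ℝ) ^ i = (2 ^ i) ^ 3 := by rw [← pow_mul, mul_comm i 3, pow_mul]; norm_num
  have e4 : (4 : ℝ) ^ i = (2 ^ i) ^ 2 := by rw [← pow_mul, mul_comm i 2, pow_mul]; norm_num
  have e99 : (2 : ℝ) ^ (99 * i) = (2 ^ i) ^ 99 := by rw [← pow_mul, mul_comm]
  set x : ℝ := (2 : ℝ) ^ i with hx
  have hx1 : 1 ≤ x := by linarith [h16, (by norm_num : (1 : ℝ) ≤ 2 ^ 20)]
  have hx20 : (1048576 : ℝ) ≤ x := by
    have : (2 : ℝ) ^ 20 = 1048576 := by norm_num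
    linarith
  have hx99 : x ^ 10 ≤ Aa i j := by
    refine le_trans ?_ hA1
    rw [e99]
    exact pow_le_pow_right₀ hx1 (by norm_num)
  have hx5 : 1048576 * x ^ 5 ≤ x ^ 10 := by
    have h1 : x ≤ x ^ 5 := le_self_pow₀ hx1 (by norm_num)
    have h2 : x ^ 10 = x ^ 5 * x ^ 5 := by ring
    rw [h2]
    have : 0 < x ^ 5 := by positivity
    nlinarith
  have hx3 : x ^ 3 ≤ x ^ 5 := pow_le_pow_right₀ hx1 (by norm_num)
  have hx35 : 1 ≤ x ^ 5 := one_le_pow₀ hx1
  refine ⟨hj, ?_, ?_, ?_, ?_⟩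
  · rw [e8]
    nlinarith
  · rw [Aa_eq]
    have h1 : 8 * C ≤ La i ^ 2 := hLa.trans (le_self_pow₀ hLa1 (by norm_num))
    have h2 : 0 < hh i * La i ^ 2 * 2 ^ j := by
      have := La_pos i
      positivity
    have h3 : hh i * La i ^ 4 * 2 ^ j = La i ^ 2 * (hh i * La i ^ 2 * 2 ^ j) := by ring
    rw [h3]
    have := mul_le_mul_of_nonneg_right h1 h2.le
    linarith
  · intro n hn0 hn
    rw [e4] at hn
    have hn1 : n + 1 ≤ 2 * x ^ 2 := by
      have : 1 ≤ x ^ 2 := one_le_pow₀ hx1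
      linarith
    refine ⟨?_, ?_, ?_⟩
    · unfold Tb
      rw [La_pow3, e8]
      calc n * (2 * Aa i j / x ^ 3) ≤ x ^ 2 * (2 * Aa i j / x ^ 3) := by gcongr
        _ = 2 * Aa i j / x := by field_simp
        _ ≤ Aa i j / 8 := by
          rw [div_le_div_iff₀ (by positivity) (by norm_num)]
          nlinarith
    · have h1 : Real.log (4 * (n + 1)) ≤ 4 * (n + 1) := by
        have := Real.log_le_sub_one_of_pos (show 0 < 4 * (n + 1) by linarith)
        linarith
      calc n * Real.log (4 * (n + 1)) ≤ n * (4 * (n + 1)) := by gcongr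
        _ ≤ x ^ 2 * (4 * (2 * x ^ 2)) := by gcongr
        _ = 8 * x ^ 4 := by ring
        _ ≤ 8 * x ^ 5 := by
          have : x ^ 4 ≤ x ^ 5 := pow_le_pow_right₀ hx1 (by norm_num)
          linarith
        _ ≤ Aa i j / 8 := by linarith
    · have h1 : Real.log (4 * (2 * n + 3)) ≤ 5 + 2 * (i : ℝ) := by
        have h2 : 4 * (2 * n + 3) ≤ 20 * x ^ 2 := by
          have : 1 ≤ x ^ 2 := one_le_pow₀ hx1
          linarith
        have h3 : Real.log (20 * x ^ 2) = Real.log 20 + 2 * (i * Real.log 2) := by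
          rw [Real.log_mul (by norm_num) (by positivity), Real.log_pow, hx, Real.log_pow]
          push_cast
          ring
        have h4 : Real.log 2 ≤ 1 := by
          have := Real.log_le_sub_one_of_pos (show (0 : ℝ) < 2 by norm_num)
          linarith
        have h5 : Real.log 20 ≤ 5 := by
          rw [Real.log_le_iff_le_exp (by norm_num)]
          have h6 : (2 : ℝ) ≤ Real.exp 1 := by
            have := Real.add_one_le_exp (1 : ℝ)
            linarith
          calc (20 : ℝ) ≤ 2 ^ 5 := by norm_num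
            _ ≤ Real.exp 1 ^ 5 := pow_le_pow_left₀ (by norm_num) h6 5
            _ = Real.exp 5 := by rw [← Real.exp_nat_mul]; norm_num
        calc Real.log (4 * (2 * n + 3)) ≤ Real.log (20 * x ^ 2) :=
              Real.log_le_log (by linarith) h2
          _ = Real.log 20 + 2 * (i * Real.log 2) := h3
          _ ≤ 5 + 2 * (i * 1) := by gcongr
          _ = 5 + 2 * (i : ℝ) := by ring
      have h2 := hi3 i (by omega)
      rw [e8]
      have h3 : n * Real.log (4 * (2 * n + 3)) ≤ x ^ 2 * (5 + 2 * (i : ℝ)) := by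
        have h4 : 0 ≤ 5 + 2 * (i : ℝ) := by positivity
        calc n * Real.log (4 * (2 * n + 3)) ≤ n * (5 + 2 * (i : ℝ)) := by gcongr
          _ ≤ x ^ 2 * (5 + 2 * (i : ℝ)) := by gcongr
      have h4 : x ^ 2 * (20 + 2 * (i : ℝ)) ≤ x ^ 2 * x := by gcongr
      have h5 : 1 ≤ x ^ 2 := one_le_pow₀ hx1
      nlinarith
  · intro b hb
    have h1 := TN_tau_small hij hj hb
    have hτ := tau_pos i j b
    set y : ℝ := (2 : ℝ) ^ j with hy
    have hy2 : (2 : ℝ) ^ i4 ≤ y := pow_le_pow_right₀ (by norm_num) (by omega)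
    have hy1 : 1 ≤ y := one_le_pow₀ (by norm_num)
    have hM : hh i * La i ^ 2 * y ≤ y := by
      have h2 : hh i * La i ^ 2 ≤ 1 := by
        rw [La_hh]
        have h3 : La i ^ 2 ≤ La i ^ 4000 := pow_le_pow_right₀ hLa1 (by norm_num)
        have h4 : 0 < La i ^ 4000 := pow_pos (La_pos i) _
        rw [inv_mul_le_iff₀ h4, mul_one]
        exact h3
      have := mul_le_mul_of_nonneg_right h2 (show 0 ≤ y by linarith)
      linarith
    have hy98 : y * y ≤ y ^ 100 := by
      have h2 : y ^ 2 ≤ y ^ 100 := pow_le_pow_right₀ hy1 (by norm_num)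
      nlinarith
    have h5 : y * y * tau i j b ≤ 1 / 1000 := by
      refine le_trans ?_ h1
      gcongr
    have h6 : tau i j b ≤ 1 / 1000 := by
      refine le_trans ?_ h5
      have : 1 ≤ y * y := by nlinarith
      have := mul_le_mul_of_nonneg_right this hτ.le
      linarith
    constructor
    · calc 32 * C * (hh i * La i ^ 2 * y) * tau i j b ≤ y * y * tau i j b := by
            apply mul_le_mul_of_nonneg_right _ hτ.le
            apply mul_le_mul (by linarith) hM _ (by linarith)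
            have := La_pos i
            positivity
        _ ≤ 1 := by linarith
    · linarith

theorem typ_index : ∃ i1 : ℕ, ∀ (i j : ℕ) (f : ℂ → ℂ) (p : Polynomial ℂ), i1 ≤ i → 100 * i ≤ j →
    DF f 0 1 → f 0 = 0 → Typ f 0 (4 ^ i) (hh i * La i ^ 2 * 2 ^ j) →
    (∀ a : ℂ, ‖a‖ ≤ 1 → ‖f a - p.eval a‖ ≤ Real.exp (-(2 * Aa i j)) / 2) →
    ∃ b < 12000, sq p (Tb i j b) ≤ del i j b ^ 2 ∧
      ∃ a' : ℝ, |a'| ≤ tau i j b ∧ 2 * del i j b ≤ ‖p.eval (a' : ℂ)‖ := by
  classical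
  obtain ⟨C, hC, hgC⟩ := T2_g
  obtain ⟨i1, hnum⟩ := T2_num C hC
  refine ⟨i1, fun i j f p hi hij hf hf0 hT hfp => ?_⟩
  obtain ⟨hj, hA, hM, hn, hτ⟩ := hnum i j hi hij
  obtain ⟨⟨s, g, hsc, hs, hg, hg0, hfac⟩, a0, ha0, hfa0⟩ := hT
  simp only [zero_add] at hfac hfa0
  set M : ℝ := hh i * La i ^ 2 * 2 ^ j with hMd
  set A : ℝ := Aa i j with hAd
  have hApos : 0 < A := Aa_pos i j
  have h8 : (0 : ℝ) < 8 ^ i := by positivity
  have hs1 : ∀ a ∈ s, ‖a‖ < 1 := fun a ha => lt_of_le_of_lt (hs a ha) (by norm_num)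
  have hsn := hn s.card (by positivity) hsc
  obtain ⟨hn1, hn2, hn3⟩ := hsn
  -- the function g
  have hga0 : Real.exp (-M) ≤ ‖g a0‖ := by
    have h1 := hfac a0 (by rw [mem_closedBall, dist_zero_right]; linarith)
    rw [h1, norm_mul] at hfa0
    have h2 : ‖bp s a0‖ ≤ 1 := by
      have h3 := Muntz.SEG_nl_prod s (fun a => Muntz.SEG_B a a0)
        (fun a ha => Muntz.SEG_B_le (hs1 a ha) (by linarith))
      exact h3.1
    calc Real.exp (-M) ≤ ‖bp s a0‖ * ‖g a0‖ := hfa0
      _ ≤ 1 * ‖g a0‖ := by gcongr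
      _ = ‖g a0‖ := one_mul _
  obtain ⟨hgl, hgr⟩ := hgC g M hg hg0 ⟨a0, ha0, hga0⟩
  -- coefficients of p
  have hp2 : ∀ a : ℂ, ‖a‖ ≤ 1 → ‖p.eval a‖ ≤ 2 := by
    intro a ha
    have h1 := hfp a ha
    have h2 := hf.bd a (by rw [mem_closedBall, dist_zero_right]; exact ha)
    have h3 : ‖p.eval a‖ ≤ ‖f a‖ + ‖f a - p.eval a‖ := by
      have := norm_sub_le (f a) (f a - p.eval a)
      rwa [sub_sub_cancel] at this
    have h4 : Real.exp (-(2 * A)) ≤ 1 := Real.exp_le_one_iff.2 (by linarith)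
    linarith
  have hc2 := T2_coeff_two hp2
  -- b = 0
  have hb0 : sq p (Tb i j 0) ≤ del i j 0 ^ 2 := by
    have hT0 : Tb i j 0 = 2 * A := by
      unfold Tb
      rw [pow_zero, div_one]
    have hp0 : ‖p.eval 0‖ ≤ Real.exp (-(2 * A)) / 2 := by
      have := hfp 0 (by simp)
      rw [hf0, zero_sub, norm_neg] at this
      exact this
    have h1 := T2_sq_le hp0 hc2 (T := Tb i j 0) (by
      rw [hT0]
      linarith)
    refine h1.trans ?_
    have e1 : (Real.exp (-(2 * A)) / 2) ^ 2 = Real.exp (-(4 * A)) / 4 := by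
      rw [div_pow, ← Real.exp_nat_mul]
      congr 1
      · congr 1
        push_cast
        ring
      · norm_num
    have e2 : Real.exp (-(2 * Tb i j 0)) = Real.exp (-(4 * A)) := by
      rw [hT0]
      congr 1
      ring
    have e3 : del i j 0 ^ 2 = Real.exp (-(2 * A + 24000 * 8 ^ i)) := by
      unfold del
      rw [← Real.exp_nat_mul, ← hAd]
      congr 1
      push_cast
      ring
    rw [e1, e2, e3]
    have e4 : Real.exp (-(4 * A)) * 17 ≤ Real.exp (-(2 * A + 24000 * 8 ^ i)) := by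
      have h2 : (17 : ℝ) ≤ Real.exp 16 := by
        have := Real.add_one_le_exp (16 : ℝ)
        linarith
      calc Real.exp (-(4 * A)) * 17 ≤ Real.exp (-(4 * A)) * Real.exp 16 := by gcongr
        _ = Real.exp (-(4 * A) + 16) := by rw [Real.exp_add]
        _ ≤ _ := Real.exp_le_exp.2 (by linarith)
    have := Real.exp_pos (-(4 * A))
    linarith
  -- the largest index
  obtain ⟨b, hbd⟩ : ∃ b, b = Nat.findGreatest (fun b => sq p (Tb i j b) ≤ del i j b ^ 2) 12000 := ⟨_, rfl⟩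
  have hb1 : sq p (Tb i j b) ≤ del i j b ^ 2 := by
    rw [hbd]
    exact Nat.findGreatest_spec (P := fun b => sq p (Tb i j b) ≤ del i j b ^ 2) (Nat.zero_le _) hb0
  have hb2 : b ≤ 12000 := by
    rw [hbd]
    exact Nat.findGreatest_le _
  rcases Nat.lt_or_ge b 12000 with hlt | hge
  · refine ⟨b, hlt, hb1, ?_⟩
    have hb3 : ¬ sq p (Tb i j (b + 1)) ≤ del i j (b + 1) ^ 2 :=
      Nat.findGreatest_is_greatest (P := fun b => sq p (Tb i j b) ≤ del i j b ^ 2) (n := 12000)
        (by rw [← hbd]; omega) (by omega)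
    obtain ⟨w, hw1, hw2⟩ := T2_sq p (Tb i j (b + 1))
    have hwr : ‖w‖ = tau i j b := hw1
    set r : ℝ := tau i j b with hr
    have hr0 : 0 < r := tau_pos i j b
    obtain ⟨hr1, hr2⟩ := hτ b hlt
    have hdb1 : 0 < del i j (b + 1) := Real.exp_pos _
    have hdb : 0 < del i j b := Real.exp_pos _
    have hpw : del i j (b + 1) < ‖p.eval w‖ := by
      rw [not_le] at hb3
      have h1 : del i j (b + 1) ^ 2 < ‖p.eval w‖ ^ 2 := lt_of_lt_of_le hb3 hw2
      exact lt_of_pow_lt_pow_left₀ 2 (norm_nonneg _) h1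
    have hstep : del i j (b + 1) = del i j b * Real.exp (8 ^ i) := by
      unfold del
      rw [← Real.exp_add]
      congr 1
      push_cast
      ring
    have hbig : 10 * Real.exp (-(2 * A)) ≤ del i j b := by
      have h1 : (10 : ℝ) ≤ Real.exp 10 := by
        have := Real.add_one_le_exp (10 : ℝ)
        linarith
      have h2 : A + (12000 - (b : ℝ)) * 8 ^ i ≤ A + 12000 * 8 ^ i := by
        have : (0 : ℝ) ≤ b * 8 ^ i := by positivity
        linarith
      calc 10 * Real.exp (-(2 * A)) ≤ Real.exp 10 * Real.exp (-(2 * A)) := by gcongr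
        _ = Real.exp (10 + -(2 * A)) := by rw [Real.exp_add]
        _ ≤ del i j b := Real.exp_le_exp.2 (by
          rw [← hAd]
          linarith)
    have hle1 : del i j b ≤ del i j (b + 1) := by
      rw [hstep]
      have : 1 ≤ Real.exp (8 ^ i : ℝ) := Real.one_le_exp h8.le
      nlinarith
    have hfw : del i j (b + 1) / 2 ≤ ‖f w‖ := by
      have h1 := hfp w (by rw [hwr]; linarith)
      have h2 : ‖p.eval w‖ ≤ ‖f w‖ + ‖f w - p.eval w‖ := by
        have := norm_sub_le (f w) (f w - p.eval w)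
        rwa [sub_sub_cancel] at this
      have := Real.exp_pos (-(2 * A))
      linarith
    obtain ⟨a', ha1, ha2⟩ := T2_avoid s hr0
    refine ⟨a', ha1, ?_⟩
    have han : ‖(a' : ℂ)‖ ≤ r := by rw [Complex.norm_real, Real.norm_eq_abs]; exact ha1
    set n : ℝ := (s.card : ℝ) with hnd
    have hn0 : 0 ≤ n := by positivity
    have hD : ∀ z ∈ s, ‖w - z‖ ≤ (2 * n + 3) * ‖(a' : ℂ) - z‖ := by
      intro z hz
      have h1 := ha2 z hz
      have h2 : |a' - z.re| ≤ ‖(a' : ℂ) - z‖ := by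
        have := Complex.abs_re_le_norm ((a' : ℂ) - z)
        simpa using this
      have h3 : ‖w - z‖ ≤ ‖w - a'‖ + ‖(a' : ℂ) - z‖ := by
        have := norm_add_le (w - a') ((a' : ℂ) - z)
        rwa [sub_add_sub_cancel] at this
      have h4 : ‖w - a'‖ ≤ 2 * r := by
        have := norm_sub_le w a'
        linarith
      have h5 : r ≤ (n + 1) * ‖(a' : ℂ) - z‖ := by
        have h6 := h1.trans h2
        rw [div_le_iff₀ (by linarith)] at h6
        linarith
      nlinarith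
    have hbr := T2_bp_ratio (fun a ha => (hs1 a ha).le) (a := (a' : ℂ)) (w := w) (by linarith) (by rw [hwr]; linarith)
      (D := 2 * n + 3) (by linarith) hD
    have hgr' := hgr r a' w han hwr.le hr2 hr1
    have hfw2 := hfac w (by rw [mem_closedBall, dist_zero_right, hwr]; linarith)
    have hfa2 := hfac a' (by rw [mem_closedBall, dist_zero_right]; linarith)
    -- lower bound of ‖f a'‖
    have hK : (4 * (2 * n + 3)) ^ s.card = Real.exp (n * Real.log (4 * (2 * n + 3))) := by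
      rw [hnd, Real.exp_nat_mul, Real.exp_log]
      have : (0 : ℝ) ≤ s.card := by positivity
      linarith
    rw [hK] at hbr
    have h1 : ‖f w‖ ≤ Real.exp (n * Real.log (4 * (2 * n + 3))) * Real.exp 1 * ‖f a'‖ := by
      rw [hfw2, hfa2, norm_mul, norm_mul]
      have h2 : ‖g w‖ ≤ Real.exp 1 * ‖g a'‖ := by
        have h3 := mul_le_mul_of_nonneg_left hgr' (Real.exp_pos 1).le
        rw [← mul_assoc, ← Real.exp_add] at h3
        simpa using h3
      calc ‖bp s w‖ * ‖g w‖ ≤ (Real.exp (n * Real.log (4 * (2 * n + 3))) * ‖bp s a'‖) * (Real.exp 1 * ‖g a'‖) := by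
            gcongr
        _ = _ := by ring
    have h2 : Real.exp (n * Real.log (4 * (2 * n + 3))) * Real.exp 1 * 6 ≤ Real.exp (8 ^ i) := by
      have h3 : (6 : ℝ) ≤ Real.exp 4 := by
        have h4 : (2 : ℝ) ≤ Real.exp 1 := by
          have := Real.add_one_le_exp (1 : ℝ)
          linarith
        calc (6 : ℝ) ≤ 2 ^ 4 := by norm_num
          _ ≤ Real.exp 1 ^ 4 := pow_le_pow_left₀ (by norm_num) h4 4
          _ = Real.exp 4 := by rw [← Real.exp_nat_mul]; norm_num
      calc Real.exp (n * Real.log (4 * (2 * n + 3))) * Real.exp 1 * 6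
          ≤ Real.exp (n * Real.log (4 * (2 * n + 3))) * Real.exp 1 * Real.exp 4 := by gcongr
        _ = Real.exp (n * Real.log (4 * (2 * n + 3)) + 1 + 4) := by rw [Real.exp_add, Real.exp_add]
        _ ≤ Real.exp (8 ^ i) := Real.exp_le_exp.2 (by linarith)
    have h3 : 3 * del i j b ≤ ‖f a'‖ := by
      set B := Real.exp (n * Real.log (4 * (2 * n + 3))) * Real.exp 1 with hB
      have hB0 : 0 < B := by positivity
      have h4 : del i j b * Real.exp (8 ^ i) / 2 ≤ B * ‖f a'‖ := by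
        rw [← hstep]
        exact hfw.trans h1
      have h5 : del i j b * (B * 6) / 2 ≤ del i j b * Real.exp (8 ^ i) / 2 := by gcongr
      have h6 : B * (3 * del i j b) ≤ B * ‖f a'‖ := by linarith
      exact le_of_mul_le_mul_left h6 hB0
    have h4 := hfp a' (by linarith)
    have h5 : ‖f a'‖ ≤ ‖p.eval (a' : ℂ)‖ + ‖f a' - p.eval (a' : ℂ)‖ := by
      have := norm_add_le (p.eval (a' : ℂ)) (f a' - p.eval (a' : ℂ))
      rwa [add_sub_cancel] at this
    have := Real.exp_pos (-(2 * A))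
    linarith
  · exfalso
    have hbe : b = 12000 := le_antisymm hb2 hge
    clear hbd hb2 hge
    subst hbe
    set T : ℝ := Tb i j 12000 with hTd
    have hT0 : 0 ≤ T := by
      have := Tb_big hij hj (le_refl 12000)
      have h1 : (0 : ℝ) ≤ j := Nat.cast_nonneg j
      rw [hTd]
      linarith
    have hdel : del i j 12000 = Real.exp (-A) := by
      unfold del
      congr 1
      rw [← hAd]
      push_cast
      ring
    have hρ : 0 < Real.exp (-T) / 2 := by positivity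
    have hexpT : Real.exp (-T) ≤ 1 := Real.exp_le_one_iff.2 (by linarith)
    obtain ⟨a', ha1, ha2⟩ := T2_avoid s hρ
    have han : ‖(a' : ℂ)‖ ≤ Real.exp (-T) / 2 := by rw [Complex.norm_real, Real.norm_eq_abs]; exact ha1
    set n : ℝ := (s.card : ℝ) with hnd
    have hn0 : 0 ≤ n := by positivity
    have hup : ‖f a'‖ ≤ 3 * Real.exp (-A) := by
      have h1 := T2_eval_le (δ := del i j 12000) (by rw [hdel]; exact (Real.exp_pos _).le) hb1 han
      rw [hdel] at h1
      have h2 := hfp a' (by linarith)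
      have h3 : ‖f a'‖ ≤ ‖p.eval (a' : ℂ)‖ + ‖f a' - p.eval (a' : ℂ)‖ := by
        have := norm_add_le (p.eval (a' : ℂ)) (f a' - p.eval (a' : ℂ))
        rwa [add_sub_cancel] at this
      have h4 : Real.exp (-(2 * A)) ≤ Real.exp (-A) := Real.exp_le_exp.2 (by linarith)
      have h5 := Real.exp_pos (-A)
      linarith
    have hd : ∀ z ∈ s, Real.exp (-T) / 2 / (n + 1) ≤ ‖(a' : ℂ) - z‖ := by
      intro z hz
      refine (ha2 z hz).trans ?_
      have := Complex.abs_re_le_norm ((a' : ℂ) - z)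
      simpa using this
    have haN : ‖(a' : ℂ)‖ ≤ 1 / 2 := han.trans (by linarith)
    have haN1 : ‖(a' : ℂ)‖ ≤ 1 := haN.trans (by norm_num)
    have hbl := T2_bp_low hs1 (z := (a' : ℂ)) haN1 (d := Real.exp (-T) / 2 / (n + 1)) (by positivity) hd
    have hgl' := hgl a' (by linarith only [haN])
    have hmem : (a' : ℂ) ∈ closedBall (0 : ℂ) 1 := by
      rw [mem_closedBall, dist_zero_right]
      exact haN1
    have hfa := hfac a' hmem
    have hK : (Real.exp (-T) / 2 / (n + 1) / 2) ^ s.card =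
        Real.exp (-(n * T + n * Real.log (4 * (n + 1)))) := by
      have h1 : Real.exp (-T) / 2 / (n + 1) / 2 = Real.exp (-(T + Real.log (4 * (n + 1)))) := by
        have hn4 : (0 : ℝ) < 4 * (n + 1) := by linarith
        rw [neg_add, Real.exp_add, Real.exp_neg (Real.log _), Real.exp_log hn4, div_div, div_div,
          div_eq_mul_inv]
        congr 2
        ring
      rw [h1, ← Real.exp_nat_mul]
      congr 1
      rw [hnd]
      ring
    rw [hK] at hbl
    have hlow : Real.exp (-(n * T + n * Real.log (4 * (n + 1)) + C * M)) ≤ ‖f a'‖ := by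
      rw [hfa, norm_mul, neg_add, Real.exp_add]
      exact mul_le_mul hbl hgl' (Real.exp_pos _).le (norm_nonneg _)
    have h3 : (3 : ℝ) ≤ Real.exp 2 := by
      have := Real.add_one_le_exp (2 : ℝ)
      linarith
    have h4 : Real.exp (-(n * T + n * Real.log (4 * (n + 1)) + C * M)) ≤ Real.exp (2 + -A) := by
      rw [Real.exp_add 2]
      refine (hlow.trans hup).trans ?_
      gcongr
    have h5 := Real.exp_le_exp.1 h4
    have h6 : (10 : ℝ) ≤ A := by
      have : (0 : ℝ) ≤ 24000 * 8 ^ i := by positivity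
      linarith
    linarith

end MuntzF
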