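import Pool.Agent.Lib.MP_dde81e_full.TDefs
import Pool.Agent.Lib.MP_dde81e_full.A6

/-!
Module T3 (text 6.3): nontypical integers on a line.  f on closedBall 0 W (W ≥ 8).  `fact` (rescaled, t = 1/2): f = (Blaschke product of the big disc over the zeros in closedBall 0 (3W/4)) · G, at most C Tv zeros.  For |n| ≤ W/4 let s_n be the
zeros a with ‖a-n‖ ≤ 3/4 (translated by n): ∑_n s_n.card ≤ 2·C Tv, so #{n : s_n.card > K} ≤ 2C Tv/K.  f(n+z) = bp s_n z · g z with g analytic on closedBall 0 1, zero free on closedBall 0 (3/4) and ≤ 1 by the maximum principle (as in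
Muntz.blaschke_decomp).  Second condition: if it fails then |f| < e^-M1 on [n-1/2,n+1/2]; expint: total length ≤ C W exp(-c M1/Tv).
-/

namespace MuntzF
open Set Metric MeasureTheory

theorem T3_an (s : Multiset ℂ) (u : ℂ → ℂ → ℂ) (z : ℂ) (h : ∀ a ∈ s, AnalyticAt ℂ (u a) z) :
    AnalyticAt ℂ (fun w => (s.map (fun a => u a w)).prod) z := by
  induction s using Multiset.induction_on with
  | empty =>
    simp only [Multiset.map_zero, Multiset.prod_zero]
    exact analyticAt_const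
  | cons a s ih =>
    simp only [Multiset.map_cons, Multiset.prod_cons]
    exact (h a (Multiset.mem_cons_self a s)).mul (ih (fun b hb => h b (Multiset.mem_cons_of_mem hb)))

theorem T3_den {a z : ℂ} (ha : ‖a‖ ≤ 3 / 4) (hz : ‖z‖ ≤ 1) : 1 - (starRingEnd ℂ) a * z ≠ 0 := by
  intro h0
  have h1 : (starRingEnd ℂ) a * z = 1 := (sub_eq_zero.1 h0).symm
  have h2 : ‖(starRingEnd ℂ) a * z‖ = 1 := by rw [h1]; simp
  rw [norm_mul, RCLike.norm_conj] at h2
  nlinarith [norm_nonneg a, norm_nonneg z]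

theorem T3_bp_one (s : Multiset ℂ) (hs : ∀ a ∈ s, ‖a‖ ≤ 3 / 4) {w : ℂ} (hw : ‖w‖ = 1) :
    ‖bp s w‖ = 1 := by
  induction s using Multiset.induction_on with
  | empty => simp [bp]
  | cons a s ih =>
    have h1 := ih (fun b hb => hs b (Multiset.mem_cons_of_mem hb))
    simp only [bp, Multiset.map_cons, Multiset.prod_cons, norm_mul] at h1 ⊢
    rw [h1, mul_one, norm_div]
    have h3 : ‖w - a‖ = ‖1 - (starRingEnd ℂ) a * w‖ := by
      have h4 : w * (starRingEnd ℂ) w = 1 := by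
        rw [Complex.mul_conj, Complex.normSq_eq_norm_sq, hw]; norm_num
      have h5 : 1 - (starRingEnd ℂ) a * w = w * (starRingEnd ℂ) (w - a) := by
        rw [map_sub, mul_sub, h4]; ring
      rw [h5, norm_mul, hw, one_mul, RCLike.norm_conj]
    rw [h3, div_self (norm_ne_zero_iff.2 (T3_den (hs a (Multiset.mem_cons_self a s)) hw.le))]

theorem T3_local {f h : ℂ → ℂ} {s : Multiset ℂ} (hf : DF f 0 1)
    (hh : AnalyticOnNhd ℂ h (closedBall 0 1)) (hs : ∀ a ∈ s, ‖a‖ ≤ 3 / 4)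
    (h0 : ∀ z : ℂ, ‖z‖ ≤ 3 / 4 → h z ≠ 0) (e : ∀ z ∈ closedBall (0 : ℂ) 1, f z = pz s z * h z) :
    ∃ g : ℂ → ℂ, DF g 0 1 ∧ (∀ z : ℂ, ‖z‖ ≤ 3 / 4 → g z ≠ 0) ∧
      ∀ z ∈ closedBall (0 : ℂ) 1, f z = bp s z * g z := by
  set G : ℂ → ℂ := fun z => (s.map (fun a => 1 - (starRingEnd ℂ) a * z)).prod * h z with hG
  have hGa : AnalyticOnNhd ℂ G (closedBall 0 1) := by
    intro z hz
    refine AnalyticAt.mul ?_ (hh z hz)
    exact T3_an s (fun a w => 1 - (starRingEnd ℂ) a * w) z (fun a _ => by fun_prop)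
  have hfac : ∀ z ∈ closedBall (0 : ℂ) 1, f z = bp s z * G z := by
    intro z hz
    have hz' : ‖z‖ ≤ 1 := by simpa using hz
    rw [e z hz]
    simp only [hG]
    rw [← mul_assoc]
    congr 1
    unfold bp pz
    rw [← Multiset.prod_map_mul]
    congr 1
    refine Multiset.map_congr rfl (fun a ha => ?_)
    rw [div_mul_cancel₀ _ (T3_den (hs a ha) hz')]
  refine ⟨G, ⟨hGa, ?_⟩, ?_, hfac⟩
  · intro z hz
    have hfr : ∀ w ∈ frontier (ball (0 : ℂ) 1), ‖G w‖ ≤ 1 := by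
      intro w hw
      rw [frontier_ball (0 : ℂ) one_ne_zero] at hw
      have hw1 : ‖w‖ = 1 := by simpa using hw
      have hwc : w ∈ closedBall (0 : ℂ) 1 := sphere_subset_closedBall hw
      have h1 := hfac w hwc
      have h6 : ‖f w‖ = ‖G w‖ := by rw [h1, norm_mul, T3_bp_one s hs hw1, one_mul]
      rw [← h6]
      exact hf.bd w hwc
    refine Complex.norm_le_of_forall_mem_frontier_norm_le isBounded_ball ?_ hfr ?_
    · have hd : DifferentiableOn ℂ G (closedBall 0 1) := hGa.differentiableOn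
      exact hd.diffContOnCl_ball subset_rfl
    · rw [closure_ball (0 : ℂ) one_ne_zero]
      exact hz
  · intro z hz
    refine mul_ne_zero ?_ (h0 z hz)
    intro h1
    obtain ⟨a, ha, h2⟩ := Multiset.mem_map.1 (Multiset.prod_eq_zero_iff.1 h1)
    exact T3_den (hs a ha) (by linarith) h2

/-- localisation of the zeros of `f` near the integer `n`. -/
theorem T3_split {f G : ℂ → ℂ} {W : ℝ} {S : Multiset ℂ} {n : ℤ} (hW : 8 ≤ W) (hf : DF f 0 W)
    (hn : |(n : ℝ)| ≤ W / 4) (hS : ∀ b ∈ S, ‖b‖ ≤ 3 / 4) (hG : DF G 0 1)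
    (hG0 : ∀ z : ℂ, ‖z‖ ≤ 3 / 4 → G z ≠ 0)
    (e : ∀ z ∈ closedBall (0 : ℂ) 1, f (0 + W * z) = bp S z * G z) :
    ∃ (s : Multiset ℂ) (g : ℂ → ℂ),
      s.card = (S.filter (fun b => ‖(W : ℂ) * b - n‖ ≤ 3 / 4)).card ∧ (∀ a ∈ s, ‖a‖ ≤ 3 / 4) ∧
      DF g 0 1 ∧ (∀ z : ℂ, ‖z‖ ≤ 3 / 4 → g z ≠ 0) ∧
      ∀ z ∈ closedBall (0 : ℂ) 1, f (n + z) = bp s z * g z := by
  have hW0 : 0 < W := by linarith
  have hWc : (W : ℂ) ≠ 0 := by exact_mod_cast hW0.ne'
  have hnc : ‖(n : ℂ)‖ ≤ W / 4 := by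
    rw [Complex.norm_intCast]
    exact hn
  set P : Multiset ℂ := S.filter (fun b => ‖(W : ℂ) * b - n‖ ≤ 3 / 4) with hP
  set Q : Multiset ℂ := S.filter (fun b => ¬ ‖(W : ℂ) * b - n‖ ≤ 3 / 4) with hQ
  have hPQ : P + Q = S := Multiset.filter_add_not _ _
  set T : ℂ → ℂ := fun z => (n + z) / W with hT
  have hTn : ∀ z : ℂ, ‖z‖ ≤ 1 → ‖T z‖ ≤ 3 / 8 := by
    intro z hz
    simp only [hT]
    rw [norm_div, Complex.norm_real, Real.norm_eq_abs, abs_of_pos hW0, div_le_iff₀ hW0]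
    calc ‖(n : ℂ) + z‖ ≤ ‖(n : ℂ)‖ + ‖z‖ := norm_add_le _ _
      _ ≤ W / 4 + 1 := by linarith
      _ ≤ 3 / 8 * W := by linarith
  have hTa : ∀ z : ℂ, AnalyticAt ℂ T z := by
    intro z
    simp only [hT]
    fun_prop
  have hbP : ∀ b ∈ P, ‖b‖ ≤ 3 / 4 ∧ ‖(W : ℂ) * b - n‖ ≤ 3 / 4 := fun b hb => by
    rw [hP, Multiset.mem_filter] at hb
    exact ⟨hS b hb.1, hb.2⟩
  have hbQ : ∀ b ∈ Q, ‖b‖ ≤ 3 / 4 ∧ ¬ ‖(W : ℂ) * b - n‖ ≤ 3 / 4 := fun b hb => by
    rw [hQ, Multiset.mem_filter] at hb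
    exact ⟨hS b hb.1, hb.2⟩
  set h : ℂ → ℂ := fun z => (P.map (fun b => 1 / ((W : ℂ) * (1 - (starRingEnd ℂ) b * T z)))).prod *
    ((Q.map (fun b => (T z - b) / (1 - (starRingEnd ℂ) b * T z))).prod * G (T z)) with hh
  have hfn : DF (fun z => f (n + z)) 0 1 := by
    have hm : ∀ z ∈ closedBall (0 : ℂ) 1, (n : ℂ) + z ∈ closedBall (0 : ℂ) W := by
      intro z hz
      rw [mem_closedBall, dist_zero_right] at hz ⊢
      calc ‖(n : ℂ) + z‖ ≤ ‖(n : ℂ)‖ + ‖z‖ := norm_add_le _ _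
        _ ≤ W := by linarith
    refine ⟨fun z hz => ?_, fun z hz => hf.bd _ (hm z hz)⟩
    exact AnalyticAt.fun_comp (f := fun z : ℂ => (n : ℂ) + z) (hf.an _ (hm z hz)) (by fun_prop)
  have hha : AnalyticOnNhd ℂ h (closedBall 0 1) := by
    intro z hz
    have hz' : ‖z‖ ≤ 1 := by simpa using hz
    have hT1 : ‖T z‖ ≤ 1 := (hTn z hz').trans (by norm_num)
    have hden : ∀ b : ℂ, AnalyticAt ℂ (fun w => 1 - (starRingEnd ℂ) b * T w) z := by
      intro b
      exact analyticAt_const.sub (analyticAt_const.mul (hTa z))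
    refine AnalyticAt.mul ?_ (AnalyticAt.mul ?_ ?_)
    · refine T3_an P (fun b w => 1 / ((W : ℂ) * (1 - (starRingEnd ℂ) b * T w))) z (fun b hb => ?_)
      refine analyticAt_const.div (analyticAt_const.mul (hden b)) ?_
      exact mul_ne_zero hWc (T3_den (hbP b hb).1 hT1)
    · refine T3_an Q (fun b w => (T w - b) / (1 - (starRingEnd ℂ) b * T w)) z (fun b hb => ?_)
      exact ((hTa z).sub analyticAt_const).div (hden b) (T3_den (hbQ b hb).1 hT1)
    · have hTm : T z ∈ closedBall (0 : ℂ) 1 := by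
        rw [mem_closedBall, dist_zero_right]
        exact hT1
      exact AnalyticAt.fun_comp (f := T) (hG.an _ hTm) (hTa z)
  have hh0 : ∀ z : ℂ, ‖z‖ ≤ 3 / 4 → h z ≠ 0 := by
    intro z hz
    have hT1 : ‖T z‖ ≤ 3 / 8 := hTn z (by linarith)
    refine mul_ne_zero ?_ (mul_ne_zero ?_ ?_)
    · intro h1
      obtain ⟨b, hb, h2⟩ := Multiset.mem_map.1 (Multiset.prod_eq_zero_iff.1 h1)
      have h3 := mul_ne_zero hWc (T3_den (hbP b hb).1 (show ‖T z‖ ≤ 1 by linarith))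
      exact one_div_ne_zero h3 h2
    · intro h1
      obtain ⟨b, hb, h2⟩ := Multiset.mem_map.1 (Multiset.prod_eq_zero_iff.1 h1)
      have h3 := T3_den (hbQ b hb).1 (show ‖T z‖ ≤ 1 by linarith)
      rcases div_eq_zero_iff.1 h2 with h4 | h4
      · apply (hbQ b hb).2
        have h5 : b = T z := (sub_eq_zero.1 h4).symm
        rw [h5]
        have h6 : (W : ℂ) * T z - n = z := by
          simp only [hT]
          field_simp
          ring
        rw [h6]
        exact hz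
      · exact h3 h4
    · exact hG0 _ (by linarith)
  have hfe : ∀ z ∈ closedBall (0 : ℂ) 1, f (n + z) =
      pz (P.map (fun b => (W : ℂ) * b - n)) z * h z := by
    intro z hz
    have hz' : ‖z‖ ≤ 1 := by simpa using hz
    have hT1 : ‖T z‖ ≤ 1 := (hTn z hz').trans (by norm_num)
    have hTm : T z ∈ closedBall (0 : ℂ) 1 := by
      rw [mem_closedBall, dist_zero_right]
      exact hT1
    have h1 := e (T z) hTm
    have h2 : (0 : ℂ) + W * T z = n + z := by
      simp only [hT]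
      field_simp
      ring
    rw [h2] at h1
    rw [h1]
    simp only [hh]
    rw [← mul_assoc, ← mul_assoc]
    congr 1
    unfold bp pz
    rw [← hPQ, Multiset.map_add, Multiset.prod_add]
    congr 1
    rw [Multiset.map_map, ← Multiset.prod_map_mul]
    congr 1
    refine Multiset.map_congr rfl (fun b hb => ?_)
    have h3 := T3_den (hbP b hb).1 hT1
    simp only [Function.comp]
    have h4 : T z - b = (z - ((W : ℂ) * b - n)) / W := by
      simp only [hT]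
      field_simp
      ring
    rw [h4]
    field_simp
  obtain ⟨g, g1, g2, g3⟩ := T3_local (s := P.map (fun b => (W : ℂ) * b - n)) hfn hha (by
    intro a ha
    obtain ⟨b, hb, rfl⟩ := Multiset.mem_map.1 ha
    exact (hbP b hb).2) hh0 hfe
  refine ⟨P.map (fun b => (W : ℂ) * b - n), g, Multiset.card_map _ _, ?_, g1, g2, g3⟩
  intro a ha
  obtain ⟨b, hb, rfl⟩ := Multiset.mem_map.1 ha
  exact (hbP b hb).2

/-- every point is counted at most twice. -/
theorem T3_count (E : Finset ℤ) (W : ℝ) (S : Multiset ℂ) :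
    ∑ n ∈ E, (S.filter (fun b => ‖(W : ℂ) * b - n‖ ≤ 3 / 4)).card ≤ 2 * S.card := by
  induction S using Multiset.induction_on with
  | empty => simp
  | cons b S ih =>
    have h1 : ∀ n : ℤ, ((b ::ₘ S).filter (fun b => ‖(W : ℂ) * b - n‖ ≤ 3 / 4)).card =
        (if ‖(W : ℂ) * b - n‖ ≤ 3 / 4 then 1 else 0) +
          (S.filter (fun b => ‖(W : ℂ) * b - n‖ ≤ 3 / 4)).card := by
      intro n
      rw [Multiset.filter_cons, Multiset.card_add]
      split_ifs <;> simp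
    rw [Finset.sum_congr rfl (fun n _ => h1 n), Finset.sum_add_distrib, Multiset.card_cons]
    have h2 : ∑ n ∈ E, (if ‖(W : ℂ) * b - n‖ ≤ 3 / 4 then 1 else 0) ≤ 2 := by
      rw [← Finset.card_filter]
      have h3 : E.filter (fun n : ℤ => ‖(W : ℂ) * b - n‖ ≤ 3 / 4) ⊆
          Finset.Icc ⌈((W : ℂ) * b).re - 3 / 4⌉ ⌊((W : ℂ) * b).re + 3 / 4⌋ := by
        intro n hn
        have h4 := (Finset.mem_filter.1 hn).2
        have h5 := (Complex.abs_re_le_norm ((W : ℂ) * b - n)).trans h4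
        rw [Complex.sub_re, Complex.intCast_re, abs_le] at h5
        rw [Finset.mem_Icc]
        exact ⟨Int.ceil_le.2 (by linarith), Int.le_floor.2 (by linarith)⟩
      refine (Finset.card_le_card h3).trans ?_
      rw [Int.card_Icc]
      have h6 := Int.floor_le (((W : ℂ) * b).re + 3 / 4)
      have h7 := Int.le_ceil (((W : ℂ) * b).re - 3 / 4)
      have h8 : (⌊((W : ℂ) * b).re + 3 / 4⌋ : ℝ) - ⌈((W : ℂ) * b).re - 3 / 4⌉ < 2 := by linarith
      have h9 : ⌊((W : ℂ) * b).re + 3 / 4⌋ - ⌈((W : ℂ) * b).re - 3 / 4⌉ < 2 := by exact_mod_cast h8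
      omega
    omega

theorem typ_line : ∃ C c1 : ℝ, 0 < C ∧ 0 < c1 ∧ ∀ (f : ℂ → ℂ) (W Tv K M1 : ℝ) (E : Finset ℤ), 8 ≤ W →
    1 ≤ Tv → 1 ≤ K → 0 ≤ M1 → DF f 0 W → (∃ w : ℂ, ‖w‖ ≤ W / 2 ∧ Real.exp (-Tv) ≤ ‖f w‖) →
    (∀ n ∈ E, |(n : ℝ)| ≤ W / 4 ∧ ¬ Typ f n K M1) →
    (E.card : ℝ) ≤ C * Tv / K + C * W * Real.exp (-(c1 * M1 / Tv)) := by
  classical
  obtain ⟨C1, hC1, hfact⟩ := fact (1 / 2) (by norm_num) (by norm_num)
  obtain ⟨C2, c2, hC2, hc2, hexp⟩ := expint (1 / 2) (by norm_num) (by norm_num)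
  refine ⟨2 * C1 + C2, c2, by positivity, hc2, ?_⟩
  intro f W Tv K M1 E hW hTv hK hM1 hf hw hE
  have hW0 : 0 < W := by linarith
  have hWc : (W : ℂ) ≠ 0 := by exact_mod_cast hW0.ne'
  obtain ⟨w, hw1, hw2⟩ := hw
  obtain ⟨S, G, hS, hScard, hG, hG0, -, hSG⟩ := hfact (fun z => f (0 + W * z)) Tv (A6_scale hW0 hf)
    ⟨w / W, by
      rw [norm_div, Complex.norm_real, Real.norm_eq_abs, abs_of_pos hW0, div_le_iff₀ hW0]
      linarith, by
      have : (0 : ℂ) + W * (w / W) = w := by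
        field_simp
        ring
      show Real.exp (-Tv) ≤ ‖f (0 + W * (w / W))‖
      rw [this]
      exact hw2⟩
  have e34 : ((1 : ℝ) + 1 / 2) / 2 = 3 / 4 := by norm_num
  rw [e34] at hS hG0
  set E1 := E.filter (fun n : ℤ => K < ((S.filter (fun b => ‖(W : ℂ) * b - n‖ ≤ 3 / 4)).card : ℝ)) with hE1
  set E2 := E.filter (fun n : ℤ => ∀ a0 : ℂ, ‖a0‖ ≤ 1 / 2 → ‖f (n + a0)‖ < Real.exp (-M1)) with hE2
  have hcov : E ⊆ E1 ∪ E2 := by
    intro n hn
    obtain ⟨h1, h2⟩ := hE n hn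
    rw [Finset.mem_union, hE1, hE2, Finset.mem_filter, Finset.mem_filter]
    by_contra hcon
    rw [not_or] at hcon
    apply h2
    obtain ⟨h3, h4⟩ := hcon
    constructor
    · obtain ⟨s, g, s1, s2, s3, s4, s5⟩ := T3_split hW hf h1 hS hG hG0 hSG
      refine ⟨s, g, ?_, s2, s3, s4, s5⟩
      rw [s1]
      by_contra h5
      exact h3 ⟨hn, not_le.1 h5⟩
    · by_contra h5
      push Not at h5
      exact h4 ⟨hn, h5⟩
  have c1 : (E1.card : ℝ) ≤ 2 * C1 * Tv / K := by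
    rw [le_div_iff₀ (by linarith)]
    have h1 : (E1.card : ℝ) * K ≤ ∑ n ∈ E1, ((S.filter (fun b => ‖(W : ℂ) * b - n‖ ≤ 3 / 4)).card : ℝ) := by
      calc (E1.card : ℝ) * K = ∑ _n ∈ E1, K := by rw [Finset.sum_const, nsmul_eq_mul]
        _ ≤ _ := Finset.sum_le_sum (fun n hn => (Finset.mem_filter.1 hn).2.le)
    have h2 : ∑ n ∈ E1, ((S.filter (fun b => ‖(W : ℂ) * b - n‖ ≤ 3 / 4)).card : ℝ) ≤ 2 * S.card := by
      exact_mod_cast T3_count E1 W S
    linarith
  have c2' : (E2.card : ℝ) ≤ C2 * W * Real.exp (-(c2 * M1 / Tv)) := by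
    have h1 := hexp f 0 W Tv M1 hW0 hTv hM1 (by exact_mod_cast hf) ⟨w, by
      rw [Complex.ofReal_zero, sub_zero]
      linarith, hw2⟩
    have h2 : (⋃ n ∈ E2, Ico ((n : ℝ) - 1 / 2) (n + 1 / 2)) ⊆
        {x : ℝ | |x - 0| ≤ 1 / 2 * W ∧ ‖f x‖ ≤ Real.exp (-M1)} := by
      intro x hx
      simp only [mem_iUnion] at hx
      obtain ⟨n, hn, hx1, hx2⟩ := hx
      obtain ⟨hnE, hn2⟩ := Finset.mem_filter.1 hn
      have h3 := (hE n hnE).1
      rw [abs_le] at h3
      refine ⟨?_, ?_⟩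
      · rw [abs_le]
        constructor <;> linarith
      · have h4 := hn2 ((x - n : ℝ) : ℂ) (by
          rw [Complex.norm_real, Real.norm_eq_abs, abs_le]
          constructor <;> linarith)
        have h5 : (n : ℂ) + ((x - n : ℝ) : ℂ) = x := by
          push_cast
          ring
        rw [h5] at h4
        exact h4.le
    have h3 : volume (⋃ n ∈ E2, Ico ((n : ℝ) - 1 / 2) (n + 1 / 2)) = E2.card := by
      rw [measure_biUnion_finset]
      · have h4 : ∀ n ∈ E2, volume (Ico ((n : ℝ) - 1 / 2) (n + 1 / 2)) = 1 := by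
          intro n _
          rw [Real.volume_Ico]
          have : (n : ℝ) + 1 / 2 - (n - 1 / 2) = 1 := by ring
          rw [this, ENNReal.ofReal_one]
        rw [Finset.sum_congr rfl h4, Finset.sum_const, nsmul_eq_mul, mul_one]
      · intro n _ m _ hnm
        rw [Function.onFun, Set.disjoint_left]
        rintro x ⟨a1, a2⟩ ⟨b1, b2⟩
        apply hnm
        have d1 : (n : ℝ) < m + 1 := by linarith
        have d2 : (m : ℝ) < n + 1 := by linarith
        have d3 : n < m + 1 := by exact_mod_cast d1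
        have d4 : m < n + 1 := by exact_mod_cast d2
        omega
      · intro n _
        exact measurableSet_Ico
    have h4 : ((E2.card : ℕ) : ENNReal) ≤ ENNReal.ofReal (C2 * W * Real.exp (-(c2 * M1 / Tv))) := by
      rw [← h3]
      exact (measure_mono h2).trans h1
    have h5 : ENNReal.ofReal (E2.card : ℝ) ≤ ENNReal.ofReal (C2 * W * Real.exp (-(c2 * M1 / Tv))) := by
      rw [ENNReal.ofReal_natCast]
      exact h4
    exact (ENNReal.ofReal_le_ofReal_iff (by positivity)).1 h5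
  have h1 : (E.card : ℝ) ≤ E1.card + E2.card := by
    exact_mod_cast (Finset.card_le_card hcov).trans (Finset.card_union_le _ _)
  have h2 : 2 * C1 * Tv / K ≤ (2 * C1 + C2) * Tv / K := by
    gcongr
    linarith
  have h3 : C2 * W * Real.exp (-(c2 * M1 / Tv)) ≤ (2 * C1 + C2) * W * Real.exp (-(c2 * M1 / Tv)) := by
    gcongr
    linarith
  linarith

end MuntzF
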