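import Pool.Agent.Lib.MP_dde81e_full.TDefs

/-!
Module T4 (text 6.4): the real polynomial S = sq(pc ...).  Each coefficient of pc (in a) is a polynomial in (x,y) with complex coefficients of total degree ≤ 2D (cs, ct are affine in (x,y)); |.|² = Re² + Im²: total degree ≤ 4D.
-/

namespace MuntzF
open Set

namespace T4

/-- coefficients of a power of an affine polynomial. -/
private lemma coeff_aff (β γ : ℂ) (l m : ℕ) :
    ((Polynomial.C β + Polynomial.C γ * Polynomial.X) ^ l).coeff m =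
      β ^ (l - m) * (l.choose m : ℂ) * γ ^ m := by
  have h : (Polynomial.C β + Polynomial.C γ * Polynomial.X : Polynomial ℂ) ^ l =
      ((Polynomial.X + Polynomial.C β) ^ l).comp (Polynomial.C γ * Polynomial.X) := by
    simp [Polynomial.pow_comp, add_comm]
  rw [h, Polynomial.comp_C_mul_X_coeff, Polynomial.coeff_X_add_C_pow]

private lemma coeff_pc (a : ℕ → ℕ → ℂ) (D : ℕ) (x0 θ0 u x y : ℝ) (m : ℕ) :
    (pc a D x0 θ0 u x y).coeff m = ∑ k ∈ Finset.range (D + 1), ∑ l ∈ Finset.range (D + 1),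
      a k l * (((cs x0 x) ^ k * ((ct x0 θ0 u x y) ^ (l - m) * (l.choose m : ℝ) *
        (1 / (u * x0)) ^ m) : ℝ) : ℂ) := by
  unfold pc
  simp only [Polynomial.finsetSum_coeff, Polynomial.coeff_C_mul, coeff_aff]
  refine Finset.sum_congr rfl fun k _ => Finset.sum_congr rfl fun l _ => ?_
  push_cast
  ring

private lemma coeff_pc_zero (a : ℕ → ℕ → ℂ) (D : ℕ) (x0 θ0 u x y : ℝ) (m : ℕ) (hm : D < m) :
    (pc a D x0 θ0 u x y).coeff m = 0 := by
  rw [coeff_pc]
  refine Finset.sum_eq_zero fun k _ => Finset.sum_eq_zero fun l hl => ?_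
  have hl' : l < m := by
    have := Finset.mem_range.1 hl
    omega
  rw [Nat.choose_eq_zero_of_lt hl']
  simp

private lemma sq_pc (a : ℕ → ℕ → ℂ) (D : ℕ) (x0 θ0 u x y T : ℝ) :
    sq (pc a D x0 θ0 u x y) T = ∑ m ∈ Finset.range (D + 1),
      ‖(pc a D x0 θ0 u x y).coeff m‖ ^ 2 * Real.exp (-(2 * m * T)) := by
  unfold sq
  refine Finset.sum_subset ?_ ?_
  · intro m hm
    rw [Finset.mem_range]
    by_contra h
    exact (Polynomial.mem_support_iff.1 hm) (coeff_pc_zero a D x0 θ0 u x y m (by omega))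
  · intro m _ hm
    rw [Polynomial.notMem_support_iff.1 hm]
    simp

/-- real polynomial with the values of `cs`. -/
private noncomputable def CS (x0 : ℝ) : MvPolynomial (Fin 2) ℝ :=
  MvPolynomial.C (2 / x0) * MvPolynomial.X 0 + MvPolynomial.C (-2)

/-- real polynomial with the values of `ct`. -/
private noncomputable def CT (x0 θ0 u : ℝ) : MvPolynomial (Fin 2) ℝ :=
  MvPolynomial.C (1 / (u * x0)) * MvPolynomial.X 1 +
    MvPolynomial.C (-(θ0 / (u * x0))) * MvPolynomial.X 0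

private lemma ev_CS (x0 x y : ℝ) (hx0 : x0 ≠ 0) : ev (CS x0) x y = cs x0 x := by
  unfold ev CS cs
  simp
  field_simp
  ring

private lemma ev_CT (x0 θ0 u x y : ℝ) (hx0 : x0 ≠ 0) (hu : u ≠ 0) :
    ev (CT x0 θ0 u) x y = ct x0 θ0 u x y := by
  unfold ev CT ct
  simp
  field_simp
  ring

private lemma deg_CS (x0 : ℝ) : (CS x0).totalDegree ≤ 1 := by
  unfold CS
  refine (MvPolynomial.totalDegree_add _ _).trans (max_le ?_ ?_)
  · refine (MvPolynomial.totalDegree_mul _ _).trans ?_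
    simp
  · simp

private lemma deg_CT (x0 θ0 u : ℝ) : (CT x0 θ0 u).totalDegree ≤ 1 := by
  unfold CT
  refine (MvPolynomial.totalDegree_add _ _).trans (max_le ?_ ?_)
  · refine (MvPolynomial.totalDegree_mul _ _).trans ?_
    rw [MvPolynomial.totalDegree_C, MvPolynomial.totalDegree_X]
  · refine (MvPolynomial.totalDegree_mul _ _).trans ?_
    rw [MvPolynomial.totalDegree_C, MvPolynomial.totalDegree_X]

/-- real polynomial with real coefficients `c k l` (real or imaginary parts). -/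
private noncomputable def PP (c : ℕ → ℕ → ℝ) (D : ℕ) (x0 θ0 u : ℝ) (m : ℕ) :
    MvPolynomial (Fin 2) ℝ :=
  ∑ k ∈ Finset.range (D + 1), ∑ l ∈ Finset.range (D + 1),
    MvPolynomial.C (c k l * ((l.choose m : ℝ) * (1 / (u * x0)) ^ m)) *
      ((CS x0) ^ k * (CT x0 θ0 u) ^ (l - m))

private lemma deg_PP (c : ℕ → ℕ → ℝ) (D : ℕ) (x0 θ0 u : ℝ) (m : ℕ) :
    (PP c D x0 θ0 u m).totalDegree ≤ 2 * D := by
  unfold PP
  refine (MvPolynomial.totalDegree_finsetSum _ _).trans (Finset.sup_le fun k hk => ?_)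
  refine (MvPolynomial.totalDegree_finsetSum _ _).trans (Finset.sup_le fun l hl => ?_)
  have hk' := Finset.mem_range.1 hk
  have hl' := Finset.mem_range.1 hl
  refine (MvPolynomial.totalDegree_mul _ _).trans ?_
  rw [MvPolynomial.totalDegree_C, zero_add]
  refine (MvPolynomial.totalDegree_mul _ _).trans ?_
  have h1 : ((CS x0) ^ k).totalDegree ≤ k :=
    (MvPolynomial.totalDegree_pow _ _).trans (by
      have := Nat.mul_le_mul_left k (deg_CS x0)
      omega)
  have h2 : ((CT x0 θ0 u) ^ (l - m)).totalDegree ≤ l - m :=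
    (MvPolynomial.totalDegree_pow _ _).trans (by
      have := Nat.mul_le_mul_left (l - m) (deg_CT x0 θ0 u)
      omega)
  omega

private lemma ev_PP (c : ℕ → ℕ → ℝ) (D : ℕ) (x0 θ0 u : ℝ) (m : ℕ) (x y : ℝ)
    (hx0 : x0 ≠ 0) (hu : u ≠ 0) :
    ev (PP c D x0 θ0 u m) x y = ∑ k ∈ Finset.range (D + 1), ∑ l ∈ Finset.range (D + 1),
      c k l * ((cs x0 x) ^ k * ((ct x0 θ0 u x y) ^ (l - m) * (l.choose m : ℝ) *
        (1 / (u * x0)) ^ m)) := by
  have e1 := ev_CS x0 x y hx0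
  have e2 := ev_CT x0 θ0 u x y hx0 hu
  unfold ev at e1 e2
  unfold ev PP
  simp only [map_sum, map_mul, map_pow, MvPolynomial.eval_C, e1, e2]
  refine Finset.sum_congr rfl fun k _ => Finset.sum_congr rfl fun l _ => ?_
  ring

private lemma norm_pc (a : ℕ → ℕ → ℂ) (D : ℕ) (x0 θ0 u x y : ℝ) (m : ℕ)
    (hx0 : x0 ≠ 0) (hu : u ≠ 0) :
    ‖(pc a D x0 θ0 u x y).coeff m‖ ^ 2 =
      ev (PP (fun k l => (a k l).re) D x0 θ0 u m) x y ^ 2 +
      ev (PP (fun k l => (a k l).im) D x0 θ0 u m) x y ^ 2 := by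
  rw [← Complex.normSq_eq_norm_sq, Complex.normSq_apply, coeff_pc, ev_PP _ _ _ _ _ _ _ _ hx0 hu,
    ev_PP _ _ _ _ _ _ _ _ hx0 hu]
  have hre : (∑ k ∈ Finset.range (D + 1), ∑ l ∈ Finset.range (D + 1),
      a k l * (((cs x0 x) ^ k * ((ct x0 θ0 u x y) ^ (l - m) * (l.choose m : ℝ) *
        (1 / (u * x0)) ^ m) : ℝ) : ℂ)).re = ∑ k ∈ Finset.range (D + 1),
      ∑ l ∈ Finset.range (D + 1), (a k l).re * ((cs x0 x) ^ k * ((ct x0 θ0 u x y) ^ (l - m) *
        (l.choose m : ℝ) * (1 / (u * x0)) ^ m)) := by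
    rw [Complex.re_sum]
    refine Finset.sum_congr rfl fun k _ => ?_
    rw [Complex.re_sum]
    refine Finset.sum_congr rfl fun l _ => ?_
    rw [Complex.re_mul_ofReal]
  have him : (∑ k ∈ Finset.range (D + 1), ∑ l ∈ Finset.range (D + 1),
      a k l * (((cs x0 x) ^ k * ((ct x0 θ0 u x y) ^ (l - m) * (l.choose m : ℝ) *
        (1 / (u * x0)) ^ m) : ℝ) : ℂ)).im = ∑ k ∈ Finset.range (D + 1),
      ∑ l ∈ Finset.range (D + 1), (a k l).im * ((cs x0 x) ^ k * ((ct x0 θ0 u x y) ^ (l - m) *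
        (l.choose m : ℝ) * (1 / (u * x0)) ^ m)) := by
    rw [Complex.im_sum]
    refine Finset.sum_congr rfl fun k _ => ?_
    rw [Complex.im_sum]
    refine Finset.sum_congr rfl fun l _ => ?_
    rw [Complex.im_mul_ofReal]
  rw [hre, him]
  ring

end T4

theorem sq_poly (a : ℕ → ℕ → ℂ) (D : ℕ) (x0 θ0 u T : ℝ) (hx0 : x0 ≠ 0) (hu : u ≠ 0) :
    ∃ S : MvPolynomial (Fin 2) ℝ, S.totalDegree ≤ 4 * D ∧
      ∀ x y : ℝ, ev S x y = sq (pc a D x0 θ0 u x y) T := by
  refine ⟨∑ m ∈ Finset.range (D + 1), MvPolynomial.C (Real.exp (-(2 * m * T))) *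
    ((T4.PP (fun k l => (a k l).re) D x0 θ0 u m) ^ 2 +
      (T4.PP (fun k l => (a k l).im) D x0 θ0 u m) ^ 2), ?_, ?_⟩
  · refine (MvPolynomial.totalDegree_finsetSum _ _).trans (Finset.sup_le fun m _ => ?_)
    refine (MvPolynomial.totalDegree_mul _ _).trans ?_
    rw [MvPolynomial.totalDegree_C, zero_add]
    refine (MvPolynomial.totalDegree_add _ _).trans (max_le ?_ ?_)
    · refine (MvPolynomial.totalDegree_pow _ _).trans ?_
      have := T4.deg_PP (fun k l => (a k l).re) D x0 θ0 u m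
      omega
    · refine (MvPolynomial.totalDegree_pow _ _).trans ?_
      have := T4.deg_PP (fun k l => (a k l).im) D x0 θ0 u m
      omega
  · intro x y
    rw [T4.sq_pc]
    have h : ∀ m, ‖(pc a D x0 θ0 u x y).coeff m‖ ^ 2 = _ :=
      fun m => T4.norm_pc a D x0 θ0 u x y m hx0 hu
    simp only [h]
    unfold ev
    simp only [map_sum, map_mul, map_pow, map_add, MvPolynomial.eval_C]
    refine Finset.sum_congr rfl fun m _ => ?_
    ring

/-- the value at increment `b` is the value at the shifted point. -/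
theorem pc_eval (a : ℕ → ℕ → ℂ) (D : ℕ) (x0 θ0 u x y b : ℝ) (hx0 : x0 ≠ 0) (hu : u ≠ 0) :
    (pc a D x0 θ0 u x y).eval (b : ℂ) = (pc a D x0 θ0 u x (y + b)).eval 0 ∧
    (pc a D x0 θ0 u x y).eval (b : ℂ) = ∑ k ∈ Finset.range (D + 1), ∑ l ∈ Finset.range (D + 1),
      a k l * (cs x0 x : ℂ) ^ k * ((ct x0 θ0 u x (y + b) : ℝ) : ℂ) ^ l := by
  have key : ((ct x0 θ0 u x y : ℝ) : ℂ) + ((1 / (u * x0) : ℝ) : ℂ) * (b : ℂ) =
      ((ct x0 θ0 u x (y + b) : ℝ) : ℂ) := by
    rw [← Complex.ofReal_mul, ← Complex.ofReal_add]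
    congr 1
    unfold ct
    field_simp
    ring
  constructor
  · unfold pc
    simp only [Polynomial.eval_finsetSum, Polynomial.eval_mul, Polynomial.eval_C,
      Polynomial.eval_pow, Polynomial.eval_add, Polynomial.eval_X, key, mul_zero, add_zero]
  · unfold pc
    simp only [Polynomial.eval_finsetSum, Polynomial.eval_mul, Polynomial.eval_C,
      Polynomial.eval_pow, Polynomial.eval_add, Polynomial.eval_X, key]

end MuntzF
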