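import Pool.Agent.Lib.MP_dde81e_full.TDefs
import Pool.Agent.Lib.MP_dde81e_full.E1
import Pool.Agent.Lib.MP_dde81e_full.E6
import Pool.Agent.Lib.MP_dde81e_full.A6
import Pool.Agent.Lib.MP_dde81e_full.L2
import Pool.Agent.Lib.MP_dde81e_full.ECom

/-!
Module T6 (text 6.6, NEG).  For one nonvalley line l (q ≠ 0, P ∈ l a point of Znv, so there is a real point of l in inb 1/16 with fj > exp(-hλ²R)): parametrize the complexified line by z; the real points of l in inb (1/16) form a segment of x-length L;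
g(z) = fb(s(z),t(z)) on a disc around P.1 is bounded by 1; expint (t = 1/2) with M0 = hλ²R, M1 = hΛ²R = hλ⁴R: {x : fj ≤ e^-M1} has measure ≤ C R exp(-c λ²).  Each P of the line with deepl takes up
[P.1,P.1+1], disjoint interiors.  Lines of height ≤ 4^i meeting the box: ≤ C 4^(3i) R (lines_card).
-/

namespace MuntzF
open Set Metric MeasureTheory

/-- a function of class `BF` on a complex line. -/
theorem T6_an {f : ℂ × ℂ → ℂ} {M : ℝ} (hf : BF f M) {s0 s1 t0 t1 c r : ℝ}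
    (hs : |s0| + |s1| * r ≤ 1) (ht : |t0| + |t1| * r ≤ 1) :
    DF (fun z => f ((s0 : ℂ) + s1 * (z - c), (t0 : ℂ) + t1 * (z - c))) c r := by
  obtain ⟨U, hU, hsub, hdif⟩ := hf.dif
  have hb : ∀ a0 a1 : ℝ, |a0| + |a1| * r ≤ 1 → ∀ z ∈ closedBall (c : ℂ) r,
      ‖(a0 : ℂ) + a1 * (z - c)‖ ≤ 1 := by
    intro a0 a1 h z hz
    rw [mem_closedBall, dist_eq_norm] at hz
    calc ‖(a0 : ℂ) + a1 * (z - c)‖ ≤ ‖(a0 : ℂ)‖ + ‖(a1 : ℂ) * (z - c)‖ := norm_add_le _ _
      _ = |a0| + |a1| * ‖z - c‖ := by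
        rw [norm_mul, Complex.norm_real, Complex.norm_real, Real.norm_eq_abs, Real.norm_eq_abs]
      _ ≤ |a0| + |a1| * r := by
        have := mul_le_mul_of_nonneg_left hz (abs_nonneg a1)
        linarith
      _ ≤ 1 := h
  refine ⟨?_, ?_⟩
  · have hA : Differentiable ℂ (fun z : ℂ => (((s0 : ℂ) + s1 * (z - c), (t0 : ℂ) + t1 * (z - c)) : ℂ × ℂ)) := by
      fun_prop
    have hop : IsOpen ((fun z : ℂ => (((s0 : ℂ) + s1 * (z - c), (t0 : ℂ) + t1 * (z - c)) : ℂ × ℂ)) ⁻¹' U) :=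
      hU.preimage hA.continuous
    have hd : DifferentiableOn ℂ (fun z => f ((s0 : ℂ) + s1 * (z - c), (t0 : ℂ) + t1 * (z - c)))
        ((fun z : ℂ => (((s0 : ℂ) + s1 * (z - c), (t0 : ℂ) + t1 * (z - c)) : ℂ × ℂ)) ⁻¹' U) :=
      hdif.comp hA.differentiableOn (fun z hz => hz)
    intro z hz
    exact hd.analyticOnNhd hop z (hsub ⟨hb s0 s1 hs z hz, hb t0 t1 ht z hz⟩)
  · intro z hz
    exact hf.bd _ (hb s0 s1 hs z hz) (hb t0 t1 ht z hz)

/-- the norm of the box function at real points. -/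
theorem T6_real (F : ℂ × ℂ → ℂ) (α β : ℝ) {x0 θ0 u : ℝ} (hx : 0 < x0) (hu : 0 < u) (x y : ℝ) :
    ‖fb F α β x0 θ0 u ((cs x0 x : ℂ), (ct x0 θ0 u x y : ℂ))‖ =
      ‖F ((x : ℂ), (y : ℂ))‖ * Real.exp (α * x + β * y) := by
  have e1 : (x0 : ℂ) * (1 + (cs x0 x : ℂ) / 2) = (x : ℂ) := by
    have : x0 * (1 + cs x0 x / 2) = x := by
      unfold cs
      field_simp
      ring
    have h2 : ((x0 * (1 + cs x0 x / 2) : ℝ) : ℂ) = ((x : ℝ) : ℂ) := by rw [this]
    push_cast at h2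
    exact h2
  have e2 : (θ0 : ℂ) * (x : ℂ) + (u : ℂ) * x0 * (ct x0 θ0 u x y : ℂ) = (y : ℂ) := by
    have : θ0 * x + u * x0 * ct x0 θ0 u x y = y := by
      unfold ct
      field_simp
      ring
    have h2 : ((θ0 * x + u * x0 * ct x0 θ0 u x y : ℝ) : ℂ) = ((y : ℝ) : ℂ) := by rw [this]
    push_cast at h2
    exact h2
  unfold fb
  simp only
  rw [e1, e2, norm_mul, Complex.norm_exp]
  congr 2
  rw [Complex.add_re, Complex.re_ofReal_mul, Complex.re_ofReal_mul, Complex.ofReal_re, Complex.ofReal_re]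

/-- size of windows. -/
theorem T6_size {F : ℂ × ℂ → ℂ} {b0 : ℝ} (X : Ctx F b0) {j : ℕ} {d : ℕ × ℕ} (hw : X.win j d)
    (hi : X.w0 + 1 ≤ X.ij j d) : hh (X.ij j d) ^ 3 ≤ dl d := by
  have hb := X.env.cs.hb
  have hw0 : 400 * b0 ≤ 2 ^ X.w0 := by linarith [X.hw0]
  set i := X.ij j d with hidef
  have hh0 : 0 < hh i := by unfold hh; positivity
  rcases win_len X.env.cs hw0 hw.1 hw.2 with h1 | ⟨h1, h2⟩
  · unfold hh dl
    rw [← pow_mul, h1]
    exact pow_le_pow_of_le_one (by norm_num) (by norm_num) (by omega)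
  · have h3 : hh i ≤ 2 * dl d := h2
    have h4 : hh i ≤ 1 / 2 := by
      unfold hh
      calc (1 / 2 : ℝ) ^ i ≤ (1 / 2) ^ 1 := pow_le_pow_of_le_one (by norm_num) (by norm_num) (by omega)
        _ = 1 / 2 := by norm_num
    have h5 : hh i ^ 3 = hh i * (hh i * hh i) := by ring
    rw [h5]
    nlinarith [mul_pos hh0 hh0]

theorem T6_bf {F : ℂ × ℂ → ℂ} {b0 : ℝ} (X : Ctx F b0) {j : ℕ} {d : ℕ × ℕ} (hw : X.win j d)
    (hi : X.is + X.w0 + 1 ≤ X.ij j d) {x0 θ0 : ℝ} (h1 : 2 ^ j ≤ x0) (h2 : x0 ≤ 2 * 2 ^ j)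
    (h3 : θ0 ∈ cell d) :
    BF (fb F (X.al j d) (X.be j d) x0 θ0 (dl d)) (X.A1 * hh (X.ij j d) * x0) := by
  have hb := X.env.cs.hb
  have hw0 : 400 * b0 ≤ 2 ^ X.w0 := by linarith [X.hw0]
  have hI : ∀ x, |x - dc d| ≤ 4 * dl d → x ∈ I1 b0 := by
    intro x hx
    have := L2_dl_pos d
    exact st_sub hb hw0 hw.2.1 hw.2.2.1 (by linarith)
  have hbox := X.box j d hw.1 hw.2 (by change X.is ≤ X.ij j d; omega)
  have h2j : (0 : ℝ) < 2 ^ j := by positivity
  exact box_bf X.env.hF hb X.hs0 hI hbox (by linarith) (by linarith) ((cell_sub_st d).1 h3)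
    (T6_size X hw (by omega)) le_rfl

/-- scales are large compared to levels. -/
theorem T6_big {F : ℂ × ℂ → ℂ} {b0 : ℝ} (X : Ctx F b0) {j : ℕ} {d : ℕ × ℕ} :
    (2 : ℝ) ^ (100 * X.ij j d) ≤ 2 ^ j := by
  have hij : X.ij j d ≤ j / 100 := L2_iJ_le X.env.cs j d
  exact pow_le_pow_right₀ (by norm_num) (by omega)

theorem T6_cs (x0 c x : ℝ) : cs x0 x = cs x0 c + 2 / x0 * (x - c) := by
  unfold cs
  ring

theorem T6_ct {x0 θ0 u : ℝ} {q p r : ℝ} (hx : x0 ≠ 0) (hu : u ≠ 0) (hq : q ≠ 0) {c yc x y : ℝ}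
    (h1 : q * yc - p * c = r) (h2 : q * y - p * x = r) :
    ct x0 θ0 u x y = ct x0 θ0 u c yc + (p / q - θ0) / (u * x0) * (x - c) := by
  have e1 : y = (r + p * x) / q := by
    rw [eq_div_iff hq]
    linarith
  have e2 : yc = (r + p * c) / q := by
    rw [eq_div_iff hq]
    linarith
  unfold ct
  rw [e1, e2]
  field_simp
  ring

/-- disjoint unit intervals in a set of small measure. -/
theorem T6_unit (E : Finset ℤ) {S : Set ℝ} {V : ℝ} (hS : ∀ n ∈ E, ∀ x : ℝ, (n : ℝ) ≤ x → x ≤ n + 1 → x ∈ S)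
    (hV : volume S ≤ ENNReal.ofReal V) (hV0 : 0 ≤ V) : (E.card : ℝ) ≤ V := by
  have h1 : volume (⋃ n ∈ E, Ico (n : ℝ) (n + 1)) = ∑ n ∈ E, volume (Ico (n : ℝ) (n + 1)) := by
    apply measure_biUnion_finset
    · intro a _ b _ hab
      rw [Function.onFun, Set.disjoint_left]
      intro z hz1 hz2
      rw [mem_Ico] at hz1 hz2
      have h2 : (a : ℝ) < b + 1 := by linarith [hz1.1, hz2.2]
      have h3 : (b : ℝ) < a + 1 := by linarith [hz2.1, hz1.2]
      have h4 : a < b + 1 := by exact_mod_cast h2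
      have h5 : b < a + 1 := by exact_mod_cast h3
      omega
    · intro n _
      exact measurableSet_Ico
  have h2 : volume (⋃ n ∈ E, Ico (n : ℝ) (n + 1)) ≤ ENNReal.ofReal V := by
    refine le_trans (measure_mono ?_) hV
    intro x hx
    simp only [mem_iUnion] at hx
    obtain ⟨n, hn, hx⟩ := hx
    exact hS n hn x hx.1 hx.2.le
  rw [h1] at h2
  have h3 : ∑ n ∈ E, volume (Ico (n : ℝ) (n + 1)) = ENNReal.ofReal (E.card : ℝ) := by
    have : ∀ n ∈ E, volume (Ico (n : ℝ) (n + 1)) = 1 := by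
      intro n _
      rw [Real.volume_Ico]
      simp
    rw [Finset.sum_congr rfl this, Finset.sum_const, nsmul_eq_mul, mul_one, ENNReal.ofReal_natCast]
  rw [h3] at h2
  exact (ENNReal.ofReal_le_ofReal_iff hV0).1 h2

theorem neg {F : ℂ × ℂ → ℂ} {b0 : ℝ} (X : Ctx F b0) : ∃ i1 : ℕ,
    ∀ (j : ℕ) (d : ℕ × ℕ) (x0 θ0 : ℝ) (K : Finset (ℤ × ℤ)), X.win j d → i1 ≤ X.ij j d → cell d ⊆ I2 b0 →
      2 ^ j ≤ x0 → x0 ≤ 2 * 2 ^ j → θ0 ∈ cell d →
      (∀ P ∈ K, P ∈ Znv X j d x0 θ0 ∧ ∃ l : Ln, onlz l P ∧ l.q ≠ 0 ∧ ht l ≤ 4 ^ X.ij j d ∧ deepl X j d l P) →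
      (K.card : ℝ) ≤ hh (X.ij j d) ^ 10 * 4 ^ j := by
  classical
  have hb := X.env.cs.hb
  obtain ⟨C1, c1, hC1, hc1, Hexp⟩ := expint (1 / 2) (by norm_num) (by norm_num)
  obtain ⟨Cl, hCl, Hlines⟩ := lines_card (4 * b0) (by linarith)
  obtain ⟨n1, G1⟩ := EC_exp (Cl * C1) c1 hc1 16
  obtain ⟨n2, G2⟩ := EC_pow (10 * (1 + 2 * b0))
  refine ⟨X.is + X.w0 + 1 + n1 + n2, ?_⟩
  intro j d x0 θ0 K hw hi hcell hx1 hx2 hθ0 hK
  set i := X.ij j d with hidef
  set u := dl d with hu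
  set R : ℝ := 2 ^ j with hR
  have hR0 : 0 < R := by positivity
  have hR1 : 1 ≤ R := one_le_pow₀ (by norm_num)
  have hx0 : 0 < x0 := by linarith
  have hu0 : 0 < u := L2_dl_pos d
  have hBF := T6_bf X hw (by omega) hx1 hx2 hθ0
  have hsize : hh i ^ 3 ≤ u := T6_size X hw (by omega)
  have hbig : (2 : ℝ) ^ (100 * i) ≤ R := T6_big X
  have hlp := EC_lam_pos i
  have hl1 := EC_lam_one i
  have hh0 : 0 < hh i := by unfold hh; positivity
  have hh2 : hh i * 2 ^ i = 1 := by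
    unfold hh
    rw [← mul_pow]
    norm_num
  -- the first threshold
  set M0 : ℝ := hh i * lam i ^ 2 * R with hM0
  set M1 : ℝ := hh i * La i ^ 2 * R with hM1
  have hM01 : 1 ≤ M0 := by
    have h1 : (2 : ℝ) ^ i ≤ R :=
      le_trans (pow_le_pow_right₀ (by norm_num) (by omega)) hbig
    have h2 : 1 ≤ hh i * R := by
      rw [← hh2]
      exact mul_le_mul_of_nonneg_left h1 hh0.le
    have h3 : (1 : ℝ) ≤ lam i ^ 2 := one_le_pow₀ hl1
    calc (1 : ℝ) ≤ hh i * R := h2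
      _ = hh i * 1 * R := by ring
      _ ≤ hh i * lam i ^ 2 * R := by
        apply mul_le_mul_of_nonneg_right _ hR0.le
        exact mul_le_mul_of_nonneg_left h3 hh0.le
  have hM10 : 0 ≤ M1 := by positivity
  have hrat : M1 / M0 = lam i ^ 2 := by
    rw [hM1, hM0]
    unfold La
    field_simp
  -- choice of the lines
  have hch : ∀ P : ℤ × ℤ, ∃ l : Ln, P ∈ K → (onlz l P ∧ l.q ≠ 0 ∧ ht l ≤ 4 ^ i ∧ deepl X j d l P) := by
    intro P
    by_cases hP : P ∈ K
    · obtain ⟨l, hl⟩ := (hK P hP).2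
      exact ⟨l, fun _ => hl⟩
    · exact ⟨⟨1, 0, 0, by norm_num, by norm_num⟩, fun h => absurd h hP⟩
  choose f hf using hch
  have hpt : ∀ P ∈ K, 0 < (P.1 : ℝ) ∧ (P.1 : ℝ) ≤ 2 * R ∧ 0 < (P.2 : ℝ) ∧ (P.2 : ℝ) ≤ 2 * b0 * R ∧
      (P.2 : ℝ) / P.1 ∈ cell d := by
    intro P hP
    obtain ⟨⟨⟨hz1, hz2, hz3⟩, hz4, hz5, hz6⟩, -, -⟩ := (hK P hP).1
    have a1 : (0 : ℝ) < (P.1 : ℝ) := by
      have : (0 : ℤ) < P.1 := by omega
      exact_mod_cast this
    have a2 : (P.1 : ℝ) ≤ 2 * R := by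
      have : (P.1 : ℝ) < ((2 ^ (j + 1) : ℤ) : ℝ) := by exact_mod_cast hz5
      push_cast at this
      rw [pow_succ] at this
      linarith
    unfold I0 at hz2
    rw [mem_Icc] at hz2
    have hb1 : 0 < 1 / b0 := by positivity
    have a3 : 0 < (P.2 : ℝ) / P.1 := by linarith [hz2.1]
    have a4 : (P.2 : ℝ) = (P.2 : ℝ) / P.1 * P.1 := by field_simp
    refine ⟨a1, a2, ?_, ?_, hz6⟩
    · rw [a4]
      exact mul_pos a3 a1
    · rw [a4]
      calc (P.2 : ℝ) / P.1 * P.1 ≤ b0 * (2 * R) := mul_le_mul hz2.2 a2 a1.le (by linarith)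
        _ = 2 * b0 * R := by ring
  set LL := K.image f with hLL
  have hLLc : (LL.card : ℝ) ≤ Cl * (4 ^ i) ^ 3 * R := by
    apply Hlines (4 ^ i) R LL (one_le_pow₀ (by norm_num)) hR1
    intro l hl
    rw [hLL, Finset.mem_image] at hl
    obtain ⟨P, hP, rfl⟩ := hl
    obtain ⟨f1, f2, f3, f4⟩ := hf P hP
    obtain ⟨p1, p2, p3, p4, p5⟩ := hpt P hP
    refine ⟨f3, (P.1 : ℝ), (P.2 : ℝ), ?_, ?_, ?_⟩
    · rw [abs_of_pos p1]
      nlinarith
    · rw [abs_of_pos p3]
      nlinarith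
    · unfold onl
      unfold onlz at f1
      exact_mod_cast f1
  have hfib : ∀ l ∈ LL, ((K.filter (fun P => f P = l)).card : ℝ) ≤
      C1 * R * Real.exp (-(c1 * lam i)) := by
    intro l hl
    rw [hLL, Finset.mem_image] at hl
    obtain ⟨P0, hP0, hfl⟩ := hl
    obtain ⟨f1, f2, f3, f4⟩ := hf P0 hP0
    rw [hfl] at f1 f2 f3 f4
    obtain ⟨p1, p2, p3, p4, p5⟩ := hpt P0 hP0
    have hqr : (l.q : ℝ) ≠ 0 := by exact_mod_cast f2
    have honl : ∀ P : ℤ × ℤ, onlz l P → onl l P.1 P.2 := by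
      intro P h
      unfold onl
      unfold onlz at h
      exact_mod_cast h
    obtain ⟨hZ, hin, hnv⟩ := (hK P0 hP0).1
    -- a point of the line which is not deep
    obtain ⟨xs, ys, hon, hinb, hbigf⟩ : ∃ x y : ℝ, onl l x y ∧ inb x0 θ0 u (1 / 16) x y ∧
        Real.exp (-(hh i * lam i ^ 2 * R)) < X.fj j d x y := by
      by_contra hcon
      push Not at hcon
      exact hnv ⟨l, ⟨f3, ⟨P0.1, P0.2, honl P0 f1, hin, p5⟩, hcon⟩, f1⟩
    set c : ℝ := (P0.1 : ℝ) with hc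
    set s0 : ℝ := cs x0 c with hs0
    set t0 : ℝ := ct x0 θ0 u c P0.2 with ht0
    set s1 : ℝ := 2 / x0 with hs1
    set t1 : ℝ := ((l.p : ℝ) / l.q - θ0) / (u * x0) with ht1
    have hs1p : 0 < s1 := by positivity
    set m : ℝ := max s1 |t1| with hm
    have hm0 : 0 < m := lt_of_lt_of_le hs1p (le_max_left _ _)
    have hcs : ∀ x : ℝ, cs x0 x = s0 + s1 * (x - c) := fun x => T6_cs x0 c x
    have hct : ∀ x y : ℝ, onl l x y → ct x0 θ0 u x y = t0 + t1 * (x - c) := by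
      intro x y hxy
      exact T6_ct hx0.ne' hu0.ne' hqr (honl P0 f1) hxy
    have hs064 : |s0| ≤ 1 / 64 := hin.1
    have ht064 : |t0| ≤ 1 / 64 := hin.2
    -- distances in the box
    have hdist : ∀ ε x y : ℝ, onl l x y → inb x0 θ0 u ε x y → m * |x - c| ≤ ε + 1 / 64 := by
      intro ε x y hxy hxb
      obtain ⟨h1, h2⟩ := hxb
      rw [hcs x] at h1
      rw [hct x y hxy] at h2
      have e1 : s1 * |x - c| ≤ ε + 1 / 64 := by
        have : |s1 * (x - c)| ≤ |s0 + s1 * (x - c)| + |s0| := by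
          have := abs_sub (s0 + s1 * (x - c)) s0
          rw [add_sub_cancel_left] at this
          exact this
        rw [abs_mul, abs_of_pos hs1p] at this
        linarith
      have e2 : |t1| * |x - c| ≤ ε + 1 / 64 := by
        have : |t1 * (x - c)| ≤ |t0 + t1 * (x - c)| + |t0| := by
          have := abs_sub (t0 + t1 * (x - c)) t0
          rw [add_sub_cancel_left] at this
          exact this
        rw [abs_mul] at this
        linarith
      rcases max_cases s1 |t1| with h | h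
      · rw [hm, h.1]
        exact e1
      · rw [hm, h.1]
        exact e2
    have hmsmall : m ≤ 7 / 32 := by
      have hg := G2 i (by omega)
      have h4i : (4 : ℝ) ^ i = 2 ^ i * 2 ^ i := by
        rw [← mul_pow]
        norm_num
      have h2i : (1 : ℝ) ≤ 2 ^ i := one_le_pow₀ (by norm_num)
      have hpow : (2 : ℝ) ^ i * 2 ^ i * 2 ^ i * 2 ^ i * 2 ^ i * 2 ^ i ≤ R := by
        refine le_trans (le_of_eq ?_) (le_trans (pow_le_pow_right₀ (by norm_num : (1 : ℝ) ≤ 2) (show 6 * i ≤ 100 * i by omega)) hbig)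
        rw [show 6 * i = i + i + i + i + i + i by ring, pow_add, pow_add, pow_add, pow_add, pow_add]
      have hhx : 1 ≤ u * (2 ^ i * 2 ^ i * 2 ^ i) := by
        have : hh i ^ 3 * (2 ^ i * 2 ^ i * 2 ^ i) = 1 := by
          calc hh i ^ 3 * (2 ^ i * 2 ^ i * 2 ^ i) = (hh i * 2 ^ i) ^ 3 := by ring
            _ = 1 := by rw [hh2]; norm_num
        rw [← this]
        exact mul_le_mul_of_nonneg_right hsize (by positivity)
      apply max_le
      · rw [hs1, div_le_iff₀ hx0]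
        have h10 : 10 ≤ R := by
          have h11 : (10 : ℝ) ≤ 2 ^ i := by nlinarith
          refine le_trans h11 (le_trans ?_ hpow)
          have : (2 : ℝ) ^ i * 1 ≤ 2 ^ i * (2 ^ i * 2 ^ i * 2 ^ i * 2 ^ i * 2 ^ i) := by
            apply mul_le_mul_of_nonneg_left _ (by positivity)
            exact one_le_mul_of_one_le_of_one_le (one_le_mul_of_one_le_of_one_le
              (one_le_mul_of_one_le_of_one_le (one_le_mul_of_one_le_of_one_le h2i h2i) h2i) h2i) h2i
          linarith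
        linarith
      · rw [ht1, abs_div, abs_of_pos (by positivity : 0 < u * x0), div_le_iff₀ (by positivity)]
        have hθb : |θ0| ≤ 2 * b0 := by
          have := EC_st_I1 X hw ((cell_sub_st d).1 hθ0)
          have := EC_I1_pos hb this
          rw [abs_of_pos this.1]
          exact this.2
        have hpq : |(l.p : ℝ) / l.q| ≤ 4 ^ i := by
          rw [abs_div]
          have h1 : (1 : ℝ) ≤ |(l.q : ℝ)| := by
            rw [Nat.abs_cast]
            have : 1 ≤ l.q := Nat.one_le_iff_ne_zero.2 f2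
            exact_mod_cast this
          have h2 : |(l.p : ℝ)| ≤ 4 ^ i := (le_max_right _ _).trans f3
          calc |(l.p : ℝ)| / |(l.q : ℝ)| ≤ |(l.p : ℝ)| / 1 := by
                apply div_le_div_of_nonneg_left (abs_nonneg _) (by norm_num) h1
            _ ≤ 4 ^ i := by rw [div_one]; exact h2
        have h5 : |(l.p : ℝ) / l.q - θ0| ≤ 4 ^ i + 2 * b0 := by
          have := abs_sub ((l.p : ℝ) / l.q) θ0
          linarith
        have h6 : 4 ^ i + 2 * b0 ≤ (1 + 2 * b0) * (2 ^ i * 2 ^ i) := by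
          rw [h4i]
          have : (1 : ℝ) ≤ 2 ^ i * 2 ^ i := one_le_mul_of_one_le_of_one_le h2i h2i
          nlinarith
        have h7 : (1 + 2 * b0) * (2 ^ i * 2 ^ i) * 10 ≤ 2 ^ i * (2 ^ i * 2 ^ i) := by
          have := mul_le_mul_of_nonneg_right hg (by positivity : (0 : ℝ) ≤ 2 ^ i * 2 ^ i)
          linarith
        have h8 : 2 ^ i * (2 ^ i * 2 ^ i) ≤ u * R := by
          calc (2 : ℝ) ^ i * (2 ^ i * 2 ^ i) = 1 * (2 ^ i * 2 ^ i * 2 ^ i) := by ring
            _ ≤ (u * (2 ^ i * 2 ^ i * 2 ^ i)) * (2 ^ i * 2 ^ i * 2 ^ i) :=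
              mul_le_mul_of_nonneg_right hhx (by positivity)
            _ = u * (2 ^ i * 2 ^ i * 2 ^ i * 2 ^ i * 2 ^ i * 2 ^ i) := by ring
            _ ≤ u * R := mul_le_mul_of_nonneg_left hpow hu0.le
        have h9 : u * R ≤ u * x0 := mul_le_mul_of_nonneg_left hx1 hu0.le
        have h10 : 0 < u * x0 := by positivity
        linarith
    set r : ℝ := 1 / (2 * m) with hr
    have hr0 : 0 < r := by positivity
    have hmr : m * r = 1 / 2 := by
      rw [hr]
      field_simp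
    have hDF := T6_an hBF (s0 := s0) (s1 := s1) (t0 := t0) (t1 := t1) (c := c) (r := r) (by
      rw [abs_of_pos hs1p]
      have : s1 * r ≤ m * r := mul_le_mul_of_nonneg_right (le_max_left _ _) hr0.le
      linarith) (by
      have : |t1| * r ≤ m * r := mul_le_mul_of_nonneg_right (le_max_right _ _) hr0.le
      linarith)
    set g : ℂ → ℂ := fun z => fb F (X.al j d) (X.be j d) x0 θ0 (dl d)
      ((s0 : ℂ) + s1 * (z - c), (t0 : ℂ) + t1 * (z - c)) with hg
    have hgr : ∀ x y : ℝ, onl l x y → ‖g x‖ = X.fj j d x y := by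
      intro x y hxy
      have e := T6_real F (X.al j d) (X.be j d) (θ0 := θ0) hx0 hu0 x y
      rw [hcs x, hct x y hxy] at e
      push_cast at e
      exact e
    have hvol := Hexp g c r M0 M1 hr0 hM01 hM10 hDF ⟨(xs : ℂ), by
      rw [← Complex.ofReal_sub, Complex.norm_real, Real.norm_eq_abs]
      have h1 := hdist (1 / 16) xs ys hon hinb
      have h2 : m * |xs - c| ≤ m * (1 / 2 * r) := by
        rw [show m * (1 / 2 * r) = (m * r) / 2 by ring, hmr]
        linarith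
      exact le_of_mul_le_mul_left h2 hm0, by
      rw [hgr xs ys hon]
      exact hbigf.le⟩
    -- the integers
    have hinjP : Set.InjOn (fun P : ℤ × ℤ => P.1) (K.filter (fun P => f P = l) : Finset (ℤ × ℤ)) := by
      intro P hP Q hQ hPQ
      have hP1 := Finset.mem_filter.1 (Finset.mem_coe.1 hP)
      have hQ1 := Finset.mem_filter.1 (Finset.mem_coe.1 hQ)
      have a1 := (hf P hP1.1).1
      have a2 := (hf Q hQ1.1).1
      rw [hP1.2] at a1
      rw [hQ1.2] at a2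
      unfold onlz at a1 a2
      have hPQ' : P.1 = Q.1 := hPQ
      rw [hPQ'] at a1
      have a3 : (l.q : ℤ) * P.2 = l.q * Q.2 := by linarith
      have hq0 : (l.q : ℤ) ≠ 0 := by exact_mod_cast f2
      exact Prod.ext hPQ' (mul_left_cancel₀ hq0 a3)
    rw [← Finset.card_image_of_injOn hinjP]
    have hexpb : C1 * r * Real.exp (-(c1 * M1 / M0)) ≤ C1 * R * Real.exp (-(c1 * lam i)) := by
      have e1 : c1 * M1 / M0 = c1 * lam i ^ 2 := by
        rw [mul_div_assoc, hrat]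
      rw [e1]
      have e2 : r ≤ R := by
        have h1 : 2 / x0 ≤ m := le_max_left _ _
        have h2 : 1 / (2 * m) ≤ 1 / (2 * (2 / x0)) := by
          apply div_le_div_of_nonneg_left (by norm_num) (by positivity)
          linarith
        have h3 : 1 / (2 * (2 / x0)) = x0 / 4 := by
          field_simp
          norm_num
        rw [hr]
        linarith
      have e3 : lam i ≤ lam i ^ 2 := by nlinarith
      have e4 : Real.exp (-(c1 * lam i ^ 2)) ≤ Real.exp (-(c1 * lam i)) := by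
        apply Real.exp_le_exp.2
        have := mul_le_mul_of_nonneg_left e3 hc1.le
        linarith
      calc C1 * r * Real.exp (-(c1 * lam i ^ 2)) ≤ C1 * R * Real.exp (-(c1 * lam i ^ 2)) := by
            apply mul_le_mul_of_nonneg_right _ (Real.exp_pos _).le
            exact mul_le_mul_of_nonneg_left e2 hC1.le
        _ ≤ C1 * R * Real.exp (-(c1 * lam i)) := by
            apply mul_le_mul_of_nonneg_left e4 (by positivity)
    refine le_trans (T6_unit _ ?_ hvol (by positivity)) hexpb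
    intro n hn x hx1' hx2'
    rw [Finset.mem_image] at hn
    obtain ⟨P, hP, rfl⟩ := hn
    have hP1 := Finset.mem_filter.1 hP
    obtain ⟨g1, g2, g3, g4⟩ := hf P hP1.1
    rw [hP1.2] at g1 g2 g3 g4
    have hinP := ((hK P hP1.1).1).2.1
    have h1 := hdist (1 / 64) P.1 P.2 (honl P g1) hinP
    set y : ℝ := ((l.r : ℝ) + l.p * x) / l.q with hy
    have hony : onl l x y := by
      unfold onl
      rw [hy]
      field_simp
      ring
    refine ⟨?_, ?_⟩
    · have h2 : |x - c| ≤ |(P.1 : ℝ) - c| + 1 := by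
        have e1 : x - c = (x - P.1) + (P.1 - c) := by ring
        have e2 : |x - (P.1 : ℝ)| ≤ 1 := by
          rw [abs_of_nonneg (by linarith)]
          linarith
        rw [e1]
        have := abs_add_le (x - (P.1 : ℝ)) (P.1 - c)
        linarith
      have h3 : m * |x - c| ≤ m * (1 / 2 * r) := by
        rw [show m * (1 / 2 * r) = (m * r) / 2 by ring, hmr]
        have := mul_le_mul_of_nonneg_left h2 hm0.le
        rw [mul_add, mul_one] at this
        linarith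
      exact le_of_mul_le_mul_left h3 hm0
    · rw [hgr x y hony]
      exact g4 x y hony hx1' hx2'
  have hsum : (K.card : ℝ) = ∑ l ∈ LL, ((K.filter (fun P => f P = l)).card : ℝ) := by
    have := Finset.card_eq_sum_card_image f K
    rw [this]
    push_cast
    rfl
  rw [hsum]
  calc ∑ l ∈ LL, ((K.filter (fun P => f P = l)).card : ℝ)
      ≤ ∑ l ∈ LL, C1 * R * Real.exp (-(c1 * lam i)) := Finset.sum_le_sum hfib
    _ = (LL.card : ℝ) * (C1 * R * Real.exp (-(c1 * lam i))) := by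
        rw [Finset.sum_const, nsmul_eq_mul]
    _ ≤ (Cl * (4 ^ i) ^ 3 * R) * (C1 * R * Real.exp (-(c1 * lam i))) :=
        mul_le_mul_of_nonneg_right hLLc (by positivity)
    _ = (Cl * C1 * 2 ^ (16 * i) * Real.exp (-(c1 * lam i))) * (hh i ^ 10 * R ^ 2) := by
        have e1 : ((4 : ℝ) ^ i) ^ 3 = 2 ^ (16 * i) * hh i ^ 10 := by
          have h1 : (2 : ℝ) ^ (16 * i) = (2 ^ i) ^ 16 := by rw [← pow_mul, mul_comm]
          have h2 : (4 : ℝ) ^ i = 2 ^ i * 2 ^ i := by
            rw [← mul_pow]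
            norm_num
          rw [h1, h2]
          calc ((2 : ℝ) ^ i * 2 ^ i) ^ 3 = (2 ^ i) ^ 6 * 1 := by ring
            _ = (2 ^ i) ^ 6 * (hh i * 2 ^ i) ^ 10 := by rw [hh2, one_pow]
            _ = (2 ^ i) ^ 16 * hh i ^ 10 := by ring
        rw [e1]
        ring
    _ ≤ 1 * (hh i ^ 10 * R ^ 2) := mul_le_mul_of_nonneg_right (G1 i (by omega)) (by positivity)
    _ = hh i ^ 10 * 4 ^ j := by
        rw [one_mul, hR, ← pow_mul, mul_comm j 2, pow_mul]
        norm_num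

end MuntzF
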