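import Pool.Agent.Lib.MP_dde81e_full.T1
import Pool.Agent.Lib.MP_dde81e_full.T2
import Pool.Agent.Lib.MP_dde81e_full.T3
import Pool.Agent.Lib.MP_dde81e_full.E1
import Pool.Agent.Lib.MP_dde81e_full.L2
import Pool.Agent.Lib.MP_dde81e_full.T4
import Pool.Agent.Lib.MP_dde81e_full.T6

/-!
Module T7 (text 6.3): all points of Znv up to h²R² many have an index b.  f = fb F al be x0 θ0 (dl d), D = ⌈2A⌉+3, (1/4)^D ≤ e^-2A/2, a from taylor.  For P ∈ Znv the vertical line q = 0, p = 1, r = -P.1 is not a valley: a real point with |t| ≤ 1/16 and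
fj > exp(-hλ²R).  typ_line for w ↦ F_J(P.1, w + w_c), W = dl d·x0/2 (disc |t| ≤ 1/2), Tv = hλ²R, K = 4^i, M1 = hΛ²R: per line ≤ C hλ²R/4^i + C R exp(-cλ²); at most 2^j lines; total ≤ h²R²  (hλ²/4^i = h³λ²).
Typical: typ_index for f1(z) = F_J(P.1, P.2+z), p = pc .. P.1 P.2 (Appr on |s| ≤ 1/64, |t| ≤ 1/64 + 1/(dl d x0) ≤ 1/4; f1(0) = 0 since F(P) = 0).
-/

namespace MuntzF
open Set Metric MeasureTheory

theorem T7_an {f : ℂ × ℂ → ℂ} {M : ℝ} (hf : BF f M) {s0 t0 t1 r : ℝ}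
    (hs : |s0| ≤ 1) (ht : |t0| + |t1| * r ≤ 1) :
    DF (fun z => f ((s0 : ℂ), (t0 : ℂ) + t1 * z)) 0 r := by
  have := T6_an hf (s0 := s0) (s1 := 0) (t0 := t0) (t1 := t1) (c := 0) (r := r)
    (by simpa using hs) ht
  simpa using this

theorem T7_appr {f : ℂ × ℂ → ℂ} {a : ℕ → ℕ → ℂ} {D : ℕ} {ε ε' : ℝ} (h : Appr f a D ε) (hε : ε ≤ ε') :
    Appr f a D ε' := fun s t hs ht => (h s t hs ht).trans hε

theorem T7_quarter {A : ℝ} (hA : 0 ≤ A) :
    ((⌈2 * A⌉₊ + 3 : ℕ) : ℝ) ≤ 2 * A + 4 ∧ (1 / 4 : ℝ) ^ (⌈2 * A⌉₊ + 3) ≤ Real.exp (-(2 * A)) / 2 := by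
  have h1 : (⌈2 * A⌉₊ : ℝ) < 2 * A + 1 := Nat.ceil_lt_add_one (by positivity)
  have h2 : 2 * A ≤ (⌈2 * A⌉₊ : ℝ) := Nat.le_ceil _
  constructor
  · push_cast
    linarith
  · have h3 : (1 / 4 : ℝ) ≤ Real.exp (-1) := by
      rw [Real.exp_neg, one_div]
      apply inv_anti₀ (Real.exp_pos _)
      have := Real.exp_one_lt_d9
      linarith
    have h4 : (1 / 4 : ℝ) ^ ⌈2 * A⌉₊ ≤ Real.exp (-(2 * A)) := by
      calc (1 / 4 : ℝ) ^ ⌈2 * A⌉₊ ≤ Real.exp (-1) ^ ⌈2 * A⌉₊ := pow_le_pow_left₀ (by norm_num) h3 _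
        _ = Real.exp (-(⌈2 * A⌉₊ : ℝ)) := by
          rw [← Real.exp_nat_mul]
          congr 1
          ring
        _ ≤ Real.exp (-(2 * A)) := Real.exp_le_exp.2 (by linarith)
    rw [pow_add]
    have h5 := Real.exp_pos (-(2 * A))
    calc (1 / 4 : ℝ) ^ ⌈2 * A⌉₊ * (1 / 4) ^ 3 ≤ Real.exp (-(2 * A)) * (1 / 4) ^ 3 :=
          mul_le_mul_of_nonneg_right h4 (by norm_num)
      _ ≤ Real.exp (-(2 * A)) / 2 := by
        norm_num
        linarith

theorem T7_ct {x0 θ0 u : ℝ} (x y a : ℝ) :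
    ct x0 θ0 u x (y + a) = ct x0 θ0 u x y + 1 / (u * x0) * a := by
  unfold ct
  ring

theorem T7_eval (a : ℕ → ℕ → ℂ) (D : ℕ) (x0 θ0 u x y : ℝ) (z : ℂ) :
    (pc a D x0 θ0 u x y).eval z = ∑ k ∈ Finset.range (D + 1), ∑ l ∈ Finset.range (D + 1),
      a k l * (cs x0 x : ℂ) ^ k * ((ct x0 θ0 u x y : ℂ) + ((1 / (u * x0) : ℝ) : ℂ) * z) ^ l := by
  unfold pc
  simp only [Polynomial.eval_finset_sum, Polynomial.eval_mul, Polynomial.eval_C, Polynomial.eval_pow,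
    Polynomial.eval_add, Polynomial.eval_X]

theorem T7_eval_shift (a : ℕ → ℕ → ℂ) (D : ℕ) (x0 θ0 u x y a' : ℝ) :
    (pc a D x0 θ0 u x (y + a')).eval 0 = (pc a D x0 θ0 u x y).eval (a' : ℂ) := by
  rw [T7_eval, T7_eval, T7_ct]
  push_cast
  simp only [mul_zero, add_zero]

theorem T7_typ {f g : ℂ → ℂ} {n : ℂ} {K M1 : ℝ} (h : ∀ z, f (n + z) = g z) (hg : Typ g 0 K M1) :
    Typ f n K M1 := by
  obtain ⟨⟨s, k, h1, h2, h3, h4, h5⟩, a0, h6, h7⟩ := hg
  refine ⟨⟨s, k, h1, h2, h3, h4, ?_⟩, a0, h6, ?_⟩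
  · intro z hz
    rw [h z]
    have := h5 z hz
    rwa [zero_add] at this
  · rw [h a0]
    rwa [zero_add] at h7

theorem T7_typ' {f g : ℂ → ℂ} {n : ℂ} {K M1 : ℝ} (h : ∀ z, f (n + z) = g z) (hg : Typ f n K M1) :
    Typ g 0 K M1 := by
  obtain ⟨⟨s, k, h1, h2, h3, h4, h5⟩, a0, h6, h7⟩ := hg
  refine ⟨⟨s, k, h1, h2, h3, h4, ?_⟩, a0, h6, ?_⟩
  · intro z hz
    rw [zero_add, ← h z]
    exact h5 z hz
  · rw [zero_add, ← h a0]
    exact h7

theorem typical {F : ℂ × ℂ → ℂ} {b0 : ℝ} (X : Ctx F b0) : ∃ i1 : ℕ,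
    ∀ (j : ℕ) (d : ℕ × ℕ) (x0 θ0 : ℝ), X.win j d → i1 ≤ X.ij j d → cell d ⊆ I2 b0 →
      2 ^ j ≤ x0 → x0 ≤ 2 * 2 ^ j → θ0 ∈ cell d →
      ∃ (a : ℕ → ℕ → ℂ) (D : ℕ), (D : ℝ) ≤ 2 * Aa (X.ij j d) j + 4 ∧
        Appr (fb F (X.al j d) (X.be j d) x0 θ0 (dl d)) a D (Real.exp (-(2 * Aa (X.ij j d) j)) / 2) ∧
        ∀ K : Finset (ℤ × ℤ), (∀ P ∈ K, P ∈ Znv X j d x0 θ0 ∧
          ∀ b < 12000, ¬ TD a D x0 θ0 (dl d) (X.ij j d) j b P) →
          (K.card : ℝ) ≤ hh (X.ij j d) ^ 2 * 4 ^ j := by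
  classical
  have hb := X.env.cs.hb
  obtain ⟨nt, Htyp⟩ := typ_index
  obtain ⟨C, c1, hC, hc1, Hline⟩ := typ_line
  obtain ⟨n1, G1⟩ := EC_exp (2 * C) c1 hc1 2
  obtain ⟨n2, G2⟩ : ∃ n2 : ℕ, ∀ i, n2 ≤ i → 2 * C ≤ lam i :=
    Filter.eventually_atTop.1 (EC_lam_tendsto.eventually_ge_atTop (2 * C))
  refine ⟨X.is + X.w0 + 1 + nt + n1 + n2, ?_⟩
  intro j d x0 θ0 hw hi hcell hx1 hx2 hθ0
  set i := X.ij j d with hidef
  set u := dl d with hu
  set R : ℝ := 2 ^ j with hR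
  have hi1 : 1 ≤ i := by omega
  have hR0 : 0 < R := by positivity
  have hR1 : 1 ≤ R := one_le_pow₀ (by norm_num)
  have hx0 : 0 < x0 := by linarith
  have hu0 : 0 < u := L2_dl_pos d
  have hu1 : u ≤ 1 := by
    rw [hu]
    unfold dl
    exact pow_le_one₀ (by norm_num) (by norm_num)
  have hBF := T6_bf X hw (by omega) hx1 hx2 hθ0
  have hsize : hh i ^ 3 ≤ u := T6_size X hw (by omega)
  have hbig : (2 : ℝ) ^ (100 * i) ≤ R := T6_big X
  have hlp := EC_lam_pos i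
  have hl1 := EC_lam_one i
  have hh0 : 0 < hh i := by unfold hh; positivity
  have hh2 : hh i * 2 ^ i = 1 := by
    unfold hh
    rw [← mul_pow]
    norm_num
  have hij : i ≤ j / 100 := L2_iJ_le X.env.cs j d
  have hux : 16 ≤ u * x0 := by
    have e1 : (16 : ℝ) ≤ hh i ^ 3 * 2 ^ (100 * i) := by
      have e2 : hh i ^ 3 * 2 ^ (100 * i) = 2 ^ (97 * i) := by
        have e3 : (2 : ℝ) ^ (100 * i) = (2 ^ i) ^ 3 * 2 ^ (97 * i) := by
          rw [← pow_mul, ← pow_add]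
          congr 1
          ring
        rw [e3, ← mul_assoc, ← mul_pow, hh2, one_pow, one_mul]
      rw [e2]
      calc (16 : ℝ) = 2 ^ 4 := by norm_num
        _ ≤ 2 ^ (97 * i) := pow_le_pow_right₀ (by norm_num) (by omega)
    calc (16 : ℝ) ≤ hh i ^ 3 * 2 ^ (100 * i) := e1
      _ ≤ u * x0 := mul_le_mul hsize (hbig.trans hx1) (by positivity) hu0.le
  have hux0 : 0 < u * x0 := by linarith
  set A : ℝ := Aa i j with hA
  have hA0 : 0 ≤ A := by
    rw [hA]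
    unfold Aa La
    positivity
  set D : ℕ := ⌈2 * A⌉₊ + 3 with hD
  obtain ⟨hD1, hD2⟩ := T7_quarter hA0
  obtain ⟨a, ha⟩ := taylor hBF D
  have happ := T7_appr ha hD2
  refine ⟨a, D, hD1, happ, ?_⟩
  intro K hK
  set f := fb F (X.al j d) (X.be j d) x0 θ0 (dl d) with hf
  -- the functions on vertical lines
  set t1 : ℝ := 1 / (u * x0) with ht1
  have ht1p : 0 < t1 := by positivity
  set gm : ℝ → ℝ → ℂ → ℂ := fun m y z => f ((cs x0 m : ℂ), (ct x0 θ0 u m y : ℂ) + (t1 : ℂ) * z) with hgm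
  have hshift : ∀ m y a' : ℝ, ∀ z : ℂ, gm m y ((a' : ℂ) + z) = gm m (y + a') z := by
    intro m y a' z
    have e1 : (ct x0 θ0 u m y : ℂ) + (t1 : ℂ) * ((a' : ℂ) + z) =
        (ct x0 θ0 u m (y + a') : ℂ) + (t1 : ℂ) * z := by
      rw [T7_ct m y a', ← ht1]
      push_cast
      ring
    show f ((cs x0 m : ℂ), (ct x0 θ0 u m y : ℂ) + (t1 : ℂ) * ((a' : ℂ) + z)) =
      f ((cs x0 m : ℂ), (ct x0 θ0 u m (y + a') : ℂ) + (t1 : ℂ) * z)
    rw [e1]
  have hreal : ∀ m y w : ℝ, ‖gm m y (w : ℂ)‖ = X.fj j d m (y + w) := by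
    intro m y w
    have e1 : (ct x0 θ0 u m y : ℂ) + (t1 : ℂ) * (w : ℂ) = (ct x0 θ0 u m (y + w) : ℂ) := by
      rw [T7_ct m y w, ← ht1]
      push_cast
      ring
    show ‖f ((cs x0 m : ℂ), (ct x0 θ0 u m y : ℂ) + (t1 : ℂ) * (w : ℂ))‖ = X.fj j d m (y + w)
    rw [e1]
    exact T6_real F (X.al j d) (X.be j d) (θ0 := θ0) hx0 hu0 m (y + w)
  set W : ℝ := u * x0 / 2 with hW
  set Tv : ℝ := hh i * lam i ^ 2 * R with hTv
  set M1 : ℝ := hh i * La i ^ 2 * R with hM1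
  have hTv1 : 1 ≤ Tv := by
    have h1 : (2 : ℝ) ^ i ≤ R :=
      le_trans (pow_le_pow_right₀ (by norm_num) (by omega)) hbig
    have h2 : 1 ≤ hh i * R := by
      rw [← hh2]
      exact mul_le_mul_of_nonneg_left h1 hh0.le
    have h3 : (1 : ℝ) ≤ lam i ^ 2 := one_le_pow₀ hl1
    calc (1 : ℝ) ≤ hh i * R := h2
      _ = hh i * 1 * R := by ring
      _ ≤ hh i * lam i ^ 2 * R := by
        apply mul_le_mul_of_nonneg_right _ hR0.le
        exact mul_le_mul_of_nonneg_left h3 hh0.le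
  have hM10 : 0 ≤ M1 := by positivity
  have hrat : M1 / Tv = lam i ^ 2 := by
    rw [hM1, hTv]
    unfold La
    field_simp
  -- a nontypical point has no type
  have hnt : ∀ P ∈ K, ¬ Typ (gm P.1 P.2) 0 (4 ^ i) M1 := by
    intro P hP hT
    obtain ⟨⟨hZ, hin, hnv⟩, hTD⟩ := hK P hP
    have h1 : |cs x0 (P.1 : ℝ)| ≤ 1 / 64 := hin.1
    have h2 : |ct x0 θ0 u (P.1 : ℝ) (P.2 : ℝ)| ≤ 1 / 64 := hin.2
    have ht16 : t1 ≤ 1 / 16 := by
      rw [ht1]
      exact one_div_le_one_div_of_le (by norm_num) hux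
    have hDF : DF (gm P.1 P.2) 0 1 := T7_an hBF (by linarith) (by
      rw [abs_of_pos ht1p]
      linarith)
    have h0 : gm P.1 P.2 0 = 0 := by
      have e := hreal P.1 P.2 0
      rw [add_zero] at e
      have e2 : X.fj j d P.1 P.2 = 0 := by
        unfold Ctx.fj
        have e3 : F (((P.1 : ℝ) : ℂ), ((P.2 : ℝ) : ℂ)) = 0 := by
          have := hZ.1.2.2
          push_cast
          exact this
        rw [e3, norm_zero, zero_mul]
      rw [e2] at e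
      rw [Complex.ofReal_zero] at e
      exact norm_eq_zero.1 e
    obtain ⟨b, hb1, hb2, a', ha1, ha2⟩ := Htyp i j (gm P.1 P.2) (pc a D x0 θ0 u P.1 P.2) (by omega)
      (by omega) hDF h0 hT (by
        intro z hz
        rw [T7_eval]
        refine happ _ _ ?_ ?_
        · rw [Complex.norm_real, Real.norm_eq_abs]
          linarith
        · calc ‖(ct x0 θ0 u (P.1 : ℝ) (P.2 : ℝ) : ℂ) + ((1 / (u * x0) : ℝ) : ℂ) * z‖
              ≤ ‖(ct x0 θ0 u (P.1 : ℝ) (P.2 : ℝ) : ℂ)‖ + ‖((1 / (u * x0) : ℝ) : ℂ) * z‖ := norm_add_le _ _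
            _ = |ct x0 θ0 u (P.1 : ℝ) (P.2 : ℝ)| + t1 * ‖z‖ := by
              rw [norm_mul, Complex.norm_real, Complex.norm_real, Real.norm_eq_abs, Real.norm_eq_abs,
                ← ht1, abs_of_pos ht1p]
            _ ≤ 1 / 64 + 1 / 16 * 1 := by
              have := mul_le_mul ht16 hz (norm_nonneg _) (by norm_num)
              linarith
            _ ≤ 1 / 4 := by norm_num)
    refine hTD b hb1 ⟨hb2, (P.2 : ℝ) + a', ?_, ?_⟩
    · rw [add_sub_cancel_left]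
      exact ha1
    · rw [T7_eval_shift]
      exact ha2
  -- one vertical line
  have hfib : ∀ m ∈ K.image Prod.fst, ((K.filter (fun P => P.1 = m)).card : ℝ) ≤
      C * Tv / 4 ^ i + C * W * Real.exp (-(c1 * M1 / Tv)) := by
    intro m hm
    rw [Finset.mem_image] at hm
    obtain ⟨P0, hP0, hPm⟩ := hm
    obtain ⟨⟨hZ, hin, hnv⟩, hTD⟩ := hK P0 hP0
    have h1 : |cs x0 (P0.1 : ℝ)| ≤ 1 / 64 := hin.1
    have h2 : |ct x0 θ0 u (P0.1 : ℝ) (P0.2 : ℝ)| ≤ 1 / 64 := hin.2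
    -- the vertical line is not a valley
    set l : Ln := ⟨0, 1, -P0.1, by norm_num, by norm_num⟩ with hl
    have honl : ∀ x y : ℝ, onl l x y → x = P0.1 := by
      intro x y h
      have h3 : ((0 : ℕ) : ℝ) * y - ((1 : ℤ) : ℝ) * x = ((-P0.1 : ℤ) : ℝ) := h
      push_cast at h3
      linarith
    have honl' : ∀ y : ℝ, onl l P0.1 y := by
      intro y
      show ((0 : ℕ) : ℝ) * y - ((1 : ℤ) : ℝ) * (P0.1 : ℝ) = ((-P0.1 : ℤ) : ℝ)
      push_cast
      ring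
    have honz : onlz l P0 := by
      show ((0 : ℕ) : ℤ) * P0.2 - (1 : ℤ) * P0.1 = -P0.1
      push_cast
      ring
    have hht : ht l ≤ 4 ^ i := by
      have : ht l = 1 := by
        show max (((0 : ℕ)) : ℝ) |((1 : ℤ) : ℝ)| = 1
        push_cast
        rw [abs_one]
        exact max_eq_right (by norm_num)
      rw [this]
      exact one_le_pow₀ (by norm_num)
    obtain ⟨xs, ys, hon, hinb, hbigf⟩ : ∃ x y : ℝ, onl l x y ∧ inb x0 θ0 u (1 / 16) x y ∧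
        Real.exp (-(hh i * lam i ^ 2 * R)) < X.fj j d x y := by
      by_contra hcon
      push Not at hcon
      exact hnv ⟨l, ⟨hht, ⟨P0.1, P0.2, honl' P0.2, hin, hZ.2.2.2⟩, hcon⟩, honz⟩
    have hxs := honl xs ys hon
    rw [hxs] at hinb hbigf
    have h3 : |ct x0 θ0 u (P0.1 : ℝ) ys| ≤ 1 / 16 := hinb.2
    have hdct : ∀ y : ℝ, ct x0 θ0 u (P0.1 : ℝ) y - ct x0 θ0 u (P0.1 : ℝ) (P0.2 : ℝ) =
        t1 * (y - P0.2) := by
      intro y
      have := T7_ct (x0 := x0) (θ0 := θ0) (u := u) (P0.1 : ℝ) (P0.2 : ℝ) (y - P0.2)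
      rw [add_sub_cancel] at this
      rw [this]
      ring
    have hdy : ∀ ε y : ℝ, |ct x0 θ0 u (P0.1 : ℝ) y| ≤ ε → |y - P0.2| ≤ (ε + 1 / 64) * (2 * W) := by
      intro ε y hy
      have e1 : |t1 * (y - P0.2)| ≤ ε + 1 / 64 := by
        rw [← hdct y]
        have := abs_sub (ct x0 θ0 u (P0.1 : ℝ) y) (ct x0 θ0 u (P0.1 : ℝ) (P0.2 : ℝ))
        linarith
      rw [abs_mul, abs_of_pos ht1p] at e1
      have e2 : t1 * (2 * W) = 1 := by
        rw [ht1, hW]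
        field_simp
      calc |y - (P0.2 : ℝ)| = (t1 * |y - P0.2|) * (2 * W) := by
            rw [show (t1 * |y - (P0.2 : ℝ)|) * (2 * W) = (t1 * (2 * W)) * |y - P0.2| by ring, e2, one_mul]
        _ ≤ (ε + 1 / 64) * (2 * W) := mul_le_mul_of_nonneg_right e1 (by positivity)
    have hW8 : 8 ≤ W := by
      rw [hW]
      linarith
    set E : Finset ℤ := (K.filter (fun P => P.1 = m)).image (fun P => P.2 - P0.2) with hE
    have hinj : Set.InjOn (fun P : ℤ × ℤ => P.2 - P0.2) (K.filter (fun P => P.1 = m) : Finset (ℤ × ℤ)) := by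
      intro P hP Q hQ hPQ
      have hP1 := (Finset.mem_filter.1 (Finset.mem_coe.1 hP)).2
      have hQ1 := (Finset.mem_filter.1 (Finset.mem_coe.1 hQ)).2
      have hPQ' : P.2 - P0.2 = Q.2 - P0.2 := hPQ
      exact Prod.ext (hP1.trans hQ1.symm) (by omega)
    have hEc : E.card = (K.filter (fun P => P.1 = m)).card := Finset.card_image_of_injOn hinj
    rw [← hEc]
    refine Hline (gm P0.1 P0.2) W Tv (4 ^ i) M1 E hW8 hTv1 (one_le_pow₀ (by norm_num)) hM10 ?_ ?_ ?_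
    · refine T7_an hBF (by linarith) ?_
      rw [abs_of_pos ht1p]
      have : t1 * W = 1 / 2 := by
        rw [ht1, hW]
        field_simp
      linarith
    · refine ⟨((ys - P0.2 : ℝ) : ℂ), ?_, ?_⟩
      · rw [Complex.norm_real, Real.norm_eq_abs]
        have := hdy (1 / 16) ys h3
        linarith
      · rw [hreal, add_sub_cancel]
        exact hbigf.le
    · intro n hn
      rw [hE, Finset.mem_image] at hn
      obtain ⟨P, hP, hPn⟩ := hn
      obtain ⟨hPK, hP1⟩ := Finset.mem_filter.1 hP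
      have hP01 : P.1 = P0.1 := hP1.trans hPm.symm
      have hinP := (hK P hPK).1.2.1
      have h4 : |ct x0 θ0 u (P0.1 : ℝ) (P.2 : ℝ)| ≤ 1 / 64 := by
        rw [← hP01]
        exact hinP.2
      have h5 := hdy (1 / 64) P.2 h4
      have hnr : (n : ℝ) = (P.2 : ℝ) - P0.2 := by
        rw [← hPn]
        push_cast
        ring
      refine ⟨?_, ?_⟩
      · rw [hnr]
        linarith
      · intro hT
        apply hnt P hPK
        refine T7_typ' (f := gm P0.1 P0.2) (n := (n : ℂ)) ?_ hT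
        intro z
        have e1 : (n : ℂ) = (((P.2 : ℝ) - P0.2 : ℝ) : ℂ) := by
          rw [← hnr]
          push_cast
          rfl
        rw [e1, hshift, add_sub_cancel, hP01]
  have hcardm : ((K.image Prod.fst).card : ℝ) ≤ R := by
    have hsub : K.image Prod.fst ⊆ Finset.Ico ((2 : ℤ) ^ j) (2 ^ (j + 1)) := by
      intro m hm
      rw [Finset.mem_image] at hm
      obtain ⟨P, hP, rfl⟩ := hm
      have hZ := (hK P hP).1.1
      rw [Finset.mem_Ico]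
      exact ⟨hZ.2.1, hZ.2.2.1⟩
    have h1 := Finset.card_le_card hsub
    rw [Int.card_Ico] at h1
    have h2 : ((2 : ℤ) ^ (j + 1) - 2 ^ j).toNat = 2 ^ j := by
      rw [pow_succ]
      have : (2 : ℤ) ^ j * 2 - 2 ^ j = ((2 ^ j : ℕ) : ℤ) := by
        push_cast
        ring
      rw [this, Int.toNat_natCast]
    rw [h2] at h1
    rw [hR]
    exact_mod_cast h1
  have hsum : (K.card : ℝ) = ∑ m ∈ K.image Prod.fst, ((K.filter (fun P => P.1 = m)).card : ℝ) := by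
    have := Finset.card_eq_sum_card_image Prod.fst K
    rw [this]
    push_cast
    rfl
  have hWR : W ≤ R := by
    rw [hW]
    have : u * x0 ≤ 1 * (2 * R) := mul_le_mul hu1 hx2 hx0.le (by norm_num)
    linarith
  have h4i : hh i ^ 2 * 4 ^ i = 1 := by
    have : (4 : ℝ) ^ i = (2 ^ i) ^ 2 := by
      rw [← pow_mul, mul_comm i 2, pow_mul]
      norm_num
    rw [this, ← mul_pow, hh2, one_pow]
  have b1 : C * Tv / 4 ^ i ≤ hh i ^ 2 * R / 2 := by
    have e1 : C * Tv / 4 ^ i = (C * (hh i * lam i ^ 2)) * (hh i ^ 2 * R) := by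
      rw [div_eq_iff (by positivity), hTv]
      calc C * (hh i * lam i ^ 2 * R) = C * (hh i * lam i ^ 2) * R * 1 := by ring
        _ = C * (hh i * lam i ^ 2) * R * (hh i ^ 2 * 4 ^ i) := by rw [h4i]
        _ = _ := by ring
    have e2 : C * (hh i * lam i ^ 2) ≤ 1 / 2 := by
      have e3 : 2 * C * lam i ^ 2 ≤ 2 ^ i := by
        have g2 := G2 i (by omega)
        have e4 : (2 : ℝ) ^ i = lam i ^ 8000 := by
          have := EC_lam_pow i 1
          rw [one_mul, mul_one] at this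
          exact this
        rw [e4]
        calc 2 * C * lam i ^ 2 ≤ lam i * lam i ^ 2 := mul_le_mul_of_nonneg_right g2 (by positivity)
          _ = lam i ^ 3 := by ring
          _ ≤ lam i ^ 8000 := pow_le_pow_right₀ hl1 (by norm_num)
      have e5 := mul_le_mul_of_nonneg_left e3 hh0.le
      rw [hh2] at e5
      linarith
    rw [e1]
    calc (C * (hh i * lam i ^ 2)) * (hh i ^ 2 * R) ≤ 1 / 2 * (hh i ^ 2 * R) :=
          mul_le_mul_of_nonneg_right e2 (by positivity)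
      _ = hh i ^ 2 * R / 2 := by ring
  have b2 : C * W * Real.exp (-(c1 * M1 / Tv)) ≤ hh i ^ 2 * R / 2 := by
    have e1 : c1 * M1 / Tv = c1 * lam i ^ 2 := by
      rw [mul_div_assoc, hrat]
    have g1 := G1 i (by omega)
    have e3 : lam i ≤ lam i ^ 2 := by nlinarith
    have e4 : Real.exp (-(c1 * lam i ^ 2)) ≤ Real.exp (-(c1 * lam i)) := by
      apply Real.exp_le_exp.2
      have := mul_le_mul_of_nonneg_left e3 hc1.le
      linarith
    have e5 : (2 : ℝ) ^ (2 * i) * hh i ^ 2 = 1 := by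
      rw [mul_comm 2 i, pow_mul, ← mul_pow, mul_comm, hh2, one_pow]
    rw [e1]
    calc C * W * Real.exp (-(c1 * lam i ^ 2)) ≤ C * R * Real.exp (-(c1 * lam i)) := by
          apply mul_le_mul _ e4 (Real.exp_pos _).le (by positivity)
          exact mul_le_mul_of_nonneg_left hWR hC.le
      _ = (2 * C * 1 * Real.exp (-(c1 * lam i))) * (R / 2) := by ring
      _ = (2 * C * (2 ^ (2 * i) * hh i ^ 2) * Real.exp (-(c1 * lam i))) * (R / 2) := by rw [e5]
      _ = (2 * C * 2 ^ (2 * i) * Real.exp (-(c1 * lam i))) * (hh i ^ 2 * R / 2) := by ring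
      _ ≤ 1 * (hh i ^ 2 * R / 2) := mul_le_mul_of_nonneg_right g1 (by positivity)
      _ = hh i ^ 2 * R / 2 := one_mul _
  rw [hsum]
  calc ∑ m ∈ K.image Prod.fst, ((K.filter (fun P => P.1 = m)).card : ℝ)
      ≤ ∑ m ∈ K.image Prod.fst, hh i ^ 2 * R := by
        apply Finset.sum_le_sum
        intro m hm
        have := hfib m hm
        linarith
    _ = ((K.image Prod.fst).card : ℝ) * (hh i ^ 2 * R) := by
        rw [Finset.sum_const, nsmul_eq_mul]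
    _ ≤ R * (hh i ^ 2 * R) := mul_le_mul_of_nonneg_right hcardm (by positivity)
    _ = hh i ^ 2 * 4 ^ j := by
        rw [show (4 : ℝ) ^ j = R ^ 2 by
          rw [hR, ← pow_mul, mul_comm j 2, pow_mul]
          norm_num]
        ring

end MuntzF
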