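import Pool.Agent.Lib.MP_dde81e_full.TDefs

/-!
Module T5 (text 6.5): three circles.  sq p T_b ≤ 4 del_b² gives ‖p‖ ≤ 4 del_b ≤ 4e^-A on ‖a‖ ≤ e^-T_b/2.  ‖p‖ ≤ 2 on ‖a‖ ≤ 1.  Hadamard (three lines theorem of Mathlib with exp, or maximum principle for a^-k p on annuli: take k = ⌊A/(2T_b)⌋... ): for
‖a‖ ≤ r = R^6 e^-T_(b+1): log‖p‖ ≤ -(log(1/r)/log(2e^(T_b)))·(A - log 4) + log 2, log(1/r) ≥ T_(b+1)/2 (T_(b+1) ≥ 2h³A ≥ R^(1/2), so 6 log R ≤ T_(b+1)/2), log(2e^T_b) ≤ 2T_b, T_(b+1)/T_b = 1/Λ: ≤ -A/(5Λ) ≤ -2hΛ²R (A/Λ = hΛ³R).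
-/

namespace MuntzF
open Set Metric

namespace T5

/-- Hadamard three circles for polynomials. -/
private lemma hadamard (p : Polynomial ℂ) (ℓ a0 : ℝ) (hℓ : 0 < ℓ)
    (h1 : ∀ a : ℂ, ‖a‖ = Real.exp (-ℓ) → ‖p.eval a‖ ≤ a0)
    (h2 : ∀ a : ℂ, ‖a‖ = 1 → ‖p.eval a‖ ≤ 2) (a : ℂ) (s : ℝ) (hs : 0 ≤ s) (hs1 : s ≤ 1)
    (ha : ‖a‖ = Real.exp (-(s * ℓ))) :
    ‖p.eval a‖ ≤ a0 ^ s * 2 ^ (1 - s) := by
  have hane : a ≠ 0 := by
    intro h
    rw [h, norm_zero] at ha
    exact (Real.exp_pos _).ne ha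
  have hz : Complex.exp (Complex.log a) = a := Complex.exp_log hane
  have hre : (Complex.log a).re = -(s * ℓ) := by rw [Complex.log_re, ha, Real.log_exp]
  obtain ⟨C, hC⟩ := (isCompact_closedBall (0 : ℂ) 1).exists_bound_of_continuousOn
    (f := fun z => p.eval z) p.continuous.continuousOn
  have key := Complex.HadamardThreeLines.norm_le_interp_of_mem_verticalClosedStrip'
    (f := fun z => p.eval (Complex.exp z)) (z := Complex.log a) (a := a0) (b := 2) (l := -ℓ)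
    (u := 0) (by linarith) ?_ ?_ ?_ ?_ ?_
  · rw [hz] at key
    have hℓ0 : ℓ ≠ 0 := hℓ.ne'
    have e2 : (((Complex.log a).re - -ℓ) / (0 - -ℓ)) = 1 - s := by
      rw [hre, zero_sub, neg_neg, div_eq_iff hℓ0]
      ring
    have e1 : (1 - ((Complex.log a).re - -ℓ) / (0 - -ℓ)) = s := by
      rw [e2]
      ring
    rwa [e1, e2] at key
  · show (Complex.log a).re ∈ Icc (-ℓ) 0
    rw [hre]
    constructor <;> nlinarith
  · exact (p.differentiable.comp Complex.differentiable_exp).diffContOnCl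
  · refine ⟨C, ?_⟩
    rintro _ ⟨z, hz, rfl⟩
    have hz' : z.re ∈ Icc (-ℓ) 0 := hz
    apply hC
    rw [mem_closedBall_zero_iff, Complex.norm_exp]
    exact Real.exp_le_one_iff.2 hz'.2
  · intro z hz
    have hz' : z.re = -ℓ := hz
    apply h1
    rw [Complex.norm_exp, hz']
  · intro z hz
    have hz' : z.re = 0 := hz
    apply h2
    rw [Complex.norm_exp, hz', Real.exp_zero]

/-- values of a polynomial inside the circle on which the square norm is small. -/
private lemma small (p : Polynomial ℂ) (T δ : ℝ) (hδ : 0 ≤ δ) (h : sq p T ≤ 4 * δ ^ 2) (a : ℂ)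
    (ha : ‖a‖ ≤ Real.exp (-T) / 2) : ‖p.eval a‖ ≤ 4 * δ := by
  have h0 : ‖p.eval a‖ ≤ ∑ k ∈ p.support, (‖p.coeff k‖ * Real.exp (-(k * T))) *
      (Real.exp (k * T) * ‖a‖ ^ k) := by
    rw [Polynomial.eval_eq_sum, Polynomial.sum_def]
    refine (norm_sum_le _ _).trans (le_of_eq (Finset.sum_congr rfl fun k _ => ?_))
    have e : Real.exp (-(k * T)) * Real.exp (k * T) = 1 := by
      rw [← Real.exp_add, neg_add_cancel, Real.exp_zero]
    rw [norm_mul, norm_pow]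
    linear_combination (-(‖p.coeff k‖ * ‖a‖ ^ k)) * e
  have h1 : (∑ k ∈ p.support, (‖p.coeff k‖ * Real.exp (-(k * T))) *
      (Real.exp (k * T) * ‖a‖ ^ k)) ^ 2 ≤ (∑ k ∈ p.support, (‖p.coeff k‖ * Real.exp (-(k * T))) ^ 2) *
      (∑ k ∈ p.support, (Real.exp (k * T) * ‖a‖ ^ k) ^ 2) :=
    Finset.sum_mul_sq_le_sq_mul_sq _ _ _
  have h2 : (∑ k ∈ p.support, (‖p.coeff k‖ * Real.exp (-(k * T))) ^ 2) = sq p T := by
    unfold sq
    refine Finset.sum_congr rfl fun k _ => ?_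
    rw [mul_pow, ← Real.exp_nat_mul]
    congr 2
    push_cast
    ring
  have h3 : (∑ k ∈ p.support, (Real.exp (k * T) * ‖a‖ ^ k) ^ 2) ≤ 4 / 3 := by
    have h4 : ∀ k ∈ p.support, (Real.exp (k * T) * ‖a‖ ^ k) ^ 2 ≤ (1 / 4 : ℝ) ^ k := by
      intro k _
      have h5 : Real.exp (k * T) * ‖a‖ ^ k ≤ (1 / 2) ^ k := by
        rw [Real.exp_nat_mul, ← mul_pow]
        refine pow_le_pow_left₀ (by positivity) ?_ _
        calc Real.exp T * ‖a‖ ≤ Real.exp T * (Real.exp (-T) / 2) :=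
              mul_le_mul_of_nonneg_left ha (Real.exp_pos _).le
          _ = 1 / 2 := by
              rw [← mul_div_assoc, ← Real.exp_add, add_neg_cancel, Real.exp_zero]
      calc (Real.exp (k * T) * ‖a‖ ^ k) ^ 2 ≤ ((1 / 2) ^ k) ^ 2 :=
            pow_le_pow_left₀ (by positivity) h5 _
        _ = (1 / 4 : ℝ) ^ k := by
            rw [← pow_mul, mul_comm, pow_mul]
            norm_num
    refine (Finset.sum_le_sum h4).trans ?_
    have hs : Summable (fun k : ℕ => (1 / 4 : ℝ) ^ k) :=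
      summable_geometric_of_lt_one (by norm_num) (by norm_num)
    refine (hs.sum_le_tsum _ (fun k _ => by positivity)).trans (le_of_eq ?_)
    rw [tsum_geometric_of_lt_one (by norm_num) (by norm_num)]
    norm_num
  have hsq : 0 ≤ sq p T := by
    unfold sq
    exact Finset.sum_nonneg fun k _ => by positivity
  have h6 : ‖p.eval a‖ ^ 2 ≤ (4 * δ) ^ 2 := by
    calc ‖p.eval a‖ ^ 2 ≤ _ := pow_le_pow_left₀ (norm_nonneg _) h0 2
      _ ≤ _ := h1
      _ ≤ (4 * δ ^ 2) * (4 / 3) := by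
          rw [h2]
          refine mul_le_mul h h3 (Finset.sum_nonneg fun k _ => by positivity) (by positivity)
      _ ≤ (4 * δ) ^ 2 := by nlinarith [sq_nonneg δ]
  exact le_of_sq_le_sq h6 (by positivity)

private lemma La_pos (i : ℕ) : 0 < La i := by
  unfold La lam
  positivity

private lemma La_ge (i : ℕ) (hi : 16000 ≤ i) : 16 ≤ La i := by
  unfold La lam
  have hi' : (16000 : ℝ) ≤ i := by exact_mod_cast hi
  have h : (4 : ℝ) ≤ (2 : ℝ) ^ ((i : ℝ) / 8000) := by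
    calc (4 : ℝ) = (2 : ℝ) ^ (2 : ℝ) := by norm_num
      _ ≤ (2 : ℝ) ^ ((i : ℝ) / 8000) :=
          Real.rpow_le_rpow_of_exponent_le (by norm_num) (by linarith)
  nlinarith

private lemma La_pow (i : ℕ) : La i ^ 12000 = 8 ^ i := by
  unfold La lam
  rw [← pow_mul, ← Real.rpow_natCast, ← Real.rpow_mul (by norm_num)]
  have : (i : ℝ) / 8000 * ((2 * 12000 : ℕ) : ℝ) = ((3 * i : ℕ) : ℝ) := by
    push_cast
    ring
  rw [this, Real.rpow_natCast, pow_mul]
  norm_num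

private lemma nine (n : ℕ) (hn : 6 ≤ n) : 9 * n ≤ 2 ^ n := by
  induction n, hn using Nat.le_induction with
  | base => norm_num
  | succ n hn ih =>
    rw [pow_succ]
    omega

end T5

theorem three_circles : ∃ i1 : ℕ, ∀ (i j b : ℕ) (p : Polynomial ℂ), i1 ≤ i → 100 * i ≤ j → b < 12000 →
    (∀ a : ℂ, ‖a‖ ≤ 1 → ‖p.eval a‖ ≤ 2) → sq p (Tb i j b) ≤ 4 * del i j b ^ 2 →
    ∀ a : ℂ, ‖a‖ ≤ (2 ^ j) ^ 6 * tau i j b → ‖p.eval a‖ ≤ Real.exp (-(2 * hh i * La i ^ 2 * 2 ^ j)) := by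
  refine ⟨16000, ?_⟩
  intro i j b p hi hij hb hp2 hsq a ha
  have hL := T5.La_ge i hi
  have hLp := T5.La_pos i
  have hLpow := T5.La_pow i
  obtain ⟨n, hn⟩ : ∃ n, j = n + 4 * i := ⟨j - 4 * i, by omega⟩
  have hn6 : 6 ≤ n := by omega
  have hjn : j ≤ 2 * n := by omega
  have h9 := T5.nine n hn6
  have h9' : (9 : ℝ) * n ≤ 2 ^ n := by exact_mod_cast h9
  -- `h R = 8^i 2^n`
  have hR : (2 : ℝ) ^ j = 2 ^ n * 16 ^ i := by
    rw [hn, pow_add, pow_mul]
    norm_num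
  have hhR : hh i * 2 ^ j = 8 ^ i * 2 ^ n := by
    have e : ((1 : ℝ) / 2) ^ i * 16 ^ i = 8 ^ i := by
      rw [← mul_pow]
      norm_num
    unfold hh
    rw [hR, mul_left_comm, e]
    ring
  have h8 : (8 : ℝ) ≤ 8 ^ i := by
    calc (8 : ℝ) = 8 ^ 1 := by norm_num
      _ ≤ 8 ^ i := pow_le_pow_right₀ (by norm_num) (by omega)
  have h2n : (1 : ℝ) ≤ 2 ^ n := one_le_pow₀ (by norm_num)
  set G : ℝ := hh i * 2 ^ j with hG
  have hG8 : 8 ≤ G := by rw [hhR]; nlinarith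
  have hA : Aa i j = G * La i ^ 4 := by unfold Aa; rw [hG]; ring
  have hApos : 0 < Aa i j := by rw [hA]; positivity
  -- the numbers `T_b`, `T_(b+1)`
  have hT1 : Tb i j b = La i * Tb i j (b + 1) := by
    unfold Tb
    rw [pow_succ]
    field_simp
  have hT2 : 2 * 2 ^ n ≤ Tb i j (b + 1) := by
    unfold Tb
    rw [le_div_iff₀ (by positivity)]
    have e1 : La i ^ (b + 1) ≤ 8 ^ i := by
      rw [← hLpow]
      exact pow_le_pow_right₀ (by linarith) (by omega)
    calc 2 * 2 ^ n * La i ^ (b + 1) ≤ 2 * 2 ^ n * 8 ^ i :=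
          mul_le_mul_of_nonneg_left e1 (by positivity)
      _ = 2 * G := by rw [hhR]; ring
      _ ≤ 2 * Aa i j := by
          rw [hA]
          have : (1 : ℝ) ≤ La i ^ 4 := one_le_pow₀ (by linarith)
          nlinarith
  have hTpos : 0 < Tb i j (b + 1) := by linarith
  have hTb : 1 ≤ Tb i j b := by
    rw [hT1]
    nlinarith
  -- the radius
  have hr : (2 ^ j) ^ 6 * tau i j b ≤ Real.exp (-(Tb i j (b + 1) / 2)) := by
    have e1 : ((2 : ℝ) ^ j) ^ 6 ≤ Real.exp (Tb i j (b + 1) / 2) := by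
      have e2 : ((2 : ℝ) ^ j) ^ 6 = Real.exp (((j * 6 : ℕ) : ℝ) * Real.log 2) := by
        rw [Real.exp_nat_mul, Real.exp_log (by norm_num), pow_mul]
      rw [e2]
      apply Real.exp_le_exp.2
      have e3 : Real.log 2 ≤ 0.7 := by
        have := Real.log_two_lt_d9
        linarith
      have e4 : ((j * 6 : ℕ) : ℝ) ≤ 12 * n := by
        have : j * 6 ≤ 12 * n := by omega
        exact_mod_cast this
      have e5 : (0 : ℝ) ≤ Real.log 2 := Real.log_nonneg (by norm_num)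
      have e6 : ((j * 6 : ℕ) : ℝ) * Real.log 2 ≤ 12 * n * 0.7 :=
        mul_le_mul e4 e3 e5 (by positivity)
      have e7 : (0 : ℝ) ≤ n := by positivity
      linarith
    unfold tau
    calc (2 ^ j) ^ 6 * Real.exp (-Tb i j (b + 1)) ≤
          Real.exp (Tb i j (b + 1) / 2) * Real.exp (-Tb i j (b + 1)) :=
          mul_le_mul_of_nonneg_right e1 (Real.exp_pos _).le
      _ = Real.exp (-(Tb i j (b + 1) / 2)) := by
          rw [← Real.exp_add]
          congr 1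
          ring
  have ha' : ‖a‖ ≤ Real.exp (-(Tb i j (b + 1) / 2)) := ha.trans hr
  -- the bound `4 δ ≤ exp (-A)`
  have hdel : 4 * del i j b ≤ Real.exp (-Aa i j) := by
    unfold del
    have hb' : (b : ℝ) + 1 ≤ 12000 := by exact_mod_cast hb
    have e1 : Real.exp (-(Aa i j + (12000 - (b : ℝ)) * 8 ^ i)) ≤
        Real.exp (-Aa i j) * Real.exp (-8) := by
      rw [← Real.exp_add]
      apply Real.exp_le_exp.2
      nlinarith
    have e2 : 4 * Real.exp (-8) ≤ 1 := by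
      have e3 : (9 : ℝ) ≤ Real.exp 8 := by
        have := Real.add_one_le_exp (8 : ℝ)
        linarith
      rw [Real.exp_neg]
      have e4 : (Real.exp 8)⁻¹ ≤ 9⁻¹ := inv_anti₀ (by norm_num) e3
      linarith
    nlinarith [Real.exp_pos (-Aa i j)]
  have hdel0 : 0 < del i j b := Real.exp_pos _
  set ℓ : ℝ := Tb i j b + Real.log 2 with hℓ
  have hlog2 : 0 < Real.log 2 := Real.log_pos (by norm_num)
  have hlog2' : Real.log 2 ≤ 1 := by
    have := Real.log_two_lt_d9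
    linarith
  have hexpl : Real.exp (-ℓ) = Real.exp (-Tb i j b) / 2 := by
    rw [hℓ, neg_add, Real.exp_add, Real.exp_neg (Real.log 2), Real.exp_log (by norm_num)]
    ring
  have hsmall : ∀ a : ℂ, ‖a‖ ≤ Real.exp (-ℓ) → ‖p.eval a‖ ≤ Real.exp (-Aa i j) := by
    intro a ha
    rw [hexpl] at ha
    exact (T5.small p _ _ hdel0.le hsq a ha).trans hdel
  have hE : -(2 * hh i * La i ^ 2 * 2 ^ j) = -(2 * G * La i ^ 2) := by rw [hG]; ring
  rw [hE]
  rcases le_total ‖a‖ (Real.exp (-ℓ)) with hcase | hcase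
  · refine (hsmall a hcase).trans (Real.exp_le_exp.2 ?_)
    rw [hA]
    have e1 : (2 : ℝ) ≤ La i ^ 2 := by nlinarith
    have e2 : 0 ≤ G * La i ^ 2 := by positivity
    nlinarith
  · have hapos : 0 < ‖a‖ := lt_of_lt_of_le (Real.exp_pos _) hcase
    have hℓpos : 0 < ℓ := by linarith
    set s : ℝ := -Real.log ‖a‖ / ℓ with hs
    have hsℓ : s * ℓ = -Real.log ‖a‖ := by rw [hs]; field_simp
    have hlog1 : -ℓ ≤ Real.log ‖a‖ := by
      rw [Real.le_log_iff_exp_le hapos]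
      exact hcase
    have hlog3 : Real.log ‖a‖ ≤ -(Tb i j (b + 1) / 2) := by
      rw [Real.log_le_iff_le_exp hapos]
      exact ha'
    have hs1 : s ≤ 1 := by
      rw [hs, div_le_one hℓpos]
      linarith
    have hs0 : 1 / (4 * La i) ≤ s := by
      rw [hs, div_le_div_iff₀ (by positivity) hℓpos]
      have e1 : ℓ ≤ 2 * Tb i j b := by linarith
      have e2 : (Tb i j (b + 1) / 2) * (4 * La i) ≤ -Real.log ‖a‖ * (4 * La i) :=
        mul_le_mul_of_nonneg_right (by linarith) (by positivity)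
      have e3 : (Tb i j (b + 1) / 2) * (4 * La i) = 2 * Tb i j b := by rw [hT1]; ring
      linarith
    have hs00 : 0 ≤ s := le_trans (by positivity) hs0
    have hkey := T5.hadamard p ℓ (Real.exp (-Aa i j)) hℓpos
      (fun a ha => hsmall a ha.le) (fun a ha => hp2 a ha.le) a s hs00 hs1
      (by rw [hsℓ, neg_neg, Real.exp_log hapos])
    refine hkey.trans ?_
    rw [← Real.exp_mul]
    have e1 : (2 : ℝ) ^ (1 - s) ≤ 2 := by
      calc (2 : ℝ) ^ (1 - s) ≤ (2 : ℝ) ^ (1 : ℝ) :=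
            Real.rpow_le_rpow_of_exponent_le (by norm_num) (by linarith)
        _ = 2 := Real.rpow_one _
    have e2 : (2 : ℝ) ≤ Real.exp 1 := by
      have := Real.add_one_le_exp (1 : ℝ)
      linarith
    have e3 : -Aa i j * s ≤ -(G * La i ^ 3 / 4) := by
      have : Aa i j * (1 / (4 * La i)) ≤ Aa i j * s := mul_le_mul_of_nonneg_left hs0 hApos.le
      have e4 : Aa i j * (1 / (4 * La i)) = G * La i ^ 3 / 4 := by
        rw [hA]
        field_simp
      linarith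
    calc Real.exp (-Aa i j * s) * 2 ^ (1 - s) ≤ Real.exp (-(G * La i ^ 3 / 4)) * Real.exp 1 := by
          refine mul_le_mul (Real.exp_le_exp.2 e3) (e1.trans e2) (by positivity)
            (Real.exp_pos _).le
      _ = Real.exp (-(G * La i ^ 3 / 4) + 1) := by rw [Real.exp_add]
      _ ≤ Real.exp (-(2 * G * La i ^ 2)) := by
          apply Real.exp_le_exp.2
          have e5 : 1 ≤ G * La i ^ 2 := by nlinarith
          nlinarith

end MuntzF
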