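import Pool.Agent.Lib.MP_dde81e_full.TDefs

/-!
Numbers used in T8, T9: Λ = La i, h = hh i, R = 2^j, i ≤ j/100.
-/

namespace MuntzF

theorem lam_pow (i : ℕ) : lam i ^ 8000 = 2 ^ i := by
  unfold lam
  rw [← Real.rpow_natCast, ← Real.rpow_mul (by norm_num)]
  have : (i : ℝ) / 8000 * ((8000 : ℕ) : ℝ) = i := by push_cast; ring
  rw [this, Real.rpow_natCast]

theorem La_pow (i : ℕ) : La i ^ 4000 = 2 ^ i := by
  unfold La
  rw [← pow_mul, ← lam_pow i]

theorem La_pow3 (i : ℕ) : La i ^ 12000 = 8 ^ i := by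
  have : La i ^ 12000 = (La i ^ 4000) ^ 3 := by rw [← pow_mul]
  rw [this, La_pow, ← pow_mul, mul_comm, pow_mul]
  norm_num

theorem lam_one (i : ℕ) : 1 ≤ lam i := by
  unfold lam
  exact Real.one_le_rpow (by norm_num) (by positivity)

theorem La_one (i : ℕ) : 1 ≤ La i := by
  unfold La
  exact one_le_pow₀ (lam_one i)

theorem La_pos (i : ℕ) : 0 < La i := lt_of_lt_of_le one_pos (La_one i)

theorem hh_pos (i : ℕ) : 0 < hh i := by
  unfold hh
  positivity

theorem hh_two (i : ℕ) : hh i * 2 ^ i = 1 := by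
  unfold hh
  rw [← mul_pow]
  norm_num

theorem La_hh (i : ℕ) : hh i = (La i ^ 4000)⁻¹ := by
  rw [La_pow]
  exact eq_inv_of_mul_eq_one_left (hh_two i)

theorem La_eq (i : ℕ) : La i = (2 : ℝ) ^ ((i : ℝ) / 4000) := by
  unfold La lam
  rw [← Real.rpow_natCast, ← Real.rpow_mul (by norm_num)]
  congr 1
  push_cast
  ring

theorem La_large (C : ℝ) : ∃ i1 : ℕ, ∀ i, i1 ≤ i → C ≤ La i := by
  have h1 : Filter.Tendsto (fun i : ℕ => (2 : ℝ) ^ ((i : ℝ) / 4000)) Filter.atTop Filter.atTop := by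
    have h2 : Filter.Tendsto (fun x : ℝ => (2 : ℝ) ^ x) Filter.atTop Filter.atTop :=
      tendsto_rpow_atTop_of_base_gt_one 2 (by norm_num)
    have h3 : Filter.Tendsto (fun i : ℕ => (i : ℝ) / 4000) Filter.atTop Filter.atTop :=
      tendsto_natCast_atTop_atTop.atTop_div_const (by norm_num)
    exact h2.comp h3
  obtain ⟨i1, h⟩ := (h1.eventually_ge_atTop C).exists_forall_of_atTop
  exact ⟨i1, fun i hi => by rw [La_eq]; exact h i hi⟩

theorem La_R {i j : ℕ} (h : 100 * i ≤ j) : La i ^ 400000 ≤ 2 ^ j := by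
  have : La i ^ 400000 = (La i ^ 4000) ^ 100 := by rw [← pow_mul]
  rw [this, La_pow, ← pow_mul]
  exact pow_le_pow_right₀ (by norm_num) (by omega)

theorem Aa_eq (i j : ℕ) : Aa i j = hh i * La i ^ 4 * 2 ^ j := rfl

theorem Aa_low {i j : ℕ} (h : 100 * i ≤ j) : (2 : ℝ) ^ (j - i) ≤ Aa i j := by
  have h1 : (1 : ℝ) ≤ La i ^ 4 := one_le_pow₀ (La_one i)
  have h2 : (2 : ℝ) ^ j = 2 ^ (j - i) * 2 ^ i := by
    rw [← pow_add]
    congr 1
    omega
  have h3 := hh_two i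
  have h4 : (0 : ℝ) < 2 ^ (j - i) := by positivity
  have h5 : Aa i j = 2 ^ (j - i) * La i ^ 4 := by
    rw [Aa_eq, h2]
    calc hh i * La i ^ 4 * (2 ^ (j - i) * 2 ^ i) = (hh i * 2 ^ i) * (2 ^ (j - i) * La i ^ 4) := by ring
      _ = _ := by rw [h3, one_mul]
  rw [h5]
  nlinarith

theorem Aa_pos (i j : ℕ) : 0 < Aa i j := by
  have := hh_pos i
  have := La_pos i
  rw [Aa_eq]
  positivity

theorem Tb_low {i j b : ℕ} (hb : b ≤ 12000) : 2 * Aa i j / 8 ^ i ≤ Tb i j b := by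
  unfold Tb
  have h1 := La_one i
  have h2 := Aa_pos i j
  have h3 : La i ^ b ≤ 8 ^ i := by
    rw [← La_pow3]
    exact pow_le_pow_right₀ h1 hb
  have h4 : 0 < La i ^ b := pow_pos (La_pos i) b
  gcongr

theorem two_pow_big (k : ℕ) (hk : 100 ≤ k) : 1000 * (k : ℝ) + 1000 ≤ 2 ^ (k / 2) := by
  obtain ⟨n, hn, hn2⟩ : ∃ n : ℕ, n = k / 2 ∧ 50 ≤ n := ⟨k / 2, rfl, by omega⟩
  have h1 : (k : ℝ) ≤ 2 * n + 1 := by
    have : k ≤ 2 * n + 1 := by omega
    exact_mod_cast this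
  rw [← hn]
  have h2 : ∀ m : ℕ, 50 ≤ m → 1000 * (2 * (m : ℝ) + 1) + 1000 ≤ 2 ^ m := by
    intro m hm
    induction m, hm using Nat.le_induction with
    | base => norm_num
    | succ m hm ih =>
      rw [pow_succ]
      push_cast
      have : (50 : ℝ) ≤ m := by exact_mod_cast hm
      linarith
  linarith [h2 n hn2]

theorem Tb_big {i j b : ℕ} (h : 100 * i ≤ j) (hj : 100 ≤ j) (hb : b ≤ 12000) :
    1000 * (j : ℝ) + 1000 ≤ Tb i j b := by
  have h1 := two_pow_big j hj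
  have h2 := Tb_low (i := i) (j := j) hb
  have h3 := Aa_low h
  have h4 : (2 : ℝ) ^ (j / 2) * 8 ^ i ≤ 2 ^ (j - i) := by
    have : (8 : ℝ) ^ i = 2 ^ (3 * i) := by rw [pow_mul]; norm_num
    rw [this, ← pow_add]
    exact pow_le_pow_right₀ (by norm_num) (by omega)
  have h5 : (2 : ℝ) ^ (j / 2) ≤ 2 * Aa i j / 8 ^ i := by
    rw [le_div_iff₀ (by positivity)]
    linarith [Aa_pos i j]
  linarith

theorem tau_pos (i j b : ℕ) : 0 < tau i j b := Real.exp_pos _

theorem TN_tau_small {i j b : ℕ} (h : 100 * i ≤ j) (hj : 100 ≤ j) (hb : b < 12000) :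
    ((2 : ℝ) ^ j) ^ 100 * tau i j b ≤ 1 / 1000 := by
  have h1 := Tb_big h hj (b := b + 1) (by omega)
  unfold tau
  have h2 : ((2 : ℝ) ^ j) ^ 100 ≤ Real.exp (100 * j) := by
    have h3 : (2 : ℝ) ≤ Real.exp 1 := by
      have := Real.add_one_le_exp (1 : ℝ)
      linarith
    calc ((2 : ℝ) ^ j) ^ 100 = 2 ^ (j * 100) := by rw [← pow_mul]
      _ ≤ (Real.exp 1) ^ (j * 100) := pow_le_pow_left₀ (by norm_num) h3 _
      _ = Real.exp (100 * j) := by
        rw [← Real.exp_nat_mul]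
        congr 1
        push_cast
        ring
  have h4 : (1000 : ℝ) ≤ Real.exp 1000 := by
    have := Real.add_one_le_exp (1000 : ℝ)
    linarith
  calc ((2 : ℝ) ^ j) ^ 100 * Real.exp (-Tb i j (b + 1))
      ≤ Real.exp (100 * j) * Real.exp (-Tb i j (b + 1)) :=
        mul_le_mul_of_nonneg_right h2 (Real.exp_pos _).le
    _ = Real.exp (100 * j - Tb i j (b + 1)) := by rw [← Real.exp_add]; rfl
    _ ≤ Real.exp (-1000) := by
        apply Real.exp_le_exp.2
        have : (0 : ℝ) ≤ j := Nat.cast_nonneg j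
        linarith
    _ ≤ 1 / 1000 := by
        rw [Real.exp_neg, one_div]
        exact inv_anti₀ (by norm_num) h4

end MuntzF
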