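import Pool.Agent.Lib.MP_dde81e_full.T4
import Pool.Agent.Lib.MP_dde81e_full.T5
import Pool.Agent.Lib.MP_dde81e_full.E1
import Pool.Agent.Lib.MP_dde81e_full.L2
import Pool.Agent.Lib.MP_dde81e_full.G3
import Pool.Agent.Lib.MP_dde81e_full.G6
import Pool.Agent.Lib.MP_dde81e_full.G2
import Pool.Agent.Lib.MP_dde81e_full.TNum

/-!
Module T8 (text 6.4, 6.5, 7.4): the generic curve and the chain of the points with index b.  S from sq_poly (T = Tb b), N = 4D+4 ≤ 9hΛ⁴R, generic with Mm = integers in [2^j/2, 4·2^j], Y = C R, tol = del²/4, (d1,d2) = (2del², 3del²).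
q(P.1,P.2) ≤ del² + del²/4 - 2del² < 0 and q(P.1,y') ≥ 4del² - del²/4 - 3del² > 0 (sq ≥ ‖coeff 0‖² = ‖eval 0‖²): root yv P between.  Gen.gm: q_y ≠ 0 there.  chain_exists.
hugprop: P → P' hugging with τ0 = R⁴τ: |ph P x - l(x)| ≤ τ + R⁴τ·R ≤ R^6 τ on [P.1,P'.1] for l = the line through P and P' (P' lies on l); for x ∈ [P.1,P.1+1] the point (x, ph P x) is in inb (1/8) [P in inb (1/64), slope of l bounded by
|P'.2-P.2| ≤ 4^i..., see hyp], q = 0 there gives sq ≤ 4del²; T5 for p = pc at (x, ph P x), a = y - ph P x; Appr: ‖fb‖ ≤ e^(-2hΛ²R) + e^-2A/2 ≤ e^(-hΛ²R).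
(‖pc.eval a‖ ≤ 2 for ‖a‖ ≤ 1: Appr and ‖fb‖ ≤ 1.)
-/

namespace MuntzF
open Set

variable {F : ℂ × ℂ → ℂ} {b0 : ℝ}

theorem T8_fj (X : Ctx F b0) (j : ℕ) (d : ℕ × ℕ) {x0 θ0 u : ℝ} (hx0 : x0 ≠ 0) (hu : u ≠ 0)
    (x y : ℝ) : X.fj j d x y = ‖fb F (X.al j d) (X.be j d) x0 θ0 u
      (((cs x0 x : ℝ) : ℂ), ((ct x0 θ0 u x y : ℝ) : ℂ))‖ := by
  have h1 : (x0 : ℂ) * (1 + ((cs x0 x : ℝ) : ℂ) / 2) = x := by
    have : x0 * (1 + cs x0 x / 2) = x := by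
      unfold cs
      field_simp
      ring
    exact_mod_cast this
  have h2 : (θ0 : ℂ) * x + u * x0 * ((ct x0 θ0 u x y : ℝ) : ℂ) = y := by
    have : θ0 * x + u * x0 * ct x0 θ0 u x y = y := by
      unfold ct
      field_simp
      ring
    exact_mod_cast this
  unfold fb Ctx.fj
  simp only
  rw [h1, h2, norm_mul, Complex.norm_exp]
  congr 2
  simp

theorem T8_pc (a : ℕ → ℕ → ℂ) (D : ℕ) (x0 θ0 u x y : ℝ) (z : ℂ) :
    (pc a D x0 θ0 u x y).eval z = ∑ k ∈ Finset.range (D + 1), ∑ l ∈ Finset.range (D + 1),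
      a k l * ((cs x0 x : ℝ) : ℂ) ^ k * (((ct x0 θ0 u x y : ℝ) : ℂ) + z / (u * x0)) ^ l := by
  unfold pc
  rw [Polynomial.eval_finset_sum]
  refine Finset.sum_congr rfl fun k _ => ?_
  rw [Polynomial.eval_finset_sum]
  refine Finset.sum_congr rfl fun l _ => ?_
  simp only [Polynomial.eval_mul, Polynomial.eval_pow, Polynomial.eval_add, Polynomial.eval_C,
    Polynomial.eval_X]
  congr 2
  push_cast
  ring

theorem T8_sq (p : Polynomial ℂ) (T : ℝ) : ‖p.eval 0‖ ^ 2 ≤ sq p T := by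
  have h0 : ∀ k ∈ p.support, 0 ≤ ‖p.coeff k‖ ^ 2 * Real.exp (-(2 * k * T)) := fun k _ => by positivity
  rw [← Polynomial.coeff_zero_eq_eval_zero]
  by_cases h : 0 ∈ p.support
  · have := Finset.single_le_sum h0 h
    simpa [sq] using this
  · have h2 : p.coeff 0 = 0 := by simpa using h
    rw [h2]
    simpa [sq] using Finset.sum_nonneg h0

/-- the curve: signs. -/
theorem T8_curve (S : MvPolynomial (Fin 2) ℝ) (N : ℕ) (hN : 2 ≤ N) (hS : S.totalDegree < N)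
    (Sg Ka Mm : Finset ℝ) (h1 : ∀ σ ∈ Sg, σ ≠ 0) (h2 : ∀ κ ∈ Ka, κ ≠ 0) {Y μ : ℝ} (hY : 0 < Y)
    (hμ : 0 < μ) : ∃ q : MvPolynomial (Fin 2) ℝ, Gen q N Sg Ka Mm ∧
      (∀ x y, |y| ≤ Y → ev S x y ≤ μ ^ 2 → ev q x y < 0) ∧
      (∀ x y, |y| ≤ Y → 4 * μ ^ 2 ≤ ev S x y → 0 < ev q x y) ∧
      (∀ x y, |y| ≤ Y → ev q x y = 0 → ev S x y ≤ 4 * μ ^ 2) := by
  have hm : 0 < μ ^ 2 := by positivity
  obtain ⟨β, e, δ, -, hd1, hd2, htol, hG⟩ := generic S N hN hS Sg Ka Mm h1 h2 Y (μ ^ 2 / 4)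
    (2 * μ ^ 2) (3 * μ ^ 2) hY (by positivity) (by linarith)
  refine ⟨_, hG, ?_, ?_, ?_⟩
  · intro x y hy hs
    have h3 := htol y hy
    have h4 := le_abs_self (β * y)
    have h5 := le_abs_self (e * y ^ N)
    unfold ev at hs ⊢
    simp only [map_add, map_sub, map_mul, map_pow, MvPolynomial.eval_C, MvPolynomial.eval_X,
      Matrix.cons_val_one, Matrix.cons_val_fin_one] at hs ⊢
    linarith
  · intro x y hy hs
    have h3 := htol y hy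
    have h4 := neg_abs_le (β * y)
    have h5 := neg_abs_le (e * y ^ N)
    unfold ev at hs ⊢
    simp only [map_add, map_sub, map_mul, map_pow, MvPolynomial.eval_C, MvPolynomial.eval_X,
      Matrix.cons_val_one, Matrix.cons_val_fin_one] at hs ⊢
    linarith
  · intro x y hy hs
    have h3 := htol y hy
    have h4 := neg_abs_le (β * y)
    have h5 := neg_abs_le (e * y ^ N)
    unfold ev at hs ⊢
    simp only [map_add, map_sub, map_mul, map_pow, MvPolynomial.eval_C, MvPolynomial.eval_X,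
      Matrix.cons_val_one, Matrix.cons_val_fin_one] at hs ⊢
    linarith

theorem T8_root (q : MvPolynomial (Fin 2) ℝ) {x y1 y2 : ℝ} (h1 : ev q x y1 < 0) (h2 : 0 < ev q x y2) :
    ∃ y, |y - y1| ≤ |y2 - y1| ∧ ev q x y = 0 := by
  have hc : ContinuousOn (fun y => ev q x y) (uIcc y1 y2) :=
    fun y _ => (ev_hasDeriv_y q x y).continuousAt.continuousWithinAt
  have h3 := intermediate_value_uIcc hc
  have h4 : (0 : ℝ) ∈ uIcc (ev q x y1) (ev q x y2) := by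
    rw [uIcc_of_le (by linarith)]
    exact ⟨h1.le, h2.le⟩
  obtain ⟨y, hy, hy0⟩ := h3 h4
  exact ⟨y, abs_sub_left_of_mem_uIcc hy, hy0⟩

/-- line through a lattice point in a given direction. -/
theorem T8_line (P : ℤ × ℤ) (vx vy : ℤ) (hx : 0 < vx) : ∃ l : Ln, onlz l P ∧ l.q ≠ 0 ∧
    ht l ≤ max (vx : ℝ) |(vy : ℝ)| ∧ ∀ x y : ℝ, onl l x y → y = P.2 + (vy : ℝ) / vx * (x - P.1) := by
  set g : ℕ := Int.gcd vx vy with hg
  have hg0 : 0 < g := Int.gcd_pos_of_ne_zero_left _ hx.ne'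
  obtain ⟨q, hq⟩ := Int.gcd_dvd_left vx vy
  obtain ⟨p, hp⟩ := Int.gcd_dvd_right vx vy
  rw [← hg] at hq hp
  have hgz : (0 : ℤ) < g := by exact_mod_cast hg0
  have hq0 : 0 < q := by
    by_contra hc
    have : q ≤ 0 := not_lt.1 hc
    nlinarith
  have hcop : Int.gcd q p = 1 := by
    have h1 : Int.gcd ((g : ℤ) * q) (g * p) = g * Int.gcd q p := by
      rw [Int.gcd_mul_left]
      simp
    rw [← hq, ← hp, ← hg] at h1
    have : g * 1 = g * Int.gcd q p := by omega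
    exact (Nat.eq_of_mul_eq_mul_left hg0 this).symm
  have hqn : ((q.toNat : ℕ) : ℤ) = q := Int.toNat_of_nonneg hq0.le
  refine ⟨⟨q.toNat, p, q * P.2 - p * P.1, ?_, ?_⟩, ?_, ?_, ?_, ?_⟩
  · rw [hqn]; exact hcop
  · intro h; omega
  · unfold onlz
    simp only [hqn]
  · simp only
    omega
  · unfold ht
    simp only
    have e1 : ((q.toNat : ℕ) : ℝ) = (q : ℝ) := by exact_mod_cast congrArg (Int.cast : ℤ → ℝ) hqn
    have hg1 : (1 : ℤ) ≤ g := hgz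
    have h1 : q ≤ vx := by rw [hq]; nlinarith
    have h2 : |p| ≤ |vy| := by
      rw [hp, abs_mul, abs_of_pos hgz]
      nlinarith [abs_nonneg p]
    rw [e1]
    apply max_le_max
    · exact_mod_cast h1
    · exact_mod_cast h2
  · intro x y h
    unfold onl at h
    simp only at h
    have e1 : ((q.toNat : ℕ) : ℝ) = (q : ℝ) := by exact_mod_cast congrArg (Int.cast : ℤ → ℝ) hqn
    rw [e1] at h
    push_cast at h
    have hqr : (0 : ℝ) < q := by exact_mod_cast hq0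
    have hgr : (0 : ℝ) < g := by exact_mod_cast hg0
    have e2 : (vy : ℝ) / vx = p / q := by
      rw [hq, hp]
      push_cast
      field_simp
    rw [e2]
    field_simp
    linarith

theorem T8_mvt {q : MvPolynomial (Fin 2) ℝ} {m m' τ0 s : ℝ} {φ : ℝ → ℝ} (ha : Arc q m m' φ)
    (hs : ∀ x ∈ Icc m m', |D1 q x (φ x) - s| < τ0) {x : ℝ} (hx : x ∈ Icc m m') :
    |φ x - φ m - s * (x - m)| ≤ τ0 * (x - m) := by
  have hm : m ∈ Icc m m' := ⟨le_rfl, hx.1.trans hx.2⟩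
  have h1 := Convex.norm_image_sub_le_of_norm_hasDerivWithin_le
    (f := fun t => φ t - s * t) (f' := fun t => D1 q t (φ t) - s) (C := τ0) (s := Icc m m')
    (x := m) (y := x)
    (fun t ht => by
      have h2 : HasDerivWithinAt (fun t => φ t - s * t) (D1 q t (φ t) - s * 1) (Icc m m') t :=
        (arc_deriv ha t ht).sub ((hasDerivWithinAt_id t (Icc m m')).const_mul s)
      rw [mul_one] at h2
      exact h2)
    (fun t ht => (hs t ht).le) (convex_Icc _ _) hm hx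
  rw [Real.norm_eq_abs, Real.norm_eq_abs, abs_of_nonneg (sub_nonneg.2 hx.1)] at h1
  have e : φ x - φ m - s * (x - m) = φ x - s * x - (φ m - s * m) := by ring
  rw [e]
  exact h1

/-- bounds in the sub-box. -/
theorem T8_ybound {x0 θ0 w x y B : ℝ} (hx0 : 0 < x0) (hw : 0 < w) (hw1 : w ≤ 1) (hθ : 0 ≤ θ0) (hθB : θ0 ≤ B)
    (hcs : |cs x0 x| ≤ 1 / 8) (hct : |ct x0 θ0 w x y| ≤ 1 / 8) : |y| ≤ (2 * B + 1) * x0 := by
  have hx : |x| ≤ 2 * x0 := by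
    unfold cs at hcs
    rw [abs_div, abs_of_pos hx0, div_le_iff₀ hx0] at hcs
    have h1 := abs_le.1 hcs
    rw [abs_le]
    constructor <;> linarith [h1.1, h1.2]
  unfold ct at hct
  rw [abs_div, abs_of_pos (mul_pos hw hx0), div_le_iff₀ (mul_pos hw hx0)] at hct
  have h2 : |y| ≤ |y - θ0 * x| + |θ0 * x| := by
    have := abs_add_le (y - θ0 * x) (θ0 * x)
    rwa [sub_add_cancel] at this
  have h3 : |θ0 * x| ≤ B * (2 * x0) := by
    rw [abs_mul, abs_of_nonneg hθ]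
    exact mul_le_mul hθB hx (abs_nonneg _) (hθ.trans hθB)
  have h4 : w * x0 ≤ x0 := by nlinarith
  linarith

/-- moving inside the sub-box. -/
theorem T8_move {x0 θ0 w m n x y V : ℝ} (hx0 : 0 < x0) (hw : 0 < w) (hθ : 0 ≤ θ0)
    (h : inb x0 θ0 w (1 / 64) m n) (hx1 : m ≤ x) (hx2 : x ≤ m + 1) (hy : |y - n| ≤ V)
    (hV : 64 * (V + θ0 + 1) ≤ w * x0) (hw1 : w ≤ 1) :
    |cs x0 x| ≤ 1 / 16 ∧ |ct x0 θ0 w x y| ≤ 1 / 16 := by
  obtain ⟨h1, h2⟩ := h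
  have hV0 : 0 ≤ V := (abs_nonneg _).trans hy
  have hx0' : 64 ≤ x0 := by nlinarith
  constructor
  · unfold cs at h1 ⊢
    rw [abs_div, abs_of_pos hx0, div_le_iff₀ hx0] at h1 ⊢
    have h3 := abs_le.1 h1
    rw [abs_le]
    constructor <;> linarith [h3.1, h3.2]
  · unfold ct at h2 ⊢
    have hp := mul_pos hw hx0
    rw [abs_div, abs_of_pos hp, div_le_iff₀ hp] at h2 ⊢
    have e : y - θ0 * x = (n - θ0 * m) + (y - n) - θ0 * (x - m) := by ring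
    have h3 : |y - θ0 * x| ≤ |n - θ0 * m| + |y - n| + |θ0 * (x - m)| := by
      rw [e]
      exact (abs_sub _ _).trans (add_le_add_left (abs_add_le _ _) _)
    have h4 : |θ0 * (x - m)| ≤ θ0 := by
      rw [abs_mul, abs_of_nonneg hθ, abs_of_nonneg (sub_nonneg.2 hx1)]
      nlinarith
    linarith

theorem T8_hh_pow {i j : ℕ} (h : i ≤ j) : hh i * 2 ^ j = 2 ^ (j - i) := by
  have h2 : (2 : ℝ) ^ j = 2 ^ i * 2 ^ (j - i) := by
    rw [← pow_add]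
    congr 1
    omega
  rw [h2, ← mul_assoc, hh_two, one_mul]

theorem T8_facts (X : Ctx F b0) : ∃ i1 : ℕ, ∀ (j : ℕ) (d : ℕ × ℕ), X.win j d → i1 ≤ X.ij j d →
    1 ≤ X.ij j d ∧ 100 * X.ij j d ≤ j ∧ 100 ≤ j ∧ 0 < dl d ∧ dl d ≤ 1 ∧
    (1 / 2 : ℝ) ^ (X.w0 + 1) * hh (X.ij j d) ≤ dl d ∧
    ∀ x0 θ0 : ℝ, 2 ^ j ≤ x0 → x0 ≤ 2 * 2 ^ j → θ0 ∈ cell d →
      BF (fb F (X.al j d) (X.be j d) x0 θ0 (dl d)) (X.A1 * hh (X.ij j d) * x0) ∧ 0 ≤ θ0 ∧
      θ0 ≤ 2 * b0 ∧ 64 * (4 ^ X.ij j d / 4 + 1 + θ0 + 1) ≤ dl d * x0 := by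
  have hcs := X.env.cs
  have hb := hcs.hb
  have hb0 : 0 < b0 := by linarith
  have hw0 : 400 * b0 ≤ 2 ^ X.w0 := by linarith [X.hw0]
  refine ⟨max X.is (X.w0 + 2), ?_⟩
  intro j d hwin hi
  have hi1 : X.is ≤ X.ij j d := (le_max_left _ _).trans hi
  have hi2 : X.w0 + 2 ≤ X.ij j d := (le_max_right _ _).trans hi
  obtain ⟨hj, hW⟩ := hwin
  have hij : X.ij j d ≤ j / 100 := L2_iJ_le hcs j d
  set i := X.ij j d with hidef
  have hp : 0 < dl d := L2_dl_pos d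
  have hd1 : dl d ≤ 1 := by
    unfold dl
    exact pow_le_one₀ (by norm_num) (by norm_num)
  have hhp := hh_pos i
  have hh1 : hh i ≤ 1 := by
    unfold hh
    exact pow_le_one₀ (by norm_num) (by norm_num)
  have hc : (1 / 2 : ℝ) ^ (X.w0 + 1) * hh i ≤ dl d := by
    rcases win_len hcs hw0 hj hW with h1 | ⟨-, h1⟩
    · have e : dl d = (1 / 2 : ℝ) ^ X.w0 := by unfold dl; rw [h1]
      rw [e, pow_succ]
      have : (0 : ℝ) < (1 / 2) ^ X.w0 := by positivity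
      nlinarith
    · have e : hh i ≤ 2 * dl d := h1
      have e2 : (1 / 2 : ℝ) ^ (X.w0 + 1) ≤ 1 / 2 := by
        rw [pow_succ]
        have : (1 / 2 : ℝ) ^ X.w0 ≤ 1 := pow_le_one₀ (by norm_num) (by norm_num)
        linarith
      nlinarith
  have hh3 : hh i ^ 3 ≤ dl d := by
    refine le_trans ?_ hc
    have e : hh i ^ 2 ≤ (1 / 2 : ℝ) ^ (X.w0 + 1) := by
      unfold hh
      rw [← pow_mul]
      exact pow_le_pow_of_le_one (by norm_num) (by norm_num) (by omega)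
    calc hh i ^ 3 = hh i ^ 2 * hh i := by ring
      _ ≤ _ := mul_le_mul_of_nonneg_right e hhp.le
  have hst : ∀ x, |x - dc d| ≤ 60 * dl d → x ∈ I1 b0 := fun x hx => st_sub hb hw0 hW.1 hW.2.1 hx
  refine ⟨by omega, by omega, by omega, hp, hd1, hc, ?_⟩
  intro x0 θ0 hx1 hx2 hθ
  have hR : (0 : ℝ) < 2 ^ j := by positivity
  have hx0 : 0 < x0 := lt_of_lt_of_le hR hx1
  have hθ1 : θ0 ∈ I1 b0 := by
    apply hst
    have := L2_cell hθ
    linarith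
  have hθ0 : 0 ≤ θ0 := le_trans (by positivity) hθ1.1
  have hθ2 : θ0 ≤ 2 * b0 := hθ1.2
  refine ⟨?_, hθ0, hθ2, ?_⟩
  · exact box_bf X.env.hF hb X.hs0 (fun x hx => hst x (by linarith)) (X.box j d hj hW hi1)
      (by linarith) (by linarith) ((cell_sub_st d).1 hθ) hh3 le_rfl
  · have h1 : (1 / 2 : ℝ) ^ (X.w0 + 1) * 2 ^ (j - i) ≤ dl d * x0 := by
      rw [← T8_hh_pow (by omega : i ≤ j), ← mul_assoc]
      exact mul_le_mul hc hx1 hR.le hp.le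
    have h2 : (2 : ℝ) ^ (2 * i + 8) ≤ (1 / 2 : ℝ) ^ (X.w0 + 1) * 2 ^ (j - i) := by
      have e : (2 : ℝ) ^ (j - i) = 2 ^ (X.w0 + 1) * 2 ^ (j - i - (X.w0 + 1)) := by
        rw [← pow_add]
        congr 1
        omega
      rw [e, ← mul_assoc, ← mul_pow]
      norm_num
      exact pow_le_pow_right₀ (by norm_num) (by omega)
    have h3 : 2 * b0 ≤ 4 ^ i := by
      have h4 : (2 : ℝ) ^ X.w0 ≤ 4 ^ i := by
        have : (4 : ℝ) ^ i = 2 ^ (2 * i) := by rw [pow_mul]; norm_num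
        rw [this]
        exact pow_le_pow_right₀ (by norm_num) (by omega)
      linarith
    have h4 : (2 : ℝ) ^ (2 * i + 8) = 256 * 4 ^ i := by
      rw [pow_add, pow_mul]
      norm_num
      ring
    have h5 : (1 : ℝ) ≤ 4 ^ i := one_le_pow₀ (by norm_num)
    have h6 : θ0 ≤ 4 ^ i := hθ2.trans h3
    have h7 : (16 : ℝ) ≤ 4 ^ i := by
      have : (4 : ℝ) ^ 2 ≤ 4 ^ i := pow_le_pow_right₀ (by norm_num) (by omega)
      linarith
    linarith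

theorem curve_exists {F : ℂ × ℂ → ℂ} {b0 : ℝ} (X : Ctx F b0) : ∃ i1 : ℕ,
    ∀ (j : ℕ) (d : ℕ × ℕ) (x0 θ0 : ℝ) (a : ℕ → ℕ → ℂ) (D b : ℕ) (Sg Ka : Finset ℝ) (Zs : Finset (ℤ × ℤ)),
      X.win j d → i1 ≤ X.ij j d → cell d ⊆ I2 b0 →
      2 ^ j ≤ x0 → x0 ≤ 2 * 2 ^ j → θ0 ∈ cell d → (D : ℝ) ≤ 2 * Aa (X.ij j d) j + 4 →
      Appr (fb F (X.al j d) (X.be j d) x0 θ0 (dl d)) a D (Real.exp (-(2 * Aa (X.ij j d) j)) / 2) →
      b < 12000 → (∀ σ ∈ Sg, σ ≠ 0) → (∀ κ ∈ Ka, κ ≠ 0) →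
      (∀ P ∈ Zs, P ∈ Znv X j d x0 θ0 ∧ TD a D x0 θ0 (dl d) (X.ij j d) j b P) →
      ∃ (q : MvPolynomial (Fin 2) ℝ) (N : ℕ) (Mm : Set ℝ) (yv : ℤ × ℤ → ℝ) (ch : Chain q N Zs yv),
        Gen q N Sg Ka Mm ∧ (N : ℝ) ≤ 9 * Aa (X.ij j d) j ∧
        (∀ P ∈ Zs, |yv P - P.2| ≤ tau (X.ij j d) j b) ∧
        ∀ P ∈ Zs, ch.hug ((2 ^ j) ^ 4 * tau (X.ij j d) j b) P → (ch.vx P : ℝ) ≤ 4 ^ X.ij j d / 4 →
          |(ch.vy P : ℝ)| ≤ 4 ^ X.ij j d / 4 →
          ∃ l : Ln, onlz l P ∧ l.q ≠ 0 ∧ ht l ≤ 4 ^ X.ij j d ∧ deepl X j d l P := by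
  obtain ⟨iA, hA⟩ := T8_facts X
  obtain ⟨iB, hB⟩ := three_circles
  refine ⟨max iA iB, ?_⟩
  intro j d x0 θ0 a D b Sg Ka Zs hwin hi _ hx1 hx2 hθ hD hap hb hSg hKa hZs
  obtain ⟨hi1, hij, hj, hw, hw1, -, hbox⟩ := hA j d hwin ((le_max_left _ _).trans hi)
  obtain ⟨hBF, hθ0, hθ2, hwx⟩ := hbox x0 θ0 hx1 hx2 hθ
  have hB' := fun p => hB (X.ij j d) j b p ((le_max_right _ _).trans hi) hij hb
  set i := X.ij j d with hidef
  set w := dl d with hwdef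
  have hR1 : (1 : ℝ) ≤ 2 ^ j := one_le_pow₀ (by norm_num)
  have hx0 : 0 < x0 := by linarith
  have hb0 : 0 ≤ b0 := by linarith
  have hμ : 0 < del i j b := Real.exp_pos _
  have hτ0 := tau_pos i j b
  have hτs := TN_tau_small hij hj hb
  have hτ6 : ((2 : ℝ) ^ j) ^ 6 * tau i j b ≤ 1 / 1000 := by
    refine le_trans (mul_le_mul_of_nonneg_right ?_ hτ0.le) hτs
    exact pow_le_pow_right₀ hR1 (by norm_num)
  have hτ1 : tau i j b ≤ 1 / 1000 := by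
    have : (1 : ℝ) ≤ ((2 : ℝ) ^ j) ^ 6 := one_le_pow₀ hR1
    nlinarith
  obtain ⟨S, hSd, hSev⟩ := sq_poly a D x0 θ0 w (Tb i j b) hx0.ne' hw.ne'
  have hY : 0 < (4 * b0 + 1) * x0 + 1 := by positivity
  obtain ⟨q, hG, hqa, hqb, hqc⟩ := T8_curve S (4 * D + 4) (by omega) (by omega) Sg Ka
    (Zs.image (fun P => (P.1 : ℝ))) hSg hKa hY hμ
  have hPy : ∀ P ∈ Zs, |(P.2 : ℝ)| ≤ (4 * b0 + 1) * x0 := by
    intro P hP
    obtain ⟨-, ⟨h1, h2⟩, -⟩ := (hZs P hP).1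
    have := T8_ybound (B := 2 * b0) hx0 hw hw1 hθ0 hθ2 (h1.trans (by norm_num)) (h2.trans (by norm_num))
    linarith
  have hroot : ∀ P ∈ Zs, ∃ y : ℝ, |y - P.2| ≤ tau i j b ∧ ev q P.1 y = 0 := by
    intro P hP
    obtain ⟨h1, y', h2, h3⟩ := (hZs P hP).2
    have hy' : |y'| ≤ (4 * b0 + 1) * x0 + 1 := by
      have h4 := abs_add_le (y' - P.2) P.2
      rw [sub_add_cancel] at h4
      linarith [hPy P hP]
    have h4 : ev q P.1 P.2 < 0 := by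
      apply hqa _ _ (by linarith [hPy P hP])
      rw [hSev]
      exact h1
    have h5 : 0 < ev q P.1 y' := by
      apply hqb _ _ hy'
      rw [hSev]
      refine le_trans ?_ (T8_sq _ _)
      calc 4 * del i j b ^ 2 = (2 * del i j b) ^ 2 := by ring
        _ ≤ _ := pow_le_pow_left₀ (by positivity) h3 2
    obtain ⟨y, h6, h7⟩ := T8_root q h4 h5
    exact ⟨y, h6.trans h2, h7⟩
  choose! yv hyv using hroot
  have hinj : ∀ P ∈ Zs, ∀ P' ∈ Zs, P.1 = P'.1 → yv P = yv P' → P = P' := by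
    intro P hP P' hP' e1 e2
    have h1 := abs_le.1 (hyv P hP).1
    have h2 := abs_le.1 (hyv P' hP').1
    rw [e2] at h1
    have h3 : ((P.2 - P'.2 : ℤ) : ℝ) < 1 := by push_cast; linarith [h1.1, h1.2, h2.1, h2.2]
    have h4 : ((P'.2 - P.2 : ℤ) : ℝ) < 1 := by push_cast; linarith [h1.1, h1.2, h2.1, h2.2]
    have h5 : P.2 - P'.2 < 1 := by exact_mod_cast h3
    have h6 : P'.2 - P.2 < 1 := by exact_mod_cast h4
    exact Prod.ext e1 (by omega)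
  obtain ⟨ch⟩ := chain_exists hG Zs yv (fun P hP => by
    rw [Finset.coe_image]
    exact ⟨P, hP, rfl⟩) (fun P hP => (hyv P hP).2) hinj
  have hAl := Aa_low hij
  have hA32 : (32 : ℝ) ≤ Aa i j := by
    refine le_trans ?_ hAl
    have : (2 : ℝ) ^ 5 ≤ 2 ^ (j - i) := pow_le_pow_right₀ (by norm_num) (by omega)
    linarith
  refine ⟨q, 4 * D + 4, _, yv, ch, hG, ?_, fun P hP => (hyv P hP).1, ?_⟩
  · push_cast
    linarith
  intro P hP hhug hvx hvy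
  obtain ⟨P', hP', hsl⟩ := hhug
  have hmem := ch.mem P P' hP'
  have evx : ch.vx P = P'.1 - P.1 := by simp only [Chain.vx, hP']
  have evy : ch.vy P = P'.2 - P.2 := by simp only [Chain.vy, hP']
  have hvx0 : 0 < ch.vx P := by rw [evx]; linarith [hmem.2.2]
  have hvx1 : (1 : ℝ) ≤ ch.vx P := by exact_mod_cast hvx0
  obtain ⟨l, hl1, hl2, hl3, hl4⟩ := T8_line P (ch.vx P) (ch.vy P) hvx0
  have h4i : (0 : ℝ) < 4 ^ i := by positivity
  refine ⟨l, hl1, hl2, hl3.trans (max_le (by linarith) (by linarith)), ?_⟩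
  intro x y hxy hxa hxb
  have hPP : (P.1 : ℝ) + 1 ≤ P'.1 := by
    have : P.1 + 1 ≤ P'.1 := by linarith [hmem.2.2]
    exact_mod_cast this
  have hxI : x ∈ Icc (P.1 : ℝ) P'.1 := ⟨hxa, by linarith⟩
  have harc := ch.arc P P' hP'
  have hmvt := T8_mvt harc hsl hxI
  have hsl' : ch.sl P = (ch.vy P : ℝ) / ch.vx P := rfl
  have hy := hl4 x y hxy
  rw [← hsl'] at hy
  have hsla : |ch.sl P| ≤ 4 ^ i / 4 := by
    rw [hsl', abs_div, abs_of_pos (by linarith : (0 : ℝ) < ch.vx P)]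
    exact (div_le_self (abs_nonneg _) hvx1).trans hvy
  have hleft : ch.ph P P.1 = yv P := ch.left P P' hP'
  rw [hleft] at hmvt
  have hdist : |y - ch.ph P x| ≤ (2 ^ j) ^ 6 * tau i j b := by
    have e : y - ch.ph P x = -(ch.ph P x - yv P - ch.sl P * (x - P.1)) - (yv P - P.2) := by
      rw [hy]; ring
    have h1 : |y - ch.ph P x| ≤ |ch.ph P x - yv P - ch.sl P * (x - P.1)| + |yv P - P.2| := by
      rw [e]
      refine (abs_sub _ _).trans ?_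
      rw [abs_neg]
    have h2 : (2 ^ j) ^ 4 * tau i j b * (x - P.1) ≤ (2 ^ j) ^ 4 * tau i j b := by
      have : 0 ≤ (2 ^ j) ^ 4 * tau i j b := by positivity
      nlinarith
    have h3 := (hyv P hP).1
    have h4 : (2 ^ j) ^ 4 * tau i j b + tau i j b ≤ (2 ^ j) ^ 6 * tau i j b := by
      have h5 : (2 : ℝ) ≤ 2 ^ j := by
        have : (2 : ℝ) ^ 1 ≤ 2 ^ j := pow_le_pow_right₀ (by norm_num) (by omega)
        linarith
      have h6 : ((2 : ℝ) ^ j) ^ 4 + 1 ≤ (2 ^ j) ^ 6 := by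
        have h7 : (1 : ℝ) ≤ (2 ^ j) ^ 4 := one_le_pow₀ hR1
        have h8 : ((2 : ℝ) ^ j) ^ 6 = (2 ^ j) ^ 4 * (2 ^ j) ^ 2 := by ring
        have h9 : (4 : ℝ) ≤ (2 ^ j) ^ 2 := by nlinarith
        rw [h8]
        nlinarith
      nlinarith
    linarith
  have hphi : |ch.ph P x - P.2| ≤ 4 ^ i / 4 + 1 := by
    have e : ch.ph P x - P.2 = -(y - ch.ph P x) + ch.sl P * (x - P.1) := by rw [hy]; ring
    have h1 : |ch.ph P x - P.2| ≤ |y - ch.ph P x| + |ch.sl P * (x - P.1)| := by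
      rw [e]
      refine (abs_add_le _ _).trans ?_
      rw [abs_neg]
    have h2 : |ch.sl P * (x - P.1)| ≤ 4 ^ i / 4 := by
      rw [abs_mul, abs_of_nonneg (sub_nonneg.2 hxa)]
      have := abs_nonneg (ch.sl P)
      nlinarith
    linarith
  have hmv := T8_move hx0 hw hθ0 (hZs P hP).1.2.1 hxa hxb hphi hwx hw1
  have hyb := T8_ybound (B := 2 * b0) hx0 hw hw1 hθ0 hθ2 (hmv.1.trans (by norm_num))
    (hmv.2.trans (by norm_num))
  have hS4 := hqc x (ch.ph P x) (by linarith) (harc.zero x hxI)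
  rw [hSev] at hS4
  have hwx64 : 64 ≤ w * x0 := by nlinarith
  have hs4 : ‖((cs x0 x : ℝ) : ℂ)‖ ≤ 1 / 4 := by
    rw [Complex.norm_real, Real.norm_eq_abs]
    linarith [hmv.1]
  have ht4 : ∀ z : ℂ, ‖z‖ ≤ 1 →
      ‖((ct x0 θ0 w x (ch.ph P x) : ℝ) : ℂ) + z / (w * x0)‖ ≤ 1 / 4 := by
    intro z hz
    refine (norm_add_le _ _).trans ?_
    rw [Complex.norm_real, Real.norm_eq_abs, norm_div, norm_mul, Complex.norm_real,
      Complex.norm_real, Real.norm_eq_abs, Real.norm_eq_abs, abs_of_pos hw, abs_of_pos hx0]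
    have h1 : ‖z‖ / (w * x0) ≤ 1 / 64 := by
      rw [div_le_iff₀ (by linarith)]
      linarith
    linarith [hmv.2]
  have hexp2A : Real.exp (-(2 * Aa i j)) ≤ 1 := Real.exp_le_one_iff.2 (by linarith)
  have hp2 : ∀ z : ℂ, ‖z‖ ≤ 1 → ‖(pc a D x0 θ0 w x (ch.ph P x)).eval z‖ ≤ 2 := by
    intro z hz
    rw [T8_pc]
    have h1 := hap _ _ hs4 (ht4 z hz)
    have h2 := hBF.bd (((cs x0 x : ℝ) : ℂ), ((ct x0 θ0 w x (ch.ph P x) : ℝ) : ℂ) + z / (w * x0))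
      (hs4.trans (by norm_num)) ((ht4 z hz).trans (by norm_num))
    have h3 := norm_sub_norm_le (∑ k ∈ Finset.range (D + 1), ∑ l ∈ Finset.range (D + 1),
      a k l * ((cs x0 x : ℝ) : ℂ) ^ k * (((ct x0 θ0 w x (ch.ph P x) : ℝ) : ℂ) + z / (w * x0)) ^ l)
      (fb F (X.al j d) (X.be j d) x0 θ0 w
        (((cs x0 x : ℝ) : ℂ), ((ct x0 θ0 w x (ch.ph P x) : ℝ) : ℂ) + z / (w * x0)))
    rw [norm_sub_rev] at h3
    linarith
  have hz1 : ‖((y - ch.ph P x : ℝ) : ℂ)‖ ≤ (2 ^ j) ^ 6 * tau i j b := by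
    rw [Complex.norm_real, Real.norm_eq_abs]
    exact hdist
  have hfin := hB' _ hp2 hS4 _ hz1
  rw [T8_pc] at hfin
  have h1 := hap _ _ hs4 (ht4 ((y - ch.ph P x : ℝ) : ℂ) (hz1.trans (by linarith)))
  have ect : ((ct x0 θ0 w x y : ℝ) : ℂ) =
      ((ct x0 θ0 w x (ch.ph P x) : ℝ) : ℂ) + ((y - ch.ph P x : ℝ) : ℂ) / (w * x0) := by
    have : ct x0 θ0 w x y = ct x0 θ0 w x (ch.ph P x) + (y - ch.ph P x) / (w * x0) := by
      unfold ct
      rw [← add_div]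
      congr 1
      ring
    exact_mod_cast this
  rw [T8_fj X j d (θ0 := θ0) hx0.ne' hw.ne', ect]
  have h2 := norm_sub_norm_le (fb F (X.al j d) (X.be j d) x0 θ0 w
    (((cs x0 x : ℝ) : ℂ), ((ct x0 θ0 w x (ch.ph P x) : ℝ) : ℂ) + ((y - ch.ph P x : ℝ) : ℂ) / (w * x0)))
    (∑ k ∈ Finset.range (D + 1), ∑ l ∈ Finset.range (D + 1),
      a k l * ((cs x0 x : ℝ) : ℂ) ^ k *
        (((ct x0 θ0 w x (ch.ph P x) : ℝ) : ℂ) + ((y - ch.ph P x : ℝ) : ℂ) / (w * x0)) ^ l)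
  set M := hh i * La i ^ 2 * 2 ^ j with hM
  have hLa := La_one i
  have hM1 : 1 ≤ M := by
    have e1 : M = (hh i * 2 ^ j) * La i ^ 2 := by rw [hM]; ring
    rw [e1, T8_hh_pow (by omega)]
    have e2 : (1 : ℝ) ≤ 2 ^ (j - i) := one_le_pow₀ (by norm_num)
    have e3 : (1 : ℝ) ≤ La i ^ 2 := one_le_pow₀ hLa
    nlinarith
  have hMA : M ≤ Aa i j := by
    rw [Aa_eq, hM]
    have := hh_pos i
    have e3 : La i ^ 2 ≤ La i ^ 4 := pow_le_pow_right₀ hLa (by norm_num)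
    have e4 : (0 : ℝ) < 2 ^ j := by positivity
    gcongr
  have hfin' : Real.exp (-(2 * hh i * La i ^ 2 * 2 ^ j)) = Real.exp (-M) * Real.exp (-M) := by
    rw [← Real.exp_add]
    congr 1
    rw [hM]
    ring
  rw [hfin'] at hfin
  have hE1 : Real.exp (-M) ≤ 1 / 2 := by
    have h3 := Real.add_one_le_exp (1 : ℝ)
    have h4 : Real.exp (-M) ≤ Real.exp (-1) := Real.exp_le_exp.2 (by linarith)
    have h6 : Real.exp (-1) = (Real.exp 1)⁻¹ := Real.exp_neg 1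
    have h5 : (Real.exp 1)⁻¹ ≤ 1 / 2 := by
      rw [one_div]
      exact inv_anti₀ (by norm_num) (by linarith)
    linarith
  have hE2 : Real.exp (-(2 * Aa i j)) ≤ Real.exp (-M) * Real.exp (-M) := by
    rw [← Real.exp_add]
    exact Real.exp_le_exp.2 (by linarith)
  have hE0 := Real.exp_pos (-M)
  nlinarith

end MuntzF
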