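import Pool.Agent.Lib.MP_dde81e_full.T6
import Pool.Agent.Lib.MP_dde81e_full.T7
import Pool.Agent.Lib.MP_dde81e_full.T8
import Pool.Agent.Lib.MP_dde81e_full.CR8
import Pool.Agent.Lib.MP_dde81e_full.ECom

/-!
Module T10 (text 9.1, BT2).  Λ = La i, hh i = Λ^-4000, dl d ≤ Λ^-1984.  count_critical for every b with τ = tau, Sg = SgS Λ θ0 (R⁴τ), Ka = KaS Λ (R³τ/4) (finite: CR7; elements nonzero), H0 = dl d x0/64 ≤ RΛ^-1984, hm: θ0 ∈ cell d is Minor since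
every rational with q ≤ Λ^250 has distance > Λ^-1428 from dc d, and |θ0 - dc d| ≤ dl d.  vy: |vy| ≤ Λ^22 + 2b0Λ^2006 ≤ 4^i/4 = Λ^8000/4.  τ R^20 ≤ 1: Tb ≥ 2h³A ≥ R^(1/2).  Sum over b < 12000 and h²R² nontypical.
MinorZ (ZDefs): |dc d - p/q| > lam^1144 hh^(1/2) = Λ^572/S = Λ^-1428 for q ≤ lam^500 = Λ^250.  Crit: |w - i/2| ≤ i/250: Λ^-16/S ≤ 2^-w ≤ Λ^16/S (Λ^16 = 2^(i/250)).  nMin = h^(3/2)/Λ = Λ^-6001.
-/

namespace MuntzF
open Set

theorem T10_pow (i : ℕ) : La i ^ 4000 = 2 ^ i := by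
  unfold La
  rw [← pow_mul]
  have := EC_lam_pow i 1
  rw [one_mul] at this
  exact this.symm

theorem T10_pos (i : ℕ) : 0 < La i := by
  unfold La
  exact pow_pos (EC_lam_pos i) 2

theorem T10_hh (i : ℕ) : hh i = (La i ^ 4000)⁻¹ := by
  rw [T10_pow]
  unfold hh
  rw [one_div, inv_pow]

theorem T10_large (K : ℝ) : ∃ i1 : ℕ, ∀ i, i1 ≤ i → K ≤ La i := by
  obtain ⟨i1, h⟩ := Filter.eventually_atTop.1 (EC_lam_tendsto.eventually_ge_atTop (max K 1))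
  refine ⟨i1, fun i hi => ?_⟩
  have h1 := h i hi
  have h2 : K ≤ lam i := (le_max_left _ _).trans h1
  have h3 : 1 ≤ lam i := (le_max_right _ _).trans h1
  unfold La
  nlinarith

theorem T10_exp {Λ R T : ℝ} (hΛ : 10 ^ 11 ≤ Λ) (hR : Λ ^ 400000 ≤ R)
    (hT : 2 * R * (Λ ^ 15996)⁻¹ ≤ T) : Real.exp (-T) * R ^ 20 ≤ 1 := by
  have hΛ1 : (1 : ℝ) ≤ Λ := le_trans (by norm_num) hΛ
  have hΛ0 : 0 < Λ := by linarith
  have hR0 : 0 < R := lt_of_lt_of_le (by positivity) hR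
  have hT0 : 0 < T := lt_of_lt_of_le (by positivity) hT
  have h1 : R ≤ (T / 2) ^ 2 := by
    have h2 : R * (Λ ^ 15996)⁻¹ ≤ T / 2 := by linarith
    have h3 : (R * (Λ ^ 15996)⁻¹) ^ 2 ≤ (T / 2) ^ 2 := pow_le_pow_left₀ (by positivity) h2 2
    refine le_trans ?_ h3
    have h4 : Λ ^ 31992 ≤ R := le_trans (pow_le_pow_right₀ hΛ1 (by norm_num)) hR
    have h5 : (R * (Λ ^ 15996)⁻¹) ^ 2 = R * (R * (Λ ^ 31992)⁻¹) := by
      have : Λ ^ 31992 = Λ ^ 15996 * Λ ^ 15996 := by rw [← pow_add]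
      rw [this, mul_inv]
      ring
    rw [h5]
    have h6 : 1 ≤ R * (Λ ^ 31992)⁻¹ := by
      rw [← div_eq_mul_inv, one_le_div (by positivity)]
      exact h4
    nlinarith
  have h7 : (441 : ℝ) ^ 21 ≤ R := by
    calc (441 : ℝ) ^ 21 ≤ (10 ^ 11) ^ 6 := by norm_num
      _ ≤ Λ ^ 6 := pow_le_pow_left₀ (by norm_num) hΛ 6
      _ ≤ Λ ^ 400000 := pow_le_pow_right₀ hΛ1 (by norm_num)
      _ ≤ R := hR
  have h8 : R ^ 20 ≤ Real.exp T := by
    have e1 : Real.exp T = Real.exp (T / 42) ^ 42 := by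
      rw [← Real.exp_nat_mul]
      congr 1
      push_cast
      ring
    have e2 : T / 42 ≤ Real.exp (T / 42) := by
      have := Real.add_one_le_exp (T / 42)
      linarith
    rw [e1]
    calc R ^ 20 ≤ R ^ 20 * (R / 441 ^ 21) := by
          have : 1 ≤ R / 441 ^ 21 := by
            rw [one_le_div (by positivity)]
            exact h7
          have h9 : 0 ≤ R ^ 20 := by positivity
          nlinarith
      _ = (R / 441) ^ 21 := by ring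
      _ ≤ ((T / 42) ^ 2) ^ 21 := by
          apply pow_le_pow_left₀ (by positivity)
          have : (T / 42) ^ 2 = (T / 2) ^ 2 / 441 := by ring
          rw [this]
          gcongr
      _ = (T / 42) ^ 42 := by rw [← pow_mul]
      _ ≤ Real.exp (T / 42) ^ 42 := pow_le_pow_left₀ (by positivity) e2 42
  rw [Real.exp_neg, inv_mul_le_iff₀ (Real.exp_pos _), mul_one]
  exact h8

theorem T10_Tb {i j b : ℕ} (h1 : 1 ≤ La i) (hb : b < 12000) :
    2 * 2 ^ j * (La i ^ 15996)⁻¹ ≤ Tb i j (b + 1) := by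
  have h0 := T10_pos i
  unfold Tb Aa
  rw [T10_hh]
  have h2 : La i ^ (b + 1) ≤ La i ^ 12000 := pow_le_pow_right₀ h1 (by omega)
  calc 2 * 2 ^ j * (La i ^ 15996)⁻¹ = 2 * ((La i ^ 4000)⁻¹ * La i ^ 4 * 2 ^ j) / La i ^ 12000 := by
        field_simp
    _ ≤ 2 * ((La i ^ 4000)⁻¹ * La i ^ 4 * 2 ^ j) / La i ^ (b + 1) := by
        gcongr

theorem T10_Sg {Λ θ0 τ0 : ℝ} (hΛ : 0 < Λ) (hθ : 2 * (Λ ^ 1946)⁻¹ < θ0) (hτ : 0 < τ0)
    (hτ1 : τ0 * Λ ^ 1968 < 1) {σ : ℝ} (hσ : σ ∈ SgS Λ θ0 τ0) : σ ≠ 0 := by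
  rcases hσ with ⟨p, q, h1, h2, -, h4⟩ | ⟨n, h1, h2⟩
  · have hq : (0 : ℝ) < q := by
      have : (1 : ℝ) ≤ q := by exact_mod_cast h1
      linarith
    have key : p = 0 ∨ τ0 < |(p : ℝ) / q| := by
      rcases eq_or_ne p 0 with h | h
      · exact Or.inl h
      · right
        rw [abs_div, abs_of_pos hq, lt_div_iff₀ hq]
        have h5 : (1 : ℝ) ≤ |(p : ℝ)| := by
          have : (1 : ℤ) ≤ |p| := Int.one_le_abs h
          exact_mod_cast this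
        have h6 : τ0 * q ≤ τ0 * Λ ^ 1968 := by gcongr
        linarith
    intro h0
    rcases key with hp | hp
    · subst hp
      rcases h4 with h4 | h4
      · rw [h4] at h0
        simp at h0
        linarith
      · rw [h4] at h0
        simp at h0
        linarith
    · rcases h4 with h4 | h4
      · have : (p : ℝ) / q = -τ0 := by linarith
        rw [this, abs_neg, abs_of_pos hτ] at hp
        exact lt_irrefl _ hp
      · have : (p : ℝ) / q = τ0 := by linarith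
        rw [this, abs_of_pos hτ] at hp
        exact lt_irrefl _ hp
  · have h3 : -(2 * (Λ ^ 1946)⁻¹) ≤ (n : ℝ) * io Λ / 4 := by
      have hio : 0 < io Λ := by unfold io; positivity
      have h4 : |(n : ℝ) * io Λ / 4| ≤ 2 * (Λ ^ 1946)⁻¹ := by
        rw [abs_div, abs_mul, abs_of_pos hio, abs_of_pos (by norm_num : (0 : ℝ) < 4)]
        exact h1
      exact (abs_le.1 h4).1
    intro h0
    rw [h2] at h0
    linarith

theorem T10_Ka {Λ κ0 : ℝ} (hΛ : 0 < Λ) (hκ : 0 < κ0) {κ : ℝ} (h : κ ∈ KaS Λ κ0) : κ ≠ 0 := by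
  intro h0
  rw [h0] at h
  rcases h with h | ⟨n, h1, -⟩
  · rw [abs_zero] at h
    linarith
  · rw [abs_zero] at h1
    have h2 : 0 < kmin Λ * (1 + rh Λ) ^ n := by
      unfold kmin rh
      positivity
    linarith

theorem T10_cell {b0 : ℝ} (hb : 2 ≤ b0) {w0 : ℕ} (hw0 : 4000 * b0 ≤ 2 ^ w0) {d : ℕ × ℕ}
    (hd : w0 ≤ d.1) {y : ℝ} (hy : y ∈ cell d) (hy0 : y ∈ I0 b0) : cell d ⊆ I2 b0 := by
  intro x hx
  have h1 := L2_dl_le hd
  have h3 := L2_dl_pos d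
  have h4 : dl d * (4000 * b0) ≤ 1 := (mul_le_mul_of_nonneg_left hw0 h3.le).trans h1
  have hb0 : 0 < b0 := by linarith
  have h5 : dl d ≤ 1 / (4000 * b0) := by
    rw [le_div_iff₀ (by positivity)]
    exact h4
  obtain ⟨x1, x2⟩ := hx
  obtain ⟨y1, y2⟩ := hy
  obtain ⟨z1, z2⟩ := hy0
  have h6 : y - dl d ≤ x := by linarith
  have h7 : x ≤ y + dl d := by linarith
  have h8 : 1 / b0 - 1 / (4000 * b0) = 3999 / (4000 * b0) := by
    field_simp
    norm_num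
  have h9 : 2 / (3 * b0) ≤ 3999 / (4000 * b0) := by
    rw [div_le_div_iff₀ (by positivity) (by positivity)]
    nlinarith
  have h10 : 1 / (4000 * b0) ≤ b0 / 2 := by
    rw [div_le_div_iff₀ (by positivity) (by positivity)]
    nlinarith
  exact ⟨by linarith, by linarith⟩

theorem T10_half (i : ℕ) : hh i ^ ((1 : ℝ) / 2) = (La i ^ 2000)⁻¹ := by
  have h0 := T10_pos i
  have h1 : hh i = ((La i ^ 2000)⁻¹) ^ 2 := by
    rw [T10_hh, inv_pow, ← pow_mul]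
  rw [← Real.sqrt_eq_rpow, h1, Real.sqrt_sq (by positivity)]

theorem T10_nMin (i : ℕ) : nMin i = (La i ^ 6001)⁻¹ := by
  have h0 := T10_pos i
  have hh0 : 0 < hh i := by unfold hh; positivity
  unfold nMin
  have e : (3 : ℝ) / 2 = 1 + 1 / 2 := by norm_num
  rw [e, Real.rpow_add hh0, Real.rpow_one, T10_half, T10_hh]
  change (La i ^ 4000)⁻¹ * (La i ^ 2000)⁻¹ / La i = (La i ^ 6001)⁻¹
  rw [div_eq_mul_inv, ← mul_inv, ← mul_inv, ← pow_add, ← pow_succ]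

theorem T10_dl {i w : ℕ} (h : Crit i w) : ((1 : ℝ) / 2) ^ w ≤ (La i ^ 1984)⁻¹ := by
  have h0 := T10_pos i
  have h1 : La i ^ 1984 ≤ 2 ^ w := by
    rw [← pow_le_pow_iff_left₀ (by positivity) (by positivity) (show 125 ≠ 0 by norm_num)]
    calc (La i ^ 1984) ^ 125 = (La i ^ 4000) ^ 62 := by
          rw [← pow_mul, ← pow_mul]
      _ = 2 ^ (62 * i) := by
          rw [T10_pow, ← pow_mul, mul_comm]
      _ ≤ 2 ^ (w * 125) := by
          apply pow_le_pow_right₀ (by norm_num)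
          have := h.1
          omega
      _ = (2 ^ w) ^ 125 := by rw [pow_mul]
  rw [one_div, inv_pow]
  exact inv_anti₀ (by positivity) h1

theorem T10_minor {i : ℕ} {d : ℕ × ℕ} (hΛ : 10 ^ 11 ≤ La i) (hc : Crit i d.1) (hm : MinorZ i (dc d))
    {θ0 : ℝ} (hθ : θ0 ∈ cell d) : Minor (La i) θ0 := by
  intro p q hq1 hq2
  obtain ⟨n, rfl⟩ := Int.eq_ofNat_of_zero_le (by omega : 0 ≤ q)
  have h0 := T10_pos i
  have hn1 : 1 ≤ n := by exact_mod_cast hq1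
  have h1 := hm n p hn1 (by
    have e : lam i ^ 500 = La i ^ 250 := by unfold La; rw [← pow_mul]
    rw [e]
    exact_mod_cast hq2)
  have e1 : lam i ^ 1144 = La i ^ 572 := by unfold La; rw [← pow_mul]
  rw [e1, T10_half] at h1
  have e2 : La i ^ 572 * (La i ^ 2000)⁻¹ = (La i ^ 1428)⁻¹ := by
    field_simp
  rw [e2] at h1
  have h2 := L2_cell hθ
  have h3 : dl d ≤ (La i ^ 1984)⁻¹ := T10_dl hc
  have hΛ1 : (1 : ℝ) ≤ La i := le_trans (by norm_num) hΛ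
  have h4 : (La i ^ 1984)⁻¹ ≤ (La i ^ 1428)⁻¹ :=
    inv_anti₀ (by positivity) (pow_le_pow_right₀ hΛ1 (by norm_num))
  have h5 : 2 * (La i ^ 1429)⁻¹ ≤ (La i ^ 1428)⁻¹ := by
    have e3 : (La i ^ 1428)⁻¹ = La i * (La i ^ 1429)⁻¹ := by
      field_simp
    rw [e3]
    have h6 : (0 : ℝ) < (La i ^ 1429)⁻¹ := by positivity
    have h7 : (2 : ℝ) ≤ La i := le_trans (by norm_num) hΛ
    nlinarith
  have h6 : |dc d - p / (n : ℝ)| ≤ |θ0 - p / (n : ℝ)| + |θ0 - dc d| := by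
    have := abs_sub_le (dc d) θ0 (p / (n : ℝ))
    rw [abs_sub_comm (dc d) θ0] at this
    linarith
  push_cast
  linarith

theorem bt2 {F : ℂ × ℂ → ℂ} {b0 : ℝ} (X : Ctx F b0) : BT2 X := by
  classical
  obtain ⟨i6, h6⟩ := neg X
  obtain ⟨i7, h7⟩ := typical X
  obtain ⟨i8, h8⟩ := curve_exists X
  obtain ⟨iL, hL⟩ := T10_large (10 ^ 11 + 100 * b0)
  have hb : 2 ≤ b0 := X.env.cs.hb
  refine ⟨max (max i6 i7) (max i8 iL), ?_⟩
  intro j d x0 θ0 hwin hi hcrit hmin hx1 hx2 hθ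
  obtain ⟨i, hidef⟩ : ∃ i, i = X.ij j d := ⟨_, rfl⟩
  have hi6 : i6 ≤ X.ij j d := le_trans (le_trans (le_max_left _ _) (le_max_left _ _)) hi
  have hi7 : i7 ≤ X.ij j d := le_trans (le_trans (le_max_right _ _) (le_max_left _ _)) hi
  have hi8 : i8 ≤ X.ij j d := le_trans (le_trans (le_max_left _ _) (le_max_right _ _)) hi
  have hiL : iL ≤ X.ij j d := le_trans (le_trans (le_max_right _ _) (le_max_right _ _)) hi
  have hΛb : 10 ^ 11 + 100 * b0 ≤ La i := by rw [hidef]; exact hL _ hiL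
  have hi100 : 100 * i ≤ j := by
    obtain ⟨θ, _, h2⟩ := iJ_attained X.c X.L j d
    have h3 := lev_le X.c X.L j θ
    have h4 : i = iJ X.c X.L j d := hidef
    rw [h4, ← h2]
    omega
  by_cases hfin : (Znv X j d x0 θ0).Finite
  swap
  · rw [Set.Infinite.ncard hfin, T10_nMin, Nat.cast_zero]
    have := T10_pos (X.ij j d)
    positivity
  rw [Set.ncard_eq_toFinset_card _ hfin]
  rcases Finset.eq_empty_or_nonempty hfin.toFinset with hemp | ⟨P0, hP0⟩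
  · rw [hemp, T10_nMin]
    have := T10_pos (X.ij j d)
    simp only [Finset.card_empty, Nat.cast_zero]
    positivity
  have hP0' : P0 ∈ Znv X j d x0 θ0 := hfin.mem_toFinset.1 hP0
  have hcell : cell d ⊆ I2 b0 :=
    T10_cell hb X.hw0 hwin.2.1 hP0'.1.2.2.2 hP0'.1.1.2.1
  obtain ⟨a, D, hD, hA, hK⟩ := h7 j d x0 θ0 hwin hi7 hcell hx1 hx2 hθ
  rw [← hidef] at hcrit hmin hD hA hK ⊢
  obtain ⟨M, hM⟩ : ∃ M : ℕ, M = 12000 := ⟨_, rfl⟩
  rw [← hM] at hK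
  have hneg := fun K => h6 j d x0 θ0 K hwin hi6 hcell hx1 hx2 hθ
  rw [← hidef] at hneg
  set Kall := hfin.toFinset with hKall
  set Λ : ℝ := La i with hΛdef
  have hΛ : 10 ^ 11 ≤ Λ := by linarith
  have hΛ6 : (10 : ℝ) ^ 6 ≤ Λ := le_trans (by norm_num) hΛ
  have hΛ1 : (1 : ℝ) ≤ Λ := le_trans (by norm_num) hΛ
  have hΛ0 : 0 < Λ := by linarith
  have hRΛ : Λ ^ 400000 ≤ (2 : ℝ) ^ j := by
    calc Λ ^ 400000 = (Λ ^ 4000) ^ 100 := by rw [← pow_mul]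
      _ = 2 ^ (100 * i) := by rw [hΛdef, T10_pow, ← pow_mul, mul_comm]
      _ ≤ 2 ^ j := pow_le_pow_right₀ (by norm_num) hi100
  have hR0 : (0 : ℝ) < 2 ^ j := by positivity
  have hR1 : (1 : ℝ) ≤ 2 ^ j := one_le_pow₀ (by norm_num)
  have h4j : (4 : ℝ) ^ j = (2 ^ j) ^ 2 := by
    rw [← pow_mul, mul_comm, pow_mul]
    norm_num
  have h4i : (4 : ℝ) ^ i = Λ ^ 8000 := by
    calc (4 : ℝ) ^ i = (2 ^ i) ^ 2 := by
          rw [← pow_mul, mul_comm, pow_mul]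
          norm_num
      _ = (Λ ^ 4000) ^ 2 := by rw [hΛdef, T10_pow]
      _ = Λ ^ 8000 := by rw [← pow_mul]
  have hθ2 := hcell hθ
  have hb0 : 0 < b0 := by linarith
  have hθpos : 0 < θ0 := lt_of_lt_of_le (by positivity) hθ2.1
  have hθs : 2 * (Λ ^ 1946)⁻¹ < θ0 := by
    have h1 : (Λ ^ 1946)⁻¹ ≤ Λ⁻¹ := by
      apply inv_anti₀ hΛ0
      calc Λ = Λ ^ 1 := (pow_one _).symm
        _ ≤ Λ ^ 1946 := pow_le_pow_right₀ hΛ1 (by norm_num)
    have h2 : Λ⁻¹ ≤ (100 * b0)⁻¹ := by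
      apply inv_anti₀ (by positivity)
      linarith
    have h3 : 2 * (100 * b0)⁻¹ < 2 / (3 * b0) := by
      rw [← div_eq_mul_inv, div_lt_div_iff₀ (by positivity) (by positivity)]
      nlinarith
    have := hθ2.1
    linarith
  have hdl : dl d ≤ (Λ ^ 1984)⁻¹ := T10_dl hcrit
  have hdl0 := L2_dl_pos d
  have hminor : Minor Λ θ0 := T10_minor hΛ hcrit hmin hθ
  -- one value of `b`
  have one : ∀ b < M, ((Kall.filter (fun P => TD a D x0 θ0 (dl d) i j b P)).card : ℝ) ≤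
      10 ^ 6 * (2 ^ j) ^ 2 * (Λ ^ 6002)⁻¹ + 6 * (hh i ^ 10 * 4 ^ j) := by
    intro b hb12
    rw [hM] at hb12
    set τ : ℝ := tau i j b with hτdef
    have hτ0 : 0 < τ := by rw [hτdef]; unfold tau; exact Real.exp_pos _
    have hτR : τ * (2 ^ j) ^ 20 ≤ 1 := by
      rw [hτdef]
      unfold tau
      exact T10_exp hΛ hRΛ (T10_Tb hΛ1 hb12)
    have hτ5 : (2 ^ j) ^ 4 * τ * Λ ^ 1968 < 1 := by
      have h1 : Λ ^ 1968 ≤ (2 : ℝ) ^ j := le_trans (pow_le_pow_right₀ hΛ1 (by norm_num)) hRΛ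
      have h2 : (2 : ℝ) ≤ 2 ^ j := by
        calc (2 : ℝ) ≤ Λ := le_trans (by norm_num) hΛ
          _ = Λ ^ 1 := (pow_one _).symm
          _ ≤ Λ ^ 400000 := pow_le_pow_right₀ hΛ1 (by norm_num)
          _ ≤ 2 ^ j := hRΛ
      have h3 : ((2 : ℝ) ^ j) ^ 4 * τ * Λ ^ 1968 ≤ τ * (2 ^ j) ^ 5 := by
        calc ((2 : ℝ) ^ j) ^ 4 * τ * Λ ^ 1968 ≤ (2 ^ j) ^ 4 * τ * 2 ^ j := by gcongr
          _ = τ * (2 ^ j) ^ 5 := by ring
      have h4 : 2 * (τ * ((2 : ℝ) ^ j) ^ 5) ≤ τ * (2 ^ j) ^ 20 := by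
        calc 2 * (τ * ((2 : ℝ) ^ j) ^ 5) ≤ 2 ^ j * (τ * (2 ^ j) ^ 5) := by gcongr
          _ = τ * (2 ^ j) ^ 6 := by ring
          _ ≤ τ * (2 ^ j) ^ 20 := by
            gcongr
            norm_num
      have h5 : 0 < τ * ((2 : ℝ) ^ j) ^ 5 := by positivity
      linarith
    have hτ4 : 0 < (2 : ℝ) ^ j ^ 1 * τ := by positivity
    have hS := SgS_finite (Λ := Λ) (θ0 := θ0) (τ0 := (2 ^ j) ^ 4 * τ) hΛ6
    have hKa := (KaS_card (Λ := Λ) (κ0 := (2 ^ j) ^ 3 * τ / 4) hΛ6).1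
    have hcur := h8 j d x0 θ0 a D b hS.toFinset hKa.toFinset
      (Kall.filter (fun P => TD a D x0 θ0 (dl d) i j b P)) hwin hi8 hcell hx1 hx2 hθ
    rw [← hidef] at hcur
    obtain ⟨q, N, Mm, yv, ch, hgen, hN, hyv, hhug⟩ := hcur hD hA hb12
      (fun σ hσ => T10_Sg hΛ0 hθs (by positivity) hτ5 (hS.mem_toFinset.1 hσ))
      (fun κ hκ => T10_Ka hΛ0 (by positivity) (hKa.mem_toFinset.1 hκ))
      (fun P hP => ⟨hfin.mem_toFinset.1 (Finset.mem_filter.1 hP).1, (Finset.mem_filter.1 hP).2⟩)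
    have hmem : ∀ P ∈ Kall.filter (fun P => TD a D x0 θ0 (dl d) i j b P), P ∈ Znv X j d x0 θ0 :=
      fun P hP => hfin.mem_toFinset.1 (Finset.mem_filter.1 hP).1
    refine count_critical (a := 2 ^ j) (b := 2 ^ (j + 1)) (R := 2 ^ j) (θ0 := θ0) (τ := τ)
      (H0 := dl d * x0 / 64) hgen ch ?_ ?_ hΛ6 hRΛ hτ0 hτR ?_ hθpos.ne' hyv ?_ ?_ ?_ ?_ ?_ hminor ?_
    · exact pow_le_pow_right₀ (by norm_num) (by omega)
    · intro P hP
      have h1 := (hmem P hP).1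
      exact ⟨h1.2.1, h1.2.2.1.le⟩
    · push_cast
      rw [pow_succ]
      linarith
    · intro P hP
      have h1 := (hmem P hP).2.1.2
      unfold ct at h1
      have hx0 : 0 < x0 := by linarith
      have hux : 0 < dl d * x0 := mul_pos hdl0 hx0
      rw [abs_div, abs_of_pos hux, div_le_iff₀ hux] at h1
      linarith
    · have hx0 : 0 ≤ x0 := by linarith
      calc dl d * x0 / 64 ≤ (Λ ^ 1984)⁻¹ * (2 * 2 ^ j) / 64 := by
            gcongr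
        _ ≤ 2 ^ j * (Λ ^ 1984)⁻¹ := by
            have : 0 ≤ 2 ^ j * (Λ ^ 1984)⁻¹ := by positivity
            linarith
    · refine hN.trans (le_of_eq ?_)
      unfold Aa
      rw [T10_hh, ← hΛdef]
      field_simp
    · rw [hS.coe_toFinset]
    · rw [hKa.coe_toFinset]
    · intro K hKh
      apply hneg K
      intro P hP
      obtain ⟨g1, g2, g3, g4⟩ := hKh P hP
      refine ⟨hmem P g1, ?_⟩
      obtain ⟨P', hnx, -⟩ := id g2
      have hvx := vx_some ch hnx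
      have hlt := (ch.mem _ _ hnx).2.2
      have hvx0 : (0 : ℝ) ≤ ch.vx P := by
        rw [hvx]
        exact_mod_cast (by omega : 0 ≤ P'.1 - P.1)
      have hbig : Λ ^ 2007 ≤ Λ ^ 8000 := pow_le_pow_right₀ hΛ1 (by norm_num)
      have hp6 : (0 : ℝ) < Λ ^ 2006 := by positivity
      have hp7 : Λ ^ 2007 = Λ * Λ ^ 2006 := by rw [pow_succ]; ring
      have h22 : Λ ^ 22 ≤ Λ ^ 2006 := pow_le_pow_right₀ hΛ1 (by norm_num)
      refine hhug P g1 g2 ?_ ?_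
      · rw [h4i]
        nlinarith
      · rw [h4i]
        unfold Chain.vp at g4
        have h1 : |(ch.vy P : ℝ)| ≤ |(ch.vy P : ℝ) - θ0 * (ch.vx P : ℝ)| + |θ0 * (ch.vx P : ℝ)| := by
          have := abs_add_le ((ch.vy P : ℝ) - θ0 * (ch.vx P : ℝ)) (θ0 * (ch.vx P : ℝ))
          simpa using this
        rw [abs_of_nonneg (by positivity : 0 ≤ θ0 * (ch.vx P : ℝ))] at h1
        have h2 : θ0 * (ch.vx P : ℝ) ≤ (3 * b0 / 2) * Λ ^ 2006 := by
          have := hθ2.2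
          gcongr
        have h3 : (4 * (3 * b0 / 2) + 4) * Λ ^ 2006 ≤ Λ * Λ ^ 2006 := by
          gcongr
          linarith
        nlinarith
  -- total
  have hcover : Kall ⊆ ((Finset.range M).biUnion (fun b => Kall.filter
      (fun P => TD a D x0 θ0 (dl d) i j b P))) ∪
      Kall.filter (fun P => ∀ b < M, ¬ TD a D x0 θ0 (dl d) i j b P) := by
    intro P hP
    rw [Finset.mem_union, Finset.mem_biUnion, Finset.mem_filter]
    by_cases h : ∀ b < M, ¬ TD a D x0 θ0 (dl d) i j b P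
    · exact Or.inr ⟨hP, h⟩
    · left
      push Not at h
      obtain ⟨b, hb1, hb2⟩ := h
      exact ⟨b, Finset.mem_range.2 hb1, Finset.mem_filter.2 ⟨hP, hb2⟩⟩
  have hrest := hK (Kall.filter (fun P => ∀ b < M, ¬ TD a D x0 θ0 (dl d) i j b P)) (by
    intro P hP
    rw [Finset.mem_filter] at hP
    exact ⟨hfin.mem_toFinset.1 hP.1, hP.2⟩)
  have hc1 := (Finset.card_le_card hcover).trans (Finset.card_union_le _ _)
  have hc2 : (((Finset.range M).biUnion (fun b => Kall.filter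
      (fun P => TD a D x0 θ0 (dl d) i j b P))).card : ℝ) ≤
      12000 * (10 ^ 6 * (2 ^ j) ^ 2 * (Λ ^ 6002)⁻¹ + 6 * (hh i ^ 10 * 4 ^ j)) := by
    calc (((Finset.range M).biUnion (fun b => Kall.filter
      (fun P => TD a D x0 θ0 (dl d) i j b P))).card : ℝ) ≤ ((∑ b ∈ Finset.range M, (Kall.filter
      (fun P => TD a D x0 θ0 (dl d) i j b P)).card : ℕ) : ℝ) := by
            exact_mod_cast Finset.card_biUnion_le
      _ = ∑ b ∈ Finset.range M, ((Kall.filter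
      (fun P => TD a D x0 θ0 (dl d) i j b P)).card : ℝ) := by push_cast; rfl
      _ ≤ ∑ b ∈ Finset.range M, (10 ^ 6 * (2 ^ j) ^ 2 * (Λ ^ 6002)⁻¹ + 6 * (hh i ^ 10 * 4 ^ j)) :=
            Finset.sum_le_sum (fun b hb => one b (Finset.mem_range.1 hb))
      _ = _ := by
            rw [Finset.sum_const, Finset.card_range, nsmul_eq_mul, hM]
            norm_num
  have hc3 : (Kall.card : ℝ) ≤ 12000 * (10 ^ 6 * (2 ^ j) ^ 2 * (Λ ^ 6002)⁻¹ +
      6 * (hh i ^ 10 * 4 ^ j)) + hh i ^ 2 * 4 ^ j := by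
    have : (Kall.card : ℝ) ≤ (((Finset.range M).biUnion (fun b => Kall.filter
      (fun P => TD a D x0 θ0 (dl d) i j b P))).card : ℝ) +
      ((Kall.filter (fun P => ∀ b < M, ¬ TD a D x0 θ0 (dl d) i j b P)).card : ℝ) := by
      exact_mod_cast hc1
    linarith
  refine hc3.trans ?_
  rw [T10_nMin, ← hΛdef, h4j]
  have k1 : hh i ^ 10 ≤ (Λ ^ 6002)⁻¹ := by
    rw [T10_hh, ← hΛdef, inv_pow, ← pow_mul]
    exact inv_anti₀ (by positivity) (pow_le_pow_right₀ hΛ1 (by norm_num))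
  have k2 : hh i ^ 2 ≤ (Λ ^ 6002)⁻¹ := by
    rw [T10_hh, ← hΛdef, inv_pow, ← pow_mul]
    exact inv_anti₀ (by positivity) (pow_le_pow_right₀ hΛ1 (by norm_num))
  have k3 : (Λ ^ 6001)⁻¹ = Λ * (Λ ^ 6002)⁻¹ := by
    field_simp
  rw [k3]
  have k4 : 0 < (Λ ^ 6002)⁻¹ := by positivity
  have k5 : (0 : ℝ) < (2 ^ j) ^ 2 := by positivity
  calc 12000 * (10 ^ 6 * (2 ^ j) ^ 2 * (Λ ^ 6002)⁻¹ + 6 * (hh i ^ 10 * (2 ^ j) ^ 2)) +
        hh i ^ 2 * (2 ^ j) ^ 2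
      ≤ 12000 * (10 ^ 6 * (2 ^ j) ^ 2 * (Λ ^ 6002)⁻¹ + 6 * ((Λ ^ 6002)⁻¹ * (2 ^ j) ^ 2)) +
        (Λ ^ 6002)⁻¹ * (2 ^ j) ^ 2 := by gcongr
    _ = (12000 * (10 ^ 6 + 6) + 1) * ((Λ ^ 6002)⁻¹ * (2 ^ j) ^ 2) := by ring
    _ ≤ Λ * ((Λ ^ 6002)⁻¹ * (2 ^ j) ^ 2) := by
        gcongr
        refine le_trans ?_ hΛ
        norm_num
    _ = Λ * (Λ ^ 6002)⁻¹ * (2 ^ j) ^ 2 := by ring

end MuntzF
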