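import Pool.Agent.Lib.MP_dde81e_full.T6
import Pool.Agent.Lib.MP_dde81e_full.T7
import Pool.Agent.Lib.MP_dde81e_full.T8
import Pool.Agent.Lib.MP_dde81e_full.T10
import Pool.Agent.Lib.MP_dde81e_full.G9

/-!
Module T9 (text 8.1, BT1).  h = hh i, w = dl d, X' = (hw)^(-1/3) (≥ 1), Y = wX', τ0 = R⁴τ, Sg = the finite set of p/q ± τ0 (1 ≤ q ≤ X', |p-θ0q| ≤ Y) (nonzero: |p/q| ≥ 1/q > τ0 or p = 0).  For each b < 12000: Zs = points with index b, curve_exists, count_general with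
a,b = range of P.1 (length ≤ R), H0 = dl d·x0/64 ≤ wR/32, hhug: neg (vx ≤ X' ≤ 2^i·.., |vy| ≤ Y + 2b0X' ≤ 4^i/4; w ≥ h/2 or w = 2^-w0, so hw ≥ h²/2..).  Sum over b, plus typical.  N ≤ 9hΛ⁴R, R ≥ 2^(100i).
Result: Λ^9 (h² + h^(4/3) w^(1/3)) R².
-/

namespace MuntzF
open Set

/-- slopes of the tangencies. -/
noncomputable def T9Sg (X' θ0 Y τ0 : ℝ) : Finset ℝ :=
  ((Finset.Icc (1 : ℤ) ⌊X'⌋ ×ˢ Finset.Icc (-⌈θ0 * X' + Y⌉) ⌈θ0 * X' + Y⌉).image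
    (fun e => (e.2 : ℝ) / e.1 + τ0)) ∪
  ((Finset.Icc (1 : ℤ) ⌊X'⌋ ×ˢ Finset.Icc (-⌈θ0 * X' + Y⌉) ⌈θ0 * X' + Y⌉).image
    (fun e => (e.2 : ℝ) / e.1 - τ0))

theorem T9_Sg_mem {X' θ0 Y τ0 : ℝ} (hθ : 0 ≤ θ0) {p q : ℤ} (h1 : 1 ≤ q) (h2 : (q : ℝ) ≤ X')
    (h3 : |(p : ℝ) - θ0 * q| ≤ Y) :
    (p / q + τ0 : ℝ) ∈ T9Sg X' θ0 Y τ0 ∧ (p / q - τ0 : ℝ) ∈ T9Sg X' θ0 Y τ0 := by
  have hq : (0 : ℝ) ≤ q := by exact_mod_cast (by omega : 0 ≤ q)
  have h4 : |(p : ℝ)| ≤ θ0 * X' + Y := by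
    have h5 := abs_add_le ((p : ℝ) - θ0 * q) (θ0 * q)
    rw [sub_add_cancel, abs_of_nonneg (mul_nonneg hθ hq)] at h5
    have h6 : θ0 * q ≤ θ0 * X' := mul_le_mul_of_nonneg_left h2 hθ
    linarith
  have h5 := abs_le.1 h4
  have h6 : p ≤ ⌈θ0 * X' + Y⌉ := by
    have := Int.le_ceil (θ0 * X' + Y)
    exact_mod_cast h5.2.trans this
  have h7 : -⌈θ0 * X' + Y⌉ ≤ p := by
    have := Int.le_ceil (θ0 * X' + Y)
    have h8 : (-⌈θ0 * X' + Y⌉ : ℝ) ≤ p := by linarith [h5.1]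
    exact_mod_cast h8
  have h8 : q ≤ ⌊X'⌋ := Int.le_floor.2 h2
  have hm : (q, p) ∈ Finset.Icc (1 : ℤ) ⌊X'⌋ ×ˢ Finset.Icc (-⌈θ0 * X' + Y⌉) ⌈θ0 * X' + Y⌉ := by
    simp only [Finset.mem_product, Finset.mem_Icc]
    exact ⟨⟨h1, h8⟩, h7, h6⟩
  constructor
  · exact Finset.mem_union_left _ (Finset.mem_image.2 ⟨_, hm, rfl⟩)
  · exact Finset.mem_union_right _ (Finset.mem_image.2 ⟨_, hm, rfl⟩)

theorem T9_Sg_ne {X' θ0 Y τ0 : ℝ} (hτ : 0 < τ0) (hτ1 : τ0 * X' < 1) {σ : ℝ}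
    (hσ : σ ∈ T9Sg X' θ0 Y τ0) : σ ≠ 0 := by
  have key : ∀ p q : ℤ, 1 ≤ q → q ≤ ⌊X'⌋ → (p : ℝ) / q ≠ τ0 ∧ (p : ℝ) / q ≠ -τ0 := by
    intro p q h1 h2
    have hq : (0 : ℝ) < q := by
      have : (1 : ℝ) ≤ q := by exact_mod_cast h1
      linarith
    have hqX : (q : ℝ) ≤ X' := Int.le_floor.1 h2
    rcases eq_or_ne p 0 with h | h
    · subst h
      simp only [Int.cast_zero, zero_div]
      constructor <;> intro h0 <;> linarith
    · have h5 : (1 : ℝ) ≤ |(p : ℝ)| := by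
        have : (1 : ℤ) ≤ |p| := Int.one_le_abs h
        exact_mod_cast this
      have h6 : τ0 < |(p : ℝ) / q| := by
        rw [abs_div, abs_of_pos hq, lt_div_iff₀ hq]
        have : τ0 * q ≤ τ0 * X' := by gcongr
        linarith
      constructor
      · intro h0
        rw [h0, abs_of_pos hτ] at h6
        exact lt_irrefl _ h6
      · intro h0
        rw [h0, abs_neg, abs_of_pos hτ] at h6
        exact lt_irrefl _ h6
  unfold T9Sg at hσ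
  rw [Finset.mem_union, Finset.mem_image, Finset.mem_image] at hσ
  rcases hσ with ⟨⟨q, p⟩, he, rfl⟩ | ⟨⟨q, p⟩, he, rfl⟩
  · simp only [Finset.mem_product, Finset.mem_Icc] at he
    have := (key p q he.1.1 he.1.2).2
    intro h0
    apply this
    simp only at h0
    linarith
  · simp only [Finset.mem_product, Finset.mem_Icc] at he
    have := (key p q he.1.1 he.1.2).1
    intro h0
    apply this
    simp only at h0
    linarith

/-- the arithmetic of one class. -/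
theorem T9_num {h w t R Λ lm N H0 τ X' Y : ℝ} (hh0 : 0 < h) (hh1 : h ≤ 1) (hw : 0 < w)
    (ht : 0 < t) (ht3 : t ^ 3 = h * w) (hR : 0 < R) (hΛ : Λ = lm ^ 2) (hlm : 1 ≤ lm)
    (hN0 : 0 ≤ N) (hN : N ≤ 9 * (h * Λ ^ 4 * R)) (hX : X' = t⁻¹) (hY : Y = w * X')
    (hH : H0 + τ ≤ w * R / 16) (hRt : 2 ≤ R * t)
    (hlog : Real.log X' ≤ 8000 * lm) :
    5 * N ^ 2 + N * R / X' + N * (8 * (H0 + τ) / Y + 2) + 8 * N ^ 2 * (16 * X' * Y + 2 * Real.log X' + 2)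
      + h ^ 10 * R ^ 2 ≤ (12095 + 648 * 16000 * lm) * Λ ^ 8 * (h ^ 2 + h * t) * R ^ 2 := by
  have hΛ1 : 1 ≤ Λ := by rw [hΛ]; exact one_le_pow₀ hlm
  have hΛ0 : 0 < Λ := by linarith
  have hA0 : 0 < h * Λ ^ 4 * R := by positivity
  have hN2 : N ^ 2 ≤ 81 * (h ^ 2 * Λ ^ 8 * R ^ 2) := by
    have := pow_le_pow_left₀ hN0 hN 2
    calc N ^ 2 ≤ (9 * (h * Λ ^ 4 * R)) ^ 2 := this
      _ = _ := by ring
  have hΛ48 : Λ ^ 4 ≤ Λ ^ 8 := pow_le_pow_right₀ hΛ1 (by norm_num)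
  have e1 : N * R / X' ≤ 9 * (Λ ^ 8 * (h * t) * R ^ 2) := by
    rw [hX, div_inv_eq_mul]
    calc N * R * t ≤ 9 * (h * Λ ^ 4 * R) * R * t := by gcongr
      _ = 9 * (Λ ^ 4 * (h * t) * R ^ 2) := by ring
      _ ≤ _ := by gcongr
  have e2 : N * (8 * (H0 + τ) / Y + 2) ≤ 14 * (Λ ^ 8 * (h * t) * R ^ 2) := by
    have hYp : 0 < Y := by rw [hY, hX]; positivity
    have f1 : 8 * (H0 + τ) / Y ≤ R * t / 2 := by
      rw [div_le_iff₀ hYp, hY, hX]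
      have : R * t / 2 * (w * t⁻¹) = w * R / 2 := by field_simp
      rw [this]
      linarith
    have f2 : 8 * (H0 + τ) / Y + 2 ≤ 3 / 2 * (R * t) := by linarith
    calc N * (8 * (H0 + τ) / Y + 2) ≤ N * (3 / 2 * (R * t)) := mul_le_mul_of_nonneg_left f2 hN0
      _ ≤ 9 * (h * Λ ^ 4 * R) * (3 / 2 * (R * t)) := by gcongr
      _ = 27 / 2 * (Λ ^ 4 * (h * t) * R ^ 2) := by ring
      _ ≤ 27 / 2 * (Λ ^ 8 * (h * t) * R ^ 2) := by gcongr
      _ ≤ _ := by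
        have : 0 < Λ ^ 8 * (h * t) * R ^ 2 := by positivity
        linarith
  have e3 : h ^ 2 * (X' * Y) = h * t := by
    rw [hY, hX]
    have : h ^ 2 * (t⁻¹ * (w * t⁻¹)) = h * (h * w) * (t⁻¹) ^ 2 := by ring
    rw [this, ← ht3]
    field_simp
  have hL0 : 0 ≤ 16 * X' * Y + 2 * (8000 * lm) + 2 := by
    have : 0 < X' := by rw [hX]; positivity
    have : 0 < Y := by rw [hY]; positivity
    positivity
  have e4 : 8 * N ^ 2 * (16 * X' * Y + 2 * Real.log X' + 2) ≤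
      648 * (Λ ^ 8 * R ^ 2) * (16 * (h * t) + (16000 * lm + 2) * h ^ 2) := by
    calc 8 * N ^ 2 * (16 * X' * Y + 2 * Real.log X' + 2)
        ≤ 8 * N ^ 2 * (16 * X' * Y + 2 * (8000 * lm) + 2) := by
          apply mul_le_mul_of_nonneg_left _ (by positivity)
          linarith
      _ ≤ 8 * (81 * (h ^ 2 * Λ ^ 8 * R ^ 2)) * (16 * X' * Y + 2 * (8000 * lm) + 2) := by gcongr
      _ = 648 * (Λ ^ 8 * R ^ 2) * (16 * (h ^ 2 * (X' * Y)) + (16000 * lm + 2) * h ^ 2) := by ring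
      _ = _ := by rw [e3]
  have e5 : h ^ 10 * R ^ 2 ≤ Λ ^ 8 * h ^ 2 * R ^ 2 := by
    have f1 : h ^ 10 ≤ h ^ 2 := pow_le_pow_of_le_one hh0.le hh1 (by norm_num)
    have f2 : 1 ≤ Λ ^ 8 := one_le_pow₀ hΛ1
    have f3 : h ^ 2 ≤ Λ ^ 8 * h ^ 2 := by nlinarith [sq_nonneg h]
    have : h ^ 10 ≤ Λ ^ 8 * h ^ 2 := f1.trans f3
    gcongr
  have u1 : 0 < Λ ^ 8 * R ^ 2 := by positivity
  have u2 : 0 < h ^ 2 := by positivity
  have u3 : 0 < h * t := by positivity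
  have e6 : 5 * N ^ 2 ≤ 405 * (Λ ^ 8 * R ^ 2 * h ^ 2) := by linarith
  have tot : (12095 + 648 * 16000 * lm) * Λ ^ 8 * (h ^ 2 + h * t) * R ^ 2 =
      (12095 + 648 * 16000 * lm) * (Λ ^ 8 * R ^ 2 * h ^ 2) +
      (12095 + 648 * 16000 * lm) * (Λ ^ 8 * R ^ 2 * (h * t)) := by ring
  rw [tot]
  have v1 : 0 < Λ ^ 8 * R ^ 2 * h ^ 2 := by positivity
  have v2 : 0 < Λ ^ 8 * R ^ 2 * (h * t) := by positivity
  have v3 : 0 ≤ lm * (Λ ^ 8 * R ^ 2 * (h * t)) := by positivity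
  have v4 : 648 * (Λ ^ 8 * R ^ 2) * (16 * (h * t) + (16000 * lm + 2) * h ^ 2) =
      10368 * (Λ ^ 8 * R ^ 2 * (h * t)) + 648 * 16000 * lm * (Λ ^ 8 * R ^ 2 * h ^ 2) +
      1296 * (Λ ^ 8 * R ^ 2 * h ^ 2) := by ring
  rw [v4] at e4
  nlinarith

theorem T9_nGen {i w : ℕ} {t : ℝ} (ht : t = (hh i * (1 / 2 : ℝ) ^ w) ^ ((1 : ℝ) / 3)) :
    nGen i w = La i ^ 9 * (hh i ^ 2 + hh i * t) := by
  have h0 := hh_pos i
  have e : (4 : ℝ) / 3 = 1 + 1 / 3 := by norm_num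
  unfold nGen
  rw [e, Real.rpow_add h0, Real.rpow_one, mul_assoc (hh i), ← Real.mul_rpow h0.le (by positivity),
    ← ht]
  unfold La
  rw [← pow_mul]

theorem T9_t {a t : ℝ} (ha : 0 < a) (ht : t = a ^ ((1 : ℝ) / 3)) : 0 < t ∧ t ^ 3 = a := by
  constructor
  · rw [ht]
    exact Real.rpow_pos_of_pos ha _
  · rw [ht, ← Real.rpow_natCast, ← Real.rpow_mul ha.le]
    norm_num

theorem T9_large (K : ℝ) : ∃ i1 : ℕ, ∀ i, i1 ≤ i → K ≤ lam i := by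
  obtain ⟨i1, h⟩ := Filter.eventually_atTop.1 (EC_lam_tendsto.eventually_ge_atTop K)
  exact ⟨i1, h⟩

/-- (BT1 of ZDefs has no hypothesis `cell d ⊆ I2`: if Znv is nonempty the cell meets I0, hence is contained in I2 by dl d ≤ 2^-w0 ≤ 1/(4000 b0).
Crude constants are absorbed by Λ: prove the bound first for finite subsets.) -/
theorem bt1 {F : ℂ × ℂ → ℂ} {b0 : ℝ} (X : Ctx F b0) : BT1 X := by
  classical
  obtain ⟨i6, h6⟩ := neg X
  obtain ⟨i7, h7⟩ := typical X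
  obtain ⟨i8, h8⟩ := curve_exists X
  obtain ⟨i9, h9⟩ := T8_facts X
  obtain ⟨iL, hL⟩ := T9_large (10 ^ 13)
  obtain ⟨iK, hK'⟩ := EC_pow (8 * (2 * b0 + 1))
  have hb : 2 ≤ b0 := X.env.cs.hb
  refine ⟨max (max (max i6 i7) (max i8 iL)) (max (max i9 iK) (X.w0 + 2)), ?_⟩
  intro j d x0 θ0 hwin hi hx1 hx2 hθ
  obtain ⟨i, hidef⟩ : ∃ i, i = X.ij j d := ⟨_, rfl⟩
  simp only [max_le_iff] at hi
  obtain ⟨⟨⟨hi6, hi7⟩, hi8, hiL⟩, ⟨hi9, hiK⟩, hiw⟩ := hi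
  obtain ⟨hi1, hi100, hj, hw, hw1, hwc, hbox⟩ := h9 j d hwin hi9
  obtain ⟨-, hθ00, hθ2b, hwx⟩ := hbox x0 θ0 hx1 hx2 hθ
  have hlm : 10 ^ 13 ≤ lam i := by rw [hidef]; exact hL _ hiL
  have h2i : 8 * (2 * b0 + 1) ≤ 2 ^ i := by rw [hidef]; exact hK' _ hiK
  rw [← hidef] at hi1 hi100 hwc hwx hiw
  obtain ⟨t, ht⟩ : ∃ t, t = (hh i * dl d) ^ ((1 : ℝ) / 3) := ⟨_, rfl⟩
  have hhp := hh_pos i
  have hnG : nGen i d.1 = La i ^ 9 * (hh i ^ 2 + hh i * t) := T9_nGen ht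
  obtain ⟨ht0, ht3⟩ := T9_t (mul_pos hhp hw) ht
  have hΛp := La_pos i
  have hnn : 0 ≤ nGen i d.1 * 4 ^ j := by
    rw [hnG]
    positivity
  by_cases hfin : (Znv X j d x0 θ0).Finite
  swap
  · rw [Set.Infinite.ncard hfin, Nat.cast_zero, ← hidef]
    exact hnn
  rw [Set.ncard_eq_toFinset_card _ hfin]
  rcases Finset.eq_empty_or_nonempty hfin.toFinset with hemp | ⟨P0, hP0⟩
  · rw [hemp, ← hidef]
    simp only [Finset.card_empty, Nat.cast_zero]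
    exact hnn
  have hP0' : P0 ∈ Znv X j d x0 θ0 := hfin.mem_toFinset.1 hP0
  have hcell : cell d ⊆ I2 b0 :=
    T10_cell hb X.hw0 hwin.2.1 hP0'.1.2.2.2 hP0'.1.1.2.1
  obtain ⟨a, D, hD, hA, hK⟩ := h7 j d x0 θ0 hwin hi7 hcell hx1 hx2 hθ
  rw [← hidef] at hD hA hK ⊢
  obtain ⟨M, hM⟩ : ∃ M : ℕ, M = 12000 := ⟨_, rfl⟩
  rw [← hM] at hK
  have hneg := fun K => h6 j d x0 θ0 K hwin hi6 hcell hx1 hx2 hθ
  rw [← hidef] at hneg
  set Kall := hfin.toFinset with hKall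
  have hR0 : (0 : ℝ) < 2 ^ j := by positivity
  have hR1 : (1 : ℝ) ≤ 2 ^ j := one_le_pow₀ (by norm_num)
  have h4j : (4 : ℝ) ^ j = (2 ^ j) ^ 2 := by
    rw [← pow_mul, mul_comm, pow_mul]
    norm_num
  have h4i : (4 : ℝ) ^ i = 2 ^ i * 2 ^ i := by
    rw [← mul_pow]
    norm_num
  have hθ2 := hcell hθ
  have hb0 : 0 < b0 := by linarith
  have hθpos : 0 < θ0 := lt_of_lt_of_le (by positivity) hθ2.1
  have hx0 : 0 < x0 := by linarith
  have h2ip : (0 : ℝ) < 2 ^ i := by positivity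
  have hhi := hh_two i
  have hhi1 : hh i ≤ 1 := by
    have h1 : (1 : ℝ) ≤ 2 ^ i := one_le_pow₀ (by norm_num)
    nlinarith
  -- `w R` is large
  have hwR : 8 * (4 : ℝ) ^ i ≤ dl d * 2 ^ j := by
    have h1 : dl d * x0 ≤ dl d * (2 * 2 ^ j) := mul_le_mul_of_nonneg_left hx2 hw.le
    nlinarith
  have h4i64 : (64 : ℝ) ≤ 4 ^ i := by
    rw [h4i]
    nlinarith
  have ht1 : t ≤ 1 := by
    by_contra hc
    have h1 : 1 < t ^ 3 := one_lt_pow₀ (not_le.1 hc) (by norm_num)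
    rw [ht3] at h1
    have : hh i * dl d ≤ 1 := mul_le_one₀ hhi1 hw.le hw1
    linarith
  have hRt : 2 ≤ 2 ^ j * t := by
    have h1 : t ^ 3 ≤ t := pow_le_of_le_one ht0.le ht1 (by norm_num)
    rw [ht3] at h1
    have h2 : 2 ^ j * (hh i * dl d) ≤ 2 ^ j * t := mul_le_mul_of_nonneg_left h1 hR0.le
    have h3 : 8 * (2 : ℝ) ^ i ≤ 2 ^ j * (hh i * dl d) := by
      calc 8 * (2 : ℝ) ^ i = hh i * (8 * 4 ^ i) := by
            rw [h4i]
            linear_combination (-8 * 2 ^ i) * hhi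
        _ ≤ hh i * (dl d * 2 ^ j) := mul_le_mul_of_nonneg_left hwR hhp.le
        _ = _ := by ring
    have h4 : (1 : ℝ) ≤ 2 ^ i := one_le_pow₀ (by norm_num)
    linarith
  obtain ⟨X', hX'⟩ : ∃ X', X' = t⁻¹ := ⟨_, rfl⟩
  have hX'0 : 0 < X' := by rw [hX']; positivity
  have hX'1 : 1 ≤ X' := by rw [hX']; exact (one_le_inv₀ ht0).2 ht1
  have hX'2 : X' ≤ 2 ^ i := by
    by_contra hc
    have h1 : (2 : ℝ) ^ i < X' := not_le.1 hc
    have h2 : ((2 : ℝ) ^ i) ^ 3 < X' ^ 3 := pow_lt_pow_left₀ h1 h2ip.le (by norm_num)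
    have h3 : X' ^ 3 * (hh i * dl d) = 1 := by
      rw [← ht3, hX', ← mul_pow, inv_mul_cancel₀ ht0.ne', one_pow]
    have h4 : 0 < hh i * dl d := mul_pos hhp hw
    have h5 : ((2 : ℝ) ^ i) ^ 3 * (hh i * dl d) < 1 := by
      rw [← h3]
      exact mul_lt_mul_of_pos_right h2 h4
    have h6 : (2 : ℝ) ^ i * hh i = 1 := by rw [mul_comm]; exact hhi
    have h7 : ((2 : ℝ) ^ i) ^ 3 * (hh i * dl d) = (2 ^ i) ^ 2 * dl d := by
      calc ((2 : ℝ) ^ i) ^ 3 * (hh i * dl d) = (2 ^ i * hh i) * ((2 ^ i) ^ 2 * dl d) := by ring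
        _ = _ := by rw [h6, one_mul]
    have h8 : (2 : ℝ) ^ i * (1 / 2) ^ (X.w0 + 1) ≤ (2 ^ i) ^ 2 * dl d := by
      calc (2 : ℝ) ^ i * (1 / 2) ^ (X.w0 + 1) = (2 ^ i) ^ 2 * ((1 / 2) ^ (X.w0 + 1) * hh i) := by
            linear_combination (-(2 : ℝ) ^ i * (1 / 2) ^ (X.w0 + 1)) * hhi
        _ ≤ _ := by gcongr
    have h9 : (1 : ℝ) ≤ 2 ^ i * (1 / 2) ^ (X.w0 + 1) := by
      have e1 : (2 : ℝ) ^ i = 2 ^ (X.w0 + 1) * 2 ^ (i - (X.w0 + 1)) := by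
        rw [← pow_add]
        congr 1
        omega
      have e2 : (2 : ℝ) ^ (X.w0 + 1) * (1 / 2) ^ (X.w0 + 1) = 1 := by
        rw [← mul_pow]
        norm_num
      have e3 : (1 : ℝ) ≤ 2 ^ (i - (X.w0 + 1)) := one_le_pow₀ (by norm_num)
      rw [e1]
      calc (1 : ℝ) ≤ 2 ^ (i - (X.w0 + 1)) := e3
        _ = (2 : ℝ) ^ (X.w0 + 1) * (1 / 2) ^ (X.w0 + 1) * 2 ^ (i - (X.w0 + 1)) := by rw [e2, one_mul]
        _ = _ := by ring
    linarith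
  have hlog : Real.log X' ≤ 8000 * lam i := by
    have h1 : Real.log X' ≤ Real.log (2 ^ i) := Real.log_le_log hX'0 hX'2
    rw [← lam_pow i, Real.log_pow] at h1
    have h2 : Real.log (lam i) ≤ lam i - 1 := Real.log_le_sub_one_of_pos (by linarith)
    push_cast at h1
    linarith
  obtain ⟨Y, hY⟩ : ∃ Y, Y = dl d * X' := ⟨_, rfl⟩
  have hY0 : 0 < Y := by rw [hY]; positivity
  have hYw : dl d ≤ Y := by rw [hY]; nlinarith
  have hYX : Y ≤ X' := by rw [hY]; nlinarith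
  -- one value of `b`
  have one : ∀ b < M, ((Kall.filter (fun P => TD a D x0 θ0 (dl d) i j b P)).card : ℝ) ≤
      (12095 + 648 * 16000 * lam i) * La i ^ 8 * (hh i ^ 2 + hh i * t) * (2 ^ j) ^ 2 := by
    intro b hb12
    rw [hM] at hb12
    set τ : ℝ := tau i j b with hτdef
    have hτ0 : 0 < τ := tau_pos i j b
    have hτs : ((2 : ℝ) ^ j) ^ 100 * τ ≤ 1 / 1000 := TN_tau_small hi100 hj hb12
    have hτ5 : ((2 : ℝ) ^ j) ^ 5 * τ ≤ 1 / 1000 := by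
      refine le_trans (mul_le_mul_of_nonneg_right ?_ hτ0.le) hτs
      exact pow_le_pow_right₀ hR1 (by norm_num)
    have hτ1 : τ * 2 ^ j ≤ 1 / 1000 := by
      have h1 : (2 : ℝ) ^ j ≤ ((2 : ℝ) ^ j) ^ 5 := le_self_pow₀ hR1 (by norm_num)
      nlinarith
    have hτone : τ ≤ 1 / 1000 := by nlinarith
    have h2j : (2 : ℝ) ≤ 2 ^ j := by
      have : (2 : ℝ) ^ 1 ≤ 2 ^ j := pow_le_pow_right₀ (by norm_num) (by omega)
      linarith
    have hX'j : X' ≤ 2 ^ j := hX'2.trans (pow_le_pow_right₀ (by norm_num) (by omega))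
    have hτX : (2 ^ j) ^ 4 * τ * X' < 1 := by
      have h1 : (2 ^ j) ^ 4 * τ * X' ≤ (2 ^ j) ^ 4 * τ * 2 ^ j :=
        mul_le_mul_of_nonneg_left hX'j (by positivity)
      have h2 : ((2 : ℝ) ^ j) ^ 4 * τ * 2 ^ j = (2 ^ j) ^ 5 * τ := by ring
      linarith
    have hcur := h8 j d x0 θ0 a D b (T9Sg X' θ0 Y ((2 ^ j) ^ 4 * τ)) ∅
      (Kall.filter (fun P => TD a D x0 θ0 (dl d) i j b P)) hwin hi8 hcell hx1 hx2 hθ
    rw [← hidef] at hcur
    obtain ⟨q, N, Mm, yv, ch, hgen, hN, hyv, hhug⟩ := hcur hD hA hb12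
      (fun σ hσ => T9_Sg_ne (by positivity) hτX hσ)
      (fun κ hκ => absurd hκ (Finset.notMem_empty _))
      (fun P hP => ⟨hfin.mem_toFinset.1 (Finset.mem_filter.1 hP).1, (Finset.mem_filter.1 hP).2⟩)
    have hmem : ∀ P ∈ Kall.filter (fun P => TD a D x0 θ0 (dl d) i j b P), P ∈ Znv X j d x0 θ0 :=
      fun P hP => hfin.mem_toFinset.1 (Finset.mem_filter.1 hP).1
    have hcnt := count_general (a := 2 ^ j) (b := 2 ^ (j + 1)) (θ0 := θ0) (H0 := dl d * x0 / 64)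
      (τ := τ) (τ0 := (2 ^ j) ^ 4 * τ) (X := X') (Y := Y) (hb := hh i ^ 10 * 4 ^ j) hgen ch
      (pow_le_pow_right₀ (by norm_num) (by omega))
      (by
        intro P hP
        have h1 := (hmem P hP).1
        exact ⟨h1.2.1, h1.2.2.1.le⟩) hX'1 hθpos.ne' hτ0.le
      (by
        have : (16 : ℝ) ≤ (2 ^ j) ^ 4 := by
          calc (16 : ℝ) = 2 ^ 4 := by norm_num
            _ ≤ (2 ^ j) ^ 4 := pow_le_pow_left₀ (by norm_num) h2j 4
        nlinarith)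
      (by
        have h1 : 4 * τ * 2 ^ j ≤ dl d * 2 ^ j := by nlinarith
        have h2 := le_of_mul_le_mul_right h1 hR0
        linarith) hY0 hyv
      (by
        intro P hP
        have h1 := (hmem P hP).2.1.2
        unfold ct at h1
        have hux : 0 < dl d * x0 := mul_pos hw hx0
        rw [abs_div, abs_of_pos hux, div_le_iff₀ hux] at h1
        linarith) (by positivity)
      (fun p q h1 h2 h3 => by
        have := T9_Sg_mem (τ0 := (2 ^ j) ^ 4 * τ) hθ00 h1 h2 h3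
        exact_mod_cast this)
      (by
        intro K hKh
        apply hneg K
        intro P hP
        obtain ⟨g1, g2, g3, g4⟩ := hKh P hP
        refine ⟨hmem P g1, ?_⟩
        obtain ⟨P', hnx, -⟩ := id g2
        have hvx := vx_some ch hnx
        have hlt := (ch.mem _ _ hnx).2.2
        have hvx0 : (0 : ℝ) ≤ ch.vx P := by
          rw [hvx]
          exact_mod_cast (by omega : 0 ≤ P'.1 - P.1)
        refine hhug P g1 g2 ?_ ?_
        · rw [h4i]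
          nlinarith
        · unfold Chain.vp at g4
          have h1 : |(ch.vy P : ℝ)| ≤ |(ch.vy P : ℝ) - θ0 * (ch.vx P : ℝ)| + |θ0 * (ch.vx P : ℝ)| := by
            have := abs_add_le ((ch.vy P : ℝ) - θ0 * (ch.vx P : ℝ)) (θ0 * (ch.vx P : ℝ))
            simpa using this
          rw [abs_of_nonneg (by positivity : 0 ≤ θ0 * (ch.vx P : ℝ))] at h1
          have h2 : θ0 * (ch.vx P : ℝ) ≤ (2 * b0) * 2 ^ i := by
            have : (ch.vx P : ℝ) ≤ 2 ^ i := g3.trans hX'2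
            exact mul_le_mul hθ2b this hvx0 (by positivity)
          have h3 : (2 * b0 + 1) * 2 ^ i ≤ 4 ^ i / 4 := by
            rw [h4i]
            nlinarith
          have h4 : Y ≤ 2 ^ i := hYX.trans hX'2
          linarith)
    refine hcnt.trans ?_
    have hba : (((2 ^ (j + 1) : ℤ) : ℝ) - ((2 ^ j : ℤ) : ℝ)) = 2 ^ j := by
      push_cast
      rw [pow_succ]
      ring
    rw [hba, h4j]
    exact T9_num hhp hhi1 hw ht0 ht3 hR0 rfl (by linarith) (Nat.cast_nonneg N)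
      (by rw [Aa_eq] at hN; exact hN) hX' hY
      (by
        have h1 : dl d * x0 ≤ dl d * (2 * 2 ^ j) := mul_le_mul_of_nonneg_left hx2 hw.le
        have h2 : (512 : ℝ) ≤ dl d * 2 ^ j := by linarith
        linarith) hRt hlog
  -- total
  have hcover : Kall ⊆ ((Finset.range M).biUnion (fun b => Kall.filter
      (fun P => TD a D x0 θ0 (dl d) i j b P))) ∪
      Kall.filter (fun P => ∀ b < M, ¬ TD a D x0 θ0 (dl d) i j b P) := by
    intro P hP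
    rw [Finset.mem_union, Finset.mem_biUnion, Finset.mem_filter]
    by_cases h : ∀ b < M, ¬ TD a D x0 θ0 (dl d) i j b P
    · exact Or.inr ⟨hP, h⟩
    · left
      push Not at h
      obtain ⟨b, hb1, hb2⟩ := h
      exact ⟨b, Finset.mem_range.2 hb1, Finset.mem_filter.2 ⟨hP, hb2⟩⟩
  have hrest := hK (Kall.filter (fun P => ∀ b < M, ¬ TD a D x0 θ0 (dl d) i j b P)) (by
    intro P hP
    rw [Finset.mem_filter] at hP
    exact ⟨hfin.mem_toFinset.1 hP.1, hP.2⟩)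
  have hc1 := (Finset.card_le_card hcover).trans (Finset.card_union_le _ _)
  obtain ⟨V, hV⟩ : ∃ V : ℝ, V = (12095 + 648 * 16000 * lam i) * La i ^ 8 * (hh i ^ 2 + hh i * t) *
    (2 ^ j) ^ 2 := ⟨_, rfl⟩
  rw [← hV] at one
  have hc2 : (((Finset.range M).biUnion (fun b => Kall.filter
      (fun P => TD a D x0 θ0 (dl d) i j b P))).card : ℝ) ≤ 12000 * V := by
    calc (((Finset.range M).biUnion (fun b => Kall.filter
      (fun P => TD a D x0 θ0 (dl d) i j b P))).card : ℝ) ≤ ((∑ b ∈ Finset.range M, (Kall.filter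
      (fun P => TD a D x0 θ0 (dl d) i j b P)).card : ℕ) : ℝ) := by
            exact_mod_cast Finset.card_biUnion_le
      _ = ∑ b ∈ Finset.range M, ((Kall.filter
      (fun P => TD a D x0 θ0 (dl d) i j b P)).card : ℝ) := by push_cast; rfl
      _ ≤ ∑ b ∈ Finset.range M, V :=
            Finset.sum_le_sum (fun b hb => one b (Finset.mem_range.1 hb))
      _ = _ := by
            rw [Finset.sum_const, Finset.card_range, nsmul_eq_mul, hM]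
            norm_num
  have hc3 : (Kall.card : ℝ) ≤ 12000 * V + hh i ^ 2 * 4 ^ j := by
    have : (Kall.card : ℝ) ≤ (((Finset.range M).biUnion (fun b => Kall.filter
      (fun P => TD a D x0 θ0 (dl d) i j b P))).card : ℝ) +
      ((Kall.filter (fun P => ∀ b < M, ¬ TD a D x0 θ0 (dl d) i j b P)).card : ℝ) := by
      exact_mod_cast hc1
    linarith
  refine hc3.trans ?_
  rw [hnG, hV, h4j]
  have hLa1 := La_one i
  have hLam : La i = lam i * lam i := by unfold La; ring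
  have w1 : 0 < La i ^ 8 * (hh i ^ 2 + hh i * t) * (2 ^ j) ^ 2 := by positivity
  have w2 : hh i ^ 2 * (2 ^ j) ^ 2 ≤ La i ^ 8 * (hh i ^ 2 + hh i * t) * (2 ^ j) ^ 2 := by
    have u1 : 1 ≤ La i ^ 8 := one_le_pow₀ hLa1
    have u2 : 0 < hh i * t := by positivity
    have u3 : hh i ^ 2 ≤ La i ^ 8 * (hh i ^ 2 + hh i * t) := by nlinarith [sq_nonneg (hh i)]
    gcongr
  have w3 : 12000 * (12095 + 648 * 16000 * lam i) + 1 ≤ La i := by
    rw [hLam]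
    nlinarith
  calc 12000 * ((12095 + 648 * 16000 * lam i) * La i ^ 8 * (hh i ^ 2 + hh i * t) * (2 ^ j) ^ 2) +
        hh i ^ 2 * (2 ^ j) ^ 2
      ≤ 12000 * ((12095 + 648 * 16000 * lam i) * La i ^ 8 * (hh i ^ 2 + hh i * t) * (2 ^ j) ^ 2) +
        La i ^ 8 * (hh i ^ 2 + hh i * t) * (2 ^ j) ^ 2 := by linarith
    _ = (12000 * (12095 + 648 * 16000 * lam i) + 1) *
        (La i ^ 8 * (hh i ^ 2 + hh i * t) * (2 ^ j) ^ 2) := by ring
    _ ≤ La i * (La i ^ 8 * (hh i ^ 2 + hh i * t) * (2 ^ j) ^ 2) :=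
        mul_le_mul_of_nonneg_right w3 w1.le
    _ = La i ^ 9 * (hh i ^ 2 + hh i * t) * (2 ^ j) ^ 2 := by ring

end MuntzF
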