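import Pool.Agent.Lib.MP_dde81e_full.BDefs

/-!
Definitions at the borders of section 11 (assembly) with sections 8, 9 and 10.
-/

namespace MuntzF
open Set

/-- number of zeros of the window `(j,d)` on the line `l`. -/
noncomputable def nl (F : ℂ × ℂ → ℂ) (b0 : ℝ) (j : ℕ) (d : ℕ × ℕ) (l : Ln) : ℕ :=
  {P | P ∈ Zc F b0 j d ∧ onlz l P}.ncard

/-- rich valley lines of the window `(j,d)` (valleys of any sub-box with centre in the cell). -/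
def Rich {F : ℂ × ℂ → ℂ} {b0 : ℝ} (X : Ctx F b0) (j : ℕ) (d : ℕ × ℕ) (l : Ln) : Prop :=
  (∃ x0 θ0 : ℝ, 2 ^ j ≤ x0 ∧ x0 ≤ 2 * 2 ^ j ∧ θ0 ∈ cell d ∧ Valley X j d x0 θ0 l) ∧
  hh (X.ij j d) ^ ((3 : ℝ) / 5) * 2 ^ j ≤ nl F b0 j d l

/-- general bound `n(h,w) = Λ^9 (h^2 + h^(4/3) w^(1/3))`. -/
noncomputable def nGen (i w : ℕ) : ℝ :=
  lam i ^ 18 * (hh i ^ 2 + hh i ^ ((4 : ℝ) / 3) * ((1 / 2 : ℝ) ^ w) ^ ((1 : ℝ) / 3))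

/-- critical length: `Λ^-16/S ≤ 2^-w ≤ Λ^16/S`, that is `|w - i/2| ≤ i/250`. -/
def Crit (i w : ℕ) : Prop := 250 * i ≤ 500 * w + 2 * i ∧ 500 * w ≤ 250 * i + 2 * i

/-- minor slopes: `|θ - p/q| > S^-1 Λ^572` for `1 ≤ q ≤ Λ^250`. -/
def MinorZ (i : ℕ) (θ : ℝ) : Prop := ∀ (q : ℕ) (p : ℤ), 1 ≤ q → (q : ℝ) ≤ lam i ^ 500 →
  lam i ^ 1144 * hh i ^ ((1 : ℝ) / 2) < |θ - p / q|

/-- bound in the critical minor case: `h^(3/2) Λ^-1`. -/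
noncomputable def nMin (i : ℕ) : ℝ := hh i ^ ((3 : ℝ) / 2) / lam i ^ 2

/-- zeros of the sub-box of size `1/64` which are on no valley line. -/
def Znv {F : ℂ × ℂ → ℂ} {b0 : ℝ} (X : Ctx F b0) (j : ℕ) (d : ℕ × ℕ) (x0 θ0 : ℝ) : Set (ℤ × ℤ) :=
  {P | P ∈ Zc F b0 j d ∧ inb x0 θ0 (dl d) (1 / 64) P.1 P.2 ∧
    ¬ ∃ l : Ln, Valley X j d x0 θ0 l ∧ onlz l P}

/-- borders: theorems of sections 5, 8, 9, 10 used in the assembly. -/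
def BT1 {F : ℂ × ℂ → ℂ} {b0 : ℝ} (X : Ctx F b0) : Prop := ∃ i1 : ℕ, ∀ (j : ℕ) (d : ℕ × ℕ) (x0 θ0 : ℝ),
  X.win j d → i1 ≤ X.ij j d → 2 ^ j ≤ x0 → x0 ≤ 2 * 2 ^ j → θ0 ∈ cell d →
  ((Znv X j d x0 θ0).ncard : ℝ) ≤ nGen (X.ij j d) d.1 * 4 ^ j

def BT2 {F : ℂ × ℂ → ℂ} {b0 : ℝ} (X : Ctx F b0) : Prop := ∃ i1 : ℕ, ∀ (j : ℕ) (d : ℕ × ℕ) (x0 θ0 : ℝ),
  X.win j d → i1 ≤ X.ij j d → Crit (X.ij j d) d.1 → MinorZ (X.ij j d) (dc d) →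
  2 ^ j ≤ x0 → x0 ≤ 2 * 2 ^ j → θ0 ∈ cell d →
  ((Znv X j d x0 θ0).ncard : ℝ) ≤ nMin (X.ij j d) * 4 ^ j

def VCount {F : ℂ × ℂ → ℂ} {b0 : ℝ} (X : Ctx F b0) : Prop := ∃ (C : ℝ) (i1 : ℕ), 0 < C ∧
  ∀ (j : ℕ) (d : ℕ × ℕ) (x0 θ0 : ℝ) (LL : Finset Ln), X.win j d → i1 ≤ X.ij j d → cell d ⊆ I2 b0 →
  2 ^ j ≤ x0 → x0 ≤ 2 * 2 ^ j → θ0 ∈ cell d → (∀ l ∈ LL, Valley X j d x0 θ0 l) →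
  (LL.card : ℝ) ≤ C * hh (X.ij j d) * lam (X.ij j d) * 2 ^ j

def GOAL10 {F : ℂ × ℂ → ℂ} {b0 : ℝ} (X : Ctx F b0) : Prop := ∃ (C : ℝ) (k : ℕ), 
  ∀ E : Finset (ℕ × (ℕ × ℕ) × Ln), (∀ e ∈ E, k ≤ e.1 ∧ X.win e.1 e.2.1 ∧ Rich X e.1 e.2.1 e.2.2) →
    ∑ e ∈ E, (nl F b0 e.1 e.2.1 e.2.2 : ℝ) / 4 ^ e.1 ≤ C

end MuntzF
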