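import Pool.Agent.Lib.MP_dde81e_full.EDefs
import Pool.Agent.Lib.MP_dde81e_full.ZDefs

/-!
Definitions for sections 6, 8, 9 of the text.  i level, j scale, R = 2^j, h = hh i, Λ = La i = lam i ^ 2 (Λ^4000 = 2^i).
-/

namespace MuntzF
open Set Metric

noncomputable def La (i : ℕ) : ℝ := lam i ^ 2
/-- `A = h Λ^4 R`. -/
noncomputable def Aa (i j : ℕ) : ℝ := hh i * La i ^ 4 * 2 ^ j
/-- `T_b = 2 A Λ^-b`. -/
noncomputable def Tb (i j b : ℕ) : ℝ := 2 * Aa i j / La i ^ b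
/-- `δ_b = exp(-A-(12000-b)h^-3)`. -/
noncomputable def del (i j b : ℕ) : ℝ := Real.exp (-(Aa i j + (12000 - (b : ℝ)) * 8 ^ i))
/-- `exp(-T_{b+1})`. -/
noncomputable def tau (i j b : ℕ) : ℝ := Real.exp (-Tb i j (b + 1))

/-- weighted square norm of a polynomial: mean of `|p|^2` over the circle of radius `exp(-T)`. -/
noncomputable def sq (p : Polynomial ℂ) (T : ℝ) : ℝ :=
  ∑ k ∈ p.support, ‖p.coeff k‖ ^ 2 * Real.exp (-(2 * k * T))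

/-- typical point (one variable, text 6.2, 6.3): few zeros near the integer `n`, not too small somewhere. -/
def Typ (f : ℂ → ℂ) (n : ℂ) (K M1 : ℝ) : Prop :=
  (∃ (s : Multiset ℂ) (g : ℂ → ℂ), (s.card : ℝ) ≤ K ∧ (∀ a ∈ s, ‖a‖ ≤ 3 / 4) ∧ DF g 0 1 ∧
    (∀ z : ℂ, ‖z‖ ≤ 3 / 4 → g z ≠ 0) ∧ ∀ z ∈ closedBall (0 : ℂ) 1, f (n + z) = bp s z * g z) ∧
  ∃ a0 : ℂ, ‖a0‖ ≤ 1 / 2 ∧ Real.exp (-M1) ≤ ‖f (n + a0)‖

/-- the Taylor polynomial of the box function, as a function of the real point `(x,y)` and as a polynomial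
in the increment `a` of `y`: `p(x, y+a)`. -/
noncomputable def pc (a : ℕ → ℕ → ℂ) (D : ℕ) (x0 θ0 u x y : ℝ) : Polynomial ℂ :=
  ∑ k ∈ Finset.range (D + 1), ∑ l ∈ Finset.range (D + 1),
    Polynomial.C (a k l * (cs x0 x : ℂ) ^ k) *
      (Polynomial.C (ct x0 θ0 u x y : ℂ) + Polynomial.C ((1 / (u * x0) : ℝ) : ℂ) * Polynomial.X) ^ l

/-- `a` are coefficients of a polynomial of bidegree `D` approximating `f` in the bidisc of radius 1/4. -/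
def Appr (f : ℂ × ℂ → ℂ) (a : ℕ → ℕ → ℂ) (D : ℕ) (ε : ℝ) : Prop := ∀ s t : ℂ, ‖s‖ ≤ 1 / 4 → ‖t‖ ≤ 1 / 4 →
  ‖f (s, t) - ∑ k ∈ Finset.range (D + 1), ∑ l ∈ Finset.range (D + 1), a k l * s ^ k * t ^ l‖ ≤ ε

/-- data of a typical lattice point: the index `b` (text 6.2). -/
def TD (a : ℕ → ℕ → ℂ) (D : ℕ) (x0 θ0 u : ℝ) (i j b : ℕ) (P : ℤ × ℤ) : Prop :=
  sq (pc a D x0 θ0 u P.1 P.2) (Tb i j b) ≤ del i j b ^ 2 ∧
  ∃ y' : ℝ, |y' - P.2| ≤ tau i j b ∧ 2 * del i j b ≤ ‖(pc a D x0 θ0 u P.1 y').eval 0‖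

/-- the line is deep (`M1 = h Λ^2 R`) over `[P.1, P.1+1]`. -/
def deepl {F : ℂ × ℂ → ℂ} {b0 : ℝ} (X : Ctx F b0) (j : ℕ) (d : ℕ × ℕ) (l : Ln) (P : ℤ × ℤ) : Prop :=
  ∀ x y : ℝ, onl l x y → (P.1 : ℝ) ≤ x → x ≤ P.1 + 1 →
    X.fj j d x y ≤ Real.exp (-(hh (X.ij j d) * La (X.ij j d) ^ 2 * 2 ^ j))

end MuntzF
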