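import Pool.Agent.Lib.MP_dde81e_an.MAIN
import Pool.Agent.Lib.MP_dde81e_full.LDefs

/-!
Module Z1: reduction of the theorem on the unit square to (MAIN).
-/

namespace MuntzF
open Set

/-- (MAIN) of the text: the zeros of `F` in the angle have summable dyadic densities. -/
def MainStmt : Prop :=
  ∀ F : ℂ × ℂ → ℂ, Muntz.GoodF F → ∀ b0 : ℝ, 2 ≤ b0 → ∀ Z : Set (ℕ × ℕ),
    (∀ p ∈ Z, 1 ≤ p.1 ∧ (p.2 : ℝ) / p.1 ∈ I0 b0 ∧ F ((p.1 : ℂ), (p.2 : ℂ)) = 0) →
    Summable (Muntz.dens Z)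

theorem spans_of_main (hM : MainStmt) {Ω : Set (ℕ × ℕ)} {ε : ℝ} (hε : 0 < ε) (hε1 : ε ≤ 1)
    (hpos : ∀ p ∈ Ω, 1 ≤ p.1 ∧ 1 ≤ p.2)
    (hang : ∀ p ∈ Ω, ε * p.1 ≤ p.2 ∧ (p.2 : ℝ) ≤ p.1 / ε)
    (hdiv : ¬ Summable (fun p : Ω => 1 / ((p.1.1 : ℝ) * p.1.2))) :
    Muntz2.SpansC0 Ω ∧ Muntz2.SpansL2 Ω := by
  classical
  suffices h : Muntz2.SpansC0 Ω from ⟨h, Muntz2.spansL2_of_spansC0 h⟩
  by_contra hns
  apply hdiv
  obtain ⟨F, hF, hF0⟩ := Muntz.exists_goodF hpos hns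
  set φ : ℕ × ℕ → ℕ × ℕ := fun p => (p.1 - 1, p.2 - 1) with hφ
  set Z : Set (ℕ × ℕ) := φ '' {p | p ∈ Ω ∧ 3 ≤ p.1 ∧ 2 ≤ p.2} with hZ
  set b0 : ℝ := 2 / ε + 2 with hb0
  have hεi : 0 < 2 / ε := by positivity
  have hb0' : 2 ≤ b0 := by linarith
  have hZp : ∀ p ∈ Z, 1 ≤ p.1 ∧ (p.2 : ℝ) / p.1 ∈ I0 b0 ∧ F ((p.1 : ℂ), (p.2 : ℂ)) = 0 := by
    rintro _ ⟨p, ⟨hp, h3, h2⟩, rfl⟩
    have hz := hF0 p hp
    obtain ⟨m, hm⟩ : ∃ m, p.1 = m + 1 := ⟨p.1 - 1, by omega⟩
    obtain ⟨n, hn⟩ : ∃ n, p.2 = n + 1 := ⟨p.2 - 1, by omega⟩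
    obtain ⟨h4, h5⟩ := hang p hp
    rw [hm, hn] at h4 h5
    rw [hm] at h3
    rw [hn] at h2
    have hm2 : (2 : ℝ) ≤ m := by exact_mod_cast (by omega : 2 ≤ m)
    have hn1 : (1 : ℝ) ≤ n := by exact_mod_cast (by omega : 1 ≤ n)
    push_cast at h4 h5
    have e1 : φ p = (m, n) := by simp [hφ, hm, hn]
    rw [e1]
    refine ⟨by show 1 ≤ m; omega, ?_, ?_⟩
    · show (n : ℝ) / m ∈ I0 b0
      have hm0 : (0 : ℝ) < m := by linarith
      unfold I0
      constructor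
      · rw [div_le_div_iff₀ (by linarith) hm0]
        -- 1 * m ≤ n * b0
        have h6 : (m : ℝ) + 1 ≤ (n + 1) / ε := by
          rw [le_div_iff₀ hε]; linarith
        have h7 : ((n : ℝ) + 1) / ε ≤ n * (2 / ε) := by
          rw [mul_div_assoc', div_le_div_iff_of_pos_right hε]; linarith
        have h8 : (n : ℝ) * b0 = n * (2 / ε) + 2 * n := by rw [hb0]; ring
        rw [h8]
        linarith
      · rw [div_le_iff₀ hm0]
        have h7 : ((m : ℝ) + 1) / ε ≤ m * (2 / ε) := by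
          rw [mul_div_assoc', div_le_div_iff_of_pos_right hε]; linarith
        have h8 : b0 * (m : ℝ) = m * (2 / ε) + 2 * m := by rw [hb0]; ring
        rw [h8]
        linarith
    · have e2 : p.1 - 1 = m := by omega
      have e3 : p.2 - 1 = n := by omega
      rw [e2, e3] at hz
      exact hz
  have hsum := hM F hF b0 hb0' Z hZp
  have hd0 : ∀ j, 0 ≤ Muntz.dens Z j := fun j => by unfold Muntz.dens; positivity
  -- the finite set of dropped points
  obtain ⟨K0, hK0⟩ : ∃ K0 : Finset (ℕ × ℕ), ∀ p ∈ Ω, (p.1 ≤ 2 ∨ p.2 ≤ 1) → p ∈ K0 := by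
    obtain ⟨N, hN⟩ := exists_nat_ge (2 / ε)
    obtain ⟨N', hN'⟩ := exists_nat_ge ((N : ℝ) / ε)
    refine ⟨Finset.range (N + 1) ×ˢ Finset.range (N' + 1), fun p hp hor => ?_⟩
    obtain ⟨h4, h5⟩ := hang p hp
    obtain ⟨h6, h7⟩ := hpos p hp
    have h2e : 2 ≤ 2 / ε := by rw [le_div_iff₀ hε]; linarith
    have hm : (p.1 : ℝ) ≤ N := by
      rcases hor with h | h
      · have : (p.1 : ℝ) ≤ 2 := by exact_mod_cast h
        linarith
      · have h1 : (p.2 : ℝ) ≤ 1 := by exact_mod_cast h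
        have h2 : (p.1 : ℝ) ≤ 1 / ε := by rw [le_div_iff₀ hε]; linarith
        have h3 : 1 / ε ≤ 2 / ε := by
          rw [div_le_div_iff_of_pos_right hε]; norm_num
        linarith
    have hn : (p.2 : ℝ) ≤ N' := by
      refine h5.trans (le_trans ?_ hN')
      gcongr
    rw [Finset.mem_product, Finset.mem_range, Finset.mem_range]
    exact ⟨Nat.lt_succ_of_le (by exact_mod_cast hm), Nat.lt_succ_of_le (by exact_mod_cast hn)⟩
  have hterm1 : ∀ p ∈ Ω, 1 / ((p.1 : ℝ) * p.2) ≤ 1 := by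
    intro p hp
    obtain ⟨h6, h7⟩ := hpos p hp
    have h1 : (1 : ℝ) ≤ p.1 := by exact_mod_cast h6
    have h2 : (1 : ℝ) ≤ p.2 := by exact_mod_cast h7
    rw [div_le_one (by positivity)]
    nlinarith
  apply summable_of_sum_le (c := (K0.card : ℝ) + 1 / ε * ∑' j, Muntz.dens Z j)
  · intro p
    positivity
  intro u
  set U : Finset (ℕ × ℕ) := u.image Subtype.val with hU
  have hUΩ : ∀ p ∈ U, p ∈ Ω := by
    intro p hp
    rw [hU, Finset.mem_image] at hp
    obtain ⟨q, _, rfl⟩ := hp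
    exact q.2
  have e1 : ∑ p ∈ u, 1 / ((p.1.1 : ℝ) * p.1.2) = ∑ p ∈ U, 1 / ((p.1 : ℝ) * p.2) := by
    rw [hU, Finset.sum_image (fun x _ y _ h => Subtype.ext h)]
  rw [e1, ← Finset.sum_filter_add_sum_filter_not U (fun p => p.1 ≤ 2 ∨ p.2 ≤ 1)]
  apply add_le_add
  · calc ∑ p ∈ U.filter (fun p => p.1 ≤ 2 ∨ p.2 ≤ 1), 1 / ((p.1 : ℝ) * p.2)
        ≤ ∑ p ∈ U.filter (fun p => p.1 ≤ 2 ∨ p.2 ≤ 1), (1 : ℝ) := by
          refine Finset.sum_le_sum fun p hp => hterm1 p (hUΩ p (Finset.mem_filter.1 hp).1)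
      _ = ((U.filter (fun p => p.1 ≤ 2 ∨ p.2 ≤ 1)).card : ℝ) := by simp
      _ ≤ (K0.card : ℝ) := by
          have : U.filter (fun p => p.1 ≤ 2 ∨ p.2 ≤ 1) ⊆ K0 := by
            intro p hp
            rw [Finset.mem_filter] at hp
            exact hK0 p (hUΩ p hp.1) hp.2
          exact_mod_cast Finset.card_le_card this
  · set G := U.filter (fun p => ¬ (p.1 ≤ 2 ∨ p.2 ≤ 1)) with hG
    have hGm : ∀ p ∈ G, p ∈ Ω ∧ 3 ≤ p.1 ∧ 2 ≤ p.2 := by
      intro p hp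
      rw [hG, Finset.mem_filter] at hp
      exact ⟨hUΩ p hp.1, by omega, by omega⟩
    set lg : ℕ × ℕ → ℕ := fun p => Nat.log 2 (p.1 - 1) with hlg
    rw [← Finset.sum_fiberwise_of_maps_to (s := G) (t := G.image lg) (g := lg)
      (fun p hp => Finset.mem_image_of_mem lg hp)]
    have hfib : ∀ j ∈ G.image lg, ∑ p ∈ G.filter (fun p => lg p = j), 1 / ((p.1 : ℝ) * p.2)
        ≤ 1 / ε * Muntz.dens Z j := by
      intro j _
      have hb : ∀ p ∈ G.filter (fun p => lg p = j), 2 ^ j ≤ p.1 - 1 ∧ p.1 - 1 < 2 ^ (j + 1) := by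
        intro p hp
        rw [Finset.mem_filter] at hp
        obtain ⟨h1, h2⟩ := hp
        have h3 := (hGm p h1).2.1
        rw [← h2]
        exact ⟨Nat.pow_log_le_self 2 (by omega), Nat.lt_pow_succ_log_self (by norm_num) _⟩
      have ht : ∀ p ∈ G.filter (fun p => lg p = j), 1 / ((p.1 : ℝ) * p.2) ≤ 1 / (ε * 4 ^ j) := by
        intro p hp
        have h1 := hb p hp
        rw [Finset.mem_filter] at hp
        have h2 := hGm p hp.1
        have h3 : (2 : ℝ) ^ j ≤ p.1 := by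
          have : 2 ^ j ≤ p.1 := by omega
          exact_mod_cast this
        have h4 : ε * 2 ^ j ≤ p.2 := le_trans (by gcongr) (hang p h2.1).1
        apply one_div_le_one_div_of_le (by positivity)
        calc ε * 4 ^ j = 2 ^ j * (ε * 2 ^ j) := by
              rw [show (4 : ℝ) = 2 * 2 by norm_num, mul_pow]; ring
          _ ≤ (p.1 : ℝ) * p.2 := by gcongr
      have hcard : ((G.filter (fun p => lg p = j)).card : ℝ)
          ≤ ((Z ∩ {p | 2 ^ j ≤ p.1 ∧ p.1 < 2 ^ (j + 1)}).ncard : ℝ) := by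
        have hinj : Set.InjOn φ (G.filter (fun p => lg p = j) : Set (ℕ × ℕ)) := by
          intro p hp q hq hpq
          have h1 := (hGm p (Finset.mem_filter.1 hp).1).2
          have h2 := (hGm q (Finset.mem_filter.1 hq).1).2
          simp only [hφ, Prod.mk.injEq] at hpq
          ext
          · omega
          · omega
        rw [← Finset.card_image_of_injOn hinj, ← Set.ncard_coe_finset]
        have hfin : (Z ∩ {p | 2 ^ j ≤ p.1 ∧ p.1 < 2 ^ (j + 1)}).Finite := by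
          apply Set.Finite.subset (Finset.finite_toSet
            (Finset.range (2 ^ (j + 1)) ×ˢ Finset.range (⌊b0 * (2 ^ (j + 1) : ℝ)⌋₊ + 1)))
          rintro p ⟨hp, hp1, hp2⟩
          rw [Finset.mem_coe, Finset.mem_product, Finset.mem_range, Finset.mem_range]
          refine ⟨hp2, ?_⟩
          obtain ⟨h1, h2, _⟩ := hZp p hp
          have h3 : (0 : ℝ) < p.1 := by exact_mod_cast h1
          have h4 : (p.2 : ℝ) ≤ b0 * p.1 := by
            have := h2.2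
            rwa [div_le_iff₀ h3] at this
          have h5 : (p.1 : ℝ) ≤ 2 ^ (j + 1) := by exact_mod_cast hp2.le
          apply Nat.lt_succ_of_le
          apply Nat.le_floor
          refine h4.trans ?_
          gcongr
        have := Set.ncard_le_ncard (s := ((G.filter (fun p => lg p = j)).image φ : Set (ℕ × ℕ)))
          (t := Z ∩ {p | 2 ^ j ≤ p.1 ∧ p.1 < 2 ^ (j + 1)}) (by
            intro q hq
            rw [Finset.mem_coe, Finset.mem_image] at hq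
            obtain ⟨p, hp, rfl⟩ := hq
            have h1 := hb p hp
            have h2 := hGm p (Finset.mem_filter.1 hp).1
            exact ⟨⟨p, h2, rfl⟩, h1⟩) hfin
        exact_mod_cast this
      calc ∑ p ∈ G.filter (fun p => lg p = j), 1 / ((p.1 : ℝ) * p.2)
          ≤ ∑ p ∈ G.filter (fun p => lg p = j), 1 / (ε * 4 ^ j) := Finset.sum_le_sum ht
        _ = ((G.filter (fun p => lg p = j)).card : ℝ) * (1 / (ε * 4 ^ j)) := by
            rw [Finset.sum_const, nsmul_eq_mul]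
        _ ≤ ((Z ∩ {p | 2 ^ j ≤ p.1 ∧ p.1 < 2 ^ (j + 1)}).ncard : ℝ) * (1 / (ε * 4 ^ j)) := by
            gcongr
        _ = 1 / ε * Muntz.dens Z j := by
            unfold Muntz.dens
            field_simp
    refine (Finset.sum_le_sum hfib).trans ?_
    rw [← Finset.mul_sum]
    have := hsum.sum_le_tsum (G.image lg) (fun j _ => hd0 j)
    gcongr

end MuntzF
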