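import Pool.Agent.Lib.MP_dde81e_full.ZDefs

/-!
Module Z2 (text 11): the grid of sub-boxes of a window.  x0 = 2^j (1 + k/128), θ0 = (d.2 + m/128) dl d, k, m < 128 (image of range 128 ×ˢ range 128).
For x in [2^j, 2^(j+1)) take k = floor (128 (x/2^j - 1)): 0 ≤ x - x0 < 2^j/128 ≤ x0/128, so |cs| ≤ 1/64; |y/x - θ0| ≤ dl d/128 and x/x0 ≤ 1 + 1/128, so |ct| = |y/x - θ0| x/(dl d x0) ≤ 1/64.
-/

namespace MuntzF
open Set

theorem grid (j : ℕ) (d : ℕ × ℕ) : ∃ G : Finset (ℝ × ℝ), G.card ≤ 16384 ∧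
    (∀ g ∈ G, 2 ^ j ≤ g.1 ∧ g.1 ≤ 2 * 2 ^ j ∧ g.2 ∈ cell d) ∧
    ∀ x y : ℝ, 2 ^ j ≤ x → x < 2 ^ (j + 1) → y / x ∈ cell d →
      ∃ g ∈ G, inb g.1 g.2 (dl d) (1 / 64) x y := by
  classical
  have h2j : (0 : ℝ) < 2 ^ j := by positivity
  have hdl : 0 < dl d := by unfold dl; positivity
  obtain ⟨S, hS1, hS2⟩ : ∃ S : Finset ℕ, S.card = 128 ∧ ∀ n, n ∈ S ↔ n < 128 :=
    ⟨Finset.range 128, Finset.card_range 128, fun n => Finset.mem_range⟩
  refine ⟨(S ×ˢ S).image
    (fun km => ((2 : ℝ) ^ j * (1 + (km.1 : ℝ) / 128), ((d.2 : ℝ) + (km.2 : ℝ) / 128) * dl d)), ?_, ?_, ?_⟩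
  · refine Finset.card_image_le.trans ?_
    rw [Finset.card_product, hS1]
  · intro g hg
    rw [Finset.mem_image] at hg
    obtain ⟨⟨k, m⟩, hkm, rfl⟩ := hg
    rw [Finset.mem_product, hS2, hS2] at hkm
    obtain ⟨hk, hm⟩ := hkm
    simp only at hk hm ⊢
    have hk1 : (k : ℝ) ≤ 128 := by exact_mod_cast hk.le
    have hk0 : (0 : ℝ) ≤ k := Nat.cast_nonneg k
    have hm1 : (m : ℝ) < 128 := by exact_mod_cast hm
    have hm0 : (0 : ℝ) ≤ m := Nat.cast_nonneg m
    refine ⟨?_, ?_, ?_, ?_⟩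
    · nlinarith
    · nlinarith
    · nlinarith
    · apply mul_lt_mul_of_pos_right _ hdl
      linarith
  · intro x y hx1 hx2 hy
    have hxp : 0 < x := lt_of_lt_of_le h2j hx1
    obtain ⟨hy1, hy2⟩ := hy
    set a : ℝ := 128 * (x / 2 ^ j - 1) with ha
    set b : ℝ := 128 * (y / x / dl d - d.2) with hb
    have ha0 : 0 ≤ a := by
      have : 1 ≤ x / 2 ^ j := by rw [le_div_iff₀ h2j]; linarith
      rw [ha]; linarith
    have ha1 : a < 128 := by
      have : x / 2 ^ j < 2 := by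
        rw [div_lt_iff₀ h2j]
        rw [pow_succ] at hx2
        linarith
      rw [ha]; linarith
    have hb0 : 0 ≤ b := by
      have : (d.2 : ℝ) ≤ y / x / dl d := by rw [le_div_iff₀ hdl]; exact hy1
      rw [hb]; linarith
    have hb1 : b < 128 := by
      have : y / x / dl d < d.2 + 1 := by rw [div_lt_iff₀ hdl]; exact hy2
      rw [hb]; linarith
    have hk1 := Nat.floor_le ha0
    have hk2 := Nat.lt_floor_add_one a
    have hm1 := Nat.floor_le hb0
    have hm2 := Nat.lt_floor_add_one b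
    have hkl : ⌊a⌋₊ < 128 := by
      have : (⌊a⌋₊ : ℝ) < 128 := lt_of_le_of_lt hk1 ha1
      exact_mod_cast this
    have hml : ⌊b⌋₊ < 128 := by
      have : (⌊b⌋₊ : ℝ) < 128 := lt_of_le_of_lt hm1 hb1
      exact_mod_cast this
    refine ⟨((2 : ℝ) ^ j * (1 + (⌊a⌋₊ : ℝ) / 128), ((d.2 : ℝ) + (⌊b⌋₊ : ℝ) / 128) * dl d),
      Finset.mem_image.2 ⟨(⌊a⌋₊, ⌊b⌋₊), Finset.mem_product.2 ⟨(hS2 _).2 hkl,
      (hS2 _).2 hml⟩, rfl⟩, ?_⟩
    simp only
    set K : ℝ := (⌊a⌋₊ : ℝ) with hK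
    set M : ℝ := (⌊b⌋₊ : ℝ) with hM
    have hK0 : 0 ≤ K := Nat.cast_nonneg _
    have hxa : x = 2 ^ j * (1 + a / 128) := by
      rw [ha]
      field_simp
      ring
    have hya : y / x = (d.2 + b / 128) * dl d := by
      rw [hb]
      field_simp
      ring
    have hyx : y = x * ((d.2 + b / 128) * dl d) := by
      rw [← hya]
      field_simp
    set x0 : ℝ := 2 ^ j * (1 + K / 128) with hx0
    have hx0p : 0 < x0 := by rw [hx0]; positivity
    have hx0j : 2 ^ j ≤ x0 := by rw [hx0]; nlinarith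
    have hd1 : 0 ≤ x - x0 := by
      rw [hxa, hx0]
      nlinarith
    have hd2 : x - x0 ≤ x0 / 128 := by
      have : x - x0 ≤ 2 ^ j / 128 := by
        rw [hxa, hx0]
        nlinarith
      linarith
    constructor
    · unfold cs
      rw [abs_of_nonneg (by positivity), div_le_iff₀ hx0p]
      linarith
    · unfold ct
      have e : y - (d.2 + M / 128) * dl d * x = x * dl d * ((b - M) / 128) := by
        rw [hyx]
        ring
      have hbm : 0 ≤ (b - M) / 128 := by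
        have : 0 ≤ b - M := by linarith
        positivity
      rw [e, abs_of_nonneg (by positivity), div_le_iff₀ (by positivity)]
      have h1 : (b - M) / 128 ≤ 1 / 128 := by linarith
      have h2 : x ≤ 2 * x0 := by linarith
      calc x * dl d * ((b - M) / 128) ≤ (2 * x0) * dl d * (1 / 128) := by gcongr
        _ = 1 / 64 * (dl d * x0) := by ring


end MuntzF
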