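import Pool.Agent.Lib.MP_dde81e_full.ZDefs

/-!
Module Z4 (text 9.2): number of major dyadic intervals of critical length.
-/

namespace MuntzF
open Set

theorem Z4_lam_pow (i n : ℕ) : lam i ^ n = (2 : ℝ) ^ ((i : ℝ) * n / 8000) := by
  unfold lam
  rw [← Real.rpow_natCast, ← Real.rpow_mul (by norm_num)]
  congr 1
  ring

theorem Z4_hh_rpow (i : ℕ) (s : ℝ) : hh i ^ s = (2 : ℝ) ^ (-((i : ℝ) * s)) := by
  unfold hh
  rw [← Real.rpow_natCast, ← Real.rpow_mul (by norm_num), one_div,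
    Real.inv_rpow (by norm_num), ← Real.rpow_neg (by norm_num)]

theorem Z4_one_le_lam (i : ℕ) : 1 ≤ lam i := by
  unfold lam
  exact Real.one_le_rpow (by norm_num) (by positivity)

/-- integers in a closed real interval -/
theorem Z4_card_le (S : Finset ℤ) (a l : ℝ) (hl : 0 ≤ l) (h : ∀ k ∈ S, a ≤ k ∧ (k : ℝ) ≤ a + l) :
    (S.card : ℝ) ≤ l + 1 := by
  have h1 : S ⊆ Finset.Icc ⌈a⌉ ⌊a + l⌋ := by
    intro k hk
    rw [Finset.mem_Icc]
    exact ⟨Int.ceil_le.mpr (h k hk).1, Int.le_floor.mpr (h k hk).2⟩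
  have h2 := Finset.card_le_card h1
  rw [Int.card_Icc] at h2
  have h3 : (S.card : ℝ) ≤ ((⌊a + l⌋ + 1 - ⌈a⌉).toNat : ℝ) := by exact_mod_cast h2
  refine h3.trans ?_
  have h4 := Int.floor_le (a + l)
  have h5 := Int.le_ceil a
  rcases le_total 0 (⌊a + l⌋ + 1 - ⌈a⌉) with h | h
  · have h6 : ((⌊a + l⌋ + 1 - ⌈a⌉).toNat : ℝ) = ((⌊a + l⌋ + 1 - ⌈a⌉ : ℤ) : ℝ) := by
      have := Int.toNat_of_nonneg h
      exact_mod_cast this
    rw [h6]
    push_cast
    linarith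
  · rw [Int.toNat_of_nonpos h]
    push_cast
    linarith

theorem Z4_card_nat_le (S : Finset ℕ) (a l : ℝ) (hl : 0 ≤ l) (h : ∀ k ∈ S, a ≤ k ∧ (k : ℝ) ≤ a + l) :
    (S.card : ℝ) ≤ l + 1 := by
  classical
  have h1 : (S.image (fun k : ℕ => (k : ℤ))).card = S.card :=
    Finset.card_image_of_injective _ Nat.cast_injective
  rw [← h1]
  refine Z4_card_le _ a l hl ?_
  intro k hk
  rw [Finset.mem_image] at hk
  obtain ⟨m, hm, rfl⟩ := hk
  push_cast
  exact h m hm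

theorem major_card {b0 : ℝ} (hb : 2 ≤ b0) : ∃ C : ℝ, 0 < C ∧ ∀ (i w : ℕ) (E : Finset (ℕ × ℕ)),
    Crit i w → (∀ d ∈ E, d.1 = w ∧ (cell d ∩ I2 b0).Nonempty ∧ ¬ MinorZ i (dc d)) →
    (E.card : ℝ) ≤ C * lam i ^ 2176 := by
  classical
  refine ⟨3 * (2 * b0 + 3), by linarith, ?_⟩
  intro i w E hcrit hE
  set δ : ℝ := lam i ^ 1144 * hh i ^ ((1 : ℝ) / 2) with hδ
  have hlam1 := Z4_one_le_lam i
  have hlam0 : 0 < lam i := by linarith
  have hδe : δ = (2 : ℝ) ^ ((i : ℝ) * (1144 / 8000 - 1 / 2)) := by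
    rw [hδ, Z4_lam_pow, Z4_hh_rpow, ← Real.rpow_add (by norm_num)]
    congr 1
    push_cast
    ring
  have hδ0 : 0 < δ := by rw [hδe]; positivity
  have hi0 : (0 : ℝ) ≤ i := Nat.cast_nonneg i
  have hδ1 : δ ≤ 1 := by
    rw [hδe]
    exact Real.rpow_le_one_of_one_le_of_nonpos (by norm_num) (by nlinarith)
  have hw : (w : ℝ) ≤ (i : ℝ) * (1 / 2 + 1 / 250) := by
    have h1 := hcrit.2
    have h2 : (500 : ℝ) * w ≤ 250 * i + 2 * i := by exact_mod_cast h1
    linarith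
  have h2w : (2 : ℝ) ^ w ≤ (2 : ℝ) ^ ((i : ℝ) * (1 / 2 + 1 / 250)) := by
    rw [← Real.rpow_natCast]
    exact Real.rpow_le_rpow_of_exponent_le (by norm_num) hw
  have hδw : δ * 2 ^ w ≤ lam i ^ 1176 := by
    have h1 : δ * 2 ^ w ≤ δ * (2 : ℝ) ^ ((i : ℝ) * (1 / 2 + 1 / 250)) :=
      mul_le_mul_of_nonneg_left h2w hδ0.le
    refine h1.trans (le_of_eq ?_)
    rw [hδe, Z4_lam_pow, ← Real.rpow_add (by norm_num)]
    congr 1
    push_cast
    ring
  set Q : ℕ := ⌊lam i ^ 500⌋₊ with hQ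
  have hQle : (Q : ℝ) ≤ lam i ^ 500 := Nat.floor_le (by positivity)
  set B : ℕ → ℤ → Finset (ℕ × ℕ) := fun q p => E.filter (fun d => |dc d - p / q| ≤ δ) with hB
  set PP : ℕ → Finset ℤ := fun q => Finset.Icc (-(q : ℤ)) ⌊(2 * b0 + 1) * q⌋ with hPP
  have hcover : E ⊆ (Finset.Icc 1 Q).biUnion (fun q => (PP q).biUnion (fun p => B q p)) := by
    intro d hd
    obtain ⟨hdw, ⟨x, hx1, hx2⟩, hmin⟩ := hE d hd
    unfold MinorZ at hmin
    push Not at hmin
    obtain ⟨q, p, hq1, hq2, hqp⟩ := hmin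
    have hq0 : (0 : ℝ) < q := by exact_mod_cast hq1
    have hdl : dl d ≤ 1 := by
      unfold dl
      exact pow_le_one₀ (by norm_num) (by norm_num)
    have hdl0 : 0 < dl d := by unfold dl; positivity
    have hdc0 : 0 ≤ dc d := by unfold dc; positivity
    have hdcu : dc d ≤ 2 * b0 := by
      have h1 := hx1.1
      have h2 := hx2.2
      unfold dc
      have h3 : (d.2 : ℝ) * dl d ≤ 3 * b0 / 2 := h1.trans h2
      nlinarith
    have hab := abs_le.mp hqp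
    have hp1 : -(1 : ℝ) ≤ (p : ℝ) / q := by linarith [hab.2]
    have hp2 : (p : ℝ) / q ≤ 2 * b0 + 1 := by linarith [hab.1]
    rw [le_div_iff₀ hq0] at hp1
    rw [div_le_iff₀ hq0] at hp2
    rw [Finset.mem_biUnion]
    refine ⟨q, Finset.mem_Icc.mpr ⟨hq1, Nat.le_floor hq2⟩, ?_⟩
    rw [Finset.mem_biUnion]
    refine ⟨p, ?_, ?_⟩
    · rw [hPP, Finset.mem_Icc]
      refine ⟨?_, Int.le_floor.mpr hp2⟩
      have : (-(q : ℝ)) ≤ p := by linarith
      exact_mod_cast this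
    · rw [hB, Finset.mem_filter]
      exact ⟨hd, hqp⟩
  have hBcard : ∀ q p, ((B q p).card : ℝ) ≤ 3 * lam i ^ 1176 := by
    intro q p
    have hinj : ((B q p).image Prod.snd).card = (B q p).card := by
      refine Finset.card_image_of_injOn ?_
      intro d hd d' hd' h
      rw [hB, Finset.mem_coe, Finset.mem_filter] at hd hd'
      exact Prod.ext ((hE d hd.1).1.trans (hE d' hd'.1).1.symm) h
    rw [← hinj]
    have h1 := Z4_card_nat_le ((B q p).image Prod.snd) (((p : ℝ) / q - δ) * 2 ^ w - 1 / 2)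
      (2 * δ * 2 ^ w) (by positivity) (by
        intro k hk
        rw [Finset.mem_image] at hk
        obtain ⟨d, hd, rfl⟩ := hk
        rw [hB, Finset.mem_filter] at hd
        obtain ⟨hdE, habs⟩ := hd
        have hdw := (hE d hdE).1
        have hab := abs_le.mp habs
        have hdce : dc d = ((d.2 : ℝ) + 1 / 2) / 2 ^ w := by
          unfold dc dl
          rw [hdw, one_div_pow, mul_one_div]
        have h2w0 : (0 : ℝ) < 2 ^ w := by positivity
        rw [hdce] at hab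
        have e1 : ((p : ℝ) / q - δ) * 2 ^ w ≤ (d.2 : ℝ) + 1 / 2 := by
          have : (p : ℝ) / q - δ ≤ ((d.2 : ℝ) + 1 / 2) / 2 ^ w := by linarith [hab.1]
          rwa [le_div_iff₀ h2w0] at this
        have e2 : (d.2 : ℝ) + 1 / 2 ≤ ((p : ℝ) / q + δ) * 2 ^ w := by
          have : ((d.2 : ℝ) + 1 / 2) / 2 ^ w ≤ (p : ℝ) / q + δ := by linarith [hab.2]
          rwa [div_le_iff₀ h2w0] at this
        constructor
        · linarith
        · have e3 : ((p : ℝ) / q + δ) * 2 ^ w = ((p : ℝ) / q - δ) * 2 ^ w + 2 * δ * 2 ^ w := by ring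
          linarith)
    refine h1.trans ?_
    have h2 : 1 ≤ lam i ^ 1176 := one_le_pow₀ hlam1
    linarith
  have hPcard : ∀ q ∈ Finset.Icc 1 Q, ((PP q).card : ℝ) ≤ (2 * b0 + 3) * q := by
    intro q hq
    have hq1 : (1 : ℝ) ≤ q := by exact_mod_cast (Finset.mem_Icc.mp hq).1
    have h1 := Z4_card_le (PP q) (-(q : ℝ)) ((2 * b0 + 2) * q) (by positivity) (by
      intro k hk
      rw [hPP, Finset.mem_Icc] at hk
      constructor
      · exact_mod_cast hk.1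
      · have := Int.le_floor.mp hk.2
        linarith)
    linarith
  have hL0 : 0 ≤ 3 * lam i ^ 1176 := by positivity
  have h1 : (E.card : ℝ) ≤ ∑ q ∈ Finset.Icc 1 Q, ∑ p ∈ PP q, ((B q p).card : ℝ) := by
    have h2 : E.card ≤ ∑ q ∈ Finset.Icc 1 Q, ∑ p ∈ PP q, (B q p).card :=
      (Finset.card_le_card hcover).trans (Finset.card_biUnion_le.trans
        (Finset.sum_le_sum fun q _ => Finset.card_biUnion_le))
    exact_mod_cast h2
  refine h1.trans ?_
  have h2 : ∀ q ∈ Finset.Icc 1 Q, ∑ p ∈ PP q, ((B q p).card : ℝ) ≤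
      (2 * b0 + 3) * lam i ^ 500 * (3 * lam i ^ 1176) := by
    intro q hq
    have hqQ : (q : ℝ) ≤ lam i ^ 500 := by
      have : (q : ℝ) ≤ Q := by exact_mod_cast (Finset.mem_Icc.mp hq).2
      exact this.trans hQle
    calc ∑ p ∈ PP q, ((B q p).card : ℝ) ≤ ∑ _p ∈ PP q, 3 * lam i ^ 1176 :=
          Finset.sum_le_sum fun p _ => hBcard q p
      _ = (PP q).card * (3 * lam i ^ 1176) := by rw [Finset.sum_const, nsmul_eq_mul]
      _ ≤ ((2 * b0 + 3) * q) * (3 * lam i ^ 1176) :=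
          mul_le_mul_of_nonneg_right (hPcard q hq) hL0
      _ ≤ (2 * b0 + 3) * lam i ^ 500 * (3 * lam i ^ 1176) := by
          refine mul_le_mul_of_nonneg_right ?_ hL0
          exact mul_le_mul_of_nonneg_left hqQ (by linarith)
  calc ∑ q ∈ Finset.Icc 1 Q, ∑ p ∈ PP q, ((B q p).card : ℝ)
      ≤ ∑ _q ∈ Finset.Icc 1 Q, (2 * b0 + 3) * lam i ^ 500 * (3 * lam i ^ 1176) :=
        Finset.sum_le_sum h2
    _ = Q * ((2 * b0 + 3) * lam i ^ 500 * (3 * lam i ^ 1176)) := by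
        rw [Finset.sum_const, nsmul_eq_mul, Nat.card_Icc, Nat.add_sub_cancel]
    _ ≤ lam i ^ 500 * ((2 * b0 + 3) * lam i ^ 500 * (3 * lam i ^ 1176)) := by
        refine mul_le_mul_of_nonneg_right hQle ?_
        have : 0 ≤ 2 * b0 + 3 := by linarith
        positivity
    _ = 3 * (2 * b0 + 3) * lam i ^ 2176 := by ring

end MuntzF
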