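import Pool.Agent.Lib.MP_dde81e_full.ZDefs

/-!
Module Z6 (text 11 (1), (2), (4)): the numerical series.
-/

namespace MuntzF
open Set Classical

/-- the weight of a window which is not (critical and major). -/
noncomputable def phiZ (i w : ℕ) : ℝ :=
  (if Crit i w then nMin i else nGen i w) + hh i ^ ((8 : ℝ) / 5) * lam i

theorem Z6_lam_pow (i n : ℕ) : lam i ^ n = (2 : ℝ) ^ ((i : ℝ) * n / 8000) := by
  unfold lam
  rw [← Real.rpow_natCast, ← Real.rpow_mul (by norm_num)]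
  congr 1
  ring

theorem Z6_hh_rpow (i : ℕ) (s : ℝ) : hh i ^ s = (2 : ℝ) ^ (-((i : ℝ) * s)) := by
  unfold hh
  rw [← Real.rpow_natCast, ← Real.rpow_mul (by norm_num), one_div,
    Real.inv_rpow (by norm_num), ← Real.rpow_neg (by norm_num)]

theorem Z6_hh_pow (i n : ℕ) : hh i ^ n = (2 : ℝ) ^ (-((i : ℝ) * n)) := by
  rw [← Real.rpow_natCast (hh i) n, Z6_hh_rpow]

theorem Z6_nGen (i w : ℕ) : nGen i w = (2 : ℝ) ^ ((i : ℝ) * 18 / 8000) *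
    ((2 : ℝ) ^ (-((i : ℝ) * 2)) + (2 : ℝ) ^ (-((i : ℝ) * (4 / 3)) - (w : ℝ) / 3)) := by
  unfold nGen
  have h1 : ((1 / 2 : ℝ) ^ w) ^ ((1 : ℝ) / 3) = (2 : ℝ) ^ (-((w : ℝ) / 3)) := by
    have := Z6_hh_rpow w ((1 : ℝ) / 3)
    unfold hh at this
    rw [this]
    congr 1
    ring
  rw [Z6_lam_pow, Z6_hh_pow, Z6_hh_rpow, h1, ← Real.rpow_add (by norm_num)]
  push_cast
  rw [show -((i : ℝ) * (4 / 3)) + -((w : ℝ) / 3) = -((i : ℝ) * (4 / 3)) - (w : ℝ) / 3 by ring]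

theorem Z6_nMin (i : ℕ) : nMin i = (2 : ℝ) ^ (-((i : ℝ) * (3 / 2 + 1 / 4000))) := by
  unfold nMin
  rw [Z6_hh_rpow, Z6_lam_pow, ← Real.rpow_sub (by norm_num)]
  congr 1
  push_cast
  ring

theorem Z6_last (i : ℕ) : hh i ^ ((8 : ℝ) / 5) * lam i =
    (2 : ℝ) ^ (-((i : ℝ) * (8 / 5 - 1 / 8000))) := by
  have h := Z6_lam_pow i 1
  rw [pow_one] at h
  rw [Z6_hh_rpow, h, ← Real.rpow_add (by norm_num)]
  congr 1
  push_cast
  ring

theorem Z6_mono {a b : ℝ} (h : a ≤ b) : (2 : ℝ) ^ a ≤ (2 : ℝ) ^ b :=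
  Real.rpow_le_rpow_of_exponent_le (by norm_num) h

theorem Z6_mul (a b : ℝ) : (2 : ℝ) ^ a * (2 : ℝ) ^ b = (2 : ℝ) ^ (a + b) :=
  (Real.rpow_add (by norm_num) a b).symm

theorem Z6_nGen_nonneg (i w : ℕ) : 0 ≤ nGen i w := by rw [Z6_nGen]; positivity

theorem phiZ_nonneg (i w : ℕ) : 0 ≤ phiZ i w := by
  unfold phiZ
  rw [Z6_last]
  have h1 := Z6_nGen_nonneg i w
  have h2 : 0 ≤ nMin i := by rw [Z6_nMin]; positivity
  split_ifs <;> positivity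

theorem Z6_term (i w : ℕ) :
    min ((2 : ℝ) ^ (i + w)) (4 ^ i / 2 ^ w) * phiZ i w ≤ 4 * (2 : ℝ) ^ (-((i : ℝ) / 4000)) := by
  set m : ℝ := min ((2 : ℝ) ^ (i + w)) (4 ^ i / 2 ^ w) with hm
  have hi : (0 : ℝ) ≤ i := Nat.cast_nonneg i
  have e1 : (2 : ℝ) ^ (i + w) = (2 : ℝ) ^ ((i : ℝ) + w) := by
    rw [← Real.rpow_natCast]; push_cast; rfl
  have e2 : (4 : ℝ) ^ i / 2 ^ w = (2 : ℝ) ^ ((i : ℝ) * 2 - w) := by
    rw [Real.rpow_sub (by norm_num), Real.rpow_natCast, mul_comm (i : ℝ) 2,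
      Real.rpow_mul (by norm_num), Real.rpow_natCast]
    norm_num
  have hm1 : m ≤ (2 : ℝ) ^ ((i : ℝ) + w) := by rw [← e1]; exact min_le_left _ _
  have hm2 : m ≤ (2 : ℝ) ^ ((i : ℝ) * 2 - w) := by rw [← e2]; exact min_le_right _ _
  have hm0 : 0 ≤ m := by rw [hm]; positivity
  have hm3 : m ≤ (2 : ℝ) ^ ((i : ℝ) * (3 / 2)) := by
    rcases le_total ((w : ℝ)) ((i : ℝ) / 2) with h | h
    · exact hm1.trans (Z6_mono (by linarith))
    · exact hm2.trans (Z6_mono (by linarith))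
  have hprod : ∀ s t : ℝ, m ≤ (2 : ℝ) ^ s → s + t ≤ -((i : ℝ) / 4000) →
      m * (2 : ℝ) ^ t ≤ (2 : ℝ) ^ (-((i : ℝ) / 4000)) := by
    intro s t hs hst
    refine (mul_le_mul_of_nonneg_right hs (by positivity)).trans ?_
    rw [Z6_mul]
    exact Z6_mono hst
  have hlast : m * (hh i ^ ((8 : ℝ) / 5) * lam i) ≤ (2 : ℝ) ^ (-((i : ℝ) / 4000)) := by
    rw [Z6_last]
    exact hprod _ _ hm3 (by nlinarith)
  have hfirst : m * (if Crit i w then nMin i else nGen i w) ≤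
      2 * (2 : ℝ) ^ (-((i : ℝ) / 4000)) := by
    have hp : 0 < (2 : ℝ) ^ (-((i : ℝ) / 4000)) := by positivity
    split_ifs with hc
    · rw [Z6_nMin]
      have := hprod _ (-((i : ℝ) * (3 / 2 + 1 / 4000))) hm3 (by linarith)
      linarith
    · rw [Z6_nGen, mul_add, Z6_mul, Z6_mul, mul_add]
      have h1 : m * (2 : ℝ) ^ ((i : ℝ) * 18 / 8000 + -((i : ℝ) * 2)) ≤
          (2 : ℝ) ^ (-((i : ℝ) / 4000)) := hprod _ _ hm3 (by linarith)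
      have h2 : m * (2 : ℝ) ^ ((i : ℝ) * 18 / 8000 + (-((i : ℝ) * (4 / 3)) - (w : ℝ) / 3)) ≤
          (2 : ℝ) ^ (-((i : ℝ) / 4000)) := by
        unfold Crit at hc
        rw [not_and_or, not_le, not_le] at hc
        rcases hc with h | h
        · have h' : (500 : ℝ) * w + 2 * i < 250 * i := by exact_mod_cast h
          exact hprod _ _ hm1 (by linarith)
        · have h' : (250 : ℝ) * i + 2 * i < 500 * w := by exact_mod_cast h
          exact hprod _ _ hm2 (by linarith)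
      linarith
  have hp : 0 < (2 : ℝ) ^ (-((i : ℝ) / 4000)) := by positivity
  unfold phiZ
  rw [mul_add]
  linarith

theorem Z6_rho (c : ℝ) (i : ℕ) : (2 : ℝ) ^ (-((i : ℝ) * c)) = ((2 : ℝ) ^ (-c)) ^ i := by
  rw [← Real.rpow_natCast, ← Real.rpow_mul (by norm_num)]
  congr 1
  ring

/-- polynomial times geometric -/
theorem Z6_summable (c : ℝ) (hc : 0 < c) (a b : ℝ) :
    Summable (fun i : ℕ => (a * (i : ℝ) ^ 2 + b) * (2 : ℝ) ^ (-((i : ℝ) * c))) := by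
  have hρ0 : 0 < (2 : ℝ) ^ (-c) := by positivity
  have hρ1 : (2 : ℝ) ^ (-c) < 1 := Real.rpow_lt_one_of_one_lt_of_neg (by norm_num) (by linarith)
  have h1 := summable_pow_mul_geometric_of_norm_lt_one 2
    (show ‖(2 : ℝ) ^ (-c)‖ < 1 by rw [Real.norm_of_nonneg hρ0.le]; exact hρ1)
  have h2 := summable_geometric_of_lt_one hρ0.le hρ1
  refine ((h1.mul_left a).add (h2.mul_left b)).congr fun i => ?_
  rw [Z6_rho]
  ring

theorem main_series (w0 : ℕ) : ∃ B : ℝ, ∀ n : ℕ, ∑ i ∈ Finset.range n, ∑ w ∈ Finset.range (i + w0 + 2),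
    ((i : ℝ) + 1) * min (2 ^ (i + w)) (4 ^ i / 2 ^ w) * phiZ i w ≤ B := by
  have hs := Z6_summable (1 / 4000) (by norm_num) (8 * ((w0 : ℝ) + 3)) (8 * ((w0 : ℝ) + 3))
  refine ⟨_, fun n => le_trans ?_ (hs.sum_le_tsum (Finset.range n) (fun i _ => by positivity))⟩
  refine Finset.sum_le_sum fun i _ => ?_
  have hi : (0 : ℝ) ≤ i := Nat.cast_nonneg i
  have hw0 : (0 : ℝ) ≤ w0 := Nat.cast_nonneg w0
  have hp : 0 < (2 : ℝ) ^ (-((i : ℝ) / 4000)) := by positivity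
  calc ∑ w ∈ Finset.range (i + w0 + 2),
        ((i : ℝ) + 1) * min (2 ^ (i + w)) (4 ^ i / 2 ^ w) * phiZ i w
      ≤ ∑ _w ∈ Finset.range (i + w0 + 2),
        ((i : ℝ) + 1) * (4 * (2 : ℝ) ^ (-((i : ℝ) / 4000))) := by
        refine Finset.sum_le_sum fun w _ => ?_
        rw [mul_assoc]
        exact mul_le_mul_of_nonneg_left (Z6_term i w) (by positivity)
    _ = ((i : ℝ) + w0 + 2) * (((i : ℝ) + 1) * (4 * (2 : ℝ) ^ (-((i : ℝ) / 4000)))) := by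
        rw [Finset.sum_const, nsmul_eq_mul, Finset.card_range]
        push_cast
        ring
    _ = (4 * (((i : ℝ) + w0 + 2) * ((i : ℝ) + 1))) * (2 : ℝ) ^ (-((i : ℝ) / 4000)) := by ring
    _ ≤ (8 * ((w0 : ℝ) + 3) * (i : ℝ) ^ 2 + 8 * ((w0 : ℝ) + 3)) *
        (2 : ℝ) ^ (-((i : ℝ) / 4000)) := by
        refine mul_le_mul_of_nonneg_right ?_ hp.le
        nlinarith [sq_nonneg ((i : ℝ) - 1), mul_nonneg hw0 (sq_nonneg ((i : ℝ) - 1)),
          mul_nonneg hi hw0]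
    _ = _ := by
        congr 2
        ring

theorem major_series : ∃ B : ℝ, ∀ n : ℕ, ∑ i ∈ Finset.range n, ∑ w ∈ (Finset.range (i + 1)).filter (Crit i),
    lam i ^ 2176 * (((i : ℝ) + 1) * 2 ^ i) * nGen i w ≤ B := by
  have hs := Z6_summable (1 / 5) (by norm_num) 4 4
  refine ⟨_, fun n => le_trans ?_ (hs.sum_le_tsum (Finset.range n) (fun i _ => by positivity))⟩
  refine Finset.sum_le_sum fun i _ => ?_
  have hi : (0 : ℝ) ≤ i := Nat.cast_nonneg i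
  have hp : 0 < (2 : ℝ) ^ (-((i : ℝ) * (1 / 5))) := by positivity
  have hterm : ∀ w ∈ (Finset.range (i + 1)).filter (Crit i),
      lam i ^ 2176 * (((i : ℝ) + 1) * 2 ^ i) * nGen i w ≤
        ((i : ℝ) + 1) * (2 * (2 : ℝ) ^ (-((i : ℝ) * (1 / 5)))) := by
    intro w hw
    have hc := (Finset.mem_filter.mp hw).2
    have hc1 : (250 : ℝ) * i ≤ 500 * w + 2 * i := by exact_mod_cast hc.1
    have e1 : (2 : ℝ) ^ i = (2 : ℝ) ^ (i : ℝ) := (Real.rpow_natCast 2 i).symm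
    rw [Z6_lam_pow, Z6_nGen, e1]
    have e2 : (2 : ℝ) ^ ((i : ℝ) * (2176 : ℕ) / 8000) * (((i : ℝ) + 1) * (2 : ℝ) ^ (i : ℝ)) *
        ((2 : ℝ) ^ ((i : ℝ) * 18 / 8000) *
        ((2 : ℝ) ^ (-((i : ℝ) * 2)) + (2 : ℝ) ^ (-((i : ℝ) * (4 / 3)) - (w : ℝ) / 3))) =
        ((i : ℝ) + 1) * ((2 : ℝ) ^ ((i : ℝ) * (2176 : ℕ) / 8000 + i + (i : ℝ) * 18 / 8000 +
          -((i : ℝ) * 2)) + (2 : ℝ) ^ ((i : ℝ) * (2176 : ℕ) / 8000 + i + (i : ℝ) * 18 / 8000 +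
          (-((i : ℝ) * (4 / 3)) - (w : ℝ) / 3))) := by
      rw [← Z6_mul _ (-((i : ℝ) * 2)), ← Z6_mul _ (-((i : ℝ) * (4 / 3)) - (w : ℝ) / 3),
        ← Z6_mul _ ((i : ℝ) * 18 / 8000), ← Z6_mul _ (i : ℝ)]
      ring
    rw [e2]
    refine mul_le_mul_of_nonneg_left ?_ (by positivity)
    have h1 : (2 : ℝ) ^ ((i : ℝ) * (2176 : ℕ) / 8000 + i + (i : ℝ) * 18 / 8000 +
          -((i : ℝ) * 2)) ≤ (2 : ℝ) ^ (-((i : ℝ) * (1 / 5))) := Z6_mono (by push_cast; linarith)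
    have h2 : (2 : ℝ) ^ ((i : ℝ) * (2176 : ℕ) / 8000 + i + (i : ℝ) * 18 / 8000 +
          (-((i : ℝ) * (4 / 3)) - (w : ℝ) / 3)) ≤ (2 : ℝ) ^ (-((i : ℝ) * (1 / 5))) :=
      Z6_mono (by push_cast; linarith)
    linarith
  have hcard : (((Finset.range (i + 1)).filter (Crit i)).card : ℝ) ≤ (i : ℝ) + 1 := by
    have := Finset.card_filter_le (Finset.range (i + 1)) (Crit i)
    rw [Finset.card_range] at this
    exact_mod_cast this
  calc ∑ w ∈ (Finset.range (i + 1)).filter (Crit i),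
        lam i ^ 2176 * (((i : ℝ) + 1) * 2 ^ i) * nGen i w
      ≤ ∑ _w ∈ (Finset.range (i + 1)).filter (Crit i),
        ((i : ℝ) + 1) * (2 * (2 : ℝ) ^ (-((i : ℝ) * (1 / 5)))) := Finset.sum_le_sum hterm
    _ = ((Finset.range (i + 1)).filter (Crit i)).card *
        (((i : ℝ) + 1) * (2 * (2 : ℝ) ^ (-((i : ℝ) * (1 / 5))))) := by
        rw [Finset.sum_const, nsmul_eq_mul]
    _ ≤ ((i : ℝ) + 1) * (((i : ℝ) + 1) * (2 * (2 : ℝ) ^ (-((i : ℝ) * (1 / 5))))) :=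
        mul_le_mul_of_nonneg_right hcard (by positivity)
    _ = (2 * ((i : ℝ) + 1) ^ 2) * (2 : ℝ) ^ (-((i : ℝ) * (1 / 5))) := by ring
    _ ≤ (4 * (i : ℝ) ^ 2 + 4) * (2 : ℝ) ^ (-((i : ℝ) * (1 / 5))) := by
        refine mul_le_mul_of_nonneg_right ?_ hp.le
        nlinarith [sq_nonneg ((i : ℝ) - 1)]

end MuntzF
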