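import Pool.Agent.Lib.MP_dde81e_full.Z4
import Pool.Agent.Lib.MP_dde81e_full.Z6
import Pool.Agent.Lib.MP_dde81e_full.L8

/-!
Module Z5 (text 11 (3)): the critical major windows.  Group E by (i,w) = (ij, d.1).  For given (i,w): the dyadic intervals d occurring are major of critical length: at most C lam^2176 (major_card), and each occurs at most C' (i+1) 2^i times (cw3', number of j).
So the number of pairs is at most C C' lam^2176 (i+1) 2^i; major_series.
-/

namespace MuntzF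
open Set

theorem Z5_nGen_nonneg (i w : ℕ) : 0 ≤ nGen i w := by
  have h1 : 0 < hh i := by unfold hh; positivity
  have h2 : 0 < lam i := by unfold lam; positivity
  unfold nGen
  positivity

theorem Z5_crit_le {i w : ℕ} (h : Crit i w) : w ≤ i := by
  have := h.2
  omega

theorem Z5_card {F : ℂ × ℂ → ℂ} {b0 : ℝ} (X : Ctx F b0) : ∃ C : ℝ, 0 < C ∧
    ∀ (i w : ℕ) (E : Finset (ℕ × (ℕ × ℕ))), Crit i w → (∀ e ∈ E, X.win e.1 e.2 ∧
      X.ij e.1 e.2 = i ∧ e.2.1 = w ∧ ¬ MinorZ i (dc e.2)) →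
    (E.card : ℝ) ≤ C * (lam i ^ 2176 * (((i : ℝ) + 1) * 2 ^ i)) := by
  classical
  have hb := X.env.cs.hb
  have hw0 : 400 * b0 ≤ 2 ^ X.w0 := by have := X.hw0; linarith
  obtain ⟨C1, hC1, h1⟩ := major_card hb
  obtain ⟨C2, hC2, h2⟩ := cw3' X.env.cs hw0
  refine ⟨C1 * C2, by positivity, ?_⟩
  intro i w E hcr hE
  have e1 : (E.card : ℝ) = ∑ d ∈ E.image Prod.snd, ((E.filter (fun e => e.2 = d)).card : ℝ) := by
    rw [← Nat.cast_sum, ← Finset.card_eq_sum_card_fiberwise]
    intro e he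
    exact Finset.mem_coe.2 (Finset.mem_image_of_mem _ (Finset.mem_coe.1 he))
  have e2 : ∀ d ∈ E.image Prod.snd, ((E.filter (fun e => e.2 = d)).card : ℝ)
      ≤ C2 * ((i : ℝ) + 1) * 2 ^ i := by
    intro d _
    have e3 : (E.filter (fun e => e.2 = d)).card = ((E.filter (fun e => e.2 = d)).image Prod.fst).card := by
      rw [Finset.card_image_of_injOn]
      intro e he f hf hef
      have b1 := (Finset.mem_filter.1 (Finset.mem_coe.1 he)).2
      have b2 := (Finset.mem_filter.1 (Finset.mem_coe.1 hf)).2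
      exact Prod.ext hef (b1.trans b2.symm)
    rw [e3]
    apply h2 i d
    intro j hj
    obtain ⟨e, he, rfl⟩ := Finset.mem_image.1 hj
    obtain ⟨b1, b2⟩ := Finset.mem_filter.1 he
    obtain ⟨a1, a2, -, -⟩ := hE e b1
    rw [← b2]
    exact ⟨a1.1, a1.2, a2⟩
  have e4 : ((E.image Prod.snd).card : ℝ) ≤ C1 * lam i ^ 2176 := by
    apply h1 i w _ hcr
    intro d hd
    obtain ⟨e, he, rfl⟩ := Finset.mem_image.1 hd
    obtain ⟨a1, -, a3, a4⟩ := hE e he
    exact ⟨a3, a1.2.2.1, a4⟩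
  rw [e1]
  refine (Finset.sum_le_sum e2).trans ?_
  rw [Finset.sum_const, nsmul_eq_mul]
  calc ((E.image Prod.snd).card : ℝ) * (C2 * ((i : ℝ) + 1) * 2 ^ i)
      ≤ (C1 * lam i ^ 2176) * (C2 * ((i : ℝ) + 1) * 2 ^ i) :=
        mul_le_mul_of_nonneg_right e4 (by positivity)
    _ = C1 * C2 * (lam i ^ 2176 * (((i : ℝ) + 1) * 2 ^ i)) := by ring

theorem major_sum {F : ℂ × ℂ → ℂ} {b0 : ℝ} (X : Ctx F b0) : ∃ C : ℝ, 0 < C ∧
    ∀ E : Finset (ℕ × (ℕ × ℕ)), (∀ e ∈ E, X.win e.1 e.2 ∧ Crit (X.ij e.1 e.2) e.2.1 ∧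
      ¬ MinorZ (X.ij e.1 e.2) (dc e.2)) →
    ∑ e ∈ E, nGen (X.ij e.1 e.2) e.2.1 ≤ C := by
  classical
  obtain ⟨C, hC, hcard⟩ := Z5_card X
  obtain ⟨B, hB⟩ := major_series
  refine ⟨C * max B 1, by positivity, ?_⟩
  intro E hE
  obtain ⟨g, hg⟩ : ∃ g : ℕ × (ℕ × ℕ) → ℕ, ∀ e, g e = X.ij e.1 e.2 := ⟨_, fun _ => rfl⟩
  simp only [← hg]
  obtain ⟨n, hn⟩ : ∃ n, ∀ e ∈ E, g e < n :=
    ⟨E.sup g + 1, fun e he => Nat.lt_succ_iff.2 (Finset.le_sup he)⟩
  have m1 : ∀ e ∈ E, g e ∈ Finset.range n := by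
    intro e he
    rw [Finset.mem_range]
    exact hn e he
  have m2 : ∀ e ∈ E, e.2.1 ∈ (Finset.range (g e + 1)).filter (Crit (g e)) := by
    intro e he
    obtain ⟨-, a2, -⟩ := hE e he
    rw [Finset.mem_filter, Finset.mem_range, hg]
    exact ⟨Nat.lt_succ_of_le (Z5_crit_le a2), a2⟩
  have s1 : ∑ e ∈ E, nGen (g e) e.2.1 = ∑ i ∈ Finset.range n,
      ∑ w ∈ (Finset.range (i + 1)).filter (Crit i),
        ∑ e ∈ (E.filter (fun e => g e = i)).filter (fun e => e.2.1 = w),
          nGen (g e) e.2.1 := by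
    rw [← Finset.sum_fiberwise_of_maps_to m1]
    refine Finset.sum_congr rfl (fun i _ => ?_)
    rw [← Finset.sum_fiberwise_of_maps_to (t := (Finset.range (i + 1)).filter (Crit i))
      (g := fun e : ℕ × (ℕ × ℕ) => e.2.1)]
    intro e he
    obtain ⟨he1, he2⟩ := Finset.mem_filter.1 he
    have := m2 e he1
    rw [he2] at this
    exact this
  rw [s1]
  calc _ ≤ ∑ i ∈ Finset.range n, ∑ w ∈ (Finset.range (i + 1)).filter (Crit i),
        C * (lam i ^ 2176 * (((i : ℝ) + 1) * 2 ^ i) * nGen i w) := by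
        refine Finset.sum_le_sum (fun i _ => Finset.sum_le_sum (fun w hw => ?_))
        have hcr := (Finset.mem_filter.1 hw).2
        have s2 : ∑ e ∈ (E.filter (fun e => g e = i)).filter (fun e => e.2.1 = w),
            nGen (g e) e.2.1 =
            (((E.filter (fun e => g e = i)).filter (fun e => e.2.1 = w)).card : ℝ) *
              nGen i w := by
          rw [← nsmul_eq_mul, ← Finset.sum_const]
          refine Finset.sum_congr rfl (fun e he => ?_)
          obtain ⟨b1, b2⟩ := Finset.mem_filter.1 he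
          rw [(Finset.mem_filter.1 b1).2, b2]
        rw [s2]
        have s3 := hcard i w
          ((E.filter (fun e => g e = i)).filter (fun e => e.2.1 = w)) hcr (by
            intro e he
            obtain ⟨b1, b2⟩ := Finset.mem_filter.1 he
            obtain ⟨b3, b4⟩ := Finset.mem_filter.1 b1
            obtain ⟨a1, a2, a3⟩ := hE e b3
            have b5 : X.ij e.1 e.2 = i := (hg e).symm.trans b4
            rw [b5] at a3
            exact ⟨a1, b5, b2, a3⟩)
        have s4 := mul_le_mul_of_nonneg_right s3 (Z5_nGen_nonneg i w)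
        calc _ ≤ _ := s4
          _ = _ := by ring
    _ = C * ∑ i ∈ Finset.range n, ∑ w ∈ (Finset.range (i + 1)).filter (Crit i),
        lam i ^ 2176 * (((i : ℝ) + 1) * 2 ^ i) * nGen i w := by
        rw [Finset.mul_sum]
        refine Finset.sum_congr rfl (fun i _ => ?_)
        rw [Finset.mul_sum]
    _ ≤ C * max B 1 := by
        refine mul_le_mul_of_nonneg_left (le_trans ?_ (le_max_left B 1)) hC.le
        have := hB n
        convert this

end MuntzF
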