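import Pool.Agent.Lib.MP_dde81e_full.Z3
import Pool.Agent.Lib.MP_dde81e_full.Z5

/-!
Module Z7 (text 11): sum over all windows.  For e = (j,d) in E with i = ij: window_bound with n = nMin i if Crit i d.1 and MinorZ i (dc d) (bt2), n = nGen i d.1 otherwise (bt1).
So the sum is ≤ 16384 * (sum over the windows that are not (critical and major) of phiZ) + 16384 * major_sum + C * (sum of phiZ) + sum over triples (j,d,l) of nl/4^j (GOAL10: the triples (j,d,l), l in LL(e), as a Finset sigma/biUnion).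
For critical major windows the term h^(8/5) lam is ≤ phiZ too.  Sums of phiZ by win_sum and main_series (4^(i) weights).  win_sum is stated for CSeq: X.env.cs, hw0 : 400 b0 ≤ 2^w0 follows from X.hw0.
-/

namespace MuntzF
open Set

theorem sum_windows {F : ℂ × ℂ → ℂ} {b0 : ℝ} (X : Ctx F b0) (h1 : BT1 X) (h2 : BT2 X)
    (hV : VCount X) (hG : GOAL10 X) : ∃ (C : ℝ) (i1 k : ℕ), ∀ E : Finset (ℕ × (ℕ × ℕ)),
      (∀ e ∈ E, k ≤ e.1 ∧ X.win e.1 e.2 ∧ i1 ≤ X.ij e.1 e.2) →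
      ∑ e ∈ E, ((Zc F b0 e.1 e.2).ncard : ℝ) / 4 ^ e.1 ≤ C := by
  classical
  have hb : 2 ≤ b0 := X.env.cs.hb
  have hw0 : 400 * b0 ≤ 2 ^ X.w0 := by linarith [X.hw0]
  obtain ⟨a1, h1⟩ := h1
  obtain ⟨a2, h2⟩ := h2
  obtain ⟨CW, a3, hCW, h3⟩ := window_bound X hV
  obtain ⟨CG, k, hG⟩ := hG
  obtain ⟨CM, hCM, hM⟩ := major_sum X
  obtain ⟨CS, hCS, hS⟩ := win_sum X.env.cs hw0
  obtain ⟨B, hB⟩ := main_series X.w0
  refine ⟨16384 * (CM + CS * B) + CW * (CS * B) + CG, max a1 (max a2 a3), k, fun E hE => ?_⟩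
  have hhp : ∀ i, 0 < hh i := fun i => by unfold hh; positivity
  have hlp : ∀ i, 0 < lam i := fun i => by unfold lam; positivity
  have hphi : ∑ e ∈ E, phiZ (X.ij e.1 e.2) e.2.1 ≤ CS * B :=
    hS phiZ B phiZ_nonneg hB E (fun e he => (hE e he).2.1)
  have hGen0 : ∀ i w, 0 ≤ nGen i w := fun i w => by
    have := hhp i
    have := hlp i
    unfold nGen
    positivity
  have hMin0 : ∀ i, 0 ≤ nMin i := fun i => by
    have := hhp i
    have := hlp i
    unfold nMin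
    positivity
  -- the major windows
  set maj : ℕ × (ℕ × ℕ) → Prop := fun e => Crit (X.ij e.1 e.2) e.2.1 ∧
    ¬ MinorZ (X.ij e.1 e.2) (dc e.2) with hmaj
  set nn : ℕ × (ℕ × ℕ) → ℝ := fun e => if Crit (X.ij e.1 e.2) e.2.1 ∧
    MinorZ (X.ij e.1 e.2) (dc e.2) then nMin (X.ij e.1 e.2) else nGen (X.ij e.1 e.2) e.2.1 with hnn
  -- the bound for one window
  have hwin : ∀ e ∈ E, ∃ LL : Finset Ln, (∀ l ∈ LL, Rich X e.1 e.2 l) ∧
      ((Zc F b0 e.1 e.2).ncard : ℝ) / 4 ^ e.1 ≤ 16384 * nn e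
        + CW * (hh (X.ij e.1 e.2) ^ ((8 : ℝ) / 5) * lam (X.ij e.1 e.2))
        + ∑ l ∈ LL, (nl F b0 e.1 e.2 l : ℝ) / 4 ^ e.1 := by
    intro e he
    obtain ⟨hk, hw, hi⟩ := hE e he
    have hi1 : a1 ≤ X.ij e.1 e.2 := le_trans (le_max_left _ _) hi
    have hi2 : a2 ≤ X.ij e.1 e.2 :=
      le_trans ((le_max_left _ _).trans (le_max_right _ _)) hi
    have hi3 : a3 ≤ X.ij e.1 e.2 :=
      le_trans ((le_max_right _ _).trans (le_max_right _ _)) hi
    obtain ⟨LL, hLL1, hLL2⟩ := h3 e.1 e.2 (nn e) hw hi3 (by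
      intro x0 θ0 b1 b2 b3
      simp only [hnn]
      split_ifs with hc
      · exact h2 e.1 e.2 x0 θ0 hw hi2 hc.1 hc.2 b1 b2 b3
      · exact h1 e.1 e.2 x0 θ0 hw hi1 b1 b2 b3)
    refine ⟨LL, hLL1, ?_⟩
    have h4 : (0 : ℝ) < 4 ^ e.1 := by positivity
    rw [div_le_iff₀ h4, add_mul, add_mul, Finset.sum_mul]
    have e1 : ∑ l ∈ LL, (nl F b0 e.1 e.2 l : ℝ) / 4 ^ e.1 * 4 ^ e.1 = ∑ l ∈ LL, (nl F b0 e.1 e.2 l : ℝ) :=
      Finset.sum_congr rfl fun l _ => by field_simp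
    rw [e1]
    exact hLL2
  choose! LL hLL1 hLL2 using hwin
  have hterm : ∑ e ∈ E, ((Zc F b0 e.1 e.2).ncard : ℝ) / 4 ^ e.1 ≤
      ∑ e ∈ E, (16384 * nn e
        + CW * (hh (X.ij e.1 e.2) ^ ((8 : ℝ) / 5) * lam (X.ij e.1 e.2))
        + ∑ l ∈ LL e, (nl F b0 e.1 e.2 l : ℝ) / 4 ^ e.1) := Finset.sum_le_sum hLL2
  rw [Finset.sum_add_distrib, Finset.sum_add_distrib, ← Finset.mul_sum, ← Finset.mul_sum] at hterm
  -- first sum
  have hA : ∑ e ∈ E, nn e ≤ CM + CS * B := by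
    rw [← Finset.sum_filter_add_sum_filter_not E maj]
    apply add_le_add
    · calc ∑ e ∈ E.filter maj, nn e = ∑ e ∈ E.filter maj, nGen (X.ij e.1 e.2) e.2.1 := by
            refine Finset.sum_congr rfl fun e he => ?_
            have hm := (Finset.mem_filter.1 he).2
            simp only [hnn]
            rw [if_neg]
            exact fun hc => hm.2 hc.2
        _ ≤ CM := hM _ (fun e he => by
            rw [Finset.mem_filter] at he
            exact ⟨(hE e he.1).2.1, he.2.1, he.2.2⟩)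
    · calc ∑ e ∈ E.filter (fun e => ¬ maj e), nn e
          ≤ ∑ e ∈ E.filter (fun e => ¬ maj e), phiZ (X.ij e.1 e.2) e.2.1 := by
            refine Finset.sum_le_sum fun e he => ?_
            have hm := (Finset.mem_filter.1 he).2
            have h5 : 0 ≤ hh (X.ij e.1 e.2) ^ ((8 : ℝ) / 5) * lam (X.ij e.1 e.2) := by
              have := hhp (X.ij e.1 e.2)
              have := hlp (X.ij e.1 e.2)
              positivity
            simp only [hnn, phiZ]
            by_cases hc : Crit (X.ij e.1 e.2) e.2.1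
            · by_cases hmi : MinorZ (X.ij e.1 e.2) (dc e.2)
              · rw [if_pos ⟨hc, hmi⟩, if_pos hc]
                linarith
              · exact absurd ⟨hc, hmi⟩ hm
            · rw [if_neg (fun h => hc h.1), if_neg hc]
              linarith
        _ ≤ ∑ e ∈ E, phiZ (X.ij e.1 e.2) e.2.1 :=
            Finset.sum_le_sum_of_subset_of_nonneg (Finset.filter_subset _ _)
              (fun e _ _ => phiZ_nonneg _ _)
        _ ≤ CS * B := hphi
  -- second sum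
  have hB2 : ∑ e ∈ E, (hh (X.ij e.1 e.2) ^ ((8 : ℝ) / 5) * lam (X.ij e.1 e.2)) ≤ CS * B := by
    refine le_trans (Finset.sum_le_sum fun e _ => ?_) hphi
    unfold phiZ
    have h6 : 0 ≤ (if Crit (X.ij e.1 e.2) e.2.1 then nMin (X.ij e.1 e.2)
        else nGen (X.ij e.1 e.2) e.2.1) := by
      split_ifs
      · exact hMin0 _
      · exact hGen0 _ _
    linarith
  -- third sum
  have hC3 : ∑ e ∈ E, ∑ l ∈ LL e, (nl F b0 e.1 e.2 l : ℝ) / 4 ^ e.1 ≤ CG := by
    set T : Finset (ℕ × (ℕ × ℕ) × Ln) := E.biUnion (fun e => (LL e).image (fun l => (e.1, e.2, l)))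
      with hT
    have hTsum : ∑ t ∈ T, (nl F b0 t.1 t.2.1 t.2.2 : ℝ) / 4 ^ t.1
        = ∑ e ∈ E, ∑ l ∈ LL e, (nl F b0 e.1 e.2 l : ℝ) / 4 ^ e.1 := by
      rw [hT, Finset.sum_biUnion]
      · refine Finset.sum_congr rfl fun e _ => ?_
        rw [Finset.sum_image]
        intro l _ l' _ hll
        simpa using hll
      · intro e _ e' _ hee
        rw [Function.onFun, Finset.disjoint_left]
        intro t ht ht'
        rw [Finset.mem_image] at ht ht'
        obtain ⟨l, _, rfl⟩ := ht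
        obtain ⟨l', _, hl'⟩ := ht'
        apply hee
        simp only [Prod.mk.injEq] at hl'
        ext
        · exact hl'.1.symm
        · exact (congrArg Prod.fst hl'.2.1).symm
        · exact (congrArg Prod.snd hl'.2.1).symm
    rw [← hTsum]
    apply hG
    intro t ht
    rw [hT, Finset.mem_biUnion] at ht
    obtain ⟨e, he, ht⟩ := ht
    rw [Finset.mem_image] at ht
    obtain ⟨l, hl, rfl⟩ := ht
    exact ⟨(hE e he).1, (hE e he).2.1, hLL1 e he l hl⟩
  have hB3 : CW * ∑ e ∈ E, (hh (X.ij e.1 e.2) ^ ((8 : ℝ) / 5) * lam (X.ij e.1 e.2))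
      ≤ CW * (CS * B) := mul_le_mul_of_nonneg_left hB2 hCW.le
  linarith

end MuntzF
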