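import Pool.Agent.Lib.MP_dde81e_full.Z1
import Pool.Agent.Lib.MP_dde81e_full.Z7
import Pool.Agent.Lib.MP_dde81e_full.B7

/-!
Module Z8 (text 11): (MAIN).  Z ⊆ zeros of F with slope in I0 ⊆ I2.  X from ctx_exists.  sum_windows gives C, i1, k.  lev_large (i1 + 1): j1 with i1 + 1 ≤ lev j θ on I2 for j ≥ j1.  For j ≥ max k j1 (2 j0 + 100): every p ∈ Z in the block j has slope θ in a cell of a window d
(win_cover), and ij d ≥ lev - 1 ≥ i1 (win_lev).  Let Wj = finite set of windows at scale j (win_fin).  ncard (Z ∩ block j) ≤ sum over d ∈ Wj with ij ≥ i1 of ncard (Zc F b0 j d) ((m,n) ↦ ((m:ℤ),(n:ℤ)) is injective).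
Summability of dens Z from the bound of finite sums of nonnegative terms (finitely many j < k_* are trivial): summable_of_sum_le with c = (sum over j < k_* of dens) + C.
-/

namespace MuntzF
open Set

theorem main_of_ctx {F : ℂ × ℂ → ℂ} {b0 : ℝ} (X : Ctx F b0) (h1 : BT1 X) (h2 : BT2 X)
    (hV : VCount X) (hG : GOAL10 X) (Z : Set (ℕ × ℕ))
    (hZ : ∀ p ∈ Z, 1 ≤ p.1 ∧ (p.2 : ℝ) / p.1 ∈ I0 b0 ∧ F ((p.1 : ℂ), (p.2 : ℂ)) = 0) :
    Summable (Muntz.dens Z) := by
  classical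
  have hb : 2 ≤ b0 := X.env.cs.hb
  have hw0 : 400 * b0 ≤ 2 ^ X.w0 := by linarith [X.hw0]
  obtain ⟨C, i1, k, hC⟩ := sum_windows X h1 h2 hV hG
  obtain ⟨j1, hj1⟩ := lev_large X.env.cs hw0 (i1 + 1)
  set K0 : ℕ := max k (max j1 (2 * X.j0 + 100)) with hK0
  have hKk : k ≤ K0 := le_max_left _ _
  have hKj1 : j1 ≤ K0 := (le_max_left _ _).trans (le_max_right _ _)
  have hKj0 : 2 * X.j0 + 100 ≤ K0 := (le_max_right _ _).trans (le_max_right _ _)
  -- the windows
  set W : ℕ → Finset (ℕ × ℕ) := fun j => if h : 2 * X.j0 + 100 ≤ j then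
    (win_fin X.env.cs hw0 h).toFinset.filter (fun d => i1 ≤ X.ij j d) else ∅ with hW
  have hWm : ∀ j, K0 ≤ j → ∀ d, d ∈ W j ↔ IsWin b0 X.c X.L X.w0 j d ∧ i1 ≤ X.ij j d := by
    intro j hj d
    have h : 2 * X.j0 + 100 ≤ j := hKj0.trans hj
    simp only [hW, dif_pos h, Finset.mem_filter, Set.Finite.mem_toFinset, Set.mem_setOf_eq]
  have hd0 : ∀ j, 0 ≤ Muntz.dens Z j := fun j => by unfold Muntz.dens; positivity
  -- the bound of one scale
  have hone : ∀ j, K0 ≤ j → Muntz.dens Z j ≤ ∑ d ∈ W j, ((Zc F b0 j d).ncard : ℝ) / 4 ^ j := by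
    intro j hj
    unfold Muntz.dens
    rw [← Finset.sum_div]
    apply div_le_div_of_nonneg_right _ (by positivity)
    set ψ : ℕ × ℕ → ℤ × ℤ := fun p => ((p.1 : ℤ), (p.2 : ℤ)) with hψ
    have hinj : Function.Injective ψ := by
      intro p q hpq
      simp only [hψ, Prod.mk.injEq, Nat.cast_inj] at hpq
      ext
      · exact hpq.1
      · exact hpq.2
    have hsub : ψ '' (Z ∩ {p | 2 ^ j ≤ p.1 ∧ p.1 < 2 ^ (j + 1)}) ⊆
        ((W j).biUnion (fun d => (zc_finite F hb j d).toFinset) : Finset (ℤ × ℤ)) := by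
      rintro _ ⟨p, ⟨hp, hp1, hp2⟩, rfl⟩
      obtain ⟨h3, h4, h5⟩ := hZ p hp
      have hθ : (p.2 : ℝ) / p.1 ∈ I2 b0 := by
        unfold I0 at h4
        unfold I2
        constructor
        · refine le_trans ?_ h4.1
          rw [div_le_div_iff₀ (by linarith) (by linarith)]
          linarith
        · refine le_trans h4.2 ?_
          linarith
      obtain ⟨d, hd1, hd2⟩ := win_cover X.env.cs hw0 (hKj0.trans hj) hθ
      have hst : (p.2 : ℝ) / p.1 ∈ st d := (cell_sub_st d).1 hd2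
      have hlev := win_lev hd1 hst
      have hlev2 := hj1 j (hKj1.trans hj) _ hθ
      have hij : i1 ≤ X.ij j d := by
        unfold Ctx.ij
        omega
      rw [Finset.mem_coe, Finset.mem_biUnion]
      refine ⟨d, (hWm j hj d).2 ⟨hd1, hij⟩, ?_⟩
      rw [Set.Finite.mem_toFinset]
      refine ⟨⟨?_, ?_, ?_⟩, ?_, ?_, ?_⟩
      · show (1 : ℤ) ≤ (p.1 : ℤ)
        exact_mod_cast h3
      · show (((p.2 : ℤ) : ℝ)) / ((p.1 : ℤ) : ℝ) ∈ I0 b0
        push_cast
        exact h4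
      · show F (((p.1 : ℤ) : ℂ), ((p.2 : ℤ) : ℂ)) = 0
        push_cast
        exact h5
      · show (2 : ℤ) ^ j ≤ (p.1 : ℤ)
        exact_mod_cast hp1
      · show (p.1 : ℤ) < 2 ^ (j + 1)
        exact_mod_cast hp2
      · show (((p.2 : ℤ) : ℝ)) / ((p.1 : ℤ) : ℝ) ∈ cell d
        push_cast
        exact hd2
    have h6 := Set.ncard_le_ncard hsub (Finset.finite_toSet _)
    rw [Set.ncard_image_of_injective _ hinj, Set.ncard_coe_finset] at h6
    have h7 := h6.trans Finset.card_biUnion_le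
    have h8 : ∀ d, ((zc_finite F hb j d).toFinset).card = (Zc F b0 j d).ncard := fun d =>
      (Set.ncard_eq_toFinset_card _ (zc_finite F hb j d)).symm
    simp only [h8] at h7
    exact_mod_cast h7
  apply summable_of_sum_le (c := ∑ j ∈ Finset.range K0, Muntz.dens Z j + C) hd0
  intro u
  rw [← Finset.sum_filter_add_sum_filter_not u (fun j => j < K0)]
  apply add_le_add
  · apply Finset.sum_le_sum_of_subset_of_nonneg
    · intro j hj
      rw [Finset.mem_filter] at hj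
      exact Finset.mem_range.2 hj.2
    · intro j _ _
      exact hd0 j
  · set v := u.filter (fun j => ¬ j < K0) with hv
    have hvm : ∀ j ∈ v, K0 ≤ j := fun j hj => not_lt.1 (Finset.mem_filter.1 hj).2
    set E : Finset (ℕ × (ℕ × ℕ)) := v.biUnion (fun j => (W j).image (fun d => (j, d))) with hE
    have hEsum : ∑ e ∈ E, ((Zc F b0 e.1 e.2).ncard : ℝ) / 4 ^ e.1
        = ∑ j ∈ v, ∑ d ∈ W j, ((Zc F b0 j d).ncard : ℝ) / 4 ^ j := by
      rw [hE, Finset.sum_biUnion]
      · refine Finset.sum_congr rfl fun j _ => ?_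
        rw [Finset.sum_image]
        intro d _ d' _ hdd
        simpa using hdd
      · intro j _ j' _ hjj
        rw [Function.onFun, Finset.disjoint_left]
        intro t ht ht'
        rw [Finset.mem_image] at ht ht'
        obtain ⟨d, _, rfl⟩ := ht
        obtain ⟨d', _, hd'⟩ := ht'
        apply hjj
        exact (congrArg Prod.fst hd').symm
    calc ∑ j ∈ v, Muntz.dens Z j
        ≤ ∑ j ∈ v, ∑ d ∈ W j, ((Zc F b0 j d).ncard : ℝ) / 4 ^ j :=
          Finset.sum_le_sum fun j hj => hone j (hvm j hj)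
      _ = ∑ e ∈ E, ((Zc F b0 e.1 e.2).ncard : ℝ) / 4 ^ e.1 := hEsum.symm
      _ ≤ C := by
          apply hC
          intro e he
          rw [hE, Finset.mem_biUnion] at he
          obtain ⟨j, hj, he⟩ := he
          rw [Finset.mem_image] at he
          obtain ⟨d, hd, rfl⟩ := he
          have hjK := hvm j hj
          obtain ⟨b1, b2⟩ := (hWm j hjK d).1 hd
          exact ⟨hKk.trans hjK, ⟨hKj0.trans hjK, b1⟩, b2⟩

theorem mainStmt_of (H : ∀ (F : ℂ × ℂ → ℂ) (b0 : ℝ) (X : Ctx F b0), BT1 X ∧ BT2 X ∧ VCount X ∧ GOAL10 X) :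
    MainStmt := by
  intro F hF b0 hb Z hZ
  obtain ⟨X⟩ := ctx_exists hF hb
  obtain ⟨h1, h2, h3, h4⟩ := H F b0 X
  exact main_of_ctx X h1 h2 h3 h4 Z hZ

end MuntzF
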