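import Pool.Agent.Lib.MP_dde81e_full.T9
import Pool.Agent.Lib.MP_dde81e_full.T10
import Pool.Agent.Lib.MP_dde81e_full.E11
import Pool.Agent.Lib.MP_dde81e_full.R23
import Pool.Agent.Lib.MP_dde81e_full.Z1
import Pool.Agent.Lib.MP_dde81e_full.Z8

/-!
Module Z9: the borders of section 11 (BT1, BT2, VCount, GOAL10) hold, and the main statement.
-/

namespace MuntzF
open Set

theorem vcount {F : ℂ × ℂ → ℂ} {b0 : ℝ} (X : Ctx F b0) : VCount X := by
  obtain ⟨C, i1, hC, H⟩ := valley_count X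
  refine ⟨C, i1, hC, ?_⟩
  intro j d x0 θ0 LL hw hi hcell h1 h2 hθ hLL
  exact H j d LL hw hi hcell (fun l hl => ⟨x0, θ0, h1, h2, hθ, hLL l hl⟩)

theorem borders (F : ℂ × ℂ → ℂ) (b0 : ℝ) (X : Ctx F b0) : BT1 X ∧ BT2 X ∧ VCount X ∧ GOAL10 X :=
  ⟨bt1 X, bt2 X, vcount X, goal10 X⟩

theorem mainStmt : MainStmt := mainStmt_of borders

end MuntzF
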